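import Pool.Agent.Helper73.BD.Defs

/-!
# BD-A0: choosing numbers outside small sets; union of absorbing systems

`pick`: the interval `[a,b]` contains at least `(b-a)/m - 1` integers congruent to `r` modulo `m`.
`Abs.append`, `Gd.append`: concatenate the lists; all multisets add up (`(L ∪ L').val = L.val + L'.val` for disjoint `L, L'`: `Finset.disjUnion`, `Finset.union_val`,
`Multiset.Nodup`...).
-/

set_option autoImplicit false

namespace Pool.Agent.BD

open Finset Pool.Agent.SEM

private theorem val_union80 {L L' : Finset ℕ} (h : Disjoint L L') : (L ∪ L').val = L.val + L'.val := by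
  rw [← Finset.disjUnion_eq_union L L' h]
  rfl

private theorem lbls_append80 (A A' : List (ℤ × ℤ × ℤ)) (C C' : List (ℤ × ℤ × ℤ × ℤ)) :
    lbls (A ++ A') (C ++ C') = lbls A C + lbls A' C' := by
  unfold lbls
  simp only [List.map_append, ← Multiset.coe_add]
  abel

private theorem smms_append80 (e : ℕ) (A A' : List (ℤ × ℤ × ℤ)) (C C' : List (ℤ × ℤ × ℤ × ℤ)) :
    smms e (A ++ A') (C ++ C') = smms e A C + smms e A' C' := by
  unfold smms
  simp only [List.map_append, ← Multiset.coe_add]
  split_ifs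
  · abel
  · abel

private theorem crs_append80 (e : ℕ) (L1 L2 L1' L2' : List (ℤ × ℤ)) :
    crs e (L1 ++ L1') (L2 ++ L2') = crs e L1 L2 + crs e L1' L2' := by
  unfold crs
  simp only [List.map_append, ← Multiset.coe_add]
  split_ifs
  · abel
  · abel

theorem pick (m : ℕ) (hm : 0 < m) (r a b : ℤ) (Bad : Finset ℤ) (h : (m : ℤ) * (Bad.card + 1) ≤ b - a) :
    ∃ c : ℤ, a ≤ c ∧ c ≤ b ∧ c ≡ r [ZMOD m] ∧ c ∉ Bad := by
  have hm' : (0 : ℤ) < m := by exact_mod_cast hm
  set f : ℕ → ℤ := fun i => a + (r - a) % m + m * i with hf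
  have hinj : Function.Injective f := by
    intro i j hij
    simp only [hf] at hij
    have h1 : (m : ℤ) * i = m * j := by linarith
    have h2 := mul_left_cancel₀ hm'.ne' h1
    exact_mod_cast h2
  have hcard : Bad.card < ((Finset.range (Bad.card + 1)).image f).card := by
    rw [Finset.card_image_of_injective _ hinj, Finset.card_range]
    exact Nat.lt_succ_self _
  obtain ⟨c, hc, hcB⟩ := Finset.exists_mem_notMem_of_card_lt_card hcard
  rw [Finset.mem_image] at hc
  obtain ⟨i, hi, rfl⟩ := hc
  rw [Finset.mem_range] at hi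
  have h1 := Int.emod_nonneg (r - a) hm'.ne'
  have h2 := Int.emod_lt_of_pos (r - a) hm'
  have hi' : (i : ℤ) ≤ Bad.card := by exact_mod_cast (by omega : i ≤ Bad.card)
  refine ⟨f i, ?_, ?_, ?_, hcB⟩
  · simp only [hf]
    have : 0 ≤ (m : ℤ) * i := by positivity
    linarith
  · simp only [hf]
    have : (m : ℤ) * i ≤ m * Bad.card := mul_le_mul_of_nonneg_left hi' hm'.le
    nlinarith
  · simp only [hf]
    have e1 : a + (r - a) % m + m * i = r + m * (i - (r - a) / m) := by
      have := Int.emod_add_mul_ediv (r - a) m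
      linear_combination this
    rw [e1]
    exact (Int.modEq_iff_dvd.2 ⟨-(i - (r - a) / m), by ring⟩)

theorem Abs.append {e : ℕ} {L1 L2 L1' L2' : List (ℤ × ℤ)} {L S L' S' : Finset ℕ} (h : Abs e L1 L2 L S)
    (h' : Abs e L1' L2' L' S') (hL : Disjoint L L') (hS : Disjoint S S') :
    Abs e (L1 ++ L1') (L2 ++ L2') (L ∪ L') (S ∪ S') := by
  obtain ⟨A, C, h1, h2, h3, h4, h5, h6⟩ := h
  obtain ⟨A', C', h1', h2', h3', h4', h5', h6'⟩ := h'
  refine ⟨A ++ A', C ++ C', ?_, ?_, ?_, ?_, ?_, ?_⟩
  · rw [List.map_append, h1, h1']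
  · rw [List.map_append, h2, h2']
  · intro z hz
    rcases List.mem_append.1 hz with hz | hz
    · exact h3 z hz
    · exact h3' z hz
  · intro z hz
    rcases List.mem_append.1 hz with hz | hz
    · exact h4 z hz
    · exact h4' z hz
  · rw [lbls_append80, h5, h5', val_union80 hL]
  · rw [smms_append80, h6, h6', val_union80 hS]

theorem Gd.append {e n : ℕ} {UX US : Finset ℕ} {L1 L2 L1' L2' : List (ℤ × ℤ)} {C L S C' L' S' : Finset ℕ}
    (h : Gd e n UX US L1 L2 C L S) (h' : Gd e n (UX ∪ C ∪ L) (US ∪ S) L1' L2' C' L' S') :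
    Gd e n UX US (L1 ++ L1') (L2 ++ L2') (C ∪ C') (L ∪ L') (S ∪ S') := by
  have c1 := h'.CU
  have c2 := h'.LU
  have c3 := h'.SU
  rw [Finset.disjoint_union_right, Finset.disjoint_union_right] at c1 c2
  rw [Finset.disjoint_union_right] at c3
  refine ⟨?_, ?_, ?_, Finset.union_subset h.Cs h'.Cs, ?_, Finset.union_subset h.Ls h'.Ls,
    Finset.union_subset h.Ss h'.Ss, ?_, ?_, ?_, ?_⟩
  · rw [crs_append80, h.core, h'.core, val_union80 c1.1.2.symm]
  · intro z hz
    rcases List.mem_append.1 hz with hz | hz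
    · exact h.odd1 z hz
    · exact h'.odd1 z hz
  · intro z hz
    rcases List.mem_append.1 hz with hz | hz
    · exact h.odd2 z hz
    · exact h'.odd2 z hz
  · intro x hx
    rcases Finset.mem_union.1 hx with hx | hx
    · exact h.Cb x hx
    · exact h'.Cb x hx
  · rw [Finset.disjoint_union_left, Finset.disjoint_union_right, Finset.disjoint_union_right]
    exact ⟨⟨h.CL, c2.1.2.symm⟩, c1.2, h'.CL⟩
  · rw [Finset.disjoint_union_left]
    exact ⟨h.CU, c1.1.1⟩
  · rw [Finset.disjoint_union_left]
    exact ⟨h.LU, c2.1.1⟩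
  · rw [Finset.disjoint_union_left]
    exact ⟨h.SU, c3.1⟩

/-- the sizes are determined by the numbers of sites -/
theorem Abs.card {e : ℕ} {L1 L2 : List (ℤ × ℤ)} {L S : Finset ℕ} (h : Abs e L1 L2 L S) (he : e = 1 ∨ e = 2) :
    L.card = L1.length + 2 * L2.length ∧ S.card = e * L1.length + (e + 1) * L2.length := by
  obtain ⟨A, C, h1, h2, h3, h4, h5, h6⟩ := h
  have k1 : A.length = L1.length := by rw [← h1, List.length_map]
  have k2 : C.length = L2.length := by rw [← h2, List.length_map]
  have k5 : Multiset.card (lbls A C) = L.card := by rw [h5]; rfl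
  have k6 : Multiset.card (smms e A C) = S.card := by rw [h6]; rfl
  unfold lbls at k5
  unfold smms at k6
  simp only [Multiset.card_add, Multiset.coe_card, List.length_map] at k5 k6
  constructor
  · omega
  · rcases he with rfl | rfl
    · simp only [OfNat.one_ne_ofNat, if_false, Multiset.card_zero] at k6
      omega
    · simp only [if_true, Multiset.coe_card, List.length_map] at k6
      omega

theorem Gd.card {e n : ℕ} {UX US : Finset ℕ} {L1 L2 : List (ℤ × ℤ)} {C L S : Finset ℕ}
    (h : Gd e n UX US L1 L2 C L S) (he : e = 1 ∨ e = 2) : C.card = e * L1.length + 2 * L2.length := by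
  have k5 : Multiset.card (crs e L1 L2) = C.card := by rw [h.core]; rfl
  unfold crs at k5
  simp only [Multiset.card_add, Multiset.coe_card, List.length_map] at k5
  rcases he with rfl | rfl
  · simp only [OfNat.one_ne_ofNat, if_false, Multiset.card_zero] at k5
    omega
  · simp only [if_true, Multiset.coe_card, List.length_map] at k5
    omega

theorem Gd.mono {e n : ℕ} {UX US UX' US' : Finset ℕ} {L1 L2 : List (ℤ × ℤ)} {C L S : Finset ℕ}
    (h : Gd e n UX US L1 L2 C L S) (hX : UX' ⊆ UX) (hS : US' ⊆ US) : Gd e n UX' US' L1 L2 C L S := by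
  exact ⟨h.core, h.odd1, h.odd2, h.Cs, h.Cb, h.Ls, h.Ss, h.CL, h.CU.mono_right hX,
    h.LU.mono_right hX, h.SU.mono_right hS⟩

end Pool.Agent.BD
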