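import Pool.Agent.Helper73.BD.A0

/-!
# BD-A1: the double switch

Two pair sites which absorb exactly one of two sum classes `σ ≠ σ'` with `σ ≡ σ'` mod 4.

Proof in words.  SWITCH between `σ` and `τ` (`σ ≡ τ` mod 4, both even): pair site with cores `c` and `c' = c + (τ-σ)/2`, `x = c - σ`, `y = (σ+τ)/2 - c`.
With labels `(-x, -y)` the sums are `c - x = σ`, `c' - y = 2c - σ` (and `-(x+y)`), with labels `(x, y)` they are `c + x = 2c - σ`, `c' + y = τ` (and `x + y = (τ-σ)/2`).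
So the label classes are `|x|, |y|`, the sum classes `|2c-σ|`, (if `e = 2`) `|τ-σ|/2`, and `σ` resp. `τ`.  `c` odd; `(τ-σ)/2`, `(σ+τ)/2` are even since `σ ≡ τ` mod 4.
DOUBLE SWITCH: choose `τ` first, `τ ≡ σ` mod 4, `3n/10 ≤ τ ≤ 5n/10`, `τ ∉ US ∪ {σ, σ'}`, `|τ-σ|/2`, `|σ'-τ|/2 ∉ US`, these two different from each other and from `σ, σ', τ`, all nonzero.
Then a switch `(σ, τ)` with core `c₁ ∈ [n/10, n/5]` and a switch `(τ, σ')` with core `c₂ ∈ [n/10, n/5]`.
State 1: first covers `σ`, second covers `τ`.  State 2: first covers `τ`, second covers `σ'`.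
`C = {|c₁|, |c₁'|, |c₂|, |c₂'|}`, `L = {|x₁|, |y₁|, |x₂|, |y₂|}`, `S = {τ, |2c₁-σ|, |2c₂-τ|}`, and if `e = 2` also `|τ-σ|/2, |σ'-τ|/2`.
`c₁`, then `c₂`, are chosen with `pick` (modulus 2): all the conditions (classes not in `UX`, `US`, not `σ, σ', τ`, and pairwise different) exclude at most
`4·2·|UX| + 2|US| + 100` values each: `|αc + β| ∈ UX` excludes at most two values of `c` for every element; two of the affine functions `c, c + (τ-σ)/2, c - σ, (σ+τ)/2 - c` have the same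
absolute value for at most one `c` (the identities `σ + τ = 0`, `τ = σ`, `τ = 0`, `σ = 0` do not hold).
Ranges: `c' ∈ [-4n/10, 7n/10]`, `|x| ≤ 9n/10 `, `|y| ≤ 9n/10`, `|2c-σ| ≤ n - 2` and even and not zero for all but one value of `c`.
-/

set_option autoImplicit false

namespace Pool.Agent.BD

open Finset Pool.Agent.SEM

private theorem card_im38 (U : Finset ℕ) (f : ℕ → ℤ) : (U.image f).card ≤ U.card := card_image_le

/-- choice of the core of a switch -/
private theorem sw38 (n : ℕ) (UX US : Finset ℕ) (hn : 2000 * (UX.card + US.card + 900) ≤ n) (a δ : ℤ)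
    (ha : 0 < a) (ha2 : a % 2 = 0) (hδ : δ ≠ 0) (hb : 0 < a + 2 * δ) :
    ∃ c : ℤ, (n : ℤ) ≤ 10 * c + 10 ∧ 10 * c ≤ 2 * n ∧ c % 2 = 1 ∧
      c.natAbs ∉ UX ∧ (c + δ).natAbs ∉ UX ∧ (c - a).natAbs ∉ UX ∧ (a + δ - c).natAbs ∉ UX ∧
      c.natAbs ≠ (c + δ).natAbs ∧ c.natAbs ≠ (c - a).natAbs ∧ c.natAbs ≠ (a + δ - c).natAbs ∧
      (c + δ).natAbs ≠ (c - a).natAbs ∧ (c + δ).natAbs ≠ (a + δ - c).natAbs ∧
      (c - a).natAbs ≠ (a + δ - c).natAbs ∧ (2 * c - a).natAbs ∉ US ∧ 2 * c - a ≠ 0 := by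
  set Bad : Finset ℤ :=
    UX.image (fun u : ℕ => (u : ℤ)) ∪ UX.image (fun u : ℕ => -(u : ℤ)) ∪
    UX.image (fun u : ℕ => (u : ℤ) - δ) ∪ UX.image (fun u : ℕ => -(u : ℤ) - δ) ∪
    UX.image (fun u : ℕ => (u : ℤ) + a) ∪ UX.image (fun u : ℕ => -(u : ℤ) + a) ∪
    UX.image (fun u : ℕ => a + δ - (u : ℤ)) ∪ UX.image (fun u : ℕ => a + δ + (u : ℤ)) ∪
    US.image (fun u : ℕ => (a + (u : ℤ)) / 2) ∪ US.image (fun u : ℕ => (a - (u : ℤ)) / 2) ∪
    {(-δ) / 2, a / 2, (a + δ) / 2, (a - δ) / 2, (2 * a + δ) / 2} with hBad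
  have hcard : Bad.card ≤ 8 * UX.card + 2 * US.card + 5 := by
    have h5 : ({(-δ) / 2, a / 2, (a + δ) / 2, (a - δ) / 2, (2 * a + δ) / 2} : Finset ℤ).card ≤ 5 :=
      card_le_five
    rw [hBad]
    refine (card_union_le _ _).trans ?_
    have e : ∀ (A B : Finset ℤ) (x y : ℕ), A.card ≤ x → B.card ≤ y → (A ∪ B).card ≤ x + y :=
      fun A B x y hA hB => (card_union_le A B).trans (add_le_add hA hB)
    have h := e _ _ _ _ (e _ _ _ _ (e _ _ _ _ (e _ _ _ _ (e _ _ _ _ (e _ _ _ _ (e _ _ _ _ (e _ _ _ _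
      (e _ _ _ _ (card_im38 UX (fun u : ℕ => (u : ℤ))) (card_im38 UX (fun u : ℕ => -(u : ℤ))))
      (card_im38 UX (fun u : ℕ => (u : ℤ) - δ))) (card_im38 UX (fun u : ℕ => -(u : ℤ) - δ)))
      (card_im38 UX (fun u : ℕ => (u : ℤ) + a))) (card_im38 UX (fun u : ℕ => -(u : ℤ) + a)))
      (card_im38 UX (fun u : ℕ => a + δ - (u : ℤ)))) (card_im38 UX (fun u : ℕ => a + δ + (u : ℤ))))
      (card_im38 US (fun u : ℕ => (a + (u : ℤ)) / 2))) (card_im38 US (fun u : ℕ => (a - (u : ℤ)) / 2))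
    omega
  obtain ⟨c, hc1, hc2, hc3, hc4⟩ := pick 2 (by norm_num) 1 ((n : ℤ) / 10) (2 * (n : ℤ) / 10) Bad
    (by push_cast; omega)
  have hodd : c % 2 = 1 := by
    have h := hc3
    unfold Int.ModEq at h
    simpa using h
  rw [hBad] at hc4
  simp only [mem_union, mem_image, mem_insert, mem_singleton, not_or, not_exists, not_and] at hc4
  obtain ⟨⟨⟨⟨⟨⟨⟨⟨⟨⟨g1, g2⟩, g3⟩, g4⟩, g5⟩, g6⟩, g7⟩, g8⟩, g9⟩, g10⟩, k1, k2, k3, k4, k5⟩ := hc4
  refine ⟨c, by omega, by omega, hodd, ?_, ?_, ?_, ?_, by omega, by omega, by omega, by omega, by omega,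
    by omega, ?_, by omega⟩
  · intro h
    have h1 := g1 _ h
    have h2 := g2 _ h
    omega
  · intro h
    have h1 := g3 _ h
    have h2 := g4 _ h
    omega
  · intro h
    have h1 := g5 _ h
    have h2 := g6 _ h
    omega
  · intro h
    have h1 := g7 _ h
    have h2 := g8 _ h
    omega
  · intro h
    have h1 := g9 _ h
    have h2 := g10 _ h
    omega

/-- choice of the middle sum class -/
private theorem mid38 (n : ℕ) (US : Finset ℕ) (hn : 2000 * (US.card + 1000) ≤ n) (a b : ℤ)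
    (ha : 0 < a) (hb : 0 < b) (ha2 : a % 2 = 0) (h4 : a % 4 = b % 4) (hab : a ≠ b) :
    ∃ t δ δ' : ℤ, 3 * (n : ℤ) ≤ 10 * t + 10 ∧ 10 * t ≤ 5 * n ∧ t = a + 2 * δ ∧ b = t + 2 * δ' ∧
      δ % 2 = 0 ∧ δ' % 2 = 0 ∧ δ ≠ 0 ∧ δ' ≠ 0 ∧ t.natAbs ∉ US ∧ δ.natAbs ∉ US ∧ δ'.natAbs ∉ US ∧
      δ.natAbs ≠ δ'.natAbs ∧ δ.natAbs ≠ a.natAbs ∧ δ.natAbs ≠ b.natAbs ∧ δ.natAbs ≠ t.natAbs ∧
      δ'.natAbs ≠ a.natAbs ∧ δ'.natAbs ≠ b.natAbs ∧ δ'.natAbs ≠ t.natAbs := by
  set Bad : Finset ℤ :=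
    US.image (fun u : ℕ => (u : ℤ)) ∪
    US.image (fun u : ℕ => a + 2 * (u : ℤ)) ∪ US.image (fun u : ℕ => a - 2 * (u : ℤ)) ∪
    US.image (fun u : ℕ => b + 2 * (u : ℤ)) ∪ US.image (fun u : ℕ => b - 2 * (u : ℤ)) ∪
    ({a, b, (a + b) / 2, 3 * a, -a} ∪ {a + 2 * b, a - 2 * b, a / 3, 3 * b, -b} ∪
      {b + 2 * a, b - 2 * a, b / 3}) with hBad
  have hcard : Bad.card ≤ 5 * US.card + 13 := by
    have e : ∀ (A B : Finset ℤ) (x y : ℕ), A.card ≤ x → B.card ≤ y → (A ∪ B).card ≤ x + y :=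
      fun A B x y hA hB => (card_union_le A B).trans (add_le_add hA hB)
    have h5 : ({a, b, (a + b) / 2, 3 * a, -a} : Finset ℤ).card ≤ 5 := card_le_five
    have h6 : ({a + 2 * b, a - 2 * b, a / 3, 3 * b, -b} : Finset ℤ).card ≤ 5 := card_le_five
    have h7 : ({b + 2 * a, b - 2 * a, b / 3} : Finset ℤ).card ≤ 3 := card_le_three
    have h := e _ _ _ _ (e _ _ _ _ (e _ _ _ _ (e _ _ _ _ (e _ _ _ _
      (card_im38 US (fun u : ℕ => (u : ℤ))) (card_im38 US (fun u : ℕ => a + 2 * (u : ℤ))))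
      (card_im38 US (fun u : ℕ => a - 2 * (u : ℤ)))) (card_im38 US (fun u : ℕ => b + 2 * (u : ℤ))))
      (card_im38 US (fun u : ℕ => b - 2 * (u : ℤ)))) (e _ _ _ _ (e _ _ _ _ h5 h6) h7)
    rw [hBad]
    omega
  obtain ⟨t, hc1, hc2, hc3, hc4⟩ := pick 4 (by norm_num) a (3 * (n : ℤ) / 10) (5 * (n : ℤ) / 10) Bad
    (by push_cast; omega)
  have hmod : t % 4 = a % 4 := by
    have h := hc3
    unfold Int.ModEq at h
    simpa using h
  rw [hBad] at hc4
  simp only [mem_union, mem_image, mem_insert, mem_singleton, not_or, not_exists, not_and] at hc4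
  obtain ⟨⟨⟨⟨⟨g1, g2⟩, g3⟩, g4⟩, g5⟩, ⟨⟨k1, k2, k3, k4, k5⟩, k6, k7, k8, k9, k10⟩, k11, k12, k13⟩ := hc4
  refine ⟨t, (t - a) / 2, (b - t) / 2, by omega, by omega, by omega, by omega, by omega, by omega,
    by omega, by omega, ?_, ?_, ?_, by omega, by omega, by omega, by omega, by omega, by omega, by omega⟩
  · intro h
    have h1 := g1 _ h
    omega
  · intro h
    have h1 := g2 _ h
    have h2 := g3 _ h
    omega
  · intro h
    have h1 := g4 _ h
    have h2 := g5 _ h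
    omega

private theorem perm38 (A B T s : ℕ) : ([A, B, T, s] : List ℕ).Perm [s, T, A, B] := by
  have h1 : ([A, B] ++ [T, s] : List ℕ).Perm ([T, s] ++ [A, B]) := List.perm_append_comm
  exact h1.trans (List.Perm.swap s T [A, B])

private theorem lab38 (n : ℕ) (z : ℤ) (h1 : -(9 * (n : ℤ)) ≤ 10 * z) (h2 : 10 * z ≤ 9 * n) (h3 : z % 2 = 1) :
    z.natAbs ∈ LC n ∧ 10 * z.natAbs ≤ 9 * n := by
  rw [mem_LC, Nat.odd_iff]
  omega

private theorem sum38 (n : ℕ) (z : ℤ) (h1 : -(n : ℤ) < z) (h2 : z < n) (h3 : z % 2 = 0) (h0 : z ≠ 0) :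
    z.natAbs ∈ SC n := by
  rw [mem_SC, Nat.even_iff]
  omega

private theorem rng38 (N a b t δ δ' c d : ℤ) (hN : 1000 ≤ N) (ha : 0 < a) (ha' : a ≤ N - 2) (hb : 0 < b)
    (hb' : b ≤ N - 2) (ht1 : 3 * N ≤ 10 * t + 10) (ht2 : 10 * t ≤ 5 * N) (e1 : t = a + 2 * δ)
    (e2 : b = t + 2 * δ') (c1 : N ≤ 10 * c + 10) (c2 : 10 * c ≤ 2 * N) (d1 : N ≤ 10 * d + 10)
    (d2 : 10 * d ≤ 2 * N) :
    (-(9 * N) ≤ 10 * c ∧ 10 * c ≤ 9 * N) ∧ (-(9 * N) ≤ 10 * d ∧ 10 * d ≤ 9 * N) ∧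
    (-(9 * N) ≤ 10 * (c + δ) ∧ 10 * (c + δ) ≤ 9 * N) ∧
    (-(9 * N) ≤ 10 * (d + δ') ∧ 10 * (d + δ') ≤ 9 * N) ∧
    (-(9 * N) ≤ 10 * (c - a) ∧ 10 * (c - a) ≤ 9 * N) ∧
    (-(9 * N) ≤ 10 * (d - t) ∧ 10 * (d - t) ≤ 9 * N) ∧
    (-(9 * N) ≤ 10 * (a + δ - c) ∧ 10 * (a + δ - c) ≤ 9 * N) ∧
    (-(9 * N) ≤ 10 * (t + δ' - d) ∧ 10 * (t + δ' - d) ≤ 9 * N) ∧
    (-N < t ∧ t < N) ∧ (-N < 2 * c - a ∧ 2 * c - a < N) ∧ (-N < 2 * d - t ∧ 2 * d - t < N) ∧
    (-N < δ ∧ δ < N) ∧ (-N < δ' ∧ δ' < N) := by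
  refine ⟨⟨?_, ?_⟩, ⟨?_, ?_⟩, ⟨?_, ?_⟩, ⟨?_, ?_⟩, ⟨?_, ?_⟩, ⟨?_, ?_⟩, ⟨?_, ?_⟩, ⟨?_, ?_⟩, ⟨?_, ?_⟩,
    ⟨?_, ?_⟩, ⟨?_, ?_⟩, ⟨?_, ?_⟩, ?_, ?_⟩ <;> linarith

/-- assembly of the gadget from the arithmetic facts -/
private theorem asm38 (e n : ℕ) (he : e = 1 ∨ e = 2) (UX US : Finset ℕ) (σ σ' : ℕ) (t δ δ' c d : ℤ)
    (ht3 : t = σ + 2 * δ) (ht4 : (σ' : ℤ) = t + 2 * δ')
    (hCn : ([c.natAbs, d.natAbs, (c + δ).natAbs, (d + δ').natAbs] : List ℕ).Nodup)
    (hLn : ([(c - σ).natAbs, (d - t).natAbs, (σ + δ - c).natAbs, (t + δ' - d).natAbs] : List ℕ).Nodup)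
    (hSn : ([t.natAbs, (2 * c - σ).natAbs, (2 * d - t).natAbs, δ.natAbs, δ'.natAbs] : List ℕ).Nodup)
    (hCL : ∀ x ∈ ([c.natAbs, d.natAbs, (c + δ).natAbs, (d + δ').natAbs] : List ℕ),
      x ∉ ([(c - σ).natAbs, (d - t).natAbs, (σ + δ - c).natAbs, (t + δ' - d).natAbs] : List ℕ))
    (hO : Odd c ∧ Odd d ∧ Odd (c + δ) ∧ Odd (d + δ'))
    (hO' : Odd (c - σ) ∧ Odd (d - t) ∧ Odd (σ + δ - c) ∧ Odd (t + δ' - d))
    (hC1 : ∀ x ∈ ([c.natAbs, d.natAbs, (c + δ).natAbs, (d + δ').natAbs] : List ℕ),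
      x ∈ LC n ∧ 10 * x ≤ 9 * n)
    (hL1 : ∀ x ∈ ([(c - σ).natAbs, (d - t).natAbs, (σ + δ - c).natAbs, (t + δ' - d).natAbs] : List ℕ),
      x ∈ LC n)
    (hS1 : ∀ x ∈ ([t.natAbs, (2 * c - σ).natAbs, (2 * d - t).natAbs, δ.natAbs, δ'.natAbs] : List ℕ),
      x ∈ SC n)
    (hC2 : ∀ x ∈ ([c.natAbs, d.natAbs, (c + δ).natAbs, (d + δ').natAbs] : List ℕ), x ∉ UX)
    (hL2 : ∀ x ∈ ([(c - σ).natAbs, (d - t).natAbs, (σ + δ - c).natAbs, (t + δ' - d).natAbs] : List ℕ),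
      x ∉ UX)
    (hS2 : ∀ x ∈ ([t.natAbs, (2 * c - σ).natAbs, (2 * d - t).natAbs, δ.natAbs, δ'.natAbs] : List ℕ),
      x ∉ US)
    (hσ : σ ∉ ([t.natAbs, (2 * c - σ).natAbs, (2 * d - t).natAbs, δ.natAbs, δ'.natAbs] : List ℕ))
    (hσ' : σ' ∉ ([t.natAbs, (2 * c - σ).natAbs, (2 * d - t).natAbs, δ.natAbs, δ'.natAbs] : List ℕ)) :
    ∃ (L2 : List (ℤ × ℤ)) (C L S : Finset ℕ), L2.length = 2 ∧ Gd e n UX US [] L2 C L S ∧ σ ∉ S ∧ σ' ∉ S ∧
      Abs e [] L2 L (insert σ S) ∧ Abs e [] L2 L (insert σ' S) := by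
  have hSn' : ((↑([t.natAbs, (2 * c - σ).natAbs, (2 * d - t).natAbs] : List ℕ) : Multiset ℕ) +
      (if e = 2 then ↑([δ.natAbs, δ'.natAbs] : List ℕ) else 0)).Nodup := by
    rcases he with rfl | rfl
    · rw [if_neg (by norm_num), add_zero, Multiset.coe_nodup]
      exact hSn.sublist (by simp [List.cons_sublist_cons])
    · rw [if_pos rfl, Multiset.coe_add, Multiset.coe_nodup]
      exact hSn
  have memS : ∀ x, x ∈ (⟨_, hSn'⟩ : Finset ℕ) →
      x ∈ ([t.natAbs, (2 * c - σ).natAbs, (2 * d - t).natAbs, δ.natAbs, δ'.natAbs] : List ℕ) := by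
    intro x hx
    rw [Finset.mem_mk, Multiset.mem_add] at hx
    rcases hx with hx | hx
    · rw [Multiset.mem_coe] at hx
      simp only [List.mem_cons, List.not_mem_nil, or_false] at hx ⊢
      tauto
    · split_ifs at hx with h
      · rw [Multiset.mem_coe] at hx
        simp only [List.mem_cons, List.not_mem_nil, or_false] at hx ⊢
        tauto
      · exact absurd hx (Multiset.notMem_zero _)
  refine ⟨[(c, c + δ), (d, d + δ')],
    ⟨↑([c.natAbs, d.natAbs, (c + δ).natAbs, (d + δ').natAbs] : List ℕ), Multiset.coe_nodup.mpr hCn⟩,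
    ⟨↑([(c - σ).natAbs, (d - t).natAbs, (σ + δ - c).natAbs, (t + δ' - d).natAbs] : List ℕ),
      Multiset.coe_nodup.mpr hLn⟩, ⟨_, hSn'⟩, rfl, ?_, fun h => hσ (memS _ h), fun h => hσ' (memS _ h), ?_, ?_⟩
  · refine ⟨?_, ?_, ?_, ?_, ?_, ?_, ?_, ?_, ?_, ?_, ?_⟩
    · rcases he with rfl | rfl
      · simp [crs]
      · simp [crs]
    · intro z hz
      exact absurd hz (List.not_mem_nil)
    · intro z hz
      simp only [List.mem_cons, List.not_mem_nil, or_false] at hz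
      rcases hz with rfl | rfl
      · exact ⟨hO.1, hO.2.2.1⟩
      · exact ⟨hO.2.1, hO.2.2.2⟩
    · exact fun x hx => (hC1 x hx).1
    · exact fun x hx => (hC1 x hx).2
    · exact fun x hx => hL1 x hx
    · exact fun x hx => hS1 x (memS x hx)
    · rw [Finset.disjoint_left]
      exact fun x hx => hCL x hx
    · rw [Finset.disjoint_left]
      exact fun x hx => hC2 x hx
    · rw [Finset.disjoint_left]
      exact fun x hx => hL2 x hx
    · rw [Finset.disjoint_left]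
      exact fun x hx => hS2 x (memS x hx)
  · -- first state
    refine ⟨[], [(c, c + δ, -(c - σ), -(σ + δ - c)), (d, d + δ', -(d - t), -(t + δ' - d))], rfl, rfl,
      ?_, ?_, ?_, ?_⟩
    · intro z hz
      exact absurd hz (List.not_mem_nil)
    · intro z hz
      simp only [List.mem_cons, List.not_mem_nil, or_false] at hz
      rcases hz with rfl | rfl
      · exact ⟨hO'.1.neg, hO'.2.2.1.neg⟩
      · exact ⟨hO'.2.1.neg, hO'.2.2.2.neg⟩
    · simp only [lbls, List.map_nil, List.map_cons, Int.natAbs_neg, Multiset.coe_nil, zero_add,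
        Multiset.coe_add, List.cons_append, List.nil_append]
    · rw [Finset.insert_val_of_notMem (fun h => hσ (memS _ h))]
      have e1 : (c + -(c - (σ : ℤ))).natAbs = σ := by
        rw [show c + -(c - (σ : ℤ)) = σ by ring]
        exact Int.natAbs_natCast σ
      have e2 : (d + -(d - t)).natAbs = t.natAbs := by
        congr 1
        ring
      have e3 : (c + δ + -((σ : ℤ) + δ - c)).natAbs = (2 * c - σ).natAbs := by
        congr 1
        ring
      have e4 : (d + δ' + -(t + δ' - d)).natAbs = (2 * d - t).natAbs := by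
        congr 1
        ring
      have e5 : (-(c - (σ : ℤ)) + -((σ : ℤ) + δ - c)).natAbs = δ.natAbs := by
        rw [← Int.natAbs_neg]
        congr 1
        ring
      have e6 : (-(d - t) + -(t + δ' - d)).natAbs = δ'.natAbs := by
        rw [← Int.natAbs_neg]
        congr 1
        ring
      rcases he with rfl | rfl
      · simp only [smms, List.map_nil, List.map_cons, e1, e2, e3, e4, Multiset.coe_nil, zero_add,
          add_zero, if_neg (show ¬ (1 = 2) by norm_num), Multiset.coe_add, List.cons_append,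
          List.nil_append, Multiset.cons_coe]
      · simp only [smms, List.map_nil, List.map_cons, e1, e2, e3, e4, e5, e6, Multiset.coe_nil, zero_add,
          add_zero, if_true, Multiset.coe_add, List.cons_append,
          List.nil_append, Multiset.cons_coe]
  · -- second state
    refine ⟨[], [(c, c + δ, c - σ, σ + δ - c), (d, d + δ', d - t, t + δ' - d)], rfl, rfl,
      ?_, ?_, ?_, ?_⟩
    · intro z hz
      exact absurd hz (List.not_mem_nil)
    · intro z hz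
      simp only [List.mem_cons, List.not_mem_nil, or_false] at hz
      rcases hz with rfl | rfl
      · exact ⟨hO'.1, hO'.2.2.1⟩
      · exact ⟨hO'.2.1, hO'.2.2.2⟩
    · simp only [lbls, List.map_nil, List.map_cons, Multiset.coe_nil, zero_add,
        Multiset.coe_add, List.cons_append, List.nil_append]
    · rw [Finset.insert_val_of_notMem (fun h => hσ' (memS _ h))]
      have e1 : (c + (c - (σ : ℤ))).natAbs = (2 * c - σ).natAbs := by
        congr 1
        ring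
      have e2 : (d + (d - t)).natAbs = (2 * d - t).natAbs := by
        congr 1
        ring
      have e3 : (c + δ + ((σ : ℤ) + δ - c)).natAbs = t.natAbs := by
        congr 1
        rw [ht3]
        ring
      have e4 : (d + δ' + (t + δ' - d)).natAbs = σ' := by
        rw [show d + δ' + (t + δ' - d) = (σ' : ℤ) by rw [ht4]; ring]
        exact Int.natAbs_natCast σ'
      have e5 : (c - (σ : ℤ) + ((σ : ℤ) + δ - c)).natAbs = δ.natAbs := by
        congr 1
        ring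
      have e6 : (d - t + (t + δ' - d)).natAbs = δ'.natAbs := by
        congr 1
        ring
      rcases he with rfl | rfl
      · simp only [smms, List.map_nil, List.map_cons, e1, e2, e3, e4, Multiset.coe_nil, zero_add,
          add_zero, if_neg (show ¬ (1 = 2) by norm_num), Multiset.coe_add, List.cons_append,
          List.nil_append, Multiset.cons_coe]
        rw [Multiset.coe_eq_coe]
        generalize (2 * c - (σ : ℤ)).natAbs = A
        generalize (2 * d - t).natAbs = B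
        generalize t.natAbs = T
        exact perm38 A B T σ'
      · simp only [smms, List.map_nil, List.map_cons, e1, e2, e3, e4, e5, e6, Multiset.coe_nil, zero_add,
          add_zero, if_true, Multiset.coe_add, List.cons_append,
          List.nil_append, Multiset.cons_coe]
        rw [Multiset.coe_eq_coe]
        generalize (2 * c - (σ : ℤ)).natAbs = A
        generalize (2 * d - t).natAbs = B
        generalize t.natAbs = T
        generalize δ.natAbs = D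
        generalize δ'.natAbs = D'
        exact (perm38 A B T σ').append_right [D, D']

theorem ds {e n : ℕ} (he : e = 1 ∨ e = 2) (hn2 : Even n) {UX US : Finset ℕ}
    (hn : 2000 * (UX.card + US.card + 1000) ≤ n) {σ σ' : ℕ} (hne : σ ≠ σ') (h1 : σ ∈ SC n) (h2 : σ' ∈ SC n)
    (h4 : σ % 4 = σ' % 4) :
    ∃ (L2 : List (ℤ × ℤ)) (C L S : Finset ℕ), L2.length = 2 ∧ Gd e n UX US [] L2 C L S ∧ σ ∉ S ∧ σ' ∉ S ∧
      Abs e [] L2 L (insert σ S) ∧ Abs e [] L2 L (insert σ' S) := by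
  rw [mem_SC] at h1 h2
  obtain ⟨⟨hs1, hs2⟩, hs3⟩ := h1
  obtain ⟨⟨hs1', hs2'⟩, hs3'⟩ := h2
  rw [Nat.even_iff] at hs3 hs3' hn2
  have hbig : 1000 ≤ n := le_trans (le_trans (by norm_num : 1000 ≤ 2000 * 1000)
    (Nat.mul_le_mul_left 2000 (Nat.le_add_left _ _))) hn
  obtain ⟨t, δ, δ', ht1, ht2, ht3, ht4, hd1, hd2, hd3, hd4, hu1, hu2, hu3, q1, q2, q3, q4, q5, q6, q7⟩ :=
    mid38 n US (le_trans (Nat.mul_le_mul_left 2000 (by omega)) hn) (σ : ℤ) (σ' : ℤ) (by omega) (by omega)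
      (by omega) (by omega) (by omega)
  have hUS1c : (US ∪ {σ, σ', t.natAbs, δ.natAbs, δ'.natAbs}).card ≤ US.card + 5 :=
    (card_union_le _ _).trans (add_le_add le_rfl card_le_five)
  obtain ⟨c, c1, c2, c3, a1, a2, a3, a4, n1, n2, n3, n4, n5, n6, m1, m2⟩ :=
    sw38 n UX (US ∪ {σ, σ', t.natAbs, δ.natAbs, δ'.natAbs})
      (le_trans (Nat.mul_le_mul_left 2000 (by clear * - hUS1c; omega)) hn) (σ : ℤ) δ
      (by clear * - hs1; omega) (by clear * - hs3; omega) hd3 (by clear * - ht3 ht1 hbig; omega)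
  have hUX2c : (UX ∪ {c.natAbs, (c + δ).natAbs, (c - σ).natAbs, (σ + δ - c).natAbs}).card ≤ UX.card + 4 :=
    (card_union_le _ _).trans (add_le_add le_rfl card_le_four)
  have hUS2c : ((US ∪ {σ, σ', t.natAbs, δ.natAbs, δ'.natAbs}) ∪ {(2 * c - σ).natAbs}).card ≤ US.card + 6 :=
    (card_union_le _ _).trans (by rw [card_singleton]; clear * - hUS1c; omega)
  obtain ⟨d, d1, d2, d3, b1, b2, b3, b4, r1, r2, r3, r4, r5, r6, w1, w2⟩ :=
    sw38 n (UX ∪ {c.natAbs, (c + δ).natAbs, (c - σ).natAbs, (σ + δ - c).natAbs})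
      ((US ∪ {σ, σ', t.natAbs, δ.natAbs, δ'.natAbs}) ∪ {(2 * c - σ).natAbs})
      (le_trans (Nat.mul_le_mul_left 2000 (by clear * - hUX2c hUS2c; omega)) hn) t δ'
      (by clear * - ht1 hbig; omega) (by clear * - ht3 hd1 hs3; omega) hd4 (by clear * - ht4 hs1'; omega)
  clear hUS1c hUX2c hUS2c
  simp only [mem_union, mem_insert, mem_singleton, not_or] at w1 m1 b1 b2 b3 b4
  obtain ⟨⟨w1, w3, w4, w5, w6, w7⟩, w8⟩ := w1
  obtain ⟨m1, m3, m4, m5, m6, m7⟩ := m1
  obtain ⟨b1, b11, b12, b13, b14⟩ := b1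
  obtain ⟨b2, b21, b22, b23, b24⟩ := b2
  obtain ⟨b3, b31, b32, b33, b34⟩ := b3
  obtain ⟨b4, b41, b42, b43, b44⟩ := b4
  have hr := rng38 (n : ℤ) σ σ' t δ δ' c d (by clear * - hbig; omega) (by clear * - hs1; omega)
    (by clear * - hs2 hs3 hn2 hbig; omega) (by clear * - hs1'; omega)
    (by clear * - hs2' hs3' hn2 hbig; omega) ht1 ht2
    ht3 ht4 c1 c2 d1 d2
  obtain ⟨R1, R2, R3, R4, R5, R6, R7, R8, R9, R10, R11, R12, R13⟩ := hr
  have p1 : (c + δ) % 2 = 1 := by clear * - c3 hd1; omega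
  have p2 : (d + δ') % 2 = 1 := by clear * - d3 hd2; omega
  have p3 : (c - (σ : ℤ)) % 2 = 1 := by clear * - c3 hs3; omega
  have p0 : t % 2 = 0 := by clear * - ht3 hd1 hs3; omega
  have p4 : (d - t) % 2 = 1 := by clear * - d3 p0; omega
  have p5 : ((σ : ℤ) + δ - c) % 2 = 1 := by clear * - c3 hs3 hd1; omega
  have p6 : (t + δ' - d) % 2 = 1 := by clear * - d3 p0 hd2; omega
  have p7 : (2 * c - (σ : ℤ)) % 2 = 0 := by clear * - hs3; omega
  have p8 : (2 * d - t) % 2 = 0 := by clear * - p0; omega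
  have t0 : t ≠ 0 := by clear * - ht1 hbig; omega
  have s1 : σ ≠ t.natAbs := by
    intro h
    apply hd3
    clear * - h ht3 ht1 hbig
    omega
  have s2 : σ' ≠ t.natAbs := by
    intro h
    apply hd4
    clear * - h ht4 ht1 hbig
    omega
  refine asm38 e n he UX US σ σ' t δ δ' c d ht3 ht4 ?_ ?_ ?_ ?_
    ⟨Int.odd_iff.mpr c3, Int.odd_iff.mpr d3, Int.odd_iff.mpr p1, Int.odd_iff.mpr p2⟩
    ⟨Int.odd_iff.mpr p3, Int.odd_iff.mpr p4, Int.odd_iff.mpr p5, Int.odd_iff.mpr p6⟩ ?_ ?_ ?_ ?_ ?_ ?_ ?_ ?_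
  · simp only [List.nodup_cons, List.mem_cons, List.not_mem_nil, or_false, not_or, List.nodup_nil,
      and_true, not_false_eq_true]
    exact ⟨⟨fun h => b11 h.symm, n1, fun h => b21 h.symm⟩, ⟨b12, r1⟩, fun h => b22 h.symm⟩
  · simp only [List.nodup_cons, List.mem_cons, List.not_mem_nil, or_false, not_or, List.nodup_nil,
      and_true, not_false_eq_true]
    exact ⟨⟨fun h => b33 h.symm, n6, fun h => b43 h.symm⟩, ⟨b34, r6⟩, fun h => b44 h.symm⟩
  · simp only [List.nodup_cons, List.mem_cons, List.not_mem_nil, or_false, not_or, List.nodup_nil,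
      and_true, not_false_eq_true]
    exact ⟨⟨fun h => m5 h.symm, fun h => w5 h.symm, fun h => q4 h.symm, fun h => q7 h.symm⟩,
      ⟨fun h => w8 h.symm, m6, m7⟩, ⟨w6, w7⟩, q1⟩
  · intro x hx hx'
    simp only [List.mem_cons, List.not_mem_nil, or_false] at hx hx'
    rcases hx with rfl | rfl | rfl | rfl
    · rcases hx' with h | h | h | h
      · exact n2 h
      · exact b31 h.symm
      · exact n3 h
      · exact b41 h.symm
    · rcases hx' with h | h | h | h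
      · exact b13 h
      · exact r2 h
      · exact b14 h
      · exact r3 h
    · rcases hx' with h | h | h | h
      · exact n4 h
      · exact b32 h.symm
      · exact n5 h
      · exact b42 h.symm
    · rcases hx' with h | h | h | h
      · exact b23 h
      · exact r4 h
      · exact b24 h
      · exact r5 h
  · intro x hx
    simp only [List.mem_cons, List.not_mem_nil, or_false] at hx
    rcases hx with rfl | rfl | rfl | rfl
    · exact lab38 n _ R1.1 R1.2 c3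
    · exact lab38 n _ R2.1 R2.2 d3
    · exact lab38 n _ R3.1 R3.2 p1
    · exact lab38 n _ R4.1 R4.2 p2
  · intro x hx
    simp only [List.mem_cons, List.not_mem_nil, or_false] at hx
    rcases hx with rfl | rfl | rfl | rfl
    · exact (lab38 n _ R5.1 R5.2 p3).1
    · exact (lab38 n _ R6.1 R6.2 p4).1
    · exact (lab38 n _ R7.1 R7.2 p5).1
    · exact (lab38 n _ R8.1 R8.2 p6).1
  · intro x hx
    simp only [List.mem_cons, List.not_mem_nil, or_false] at hx
    rcases hx with rfl | rfl | rfl | rfl | rfl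
    · exact sum38 n _ R9.1 R9.2 p0 t0
    · exact sum38 n _ R10.1 R10.2 p7 m2
    · exact sum38 n _ R11.1 R11.2 p8 w2
    · exact sum38 n _ R12.1 R12.2 hd1 hd3
    · exact sum38 n _ R13.1 R13.2 hd2 hd4
  · intro x hx
    simp only [List.mem_cons, List.not_mem_nil, or_false] at hx
    rcases hx with rfl | rfl | rfl | rfl
    exacts [a1, b1, a2, b2]
  · intro x hx
    simp only [List.mem_cons, List.not_mem_nil, or_false] at hx
    rcases hx with rfl | rfl | rfl | rfl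
    exacts [a3, b3, a4, b4]
  · intro x hx
    simp only [List.mem_cons, List.not_mem_nil, or_false] at hx
    rcases hx with rfl | rfl | rfl | rfl | rfl
    exacts [hu1, m1, w1, hu2, hu3]
  · simp only [List.mem_cons, List.not_mem_nil, or_false, not_or]
    exact ⟨s1, fun h => m3 h.symm, fun h => w3 h.symm, fun h => q2 (by rw [Int.natAbs_natCast]; exact h.symm),
      fun h => q5 (by rw [Int.natAbs_natCast]; exact h.symm)⟩
  · simp only [List.mem_cons, List.not_mem_nil, or_false, not_or]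
    exact ⟨s2, fun h => m4 h.symm, fun h => w4 h.symm, fun h => q3 (by rw [Int.natAbs_natCast]; exact h.symm),
      fun h => q6 (by rw [Int.natAbs_natCast]; exact h.symm)⟩

end Pool.Agent.BD
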