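import Pool.Agent.Helper73.BD.A1

/-!
# BD-A2: absorbing all but one of a set of sum classes

Proof in words.  Choose a new sum class `σ₀ ∉ US ∪ M`, `σ₀ ≡ r` mod 4 (`pick` in `[n/4, n/2]`).  For the elements `σ ∈ M` one after the other take a double switch
`ds` for `σ, σ₀` (with `UX`, `US ∪ {σ₀}` enlarged by the previous gadgets; induction on a finset `M' ⊆ M`: sites for `M'` with
`Abs (all of M')`, i.e. `Abs e [] L2 L (S ∪ M')`, and for all `σ ∈ M'`: `Abs e [] L2 L (S ∪ insert σ₀ (M'.erase σ))`).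
At the end: for `σ ∈ M`: `Abs e [] L2 L (S ∪ {σ₀} ∪ M.erase σ)`; the new `S` is `S ∪ {σ₀}`.  `|M| ≤ 70`, so at most `140` pair sites, `280` cores, `280` labels, `351` sums.
(Use `Abs.append`, `Gd.append`, `Abs.card`, `Gd.card`.)
-/

set_option autoImplicit false

namespace Pool.Agent.BD

open Finset Pool.Agent.SEM

private lemma h31_step {e n : ℕ} (he : e = 1 ∨ e = 2) (hn2 : Even n) {UX US M : Finset ℕ}
    (hn : 2000 * (UX.card + US.card + 3000) ≤ n) (hM : M.card ≤ 70) (hMS : M ⊆ SC n) (hMU : M ⊆ US) {σ₀ : ℕ}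
    (hσ : σ₀ ∈ SC n) (hσU : σ₀ ∉ US) (h4 : ∀ σ ∈ M, σ % 4 = σ₀ % 4) :
    ∀ M' : Finset ℕ, M' ⊆ M → ∃ (L2 : List (ℤ × ℤ)) (C L S : Finset ℕ), L2.length ≤ 2 * M'.card ∧
      Gd e n UX (insert σ₀ US) [] L2 C L S ∧ Abs e [] L2 L (S ∪ M') ∧
      ∀ σ ∈ M', Abs e [] L2 L (S ∪ insert σ₀ (M'.erase σ)) := by
  intro M'
  induction M' using Finset.induction_on with
  | empty =>
    intro _
    refine ⟨[], ∅, ∅, ∅, by simp, ?_, ?_, ?_⟩
    · constructor
      · simp [crs]
      all_goals simp
    · exact ⟨[], [], by simp, by simp, by simp, by simp, by simp [lbls], by simp [smms]⟩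
    · simp
  | insert τ M' hτ ih =>
    intro hsub
    obtain ⟨L2, C, L, S, hlen, hG, hA, hB⟩ := ih ((Finset.subset_insert τ M').trans hsub)
    have hτM : τ ∈ M := hsub (Finset.mem_insert_self τ M')
    have hM'M : M' ⊆ M := (Finset.subset_insert τ M').trans hsub
    have hcardM : M'.card ≤ 70 := (Finset.card_le_card hM'M).trans hM
    have hτσ : τ ≠ σ₀ := fun h => hσU (h ▸ hMU hτM)
    -- sizes
    have hl : L2.length ≤ 140 := by omega
    have c1 : C.card ≤ 280 := by
      have := hG.card he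
      simp only [List.length_nil, mul_zero, zero_add] at this
      omega
    have c2 : L.card ≤ 280 ∧ S.card ≤ 420 := by
      have := hA.card he
      simp only [List.length_nil, mul_zero, zero_add] at this
      obtain ⟨e1, e2⟩ := this
      refine ⟨by omega, ?_⟩
      have e3 : S.card ≤ (S ∪ M').card := Finset.card_le_card Finset.subset_union_left
      rcases he with rfl | rfl <;> omega
    have c3 : (UX ∪ C ∪ L).card ≤ UX.card + 560 := by
      have e1 := Finset.card_union_le (UX ∪ C) L
      have e2 := Finset.card_union_le UX C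
      omega
    have c4 : (insert σ₀ US ∪ S).card ≤ US.card + 421 := by
      have e1 := Finset.card_union_le (insert σ₀ US) S
      have e2 := Finset.card_insert_le σ₀ US
      omega
    have hn' : 2000 * ((UX ∪ C ∪ L).card + (insert σ₀ US ∪ S).card + 1000) ≤ n := by
      refine (Nat.mul_le_mul_left 2000 ?_).trans hn
      clear hn
      omega
    obtain ⟨L2d, Cd, Ld, Sd, hlen', hG', hτS', hσS', hA1, hA2⟩ := ds he hn2 hn' hτσ (hMS hτM) hσ (h4 τ hτM)
    -- disjointness
    have dL : Disjoint L Ld :=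
      (Finset.disjoint_of_subset_right Finset.subset_union_right hG'.LU).symm
    have dS : Disjoint S Sd :=
      (Finset.disjoint_of_subset_right Finset.subset_union_right hG'.SU).symm
    have dU : Disjoint (insert σ₀ US) Sd :=
      (Finset.disjoint_of_subset_right Finset.subset_union_left hG'.SU).symm
    have hSU := hG.SU
    have hτS : τ ∉ S := fun h =>
      (Finset.disjoint_left.1 hSU h) (Finset.mem_insert_of_mem (hMU hτM))
    have hσS : σ₀ ∉ S := fun h => (Finset.disjoint_left.1 hSU h) (Finset.mem_insert_self _ _)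
    have hσM' : σ₀ ∉ M' := fun h => hσU (hMU (hM'M h))
    have dM : Disjoint M' Sd := Finset.disjoint_of_subset_left
      ((hM'M.trans hMU).trans (Finset.subset_insert σ₀ US)) dU
    refine ⟨L2 ++ L2d, C ∪ Cd, L ∪ Ld, S ∪ Sd, ?_, ?_, ?_, ?_⟩
    · rw [List.length_append, Finset.card_insert_of_notMem hτ]
      omega
    · exact hG.append hG'
    · have h1 := hA.append hA1 dL (by
        rw [Finset.disjoint_union_left, Finset.disjoint_insert_right, Finset.disjoint_insert_right]
        exact ⟨⟨hτS, dS⟩, hτ, dM⟩)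
      rw [List.append_nil] at h1
      convert h1 using 1
      ext x
      simp only [Finset.mem_union, Finset.mem_insert]
      tauto
    · intro σ hσ'
      rcases Finset.mem_insert.1 hσ' with rfl | hσ''
      · have h1 := hA.append hA2 dL (by
          rw [Finset.disjoint_union_left, Finset.disjoint_insert_right, Finset.disjoint_insert_right]
          exact ⟨⟨hσS, dS⟩, hσM', dM⟩)
        rw [List.append_nil] at h1
        convert h1 using 1
        rw [Finset.erase_insert hτ]
        ext x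
        simp only [Finset.mem_union, Finset.mem_insert]
        tauto
      · have hne : σ ≠ τ := fun h => hτ (h ▸ hσ'')
        have h1 := (hB σ hσ'').append hA1 dL (by
          rw [Finset.disjoint_union_left, Finset.disjoint_insert_right, Finset.disjoint_insert_left,
            Finset.disjoint_insert_right]
          refine ⟨⟨hτS, dS⟩, ?_, ?_, ?_⟩
          · rw [Finset.mem_insert, not_or]
            exact ⟨hτσ.symm, hσS'⟩
          · exact fun h => hτ (Finset.mem_of_mem_erase h)
          · exact Finset.disjoint_of_subset_left (Finset.erase_subset σ M') dM)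
        rw [List.append_nil] at h1
        convert h1 using 1
        rw [Finset.erase_insert_of_ne hne.symm]
        ext x
        simp only [Finset.mem_union, Finset.mem_insert]
        tauto

theorem star {e n : ℕ} (he : e = 1 ∨ e = 2) (hn2 : Even n) {UX US M : Finset ℕ}
    (hn : 2000 * (UX.card + US.card + 3000) ≤ n) (hM : M.card ≤ 70) (hMS : M ⊆ SC n) (hMU : M ⊆ US) (r : ℕ)
    (h4 : ∀ σ ∈ M, σ % 4 = r) :
    ∃ (L2 : List (ℤ × ℤ)) (C L S : Finset ℕ), L2.length ≤ 140 ∧ Gd e n UX US [] L2 C L S ∧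
      ∀ σ ∈ M, Abs e [] L2 L (S ∪ M.erase σ) := by
  rcases Finset.eq_empty_or_nonempty M with rfl | ⟨τ, hτ⟩
  · refine ⟨[], ∅, ∅, ∅, by simp, ?_, by simp⟩
    constructor
    · simp [crs]
    all_goals simp
  have hr : r % 4 = r ∧ Even r := by
    have h1 := h4 τ hτ
    have h2 := (mem_SC.1 (hMS hτ)).2
    rw [Nat.even_iff] at *
    omega
  obtain ⟨c, hc1, hc2, hc3, hc4⟩ := pick 4 (by norm_num) r 1 ((n : ℤ) - 1)
    (US.image fun x : ℕ => (x : ℤ)) (by
      have : (US.image fun x : ℕ => (x : ℤ)).card ≤ US.card := Finset.card_image_le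
      push_cast
      omega)
  obtain ⟨σ₀, rfl⟩ : ∃ σ₀ : ℕ, c = σ₀ := ⟨c.toNat, by omega⟩
  have hσU : σ₀ ∉ US := fun h => hc4 (Finset.mem_image.2 ⟨σ₀, h, rfl⟩)
  have hmod : σ₀ % 4 = r := by
    have h1 : (σ₀ : ℤ) % 4 = (r : ℤ) % 4 := hc3
    omega
  have hσ : σ₀ ∈ SC n := by
    rw [mem_SC]
    refine ⟨⟨by omega, by omega⟩, ?_⟩
    have := hr.2
    rw [Nat.even_iff] at *
    omega
  obtain ⟨L2, C, L, S, hlen, hG, hA, hB⟩ := h31_step he hn2 hn hM hMS hMU hσ hσU
    (fun σ h => by rw [h4 σ h, hmod]) M subset_rfl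
  have dU : Disjoint S (insert σ₀ US) := hG.SU
  refine ⟨L2, C, L, insert σ₀ S, by omega, ?_, ?_⟩
  · refine ⟨hG.core, hG.odd1, hG.odd2, hG.Cs, hG.Cb, hG.Ls, ?_, hG.CL, hG.CU, hG.LU, ?_⟩
    · exact Finset.insert_subset hσ hG.Ss
    · rw [Finset.disjoint_insert_left]
      exact ⟨hσU, Finset.disjoint_of_subset_right (Finset.subset_insert _ _) dU⟩
  · intro σ hσM
    have h1 := hB σ hσM
    convert h1 using 1
    ext x
    simp only [Finset.mem_union, Finset.mem_insert]
    tauto

end Pool.Agent.BD
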