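import Pool.Agent.Helper73.BD.A2

/-!
# BD-A3: absorbing exactly one of a set of label classes

Proof in words.  For `x ∈ N` let `x⁺` be the one of `x, -x` which is `≡ 1` mod 4.  Choose (with `pick`) a core `c ∈ [1, n/20]` and, if `e = 2`, another core `c2 ∈ [1, n/20]`, odd, with
`|c|, |c2| ∉ UX` (so not in `N`), different, such that the sum classes `|c + x⁺|`, `x ∈ N`, and (if `e = 2`) `|c2 + x⁺|`, `x ∈ N`, are not in `US`, not zero and pairwise different
(`|c + x⁺| = |c + y⁺|` for at most one `c`; `|c + x⁺| = |c2 + y⁺|` for at most two `c2`, so choose `c2` after `c`).  If `e = 1` let `c2 = 1` (not used).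
Ranges: `x ≤ 9n/10`, so `|c + x⁺| ≤ 95n/100`, in `SC n`.
`M1 = {|c + x⁺| : x ∈ N}`, `M2 = {|c2 + x⁺| : x ∈ N}` (only if `e = 2`).  All elements of `M1` are congruent modulo 4 (to `|c + 1|`; even numbers: `-s ≡ s` mod 4), the same for `M2`.
`star` for `M1` (with `US ∪ M1 ∪ M2`) and for `M2`.  To absorb `x`: the single site gets the label `x⁺` (sums `|c + x⁺|`, `|c2 + x⁺|`), the stars cover `M1` minus `|c+x⁺|` and `M2` minus `|c2+x⁺|`.
`S` = `M1 ∪ M2 ∪` the sets of the stars.
-/

set_option autoImplicit false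

namespace Pool.Agent.BD

open Finset Pool.Agent.SEM

private def pl53 (x : ℕ) : ℤ := if x % 4 = 1 then (x : ℤ) else -(x : ℤ)

private theorem pl53_natAbs (x : ℕ) : (pl53 x).natAbs = x := by
  unfold pl53; split_ifs <;> simp

private theorem pl53_mod {x : ℕ} (hx : Odd x) : pl53 x % 4 = 1 := by
  unfold pl53
  obtain ⟨k, hk⟩ := hx
  split_ifs with h
  · omega
  · omega

private theorem pl53_odd {x : ℕ} (hx : Odd x) : Odd (pl53 x) := by
  have := pl53_mod hx
  rw [Int.odd_iff]
  omega

private theorem pl53_inj {x y : ℕ} (h : pl53 x = pl53 y) : x = y := by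
  rw [← pl53_natAbs x, ← pl53_natAbs y, h]

private theorem pm_card53 (U : Finset ℕ) : (pm U).card ≤ 2 * U.card := by
  unfold pm
  refine (card_union_le _ _).trans ?_
  have h1 : (U.image (fun x : ℕ => (x : ℤ))).card ≤ U.card := card_image_le
  have h2 : (U.image (fun x : ℕ => -(x : ℤ))).card ≤ U.card := card_image_le
  omega

/-- forbidden values for a core -/
private noncomputable def bd53 (UX US N : Finset ℕ) : Finset ℤ :=
  pm UX ∪ (N ×ˢ pm US).image (fun p => p.2 - pl53 p.1) ∪ N.image (fun x => -pl53 x) ∪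
    (N ×ˢ N).image (fun p => (-(pl53 p.1 + pl53 p.2)) / 2)

private theorem bd53_card {UX US N : Finset ℕ} (hN : N.card ≤ 70) :
    (bd53 UX US N).card ≤ 2 * UX.card + 140 * US.card + 4970 := by
  unfold bd53
  have h1 := pm_card53 UX
  have h2 : ((N ×ˢ pm US).image (fun p : ℕ × ℤ => p.2 - pl53 p.1)).card ≤ 70 * (2 * US.card) := by
    refine card_image_le.trans ?_
    rw [card_product]
    exact Nat.mul_le_mul hN (pm_card53 US)
  have h3 : (N.image (fun x => -pl53 x)).card ≤ 70 := card_image_le.trans hN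
  have h4 : ((N ×ˢ N).image (fun p => (-(pl53 p.1 + pl53 p.2)) / 2)).card ≤ 70 * 70 := by
    refine card_image_le.trans ?_
    rw [card_product]
    exact Nat.mul_le_mul hN hN
  have h5 := card_union_le (pm UX ∪ (N ×ˢ pm US).image (fun p => p.2 - pl53 p.1) ∪ N.image (fun x => -pl53 x))
    ((N ×ˢ N).image (fun p => (-(pl53 p.1 + pl53 p.2)) / 2))
  have h6 := card_union_le (pm UX ∪ (N ×ˢ pm US).image (fun p => p.2 - pl53 p.1)) (N.image (fun x => -pl53 x))
  have h7 := card_union_le (pm UX) ((N ×ˢ pm US).image (fun p => p.2 - pl53 p.1))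
  omega

/-- a good core -/
private structure GC53 (n : ℕ) (UX US N : Finset ℕ) (c : ℤ) : Prop where
  odd : Odd c
  ran : 10 * c.natAbs ≤ n - 10
  nU : c.natAbs ∉ UX
  inj : ∀ x ∈ N, ∀ y ∈ N, (c + pl53 x).natAbs = (c + pl53 y).natAbs → x = y
  sc : ∀ x ∈ N, (c + pl53 x).natAbs ∈ SC n
  nS : ∀ x ∈ N, (c + pl53 x).natAbs ∉ US

private theorem gc53 {n : ℕ} {UX US N : Finset ℕ}
    (hn : 2000 * (UX.card + US.card + 10000) ≤ n) (hN : N.card ≤ 70) (hNL : N ⊆ LC n) (hNb : ∀ x ∈ N, 10 * x ≤ 9 * n)
    (Bad : Finset ℤ) (hBad : Bad.card ≤ 10000) :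
    ∃ c, GC53 n UX US N c ∧ c ∉ Bad := by
  have hb := bd53_card (UX := UX) (US := US) hN
  obtain ⟨c, h1, h2, h3, h4⟩ := pick 2 (by norm_num) 1 (1 - (n : ℤ) / 10) ((n : ℤ) / 10 - 1) (bd53 UX US N ∪ Bad) (by
    have h5 := card_union_le (bd53 UX US N) Bad
    have h6 : ((bd53 UX US N ∪ Bad).card : ℤ) ≤ 2 * UX.card + 140 * US.card + 14970 := by
      have : (bd53 UX US N ∪ Bad).card ≤ 2 * UX.card + 140 * US.card + 14970 := by omega
      exact_mod_cast this
    omega)
  rw [mem_union, not_or] at h4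
  obtain ⟨h4, h4b⟩ := h4
  unfold bd53 at h4
  rw [mem_union, mem_union, mem_union, not_or, not_or, not_or] at h4
  obtain ⟨⟨⟨h5, h6⟩, h7⟩, h8⟩ := h4
  have hodd : c % 2 = 1 := by
    have h9 : c % 2 = 1 % 2 := h3
    simpa using h9
  refine ⟨c, ⟨?_, ?_, ?_, ?_, ?_, ?_⟩, h4b⟩
  · rw [Int.odd_iff]; exact hodd
  · omega
  · intro h; exact h5 (mem_pm.2 h)
  · intro x hx y hy hxy
    rw [Int.natAbs_eq_natAbs_iff] at hxy
    rcases hxy with hxy | hxy
    · exact pl53_inj (by linarith)
    · exfalso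
      apply h8
      rw [mem_image]
      refine ⟨(x, y), mem_product.2 ⟨hx, hy⟩, ?_⟩
      show (-(pl53 x + pl53 y)) / 2 = c
      omega
  · intro x hx
    rw [mem_SC]
    have hx1 := mem_LC.1 (hNL hx)
    have hx2 := hNb x hx
    have hx3 := pl53_mod hx1.2
    have hx4 := pl53_natAbs x
    have hx5 : c ≠ -pl53 x := by
      intro h
      exact h7 (mem_image.2 ⟨x, hx, h.symm⟩)
    refine ⟨⟨by omega, by omega⟩, ?_⟩
    rw [Nat.even_iff]
    omega
  · intro x hx h
    apply h6
    rw [mem_image]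
    exact ⟨(x, c + pl53 x), mem_product.2 ⟨hx, mem_pm.2 h⟩, by show c + pl53 x - pl53 x = c; ring⟩

/-- the sum classes of a core -/
private def ms53 (c : ℤ) (N : Finset ℕ) : Finset ℕ := N.image (fun x => (c + pl53 x).natAbs)

private theorem ms53_mod {n : ℕ} {UX US N : Finset ℕ} {c : ℤ} (h : GC53 n UX US N c) (hNL : N ⊆ LC n) :
    ∀ s ∈ ms53 c N, s % 4 = (c + 1).natAbs % 4 := by
  intro s hs
  unfold ms53 at hs
  rw [mem_image] at hs
  obtain ⟨x, hx, rfl⟩ := hs
  have h1 := pl53_mod (mem_LC.1 (hNL hx)).2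
  have h2 := Int.odd_iff.1 h.odd
  omega

private theorem abs53 {e : ℕ} (he : e = 1 ∨ e = 2) {x : ℕ} (hx : Odd x) {c c2 : ℤ}
    (h : e = 2 → (c + pl53 x).natAbs ≠ (c2 + pl53 x).natAbs) :
    Abs e [(c, c2)] [] {x} (insert (c + pl53 x).natAbs (if e = 2 then {(c2 + pl53 x).natAbs} else ∅)) := by
  refine ⟨[(c, c2, pl53 x)], [], rfl, rfl, ?_, ?_, ?_, ?_⟩
  · intro z hz
    rw [List.mem_singleton] at hz
    subst hz
    exact pl53_odd hx
  · intro z hz; simp at hz
  · unfold lbls
    simp [pl53_natAbs]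
  · unfold smms
    rcases he with rfl | rfl
    · simp
    · have h1 := h rfl
      simp only [if_true, List.map_cons, List.map_nil]
      rw [insert_val_of_notMem (by simpa using h1)]
      simp

/-- the star for the second core -/
private theorem star53 {e n : ℕ} (he : e = 1 ∨ e = 2) (hn2 : Even n) {UX US M : Finset ℕ}
    (hn : 2000 * (UX.card + US.card + 3000) ≤ n) (hM : M.card ≤ 70) (hMS : M ⊆ SC n) (hMU : M ⊆ US) (r : ℕ)
    (h4 : ∀ σ ∈ M, σ % 4 = r) :
    ∃ (L2 : List (ℤ × ℤ)) (C L S : Finset ℕ), L2.length ≤ 140 ∧ Gd e n UX US [] L2 C L S ∧ C.card ≤ 280 ∧ L.card ≤ 280 ∧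
      S.card ≤ 420 ∧ (∀ σ ∈ M, Abs e [] L2 L (S ∪ M.erase σ)) ∧ (M = ∅ → Abs e [] L2 L S) := by
  rcases M.eq_empty_or_nonempty with hM0 | ⟨σ₀, hσ₀⟩
  · refine ⟨[], ∅, ∅, ∅, by simp, ⟨?_, by simp, by simp, by simp, by simp, by simp, by simp, by simp, by simp, by simp, by simp⟩,
      by simp, by simp, by simp, ?_, ?_⟩
    · unfold crs; split_ifs <;> rfl
    · intro σ hσ; rw [hM0] at hσ; simp at hσ
    · intro _
      refine ⟨[], [], rfl, rfl, by simp, by simp, rfl, ?_⟩
      unfold smms; split_ifs <;> rfl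
  · obtain ⟨L2, C, L, S, h1, h2, h3⟩ := star he hn2 hn hM hMS hMU r h4
    have h5 := (h3 σ₀ hσ₀).card he
    have h6 := h2.card he
    simp only [List.length_nil, mul_zero, zero_add] at h5 h6
    have h7 : S.card ≤ (S ∪ M.erase σ₀).card := card_le_card subset_union_left
    refine ⟨L2, C, L, S, h1, h2, by omega, by omega, ?_, h3, fun h => ?_⟩
    · rcases he with rfl | rfl <;> omega
    · rw [h] at hσ₀; simp at hσ₀

theorem lnode {e n : ℕ} (he : e = 1 ∨ e = 2) (hn2 : Even n) {UX US N : Finset ℕ}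
    (hn : 2000 * (UX.card + US.card + 10000) ≤ n) (hN : N.card ≤ 70) (hNL : N ⊆ LC n) (hNb : ∀ x ∈ N, 10 * x ≤ 9 * n)
    (hNU : N ⊆ UX) :
    ∃ (L1 L2 : List (ℤ × ℤ)) (C L S : Finset ℕ), L1.length = 1 ∧ L2.length ≤ 280 ∧ Gd e n UX US L1 L2 C L S ∧
      ∀ x ∈ N, Abs e L1 L2 (insert x L) S := by
  obtain ⟨c, hc, -⟩ := gc53 (US := US) hn hN hNL hNb ∅ (by simp)
  obtain ⟨c2, hc2, hbad⟩ := gc53 (US := US) hn hN hNL hNb ({c, -c} ∪ (N ×ˢ N).image (fun p => c + pl53 p.1 - pl53 p.2) ∪
    (N ×ˢ N).image (fun p => -(c + pl53 p.1) - pl53 p.2)) (by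
      have h1 : ((N ×ˢ N).image (fun p => c + pl53 p.1 - pl53 p.2)).card ≤ 70 * 70 := by
        refine card_image_le.trans ?_
        rw [card_product]
        exact Nat.mul_le_mul hN hN
      have h2 : ((N ×ˢ N).image (fun p => -(c + pl53 p.1) - pl53 p.2)).card ≤ 70 * 70 := by
        refine card_image_le.trans ?_
        rw [card_product]
        exact Nat.mul_le_mul hN hN
      have h3 := card_union_le ({c, -c} ∪ (N ×ˢ N).image (fun p => c + pl53 p.1 - pl53 p.2))
        ((N ×ˢ N).image (fun p => -(c + pl53 p.1) - pl53 p.2))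
      have h4 := card_union_le ({c, -c} : Finset ℤ) ((N ×ˢ N).image (fun p => c + pl53 p.1 - pl53 p.2))
      have h5 : ({c, -c} : Finset ℤ).card ≤ 2 := card_le_two
      omega)
  rw [mem_union, mem_union, not_or, not_or] at hbad
  obtain ⟨⟨hb1, hb2⟩, hb3⟩ := hbad
  have hcc : c.natAbs ≠ c2.natAbs := by
    intro h
    rw [Int.natAbs_eq_natAbs_iff] at h
    apply hb1
    rw [mem_insert, mem_singleton]
    rcases h with h | h
    · exact Or.inl h.symm
    · exact Or.inr (by linarith)
  have hcross : ∀ x ∈ N, ∀ y ∈ N, (c + pl53 x).natAbs ≠ (c2 + pl53 y).natAbs := by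
    intro x hx y hy h
    rw [Int.natAbs_eq_natAbs_iff] at h
    rcases h with h | h
    · exact hb2 (mem_image.2 ⟨(x, y), mem_product.2 ⟨hx, hy⟩, by show c + pl53 x - pl53 y = c2; linarith⟩)
    · exact hb3 (mem_image.2 ⟨(x, y), mem_product.2 ⟨hx, hy⟩, by show -(c + pl53 x) - pl53 y = c2; linarith⟩)
  -- the sets
  obtain ⟨M1, hM1⟩ : ∃ M1, M1 = ms53 c N := ⟨_, rfl⟩
  obtain ⟨M2, hM2⟩ : ∃ M2, M2 = (if e = 2 then ms53 c2 N else ∅) := ⟨_, rfl⟩
  obtain ⟨C0, hC0⟩ : ∃ C0 : Finset ℕ, C0 = insert c.natAbs (if e = 2 then {c2.natAbs} else ∅) := ⟨_, rfl⟩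
  have hM1c : M1.card ≤ 70 := by rw [hM1]; exact card_image_le.trans hN
  have hM2c : M2.card ≤ 70 := by
    rw [hM2]
    split_ifs
    · exact card_image_le.trans hN
    · simp
  have hC0c : C0.card ≤ 2 := by
    rw [hC0]
    split_ifs
    · exact card_le_two
    · simp
  have hM1S : M1 ⊆ SC n := by
    intro s hs
    rw [hM1] at hs
    obtain ⟨x, hx, rfl⟩ := mem_image.1 hs
    exact hc.sc x hx
  have hM2S : M2 ⊆ SC n := by
    intro s hs
    rw [hM2] at hs
    split_ifs at hs
    · obtain ⟨x, hx, rfl⟩ := mem_image.1 hs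
      exact hc2.sc x hx
    · simp at hs
  have hM1U : Disjoint M1 US := by
    rw [Finset.disjoint_left]
    intro s hs
    rw [hM1] at hs
    obtain ⟨x, hx, rfl⟩ := mem_image.1 hs
    exact hc.nS x hx
  have hM2U : Disjoint M2 US := by
    rw [Finset.disjoint_left]
    intro s hs
    rw [hM2] at hs
    split_ifs at hs
    · obtain ⟨x, hx, rfl⟩ := mem_image.1 hs
      exact hc2.nS x hx
    · simp at hs
  have hM12 : Disjoint M1 M2 := by
    rw [Finset.disjoint_left]
    intro s hs hs2
    rw [hM1] at hs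
    rw [hM2] at hs2
    obtain ⟨x, hx, rfl⟩ := mem_image.1 hs
    split_ifs at hs2
    · obtain ⟨y, hy, hxy⟩ := mem_image.1 hs2
      exact hcross x hx y hy hxy.symm
    · simp at hs2
  have hM1r : ∀ s ∈ M1, s % 4 = (c + 1).natAbs % 4 := by rw [hM1]; exact ms53_mod hc hNL
  have hM2r : ∀ s ∈ M2, s % 4 = (c2 + 1).natAbs % 4 := by
    rw [hM2]
    split_ifs
    · exact ms53_mod hc2 hNL
    · simp
  have hn10 : 10 ≤ n := by omega
  have hGd0 : Gd e n UX US [(c, c2)] [] C0 ∅ (M1 ∪ M2) := by
    refine ⟨?_, ?_, by simp, ?_, ?_, by simp, union_subset hM1S hM2S, by simp, ?_, by simp, ?_⟩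
    · rw [hC0]
      unfold crs
      rcases he with rfl | rfl
      · simp
      · simp only [if_true, List.map_cons, List.map_nil]
        rw [insert_val_of_notMem (by simpa using hcc)]
        simp
    · intro z hz
      rw [List.mem_singleton] at hz
      subst hz
      exact ⟨hc.odd, hc2.odd⟩
    · intro x hx
      rw [hC0, mem_insert] at hx
      have h1 := Int.odd_iff.1 hc.odd
      have h2 := Int.odd_iff.1 hc2.odd
      have h3 := hc.ran
      have h4 := hc2.ran
      rw [mem_LC, Nat.odd_iff]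
      rcases hx with hx | hx
      · subst hx
        omega
      · split_ifs at hx
        · rw [mem_singleton] at hx
          subst hx
          omega
        · simp at hx
    · intro x hx
      rw [hC0, mem_insert] at hx
      have h3 := hc.ran
      have h4 := hc2.ran
      rcases hx with hx | hx
      · subst hx
        omega
      · split_ifs at hx
        · rw [mem_singleton] at hx
          subst hx
          omega
        · simp at hx
    · rw [Finset.disjoint_left]
      intro x hx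
      rw [hC0, mem_insert] at hx
      rcases hx with hx | hx
      · subst hx
        exact hc.nU
      · split_ifs at hx
        · rw [mem_singleton] at hx
          subst hx
          exact hc2.nU
        · simp at hx
    · exact Finset.disjoint_union_left.2 ⟨hM1U, hM2U⟩
  -- first star
  have hMMc : (US ∪ (M1 ∪ M2)).card ≤ US.card + 140 := by
    have h1 := card_union_le US (M1 ∪ M2)
    have h2 := card_union_le M1 M2
    omega
  have hXXc : (UX ∪ C0 ∪ ∅).card ≤ UX.card + 2 := by
    rw [union_empty]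
    have h1 := card_union_le UX C0
    omega
  obtain ⟨La2, Ca, La, Sa, a1, a2, a3, a4, a5, a6, a7⟩ := star53 he hn2 (UX := UX ∪ C0 ∪ ∅) (US := US ∪ (M1 ∪ M2)) (M := M1)
    ((Nat.mul_le_mul_left 2000 (by omega)).trans hn) hM1c hM1S (subset_union_left.trans subset_union_right) _ hM1r
  have hG1 := hGd0.append a2
  have hXX2 : (UX ∪ (C0 ∪ Ca) ∪ (∅ ∪ La)).card ≤ UX.card + 562 := by
    have h1 := card_union_le (UX ∪ (C0 ∪ Ca)) (∅ ∪ La)
    have h2 := card_union_le UX (C0 ∪ Ca)
    have h3 := card_union_le C0 Ca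
    rw [empty_union] at h1 ⊢
    omega
  have hSS2 : (US ∪ (M1 ∪ M2 ∪ Sa)).card ≤ US.card + 560 := by
    have h1 := card_union_le US (M1 ∪ M2 ∪ Sa)
    have h2 := card_union_le (M1 ∪ M2) Sa
    have h3 := card_union_le M1 M2
    omega
  obtain ⟨Lb2, Cb, Lb, Sb, b1, b2, b3, b4, b5, b6, b7⟩ := star53 he hn2 (UX := UX ∪ (C0 ∪ Ca) ∪ (∅ ∪ La))
    (US := US ∪ (M1 ∪ M2 ∪ Sa)) (M := M2)
    ((Nat.mul_le_mul_left 2000 (by omega)).trans hn) hM2c hM2S
    (subset_union_right.trans (subset_union_left.trans subset_union_right)) _ hM2r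
  have hG2 := hG1.append b2
  refine ⟨_, _, _, _, _, ?_, ?_, hG2, ?_⟩
  · simp
  · simp only [List.nil_append, List.length_append]
    omega
  · intro x hx
    have hx1 := mem_LC.1 (hNL hx)
    have hA0 := abs53 he hx1.2 (c := c) (c2 := c2) (fun _ => hcross x hx x hx)
    obtain ⟨T, hT⟩ : ∃ T : Finset ℕ, T = (if e = 2 then {(c2 + pl53 x).natAbs} else ∅) := ⟨_, rfl⟩
    obtain ⟨s, hs⟩ : ∃ s : ℕ, s = (c + pl53 x).natAbs := ⟨_, rfl⟩
    rw [← hT, ← hs] at hA0
    have hsM : s ∈ M1 := by rw [hM1, hs]; exact mem_image_of_mem _ hx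
    have hTM : T ⊆ M2 := by
      rw [hT, hM2]
      split_ifs
      · rw [singleton_subset_iff]; exact mem_image_of_mem _ hx
      · exact Subset.rfl
    have hA2 : Abs e [] Lb2 Lb (Sb ∪ (M2 \ T)) := by
      rcases he with he | he
      · have h1 : M2 = ∅ := by rw [hM2, if_neg (by omega)]
        have h2 := b7 h1
        rw [h1]
        simpa using h2
      · have h1 : T = {(c2 + pl53 x).natAbs} := by rw [hT, if_pos he]
        have h2 : (c2 + pl53 x).natAbs ∈ M2 := hTM (by rw [h1]; exact mem_singleton_self _)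
        have h3 := b6 _ h2
        rw [h1, Finset.sdiff_singleton_eq_erase]
        exact h3
    have hA1 := a6 s hsM
    have hxU : x ∈ UX := hNU hx
    have dA := Finset.disjoint_left.1 a2.SU
    have dB := Finset.disjoint_left.1 b2.SU
    have dLa := Finset.disjoint_left.1 a2.LU
    have dLb := Finset.disjoint_left.1 b2.LU
    have hM12' := Finset.disjoint_left.1 hM12
    have hA01 := hA0.append hA1 (by
      rw [Finset.disjoint_left]
      intro y hy hy2
      rw [mem_singleton] at hy
      subst hy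
      apply dLa hy2
      simp [hxU]) (by
      rw [Finset.disjoint_left]
      intro y hy hy2
      rw [mem_insert] at hy
      rw [mem_union] at hy2
      rcases hy2 with hy2 | hy2
      · apply dA hy2
        rcases hy with rfl | hy
        · simp [hsM]
        · simp [hTM hy]
      · rw [mem_erase] at hy2
        rcases hy with rfl | hy
        · exact hy2.1 rfl
        · exact hM12' hy2.2 (hTM hy))
    have hA012 := hA01.append hA2 (by
      rw [Finset.disjoint_left]
      intro y hy hy2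
      apply dLb hy2
      rw [mem_union, mem_singleton] at hy
      rcases hy with rfl | hy
      · simp [hxU]
      · simp [hy]) (by
      rw [Finset.disjoint_left]
      intro y hy hy2
      rw [mem_union, mem_insert, mem_union, mem_erase] at hy
      rw [mem_union, mem_sdiff] at hy2
      rcases hy2 with hy2 | hy2
      · apply dB hy2
        rcases hy with (rfl | hy) | hy | hy
        · simp [hsM]
        · simp [hTM hy]
        · simp [hy]
        · simp [hy.2]
      · rcases hy with (rfl | hy) | hy | hy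
        · exact hM12' hsM hy2.1
        · exact hy2.2 hy
        · exact dA hy (by simp [hy2.1])
        · exact hM12' hy.2 hy2.1)
    convert hA012 using 1
    · ext y
      simp only [mem_insert, mem_union, mem_singleton, notMem_empty, false_or]
      tauto
    · ext y
      simp only [mem_insert, mem_union, mem_sdiff, mem_erase]
      constructor
      · rintro (((h | h) | h) | h)
        · by_cases hys : y = s
          · left; left; left; exact hys
          · left; right; right; exact ⟨hys, h⟩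
        · by_cases hyT : y ∈ T
          · left; left; right; exact hyT
          · right; right; exact ⟨h, hyT⟩
        · left; right; left; exact h
        · right; left; exact h
      · rintro (((h | h) | h | h) | h | h)
        · left; left; left; rw [h]; exact hsM
        · left; left; right; exact hTM h
        · left; right; exact h
        · left; left; left; exact h.2
        · right; exact h
        · left; left; right; exact h.1

end Pool.Agent.BD
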