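import Pool.Agent.Helper73.BD.A3

/-!
# BD-A4: absorbing exactly one of a set of sum classes

Proof in words.  Choose (with `pick`) a core `c ∈ [n/2, 9n/10]` and a core `c2 ∈ [1, n/2 - 1]`, odd, `|c|, |c2| ∉ UX`, such that the label classes
`|σ - c|`, `σ ∈ M`, are not in `UX ∪ {|c|, |c2|}` and pairwise different (`σ - c = -(σ'-c)` for at most one `c`), and if `e = 2` the sum classes `|c2 + (σ - c)|`, `σ ∈ M`, are not in `US`, nonzero
and pairwise different.  Choose a label class `x₀ ≤ n/2`, `x₀ ∉ UX`, new.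
Ranges: `|σ - c| ≤ 9n/10` (as `2 ≤ σ ≤ n-2`, `c ≥ n/10`).
For every `σ ∈ M` a gadget `lnode` for the two label classes `{x₀, |σ - c|}` (one after the other, with enlarged `UX, US`), and if `e = 2` a `star` for the set
`M2 = {|c2 + (σ-c)|}` (all congruent modulo 4, as all `σ ∈ M` are congruent to `r` modulo 4).
To absorb `σ`: the single site gets the label `σ - c` (sums `σ` and, if `e = 2`, `|c2 + (σ-c)|`); the gadget of `σ` absorbs `x₀`, the gadget of every other `σ'` absorbs `|σ'-c|`; the star covers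
`M2` minus `|c2+σ-c|`.  `L` contains `x₀` and all `|σ-c|`; `S` contains `M2`.
At most 70 label gadgets: `L1.length ≤ 71`, `L2.length ≤ 70 · 280 + 140` (with the better bound 8 for two elements not needed).
-/

set_option autoImplicit false

namespace Pool.Agent.BD

open Finset Pool.Agent.SEM

private theorem abs_nil1 (e : ℕ) : Abs e [] [] ∅ ∅ :=
  ⟨[], [], rfl, rfl, by simp, by simp, by simp [lbls], by simp [smms]⟩

private theorem gd_nil1 (e n : ℕ) (UX US : Finset ℕ) : Gd e n UX US [] [] ∅ ∅ ∅ where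
  core := by simp [crs]
  odd1 := by simp
  odd2 := by simp
  Cs := by simp
  Cb := by simp
  Ls := by simp
  Ss := by simp
  CL := by simp
  CU := by simp
  LU := by simp
  SU := by simp

private theorem uni1 (A B D : Finset ℕ) (y : ℕ) : (A ∪ B) ∪ insert y D = insert y A ∪ (B ∪ D) := by
  ext z; simp only [mem_union, mem_insert]; tauto

private theorem uni2 (A B D : Finset ℕ) (x y : ℕ) :
    (insert x A ∪ B) ∪ insert y D = insert x (insert y A) ∪ (B ∪ D) := by
  ext z; simp only [mem_union, mem_insert]; tauto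

private theorem arith1 {n a b u v c l s : ℕ} (hn : 2000 * (u + v + 200000) ≤ n) (h1 : a ≤ u + c + l)
    (h2 : b ≤ v + s) (h3 : c ≤ 2 * 70 + 2 * 19600) (h4 : l ≤ 70 + 2 * 19600) (h5 : s ≤ 2 * 70 + 3 * 19600) :
    2000 * (a + b + 10000) ≤ n := by
  linarith

private theorem multi1 {e n : ℕ} (he : e = 1 ∨ e = 2) (hn2 : Even n) {UX US : Finset ℕ}
    (hn : 2000 * (UX.card + US.card + 200000) ≤ n) (x₀ : ℕ) (Y : Finset ℕ) :
    x₀ ∉ Y → Y.card ≤ 70 → insert x₀ Y ⊆ LC n → (∀ x ∈ insert x₀ Y, 10 * x ≤ 9 * n) →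
    insert x₀ Y ⊆ UX →
    ∃ (L1 L2 : List (ℤ × ℤ)) (C L S : Finset ℕ), L1.length = Y.card ∧ L2.length ≤ 280 * Y.card ∧
      Gd e n UX US L1 L2 C L S ∧ Abs e L1 L2 (Y ∪ L) S ∧
      ∀ y ∈ Y, Abs e L1 L2 (insert x₀ (Y.erase y) ∪ L) S := by
  induction Y using Finset.induction_on with
  | empty =>
    intro _ _ _ _ _
    refine ⟨[], [], ∅, ∅, ∅, by simp, by simp, gd_nil1 e n UX US, ?_, by simp⟩
    rw [Finset.union_empty]
    exact abs_nil1 e
  | insert y₁ Y hy₁ ih =>
    intro hx₀ hY hL hb hU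
    have hxy : x₀ ≠ y₁ := fun h => hx₀ (by rw [h]; exact mem_insert_self _ _)
    have hx₀' : x₀ ∉ Y := fun h => hx₀ (mem_insert_of_mem h)
    have hsub : insert x₀ Y ⊆ insert x₀ (insert y₁ Y) :=
      insert_subset_insert _ (subset_insert _ _)
    have hcard : (insert y₁ Y).card = Y.card + 1 := card_insert_of_notMem hy₁
    rw [hcard] at hY
    obtain ⟨L1, L2, C, L, S, hl1, hl2, hG, hA, hAy⟩ := ih hx₀' (by omega) (hsub.trans hL)
      (fun x hx => hb x (hsub hx)) (hsub.trans hU)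
    -- sizes
    have hc1 := hG.card he
    obtain ⟨hc2, hc3⟩ := hA.card he
    have hLc : L.card ≤ (Y ∪ L).card := card_le_card subset_union_right
    have hUX : (UX ∪ C ∪ L).card ≤ UX.card + C.card + L.card :=
      (card_union_le _ _).trans (Nat.add_le_add_right (card_union_le _ _) _)
    have hUS : (US ∪ S).card ≤ US.card + S.card := card_union_le _ _
    have hUX1 : insert x₀ (insert y₁ Y) ⊆ UX ∪ C ∪ L :=
      hU.trans (subset_union_left.trans subset_union_left)
    have hN : ({x₀, y₁} : Finset ℕ) ⊆ insert x₀ (insert y₁ Y) := by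
      intro x hx
      rw [mem_insert, mem_singleton] at hx
      rcases hx with rfl | rfl
      · exact mem_insert_self _ _
      · exact mem_insert_of_mem (mem_insert_self _ _)
    have hbound : 2000 * ((UX ∪ C ∪ L).card + (US ∪ S).card + 10000) ≤ n := by
      have b1 : L1.length ≤ 70 := by rw [hl1]; exact le_trans (Nat.le_succ _) hY
      have b2 : L2.length ≤ 19600 := by
        refine hl2.trans ?_
        have : Y.card ≤ 70 := le_trans (Nat.le_succ _) hY
        calc 280 * Y.card ≤ 280 * 70 := Nat.mul_le_mul_left _ this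
          _ = 19600 := by norm_num
      have b3 : C.card ≤ 2 * 70 + 2 * 19600 := by
        rw [hc1]
        rcases he with h1 | h1 <;> rw [h1] <;> clear * - b1 b2 <;> omega
      have b4 : L.card ≤ 70 + 2 * 19600 := by
        refine hLc.trans ?_
        rw [hc2]
        clear * - b1 b2
        omega
      have b5 : S.card ≤ 2 * 70 + 3 * 19600 := by
        rw [hc3]
        rcases he with h1 | h1 <;> rw [h1] <;> clear * - b1 b2 <;> omega
      exact arith1 hn hUX hUS b3 b4 b5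
    obtain ⟨L1', L2', C', L', S', hl1', hl2', hG', hA'⟩ := lnode (UX := UX ∪ C ∪ L) (US := US ∪ S)
      (N := {x₀, y₁}) he hn2 hbound (by
        have := card_le_two (a := x₀) (b := y₁)
        omega) (hN.trans hL) (fun x hx => hb x (hN hx)) (hN.trans hUX1)
    have hA1 := hA' x₀ (by simp)
    have hA2 := hA' y₁ (by simp)
    have hSS : Disjoint S S' := by
      have := hG'.SU
      rw [disjoint_union_right] at this
      exact this.2.symm
    have hLU' := hG'.LU
    have hLU := hG.LU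
    rw [disjoint_left] at hLU' hLU
    have hx₀U : x₀ ∈ UX := hU (mem_insert_self _ _)
    have hy₁U : y₁ ∈ UX := hU (mem_insert_of_mem (mem_insert_self _ _))
    have hYU : ∀ y ∈ Y, y ∈ UX := fun y hy => hU (mem_insert_of_mem (mem_insert_of_mem hy))
    have hx₀L : x₀ ∉ L := fun h => hLU h hx₀U
    have hy₁L : y₁ ∉ L := fun h => hLU h hy₁U
    have hLL : ∀ z ∈ L, z ∉ L' := fun z hz hz' => hLU' hz' (mem_union_right _ hz)
    have hUL : ∀ z ∈ UX, z ∉ L' := fun z hz hz' =>
      hLU' hz' (mem_union_left _ (mem_union_left _ hz))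
    refine ⟨L1 ++ L1', L2 ++ L2', C ∪ C', L ∪ L', S ∪ S', ?_, ?_, hG.append hG', ?_, ?_⟩
    · rw [List.length_append, hcard, hl1, hl1']
    · rw [List.length_append, hcard]
      omega
    · -- all `y`
      have hd : Disjoint (Y ∪ L) (insert y₁ L') := by
        rw [disjoint_left]
        intro z hz hz'
        rw [mem_union] at hz
        rw [mem_insert] at hz'
        rcases hz' with rfl | hz'
        · rcases hz with hz | hz
          · exact hy₁ hz
          · exact hy₁L hz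
        · rcases hz with hz | hz
          · exact hUL z (hYU z hz) hz'
          · exact hLL z hz hz'
      have h := hA.append hA2 hd hSS
      rw [uni1] at h
      exact h
    · intro y hy
      rw [mem_insert] at hy
      by_cases hyy : y = y₁
      · subst hyy
        have hd : Disjoint (Y ∪ L) (insert x₀ L') := by
          rw [disjoint_left]
          intro z hz hz'
          rw [mem_union] at hz
          rw [mem_insert] at hz'
          rcases hz' with rfl | hz'
          · rcases hz with hz | hz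
            · exact hx₀' hz
            · exact hx₀L hz
          · rcases hz with hz | hz
            · exact hUL z (hYU z hz) hz'
            · exact hLL z hz hz'
        have h := hA.append hA1 hd hSS
        rw [uni1, ← erase_insert hy₁] at h
        exact h
      · have hyY : y ∈ Y := hy.resolve_left hyy
        have hd : Disjoint (insert x₀ (Y.erase y) ∪ L) (insert y₁ L') := by
          rw [disjoint_left]
          intro z hz hz'
          rw [mem_union, mem_insert] at hz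
          rw [mem_insert] at hz'
          rcases hz' with rfl | hz'
          · rcases hz with (hz | hz) | hz
            · exact hxy hz.symm
            · exact hy₁ (mem_of_mem_erase hz)
            · exact hy₁L hz
          · rcases hz with (hz | hz) | hz
            · rw [hz] at hz'
              exact hUL x₀ hx₀U hz'
            · exact hUL z (hYU z (mem_of_mem_erase hz)) hz'
            · exact hLL z hz hz'
        have h := (hAy y hyY).append hA2 hd hSS
        rw [uni2, ← erase_insert_of_ne (Ne.symm hyy)] at h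
        exact h

private theorem gd_one1 {n : ℕ} {UX US : Finset ℕ} {c c2 : ℤ} {L S : Finset ℕ} (hc : Odd c) (hc2 : Odd c2)
    (hcL : c.natAbs ∈ LC n) (hcb : 10 * c.natAbs ≤ 9 * n) (hL : L ⊆ LC n) (hS : S ⊆ SC n)
    (hcn : c.natAbs ∉ L) (hcU : c.natAbs ∉ UX) (hLU : Disjoint L UX) (hSU : Disjoint S US) :
    Gd 1 n UX US [(c, c2)] [] {c.natAbs} L S where
  core := by simp [crs]
  odd1 := by simp [hc, hc2]
  odd2 := by simp
  Cs := by simpa using hcL
  Cb := by simpa using hcb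
  Ls := hL
  Ss := hS
  CL := by simpa using hcn
  CU := by simpa using hcU
  LU := hLU
  SU := hSU

private theorem gd_two1 {n : ℕ} {UX US : Finset ℕ} {c c2 : ℤ} {L S : Finset ℕ} (hc : Odd c) (hc2 : Odd c2)
    (hcL : c.natAbs ∈ LC n) (hcb : 10 * c.natAbs ≤ 9 * n) (hL : L ⊆ LC n) (hS : S ⊆ SC n)
    (hcn : c.natAbs ∉ L) (hcU : c.natAbs ∉ UX) (hLU : Disjoint L UX) (hSU : Disjoint S US)
    (hcL2 : c2.natAbs ∈ LC n) (hcb2 : 10 * c2.natAbs ≤ 9 * n) (hcn2 : c2.natAbs ∉ L)
    (hcU2 : c2.natAbs ∉ UX) (hcc : c.natAbs ≠ c2.natAbs) :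
    Gd 2 n UX US [(c, c2)] [] {c.natAbs, c2.natAbs} L S where
  core := by
    rw [insert_val, Multiset.ndinsert_of_notMem (by simpa using hcc)]
    simp [crs]
  odd1 := by simp [hc, hc2]
  odd2 := by simp
  Cs := by
    intro x hx
    rw [mem_insert, mem_singleton] at hx
    rcases hx with rfl | rfl
    · exact hcL
    · exact hcL2
  Cb := by
    intro x hx
    rw [mem_insert, mem_singleton] at hx
    rcases hx with rfl | rfl
    · exact hcb
    · exact hcb2
  Ls := hL
  Ss := hS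
  CL := by
    rw [disjoint_left]
    intro x hx
    rw [mem_insert, mem_singleton] at hx
    rcases hx with rfl | rfl
    · exact hcn
    · exact hcn2
  CU := by
    rw [disjoint_left]
    intro x hx
    rw [mem_insert, mem_singleton] at hx
    rcases hx with rfl | rfl
    · exact hcU
    · exact hcU2
  LU := hLU
  SU := hSU

private theorem abs_one1 {c c2 x : ℤ} (hx : Odd x) :
    Abs 1 [(c, c2)] [] {x.natAbs} {(c + x).natAbs} :=
  ⟨[(c, c2, x)], [], rfl, rfl, by simpa using hx, by simp, by simp [lbls], by simp [smms]⟩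

private theorem abs_two1 {c c2 x : ℤ} (hx : Odd x) (hne : (c + x).natAbs ≠ (c2 + x).natAbs) :
    Abs 2 [(c, c2)] [] {x.natAbs} {(c + x).natAbs, (c2 + x).natAbs} := by
  refine ⟨[(c, c2, x)], [], rfl, rfl, by simpa using hx, by simp, by simp [lbls], ?_⟩
  rw [insert_val, Multiset.ndinsert_of_notMem (by simpa using hne)]
  simp [smms]

private theorem card_bad1 (A B : Finset ℕ) (f : ℕ × ℕ → ℤ) :
    ((A ×ˢ B).image f).card ≤ A.card * B.card := card_image_le.trans (card_product _ _).le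

/-- choice of the core `c` -/
private theorem pick_c1 {n : ℕ} {UX M : Finset ℕ} (hn : 2000 * (UX.card + 1000000) ≤ n) (hM : M.card ≤ 70) :
    ∃ c : ℤ, (n : ℤ) ≤ 2 * c ∧ 10 * c ≤ 9 * n ∧ Odd c ∧ c.natAbs ∉ UX ∧
      (∀ σ ∈ M, ((σ : ℤ) - c).natAbs ∉ UX) ∧ (∀ σ ∈ M, (σ : ℤ) ≠ 2 * c) ∧
      ∀ σ ∈ M, ∀ σ' ∈ M, (σ : ℤ) + σ' ≠ 2 * c := by
  set Bad : Finset ℤ := pm UX ∪ (M ×ˢ UX).image (fun z : ℕ × ℕ => (z.1 : ℤ) + z.2) ∪
    (M ×ˢ UX).image (fun z : ℕ × ℕ => (z.1 : ℤ) - z.2) ∪ M.image (fun z : ℕ => (z : ℤ) / 2) ∪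
    (M ×ˢ M).image (fun z : ℕ × ℕ => ((z.1 : ℤ) + z.2) / 2) with hBad
  have h1 : (pm UX).card ≤ UX.card + UX.card :=
    (card_union_le _ _).trans (Nat.add_le_add card_image_le card_image_le)
  have hMU : M.card * UX.card ≤ 70 * UX.card := Nat.mul_le_mul_right _ hM
  have hMM : M.card * M.card ≤ 70 * 70 := Nat.mul_le_mul hM hM
  have hB : Bad.card ≤ 142 * UX.card + 4970 := by
    rw [hBad]
    refine (card_union_le _ _).trans ?_
    refine (Nat.add_le_add_right (card_union_le _ _) _).trans ?_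
    refine (Nat.add_le_add_right (Nat.add_le_add_right (card_union_le _ _) _) _).trans ?_
    refine (Nat.add_le_add_right (Nat.add_le_add_right (Nat.add_le_add_right (card_union_le _ _) _) _) _).trans ?_
    have e1 := card_bad1 M UX (fun z : ℕ × ℕ => (z.1 : ℤ) + z.2)
    have e2 := card_bad1 M UX (fun z : ℕ × ℕ => (z.1 : ℤ) - z.2)
    have e3 := card_bad1 M M (fun z : ℕ × ℕ => ((z.1 : ℤ) + z.2) / 2)
    have e4 : (M.image (fun z : ℕ => (z : ℤ) / 2)).card ≤ M.card := card_image_le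
    linarith
  obtain ⟨c, hc1, hc2, hc3, hc4⟩ := pick 2 (by norm_num) 1 (((n : ℤ) + 1) / 2) ((9 * n : ℤ) / 10) Bad (by
    have a1 : ((n : ℤ) + 1) / 2 ≤ ((n : ℤ) + 1) / 2 := le_refl _
    have a2 : 2 * (((n : ℤ) + 1) / 2) ≤ (n : ℤ) + 1 := by omega
    have a3 : (9 * n : ℤ) - 9 ≤ 10 * ((9 * n : ℤ) / 10) := by omega
    have hB' : (Bad.card : ℤ) ≤ 142 * UX.card + 4970 := by exact_mod_cast hB
    have hn' : 2000 * ((UX.card : ℤ) + 1000000) ≤ n := by exact_mod_cast hn
    have hU0 : (0 : ℤ) ≤ UX.card := by positivity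
    push_cast
    linarith)
  rw [hBad] at hc4
  simp only [mem_union, not_or] at hc4
  obtain ⟨⟨⟨⟨b1, b2⟩, b3⟩, b4⟩, b5⟩ := hc4
  refine ⟨c, by omega, by omega, ?_, ?_, ?_, ?_, ?_⟩
  · rw [Int.odd_iff]
    exact hc3
  · intro h
    exact b1 (mem_pm.2 h)
  · intro σ hσ h
    rcases Int.natAbs_eq ((σ : ℤ) - c) with h2 | h2
    · exact b3 (mem_image.2 ⟨(σ, ((σ : ℤ) - c).natAbs), mem_product.2 ⟨hσ, h⟩, by dsimp only; omega⟩)
    · exact b2 (mem_image.2 ⟨(σ, ((σ : ℤ) - c).natAbs), mem_product.2 ⟨hσ, h⟩, by dsimp only; omega⟩)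
  · intro σ hσ h
    exact b4 (mem_image.2 ⟨σ, hσ, by omega⟩)
  · intro σ hσ σ' hσ' h
    exact b5 (mem_image.2 ⟨(σ, σ'), mem_product.2 ⟨hσ, hσ'⟩, by dsimp only; omega⟩)

/-- choice of the core `c2` -/
private theorem pick_d1 {n : ℕ} {X US M : Finset ℕ} (hn : 2000 * (X.card + US.card + 900000) ≤ n)
    (hM : M.card ≤ 70) (c : ℤ) :
    ∃ d : ℤ, 1 ≤ d ∧ 2 * d < n ∧ Odd d ∧ d.natAbs ∉ X ∧
      (∀ σ ∈ M, (d + ((σ : ℤ) - c)).natAbs ∉ US) ∧ (∀ σ ∈ M, d + ((σ : ℤ) - c) ≠ 0) ∧
      ∀ σ ∈ M, ∀ σ' ∈ M, (d + ((σ : ℤ) - c)) + (d + ((σ' : ℤ) - c)) ≠ 0 := by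
  set Bad : Finset ℤ := pm X ∪ (M ×ˢ US).image (fun z : ℕ × ℕ => c - (z.1 : ℤ) + z.2) ∪
    (M ×ˢ US).image (fun z : ℕ × ℕ => c - (z.1 : ℤ) - z.2) ∪ M.image (fun z : ℕ => c - (z : ℤ)) ∪
    (M ×ˢ M).image (fun z : ℕ × ℕ => (2 * c - ((z.1 : ℤ) + z.2)) / 2) with hBad
  have h1 : (pm X).card ≤ X.card + X.card :=
    (card_union_le _ _).trans (Nat.add_le_add card_image_le card_image_le)
  have hMU : M.card * US.card ≤ 70 * US.card := Nat.mul_le_mul_right _ hM
  have hMM : M.card * M.card ≤ 70 * 70 := Nat.mul_le_mul hM hM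
  have hB : Bad.card ≤ 2 * X.card + 140 * US.card + 4970 := by
    rw [hBad]
    refine (card_union_le _ _).trans ?_
    refine (Nat.add_le_add_right (card_union_le _ _) _).trans ?_
    refine (Nat.add_le_add_right (Nat.add_le_add_right (card_union_le _ _) _) _).trans ?_
    refine (Nat.add_le_add_right (Nat.add_le_add_right (Nat.add_le_add_right (card_union_le _ _) _) _) _).trans ?_
    have e1 := card_bad1 M US (fun z : ℕ × ℕ => c - (z.1 : ℤ) + z.2)
    have e2 := card_bad1 M US (fun z : ℕ × ℕ => c - (z.1 : ℤ) - z.2)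
    have e3 := card_bad1 M M (fun z : ℕ × ℕ => (2 * c - ((z.1 : ℤ) + z.2)) / 2)
    have e4 : (M.image (fun z : ℕ => c - (z : ℤ))).card ≤ M.card := card_image_le
    linarith
  obtain ⟨d, hc1, hc2, hc3, hc4⟩ := pick 2 (by norm_num) 1 1 (((n : ℤ) - 1) / 2) Bad (by
    have a2 : (n : ℤ) - 2 ≤ 2 * (((n : ℤ) - 1) / 2) := by omega
    have hB' : (Bad.card : ℤ) ≤ 2 * X.card + 140 * US.card + 4970 := by exact_mod_cast hB
    have hn' : 2000 * ((X.card : ℤ) + US.card + 900000) ≤ n := by exact_mod_cast hn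
    have hU0 : (0 : ℤ) ≤ X.card := by positivity
    have hU1 : (0 : ℤ) ≤ US.card := by positivity
    push_cast
    linarith)
  rw [hBad] at hc4
  simp only [mem_union, not_or] at hc4
  obtain ⟨⟨⟨⟨b1, b2⟩, b3⟩, b4⟩, b5⟩ := hc4
  refine ⟨d, hc1, by omega, ?_, ?_, ?_, ?_, ?_⟩
  · rw [Int.odd_iff]
    exact hc3
  · intro h
    exact b1 (mem_pm.2 h)
  · intro σ hσ h
    rcases Int.natAbs_eq (d + ((σ : ℤ) - c)) with h2 | h2
    · exact b2 (mem_image.2 ⟨(σ, (d + ((σ : ℤ) - c)).natAbs), mem_product.2 ⟨hσ, h⟩, by dsimp only; omega⟩)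
    · exact b3 (mem_image.2 ⟨(σ, (d + ((σ : ℤ) - c)).natAbs), mem_product.2 ⟨hσ, h⟩, by dsimp only; omega⟩)
  · intro σ hσ h
    exact b4 (mem_image.2 ⟨σ, hσ, by omega⟩)
  · intro σ hσ σ' hσ' h
    exact b5 (mem_image.2 ⟨(σ, σ'), mem_product.2 ⟨hσ, hσ'⟩, by dsimp only; omega⟩)

/-- the choices for the sum node -/
private theorem choice1 {n : ℕ} (hn2 : Even n) {UX US M : Finset ℕ}
    (hn : 2000 * (UX.card + US.card + 1000000) ≤ n) (hM : M.card ≤ 70) (hMS : M ⊆ SC n) (hMU : M ⊆ US) :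
    ∃ (c d : ℤ) (x₀ : ℕ) (Y : Finset ℕ), Odd c ∧ Odd d ∧ c.natAbs ∈ LC n ∧ 10 * c.natAbs ≤ 9 * n ∧
      c.natAbs ∉ UX ∧ d.natAbs ∈ LC n ∧ 10 * d.natAbs ≤ 9 * n ∧ d.natAbs ∉ UX ∧ c.natAbs ≠ d.natAbs ∧
      Y.card ≤ 70 ∧ x₀ ∉ Y ∧ insert x₀ Y ⊆ LC n ∧ (∀ x ∈ insert x₀ Y, 10 * x ≤ 9 * n) ∧
      Disjoint (insert x₀ Y) UX ∧ c.natAbs ∉ insert x₀ Y ∧ d.natAbs ∉ insert x₀ Y ∧
      (∀ σ ∈ M, ((σ : ℤ) - c).natAbs ∈ Y) ∧
      (∀ σ ∈ M, (d + ((σ : ℤ) - c)).natAbs ∈ SC n ∧ (d + ((σ : ℤ) - c)).natAbs ∉ US) := by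
  have hc0 : 2000 * (UX.card + 1000000) ≤ n := by linarith [Nat.zero_le US.card]
  obtain ⟨c, hc1, hc2, hc3, hc4, hc5, hc6, hc7⟩ := pick_c1 hc0 hM
  have hc3' : c % 2 = 1 := Int.odd_iff.1 hc3
  have hn0 : n % 2 = 0 := Nat.even_iff.1 hn2
  have hSC : ∀ σ ∈ M, (2 ≤ σ ∧ σ + 2 ≤ n) ∧ σ % 2 = 0 := by
    intro σ hσ
    obtain ⟨⟨h1, h2⟩, h3⟩ := mem_SC.1 (hMS hσ)
    rw [Nat.even_iff] at h3
    omega
  set Y : Finset ℕ := M.image fun σ : ℕ => ((σ : ℤ) - c).natAbs with hY
  have hYc : Y.card ≤ M.card := card_image_le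
  have hYp : ∀ y ∈ Y, (y ∉ UX ∧ y ≠ c.natAbs) ∧ y ∈ LC n ∧ 10 * y ≤ 9 * n := by
    intro y hy
    rw [hY, mem_image] at hy
    obtain ⟨σ, hσ, rfl⟩ := hy
    obtain ⟨⟨h1, h2⟩, h3⟩ := hSC σ hσ
    have h4 := hc6 σ hσ
    refine ⟨⟨hc5 σ hσ, by omega⟩, ?_, by omega⟩
    rw [mem_LC, Nat.odd_iff]
    omega
  -- `x₀`
  have hX1 : (UX ∪ Y ∪ {c.natAbs}).card ≤ UX.card + 71 := by
    refine (card_union_le _ _).trans ?_
    refine (Nat.add_le_add_right (card_union_le _ _) _).trans ?_
    rw [card_singleton]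
    linarith
  obtain ⟨x, hx1, hx2, hx3, hx4, -, -, -⟩ := pick_d1 (n := n) (X := UX ∪ Y ∪ {c.natAbs}) (US := ∅) (M := ∅)
    (by rw [card_empty]; linarith [Nat.zero_le US.card]) (by simp) 0
  have hx3' : x % 2 = 1 := Int.odd_iff.1 hx3
  simp only [mem_union, mem_singleton, not_or] at hx4
  obtain ⟨⟨hx5, hx6⟩, hx7⟩ := hx4
  -- `d`
  have hX2 : (UX ∪ Y ∪ {c.natAbs} ∪ {x.natAbs}).card ≤ UX.card + 72 := by
    refine (card_union_le _ _).trans ?_
    rw [card_singleton]
    linarith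
  obtain ⟨d, hd1, hd2, hd3, hd4, hd5, hd6, hd7⟩ := pick_d1 (n := n) (X := UX ∪ Y ∪ {c.natAbs} ∪ {x.natAbs})
    (US := US) (M := M) (by linarith) hM c
  have hd3' : d % 2 = 1 := Int.odd_iff.1 hd3
  simp only [mem_union, mem_singleton, not_or] at hd4
  obtain ⟨⟨⟨hd8, hd9⟩, hd10⟩, hd11⟩ := hd4
  refine ⟨c, d, x.natAbs, Y, hc3, hd3, ?_, by omega, hc4, ?_, by omega, hd8, fun h => hd10 h.symm,
    hYc.trans hM, hx6, ?_, ?_, ?_, ?_, ?_, ?_, ?_⟩
  · rw [mem_LC, Nat.odd_iff]
    omega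
  · rw [mem_LC, Nat.odd_iff]
    omega
  · intro z hz
    rw [mem_insert] at hz
    rcases hz with rfl | hz
    · rw [mem_LC, Nat.odd_iff]
      omega
    · exact (hYp z hz).2.1
  · intro z hz
    rw [mem_insert] at hz
    rcases hz with rfl | hz
    · omega
    · exact (hYp z hz).2.2
  · rw [disjoint_left]
    intro z hz
    rw [mem_insert] at hz
    rcases hz with rfl | hz
    · exact hx5
    · exact (hYp z hz).1.1
  · rw [mem_insert, not_or]
    exact ⟨fun h => hx7 h.symm, fun h => (hYp _ h).1.2 rfl⟩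
  · rw [mem_insert, not_or]
    exact ⟨hd11, hd9⟩
  · intro σ hσ
    exact mem_image.2 ⟨σ, hσ, rfl⟩
  · intro σ hσ
    obtain ⟨⟨h1, h2⟩, h3⟩ := hSC σ hσ
    refine ⟨?_, hd5 σ hσ⟩
    have := hd6 σ hσ
    rw [mem_SC, Nat.even_iff]
    omega

private theorem disj1 {x₀ y : ℕ} {Y L : Finset ℕ} (hx : x₀ ∉ Y) (hy : y ∈ Y) (hyL : y ∉ L) :
    Disjoint ({y} : Finset ℕ) (insert x₀ (Y.erase y) ∪ L) := by
  rw [disjoint_singleton_left, mem_union, mem_insert, mem_erase]
  rintro ((rfl | ⟨h, -⟩) | h)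
  · exact hx hy
  · exact h rfl
  · exact hyL h

private theorem uni3 {x₀ y : ℕ} {Y L : Finset ℕ} (hy : y ∈ Y) :
    ({y} : Finset ℕ) ∪ (insert x₀ (Y.erase y) ∪ L) = insert x₀ Y ∪ L := by
  rw [← union_assoc, union_comm {y}, insert_union, union_comm _ {y}, ← insert_eq, insert_erase hy]

private theorem uni4 {σ m : ℕ} {M S T : Finset ℕ} (hm : m ∈ M) :
    (({σ, m} : Finset ℕ) ∪ S) ∪ (T ∪ M.erase m) = insert σ ((M ∪ S) ∪ T) := by
  have h : insert m (M.erase m) = M := insert_erase hm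
  ext z
  have hz : z ∈ M ↔ z = m ∨ z ∈ M.erase m := by rw [← mem_insert, h]
  simp only [mem_union, mem_insert, mem_singleton, hz]
  tauto

theorem snode {e n : ℕ} (he : e = 1 ∨ e = 2) (hn2 : Even n) {UX US M : Finset ℕ}
    (hn : 2000 * (UX.card + US.card + 1000000) ≤ n) (hM : M.card ≤ 70) (hMS : M ⊆ SC n) (hMU : M ⊆ US)
    (h4 : e = 2 → ∀ σ ∈ M, σ % 4 = 0) :
    ∃ (L1 L2 : List (ℤ × ℤ)) (C L S : Finset ℕ), L1.length ≤ 71 ∧ L2.length ≤ 20000 ∧ Gd e n UX US L1 L2 C L S ∧
      ∀ σ ∈ M, Abs e L1 L2 L (insert σ S) := by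
  classical
  obtain ⟨c, d, x₀, Y, hc, hd, hcL, hcb, hcU, hdL, hdb, hdU, hcd, hY, hxY, hYL, hYb, hYU, hcY, hdY, hMY, hMm⟩ :=
    choice1 hn2 hn hM hMS hMU
  have hL0 : (insert x₀ Y).card ≤ 71 := (card_insert_le _ _).trans (Nat.add_le_add_right hY 1)
  have hodd : ∀ σ ∈ M, Odd ((σ : ℤ) - c) := by
    intro σ hσ
    obtain ⟨-, h3⟩ := mem_SC.1 (hMS hσ)
    have : Even (σ : ℤ) := (Int.even_coe_nat σ).2 h3
    exact this.sub_odd hc
  rcases he with rfl | rfl
  · -- `e = 1`
    have hG0 : Gd 1 n UX US [(c, d)] [] {c.natAbs} (insert x₀ Y) ∅ :=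
      gd_one1 hc hd hcL hcb hYL (empty_subset _) hcY hcU hYU (disjoint_empty_left _)
    have hcU1 : (UX ∪ {c.natAbs} ∪ insert x₀ Y).card ≤ UX.card + 72 := by
      refine (card_union_le _ _).trans ?_
      refine (Nat.add_le_add_right (card_union_le _ _) _).trans ?_
      rw [card_singleton]
      linarith
    have hcS1 : (US ∪ (∅ : Finset ℕ)).card ≤ US.card := by rw [union_empty]
    obtain ⟨L1, L2, C, L, S, hl1, hl2, hG1, -, hA1⟩ := multi1 (UX := UX ∪ {c.natAbs} ∪ insert x₀ Y)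
      (US := US ∪ ∅) (Or.inl rfl) hn2 (by linarith) x₀ Y hxY hY hYL hYb subset_union_right
    refine ⟨[(c, d)] ++ L1, [] ++ L2, {c.natAbs} ∪ C, insert x₀ Y ∪ L, ∅ ∪ S, ?_, ?_, hG0.append hG1, ?_⟩
    · rw [List.length_append, hl1]
      simp only [List.length_cons, List.length_nil]
      linarith
    · rw [List.nil_append]
      linarith
    · intro σ hσ
      have hy := hMY σ hσ
      have hA0 := abs_one1 (c := c) (c2 := d) (hodd σ hσ)
      have e1 : (c + ((σ : ℤ) - c)).natAbs = σ := by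
        rw [add_sub_cancel]
        exact Int.natAbs_natCast σ
      rw [e1] at hA0
      have hA1' := hA1 _ hy
      have hLU := hG1.LU
      have hSU := hG1.SU
      rw [disjoint_left] at hLU hSU
      have h := hA0.append hA1' (disj1 hxY hy fun h => hLU h (mem_union_right _ (mem_insert_of_mem hy)))
        (by
          rw [disjoint_singleton_left]
          exact fun h => hSU h (mem_union_left _ (hMU hσ)))
      rw [uni3 hy] at h
      rw [empty_union]
      exact h
  · -- `e = 2`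
    set M2 : Finset ℕ := M.image fun σ : ℕ => (d + ((σ : ℤ) - c)).natAbs with hM2
    have hM2c : M2.card ≤ 70 := card_image_le.trans hM
    have hM2S : M2 ⊆ SC n := by
      intro z hz
      rw [hM2, mem_image] at hz
      obtain ⟨σ, hσ, rfl⟩ := hz
      exact (hMm σ hσ).1
    have hM2U : Disjoint M2 US := by
      rw [disjoint_left]
      intro z hz
      rw [hM2, mem_image] at hz
      obtain ⟨σ, hσ, rfl⟩ := hz
      exact (hMm σ hσ).2
    have hG0 : Gd 2 n UX US [(c, d)] [] {c.natAbs, d.natAbs} (insert x₀ Y) M2 :=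
      gd_two1 hc hd hcL hcb hYL hM2S hcY hcU hYU hM2U hdL hdb hdY hdU hcd
    have hcU1 : (UX ∪ {c.natAbs, d.natAbs} ∪ insert x₀ Y).card ≤ UX.card + 73 := by
      refine (card_union_le _ _).trans ?_
      refine (Nat.add_le_add_right (card_union_le _ _) _).trans ?_
      have := card_le_two (a := c.natAbs) (b := d.natAbs)
      linarith
    have hcS1 : (US ∪ M2).card ≤ US.card + 70 := (card_union_le _ _).trans (Nat.add_le_add_left hM2c _)
    obtain ⟨L1, L2, C, L, S, hl1, hl2, hG1, hA1a, hA1⟩ :=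
      multi1 (UX := UX ∪ {c.natAbs, d.natAbs} ∪ insert x₀ Y) (US := US ∪ M2) (Or.inr rfl) hn2 (by linarith) x₀ Y
        hxY hY hYL hYb subset_union_right
    have hG01 := hG0.append hG1
    -- sizes
    have hc1 := hG01.card (Or.inr rfl)
    have hLc : L.card ≤ 70 + 2 * 19600 := by
      obtain ⟨hc2, -⟩ := hA1a.card (Or.inr rfl)
      have : L.card ≤ (Y ∪ L).card := card_le_card subset_union_right
      have h2 : 280 * Y.card ≤ 280 * 70 := Nat.mul_le_mul_left _ hY
      linarith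
    have hSc : S.card ≤ 2 * 70 + 3 * 19600 := by
      obtain ⟨-, hc3⟩ := hA1a.card (Or.inr rfl)
      have h2 : 280 * Y.card ≤ 280 * 70 := Nat.mul_le_mul_left _ hY
      linarith
    have hCc : ({c.natAbs, d.natAbs} ∪ C).card ≤ 2 * 71 + 2 * 19600 := by
      rw [hc1, List.length_append, hl1, List.nil_append]
      simp only [List.length_cons, List.length_nil]
      have h2 : 280 * Y.card ≤ 280 * 70 := Nat.mul_le_mul_left _ hY
      linarith
    have hUc : (UX ∪ ({c.natAbs, d.natAbs} ∪ C) ∪ (insert x₀ Y ∪ L)).card ≤ UX.card + 100000 := by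
      refine (card_union_le _ _).trans ?_
      refine (Nat.add_le_add_right (card_union_le _ _) _).trans ?_
      have := card_union_le (insert x₀ Y) L
      linarith
    have hSc2 : (US ∪ (M2 ∪ S)).card ≤ US.card + 100000 := by
      refine (card_union_le _ _).trans ?_
      have := card_union_le M2 S
      linarith
    obtain ⟨L2s, Cs, Ls, Ss, hl3, hG2, hA2⟩ := star (UX := UX ∪ ({c.natAbs, d.natAbs} ∪ C) ∪ (insert x₀ Y ∪ L))
      (US := US ∪ (M2 ∪ S)) (M := M2) (Or.inr rfl) hn2 (by linarith) hM2c hM2S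
      (subset_union_left.trans subset_union_right) ((d - c).natAbs % 4) (by
        intro z hz
        rw [hM2, mem_image] at hz
        obtain ⟨σ, hσ, rfl⟩ := hz
        have h5 := h4 rfl σ hσ
        have h6 : (d - c) % 2 = 0 := Int.even_iff.1 (hd.sub_odd hc)
        clear * - h5 h6
        omega)
    refine ⟨([(c, d)] ++ L1) ++ [], ([] ++ L2) ++ L2s, ({c.natAbs, d.natAbs} ∪ C) ∪ Cs,
      (insert x₀ Y ∪ L) ∪ Ls, (M2 ∪ S) ∪ Ss, ?_, ?_, hG01.append hG2, ?_⟩
    · rw [List.append_nil, List.length_append, hl1]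
      simp only [List.length_cons, List.length_nil]
      linarith
    · rw [List.nil_append, List.length_append]
      linarith
    · intro σ hσ
      have hy := hMY σ hσ
      have hm : (d + ((σ : ℤ) - c)).natAbs ∈ M2 := mem_image.2 ⟨σ, hσ, rfl⟩
      have hσm : σ ≠ (d + ((σ : ℤ) - c)).natAbs := by
        intro h
        have := (hMm σ hσ).2
        rw [← h] at this
        exact this (hMU hσ)
      have e1 : (c + ((σ : ℤ) - c)).natAbs = σ := by
        rw [add_sub_cancel]
        exact Int.natAbs_natCast σ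
      have hA0 := abs_two1 (c := c) (c2 := d) (hodd σ hσ) (by rw [e1]; exact hσm)
      rw [e1] at hA0
      have hA1' := hA1 _ hy
      have hA2' := hA2 _ hm
      have hLU := hG1.LU
      have hSU := hG1.SU
      have hLU2 := hG2.LU
      have hSU2 := hG2.SU
      rw [disjoint_left] at hLU hSU hLU2 hSU2
      have hσM2 : σ ∉ M2 := fun h => (disjoint_left.1 hM2U h) (hMU hσ)
      have h := hA0.append hA1' (disj1 hxY hy fun h => hLU h (mem_union_right _ (mem_insert_of_mem hy)))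
        (by
          rw [disjoint_left]
          intro z hz hzS
          rw [mem_insert, mem_singleton] at hz
          rcases hz with hz | hz
          · rw [hz] at hzS
            exact hSU hzS (mem_union_left _ (hMU hσ))
          · rw [hz] at hzS
            exact hSU hzS (mem_union_right _ hm))
      rw [uni3 hy] at h
      have h' := h.append hA2' (by
          rw [disjoint_left]
          intro z hz hzL
          exact hLU2 hzL (mem_union_right _ hz))
        (by
          rw [disjoint_left]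
          intro z hz hzS
          rw [mem_union, mem_erase] at hzS
          rw [mem_union, mem_insert, mem_singleton] at hz
          rcases hzS with hzS | ⟨hzS1, hzS2⟩
          · rcases hz with (hz | hz) | hz
            · rw [hz] at hzS
              exact hSU2 hzS (mem_union_left _ (hMU hσ))
            · rw [hz] at hzS
              exact hSU2 hzS (mem_union_right _ (mem_union_left _ hm))
            · exact hSU2 hzS (mem_union_right _ (mem_union_right _ hz))
          · rcases hz with (hz | hz) | hz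
            · rw [hz] at hzS2
              exact hσM2 hzS2
            · exact hzS1 hz
            · exact hSU hz (mem_union_right _ hzS2))
      rw [uni4 hm] at h'
      exact h'

end Pool.Agent.BD
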