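import Pool.Agent.Helper73.BD.A4
import Pool.Agent.Helper73.SEM.RB3

/-!
# BD-A5: the absorber

Proof in words.  Choose `2 a` new label classes `BX` (`≤ n/2`, not in `UX`) and `2 b` new sum classes `BS` (multiples of 4, `≤ n/2`, not in `US`).
`SEM.rmbg a |FX|` gives neighbourhoods `H i ⊆ Fin (2a) ⊕ Fin |FX|`, `i < 3a`; identify `Fin (2a)` with `BX`, `Fin |FX|` with `FX`: sets `N i ⊆ BX ∪ FX`, `|N i| ≤ 70`.  The same for `b`, `FS`, `BS`.
For `i = 1..3a` take `lnode` for `N i`, then for `j = 1..3b` `snode` for `M j`, one after the other, always with `UX ∪ BX`, `US ∪ BS` enlarged by the previous `C, L, S`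
(every gadget has at most `71 + 20000` sites, so all the sets grow by at most `10^5` per step; induction on lists of nodes).
Given `F' ⊆ FX` with `a` elements and `G' ⊆ FS` with `b` elements: `rmbg` gives an injection of the `3a` label nodes into `BX ∪ F'`, bijective since `|BX ∪ F'| = 3a`, with the value of `i` in
`N i`; the same for the sums.  So the union of the gadgets absorbs exactly `BX ∪ F'` and `BS ∪ G'`.  The final `L` is (the union of the `L`'s) `∪ BX`, the final `S` is `⋃ S ∪ BS`.
-/

set_option autoImplicit false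

namespace Pool.Agent.BD

open Finset Pool.Agent.SEM

namespace A5aux

theorem gd_nil (e n : ℕ) (UX US : Finset ℕ) : Gd e n UX US [] [] ∅ ∅ ∅ := by
  constructor <;> simp [crs]

theorem lnode54 {e n : ℕ} (he : e = 1 ∨ e = 2) (hn2 : Even n) {UX US N : Finset ℕ}
    (hn : 2000 * (UX.card + US.card + 10000) ≤ n) (hN : N.card ≤ 70) (hNL : N ⊆ LC n)
    (hNb : ∀ x ∈ N, 10 * x ≤ 9 * n) (hNU : N ⊆ UX) :
    ∃ (L1 L2 : List (ℤ × ℤ)) (C L S : Finset ℕ), L1.length + L2.length ≤ 281 ∧
      C.card + L.card + S.card ≤ 2000 ∧ Gd e n UX US L1 L2 C L S ∧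
      ∀ x ∈ N, Abs e L1 L2 (insert x L) S := by
  rcases N.eq_empty_or_nonempty with h | ⟨x, hx⟩
  · subst h
    exact ⟨[], [], ∅, ∅, ∅, by simp, by simp, gd_nil _ _ _ _, by simp⟩
  · obtain ⟨L1, L2, C, L, S, h1, h2, hG, hA⟩ := lnode he hn2 hn hN hNL hNb hNU
    have c1 := hG.card he
    have c2 := (hA x hx).card he
    have c3 : L.card ≤ (insert x L).card := card_le_card (subset_insert _ _)
    refine ⟨L1, L2, C, L, S, by omega, ?_, hG, hA⟩
    rcases he with rfl | rfl <;> omega

theorem snode54 {e n : ℕ} (he : e = 1 ∨ e = 2) (hn2 : Even n) {UX US M : Finset ℕ}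
    (hn : 2000 * (UX.card + US.card + 1000000) ≤ n) (hM : M.card ≤ 70) (hMS : M ⊆ SC n)
    (hMU : M ⊆ US) (h4 : e = 2 → ∀ σ ∈ M, σ % 4 = 0) :
    ∃ (L1 L2 : List (ℤ × ℤ)) (C L S : Finset ℕ), L1.length + L2.length ≤ 20071 ∧
      C.card + L.card + S.card ≤ 150000 ∧ Gd e n UX US L1 L2 C L S ∧
      ∀ σ ∈ M, Abs e L1 L2 L (insert σ S) := by
  rcases M.eq_empty_or_nonempty with h | ⟨x, hx⟩
  · subst h
    exact ⟨[], [], ∅, ∅, ∅, by simp, by simp, gd_nil _ _ _ _, by simp⟩
  · obtain ⟨L1, L2, C, L, S, h1, h2, hG, hA⟩ := snode he hn2 hn hM hMS hMU h4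
    have c1 := hG.card he
    have c2 := (hA x hx).card he
    have c3 : S.card ≤ (insert x S).card := card_le_card (subset_insert _ _)
    refine ⟨L1, L2, C, L, S, by omega, ?_, hG, hA⟩
    rcases he with rfl | rfl <;> omega

theorem card_UC {UX US C L S : Finset ℕ} {K : ℕ} (h : C.card + L.card + S.card ≤ K) :
    (UX ∪ C ∪ L).card + (US ∪ S).card ≤ UX.card + US.card + K := by
  have h1 := card_union_le (UX ∪ C) L
  have h2 := card_union_le UX C
  have h3 := card_union_le US S
  omega

theorem lnodes {e n : ℕ} (he : e = 1 ∨ e = 2) (hn2 : Even n) {UX US : Finset ℕ}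
    (N : ℕ → Finset ℕ) : ∀ k : ℕ, 2000 * (UX.card + US.card + 10000 + 2000 * k) ≤ n →
      (∀ i < k, (N i).card ≤ 70) → (∀ i < k, N i ⊆ LC n) →
      (∀ i < k, ∀ x ∈ N i, 10 * x ≤ 9 * n) → (∀ i < k, N i ⊆ UX) →
      ∃ (L1 L2 : List (ℤ × ℤ)) (C L S : Finset ℕ), L1.length + L2.length ≤ 281 * k ∧
        C.card + L.card + S.card ≤ 2000 * k ∧ Gd e n UX US L1 L2 C L S ∧
        ∀ g : ℕ → ℕ, Set.InjOn g (range k : Finset ℕ) → (∀ i < k, g i ∈ N i) →
          Abs e L1 L2 (L ∪ (range k).image g) S := by
  intro k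
  induction k with
  | zero =>
    intro _ _ _ _ _
    refine ⟨[], [], ∅, ∅, ∅, by simp, by simp, gd_nil _ _ _ _, fun g _ _ => ?_⟩
    exact ⟨[], [], by simp [lbls, smms]⟩
  | succ k ih =>
    intro hn h1 h2 h3 h4
    obtain ⟨L1, L2, C, L, S, hlen, hcard, hG, hA⟩ := ih (by omega)
      (fun i hi => h1 i (by omega)) (fun i hi => h2 i (by omega)) (fun i hi => h3 i (by omega))
      (fun i hi => h4 i (by omega))
    have hc := card_UC (UX := UX) (US := US) hcard
    have hn' : 2000 * ((UX ∪ C ∪ L).card + (US ∪ S).card + 10000) ≤ n := by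
      linarith
    obtain ⟨L1', L2', C', L', S', hlen', hcard', hG', hA'⟩ :=
      lnode54 he hn2 (UX := UX ∪ C ∪ L) (US := US ∪ S) (N := N k) hn' (h1 k (by omega))
        (h2 k (by omega)) (h3 k (by omega))
        ((h4 k (by omega)).trans (subset_union_left.trans subset_union_left))
    refine ⟨L1 ++ L1', L2 ++ L2', C ∪ C', L ∪ L', S ∪ S', ?_, ?_, hG.append hG', ?_⟩
    · rw [List.length_append, List.length_append]
      omega
    · have a1 := card_union_le C C'
      have a2 := card_union_le L L'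
      have a3 := card_union_le S S'
      omega
    · intro g hg hgN
      have b1 := hA g (hg.mono (by
        intro x hx
        rw [mem_coe, mem_range] at hx ⊢
        omega)) (fun i hi => hgN i (by omega))
      have b2 := hA' (g k) (hgN k (by omega))
      have hLU := disjoint_left.1 hG.LU
      have hLU' := disjoint_left.1 hG'.LU
      have hSU' := disjoint_left.1 hG'.SU
      have b3 := b1.append b2 (by
        rw [disjoint_left]
        intro x hx hx'
        rw [mem_union, mem_image] at hx
        rw [mem_insert] at hx'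
        rcases hx' with rfl | hx'
        · rcases hx with hx | ⟨i, hi, hix⟩
          · exact hLU hx (h4 k (by omega) (hgN k (by omega)))
          · rw [mem_range] at hi
            have := hg (by rw [mem_coe, mem_range]; omega) (by rw [mem_coe, mem_range]; omega) hix
            omega
        · refine hLU' hx' ?_
          rcases hx with hx | ⟨i, hi, rfl⟩
          · exact mem_union_right _ hx
          · rw [mem_range] at hi
            exact mem_union_left _ (mem_union_left _ (h4 i (by omega) (hgN i (by omega))))) (by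
        rw [disjoint_left]
        intro x hx hx'
        exact hSU' hx' (mem_union_right _ hx))
      have hE : L ∪ (range k).image g ∪ insert (g k) L' = L ∪ L' ∪ (range (k + 1)).image g := by
        rw [range_add_one, image_insert]
        ext x
        simp only [mem_union, mem_insert]
        tauto
      rwa [hE] at b3

theorem snodes {e n : ℕ} (he : e = 1 ∨ e = 2) (hn2 : Even n) {UX US : Finset ℕ}
    (N : ℕ → Finset ℕ) : ∀ k : ℕ, 2000 * (UX.card + US.card + 1000000 + 150000 * k) ≤ n →
      (∀ i < k, (N i).card ≤ 70) → (∀ i < k, N i ⊆ SC n) →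
      (e = 2 → ∀ i < k, ∀ x ∈ N i, x % 4 = 0) → (∀ i < k, N i ⊆ US) →
      ∃ (L1 L2 : List (ℤ × ℤ)) (C L S : Finset ℕ), L1.length + L2.length ≤ 20071 * k ∧
        C.card + L.card + S.card ≤ 150000 * k ∧ Gd e n UX US L1 L2 C L S ∧
        ∀ g : ℕ → ℕ, Set.InjOn g (range k : Finset ℕ) → (∀ i < k, g i ∈ N i) →
          Abs e L1 L2 L (S ∪ (range k).image g) := by
  intro k
  induction k with
  | zero =>
    intro _ _ _ _ _
    refine ⟨[], [], ∅, ∅, ∅, by simp, by simp, gd_nil _ _ _ _, fun g _ _ => ?_⟩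
    exact ⟨[], [], by simp [lbls, smms]⟩
  | succ k ih =>
    intro hn h1 h2 h3 h4
    obtain ⟨L1, L2, C, L, S, hlen, hcard, hG, hA⟩ := ih (by omega)
      (fun i hi => h1 i (by omega)) (fun i hi => h2 i (by omega))
      (fun he2 i hi => h3 he2 i (by omega)) (fun i hi => h4 i (by omega))
    have hc := card_UC (UX := UX) (US := US) hcard
    have hn' : 2000 * ((UX ∪ C ∪ L).card + (US ∪ S).card + 1000000) ≤ n := by
      linarith
    obtain ⟨L1', L2', C', L', S', hlen', hcard', hG', hA'⟩ :=
      snode54 he hn2 (UX := UX ∪ C ∪ L) (US := US ∪ S) (M := N k) hn' (h1 k (by omega))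
        (h2 k (by omega)) ((h4 k (by omega)).trans subset_union_left)
        (fun he2 => h3 he2 k (by omega))
    refine ⟨L1 ++ L1', L2 ++ L2', C ∪ C', L ∪ L', S ∪ S', ?_, ?_, hG.append hG', ?_⟩
    · rw [List.length_append, List.length_append]
      omega
    · have a1 := card_union_le C C'
      have a2 := card_union_le L L'
      have a3 := card_union_le S S'
      omega
    · intro g hg hgN
      have b1 := hA g (hg.mono (by
        intro x hx
        rw [mem_coe, mem_range] at hx ⊢
        omega)) (fun i hi => hgN i (by omega))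
      have b2 := hA' (g k) (hgN k (by omega))
      have hSU := disjoint_left.1 hG.SU
      have hLU' := disjoint_left.1 hG'.LU
      have hSU' := disjoint_left.1 hG'.SU
      have b3 := b1.append b2 (by
        rw [disjoint_left]
        intro x hx hx'
        exact hLU' hx' (mem_union_right _ hx)) (by
        rw [disjoint_left]
        intro x hx hx'
        rw [mem_union, mem_image] at hx
        rw [mem_insert] at hx'
        rcases hx' with rfl | hx'
        · rcases hx with hx | ⟨i, hi, hix⟩
          · exact hSU hx (h4 k (by omega) (hgN k (by omega)))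
          · rw [mem_range] at hi
            have := hg (by rw [mem_coe, mem_range]; omega) (by rw [mem_coe, mem_range]; omega) hix
            omega
        · refine hSU' hx' ?_
          rcases hx with hx | ⟨i, hi, rfl⟩
          · exact mem_union_right _ hx
          · rw [mem_range] at hi
            exact mem_union_left _ (h4 i (by omega) (hgN i (by omega))))
      have hE : S ∪ (range k).image g ∪ insert (g k) S' = S ∪ S' ∪ (range (k + 1)).image g := by
        rw [range_add_one, image_insert]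
        ext x
        simp only [mem_union, mem_insert]
        tauto
      rwa [hE] at b3

/-- The template on natural numbers. -/
theorem matching (a : ℕ) (ha : 1 ≤ a) (B F : Finset ℕ) (hB : B.card = 2 * a)
    (hF : F.card ≤ 2 * a) (hBF : Disjoint B F) :
    ∃ N : ℕ → Finset ℕ, (∀ i < 3 * a, (N i).card ≤ 70) ∧ (∀ i < 3 * a, N i ⊆ B ∪ F) ∧
      ∀ F' ⊆ F, F'.card = a → ∃ g : ℕ → ℕ, Set.InjOn g (range (3 * a) : Finset ℕ) ∧
        (∀ i < 3 * a, g i ∈ N i) ∧ (range (3 * a)).image g = B ∪ F' := by
  classical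
  obtain ⟨H, hH1, hH2⟩ := rmbg a F.card ha hF
  set ι : Fin (2 * a) ⊕ Fin F.card → ℕ :=
    Sum.elim (fun j => B.orderEmbOfFin hB j) (fun j => F.orderEmbOfFin rfl j) with hι
  have hιl : ∀ j, ι (Sum.inl j) ∈ B := fun j => orderEmbOfFin_mem B hB j
  have hιr : ∀ j, ι (Sum.inr j) ∈ F := fun j => orderEmbOfFin_mem F rfl j
  have hBF' := disjoint_left.1 hBF
  have hinj : Function.Injective ι := by
    rintro (x | x) (y | y) hxy
    · exact congrArg Sum.inl ((B.orderEmbOfFin hB).injective hxy)
    · exact absurd (hιr y) (hBF' (hxy ▸ hιl x))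
    · exact absurd (hιr x) (hBF' (hxy.symm ▸ hιl y))
    · exact congrArg Sum.inr ((F.orderEmbOfFin rfl).injective hxy)
  refine ⟨fun i => if h : i < 3 * a then (H ⟨i, h⟩).image ι else ∅, ?_, ?_, ?_⟩
  · intro i hi
    simp only [hi, dif_pos]
    exact card_image_le.trans (hH1 _)
  · intro i hi
    simp only [hi, dif_pos]
    intro x hx
    rw [mem_image] at hx
    obtain ⟨y, -, rfl⟩ := hx
    rcases y with y | y
    · exact mem_union_left _ (hιl y)
    · exact mem_union_right _ (hιr y)
  · intro F' hF' hF'a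
    obtain ⟨f, hf1, hf2⟩ := hH2 (univ.filter fun j => ι (Sum.inr j) ∈ F') (by
      refine Eq.trans ?_ hF'a
      refine card_bij (fun j _ => ι (Sum.inr j)) ?_ ?_ ?_
      · intro j hj
        exact (mem_filter.1 hj).2
      · intro j _ j' _ hjj
        exact Sum.inr_injective (hinj hjj)
      · intro x hx
        have hx' : x ∈ Set.range (F.orderEmbOfFin rfl) := by
          rw [range_orderEmbOfFin]
          exact hF' hx
        obtain ⟨j, hj⟩ := hx'
        refine ⟨j, mem_filter.2 ⟨mem_univ _, ?_⟩, hj⟩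
        have : ι (Sum.inr j) = x := hj
        rw [this]
        exact hx)
    have hg : ∀ (i : ℕ) (h : i < 3 * a),
        (fun i => if h : i < 3 * a then ι (f ⟨i, h⟩) else 0) i = ι (f ⟨i, h⟩) := by
      intro i h
      simp only [h, dif_pos]
    have hinj2 : Set.InjOn (fun i => if h : i < 3 * a then ι (f ⟨i, h⟩) else 0)
        (range (3 * a) : Finset ℕ) := by
      intro i hi j hj hij
      rw [mem_coe, mem_range] at hi hj
      rw [hg i hi, hg j hj] at hij
      have := hf1 (hinj hij)
      exact Fin.mk.inj_iff.1 this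
    refine ⟨fun i => if h : i < 3 * a then ι (f ⟨i, h⟩) else 0, hinj2, ?_, ?_⟩
    · intro i hi
      simp only [hi, dif_pos]
      exact mem_image_of_mem _ (hf2 _).1
    · refine eq_of_subset_of_card_le ?_ ?_
      · intro x hx
        rw [mem_image] at hx
        obtain ⟨i, hi, rfl⟩ := hx
        rw [mem_range] at hi
        have hgi := hg i hi
        simp only at hgi
        rw [hgi]
        rcases hfi : f ⟨i, hi⟩ with y | y
        · exact mem_union_left _ (hιl y)
        · exact mem_union_right _ (mem_filter.1 ((hf2 _).2 y hfi)).2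
      · rw [card_image_of_injOn hinj2, card_range]
        have := card_union_le B F'
        omega

theorem new_classes (n K m r : ℕ) (hm : 0 < m) (U : Finset ℕ)
    (h : 2 * m * (U.card + K + 1) ≤ n) :
    ∃ B : Finset ℕ, B.card = K ∧ Disjoint B U ∧
      ∀ x ∈ B, ∃ j, x = m * j + r ∧ 2 * (m * j) + 2 * m ≤ n := by
  set T : Finset ℕ := (range (U.card + K)).image (fun j => m * j + r) with hT
  have hTc : T.card = U.card + K := by
    rw [hT, card_image_of_injective, card_range]
    intro x y hxy
    simp only at hxy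
    exact Nat.eq_of_mul_eq_mul_left hm (by omega)
  have h1 : K ≤ (T \ U).card := by
    have := le_card_sdiff U T
    omega
  obtain ⟨B, hB1, hB2⟩ := exists_subset_card_eq h1
  refine ⟨B, hB2, ?_, ?_⟩
  · rw [disjoint_left]
    intro x hx hxU
    exact (mem_sdiff.1 (hB1 hx)).2 hxU
  · intro x hx
    have := (mem_sdiff.1 (hB1 hx)).1
    rw [hT, mem_image] at this
    obtain ⟨j, hj, rfl⟩ := this
    rw [mem_range] at hj
    refine ⟨j, rfl, ?_⟩
    have : m * j ≤ m * (U.card + K) := Nat.mul_le_mul_left _ hj.le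
    nlinarith

end A5aux

open A5aux

theorem absorber {e n a b : ℕ} (he : e = 1 ∨ e = 2) (hn2 : Even n) {UX US FX FS : Finset ℕ}
    (hn : 10 ^ 10 * (UX.card + US.card + a + b + 1) ≤ n) (ha : 1 ≤ a) (hb : 1 ≤ b)
    (hFX : FX ⊆ UX) (hFS : FS ⊆ US) (hFXL : FX ⊆ LC n) (hFXb : ∀ x ∈ FX, 10 * x ≤ 9 * n) (hFSS : FS ⊆ SC n)
    (h4 : e = 2 → ∀ σ ∈ FS, σ % 4 = 0) (hFXa : FX.card ≤ 2 * a) (hFSb : FS.card ≤ 2 * b) :
    ∃ (L1 L2 : List (ℤ × ℤ)) (C L S : Finset ℕ), L1.length + L2.length ≤ 100000 * (a + b) ∧
      Gd e n UX US L1 L2 C L S ∧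
      ∀ F' ⊆ FX, F'.card = a → ∀ G' ⊆ FS, G'.card = b → Abs e L1 L2 (L ∪ F') (S ∪ G') := by
  obtain ⟨BX, hBX1, hBX2, hBX3⟩ := new_classes n (2 * a) 2 1 (by norm_num) UX (by omega)
  obtain ⟨BS, hBS1, hBS2, hBS3⟩ := new_classes n (2 * b) 4 4 (by norm_num) US (by omega)
  have hBXL : BX ⊆ LC n := by
    intro x hx
    obtain ⟨j, hj, hj2⟩ := hBX3 x hx
    rw [mem_LC]
    exact ⟨⟨by omega, by omega⟩, ⟨j, hj⟩⟩
  have hBXb : ∀ x ∈ BX, 10 * x ≤ 9 * n := by
    intro x hx
    obtain ⟨j, hj, hj2⟩ := hBX3 x hx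
    omega
  have hBSS : BS ⊆ SC n := by
    intro x hx
    obtain ⟨j, hj, hj2⟩ := hBS3 x hx
    rw [mem_SC]
    exact ⟨⟨by omega, by omega⟩, ⟨2 * j + 2, by omega⟩⟩
  have hBS4 : ∀ x ∈ BS, x % 4 = 0 := by
    intro x hx
    obtain ⟨j, hj, hj2⟩ := hBS3 x hx
    omega
  have hdX := disjoint_left.1 hBX2
  have hdS := disjoint_left.1 hBS2
  obtain ⟨N, hN1, hN2, hN3⟩ := matching a ha BX FX hBX1 hFXa
    (hBX2.mono_right hFX)
  obtain ⟨M, hM1, hM2, hM3⟩ := matching b hb BS FS hBS1 hFSb
    (hBS2.mono_right hFS)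
  have cX := card_union_le UX BX
  have cS := card_union_le US BS
  obtain ⟨L1, L2, C, L, S, hlen, hcard, hG, hA⟩ := lnodes he hn2 (UX := UX ∪ BX) (US := US ∪ BS)
    N (3 * a) (by omega) hN1
    (fun i hi x hx => by
      rcases mem_union.1 (hN2 i hi hx) with h | h
      · exact hBXL h
      · exact hFXL h)
    (fun i hi x hx => by
      rcases mem_union.1 (hN2 i hi hx) with h | h
      · exact hBXb x h
      · exact hFXb x h)
    (fun i hi x hx => by
      rcases mem_union.1 (hN2 i hi hx) with h | h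
      · exact mem_union_right _ h
      · exact mem_union_left _ (hFX h))
  have cU := card_UC (UX := UX ∪ BX) (US := US ∪ BS) hcard
  obtain ⟨L1', L2', C', L', S', hlen', hcard', hG', hA'⟩ := snodes he hn2
    (UX := UX ∪ BX ∪ C ∪ L) (US := US ∪ BS ∪ S) M (3 * b) (by omega) hM1
    (fun i hi x hx => by
      rcases mem_union.1 (hM2 i hi hx) with h | h
      · exact hBSS h
      · exact hFSS h)
    (fun he2 i hi x hx => by
      rcases mem_union.1 (hM2 i hi hx) with h | h
      · exact hBS4 x h
      · exact h4 he2 x h)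
    (fun i hi x hx => by
      rcases mem_union.1 (hM2 i hi hx) with h | h
      · exact mem_union_left _ (mem_union_right _ h)
      · exact mem_union_left _ (mem_union_left _ (hFS h)))
  have hGG := hG.append hG'
  have hCU := disjoint_left.1 hGG.CU
  have hLU := disjoint_left.1 hGG.LU
  have hSU := disjoint_left.1 hGG.SU
  have hCL := disjoint_left.1 hGG.CL
  refine ⟨L1 ++ L1', L2 ++ L2', C ∪ C', L ∪ L' ∪ BX, S ∪ S' ∪ BS, ?_, ?_, ?_⟩
  · rw [List.length_append, List.length_append]
    omega
  · refine ⟨hGG.core, hGG.odd1, hGG.odd2, hGG.Cs, hGG.Cb, union_subset hGG.Ls hBXL,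
      union_subset hGG.Ss hBSS, ?_, ?_, ?_, ?_⟩
    · rw [disjoint_left]
      intro x hx hx'
      rcases mem_union.1 hx' with h | h
      · exact hCL hx h
      · exact hCU hx (mem_union_right _ h)
    · rw [disjoint_left]
      intro x hx hx'
      exact hCU hx (mem_union_left _ hx')
    · rw [disjoint_left]
      intro x hx hx'
      rcases mem_union.1 hx with h | h
      · exact hLU h (mem_union_left _ hx')
      · exact hdX h hx'
    · rw [disjoint_left]
      intro x hx hx'
      rcases mem_union.1 hx with h | h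
      · exact hSU h (mem_union_left _ hx')
      · exact hdS h hx'
  · intro F' hF' hF'a G' hG'' hG'b
    obtain ⟨g, hg1, hg2, hg3⟩ := hN3 F' hF' hF'a
    obtain ⟨g', hg1', hg2', hg3'⟩ := hM3 G' hG'' hG'b
    have b1 := hA g hg1 hg2
    have b2 := hA' g' hg1' hg2'
    rw [hg3] at b1
    rw [hg3'] at b2
    have hLU' := disjoint_left.1 hG'.LU
    have hSU' := disjoint_left.1 hG'.SU
    have hSU0 := disjoint_left.1 hG.SU
    have b3 := b1.append b2 (by
      rw [disjoint_left]
      intro x hx hx'
      refine hLU' hx' ?_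
      rcases mem_union.1 hx with h | h
      · exact mem_union_right _ h
      · rcases mem_union.1 h with h | h
        · exact mem_union_left _ (mem_union_left _ (mem_union_right _ h))
        · exact mem_union_left _ (mem_union_left _ (mem_union_left _ (hFX (hF' h))))) (by
      rw [disjoint_left]
      intro x hx hx'
      rcases mem_union.1 hx' with h | h
      · exact hSU' h (mem_union_right _ hx)
      · rcases mem_union.1 h with h | h
        · exact hSU0 hx (mem_union_right _ h)
        · exact hSU0 hx (mem_union_left _ (hFS (hG'' h))))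
    have hE1 : L ∪ (BX ∪ F') ∪ L' = L ∪ L' ∪ BX ∪ F' := by
      ext x
      simp only [mem_union]
      tauto
    have hE2 : S ∪ (S' ∪ (BS ∪ G')) = S ∪ S' ∪ BS ∪ G' := by
      ext x
      simp only [mem_union]
      tauto
    rwa [hE1, hE2] at b3

end Pool.Agent.BD
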