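import Pool.Agent.Helper73.BD.GX

/-!
# BD-LY: the layout of the tree (definitions)

`E`: exceptional vertices; the rest of the tree consists of `Q` and its twin copy `ι(Q)`.  `Q` is the disjoint union of
`Bd` (vertices with a neighbour in `E`), `CN` (connectors), `Cl` (cluster: contains the gadget sites), `Rs` (reserved: contains the cover sites) and `Mn` (main part), the
disjoint union of the trees `P t`, `t ∈ T`, which are adjacent only to connectors, by at most two vertices (`En t`) each.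

Sites `j < J`: different vertices `sa j, sv j, sw j, sb j` of `Cl`.  `e = 1`: `sv j` is a leaf adjacent to `sa j`, `sw j` is a leaf adjacent to `sb j`;
`e = 2`: a path `sa j, sv j, sw j, sb j`, `sv j` and `sw j` of degree 2.  No two of the vertices `sa j`, `sb j` (`j < J`) are adjacent.
Cover sites `j < Jc`: edges `(cw j, cv j)`, `cv j = p (cw j)`, such that the closed neighbourhoods `{x ∈ Q : x ∈ {cv j, cw j} or adjacent to one of them}` are in `Rs` and pairwise disjoint.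
-/

set_option autoImplicit false

namespace Pool.Agent.BD

open Finset Pool.Agent.SEM

/-- the half world -/
def QQ (Bd CN Cl Rs Mn : Finset ℕ) : Finset ℕ := Bd ∪ CN ∪ Cl ∪ Rs ∪ Mn

/-- twin structure -/
structure Twin (n D : ℕ) (p ι : ℕ → ℕ) (E Bd Q : Finset ℕ) : Prop where
  par : ∀ i, 0 < i → i < n → p i < i
  zE : 0 ∈ E
  En : E ⊆ range n
  Qn : Q ⊆ range n
  EQ : Disjoint E Q
  BdQ : Bd ⊆ Q
  ιinj : Set.InjOn ι Q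
  ιn : ∀ v ∈ Q, ι v < n ∧ ι v ∉ Q ∧ ι v ∉ E
  cov : range n = E ∪ Q ∪ Q.image ι
  tw : ∀ v ∈ Q, ∀ w ∈ Q, (Ad p v w ↔ Ad p (ι v) (ι w))
  cr : ∀ v ∈ Q, ∀ w ∈ Q, ¬ Ad p v (ι w)
  inner : ∀ v ∈ Q, v ∉ Bd → ∀ w ∈ E, ¬ Ad p v w ∧ ¬ Ad p (ι v) w
  leg : ∀ v ∈ Bd, (∃! w, w ∈ E ∧ Ad p v w) ∧ ∃! w, w ∈ E ∧ Ad p (ι v) w
  deg : ∀ v ∈ Q, (Q.filter fun w => Ad p v w).card ≤ D

/-- division of the half world -/
structure Dvs (n D K : ℕ) (p : ℕ → ℕ) (Bd CN Cl Rs Mn T : Finset ℕ) (P En : ℕ → Finset ℕ) : Prop where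
  d1 : Disjoint Bd CN
  d2 : Disjoint (Bd ∪ CN) Cl
  d3 : Disjoint (Bd ∪ CN ∪ Cl) Rs
  d4 : Disjoint (Bd ∪ CN ∪ Cl ∪ Rs) Mn
  aB : ∀ v ∈ Bd, ∀ w ∈ QQ Bd CN Cl Rs Mn, Ad p v w → w ∈ Bd ∪ CN
  aC : ∀ v ∈ Cl, ∀ w ∈ QQ Bd CN Cl Rs Mn, Ad p v w → w ∈ Cl ∪ CN
  aR : ∀ v ∈ Rs, ∀ w ∈ QQ Bd CN Cl Rs Mn, Ad p v w → w ∈ Rs ∪ CN
  aM : ∀ t ∈ T, ∀ v ∈ P t, ∀ w ∈ QQ Bd CN Cl Rs Mn, Ad p v w → w ∈ P t ∨ (w ∈ CN ∧ v ∈ En t)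
  Mn_eq : Mn = T.biUnion P
  dj : ∀ t ∈ T, ∀ t' ∈ T, t ≠ t' → Disjoint (P t) (P t')
  tree : ∀ t ∈ T, t ∈ P t ∧ (∀ v ∈ P t, v ≠ t → p v ∈ P t ∧ p v < v) ∧ (P t).card ≤ K
  en : ∀ t ∈ T, En t ⊆ P t ∧ (En t).card ≤ 2

/-- gadget sites in `Cl` -/
structure Sts (n e J : ℕ) (p : ℕ → ℕ) (Cl : Finset ℕ) (sa sv sw sb : ℕ → ℕ) : Prop where
  mem : ∀ j, j < J → sa j ∈ Cl ∧ sv j ∈ Cl ∧ sw j ∈ Cl ∧ sb j ∈ Cl
  inj : ∀ i, i < J → ∀ j, j < J → ∀ f ∈ [sa, sv, sw, sb], ∀ g ∈ [sa, sv, sw, sb], f i = g j → i = j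
  dif : ∀ j, j < J → [sa j, sv j, sw j, sb j].Nodup
  nbr1 : e = 1 → ∀ j, j < J → ∀ w, w < n → (Ad p (sv j) w ↔ w = sa j) ∧ (Ad p (sw j) w ↔ w = sb j)
  nbr2 : e = 2 → ∀ j, j < J → ∀ w, w < n →
    (Ad p (sv j) w ↔ w = sa j ∨ w = sw j) ∧ (Ad p (sw j) w ↔ w = sv j ∨ w = sb j)
  far : ∀ i, i < J → ∀ j, j < J → ∀ f ∈ [sa, sb], ∀ g ∈ [sa, sb], ¬ Ad p (f i) (g j)

/-- cover sites in `Rs` -/
structure Cvs (Jc : ℕ) (p : ℕ → ℕ) (Q Rs : Finset ℕ) (cv cw : ℕ → ℕ) : Prop where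
  mem : ∀ j, j < Jc → cv j ∈ Rs ∧ cw j ∈ Rs ∧ 0 < cw j ∧ p (cw j) = cv j
  nb : ∀ j, j < Jc → ∀ x ∈ Q, Ad p (cv j) x ∨ Ad p (cw j) x → x ∈ Rs
  far : ∀ i, i < Jc → ∀ j, j < Jc → i ≠ j → ∀ x ∈ Q,
    ¬ ((x = cv i ∨ x = cw i ∨ Ad p (cv i) x ∨ Ad p (cw i) x) ∧ (x = cv j ∨ x = cw j ∨ Ad p (cv j) x ∨ Ad p (cw j) x))

end Pool.Agent.BD
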