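import Pool.Agent.Helper73.BD.DD
import Pool.Agent.Helper73.BD.LY

/-!
# BD-AS: assigning the demand sites and the absorber sites to the sites of the cluster

Site number `j` (`j < J`) is used for
* `j < z1 = |Z1|`: the `j`-th element `(c, c2, d, d')` of `Z1`: `g (sa j) = c`, `gb (sa j) = -c`, `g (sv j) = d`, `gb (sv j) = d'`, and if `e = 2` also `g (sw j) = c2`, `gb (sw j) = -c2`;
* the next `|Z2|` numbers: the element `(c, c2, x, y)` of `Z2`: `g (sa j) = c`, `g (sb j) = c2`, `g (sv j) = x`, `g (sw j) = y`, `gb (sa j) = -c`, `gb (sb j) = -c2`, `gb (sv j) = -y`, `gb (sw j) = -x`;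
* the next `|L1|` numbers: the element `(c, c2)` of `L1`: `g (sa j) = c`, and if `e = 2` also `g (sw j) = c2`; `sv j` is flexible;
* the next `|L2|` numbers: the element `(c, c2)` of `L2`: `g (sa j) = c`, `g (sb j) = c2`; `sv j, sw j` are flexible.
`DS` = the vertices labelled by the first two kinds, `CO` = those labelled by the last two kinds, `Fl` = flexible vertices.  `gb = -g` on `CO`.
All vertices `sa j, sv j, sw j, sb j` are different; the neighbours of `sv j`, `sw j` are given by `Sts.nbr1`, `Sts.nbr2`, the vertices `sa`, `sb` are pairwise not adjacent (`Sts.far`).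
So `EdI p DS` consists of the edges `{sa j, sv j}` (and `{sv j, sw j}` if `e = 2`) for the first kind, `{sa j, sv j}`, `{sw j, sb j}` (and `{sv j, sw j}` if `e = 2`) for the second kind; similarly for `EdT p Fl CO`
(an edge is the index `i` of its lower end: for adjacent `v, w` exactly one of `0 < v, p v = w` and `0 < w, p w = v` holds, as `p i < i`).
For `Abs e L1 L2 L S` with lists `A`, `C`: `g' (sv j) = x` for the single sites, `g' (sv j) = x`, `g' (sw j) = y` for the pair sites.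
All the multiset identities are sums over the sites; e.g. prove them by induction on the lists or write both sides as sums over `range` (`List.map` with `List.getD`, `Finset.sum` of singletons
`∑ j ∈ range z, {..}`).
-/

set_option autoImplicit false

namespace Pool.Agent.BD

open Finset Pool.Agent.SEM


private lemma vm_77 {α β : Type*} (s : Finset α) (f : α → β) :
    s.val.map f = ∑ a ∈ s, ({f a} : Multiset β) := by
  have h : (∑ a ∈ s, ({f a} : Multiset β)) = ((s.val.map f).map fun b => ({b} : Multiset β)).sum := by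
    rw [Multiset.map_map]
    rfl
  rw [h, Multiset.sum_map_singleton]

private lemma ico_77 {α β : Type*} (off z : ℕ) (Z : List α) (hz : Z.length = z) (d : α) (f : α → β) :
    (Ico off (off + z)).val.map (fun j => f (Z.getD (j - off) d)) = ↑(Z.map f) := by
  subst hz
  have h : (Ico off (off + Z.length)).val = ↑(List.range' off Z.length) := by
    have h1 : (Ico off (off + Z.length)).val =
        ↑(List.range' off (off + Z.length - off)) := rfl
    rw [h1, Nat.add_sub_cancel_left]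
  rw [h, Multiset.map_coe]
  congr 1
  apply List.ext_getElem
  · simp
  · intro i h1 h2
    simp only [List.length_map] at h2
    rw [List.getElem_map, List.getElem_map, List.getElem_range']
    congr 1
    have h3 : off + 1 * i - off = i := by omega
    rw [h3, List.getD_eq_getElem _ _ h2]

private lemma flat2_77 {α β : Type*} (Z : List α) (a b : α → β) :
    (↑(Z.flatMap fun z => [a z, b z]) : Multiset β) = ↑(Z.map a) + ↑(Z.map b) := by
  induction Z with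
  | nil => rfl
  | cons z Z ih =>
    rw [List.flatMap_cons, ← Multiset.coe_add, ih, List.map_cons, List.map_cons]
    simp only [← Multiset.cons_coe, ← Multiset.singleton_add, Multiset.coe_nil, add_zero]
    abel

private lemma flat4_77 {α β : Type*} (Z : List α) (a b c d : α → β) :
    (↑(Z.flatMap fun z => [a z, b z, c z, d z]) : Multiset β) =
      ↑(Z.map a) + ↑(Z.map b) + ↑(Z.map c) + ↑(Z.map d) := by
  induction Z with
  | nil => rfl
  | cons z Z ih =>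
    rw [List.flatMap_cons, ← Multiset.coe_add, ih, List.map_cons, List.map_cons, List.map_cons,
      List.map_cons]
    simp only [← Multiset.cons_coe, ← Multiset.singleton_add, Multiset.coe_nil, add_zero]
    abel

private lemma flat8_77 {α β : Type*} (Z : List α) (a b c d a' b' c' d' : α → β) :
    (↑(Z.flatMap fun z => [a z, b z, c z, d z, a' z, b' z, c' z, d' z]) : Multiset β) =
      ↑(Z.map a) + ↑(Z.map b) + ↑(Z.map c) + ↑(Z.map d) + ↑(Z.map a') + ↑(Z.map b') +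
        ↑(Z.map c') + ↑(Z.map d') := by
  induction Z with
  | nil => rfl
  | cons z Z ih =>
    rw [List.flatMap_cons, ← Multiset.coe_add, ih]
    simp only [List.map_cons, ← Multiset.cons_coe, ← Multiset.singleton_add, Multiset.coe_nil,
      add_zero]
    abel

private lemma lift_77 (D : Finset (ℕ × ℕ)) (V : ℕ × ℕ → ℕ)
    (hV : ∀ k ∈ D, ∀ k' ∈ D, V k = V k' → k = k')
    (G : ℕ × ℕ → ℤ) (g0 : ℕ → ℤ) :
    ∃ g : ℕ → ℤ, (∀ k ∈ D, g (V k) = G k) ∧ ∀ v, v ∉ D.image V → g v = g0 v := by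
  classical
  refine ⟨fun v => if h : ∃ k ∈ D, V k = v then G h.choose else g0 v, ?_, ?_⟩
  · intro k hk
    have h : ∃ k' ∈ D, V k' = V k := ⟨k, hk, rfl⟩
    simp only [dif_pos h]
    rw [hV _ h.choose_spec.1 _ hk h.choose_spec.2]
  · intro v hv
    have h : ¬ ∃ k ∈ D, V k = v := by
      rintro ⟨k, hk, hkv⟩
      exact hv (mem_image.2 ⟨k, hk, hkv⟩)
    simp only [dif_neg h]

/-- the vertices of the sites -/
private def VX_77 (sa sv sw sb : ℕ → ℕ) (k : ℕ × ℕ) : ℕ :=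
  if k.2 = 0 then sa k.1 else if k.2 = 1 then sv k.1 else if k.2 = 2 then sw k.1 else sb k.1

/-- indices of vertices -/
private def KV_77 (e : ℕ) (A1 A2 : Finset ℕ) : Finset (ℕ × ℕ) :=
  A1 ×ˢ (if e = 2 then {0, 1, 2} else {0, 1}) ∪ A2 ×ˢ {0, 1, 2, 3}

/-- indices of edges -/
private def KE_77 (e : ℕ) (A1 A2 : Finset ℕ) : Finset (ℕ × ℕ) :=
  A1 ×ˢ (if e = 2 then {0, 1} else {0}) ∪ A2 ×ˢ (if e = 2 then {0, 1, 2} else {0, 2})

private lemma ad_symm_77 {p : ℕ → ℕ} {v w : ℕ} : Ad p v w ↔ Ad p w v := by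
  unfold Ad
  tauto

section
variable {n e J : ℕ} {p : ℕ → ℕ} {Cl : Finset ℕ} {sa sv sw sb : ℕ → ℕ}

private lemma VX_mem_77 (hS : Sts n e J p Cl sa sv sw sb) {k : ℕ × ℕ} (hk : k.1 < J) :
    VX_77 sa sv sw sb k ∈ Cl := by
  obtain ⟨h1, h2, h3, h4⟩ := hS.mem k.1 hk
  unfold VX_77
  split_ifs <;> assumption

private lemma VX_inj_77 (hS : Sts n e J p Cl sa sv sw sb) {k k' : ℕ × ℕ} (hk : k.1 < J)
    (hk' : k'.1 < J) (h2 : k.2 < 4) (h2' : k'.2 < 4)
    (h : VX_77 sa sv sw sb k = VX_77 sa sv sw sb k') : k = k' := by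
  obtain ⟨j, t⟩ := k
  obtain ⟨j', t'⟩ := k'
  simp only at hk hk' h2 h2'
  have h1 : j = j' := by
    have key := hS.inj j hk j' hk'
    unfold VX_77 at h
    simp only at h
    split_ifs at h
    all_goals exact key _ (by simp) _ (by simp) h
  subst h1
  have hd := hS.dif j hk
  simp only [List.nodup_cons, List.mem_cons, List.not_mem_nil, or_false, not_or, List.nodup_nil,
    and_true, not_false_eq_true] at hd
  obtain ⟨⟨h11, h12, h13⟩, ⟨h21, h22⟩, h3⟩ := hd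
  have h4 : t = t' := by
    unfold VX_77 at h
    simp only at h
    interval_cases t <;> interval_cases t' <;> simp_all
  rw [h4]

private lemma nb1_77 (he : e = 1 ∨ e = 2) (hS : Sts n e J p Cl sa sv sw sb) {j w : ℕ} (hj : j < J)
    (hw : w < n) : Ad p (sv j) w ↔ w = sa j ∨ (e = 2 ∧ w = sw j) := by
  rcases he with rfl | rfl
  · rw [(hS.nbr1 rfl j hj w hw).1]
    simp
  · rw [(hS.nbr2 rfl j hj w hw).1]
    simp

private lemma nb2_77 (he : e = 1 ∨ e = 2) (hS : Sts n e J p Cl sa sv sw sb) {j w : ℕ} (hj : j < J)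
    (hw : w < n) : Ad p (sw j) w ↔ w = sb j ∨ (e = 2 ∧ w = sv j) := by
  rcases he with rfl | rfl
  · rw [(hS.nbr1 rfl j hj w hw).2]
    simp
  · rw [(hS.nbr2 rfl j hj w hw).2]
    simp only [true_and]
    exact or_comm

/-- adjacency of types -/
private def RR_77 (e s t : ℕ) : Prop :=
  (s = 0 ∧ t = 1) ∨ (s = 1 ∧ t = 0) ∨ (s = 2 ∧ t = 3) ∨ (s = 3 ∧ t = 2) ∨
    (e = 2 ∧ ((s = 1 ∧ t = 2) ∨ (s = 2 ∧ t = 1)))

private lemma RR_symm_77 {s t : ℕ} (h : RR_77 e s t) : RR_77 e t s := by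
  unfold RR_77 at *
  tauto

private lemma ad_half_77 (he : e = 1 ∨ e = 2) (hCl : Cl ⊆ range n)
    (hS : Sts n e J p Cl sa sv sw sb) {j j' t t' : ℕ} (hj : j < J) (hj' : j' < J)
    (ht : t = 1 ∨ t = 2) (ht' : t' < 4) :
    Ad p (VX_77 sa sv sw sb (j, t)) (VX_77 sa sv sw sb (j', t')) ↔ j = j' ∧ RR_77 e t t' := by
  have hw : VX_77 sa sv sw sb (j', t') < n :=
    mem_range.1 (hCl (VX_mem_77 hS (k := (j', t')) hj'))
  have key : ∀ s, s < 4 → (VX_77 sa sv sw sb (j', t') = VX_77 sa sv sw sb (j, s) ↔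
      j = j' ∧ t' = s) := by
    intro s hs
    constructor
    · intro h
      have h1 := VX_inj_77 hS (k := (j', t')) (k' := (j, s)) hj' hj ht' hs h
      rw [Prod.mk.injEq] at h1
      exact ⟨h1.1.symm, h1.2⟩
    · rintro ⟨rfl, rfl⟩
      rfl
  rcases ht with rfl | rfl
  · have h1 : VX_77 sa sv sw sb (j, 1) = sv j := rfl
    rw [h1, nb1_77 he hS hj hw]
    have h2 := key 0 (by omega)
    have h3 := key 2 (by omega)
    have h4 : VX_77 sa sv sw sb (j, 0) = sa j := rfl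
    have h5 : VX_77 sa sv sw sb (j, 2) = sw j := rfl
    rw [h4] at h2
    rw [h5] at h3
    rw [h2, h3]
    unfold RR_77
    constructor
    · rintro (⟨h6, h7⟩ | ⟨h6, h7, h8⟩)
      · exact ⟨h6, Or.inr (Or.inl ⟨rfl, h7⟩)⟩
      · exact ⟨h7, Or.inr (Or.inr (Or.inr (Or.inr ⟨h6, Or.inl ⟨rfl, h8⟩⟩)))⟩
    · rintro ⟨h6, h7⟩
      omega
  · have h1 : VX_77 sa sv sw sb (j, 2) = sw j := rfl
    rw [h1, nb2_77 he hS hj hw]
    have h2 := key 3 (by omega)
    have h3 := key 1 (by omega)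
    have h4 : VX_77 sa sv sw sb (j, 3) = sb j := rfl
    have h5 : VX_77 sa sv sw sb (j, 1) = sv j := rfl
    rw [h4] at h2
    rw [h5] at h3
    rw [h2, h3]
    unfold RR_77
    constructor
    · rintro (⟨h6, h7⟩ | ⟨h6, h7, h8⟩)
      · exact ⟨h6, Or.inr (Or.inr (Or.inl ⟨rfl, h7⟩))⟩
      · exact ⟨h7, Or.inr (Or.inr (Or.inr (Or.inr ⟨h6, Or.inr ⟨rfl, h8⟩⟩)))⟩
    · rintro ⟨h6, h7⟩
      omega

private lemma ad_iff_77 (he : e = 1 ∨ e = 2) (hCl : Cl ⊆ range n)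
    (hS : Sts n e J p Cl sa sv sw sb) {j j' t t' : ℕ} (hj : j < J) (hj' : j' < J)
    (ht : t < 4) (ht' : t' < 4) :
    Ad p (VX_77 sa sv sw sb (j, t)) (VX_77 sa sv sw sb (j', t')) ↔ j = j' ∧ RR_77 e t t' := by
  by_cases h1 : t = 1 ∨ t = 2
  · exact ad_half_77 he hCl hS hj hj' h1 ht'
  by_cases h2 : t' = 1 ∨ t' = 2
  · rw [ad_symm_77, ad_half_77 he hCl hS hj' hj h2 ht]
    constructor
    · rintro ⟨h3, h4⟩
      exact ⟨h3.symm, RR_symm_77 h4⟩
    · rintro ⟨h3, h4⟩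
      exact ⟨h3.symm, RR_symm_77 h4⟩
  have h3 : t = 0 ∨ t = 3 := by omega
  have h4 : t' = 0 ∨ t' = 3 := by omega
  have h5 : VX_77 sa sv sw sb (j, t) = sa j ∨ VX_77 sa sv sw sb (j, t) = sb j := by
    rcases h3 with rfl | rfl
    · exact Or.inl rfl
    · exact Or.inr rfl
  have h6 : VX_77 sa sv sw sb (j', t') = sa j' ∨ VX_77 sa sv sw sb (j', t') = sb j' := by
    rcases h4 with rfl | rfl
    · exact Or.inl rfl
    · exact Or.inr rfl
  have h7 := hS.far j hj j' hj'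
  constructor
  · intro h
    exfalso
    rcases h5 with h5 | h5 <;> rcases h6 with h6 | h6 <;> rw [h5, h6] at h
    · exact h7 sa (by simp) sa (by simp) h
    · exact h7 sa (by simp) sb (by simp) h
    · exact h7 sb (by simp) sa (by simp) h
    · exact h7 sb (by simp) sb (by simp) h
  · rintro ⟨-, h⟩
    exfalso
    unfold RR_77 at h
    omega

end

private lemma mem_KV_77 {e : ℕ} {A1 A2 : Finset ℕ} {j t : ℕ} : (j, t) ∈ KV_77 e A1 A2 ↔
    (j ∈ A1 ∧ (t = 0 ∨ t = 1 ∨ (e = 2 ∧ t = 2))) ∨ (j ∈ A2 ∧ t < 4) := by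
  unfold KV_77
  rw [mem_union, mem_product, mem_product]
  have h1 : t ∈ ({0, 1, 2, 3} : Finset ℕ) ↔ t < 4 := by
    simp only [mem_insert, mem_singleton]
    omega
  have h2 : t ∈ (if e = 2 then ({0, 1, 2} : Finset ℕ) else {0, 1}) ↔
      t = 0 ∨ t = 1 ∨ (e = 2 ∧ t = 2) := by
    split_ifs with h
    · simp [h]
    · simp [h]
  simp only [h1, h2]

private lemma mem_KE_77 {e : ℕ} {A1 A2 : Finset ℕ} {j t : ℕ} : (j, t) ∈ KE_77 e A1 A2 ↔
    (j ∈ A1 ∧ (t = 0 ∨ (e = 2 ∧ t = 1))) ∨ (j ∈ A2 ∧ (t = 0 ∨ t = 2 ∨ (e = 2 ∧ t = 1))) := by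
  unfold KE_77
  rw [mem_union, mem_product, mem_product]
  have h1 : t ∈ (if e = 2 then ({0, 1, 2} : Finset ℕ) else {0, 2}) ↔
      t = 0 ∨ t = 2 ∨ (e = 2 ∧ t = 1) := by
    split_ifs with h
    · simp only [mem_insert, mem_singleton, h, true_and]
      omega
    · simp [h]
  have h2 : t ∈ (if e = 2 then ({0, 1} : Finset ℕ) else {0}) ↔
      t = 0 ∨ (e = 2 ∧ t = 1) := by
    split_ifs with h
    · simp [h]
    · simp [h]
  simp only [h1, h2]

private lemma map_KV_77 {β : Type*} {e : ℕ} (he : e = 1 ∨ e = 2) {A1 A2 : Finset ℕ}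
    (hd : Disjoint A1 A2) (F : ℕ × ℕ → β) :
    (KV_77 e A1 A2).val.map F = A1.val.map (fun j => F (j, 0)) + A1.val.map (fun j => F (j, 1)) +
      (if e = 2 then A1.val.map (fun j => F (j, 2)) else 0) + A2.val.map (fun j => F (j, 0)) +
      A2.val.map (fun j => F (j, 1)) + A2.val.map (fun j => F (j, 2)) +
      A2.val.map (fun j => F (j, 3)) := by
  simp only [vm_77]
  unfold KV_77
  rw [sum_union]
  · rcases he with rfl | rfl
    · simp only [sum_product, show ¬ (1 = 2) by omega, if_false]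
      simp only [sum_add_distrib, add_zero, mem_insert, mem_singleton, sum_insert, sum_singleton,
        show ¬ (0 = 1) by omega, show ¬ (0 = 2) by omega, show ¬ (0 = 3) by omega,
        show ¬ (1 = 2) by omega, show ¬ (1 = 3) by omega, show ¬ (2 = 3) by omega,
        or_false, not_false_eq_true]
      abel
    · simp only [sum_product, if_true]
      simp only [sum_add_distrib, add_zero, mem_insert, mem_singleton, sum_insert, sum_singleton,
        show ¬ (0 = 1) by omega, show ¬ (0 = 2) by omega, show ¬ (0 = 3) by omega,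
        show ¬ (1 = 2) by omega, show ¬ (1 = 3) by omega, show ¬ (2 = 3) by omega,
        or_false, not_false_eq_true]
      abel
  · rw [disjoint_left]
    intro k h1 h2
    exact disjoint_left.1 hd (mem_product.1 h1).1 (mem_product.1 h2).1

private lemma map_KE_77 {β : Type*} {e : ℕ} (he : e = 1 ∨ e = 2) {A1 A2 : Finset ℕ}
    (hd : Disjoint A1 A2) (F : ℕ × ℕ → β) :
    (KE_77 e A1 A2).val.map F = A1.val.map (fun j => F (j, 0)) +
      (if e = 2 then A1.val.map (fun j => F (j, 1)) else 0) + A2.val.map (fun j => F (j, 0)) +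
      A2.val.map (fun j => F (j, 2)) + (if e = 2 then A2.val.map (fun j => F (j, 1)) else 0) := by
  simp only [vm_77]
  unfold KE_77
  rw [sum_union]
  · rcases he with rfl | rfl
    · simp only [sum_product, show ¬ (1 = 2) by omega, if_false]
      simp only [sum_add_distrib, add_zero, mem_insert, mem_singleton, sum_insert, sum_singleton,
        show ¬ (0 = 1) by omega, show ¬ (0 = 2) by omega, show ¬ (1 = 2) by omega,
        or_false, not_false_eq_true]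
      abel
    · simp only [sum_product, if_true]
      simp only [sum_add_distrib, add_zero, mem_insert, mem_singleton, sum_insert, sum_singleton,
        show ¬ (0 = 1) by omega, show ¬ (0 = 2) by omega, show ¬ (1 = 2) by omega,
        or_false, not_false_eq_true]
      abel
  · rw [disjoint_left]
    intro k h1 h2
    exact disjoint_left.1 hd (mem_product.1 h1).1 (mem_product.1 h2).1

private lemma ev_77 {α β : Type*} (off z : ℕ) (Z : List α) (hz : Z.length = z) (d : α) (f : α → β)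
    (F : ℕ → β) (h : ∀ j, off ≤ j → j < off + z → F j = f (Z.getD (j - off) d)) :
    (Ico off (off + z)).val.map F = ↑(Z.map f) := by
  rw [← ico_77 off z Z hz d f]
  exact Multiset.map_congr rfl fun j hj =>
    h j (mem_Ico.1 (mem_def.2 hj)).1 (mem_Ico.1 (mem_def.2 hj)).2

private lemma edge_77 {β : Type*} {n e J : ℕ} {p : ℕ → ℕ} {Cl : Finset ℕ} {sa sv sw sb : ℕ → ℕ}
    (he : e = 1 ∨ e = 2) (hp : ∀ i, 0 < i → i < n → p i < i) (hCl : Cl ⊆ range n)
    (hS : Sts n e J p Cl sa sv sw sb) {A1 A2 : Finset ℕ} (h1 : A1 ⊆ range J) (h2 : A2 ⊆ range J)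
    (h : ℕ → ℤ) (f : ℤ → β) :
    (EdI p ((KV_77 e A1 A2).image (VX_77 sa sv sw sb))).val.map (fun i => f (h i + h (p i))) =
      (KE_77 e A1 A2).val.map (fun k => f (h (VX_77 sa sv sw sb k) +
        h (VX_77 sa sv sw sb (k.1, k.2 + 1)))) := by
  classical
  set V := VX_77 sa sv sw sb with hVdef
  have hJ : ∀ j t, (j, t) ∈ KV_77 e A1 A2 → j < J ∧ t < 4 := by
    intro j t hk
    rcases mem_KV_77.1 hk with ⟨h3, h4⟩ | ⟨h3, h4⟩
    · exact ⟨mem_range.1 (h1 h3), by omega⟩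
    · exact ⟨mem_range.1 (h2 h3), h4⟩
  have hKE : ∀ j t, (j, t) ∈ KE_77 e A1 A2 → (j, t) ∈ KV_77 e A1 A2 ∧ (j, t + 1) ∈ KV_77 e A1 A2 ∧
      RR_77 e t (t + 1) := by
    intro j t hk
    have h3 := mem_KE_77.1 hk
    refine ⟨mem_KV_77.2 ?_, mem_KV_77.2 ?_, ?_⟩
    · rcases h3 with ⟨h3, h4⟩ | ⟨h3, h4⟩
      · exact Or.inl ⟨h3, by omega⟩
      · exact Or.inr ⟨h3, by omega⟩
    · rcases h3 with ⟨h3, h4⟩ | ⟨h3, h4⟩
      · exact Or.inl ⟨h3, by omega⟩
      · exact Or.inr ⟨h3, by omega⟩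
    · unfold RR_77
      omega
  set low : ℕ × ℕ → ℕ := fun k => if 0 < V k ∧ p (V k) = V (k.1, k.2 + 1) then V k
    else V (k.1, k.2 + 1) with hlow
  have hl : ∀ k ∈ KE_77 e A1 A2, 0 < low k ∧ ((low k = V k ∧ p (low k) = V (k.1, k.2 + 1)) ∨
      (low k = V (k.1, k.2 + 1) ∧ p (low k) = V k)) := by
    rintro ⟨j, t⟩ hk
    obtain ⟨h3, h4, h5⟩ := hKE j t hk
    have h6 : Ad p (V (j, t)) (V (j, t + 1)) :=
      (ad_iff_77 he hCl hS (hJ j t h3).1 (hJ j t h3).1 (hJ j t h3).2 (hJ j _ h4).2).2 ⟨rfl, h5⟩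
    by_cases h7 : 0 < V (j, t) ∧ p (V (j, t)) = V (j, t + 1)
    · have h8 : low (j, t) = V (j, t) := if_pos h7
      rw [h8]
      exact ⟨h7.1, Or.inl ⟨rfl, h7.2⟩⟩
    · have h8 : low (j, t) = V (j, t + 1) := if_neg h7
      rw [h8]
      rcases h6 with h6 | h6
      · exact absurd h6 h7
      · exact ⟨h6.1, Or.inr ⟨rfl, h6.2⟩⟩
  have hVinj : ∀ k ∈ KV_77 e A1 A2, ∀ k' ∈ KV_77 e A1 A2, V k = V k' → k = k' := by
    rintro ⟨j, t⟩ hk ⟨j', t'⟩ hk' h3
    exact VX_inj_77 hS (hJ j t hk).1 (hJ j' t' hk').1 (hJ j t hk).2 (hJ j' t' hk').2 h3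
  have hVn : ∀ j t, (j, t) ∈ KV_77 e A1 A2 → V (j, t) < n := fun j t hk =>
    mem_range.1 (hCl (VX_mem_77 hS (k := (j, t)) (hJ j t hk).1))
  have hinj : Set.InjOn low (KE_77 e A1 A2 : Finset (ℕ × ℕ)) := by
    rintro ⟨j, t⟩ hk ⟨j', t'⟩ hk' h3
    have hk1 := hKE j t (mem_coe.1 hk)
    have hk2 := hKE j' t' (mem_coe.1 hk')
    obtain ⟨-, h4⟩ := hl _ (mem_coe.1 hk)
    obtain ⟨-, h5⟩ := hl _ (mem_coe.1 hk')
    rw [← h3] at h5
    rcases h4 with ⟨h4, h6⟩ | ⟨h4, h6⟩ <;> rcases h5 with ⟨h5, h7⟩ | ⟨h5, h7⟩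
    · exact hVinj _ hk1.1 _ hk2.1 (h4.symm.trans h5)
    · have h8 := hVinj _ hk1.1 _ hk2.2.1 (h4.symm.trans h5)
      have h9 := hVinj _ hk1.2.1 _ hk2.1 (h6.symm.trans h7)
      rw [Prod.mk.injEq] at h8 h9
      omega
    · have h8 := hVinj _ hk1.2.1 _ hk2.1 (h4.symm.trans h5)
      have h9 := hVinj _ hk1.1 _ hk2.2.1 (h6.symm.trans h7)
      rw [Prod.mk.injEq] at h8 h9
      omega
    · have h8 := hVinj _ hk1.2.1 _ hk2.2.1 (h4.symm.trans h5)
      rw [Prod.mk.injEq] at h8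
      ext
      · exact h8.1
      · simp only
        omega
  have hE : EdI p ((KV_77 e A1 A2).image V) = (KE_77 e A1 A2).image low := by
    ext i
    unfold EdI
    rw [mem_filter, mem_image, mem_image, mem_image]
    constructor
    · rintro ⟨⟨⟨j, t⟩, hk, rfl⟩, h3, ⟨j', t'⟩, hk', h4⟩
      have h5 : Ad p (V (j, t)) (V (j', t')) := Or.inl ⟨h3, h4.symm⟩
      obtain ⟨h6, h7⟩ := (ad_iff_77 he hCl hS (hJ j t hk).1 (hJ j' t' hk').1 (hJ j t hk).2
        (hJ j' t' hk').2).1 h5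
      subst h6
      have hk1 := mem_KV_77.1 hk
      have hk2 := mem_KV_77.1 hk'
      -- upward edges
      have up : t' = t + 1 → (j, t) ∈ KE_77 e A1 A2 → ∃ a ∈ KE_77 e A1 A2, low a = V (j, t) := by
        intro h8 h9
        refine ⟨(j, t), h9, ?_⟩
        have h10 : 0 < V (j, t) ∧ p (V (j, t)) = V (j, t + 1) := ⟨h3, by rw [← h8]; exact h4.symm⟩
        exact if_pos h10
      have dn : t = t' + 1 → (j, t') ∈ KE_77 e A1 A2 → ∃ a ∈ KE_77 e A1 A2, low a = V (j, t) := by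
        intro h8 h9
        refine ⟨(j, t'), h9, ?_⟩
        have h10 : ¬ (0 < V (j, t') ∧ p (V (j, t')) = V (j, t' + 1)) := by
          rintro ⟨h11, h12⟩
          rw [← h8] at h12
          have h13 := hp _ h3 (hVn j t hk)
          have h14 := hp _ h11 (hVn j t' hk')
          rw [← h4] at h13
          omega
        have h15 : low (j, t') = V (j, t' + 1) := if_neg h10
        rw [h15, ← h8]
      unfold RR_77 at h7
      rcases h7 with ⟨h7, h8⟩ | ⟨h7, h8⟩ | ⟨h7, h8⟩ | ⟨h7, h8⟩ | ⟨h9, ⟨h7, h8⟩ | ⟨h7, h8⟩⟩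
      · exact up (by omega) (mem_KE_77.2 (by
          rcases hk1 with ⟨h10, h11⟩ | ⟨h10, h11⟩
          · exact Or.inl ⟨h10, Or.inl h7⟩
          · exact Or.inr ⟨h10, Or.inl h7⟩))
      · exact dn (by omega) (mem_KE_77.2 (by
          rcases hk1 with ⟨h10, h11⟩ | ⟨h10, h11⟩
          · exact Or.inl ⟨h10, Or.inl h8⟩
          · exact Or.inr ⟨h10, Or.inl h8⟩))
      · exact up (by omega) (mem_KE_77.2 (by
          rcases hk2 with ⟨h10, h11⟩ | ⟨h10, h11⟩
          · omega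
          · exact Or.inr ⟨h10, Or.inr (Or.inl h7)⟩))
      · exact dn (by omega) (mem_KE_77.2 (by
          rcases hk1 with ⟨h10, h11⟩ | ⟨h10, h11⟩
          · omega
          · exact Or.inr ⟨h10, Or.inr (Or.inl h8)⟩))
      · exact up (by omega) (mem_KE_77.2 (by
          rcases hk1 with ⟨h10, h11⟩ | ⟨h10, h11⟩
          · exact Or.inl ⟨h10, Or.inr ⟨h9, h7⟩⟩
          · exact Or.inr ⟨h10, Or.inr (Or.inr ⟨h9, h7⟩)⟩))
      · exact dn (by omega) (mem_KE_77.2 (by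
          rcases hk1 with ⟨h10, h11⟩ | ⟨h10, h11⟩
          · exact Or.inl ⟨h10, Or.inr ⟨h9, h8⟩⟩
          · exact Or.inr ⟨h10, Or.inr (Or.inr ⟨h9, h8⟩)⟩))
    · rintro ⟨⟨j, t⟩, hk, rfl⟩
      obtain ⟨h3, h4, -⟩ := hKE j t hk
      obtain ⟨h5, h6⟩ := hl _ hk
      rcases h6 with ⟨h6, h7⟩ | ⟨h6, h7⟩
      · exact ⟨⟨_, h3, h6.symm⟩, h5, _, h4, h7.symm⟩
      · exact ⟨⟨_, h4, h6.symm⟩, h5, _, h3, h7.symm⟩
  rw [hE, image_val_of_injOn hinj, Multiset.map_map]
  refine Multiset.map_congr rfl fun k hk => ?_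
  obtain ⟨-, h3⟩ := hl k (mem_def.2 hk)
  rcases h3 with ⟨h3, h4⟩ | ⟨h3, h4⟩
  · simp only [Function.comp]
    rw [h4, h3]
  · simp only [Function.comp]
    rw [h4, h3, add_comm]

theorem assign {n e J : ℕ} {p : ℕ → ℕ} {Cl : Finset ℕ} {sa sv sw sb : ℕ → ℕ} (he : e = 1 ∨ e = 2)
    (hp : ∀ i, 0 < i → i < n → p i < i) (hCl : Cl ⊆ range n) (hS : Sts n e J p Cl sa sv sw sb)
    (Z1 Z2 : List (ℤ × ℤ × ℤ × ℤ)) (L1 L2 : List (ℤ × ℤ))
    (hJ : Z1.length + Z2.length + L1.length + L2.length ≤ J) :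
    ∃ (DS CO Fl : Finset ℕ) (g gb : ℕ → ℤ), DS ⊆ Cl ∧ CO ⊆ Cl ∧ Fl ⊆ Cl ∧ Disjoint DS CO ∧ Disjoint (DS ∪ CO) Fl ∧
      (∀ v ∈ DS ∪ CO ∪ Fl, ∃ j, j < J ∧ (v = sa j ∨ v = sv j ∨ v = sw j ∨ v = sb j)) ∧
      DS.val.map g + DS.val.map gb = newL e Z1 Z2 ∧
      (EdI p DS).val.map (fun i => g i + g (p i)) + (EdI p DS).val.map (fun i => gb i + gb (p i)) = newS e Z1 Z2 ∧
      CO.val.map (fun v => (g v).natAbs) = crs e L1 L2 ∧ (∀ v ∈ CO, gb v = -g v) ∧
      (∀ v ∈ DS, ∀ w, w < n → Ad p v w → w ∉ DS → gb v = -g v) ∧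
      (∀ v ∈ DS, ∀ w ∈ CO ∪ Fl, ¬ Ad p v w) ∧ (∀ v ∈ CO, ∀ w ∈ CO, ¬ Ad p v w) ∧
      (∀ v ∈ Fl, ∀ w, w < n → Ad p v w → w ∈ CO ∪ Fl) ∧
      ∀ L S : Finset ℕ, Abs e L1 L2 L S → ∃ g' : ℕ → ℤ, (∀ v, v ∉ Fl → g' v = g v) ∧ (∀ v ∈ Fl, Odd (g' v)) ∧
        Fl.val.map (fun v => (g' v).natAbs) = L.val ∧
        (EdT p Fl CO).val.map (fun i => (g' i + g' (p i)).natAbs) = S.val := by
  classical
  set V := VX_77 sa sv sw sb with hVdef
  obtain ⟨z1, hz1⟩ : ∃ z1, Z1.length = z1 := ⟨_, rfl⟩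
  obtain ⟨z2, hz2⟩ : ∃ z2, Z2.length = z2 := ⟨_, rfl⟩
  obtain ⟨l1, hl1⟩ : ∃ l1, L1.length = l1 := ⟨_, rfl⟩
  obtain ⟨l2, hl2⟩ : ∃ l2, L2.length = l2 := ⟨_, rfl⟩
  rw [hz1, hz2, hl1, hl2] at hJ
  set I1 := Ico 0 (0 + z1) with hI1
  set I2 := Ico z1 (z1 + z2) with hI2
  set I3 := Ico (z1 + z2) (z1 + z2 + l1) with hI3
  set I4 := Ico (z1 + z2 + l1) (z1 + z2 + l1 + l2) with hI4
  have m1 : ∀ j, j ∈ I1 ↔ j < z1 := fun j => by rw [hI1, mem_Ico]; omega
  have m2 : ∀ j, j ∈ I2 ↔ z1 ≤ j ∧ j < z1 + z2 := fun j => by rw [hI2, mem_Ico]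
  have m3 : ∀ j, j ∈ I3 ↔ z1 + z2 ≤ j ∧ j < z1 + z2 + l1 := fun j => by rw [hI3, mem_Ico]
  have m4 : ∀ j, j ∈ I4 ↔ z1 + z2 + l1 ≤ j ∧ j < z1 + z2 + l1 + l2 := fun j => by
    rw [hI4, mem_Ico]
  have s1 : I1 ⊆ range J := fun j hj => by rw [m1] at hj; rw [mem_range]; omega
  have s2 : I2 ⊆ range J := fun j hj => by rw [m2] at hj; rw [mem_range]; omega
  have s3 : I3 ⊆ range J := fun j hj => by rw [m3] at hj; rw [mem_range]; omega
  have s4 : I4 ⊆ range J := fun j hj => by rw [m4] at hj; rw [mem_range]; omega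
  have d12 : Disjoint I1 I2 := disjoint_left.2 fun j h1 h2 => by rw [m1] at h1; rw [m2] at h2; omega
  have d34 : Disjoint I3 I4 := disjoint_left.2 fun j h1 h2 => by rw [m3] at h1; rw [m4] at h2; omega
  set G : ℕ × ℕ → ℤ := fun k =>
    if k.1 < z1 then
      (if k.2 = 0 then (Z1.getD (k.1 - 0) 0).1 else if k.2 = 1 then (Z1.getD (k.1 - 0) 0).2.2.1
        else (Z1.getD (k.1 - 0) 0).2.1)
    else if k.1 < z1 + z2 then
      (if k.2 = 0 then (Z2.getD (k.1 - z1) 0).1 else if k.2 = 1 then (Z2.getD (k.1 - z1) 0).2.2.1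
        else if k.2 = 2 then (Z2.getD (k.1 - z1) 0).2.2.2 else (Z2.getD (k.1 - z1) 0).2.1)
    else if k.1 < z1 + z2 + l1 then
      (if k.2 = 0 then (L1.getD (k.1 - (z1 + z2)) 0).1 else (L1.getD (k.1 - (z1 + z2)) 0).2)
    else
      (if k.2 = 0 then (L2.getD (k.1 - (z1 + z2 + l1)) 0).1
        else (L2.getD (k.1 - (z1 + z2 + l1)) 0).2) with hG
  set GB : ℕ × ℕ → ℤ := fun k =>
    if k.1 < z1 then
      (if k.2 = 0 then -(Z1.getD (k.1 - 0) 0).1 else if k.2 = 1 then (Z1.getD (k.1 - 0) 0).2.2.2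
        else -(Z1.getD (k.1 - 0) 0).2.1)
    else if k.1 < z1 + z2 then
      (if k.2 = 0 then -(Z2.getD (k.1 - z1) 0).1 else if k.2 = 1 then -(Z2.getD (k.1 - z1) 0).2.2.2
        else if k.2 = 2 then -(Z2.getD (k.1 - z1) 0).2.2.1 else -(Z2.getD (k.1 - z1) 0).2.1)
    else -G k with hGB
  -- the index sets
  set K12 := KV_77 e I1 I2 with hK12
  set K34 := KV_77 e I3 I4 with hK34
  set KC : Finset (ℕ × ℕ) := I3 ×ˢ (if e = 2 then {0, 2} else {0}) ∪ I4 ×ˢ {0, 3} with hKC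
  set KF : Finset (ℕ × ℕ) := I3 ×ˢ {1} ∪ I4 ×ˢ {1, 2} with hKF
  have mC : ∀ j t, (j, t) ∈ KC ↔ (j ∈ I3 ∧ (t = 0 ∨ (e = 2 ∧ t = 2))) ∨
      (j ∈ I4 ∧ (t = 0 ∨ t = 3)) := by
    intro j t
    rw [hKC, mem_union, mem_product, mem_product]
    have h1 : t ∈ (if e = 2 then ({0, 2} : Finset ℕ) else {0}) ↔ t = 0 ∨ (e = 2 ∧ t = 2) := by
      split_ifs with h
      · simp [h]
      · simp [h]
    have h2 : t ∈ ({0, 3} : Finset ℕ) ↔ t = 0 ∨ t = 3 := by simp
    simp only [h1, h2]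
  have mF : ∀ j t, (j, t) ∈ KF ↔ (j ∈ I3 ∧ t = 1) ∨ (j ∈ I4 ∧ (t = 1 ∨ t = 2)) := by
    intro j t
    rw [hKF, mem_union, mem_product, mem_product]
    have h1 : t ∈ ({1} : Finset ℕ) ↔ t = 1 := by simp
    have h2 : t ∈ ({1, 2} : Finset ℕ) ↔ t = 1 ∨ t = 2 := by simp
    simp only [h1, h2]
  have mu : KF ∪ KC = K34 := by
    ext ⟨j, t⟩
    rw [mem_union, mF, mC, hK34, mem_KV_77]
    constructor
    · rintro ((⟨h1, h2⟩ | ⟨h1, h2⟩) | (⟨h1, h2⟩ | ⟨h1, h2⟩))
      · exact Or.inl ⟨h1, by omega⟩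
      · exact Or.inr ⟨h1, by omega⟩
      · exact Or.inl ⟨h1, by omega⟩
      · exact Or.inr ⟨h1, by omega⟩
    · rintro (⟨h1, h2 | h2 | h2⟩ | ⟨h1, h2⟩)
      · exact Or.inr (Or.inl ⟨h1, Or.inl h2⟩)
      · exact Or.inl (Or.inl ⟨h1, h2⟩)
      · exact Or.inr (Or.inl ⟨h1, Or.inr h2⟩)
      · by_cases h3 : t = 1 ∨ t = 2
        · exact Or.inl (Or.inr ⟨h1, h3⟩)
        · exact Or.inr (Or.inr ⟨h1, by omega⟩)
  have r12 : ∀ j t, (j, t) ∈ K12 → (j < z1 + z2 ∧ t < 4) ∧ (j < z1 → t < 3) := by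
    intro j t hk
    rw [hK12, mem_KV_77, m1, m2] at hk
    omega
  have r34 : ∀ j t, (j, t) ∈ K34 → (z1 + z2 ≤ j ∧ j < z1 + z2 + l1 + l2 ∧ t < 4) := by
    intro j t hk
    rw [hK34, mem_KV_77, m3, m4] at hk
    omega
  have sC : KC ⊆ K34 := mu ▸ subset_union_right
  have sF : KF ⊆ K34 := mu ▸ subset_union_left
  have rA : ∀ j t, (j, t) ∈ K12 ∪ K34 → j < J ∧ t < 4 := by
    intro j t hk
    rcases mem_union.1 hk with h | h
    · have := r12 j t h
      omega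
    · have := r34 j t h
      omega
  have hVinj : ∀ k ∈ K12 ∪ K34, ∀ k' ∈ K12 ∪ K34, V k = V k' → k = k' := by
    rintro ⟨j, t⟩ hk ⟨j', t'⟩ hk' h3
    exact VX_inj_77 hS (rA j t hk).1 (rA j' t' hk').1 (rA j t hk).2 (rA j' t' hk').2 h3
  have cA : ∀ k ∈ K12 ∪ K34, V k ∈ Cl := by
    rintro ⟨j, t⟩ hk
    exact VX_mem_77 hS (k := (j, t)) (rA j t hk).1
  obtain ⟨g, hg, -⟩ := lift_77 (K12 ∪ K34) V hVinj G 0
  obtain ⟨gb, hgb, -⟩ := lift_77 (K12 ∪ K34) V hVinj GB 0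
  have u12 : K12 ⊆ K12 ∪ K34 := subset_union_left
  have u34 : K34 ⊆ K12 ∪ K34 := subset_union_right
  have uC : KC ⊆ K12 ∪ K34 := sC.trans u34
  have uF : KF ⊆ K12 ∪ K34 := sF.trans u34
  have disj : ∀ A B : Finset (ℕ × ℕ), A ⊆ K12 ∪ K34 → B ⊆ K12 ∪ K34 → Disjoint A B →
      Disjoint (A.image V) (B.image V) := by
    intro A B hA hB hAB
    rw [disjoint_left]
    intro v h1 h2
    obtain ⟨k, hk, rfl⟩ := mem_image.1 h1
    obtain ⟨k', hk', h3⟩ := mem_image.1 h2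
    have h4 := hVinj _ (hB hk') _ (hA hk) h3
    subst h4
    exact disjoint_left.1 hAB hk hk'
  have d1234 : Disjoint K12 K34 := by
    rw [disjoint_left]
    rintro ⟨j, t⟩ h1 h2
    have := r12 j t h1
    have := r34 j t h2
    omega
  have dCF : Disjoint KC KF := by
    rw [disjoint_left]
    rintro ⟨j, t⟩ h1 h2
    rw [mC, m3, m4] at h1
    rw [mF, m3, m4] at h2
    omega
  have ad : ∀ j t j' t', (j, t) ∈ K12 ∪ K34 → (j', t') ∈ K12 ∪ K34 →
      (Ad p (V (j, t)) (V (j', t')) ↔ j = j' ∧ RR_77 e t t') := by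
    intro j t j' t' hk hk'
    exact ad_iff_77 he hCl hS (rA j t hk).1 (rA j' t' hk').1 (rA j t hk).2 (rA j' t' hk').2
  have imap : ∀ {β : Type} (A : Finset (ℕ × ℕ)) (f : ℕ → β), A ⊆ K12 ∪ K34 →
      (A.image V).val.map f = A.val.map (fun k => f (V k)) := by
    intro β A f hA
    have h1 : Set.InjOn V (A : Finset (ℕ × ℕ)) := fun k hk k' hk' h =>
      hVinj k (hA (mem_coe.1 hk)) k' (hA (mem_coe.1 hk')) h
    rw [image_val_of_injOn h1, Multiset.map_map]
    rfl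
  -- values
  have v10 : ∀ j, j < z1 → g (V (j, 0)) = (Z1.getD (j - 0) 0).1 := by
    intro j hj
    rw [hg _ (u12 (by rw [hK12, mem_KV_77, m1]; exact Or.inl ⟨hj, Or.inl rfl⟩)), hG]
    simp only [hj, if_true]
  have v11 : ∀ j, j < z1 → g (V (j, 1)) = (Z1.getD (j - 0) 0).2.2.1 := by
    intro j hj
    rw [hg _ (u12 (by rw [hK12, mem_KV_77, m1]; exact Or.inl ⟨hj, Or.inr (Or.inl rfl)⟩)), hG]
    simp only [hj, if_true, show ¬ (1 = 0) by omega, if_false]
  have v12 : ∀ j, j < z1 → e = 2 → g (V (j, 2)) = (Z1.getD (j - 0) 0).2.1 := by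
    intro j hj h2
    rw [hg _ (u12 (by rw [hK12, mem_KV_77, m1]; exact Or.inl ⟨hj, Or.inr (Or.inr ⟨h2, rfl⟩)⟩)), hG]
    simp only [hj, if_true, show ¬ (2 = 0) by omega, show ¬ (2 = 1) by omega, if_false]
  have w10 : ∀ j, j < z1 → gb (V (j, 0)) = -(Z1.getD (j - 0) 0).1 := by
    intro j hj
    rw [hgb _ (u12 (by rw [hK12, mem_KV_77, m1]; exact Or.inl ⟨hj, Or.inl rfl⟩)), hGB]
    simp only [hj, if_true]
  have w11 : ∀ j, j < z1 → gb (V (j, 1)) = (Z1.getD (j - 0) 0).2.2.2 := by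
    intro j hj
    rw [hgb _ (u12 (by rw [hK12, mem_KV_77, m1]; exact Or.inl ⟨hj, Or.inr (Or.inl rfl)⟩)), hGB]
    simp only [hj, if_true, show ¬ (1 = 0) by omega, if_false]
  have w12 : ∀ j, j < z1 → e = 2 → gb (V (j, 2)) = -(Z1.getD (j - 0) 0).2.1 := by
    intro j hj h2
    rw [hgb _ (u12 (by rw [hK12, mem_KV_77, m1]; exact Or.inl ⟨hj, Or.inr (Or.inr ⟨h2, rfl⟩)⟩)),
      hGB]
    simp only [hj, if_true, show ¬ (2 = 0) by omega, show ¬ (2 = 1) by omega, if_false]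
  have k2 : ∀ j t, z1 ≤ j → j < z1 + z2 → t < 4 → (j, t) ∈ K12 ∪ K34 := by
    intro j t h1 h2 h3
    exact u12 (by rw [hK12, mem_KV_77, m2]; exact Or.inr ⟨⟨h1, h2⟩, h3⟩)
  have v20 : ∀ j, z1 ≤ j → j < z1 + z2 → g (V (j, 0)) = (Z2.getD (j - z1) 0).1 := by
    intro j h1 h2
    rw [hg _ (k2 j 0 h1 h2 (by omega)), hG]
    simp only [not_lt.2 h1, h2, if_true, if_false]
  have v21 : ∀ j, z1 ≤ j → j < z1 + z2 → g (V (j, 1)) = (Z2.getD (j - z1) 0).2.2.1 := by
    intro j h1 h2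
    rw [hg _ (k2 j 1 h1 h2 (by omega)), hG]
    simp only [not_lt.2 h1, h2, if_true, if_false, show ¬ (1 = 0) by omega]
  have v22 : ∀ j, z1 ≤ j → j < z1 + z2 → g (V (j, 2)) = (Z2.getD (j - z1) 0).2.2.2 := by
    intro j h1 h2
    rw [hg _ (k2 j 2 h1 h2 (by omega)), hG]
    simp only [not_lt.2 h1, h2, if_true, if_false, show ¬ (2 = 0) by omega,
      show ¬ (2 = 1) by omega]
  have v23 : ∀ j, z1 ≤ j → j < z1 + z2 → g (V (j, 3)) = (Z2.getD (j - z1) 0).2.1 := by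
    intro j h1 h2
    rw [hg _ (k2 j 3 h1 h2 (by omega)), hG]
    simp only [not_lt.2 h1, h2, if_true, if_false, show ¬ (3 = 0) by omega,
      show ¬ (3 = 1) by omega, show ¬ (3 = 2) by omega]
  have w20 : ∀ j, z1 ≤ j → j < z1 + z2 → gb (V (j, 0)) = -(Z2.getD (j - z1) 0).1 := by
    intro j h1 h2
    rw [hgb _ (k2 j 0 h1 h2 (by omega)), hGB]
    simp only [not_lt.2 h1, h2, if_true, if_false]
  have w21 : ∀ j, z1 ≤ j → j < z1 + z2 → gb (V (j, 1)) = -(Z2.getD (j - z1) 0).2.2.2 := by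
    intro j h1 h2
    rw [hgb _ (k2 j 1 h1 h2 (by omega)), hGB]
    simp only [not_lt.2 h1, h2, if_true, if_false, show ¬ (1 = 0) by omega]
  have w22 : ∀ j, z1 ≤ j → j < z1 + z2 → gb (V (j, 2)) = -(Z2.getD (j - z1) 0).2.2.1 := by
    intro j h1 h2
    rw [hgb _ (k2 j 2 h1 h2 (by omega)), hGB]
    simp only [not_lt.2 h1, h2, if_true, if_false, show ¬ (2 = 0) by omega,
      show ¬ (2 = 1) by omega]
  have w23 : ∀ j, z1 ≤ j → j < z1 + z2 → gb (V (j, 3)) = -(Z2.getD (j - z1) 0).2.1 := by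
    intro j h1 h2
    rw [hgb _ (k2 j 3 h1 h2 (by omega)), hGB]
    simp only [not_lt.2 h1, h2, if_true, if_false, show ¬ (3 = 0) by omega,
      show ¬ (3 = 1) by omega, show ¬ (3 = 2) by omega]
  have v3 : ∀ j t, (j, t) ∈ K34 → j < z1 + z2 + l1 → g (V (j, t)) =
      if t = 0 then (L1.getD (j - (z1 + z2)) 0).1 else (L1.getD (j - (z1 + z2)) 0).2 := by
    intro j t hk h2
    have h3 := r34 j t hk
    rw [hg _ (u34 hk), hG]
    simp only [show ¬ (j < z1) by omega, show ¬ (j < z1 + z2) by omega, h2, if_true, if_false]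
  have v4 : ∀ j t, (j, t) ∈ K34 → z1 + z2 + l1 ≤ j → g (V (j, t)) =
      if t = 0 then (L2.getD (j - (z1 + z2 + l1)) 0).1
        else (L2.getD (j - (z1 + z2 + l1)) 0).2 := by
    intro j t hk h2
    rw [hg _ (u34 hk), hG]
    simp only [show ¬ (j < z1) by omega, show ¬ (j < z1 + z2) by omega,
      show ¬ (j < z1 + z2 + l1) by omega, if_false]
  have w34 : ∀ j t, (j, t) ∈ K34 → gb (V (j, t)) = -g (V (j, t)) := by
    intro j t hk
    have h3 := r34 j t hk
    rw [hgb _ (u34 hk), hg _ (u34 hk), hGB]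
    simp only [show ¬ (j < z1) by omega, show ¬ (j < z1 + z2) by omega, if_false]
  have c34 : ∀ j t, (j ∈ I3 ∧ (t = 0 ∨ t = 1 ∨ (e = 2 ∧ t = 2))) ∨ (j ∈ I4 ∧ t < 4) →
      (j, t) ∈ K34 := fun j t h => by rw [hK34, mem_KV_77]; exact h
  refine ⟨K12.image V, KC.image V, KF.image V, g, gb, ?_, ?_, ?_, ?_, ?_, ?_, ?_, ?_, ?_, ?_, ?_,
    ?_, ?_, ?_, ?_⟩
  · intro v hv
    obtain ⟨k, hk, rfl⟩ := mem_image.1 hv
    exact cA k (u12 hk)
  · intro v hv
    obtain ⟨k, hk, rfl⟩ := mem_image.1 hv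
    exact cA k (uC hk)
  · intro v hv
    obtain ⟨k, hk, rfl⟩ := mem_image.1 hv
    exact cA k (uF hk)
  · exact disj _ _ u12 uC (disjoint_of_subset_right sC d1234)
  · rw [← image_union]
    refine disj _ _ (union_subset u12 uC) uF ?_
    rw [disjoint_union_left]
    exact ⟨disjoint_of_subset_right sF d1234, dCF⟩
  · intro v hv
    rw [← image_union, ← image_union] at hv
    obtain ⟨⟨j, t⟩, hk, rfl⟩ := mem_image.1 hv
    have h1 : (j, t) ∈ K12 ∪ K34 := by
      rcases mem_union.1 hk with h | h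
      · rcases mem_union.1 h with h | h
        · exact u12 h
        · exact uC h
      · exact uF h
    obtain ⟨h2, h3⟩ := rA j t h1
    refine ⟨j, h2, ?_⟩
    rw [hVdef]
    unfold VX_77
    simp only
    split_ifs
    · exact Or.inl rfl
    · exact Or.inr (Or.inl rfl)
    · exact Or.inr (Or.inr (Or.inl rfl))
    · exact Or.inr (Or.inr (Or.inr rfl))
  · -- labels of the demand sites
    rw [imap _ _ u12, imap _ _ u12, hK12, map_KV_77 he d12, map_KV_77 he d12]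
    rw [ev_77 0 z1 Z1 hz1 0 (fun z => z.1) _ (fun j _ h => v10 j (by omega)),
      ev_77 0 z1 Z1 hz1 0 (fun z => z.2.2.1) _ (fun j _ h => v11 j (by omega)),
      ev_77 z1 z2 Z2 hz2 0 (fun z => z.1) _ v20, ev_77 z1 z2 Z2 hz2 0 (fun z => z.2.2.1) _ v21,
      ev_77 z1 z2 Z2 hz2 0 (fun z => z.2.2.2) _ v22, ev_77 z1 z2 Z2 hz2 0 (fun z => z.2.1) _ v23,
      ev_77 0 z1 Z1 hz1 0 (fun z => -z.1) _ (fun j _ h => w10 j (by omega)),
      ev_77 0 z1 Z1 hz1 0 (fun z => z.2.2.2) _ (fun j _ h => w11 j (by omega)),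
      ev_77 z1 z2 Z2 hz2 0 (fun z => -z.1) _ w20, ev_77 z1 z2 Z2 hz2 0 (fun z => -z.2.2.2) _ w21,
      ev_77 z1 z2 Z2 hz2 0 (fun z => -z.2.2.1) _ w22, ev_77 z1 z2 Z2 hz2 0 (fun z => -z.2.1) _ w23]
    unfold newL
    rw [flat4_77, flat2_77, flat8_77]
    rcases he with rfl | rfl
    · simp only [show ¬ (1 = 2) by omega, if_false]
      abel
    · simp only [if_true]
      rw [ev_77 0 z1 Z1 hz1 0 (fun z => z.2.1) _ (fun j _ h => v12 j (by omega) rfl),
        ev_77 0 z1 Z1 hz1 0 (fun z => -z.2.1) _ (fun j _ h => w12 j (by omega) rfl)]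
      abel
  · -- sums at the demand sites
    have e1 := edge_77 he hp hCl hS s1 s2 g (fun x : ℤ => x)
    have e2 := edge_77 he hp hCl hS s1 s2 gb (fun x : ℤ => x)
    rw [← hVdef] at e1 e2
    rw [hK12, e1, e2, map_KE_77 he d12, map_KE_77 he d12]
    simp only [zero_add, Nat.reduceAdd]
    have a1 := ev_77 0 z1 Z1 hz1 0 (fun z => z.1 + z.2.2.1) (fun j => g (V (j, 0)) + g (V (j, 1)))
        (fun j _ h => by rw [v10 j (by omega), v11 j (by omega)])
    have a2 := ev_77 z1 z2 Z2 hz2 0 (fun z => z.1 + z.2.2.1) (fun j => g (V (j, 0)) + g (V (j, 1)))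
        (fun j h1 h2 => by rw [v20 j h1 h2, v21 j h1 h2])
    have a3 := ev_77 z1 z2 Z2 hz2 0 (fun z => z.2.1 + z.2.2.2) (fun j => g (V (j, 2)) + g (V (j, 3)))
        (fun j h1 h2 => by rw [v22 j h1 h2, v23 j h1 h2, add_comm])
    have a4 := ev_77 0 z1 Z1 hz1 0 (fun z => -z.1 + z.2.2.2) (fun j => gb (V (j, 0)) + gb (V (j, 1)))
        (fun j _ h => by rw [w10 j (by omega), w11 j (by omega)])
    have a5 := ev_77 z1 z2 Z2 hz2 0 (fun z => -z.1 - z.2.2.2)
        (fun j => gb (V (j, 0)) + gb (V (j, 1)))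
        (fun j h1 h2 => by rw [w20 j h1 h2, w21 j h1 h2, sub_eq_add_neg])
    have a6 := ev_77 z1 z2 Z2 hz2 0 (fun z => -z.2.1 - z.2.2.1)
        (fun j => gb (V (j, 2)) + gb (V (j, 3)))
        (fun j h1 h2 => by rw [w22 j h1 h2, w23 j h1 h2, sub_eq_add_neg, add_comm])
    rw [← hI1] at a1 a4
    rw [← hI2] at a2 a3 a5 a6
    rw [a1, a2, a3, a4, a5, a6]
    unfold newS
    rw [flat2_77, flat2_77, flat4_77, flat2_77]
    rcases he with rfl | rfl
    · simp only [show ¬ (1 = 2) by omega, if_false]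
      abel
    · simp only [if_true]
      have b1 := ev_77 0 z1 Z1 hz1 0 (fun z => z.2.1 + z.2.2.1)
          (fun j => g (V (j, 1)) + g (V (j, 2)))
          (fun j _ h => by rw [v11 j (by omega), v12 j (by omega) rfl, add_comm])
      have b2 := ev_77 0 z1 Z1 hz1 0 (fun z => -z.2.1 + z.2.2.2)
          (fun j => gb (V (j, 1)) + gb (V (j, 2)))
          (fun j _ h => by rw [w11 j (by omega), w12 j (by omega) rfl, add_comm])
      have b3 := ev_77 z1 z2 Z2 hz2 0 (fun z => z.2.2.1 + z.2.2.2)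
          (fun j => g (V (j, 1)) + g (V (j, 2)))
          (fun j h1 h2 => by rw [v21 j h1 h2, v22 j h1 h2])
      have b4 := ev_77 z1 z2 Z2 hz2 0 (fun z => -(z.2.2.1 + z.2.2.2))
          (fun j => gb (V (j, 1)) + gb (V (j, 2)))
          (fun j h1 h2 => by rw [w21 j h1 h2, w22 j h1 h2]; ring)
      rw [← hI1] at b1 b2
      rw [← hI2] at b3 b4
      rw [b1, b2, b3, b4]
      abel
  · -- classes of the core
    rw [imap _ _ uC, hKC, vm_77, sum_union]
    · unfold crs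
      have x1 : ∀ (A B : Finset ℕ) (F : ℕ × ℕ → Multiset ℕ),
          ∑ k ∈ A ×ˢ B, F k = ∑ j ∈ A, ∑ t ∈ B, F (j, t) := fun A B F => sum_product A B F
      rw [x1, x1]
      have y0 := ev_77 (z1 + z2) l1 L1 hl1 0 (fun z => z.1.natAbs)
        (fun j => (g (V (j, 0))).natAbs) (fun j h1 h2 => by
          rw [v3 j 0 (c34 j 0 (Or.inl ⟨(m3 j).2 ⟨h1, h2⟩, Or.inl rfl⟩)) h2, if_pos rfl])
      have y3 := ev_77 (z1 + z2 + l1) l2 L2 hl2 0 (fun z => z.1.natAbs)
        (fun j => (g (V (j, 0))).natAbs) (fun j h1 h2 => by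
          rw [v4 j 0 (c34 j 0 (Or.inr ⟨(m4 j).2 ⟨h1, h2⟩, by omega⟩)) h1, if_pos rfl])
      have y4 := ev_77 (z1 + z2 + l1) l2 L2 hl2 0 (fun z => z.2.natAbs)
        (fun j => (g (V (j, 3))).natAbs) (fun j h1 h2 => by
          rw [v4 j 3 (c34 j 3 (Or.inr ⟨(m4 j).2 ⟨h1, h2⟩, by omega⟩)) h1, if_neg (by omega)])
      rw [vm_77] at y0 y3 y4
      rw [← y0, ← y3, ← y4]
      rcases he with rfl | rfl
      · simp only [show ¬ (1 = 2) by omega, if_false]
        simp only [sum_singleton, mem_singleton, show ¬ (0 = 3) by omega, not_false_eq_true,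
          sum_insert, sum_add_distrib, add_zero]
        rw [← hI3, ← hI4]
        abel
      · have y1 := ev_77 (z1 + z2) l1 L1 hl1 0 (fun z => z.2.natAbs)
          (fun j => (g (V (j, 2))).natAbs) (fun j h1 h2 => by
            rw [v3 j 2 (c34 j 2 (Or.inl ⟨(m3 j).2 ⟨h1, h2⟩, Or.inr (Or.inr ⟨rfl, rfl⟩)⟩)) h2,
              if_neg (by omega)])
        rw [vm_77] at y1
        simp only [if_true]
        rw [← y1]
        simp only [sum_singleton, mem_singleton, show ¬ (0 = 3) by omega, show ¬ (0 = 2) by omega,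
          not_false_eq_true, sum_insert, sum_add_distrib]
        rw [← hI3, ← hI4]
        abel
    · rw [disjoint_left]
      intro k h1 h2
      exact disjoint_left.1 d34 (mem_product.1 h1).1 (mem_product.1 h2).1
  · intro v hv
    obtain ⟨⟨j, t⟩, hk, rfl⟩ := mem_image.1 hv
    exact w34 j t (sC hk)
  · -- boundary of the demand sites
    intro v hv w hw hvw hwD
    obtain ⟨⟨j, t⟩, hk, rfl⟩ := mem_image.1 hv
    have hk' := hk
    rw [hK12, mem_KV_77, m1, m2] at hk'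
    have hjJ := (rA j t (u12 hk)).1
    rcases hk' with ⟨h1, h2⟩ | ⟨h1, h2⟩
    · rcases h2 with rfl | rfl | ⟨h2, rfl⟩
      · rw [v10 j h1, w10 j h1]
      · exfalso
        have h3 := (nb1_77 he hS hjJ hw).1 hvw
        apply hwD
        rcases h3 with h3 | ⟨h3, h4⟩
        · exact mem_image.2 ⟨(j, 0), by rw [hK12, mem_KV_77, m1]; exact Or.inl ⟨h1, Or.inl rfl⟩,
            h3.symm⟩
        · exact mem_image.2 ⟨(j, 2), by
            rw [hK12, mem_KV_77, m1]; exact Or.inl ⟨h1, Or.inr (Or.inr ⟨h3, rfl⟩)⟩, h4.symm⟩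
      · rw [v12 j h1 h2, w12 j h1 h2]
    · have hm : ∀ s, s < 4 → (j, s) ∈ K12 := fun s hs => by
        rw [hK12, mem_KV_77, m2]; exact Or.inr ⟨h1, hs⟩
      interval_cases t
      · rw [v20 j h1.1 h1.2, w20 j h1.1 h1.2]
      · exfalso
        have h3 := (nb1_77 he hS hjJ hw).1 hvw
        apply hwD
        rcases h3 with h3 | ⟨h3, h4⟩
        · exact mem_image.2 ⟨(j, 0), hm 0 (by omega), h3.symm⟩
        · exact mem_image.2 ⟨(j, 2), hm 2 (by omega), h4.symm⟩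
      · exfalso
        have h3 := (nb2_77 he hS hjJ hw).1 hvw
        apply hwD
        rcases h3 with h3 | ⟨h3, h4⟩
        · exact mem_image.2 ⟨(j, 3), hm 3 (by omega), h3.symm⟩
        · exact mem_image.2 ⟨(j, 1), hm 1 (by omega), h4.symm⟩
      · rw [v23 j h1.1 h1.2, w23 j h1.1 h1.2]
  · -- demand sites against the others
    intro v hv w hw hvw
    obtain ⟨⟨j, t⟩, hk, rfl⟩ := mem_image.1 hv
    rw [← image_union] at hw
    obtain ⟨⟨j', t'⟩, hk', rfl⟩ := mem_image.1 hw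
    have h1 : (j', t') ∈ K34 := by
      rcases mem_union.1 hk' with h | h
      · exact sC h
      · exact sF h
    have h2 := ((ad j t j' t' (u12 hk) (u34 h1)).1 hvw).1
    have h3 := (r12 j t hk).1.1
    have h4 := (r34 j' t' h1).1
    omega
  · -- the core is independent
    intro v hv w hw hvw
    obtain ⟨⟨j, t⟩, hk, rfl⟩ := mem_image.1 hv
    obtain ⟨⟨j', t'⟩, hk', rfl⟩ := mem_image.1 hw
    obtain ⟨h1, h2⟩ := (ad j t j' t' (uC hk) (uC hk')).1 hvw
    rw [mC, m3, m4] at hk hk'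
    unfold RR_77 at h2
    omega
  · -- neighbours of the flexible vertices
    intro v hv w hw hvw
    obtain ⟨⟨j, t⟩, hk, rfl⟩ := mem_image.1 hv
    have hjJ := (rA j t (uF hk)).1
    rw [mF] at hk
    have hm : ∀ s, (j, s) ∈ K34 → V (j, s) ∈ KC.image V ∪ KF.image V := by
      intro s hs
      rw [← image_union, union_comm, mu]
      exact mem_image_of_mem _ hs
    have h1 : t = 1 ∨ t = 2 := by
      rcases hk with ⟨-, h⟩ | ⟨-, h⟩
      · exact Or.inl h
      · exact h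
    rcases h1 with rfl | rfl
    · have h3 := (nb1_77 he hS hjJ hw).1 hvw
      rcases h3 with h3 | ⟨h3, h4⟩
      · have h5 := hm 0 (c34 j 0 (by
          rcases hk with ⟨h, -⟩ | ⟨h, -⟩
          · exact Or.inl ⟨h, Or.inl rfl⟩
          · exact Or.inr ⟨h, by omega⟩))
        rw [h3]
        exact h5
      · have h5 := hm 2 (c34 j 2 (by
          rcases hk with ⟨h, -⟩ | ⟨h, -⟩
          · exact Or.inl ⟨h, Or.inr (Or.inr ⟨h3, rfl⟩)⟩
          · exact Or.inr ⟨h, by omega⟩))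
        rw [h4]
        exact h5
    · have h6 : j ∈ I4 := by
        rcases hk with ⟨-, h⟩ | ⟨h, -⟩
        · omega
        · exact h
      have h3 := (nb2_77 he hS hjJ hw).1 hvw
      rcases h3 with h3 | ⟨h3, h4⟩
      · have h5 := hm 3 (c34 j 3 (Or.inr ⟨h6, by omega⟩))
        rw [h3]
        exact h5
      · have h5 := hm 1 (c34 j 1 (Or.inr ⟨h6, by omega⟩))
        rw [h4]
        exact h5
  · -- the absorbers
    rintro L S ⟨A, C, hA, hC, hoA, hoC, hlb, hsm⟩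
    have hAl : A.length = l1 := by rw [← hl1, ← hA, List.length_map]
    have hCl' : C.length = l2 := by rw [← hl2, ← hC, List.length_map]
    have hLA : ∀ i, L1.getD i 0 = ((A.getD i 0).1, (A.getD i 0).2.1) := by
      intro i
      rw [← hA]
      exact List.getD_map (f := fun z : ℤ × ℤ × ℤ => (z.1, z.2.1)) (d := 0) ..
    have hLC : ∀ i, L2.getD i 0 = ((C.getD i 0).1, (C.getD i 0).2.1) := by
      intro i
      rw [← hC]
      exact List.getD_map (f := fun z : ℤ × ℤ × ℤ × ℤ => (z.1, z.2.1)) (d := 0) ..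
    set G' : ℕ × ℕ → ℤ := fun k =>
      if k.1 < z1 + z2 + l1 then (A.getD (k.1 - (z1 + z2)) 0).2.2
      else if k.2 = 1 then (C.getD (k.1 - (z1 + z2 + l1)) 0).2.2.1
      else (C.getD (k.1 - (z1 + z2 + l1)) 0).2.2.2 with hG'
    obtain ⟨g', hg1, hg2⟩ := lift_77 KF V (fun k hk k' hk' h => hVinj k (uF hk) k' (uF hk') h) G' g
    have q3 : ∀ j, z1 + z2 ≤ j → j < z1 + z2 + l1 →
        g' (V (j, 1)) = (A.getD (j - (z1 + z2)) 0).2.2 := by
      intro j h1 h2
      rw [hg1 _ ((mF j 1).2 (Or.inl ⟨(m3 j).2 ⟨h1, h2⟩, rfl⟩)), hG']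
      simp only [h2, if_true]
    have q4 : ∀ j, z1 + z2 + l1 ≤ j → j < z1 + z2 + l1 + l2 →
        g' (V (j, 1)) = (C.getD (j - (z1 + z2 + l1)) 0).2.2.1 := by
      intro j h1 h2
      rw [hg1 _ ((mF j 1).2 (Or.inr ⟨(m4 j).2 ⟨h1, h2⟩, Or.inl rfl⟩)), hG']
      simp only [not_lt.2 h1, if_false, if_true]
    have q5 : ∀ j, z1 + z2 + l1 ≤ j → j < z1 + z2 + l1 + l2 →
        g' (V (j, 2)) = (C.getD (j - (z1 + z2 + l1)) 0).2.2.2 := by
      intro j h1 h2
      rw [hg1 _ ((mF j 2).2 (Or.inr ⟨(m4 j).2 ⟨h1, h2⟩, Or.inr rfl⟩)), hG']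
      simp only [not_lt.2 h1, if_false, show ¬ (2 = 1) by omega]
    have qC : ∀ k ∈ KC, g' (V k) = g (V k) := by
      intro k hk
      apply hg2
      intro h
      obtain ⟨k', hk', h3⟩ := mem_image.1 h
      have h4 := hVinj _ (uF hk') _ (uC hk) h3
      subst h4
      exact disjoint_left.1 dCF hk hk'
    have q30 : ∀ j, z1 + z2 ≤ j → j < z1 + z2 + l1 →
        g' (V (j, 0)) = (A.getD (j - (z1 + z2)) 0).1 := by
      intro j h1 h2
      have hk : (j, 0) ∈ KC := (mC j 0).2 (Or.inl ⟨(m3 j).2 ⟨h1, h2⟩, Or.inl rfl⟩)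
      rw [qC _ hk, v3 j 0 (sC hk) h2, if_pos rfl, hLA]
    have q32 : ∀ j, z1 + z2 ≤ j → j < z1 + z2 + l1 → e = 2 →
        g' (V (j, 2)) = (A.getD (j - (z1 + z2)) 0).2.1 := by
      intro j h1 h2 h3
      have hk : (j, 2) ∈ KC := (mC j 2).2 (Or.inl ⟨(m3 j).2 ⟨h1, h2⟩, Or.inr ⟨h3, rfl⟩⟩)
      rw [qC _ hk, v3 j 2 (sC hk) h2, if_neg (by omega), hLA]
    have q40 : ∀ j, z1 + z2 + l1 ≤ j → j < z1 + z2 + l1 + l2 →
        g' (V (j, 0)) = (C.getD (j - (z1 + z2 + l1)) 0).1 := by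
      intro j h1 h2
      have hk : (j, 0) ∈ KC := (mC j 0).2 (Or.inr ⟨(m4 j).2 ⟨h1, h2⟩, Or.inl rfl⟩)
      rw [qC _ hk, v4 j 0 (sC hk) h1, if_pos rfl, hLC]
    have q43 : ∀ j, z1 + z2 + l1 ≤ j → j < z1 + z2 + l1 + l2 →
        g' (V (j, 3)) = (C.getD (j - (z1 + z2 + l1)) 0).2.1 := by
      intro j h1 h2
      have hk : (j, 3) ∈ KC := (mC j 3).2 (Or.inr ⟨(m4 j).2 ⟨h1, h2⟩, Or.inr rfl⟩)
      rw [qC _ hk, v4 j 3 (sC hk) h1, if_neg (by omega), hLC]
    have gA : ∀ i, i < l1 → A.getD i 0 ∈ A := by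
      intro i hi
      rw [← hAl] at hi
      rw [List.getD_eq_getElem _ _ hi]
      exact List.getElem_mem hi
    have gC : ∀ i, i < l2 → C.getD i 0 ∈ C := by
      intro i hi
      rw [← hCl'] at hi
      rw [List.getD_eq_getElem _ _ hi]
      exact List.getElem_mem hi
    refine ⟨g', hg2, ?_, ?_, ?_⟩
    · intro v hv
      obtain ⟨⟨j, t⟩, hk, rfl⟩ := mem_image.1 hv
      rw [mF, m3, m4] at hk
      rcases hk with ⟨h1, rfl⟩ | ⟨h1, rfl | rfl⟩
      · rw [q3 j h1.1 h1.2]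
        exact hoA _ (gA _ (by omega))
      · rw [q4 j h1.1 h1.2]
        exact (hoC _ (gC _ (by omega))).1
      · rw [q5 j h1.1 h1.2]
        exact (hoC _ (gC _ (by omega))).2
    · rw [← hlb, imap _ _ uF, hKF, vm_77, sum_union]
      · unfold lbls
        have x1 : ∀ (A B : Finset ℕ) (F : ℕ × ℕ → Multiset ℕ),
            ∑ k ∈ A ×ˢ B, F k = ∑ j ∈ A, ∑ t ∈ B, F (j, t) := fun A B F => sum_product A B F
        rw [x1, x1]
        have y0 := ev_77 (z1 + z2) l1 A hAl 0 (fun z => z.2.2.natAbs)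
          (fun j => (g' (V (j, 1))).natAbs) (fun j h1 h2 => by rw [q3 j h1 h2])
        have y3 := ev_77 (z1 + z2 + l1) l2 C hCl' 0 (fun z => z.2.2.1.natAbs)
          (fun j => (g' (V (j, 1))).natAbs) (fun j h1 h2 => by rw [q4 j h1 h2])
        have y4 := ev_77 (z1 + z2 + l1) l2 C hCl' 0 (fun z => z.2.2.2.natAbs)
          (fun j => (g' (V (j, 2))).natAbs) (fun j h1 h2 => by rw [q5 j h1 h2])
        rw [vm_77] at y0 y3 y4
        rw [← y0, ← y3, ← y4]
        simp only [sum_singleton, mem_singleton, show ¬ (1 = 2) by omega, not_false_eq_true,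
          sum_insert, sum_add_distrib]
        rw [← hI3, ← hI4]
        abel
      · rw [disjoint_left]
        intro k h1 h2
        exact disjoint_left.1 d34 (mem_product.1 h1).1 (mem_product.1 h2).1
    · have hE : EdT p (KF.image V) (KC.image V) = EdI p (K34.image V) := by
        unfold EdT
        rw [← image_union, mu]
        apply filter_true_of_mem
        intro i hi
        unfold EdI at hi
        rw [mem_filter] at hi
        obtain ⟨h1, h2, h3⟩ := hi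
        by_contra h4
        push_neg at h4
        have h5 : ∀ v ∈ K34.image V, v ∉ KF.image V → v ∈ KC.image V := by
          intro v hv hv'
          rw [← mu, image_union] at hv
          exact (mem_union.1 hv).resolve_left hv'
        obtain ⟨⟨j, t⟩, hk, h6⟩ := mem_image.1 (h5 _ h1 h4.1)
        obtain ⟨⟨j', t'⟩, hk', h7⟩ := mem_image.1 (h5 _ h3 h4.2)
        have h8 : Ad p (V (j, t)) (V (j', t')) := by
          rw [h6, h7]
          exact Or.inl ⟨h2, rfl⟩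
        obtain ⟨h9, h10⟩ := (ad j t j' t' (uC hk) (uC hk')).1 h8
        rw [mC, m3, m4] at hk hk'
        unfold RR_77 at h10
        omega
      have e1 := edge_77 he hp hCl hS s3 s4 g' (fun x : ℤ => x.natAbs)
      rw [← hVdef] at e1
      rw [← hsm, hE, hK34, e1, map_KE_77 he d34]
      simp only [zero_add, Nat.reduceAdd]
      have a1 := ev_77 (z1 + z2) l1 A hAl 0 (fun z => (z.1 + z.2.2).natAbs)
          (fun j => (g' (V (j, 0)) + g' (V (j, 1))).natAbs)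
          (fun j h1 h2 => by rw [q30 j h1 h2, q3 j h1 h2])
      have a2 := ev_77 (z1 + z2 + l1) l2 C hCl' 0 (fun z => (z.1 + z.2.2.1).natAbs)
          (fun j => (g' (V (j, 0)) + g' (V (j, 1))).natAbs)
          (fun j h1 h2 => by rw [q40 j h1 h2, q4 j h1 h2])
      have a3 := ev_77 (z1 + z2 + l1) l2 C hCl' 0 (fun z => (z.2.1 + z.2.2.2).natAbs)
          (fun j => (g' (V (j, 2)) + g' (V (j, 3))).natAbs)
          (fun j h1 h2 => by rw [q43 j h1 h2, q5 j h1 h2, add_comm])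
      rw [← hI3] at a1
      rw [← hI4] at a2 a3
      rw [a1, a2, a3]
      unfold smms
      rcases he with rfl | rfl
      · simp only [show ¬ (1 = 2) by omega, if_false]
      · simp only [if_true]
        have b1 := ev_77 (z1 + z2) l1 A hAl 0 (fun z => (z.2.1 + z.2.2).natAbs)
            (fun j => (g' (V (j, 1)) + g' (V (j, 2))).natAbs)
            (fun j h1 h2 => by rw [q32 j h1 h2 rfl, q3 j h1 h2, add_comm])
        have b2 := ev_77 (z1 + z2 + l1) l2 C hCl' 0 (fun z => (z.2.2.1 + z.2.2.2).natAbs)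
            (fun j => (g' (V (j, 1)) + g' (V (j, 2))).natAbs)
            (fun j h1 h2 => by rw [q4 j h1 h2, q5 j h1 h2])
        rw [← hI3] at b1
        rw [← hI4] at b2
        rw [b1, b2]

end Pool.Agent.BD
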