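import Pool.Agent.Helper73.BD.A0

/-!
# BD-FC: the flexible sets and the Chinese remainder theorem

`q 0, .., q (D-1)`: moduli for the sums, `q D`, `q (D+1)`: moduli for the labels.

`crt_label`: enumerate `N` as `l_0, .., l_{k-1}`, `k ≤ D`; by the Chinese remainder theorem the conditions `u ≡ ρ` mod `2e`, `u ≡ 0` mod `q D`, `u ≡ -l_j` mod `q j` (and `u ≡ 0` mod `q j` for
`k ≤ j < D`) are equivalent to one condition modulo `M = 2 e ∏_{j ≤ D} q j`; the interval `[a, a']` contains at least `(a'-a)/M - 1` solutions.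
`crt_pair`: the conditions `y ≡ ρ` mod `2e`, `y ≡ 0` mod `q D`, `y ≡ s` mod `q (D+1)`.
`card_FXs`, `card_FSs`: the numbers of multiples of `q j` in `[1,n]` is at most `n / q j`.  (The lower bounds: the odd multiples of `q D` up to `9n/10`, the multiples of `2 e q 0` up to `n-1`.)
-/

set_option autoImplicit false

namespace Pool.Agent.BD

open Finset Pool.Agent.SEM

/-- moduli: odd, `> 1`, pairwise coprime -/
structure Mods (D : ℕ) (q : ℕ → ℕ) : Prop where
  odd : ∀ j, j < D + 2 → Odd (q j)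
  big : ∀ j, j < D + 2 → 3 ≤ q j
  cop : ∀ i j, i < D + 2 → j < D + 2 → i ≠ j → Nat.Coprime (q i) (q j)

/-- flexible label classes -/
def FXs (n D : ℕ) (q : ℕ → ℕ) : Finset ℕ := (LC n).filter fun x => 10 * x ≤ 9 * n ∧ (q D ∣ x ∨ q (D + 1) ∣ x)

/-- flexible sum classes -/
def FSs (n D e : ℕ) (q : ℕ → ℕ) : Finset ℕ := (SC n).filter fun s => 2 * e ∣ s ∧ ∃ j ∈ range D, q j ∣ s

/-- modulus of the candidate sets -/
def qM (D e : ℕ) (q : ℕ → ℕ) : ℕ := 2 * e * ∏ j ∈ range (D + 1), q j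

private theorem crt2_80 {m n : ℕ} (h : Nat.Coprime m n) (a b : ℤ) :
    ∃ x : ℤ, x ≡ a [ZMOD m] ∧ x ≡ b [ZMOD n] := by
  obtain ⟨u, v, huv⟩ := Nat.isCoprime_iff_coprime.2 h
  refine ⟨b * (u * m) + a * (v * n), ?_, ?_⟩
  · refine (Int.modEq_iff_dvd.2 ⟨(a - b) * u, ?_⟩)
    linear_combination (-a) * huv
  · refine (Int.modEq_iff_dvd.2 ⟨(b - a) * v, ?_⟩)
    linear_combination (-b) * huv

private theorem crt_80 {D e : ℕ} {q : ℕ → ℕ} (he : e = 1 ∨ e = 2) (hq : Mods D q) (c : ℕ → ℤ) (ρ : ℤ) :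
    ∀ m ≤ D + 2, ∃ x : ℤ, x ≡ ρ [ZMOD (2 * e : ℕ)] ∧ ∀ j < m, x ≡ c j [ZMOD (q j : ℕ)] := by
  intro m
  induction m with
  | zero => exact fun _ => ⟨ρ, Int.ModEq.refl _, fun j hj => absurd hj (Nat.not_lt_zero j)⟩
  | succ m ih =>
    intro hm
    obtain ⟨x, hx, hxj⟩ := ih (by omega)
    have hodd : Nat.Coprime 2 (q m) := (Nat.coprime_two_left).2 (hq.odd m (by omega))
    have h2e : Nat.Coprime (2 * e) (q m) := by
      rcases he with rfl | rfl
      · simpa using hodd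
      · exact Nat.Coprime.mul_left hodd hodd
    have hcop : Nat.Coprime (2 * e * ∏ j ∈ range m, q j) (q m) := by
      refine Nat.Coprime.mul_left h2e ?_
      refine Nat.Coprime.prod_left fun j hj => ?_
      rw [mem_range] at hj
      exact hq.cop j m (by omega) (by omega) (by omega)
    obtain ⟨y, hy1, hy2⟩ := crt2_80 hcop x (c m)
    refine ⟨y, ?_, fun j hj => ?_⟩
    · refine Int.ModEq.trans (hy1.of_dvd ?_) hx
      exact_mod_cast Dvd.intro _ rfl
    · rcases Nat.lt_succ_iff_lt_or_eq.1 hj with hj | rfl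
      · refine Int.ModEq.trans (hy1.of_dvd ?_) (hxj j hj)
        have h1 : q j ∣ ∏ j ∈ range m, q j := dvd_prod_of_mem q (mem_range.2 hj)
        exact_mod_cast h1.mul_left (2 * e)
      · exact hy2

private theorem cnt_80 (M : ℕ) (hM : 0 < M) (x a a' : ℤ) :
    (a' - a : ℤ) ≤ M * ((((Finset.Icc a a').filter fun u => u ≡ x [ZMOD M]).card : ℤ) + 1) := by
  by_contra hcon
  push Not at hcon
  obtain ⟨c, h1, h2, h3, h4⟩ := pick M hM x a a' ((Finset.Icc a a').filter fun u => u ≡ x [ZMOD M]) hcon.le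
  exact h4 (mem_filter.2 ⟨mem_Icc.2 ⟨h1, h2⟩, h3⟩)

private theorem mult_80 (n p : ℕ) (S : Finset ℕ) (hS : ∀ x ∈ S, (1 ≤ x ∧ x ≤ n) ∧ p ∣ x) : S.card ≤ n / p := by
  rw [← Nat.Ioc_filter_dvd_card_eq_div]
  refine card_le_card fun x hx => ?_
  have := hS x hx
  rw [mem_filter, mem_Ioc]
  exact ⟨⟨this.1.1, this.1.2⟩, this.2⟩

private theorem qpos_80 {D : ℕ} {q : ℕ → ℕ} (hq : Mods D q) {j : ℕ} (hj : j < D + 2) : 0 < q j :=
  lt_of_lt_of_le (by norm_num) (hq.big j hj)

theorem crt_label {D e : ℕ} {q : ℕ → ℕ} (he : e = 1 ∨ e = 2) (hq : Mods D q) (N : Finset ℤ) (hN : N.card ≤ D)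
    (ρ a a' : ℤ) :
    ∃ C : Finset ℤ, (a' - a : ℤ) ≤ qM D e q * ((C.card : ℤ) + 1) ∧
      ∀ u ∈ C, a ≤ u ∧ u ≤ a' ∧ u ≡ ρ [ZMOD (2 * e : ℕ)] ∧ (q D : ℤ) ∣ u ∧ ∀ l ∈ N, ∃ j ∈ range D, (q j : ℤ) ∣ u + l := by
  have hepos : 0 < e := by rcases he with rfl | rfl <;> norm_num
  classical
  set c : ℕ → ℤ := fun j => if h : j < N.card then -((N.equivFin.symm ⟨j, h⟩ : N) : ℤ) else 0 with hc
  obtain ⟨x, hx, hxj⟩ := crt_80 he hq c ρ (D + 1) (by omega)
  have hMpos : 0 < qM D e q := by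
    unfold qM
    refine Nat.mul_pos (by omega) (prod_pos fun j hj => qpos_80 hq ?_)
    have := mem_range.1 hj
    omega
  refine ⟨(Finset.Icc a a').filter fun u => u ≡ x [ZMOD (qM D e q : ℕ)], cnt_80 _ hMpos x a a', ?_⟩
  intro u hu
  rw [mem_filter, mem_Icc] at hu
  have hdv : ∀ j ≤ D, q j ∣ qM D e q := fun j hj => by
    unfold qM
    exact (dvd_prod_of_mem q (mem_range.2 (by omega))).mul_left _
  have hmod : ∀ j ≤ D, u ≡ c j [ZMOD (q j : ℕ)] := fun j hj =>
    (hu.2.of_dvd (by exact_mod_cast hdv j hj)).trans (hxj j (by omega))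
  refine ⟨hu.1.1, hu.1.2, ?_, ?_, ?_⟩
  · refine (hu.2.of_dvd ?_).trans hx
    have : 2 * e ∣ qM D e q := by
      unfold qM
      exact Dvd.intro _ rfl
    exact_mod_cast this
  · have h1 := hmod D le_rfl
    have h2 : c D = 0 := by
      simp only [hc]
      rw [dif_neg (by omega)]
    rw [h2] at h1
    exact (Int.modEq_zero_iff_dvd).1 h1
  · intro l hl
    set j := N.equivFin ⟨l, hl⟩ with hj
    refine ⟨j, mem_range.2 (lt_of_lt_of_le j.2 hN), ?_⟩
    have h1 := hmod j (by have := j.2; omega)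
    have h2 : c j = -l := by
      simp only [hc]
      rw [dif_pos j.2]
      simp [hj]
    rw [h2] at h1
    have h3 := h1.symm.dvd
    have e1 : u - -l = u + l := by ring
    rwa [e1] at h3

theorem crt_pair {D e : ℕ} {q : ℕ → ℕ} (he : e = 1 ∨ e = 2) (hq : Mods D q) (ρ s a a' : ℤ) :
    ∃ C : Finset ℤ, (a' - a : ℤ) ≤ 2 * e * q D * q (D + 1) * ((C.card : ℤ) + 1) ∧
      ∀ u ∈ C, a ≤ u ∧ u ≤ a' ∧ u ≡ ρ [ZMOD (2 * e : ℕ)] ∧ (q D : ℤ) ∣ u ∧ (q (D + 1) : ℤ) ∣ s - u := by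
  have hepos : 0 < e := by rcases he with rfl | rfl <;> norm_num
  set c : ℕ → ℤ := fun j => if j = D + 1 then s else 0 with hc
  obtain ⟨x, hx, hxj⟩ := crt_80 he hq c ρ (D + 2) le_rfl
  have hMpos : 0 < 2 * e * q D * q (D + 1) := by
    have h1 := qpos_80 hq (show D < D + 2 by omega)
    have h2 := qpos_80 hq (show D + 1 < D + 2 by omega)
    positivity
  have hcnt := cnt_80 _ hMpos x a a'
  push_cast at hcnt
  refine ⟨(Finset.Icc a a').filter fun u => u ≡ x [ZMOD (2 * e * q D * q (D + 1) : ℕ)], ?_, ?_⟩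
  · push_cast
    exact hcnt
  intro u hu
  rw [mem_filter, mem_Icc] at hu
  refine ⟨hu.1.1, hu.1.2, ?_, ?_, ?_⟩
  · refine (hu.2.of_dvd ?_).trans hx
    have : 2 * e ∣ 2 * e * q D * q (D + 1) := ⟨q D * q (D + 1), by ring⟩
    exact_mod_cast this
  · have h0 : q D ∣ 2 * e * q D * q (D + 1) := ⟨2 * e * q (D + 1), by ring⟩
    have h1 : u ≡ c D [ZMOD (q D : ℕ)] := (hu.2.of_dvd (by exact_mod_cast h0)).trans (hxj D (by omega))
    have h2 : c D = 0 := by simp [hc]
    rw [h2] at h1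
    exact (Int.modEq_zero_iff_dvd).1 h1
  · have h0 : q (D + 1) ∣ 2 * e * q D * q (D + 1) := Dvd.intro_left _ rfl
    have h1 : u ≡ c (D + 1) [ZMOD (q (D + 1) : ℕ)] :=
      (hu.2.of_dvd (by exact_mod_cast h0)).trans (hxj (D + 1) (by omega))
    have h2 : c (D + 1) = s := by simp [hc]
    rw [h2] at h1
    exact h1.dvd

theorem card_FXs {n D Qm : ℕ} {q : ℕ → ℕ} (hq : Mods D q) (hQ : ∀ j, j < D + 2 → Qm ≤ q j) (hQ0 : 0 < Qm) :
    Qm * (FXs n D q).card ≤ 2 * n ∧ 9 * n ≤ 20 * q D * ((FXs n D q).card + 2) := by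
  have hD0 := qpos_80 hq (show D < D + 2 by omega)
  have hD1 := qpos_80 hq (show D + 1 < D + 2 by omega)
  constructor
  · have h1 : FXs n D q ⊆ ((FXs n D q).filter fun x => q D ∣ x) ∪ ((FXs n D q).filter fun x => q (D + 1) ∣ x) := by
      intro x hx
      have hx' := hx
      unfold FXs at hx'
      rw [mem_filter] at hx'
      rw [mem_union, mem_filter, mem_filter]
      rcases hx'.2.2 with h | h
      · exact Or.inl ⟨hx, h⟩
      · exact Or.inr ⟨hx, h⟩
    have hin : ∀ x ∈ FXs n D q, 1 ≤ x ∧ x ≤ n := by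
      intro x hx
      unfold FXs at hx
      rw [mem_filter, mem_LC] at hx
      exact hx.1.1
    have h2 := mult_80 n (q D) ((FXs n D q).filter fun x => q D ∣ x) fun x hx =>
      ⟨hin x (mem_filter.1 hx).1, (mem_filter.1 hx).2⟩
    have h3 := mult_80 n (q (D + 1)) ((FXs n D q).filter fun x => q (D + 1) ∣ x) fun x hx =>
      ⟨hin x (mem_filter.1 hx).1, (mem_filter.1 hx).2⟩
    have h4 : n / q D ≤ n / Qm := Nat.div_le_div_left (hQ D (by omega)) hQ0
    have h5 : n / q (D + 1) ≤ n / Qm := Nat.div_le_div_left (hQ (D + 1) (by omega)) hQ0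
    have h6 : (FXs n D q).card ≤ n / Qm + n / Qm :=
      ((card_le_card h1).trans (card_union_le _ _)).trans (Nat.add_le_add (h2.trans h4) (h3.trans h5))
    have h7 : Qm * (n / Qm) ≤ n := Nat.mul_div_le n Qm
    nlinarith
  · set t := (9 * n / q D + 10) / 20 with ht
    have hsub : (range t).image (fun i => q D * (2 * i + 1)) ⊆ FXs n D q := by
      intro x hx
      rw [mem_image] at hx
      obtain ⟨i, hi, rfl⟩ := hx
      rw [mem_range] at hi
      have h1 : 20 * (i + 1) ≤ 9 * n / q D + 10 := by omega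
      have h2 : 10 * (2 * i + 1) ≤ 9 * n / q D := by omega
      have h3 : 10 * (2 * i + 1) * q D ≤ 9 * n := (Nat.le_div_iff_mul_le hD0).1 h2
      have h4 : 10 * (q D * (2 * i + 1)) ≤ 9 * n := by linarith
      unfold FXs
      rw [mem_filter, mem_LC]
      refine ⟨⟨⟨Nat.mul_pos hD0 (by omega), by omega⟩, ?_⟩, h4, Or.inl (Dvd.intro _ rfl)⟩
      exact (hq.odd D (by omega)).mul ⟨i, rfl⟩
    have hc := card_le_card hsub
    rw [card_image_of_injective _ (fun i j hij => by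
      have h1 := Nat.eq_of_mul_eq_mul_left hD0 hij
      omega), card_range] at hc
    have h5 : 9 * n / q D + 10 < 20 * (t + 1) := by omega
    have h6 : 9 * n < (9 * n / q D + 1) * q D := by
      have := Nat.lt_div_mul_add (a := 9 * n) hD0
      linarith
    have h7 : (9 * n / q D + 1) * q D ≤ (20 * ((FXs n D q).card + 2)) * q D :=
      Nat.mul_le_mul_right _ (by omega)
    have h8 : 20 * ((FXs n D q).card + 2) * q D = 20 * q D * ((FXs n D q).card + 2) := by ring
    omega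

theorem card_FSs {n D e Qm : ℕ} {q : ℕ → ℕ} (he : e = 1 ∨ e = 2) (hD : 1 ≤ D) (hq : Mods D q)
    (hQ : ∀ j, j < D + 2 → Qm ≤ q j) (hQ0 : 0 < Qm) :
    Qm * (FSs n D e q).card ≤ D * n ∧ n ≤ 2 * e * q 0 * ((FSs n D e q).card + 2) := by
  have hepos : 0 < e := by rcases he with rfl | rfl <;> norm_num
  have hq0 := qpos_80 hq (show 0 < D + 2 by omega)
  have hin : ∀ x ∈ FSs n D e q, 1 ≤ x ∧ x ≤ n - 1 := by
    intro x hx
    unfold FSs at hx
    rw [mem_filter, mem_SC] at hx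
    exact hx.1.1
  constructor
  · have h1 : FSs n D e q ⊆ (range D).biUnion fun j => (FSs n D e q).filter fun x => q j ∣ x := by
      intro x hx
      have hx' := hx
      unfold FSs at hx'
      rw [mem_filter] at hx'
      obtain ⟨j, hj, hd⟩ := hx'.2.2
      rw [mem_biUnion]
      exact ⟨j, hj, mem_filter.2 ⟨hx, hd⟩⟩
    have h2 : (FSs n D e q).card ≤ D * (n / Qm) := by
      refine (card_le_card h1).trans (card_biUnion_le.trans ?_)
      calc ∑ j ∈ range D, ((FSs n D e q).filter fun x => q j ∣ x).card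
          ≤ ∑ _j ∈ range D, n / Qm := by
            refine sum_le_sum fun j hj => ?_
            rw [mem_range] at hj
            refine (mult_80 n (q j) _ fun x hx => ⟨?_, (mem_filter.1 hx).2⟩).trans
              (Nat.div_le_div_left (hQ j (by omega)) hQ0)
            have := hin x (mem_filter.1 hx).1
            omega
        _ = D * (n / Qm) := by rw [sum_const, card_range, smul_eq_mul]
    have h7 : Qm * (n / Qm) ≤ n := Nat.mul_div_le n Qm
    calc Qm * (FSs n D e q).card ≤ Qm * (D * (n / Qm)) := Nat.mul_le_mul_left _ h2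
      _ = D * (Qm * (n / Qm)) := by ring
      _ ≤ D * n := Nat.mul_le_mul_left _ h7
  · have hP : 0 < 2 * e * q 0 := by positivity
    set t := (n - 1) / (2 * e * q 0) with ht
    have hsub : (range t).image (fun i => (2 * e * q 0) * (i + 1)) ⊆ FSs n D e q := by
      intro x hx
      rw [mem_image] at hx
      obtain ⟨i, hi, rfl⟩ := hx
      rw [mem_range] at hi
      have h3 : (i + 1) * (2 * e * q 0) ≤ n - 1 := (Nat.le_div_iff_mul_le hP).1 (by omega)
      have h4 : (2 * e * q 0) * (i + 1) ≤ n - 1 := by linarith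
      unfold FSs
      rw [mem_filter, mem_SC]
      refine ⟨⟨⟨Nat.mul_pos hP (by omega), h4⟩, ?_⟩, ⟨q 0 * (i + 1), by ring⟩, 0,
        mem_range.2 (by omega), ⟨2 * e * (i + 1), by ring⟩⟩
      exact ⟨e * q 0 * (i + 1), by ring⟩
    have hc := card_le_card hsub
    rw [card_image_of_injective _ (fun i j hij => by
      have h1 := Nat.eq_of_mul_eq_mul_left hP hij
      omega), card_range] at hc
    have h6 : n - 1 < (2 * e * q 0) * (t + 1) := by
      have := Nat.lt_div_mul_add (a := n - 1) hP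
      calc n - 1 < (n - 1) / (2 * e * q 0) * (2 * e * q 0) + 2 * e * q 0 := this
        _ = (2 * e * q 0) * (t + 1) := by rw [← ht]; ring
    have h7 : (2 * e * q 0) * (t + 1) ≤ (2 * e * q 0) * ((FSs n D e q).card + 2) :=
      Nat.mul_le_mul_left _ (by omega)
    omega

/-- suitable moduli exist -/
theorem mods_exist (D Qm : ℕ) : ∃ q : ℕ → ℕ, Mods D q ∧ ∀ j, j < D + 2 → Qm ≤ q j := by
  refine ⟨fun j => Nat.nth Nat.Prime (j + Qm + 1), ⟨fun j _ => ?_, fun j _ => ?_, fun i j _ _ hij => ?_⟩,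
    fun j _ => ?_⟩
  · have h1 := Nat.prime_nth_prime (j + Qm + 1)
    have h2 := Nat.add_two_le_nth_prime (j + Qm + 1)
    exact h1.odd_of_ne_two (by omega)
  · have h2 := Nat.add_two_le_nth_prime (j + Qm + 1)
    show 3 ≤ Nat.nth Nat.Prime (j + Qm + 1)
    omega
  · refine (Nat.coprime_primes (Nat.prime_nth_prime _) (Nat.prime_nth_prime _)).2 fun h => hij ?_
    have := Nat.nth_injective Nat.infinite_setOfPred_prime h
    omega
  · have h2 := Nat.add_two_le_nth_prime (j + Qm + 1)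
    show Qm ≤ Nat.nth Nat.Prime (j + Qm + 1)
    omega

end Pool.Agent.BD
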