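import Pool.Agent.Helper73.BD.ST
import Pool.Agent.Helper73.BD.FC

/-!
# BD-B0: small facts for the final assembly
-/

set_option autoImplicit false

namespace Pool.Agent.BD

open Finset Pool.Agent.SEM

theorem card_twin {n D : ℕ} {p ι : ℕ → ℕ} {E Bd Q : Finset ℕ} (hT : Twin n D p ι E Bd Q) :
    n = E.card + 2 * Q.card := by
  have h1 : Disjoint (E ∪ Q) (Q.image ι) := by
    rw [disjoint_left]
    intro v hv hv'
    obtain ⟨w, hw, rfl⟩ := mem_image.1 hv'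
    obtain ⟨_, h2, h3⟩ := hT.ιn w hw
    rcases mem_union.1 hv with h | h
    · exact h3 h
    · exact h2 h
  have h2 : n = (E ∪ Q ∪ Q.image ι).card := by
    rw [← hT.cov, card_range]
  rw [card_union_of_disjoint h1, card_union_of_disjoint hT.EQ, card_image_of_injOn hT.ιinj] at h2
  omega

theorem nbs_pos {n : ℕ} {p : ℕ → ℕ} (hp : Par n p) (hn : 2 ≤ n) {v : ℕ} (hv : v < n) : 1 ≤ (nbs n p v).card := by
  rw [Nat.one_le_iff_ne_zero, Ne, card_eq_zero, ← Ne, ← nonempty_iff_ne_empty]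
  rcases Nat.eq_zero_or_pos v with rfl | h
  · refine ⟨1, ?_⟩
    unfold nbs
    rw [mem_filter, mem_range]
    have := hp 1 (by omega) (by omega)
    exact ⟨by omega, Or.inr ⟨by omega, by omega⟩⟩
  · refine ⟨p v, ?_⟩
    unfold nbs
    rw [mem_filter, mem_range]
    have := hp v h hv
    exact ⟨by omega, Or.inl ⟨h, rfl⟩⟩

/-- the sum of the weights `#nbs - 1` -/
theorem weight1 {n D : ℕ} {p ι : ℕ → ℕ} {E Bd Q : Finset ℕ} (hT : Twin n D p ι E Bd Q) (hn : 0 < n) :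
    ∑ v ∈ E, (((nbs n p v).card : ℤ) - 1) = n - 2 - 2 * ∑ v ∈ Q, (((nbs n p v).card : ℤ) - 1) := by
  have h1 := weight_sum hT hn
  have h2 := card_twin hT
  rw [sum_sub_distrib, sum_sub_distrib, h1, sum_const, sum_const, nsmul_eq_mul, nsmul_eq_mul]
  have h3 : (n : ℤ) = E.card + 2 * Q.card := by exact_mod_cast h2
  rw [h3]
  ring

/-- the sum of the weights `#nbs - 2`, if all vertices of `Q` have two neighbours -/
theorem weight2 {n D : ℕ} {p ι : ℕ → ℕ} {E Bd Q : Finset ℕ} (hT : Twin n D p ι E Bd Q) (hn : 0 < n)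
    (h2 : ∀ v ∈ Q, (nbs n p v).card = 2) :
    ∑ v ∈ E, (((nbs n p v).card : ℤ) - 2) = -2 := by
  have h1 := weight_sum hT hn
  have h3 := card_twin hT
  have h4 : ∑ v ∈ Q, ((nbs n p v).card : ℤ) = 2 * Q.card := by
    rw [sum_congr rfl (fun v hv => by rw [h2 v hv]), sum_const, nsmul_eq_mul]
    push_cast
    ring
  rw [sum_sub_distrib, h1, sum_const, nsmul_eq_mul, h4]
  have h3 : (n : ℤ) = E.card + 2 * Q.card := by exact_mod_cast h3
  rw [h3]
  ring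

/-- parity condition for `e = 1` -/
theorem par1 {n D h : ℕ} {p ι : ℕ → ℕ} {E Bd Q : Finset ℕ} (hT : Twin n D p ι E Bd Q) (hn : 2 ≤ n)
    (hd : ∀ v, v < n → v ≠ 0 → (h : ℤ) ∣ ((nbs n p v).card : ℤ) - 1) (hdn : 2 * h ∣ n - 2) :
    (2 * (h : ℤ)) ∣ ∑ v ∈ E.erase 0, (((nbs n p v).card : ℤ) - 1) - (((nbs n p 0).card : ℤ) - 1) := by
  have h1 := weight1 hT (by omega)
  rw [← add_sum_erase E _ hT.zE] at h1
  have hdn' : (2 * (h : ℤ)) ∣ (n : ℤ) - 2 := by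
    have : ((2 * h : ℕ) : ℤ) ∣ ((n - 2 : ℕ) : ℤ) := Int.natCast_dvd_natCast.2 hdn
    rw [Nat.cast_sub hn] at this
    exact_mod_cast this
  have hhn : (h : ℤ) ∣ (n : ℤ) - 2 := (Dvd.intro_left _ rfl).trans hdn'
  have hQ : (h : ℤ) ∣ ∑ v ∈ Q, (((nbs n p v).card : ℤ) - 1) := by
    refine dvd_sum fun v hv => hd v (mem_range.1 (hT.Qn hv)) ?_
    rintro rfl
    exact disjoint_left.1 hT.EQ hT.zE hv
  have hE : (h : ℤ) ∣ ∑ v ∈ E.erase 0, (((nbs n p v).card : ℤ) - 1) := by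
    refine dvd_sum fun v hv => ?_
    rw [mem_erase] at hv
    exact hd v (mem_range.1 (hT.En hv.2)) hv.1
  have h0 : (h : ℤ) ∣ ((nbs n p 0).card : ℤ) - 1 := by
    have : ((nbs n p 0).card : ℤ) - 1 = (n - 2) - 2 * ∑ v ∈ Q, (((nbs n p v).card : ℤ) - 1) -
        ∑ v ∈ E.erase 0, (((nbs n p v).card : ℤ) - 1) := by linarith
    rw [this]
    exact dvd_sub (dvd_sub hhn (hQ.mul_left _)) hE
  have : ∑ v ∈ E.erase 0, (((nbs n p v).card : ℤ) - 1) - (((nbs n p 0).card : ℤ) - 1) =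
      (n - 2) - 2 * ∑ v ∈ Q, (((nbs n p v).card : ℤ) - 1) - 2 * (((nbs n p 0).card : ℤ) - 1) := by linarith
  rw [this]
  exact dvd_sub (dvd_sub hdn' (mul_dvd_mul_left 2 hQ)) (mul_dvd_mul_left 2 h0)

theorem one_notMem_FXs {n D : ℕ} {q : ℕ → ℕ} (hq : Mods D q) : 1 ∉ FXs n D q := by
  unfold FXs
  rw [mem_filter]
  rintro ⟨_, _, h | h⟩
  · have := hq.big D (by omega)
    have := Nat.le_of_dvd one_pos h
    omega
  · have := hq.big (D + 1) (by omega)
    have := Nat.le_of_dvd one_pos h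
    omega

end Pool.Agent.BD
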