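import Pool.Agent.Helper73.BD.HX

/-!
# BD-GC: labelling the generic vertices of the cluster

Proof in words.  `Q = QQ ..`, `A = E ∪ (Bd ∪ DS ∪ CO) ∪ ι(..)`, `G = Cl \ (DS ∪ CO ∪ Fl)`, `Λ = {v ∈ DS : F (ι v) = -F v} ∪ CO`.
`gext` for `W = G` and `Λ`, `AX = LC n \ (KL ∪ UX)`, `AS = SC n \ (KS ∪ US)`, `C0 w` = the `u` with `20 |u| ≤ n`, `u ≡ r w` modulo `2e`,
`Cd w N` = the elements `u` of `C0 w` with `|u| ∈ AX` and `|u + l| ∈ AS` for `l ∈ N`.
* the labels of `Λ`: `F` is injective on `A` and `F (ι v) = -F v` on `Λ` (`hCOb`), so the classes on `Λ` are different; they are in `KL`, so not in `AX`;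
* `hdeg`: `Twin.deg`;
* candidates: the labels `l` of labelled neighbours are odd, `|l| ≤ 9n/10` (or `≤ n/20`), so `u + l` is even, `|u + l| ≤ 19n/20 ≤ n - 1`; the number of `u` with `20|u| ≤ n`, `u ≡ r w` modulo `2e`, is at least
  `n/(20e) - 1`; exclude `2 |KL ∪ UX|` values, and for every `l` (at most `D` of them) at most `2 |KS ∪ US| + 1` values.  By `hcap` more than `2|Cl| + 2D²|Cl| + D²` remain.
Then `ext_half` for `A`, `G`, `Λ` (`g0 = F`): a neighbour `w ∈ A ∩ Q` of `v ∈ G` is not in `Bd` (`Dvs.aC`, `d1`, `d2`), if it is in `DS` then it is balanced (`hbal`, because `v ∉ DS`).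
The set `A ∪ G ∪ ι(G)` is `E ∪ (Bd ∪ (Cl \ Fl)) ∪ ι(..)`.
-/

set_option autoImplicit false

namespace Pool.Agent.BD

open Finset Pool.Agent.SEM

private lemma ad_symm_11 {p : ℕ → ℕ} {v w : ℕ} (h : Ad p v w) : Ad p w v := by
  unfold Ad at *; tauto

/-- the candidates -/
private noncomputable def C0_11 (n e : ℕ) (r : ℕ → ℤ) (w : ℕ) : Finset ℤ :=
  (Finset.Icc (-(n : ℤ)) n).filter fun u => 20 * |u| ≤ n ∧ u ≡ r w [ZMOD (2 * e : ℕ)]

private lemma mem_C0_11 {n e : ℕ} {r : ℕ → ℤ} {w : ℕ} {u : ℤ} :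
    u ∈ C0_11 n e r w ↔ 20 * |u| ≤ n ∧ u ≡ r w [ZMOD (2 * e : ℕ)] := by
  unfold C0_11
  rw [mem_filter, mem_Icc]
  constructor
  · exact fun h => h.2
  · intro h
    refine ⟨?_, h⟩
    have h1 := h.1
    have h2 := abs_nonneg u
    have h3 : |u| ≤ n := by linarith
    exact abs_le.1 h3

private lemma odd_of_C0_11 {n e : ℕ} {r : ℕ → ℤ} (hr : ∀ v, Odd (r v)) {w : ℕ} {u : ℤ}
    (h : u ∈ C0_11 n e r w) : Odd u := by
  have h1 := (mem_C0_11.1 h).2
  have h2 : (2 : ℤ) ∣ r w - u := by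
    refine dvd_trans ?_ h1.dvd
    exact ⟨(e : ℤ), by push_cast; ring⟩
  obtain ⟨k, hk⟩ := h2
  obtain ⟨l, hl⟩ := hr w
  exact ⟨l - k, by linarith⟩

private lemma card_pm_le_11 (C : Finset ℕ) : (pm C).card ≤ 2 * C.card := by
  unfold pm
  refine (card_union_le _ _).trans ?_
  have h1 := card_image_le (s := C) (f := fun x : ℕ => (x : ℤ))
  have h2 := card_image_le (s := C) (f := fun x : ℕ => -(x : ℤ))
  omega

private lemma count_11 {n D e : ℕ} (he : e = 1 ∨ e = 2) (hn2 : Even n) {KL KS UX US : Finset ℕ} {c : ℕ}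
    (r : ℕ → ℤ) (hr : ∀ v, Odd (r v))
    (hcap : 1000 * (D + 1) ^ 2 * (c + KL.card + KS.card + UX.card + US.card + 1) ≤ n) (w : ℕ)
    (N : Finset ℤ) (hN : N.card ≤ D) (hN2 : ∀ l ∈ N, Odd l ∧ 10 * |l| ≤ 9 * n) :
    2 * c + 2 * D ^ 2 * c + D ^ 2 + 1 ≤ ((C0_11 n e r w).filter fun u =>
      u.natAbs ∈ LC n \ (KL ∪ UX) ∧ ∀ l ∈ N, (u + l).natAbs ∈ SC n \ (KS ∪ US)).card := by
  classical
  set m0 := n / 80 - 1 with hm0
  set f : ℕ → ℤ := fun k => r w % ((2 * e : ℕ) : ℤ) + ((2 * e : ℕ) : ℤ) * k with hf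
  have he0 : (0 : ℤ) < ((2 * e : ℕ) : ℤ) := by rcases he with rfl | rfl <;> norm_num
  have he4 : ((2 * e : ℕ) : ℤ) ≤ 4 := by rcases he with rfl | rfl <;> norm_num
  have hr0 := Int.emod_nonneg (r w) he0.ne'
  have hr1 := Int.emod_lt_of_pos (r w) he0
  have hfinj : Function.Injective f := by
    intro a b hab
    simp only [hf] at hab
    have h1 : ((2 * e : ℕ) : ℤ) * (a : ℤ) = ((2 * e : ℕ) : ℤ) * b := by linarith
    have h2 := mul_left_cancel₀ he0.ne' h1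
    exact_mod_cast h2
  have hfC : ∀ k ∈ range m0, f k ∈ C0_11 n e r w := by
    intro k hk
    rw [mem_range] at hk
    rw [mem_C0_11]
    have hk1 : 80 * (k + 1) ≤ n := by omega
    have hk2 : 80 * ((k : ℤ) + 1) ≤ n := by exact_mod_cast hk1
    have h0 : 0 ≤ f k := by
      simp only [hf]
      have : 0 ≤ ((2 * e : ℕ) : ℤ) * (k : ℤ) := mul_nonneg he0.le (Int.natCast_nonneg _)
      linarith
    refine ⟨?_, ?_⟩
    · rw [abs_of_nonneg h0]
      simp only [hf]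
      have h1 : ((2 * e : ℕ) : ℤ) * (k : ℤ) ≤ 4 * k :=
        mul_le_mul_of_nonneg_right he4 (Int.natCast_nonneg _)
      linarith
    · simp only [hf]
      have h1 : r w % ((2 * e : ℕ) : ℤ) + ((2 * e : ℕ) : ℤ) * k ≡ r w % ((2 * e : ℕ) : ℤ) [ZMOD (2 * e : ℕ)] := by
        unfold Int.ModEq
        rw [Int.add_mul_emod_self_left]
      exact h1.trans (Int.mod_modEq _ _)
  set S0 : Finset ℤ := (range m0).image f with hS0
  have hS0c : S0.card = m0 := by rw [hS0, card_image_of_injective _ hfinj, card_range]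
  set B : Finset ℤ := pm (KL ∪ UX) ∪ N.biUnion (fun l => (pm (KS ∪ US) ∪ {0}).image fun s => s - l) with hB
  have hBc : B.card ≤ 2 * (KL.card + UX.card) + D * (2 * (KS.card + US.card) + 1) := by
    refine (card_union_le _ _).trans (Nat.add_le_add ?_ ?_)
    · refine (card_pm_le_11 _).trans ?_
      have := card_union_le KL UX
      omega
    · refine card_biUnion_le.trans ?_
      have h1 : ∀ l ∈ N, ((pm (KS ∪ US) ∪ {0}).image fun s => s - l).card ≤ 2 * (KS.card + US.card) + 1 := by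
        intro l _
        refine card_image_le.trans ((card_union_le _ _).trans ?_)
        have h2 := card_pm_le_11 (KS ∪ US)
        have h3 := card_union_le KS US
        rw [card_singleton]
        omega
      refine (sum_le_sum h1).trans ?_
      rw [sum_const, smul_eq_mul]
      exact Nat.mul_le_mul_right _ hN
  have hsub : S0 \ B ⊆ (C0_11 n e r w).filter fun u =>
      u.natAbs ∈ LC n \ (KL ∪ UX) ∧ ∀ l ∈ N, (u + l).natAbs ∈ SC n \ (KS ∪ US) := by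
    intro u hu
    rw [mem_sdiff, hB, mem_union, not_or, mem_pm] at hu
    obtain ⟨hu1, hu2, hu3⟩ := hu
    obtain ⟨k, hk, hku⟩ := mem_image.1 hu1
    have huC : u ∈ C0_11 n e r w := hku ▸ hfC k hk
    have hodd := odd_of_C0_11 hr huC
    have h20 := (mem_C0_11.1 huC).1
    rw [mem_filter]
    refine ⟨huC, ?_, ?_⟩
    · rw [mem_sdiff, mem_LC]
      refine ⟨⟨?_, ?_⟩, hu2⟩
      · have h1 : u ≠ 0 := by rintro rfl; exact absurd hodd (by decide)
        have h2 := Int.natAbs_pos.2 h1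
        have h3 : (20 : ℤ) * u.natAbs ≤ n := by rw [Int.natCast_natAbs]; exact h20
        have h4 : 20 * u.natAbs ≤ n := by exact_mod_cast h3
        omega
      · exact Int.natAbs_odd.2 hodd
    · intro l hl
      obtain ⟨hlo, hl10⟩ := hN2 l hl
      have hev : Even (u + l) := hodd.add_odd hlo
      have hne : u + l ∉ pm (KS ∪ US) ∪ {0} := by
        intro h1
        apply hu3
        rw [mem_biUnion]
        exact ⟨l, hl, mem_image.2 ⟨u + l, h1, by ring⟩⟩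
      rw [mem_union, not_or, mem_pm, mem_singleton] at hne
      rw [mem_sdiff, mem_SC]
      refine ⟨⟨?_, ?_⟩, hne.1⟩
      · have h2 := Int.natAbs_pos.2 hne.2
        have h3 : |u + l| ≤ |u| + |l| := abs_add_le u l
        have h4 : (20 : ℤ) * (u + l).natAbs ≤ 19 * n := by rw [Int.natCast_natAbs]; linarith
        have h5 : 20 * (u + l).natAbs ≤ 19 * n := by exact_mod_cast h4
        omega
      · exact Int.natAbs_even.2 hev
  have h1 := card_le_card hsub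
  have h2 := le_card_sdiff B S0
  rw [hS0c] at h2
  have h3 : 2 * c + 2 * D ^ 2 * c + D ^ 2 + 1 + (2 * (KL.card + UX.card) + D * (2 * (KS.card + US.card) + 1)) ≤ m0 := by
    set S := c + KL.card + KS.card + UX.card + US.card with hS
    have h4 : 2 * c + 2 * D ^ 2 * c + D ^ 2 + 1 + (2 * (KL.card + UX.card) + D * (2 * (KS.card + US.card) + 1)) + 1
        ≤ 4 * ((D + 1) ^ 2 * (S + 1)) := by
      have hc : c ≤ S := by omega
      have hk : KL.card + UX.card ≤ S := by omega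
      have hks : KS.card + US.card ≤ S := by omega
      have e1 : 2 * D ^ 2 * c ≤ 2 * D ^ 2 * S := Nat.mul_le_mul_left _ hc
      have e2 : D * (2 * (KS.card + US.card) + 1) ≤ D * (2 * S + 1) := Nat.mul_le_mul_left _ (by omega)
      have e3 : 4 * ((D + 1) ^ 2 * (S + 1)) = 4 * D ^ 2 * S + 4 * D ^ 2 + 8 * D * S + 8 * D + 4 * S + 4 := by ring
      have e4 : D * (2 * S + 1) = 2 * D * S + D := by ring
      rw [e3]
      have e5 : 0 ≤ D ^ 2 * S := Nat.zero_le _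
      have e6 : 0 ≤ D * S := Nat.zero_le _
      nlinarith
    have h5 : 1000 * ((D + 1) ^ 2 * (S + 1)) ≤ n := by rw [← mul_assoc]; exact hcap
    have h6 : 4 * ((D + 1) ^ 2 * (S + 1)) ≤ n / 80 := by
      rw [Nat.le_div_iff_mul_le (by norm_num)]
      omega
    omega
  omega

theorem cluster {n D K e : ℕ} {p ι : ℕ → ℕ} {E Bd CN Cl Rs Mn T : Finset ℕ} {P En : ℕ → Finset ℕ} (he : e = 1 ∨ e = 2)
    (hn2 : Even n) (hT : Twin n D p ι E Bd (QQ Bd CN Cl Rs Mn)) (hdv : Dvs n D K p Bd CN Cl Rs Mn T P En)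
    {DS CO Fl : Finset ℕ} (hDS : DS ⊆ Cl) (hCO : CO ⊆ Cl) (hFl : Fl ⊆ Cl) (d1 : Disjoint DS CO) (d2 : Disjoint (DS ∪ CO) Fl)
    {F : ℕ → ℤ} {KL KS UX US : Finset ℕ} (h : LS n p (E ∪ (Bd ∪ DS ∪ CO) ∪ (Bd ∪ DS ∪ CO).image ι) F KL KS)
    (hbal : ∀ v ∈ DS, ∀ w, w < n → Ad p v w → w ∉ DS → F (ι v) = -F v) (hCOb : ∀ v ∈ CO, F (ι v) = -F v)
    (hna : ∀ v ∈ DS, ∀ w ∈ CO ∪ Fl, ¬ Ad p v w) (hna2 : ∀ v ∈ CO, ∀ w ∈ CO, ¬ Ad p v w)
    (hFln : ∀ v ∈ Fl, ∀ w, w < n → Ad p v w → w ∈ CO ∪ Fl)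
    (hb : ∀ v ∈ DS ∪ CO, 10 * |F v| ≤ 9 * n) (r : ℕ → ℤ) (hr : ∀ v, Odd (r v))
    (hKU : Disjoint KL UX) (hSU : Disjoint KS US)
    (hcap : 1000 * (D + 1) ^ 2 * (Cl.card + KL.card + KS.card + UX.card + US.card + 1) ≤ n) :
    ∃ (F' : ℕ → ℤ) (KL' KS' : Finset ℕ), (∀ v ∈ E ∪ (Bd ∪ DS ∪ CO) ∪ (Bd ∪ DS ∪ CO).image ι, F' v = F v) ∧
      (∀ v ∈ Cl \ (DS ∪ CO ∪ Fl), F' (ι v) = -F' v ∧ 20 * |F' v| ≤ n ∧ F' v ≡ r v [ZMOD (2 * e : ℕ)]) ∧
      LS n p (E ∪ (Bd ∪ (Cl \ Fl)) ∪ (Bd ∪ (Cl \ Fl)).image ι) F' KL' KS' ∧ Disjoint KL' UX ∧ Disjoint KS' US := by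
  classical
  set Q := QQ Bd CN Cl Rs Mn with hQ
  set D0 := Bd ∪ DS ∪ CO with hD0
  set A := E ∪ D0 ∪ D0.image ι with hA
  set G := Cl \ (DS ∪ CO ∪ Fl) with hG
  set Λ := (DS.filter fun v => F (ι v) = -F v) ∪ CO with hΛ
  have hClQ : Cl ⊆ Q := by
    intro v hv
    rw [hQ]; unfold QQ
    simp only [mem_union]; tauto
  have hD0Q : D0 ⊆ Q := by
    intro v hv
    rw [hD0, mem_union, mem_union] at hv
    rcases hv with (hv | hv) | hv
    · exact hT.BdQ hv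
    · exact hClQ (hDS hv)
    · exact hClQ (hCO hv)
  have hGCl : G ⊆ Cl := sdiff_subset
  have hGQ : G ⊆ Q := hGCl.trans hClQ
  have hΛ0 : ∀ v ∈ Λ, v ∈ DS ∪ CO ∧ F (ι v) = -F v := by
    intro v hv
    rw [hΛ, mem_union, mem_filter] at hv
    rcases hv with hv | hv
    · exact ⟨mem_union_left _ hv.1, hv.2⟩
    · exact ⟨mem_union_right _ hv, hCOb v hv⟩
  have hΛD0 : ∀ v ∈ Λ, v ∈ D0 := by
    intro v hv
    have := (hΛ0 v hv).1
    rw [hD0]
    simp only [mem_union] at this ⊢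
    tauto
  have hΛQ : ∀ v ∈ Λ, v ∈ Q := fun v hv => hD0Q (hΛD0 v hv)
  have hD0A : ∀ v ∈ D0, v ∈ A ∧ ι v ∈ A := by
    intro v hv
    rw [hA]
    exact ⟨mem_union_left _ (mem_union_right _ hv), mem_union_right _ (mem_image_of_mem _ hv)⟩
  have hQA : ∀ v ∈ Q, v ∈ A → v ∈ D0 := by
    intro v hv hvA
    rw [hA, mem_union, mem_union] at hvA
    rcases hvA with (h1 | h1) | h1
    · exact absurd hv (disjoint_left.1 hT.EQ h1)
    · exact h1
    · obtain ⟨x, hx, rfl⟩ := mem_image.1 h1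
      exact absurd hv (hT.ιn x (hD0Q hx)).2.1
  have hQι : ∀ v ∈ Q, ι v ∈ A → v ∈ D0 := by
    intro v hv hvA
    rw [hA, mem_union, mem_union] at hvA
    rcases hvA with (h1 | h1) | h1
    · exact absurd h1 (hT.ιn v hv).2.2
    · exact absurd (hD0Q h1) (hT.ιn v hv).2.1
    · obtain ⟨x, hx, hxv⟩ := mem_image.1 h1
      have := hT.ιinj (hD0Q hx) hv hxv
      rw [← this]; exact hx
  have hBdCl : ∀ v ∈ Bd, v ∉ Cl := fun v hv hv' => disjoint_left.1 hdv.d2 (mem_union_left _ hv) hv'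
  have hGD0 : ∀ v ∈ G, v ∉ D0 := by
    intro v hv hv'
    rw [hG, mem_sdiff] at hv
    rw [hD0, mem_union, mem_union] at hv'
    rcases hv' with (h1 | h1) | h1
    · exact hBdCl v h1 hv.1
    · exact hv.2 (mem_union_left _ (mem_union_left _ h1))
    · exact hv.2 (mem_union_left _ (mem_union_right _ h1))
  have hGA : ∀ v ∈ G, v ∉ A := fun v hv hv' => hGD0 v hv (hQA v (hGQ hv) hv')
  have hdisj : Disjoint G Λ := by
    rw [disjoint_left]
    exact fun v hv hv' => hGD0 v hv (hΛD0 v hv')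
  have hGΛQ : G ∪ Λ ⊆ Q := union_subset hGQ hΛQ
  obtain ⟨g, hg1, hg2, hg3, hg4, hg5⟩ := gext (D := D)
    (M := 2 * Cl.card + 2 * D ^ 2 * Cl.card + D ^ 2 + 1) (p := p) (W := G) (Λ := Λ)
    (fun i hi h0 => hT.par i h0 (mem_range.1 (hT.Qn (hGΛQ hi)))) hdisj F
    (fun w hw => (card_le_card (filter_subset_filter _ hGΛQ)).trans (hT.deg w (hGQ hw)))
    (AX := LC n \ (KL ∪ UX)) (AS := SC n \ (KS ∪ US))
    (by
      intro v hv v' hv' hvv
      have hv := mem_coe.1 hv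
      have hv' := mem_coe.1 hv'
      have hvv' : (F v).natAbs = (F v').natAbs := hvv
      rcases Int.natAbs_eq_natAbs_iff.1 hvv' with h1 | h1
      · exact h.inj (mem_coe.2 (hD0A v (hΛD0 v hv)).1) (mem_coe.2 (hD0A v' (hΛD0 v' hv')).1) h1
      · rw [← (hΛ0 v' hv').2] at h1
        have h2 := h.inj (mem_coe.2 (hD0A v (hΛD0 v hv)).1) (mem_coe.2 (hD0A v' (hΛD0 v' hv')).2) h1
        exact absurd (h2 ▸ hΛQ v hv) (hT.ιn v' (hΛQ v' hv')).2.1)
    (by
      intro v hv hX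
      rw [mem_sdiff, mem_union] at hX
      exact hX.2 (Or.inl (h.cls v (hD0A v (hΛD0 v hv)).1)))
    (fun w N => (C0_11 n e r w).filter fun u =>
      u.natAbs ∈ LC n \ (KL ∪ UX) ∧ ∀ l ∈ N, (u + l).natAbs ∈ SC n \ (KS ∪ US))
    (C0_11 n e r)
    (by
      intro w hw N hN hNl
      refine ⟨count_11 he hn2 r hr hcap w N hN ?_, ?_⟩
      · intro l hl
        obtain ⟨v, _, hv⟩ := hNl l hl
        rcases hv with ⟨hv, rfl⟩ | ⟨hv, hlv⟩
        · exact ⟨(mem_Lab.1 (h.lab v (hD0A v (hΛD0 v hv)).1)).2, hb v (hΛ0 v hv).1⟩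
        · refine ⟨odd_of_C0_11 hr hlv, ?_⟩
          have h1 := (mem_C0_11.1 hlv).1
          have h2 := abs_nonneg l
          have h3 : (0 : ℤ) ≤ n := Int.natCast_nonneg _
          linarith
      · intro u hu
        exact mem_filter.1 hu)
    (by
      have h1 : G.card ≤ Cl.card := card_le_card hGCl
      have h2 : 2 * D ^ 2 * G.card ≤ 2 * D ^ 2 * Cl.card := Nat.mul_le_mul_left _ h1
      omega)
  have hAn : A ⊆ range n := by
    intro v hv
    rw [hA, mem_union, mem_union] at hv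
    rcases hv with (h1 | h1) | h1
    · exact hT.En h1
    · exact hT.Qn (hD0Q h1)
    · obtain ⟨x, hx, rfl⟩ := mem_image.1 h1
      exact mem_range.2 (hT.ιn x (hD0Q hx)).1
  obtain ⟨F', hF1, hF2, hLS⟩ := ext_half hT (A := A) (G := G) (F := F) (g := g) h hAn
    (fun w hw => ⟨fun hwA => (hD0A w (hQA w hw hwA)).2, fun hwA => (hD0A w (hQι w hw hwA)).1⟩)
    hGQ (fun v hv hv' => hBdCl v hv' (hGCl hv)) hGA hg1
    (fun v hv => (mem_sdiff.1 (hg2 v hv).2).1)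
    (fun v hv hK => (mem_sdiff.1 (hg2 v hv).2).2 (mem_union_left _ hK))
    hg3 Λ (fun v hv => ⟨hΛQ v hv, (hD0A v (hΛD0 v hv)).1, (hΛ0 v hv).2⟩)
    (by
      intro v hv w hwA hwQ had
      have hw0 := hQA w hwQ hwA
      have hcl := hdv.aC v (hGCl hv) w hwQ had
      rw [hD0, mem_union, mem_union] at hw0
      rw [hΛ, mem_union, mem_filter]
      rcases hw0 with (h1 | h1) | h1
      · exfalso
        rcases mem_union.1 hcl with h2 | h2
        · exact hBdCl w h1 h2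
        · exact disjoint_left.1 hdv.d1 h1 h2
      · refine Or.inl ⟨h1, hbal w h1 v (mem_range.1 (hT.Qn (hGQ hv))) (ad_symm_11 had) ?_⟩
        intro h2
        rw [hG, mem_sdiff] at hv
        exact hv.2 (mem_union_left _ (mem_union_left _ h2))
      · exact Or.inr h1)
    (fun i hi => ⟨(mem_sdiff.1 (hg4 i hi)).1, fun hK => (mem_sdiff.1 (hg4 i hi)).2 (mem_union_left _ hK)⟩)
    hg5
  have hset : E ∪ (Bd ∪ (Cl \ Fl)) ∪ (Bd ∪ (Cl \ Fl)).image ι = A ∪ G ∪ G.image ι := by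
    have h1 : Bd ∪ (Cl \ Fl) = D0 ∪ G := by
      ext v
      rw [hD0, hG]
      simp only [mem_union, mem_sdiff]
      have e1 : v ∈ DS → v ∈ Cl := fun h => hDS h
      have e2 : v ∈ CO → v ∈ Cl := fun h => hCO h
      have e3 : v ∈ DS ∨ v ∈ CO → v ∉ Fl := fun h => disjoint_left.1 d2 (mem_union.2 h)
      tauto
    rw [h1, image_union, hA]
    ext v
    simp only [mem_union]
    tauto
  refine ⟨F', _, _, ?_, ?_, hset ▸ hLS, ?_, ?_⟩
  · intro v hv
    refine hF1 v (fun hG' => hGA v hG' hv) ?_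
    intro hG'
    obtain ⟨x, hx, rfl⟩ := mem_image.1 hG'
    exact hGD0 x hx (hQι x (hGQ hx) hv)
  · intro v hv
    obtain ⟨h1, h2⟩ := hF2 v hv
    rw [h2, h1]
    exact ⟨rfl, mem_C0_11.1 (hg2 v hv).1⟩
  · rw [disjoint_union_left]
    refine ⟨hKU, disjoint_left.2 ?_⟩
    intro x hx hx'
    obtain ⟨v, hv, rfl⟩ := mem_image.1 hx
    exact (mem_sdiff.1 (hg2 v hv).2).2 (mem_union_right _ hx')
  · rw [disjoint_union_left]
    refine ⟨hSU, disjoint_left.2 ?_⟩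
    intro x hx hx'
    obtain ⟨i, hi, rfl⟩ := mem_image.1 hx
    exact (mem_sdiff.1 (hg4 i hi)).2 (mem_union_right _ hx')

end Pool.Agent.BD
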