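import Pool.Agent.Helper73.BD.P1
import Pool.Agent.Helper73.BD.GC

/-!
# BD-P2: the state before the packing

Proof in words.  `phase0`, `phase01` (`b1 = 10^6 (D'+10)^5 M`), then `cluster` with `UX = FXs ∪ Lc`, `US = FSs ∪ Sc`.
Capacity of `cluster`: `2|KL| = |A|`, `2|KS| + 1 ≤ |A|`, `|A| ≤ |E| + 2|Bd| + 2|Cl| ≤ M + 2|Cl|`; `|Lc| ≤ |Fl| ≤ |Cl|`, `|Sc| ≤ |EdT p Fl CO| ≤ |Cl|` (see below), so the sum is `≤ 7|Cl| + 3M`, and
`1000 (D+1)² (7|Cl| + 3M + 1) ≤ n` by `hCl`, `hMn`.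
`Fd` = the `v ∈ DS` with `F (ι v) ≠ -F v`.  `Fdn`: if `v ∈ Fd` then `gb v ≠ -g v`, so every neighbour is in `DS` (`S0.e5`).
`Lcc`, `Scc`, `Flc`: choose `F' ⊆ FXs` with `a` elements and `G' ⊆ FSs` with `b` elements; `S0.abs` gives `Abs e L1 L2 (Lc ∪ F') (Sc ∪ G')`; `Abs.card`; `S0.ext` gives `|Fl| = |Lc ∪ F'|`, `|EdT p Fl CO| = |Sc ∪ G'|`; the unions
are disjoint (`Gd.LU`, `Gd.SU`).  `|EdT p Fl CO| ≤ |Fl ∪ CO| ≤ |Cl|`.
`ext`: replace the `g'` of `S0.ext` by `F` outside `Fl`; the two functions agree on `CO` (`F = g` on `CO`), so the sums of the edges in `EdT p Fl CO` are the same.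
A vertex of `Cl` that is none of the site vertices is not in `DS ∪ CO ∪ Fl` (`S0.st`), so it is one of the generic vertices of `cluster`.
-/

set_option autoImplicit false

namespace Pool.Agent.BD

open Finset Pool.Agent.SEM

/-- state before the packing -/
structure S1 (n D e a b : ℕ) (p ι q : ℕ → ℕ) (E Bd CN Cl Rs Mn Fl CO Fd : Finset ℕ) (L1 L2 : List (ℤ × ℤ))
    (Lc Sc KL KS : Finset ℕ) (F : ℕ → ℤ) : Prop where
  Fls : Fl ⊆ Cl
  COs : CO ⊆ Cl \ Fl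
  Fln : ∀ v ∈ Fl, ∀ w, w < n → Ad p v w → w ∈ CO ∪ Fl
  Flc : Fl.card = L1.length + 2 * L2.length
  Fds : Fd ⊆ Cl \ Fl
  Fdn : ∀ v ∈ Fd, ∀ w ∈ QQ Bd CN Cl Rs Mn, Ad p v w → w ∈ Cl \ Fl
  FdCO : Disjoint Fd CO
  ls : LS n p (E ∪ (Bd ∪ (Cl \ Fl)) ∪ (Bd ∪ (Cl \ Fl)).image ι) F KL KS
  bal : ∀ v ∈ Bd ∪ (Cl \ Fl), v ∉ Fd → F (ι v) = -F v
  bd : ∀ v ∈ Bd ∪ (Cl \ Fl), 20 * |F v| ≤ 18 * n
  KLd : Disjoint KL (FXs n D q ∪ Lc)
  KSd : Disjoint KS (FSs n D e q ∪ Sc)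
  Lcd : Lc ⊆ LC n ∧ Disjoint (FXs n D q) Lc
  Scd : Sc ⊆ SC n ∧ Disjoint (FSs n D e q) Sc
  Lcc : Lc.card + a = Fl.card
  Scc : Sc.card + b = (EdT p Fl CO).card
  abs : ∀ F' ⊆ FXs n D q, F'.card = a → ∀ G' ⊆ FSs n D e q, G'.card = b → Abs e L1 L2 (Lc ∪ F') (Sc ∪ G')
  ext : ∀ L S : Finset ℕ, Abs e L1 L2 L S → ∃ g' : ℕ → ℤ, (∀ v, v ∉ Fl → g' v = F v) ∧ (∀ v ∈ Fl, Odd (g' v)) ∧
        Fl.val.map (fun v => (g' v).natAbs) = L.val ∧
        (EdT p Fl CO).val.map (fun i => (g' i + g' (p i)).natAbs) = S.val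

private lemma cap_23 {n D D' M c : ℕ} (hDD : D ≤ D') (hM : 100 ≤ M)
    (hMn : 10 ^ 12 * (D' + 10) ^ 6 * M ≤ n) (hCl : 20000 * (D + 1) ^ 2 * c ≤ n) :
    1000 * (D + 1) ^ 2 * (5 * c + M + 1) ≤ n := by
  have h1 : (D + 1) ^ 2 ≤ (D' + 10) ^ 6 :=
    (Nat.pow_le_pow_left (by omega) 2).trans (Nat.pow_le_pow_right (by omega) (by norm_num))
  have h2 : 2000 * ((D + 1) ^ 2 * M) ≤ 2000 * ((D' + 10) ^ 6 * M) :=
    Nat.mul_le_mul_left _ (Nat.mul_le_mul_right _ h1)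
  have h3 : 1000 * (D + 1) ^ 2 * (5 * c + M + 1) =
      5000 * ((D + 1) ^ 2 * c) + 1000 * ((D + 1) ^ 2 * (M + 1)) := by ring
  have h4 : (D + 1) ^ 2 * (M + 1) ≤ (D + 1) ^ 2 * (2 * M) := Nat.mul_le_mul_left _ (by omega)
  have h5 : (D + 1) ^ 2 * (2 * M) = 2 * ((D + 1) ^ 2 * M) := by ring
  have h6 : 20000 * (D + 1) ^ 2 * c = 20000 * ((D + 1) ^ 2 * c) := by ring
  have h7 : 10 ^ 12 * (D' + 10) ^ 6 * M = 10 ^ 12 * ((D' + 10) ^ 6 * M) := by ring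
  rw [h3]
  rw [h6] at hCl
  rw [h7] at hMn
  set A := (D + 1) ^ 2 * c
  set B := (D + 1) ^ 2 * (M + 1)
  set C := (D + 1) ^ 2 * M
  set G := (D' + 10) ^ 6 * M
  omega

private lemma b1_23 {n D' M : ℕ} (hM : 100 ≤ M) (hMn : 10 ^ 12 * (D' + 10) ^ 6 * M ≤ n) :
    1000 * (10 ^ 6 * (D' + 10) ^ 5 * M) + 10 ≤ n := by
  have h0 : 1 ≤ (D' + 10) ^ 5 := Nat.one_le_pow _ _ (by omega)
  have h1 : 10 * ((D' + 10) ^ 5 * M) ≤ (D' + 10) ^ 6 * M := by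
    have : (D' + 10) ^ 6 * M = (D' + 10) * ((D' + 10) ^ 5 * M) := by ring
    rw [this]
    exact Nat.mul_le_mul_right _ (by omega)
  have h2 : M ≤ (D' + 10) ^ 5 * M := Nat.le_mul_of_pos_left _ h0
  have h3 : 1000 * (10 ^ 6 * (D' + 10) ^ 5 * M) = 10 ^ 9 * ((D' + 10) ^ 5 * M) := by ring
  have h4 : 10 ^ 12 * (D' + 10) ^ 6 * M = 10 ^ 12 * ((D' + 10) ^ 6 * M) := by ring
  rw [h3]
  rw [h4] at hMn
  set A := (D' + 10) ^ 5 * M
  set B := (D' + 10) ^ 6 * M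
  omega

private lemma fb_23 {n D' M : ℕ} (hMn : 10 ^ 12 * (D' + 10) ^ 6 * M ≤ n) :
    20 * (50 * ((D' : ℤ) + 1) ^ 2 * (1000 * ((D' : ℤ) + 10) ^ 3 * M)) ≤ 18 * n := by
  have h1 : (D' + 1) ^ 2 * (D' + 10) ^ 3 ≤ (D' + 10) ^ 6 := by
    calc (D' + 1) ^ 2 * (D' + 10) ^ 3 ≤ (D' + 10) ^ 2 * (D' + 10) ^ 3 :=
          Nat.mul_le_mul_right _ (Nat.pow_le_pow_left (by omega) 2)
      _ = (D' + 10) ^ 5 := by ring
      _ ≤ (D' + 10) ^ 6 := Nat.pow_le_pow_right (by omega) (by norm_num)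
  have h2 : 20 * (50 * (D' + 1) ^ 2 * (1000 * (D' + 10) ^ 3 * M)) ≤ 18 * n := by
    have h3 : 20 * (50 * (D' + 1) ^ 2 * (1000 * (D' + 10) ^ 3 * M)) =
        10 ^ 6 * ((D' + 1) ^ 2 * (D' + 10) ^ 3 * M) := by ring
    have h4 : (D' + 1) ^ 2 * (D' + 10) ^ 3 * M ≤ (D' + 10) ^ 6 * M := Nat.mul_le_mul_right _ h1
    have h5 : 10 ^ 12 * (D' + 10) ^ 6 * M = 10 ^ 12 * ((D' + 10) ^ 6 * M) := by ring
    rw [h3]
    rw [h5] at hMn
    set A := (D' + 1) ^ 2 * (D' + 10) ^ 3 * M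
    set B := (D' + 10) ^ 6 * M
    omega
  exact_mod_cast h2

private lemma EdT_card_23 {p : ℕ → ℕ} {Fl CO Cl : Finset ℕ} (h1 : Fl ⊆ Cl) (h2 : CO ⊆ Cl) :
    (EdT p Fl CO).card ≤ Cl.card := by
  refine (card_le_card ?_).trans (card_le_card (union_subset h1 h2))
  exact (filter_subset _ _).trans (filter_subset _ _)

theorem phase1 {n D D' K e J a b M : ℕ} {p ι q : ℕ → ℕ} {E Bd CN Cl Rs Mn T : Finset ℕ} {P En : ℕ → Finset ℕ}
    {sa sv sw sb : ℕ → ℕ} (he : e = 1 ∨ e = 2) (hn2 : Even n) (hDD : D ≤ D')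
    (hT : Twin n D p ι E Bd (QQ Bd CN Cl Rs Mn)) (hdv : Dvs n D K p Bd CN Cl Rs Mn T P En) (hSt : Sts n e J p Cl sa sv sw sb)
    (f : ℕ → ℤ) (hf : PLb p (FXs n D q) (FSs n D e q) (E ∪ Bd ∪ Bd.image ι) f)
    (hf0 : ∃ B1 ∈ EdI p (E ∪ Bd ∪ Bd.image ι), f B1 + f (p B1) = 0)
    (hfb : ∀ v ∈ E ∪ Bd ∪ Bd.image ι, |f v| ≤ 50 * (D' + 1) ^ 2 * (1000 * (D' + 10) ^ 3 * M))
    (hfι : ∀ v ∈ Bd, f (ι v) = -f v)
    (hbal : ∑ i ∈ EdI p (E ∪ Bd ∪ Bd.image ι), (f i + f (p i)) = e * ∑ v ∈ E ∪ Bd ∪ Bd.image ι, f v)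
    (hev : Even (E ∪ Bd ∪ Bd.image ι).card) (hod : Odd (EdI p (E ∪ Bd ∪ Bd.image ι)).card)
    (ha : 1 ≤ a) (hb : 1 ≤ b) (ha1 : a ≤ (FXs n D q).card) (hb1 : b ≤ (FSs n D e q).card)
    (ha2 : (FXs n D q).card ≤ 2 * a) (hb2 : (FSs n D e q).card ≤ 2 * b)
    (hM : (FXs n D q).card + (FSs n D e q).card + E.card + 2 * Bd.card + 100 ≤ M)
    (hMn : 10 ^ 12 * (D' + 10) ^ 6 * M ≤ n) (hMJ : 10 ^ 6 * M ≤ J) (hCl : 20000 * (D + 1) ^ 2 * Cl.card ≤ n)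
    (r : ℕ → ℤ) (hr : ∀ v, Odd (r v)) :
    ∃ (Fl CO Fd : Finset ℕ) (L1 L2 : List (ℤ × ℤ)) (Lc Sc KL KS : Finset ℕ) (F : ℕ → ℤ),
      S1 n D e a b p ι q E Bd CN Cl Rs Mn Fl CO Fd L1 L2 Lc Sc KL KS F ∧
      (∀ v ∈ E ∪ Bd ∪ Bd.image ι, F v = f v) ∧
      (∀ v ∈ Cl, (∀ j, j < J → v ≠ sa j ∧ v ≠ sv j ∧ v ≠ sw j ∧ v ≠ sb j) → v ∉ Fl ∧ F v ≡ r v [ZMOD (2 * e : ℕ)]) := by
  have hM100 : 100 ≤ M := by omega
  have hClQ : Cl ⊆ QQ Bd CN Cl Rs Mn := by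
    intro v hv
    unfold QQ
    exact mem_union_left _ (mem_union_left _ (mem_union_right _ hv))
  obtain ⟨VL', VS', Z1, Z2, L1, L2, C, Lc, Sc, DS, CO, Fl, g, gb, h0⟩ :=
    phase0 he hn2 hT hClQ hSt f hf hf0 hfb hbal hev hod ha hb ha1 hb1 ha2 hb2 hM hMn hMJ
  obtain ⟨F0, KL0, KS0, i1, i2, i3, i4, i5, i6, i7⟩ :=
    phase01 hn2 hT hdv hf (b1_23 hM100 hMn) h0
  have hFlD : ∀ v ∈ Fl, v ∉ DS ∧ v ∉ CO := by
    intro v hv
    constructor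
    · intro h; exact disjoint_left.1 h0.d2 (mem_union_left _ h) hv
    · intro h; exact disjoint_left.1 h0.d2 (mem_union_right _ h) hv
  have hDSF : ∀ v ∈ DS, v ∈ Cl \ Fl := fun v hv =>
    mem_sdiff.2 ⟨h0.DSs hv, fun h => (hFlD v h).1 hv⟩
  have hCOF : ∀ v ∈ CO, v ∈ Cl \ Fl := fun v hv =>
    mem_sdiff.2 ⟨h0.COs hv, fun h => (hFlD v h).2 hv⟩
  -- cardinalities
  have hLcU : Disjoint (FXs n D q) Lc := (disjoint_union_right.1 h0.gd.LU).1.symm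
  have hScU : Disjoint (FSs n D e q) Sc := (disjoint_union_right.1 h0.gd.SU).1.symm
  obtain ⟨F1, hF1, hF1c⟩ := exists_subset_card_eq ha1
  obtain ⟨G1, hG1, hG1c⟩ := exists_subset_card_eq hb1
  have hAbs := h0.abs F1 hF1 hF1c G1 hG1 hG1c
  obtain ⟨g1, j1, j2, j3, j4⟩ := h0.ext _ _ hAbs
  have k1 : Fl.card = (Lc ∪ F1).card := by
    have := congrArg Multiset.card j3
    rwa [Multiset.card_map] at this
  have k2 : (EdT p Fl CO).card = (Sc ∪ G1).card := by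
    have := congrArg Multiset.card j4
    rwa [Multiset.card_map] at this
  have k3 : (Lc ∪ F1).card = Lc.card + a := by
    rw [card_union_of_disjoint (hLcU.symm.mono_right hF1), hF1c]
  have k4 : (Sc ∪ G1).card = Sc.card + b := by
    rw [card_union_of_disjoint (hScU.symm.mono_right hG1), hG1c]
  have k5 := (Abs.card hAbs he).1
  have c1 : Fl.card ≤ Cl.card := card_le_card h0.Fls
  have c2 : (EdT p Fl CO).card ≤ Cl.card := EdT_card_23 h0.Fls h0.COs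
  have hcap : 1000 * (D + 1) ^ 2 * (Cl.card + KL0.card + KS0.card + (FXs n D q ∪ Lc).card +
      (FSs n D e q ∪ Sc).card + 1) ≤ n := by
    refine le_trans (Nat.mul_le_mul_left _ ?_) (cap_23 hDD hM100 hMn hCl)
    have a1 := i4.cL
    have a2 := i4.cS
    have a3 : (EdI p (E ∪ (Bd ∪ DS ∪ CO) ∪ (Bd ∪ DS ∪ CO).image ι)).card ≤
        (E ∪ (Bd ∪ DS ∪ CO) ∪ (Bd ∪ DS ∪ CO).image ι).card := card_filter_le _ _
    have a4 := card_union_le (E ∪ (Bd ∪ DS ∪ CO)) ((Bd ∪ DS ∪ CO).image ι)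
    have a5 := card_union_le E (Bd ∪ DS ∪ CO)
    have a6 : ((Bd ∪ DS ∪ CO).image ι).card ≤ (Bd ∪ DS ∪ CO).card := card_image_le
    have a7 : (Bd ∪ DS ∪ CO).card ≤ Bd.card + (DS ∪ CO).card := by
      rw [union_assoc]; exact card_union_le _ _
    have a8 : (DS ∪ CO).card ≤ Cl.card := card_le_card (union_subset h0.DSs h0.COs)
    have a9 := card_union_le (FXs n D q) Lc
    have a10 := card_union_le (FSs n D e q) Sc
    omega
  obtain ⟨F, KL, KS, m1, m2, m3, m4, m5⟩ := cluster he hn2 hT hdv h0.DSs h0.COs h0.Fls h0.d1 h0.d2 i4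
    (fun v hv w hw ha hn => by
      rw [(i2 v hv).2, (i2 v hv).1]
      exact h0.e5 v hv w hw ha hn)
    (fun v hv => by rw [(i3 v hv).2, (i3 v hv).1]) h0.e6 h0.e7 h0.e8 i7 r hr i5 i6 hcap
  have nA : ∀ v ∈ Bd ∪ DS ∪ CO, F v = F0 v ∧ F (ι v) = F0 (ι v) := fun v hv =>
    ⟨m1 v (mem_union_left _ (mem_union_right _ hv)), m1 _ (mem_union_right _ (mem_image_of_mem ι hv))⟩
  have nDS : ∀ v ∈ DS, F v = g v ∧ F (ι v) = gb v := fun v hv => by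
    have := nA v (mem_union_left _ (mem_union_right _ hv))
    rw [this.1, this.2]
    exact i2 v hv
  have nCO : ∀ v ∈ CO, F v = g v ∧ F (ι v) = -g v := fun v hv => by
    have := nA v (mem_union_right _ hv)
    rw [this.1, this.2]
    exact i3 v hv
  have nSt : ∀ v ∈ E ∪ Bd ∪ Bd.image ι, F v = f v := by
    intro v hv
    rw [← i1 v hv]
    apply m1
    rcases mem_union.1 hv with h1 | h1
    · rcases mem_union.1 h1 with h2 | h2
      · exact mem_union_left _ (mem_union_left _ h2)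
      · exact mem_union_left _ (mem_union_right _ (mem_union_left _ (mem_union_left _ h2)))
    · obtain ⟨w, hw, rfl⟩ := mem_image.1 h1
      exact mem_union_right _ (mem_image_of_mem ι (mem_union_left _ (mem_union_left _ hw)))
  have hcase : ∀ v ∈ Bd ∪ (Cl \ Fl), v ∈ Bd ∨ v ∈ DS ∨ v ∈ CO ∨ v ∈ Cl \ (DS ∪ CO ∪ Fl) := by
    intro v hv
    rcases mem_union.1 hv with h1 | h1
    · exact Or.inl h1
    · obtain ⟨h2, h3⟩ := mem_sdiff.1 h1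
      by_cases h4 : v ∈ DS
      · exact Or.inr (Or.inl h4)
      · by_cases h5 : v ∈ CO
        · exact Or.inr (Or.inr (Or.inl h5))
        · refine Or.inr (Or.inr (Or.inr (mem_sdiff.2 ⟨h2, ?_⟩)))
          simp only [mem_union, not_or]
          exact ⟨⟨h4, h5⟩, h3⟩
  have hBdSt : ∀ v ∈ Bd, v ∈ E ∪ Bd ∪ Bd.image ι ∧ ι v ∈ E ∪ Bd ∪ Bd.image ι := fun v hv =>
    ⟨mem_union_left _ (mem_union_right _ hv), mem_union_right _ (mem_image_of_mem ι hv)⟩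
  refine ⟨Fl, CO, DS.filter (fun v => F (ι v) ≠ -F v), L1, L2, Lc, Sc, KL, KS, F, ?_, nSt, ?_⟩
  · refine ⟨h0.Fls, hCOF, h0.e8, by omega, ?_, ?_, ?_, m3, ?_, ?_, m4, m5, ⟨h0.gd.Ls, hLcU⟩,
      ⟨h0.gd.Ss, hScU⟩, by omega, by omega, h0.abs, ?_⟩
    · intro v hv
      exact hDSF v (mem_filter.1 hv).1
    · intro v hv w hw ha
      obtain ⟨h1, h2⟩ := mem_filter.1 hv
      by_cases h3 : w ∈ DS
      · exact hDSF w h3
      · exfalso
        apply h2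
        rw [(nDS v h1).2, (nDS v h1).1]
        exact h0.e5 v h1 w (mem_range.1 (hT.Qn hw)) ha h3
    · exact h0.d1.mono_left (filter_subset _ _)
    · intro v hv hvF
      rcases hcase v hv with h1 | h1 | h1 | h1
      · rw [nSt _ (hBdSt v h1).2, nSt _ (hBdSt v h1).1]
        exact hfι v h1
      · by_contra h2
        exact hvF (mem_filter.2 ⟨h1, h2⟩)
      · rw [(nCO v h1).2, (nCO v h1).1]
      · exact (m2 v h1).1
    · intro v hv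
      rcases hcase v hv with h1 | h1 | h1 | h1
      · rw [nSt _ (hBdSt v h1).1]
        have h2 := hfb v (hBdSt v h1).1
        have h3 := fb_23 hMn
        linarith
      · have h2 := i7 v (mem_union_left _ h1)
        rw [(nA v (mem_union_left _ (mem_union_right _ h1))).1]
        linarith
      · have h2 := i7 v (mem_union_right _ h1)
        rw [(nA v (mem_union_right _ h1)).1]
        linarith
      · have h2 := (m2 v h1).2.1
        have h3 : (0 : ℤ) ≤ n := by positivity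
        linarith
    · intro L S hLS
      obtain ⟨g2, l1, l2, l3, l4⟩ := h0.ext L S hLS
      have hg2 : ∀ v ∈ Fl ∪ CO, (if v ∈ Fl then g2 v else F v) = g2 v := by
        intro v hv
        by_cases h1 : v ∈ Fl
        · rw [if_pos h1]
        · rw [if_neg h1]
          have h2 : v ∈ CO := (mem_union.1 hv).resolve_left h1
          rw [(nCO v h2).1, l1 v h1]
      refine ⟨fun v => if v ∈ Fl then g2 v else F v, ?_, ?_, ?_, ?_⟩
      · intro v hv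
        simp only [if_neg hv]
      · intro v hv
        simp only [if_pos hv]
        exact l2 v hv
      · rw [← l3]
        apply Multiset.map_congr rfl
        intro v hv
        have h1 : v ∈ Fl := hv
        simp only [if_pos h1]
      · rw [← l4]
        apply Multiset.map_congr rfl
        intro i hi
        have h1 : i ∈ EdT p Fl CO := hi
        have h2 : i ∈ EdI p (Fl ∪ CO) := (mem_filter.1 h1).1
        obtain ⟨h3, h4, h5⟩ := mem_filter.1 h2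
        simp only [hg2 i h3, hg2 (p i) h5]
  · intro v hv hsite
    have h1 : v ∉ DS ∪ CO ∪ Fl := by
      intro h2
      obtain ⟨j, hj, h3⟩ := h0.st v h2
      have := hsite j hj
      tauto
    have h2 : v ∈ Cl \ (DS ∪ CO ∪ Fl) := mem_sdiff.2 ⟨hv, h1⟩
    exact ⟨fun h => h1 (mem_union_right _ h), (m2 v h2).2.2⟩

end Pool.Agent.BD
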