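import Pool.Agent.Helper73.BD.HX

/-!
# BD-PK: adding the packed trees, with signs

Proof in words.  `G = ⋃_{τ ∈ T'} P τ ⊆ Mn`, disjoint union; `g' v = σ τ * g v` for `v ∈ P τ`, `τ ∈ T'`, `g' v = F v` elsewhere.  Apply `ext_half` with `A = E ∪ Λ ∪ ι(Λ)`, `G`, and the set `∅` in the role of `Λ`: a neighbour in `Q`
of a vertex of `P τ` is in `P τ` or in `CN` (`Dvs.aM`), so not in `A`.
`EdT p G ∅` = edges inside `G` = the `i ∈ P τ`, `i ≠ τ` (`Dvs.tree`, `Dvs.aM`; the vertex `p τ` is not in `P τ`, whose elements are `≥ τ`); the sum of such an edge is `σ τ * (g i + g (p i))`, the same class.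
The classes of the labels are in `X`, so not in `KL`; the sum classes are in `S`.
-/

set_option autoImplicit false

namespace Pool.Agent.BD

open Finset Pool.Agent.SEM

private lemma ge_root56 {p : ℕ → ℕ} {P : Finset ℕ} {τ : ℕ} (h : ∀ v ∈ P, v ≠ τ → p v ∈ P ∧ p v < v) :
    ∀ v, v ∈ P → τ ≤ v := by
  intro v
  induction v using Nat.strong_induction_on with
  | _ v ih =>
    intro hv
    by_cases hvt : v = τ
    · exact hvt.ge
    · obtain ⟨h1, h2⟩ := h v hv hvt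
      exact (ih _ h2 h1).trans h2.le

private lemma nab56 {s a : ℤ} (hs : s = 1 ∨ s = -1) : (s * a).natAbs = a.natAbs := by
  rcases hs with rfl | rfl
  · rw [one_mul]
  · rw [neg_one_mul, Int.natAbs_neg]

theorem packed {n D K : ℕ} {p ι : ℕ → ℕ} {E Bd CN Cl Rs Mn T T' Λ : Finset ℕ} {P En : ℕ → Finset ℕ}
    (hT : Twin n D p ι E Bd (QQ Bd CN Cl Rs Mn)) (hdv : Dvs n D K p Bd CN Cl Rs Mn T P En) (hT' : T' ⊆ T)
    (hΛ : Λ ⊆ Bd ∪ Cl) {F : ℕ → ℤ} {KL KS X S : Finset ℕ} (h : LS n p (E ∪ Λ ∪ Λ.image ι) F KL KS)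
    (hX : X ⊆ LC n) (hS : S ⊆ SC n) (hXK : Disjoint KL X) (hSK : Disjoint KS S) (g σ : ℕ → ℤ)
    (hσ : ∀ t, σ t = 1 ∨ σ t = -1) (h1 : ∀ τ ∈ T', ∀ v ∈ P τ, g v ∈ pm X)
    (h2 : ∀ τ ∈ T', ∀ v ∈ P τ, v ≠ τ → g v + g (p v) ∈ pm S)
    (h3 : Set.InjOn (fun v => (g v).natAbs) (T'.biUnion P))
    (h4 : Set.InjOn (fun v => (g v + g (p v)).natAbs) (T'.biUnion fun τ => (P τ).erase τ)) :
    ∃ (F' : ℕ → ℤ) (X1 S1 : Finset ℕ), (∀ v ∈ E ∪ Λ ∪ Λ.image ι, F' v = F v) ∧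
      (∀ τ ∈ T', ∀ v ∈ P τ, F' v = σ τ * g v ∧ F' (ι v) = -F' v) ∧
      X1 ⊆ X ∧ S1 ⊆ S ∧ X1.card = ∑ τ ∈ T', (P τ).card ∧ S1.card = ∑ τ ∈ T', ((P τ).card - 1) ∧
      LS n p (E ∪ (Λ ∪ T'.biUnion P) ∪ (Λ ∪ T'.biUnion P).image ι) F' (KL ∪ X1) (KS ∪ S1) := by
  classical
  have hQ : QQ Bd CN Cl Rs Mn = Bd ∪ CN ∪ Cl ∪ Rs ∪ Mn := rfl
  have hGM : T'.biUnion P ⊆ Mn := by
    rw [hdv.Mn_eq]
    exact biUnion_subset_biUnion_of_subset_left P hT'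
  have hMQ : Mn ⊆ QQ Bd CN Cl Rs Mn := subset_union_right
  have hGQ : T'.biUnion P ⊆ QQ Bd CN Cl Rs Mn := hGM.trans hMQ
  have hCNQ : ∀ w ∈ CN, w ∉ Bd ∪ Cl := by
    intro w hw hw2
    rcases mem_union.1 hw2 with h1 | h1
    · exact (disjoint_left.1 hdv.d1) h1 hw
    · exact (disjoint_left.1 hdv.d2) (mem_union_right _ hw) h1
  have hMnB : ∀ w ∈ Mn, w ∉ Bd ∪ CN ∪ Cl ∪ Rs := fun w hw h1 => (disjoint_left.1 hdv.d4) h1 hw
  have hMΛ : ∀ w ∈ Mn, w ∉ Bd ∪ Cl := by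
    intro w hw hw2
    refine hMnB w hw ?_
    rcases mem_union.1 hw2 with h1 | h1
    · exact mem_union_left _ (mem_union_left _ (mem_union_left _ h1))
    · exact mem_union_left _ (mem_union_right _ h1)
  have hMCN : ∀ w ∈ Mn, w ∉ CN := fun w hw h1 =>
    hMnB w hw (mem_union_left _ (mem_union_left _ (mem_union_right _ h1)))
  have hBCQ : Bd ∪ Cl ⊆ QQ Bd CN Cl Rs Mn := by
    intro w hw
    rw [hQ]
    rcases mem_union.1 hw with h1 | h1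
    · exact mem_union_left _ (mem_union_left _ (mem_union_left _ (mem_union_left _ h1)))
    · exact mem_union_left _ (mem_union_left _ (mem_union_right _ h1))
  have hΛQ : Λ ⊆ QQ Bd CN Cl Rs Mn := hΛ.trans hBCQ
  have hQE : ∀ w ∈ QQ Bd CN Cl Rs Mn, w ∉ E := fun w hw h1 => (disjoint_left.1 hT.EQ) h1 hw
  have hιQ : ∀ w ∈ QQ Bd CN Cl Rs Mn, ∀ v ∈ QQ Bd CN Cl Rs Mn, ι v ≠ w := by
    intro w hw v hv h1
    exact (hT.ιn v hv).2.1 (h1 ▸ hw)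
  set A : Finset ℕ := E ∪ Λ ∪ Λ.image ι with hA
  set G : Finset ℕ := T'.biUnion P with hG
  have hmA : ∀ {w}, w ∈ QQ Bd CN Cl Rs Mn → (w ∈ A ↔ w ∈ Λ) := by
    intro w hw
    rw [hA, mem_union, mem_union]
    constructor
    · rintro ((h1 | h1) | h1)
      · exact absurd h1 (hQE w hw)
      · exact h1
      · obtain ⟨v, hv, hvw⟩ := mem_image.1 h1
        exact absurd hvw (hιQ w hw v (hΛQ hv))
    · intro h1
      exact Or.inl (Or.inr h1)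
  have hmA' : ∀ {w}, w ∈ QQ Bd CN Cl Rs Mn → (ι w ∈ A ↔ w ∈ Λ) := by
    intro w hw
    rw [hA, mem_union, mem_union]
    constructor
    · rintro ((h1 | h1) | h1)
      · exact absurd h1 (hT.ιn w hw).2.2
      · exact absurd (hΛQ h1) (hT.ιn w hw).2.1
      · obtain ⟨v, hv, hvw⟩ := mem_image.1 h1
        have := hT.ιinj (hΛQ hv) hw hvw
        exact this ▸ hv
    · intro h1
      exact Or.inr (mem_image_of_mem _ h1)
  have hGA : ∀ v ∈ G, v ∉ A := by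
    intro v hv h1
    rw [hmA (hGQ hv)] at h1
    exact hMΛ v (hGM hv) (hΛ h1)
  have hGA' : ∀ v ∈ G, ι v ∉ A := by
    intro v hv h1
    rw [hmA' (hGQ hv)] at h1
    exact hMΛ v (hGM hv) (hΛ h1)
  have hAn : A ⊆ range n := by
    intro w hw
    rw [hA, mem_union, mem_union] at hw
    rcases hw with (h1 | h1) | h1
    · exact hT.En h1
    · exact hT.Qn (hΛQ h1)
    · obtain ⟨v, hv, rfl⟩ := mem_image.1 h1
      exact mem_range.2 (hT.ιn v (hΛQ hv)).1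
  -- the tree of a vertex
  have hex : ∀ v, ∃ τ, v ∈ G → τ ∈ T' ∧ v ∈ P τ := by
    intro v
    by_cases hv : v ∈ G
    · obtain ⟨τ, h1, h2⟩ := mem_biUnion.1 hv
      exact ⟨τ, fun _ => ⟨h1, h2⟩⟩
    · exact ⟨0, fun h1 => absurd h1 hv⟩
  choose tp htp using hex
  have huniq : ∀ τ ∈ T', ∀ v ∈ P τ, tp v = τ := by
    intro τ hτ v hv
    have hvG : v ∈ G := mem_biUnion.2 ⟨τ, hτ, hv⟩
    obtain ⟨h5, h6⟩ := htp v hvG
    by_contra hne
    exact (disjoint_left.1 (hdv.dj _ (hT' h5) _ (hT' hτ) hne)) h6 hv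
  set g' : ℕ → ℤ := fun v => if v ∈ G then σ (tp v) * g v else F v with hg'
  have hg1 : ∀ τ ∈ T', ∀ v ∈ P τ, g' v = σ τ * g v := by
    intro τ hτ v hv
    simp only [hg']
    rw [if_pos (mem_biUnion.2 ⟨τ, hτ, hv⟩), huniq τ hτ v hv]
  have hg2 : ∀ v, v ∉ G → g' v = F v := by
    intro v hv
    simp only [hg']
    rw [if_neg hv]
  have hg3 : ∀ v ∈ G, (g' v).natAbs = (g v).natAbs := by
    intro v hv
    simp only [hg']
    rw [if_pos hv]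
    exact nab56 (hσ _)
  have hgX : ∀ v ∈ G, (g' v).natAbs ∈ X := by
    intro v hv
    rw [hg3 v hv]
    obtain ⟨τ, hτ, hvτ⟩ := mem_biUnion.1 hv
    exact mem_pm.1 (h1 τ hτ v hvτ)
  -- the edges
  have hEd : EdT p G ∅ = T'.biUnion fun τ => (P τ).erase τ := by
    ext i
    unfold EdT EdI
    rw [union_empty, mem_filter, mem_filter]
    constructor
    · rintro ⟨⟨h5, h6, h7⟩, -⟩
      obtain ⟨τ, hτ, hi⟩ := mem_biUnion.1 h5
      refine mem_biUnion.2 ⟨τ, hτ, mem_erase.2 ⟨?_, hi⟩⟩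
      rintro rfl
      have hin : i < n := mem_range.1 (hT.Qn (hGQ h5))
      have hlt := hT.par i h6 hin
      rcases hdv.aM i (hT' hτ) i hi (p i) (hGQ h7) (Or.inl ⟨h6, rfl⟩) with h8 | h8
      · have := ge_root56 (hdv.tree i (hT' hτ)).2.1 (p i) h8
        omega
      · exact hMCN _ (hGM h7) h8.1
    · intro hiu
      obtain ⟨τ, hτ, hi⟩ := mem_biUnion.1 hiu
      obtain ⟨h5, h6⟩ := mem_erase.1 hi
      obtain ⟨h7, h8⟩ := (hdv.tree τ (hT' hτ)).2.1 i h6 h5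
      exact ⟨⟨mem_biUnion.2 ⟨τ, hτ, h6⟩, by omega, mem_biUnion.2 ⟨τ, hτ, h7⟩⟩, Or.inl (mem_biUnion.2 ⟨τ, hτ, h6⟩)⟩
  have hsum : ∀ τ ∈ T', ∀ i ∈ (P τ).erase τ, (g' i + g' (p i)).natAbs = (g i + g (p i)).natAbs := by
    intro τ hτ i hi
    obtain ⟨h5, h6⟩ := mem_erase.1 hi
    obtain ⟨h7, h8⟩ := (hdv.tree τ (hT' hτ)).2.1 i h6 h5
    rw [hg1 τ hτ i h6, hg1 τ hτ (p i) h7, ← mul_add]
    exact nab56 (hσ τ)
  have hsum2 : ∀ i ∈ EdT p G ∅, (g' i + g' (p i)).natAbs = (g i + g (p i)).natAbs := by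
    intro i hi
    rw [hEd] at hi
    obtain ⟨τ, hτ, hi2⟩ := mem_biUnion.1 hi
    exact hsum τ hτ i hi2
  have hsumS : ∀ i ∈ EdT p G ∅, (g' i + g' (p i)).natAbs ∈ S := by
    intro i hi
    rw [hsum2 i hi]
    rw [hEd] at hi
    obtain ⟨τ, hτ, hi2⟩ := mem_biUnion.1 hi
    obtain ⟨h5, h6⟩ := mem_erase.1 hi2
    exact mem_pm.1 (h2 τ hτ i h6 h5)
  have hinj1 : Set.InjOn (fun v => (g' v).natAbs) G := by
    intro v hv w hw hvw
    simp only at hvw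
    rw [hg3 v hv, hg3 w hw] at hvw
    exact h3 hv hw hvw
  have hinj2 : Set.InjOn (fun i => (g' i + g' (p i)).natAbs) (EdT p G ∅) := by
    intro v hv w hw hvw
    simp only at hvw
    rw [hsum2 v hv, hsum2 w hw] at hvw
    rw [hEd] at hv hw
    exact h4 hv hw hvw
  obtain ⟨F', hF1, hF2, hF3⟩ := ext_half hT (A := A) (G := G) (F := F) (g := g') h hAn
    (fun w hw => by rw [hmA hw, hmA' hw]) hGQ
    (fun v hv h5 => hMΛ v (hGM hv) (mem_union_left _ h5)) hGA hg2 (fun v hv => hX (hgX v hv))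
    (fun v hv h5 => (disjoint_left.1 hXK) h5 (hgX v hv)) hinj1 ∅ (fun v hv => absurd hv (notMem_empty v))
    (by
      intro v hv w hw hwQ had
      exfalso
      have hwΛ : w ∈ Λ := (hmA hwQ).1 hw
      obtain ⟨τ, hτ, hvτ⟩ := mem_biUnion.1 hv
      rcases hdv.aM τ (hT' hτ) v hvτ w hwQ had with h5 | h5
      · exact hMΛ w (hGM (mem_biUnion.2 ⟨τ, hτ, h5⟩)) (hΛ hwΛ)
      · exact hCNQ w h5.1 (hΛ hwΛ))
    (fun i hi => ⟨hS (hsumS i hi), fun h5 => (disjoint_left.1 hSK) h5 (hsumS i hi)⟩) hinj2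
  refine ⟨F', G.image fun v => (g' v).natAbs, (EdT p G ∅).image fun i => (g' i + g' (p i)).natAbs, ?_, ?_, ?_, ?_, ?_,
    ?_, ?_⟩
  · intro v hv
    refine hF1 v (fun h5 => hGA v h5 hv) (fun h5 => ?_)
    obtain ⟨w, hw, rfl⟩ := mem_image.1 h5
    exact hGA' w hw hv
  · intro τ hτ v hv
    obtain ⟨h5, h6⟩ := hF2 v (mem_biUnion.2 ⟨τ, hτ, hv⟩)
    exact ⟨by rw [h5, hg1 τ hτ v hv], by rw [h6, h5]⟩
  · intro x hx
    obtain ⟨v, hv, rfl⟩ := mem_image.1 hx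
    exact hgX v hv
  · intro x hx
    obtain ⟨v, hv, rfl⟩ := mem_image.1 hx
    exact hsumS v hv
  · rw [card_image_of_injOn hinj1, hG, card_biUnion]
    intro τ hτ τ' hτ' hne
    exact hdv.dj τ (hT' hτ) τ' (hT' hτ') hne
  · rw [card_image_of_injOn hinj2, hEd, card_biUnion]
    · refine sum_congr rfl fun τ hτ => ?_
      rw [card_erase_of_mem (hdv.tree τ (hT' hτ)).1]
    · intro τ hτ τ' hτ' hne
      exact disjoint_of_subset_left (erase_subset _ _)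
        (disjoint_of_subset_right (erase_subset _ _) (hdv.dj τ (hT' hτ) τ' (hT' hτ') hne))
  · have hset : E ∪ (Λ ∪ G) ∪ (Λ ∪ G).image ι = A ∪ G ∪ G.image ι := by
      rw [image_union, hA]
      ext x
      simp only [mem_union]
      tauto
    rw [hset]
    exact hF3

end Pool.Agent.BD
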