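import Pool.Agent.Helper73.BD.LY

/-!
# BD-SG: the signs of the packed trees

Proof in words.  Call `u` packed if `u ∈ P t` for some `t ∈ T'` (unique, as the `P t` are disjoint).  For `t ∈ T'` (the root of `P t`): put `w = p t`, `u = p w`.  Define `σ t` by strong recursion on `t`: if `w ∈ CN`, `0 < w`
and `u` is packed, `u ∈ P t'`, then `t' ≤ u < w < t` (all elements of `P t'` are `≥ t'`, by `Dvs.tree`) and `σ t` is chosen such that `σ t * g t` and `σ t' * g u` are both `≥ 0` or both `≤ 0`; otherwise such that `σ t * g t ≥ 0`.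
(As an existence statement: for every `m` there is `σ` which is good for all `t < m`; or use `Nat.strongRec`/`WellFounded.fix`.)
`τ w = 1` if `w = 0` or `p w` is not packed; if `0 < w`, `p w ∈ P t'` then `τ w = ± 1` with `τ w * σ t' * g (p w) ≥ 0` (and `τ w = 1` if this label is zero ... choose the sign in the same way as above).
Let `v ∈ P t`, `w ∈ CN` be adjacent.  Either `0 < v`, `p v = w`: then `v = t`, because for `v ≠ t` the vertex `p v` is in `P t ⊆ Mn` and `CN`, `Mn` are disjoint; fine by the choice of `σ t`.  Or `0 < w`, `p w = v`: fine by the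
choice of `τ w`.  (Zero labels: to avoid problems take `s(x) = 1` for `x ≥ 0`, `s(x) = -1` for `x < 0`; `σ t = s(g t) * s'`, where `s' = s(σ t' * g u)` or `1`; `τ w = s(σ t' * g (p w))` or `1`.)
-/

set_option autoImplicit false

namespace Pool.Agent.BD

open Finset Pool.Agent.SEM

private def sgn85 (x : ℤ) : ℤ := if 0 ≤ x then 1 else -1

private theorem sgn85_or (x : ℤ) : sgn85 x = 1 ∨ sgn85 x = -1 := by
  unfold sgn85
  split_ifs
  · exact Or.inl rfl
  · exact Or.inr rfl

private theorem sgn85_mul (x : ℤ) : 0 ≤ sgn85 x * x := by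
  unfold sgn85
  split_ifs with h
  · omega
  · omega

private theorem sgn85_sq (x : ℤ) : sgn85 x * sgn85 x = 1 := by
  rcases sgn85_or x with h | h <;> rw [h] <;> norm_num

private def rec85 (q : ℕ → ℕ) (c : ℕ → ℤ → ℤ) (d : ℕ → ℤ) (t : ℕ) : ℤ :=
  if q t < t then c t (rec85 q c d (q t)) else d t
termination_by t

theorem signs {n D K : ℕ} {p : ℕ → ℕ} {Bd CN Cl Rs Mn T T' : Finset ℕ} {P En : ℕ → Finset ℕ}
    (hp : ∀ i, 0 < i → i < n → p i < i) (hQn : QQ Bd CN Cl Rs Mn ⊆ range n)
    (hdv : Dvs n D K p Bd CN Cl Rs Mn T P En) (hT' : T' ⊆ T) (g : ℕ → ℤ) :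
    ∃ σ τ : ℕ → ℤ, (∀ t, σ t = 1 ∨ σ t = -1) ∧ (∀ w, τ w = 1 ∨ τ w = -1) ∧
      ∀ w ∈ CN, ∀ t ∈ T', ∀ v ∈ P t, Ad p v w → 0 ≤ τ w * (σ t * g v) := by
  classical
  -- the root of the tree of a packed vertex
  let pk : ℕ → Prop := fun u => ∃ t ∈ T', u ∈ P t
  let r : ℕ → ℕ := fun u => if h : pk u then h.choose else 0
  have hr : ∀ t ∈ T', ∀ u ∈ P t, r u = t := by
    intro t ht u hu
    have h : pk u := ⟨t, ht, hu⟩
    have h1 : r u = h.choose := dif_pos h
    obtain ⟨h2, h3⟩ := h.choose_spec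
    rw [h1]
    by_contra hne
    exact (Finset.disjoint_left.1 (hdv.dj _ (hT' h2) _ (hT' ht) hne)) h3 hu
  have hge : ∀ t ∈ T, ∀ v ∈ P t, t ≤ v := by
    intro t ht v
    induction v using Nat.strong_induction_on with
    | _ v ih =>
      intro hv
      by_cases h : v = t
      · exact h.ge
      · have h1 := (hdv.tree t ht).2.1 v hv h
        exact (ih _ h1.2 h1.1).trans h1.2.le
  have hMn : ∀ t ∈ T, ∀ v ∈ P t, v ∈ Mn := by
    intro t ht v hv
    rw [hdv.Mn_eq, Finset.mem_biUnion]
    exact ⟨t, ht, hv⟩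
  have hCM : ∀ v ∈ CN, v ∉ Mn := by
    intro v hv hv'
    refine (Finset.disjoint_left.1 hdv.d4) ?_ hv'
    simp only [Finset.mem_union]
    exact Or.inl (Or.inl (Or.inr hv))
  have hMnn : ∀ v ∈ Mn, v < n := by
    intro v hv
    refine Finset.mem_range.1 (hQn ?_)
    unfold QQ
    exact Finset.mem_union_right _ hv
  have hCNn : ∀ v ∈ CN, v < n := by
    intro v hv
    refine Finset.mem_range.1 (hQn ?_)
    unfold QQ
    simp only [Finset.mem_union]
    exact Or.inl (Or.inl (Or.inl (Or.inr hv)))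
  let q : ℕ → ℕ := fun t => if 0 < p t ∧ pk (p (p t)) then r (p (p t)) else t
  let c : ℕ → ℤ → ℤ := fun t y => sgn85 (g t) * sgn85 (y * g (p (p t)))
  let d : ℕ → ℤ := fun t => sgn85 (g t)
  let σ : ℕ → ℤ := rec85 q c d
  let τ : ℕ → ℤ := fun w => if 0 < w ∧ pk (p w) then sgn85 (σ (r (p w)) * g (p w)) else 1
  have hσ : ∀ t, σ t = if q t < t then c t (σ (q t)) else d t := by
    intro t
    change rec85 q c d t = _
    rw [rec85]
  refine ⟨σ, τ, ?_, ?_, ?_⟩
  · intro t
    rw [hσ]
    split_ifs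
    · rcases sgn85_or (g t) with h1 | h1 <;>
        rcases sgn85_or (σ (q t) * g (p (p t))) with h2 | h2 <;>
        simp only [c, h1, h2] <;> norm_num
    · exact sgn85_or _
  · intro w
    change (if 0 < w ∧ pk (p w) then sgn85 (σ (r (p w)) * g (p w)) else 1) = 1 ∨
      (if 0 < w ∧ pk (p w) then sgn85 (σ (r (p w)) * g (p w)) else 1) = -1
    split_ifs
    · exact sgn85_or _
    · exact Or.inl rfl
  · intro w hw t ht v hv had
    rcases had with ⟨h1, h2⟩ | ⟨h1, h2⟩
    · have hvt : v = t := by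
        by_contra hne
        have h3 := ((hdv.tree t (hT' ht)).2.1 v hv hne).1
        rw [h2] at h3
        exact hCM w hw (hMn t (hT' ht) w h3)
      subst hvt
      by_cases h3 : 0 < w ∧ pk (p w)
      · obtain ⟨h4, t', ht', hu⟩ := h3
        have e1 : q v = t' := by
          change (if 0 < p v ∧ pk (p (p v)) then r (p (p v)) else v) = t'
          rw [h2, if_pos ⟨h4, t', ht', hu⟩]
          exact hr t' ht' _ hu
        have e2 : t' < v := by
          have a1 := hge t' (hT' ht') _ hu
          have a2 := hp w h4 (hCNn w hw)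
          have a3 := hp v h1 (hMnn v (hMn v (hT' ht) v hv))
          omega
        have e3 : σ v = sgn85 (g v) * sgn85 (σ t' * g (p w)) := by
          rw [hσ, e1, if_pos e2]
          change sgn85 (g v) * sgn85 (σ t' * g (p (p v))) = _
          rw [h2]
        have e4 : τ w = sgn85 (σ t' * g (p w)) := by
          change (if 0 < w ∧ pk (p w) then sgn85 (σ (r (p w)) * g (p w)) else 1) = _
          rw [if_pos ⟨h4, t', ht', hu⟩, hr t' ht' _ hu]
        rw [e3, e4]
        have e5 : sgn85 (σ t' * g (p w)) * (sgn85 (g v) * sgn85 (σ t' * g (p w)) * g v) =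
            (sgn85 (σ t' * g (p w)) * sgn85 (σ t' * g (p w))) * (sgn85 (g v) * g v) := by ring
        rw [e5, sgn85_sq, one_mul]
        exact sgn85_mul _
      · have e1 : q v = v := by
          change (if 0 < p v ∧ pk (p (p v)) then r (p (p v)) else v) = v
          rw [h2, if_neg h3]
        have e3 : σ v = sgn85 (g v) := by
          rw [hσ, e1, if_neg (lt_irrefl v)]
        have e4 : τ w = 1 := by
          change (if 0 < w ∧ pk (p w) then sgn85 (σ (r (p w)) * g (p w)) else 1) = _
          rw [if_neg h3]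
        rw [e3, e4, one_mul]
        exact sgn85_mul _
    · have e4 : τ w = sgn85 (σ t * g v) := by
        change (if 0 < w ∧ pk (p w) then sgn85 (σ (r (p w)) * g (p w)) else 1) = _
        rw [h2, if_pos ⟨h1, t, ht, hv⟩, hr t ht v hv]
      rw [e4]
      exact sgn85_mul _

end Pool.Agent.BD
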