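import Pool.Agent.Helper73.BD.CR
import Pool.Agent.Helper73.BD.PK
import Pool.Agent.Helper73.BD.SG
import Pool.Agent.Helper73.BD.P2

/-!
# BD-F1: the end of the proof for `e = 1`

Proof in words.  `signs` gives `σ, τ`, `packed` gives `F2, X1, S1'` (`Λ = Bd ∪ (Cl \ Fl)`; `KL`, `KS` are disjoint from `X`, `S`).  `X' = X \ X1`, `S' = S \ S1'`:
`|X'| = ∑_{T \ T'} |P τ|`, `|S'| = ∑_{T \ T'} (|P τ| - 1)`, together at most `Jc`: choose injections `iL` of `X'`, `iS` of `S'` into `{0, .., Jc - 1}` with disjoint images.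
`core` with `e = 1`, `F = F2`, `KL ∪ X1`, `KS ∪ S1'`, `X'`, `S'`, `U = T \ T'` (so `T \ U = T'`), `W = CN ∪ Rs ∪ ⋃_U P`, `ρ = 1` (all labels are odd, all `s ∈ S'` are even), `y w = -2 c τ w`:
for `v ∈ Bd ∪ (Cl \ Fl)`: `|F2 v| ≤ 9n/10`, `|F2 v + y w| ≤ 9n/10 + 2c ≤ n - 2c`; for `v ∈ P t`, `t ∈ T'`, adjacent to `w`: `0 ≤ τ w * F2 v ≤ n`, so `|F2 v + y w| = |τ w * F2 v - 2c| ≤ n - 2c`.
`hext` for `F2`: `F2 = F` on `CO`, so the `g'` of `S1.ext` can be changed outside `Fl` to `F2` without changing the sums of `EdT p Fl CO`.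
`LC n = (KL ∪ X1) ∪ X' ∪ FXs ∪ Lc`: `KL`, `FXs`, `Lc` are subsets of `LC n` (`LS.KLs`, ..).  `F2 0 = F 0` as `0 ∈ E`.
-/

set_option autoImplicit false

namespace Pool.Agent.BD

open Finset Pool.Agent.SEM

private theorem rank85 (A : Finset ℕ) : ∃ f : ℕ → ℕ, Set.InjOn f A ∧ ∀ x ∈ A, f x < A.card := by
  have hlt : ∀ x ∈ A, ∀ y ∈ A, x < y → (A.filter fun z => z < x).card < (A.filter fun z => z < y).card := by
    intro x hx y hy hxy
    apply Finset.card_lt_card
    rw [Finset.ssubset_iff_of_subset]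
    · refine ⟨x, Finset.mem_filter.2 ⟨hx, hxy⟩, fun h => ?_⟩
      exact lt_irrefl x (Finset.mem_filter.1 h).2
    · intro z hz
      rw [Finset.mem_filter] at hz ⊢
      exact ⟨hz.1, hz.2.trans hxy⟩
  refine ⟨fun x => (A.filter fun z => z < x).card, ?_, ?_⟩
  · intro x hx y hy hxy
    simp only at hxy
    rcases lt_trichotomy x y with h | h | h
    · exact absurd hxy (hlt x hx y hy h).ne
    · exact h
    · exact absurd hxy (hlt y hy x hx h).ne'
  · intro x hx
    apply Finset.card_lt_card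
    rw [Finset.ssubset_iff_of_subset (Finset.filter_subset _ _)]
    exact ⟨x, hx, fun h => lt_irrefl x (Finset.mem_filter.1 h).2⟩

private theorem part85 {L K X1 X F Lc : Finset ℕ} (hX : X = L \ (K ∪ F ∪ Lc)) (hX1 : X1 ⊆ X)
    (hK : K ⊆ L) (hF : F ⊆ L) (hLc : Lc ⊆ L) (hd : Disjoint K (F ∪ Lc)) (hd' : Disjoint F Lc) :
    L = (K ∪ X1) ∪ (X \ X1) ∪ F ∪ Lc ∧ Disjoint (K ∪ X1) (X \ X1) ∧
      Disjoint ((K ∪ X1) ∪ (X \ X1)) F ∧ Disjoint ((K ∪ X1) ∪ (X \ X1) ∪ F) Lc := by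
  have hXm : ∀ x, x ∈ X ↔ x ∈ L ∧ x ∉ K ∧ x ∉ F ∧ x ∉ Lc := by
    intro x
    rw [hX, Finset.mem_sdiff, Finset.mem_union, Finset.mem_union]
    tauto
  have hdK : ∀ x ∈ K, x ∉ F ∧ x ∉ Lc := by
    intro x hx
    have := (Finset.disjoint_left.1 hd) hx
    rw [Finset.mem_union] at this
    tauto
  have hdF : ∀ x ∈ F, x ∉ Lc := fun x hx => (Finset.disjoint_left.1 hd') hx
  refine ⟨?_, ?_, ?_, ?_⟩
  · ext x
    simp only [Finset.mem_union, Finset.mem_sdiff]
    constructor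
    · intro hx
      by_cases h1 : x ∈ K
      · tauto
      by_cases h2 : x ∈ F
      · tauto
      by_cases h3 : x ∈ Lc
      · tauto
      have := (hXm x).2 ⟨hx, h1, h2, h3⟩
      tauto
    · rintro ((((h | h) | h) | h) | h)
      · exact hK h
      · exact ((hXm x).1 (hX1 h)).1
      · exact ((hXm x).1 h.1).1
      · exact hF h
      · exact hLc h
  · rw [Finset.disjoint_left]
    intro x hx hx'
    rw [Finset.mem_union] at hx
    rw [Finset.mem_sdiff] at hx'
    have := (hXm x).1 hx'.1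
    tauto
  · rw [Finset.disjoint_left]
    intro x hx hx'
    simp only [Finset.mem_union, Finset.mem_sdiff] at hx
    rcases hx with (h | h) | h
    · exact (hdK x h).1 hx'
    · exact ((hXm x).1 (hX1 h)).2.2.1 hx'
    · exact ((hXm x).1 h.1).2.2.1 hx'
  · rw [Finset.disjoint_left]
    intro x hx hx'
    simp only [Finset.mem_union, Finset.mem_sdiff] at hx
    rcases hx with ((h | h) | h) | h
    · exact (hdK x h).2 hx'
    · exact ((hXm x).1 (hX1 h)).2.2.2 hx'
    · exact ((hXm x).1 h.1).2.2.2 hx'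
    · exact hdF x h hx'

private theorem near85 {n c : ℕ} {x y t : ℤ} (hc : 40 * c ≤ n) (ht : t = 1 ∨ t = -1)
    (hy : y = -(2 * c * t)) (hx : |x| ≤ n) (hpos : 0 ≤ t * x) : |x + y| ≤ n - 2 * c := by
  have hc' : (40 * c : ℤ) ≤ n := by exact_mod_cast hc
  have hc0 : (0 : ℤ) ≤ c := Int.natCast_nonneg _
  have h1 := abs_le.1 hx
  rw [abs_le]
  rcases ht with rfl | rfl
  · constructor <;> linarith
  · constructor <;> linarith

theorem finish1 {n D K Jc a b c : ℕ} {p ι q : ℕ → ℕ} {E Bd CN Cl Rs Mn T T' Fl CO Fd Lc Sc KL KS X S : Finset ℕ} {P En : ℕ → Finset ℕ}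
    {cv cw : ℕ → ℕ} {L1 L2 : List (ℤ × ℤ)} {F g : ℕ → ℤ} (hD : 2 ≤ D) (hn2 : Even n) (hn : 2 ≤ n) (hq : Mods D q)
    (hT : Twin n D p ι E Bd (QQ Bd CN Cl Rs Mn)) (hdv : Dvs n D K p Bd CN Cl Rs Mn T P En)
    (hcv : Cvs Jc p (QQ Bd CN Cl Rs Mn) Rs cv cw)
    (h1 : S1 n D 1 a b p ι q E Bd CN Cl Rs Mn Fl CO Fd L1 L2 Lc Sc KL KS F)
    (hX : X = LC n \ (KL ∪ FXs n D q ∪ Lc)) (hS : S = SC n \ (KS ∪ FSs n D 1 q ∪ Sc))
    (hXc : X.card = ∑ t ∈ T, (P t).card) (hSc : S.card = ∑ t ∈ T, ((P t).card - 1)) (hT' : T' ⊆ T)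
    (g1 : ∀ τ ∈ T', ∀ v ∈ P τ, g v ∈ pm X) (g2 : ∀ τ ∈ T', ∀ v ∈ P τ, v ≠ τ → g v + g (p v) ∈ pm S)
    (g3 : Set.InjOn (fun v => (g v).natAbs) (T'.biUnion P))
    (g4 : Set.InjOn (fun v => (g v + g (p v)).natAbs) (T'.biUnion fun τ => (P τ).erase τ))
    (ha1 : a ≤ (FXs n D q).card) (hb1 : b ≤ (FSs n D 1 q).card)
    (hJc : 2 * ∑ τ ∈ T \ T', (P τ).card ≤ Jc) (hc : 40 * c ≤ n)
    (hcap : qM D 1 q * q (D + 1) * (100 * (D + 1) ^ 2 * (CN.card + Rs.card + ∑ τ ∈ T \ T', (P τ).card + 1)) ≤ c) :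
    ∃ F' : ℕ → ℤ, IsCL n p F' ∧ F' 0 = F 0 := by
  classical
  obtain ⟨σ, τ, hσ, hτ, hpos⟩ := signs hT.par hT.Qn hdv hT' g
  have hΛs : Bd ∪ (Cl \ Fl) ⊆ Bd ∪ Cl := Finset.union_subset_union_right Finset.sdiff_subset
  have hXL : X ⊆ LC n := by rw [hX]; exact Finset.sdiff_subset
  have hSL : S ⊆ SC n := by rw [hS]; exact Finset.sdiff_subset
  have hXK : Disjoint KL X := by
    rw [Finset.disjoint_left]
    intro x hx hx'
    rw [hX, Finset.mem_sdiff, Finset.mem_union, Finset.mem_union] at hx'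
    exact hx'.2 (Or.inl (Or.inl hx))
  have hSK : Disjoint KS S := by
    rw [Finset.disjoint_left]
    intro x hx hx'
    rw [hS, Finset.mem_sdiff, Finset.mem_union, Finset.mem_union] at hx'
    exact hx'.2 (Or.inl (Or.inl hx))
  obtain ⟨F2, X1, S1', f1, f2, hX1, hS1, cX1, cS1, ls⟩ :=
    packed hT hdv hT' hΛs h1.ls hXL hSL hXK hSK g σ hσ g1 g2 g3 g4
  obtain ⟨iL, iL1, iL2⟩ := rank85 (X \ X1)
  obtain ⟨iS, iS1, iS2⟩ := rank85 (S \ S1')
  have cX' : (X \ X1).card = ∑ t ∈ T \ T', (P t).card := by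
    rw [Finset.card_sdiff_of_subset hX1, hXc, cX1, ← Finset.sum_sdiff hT', Nat.add_sub_cancel]
  have cS' : (S \ S1').card = ∑ t ∈ T \ T', ((P t).card - 1) := by
    rw [Finset.card_sdiff_of_subset hS1, hSc, cS1, ← Finset.sum_sdiff hT', Nat.add_sub_cancel]
  have cS'' : (S \ S1').card ≤ ∑ t ∈ T \ T', (P t).card := by
    rw [cS']
    exact Finset.sum_le_sum fun t _ => Nat.sub_le _ _
  obtain ⟨pX1, pX2, pX3, pX4⟩ := part85 hX hX1 h1.ls.KLs (Finset.filter_subset _ _) h1.Lcd.1 h1.KLd h1.Lcd.2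
  obtain ⟨pS1, pS2, pS3, pS4⟩ := part85 hS hS1 h1.ls.KSs (Finset.filter_subset _ _) h1.Scd.1 h1.KSd h1.Scd.2
  have hc0 : (0 : ℤ) ≤ c := Int.natCast_nonneg _
  have hc' : (40 * c : ℤ) ≤ n := by exact_mod_cast hc
  obtain ⟨F', hF', hF0⟩ := core (n := n) (D := D) (K := K) (e := 1) (Jc := Jc) (a := a) (b := b) (c := c)
    (E := E) (T := T) (U := T \ T') (Fl := Fl) (Fd := Fd) (CO := CO) (q := q) (L1 := L1) (L2 := L2)
    (Or.inl rfl) hD hn2 hn hq hT hdv hcv Finset.sdiff_subset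
    (CN ∪ Rs ∪ (T \ T').biUnion P) (Bd ∪ (Cl \ Fl) ∪ T'.biUnion P) rfl
    (by rw [Finset.sdiff_sdiff_eq_self hT'])
    h1.Fls h1.COs h1.Fln h1.Flc h1.Fds h1.Fdn h1.FdCO F2 ls.inj ls.lab ls.sinj ls.sm
    (by
      intro v hv hvF
      rcases Finset.mem_union.1 hv with hv | hv
      · rw [f1 v (Finset.mem_union_left _ (Finset.mem_union_right _ hv)),
          f1 (ι v) (Finset.mem_union_right _ (Finset.mem_image_of_mem _ hv))]
        exact h1.bal v hv hvF
      · obtain ⟨t, ht, hvt⟩ := Finset.mem_biUnion.1 hv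
        exact (f2 t ht v hvt).2)
    (fun w => -(2 * c * τ w))
    (by
      intro w _
      rcases hτ w with h | h <;> rw [h, abs_le] <;> constructor <;> linarith)
    (by
      intro v hv w hw had
      rcases Finset.mem_union.1 hv with hv | hv
      · have h2 := h1.bd v hv
        rw [f1 v (Finset.mem_union_left _ (Finset.mem_union_right _ hv))]
        have h3 : |F v + -(2 * c * τ w)| ≤ |F v| + 2 * c := by
          refine (abs_add_le _ _).trans (add_le_add le_rfl ?_)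
          rcases hτ w with h | h <;> rw [h, abs_le] <;> constructor <;> linarith
        linarith
      · obtain ⟨t, ht, hvt⟩ := Finset.mem_biUnion.1 hv
        have h2 := hpos w hw t ht v hvt had
        rw [← (f2 t ht v hvt).1] at h2
        refine near85 hc (hτ w) rfl ?_ h2
        have h3 : (g v).natAbs ∈ LC n := hXL (mem_pm.1 (g1 t ht v hvt))
        rw [mem_LC] at h3
        rw [(f2 t ht v hvt).1]
        have h4 : |g v| ≤ n := by
          rw [Int.abs_eq_natAbs]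
          exact_mod_cast h3.1.2
        rcases hσ t with h | h <;> rw [h]
        · rwa [one_mul]
        · rwa [neg_one_mul, abs_neg])
    (KL ∪ X1) (KS ∪ S1') (X \ X1) (S \ S1') Lc Sc ls.cls ls.cL ls.scls ls.cS pX1 pX2 pX3 pX4 pS1 pS2 pS3 pS4
    ha1 hb1 h1.abs
    (by
      intro L S' hA
      obtain ⟨g', e1, e2, e3, e4⟩ := h1.ext L S' hA
      refine ⟨fun v => if v ∈ Fl then g' v else F2 v, ?_, ?_, ?_, ?_⟩
      · intro v hv
        simp only [hv, if_false]
      · intro v hv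
        simp only [hv, if_true]
        exact e2 v hv
      · rw [← e3]
        refine Multiset.map_congr rfl fun v hv => ?_
        have hv' : v ∈ Fl := hv
        simp only [hv', if_true]
      · rw [← e4]
        have key : ∀ x ∈ Fl ∪ CO, (if x ∈ Fl then g' x else F2 x) = g' x := by
          intro x hx
          by_cases hxF : x ∈ Fl
          · rw [if_pos hxF]
          · rw [if_neg hxF, e1 x hxF]
            have hxC : x ∈ CO := (Finset.mem_union.1 hx).resolve_left hxF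
            exact f1 x (Finset.mem_union_left _ (Finset.mem_union_right _
              (Finset.mem_union_right _ (h1.COs hxC))))
        refine Multiset.map_congr rfl fun i hi => ?_
        have hi' : i ∈ EdT p Fl CO := hi
        unfold EdT EdI at hi'
        rw [Finset.mem_filter, Finset.mem_filter] at hi'
        beta_reduce
        rw [key i hi'.1.1, key (p i) hi'.1.2.2])
    iL (fun s => (X \ X1).card + iS s) iL1
    (by
      intro x hx y hy hxy
      exact iS1 hx hy (Nat.add_left_cancel hxy))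
    (by
      intro x hx
      have := iL2 x hx
      omega)
    (by
      intro s hs
      have := iS2 s hs
      omega)
    (by
      intro x hx s hs h
      have := iL2 x hx
      omega)
    (fun _ => 1)
    (by
      intro v hv _
      have h2 := ls.lab v (Finset.mem_union_left _ (Finset.mem_union_right _ hv))
      rw [mem_Lab] at h2
      obtain ⟨k, hk⟩ := h2.2
      rw [hk]
      exact (Int.modEq_iff_dvd.2 ⟨-k, by push_cast; ring⟩))
    (fun _ _ => odd_one)
    (by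
      intro i _ _
      exact (Int.modEq_iff_dvd.2 ⟨-1, by norm_num⟩))
    (by
      intro s hs
      have h2 := hSL (Finset.mem_sdiff.1 hs).1
      rw [mem_SC] at h2
      obtain ⟨k, hk⟩ := h2.2
      rw [hk]
      exact (Int.modEq_iff_dvd.2 ⟨(k : ℤ) - 1, by push_cast; ring⟩))
    (by omega)
    (by
      refine le_trans ?_ hcap
      refine Nat.mul_le_mul_left _ (Nat.mul_le_mul_left _ (Nat.succ_le_succ ?_))
      calc (CN ∪ Rs ∪ (T \ T').biUnion P).card ≤ (CN ∪ Rs).card + ((T \ T').biUnion P).card :=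
            Finset.card_union_le _ _
        _ ≤ CN.card + Rs.card + ∑ τ ∈ T \ T', (P τ).card :=
            Nat.add_le_add (Finset.card_union_le _ _) Finset.card_biUnion_le)
  refine ⟨F', hF', ?_⟩
  rw [hF0, f1 0 (Finset.mem_union_left _ (Finset.mem_union_left _ hT.zE))]

end Pool.Agent.BD
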