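import Pool.Agent.Helper73.BD.L2

/-!
# BD-L3: the layout for `e = 1`

Proof in words.  `K` large (see below), `half1` with `s = 3D + 30`.  Put `δ' = (4/K)·D³·(something)` so small that `|E|, |Bd|, |CN|, |TT| ≤ δ'' n` with `δ''` as small as we like compared with `δ, ε, η, ρ, 1/D`
(choose `K` first, then `n0`).
Leaves (vertices with exactly one neighbour): at least `ε n`; those in `Q \ Bd` and their twins: `v ∈ Q \ Bd` has exactly one neighbour iff `ι v` has (all the neighbours of `v` are in `Q`, those of `ι v` in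
`ι(Q)`, `Twin.tw`); so at least `(ε n - |E| - 2|Bd|)/2` leaves are in `Q \ Bd`, and at least `(ε n - |E| - 2|Bd|)/2 - |CN| - D|CN|` leaves `v` are in a component `P t` together with their neighbour `p v`
(`0 ∈ E`; the neighbour is `p v` and is in `P t` or `CN`).  (If `v` and `p v` are both leaves then `n = 2`.)
`lf t` = number of the leaves `v ∈ P t` with `p v ∈ P t`, `sz t = |P t|`, `N = n/2 ≥ |Q|`: `choose_comps` with `θ = ε/2` (`θ N = ε n/4`) gives `TC`, `∑_{TC} sz ≤ η n`, `∑_{TC} lf ≥ ε η n/16`.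
`Cl = ⋃_{TC} P t`; `leaf_sites` for `A = Cl` gives `m ≥ ε η n/(32 D)` leaf sites; `J = m / 2`, the site `j` consists of the leaf sites `2j`, `2j+1`.
`Rs`: the components not in `TC` have total size `≥ n/2 - ηn/2·.. - |Bd| - |CN| - ... ≥ ρ n` (`η ≤ 1/10`, `2|Q| = n - |E|`), `choose_size` with `M = ρ n`: `TR`; `Rs = ⋃_{TR} P t`, `ρ n - K ≤ |Rs| ≤ ρ n`.
`cover_sites` with `κ = |TT|` (every tree `P t` has `|P t| - 1` edges), `κ' = 2|TT|` (the vertices of `P t` adjacent to a vertex outside `Rs` are in `En t`).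
`T = TT \ (TC ∪ TR)`, `Mn = ⋃_T P t`.
-/

set_option autoImplicit false

namespace Pool.Agent.BD

open Finset Pool.Agent.SEM

private lemma ad_symm_23 {p : ℕ → ℕ} {v w : ℕ} (h : Ad p v w) : Ad p w v := Or.symm h

private lemma nb_Q_23 {n D : ℕ} {p ι : ℕ → ℕ} {E Bd Q : Finset ℕ} (h : Twin n D p ι E Bd Q) {v w : ℕ}
    (hv : v ∈ Q) (hb : v ∉ Bd) (hw : w < n) (ha : Ad p v w) : w ∈ Q := by
  have h1 : w ∈ E ∪ Q ∪ Q.image ι := by rw [← h.cov]; exact mem_range.2 hw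
  rcases mem_union.1 h1 with h2 | h2
  · rcases mem_union.1 h2 with h3 | h3
    · exact absurd ha (h.inner v hv hb w h3).1
    · exact h3
  · obtain ⟨w', hw', rfl⟩ := mem_image.1 h2
    exact absurd ha (h.cr v hv w' hw')

private lemma nbs_card_23 {n D : ℕ} {p ι : ℕ → ℕ} {E Bd Q : Finset ℕ} (h : Twin n D p ι E Bd Q) {v : ℕ}
    (hv : v ∈ Q) (hb : v ∉ Bd) : (nbs n p (ι v)).card = (nbs n p v).card := by
  have hsub : nbs n p v ⊆ Q := by
    intro w hw
    obtain ⟨h1, h2⟩ := mem_filter.1 hw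
    exact nb_Q_23 h hv hb (mem_range.1 h1) h2
  have heq : nbs n p (ι v) = (nbs n p v).image ι := by
    ext w
    constructor
    · intro hw
      obtain ⟨h1, h2⟩ := mem_filter.1 hw
      have h3 : w ∈ E ∪ Q ∪ Q.image ι := by rw [← h.cov]; exact h1
      rcases mem_union.1 h3 with h4 | h4
      · rcases mem_union.1 h4 with h5 | h5
        · exact absurd h2 (h.inner v hv hb w h5).2
        · exact absurd (ad_symm_23 h2) (h.cr w h5 v hv)
      · obtain ⟨w', hw', rfl⟩ := mem_image.1 h4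
        refine mem_image_of_mem ι (mem_filter.2 ⟨h.Qn hw', (h.tw v hv w' hw').2 h2⟩)
    · intro hw
      obtain ⟨w', hw', rfl⟩ := mem_image.1 hw
      obtain ⟨h1, h2⟩ := mem_filter.1 hw'
      have h3 := hsub hw'
      exact mem_filter.2 ⟨mem_range.2 (h.ιn w' h3).1, (h.tw v hv w' h3).1 h2⟩
  rw [heq]
  exact card_image_of_injOn (h.ιinj.mono (by exact_mod_cast hsub))

private lemma card_Q_23 {n D : ℕ} {p ι : ℕ → ℕ} {E Bd Q : Finset ℕ} (h : Twin n D p ι E Bd Q) :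
    n = E.card + 2 * Q.card := by
  have h1 : Disjoint (E ∪ Q) (Q.image ι) := by
    rw [disjoint_left]
    intro x hx hx'
    obtain ⟨v, hv, rfl⟩ := mem_image.1 hx'
    obtain ⟨_, h3, h4⟩ := h.ιn v hv
    rcases mem_union.1 hx with h5 | h5
    · exact h4 h5
    · exact h3 h5
  have h2 := congrArg Finset.card h.cov
  rw [card_range, card_union_of_disjoint h1, card_union_of_disjoint h.EQ,
    card_image_of_injOn h.ιinj] at h2
  omega

private lemma leaves_23 {n D : ℕ} {p ι : ℕ → ℕ} {E Bd Q : Finset ℕ} (h : Twin n D p ι E Bd Q) :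
    ((range n).filter fun v => (nbs n p v).card = 1).card ≤
      E.card + 2 * Bd.card + 2 * ((Q \ Bd).filter fun v => (nbs n p v).card = 1).card := by
  set L0 := (Q \ Bd).filter fun v => (nbs n p v).card = 1 with hL0
  have hsub : ((range n).filter fun v => (nbs n p v).card = 1) ⊆
      (E ∪ (Bd ∪ Bd.image ι)) ∪ (L0 ∪ L0.image ι) := by
    intro w hw
    obtain ⟨h1, h2⟩ := mem_filter.1 hw
    have h3 : w ∈ E ∪ Q ∪ Q.image ι := by rw [← h.cov]; exact h1
    simp only [mem_union]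
    rcases mem_union.1 h3 with h4 | h4
    · rcases mem_union.1 h4 with h5 | h5
      · exact Or.inl (Or.inl h5)
      · by_cases hb : w ∈ Bd
        · exact Or.inl (Or.inr (Or.inl hb))
        · exact Or.inr (Or.inl (mem_filter.2 ⟨mem_sdiff.2 ⟨h5, hb⟩, h2⟩))
    · obtain ⟨v, hv, rfl⟩ := mem_image.1 h4
      by_cases hb : v ∈ Bd
      · exact Or.inl (Or.inr (Or.inr (mem_image_of_mem ι hb)))
      · refine Or.inr (Or.inr (mem_image_of_mem ι (mem_filter.2 ⟨mem_sdiff.2 ⟨hv, hb⟩, ?_⟩)))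
        rw [← nbs_card_23 h hv hb]
        exact h2
  have c1 := card_le_card hsub
  have c2 := card_union_le (E ∪ (Bd ∪ Bd.image ι)) (L0 ∪ L0.image ι)
  have c3 := card_union_le E (Bd ∪ Bd.image ι)
  have c4 := card_union_le Bd (Bd.image ι)
  have c5 := card_union_le L0 (L0.image ι)
  have c6 : (Bd.image ι).card ≤ Bd.card := card_image_le
  have c7 : (L0.image ι).card ≤ L0.card := card_image_le
  omega

private lemma comps_23 {n D K : ℕ} {p ι : ℕ → ℕ} {E Bd CN Q TT : Finset ℕ} {P En : ℕ → Finset ℕ}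
    (h : Hs n D K p ι E Bd CN Q TT P En) :
    ((Q \ Bd).filter fun v => (nbs n p v).card = 1).card ≤
      (D + 1) * CN.card + ∑ t ∈ TT, ((P t).filter fun v => (nbs n p v).card = 1 ∧ p v ∈ P t).card := by
  have hsub : ((Q \ Bd).filter fun v => (nbs n p v).card = 1) ⊆
      (CN ∪ CN.biUnion (fun w => Q.filter fun x => Ad p w x)) ∪
        TT.biUnion (fun t => (P t).filter fun v => (nbs n p v).card = 1 ∧ p v ∈ P t) := by
    intro v hv
    obtain ⟨h1, h2⟩ := mem_filter.1 hv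
    obtain ⟨hQ, hb⟩ := mem_sdiff.1 h1
    have h3 : v ∈ Bd ∪ CN ∪ TT.biUnion P := by rw [← h.Q_eq]; exact hQ
    rcases mem_union.1 h3 with h4 | h4
    · rcases mem_union.1 h4 with h5 | h5
      · exact absurd h5 hb
      · exact mem_union_left _ (mem_union_left _ h5)
    · obtain ⟨t, ht, hvt⟩ := mem_biUnion.1 h4
      have hv0 : 0 < v := by
        rcases Nat.eq_zero_or_pos v with h5 | h5
        · subst h5
          exact absurd hQ (disjoint_left.1 h.twin.EQ h.twin.zE)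
        · exact h5
      have hvn : v < n := mem_range.1 (h.twin.Qn hQ)
      have hpv : p v < v := h.twin.par v hv0 hvn
      have ha : Ad p v (p v) := Or.inl ⟨hv0, rfl⟩
      have hpQ : p v ∈ Q := nb_Q_23 h.twin hQ hb (by omega) ha
      rcases h.aM t ht v hvt (p v) hpQ ha with h5 | h5
      · exact mem_union_right _ (mem_biUnion.2 ⟨t, ht, mem_filter.2 ⟨hvt, h2, h5⟩⟩)
      · exact mem_union_left _ (mem_union_right _
          (mem_biUnion.2 ⟨p v, h5.1, mem_filter.2 ⟨hQ, Or.inr ⟨hv0, rfl⟩⟩⟩))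
  have c1 := card_le_card hsub
  have c2 := card_union_le (CN ∪ CN.biUnion (fun w => Q.filter fun x => Ad p w x))
    (TT.biUnion (fun t => (P t).filter fun v => (nbs n p v).card = 1 ∧ p v ∈ P t))
  have c3 := card_union_le CN (CN.biUnion (fun w => Q.filter fun x => Ad p w x))
  have c4 : (CN.biUnion (fun w => Q.filter fun x => Ad p w x)).card ≤ CN.card * D :=
    card_biUnion_le_card_mul _ _ _ fun w hw => h.twin.deg w (h.CQ hw)
  have c5 : (TT.biUnion (fun t => (P t).filter fun v => (nbs n p v).card = 1 ∧ p v ∈ P t)).card ≤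
      ∑ t ∈ TT, ((P t).filter fun v => (nbs n p v).card = 1 ∧ p v ∈ P t).card := card_biUnion_le
  have c6 : (D + 1) * CN.card = CN.card + CN.card * D := by ring
  omega

private lemma pos_of_Q_23 {n D : ℕ} {p ι : ℕ → ℕ} {E Bd Q : Finset ℕ} (h : Twin n D p ι E Bd Q) {v : ℕ}
    (hv : v ∈ Q) : 0 < v ∧ v < n ∧ p v < v := by
  have hv0 : 0 < v := by
    rcases Nat.eq_zero_or_pos v with h5 | h5
    · subst h5
      exact absurd hv (disjoint_left.1 h.EQ h.zE)
    · exact h5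
  have hvn : v < n := mem_range.1 (h.Qn hv)
  exact ⟨hv0, hvn, h.par v hv0 hvn⟩

private lemma P_sub_23 {n D K : ℕ} {p ι : ℕ → ℕ} {E Bd CN Q TT : Finset ℕ} {P En : ℕ → Finset ℕ}
    (h : Hs n D K p ι E Bd CN Q TT P En) {t : ℕ} (ht : t ∈ TT) : P t ⊆ Q := by
  intro v hv
  rw [h.Q_eq]
  exact mem_union_right _ (mem_biUnion.2 ⟨t, ht, hv⟩)

private lemma lf_sites_23 {n D K : ℕ} {p ι : ℕ → ℕ} {E Bd CN Q TT : Finset ℕ} {P En : ℕ → Finset ℕ}
    (h : Hs n D K p ι E Bd CN Q TT P En) {TC : Finset ℕ} (hTC : TC ⊆ TT) :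
    ∑ t ∈ TC, ((P t).filter fun v => (nbs n p v).card = 1 ∧ p v ∈ P t).card ≤
      ((TC.biUnion P).filter fun v => (nbs n p v).card = 1 ∧ p v ∈ TC.biUnion P ∧
        (nbs n p (p v)).card ≠ 1).card := by
  rw [← card_biUnion]
  · apply card_le_card
    intro v hv
    obtain ⟨t, ht, hvt⟩ := mem_biUnion.1 hv
    obtain ⟨h1, h2, h3⟩ := mem_filter.1 hvt
    have hQ : v ∈ Q := P_sub_23 h (hTC ht) h1
    have hpQ : p v ∈ Q := P_sub_23 h (hTC ht) h3
    obtain ⟨a1, a2, a3⟩ := pos_of_Q_23 h.twin hQ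
    obtain ⟨b1, b2, b3⟩ := pos_of_Q_23 h.twin hpQ
    refine mem_filter.2 ⟨mem_biUnion.2 ⟨t, ht, h1⟩, h2, mem_biUnion.2 ⟨t, ht, h3⟩, ?_⟩
    have : 1 < (nbs n p (p v)).card := by
      rw [one_lt_card]
      refine ⟨v, mem_filter.2 ⟨mem_range.2 a2, Or.inr ⟨a1, rfl⟩⟩, p (p v),
        mem_filter.2 ⟨mem_range.2 (by omega), Or.inl ⟨b1, rfl⟩⟩, by omega⟩
    omega
  · intro t ht t' ht' hne
    have := h.dj t (hTC ht) t' (hTC ht') hne
    exact (this.mono (filter_subset _ _) (filter_subset _ _))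

private lemma size_23 {n D K : ℕ} {p ι : ℕ → ℕ} {E Bd CN Q TT : Finset ℕ} {P En : ℕ → Finset ℕ}
    (h : Hs n D K p ι E Bd CN Q TT P En) {TC : Finset ℕ} (hTC : TC ⊆ TT) :
    (TC.biUnion P).card = ∑ t ∈ TC, (P t).card :=
  card_biUnion fun t ht t' ht' hne => h.dj t (hTC ht) t' (hTC ht') hne

private lemma disj_23 {n D K : ℕ} {p ι : ℕ → ℕ} {E Bd CN Q TT : Finset ℕ} {P En : ℕ → Finset ℕ}
    (h : Hs n D K p ι E Bd CN Q TT P En) {A B : Finset ℕ} (hA : A ⊆ TT) (hB : B ⊆ TT)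
    (hAB : Disjoint A B) : Disjoint (A.biUnion P) (B.biUnion P) := by
  rw [disjoint_left]
  intro x hx hx'
  obtain ⟨t, ht, h1⟩ := mem_biUnion.1 hx
  obtain ⟨t', ht', h2⟩ := mem_biUnion.1 hx'
  have hne : t ≠ t' := by
    rintro rfl
    exact disjoint_left.1 hAB ht ht'
  exact disjoint_left.1 (h.dj t (hA ht) t' (hB ht') hne) h1 h2

private lemma adj_23 {n D K : ℕ} {p ι : ℕ → ℕ} {E Bd CN Q TT : Finset ℕ} {P En : ℕ → Finset ℕ}
    (h : Hs n D K p ι E Bd CN Q TT P En) {A : Finset ℕ} (hA : A ⊆ TT) :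
    ∀ v ∈ A.biUnion P, ∀ w ∈ Q, Ad p v w → w ∈ A.biUnion P ∪ CN := by
  intro v hv w hw ha
  obtain ⟨t, ht, h1⟩ := mem_biUnion.1 hv
  rcases h.aM t (hA ht) v h1 w hw ha with h2 | h2
  · exact mem_union_left _ (mem_biUnion.2 ⟨t, ht, h2⟩)
  · exact mem_union_right _ h2.1

private lemma edges_23 {n D K : ℕ} {p ι : ℕ → ℕ} {E Bd CN Q TT : Finset ℕ} {P En : ℕ → Finset ℕ}
    (h : Hs n D K p ι E Bd CN Q TT P En) {A : Finset ℕ} (hA : A ⊆ TT) :
    (A.biUnion P).card ≤ (EdI p (A.biUnion P)).card + TT.card := by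
  have hsub : A.biUnion P ⊆ EdI p (A.biUnion P) ∪ TT := by
    intro v hv
    obtain ⟨t, ht, h1⟩ := mem_biUnion.1 hv
    by_cases hvt : v = t
    · exact mem_union_right _ (hvt ▸ hA ht)
    · obtain ⟨h2, h3⟩ := (h.tree t (hA ht)).2.1 v h1 hvt
      exact mem_union_left _ (mem_filter.2 ⟨hv, by omega, mem_biUnion.2 ⟨t, ht, h2⟩⟩)
  exact (card_le_card hsub).trans (card_union_le _ _)

private lemma exits_23 {n D K : ℕ} {p ι : ℕ → ℕ} {E Bd CN Q TT : Finset ℕ} {P En : ℕ → Finset ℕ}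
    (h : Hs n D K p ι E Bd CN Q TT P En) {A : Finset ℕ} (hA : A ⊆ TT) :
    ((A.biUnion P).filter fun v => ∃ w ∈ Q, Ad p v w ∧ w ∉ A.biUnion P).card ≤ 2 * TT.card := by
  have hsub : ((A.biUnion P).filter fun v => ∃ w ∈ Q, Ad p v w ∧ w ∉ A.biUnion P) ⊆
      A.biUnion En := by
    intro v hv
    obtain ⟨h0, w, hw, ha, hn⟩ := mem_filter.1 hv
    obtain ⟨t, ht, h1⟩ := mem_biUnion.1 h0
    rcases h.aM t (hA ht) v h1 w hw ha with h2 | h2
    · exact absurd (mem_biUnion.2 ⟨t, ht, h2⟩) hn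
    · exact mem_biUnion.2 ⟨t, ht, h2.2⟩
  have c1 : (A.biUnion En).card ≤ A.card * 2 :=
    card_biUnion_le_card_mul _ _ _ fun t ht => (h.en t (hA ht)).2
  have c2 := card_le_card hA
  have c3 := card_le_card hsub
  omega

private lemma sts_23 {n m : ℕ} {p : ℕ → ℕ} {Cl : Finset ℕ} {a v : ℕ → ℕ}
    (h1 : ∀ j, j < m → a j ∈ Cl ∧ v j ∈ Cl ∧ ∀ w, w < n → (Ad p (v j) w ↔ w = a j))
    (h2 : ∀ i, i < m → ∀ j, j < m →
      (a i = a j → i = j) ∧ (v i = v j → i = j) ∧ a i ≠ v j ∧ ¬ Ad p (a i) (a j)) :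
    Sts n 1 (m / 2) p Cl (fun j => a (2 * j)) (fun j => v (2 * j)) (fun j => v (2 * j + 1))
      (fun j => a (2 * j + 1)) := by
  constructor
  · intro j hj
    exact ⟨(h1 _ (by omega)).1, (h1 _ (by omega)).2.1, (h1 _ (by omega)).2.1, (h1 _ (by omega)).1⟩
  · intro i hi j hj f hf g hg hfg
    simp only [List.mem_cons, List.not_mem_nil, or_false] at hf hg
    have e00 := h2 (2 * i) (by omega) (2 * j) (by omega)
    have e01 := h2 (2 * i) (by omega) (2 * j + 1) (by omega)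
    have e10 := h2 (2 * i + 1) (by omega) (2 * j) (by omega)
    have e11 := h2 (2 * i + 1) (by omega) (2 * j + 1) (by omega)
    have d00 := h2 (2 * j) (by omega) (2 * i) (by omega)
    have d01 := h2 (2 * j) (by omega) (2 * i + 1) (by omega)
    have d10 := h2 (2 * j + 1) (by omega) (2 * i) (by omega)
    have d11 := h2 (2 * j + 1) (by omega) (2 * i + 1) (by omega)
    rcases hf with rfl | rfl | rfl | rfl <;> rcases hg with rfl | rfl | rfl | rfl <;>
      simp only at hfg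
    · have := e00.1 hfg; omega
    · exact absurd hfg e00.2.2.1
    · exact absurd hfg e01.2.2.1
    · have := e01.1 hfg; omega
    · exact absurd hfg.symm d00.2.2.1
    · have := e00.2.1 hfg; omega
    · have := e01.2.1 hfg; omega
    · exact absurd hfg.symm d10.2.2.1
    · exact absurd hfg.symm d01.2.2.1
    · have := e10.2.1 hfg; omega
    · have := e11.2.1 hfg; omega
    · exact absurd hfg.symm d11.2.2.1
    · have := e10.1 hfg; omega
    · exact absurd hfg e10.2.2.1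
    · exact absurd hfg e11.2.2.1
    · have := e11.1 hfg; omega
  · intro j hj
    have e00 := h2 (2 * j) (by omega) (2 * j) (by omega)
    have e01 := h2 (2 * j) (by omega) (2 * j + 1) (by omega)
    have e10 := h2 (2 * j + 1) (by omega) (2 * j) (by omega)
    have e11 := h2 (2 * j + 1) (by omega) (2 * j + 1) (by omega)
    simp only [List.nodup_cons, List.mem_cons, List.not_mem_nil, or_false, not_or,
      not_false_eq_true, List.nodup_nil, and_true]
    refine ⟨⟨e00.2.2.1, e01.2.2.1, ?_⟩, ⟨?_, ?_⟩, ?_⟩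
    · intro h
      have := e01.1 h
      omega
    · intro h
      have := e01.2.1 h
      omega
    · exact fun h => e10.2.2.1 h.symm
    · exact fun h => e11.2.2.1 h.symm
  · intro _ j hj w hw
    exact ⟨(h1 _ (by omega)).2.2 w hw, (h1 _ (by omega)).2.2 w hw⟩
  · intro h; omega
  · intro i hi j hj f hf g hg
    simp only [List.mem_cons, List.not_mem_nil, or_false] at hf hg
    rcases hf with rfl | rfl <;> rcases hg with rfl | rfl
    · exact (h2 _ (by omega) _ (by omega)).2.2.2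
    · exact (h2 _ (by omega) _ (by omega)).2.2.2
    · exact (h2 _ (by omega) _ (by omega)).2.2.2
    · exact (h2 _ (by omega) _ (by omega)).2.2.2

private lemma num_23 {D : ℕ} (hD : 2 ≤ D) {ν μ : ℝ} (hμ : 0 ≤ μ)
    (h : (2 * (D : ℝ) + 1) * ((D : ℝ) + 1) ^ 3 * μ ≤ ν) :
    (1 + D + (D : ℝ) ^ 2) * μ ≤ ν ∧ μ / 2 + D * μ + (D + 1) * ((D : ℝ) ^ 2 * μ) ≤ ν ∧
      (2 * (D : ℝ) + 1) * ((D : ℝ) ^ 3 * μ) ≤ ν := by
  have hd : (2 : ℝ) ≤ D := by exact_mod_cast hD
  have h1 : 1 + D + (D : ℝ) ^ 2 ≤ (2 * (D : ℝ) + 1) * ((D : ℝ) + 1) ^ 3 := by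
    nlinarith [pow_pos (by linarith : (0:ℝ) < D) 2, pow_pos (by linarith : (0:ℝ) < D) 3,
      pow_pos (by linarith : (0:ℝ) < D) 4]
  have h2 : 1 / 2 + D + (D + 1) * (D : ℝ) ^ 2 ≤ (2 * (D : ℝ) + 1) * ((D : ℝ) + 1) ^ 3 := by
    nlinarith [pow_pos (by linarith : (0:ℝ) < D) 2, pow_pos (by linarith : (0:ℝ) < D) 3,
      pow_pos (by linarith : (0:ℝ) < D) 4]
  have h3 : (2 * (D : ℝ) + 1) * (D : ℝ) ^ 3 ≤ (2 * (D : ℝ) + 1) * ((D : ℝ) + 1) ^ 3 := by
    apply mul_le_mul_of_nonneg_left _ (by positivity)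
    exact pow_le_pow_left₀ (by positivity) (by linarith) 3
  refine ⟨?_, ?_, ?_⟩
  · exact (mul_le_mul_of_nonneg_right h1 hμ).trans h
  · have : μ / 2 + D * μ + (D + 1) * ((D : ℝ) ^ 2 * μ) =
        (1 / 2 + D + (D + 1) * (D : ℝ) ^ 2) * μ := by ring
    rw [this]
    exact (mul_le_mul_of_nonneg_right h2 hμ).trans h
  · have : (2 * (D : ℝ) + 1) * ((D : ℝ) ^ 3 * μ) = (2 * (D : ℝ) + 1) * (D : ℝ) ^ 3 * μ := by ring
    rw [this]
    exact (mul_le_mul_of_nonneg_right h3 hμ).trans h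

theorem lay1 (D s : ℕ) (ε η ρ δ : ℝ) (hD : 2 ≤ D) (hε : 0 < ε) (hε1 : ε ≤ 1) (hη : 0 < η) (hη1 : η ≤ 1 / 10) (hρ : 0 < ρ)
    (hρ1 : ρ ≤ 1 / 10) (hδ : 0 < δ) :
    ∃ K n0 : ℕ, 2 ≤ K ∧ ∀ (n : ℕ) (p : ℕ → ℕ), n0 ≤ n → Even n → Par n p → (∀ v, v < n → (nbs n p v).card ≤ D) →
    ε * n ≤ (((range n).filter fun v => (nbs n p v).card = 1).card : ℝ) → ∀ Z ⊆ range n, Z.card ≤ s →
    ∃ (ι : ℕ → ℕ) (E Bd CN Cl Rs Mn T : Finset ℕ) (P En : ℕ → Finset ℕ) (sa sv sw sb cv cw : ℕ → ℕ) (J Jc : ℕ),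
      Twin n D p ι E Bd (QQ Bd CN Cl Rs Mn) ∧ Dvs n D K p Bd CN Cl Rs Mn T P En ∧
      Sts n 1 J p Cl sa sv sw sb ∧ Cvs Jc p (QQ Bd CN Cl Rs Mn) Rs cv cw ∧ Z ⊆ E ∧
      (E.card : ℝ) + Bd.card + CN.card ≤ δ * n ∧ (Cl.card : ℝ) ≤ η * n ∧ ε * η / (100 * D) * n ≤ J ∧
      (Rs.card : ℝ) ≤ ρ * n ∧ ρ / (10 * ((D : ℝ) + 1) ^ 3) * n ≤ Jc := by
  have hd : (2 : ℝ) ≤ D := by exact_mod_cast hD
  set W : ℝ := (2 * (D : ℝ) + 1) * ((D : ℝ) + 1) ^ 3 with hW
  have hW0 : 0 < W := by positivity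
  set ν : ℝ := min δ (min (ε / 4) (min (1 / 4) (2 / 5 * ρ))) with hν
  have hν0 : 0 < ν := by
    rw [hν]
    exact lt_min hδ (lt_min (by positivity) (lt_min (by norm_num) (by positivity)))
  have ν1 : ν ≤ δ := min_le_left _ _
  have ν2 : ν ≤ ε / 4 := (min_le_right _ _).trans (min_le_left _ _)
  have ν3 : ν ≤ 1 / 4 := (min_le_right _ _).trans ((min_le_right _ _).trans (min_le_left _ _))
  have ν4 : ν ≤ 2 / 5 * ρ := (min_le_right _ _).trans ((min_le_right _ _).trans (min_le_right _ _))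
  obtain ⟨K, hK2, hKν⟩ : ∃ K : ℕ, 2 ≤ K ∧ W * (5 / (K : ℝ)) ≤ ν := by
    obtain ⟨K1, hK1⟩ := exists_nat_ge (5 * W / ν)
    refine ⟨max 2 K1, le_max_left _ _, ?_⟩
    have h1 : 5 * W / ν ≤ ((max 2 K1 : ℕ) : ℝ) := hK1.trans (by exact_mod_cast le_max_right _ _)
    have h2 : (0 : ℝ) < ((max 2 K1 : ℕ) : ℝ) := by
      have : (2 : ℕ) ≤ max 2 K1 := le_max_left _ _
      have : (2 : ℝ) ≤ ((max 2 K1 : ℕ) : ℝ) := by exact_mod_cast this
      linarith
    rw [div_le_iff₀ hν0] at h1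
    rw [mul_div_assoc', div_le_iff₀ h2]
    linarith
  have hK0 : (0 : ℝ) < K := by
    have : (2 : ℝ) ≤ K := by exact_mod_cast hK2
    linarith
  set μ : ℝ := 5 / (K : ℝ) with hμ
  have hμ0 : 0 < μ := by positivity
  obtain ⟨m1, m2, m3⟩ := num_23 hD hμ0.le hKν
  obtain ⟨C, hC⟩ := half1 D K s (by omega) hK2
  obtain ⟨n0, hn0⟩ := exists_nat_ge
    (4 * (K : ℝ) + C * K + 4 * K / η + 4 * K / ρ + 100 * D / (ε * η) + 1)
  refine ⟨K, n0, hK2, ?_⟩
  intro n p hn heven hp hdeg hlv Z hZ hZs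
  have hnR : (n0 : ℝ) ≤ n := by exact_mod_cast hn
  have t1 : 0 < 4 * (K : ℝ) := by positivity
  have t2 : 0 ≤ (C : ℝ) * K := by positivity
  have t3 : 0 < 4 * K / η := by positivity
  have t4 : 0 < 4 * K / ρ := by positivity
  have t5 : 0 < 100 * D / (ε * η) := by positivity
  have hn1 : 4 * (K : ℝ) ≤ n := by linarith
  have hn2 : (C : ℝ) * K ≤ n := by linarith
  have hn3 : 4 * K / η ≤ n := by linarith
  have hn4 : 4 * K / ρ ≤ n := by linarith
  have hn5 : 100 * D / (ε * η) ≤ n := by linarith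
  have hn6 : (1 : ℝ) ≤ n := by linarith
  have hnpos : 0 < n := by
    have : (0 : ℝ) < n := by linarith
    exact_mod_cast this
  rw [div_le_iff₀ hη] at hn3
  rw [div_le_iff₀ hρ] at hn4
  rw [div_le_iff₀ (by positivity)] at hn5
  obtain ⟨ι, E, Bd, CN, Q, TT, P, En, hH, hZE, bE, bB, bC, bT⟩ := hC n p hnpos hp hdeg Z hZ hZs
  -- sizes
  have hx : 4 * (n : ℝ) / K + 4 ≤ μ * n := by
    rw [hμ, div_mul_eq_mul_div, div_add' _ _ _ hK0.ne']
    apply div_le_div_of_nonneg_right _ hK0.le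
    linarith
  have sE : (E.card : ℝ) ≤ μ * n := by
    refine bE.trans ?_
    rw [hμ, div_mul_eq_mul_div, div_add' _ _ _ hK0.ne']
    apply div_le_div_of_nonneg_right _ hK0.le
    linarith
  have sB : (Bd.card : ℝ) ≤ D * μ * n := by
    refine bB.trans ?_
    rw [mul_assoc]
    exact mul_le_mul_of_nonneg_left hx (by positivity)
  have sC : (CN.card : ℝ) ≤ (D : ℝ) ^ 2 * μ * n := by
    refine bC.trans ?_
    rw [mul_assoc]
    exact mul_le_mul_of_nonneg_left hx (by positivity)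
  have sT : (TT.card : ℝ) ≤ (D : ℝ) ^ 3 * μ * n := by
    refine bT.trans ?_
    rw [mul_assoc]
    exact mul_le_mul_of_nonneg_left hx (by positivity)
  have hQc := card_Q_23 hH.twin
  have hQcR : (n : ℝ) = E.card + 2 * Q.card := by exact_mod_cast hQc
  have hEnn : (0 : ℝ) ≤ E.card := by positivity
  have hsizeTT : ∑ t ∈ TT, ((P t).card : ℝ) + Bd.card + CN.card = Q.card := by
    have h1 : Q.card = Bd.card + CN.card + ∑ t ∈ TT, (P t).card := by
      conv_lhs => rw [hH.Q_eq]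
      rw [card_union_of_disjoint hH.dP, card_union_of_disjoint hH.BC, size_23 hH (Subset.refl _)]
    have h2 : (Q.card : ℝ) = Bd.card + CN.card + ∑ t ∈ TT, ((P t).card : ℝ) := by
      exact_mod_cast h1
    linarith
  have hBnn : (0 : ℝ) ≤ Bd.card := by positivity
  have hCnn : (0 : ℝ) ≤ CN.card := by positivity
  -- clusters
  set lf : ℕ → ℕ := fun t => ((P t).filter fun v => (nbs n p v).card = 1 ∧ p v ∈ P t).card with hlf
  have hlfsum : ε / 2 * ((n : ℝ) / 2) ≤ ∑ t ∈ TT, (lf t : ℝ) := by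
    have c1 : ((((range n).filter fun v => (nbs n p v).card = 1).card : ℕ) : ℝ) ≤
        E.card + 2 * Bd.card + 2 * (((Q \ Bd).filter fun v => (nbs n p v).card = 1).card : ℝ) := by
      exact_mod_cast leaves_23 hH.twin
    have c2 : ((((Q \ Bd).filter fun v => (nbs n p v).card = 1).card : ℕ) : ℝ) ≤
        ((D : ℝ) + 1) * CN.card + ∑ t ∈ TT, (lf t : ℝ) := by
      exact_mod_cast comps_23 hH
    have c3 : ((D : ℝ) + 1) * CN.card ≤ ((D : ℝ) + 1) * ((D : ℝ) ^ 2 * μ * n) :=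
      mul_le_mul_of_nonneg_left sC (by positivity)
    have c4 : (μ / 2 + D * μ + (D + 1) * ((D : ℝ) ^ 2 * μ)) * n ≤ ε / 4 * n :=
      mul_le_mul_of_nonneg_right (m2.trans ν2) (by positivity)
    have c5 : (μ / 2 + D * μ + (D + 1) * ((D : ℝ) ^ 2 * μ)) * n =
        μ * n / 2 + D * μ * n + ((D : ℝ) + 1) * ((D : ℝ) ^ 2 * μ * n) := by ring
    linarith
  obtain ⟨TC, hTC, hTC1, hTC2⟩ := choose_comps (TT := TT) (sz := fun t => (P t).card) (lf := lf)
    (K := K) (N := (n : ℝ) / 2) (θ := ε / 2) (η := η) (by linarith) (by positivity) hη (by linarith)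
    (fun t ht => (hH.tree t ht).2.2) (by linarith) (by linarith) hlfsum
  set Cl := TC.biUnion P with hCl
  have hClc : (Cl.card : ℝ) = ∑ t ∈ TC, ((P t).card : ℝ) := by
    exact_mod_cast size_23 hH hTC
  have hClQ : Cl ⊆ Q := by
    intro v hv
    obtain ⟨t, ht, h1⟩ := mem_biUnion.1 hv
    exact P_sub_23 hH (hTC ht) h1
  have hCl0 : 0 ∉ Cl := fun h0 => by
    have := (pos_of_Q_23 hH.twin (hClQ h0)).1
    omega
  obtain ⟨m, a, v, hm, hs1, hs2⟩ := leaf_sites hp (by omega : 1 ≤ D) Cl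
    (fun v hv => hH.twin.Qn (hClQ hv)) hCl0
    (fun v hv => hdeg v (mem_range.1 (hH.twin.Qn (hClQ hv))))
  have hmR : ε * η / 16 * n ≤ 2 * D * m := by
    have c1 : ∑ t ∈ TC, (lf t : ℝ) ≤ 2 * D * m := by
      have := (lf_sites_23 hH hTC).trans hm
      exact_mod_cast this
    have c2 : ε / 2 * η / 4 * ((n : ℝ) / 2) = ε * η / 16 * n := by ring
    linarith
  -- reserved
  have hrest : ρ * n ≤ ∑ t ∈ TT \ TC, ((P t).card : ℝ) := by
    have c1 : ∑ t ∈ TT \ TC, ((P t).card : ℝ) + ∑ t ∈ TC, ((P t).card : ℝ) =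
        ∑ t ∈ TT, ((P t).card : ℝ) := sum_sdiff hTC
    have c2 : η * (n / 2) ≤ 1 / 10 * (n / 2) := mul_le_mul_of_nonneg_right hη1 (by positivity)
    have c3 : ρ * n ≤ 1 / 10 * n := mul_le_mul_of_nonneg_right hρ1 (by positivity)
    have c4 : (1 + D + (D : ℝ) ^ 2) * μ * n ≤ 1 / 4 * n :=
      mul_le_mul_of_nonneg_right (m1.trans ν3) (by positivity)
    have c5 : (1 + D + (D : ℝ) ^ 2) * μ * n = μ * n + D * μ * n + (D : ℝ) ^ 2 * μ * n := by ring
    linarith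
  obtain ⟨TR, hTR, hTR1, hTR2⟩ := choose_size (TT := TT \ TC) (sz := fun t => (P t).card) (K := K)
    (M := ρ * n) (by positivity) (fun t ht => (hH.tree t (mem_sdiff.1 ht).1).2.2) hrest
  have hTRT : TR ⊆ TT := hTR.trans sdiff_subset
  set Rs := TR.biUnion P with hRs
  have hRsc : (Rs.card : ℝ) = ∑ t ∈ TR, ((P t).card : ℝ) := by
    exact_mod_cast size_23 hH hTRT
  have hRsQ : Rs ⊆ Q := by
    intro v hv
    obtain ⟨t, ht, h1⟩ := mem_biUnion.1 hv
    exact P_sub_23 hH (hTRT ht) h1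
  obtain ⟨Jc, cv, cw, hJc, hcvs⟩ := cover_sites (n := n) (D := D) (κ := TT.card) (κ' := 2 * TT.card)
    (by omega) (fun i hi hi0 => (pos_of_Q_23 hH.twin hi).2.2) hRsQ hH.twin.deg
    (edges_23 hH hTRT) (exits_23 hH hTRT)
  -- main part
  set T := TT \ (TC ∪ TR) with hT
  have hTT : T ⊆ TT := sdiff_subset
  set Mn := T.biUnion P with hMn
  have hQQ : QQ Bd CN Cl Rs Mn = Q := by
    unfold QQ
    rw [hH.Q_eq]
    ext x
    simp only [mem_union, hCl, hRs, hMn, mem_biUnion, hT, mem_sdiff]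
    constructor
    · rintro ((((h | h) | ⟨t, ht, h⟩) | ⟨t, ht, h⟩) | ⟨t, ht, h⟩)
      · exact Or.inl (Or.inl h)
      · exact Or.inl (Or.inr h)
      · exact Or.inr ⟨t, hTC ht, h⟩
      · exact Or.inr ⟨t, hTRT ht, h⟩
      · exact Or.inr ⟨t, ht.1, h⟩
    · rintro ((h | h) | ⟨t, ht, h⟩)
      · exact Or.inl (Or.inl (Or.inl (Or.inl h)))
      · exact Or.inl (Or.inl (Or.inl (Or.inr h)))
      · by_cases h1 : t ∈ TC
        · exact Or.inl (Or.inl (Or.inr ⟨t, h1, h⟩))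
        · by_cases h2 : t ∈ TR
          · exact Or.inl (Or.inr ⟨t, h2, h⟩)
          · exact Or.inr ⟨t, ⟨ht, by tauto⟩, h⟩
  have dCR : Disjoint TC TR := by
    rw [disjoint_left]
    intro t h1 h2
    exact (mem_sdiff.1 (hTR h2)).2 h1
  have dCT : Disjoint TC T := by
    rw [disjoint_left]
    intro t h1 h2
    exact (mem_sdiff.1 h2).2 (mem_union_left _ h1)
  have dRT : Disjoint TR T := by
    rw [disjoint_left]
    intro t h1 h2
    exact (mem_sdiff.1 h2).2 (mem_union_right _ h1)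
  have hsubU : ∀ A ⊆ TT, A.biUnion P ⊆ TT.biUnion P := fun A hA => biUnion_subset_biUnion_of_subset_left P hA
  refine ⟨ι, E, Bd, CN, Cl, Rs, Mn, T, P, En, fun j => a (2 * j), fun j => v (2 * j),
    fun j => v (2 * j + 1), fun j => a (2 * j + 1), cv, cw, m / 2, Jc, ?_, ?_, sts_23 hs1 hs2, ?_,
    hZE, ?_, ?_, ?_, ?_, ?_⟩
  · rw [hQQ]; exact hH.twin
  · constructor
    · exact hH.BC
    · exact hH.dP.mono_right (hsubU TC hTC)
    · rw [disjoint_union_left]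
      exact ⟨hH.dP.mono_right (hsubU TR hTRT), disj_23 hH hTC hTRT dCR⟩
    · rw [disjoint_union_left, disjoint_union_left]
      exact ⟨⟨hH.dP.mono_right (hsubU T hTT), disj_23 hH hTC hTT dCT⟩, disj_23 hH hTRT hTT dRT⟩
    · rw [hQQ]; exact hH.aB
    · rw [hQQ]; exact adj_23 hH hTC
    · rw [hQQ]; exact adj_23 hH hTRT
    · rw [hQQ]; exact fun t ht => hH.aM t (hTT ht)
    · rfl
    · exact fun t ht t' ht' => hH.dj t (hTT ht) t' (hTT ht')
    · exact fun t ht => hH.tree t (hTT ht)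
    · exact fun t ht => hH.en t (hTT ht)
  · rw [hQQ]; exact hcvs
  · have c4 : (1 + D + (D : ℝ) ^ 2) * μ * n ≤ δ * n :=
      mul_le_mul_of_nonneg_right (m1.trans ν1) (by positivity)
    have c5 : (1 + D + (D : ℝ) ^ 2) * μ * n = μ * n + D * μ * n + (D : ℝ) ^ 2 * μ * n := by ring
    linarith
  · rw [hClc]
    have : 0 ≤ η * n := by positivity
    linarith
  · have c1 : (m : ℝ) ≤ 2 * ((m / 2 : ℕ) : ℝ) + 1 := by
      have : m ≤ 2 * (m / 2) + 1 := by omega
      exact_mod_cast this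
    have c2 : ε * η / (100 * D) * n = ε * η * n / (100 * D) := by ring
    rw [c2, div_le_iff₀ (by positivity)]
    have c3 : ε * η * n ≤ 32 * D * m := by
      have : ε * η / 16 * n = ε * η * n / 16 := by ring
      rw [this] at hmR
      linarith
    have c4 : 100 * (D : ℝ) ≤ ε * η * n := by linarith
    have c5 : (32 * D : ℝ) * m ≤ 32 * D * (2 * ((m / 2 : ℕ) : ℝ) + 1) :=
      mul_le_mul_of_nonneg_left c1 (by positivity)
    nlinarith
  · rw [hRsc]; exact hTR1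
  · have c1 : (Rs.card : ℝ) ≤ 2 * ((D : ℝ) + 1) ^ 3 * Jc + TT.card + D * (2 * TT.card) := by
      exact_mod_cast hJc
    rw [hRsc] at c1
    have c2 : (2 * (D : ℝ) + 1) * ((D : ℝ) ^ 3 * μ) * n ≤ 2 / 5 * ρ * n :=
      mul_le_mul_of_nonneg_right (m3.trans ν4) (by positivity)
    have c3 : (TT.card : ℝ) + D * (2 * TT.card) ≤ (2 * (D : ℝ) + 1) * ((D : ℝ) ^ 3 * μ) * n := by
      have : (TT.card : ℝ) + D * (2 * TT.card) = (2 * (D : ℝ) + 1) * TT.card := by ring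
      rw [this, mul_assoc (2 * (D : ℝ) + 1)]
      exact mul_le_mul_of_nonneg_left sT (by positivity)
    have c4 : ρ / (10 * ((D : ℝ) + 1) ^ 3) * n = ρ * n / 5 / (2 * ((D : ℝ) + 1) ^ 3) := by
      field_simp
      ring
    rw [c4, div_le_iff₀ (by positivity)]
    linarith

end Pool.Agent.BD
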