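import Mathlib

/-!
# BD-NU: numerical conditions
-/

set_option autoImplicit false

namespace Pool.Agent.BD

theorem nums {n E Bd CN Cl Rs J Jc FX FS D Qm qD q0 W1 C0 : ℕ} {η ρ δ ε' ζ jj jc μ ν : ℝ}
    (hn : 0 < n) (hW1 : 1 ≤ W1) (hqD : 1 ≤ qD) (hq0 : 1 ≤ q0)
    (h1 : (E : ℝ) + Bd + CN ≤ δ * n) (h2 : (Cl : ℝ) ≤ η * n) (h3 : jj * n ≤ J) (h4 : (Rs : ℝ) ≤ ρ * n) (h5 : jc * n ≤ Jc)
    (h6 : Qm * FX ≤ 2 * n) (h7 : 9 * n ≤ 20 * qD * (FX + 2)) (h8 : Qm * FS ≤ D * n) (h9 : n ≤ 4 * q0 * (FS + 2))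
    (hμ : 0 < μ) (c1 : (C0 : ℝ) * μ ≤ 1) (c2 : 10 ^ 6 * μ ≤ jj) (c3 : 4 * μ ≤ ζ) (c4 : 4 * ((D : ℝ) + 2) ≤ μ * Qm)
    (c5 : 8 * η ≤ ζ) (c6 : 20000 * ((D : ℝ) + 1) ^ 2 * η ≤ 1) (hδ0 : 0 ≤ δ) (c7 : 16 * δ ≤ μ) (c8 : δ ≤ ν) (c9 : ρ ≤ ν)
    (c10 : ε' ≤ ν) (c11 : 2 * ε' ≤ jc) (hν : 0 < ν) (c12 : ν * (1000 * W1 * qD * q0 * ((D : ℝ) + 1)) ≤ 1)
    (n1 : 400 ≤ μ * n) (n2 : 1000 * W1 * qD * q0 ≤ n) :
    C0 * (FX + FS + E + 2 * Bd + 100) ≤ n ∧ 10 ^ 6 * (FX + FS + E + 2 * Bd + 100) ≤ J ∧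
    20000 * (D + 1) ^ 2 * Cl ≤ n ∧ 2 * (CN + Rs) ≤ FX ∧ 2 * (D * (CN + Rs)) ≤ FS ∧ 2 ≤ FX ∧ 2 ≤ FS ∧
    (E : ℝ) + Bd + Cl + FX + FS ≤ ζ * n ∧
    ∀ σ : ℕ, (σ : ℝ) ≤ ε' * n → 2 * σ ≤ Jc ∧ W1 * (CN + Rs + σ + 1) ≤ n / 40 := by
  have hnR : (0 : ℝ) < n := by exact_mod_cast hn
  have hE : (0 : ℝ) ≤ E := Nat.cast_nonneg _
  have hBd : (0 : ℝ) ≤ Bd := Nat.cast_nonneg _
  have hCN : (0 : ℝ) ≤ CN := Nat.cast_nonneg _
  have hRs : (0 : ℝ) ≤ Rs := Nat.cast_nonneg _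
  have hD : (0 : ℝ) ≤ D := Nat.cast_nonneg _
  have hW1R : (1 : ℝ) ≤ W1 := by exact_mod_cast hW1
  have hqDR : (1 : ℝ) ≤ qD := by exact_mod_cast hqD
  have hq0R : (1 : ℝ) ≤ q0 := by exact_mod_cast hq0
  have h6R : (Qm : ℝ) * FX ≤ 2 * n := by exact_mod_cast h6
  have h8R : (Qm : ℝ) * FS ≤ D * n := by exact_mod_cast h8
  have h7R : (9 : ℝ) * n ≤ 20 * qD * (FX + 2) := by exact_mod_cast h7
  have h9R : (n : ℝ) ≤ 4 * q0 * (FS + 2) := by exact_mod_cast h9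
  have n2R : (1000 : ℝ) * W1 * qD * q0 ≤ n := by exact_mod_cast n2
  have hQm : (0 : ℝ) < Qm := by
    rcases lt_or_ge (0 : ℝ) Qm with h | h
    · exact h
    · exfalso
      have := mul_nonneg hμ.le (sub_nonneg.2 h)
      linarith
  -- FX + FS ≤ μ n / 4
  have hFF : (FX : ℝ) + FS ≤ μ / 4 * n := by
    have : (Qm : ℝ) * (FX + FS) ≤ Qm * (μ / 4 * n) := by
      have a1 := mul_le_mul_of_nonneg_right c4 hnR.le
      linarith
    exact le_of_mul_le_mul_left this hQm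
  have hδμ : 16 * (δ * n) ≤ μ * n := by
    have a1 := mul_le_mul_of_nonneg_right c7 hnR.le
    linarith
  have hM : (FX : ℝ) + FS + E + 2 * Bd + 100 ≤ μ * n := by linarith
  have hqDn : (1000 : ℝ) * qD ≤ n := by
    have : (1000 : ℝ) * qD ≤ 1000 * W1 * qD * q0 := by
      have h := mul_le_mul hW1R hq0R (by norm_num) (by linarith)
      have h' := mul_le_mul_of_nonneg_left h (show (0 : ℝ) ≤ 1000 * qD by linarith)
      linarith
    linarith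
  have hq0n : (1000 : ℝ) * q0 ≤ n := by
    have : (1000 : ℝ) * q0 ≤ 1000 * W1 * qD * q0 := by
      have h := mul_le_mul hW1R hqDR (by norm_num) (by linarith)
      have h' := mul_le_mul_of_nonneg_left h (show (0 : ℝ) ≤ 1000 * q0 by linarith)
      linarith
    linarith
  have hW1n : (1000 : ℝ) * W1 ≤ n := by
    have : (1000 : ℝ) * W1 ≤ 1000 * W1 * qD * q0 := by
      have h := mul_le_mul hqDR hq0R (by norm_num) (by linarith)
      have h' := mul_le_mul_of_nonneg_left h (show (0 : ℝ) ≤ 1000 * W1 by linarith)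
      linarith
    linarith
  have hCR : (CN : ℝ) + Rs ≤ 2 * ν * n := by
    have a1 := mul_le_mul_of_nonneg_right c8 hnR.le
    have a2 := mul_le_mul_of_nonneg_right c9 hnR.le
    linarith
  have hprod : ∀ x y z : ℝ, 1 ≤ x → 1 ≤ y → 1 ≤ z → 1 ≤ x * y * z := by
    intro x y z hx hy hz
    have h1 : 1 ≤ x * y := one_le_mul_of_one_le_of_one_le hx hy
    exact one_le_mul_of_one_le_of_one_le h1 hz
  -- ν bounds
  have hνqD : ν * (1000 * qD) ≤ 1 := by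
    have : (1000 : ℝ) * qD ≤ 1000 * W1 * qD * q0 * ((D : ℝ) + 1) := by
      have h' := hprod W1 q0 ((D : ℝ) + 1) hW1R hq0R (by linarith)
      have h := mul_le_mul_of_nonneg_left h' (show (0 : ℝ) ≤ 1000 * qD by linarith)
      linarith
    have h := mul_le_mul_of_nonneg_left this hν.le
    linarith
  have hνq0 : ν * (1000 * q0 * ((D : ℝ) + 1)) ≤ 1 := by
    have : (1000 : ℝ) * q0 * ((D : ℝ) + 1) ≤ 1000 * W1 * qD * q0 * ((D : ℝ) + 1) := by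
      have h : (1 : ℝ) ≤ W1 * qD := one_le_mul_of_one_le_of_one_le hW1R hqDR
      have h' : (0 : ℝ) ≤ 1000 * q0 * ((D : ℝ) + 1) := by positivity
      have h'' := mul_le_mul_of_nonneg_left h h'
      linarith
    have h := mul_le_mul_of_nonneg_left this hν.le
    linarith
  have hνW : ν * (1000 * W1) ≤ 1 := by
    have : (1000 : ℝ) * W1 ≤ 1000 * W1 * qD * q0 * ((D : ℝ) + 1) := by
      have h' := hprod qD q0 ((D : ℝ) + 1) hqDR hq0R (by linarith)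
      have h := mul_le_mul_of_nonneg_left h' (show (0 : ℝ) ≤ 1000 * W1 by linarith)
      linarith
    have h := mul_le_mul_of_nonneg_left this hν.le
    linarith
  have hFX : 2 * ((CN : ℝ) + Rs) ≤ FX ∧ (2 : ℝ) ≤ FX := by
    have e2 : (20 : ℝ) * qD * (2 * ((CN : ℝ) + Rs) + 2 + 2) ≤ 9 * n := by
      have a1 := mul_le_mul_of_nonneg_left hCR (show (0 : ℝ) ≤ 40 * qD by linarith)
      have a2 := mul_le_mul_of_nonneg_right hνqD (show (0 : ℝ) ≤ 80 / 1000 * n by positivity)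
      linarith
    have e3 : (20 : ℝ) * qD * (2 * ((CN : ℝ) + Rs) + 2 + 2) ≤ 20 * qD * (FX + 2) := by linarith
    have e4 : (2 * ((CN : ℝ) + Rs) + 2 + 2) ≤ (FX + 2) := le_of_mul_le_mul_left e3 (by positivity)
    constructor <;> linarith
  have hFS : 2 * ((D : ℝ) * ((CN : ℝ) + Rs)) ≤ FS ∧ (2 : ℝ) ≤ FS := by
    have e0 : (D : ℝ) * ((CN : ℝ) + Rs) * q0 ≤ 2 / 1000 * n := by
      have : (D : ℝ) * ((CN : ℝ) + Rs) * q0 ≤ (D + 1) * (2 * ν * n) * q0 := by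
        have a1 : (D : ℝ) * ((CN : ℝ) + Rs) ≤ (D + 1) * (2 * ν * n) :=
          mul_le_mul (by linarith) hCR (by linarith) (by linarith)
        exact mul_le_mul_of_nonneg_right a1 (by linarith)
      have : (D + 1) * (2 * ν * n) * q0 = (ν * (1000 * q0 * ((D : ℝ) + 1))) * (2 / 1000 * n) := by ring
      have : (ν * (1000 * q0 * ((D : ℝ) + 1))) * (2 / 1000 * n) ≤ 1 * (2 / 1000 * n) :=
        mul_le_mul_of_nonneg_right hνq0 (by positivity)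
      linarith
    have e3 : (4 : ℝ) * q0 * (2 * ((D : ℝ) * ((CN : ℝ) + Rs)) + 2 + 2) ≤ 4 * q0 * (FS + 2) := by linarith
    have e4 : (2 * ((D : ℝ) * ((CN : ℝ) + Rs)) + 2 + 2) ≤ (FS + 2) := le_of_mul_le_mul_left e3 (by positivity)
    have e5 : (0 : ℝ) ≤ (D : ℝ) * ((CN : ℝ) + Rs) := by positivity
    constructor <;> linarith
  refine ⟨?_, ?_, ?_, ?_, ?_, ?_, ?_, ?_, ?_⟩
  · have : (C0 : ℝ) * (FX + FS + E + 2 * Bd + 100) ≤ n := by
      have a1 : (C0 : ℝ) * (FX + FS + E + 2 * Bd + 100) ≤ C0 * (μ * n) :=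
        mul_le_mul_of_nonneg_left hM (Nat.cast_nonneg _)
      have a2 : (C0 : ℝ) * (μ * n) = C0 * μ * n := by ring
      have a3 : (C0 : ℝ) * μ * n ≤ 1 * n := mul_le_mul_of_nonneg_right c1 hnR.le
      linarith
    exact_mod_cast this
  · have : (10 : ℝ) ^ 6 * (FX + FS + E + 2 * Bd + 100) ≤ J := by
      have a1 : (10 : ℝ) ^ 6 * (FX + FS + E + 2 * Bd + 100) ≤ 10 ^ 6 * (μ * n) :=
        mul_le_mul_of_nonneg_left hM (by norm_num)
      have a3 : (10 : ℝ) ^ 6 * μ * n ≤ jj * n := mul_le_mul_of_nonneg_right c2 hnR.le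
      linarith
    exact_mod_cast this
  · have : (20000 : ℝ) * (D + 1) ^ 2 * Cl ≤ n := by
      have a1 : (20000 : ℝ) * (D + 1) ^ 2 * Cl ≤ 20000 * (D + 1) ^ 2 * (η * n) :=
        mul_le_mul_of_nonneg_left h2 (by positivity)
      have a3 : (20000 : ℝ) * (D + 1) ^ 2 * η * n ≤ 1 * n := mul_le_mul_of_nonneg_right c6 hnR.le
      linarith
    exact_mod_cast this
  · exact_mod_cast hFX.1
  · exact_mod_cast hFS.1
  · exact_mod_cast hFX.2
  · exact_mod_cast hFS.2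
  · have a1 := mul_le_mul_of_nonneg_right c5 hnR.le
    have a2 := mul_le_mul_of_nonneg_right c3 hnR.le
    linarith
  · intro σ hσ
    constructor
    · have : (2 : ℝ) * σ ≤ Jc := by
        have a3 : 2 * ε' * n ≤ jc * n := mul_le_mul_of_nonneg_right c11 hnR.le
        linarith
      exact_mod_cast this
    · rw [Nat.le_div_iff_mul_le (by norm_num)]
      have hσ' : (σ : ℝ) ≤ ν * n := hσ.trans (mul_le_mul_of_nonneg_right c10 hnR.le)
      have : (W1 : ℝ) * (CN + Rs + σ + 1) * 40 ≤ n := by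
        have a1 : (W1 : ℝ) * (CN + Rs + σ + 1) ≤ W1 * (3 * ν * n + 1) :=
          mul_le_mul_of_nonneg_left (by linarith) (by linarith)
        have a2 : (W1 : ℝ) * (3 * ν * n + 1) = (ν * (1000 * W1)) * (3 / 1000 * n) + W1 := by ring
        have a3 : (ν * (1000 * W1)) * (3 / 1000 * n) ≤ 1 * (3 / 1000 * n) :=
          mul_le_mul_of_nonneg_right hνW (by positivity)
        linarith
      exact_mod_cast this

end Pool.Agent.BD
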