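import Pool.Agent.Helper73.BD.E3
import Pool.Agent.Helper73.BD.LY

/-!
# BD-CN: counting vertices and edges

Proof in words.  `Q = QQ Bd CN Cl Rs Mn`.  `range n = E ∪ Q ∪ ι(Q)` (disjoint, `ι` injective): `n = |E| + 2|Q|`; `Q` is a disjoint union (`Dvs.d1, .., d4`); `Mn` is the disjoint union of the `P t`.
Edges: `EdI p (range n)` has `n - 1` elements (all `i`, `0 < i < n`, as `p i < i`).  Put `Λ = Bd ∪ (Cl \ Fl)`, `D1 = E ∪ Λ ∪ ι(Λ)`.  An edge not inside `D1` touches `Q \ Λ` or `ι(Q \ Λ)`; a vertex of `Q \ Λ` is not in `Bd`,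
so it has no neighbour in `E` (`Twin.inner`), nor in `ι(Q)` (`cr`); so such an edge is inside `Q` or inside `ι(Q)`.  By `twin_edges` (for `Q`) the number of the edges of the second kind is that of the first kind
(`κ` maps the edge `{v, w}` to `{ι v, ι w}`; `v ∉ Λ ↔ ι v ∉ ι(Λ)`).
The edges inside `Q` not inside `Λ`: those touching `Fl` (inside `Fl ∪ CO`, by `hFln`; these are `EdT p Fl CO`; not touching `CN ∪ Rs ∪ Mn`); those touching `CN ∪ Rs` (`EdT p (CN ∪ Rs) (Bd ∪ Cl ∪ Mn)`);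
and the others touch `Mn` but not `CN`, so they are inside a `P t` (`Dvs.aM`): the edges inside `P t` are the `i ∈ P t`, `i ≠ t` (`Dvs.tree`; for `i = t` the vertex `p t` is not in `P t`, as all elements of `P t` are `≥ t`).
Last statement: every edge touching `CN ∪ Rs` is determined by its end `v ∈ CN ∪ Rs` and the other end, one of at most `D` neighbours in `Q` (`Twin.deg`).
-/

set_option autoImplicit false

namespace Pool.Agent.BD

open Finset Pool.Agent.SEM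

private theorem h22_memI {p : ℕ → ℕ} {A : Finset ℕ} {i : ℕ} : i ∈ EdI p A ↔ i ∈ A ∧ 0 < i ∧ p i ∈ A := by
  unfold EdI
  rw [Finset.mem_filter]

private theorem h22_memT {p : ℕ → ℕ} {A B : Finset ℕ} {i : ℕ} :
    i ∈ EdT p A B ↔ (i ∈ A ∪ B ∧ 0 < i ∧ p i ∈ A ∪ B) ∧ (i ∈ A ∨ p i ∈ A) := by
  unfold EdT
  rw [Finset.mem_filter, h22_memI]

/-- the number of edges inside a set and inside its twin -/
private theorem h22_twin {n D : ℕ} {p ι : ℕ → ℕ} {E Bd Q Λ : Finset ℕ} (hT : Twin n D p ι E Bd Q) (hΛ : Λ ⊆ Q) :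
    (EdI p (Λ.image ι)).card = (EdI p Λ).card := by
  have hlt : ∀ i ∈ Λ ∪ Λ.image ι, 0 < i → p i < i := by
    intro i hi h0
    apply hT.par i h0
    rw [Finset.mem_union, Finset.mem_image] at hi
    rcases hi with hi | ⟨v, hv, rfl⟩
    · exact Finset.mem_range.1 (hT.Qn (hΛ hi))
    · exact (hT.ιn v (hΛ hv)).1
  have hd : Disjoint Λ (Λ.image ι) := by
    rw [Finset.disjoint_left]
    intro x hx hx'
    rw [Finset.mem_image] at hx'
    obtain ⟨v, hv, rfl⟩ := hx'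
    exact (hT.ιn v (hΛ hv)).2.1 (hΛ hx)
  obtain ⟨κ, hκ, -⟩ := twin_edges hlt (hT.ιinj.mono hΛ) hd
    (fun v hv w hw => hT.tw v (hΛ hv) w (hΛ hw))
  have h1 : (EdI p Λ).image κ = EdI p (Λ.image ι) := by
    have := hκ.image_eq
    rw [← Finset.coe_image] at this
    exact_mod_cast this
  rw [← h1, Finset.card_image_of_injOn hκ.injOn]

/-- the edges inside a tree `P t` -/
private theorem h22_tree {n : ℕ} {p : ℕ → ℕ} {A : Finset ℕ} {t : ℕ} (hpar : ∀ i, 0 < i → i < n → p i < i)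
    (hA : A ⊆ range n) (ht : t ∈ A) (h : ∀ v ∈ A, v ≠ t → p v ∈ A ∧ p v < v) : EdI p A = A.erase t := by
  have hmin : ∀ v ∈ A, t ≤ v := by
    intro v
    induction v using Nat.strong_induction_on with
    | _ v ih =>
      intro hv
      by_cases hvt : v = t
      · exact hvt.ge
      · obtain ⟨h1, h2⟩ := h v hv hvt
        exact (ih (p v) h2 h1).trans h2.le
  ext i
  rw [h22_memI, Finset.mem_erase]
  constructor
  · rintro ⟨h1, h2, h3⟩
    refine ⟨?_, h1⟩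
    rintro rfl
    have h4 := hpar i h2 (Finset.mem_range.1 (hA h1))
    have h5 := hmin _ h3
    omega
  · rintro ⟨h1, h2⟩
    obtain ⟨h3, h4⟩ := h i h2 h1
    exact ⟨h2, by omega, h3⟩

private theorem h22_adsymm {p : ℕ → ℕ} {v w : ℕ} (h : Ad p v w) : Ad p w v := Or.symm h

/-- the edges of the tree -/
private theorem h22_edges {n D : ℕ} {p ι : ℕ → ℕ} {E Bd Q Λ : Finset ℕ} (hn : 0 < n) (hT : Twin n D p ι E Bd Q)
    (hΛ : Λ ⊆ Q) (hB : Bd ⊆ Λ) :
    n = 1 + (EdI p (E ∪ Λ ∪ Λ.image ι)).card + 2 * (EdI p Q \ EdI p Λ).card := by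
  have hιQ : ∀ v ∈ Q, ι v ∉ Q := fun v hv => (hT.ιn v hv).2.1
  have hιE : ∀ v ∈ Q, ι v ∉ E := fun v hv => (hT.ιn v hv).2.2
  have hEQ : ∀ v ∈ Q, v ∉ E := fun v hv hvE => (Finset.disjoint_left.1 hT.EQ) hvE hv
  have hall : (EdI p (range n)).card = n - 1 := by
    have h1 : EdI p (range n) = (range n).erase 0 := by
      ext i
      rw [h22_memI, Finset.mem_erase, Finset.mem_range, Finset.mem_range]
      constructor
      · rintro ⟨h1, h2, -⟩
        exact ⟨h2.ne', h1⟩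
      · rintro ⟨h1, h2⟩
        have h0 : 0 < i := Nat.pos_of_ne_zero h1
        exact ⟨h2, h0, (hT.par i h0 h2).trans h2⟩
    rw [h1, Finset.card_erase_of_mem (Finset.mem_range.2 hn), Finset.card_range]
  have hsub1 : EdI p Λ ⊆ EdI p Q := by
    intro i hi
    rw [h22_memI] at hi ⊢
    exact ⟨hΛ hi.1, hi.2.1, hΛ hi.2.2⟩
  have hsub2 : EdI p (Λ.image ι) ⊆ EdI p (Q.image ι) := by
    intro i hi
    rw [h22_memI] at hi ⊢
    exact ⟨Finset.image_subset_image hΛ hi.1, hi.2.1, Finset.image_subset_image hΛ hi.2.2⟩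
  have hsplit : EdI p (range n) = EdI p (E ∪ Λ ∪ Λ.image ι) ∪ ((EdI p Q \ EdI p Λ) ∪ (EdI p (Q.image ι) \ EdI p (Λ.image ι))) := by
    ext i
    constructor
    · intro hi
      rw [h22_memI] at hi
      obtain ⟨hi1, hi0, hi2⟩ := hi
      have had : Ad p i (p i) := Or.inl ⟨hi0, rfl⟩
      rw [hT.cov, Finset.mem_union, Finset.mem_union] at hi1 hi2
      by_cases hD1 : i ∈ E ∪ Λ ∪ Λ.image ι ∧ p i ∈ E ∪ Λ ∪ Λ.image ι
      · exact Finset.mem_union_left _ (h22_memI.2 ⟨hD1.1, hi0, hD1.2⟩)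
      · apply Finset.mem_union_right
        have hE1 : ∀ x, x ∈ E → x ∈ E ∪ Λ ∪ Λ.image ι := fun x hx =>
          Finset.mem_union_left _ (Finset.mem_union_left _ hx)
        have hL1 : ∀ x, x ∈ Λ → x ∈ E ∪ Λ ∪ Λ.image ι := fun x hx =>
          Finset.mem_union_left _ (Finset.mem_union_right _ hx)
        have hL2 : ∀ x, x ∈ Λ → ι x ∈ E ∪ Λ ∪ Λ.image ι := fun x hx =>
          Finset.mem_union_right _ (Finset.mem_image_of_mem _ hx)
        have hin1 : ∀ v ∈ Q, ∀ w ∈ E, Ad p v w → v ∈ E ∪ Λ ∪ Λ.image ι := by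
          intro v hv w hw h
          by_cases hvB : v ∈ Bd
          · exact hL1 v (hB hvB)
          · exact absurd h (hT.inner v hv hvB w hw).1
        have hin2 : ∀ v ∈ Q, ∀ w ∈ E, Ad p (ι v) w → ι v ∈ E ∪ Λ ∪ Λ.image ι := by
          intro v hv w hw h
          by_cases hvB : v ∈ Bd
          · exact hL2 v (hB hvB)
          · exact absurd h (hT.inner v hv hvB w hw).2
        rcases hi1 with (a1 | a1) | a1
        · exfalso
          rcases hi2 with (a2 | a2) | a2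
          · exact hD1 ⟨hE1 _ a1, hE1 _ a2⟩
          · exact hD1 ⟨hE1 _ a1, hin1 _ a2 _ a1 (h22_adsymm had)⟩
          · rw [Finset.mem_image] at a2
            obtain ⟨v, hv, hvi⟩ := a2
            exact hD1 ⟨hE1 _ a1, by rw [← hvi]; exact hin2 v hv _ a1 (by rw [hvi]; exact h22_adsymm had)⟩
        · rcases hi2 with (a2 | a2) | a2
          · exact absurd ⟨hin1 _ a1 _ a2 had, hE1 _ a2⟩ hD1
          · apply Finset.mem_union_left
            rw [Finset.mem_sdiff, h22_memI, h22_memI]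
            exact ⟨⟨a1, hi0, a2⟩, fun h => hD1 ⟨hL1 _ h.1, hL1 _ h.2.2⟩⟩
          · rw [Finset.mem_image] at a2
            obtain ⟨v, hv, hvi⟩ := a2
            exact absurd (by rw [hvi]; exact had) (hT.cr i a1 v hv)
        · rcases hi2 with (a2 | a2) | a2
          · rw [Finset.mem_image] at a1
            obtain ⟨v, hv, hvi⟩ := a1
            exact absurd ⟨by rw [← hvi]; exact hin2 v hv _ a2 (by rw [hvi]; exact had), hE1 _ a2⟩ hD1
          · rw [Finset.mem_image] at a1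
            obtain ⟨v, hv, hvi⟩ := a1
            exact absurd (by rw [hvi]; exact h22_adsymm had) (hT.cr _ a2 v hv)
          · apply Finset.mem_union_right
            rw [Finset.mem_sdiff, h22_memI, h22_memI]
            exact ⟨⟨a1, hi0, a2⟩, fun h => hD1 ⟨Finset.mem_union_right _ h.1, Finset.mem_union_right _ h.2.2⟩⟩
    · intro hi
      have hrn : ∀ x, x ∈ E ∪ Q ∪ Q.image ι → x ∈ range n := fun x hx => by rw [hT.cov]; exact hx
      rw [Finset.mem_union, Finset.mem_union, Finset.mem_sdiff, Finset.mem_sdiff] at hi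
      rw [h22_memI]
      have hD1 : E ∪ Λ ∪ Λ.image ι ⊆ E ∪ Q ∪ Q.image ι :=
        Finset.union_subset_union (Finset.union_subset_union_right hΛ) (Finset.image_subset_image hΛ)
      rcases hi with hi | ⟨hi, -⟩ | ⟨hi, -⟩
      · rw [h22_memI] at hi
        exact ⟨hrn _ (hD1 hi.1), hi.2.1, hrn _ (hD1 hi.2.2)⟩
      · rw [h22_memI] at hi
        exact ⟨hT.Qn hi.1, hi.2.1, hT.Qn hi.2.2⟩
      · rw [h22_memI] at hi
        exact ⟨hrn _ (Finset.mem_union_right _ hi.1), hi.2.1, hrn _ (Finset.mem_union_right _ hi.2.2)⟩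
  have hQL : ∀ x ∈ Q, x ∈ E ∪ Λ ∪ Λ.image ι → x ∈ Λ := by
    intro x hx hx'
    rw [Finset.mem_union, Finset.mem_union, Finset.mem_image] at hx'
    rcases hx' with (h | h) | ⟨v, hv, rfl⟩
    · exact absurd h (hEQ x hx)
    · exact h
    · exact absurd hx (hιQ v (hΛ hv))
  have hQL2 : ∀ x ∈ Q.image ι, x ∈ E ∪ Λ ∪ Λ.image ι → x ∈ Λ.image ι := by
    intro x hx hx'
    rw [Finset.mem_image] at hx
    obtain ⟨v, hv, rfl⟩ := hx
    rw [Finset.mem_union, Finset.mem_union] at hx'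
    rcases hx' with (h | h) | h
    · exact absurd h (hιE v hv)
    · exact absurd (hΛ h) (hιQ v hv)
    · exact h
  have hdis1 : Disjoint (EdI p Q \ EdI p Λ) (EdI p (Q.image ι) \ EdI p (Λ.image ι)) := by
    rw [Finset.disjoint_left]
    intro i hi hi'
    rw [Finset.mem_sdiff, h22_memI] at hi hi'
    obtain ⟨⟨h1, -, -⟩, -⟩ := hi
    obtain ⟨⟨h2, -, -⟩, -⟩ := hi'
    rw [Finset.mem_image] at h2
    obtain ⟨v, hv, rfl⟩ := h2
    exact hιQ v hv h1
  have hdis2 : Disjoint (EdI p (E ∪ Λ ∪ Λ.image ι)) ((EdI p Q \ EdI p Λ) ∪ (EdI p (Q.image ι) \ EdI p (Λ.image ι))) := by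
    rw [Finset.disjoint_left]
    intro i hi hi'
    rw [h22_memI] at hi
    rw [Finset.mem_union, Finset.mem_sdiff, Finset.mem_sdiff] at hi'
    rcases hi' with ⟨h1, h2⟩ | ⟨h1, h2⟩
    · rw [h22_memI] at h1 h2
      exact h2 ⟨hQL _ h1.1 hi.1, hi.2.1, hQL _ h1.2.2 hi.2.2⟩
    · rw [h22_memI] at h1 h2
      exact h2 ⟨hQL2 _ h1.1 hi.1, hi.2.1, hQL2 _ h1.2.2 hi.2.2⟩
  have hc := congrArg Finset.card hsplit
  rw [hall, Finset.card_union_of_disjoint hdis2, Finset.card_union_of_disjoint hdis1,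
    Finset.card_sdiff_of_subset hsub2, h22_twin hT (Finset.Subset.refl Q), h22_twin hT hΛ,
    ← Finset.card_sdiff_of_subset hsub1] at hc
  omega

/-- the edges of `Q` which are not inside `Λ` -/
private theorem h22_inner {n D K : ℕ} {p ι : ℕ → ℕ} {E Bd CN Cl Rs Mn T Fl CO : Finset ℕ} {P En : ℕ → Finset ℕ}
    (hT : Twin n D p ι E Bd (QQ Bd CN Cl Rs Mn)) (hdv : Dvs n D K p Bd CN Cl Rs Mn T P En)
    (hFl : Fl ⊆ Cl) (hCO : CO ⊆ Cl \ Fl) (hFln : ∀ v ∈ Fl, ∀ w, w < n → Ad p v w → w ∈ CO ∪ Fl) :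
    (EdI p (QQ Bd CN Cl Rs Mn) \ EdI p (Bd ∪ (Cl \ Fl))).card =
      (EdT p Fl CO).card + (EdT p (CN ∪ Rs) (Bd ∪ Cl ∪ Mn)).card + ∑ t ∈ T, ((P t).card - 1) := by
  have hQ : ∀ x, x ∈ QQ Bd CN Cl Rs Mn ↔ (((x ∈ Bd ∨ x ∈ CN) ∨ x ∈ Cl) ∨ x ∈ Rs) ∨ x ∈ Mn := by
    intro x
    simp only [QQ, Finset.mem_union]
  have hMnP : ∀ x, x ∈ Mn ↔ ∃ t ∈ T, x ∈ P t := by
    intro x
    rw [hdv.Mn_eq, Finset.mem_biUnion]
  -- disjointness facts
  have e1 : ∀ x, x ∈ Bd → x ∉ CN := fun x h => Finset.disjoint_left.1 hdv.d1 h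
  have e2 : ∀ x, x ∈ Bd ∨ x ∈ CN → x ∉ Cl := fun x h => Finset.disjoint_left.1 hdv.d2 (Finset.mem_union.2 h)
  have e3 : ∀ x, (x ∈ Bd ∨ x ∈ CN) ∨ x ∈ Cl → x ∉ Rs := fun x h =>
    Finset.disjoint_left.1 hdv.d3 (by rw [Finset.mem_union, Finset.mem_union]; exact h)
  have e4 : ∀ x, ((x ∈ Bd ∨ x ∈ CN) ∨ x ∈ Cl) ∨ x ∈ Rs → x ∉ Mn := fun x h =>
    Finset.disjoint_left.1 hdv.d4 (by rw [Finset.mem_union, Finset.mem_union, Finset.mem_union]; exact h)
  have hFC : ∀ x, x ∈ Fl ∪ CO → x ∈ Cl := by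
    intro x hx
    rw [Finset.mem_union] at hx
    rcases hx with h | h
    · exact hFl h
    · exact (Finset.mem_sdiff.1 (hCO h)).1
  have hLam : ∀ x, x ∈ Bd ∪ (Cl \ Fl) ↔ x ∈ Bd ∨ (x ∈ Cl ∧ x ∉ Fl) := by
    intro x
    rw [Finset.mem_union, Finset.mem_sdiff]
  have nL1 : ∀ x, x ∈ Fl → x ∉ Bd ∪ (Cl \ Fl) := by
    intro x hx h
    rcases (hLam x).1 h with h | h
    · exact e2 x (Or.inl h) (hFl hx)
    · exact h.2 hx
  have nL2 : ∀ x, x ∈ CN ∪ Rs → x ∉ Bd ∪ (Cl \ Fl) := by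
    intro x hx h
    rw [Finset.mem_union] at hx
    rcases (hLam x).1 h with h | h
    · rcases hx with hx | hx
      · exact e1 x h hx
      · exact e3 x (Or.inl (Or.inl h)) hx
    · rcases hx with hx | hx
      · exact e2 x (Or.inr hx) h.1
      · exact e3 x (Or.inr h.1) hx
  have nL3 : ∀ x, x ∈ Mn → x ∉ Bd ∪ (Cl \ Fl) := by
    intro x hx h
    rcases (hLam x).1 h with h | h
    · exact e4 x (Or.inl (Or.inl (Or.inl h))) hx
    · exact e4 x (Or.inl (Or.inr h.1)) hx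
  have nC2 : ∀ x, x ∈ Cl → x ∉ CN ∪ Rs := by
    intro x hx h
    rw [Finset.mem_union] at h
    rcases h with h | h
    · exact e2 x (Or.inr h) hx
    · exact e3 x (Or.inr hx) h
  have nC3 : ∀ x, x ∈ Cl → x ∉ Mn := fun x hx h => e4 x (Or.inl (Or.inr hx)) h
  have nR3 : ∀ x, x ∈ CN ∪ Rs → x ∉ Mn := by
    intro x hx h
    rw [Finset.mem_union] at hx
    rcases hx with hx | hx
    · exact e4 x (Or.inl (Or.inl (Or.inr hx))) h
    · exact e4 x (Or.inr hx) h
  have hQC : ∀ x, x ∈ Cl → x ∈ QQ Bd CN Cl Rs Mn := fun x hx => (hQ x).2 (Or.inl (Or.inl (Or.inr hx)))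
  have hQu : ∀ x, x ∈ (CN ∪ Rs) ∪ (Bd ∪ Cl ∪ Mn) → x ∈ QQ Bd CN Cl Rs Mn := by
    intro x hx
    simp only [Finset.mem_union] at hx
    rw [hQ]
    rcases hx with (hx | hx) | ((hx | hx) | hx)
    · exact Or.inl (Or.inl (Or.inl (Or.inr hx)))
    · exact Or.inl (Or.inr hx)
    · exact Or.inl (Or.inl (Or.inl (Or.inl hx)))
    · exact Or.inl (Or.inl (Or.inr hx))
    · exact Or.inr hx
  have hQv : ∀ x, x ∈ QQ Bd CN Cl Rs Mn → x ∈ (CN ∪ Rs) ∪ (Bd ∪ Cl ∪ Mn) := by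
    intro x hx
    rw [hQ] at hx
    simp only [Finset.mem_union]
    rcases hx with (((hx | hx) | hx) | hx) | hx
    · exact Or.inr (Or.inl (Or.inl hx))
    · exact Or.inl (Or.inl hx)
    · exact Or.inr (Or.inl (Or.inr hx))
    · exact Or.inl (Or.inr hx)
    · exact Or.inr (Or.inr hx)
  have hQn : ∀ x, x ∈ QQ Bd CN Cl Rs Mn → x ∉ Fl → ¬ (x ∈ CN ∨ x ∈ Rs) → x ∉ Mn → x ∈ Bd ∪ (Cl \ Fl) := by
    intro x hx h1 h2 h3
    rw [hQ] at hx
    rw [hLam]
    rcases hx with (((hx | hx) | hx) | hx) | hx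
    · exact Or.inl hx
    · exact absurd (Or.inl hx) h2
    · exact Or.inr ⟨hx, h1⟩
    · exact absurd (Or.inr hx) h2
    · exact absurd hx h3
  have hset : EdI p (QQ Bd CN Cl Rs Mn) \ EdI p (Bd ∪ (Cl \ Fl)) =
      (EdT p Fl CO ∪ EdT p (CN ∪ Rs) (Bd ∪ Cl ∪ Mn)) ∪ T.biUnion fun t => EdI p (P t) := by
    ext i
    constructor
    · intro hi
      rw [Finset.mem_sdiff, h22_memI, h22_memI] at hi
      obtain ⟨⟨hx, hi0, hy⟩, hnot⟩ := hi
      have had : Ad p i (p i) := Or.inl ⟨hi0, rfl⟩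
      have hin : i < n := Finset.mem_range.1 (hT.Qn hx)
      have hpn : p i < n := Finset.mem_range.1 (hT.Qn hy)
      by_cases c1 : i ∈ Fl ∨ p i ∈ Fl
      · apply Finset.mem_union_left
        apply Finset.mem_union_left
        rw [h22_memT]
        refine ⟨⟨?_, hi0, ?_⟩, c1⟩
        · rcases c1 with c | c
          · exact Finset.mem_union_left _ c
          · rw [Finset.union_comm]
            exact hFln _ c i hin (h22_adsymm had)
        · rcases c1 with c | c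
          · rw [Finset.union_comm]
            exact hFln _ c _ hpn had
          · exact Finset.mem_union_left _ c
      · rw [not_or] at c1
        by_cases c2 : i ∈ CN ∪ Rs ∨ p i ∈ CN ∪ Rs
        · apply Finset.mem_union_left
          apply Finset.mem_union_right
          rw [h22_memT]
          exact ⟨⟨hQv _ hx, hi0, hQv _ hy⟩, c2⟩
        · rw [not_or, Finset.mem_union, Finset.mem_union] at c2
          apply Finset.mem_union_right
          rw [Finset.mem_biUnion]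
          have hM : i ∈ Mn ∨ p i ∈ Mn := by
            by_contra hcon
            rw [not_or] at hcon
            exact hnot ⟨hQn _ hx c1.1 c2.1 hcon.1, hi0, hQn _ hy c1.2 c2.2 hcon.2⟩
          rcases hM with hM | hM
          · obtain ⟨t, ht, hit⟩ := (hMnP _).1 hM
            rcases hdv.aM t ht i hit _ hy had with h | h
            · exact ⟨t, ht, h22_memI.2 ⟨hit, hi0, h⟩⟩
            · exact absurd (Or.inl h.1) c2.2
          · obtain ⟨t, ht, hit⟩ := (hMnP _).1 hM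
            rcases hdv.aM t ht _ hit _ hx (h22_adsymm had) with h | h
            · exact ⟨t, ht, h22_memI.2 ⟨h, hi0, hit⟩⟩
            · exact absurd (Or.inl h.1) c2.1
    · intro hi
      rw [Finset.mem_union, Finset.mem_union, Finset.mem_biUnion] at hi
      rw [Finset.mem_sdiff, h22_memI, h22_memI]
      rcases hi with (hi | hi) | ⟨t, ht, hi⟩
      · rw [h22_memT] at hi
        obtain ⟨⟨h1, h0, h2⟩, h3⟩ := hi
        refine ⟨⟨hQC _ (hFC _ h1), h0, hQC _ (hFC _ h2)⟩, ?_⟩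
        rintro ⟨a1, -, a2⟩
        rcases h3 with h3 | h3
        · exact nL1 _ h3 a1
        · exact nL1 _ h3 a2
      · rw [h22_memT] at hi
        obtain ⟨⟨h1, h0, h2⟩, h3⟩ := hi
        refine ⟨⟨hQu _ h1, h0, hQu _ h2⟩, ?_⟩
        rintro ⟨a1, -, a2⟩
        rcases h3 with h3 | h3
        · exact nL2 _ h3 a1
        · exact nL2 _ h3 a2
      · rw [h22_memI] at hi
        obtain ⟨h1, h0, h2⟩ := hi
        have k1 : i ∈ Mn := (hMnP _).2 ⟨t, ht, h1⟩
        have k2 : p i ∈ Mn := (hMnP _).2 ⟨t, ht, h2⟩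
        refine ⟨⟨(hQ _).2 (Or.inr k1), h0, (hQ _).2 (Or.inr k2)⟩, ?_⟩
        rintro ⟨a1, -, -⟩
        exact nL3 _ k1 a1
  have hd1 : Disjoint (EdT p Fl CO) (EdT p (CN ∪ Rs) (Bd ∪ Cl ∪ Mn)) := by
    rw [Finset.disjoint_left]
    intro i hi hi'
    rw [h22_memT] at hi hi'
    rcases hi'.2 with h3 | h3
    · exact nC2 _ (hFC _ hi.1.1) h3
    · exact nC2 _ (hFC _ hi.1.2.2) h3
  have hd2 : Disjoint (EdT p Fl CO ∪ EdT p (CN ∪ Rs) (Bd ∪ Cl ∪ Mn)) (T.biUnion fun t => EdI p (P t)) := by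
    rw [Finset.disjoint_left]
    intro i hi hi'
    rw [Finset.mem_biUnion] at hi'
    obtain ⟨t, ht, hi'⟩ := hi'
    rw [h22_memI] at hi'
    have k1 : i ∈ Mn := (hMnP _).2 ⟨t, ht, hi'.1⟩
    have k2 : p i ∈ Mn := (hMnP _).2 ⟨t, ht, hi'.2.2⟩
    rw [Finset.mem_union] at hi
    rcases hi with hi | hi
    · rw [h22_memT] at hi
      exact nC3 _ (hFC _ hi.1.1) k1
    · rw [h22_memT] at hi
      rcases hi.2 with h3 | h3
      · exact nR3 _ h3 k1
      · exact nR3 _ h3 k2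
  have hd3 : ∀ t ∈ T, ∀ t' ∈ T, t ≠ t' → Disjoint (EdI p (P t)) (EdI p (P t')) := by
    intro t ht t' ht' hne
    rw [Finset.disjoint_left]
    intro i hi hi'
    rw [h22_memI] at hi hi'
    exact Finset.disjoint_left.1 (hdv.dj t ht t' ht' hne) hi.1 hi'.1
  rw [hset, Finset.card_union_of_disjoint hd2, Finset.card_union_of_disjoint hd1, Finset.card_biUnion hd3]
  congr 1
  refine Finset.sum_congr rfl fun t ht => ?_
  obtain ⟨h1, h2, -⟩ := hdv.tree t ht
  have hPn : P t ⊆ range n := by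
    intro x hx
    exact hT.Qn ((hQ x).2 (Or.inr ((hMnP x).2 ⟨t, ht, hx⟩)))
  rw [h22_tree hT.par hPn h1 h2, Finset.card_erase_of_mem h1]

theorem counts {n D K : ℕ} {p ι : ℕ → ℕ} {E Bd CN Cl Rs Mn T Fl CO : Finset ℕ} {P En : ℕ → Finset ℕ} (hn : 0 < n)
    (hT : Twin n D p ι E Bd (QQ Bd CN Cl Rs Mn)) (hdv : Dvs n D K p Bd CN Cl Rs Mn T P En)
    (hFl : Fl ⊆ Cl) (hCO : CO ⊆ Cl \ Fl) (hFln : ∀ v ∈ Fl, ∀ w, w < n → Ad p v w → w ∈ CO ∪ Fl) :
    n = E.card + 2 * (Bd.card + CN.card + Cl.card + Rs.card + Mn.card) ∧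
    Mn.card = ∑ t ∈ T, (P t).card ∧
    n = 1 + (EdI p (E ∪ (Bd ∪ (Cl \ Fl)) ∪ (Bd ∪ (Cl \ Fl)).image ι)).card +
      2 * ((EdT p Fl CO).card + (EdT p (CN ∪ Rs) (Bd ∪ Cl ∪ Mn)).card + ∑ t ∈ T, ((P t).card - 1)) ∧
    (EdT p (CN ∪ Rs) (Bd ∪ Cl ∪ Mn)).card ≤ D * (CN.card + Rs.card) := by
  have hQ : ∀ x, x ∈ QQ Bd CN Cl Rs Mn ↔ (((x ∈ Bd ∨ x ∈ CN) ∨ x ∈ Cl) ∨ x ∈ Rs) ∨ x ∈ Mn := by
    intro x
    simp only [QQ, Finset.mem_union]
  refine ⟨?_, ?_, ?_, ?_⟩
  · have hd : Disjoint (E ∪ QQ Bd CN Cl Rs Mn) ((QQ Bd CN Cl Rs Mn).image ι) := by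
      rw [Finset.disjoint_left]
      intro x hx hx'
      rw [Finset.mem_image] at hx'
      obtain ⟨v, hv, rfl⟩ := hx'
      rw [Finset.mem_union] at hx
      rcases hx with h | h
      · exact (hT.ιn v hv).2.2 h
      · exact (hT.ιn v hv).2.1 h
    have hc := congrArg Finset.card hT.cov
    rw [Finset.card_range, Finset.card_union_of_disjoint hd, Finset.card_union_of_disjoint hT.EQ,
      Finset.card_image_of_injOn hT.ιinj] at hc
    have hq : (QQ Bd CN Cl Rs Mn).card = Bd.card + CN.card + Cl.card + Rs.card + Mn.card := by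
      unfold QQ
      rw [Finset.card_union_of_disjoint hdv.d4, Finset.card_union_of_disjoint hdv.d3,
        Finset.card_union_of_disjoint hdv.d2, Finset.card_union_of_disjoint hdv.d1]
    rw [hq] at hc
    omega
  · rw [hdv.Mn_eq, Finset.card_biUnion hdv.dj]
  · have hΛ : Bd ∪ (Cl \ Fl) ⊆ QQ Bd CN Cl Rs Mn := by
      intro x hx
      rw [Finset.mem_union, Finset.mem_sdiff] at hx
      rw [hQ]
      rcases hx with hx | hx
      · exact Or.inl (Or.inl (Or.inl (Or.inl hx)))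
      · exact Or.inl (Or.inl (Or.inr hx.1))
    have h := h22_edges hn hT hΛ Finset.subset_union_left
    rw [h22_inner hT hdv hFl hCO hFln] at h
    exact h
  · have hu : ∀ x, x ∈ (CN ∪ Rs) ∪ (Bd ∪ Cl ∪ Mn) → x ∈ QQ Bd CN Cl Rs Mn := by
      intro x hx
      simp only [Finset.mem_union] at hx
      rw [hQ]
      rcases hx with (hx | hx) | ((hx | hx) | hx)
      · exact Or.inl (Or.inl (Or.inl (Or.inr hx)))
      · exact Or.inl (Or.inr hx)
      · exact Or.inl (Or.inl (Or.inl (Or.inl hx)))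
      · exact Or.inl (Or.inl (Or.inr hx))
      · exact Or.inr hx
    set f : ℕ → (Σ _ : ℕ, ℕ) := fun i => if i ∈ CN ∪ Rs then ⟨i, p i⟩ else ⟨p i, i⟩ with hf
    have hle : ∀ i ∈ EdT p (CN ∪ Rs) (Bd ∪ Cl ∪ Mn), p i < i := by
      intro i hi
      rw [h22_memT] at hi
      apply hT.par i hi.1.2.1
      apply Finset.mem_range.1
      exact hT.Qn (hu _ hi.1.1)
    have hmap : ∀ i ∈ EdT p (CN ∪ Rs) (Bd ∪ Cl ∪ Mn),
        f i ∈ (CN ∪ Rs).sigma fun v => (QQ Bd CN Cl Rs Mn).filter fun w => Ad p v w := by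
      intro i hi
      rw [h22_memT] at hi
      obtain ⟨⟨h1, h0, h2⟩, h3⟩ := hi
      have had : Ad p i (p i) := Or.inl ⟨h0, rfl⟩
      by_cases c : i ∈ CN ∪ Rs
      · simp only [hf, c, if_true, Finset.mem_sigma, Finset.mem_filter]
        exact ⟨trivial, hu _ h2, had⟩
      · have c' : p i ∈ CN ∪ Rs := h3.resolve_left c
        simp only [hf, c, if_false, Finset.mem_sigma, Finset.mem_filter]
        exact ⟨c', hu _ h1, h22_adsymm had⟩
    have hinj : Set.InjOn f (EdT p (CN ∪ Rs) (Bd ∪ Cl ∪ Mn)) := by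
      intro i hi j hj hij
      have li := hle i hi
      have lj := hle j hj
      by_cases ci : i ∈ CN ∪ Rs
      · by_cases cj : j ∈ CN ∪ Rs
        · simp only [hf, ci, cj, if_true, Sigma.mk.injEq] at hij
          exact hij.1
        · simp only [hf, ci, cj, if_true, if_false, Sigma.mk.injEq, heq_eq_eq] at hij
          omega
      · by_cases cj : j ∈ CN ∪ Rs
        · simp only [hf, ci, cj, if_true, if_false, Sigma.mk.injEq, heq_eq_eq] at hij
          omega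
        · simp only [hf, ci, cj, if_false, Sigma.mk.injEq, heq_eq_eq] at hij
          exact hij.2
    calc (EdT p (CN ∪ Rs) (Bd ∪ Cl ∪ Mn)).card
        ≤ ((CN ∪ Rs).sigma fun v => (QQ Bd CN Cl Rs Mn).filter fun w => Ad p v w).card :=
          Finset.card_le_card_of_injOn f hmap hinj
      _ = ∑ v ∈ CN ∪ Rs, ((QQ Bd CN Cl Rs Mn).filter fun w => Ad p v w).card := Finset.card_sigma _ _
      _ ≤ ∑ _v ∈ CN ∪ Rs, D := Finset.sum_le_sum fun v hv => by
          exact hT.deg v (hu _ (Finset.mem_union_left _ hv))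
      _ = (CN ∪ Rs).card * D := by rw [Finset.sum_const, smul_eq_mul]
      _ ≤ D * (CN.card + Rs.card) := by
          rw [mul_comm]
          exact Nat.mul_le_mul_left _ (Finset.card_union_le _ _)

end Pool.Agent.BD
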