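import Pool.Agent.Helper73.BD.Defs

/-!
# BD-KB: the gain inequality

Proof in words.  Write `Φ(u,v) = A u + A v + B (u+v) - g`, call `(u,v)` allowed if `u, v ∈ pm X`, `u + v ∈ pm S`.
(1) IDENTITY.  If `v' = v + 2u` then `A v - A v' = Φ(u, v) - Φ(u, -v')`, because `u - v' = -(u+v)`, `B` and `A` are even.
If `(u,v)` is allowed so is `(u,-v')` when `v' ∈ pm X`.
For `v, v' ∈ pm X` (odd): exactly one of `(v'-v)/2`, `(-v'-v)/2` is odd; call it `u` (replacing `v'` by `-v'` if necessary, `A` is even).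
`u + v = (v+v')/2` resp. `(v-v')/2`.  If it is `0` then `A v = A v'` trivially.
(2) Call the pair `(v,v')` good if `u ∈ pm X`, `u + v ∈ pm S` and `n ≤ 8 max(|u|,|v|)`.  On good pairs `hex u v ≥ n/8` and `hex u (-v') ≥ |u| or |u+v|...`:
`hex u v = hex u (-u-v)`-type symmetric: `hex u (-v') = max(|u|, |v'|, |u+v|)` and `v' = v + 2u`; as `max(|u|,|v'|,|u+v|) ≥ max(|u|, |v|-|u|..) ≥ max(|u|,|v|)/2 ≥ n/16`.
For every `v` at most `n/8 + 2 + 4 ζ n` classes, i.e. `n/4 + 4 + 8 ζ n` values `v'`, are not good: `v' ↦ u` is at most two to one,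
`|u| < n/8` has at most `n/8 + 1` odd solutions, and at most `2 ζ n` `u`'s are not in `pm X`, at most `2ζn` values of `u + v` are not in `pm S ∪ {0}`.
For every two `v, v'' ∈ pm X` there are at least `n/4` values `v' ∈ pm X` such that `(v,v')` and `(v'',v')` are good (`|pm X| ≥ (1-2ζ) n`), and
`|A v - A v''| ≤ |A v - A v'| + |A v' - A v''|`.  Summing over `v, v'', v'`:
`(n/4) ∑_{v,v''} |A v - A v''| ≤ 2 |pm X| ∑_{good (v,v')} |A v - A v'| ≤ 4 n · 2 · ∑_{allowed, hex ≥ n/16} |Φ|`, so `∑_{v,v''} |A v - A v''| ≤ C ∑ (hex/n) |Φ|` and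
`∑_v |A v - Ā| ≤ (1/|pm X|) ∑∑ |A v - A v''| ≤ C' ∑ (hex/n²) |Φ|`.
(3) For `t ∈ pm S` there are at least `n/20` values `u ∈ pm X` with `t - u ∈ pm X`, `n ≤ 8|u|`; for them `|B t + 2Ā - g| ≤ |Φ(u,t-u)| + |A u - Ā| + |A (t-u) - Ā|`.
Average over `u` and sum over `t`: `∑_t |B t - β| ≤ C'' ∑ (hex/n²)|Φ|` with `β = g - 2Ā`; finally `∑ |B t - B̄| ≤ 2 ∑ |B t - β|`.
-/

set_option autoImplicit false

namespace Pool.Agent.BD

open Finset Pool.Agent.SEM

private lemma avg2_50 (s : Finset ℤ) (f : ℤ → ℝ) (β : ℝ) :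
    ∑ t ∈ s, |f t - (∑ w ∈ s, f w) / s.card| ≤ 2 * ∑ t ∈ s, |f t - β| := by
  rcases s.eq_empty_or_nonempty with rfl | hs
  · simp
  have hc : (0 : ℝ) < s.card := by exact_mod_cast hs.card_pos
  have h1 : |(∑ w ∈ s, f w) / s.card - β| ≤ (∑ t ∈ s, |f t - β|) / s.card := by
    have e : (∑ w ∈ s, f w) / s.card - β = (∑ w ∈ s, (f w - β)) / s.card := by
      rw [sum_sub_distrib, sum_const, nsmul_eq_mul]
      field_simp
    rw [e, abs_div, abs_of_pos hc]
    exact div_le_div_of_nonneg_right (abs_sum_le_sum_abs _ _) hc.le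
  calc ∑ t ∈ s, |f t - (∑ w ∈ s, f w) / s.card|
      ≤ ∑ t ∈ s, (|f t - β| + (∑ t ∈ s, |f t - β|) / s.card) := by
        refine sum_le_sum fun t _ => ?_
        have h2 := abs_sub_le (f t) β ((∑ w ∈ s, f w) / s.card)
        rw [abs_sub_comm β] at h2
        linarith
    _ = 2 * ∑ t ∈ s, |f t - β| := by
        rw [sum_add_distrib, sum_const, nsmul_eq_mul]
        field_simp
        ring

private lemma avg1_50 (s : Finset ℤ) (f : ℤ → ℝ) :
    (s.card : ℝ) * ∑ v ∈ s, |f v - (∑ w ∈ s, f w) / s.card| ≤ ∑ v ∈ s, ∑ w ∈ s, |f v - f w| := by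
  rcases s.eq_empty_or_nonempty with rfl | hs
  · simp
  have hc : (0 : ℝ) < s.card := by exact_mod_cast hs.card_pos
  rw [mul_sum]
  refine sum_le_sum fun v _ => ?_
  have e : (s.card : ℝ) * |f v - (∑ w ∈ s, f w) / s.card| = |∑ w ∈ s, (f v - f w)| := by
    rw [sum_sub_distrib, sum_const, nsmul_eq_mul]
    nth_rewrite 1 [← abs_of_pos hc]
    rw [← abs_mul]
    congr 1
    field_simp
  rw [e]
  exact abs_sum_le_sum_abs _ _

private lemma pm_card_50 (C : Finset ℕ) : (pm C).card ≤ 2 * C.card := by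
  unfold pm
  refine (card_union_le _ _).trans ?_
  have h1 : (C.image (fun x : ℕ => (x : ℤ))).card ≤ C.card := card_image_le
  have h2 : (C.image (fun x : ℕ => -(x : ℤ))).card ≤ C.card := card_image_le
  omega

private lemma pm_neg_50 {C : Finset ℕ} {u : ℤ} : -u ∈ pm C ↔ u ∈ pm C := by
  rw [mem_pm, mem_pm, Int.natAbs_neg]

/-- small integers -/
private noncomputable def sml50 (n : ℕ) : Finset ℤ := Finset.Icc (-((n / 32 : ℕ) : ℤ)) ((n / 32 : ℕ) : ℤ)

private lemma sml_card_50 (n : ℕ) : 16 * (sml50 n).card ≤ n + 16 := by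
  unfold sml50
  rw [Int.card_Icc]
  omega

private lemma mem_sml_50 {n : ℕ} {u : ℤ} (h : 32 * u.natAbs < n) : u ∈ sml50 n := by
  unfold sml50
  rw [mem_Icc]
  omega

private lemma pmX_iff_50 {n : ℕ} {X : Finset ℕ} (hX : X ⊆ LC n) {u : ℤ} (h : u ∈ pm X) :
    1 ≤ u.natAbs ∧ u.natAbs ≤ n ∧ Odd u := by
  have h1 := mem_LC.1 (hX (mem_pm.1 h))
  exact ⟨h1.1.1, h1.1.2, Int.natAbs_odd.1 h1.2⟩

private lemma pmS_iff_50 {n : ℕ} {S : Finset ℕ} (hS : S ⊆ SC n) {u : ℤ} (h : u ∈ pm S) :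
    1 ≤ u.natAbs ∧ u.natAbs ≤ n - 1 ∧ Even u := by
  have h1 := mem_SC.1 (hS (mem_pm.1 h))
  exact ⟨h1.1.1, h1.1.2, Int.natAbs_even.1 h1.2⟩

/-- an odd integer which is not too large is in `pm X` or in the exceptional set -/
private lemma odd_cases_50 {n : ℕ} (X : Finset ℕ) {u : ℤ} (h1 : u.natAbs ≤ n)
    (h2 : Odd u) : u ∈ pm X ∨ u ∈ pm (LC n \ X) := by
  by_cases h : u.natAbs ∈ X
  · exact Or.inl (mem_pm.2 h)
  · refine Or.inr (mem_pm.2 (mem_sdiff.2 ⟨mem_LC.2 ⟨⟨?_, h1⟩, Int.natAbs_odd.2 h2⟩, h⟩))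
    have : u ≠ 0 := by rintro rfl; exact (Int.not_odd_zero h2)
    omega

private lemma even_cases_50 {n : ℕ} (S : Finset ℕ) {t : ℤ} (h1 : t.natAbs ≤ n - 1)
    (h2 : Even t) : t ∈ pm S ∨ t ∈ insert 0 (pm (SC n \ S)) := by
  by_cases h0 : t = 0
  · exact Or.inr (mem_insert.2 (Or.inl h0))
  by_cases h : t.natAbs ∈ S
  · exact Or.inl (mem_pm.2 h)
  · refine Or.inr (mem_insert.2 (Or.inr
      (mem_pm.2 (mem_sdiff.2 ⟨mem_SC.2 ⟨⟨?_, h1⟩, Int.natAbs_even.2 h2⟩, h⟩))))
    omega

section Main50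

variable (n : ℕ) (X S : Finset ℕ) (A B : ℤ → ℝ) (g : ℝ)

/-- the large labels -/
private noncomputable def P50 : Finset ℤ := (pm X).filter fun u => n ≤ 32 * u.natAbs

/-- the sum over the allowed pairs with large `u` -/
private noncomputable def T50 : ℝ :=
  ∑ u ∈ P50 n X, ∑ v ∈ (pm X).filter (fun v => u + v ∈ pm S), |A u + A v + B (u + v) - g|

/-- the `u` which can be used at `v` -/
private noncomputable def G50 (v : ℤ) : Finset ℤ :=
  (P50 n X).filter fun u => u + v ∈ pm S ∧ v + 2 * u ∈ pm X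

/-- the neighbours of `v` -/
private noncomputable def N50 (v : ℤ) : Finset ℤ :=
  (G50 n X S v).image (fun u => v + 2 * u) ∪ (G50 n X S v).image (fun u => -(v + 2 * u))

variable {n X S A B g}

private lemma P_sub_50 {u : ℤ} (h : u ∈ P50 n X) : u ∈ pm X ∧ n ≤ 32 * u.natAbs := by
  unfold P50 at h
  rwa [mem_filter] at h

private lemma T_nonneg_50 : 0 ≤ T50 n X S A B g :=
  sum_nonneg fun _ _ => sum_nonneg fun _ _ => abs_nonneg _

private lemma N_sub_50 {v v' : ℤ} (h : v' ∈ N50 n X S v) : v' ∈ pm X := by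
  unfold N50 G50 at h
  rcases mem_union.1 h with h | h
  · obtain ⟨u, hu, rfl⟩ := mem_image.1 h
    exact (mem_filter.1 hu).2.2
  · obtain ⟨u, hu, rfl⟩ := mem_image.1 h
    exact pm_neg_50.2 (mem_filter.1 hu).2.2

private lemma R_ge_50 (hn : 0 < n) :
    T50 n X S A B g ≤ 32 * n * ∑ u ∈ pm X, ∑ v ∈ (pm X).filter (fun v => u + v ∈ pm S),
      hex u v / (n : ℝ) ^ 2 * |A u + A v + B (u + v) - g| := by
  have hn' : (0 : ℝ) < n := by exact_mod_cast hn
  have hh : ∀ u v : ℤ, |(u : ℝ)| ≤ hex u v := fun u v => le_max_left _ _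
  have h1 : ∑ u ∈ P50 n X, ∑ v ∈ (pm X).filter (fun v => u + v ∈ pm S),
      hex u v / (n : ℝ) ^ 2 * |A u + A v + B (u + v) - g| ≤
      ∑ u ∈ pm X, ∑ v ∈ (pm X).filter (fun v => u + v ∈ pm S),
      hex u v / (n : ℝ) ^ 2 * |A u + A v + B (u + v) - g| := by
    refine sum_le_sum_of_subset_of_nonneg (filter_subset _ _) fun u _ _ => ?_
    refine sum_nonneg fun v _ => mul_nonneg (div_nonneg ?_ (by positivity)) (abs_nonneg _)
    exact (abs_nonneg _).trans (hh u v)
  refine le_trans ?_ (mul_le_mul_of_nonneg_left h1 (by positivity))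
  unfold T50
  rw [mul_sum]
  refine sum_le_sum fun u hu => ?_
  rw [mul_sum]
  refine sum_le_sum fun v _ => ?_
  rw [← mul_assoc]
  refine le_mul_of_one_le_left (abs_nonneg _) ?_
  have h2 := (P_sub_50 hu).2
  have h3 : (n : ℝ) ≤ 32 * |(u : ℝ)| := by
    have : ((n : ℕ) : ℝ) ≤ ((32 * u.natAbs : ℕ) : ℝ) := by exact_mod_cast h2
    rw [Nat.cast_mul, Nat.cast_natAbs, Int.cast_abs] at this
    exact_mod_cast this
  have h4 : (n : ℝ) ≤ 32 * hex u v := h3.trans (by linarith [hh u v])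
  rw [show 32 * (n : ℝ) * (hex u v / (n : ℝ) ^ 2) = (32 * hex u v) / n by field_simp,
    le_div_iff₀ hn', one_mul]
  exact h4

private lemma S1_le_50 (hA : ∀ u, A (-u) = A u) (hB : ∀ t, B (-t) = B t) :
    ∑ v ∈ pm X, ∑ u ∈ G50 n X S v, |A v - A (v + 2 * u)| ≤ 2 * T50 n X S A B g := by
  have h1 : ∀ u v : ℤ, |A v - A (v + 2 * u)| ≤ |A u + A v + B (u + v) - g| +
      |A u + A (-(v + 2 * u)) + B (u + -(v + 2 * u)) - g| := by
    intro u v
    have e : A v - A (v + 2 * u) = (A u + A v + B (u + v) - g) -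
        (A u + A (-(v + 2 * u)) + B (u + -(v + 2 * u)) - g) := by
      rw [hA, show u + -(v + 2 * u) = -(u + v) by ring, hB]
      ring
    rw [e]
    exact abs_sub _ _
  have h2 : ∑ v ∈ pm X, ∑ u ∈ G50 n X S v, |A v - A (v + 2 * u)| =
      ∑ u ∈ P50 n X, ∑ v ∈ (pm X).filter (fun v => u + v ∈ pm S ∧ v + 2 * u ∈ pm X),
        |A v - A (v + 2 * u)| := by
    refine sum_comm' fun v u => ?_
    unfold G50
    rw [mem_filter, mem_filter]
    tauto
  rw [h2, two_mul]
  unfold T50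
  rw [← sum_add_distrib]
  refine sum_le_sum fun u _ => ?_
  refine (sum_le_sum fun v _ => h1 u v).trans ?_
  rw [sum_add_distrib]
  refine add_le_add ?_ ?_
  · refine sum_le_sum_of_subset_of_nonneg (fun v hv => ?_) fun _ _ _ => abs_nonneg _
    rw [mem_filter] at hv ⊢
    exact ⟨hv.1, hv.2.1⟩
  · have h3 : ∑ v ∈ (pm X).filter (fun v => u + v ∈ pm S ∧ v + 2 * u ∈ pm X),
        |A u + A (-(v + 2 * u)) + B (u + -(v + 2 * u)) - g| =
        ∑ w ∈ ((pm X).filter (fun v => u + v ∈ pm S ∧ v + 2 * u ∈ pm X)).image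
          (fun v => -(v + 2 * u)), |A u + A w + B (u + w) - g| := by
      rw [sum_image]
      intro v _ v' _ hvv
      simp only at hvv
      linarith
    rw [h3]
    refine sum_le_sum_of_subset_of_nonneg (fun w hw => ?_) fun _ _ _ => abs_nonneg _
    obtain ⟨v, hv, rfl⟩ := mem_image.1 hw
    rw [mem_filter] at hv ⊢
    refine ⟨pm_neg_50.2 hv.2.2, ?_⟩
    rw [show u + -(v + 2 * u) = -(u + v) by ring]
    exact pm_neg_50.2 hv.2.1

private lemma N_sum_50 (hA : ∀ u, A (-u) = A u) (v : ℤ) :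
    ∑ v' ∈ N50 n X S v, |A v - A v'| ≤ 2 * ∑ u ∈ G50 n X S v, |A v - A (v + 2 * u)| := by
  have h1 : ∑ v' ∈ N50 n X S v, |A v - A v'| ≤
      ∑ v' ∈ (G50 n X S v).image (fun u => v + 2 * u), |A v - A v'| +
      ∑ v' ∈ (G50 n X S v).image (fun u => -(v + 2 * u)), |A v - A v'| := by
    unfold N50
    rw [← sum_union_inter]
    exact le_add_of_nonneg_right (sum_nonneg fun _ _ => abs_nonneg _)
  refine h1.trans ?_
  rw [sum_image, sum_image, two_mul]
  · refine add_le_add le_rfl (le_of_eq (sum_congr rfl fun u _ => ?_))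
    rw [hA]
  · intro u _ u' _ huu
    simp only at huu
    linarith
  · intro u _ u' _ huu
    simp only at huu
    linarith

/-- most points are neighbours -/
private lemma N_card_50 (hn : Even n) (hX : X ⊆ LC n) {v : ℤ} (hv : v ∈ pm X) :
    ((pm X) \ N50 n X S v).card ≤ 2 * ((pm (LC n \ X)).card + (sml50 n).card +
      ((pm (SC n \ S)).card + 1)) := by
  set E : Finset ℤ := pm (LC n \ X) ∪ sml50 n ∪ (insert 0 (pm (SC n \ S))).image (fun t => t - v)
    with hE
  have hEc : E.card ≤ (pm (LC n \ X)).card + (sml50 n).card + ((pm (SC n \ S)).card + 1) := by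
    refine (card_union_le _ _).trans (add_le_add (card_union_le _ _) ?_)
    exact card_image_le.trans (card_insert_le _ _)
  have hsub : (pm X) \ N50 n X S v ⊆ E.image (fun u => v + 2 * u) ∪ E.image (fun u => -(v + 2 * u)) := by
    intro v' hv'
    obtain ⟨h1, h2⟩ := mem_sdiff.1 hv'
    have b1 := pmX_iff_50 hX hv
    have b2 := pmX_iff_50 hX h1
    -- the choice of the sign
    obtain ⟨w, hw, u, hu, hwu⟩ : ∃ w : ℤ, (w = v' ∨ w = -v') ∧ ∃ u : ℤ, Odd u ∧ w = v + 2 * u := by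
      obtain ⟨a, ha⟩ := b1.2.2
      obtain ⟨c, hc⟩ := b2.2.2
      rcases Int.even_or_odd (c - a) with h | h
      · refine ⟨-v', Or.inr rfl, -c - a - 1, ?_, by rw [ha, hc]; ring⟩
        obtain ⟨d, hd⟩ := h
        exact ⟨-a - d - 1, by linarith⟩
      · exact ⟨v', Or.inl rfl, c - a, h, by rw [ha, hc]; ring⟩
    have hwm : w ∈ pm X := by
      rcases hw with rfl | rfl
      · exact h1
      · exact pm_neg_50.2 h1
    have b3 := pmX_iff_50 hX hwm
    have hn1 : ∀ x : ℤ, Odd x → x.natAbs ≤ n → x.natAbs ≤ n - 1 := by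
      intro x hx hxn
      rcases Nat.lt_or_ge x.natAbs n with h | h
      · omega
      · exfalso
        have e : x.natAbs = n := le_antisymm hxn h
        have h4 := Int.natAbs_odd.2 hx
        rw [e] at h4
        exact (Nat.not_even_iff_odd.2 h4) hn
    have c1 := hn1 v b1.2.2 b1.2.1
    have c3 := hn1 w b3.2.2 b3.2.1
    have hu1 : u.natAbs ≤ n := by omega
    have huE : u ∈ E := by
      by_contra hcon
      rw [hE, mem_union, mem_union, not_or, not_or] at hcon
      have g1 : u ∈ pm X := (odd_cases_50 X hu1 hu).resolve_right hcon.1.1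
      have g2 : n ≤ 32 * u.natAbs := by
        by_contra h
        exact hcon.1.2 (mem_sml_50 (by omega))
      have g3 : u + v ∈ pm S := by
        have h3 : (u + v).natAbs ≤ n - 1 := by omega
        refine (even_cases_50 S h3 (hu.add_odd b1.2.2)).resolve_right fun h => hcon.2 ?_
        exact mem_image.2 ⟨u + v, h, by ring⟩
      apply h2
      have g4 : u ∈ G50 n X S v := by
        unfold G50 P50
        rw [mem_filter, mem_filter]
        exact ⟨⟨g1, g2⟩, g3, by rw [← hwu]; exact hwm⟩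
      unfold N50
      rcases hw with hw | hw
      · exact mem_union_left _ (mem_image.2 ⟨u, g4, by rw [← hwu, hw]⟩)
      · exact mem_union_right _ (mem_image.2 ⟨u, g4, by rw [← hwu, hw, neg_neg]⟩)
    rcases hw with hw | hw
    · exact mem_union_left _ (mem_image.2 ⟨u, huE, by rw [← hwu, hw]⟩)
    · exact mem_union_right _ (mem_image.2 ⟨u, huE, by rw [← hwu, hw, neg_neg]⟩)
  have h1 := card_le_card hsub
  have h2 : (E.image (fun u => v + 2 * u)).card ≤ E.card := card_image_le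
  have h3 : (E.image (fun u => -(v + 2 * u))).card ≤ E.card := card_image_le
  have h4 := card_union_le (E.image (fun u => v + 2 * u)) (E.image (fun u => -(v + 2 * u)))
  omega

end Main50

/-- the labels which can be used for the sum `t` -/
private noncomputable def V50 (n : ℕ) (X : Finset ℕ) (t : ℤ) : Finset ℤ :=
  (P50 n X).filter fun u => t - u ∈ pm X

private lemma V_card_50 {n : ℕ} (hn : Even n) {X S : Finset ℕ} (hS : S ⊆ SC n)
    {t : ℤ} (ht : t ∈ pm S) : n ≤ 2 * ((V50 n X t).card + 2 * (pm (LC n \ X)).card + (sml50 n).card) := by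
  obtain ⟨t1, t2, t3⟩ := pmS_iff_50 hS ht
  obtain ⟨k, hk⟩ := hn
  set σ : ℤ := if 0 ≤ t then 1 else -1 with hσ
  have hσ1 : σ = 1 ∨ σ = -1 := by
    rw [hσ]
    split_ifs
    · exact Or.inl rfl
    · exact Or.inr rfl
  set W : Finset ℤ := (Finset.range k).image (fun i : ℕ => σ * ((n : ℤ) - 1 - 2 * i)) with hW
  have hWc : W.card = k := by
    rw [hW, card_image_of_injective, card_range]
    intro i j hij
    simp only at hij
    rcases hσ1 with h | h <;> rw [h] at hij <;> omega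
  have hsub : W ⊆ V50 n X t ∪ pm (LC n \ X) ∪ (pm (LC n \ X)).image (fun u => t - u) ∪ sml50 n := by
    intro u hu
    obtain ⟨i, hi, rfl⟩ := mem_image.1 hu
    rw [mem_range] at hi
    set u : ℤ := σ * ((n : ℤ) - 1 - 2 * i) with hu'
    have hodd : Odd u := by
      rcases hσ1 with h | h
      · exact ⟨k - 1 - i, by rw [hu', h, hk]; push_cast; ring⟩
      · exact ⟨-k + i, by rw [hu', h, hk]; push_cast; ring⟩
    have hua : u.natAbs ≤ n := by
      rcases hσ1 with h | h <;> rw [h] at hu' <;> omega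
    have hta : (t - u).natAbs ≤ n := by
      by_cases h0 : 0 ≤ t
      · rw [hσ, if_pos h0] at hu'
        omega
      · rw [hσ, if_neg h0] at hu'
        omega
    have hodd2 : Odd (t - u) := t3.sub_odd hodd
    rcases odd_cases_50 X hua hodd with h1 | h1
    · rcases odd_cases_50 X hta hodd2 with h2 | h2
      · by_cases h3 : 32 * u.natAbs < n
        · exact mem_union_right _ (mem_sml_50 h3)
        · refine mem_union_left _ (mem_union_left _ (mem_union_left _ ?_))
          unfold V50 P50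
          rw [mem_filter, mem_filter]
          exact ⟨⟨h1, by omega⟩, h2⟩
      · exact mem_union_left _ (mem_union_right _ (mem_image.2 ⟨t - u, h2, by ring⟩))
    · exact mem_union_left _ (mem_union_left _ (mem_union_right _ h1))
  have h1 := card_le_card hsub
  have h2 := card_union_le (V50 n X t ∪ pm (LC n \ X) ∪ (pm (LC n \ X)).image (fun u => t - u))
    (sml50 n)
  have h3 := card_union_le (V50 n X t ∪ pm (LC n \ X)) ((pm (LC n \ X)).image (fun u => t - u))
  have h4 := card_union_le (V50 n X t) (pm (LC n \ X))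
  have h5 : ((pm (LC n \ X)).image (fun u => t - u)).card ≤ (pm (LC n \ X)).card := card_image_le
  omega

private lemma pm_le_50 {n : ℕ} {C : Finset ℕ} (hC : ∀ x ∈ C, x ≤ n) : (pm C).card ≤ 2 * n + 1 := by
  have h : pm C ⊆ Finset.Icc (-(n : ℤ)) n := by
    intro u hu
    have := hC _ (mem_pm.1 hu)
    rw [mem_Icc]
    omega
  have h1 := card_le_card h
  rw [Int.card_Icc] at h1
  omega

private lemma pm_ge_50 {n : ℕ} (hn : Even n) (X : Finset ℕ) :
    n ≤ (pm X).card + (pm (LC n \ X)).card := by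
  obtain ⟨k, hk⟩ := hn
  set W : Finset ℤ := (Finset.range n).image (fun i : ℕ => 2 * (i : ℤ) + 1 - n) with hW
  have hWc : W.card = n := by
    rw [hW, card_image_of_injective, card_range]
    intro i j hij
    simp only at hij
    omega
  have hsub : W ⊆ pm X ∪ pm (LC n \ X) := by
    intro u hu
    obtain ⟨i, hi, rfl⟩ := mem_image.1 hu
    rw [mem_range] at hi
    refine mem_union.2 (odd_cases_50 X (by omega) ⟨i - k, by rw [hk]; push_cast; ring⟩)
  have h1 := (card_le_card hsub).trans (card_union_le _ _)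
  omega

theorem gain : ∃ (e0 ζ0 : ℝ) (n0 : ℕ), 0 < e0 ∧ 0 < ζ0 ∧ ∀ n : ℕ, n0 ≤ n → Even n →
    ∀ X S : Finset ℕ, X ⊆ LC n → S ⊆ SC n → ((LC n \ X).card : ℝ) ≤ ζ0 * n → ((SC n \ S).card : ℝ) ≤ ζ0 * n →
    ∀ (A B : ℤ → ℝ) (g : ℝ), (∀ u, A (-u) = A u) → (∀ t, B (-t) = B t) →
    e0 * (∑ u ∈ pm X, |A u - (∑ w ∈ pm X, A w) / (pm X).card| +
        ∑ t ∈ pm S, |B t - (∑ w ∈ pm S, B w) / (pm S).card|) ≤
      ∑ u ∈ pm X, ∑ v ∈ (pm X).filter (fun v => u + v ∈ pm S), hex u v / (n : ℝ) ^ 2 * |A u + A v + B (u + v) - g| := by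
  refine ⟨1 / 1000000, 1 / 100, 1000, by norm_num, by norm_num, ?_⟩
  intro n hn0 hne X S hX hS hXc hSc A B g hA hB
  set R : ℝ := ∑ u ∈ pm X, ∑ v ∈ (pm X).filter (fun v => u + v ∈ pm S),
    hex u v / (n : ℝ) ^ 2 * |A u + A v + B (u + v) - g| with hR
  set T : ℝ := T50 n X S A B g with hT
  have hnp : 0 < n := by omega
  have hn' : (1000 : ℝ) ≤ n := by exact_mod_cast hn0
  have hT0 : 0 ≤ T := T_nonneg_50
  have hTR : T ≤ 32 * n * R := R_ge_50 hnp
  -- cardinalities
  have cX : ((pm (LC n \ X)).card : ℝ) ≤ n / 50 := by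
    have h1 : ((pm (LC n \ X)).card : ℝ) ≤ 2 * (LC n \ X).card := by exact_mod_cast pm_card_50 _
    linarith
  have cS : ((pm (SC n \ S)).card : ℝ) ≤ n / 50 := by
    have h1 : ((pm (SC n \ S)).card : ℝ) ≤ 2 * (SC n \ S).card := by exact_mod_cast pm_card_50 _
    linarith
  have cs : ((sml50 n).card : ℝ) ≤ n / 16 + 1 := by
    have h1 : ((16 * (sml50 n).card : ℕ) : ℝ) ≤ ((n + 16 : ℕ) : ℝ) := by
      exact_mod_cast sml_card_50 n
    push_cast at h1
    linarith
  have cm : (n : ℝ) * (49 / 50) ≤ (pm X).card := by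
    have h1 : ((n : ℕ) : ℝ) ≤ (((pm X).card + (pm (LC n \ X)).card : ℕ) : ℝ) := by
      exact_mod_cast pm_ge_50 hne X
    push_cast at h1
    linarith
  have cm2 : ((pm X).card : ℝ) ≤ 3 * n := by
    have h1 : (pm X).card ≤ 2 * n + 1 := pm_le_50 fun x hx => (mem_LC.1 (hX hx)).1.2
    have h2 : ((pm X).card : ℝ) ≤ ((2 * n + 1 : ℕ) : ℝ) := by exact_mod_cast h1
    push_cast at h2
    linarith
  have cs2 : ((pm S).card : ℝ) ≤ 3 * n := by
    have h1 : (pm S).card ≤ 2 * n + 1 := pm_le_50 fun x hx => by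
      have := (mem_SC.1 (hS hx)).1.2
      omega
    have h2 : ((pm S).card : ℝ) ≤ ((2 * n + 1 : ℕ) : ℝ) := by exact_mod_cast h1
    push_cast at h2
    linarith
  -- common neighbours
  have hcom : ∀ v ∈ pm X, ∀ w ∈ pm X,
      (n : ℝ) / 4 ≤ (N50 n X S v ∩ N50 n X S w).card := by
    intro v hv w hw
    have h1 := N_card_50 (S := S) hne hX hv
    have h2 := N_card_50 (S := S) hne hX hw
    have h3 : pm X ⊆ (N50 n X S v ∩ N50 n X S w) ∪ ((pm X) \ N50 n X S v ∪ (pm X) \ N50 n X S w) := by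
      intro x hx
      by_cases a1 : x ∈ N50 n X S v
      · by_cases a2 : x ∈ N50 n X S w
        · exact mem_union_left _ (mem_inter.2 ⟨a1, a2⟩)
        · exact mem_union_right _ (mem_union_right _ (mem_sdiff.2 ⟨hx, a2⟩))
      · exact mem_union_right _ (mem_union_left _ (mem_sdiff.2 ⟨hx, a1⟩))
    have h4 := (card_le_card h3).trans ((card_union_le _ _).trans
      (Nat.add_le_add_left (card_union_le _ _) _))
    have h5 : (pm X).card ≤ (N50 n X S v ∩ N50 n X S w).card +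
        4 * ((pm (LC n \ X)).card + (sml50 n).card + ((pm (SC n \ S)).card + 1)) := by omega
    have h6 : ((pm X).card : ℝ) ≤ (((N50 n X S v ∩ N50 n X S w).card +
        4 * ((pm (LC n \ X)).card + (sml50 n).card + ((pm (SC n \ S)).card + 1)) : ℕ) : ℝ) := by
      exact_mod_cast h5
    push_cast at h6
    linarith
  -- the sum over all pairs
  have hN : ∑ v ∈ pm X, ∑ x ∈ N50 n X S v, |A v - A x| ≤ 4 * T := by
    calc ∑ v ∈ pm X, ∑ x ∈ N50 n X S v, |A v - A x|
        ≤ ∑ v ∈ pm X, 2 * ∑ u ∈ G50 n X S v, |A v - A (v + 2 * u)| :=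
          sum_le_sum fun v _ => N_sum_50 hA v
      _ = 2 * ∑ v ∈ pm X, ∑ u ∈ G50 n X S v, |A v - A (v + 2 * u)| := by rw [← mul_sum]
      _ ≤ 2 * (2 * T) := mul_le_mul_of_nonneg_left (S1_le_50 hA hB) (by norm_num)
      _ = 4 * T := by ring
  have hpairs : (n : ℝ) / 4 * ∑ v ∈ pm X, ∑ w ∈ pm X, |A v - A w| ≤ 24 * n * T := by
    have h1 : ∀ v ∈ pm X, ∀ w ∈ pm X, (n : ℝ) / 4 * |A v - A w| ≤
        ∑ x ∈ N50 n X S v, |A v - A x| + ∑ x ∈ N50 n X S w, |A w - A x| := by
      intro v hv w hw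
      calc (n : ℝ) / 4 * |A v - A w| ≤ (N50 n X S v ∩ N50 n X S w).card * |A v - A w| :=
            mul_le_mul_of_nonneg_right (hcom v hv w hw) (abs_nonneg _)
        _ = ∑ x ∈ N50 n X S v ∩ N50 n X S w, |A v - A w| := by rw [sum_const, nsmul_eq_mul]
        _ ≤ ∑ x ∈ N50 n X S v ∩ N50 n X S w, (|A v - A x| + |A w - A x|) := by
            refine sum_le_sum fun x _ => ?_
            have := abs_sub_le (A v) (A x) (A w)
            rwa [abs_sub_comm (A x) (A w)] at this
        _ = ∑ x ∈ N50 n X S v ∩ N50 n X S w, |A v - A x| +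
            ∑ x ∈ N50 n X S v ∩ N50 n X S w, |A w - A x| := sum_add_distrib
        _ ≤ _ := add_le_add
            (sum_le_sum_of_subset_of_nonneg inter_subset_left fun _ _ _ => abs_nonneg _)
            (sum_le_sum_of_subset_of_nonneg inter_subset_right fun _ _ _ => abs_nonneg _)
    calc (n : ℝ) / 4 * ∑ v ∈ pm X, ∑ w ∈ pm X, |A v - A w|
        = ∑ v ∈ pm X, ∑ w ∈ pm X, (n : ℝ) / 4 * |A v - A w| := by
          rw [mul_sum]
          exact sum_congr rfl fun v _ => mul_sum _ _ _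
      _ ≤ ∑ v ∈ pm X, ∑ w ∈ pm X, (∑ x ∈ N50 n X S v, |A v - A x| +
            ∑ x ∈ N50 n X S w, |A w - A x|) :=
          sum_le_sum fun v hv => sum_le_sum fun w hw => h1 v hv w hw
      _ = 2 * ((pm X).card * ∑ v ∈ pm X, ∑ x ∈ N50 n X S v, |A v - A x|) := by
          simp only [sum_add_distrib, sum_const, nsmul_eq_mul, ← mul_sum]
          ring
      _ ≤ 2 * (3 * n * (4 * T)) := by
          refine mul_le_mul_of_nonneg_left (mul_le_mul cm2 hN ?_ (by positivity)) (by norm_num)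
          exact sum_nonneg fun _ _ => sum_nonneg fun _ _ => abs_nonneg _
      _ = 24 * n * T := by ring
  set QA : ℝ := ∑ u ∈ pm X, |A u - (∑ w ∈ pm X, A w) / (pm X).card| with hQA
  have hQA0 : 0 ≤ QA := sum_nonneg fun _ _ => abs_nonneg _
  have hA1 : (n : ℝ) * QA ≤ 200 * T := by
    have h1 := avg1_50 (pm X) A
    rw [← hQA] at h1
    have h2 : (n : ℝ) * (49 / 50) * QA ≤ ((pm X).card : ℝ) * QA :=
      mul_le_mul_of_nonneg_right cm hQA0
    have h3 : (n : ℝ) / 4 * ((n : ℝ) * (49 / 50) * QA) ≤ 24 * n * T :=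
      (mul_le_mul_of_nonneg_left (h2.trans h1) (by positivity)).trans hpairs
    have h4 : (n : ℝ) * ((49 / 200) * (n * QA)) ≤ n * (24 * T) := by linarith
    have h5 := le_of_mul_le_mul_left h4 (by linarith)
    linarith
  -- the sums
  set a0 : ℝ := (∑ w ∈ pm X, A w) / (pm X).card with ha0
  set β : ℝ := g - 2 * a0 with hβ
  have hVc : ∀ t ∈ pm S, (n : ℝ) / 4 ≤ (V50 n X t).card := by
    intro t ht
    have h1 := V_card_50 (X := X) hne hS ht
    have h2 : ((n : ℕ) : ℝ) ≤ ((2 * ((V50 n X t).card + 2 * (pm (LC n \ X)).card +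
        (sml50 n).card) : ℕ) : ℝ) := by exact_mod_cast h1
    push_cast at h2
    linarith
  have hB1 : (n : ℝ) / 4 * ∑ t ∈ pm S, |B t - β| ≤ T + 2 * ((pm S).card * QA) := by
    have h1 : ∀ t ∈ pm S, (n : ℝ) / 4 * |B t - β| ≤
        ∑ u ∈ V50 n X t, |A u + A (t - u) + B t - g| + 2 * QA := by
      intro t ht
      calc (n : ℝ) / 4 * |B t - β| ≤ (V50 n X t).card * |B t - β| :=
            mul_le_mul_of_nonneg_right (hVc t ht) (abs_nonneg _)
        _ = ∑ u ∈ V50 n X t, |B t - β| := by rw [sum_const, nsmul_eq_mul]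
        _ ≤ ∑ u ∈ V50 n X t, (|A u + A (t - u) + B t - g| + |A u - a0| + |A (t - u) - a0|) := by
            refine sum_le_sum fun u _ => ?_
            have e : B t - β = (A u + A (t - u) + B t - g) - (A u - a0) - (A (t - u) - a0) := by
              rw [hβ]; ring
            rw [e]
            exact (abs_sub _ _).trans (add_le_add_left (abs_sub _ _) _)
        _ = ∑ u ∈ V50 n X t, |A u + A (t - u) + B t - g| + ∑ u ∈ V50 n X t, |A u - a0| +
            ∑ u ∈ V50 n X t, |A (t - u) - a0| := by rw [sum_add_distrib, sum_add_distrib]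
        _ ≤ ∑ u ∈ V50 n X t, |A u + A (t - u) + B t - g| + QA + QA := by
            have s1 : V50 n X t ⊆ pm X := fun u hu => (P_sub_50 (mem_filter.1 hu).1).1
            refine add_le_add (add_le_add_right (sum_le_sum_of_subset_of_nonneg s1
              fun _ _ _ => abs_nonneg _) _) ?_
            have h2 : ∑ u ∈ V50 n X t, |A (t - u) - a0| =
                ∑ w ∈ (V50 n X t).image (fun u => t - u), |A w - a0| := by
              rw [sum_image]
              intro u _ u' _ huu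
              simp only at huu
              linarith
            rw [h2]
            refine sum_le_sum_of_subset_of_nonneg (fun w hw => ?_) fun _ _ _ => abs_nonneg _
            obtain ⟨u, hu, rfl⟩ := mem_image.1 hw
            exact (mem_filter.1 hu).2
        _ = _ := by ring
    have h2 : ∑ t ∈ pm S, ∑ u ∈ V50 n X t, |A u + A (t - u) + B t - g| ≤ T := by
      have h3 : ∑ t ∈ pm S, ∑ u ∈ V50 n X t, |A u + A (t - u) + B t - g| =
          ∑ u ∈ P50 n X, ∑ t ∈ (pm S).filter (fun t => t - u ∈ pm X),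
            |A u + A (t - u) + B t - g| := by
        refine sum_comm' fun t u => ?_
        unfold V50
        rw [mem_filter, mem_filter]
        tauto
      rw [h3, hT]
      unfold T50
      refine sum_le_sum fun u _ => ?_
      have h4 : ∑ t ∈ (pm S).filter (fun t => t - u ∈ pm X), |A u + A (t - u) + B t - g| =
          ∑ v ∈ ((pm S).filter (fun t => t - u ∈ pm X)).image (fun t => t - u),
            |A u + A v + B (u + v) - g| := by
        rw [sum_image]
        · refine sum_congr rfl fun t _ => ?_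
          rw [add_sub_cancel]
        · intro t _ t' _ htt
          simp only at htt
          linarith
      rw [h4]
      refine sum_le_sum_of_subset_of_nonneg (fun v hv => ?_) fun _ _ _ => abs_nonneg _
      obtain ⟨t, ht, rfl⟩ := mem_image.1 hv
      rw [mem_filter] at ht ⊢
      refine ⟨ht.2, ?_⟩
      rw [add_sub_cancel]
      exact ht.1
    calc (n : ℝ) / 4 * ∑ t ∈ pm S, |B t - β| = ∑ t ∈ pm S, (n : ℝ) / 4 * |B t - β| := mul_sum _ _ _
      _ ≤ ∑ t ∈ pm S, (∑ u ∈ V50 n X t, |A u + A (t - u) + B t - g| + 2 * QA) := sum_le_sum h1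
      _ = ∑ t ∈ pm S, ∑ u ∈ V50 n X t, |A u + A (t - u) + B t - g| + 2 * ((pm S).card * QA) := by
          rw [sum_add_distrib, sum_const, nsmul_eq_mul]
          ring
      _ ≤ T + 2 * ((pm S).card * QA) := add_le_add_left h2 _
  set QB : ℝ := ∑ t ∈ pm S, |B t - (∑ w ∈ pm S, B w) / (pm S).card| with hQB
  have hB2 : QB ≤ 2 * ∑ t ∈ pm S, |B t - β| := avg2_50 (pm S) B β
  have hB3 : (n : ℝ) * QB ≤ 10000 * T := by
    have h1 : ((pm S).card : ℝ) * QA ≤ 3 * n * QA := mul_le_mul_of_nonneg_right cs2 hQA0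
    have h2 : (n : ℝ) * QB ≤ n * (2 * ∑ t ∈ pm S, |B t - β|) :=
      mul_le_mul_of_nonneg_left hB2 (by positivity)
    linarith
  have hfin : (n : ℝ) * (QA + QB) ≤ n * (326400 * R) := by
    linarith
  have h := le_of_mul_le_mul_left hfin (by linarith)
  have hR0 : 0 ≤ R := by
    have h1 : 0 ≤ 32 * (n : ℝ) * R := hT0.trans hTR
    exact nonneg_of_mul_nonneg_right h1 (by positivity)
  linarith

end Pool.Agent.BD
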