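import Pool.Agent.Helper73.SEM.MM
import Pool.Agent.Helper73.SQ.LPQ

/-!
# BD-KC: duality with a global median

Proof in words.  `SEM.minimax` with `Q = {q : 0 ≤ q i ≤ 2 k0 i, ∑ q = ∑ k0}` (compact, convex, contains `k0`), `a j = - b j`.  For `l ≥ 0` put
`Φ i = ∑_j l j * M j i`, let `g` be a weighted median of `Φ` with weights `k0` (compare `SQ.exists_median83`, there for `Finset ℕ`): `q = 2 k0` where `Φ < g`, `0` where `Φ > g`, `λ k0` where
`Φ = g` (`0 ≤ λ ≤ 2` such that the total is right; if all `k0 = 0` everything is trivial).  Then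
`∑ q Φ = ∑ k0 Φ - ∑ (k0 - q)(Φ - g) = ∑ k0 Φ - ∑ k0 |Φ - g|` and `h` (for this `l`, `g`) gives `∑_j l j (∑_i M j i q i - b j) ≤ 0`.
-/

set_option autoImplicit false

namespace Pool.Agent.BD

open Finset Pool.Agent.SEM

/-- Weighted medians. -/
private theorem exists_median70 {ι : Type} (Y : Finset ι) (w Φ : ι → ℝ) (hw : ∀ y, 0 ≤ w y) (hY : Y.Nonempty) :
    ∃ g : ℝ, 2 * ∑ y ∈ Y with Φ y < g, w y ≤ ∑ y ∈ Y, w y ∧
      2 * ∑ y ∈ Y with g < Φ y, w y ≤ ∑ y ∈ Y, w y := by
  classical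
  set W := ∑ y ∈ Y, w y with hW
  have hW0 : 0 ≤ W := sum_nonneg fun y _ => hw y
  set V := (Y.image Φ).filter fun g => W ≤ 2 * ∑ y ∈ Y with Φ y ≤ g, w y with hV
  have hVn : V.Nonempty := by
    have hne : (Y.image Φ).Nonempty := hY.image Φ
    refine ⟨(Y.image Φ).max' hne, ?_⟩
    rw [hV, mem_filter]
    refine ⟨max'_mem _ _, ?_⟩
    have : (Y.filter fun y => Φ y ≤ (Y.image Φ).max' hne) = Y := by
      apply filter_true_of_mem
      intro y hy
      exact le_max' _ _ (mem_image_of_mem _ hy)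
    rw [this, ← hW]; linarith
  set g := V.min' hVn with hg
  have hgV : g ∈ V := min'_mem _ _
  rw [hV, mem_filter] at hgV
  refine ⟨g, ?_, ?_⟩
  · by_contra hcon
    push Not at hcon
    have hpos : 0 < ∑ y ∈ Y with Φ y < g, w y := by linarith
    have hne : (Y.filter fun y => Φ y < g).Nonempty := by
      by_contra h
      rw [not_nonempty_iff_eq_empty] at h
      rw [h, sum_empty] at hpos
      exact lt_irrefl _ hpos
    have hne2 : ((Y.filter fun y => Φ y < g).image Φ).Nonempty := hne.image Φ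
    set g' := ((Y.filter fun y => Φ y < g).image Φ).max' hne2 with hg'
    have hg'm : g' ∈ (Y.filter fun y => Φ y < g).image Φ := max'_mem _ _
    obtain ⟨y0, hy0, hy0'⟩ := mem_image.1 hg'm
    rw [mem_filter] at hy0
    have hlt : g' < g := by rw [← hy0']; exact hy0.2
    have hsub : (Y.filter fun y => Φ y < g) ⊆ (Y.filter fun y => Φ y ≤ g') := by
      intro y hy
      rw [mem_filter]
      exact ⟨(mem_filter.1 hy).1, le_max' _ _ (mem_image_of_mem _ hy)⟩
    have hle : ∑ y ∈ Y with Φ y < g, w y ≤ ∑ y ∈ Y with Φ y ≤ g', w y :=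
      sum_le_sum_of_subset_of_nonneg hsub fun y _ _ => hw y
    have hg'V : g' ∈ V := by
      rw [hV, mem_filter]
      refine ⟨mem_image.2 ⟨y0, hy0.1, hy0'⟩, ?_⟩
      linarith
    have := min'_le V g' hg'V
    rw [← hg] at this
    linarith
  · have hsplit : ∑ y ∈ Y with Φ y ≤ g, w y + ∑ y ∈ Y with ¬ Φ y ≤ g, w y = W :=
      sum_filter_add_sum_filter_not _ _ _
    have : (Y.filter fun y => g < Φ y) = (Y.filter fun y => ¬ Φ y ≤ g) := by
      apply filter_congr
      intro y _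
      rw [not_le]
    rw [this]
    linarith [hgV.2]

/-- Optimal redistribution of a weight. -/
private theorem exists_shift70 {ι : Type} (Y : Finset ι) (w Φ : ι → ℝ) (hw : ∀ y, 0 ≤ w y) :
    ∃ g : ℝ, ∃ q : ι → ℝ, (∀ y, 0 ≤ q y ∧ q y ≤ 2 * w y) ∧ ∑ y ∈ Y, q y = ∑ y ∈ Y, w y ∧
      ∑ y ∈ Y, w y * |Φ y - g| = ∑ y ∈ Y, (w y - q y) * Φ y := by
  classical
  rcases Y.eq_empty_or_nonempty with rfl | hY
  · exact ⟨0, w, fun y => ⟨hw y, by linarith [hw y]⟩, by simp, by simp⟩
  obtain ⟨g, h1, h2⟩ := exists_median70 Y w Φ hw hY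
  set W := ∑ y ∈ Y, w y with hW
  set a := ∑ y ∈ Y with Φ y < g, w y with ha
  set b := ∑ y ∈ Y with g < Φ y, w y with hb
  set c := ∑ y ∈ Y with Φ y = g, w y with hc
  have hc0 : 0 ≤ c := sum_nonneg fun y _ => hw y
  have habc : a + b + c = W := by
    have e1 : ∀ y, w y = (if Φ y < g then w y else 0) + (if g < Φ y then w y else 0)
        + (if Φ y = g then w y else 0) := by
      intro y
      rcases lt_trichotomy (Φ y) g with h | h | h
      · simp [h, h.ne, h.not_gt]
      · simp [h]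
      · simp [h, h.ne', h.not_gt]
    rw [hW, ha, hb, hc, sum_filter, sum_filter, sum_filter, ← sum_add_distrib, ← sum_add_distrib]
    exact (sum_congr rfl fun y _ => e1 y).symm
  obtain ⟨lam, hl0, hl2, hlc⟩ : ∃ lam : ℝ, 0 ≤ lam ∧ lam ≤ 2 ∧ 2 * a + lam * c = W := by
    rcases eq_or_lt_of_le hc0 with h0 | h0
    · exact ⟨1, by norm_num, by norm_num, by rw [← h0]; linarith⟩
    · refine ⟨(W - 2 * a) / c, div_nonneg (by linarith) hc0, ?_, ?_⟩
      · rw [div_le_iff₀ h0]; linarith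
      · field_simp; ring
  set q : ι → ℝ := fun y => (if Φ y < g then 2 * w y else 0) + (if Φ y = g then lam * w y else 0)
    with hq
  have hqs : ∑ y ∈ Y, q y = W := by
    simp only [hq]
    rw [sum_add_distrib, ← sum_filter, ← sum_filter, ← mul_sum, ← mul_sum]
    exact hlc
  refine ⟨g, q, ?_, hqs, ?_⟩
  · intro y
    have := hw y
    rcases lt_trichotomy (Φ y) g with h | h | h
    · simp only [hq, h, h.ne, if_true, if_false]; constructor <;> linarith
    · simp only [hq, h, lt_irrefl, if_true, if_false]; constructor <;> nlinarith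
    · simp only [hq, h.ne', h.not_gt, if_false]; constructor <;> linarith
  · have e1 : ∑ y ∈ Y, (w y - q y) * Φ y = ∑ y ∈ Y, (w y - q y) * (Φ y - g) := by
      have : ∑ y ∈ Y, (w y - q y) * g = 0 := by
        rw [← sum_mul, sum_sub_distrib, hqs, ← hW]; simp
      have e2 : ∑ y ∈ Y, (w y - q y) * (Φ y - g)
          = ∑ y ∈ Y, (w y - q y) * Φ y - ∑ y ∈ Y, (w y - q y) * g := by
        rw [← sum_sub_distrib]
        exact sum_congr rfl fun y _ => by ring
      rw [e2, this, sub_zero]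
    rw [e1]
    apply sum_congr rfl
    intro y _
    rcases lt_trichotomy (Φ y) g with h | h | h
    · simp only [hq, h, h.ne, if_true, if_false]
      rw [abs_of_neg (by linarith)]; ring
    · simp only [h, sub_self, abs_zero, mul_zero]
    · simp only [hq, h.ne', h.not_gt, if_false]
      rw [abs_of_pos (by linarith)]; ring

theorem lp_global {ι J : Type} [Fintype ι] [Fintype J] (k0 : ι → ℝ) (hk : ∀ i, 0 ≤ k0 i) (M : J → ι → ℝ)
    (b : J → ℝ)
    (h : ∀ l : J → ℝ, (∀ j, 0 ≤ l j) → ∀ g : ℝ,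
      ∑ j, l j * (∑ i, M j i * k0 i - b j) ≤ ∑ i, k0 i * |∑ j, l j * M j i - g|) :
    ∃ q : ι → ℝ, (∀ i, 0 ≤ q i ∧ q i ≤ 2 * k0 i) ∧ ∑ i, q i = ∑ i, k0 i ∧
      ∀ j, ∑ i, M j i * q i ≤ b j := by
  classical
  set Q : Set (ι → ℝ) := {q | (∀ i, 0 ≤ q i ∧ q i ≤ 2 * k0 i) ∧ ∑ i, q i = ∑ i, k0 i} with hQ
  have hconv : Convex ℝ Q := by
    intro q hq r hr x y hx hy hxy
    refine ⟨fun i => ?_, ?_⟩
    · have h1 := hq.1 i
      have h2 := hr.1 i
      simp only [Pi.add_apply, Pi.smul_apply, smul_eq_mul]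
      constructor
      · exact add_nonneg (mul_nonneg hx h1.1) (mul_nonneg hy h2.1)
      · have e : 2 * k0 i = x * (2 * k0 i) + y * (2 * k0 i) := by
          rw [← add_mul, hxy, one_mul]
        rw [e]
        exact add_le_add (mul_le_mul_of_nonneg_left h1.2 hx) (mul_le_mul_of_nonneg_left h2.2 hy)
    · simp only [Pi.add_apply, Pi.smul_apply, smul_eq_mul]
      rw [sum_add_distrib, ← mul_sum, ← mul_sum, hq.2, hr.2, ← add_mul, hxy, one_mul]
  have hcpt : IsCompact Q := by
    have hsub : Q ⊆ Set.pi Set.univ fun i : ι => Set.Icc 0 (2 * k0 i) := by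
      intro q hq i _
      exact hq.1 i
    apply (isCompact_univ_pi fun i : ι => isCompact_Icc).of_isClosed_subset _ hsub
    have : Q = (⋂ i : ι, {q : ι → ℝ | 0 ≤ q i}) ∩ (⋂ i : ι, {q : ι → ℝ | q i ≤ 2 * k0 i}) ∩
        {q : ι → ℝ | ∑ i, q i = ∑ i, k0 i} := by
      ext q
      simp only [hQ, Set.mem_ofPred_eq, Set.mem_inter_iff, Set.mem_iInter]
      constructor
      · rintro ⟨h1, h2⟩
        exact ⟨⟨fun i => (h1 i).1, fun i => (h1 i).2⟩, h2⟩
      · rintro ⟨⟨h1, h2⟩, h3⟩
        exact ⟨fun i => ⟨h1 i, h2 i⟩, h3⟩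
    rw [this]
    refine ((isClosed_iInter fun i => ?_).inter (isClosed_iInter fun i => ?_)).inter ?_
    · exact isClosed_le continuous_const (continuous_apply i)
    · exact isClosed_le (continuous_apply i) continuous_const
    · exact isClosed_eq (continuous_finsetSum _ fun i _ => continuous_apply i) continuous_const
  have hne : Q.Nonempty := ⟨k0, fun i => ⟨hk i, by linarith [hk i]⟩, rfl⟩
  obtain ⟨q, hq, hqj⟩ := minimax Q hconv hcpt hne (fun j => - b j) M (by
    intro l hl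
    obtain ⟨g, q, hq1, hq2, hq3⟩ := exists_shift70 (univ : Finset ι) k0
      (fun i => ∑ j, l j * M j i) hk
    refine ⟨q, ⟨hq1, hq2⟩, ?_⟩
    have h1 := h l hl g
    have e1 : ∑ j, l j * (∑ i, M j i * k0 i - b j) - ∑ j, l j * (-b j + ∑ i, M j i * q i) =
        ∑ i, (k0 i - q i) * ∑ j, l j * M j i := by
      rw [← sum_sub_distrib]
      have e2 : ∀ j, l j * (∑ i, M j i * k0 i - b j) - l j * (-b j + ∑ i, M j i * q i) =
          ∑ i, (k0 i - q i) * (l j * M j i) := by
        intro j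
        have e3 : ∑ i, (k0 i - q i) * (l j * M j i) =
            l j * ∑ i, M j i * k0 i - l j * ∑ i, M j i * q i := by
          rw [mul_sum, mul_sum, ← sum_sub_distrib]
          exact sum_congr rfl fun i _ => by ring
        rw [e3]
        ring
      rw [sum_congr rfl fun j _ => e2 j, sum_comm]
      exact sum_congr rfl fun i _ => by rw [mul_sum]
    linarith)
  refine ⟨q, hq.1, hq.2, fun j => ?_⟩
  have := hqj j
  linarith

end Pool.Agent.BD
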