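import Pool.Agent.Helper73.BD.KA
import Pool.Agent.Helper73.BD.KB
import Pool.Agent.Helper73.BD.KC

/-!
# BD-KD: the exact kernel

Proof in words.  `ι` = pairs `(u,v) ∈ pm X × pm X` with `u + v ∈ pm S`; `k0 (u,v) = c · hex u v` with `c` such that `∑ k0 = |pm X| = 2|X|`.
By `hex_row` and `hex ≤ n`: for `u ∈ pm X` the sum of `hex u v` over the allowed `v` is between `n²/2 - 4n - 4ζn·n` and `n²/2 + 4n`; likewise the diagonal sums
(`hex_dia`), for `t ∈ pm S`; so `c = (2/n²)(1 + O(ζ + 1/n))`, the row sums of `k0` are `1 + r(u)`, the diagonal sums `|X|/|S| + d(t)` with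
`|r|, |d| ≤ e0/2` (for `ζ` small, `n` large), `∑_u r = 0`, `∑_t d = 0` (total mass), and `k0 ≥ hex/n²`.
`J = X ⊕ S` (subtypes), `M (a) (u,v) = [|u| = a] + [|v| = a]`, `b a = 4`, `M (s) (u,v) = [|u+v| = s]`, `b s = 2|X|/|S|`.  For `l ≥ 0` put `A u = l |u|`,
`B t = l |t|` (zero outside): `∑_j l j M j (u,v) = A u + A v + B (u+v)`, `∑_j l j (∑ M k0 - b) = ∑_u A u · 2 r(u) + ∑_t B t d(t)
= 2 ∑ (A u - Ā) r(u) + ∑ (B t - B̄) d(t) ≤ e0 (∑|A - Ā| + ∑|B - B̄|) ≤ ∑ k0 |Φ - g|` by `gain`.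
`lp_global` gives `q` with all loads `≤ b`; the totals agree (`∑_a ∑ M q = 2 ∑ q = 4|X|`, `∑_s ∑ M q = ∑ q = 2|X|`), so all loads are `= b`.
`k u v = (q(u,v) + q(v,u) + q(-u,-v) + q(-v,-u))/4` (zero outside).  Row sum at `u`: a quarter of the load of the class `|u|`, so `1`; the same for the columns; diagonal `t`:
half of the load of `|t|`.  `k ≤ 2 c n ≤ 5/n`.
-/

set_option autoImplicit false

namespace Pool.Agent.BD

open Finset Pool.Agent.SEM

private theorem neg_pm86 {C : Finset ℕ} {u : ℤ} : -u ∈ pm C ↔ u ∈ pm C := by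
  rw [mem_pm, mem_pm, Int.natAbs_neg]

private theorem sum_pm86 {C : Finset ℕ} (h0 : 0 ∉ C) (F : ℤ → ℝ) :
    ∑ u ∈ pm C, F u = ∑ a ∈ C, (F (a : ℤ) + F (-(a : ℤ))) := by
  unfold pm
  rw [sum_union, sum_image, sum_image, sum_add_distrib]
  · intro a _ b _ h
    simp only at h
    omega
  · intro a _ b _ h
    simp only at h
    omega
  · rw [disjoint_left]
    intro x hx hy
    rw [mem_image] at hx hy
    obtain ⟨a, ha, rfl⟩ := hx
    obtain ⟨b, hb, hab⟩ := hy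
    have : a = 0 := by omega
    exact h0 (this ▸ ha)

private theorem card_pm86 {C : Finset ℕ} (h0 : 0 ∉ C) : ((pm C).card : ℝ) = 2 * C.card := by
  have h := sum_pm86 h0 (fun _ => 1)
  simp only [sum_const, nsmul_eq_mul, mul_one] at h
  rw [h]
  ring

/-- the sum over the pairs by diagonals -/
private theorem sum_dia86 {X S : Finset ℕ} (Q : ℤ → ℤ → ℝ)
    (hQ : ∀ u v, Q u v ≠ 0 → u ∈ pm X ∧ v ∈ pm X ∧ u + v ∈ pm S) (B : ℤ → ℝ) :
    ∑ u ∈ pm X, ∑ v ∈ pm X, B (u + v) * Q u v = ∑ t ∈ pm S, B t * ∑ u ∈ pm X, Q u (t - u) := by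
  simp_rw [mul_sum]
  rw [sum_comm (s := pm S)]
  refine sum_congr rfl fun u hu => ?_
  refine sum_bij_ne_zero (fun v _ _ => u + v) ?_ ?_ ?_ ?_
  · intro v _ h2
    exact (hQ u v (right_ne_zero_of_mul h2)).2.2
  · intro a _ _ b _ _ h
    omega
  · intro t _ h
    refine ⟨t - u, ?_, ?_, ?_⟩
    · exact (hQ u (t - u) (right_ne_zero_of_mul h)).2.1
    · rw [add_sub_cancel]
      exact h
    · simp
  · intro v _ _
    simp

/-- the diagonal sum with the roles of the coordinates exchanged -/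
private theorem dia_swap86 {X S : Finset ℕ} (Q : ℤ → ℤ → ℝ)
    (hQ : ∀ u v, Q u v ≠ 0 → u ∈ pm X ∧ v ∈ pm X ∧ u + v ∈ pm S) (t : ℤ) :
    ∑ u ∈ pm X, Q (t - u) u = ∑ u ∈ pm X, Q u (t - u) := by
  refine sum_bij_ne_zero (fun v _ _ => t - v) ?_ ?_ ?_ ?_
  · intro v _ h2
    exact (hQ _ _ h2).1
  · intro a _ _ b _ _ h
    omega
  · intro u _ h
    refine ⟨t - u, ?_, ?_, ?_⟩
    · exact (hQ _ _ h).2.1
    · rw [sub_sub_cancel]
      exact h
    · simp
  · intro v _ _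
    simp

private theorem sum_neg86 {X : Finset ℕ} (F : ℤ → ℝ) : ∑ u ∈ pm X, F (-u) = ∑ u ∈ pm X, F u := by
  refine sum_nbij' (fun u => -u) (fun u => -u) ?_ ?_ ?_ ?_ ?_
  · intro u hu; exact neg_pm86.2 hu
  · intro u hu; exact neg_pm86.2 hu
  · intro u _; simp
  · intro u _; simp
  · intro u _; rfl

/-- `lp_global` for finsets -/
private theorem lp_fin86 (P : Finset (ℤ × ℤ)) (X S : Finset ℕ) (k0 : ℤ × ℤ → ℝ)
    (hk : ∀ p ∈ P, 0 ≤ k0 p) (M1 M2 : ℕ → ℤ × ℤ → ℝ) (b1 b2 : ℝ)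
    (h : ∀ (l1 l2 : ℕ → ℝ), (∀ a, 0 ≤ l1 a) → (∀ a, 0 ≤ l2 a) → ∀ g : ℝ,
      ∑ a ∈ X, l1 a * (∑ p ∈ P, M1 a p * k0 p - b1) + ∑ s ∈ S, l2 s * (∑ p ∈ P, M2 s p * k0 p - b2) ≤
        ∑ p ∈ P, k0 p * |∑ a ∈ X, l1 a * M1 a p + ∑ s ∈ S, l2 s * M2 s p - g|) :
    ∃ q : ℤ × ℤ → ℝ, (∀ p, 0 ≤ q p) ∧ (∀ p, q p ≠ 0 → p ∈ P) ∧ (∀ p ∈ P, q p ≤ 2 * k0 p) ∧
      ∑ p ∈ P, q p = ∑ p ∈ P, k0 p ∧ (∀ a ∈ X, ∑ p ∈ P, M1 a p * q p ≤ b1) ∧
      ∀ s ∈ S, ∑ p ∈ P, M2 s p * q p ≤ b2 := by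
  classical
  obtain ⟨q, hq1, hq2, hq3⟩ := lp_global (ι := {p // p ∈ P}) (J := {a // a ∈ X} ⊕ {s // s ∈ S})
    (fun i => k0 i.1) (fun i => hk i.1 i.2)
    (Sum.elim (fun a i => M1 a.1 i.1) (fun s i => M2 s.1 i.1)) (Sum.elim (fun _ => b1) (fun _ => b2)) (by
      intro l hl g
      have h1 := h (fun a => if ha : a ∈ X then l (Sum.inl ⟨a, ha⟩) else 0)
        (fun s => if hs : s ∈ S then l (Sum.inr ⟨s, hs⟩) else 0)
        (by intro a; split_ifs; exacts [hl _, le_rfl])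
        (by intro a; split_ifs; exacts [hl _, le_rfl]) g
      have eX : ∀ F : ℕ → ℝ, ∑ a : {a // a ∈ X}, l (Sum.inl a) * F a.1 =
          ∑ a ∈ X, (if ha : a ∈ X then l (Sum.inl ⟨a, ha⟩) else 0) * F a := by
        intro F
        rw [← Finset.sum_coe_sort X (fun a => (if ha : a ∈ X then l (Sum.inl ⟨a, ha⟩) else 0) * F a)]
        refine sum_congr rfl fun a _ => ?_
        rw [dif_pos a.2]
      have eS : ∀ F : ℕ → ℝ, ∑ s : {s // s ∈ S}, l (Sum.inr s) * F s.1 =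
          ∑ s ∈ S, (if hs : s ∈ S then l (Sum.inr ⟨s, hs⟩) else 0) * F s := by
        intro F
        rw [← Finset.sum_coe_sort S (fun s => (if hs : s ∈ S then l (Sum.inr ⟨s, hs⟩) else 0) * F s)]
        refine sum_congr rfl fun a _ => ?_
        rw [dif_pos a.2]
      have eP : ∀ F : ℤ × ℤ → ℝ, ∑ i : {p // p ∈ P}, F i.1 = ∑ p ∈ P, F p :=
        fun F => Finset.sum_coe_sort P F
      rw [Fintype.sum_sum_type]
      simp only [Fintype.sum_sum_type, Sum.elim_inl, Sum.elim_inr]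
      have e1 : ∀ a : {a // a ∈ X}, ∑ i : {p // p ∈ P}, M1 a.1 i.1 * k0 i.1 =
          ∑ p ∈ P, M1 a.1 p * k0 p := fun a => eP (fun p => M1 a.1 p * k0 p)
      have e2 : ∀ s : {s // s ∈ S}, ∑ i : {p // p ∈ P}, M2 s.1 i.1 * k0 i.1 =
          ∑ p ∈ P, M2 s.1 p * k0 p := fun s => eP (fun p => M2 s.1 p * k0 p)
      simp only [e1, e2]
      rw [eX (fun a => ∑ p ∈ P, M1 a p * k0 p - b1), eS (fun s => ∑ p ∈ P, M2 s p * k0 p - b2)]
      refine h1.trans (le_of_eq ?_)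
      rw [← eP]
      refine sum_congr rfl fun i _ => ?_
      rw [eX (fun a => M1 a i.1), eS (fun s => M2 s i.1)])
  have eP : ∀ F : ℤ × ℤ → ℝ, ∑ i : {p // p ∈ P}, F i.1 = ∑ p ∈ P, F p :=
    fun F => Finset.sum_coe_sort P F
  have eq : ∀ F : ℤ × ℤ → ℝ, ∑ p ∈ P, F p * (if hp : p ∈ P then q ⟨p, hp⟩ else 0) =
      ∑ i : {p // p ∈ P}, F i.1 * q i := by
    intro F
    rw [← eP]
    refine sum_congr rfl fun i _ => ?_
    rw [dif_pos i.2]
  refine ⟨fun p => if hp : p ∈ P then q ⟨p, hp⟩ else 0, ?_, ?_, ?_, ?_, ?_, ?_⟩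
  · intro p
    dsimp only
    split_ifs with hp
    exacts [(hq1 _).1, le_rfl]
  · intro p hp
    by_contra hc
    exact hp (dif_neg hc)
  · intro p hp
    dsimp only
    rw [dif_pos hp]
    exact (hq1 ⟨p, hp⟩).2
  · have h1 := eq (fun _ => 1)
    simp only [one_mul] at h1
    rw [h1, hq2]
    exact eP k0
  · intro a ha
    rw [eq]
    exact hq3 (Sum.inl ⟨a, ha⟩)
  · intro s hs
    rw [eq]
    exact hq3 (Sum.inr ⟨s, hs⟩)

private theorem Lab_of86 {n : ℕ} {X : Finset ℕ} (hX : X ⊆ LC n) {u : ℤ} (hu : u ∈ pm X) : u ∈ Lab n := by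
  rw [mem_pm] at hu
  have h := mem_LC.1 (hX hu)
  rw [mem_Lab]
  refine ⟨by omega, Int.natAbs_odd.1 h.2⟩

private theorem Sm_of86 {n : ℕ} {S : Finset ℕ} (hS : S ⊆ SC n) {t : ℤ} (ht : t ∈ pm S) : t ∈ Sm n := by
  rw [mem_pm] at ht
  have h := mem_SC.1 (hS ht)
  rw [mem_Sm]
  refine ⟨by omega, Int.natAbs_even.1 h.2⟩

private theorem hex_nn86 (u v : ℤ) : 0 ≤ hex u v := (abs_nonneg _).trans (le_max_left _ _)

private theorem hex_le86 {n : ℕ} {u v : ℤ} (hu : u ∈ Lab n) (hv : v ∈ Lab n) (hs : u + v ∈ Sm n) :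
    hex u v ≤ n := by
  rw [mem_Lab] at hu hv
  rw [mem_Sm] at hs
  have h1 : |u| ≤ n := abs_le.2 hu.1
  have h2 : |v| ≤ n := abs_le.2 hv.1
  have h3 : |u + v| ≤ n := abs_le.2 (by omega)
  unfold hex
  refine max_le (by exact_mod_cast h1) (max_le (by exact_mod_cast h2) (by exact_mod_cast h3))

private theorem hex_comm86 (u v : ℤ) : hex u v = hex v u := by
  unfold hex
  rw [max_left_comm, add_comm (u : ℝ) v]

private theorem zero_LC86 {n : ℕ} : 0 ∉ LC n := by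
  rw [mem_LC]; omega

private theorem zero_SC86 {n : ℕ} : 0 ∉ SC n := by
  rw [mem_SC]; omega

private theorem card_Lab86 {n : ℕ} (X : Finset ℕ) :
    ((Lab n \ pm X).card : ℝ) ≤ 2 * ((LC n \ X).card : ℝ) := by
  have h1 : Lab n \ pm X ⊆ pm (LC n \ X) := by
    intro u hu
    rw [mem_sdiff, mem_Lab, mem_pm] at hu
    rw [mem_pm, mem_sdiff, mem_LC]
    have h2 : Odd u.natAbs := Int.natAbs_odd.2 hu.1.2
    have h3 : u.natAbs ≠ 0 := by
      intro h
      rw [h] at h2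
      exact absurd h2 (by decide)
    refine ⟨⟨by omega, h2⟩, hu.2⟩
  have h2 := card_pm86 (C := LC n \ X) (fun h => zero_LC86 (mem_sdiff.1 h).1)
  rw [← h2]
  exact_mod_cast card_le_card h1

private theorem card_Sm86 {n : ℕ} (S : Finset ℕ) :
    ((Sm n \ pm S).card : ℝ) ≤ 2 * ((SC n \ S).card : ℝ) + 1 := by
  have h1 : Sm n \ pm S ⊆ insert 0 (pm (SC n \ S)) := by
    intro u hu
    rw [mem_sdiff, mem_Sm, mem_pm] at hu
    rw [mem_insert, mem_pm, mem_sdiff, mem_SC]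
    have h2 : Even u.natAbs := Int.natAbs_even.2 hu.1.2
    by_cases h : u = 0
    · exact Or.inl h
    · right
      refine ⟨⟨by omega, h2⟩, hu.2⟩
  have h2 := card_pm86 (C := SC n \ S) (fun h => zero_SC86 (mem_sdiff.1 h).1)
  rw [← h2]
  have h3 := (card_le_card h1).trans (card_insert_le _ _)
  exact_mod_cast h3

/-- the kernel cut off -/
private noncomputable def H86 (X S : Finset ℕ) (u v : ℤ) : ℝ :=
  if u ∈ pm X ∧ v ∈ pm X ∧ u + v ∈ pm S then hex u v else 0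

private theorem H_supp86 {X S : Finset ℕ} (u v : ℤ) (h : H86 X S u v ≠ 0) :
    u ∈ pm X ∧ v ∈ pm X ∧ u + v ∈ pm S := by
  by_contra hc
  exact h (if_neg hc)

private theorem H_nn86 {X S : Finset ℕ} (u v : ℤ) : 0 ≤ H86 X S u v := by
  unfold H86
  split_ifs
  exacts [hex_nn86 u v, le_rfl]

private theorem H_le86 {n : ℕ} {X S : Finset ℕ} (hX : X ⊆ LC n) (hS : S ⊆ SC n) (u v : ℤ) :
    H86 X S u v ≤ n := by
  unfold H86
  split_ifs with h
  · exact hex_le86 (Lab_of86 hX h.1) (Lab_of86 hX h.2.1) (Sm_of86 hS h.2.2)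
  · exact Nat.cast_nonneg n

private theorem H_comm86 {X S : Finset ℕ} (u v : ℤ) : H86 X S u v = H86 X S v u := by
  unfold H86
  rw [hex_comm86 u v, add_comm u v]
  by_cases h1 : u ∈ pm X <;> by_cases h2 : v ∈ pm X <;> simp [h1, h2]

/-- comparison of a sum with a sub-sum -/
private theorem sub_sum86 {P Q E : Finset ℤ} {g h : ℤ → ℝ} {M : ℝ} (hM : 0 ≤ M)
    (hg : ∀ x ∈ P, 0 ≤ g x) (hh : ∀ x ∈ Q, 0 ≤ h x) (H0 : ∀ x ∈ P, g x ≠ 0 → x ∈ Q ∧ g x ≤ h x)
    (H1 : ∀ x ∈ Q, x ∉ E → x ∈ P ∧ h x ≤ g x) (HM : ∀ x ∈ Q, h x ≤ M) :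
    ∑ x ∈ P, g x ≤ ∑ x ∈ Q, h x ∧ ∑ x ∈ Q, h x ≤ ∑ x ∈ P, g x + E.card * M := by
  classical
  constructor
  · have h1 : ∑ x ∈ P, g x = ∑ x ∈ P.filter (fun x => g x ≠ 0), g x := by
      rw [Finset.sum_filter_ne_zero]
    rw [h1]
    refine (Finset.sum_le_sum fun x hx => ?_).trans
      (Finset.sum_le_sum_of_subset_of_nonneg (f := h) ?_ fun x hx _ => hh x hx)
    · rw [Finset.mem_filter] at hx
      exact (H0 x hx.1 hx.2).2
    · intro x hx
      rw [Finset.mem_filter] at hx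
      exact (H0 x hx.1 hx.2).1
  · rw [← Finset.sum_filter_add_sum_filter_not Q (fun x => x ∉ E)]
    refine add_le_add ?_ ?_
    · refine (Finset.sum_le_sum fun x hx => ?_).trans
        (Finset.sum_le_sum_of_subset_of_nonneg (f := g) ?_ fun x hx _ => hg x hx)
      · rw [Finset.mem_filter] at hx
        exact (H1 x hx.1 hx.2).2
      · intro x hx
        rw [Finset.mem_filter] at hx
        exact (H1 x hx.1 hx.2).1
    · have h1 : (Q.filter (fun x => ¬ x ∉ E)).card ≤ E.card := by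
        refine Finset.card_le_card fun x hx => ?_
        rw [Finset.mem_filter] at hx
        exact not_not.1 hx.2
      have h2 : ∑ x ∈ Q.filter (fun x => ¬ x ∉ E), h x ≤
          (Q.filter (fun x => ¬ x ∉ E)).card • M := by
        refine Finset.sum_le_card_nsmul _ _ _ fun x hx => ?_
        rw [Finset.mem_filter] at hx
        exact HM x hx.1
      rw [nsmul_eq_mul] at h2
      refine h2.trans ?_
      have h3 : ((Q.filter (fun x => ¬ x ∉ E)).card : ℝ) ≤ (E.card : ℝ) := by exact_mod_cast h1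
      exact mul_le_mul_of_nonneg_right h3 hM

private theorem row86 {n : ℕ} (hn : Even n) {X S : Finset ℕ} (hX : X ⊆ LC n) (hS : S ⊆ SC n)
    {m : ℝ} (h1 : ((LC n \ X).card : ℝ) ≤ m) (h2 : ((SC n \ S).card : ℝ) ≤ m) {u : ℤ} (hu : u ∈ pm X) :
    (n : ℝ) ^ 2 / 2 - 5 * n - 4 * m * n ≤ ∑ v ∈ pm X, H86 X S u v ∧
      ∑ v ∈ pm X, H86 X S u v ≤ (n : ℝ) ^ 2 / 2 + 4 * n := by
  have h3 := abs_le.1 (hex_row n hn u (Lab_of86 hX hu))
  have h4 := sub_sum86 (P := pm X) (Q := (Lab n).filter (fun v => u + v ∈ Sm n))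
    (E := (Lab n \ pm X) ∪ (Sm n \ pm S).image (fun t => t - u)) (g := fun v => H86 X S u v)
    (h := fun v => hex u v) (M := (n : ℝ)) (Nat.cast_nonneg n) (fun v _ => H_nn86 u v)
    (fun v _ => hex_nn86 u v) (by
      intro v hv hne
      have h5 := H_supp86 u v hne
      refine ⟨mem_filter.2 ⟨Lab_of86 hX hv, Sm_of86 hS h5.2.2⟩, ?_⟩
      unfold H86
      rw [if_pos h5]) (by
      intro v hv hE
      rw [mem_filter] at hv
      rw [mem_union, not_or] at hE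
      have h5 : v ∈ pm X := by
        by_contra hc
        exact hE.1 (mem_sdiff.2 ⟨hv.1, hc⟩)
      have h6 : u + v ∈ pm S := by
        by_contra hc
        exact hE.2 (mem_image.2 ⟨u + v, mem_sdiff.2 ⟨hv.2, hc⟩, by ring⟩)
      refine ⟨h5, ?_⟩
      unfold H86
      rw [if_pos ⟨hu, h5, h6⟩]) (by
      intro v hv
      rw [mem_filter] at hv
      exact hex_le86 (Lab_of86 hX hu) hv.1 hv.2)
  have h5 := card_Lab86 (n := n) X
  have h6 := card_Sm86 (n := n) S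
  have h7 : (((Lab n \ pm X) ∪ (Sm n \ pm S).image (fun t => t - u)).card : ℝ) ≤ 4 * m + 1 := by
    have h8 : ((Lab n \ pm X) ∪ (Sm n \ pm S).image (fun t => t - u)).card ≤
        (Lab n \ pm X).card + (Sm n \ pm S).card :=
      (card_union_le _ _).trans (Nat.add_le_add_left card_image_le _)
    have h9 : (((Lab n \ pm X) ∪ (Sm n \ pm S).image (fun t => t - u)).card : ℝ) ≤
        (Lab n \ pm X).card + (Sm n \ pm S).card := by exact_mod_cast h8
    linarith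
  have h8 := mul_le_mul_of_nonneg_right h7 (Nat.cast_nonneg n : (0 : ℝ) ≤ n)
  constructor
  · linarith [h4.2, h3.1]
  · linarith [h4.1, h3.2]

private theorem dia86 {n : ℕ} (hn : Even n) {X S : Finset ℕ} (hX : X ⊆ LC n) (hS : S ⊆ SC n)
    {m : ℝ} (h1 : ((LC n \ X).card : ℝ) ≤ m) {t : ℤ} (ht : t ∈ pm S) :
    (n : ℝ) ^ 2 / 2 - 5 * n - 4 * m * n ≤ ∑ u ∈ pm X, H86 X S u (t - u) ∧
      ∑ u ∈ pm X, H86 X S u (t - u) ≤ (n : ℝ) ^ 2 / 2 + 4 * n := by
  have h3 := abs_le.1 (hex_dia n hn t (Sm_of86 hS ht))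
  have h4 := sub_sum86 (P := pm X) (Q := (Lab n).filter (fun u => t - u ∈ Lab n))
    (E := (Lab n \ pm X) ∪ (Lab n \ pm X).image (fun v => t - v)) (g := fun u => H86 X S u (t - u))
    (h := fun u => hex u (t - u)) (M := (n : ℝ)) (Nat.cast_nonneg n) (fun v _ => H_nn86 _ _)
    (fun v _ => hex_nn86 _ _) (by
      intro v hv hne
      have h5 := H_supp86 _ _ hne
      refine ⟨mem_filter.2 ⟨Lab_of86 hX hv, Lab_of86 hX h5.2.1⟩, ?_⟩
      unfold H86
      rw [if_pos h5]) (by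
      intro v hv hE
      rw [mem_filter] at hv
      rw [mem_union, not_or] at hE
      have h5 : v ∈ pm X := by
        by_contra hc
        exact hE.1 (mem_sdiff.2 ⟨hv.1, hc⟩)
      have h6 : t - v ∈ pm X := by
        by_contra hc
        exact hE.2 (mem_image.2 ⟨t - v, mem_sdiff.2 ⟨hv.2, hc⟩, by ring⟩)
      refine ⟨h5, ?_⟩
      unfold H86
      rw [if_pos ⟨h5, h6, by rw [add_sub_cancel]; exact ht⟩]) (by
      intro v hv
      rw [mem_filter] at hv
      exact hex_le86 hv.1 hv.2 (by rw [add_sub_cancel]; exact Sm_of86 hS ht))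
  have h5 := card_Lab86 (n := n) X
  have h7 : (((Lab n \ pm X) ∪ (Lab n \ pm X).image (fun v => t - v)).card : ℝ) ≤ 4 * m := by
    have h8 : ((Lab n \ pm X) ∪ (Lab n \ pm X).image (fun v => t - v)).card ≤
        (Lab n \ pm X).card + (Lab n \ pm X).card :=
      (card_union_le _ _).trans (Nat.add_le_add_left card_image_le _)
    have h9 : (((Lab n \ pm X) ∪ (Lab n \ pm X).image (fun v => t - v)).card : ℝ) ≤
        (Lab n \ pm X).card + (Lab n \ pm X).card := by exact_mod_cast h8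
    linarith
  have h8 := mul_le_mul_of_nonneg_right h7 (Nat.cast_nonneg n : (0 : ℝ) ≤ n)
  have h9 : (0 : ℝ) ≤ n := Nat.cast_nonneg n
  constructor
  · linarith [h4.2, h3.1]
  · linarith [h4.1, h3.2]

private theorem cov86 (s : Finset ℤ) (A r : ℤ → ℝ) (m e : ℝ) (hr : ∑ u ∈ s, r u = 0)
    (he : ∀ u ∈ s, |r u| ≤ e) : ∑ u ∈ s, A u * r u ≤ e * ∑ u ∈ s, |A u - m| := by
  have h1 : ∑ u ∈ s, A u * r u = ∑ u ∈ s, (A u - m) * r u := by
    have : ∑ u ∈ s, (A u - m) * r u = ∑ u ∈ s, A u * r u - m * ∑ u ∈ s, r u := by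
      rw [mul_sum, ← sum_sub_distrib]
      refine sum_congr rfl fun u _ => ?_
      ring
    rw [this, hr]
    ring
  rw [h1, mul_sum]
  refine sum_le_sum fun u hu => ?_
  calc (A u - m) * r u ≤ |(A u - m) * r u| := le_abs_self _
    _ = |r u| * |A u - m| := by rw [abs_mul, mul_comm]
    _ ≤ e * |A u - m| := mul_le_mul_of_nonneg_right (he u hu) (abs_nonneg _)

/-- the allowed pairs -/
private noncomputable def P86 (X S : Finset ℕ) : Finset (ℤ × ℤ) :=
  (pm X ×ˢ pm X).filter fun p => p.1 + p.2 ∈ pm S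

private theorem mem_P86 {X S : Finset ℕ} {p : ℤ × ℤ} :
    p ∈ P86 X S ↔ p.1 ∈ pm X ∧ p.2 ∈ pm X ∧ p.1 + p.2 ∈ pm S := by
  unfold P86
  rw [mem_filter, mem_product, and_assoc]

private theorem sum_P86 {X S : Finset ℕ} (F : ℤ × ℤ → ℝ) :
    ∑ p ∈ P86 X S, F p = ∑ u ∈ pm X, ∑ v ∈ (pm X).filter (fun v => u + v ∈ pm S), F (u, v) := by
  unfold P86
  rw [sum_filter, sum_product]
  refine sum_congr rfl fun u _ => ?_
  rw [sum_filter]

private theorem load86 {X S : Finset ℕ} (Q : ℤ × ℤ → ℝ) (hQ : ∀ p, Q p ≠ 0 → p ∈ P86 X S)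
    (A A' B : ℤ → ℝ) :
    ∑ p ∈ P86 X S, (A p.1 + A' p.2 + B (p.1 + p.2)) * Q p =
      ∑ u ∈ pm X, A u * (∑ v ∈ pm X, Q (u, v)) + ∑ v ∈ pm X, A' v * (∑ u ∈ pm X, Q (u, v)) +
        ∑ t ∈ pm S, B t * ∑ u ∈ pm X, Q (u, t - u) := by
  have h1 : ∑ p ∈ P86 X S, (A p.1 + A' p.2 + B (p.1 + p.2)) * Q p =
      ∑ u ∈ pm X, ∑ v ∈ pm X, (A u + A' v + B (u + v)) * Q (u, v) := by
    rw [← sum_product' (s := pm X) (t := pm X) (f := fun u v => (A u + A' v + B (u + v)) * Q (u, v))]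
    refine sum_subset (filter_subset _ _) ?_
    intro p _ hp
    have : Q p = 0 := by
      by_contra hc
      exact hp (hQ p hc)
    rw [this, mul_zero]
  rw [h1, ← sum_dia86 (fun u v => Q (u, v)) (fun u v h => mem_P86.1 (hQ _ h)) B]
  have h2 : ∑ v ∈ pm X, A' v * (∑ u ∈ pm X, Q (u, v)) = ∑ u ∈ pm X, ∑ v ∈ pm X, A' v * Q (u, v) := by
    simp_rw [mul_sum]
    rw [sum_comm]
  rw [h2]
  simp_rw [mul_sum]
  rw [← sum_add_distrib, ← sum_add_distrib]
  refine sum_congr rfl fun u _ => ?_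
  rw [← sum_add_distrib, ← sum_add_distrib]
  refine sum_congr rfl fun v _ => ?_
  ring

private theorem card_LC86 {n : ℕ} (hn : Even n) : n ≤ 2 * (LC n).card := by
  obtain ⟨m, hm⟩ := hn
  have h1 : m ≤ (LC n).card := by
    have h2 := card_le_card_of_injOn (s := range m) (t := LC n) (fun i => 2 * i + 1) (by
      intro i hi
      have hi' := mem_range.1 (mem_coe.1 hi)
      refine mem_coe.2 (mem_LC.2 ⟨by dsimp only; omega, ⟨i, rfl⟩⟩)) (by
      intro a _ b _ h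
      simp only at h
      omega)
    rwa [card_range] at h2
  omega

private theorem card_SC86 {n : ℕ} (hn : Even n) : n ≤ 2 * (SC n).card + 2 := by
  obtain ⟨m, hm⟩ := hn
  have h1 : m - 1 ≤ (SC n).card := by
    have h2 := card_le_card_of_injOn (s := range (m - 1)) (t := SC n) (fun i => 2 * i + 2) (by
      intro i hi
      have hi' := mem_range.1 (mem_coe.1 hi)
      refine mem_coe.2 (mem_SC.2 ⟨by dsimp only; omega, ⟨i + 1, by ring⟩⟩)) (by
      intro a _ b _ h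
      simp only at h
      omega)
    rwa [card_range] at h2
  omega

private theorem card_sub86 {α : Type} [DecidableEq α] {C D : Finset α} : (C.card : ℝ) ≤ D.card + (C \ D).card := by
  have h1 : C ⊆ D ∪ (C \ D) := by
    intro x hx
    by_cases h : x ∈ D
    · exact mem_union_left _ h
    · exact mem_union_right _ (mem_sdiff.2 ⟨hx, h⟩)
  exact_mod_cast (card_le_card h1).trans (card_union_le _ _)

/-- the exact kernel from the solution of the linear program -/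
private theorem sym86 {n : ℕ} {X S : Finset ℕ} (Q : ℤ × ℤ → ℝ)
    (hnn : ∀ p, 0 ≤ Q p) (hQ : ∀ p, Q p ≠ 0 → p ∈ P86 X S) (hup : ∀ p, Q p ≤ 5 / n)
    (hl : ∀ a ∈ X, (∑ v ∈ pm X, Q ((a : ℤ), v) + ∑ v ∈ pm X, Q (-(a : ℤ), v)) +
      (∑ u ∈ pm X, Q (u, (a : ℤ)) + ∑ u ∈ pm X, Q (u, -(a : ℤ))) = 4)
    (hs : ∀ s ∈ S, ∑ u ∈ pm X, Q (u, (s : ℤ) - u) + ∑ u ∈ pm X, Q (u, -(s : ℤ) - u) =
      2 * X.card / S.card) :
    ∃ k : ℤ → ℤ → ℝ, EK n X S 5 k := by
  have hQ' : ∀ u v, Q (u, v) ≠ 0 → u ∈ pm X ∧ v ∈ pm X ∧ u + v ∈ pm S := fun u v h => mem_P86.1 (hQ _ h)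
  have hrow : ∀ u ∈ pm X, ∑ v ∈ pm X, (Q (u, v) + Q (v, u) + Q (-u, -v) + Q (-v, -u)) / 4 = 1 := by
    intro u hu
    rw [← sum_div, sum_add_distrib, sum_add_distrib, sum_add_distrib,
      sum_neg86 (fun v => Q (-u, v)), sum_neg86 (fun v => Q (v, -u))]
    have h1 := hl u.natAbs (mem_pm.1 hu)
    rcases Int.natAbs_eq u with h | h
    · rw [← h] at h1
      linarith
    · have h2 : -(u.natAbs : ℤ) = u := h.symm
      have h3 : (u.natAbs : ℤ) = -u := by omega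
      rw [h3, neg_neg] at h1
      linarith
  refine ⟨fun u v => (Q (u, v) + Q (v, u) + Q (-u, -v) + Q (-v, -u)) / 4, ?_, ?_, ?_, ?_, ?_, ?_⟩
  · intro u v
    have h1 := hnn (u, v)
    have h2 := hnn (v, u)
    have h3 := hnn (-u, -v)
    have h4 := hnn (-v, -u)
    linarith
  · intro u v h
    by_cases h1 : Q (u, v) = 0
    · by_cases h2 : Q (v, u) = 0
      · by_cases h3 : Q (-u, -v) = 0
        · by_cases h4 : Q (-v, -u) = 0
          · exfalso
            apply h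
            rw [h1, h2, h3, h4]
            norm_num
          · obtain ⟨h5, h6, h7⟩ := hQ' _ _ h4
            rw [neg_pm86] at h5 h6
            rw [← neg_add, neg_pm86] at h7
            exact ⟨h6, h5, by rwa [add_comm]⟩
        · obtain ⟨h5, h6, h7⟩ := hQ' _ _ h3
          rw [neg_pm86] at h5 h6
          rw [← neg_add, neg_pm86] at h7
          exact ⟨h5, h6, h7⟩
      · obtain ⟨h5, h6, h7⟩ := hQ' _ _ h2
        exact ⟨h6, h5, by rwa [add_comm]⟩
    · exact hQ' _ _ h1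
  · exact hrow
  · intro v hv
    rw [← hrow v hv]
    refine sum_congr rfl fun u _ => ?_
    ring
  · intro t ht
    have e1 : ∀ t : ℤ, ∑ u ∈ pm X, Q (t - u, u) = ∑ u ∈ pm X, Q (u, t - u) :=
      fun t => dia_swap86 (fun u v => Q (u, v)) hQ' t
    have e2 : ∑ u ∈ pm X, Q (-u, -(t - u)) = ∑ u ∈ pm X, Q (u, -t - u) := by
      rw [← sum_neg86 (fun u => Q (u, -t - u))]
      refine sum_congr rfl fun u _ => ?_
      congr 2
      ring
    have e3 : ∑ u ∈ pm X, Q (-(t - u), -u) = ∑ u ∈ pm X, Q (u, -t - u) := by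
      rw [← e1, ← sum_neg86 (fun u => Q (-t - u, u))]
      refine sum_congr rfl fun u _ => ?_
      congr 2
      ring
    rw [← sum_div, sum_add_distrib, sum_add_distrib, sum_add_distrib, e1, e2, e3]
    have h1 := hs t.natAbs (mem_pm.1 ht)
    have h4 : 2 * (X.card : ℝ) / S.card = 2 * (X.card / S.card) := by ring
    rw [h4] at h1
    rcases Int.natAbs_eq t with h | h
    · rw [← h] at h1
      linarith
    · have h3 : (t.natAbs : ℤ) = -t := by omega
      rw [h3, neg_neg] at h1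
      linarith
  · intro u v
    have h1 := hup (u, v)
    have h2 := hup (v, u)
    have h3 := hup (-u, -v)
    have h4 := hup (-v, -u)
    linarith

/-- equality in all the constraints -/
private theorem tight86 {C : Finset ℕ} (f : ℕ → ℝ) (b : ℝ) (h1 : ∀ a ∈ C, f a ≤ b)
    (h2 : ∑ a ∈ C, f a = C.card * b) : ∀ a ∈ C, f a = b := by
  have h3 : ∑ a ∈ C, f a = ∑ _a ∈ C, b := by
    rw [h2, sum_const, nsmul_eq_mul]
  exact (sum_eq_sum_iff_of_le h1).1 h3

theorem exists_EK : ∃ (B ζ : ℝ) (n0 : ℕ), 1 ≤ B ∧ 0 < ζ ∧ ∀ n : ℕ, n0 ≤ n → Even n →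
    ∀ X S : Finset ℕ, X ⊆ LC n → S ⊆ SC n → ((LC n \ X).card : ℝ) ≤ ζ * n → ((SC n \ S).card : ℝ) ≤ ζ * n →
    ∃ k : ℤ → ℤ → ℝ, EK n X S B k := by
  obtain ⟨e0, ζ0, N0, he0, hζ0, hgain⟩ := gain
  obtain ⟨N1, hN1⟩ := exists_nat_ge (100 / e0)
  refine ⟨5, min ζ0 (min (e0 / 100) (1 / 100)), max N0 (max N1 500), by norm_num,
    lt_min hζ0 (lt_min (by positivity) (by norm_num)), ?_⟩
  intro n hn hev X S hX hS hXc hSc
  set ζ : ℝ := min ζ0 (min (e0 / 100) (1 / 100)) with hζ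
  have hz0 : ζ ≤ ζ0 := min_le_left _ _
  have hz1 : ζ ≤ e0 / 100 := (min_le_right _ _).trans (min_le_left _ _)
  have hz2 : ζ ≤ 1 / 100 := (min_le_right _ _).trans (min_le_right _ _)
  have hzp : 0 < ζ := lt_min hζ0 (lt_min (by positivity) (by norm_num))
  have hnN0 : N0 ≤ n := (le_max_left _ _).trans hn
  have hnN1 : N1 ≤ n := (le_max_left _ _).trans ((le_max_right _ _).trans hn)
  have hn500 : 500 ≤ n := (le_max_right _ _).trans ((le_max_right _ _).trans hn)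
  have hnR : (500 : ℝ) ≤ n := by exact_mod_cast hn500
  have hne : 100 ≤ e0 * n := by
    have h1 : 100 / e0 ≤ n := hN1.trans (by exact_mod_cast hnN1)
    rw [div_le_iff₀ he0] at h1
    linarith
  have h0X : 0 ∉ X := fun h => zero_LC86 (hX h)
  have h0S : 0 ∉ S := fun h => zero_SC86 (hS h)
  -- cardinalities
  have hn0 : (0 : ℝ) ≤ n := by linarith
  have hzn : ζ * n ≤ 1 / 100 * n := mul_le_mul_of_nonneg_right hz2 hn0
  have hcX : (0 : ℝ) < X.card := by
    have h1 := card_sub86 (C := LC n) (D := X)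
    have h2 : (n : ℝ) ≤ 2 * (LC n).card := by exact_mod_cast card_LC86 hev
    linarith
  have hcS : (0 : ℝ) < S.card := by
    have h1 := card_sub86 (C := SC n) (D := S)
    have h2 : (n : ℝ) ≤ 2 * (SC n).card + 2 := by exact_mod_cast card_SC86 hev
    linarith
  have hpX := card_pm86 h0X
  have hpS := card_pm86 h0S
  -- rows and diagonals
  obtain ⟨L, hL⟩ : ∃ L : ℝ, L = (n : ℝ) ^ 2 / 2 - 5 * n - 4 * (ζ * n) * n := ⟨_, rfl⟩
  obtain ⟨U, hU⟩ : ∃ U : ℝ, U = (n : ℝ) ^ 2 / 2 + 4 * n := ⟨_, rfl⟩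
  obtain ⟨R, hR⟩ : ∃ R : ℤ → ℝ, ∀ u, R u = ∑ v ∈ pm X, H86 X S u v := ⟨_, fun _ => rfl⟩
  obtain ⟨D, hD⟩ : ∃ D : ℤ → ℝ, ∀ t, D t = ∑ u ∈ pm X, H86 X S u (t - u) := ⟨_, fun _ => rfl⟩
  have hRb : ∀ u ∈ pm X, L ≤ R u ∧ R u ≤ U := by
    intro u hu
    rw [hR, hL, hU]
    exact row86 hev hX hS hXc hSc hu
  have hDb : ∀ t ∈ pm S, L ≤ D t ∧ D t ≤ U := by
    intro t ht
    rw [hD, hL, hU]
    exact dia86 hev hX hS hXc ht
  obtain ⟨T, hT⟩ : ∃ T : ℝ, T = ∑ u ∈ pm X, R u := ⟨_, rfl⟩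
  have hTD : T = ∑ t ∈ pm S, D t := by
    rw [hT]
    have h1 := sum_dia86 (H86 X S) (H_supp86 (X := X) (S := S)) (fun _ => 1)
    simp only [one_mul] at h1
    simp_rw [hR, hD]
    exact h1
  have hnn : 500 * (n : ℝ) ≤ (n : ℝ) ^ 2 := by nlinarith only [hnR]
  have hL4 : 2 / 5 * (n : ℝ) ^ 2 ≤ L := by
    rw [hL]
    have h1 : ζ * n * n ≤ 1 / 100 * n * n := mul_le_mul_of_nonneg_right hzn hn0
    linarith
  have hU4 : U ≤ (n : ℝ) ^ 2 := by
    rw [hU]
    linarith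
  have hTL : 2 * X.card * L ≤ T := by
    rw [hT, ← hpX]
    have := card_nsmul_le_sum (pm X) R L (fun u hu => (hRb u hu).1)
    rwa [nsmul_eq_mul] at this
  have hTU : T ≤ 2 * X.card * U := by
    rw [hT, ← hpX]
    have := sum_le_card_nsmul (pm X) R U (fun u hu => (hRb u hu).2)
    rwa [nsmul_eq_mul] at this
  have hTL' : 2 * S.card * L ≤ T := by
    rw [hTD, ← hpS]
    have := card_nsmul_le_sum (pm S) D L (fun u hu => (hDb u hu).1)
    rwa [nsmul_eq_mul] at this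
  have hTU' : T ≤ 2 * S.card * U := by
    rw [hTD, ← hpS]
    have := sum_le_card_nsmul (pm S) D U (fun u hu => (hDb u hu).2)
    rwa [nsmul_eq_mul] at this
  have hn2 : (0 : ℝ) < (n : ℝ) ^ 2 := by positivity
  have hLp : 0 < L := by linarith
  have hTp : 0 < T := by
    have : 0 < 2 * X.card * L := by positivity
    linarith
  obtain ⟨c, hc⟩ : ∃ c : ℝ, c = 2 * X.card / T := ⟨_, rfl⟩
  have hcp : 0 < c := by rw [hc]; positivity
  have hcT : c * T = 2 * X.card := by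
    rw [hc]
    field_simp
  have hcL : c * L ≤ 1 := by
    have h1 : c * (2 * X.card * L) ≤ c * T := mul_le_mul_of_nonneg_left hTL hcp.le
    rw [hcT] at h1
    have h2 : (2 * (X.card : ℝ)) * (c * L) ≤ (2 * X.card) * 1 := by linarith
    exact le_of_mul_le_mul_left h2 (by positivity)
  have hcU : 1 ≤ c * U := by
    have h1 : c * T ≤ c * (2 * X.card * U) := mul_le_mul_of_nonneg_left hTU hcp.le
    rw [hcT] at h1
    have h2 : (2 * (X.card : ℝ)) * 1 ≤ (2 * X.card) * (c * U) := by linarith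
    exact le_of_mul_le_mul_left h2 (by positivity)
  have hcS1 : c * L ≤ X.card / S.card := by
    rw [le_div_iff₀ hcS]
    have h1 := mul_le_mul_of_nonneg_left hTL' hcp.le
    rw [hcT] at h1
    linarith
  have hcS2 : X.card / S.card ≤ c * U := by
    rw [div_le_iff₀ hcS]
    have h1 := mul_le_mul_of_nonneg_left hTU' hcp.le
    rw [hcT] at h1
    linarith
  have hc1 : 1 ≤ c * (n : ℝ) ^ 2 := hcU.trans (mul_le_mul_of_nonneg_left hU4 hcp.le)
  have hc2 : c * (n : ℝ) ^ 2 ≤ 5 / 2 := by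
    have := mul_le_mul_of_nonneg_left hL4 hcp.le
    linarith
  have hw : c * (U - L) ≤ e0 / 2 := by
    have h1 : U - L = 9 * n + 4 * (ζ * n) * n := by rw [hU, hL]; ring
    have h2 : U - L ≤ e0 * (n : ℝ) ^ 2 * (9 / 100 + 4 / 100) := by
      rw [h1]
      have h3 : 100 * (n : ℝ) ≤ e0 * n * n := mul_le_mul_of_nonneg_right hne hn0
      have h4 : ζ * n * n ≤ e0 / 100 * n * n :=
        mul_le_mul_of_nonneg_right (mul_le_mul_of_nonneg_right hz1 hn0) hn0
      linarith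
    have h3 := mul_le_mul_of_nonneg_left h2 hcp.le
    have h4 := mul_le_mul_of_nonneg_right hc2 he0.le
    linarith
  -- the linear program
  have hrs : ∑ u ∈ pm X, (2 * (c * R u) - 2) = 0 := by
    rw [sum_sub_distrib, ← mul_sum, ← mul_sum, ← hT, hcT, sum_const, nsmul_eq_mul, hpX]
    ring
  have hds : ∑ t ∈ pm S, (c * D t - X.card / S.card) = 0 := by
    rw [sum_sub_distrib, ← mul_sum, ← hTD, hcT, sum_const, nsmul_eq_mul, hpS]
    field_simp
    ring
  have hrb : ∀ u ∈ pm X, |2 * (c * R u) - 2| ≤ e0 := by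
    intro u hu
    have h1 := mul_le_mul_of_nonneg_left (hRb u hu).1 hcp.le
    have h2 := mul_le_mul_of_nonneg_left (hRb u hu).2 hcp.le
    rw [abs_le]
    constructor <;> linarith
  have hdb : ∀ t ∈ pm S, |c * D t - X.card / S.card| ≤ e0 := by
    intro t ht
    have h1 := mul_le_mul_of_nonneg_left (hDb t ht).1 hcp.le
    have h2 := mul_le_mul_of_nonneg_left (hDb t ht).2 hcp.le
    rw [abs_le]
    constructor <;> linarith
  obtain ⟨k0, hk0⟩ : ∃ k0 : ℤ × ℤ → ℝ, ∀ p, k0 p = c * H86 X S p.1 p.2 := ⟨_, fun _ => rfl⟩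
  have hk0s : ∀ p, k0 p ≠ 0 → p ∈ P86 X S := by
    intro p hp
    rw [hk0] at hp
    exact mem_P86.2 (H_supp86 _ _ (right_ne_zero_of_mul hp))
  have hk0n : ∀ p, 0 ≤ k0 p := by
    intro p
    rw [hk0]
    exact mul_nonneg hcp.le (H_nn86 _ _)
  have hrow0 : ∀ u, ∑ v ∈ pm X, k0 (u, v) = c * R u := by
    intro u
    rw [hR, mul_sum]
    exact sum_congr rfl fun v _ => hk0 _
  have hcol0 : ∀ v, ∑ u ∈ pm X, k0 (u, v) = c * R v := by
    intro v
    rw [hR, mul_sum]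
    refine sum_congr rfl fun u _ => ?_
    rw [hk0, H_comm86]
  have hdia0 : ∀ t, ∑ u ∈ pm X, k0 (u, t - u) = c * D t := by
    intro t
    rw [hD, mul_sum]
    exact sum_congr rfl fun v _ => hk0 _
  have hM1 : ∀ (l : ℕ → ℝ), ∀ p ∈ P86 X S, ∑ a ∈ X, l a * ((if p.1.natAbs = a then 1 else 0) +
      (if p.2.natAbs = a then 1 else 0)) = l p.1.natAbs + l p.2.natAbs := by
    intro l p hp
    obtain ⟨h1, h2, h3⟩ := mem_P86.1 hp
    rw [mem_pm] at h1 h2
    simp_rw [mul_add, mul_ite, mul_one, mul_zero]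
    rw [sum_add_distrib, sum_ite_eq, sum_ite_eq, if_pos h1, if_pos h2]
  have hM2 : ∀ (l : ℕ → ℝ), ∀ p ∈ P86 X S, ∑ s ∈ S, l s * (if (p.1 + p.2).natAbs = s then 1 else 0) =
      l (p.1 + p.2).natAbs := by
    intro l p hp
    obtain ⟨h1, h2, h3⟩ := mem_P86.1 hp
    rw [mem_pm] at h3
    simp_rw [mul_ite, mul_one, mul_zero]
    rw [sum_ite_eq, if_pos h3]
  obtain ⟨Q, hQn, hQs, hQu, hQt, hQX, hQS⟩ := lp_fin86 (P86 X S) X S k0 (fun p _ => hk0n p)
    (fun a p => (if p.1.natAbs = a then 1 else 0) + (if p.2.natAbs = a then 1 else 0))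
    (fun s p => if (p.1 + p.2).natAbs = s then 1 else 0) 4 (2 * X.card / S.card) (by
      intro l1 l2 hl1 hl2 g
      have e1 : ∑ a ∈ X, l1 a * (∑ p ∈ P86 X S, ((if p.1.natAbs = a then 1 else 0) +
          (if p.2.natAbs = a then 1 else 0)) * k0 p - 4) =
          ∑ p ∈ P86 X S, (l1 p.1.natAbs + l1 p.2.natAbs) * k0 p - 4 * ∑ a ∈ X, l1 a := by
        simp_rw [mul_sub]
        rw [sum_sub_distrib, mul_sum]
        congr 1
        · simp_rw [mul_sum]
          rw [sum_comm]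
          refine sum_congr rfl fun p hp => ?_
          rw [← hM1 l1 p hp, sum_mul]
          refine sum_congr rfl fun a _ => ?_
          ring
        · refine sum_congr rfl fun a _ => ?_
          ring
      have e2 : ∑ s ∈ S, l2 s * (∑ p ∈ P86 X S, (if (p.1 + p.2).natAbs = s then 1 else 0) * k0 p -
          2 * X.card / S.card) =
          ∑ p ∈ P86 X S, l2 (p.1 + p.2).natAbs * k0 p - 2 * X.card / S.card * ∑ s ∈ S, l2 s := by
        simp_rw [mul_sub]
        rw [sum_sub_distrib, mul_sum (s := S)]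
        congr 1
        · simp_rw [mul_sum]
          rw [sum_comm]
          refine sum_congr rfl fun p hp => ?_
          rw [← hM2 l2 p hp, sum_mul]
          refine sum_congr rfl fun a _ => ?_
          ring
        · refine sum_congr rfl fun a _ => ?_
          ring
      rw [e1, e2]
      obtain ⟨A, hA⟩ : ∃ A : ℤ → ℝ, ∀ u, A u = l1 u.natAbs := ⟨_, fun _ => rfl⟩
      obtain ⟨B, hB⟩ : ∃ B : ℤ → ℝ, ∀ u, B u = l2 u.natAbs := ⟨_, fun _ => rfl⟩
      have e3 : ∑ u ∈ pm X, A u = 2 * ∑ a ∈ X, l1 a := by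
        rw [sum_pm86 h0X, mul_sum]
        refine sum_congr rfl fun a _ => ?_
        rw [hA, hA, Int.natAbs_neg, Int.natAbs_natCast]
        ring
      have e4 : ∑ u ∈ pm S, B u = 2 * ∑ a ∈ S, l2 a := by
        rw [sum_pm86 h0S, mul_sum]
        refine sum_congr rfl fun a _ => ?_
        rw [hB, hB, Int.natAbs_neg, Int.natAbs_natCast]
        ring
      have e5 := load86 k0 hk0s A A B
      simp_rw [hrow0, hcol0, hdia0] at e5
      have e6 : ∑ p ∈ P86 X S, (l1 p.1.natAbs + l1 p.2.natAbs) * k0 p +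
          ∑ p ∈ P86 X S, l2 (p.1 + p.2).natAbs * k0 p =
          ∑ p ∈ P86 X S, (A p.1 + A p.2 + B (p.1 + p.2)) * k0 p := by
        rw [← sum_add_distrib]
        refine sum_congr rfl fun p _ => ?_
        rw [hA, hA, hB]
        ring
      have e7 : ∑ u ∈ pm X, A u * (2 * (c * R u) - 2) = 2 * ∑ u ∈ pm X, A u * (c * R u) - 4 * ∑ a ∈ X, l1 a := by
        have : ∑ u ∈ pm X, A u * (2 * (c * R u) - 2) = 2 * ∑ u ∈ pm X, A u * (c * R u) - 2 * ∑ u ∈ pm X, A u := by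
          rw [mul_sum, mul_sum, ← sum_sub_distrib]
          refine sum_congr rfl fun u _ => ?_
          ring
        rw [this, e3]
        ring
      have e8 : ∑ t ∈ pm S, B t * (c * D t - X.card / S.card) = ∑ t ∈ pm S, B t * (c * D t) -
          2 * X.card / S.card * ∑ s ∈ S, l2 s := by
        have : ∑ t ∈ pm S, B t * (c * D t - X.card / S.card) = ∑ t ∈ pm S, B t * (c * D t) -
            X.card / S.card * ∑ t ∈ pm S, B t := by
          rw [mul_sum, ← sum_sub_distrib]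
          refine sum_congr rfl fun u _ => ?_
          ring
        rw [this, e4]
        ring
      have g1 := cov86 (pm X) A (fun u => 2 * (c * R u) - 2) ((∑ w ∈ pm X, A w) / (pm X).card) e0 hrs hrb
      have g2 := cov86 (pm S) B (fun t => c * D t - X.card / S.card) ((∑ w ∈ pm S, B w) / (pm S).card) e0
        hds hdb
      have g3 := hgain n hnN0 hev X S hX hS (hXc.trans (mul_le_mul_of_nonneg_right hz0 (by linarith)))
        (hSc.trans (mul_le_mul_of_nonneg_right hz0 (by linarith))) A B g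
        (fun u => by rw [hA, hA, Int.natAbs_neg]) (fun u => by rw [hB, hB, Int.natAbs_neg])
      have g4 : ∑ u ∈ pm X, ∑ v ∈ (pm X).filter (fun v => u + v ∈ pm S),
          hex u v / (n : ℝ) ^ 2 * |A u + A v + B (u + v) - g| ≤
          ∑ p ∈ P86 X S, k0 p * |A p.1 + A p.2 + B (p.1 + p.2) - g| := by
        rw [sum_P86]
        refine sum_le_sum fun u hu => sum_le_sum fun v hv => ?_
        rw [mem_filter] at hv
        refine mul_le_mul_of_nonneg_right ?_ (abs_nonneg _)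
        rw [hk0]
        unfold H86
        dsimp only
        rw [if_pos ⟨hu, hv.1, hv.2⟩, div_le_iff₀ hn2]
        have h1 := mul_le_mul_of_nonneg_left hc1 (hex_nn86 u v)
        linarith
      have g5 : ∑ p ∈ P86 X S, k0 p * |∑ a ∈ X, l1 a * ((if p.1.natAbs = a then 1 else 0) +
          (if p.2.natAbs = a then 1 else 0)) + ∑ s ∈ S, l2 s * (if (p.1 + p.2).natAbs = s then 1 else 0) - g| =
          ∑ p ∈ P86 X S, k0 p * |A p.1 + A p.2 + B (p.1 + p.2) - g| := by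
        refine sum_congr rfl fun p hp => ?_
        rw [hM1 l1 p hp, hM2 l2 p hp, hA, hA, hB]
      rw [g5]
      linarith)
  -- totals
  have htot : ∑ p ∈ P86 X S, Q p = 2 * X.card := by
    rw [hQt]
    have h1 := load86 k0 hk0s (fun _ => 1) (fun _ => 0) (fun _ => 0)
    simp only [add_zero, one_mul, zero_mul, sum_const_zero] at h1
    rw [h1]
    simp_rw [hrow0]
    rw [← mul_sum, ← hT, hcT]
  have hX4 : ∀ a ∈ X, ∑ p ∈ P86 X S, ((if p.1.natAbs = a then 1 else 0) +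
      (if p.2.natAbs = a then 1 else 0)) * Q p = 4 := by
    refine tight86 _ 4 hQX ?_
    rw [sum_comm]
    have h1 : ∀ p ∈ P86 X S, ∑ a ∈ X, ((if p.1.natAbs = a then (1 : ℝ) else 0) +
        (if p.2.natAbs = a then 1 else 0)) * Q p = 2 * Q p := by
      intro p hp
      have h2 := hM1 (fun _ => 1) p hp
      simp only [one_mul] at h2
      rw [← sum_mul, h2]
      ring
    rw [sum_congr rfl h1, ← mul_sum, htot]
    ring
  have hS4 : ∀ s ∈ S, ∑ p ∈ P86 X S, (if (p.1 + p.2).natAbs = s then 1 else 0) * Q p =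
      2 * X.card / S.card := by
    refine tight86 _ _ hQS ?_
    rw [sum_comm]
    have h1 : ∀ p ∈ P86 X S, ∑ s ∈ S, (if (p.1 + p.2).natAbs = s then (1 : ℝ) else 0) * Q p = Q p := by
      intro p hp
      have h2 := hM2 (fun _ => 1) p hp
      simp only [one_mul] at h2
      rw [← sum_mul, h2]
      ring
    rw [sum_congr rfl h1, htot, mul_comm (S.card : ℝ), div_mul_cancel₀ _ hcS.ne']
  have hind : ∀ (C : Finset ℕ) (_ : 0 ∉ C) (a : ℕ) (_ : a ∈ C) (F : ℤ → ℝ),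
      ∑ u ∈ pm C, (if u.natAbs = a then 1 else 0) * F u = F (a : ℤ) + F (-(a : ℤ)) := by
    intro C hC a ha F
    rw [sum_pm86 hC]
    have h1 : ∀ x ∈ C, ((if ((x : ℤ)).natAbs = a then 1 else 0) * F (x : ℤ) +
        (if (-(x : ℤ)).natAbs = a then 1 else 0) * F (-(x : ℤ))) =
        if x = a then F (a : ℤ) + F (-(a : ℤ)) else 0 := by
      intro x _
      rw [Int.natAbs_neg, Int.natAbs_natCast]
      split_ifs with h
      · rw [h]; ring
      · ring
    rw [sum_congr rfl h1, sum_ite_eq', if_pos ha]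
  refine sym86 Q hQn hQs ?_ ?_ ?_
  · intro p
    by_cases hp : p ∈ P86 X S
    · refine (hQu p hp).trans ?_
      rw [hk0, le_div_iff₀ (by linarith)]
      have h1 := H_le86 hX hS p.1 p.2
      have h2 : c * H86 X S p.1 p.2 ≤ c * n := mul_le_mul_of_nonneg_left h1 hcp.le
      have h3 : 2 * (c * H86 X S p.1 p.2) * n ≤ 2 * (c * n) * n :=
        mul_le_mul_of_nonneg_right (by linarith) hn0
      linarith
    · have h1 : Q p = 0 := by
        by_contra hc
        exact hp (hQs p hc)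
      rw [h1]
      positivity
  · intro a ha
    rw [← hX4 a ha]
    have h1 := load86 Q hQs (fun u => if u.natAbs = a then 1 else 0) (fun u => if u.natAbs = a then 1 else 0)
      (fun _ => 0)
    simp only [add_zero, zero_mul, sum_const_zero] at h1
    rw [h1, hind X h0X a ha, hind X h0X a ha (fun v => ∑ u ∈ pm X, Q (u, v))]
  · intro s hs
    rw [← hS4 s hs]
    have h1 := load86 Q hQs (fun _ => 0) (fun _ => 0) (fun t => if t.natAbs = s then 1 else 0)
    simp only [zero_add, zero_mul, sum_const_zero] at h1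
    rw [h1, hind S h0S s hs]

end Pool.Agent.BD
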