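import Pool.Agent.Helper73.BD.Defs

/-!
# BD-PB: probability bounds for the labelling of one tree

All events are unions of events `∀ v ∈ A, φ v = x v`, bounded by `(B/n)^|A|` (`UL.joint`); labels are in `pm X`, `|pm X| ≤ 2n` (even `≤ n + 1`), a class has two signs.
Compare SEM/LW5.lean (the same bounds for natural labels and without absolute values).  Tree: for `v ≠ τ`, `p v ∈ P`, `p v < v`; the edge `v ≠ τ` is `{v, p v}`, different `v` give different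
edges, two edges share at most one vertex.
* `hL a`, `hL a'`, `a ≠ a'`: `K²` pairs of vertices, 4 sign choices: `≤ 4 K² B²/n²`.
* `hL a`, `hS b`: vertex `v`, edge `i`: if `v ∈ {i, p i}`: both labels are determined, `4 (B/n)²`; otherwise one free label: `4 · 2n (B/n)³`.
* `hS b`, `hS b'`, `b ≠ b'`: different edges; with a common vertex: 3 vertices, one free label: `4 · 2n (B/n)³`; disjoint: 4 vertices, two free labels: `4 (2n)² (B/n)⁴`.
* not `cInj`: two vertices with `|φ v| = |φ v'|`: `K² · 2 · 2n (B/n)²`; two edges with a common vertex `x` and others `y, z`: `|x+y| = |x+z|`: `z = y` or `z = -2x-y`: `2 (2n)² (B/n)³`; disjoint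
  edges: `2 (2n)³ (B/n)⁴`.
* one hit: `hL a`: `vtx`: `≤ 2K/(2|X|) = K/|X|`, more precisely at most `∑_v 1/|X|`; `hS b`: at most `∑_{v ≠ τ} 1/|S|`.
* `big`: a label of absolute value `> (1-c) n` at a vertex of `En`: at most `|En| · #{u ∈ Lab n : |u| > (1-c)n}/(2|X|) ≤ 2 (c n + 2)/(n/2)`.
-/

set_option autoImplicit false

namespace Pool.Agent.BD

open Finset Pool.Agent.SEM

variable {n K : ℕ} {X S P : Finset ℕ} {p : ℕ → ℕ} {τ : ℕ} {B : ℝ} {L : FZ}

private theorem mono_h12 (hnn : ∀ ω, 0 ≤ L.wt ω) {E F : (ℕ → ℤ) → Prop}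
    (h : ∀ ω, L.wt ω ≠ 0 → E (L.Φ ω) → F (L.Φ ω)) : L.Pr E ≤ L.Pr F := by
  unfold FZ.Pr FZ.Ex
  let _ := L.fin
  refine Finset.sum_le_sum fun ω _ => ?_
  by_cases hw : L.wt ω = 0
  · rw [hw, zero_mul, zero_mul]
  · refine mul_le_mul_of_nonneg_left ?_ (hnn ω)
    beta_reduce
    by_cases hE : E (L.Φ ω)
    · rw [if_pos hE, if_pos (h ω hw hE)]
    · rw [if_neg hE]
      split_ifs <;> norm_num

private theorem zero_h12 (hnn : ∀ ω, 0 ≤ L.wt ω) {E : (ℕ → ℤ) → Prop}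
    (h : ∀ ω, L.wt ω ≠ 0 → ¬ E (L.Φ ω)) : L.Pr E ≤ 0 := by
  unfold FZ.Pr FZ.Ex
  let _ := L.fin
  refine Finset.sum_nonpos fun ω _ => ?_
  by_cases hw : L.wt ω = 0
  · rw [hw, zero_mul]
  · beta_reduce
    rw [if_neg (h ω hw), mul_zero]

open Classical in
private theorem union_h12 (hnn : ∀ ω, 0 ≤ L.wt ω) {ι : Type*} (s : Finset ι)
    (E : ι → (ℕ → ℤ) → Prop) :
    L.Pr (fun φ => ∃ i ∈ s, E i φ) ≤ ∑ i ∈ s, L.Pr (E i) := by
  unfold FZ.Pr FZ.Ex
  let _ := L.fin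
  rw [Finset.sum_comm]
  refine Finset.sum_le_sum fun ω _ => ?_
  rw [← Finset.mul_sum]
  refine mul_le_mul_of_nonneg_left ?_ (hnn ω)
  beta_reduce
  by_cases h : ∃ i ∈ s, E i (L.Φ ω)
  · rw [if_pos h]
    obtain ⟨i, hi, hE⟩ := h
    calc (1 : ℝ) = (if E i (L.Φ ω) then (1:ℝ) else 0) := by rw [if_pos hE]
      _ ≤ _ := Finset.single_le_sum (f := fun i => if E i (L.Φ ω) then (1:ℝ) else 0)
          (fun j _ => by split_ifs <;> norm_num) hi
  · rw [if_neg h]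
    exact Finset.sum_nonneg fun j _ => by split_ifs <;> norm_num

/-- union bound over a finite set with at most `N` elements -/
private theorem uni_h12 (hnn : ∀ ω, 0 ≤ L.wt ω) {ι : Type*} (s : Finset ι) {E : (ℕ → ℤ) → Prop}
    (F : ι → (ℕ → ℤ) → Prop) {C N : ℝ} (hC : 0 ≤ C) (hs : (s.card : ℝ) ≤ N)
    (hE : ∀ ω, L.wt ω ≠ 0 → E (L.Φ ω) → ∃ i ∈ s, F i (L.Φ ω)) (hF : ∀ i ∈ s, L.Pr (F i) ≤ C) :
    L.Pr E ≤ N * C := by
  refine (mono_h12 hnn hE).trans ((union_h12 hnn s F).trans ?_)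
  refine (Finset.sum_le_sum hF).trans ?_
  rw [Finset.sum_const, nsmul_eq_mul]
  exact mul_le_mul_of_nonneg_right hs hC

private def sg_h12 (a : ℕ) : Finset ℤ := {(a : ℤ), -(a : ℤ)}

private theorem sg_card_h12 (a : ℕ) : ((sg_h12 a).card : ℝ) ≤ 2 := by
  have : (sg_h12 a).card ≤ 2 := Finset.card_le_two
  exact_mod_cast this

private theorem mem_sg_h12 {a : ℕ} {u : ℤ} (h : u.natAbs = a) : u ∈ sg_h12 a := by
  unfold sg_h12
  rw [Finset.mem_insert, Finset.mem_singleton]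
  omega

private theorem pm_card_h12 (hX : X ⊆ LC n) : ((pm X).card : ℝ) ≤ 2 * n := by
  have h1 : X.card ≤ n := by
    refine (Finset.card_le_card hX).trans ?_
    unfold LC
    refine (Finset.card_filter_le _ _).trans ?_
    rw [Nat.card_Icc]
    omega
  have h2 : (pm X).card ≤ X.card + X.card := by
    unfold pm
    exact (Finset.card_union_le _ _).trans (Nat.add_le_add Finset.card_image_le Finset.card_image_le)
  have h3 : (pm X).card ≤ 2 * n := by omega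
  exact_mod_cast h3

/-- fix the label of one vertex of `P` -/
private theorem cond_h12 (h : UL n X S p P τ B L) (hX : X ⊆ LC n) {a : ℕ} (ha : a ∈ P)
    {E : (ℕ → ℤ) → Prop} {C : ℝ} (hC : 0 ≤ C) (hE : ∀ x : ℤ, L.Pr (fun φ => E φ ∧ φ a = x) ≤ C) :
    L.Pr E ≤ 2 * n * C :=
  uni_h12 h.nn (pm X) (fun x φ => E φ ∧ φ a = x) hC (pm_card_h12 hX)
    (fun ω hw hE' => ⟨L.Φ ω a, h.lbl ω hw a ha, hE', rfl⟩) (fun x _ => hE x)

private theorem P2_h12 (h : UL n X S p P τ B L) {a b : ℕ} (ha : a ∈ P) (hb : b ∈ P)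
    (hab : a ≠ b) {E : (ℕ → ℤ) → Prop} (xa xb : ℤ)
    (hE : ∀ ω, L.wt ω ≠ 0 → E (L.Φ ω) → L.Φ ω a = xa ∧ L.Φ ω b = xb) :
    L.Pr E ≤ (B / n) ^ 2 := by
  have hj := h.joint {a, b} (by
    intro v hv
    rcases Finset.mem_insert.mp hv with rfl | hv
    · exact ha
    · rw [Finset.mem_singleton.mp hv]; exact hb) (fun v => if v = a then xa else xb)
  rw [Finset.card_pair hab] at hj
  refine (mono_h12 h.nn fun ω hw hE' => ?_).trans hj
  obtain ⟨h1, h2⟩ := hE ω hw hE'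
  intro v hv
  rcases Finset.mem_insert.mp hv with rfl | hv
  · rw [if_pos rfl]; exact h1
  · rw [Finset.mem_singleton.mp hv, if_neg hab.symm]; exact h2

private theorem P3_h12 (h : UL n X S p P τ B L) {a b c : ℕ} (ha : a ∈ P) (hb : b ∈ P)
    (hc : c ∈ P) (hab : a ≠ b) (hac : a ≠ c) (hbc : b ≠ c) {E : (ℕ → ℤ) → Prop}
    (xa xb xc : ℤ)
    (hE : ∀ ω, L.wt ω ≠ 0 → E (L.Φ ω) →
      L.Φ ω a = xa ∧ L.Φ ω b = xb ∧ L.Φ ω c = xc) :
    L.Pr E ≤ (B / n) ^ 3 := by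
  have hj := h.joint {a, b, c} (by
    intro v hv
    rcases Finset.mem_insert.mp hv with rfl | hv
    · exact ha
    rcases Finset.mem_insert.mp hv with rfl | hv
    · exact hb
    · rw [Finset.mem_singleton.mp hv]; exact hc)
    (fun v => if v = a then xa else if v = b then xb else xc)
  have hcard : ({a, b, c} : Finset ℕ).card = 3 := by
    rw [Finset.card_insert_of_notMem (by simp [hab, hac]),
      Finset.card_pair hbc]
  rw [hcard] at hj
  refine (mono_h12 h.nn fun ω hw hE' => ?_).trans hj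
  obtain ⟨h1, h2⟩ := hE ω hw hE'
  intro v hv
  rcases Finset.mem_insert.mp hv with rfl | hv
  · rw [if_pos rfl]; exact h1
  rcases Finset.mem_insert.mp hv with rfl | hv
  · rw [if_neg hab.symm, if_pos rfl]; exact h2.1
  · rw [Finset.mem_singleton.mp hv, if_neg hac.symm, if_neg hbc.symm]; exact h2.2

private theorem P4_h12 (h : UL n X S p P τ B L) {a b c d : ℕ} (ha : a ∈ P)
    (hb : b ∈ P) (hc : c ∈ P) (hd : d ∈ P) (hab : a ≠ b) (hac : a ≠ c) (had : a ≠ d)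
    (hbc : b ≠ c) (hbd : b ≠ d) (hcd : c ≠ d) {E : (ℕ → ℤ) → Prop} (xa xb xc xd : ℤ)
    (hE : ∀ ω, L.wt ω ≠ 0 → E (L.Φ ω) →
      L.Φ ω a = xa ∧ L.Φ ω b = xb ∧ L.Φ ω c = xc ∧ L.Φ ω d = xd) :
    L.Pr E ≤ (B / n) ^ 4 := by
  have hj := h.joint {a, b, c, d} (by
    intro v hv
    rcases Finset.mem_insert.mp hv with rfl | hv
    · exact ha
    rcases Finset.mem_insert.mp hv with rfl | hv
    · exact hb
    rcases Finset.mem_insert.mp hv with rfl | hv
    · exact hc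
    · rw [Finset.mem_singleton.mp hv]; exact hd)
    (fun v => if v = a then xa else if v = b then xb else if v = c then xc else xd)
  have hcard : ({a, b, c, d} : Finset ℕ).card = 4 := by
    rw [Finset.card_insert_of_notMem (by simp [hab, hac, had]),
      Finset.card_insert_of_notMem (by simp [hbc, hbd]), Finset.card_pair hcd]
  rw [hcard] at hj
  refine (mono_h12 h.nn fun ω hw hE' => ?_).trans hj
  obtain ⟨h1, h2, h3, h4⟩ := hE ω hw hE'
  intro v hv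
  rcases Finset.mem_insert.mp hv with rfl | hv
  · rw [if_pos rfl]; exact h1
  rcases Finset.mem_insert.mp hv with rfl | hv
  · rw [if_neg hab.symm, if_pos rfl]; exact h2
  rcases Finset.mem_insert.mp hv with rfl | hv
  · rw [if_neg hac.symm, if_neg hbc.symm, if_pos rfl]; exact h3
  · rw [Finset.mem_singleton.mp hv, if_neg had.symm, if_neg hbd.symm, if_neg hcd.symm]
    exact h4

private theorem arith_h12 (hn : 1 ≤ n) (hB : 1 ≤ B) :
    (B / n) ^ 2 ≤ B ^ 4 / (n : ℝ) ^ 2 ∧ 2 * (n : ℝ) * (B / n) ^ 3 ≤ 2 * (B ^ 4 / (n : ℝ) ^ 2) ∧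
      2 * (n : ℝ) * (2 * n * (B / n) ^ 4) = 4 * (B ^ 4 / (n : ℝ) ^ 2) ∧
      2 * (n : ℝ) * (B / n) ^ 2 ≤ 2 * (B ^ 4 / n) ∧
      2 * (n : ℝ) * (2 * n * (B / n) ^ 3) ≤ 4 * (B ^ 4 / n) ∧
      2 * (n : ℝ) * (2 * n * (2 * n * (B / n) ^ 4)) = 8 * (B ^ 4 / n) := by
  have hn0 : (0 : ℝ) < n := by exact_mod_cast hn
  have hB0 : 0 < B := by linarith
  have h24 : B ^ 2 ≤ B ^ 4 := pow_le_pow_right₀ hB (by norm_num)
  have h34 : B ^ 3 ≤ B ^ 4 := pow_le_pow_right₀ hB (by norm_num)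
  refine ⟨?_, ?_, ?_, ?_, ?_, ?_⟩
  · rw [div_pow]
    exact div_le_div_of_nonneg_right h24 (by positivity)
  · have : 2 * (n : ℝ) * (B / n) ^ 3 = 2 * (B ^ 3 / (n : ℝ) ^ 2) := by field_simp
    rw [this]
    exact mul_le_mul_of_nonneg_left (div_le_div_of_nonneg_right h34 (by positivity)) (by norm_num)
  · field_simp
    norm_num
  · have : 2 * (n : ℝ) * (B / n) ^ 2 = 2 * (B ^ 2 / n) := by field_simp
    rw [this]
    exact mul_le_mul_of_nonneg_left (div_le_div_of_nonneg_right h24 hn0.le) (by norm_num)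
  · have : 2 * (n : ℝ) * (2 * n * (B / n) ^ 3) = 4 * (B ^ 3 / n) := by
      field_simp
      norm_num
    rw [this]
    exact mul_le_mul_of_nonneg_left (div_le_div_of_nonneg_right h34 hn0.le) (by norm_num)
  · field_simp
    norm_num

/-- label and sum, fixed signs -/
private theorem lab_sum_h12 (h : UL n X S p P τ B L) (hX : X ⊆ LC n) (hn : 1 ≤ n) (hB : 1 ≤ B)
    {v i : ℕ} (hv : v ∈ P) (hi : i ∈ P) (hpi : p i ∈ P) (hlt : p i < i) (s t : ℤ) :
    L.Pr (fun φ => φ v = s ∧ φ i + φ (p i) = t) ≤ 2 * (B ^ 4 / (n : ℝ) ^ 2) := by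
  obtain ⟨a1, a2, -, -, -, -⟩ := arith_h12 (n := n) (B := B) hn hB
  have hn0 : (0 : ℝ) < n := by exact_mod_cast hn
  have hB0 : 0 < B := by linarith
  have hpos : 0 ≤ B ^ 4 / (n : ℝ) ^ 2 := by positivity
  by_cases h1 : v = i
  · refine (P2_h12 h hi hpi hlt.ne' s (t - s) fun ω _ hE => ?_).trans (by linarith)
    obtain ⟨h3, h4⟩ := hE
    rw [h1] at h3
    omega
  by_cases h2 : v = p i
  · refine (P2_h12 h hi hpi hlt.ne' (t - s) s fun ω _ hE => ?_).trans (by linarith)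
    obtain ⟨h3, h4⟩ := hE
    rw [h2] at h3
    omega
  · refine (cond_h12 h hX hi (C := (B / n) ^ 3) (by positivity) fun y => ?_).trans a2
    refine P3_h12 h hi hpi hv hlt.ne' (Ne.symm h1) (Ne.symm h2) y (t - y) s fun ω _ hE => ?_
    obtain ⟨⟨h3, h4⟩, h5⟩ := hE
    omega

/-- two sums, fixed signs -/
private theorem sum2_h12 (h : UL n X S p P τ B L) (hX : X ⊆ LC n) (hn : 1 ≤ n) (hB : 1 ≤ B)
    {i j : ℕ} (hiP : i ∈ P) (hpP : p i ∈ P) (hlt : p i < i) (hjP : j ∈ P) (hqP : p j ∈ P)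
    (hlt' : p j < j) (hij : i ≠ j) (s s' : ℤ) :
    L.Pr (fun φ => φ i + φ (p i) = s ∧ φ j + φ (p j) = s') ≤ 4 * (B ^ 4 / (n : ℝ) ^ 2) := by
  obtain ⟨-, a2, a3, -, -, -⟩ := arith_h12 (n := n) (B := B) hn hB
  have hn0 : (0 : ℝ) < n := by exact_mod_cast hn
  have hB0 : 0 < B := by linarith
  have hpos : 0 ≤ B ^ 4 / (n : ℝ) ^ 2 := by positivity
  have a2' : 2 * (n : ℝ) * (B / n) ^ 3 ≤ 4 * (B ^ 4 / (n : ℝ) ^ 2) := by linarith
  by_cases h1 : p i = j
  · refine (cond_h12 h hX hjP (C := (B / n) ^ 3) (by positivity) fun x => ?_).trans a2'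
    refine P3_h12 h hjP hiP hqP (Ne.symm hij) hlt'.ne' (by omega) x (s - x) (s' - x)
      fun ω _ hE => ?_
    obtain ⟨⟨h3, h4⟩, h5⟩ := hE
    rw [h1] at h3
    omega
  by_cases h2 : p j = i
  · refine (cond_h12 h hX hiP (C := (B / n) ^ 3) (by positivity) fun x => ?_).trans a2'
    refine P3_h12 h hiP hjP hpP hij hlt.ne' (by omega) x (s' - x) (s - x)
      fun ω _ hE => ?_
    obtain ⟨⟨h3, h4⟩, h5⟩ := hE
    rw [h2] at h4
    omega
  by_cases h3 : p i = p j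
  · refine (cond_h12 h hX hpP (C := (B / n) ^ 3) (by positivity) fun x => ?_).trans a2'
    refine P3_h12 h hpP hiP hjP hlt.ne (by omega) hij x (s - x) (s' - x)
      fun ω _ hE => ?_
    obtain ⟨⟨h4, h5⟩, h6⟩ := hE
    rw [← h3] at h5
    omega
  · refine (cond_h12 h hX hiP (C := 2 * n * (B / n) ^ 4) (by positivity) fun x => ?_).trans a3.le
    refine cond_h12 h hX hjP (C := (B / n) ^ 4) (by positivity) fun y => ?_
    refine P4_h12 h hiP hpP hjP hqP hlt.ne' hij (Ne.symm h2) h1 h3 hlt'.ne' x (s - x) y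
      (s' - y) fun ω _ hE => ?_
    obtain ⟨⟨⟨h4, h5⟩, h6⟩, h7⟩ := hE
    omega

/-- two sums with equal or opposite values -/
private theorem coll_h12 (h : UL n X S p P τ B L) (hX : X ⊆ LC n) (hn : 1 ≤ n) (hB : 1 ≤ B)
    {i j : ℕ} (hiP : i ∈ P) (hpP : p i ∈ P) (hlt : p i < i) (hjP : j ∈ P) (hqP : p j ∈ P)
    (hlt' : p j < j) (hij : i ≠ j) (e : ℤ) :
    L.Pr (fun φ => φ j + φ (p j) = e * (φ i + φ (p i))) ≤ 8 * (B ^ 4 / (n : ℝ)) := by
  obtain ⟨-, -, -, -, a5, a6⟩ := arith_h12 (n := n) (B := B) hn hB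
  have hn0 : (0 : ℝ) < n := by exact_mod_cast hn
  have hB0 : 0 < B := by linarith
  have hpos : 0 ≤ B ^ 4 / (n : ℝ) := by positivity
  have a5' : 2 * (n : ℝ) * (2 * n * (B / n) ^ 3) ≤ 8 * (B ^ 4 / (n : ℝ)) := by linarith
  by_cases h1 : p i = j
  · refine (cond_h12 h hX hiP (C := 2 * n * (B / n) ^ 3) (by positivity) fun x => ?_).trans a5'
    refine cond_h12 h hX hjP (C := (B / n) ^ 3) (by positivity) fun y => ?_
    refine P3_h12 h hiP hjP hqP hij (by omega) hlt'.ne' x y (e * (x + y) - y)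
      fun ω _ hE => ?_
    obtain ⟨⟨h3, h4⟩, h5⟩ := hE
    rw [h1] at h3
    rw [← h4, ← h5]
    exact ⟨rfl, rfl, by linarith⟩
  by_cases h2 : p j = i
  · refine (cond_h12 h hX hiP (C := 2 * n * (B / n) ^ 3) (by positivity) fun x => ?_).trans a5'
    refine cond_h12 h hX hpP (C := (B / n) ^ 3) (by positivity) fun y => ?_
    refine P3_h12 h hiP hpP hjP hlt.ne' hij (by omega) x y (e * (x + y) - x)
      fun ω _ hE => ?_
    obtain ⟨⟨h3, h4⟩, h5⟩ := hE
    rw [h2] at h3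
    rw [← h4, ← h5]
    exact ⟨rfl, rfl, by linarith⟩
  by_cases h3 : p i = p j
  · refine (cond_h12 h hX hiP (C := 2 * n * (B / n) ^ 3) (by positivity) fun x => ?_).trans a5'
    refine cond_h12 h hX hpP (C := (B / n) ^ 3) (by positivity) fun y => ?_
    refine P3_h12 h hiP hpP hjP hlt.ne' hij (by omega) x y (e * (x + y) - y)
      fun ω _ hE => ?_
    obtain ⟨⟨h4, h5⟩, h6⟩ := hE
    rw [← h3] at h4
    rw [← h5, ← h6]
    exact ⟨rfl, rfl, by linarith⟩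
  · refine (cond_h12 h hX hiP (C := 2 * n * (2 * n * (B / n) ^ 4)) (by positivity) fun x => ?_).trans a6.le
    refine cond_h12 h hX hpP (C := 2 * n * (B / n) ^ 4) (by positivity) fun y => ?_
    refine cond_h12 h hX hjP (C := (B / n) ^ 4) (by positivity) fun z => ?_
    refine P4_h12 h hiP hpP hjP hqP hlt.ne' hij (Ne.symm h2) h1 h3 hlt'.ne' x y z
      (e * (x + y) - z) fun ω _ hE => ?_
    obtain ⟨⟨⟨h4, h5⟩, h6⟩, h7⟩ := hE
    rw [← h5, ← h6, ← h7]
    exact ⟨rfl, rfl, rfl, by linarith⟩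

theorem pr_hL (h : UL n X S p P τ B L) (a : ℕ) : L.Pr (hL P a) ≤ P.card / X.card := by
  have h0 : (0 : ℝ) ≤ 1 / (2 * X.card) := by positivity
  have h1 : L.Pr (hL P a) ≤ P.card * (2 * (1 / (2 * X.card))) := by
    refine uni_h12 h.nn P (fun v φ => (φ v).natAbs = a) (by positivity) le_rfl (fun ω _ hE => hE) fun v hv => ?_
    exact uni_h12 h.nn (sg_h12 a) (fun s φ => φ v = s) h0 (sg_card_h12 a)
      (fun ω _ hE => ⟨_, mem_sg_h12 hE, rfl⟩) (fun s _ => h.vtx v hv s)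
  refine h1.trans (le_of_eq ?_)
  ring

theorem pr_hS (h : UL n X S p P τ B L) (hτ : τ ∈ P) (b : ℕ) :
    L.Pr (hS p P τ b) ≤ ((P.card : ℝ) - 1) / S.card := by
  have h0 : (0 : ℝ) ≤ 1 / (2 * S.card) := by positivity
  have hc : (((P.erase τ).card : ℕ) : ℝ) ≤ (P.card : ℝ) - 1 := by
    rw [Finset.card_erase_of_mem hτ, Nat.cast_sub (Finset.card_pos.2 ⟨τ, hτ⟩)]
    simp
  have h1 : L.Pr (hS p P τ b) ≤ ((P.card : ℝ) - 1) * (2 * (1 / (2 * S.card))) := by
    refine uni_h12 h.nn (P.erase τ) (fun v φ => (φ v + φ (p v)).natAbs = b) (by positivity) hc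
      (fun ω _ hE => ?_) fun v hv => ?_
    · obtain ⟨v, hv, hvτ, hE⟩ := hE
      exact ⟨v, Finset.mem_erase.2 ⟨hvτ, hv⟩, hE⟩
    · rw [Finset.mem_erase] at hv
      exact uni_h12 h.nn (sg_h12 b) (fun s φ => φ v + φ (p v) = s) h0 (sg_card_h12 b)
        (fun ω _ hE => ⟨_, mem_sg_h12 hE, rfl⟩) (fun s _ => h.edg v hv.2 hv.1 s)
  refine h1.trans (le_of_eq ?_)
  ring

theorem pr_pair (h : UL n X S p P τ B L) (hP : Tr p P τ) (hK : P.card ≤ K) (hB : 1 ≤ B) (hn : 1 ≤ n) (hX : X ⊆ LC n) :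
    (∀ a a', a ≠ a' → L.Pr (fun φ => hL P a φ ∧ hL P a' φ) ≤ 16 * (K : ℝ) ^ 2 * B ^ 4 / (n : ℝ) ^ 2) ∧
    (∀ a b, L.Pr (fun φ => hL P a φ ∧ hS p P τ b φ) ≤ 16 * (K : ℝ) ^ 2 * B ^ 4 / (n : ℝ) ^ 2) ∧
    (∀ b b', b ≠ b' → L.Pr (fun φ => hS p P τ b φ ∧ hS p P τ b' φ) ≤ 16 * (K : ℝ) ^ 2 * B ^ 4 / (n : ℝ) ^ 2) := by
  obtain ⟨a1, -, -, -, -, -⟩ := arith_h12 (n := n) (B := B) hn hB
  have hn0 : (0 : ℝ) < n := by exact_mod_cast hn
  have hB0 : 0 < B := by linarith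
  have hpos : 0 ≤ B ^ 4 / (n : ℝ) ^ 2 := by positivity
  have hPK : ((P ×ˢ P).card : ℝ) ≤ (K : ℝ) ^ 2 := by
    rw [Finset.card_product]
    have : P.card * P.card ≤ K * K := Nat.mul_le_mul hK hK
    rw [sq]
    exact_mod_cast this
  have hfin : (K : ℝ) ^ 2 * (2 * (2 * (4 * (B ^ 4 / (n : ℝ) ^ 2)))) = 16 * (K : ℝ) ^ 2 * B ^ 4 / (n : ℝ) ^ 2 := by
    ring
  refine ⟨fun a a' haa => ?_, fun a b => ?_, fun b b' hbb => ?_⟩
  · rw [← hfin]
    refine uni_h12 h.nn (P ×ˢ P) (fun q φ => (φ q.1).natAbs = a ∧ (φ q.2).natAbs = a') (by positivity) hPK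
      (fun ω _ hE => ?_) fun q hq => ?_
    · obtain ⟨⟨v, hv, h2⟩, w, hw, h3⟩ := hE
      exact ⟨(v, w), Finset.mem_product.mpr ⟨hv, hw⟩, h2, h3⟩
    · obtain ⟨hq1, hq2⟩ := Finset.mem_product.mp hq
      by_cases hqq : q.1 = q.2
      · refine (zero_h12 h.nn fun ω _ hE => haa ?_).trans (by positivity)
        rw [← hE.1, ← hE.2, hqq]
      refine uni_h12 h.nn (sg_h12 a) (fun s φ => φ q.1 = s ∧ (φ q.2).natAbs = a') (by positivity) (sg_card_h12 a)
        (fun ω _ hE => ⟨_, mem_sg_h12 hE.1, rfl, hE.2⟩) fun s _ => ?_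
      refine uni_h12 h.nn (sg_h12 a') (fun t φ => φ q.1 = s ∧ φ q.2 = t) (by positivity) (sg_card_h12 a')
        (fun ω _ hE => ⟨_, mem_sg_h12 hE.2, hE.1, rfl⟩) fun t _ => ?_
      refine (P2_h12 h hq1 hq2 hqq s t fun ω _ hE => hE).trans (a1.trans ?_)
      linarith
  · rw [← hfin]
    refine uni_h12 h.nn (P ×ˢ P) (fun q φ => (φ q.1).natAbs = a ∧ q.2 ≠ τ ∧ (φ q.2 + φ (p q.2)).natAbs = b)
      (by positivity) hPK (fun ω _ hE => ?_) fun q hq => ?_
    · obtain ⟨⟨v, hv, h2⟩, w, hw, h3⟩ := hE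
      exact ⟨(v, w), Finset.mem_product.mpr ⟨hv, hw⟩, h2, h3⟩
    · obtain ⟨hq1, hq2⟩ := Finset.mem_product.mp hq
      by_cases hqq : q.2 = τ
      · exact (zero_h12 h.nn fun ω _ hE => hE.2.1 hqq).trans (by positivity)
      refine uni_h12 h.nn (sg_h12 a) (fun s φ => φ q.1 = s ∧ (φ q.2 + φ (p q.2)).natAbs = b) (by positivity)
        (sg_card_h12 a) (fun ω _ hE => ⟨_, mem_sg_h12 hE.1, rfl, hE.2.2⟩) fun s _ => ?_
      refine uni_h12 h.nn (sg_h12 b) (fun t φ => φ q.1 = s ∧ φ q.2 + φ (p q.2) = t) (by positivity) (sg_card_h12 b)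
        (fun ω _ hE => ⟨_, mem_sg_h12 hE.2, hE.1, rfl⟩) fun t _ => ?_
      have := lab_sum_h12 h hX hn hB hq1 hq2 (hP.par q.2 hq2 hqq).1 (hP.par q.2 hq2 hqq).2 s t
      linarith
  · rw [← hfin]
    refine uni_h12 h.nn (P ×ˢ P) (fun q φ => (q.1 ≠ τ ∧ (φ q.1 + φ (p q.1)).natAbs = b) ∧
      q.2 ≠ τ ∧ (φ q.2 + φ (p q.2)).natAbs = b')
      (by positivity) hPK (fun ω _ hE => ?_) fun q hq => ?_
    · obtain ⟨⟨v, hv, h2⟩, w, hw, h3⟩ := hE
      exact ⟨(v, w), Finset.mem_product.mpr ⟨hv, hw⟩, h2, h3⟩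
    · obtain ⟨hq1, hq2⟩ := Finset.mem_product.mp hq
      by_cases hqq : q.2 = τ
      · exact (zero_h12 h.nn fun ω _ hE => hE.2.1 hqq).trans (by positivity)
      by_cases hqq' : q.1 = τ
      · exact (zero_h12 h.nn fun ω _ hE => hE.1.1 hqq').trans (by positivity)
      by_cases hne : q.1 = q.2
      · refine (zero_h12 h.nn fun ω _ hE => hbb ?_).trans (by positivity)
        rw [← hE.1.2, ← hE.2.2, hne]
      refine uni_h12 h.nn (sg_h12 b) (fun s φ => φ q.1 + φ (p q.1) = s ∧ (φ q.2 + φ (p q.2)).natAbs = b')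
        (by positivity) (sg_card_h12 b) (fun ω _ hE => ⟨_, mem_sg_h12 hE.1.2, rfl, hE.2.2⟩) fun s _ => ?_
      refine uni_h12 h.nn (sg_h12 b') (fun t φ => φ q.1 + φ (p q.1) = s ∧ φ q.2 + φ (p q.2) = t) (by positivity)
        (sg_card_h12 b') (fun ω _ hE => ⟨_, mem_sg_h12 hE.2, hE.1, rfl⟩) fun t _ => ?_
      exact sum2_h12 h hX hn hB hq1 (hP.par q.1 hq1 hqq').1 (hP.par q.1 hq1 hqq').2 hq2
        (hP.par q.2 hq2 hqq).1 (hP.par q.2 hq2 hqq).2 hne s t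

theorem pr_inj (h : UL n X S p P τ B L) (hP : Tr p P τ) (hK : P.card ≤ K) (hB : 1 ≤ B) (hn : 1 ≤ n) (hX : X ⊆ LC n) :
    L.Pr (fun φ => ¬ cInj p P τ φ) ≤ 40 * (K : ℝ) ^ 2 * B ^ 4 / n := by
  obtain ⟨-, -, -, a4, -, -⟩ := arith_h12 (n := n) (B := B) hn hB
  have hn0 : (0 : ℝ) < n := by exact_mod_cast hn
  have hB0 : 0 < B := by linarith
  have hpos : 0 ≤ B ^ 4 / (n : ℝ) := by positivity
  have hPK : ((P ×ˢ P).card : ℝ) ≤ (K : ℝ) ^ 2 := by
    rw [Finset.card_product]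
    have : P.card * P.card ≤ K * K := Nat.mul_le_mul hK hK
    rw [sq]
    exact_mod_cast this
  have hfin : (K : ℝ) ^ 2 * (2 * (2 * (8 * (B ^ 4 / (n : ℝ))))) ≤ 40 * (K : ℝ) ^ 2 * B ^ 4 / n := by
    have e : 40 * (K : ℝ) ^ 2 * B ^ 4 / n = 40 * ((K : ℝ) ^ 2 * (B ^ 4 / (n : ℝ))) := by ring
    rw [e]
    have : 0 ≤ (K : ℝ) ^ 2 * (B ^ 4 / (n : ℝ)) := by positivity
    linarith
  refine le_trans ?_ hfin
  refine uni_h12 h.nn (P ×ˢ P) (fun q φ => (q.1 ≠ q.2 ∧ (φ q.1).natAbs = (φ q.2).natAbs) ∨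
      (q.1 ≠ q.2 ∧ q.1 ≠ τ ∧ q.2 ≠ τ ∧ (φ q.1 + φ (p q.1)).natAbs = (φ q.2 + φ (p q.2)).natAbs))
      (by positivity) hPK (fun ω _ hE => ?_) fun q hq => ?_
  · unfold cInj at hE
    rw [not_and_or] at hE
    rcases hE with hE | hE
    · unfold Set.InjOn at hE
      push Not at hE
      obtain ⟨a, ha, b, hb, hab, hne⟩ := hE
      exact ⟨(a, b), Finset.mem_product.mpr ⟨Finset.mem_coe.mp ha, Finset.mem_coe.mp hb⟩, Or.inl ⟨hne, hab⟩⟩
    · unfold Set.InjOn at hE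
      push Not at hE
      obtain ⟨a, ha, b, hb, hab, hne⟩ := hE
      rw [Finset.mem_coe, Finset.mem_erase] at ha hb
      exact ⟨(a, b), Finset.mem_product.mpr ⟨ha.2, hb.2⟩, Or.inr ⟨hne, ha.1, hb.1, hab⟩⟩
  · obtain ⟨hq1, hq2⟩ := Finset.mem_product.mp hq
    by_cases hne : q.1 = q.2
    · refine (zero_h12 h.nn fun ω _ hE => ?_).trans (by positivity)
      rcases hE with hE | hE
      · exact hE.1 hne
      · exact hE.1 hne
    -- two kinds of events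
    refine uni_h12 h.nn (Finset.univ : Finset Bool) (fun c φ => if c then (φ q.1).natAbs = (φ q.2).natAbs else
      (q.1 ≠ τ ∧ q.2 ≠ τ ∧ (φ q.1 + φ (p q.1)).natAbs = (φ q.2 + φ (p q.2)).natAbs)) (by positivity)
      (by simp) (fun ω _ hE => ?_) fun c _ => ?_
    · rcases hE with hE | hE
      · exact ⟨true, Finset.mem_univ _, by simpa using hE.2⟩
      · exact ⟨false, Finset.mem_univ _, by simpa using hE.2⟩
    · cases c with
      | true =>
        simp only [if_true]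
        refine uni_h12 h.nn ({1, -1} : Finset ℤ) (fun e φ => φ q.2 = e * φ q.1) (by positivity)
          (by exact_mod_cast Finset.card_le_two) (fun ω _ hE => ?_) fun e _ => ?_
        · rcases Int.natAbs_eq_natAbs_iff.1 hE with h3 | h3
          · exact ⟨1, by simp, by rw [h3]; ring⟩
          · exact ⟨-1, by simp, by rw [h3]; ring⟩
        · refine (cond_h12 h hX hq1 (C := (B / n) ^ 2) (by positivity) fun x => ?_).trans (a4.trans (by linarith))
          refine P2_h12 h hq1 hq2 hne x (e * x) fun ω _ hE => ?_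
          obtain ⟨h3, h4⟩ := hE
          rw [← h4]
          exact ⟨rfl, h3⟩
      | false =>
        simp only [Bool.false_eq_true, if_false]
        by_cases hq1τ : q.1 = τ
        · exact (zero_h12 h.nn fun ω _ hE => hE.1 hq1τ).trans (by positivity)
        by_cases hq2τ : q.2 = τ
        · exact (zero_h12 h.nn fun ω _ hE => hE.2.1 hq2τ).trans (by positivity)
        refine uni_h12 h.nn ({1, -1} : Finset ℤ) (fun e φ => φ q.2 + φ (p q.2) = e * (φ q.1 + φ (p q.1)))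
          (by positivity) (by exact_mod_cast Finset.card_le_two) (fun ω _ hE => ?_) fun e _ => ?_
        · rcases Int.natAbs_eq_natAbs_iff.1 hE.2.2 with h3 | h3
          · exact ⟨1, by simp, by rw [h3]; ring⟩
          · exact ⟨-1, by simp, by rw [h3]; ring⟩
        · exact coll_h12 h hX hn hB hq1 (hP.par q.1 hq1 hq1τ).1 (hP.par q.1 hq1 hq1τ).2 hq2
            (hP.par q.2 hq2 hq2τ).1 (hP.par q.2 hq2 hq2τ).2 hne e

private theorem count_h12 (n : ℕ) {c : ℝ} (hc : 0 ≤ c) :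
    (((LC n).filter (fun x : ℕ => (1 - c) * n < (x : ℝ))).card : ℝ) ≤ c * n / 2 + 1 := by
  set T := (LC n).filter (fun x : ℕ => (1 - c) * n < (x : ℝ)) with hT
  rcases T.eq_empty_or_nonempty with h0 | h0
  · rw [h0, Finset.card_empty]
    have : 0 ≤ c * n := by positivity
    push_cast
    linarith
  · set lo := T.min' h0 with hlo
    have hloT : lo ∈ T := T.min'_mem h0
    have hlo1 := hloT
    rw [hT, Finset.mem_filter, mem_LC] at hlo1
    have h1 : T.card ≤ ((n - lo) / 2 + 1) := by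
      rw [← Finset.card_range ((n - lo) / 2 + 1)]
      refine Finset.card_le_card_of_injOn (fun x => (x - lo) / 2) (fun x hx => ?_) fun x hx y hy hxy => ?_
      · rw [Finset.mem_coe] at hx
        have hx1 := hx
        rw [hT, Finset.mem_filter, mem_LC] at hx1
        rw [Finset.coe_range, Set.mem_Iio]
        have := hx1.1.1.2
        show (x - lo) / 2 < (n - lo) / 2 + 1
        omega
      · rw [Finset.mem_coe] at hx hy
        have hxl := T.min'_le x hx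
        have hyl := T.min'_le y hy
        rw [← hlo] at hxl hyl
        rw [hT, Finset.mem_filter, mem_LC] at hx hy
        obtain ⟨a, ha⟩ := hx.1.2
        obtain ⟨b, hb⟩ := hy.1.2
        obtain ⟨d, hd⟩ := hlo1.1.2
        have hxy' : (x - lo) / 2 = (y - lo) / 2 := hxy
        omega
    have h2 : (T.card : ℝ) ≤ ((n : ℝ) - lo) / 2 + 1 := by
      have h3 : 2 * T.card ≤ (n - lo) + 2 := by omega
      have h4 : (2 * T.card : ℝ) ≤ ((n - lo : ℕ) : ℝ) + 2 := by exact_mod_cast h3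
      rw [Nat.cast_sub hlo1.1.1.2] at h4
      linarith
    have h5 := hlo1.2
    linarith

theorem pr_big (h : UL n X S p P τ B L) (hX : X ⊆ LC n) (hX4 : n ≤ 4 * X.card) (hn : 1 ≤ n) {En : Finset ℕ}
    (hE : En ⊆ P) (hE2 : En.card ≤ 2) {c : ℝ} (hc : 0 ≤ c) :
    L.Pr (fun φ => ∃ v ∈ En, (1 - c) * n < |(φ v : ℝ)|) ≤ 4 * c + 10 / n := by
  have hn0 : (0 : ℝ) < n := by exact_mod_cast hn
  have hX4' : (n : ℝ) ≤ 4 * X.card := by exact_mod_cast hX4
  have hX0 : (0 : ℝ) < X.card := by linarith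
  have hE2' : (En.card : ℝ) ≤ 2 := by exact_mod_cast hE2
  have h1 : L.Pr (fun φ => ∃ v ∈ En, (1 - c) * n < |(φ v : ℝ)|) ≤
      2 * ((c * n / 2 + 1) * (2 * (1 / (2 * X.card)))) := by
    refine uni_h12 h.nn En (fun v φ => (φ v).natAbs ∈ X ∧ (1 - c) * n < |(φ v : ℝ)|) (by positivity) hE2'
      (fun ω hw hE' => ?_) fun v hv => ?_
    · obtain ⟨v, hv, hE'⟩ := hE'
      exact ⟨v, hv, mem_pm.1 (h.lbl ω hw v (hE hv)), hE'⟩
    · refine uni_h12 h.nn ((LC n).filter (fun x : ℕ => (1 - c) * n < (x : ℝ)))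
        (fun a φ => (φ v).natAbs = a) (by positivity) (count_h12 n hc) (fun ω _ hE' => ?_) fun a _ => ?_
      · refine ⟨(L.Φ ω v).natAbs, Finset.mem_filter.2 ⟨hX hE'.1, ?_⟩, rfl⟩
        have e : (((L.Φ ω v).natAbs : ℕ) : ℝ) = |(L.Φ ω v : ℝ)| := by
          rw [Nat.cast_natAbs]
          push_cast
          rfl
        rw [e]
        exact hE'.2
      · exact uni_h12 h.nn (sg_h12 a) (fun s φ => φ v = s) (by positivity) (sg_card_h12 a)
          (fun ω _ hE' => ⟨_, mem_sg_h12 hE', rfl⟩) (fun s _ => h.vtx v (hE hv) s)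
  refine h1.trans ?_
  have h2 : (1 : ℝ) / X.card ≤ 4 / n := by
    rw [div_le_div_iff₀ hX0 hn0]
    linarith
  have h3 : 2 * ((c * n / 2 + 1) * (2 * (1 / (2 * (X.card : ℝ))))) = (c * n + 2) * (1 / X.card) := by
    field_simp
  rw [h3]
  have h4 : 0 ≤ c * n + 2 := by positivity
  have h5 := mul_le_mul_of_nonneg_left h2 h4
  refine h5.trans ?_
  have h6 : (c * n + 2) * (4 / (n : ℝ)) = 4 * c + 8 / n := by
    field_simp
    ring
  rw [h6]
  have h7 : (8 : ℝ) / n ≤ 10 / n := div_le_div_of_nonneg_right (by norm_num) hn0.le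
  linarith

end Pool.Agent.BD
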