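import Pool.Agent.Helper73.BD.PA
import Pool.Agent.Helper73.BD.PB
import Pool.Agent.Helper73.SEM.NB3

/-!
# BD-PC: the packing theorem

Proof in words (compare SEM/LW6.lean, the same with labels on the separating set).  `law` gives a random labelling `L τ` for every tree, with `B' = max B 2`.
`V = ℕ ⊕ ℕ ⊕ ℕ` (tree / label class / sum class), `VS = T ⊕ X ⊕ S` (at most `3n` elements: `|T| ≤ ∑ |P τ| ≤ |X|`), `E` = pairs (tree, outcome);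
an outcome is good if `wt ≠ 0`, `cInj`, and `|φ v| ≤ (1-c) n` for `v ∈ En τ`; the weight of a good edge is `wt`, of a bad one `0`; `S_e = {τ} ∪ {classes of the labels} ∪ {classes of the sums}`
(at most `2K` elements, `= {τ}` for bad ones).  Loads: tree: `≤ 1`; label class `a`: `∑_τ Pr (hL a) ≤ ∑ |P τ|/|X| ≤ 1`; sum class: `∑ (|P τ| - 1)/|S| ≤ 1`.
Codegrees: tree/label: `≤ K/|X| ≤ 4K/n`, tree/sum the same, two trees `0`; label/label, label/sum, sum/sum: `|T| · 16 K² B'⁴/n² ≤ 16K²B'⁴/n`; weights of single edges: `≤ B'/n`.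
`g e = |P τ|/K` for good edges.  `SEM.nibble` with `k = 2K`, small `ε'`: matching `M`; `T'` = trees of the good edges in `M`.
`∑_{T'} |P τ| ≥ (1-ε') ∑_T |P τ| (1 - 4c - 10/n - 40K²B'⁴/n) - ε' K · 3n`, so `∑_{T \ T'} |P τ| ≤ (4c + ε) n` for `n` large (`∑_T |P τ| ≤ |X| ≤ n`).
(Choose the form in which `SEM.nibble` is stated, see SEM/NB3.lean.)
-/

set_option autoImplicit false

namespace Pool.Agent.BD

open Finset Pool.Agent.SEM

/-- edges of the auxiliary hypergraph: a tree and an outcome of its random labelling -/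
private def ZE (T : Finset ℕ) (L : ℕ → FZ) : Type := Σ τ : {x // x ∈ T}, (L τ.1).Ω

private instance instFintypeZE (T : Finset ℕ) (L : ℕ → FZ) : Fintype (ZE T L) :=
  letI : ∀ τ : {x // x ∈ T}, Fintype ((L τ.1).Ω) := fun τ => (L τ.1).fin
  inferInstanceAs (Fintype (Σ τ : {x // x ∈ T}, (L τ.1).Ω))

/-- the edge given by a tree and an outcome -/
private def ZE.mk {T : Finset ℕ} {L : ℕ → FZ} (τ : {x // x ∈ T}) (ω : (L τ.1).Ω) : ZE T L := ⟨τ, ω⟩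

/-- the labelling of an edge -/
private def ZE.fn {T : Finset ℕ} {L : ℕ → FZ} (e : ZE T L) : ℕ → ℤ := (L e.1.1).Φ e.2

/-- good outcomes -/
private def ZE.good {T : Finset ℕ} {L : ℕ → FZ} (G : ℕ → (ℕ → ℤ) → Prop) (e : ZE T L) : Prop :=
  (L e.1.1).wt e.2 ≠ 0 ∧ G e.1.1 e.fn

open Classical in
/-- weights -/
private noncomputable def ZE.w {T : Finset ℕ} {L : ℕ → FZ} (G : ℕ → (ℕ → ℤ) → Prop)
    (e : ZE T L) : ℝ := if e.good G then (L e.1.1).wt e.2 else 0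

open Classical in
/-- the vertices of an edge -/
private noncomputable def ZE.S {T : Finset ℕ} {L : ℕ → FZ} (p : ℕ → ℕ) (P : ℕ → Finset ℕ)
    (G : ℕ → (ℕ → ℤ) → Prop) (e : ZE T L) : Finset (ℕ ⊕ ℕ ⊕ ℕ) :=
  Finset.disjSum {e.1.1} (Finset.disjSum
    (if e.good G then (P e.1.1).image (fun v => (e.fn v).natAbs) else ∅)
    (if e.good G then ((P e.1.1).erase e.1.1).image (fun v => (e.fn v + e.fn (p v)).natAbs) else ∅))

private theorem ZE.sum_eq {T : Finset ℕ} {L : ℕ → FZ} (F : ZE T L → ℝ) :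
    ∑ e, F e = ∑ τ : {x // x ∈ T}, (letI := (L τ.1).fin; ∑ ω : (L τ.1).Ω, F (ZE.mk τ ω)) := by
  let _ : ∀ τ : {x // x ∈ T}, Fintype ((L τ.1).Ω) := fun τ => (L τ.1).fin
  exact Fintype.sum_sigma (fun e : (Σ τ : {x // x ∈ T}, (L τ.1).Ω) => F e)

open Classical in
private theorem ZE.sum_le {T : Finset ℕ} {L : ℕ → FZ} {G : ℕ → (ℕ → ℤ) → Prop}
    (hnn : ∀ τ ∈ T, ∀ ω, 0 ≤ (L τ).wt ω) (q : ZE T L → Prop) [DecidablePred q]
    (Q : ℕ → (ℕ → ℤ) → Prop)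
    (h : ∀ e : ZE T L, e.good G → q e → Q e.1.1 e.fn) :
    ∑ e with q e, e.w G ≤ ∑ τ ∈ T, (L τ).Pr (Q τ) := by
  rw [sum_filter, ZE.sum_eq, ← Finset.sum_coe_sort T (fun τ => (L τ).Pr (Q τ))]
  refine sum_le_sum fun τ _ => ?_
  unfold FZ.Pr FZ.Ex
  refine sum_le_sum fun ω _ => ?_
  have h0 := hnn τ.1 τ.2 ω
  have h1 := h (ZE.mk τ ω)
  show _ ≤ (L τ.1).wt ω * (if Q τ.1 ((L τ.1).Φ ω) then (1 : ℝ) else 0)
  by_cases hq : q (ZE.mk τ ω)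
  · by_cases hg : (ZE.mk τ ω : ZE T L).good G
    · have h2 := h1 hg hq
      have h3 : Q τ.1 ((L τ.1).Φ ω) := h2
      rw [if_pos hq, if_pos h3, mul_one]
      unfold ZE.w
      rw [if_pos hg]
      exact le_rfl
    · rw [if_pos hq]
      unfold ZE.w
      rw [if_neg hg]
      exact mul_nonneg h0 (by split_ifs <;> norm_num)
  · rw [if_neg hq]
    exact mul_nonneg h0 (by split_ifs <;> norm_num)

open Classical in
private theorem Pr_false_h36 {L : FZ} {Q : (ℕ → ℤ) → Prop} (h : ∀ φ, ¬ Q φ) : L.Pr Q = 0 := by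
  unfold FZ.Pr FZ.Ex
  refine sum_eq_zero fun ω _ => ?_
  show L.wt ω * (if Q (L.Φ ω) then (1 : ℝ) else 0) = 0
  rw [if_neg (h _), mul_zero]

private theorem Pr_congr_h36 {L : FZ} {Q Q' : (ℕ → ℤ) → Prop} (h : ∀ φ, Q φ ↔ Q' φ) :
    L.Pr Q = L.Pr Q' := by
  have : Q = Q' := funext fun φ => propext (h φ)
  rw [this]

open Classical in
private theorem Pr_or_h36 {L : FZ} (hnn : ∀ ω, 0 ≤ L.wt ω) {Q Q' R : (ℕ → ℤ) → Prop}
    (h : ∀ φ, R φ → Q φ ∨ Q' φ) : L.Pr R ≤ L.Pr Q + L.Pr Q' := by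
  unfold FZ.Pr FZ.Ex
  let _ := L.fin
  rw [← sum_add_distrib]
  refine sum_le_sum fun ω _ => ?_
  rw [← mul_add]
  refine mul_le_mul_of_nonneg_left ?_ (hnn ω)
  have h1 := h (L.Φ ω)
  show (if R (L.Φ ω) then (1 : ℝ) else 0) ≤
    (if Q (L.Φ ω) then (1 : ℝ) else 0) + (if Q' (L.Φ ω) then (1 : ℝ) else 0)
  by_cases hR : R (L.Φ ω)
  · rw [if_pos hR]
    rcases h1 hR with h2 | h2
    · rw [if_pos h2]
      split_ifs <;> norm_num
    · rw [if_pos h2]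
      split_ifs <;> norm_num
  · rw [if_neg hR]
    split_ifs <;> norm_num

private theorem ZE.sum_le_one {T : Finset ℕ} {L : ℕ → FZ} {G : ℕ → (ℕ → ℤ) → Prop}
    (hnn : ∀ τ ∈ T, ∀ ω, 0 ≤ (L τ).wt ω) (q : ZE T L → Prop) [DecidablePred q]
    (τ0 : ℕ) (hτ : τ0 ∈ T) (Q : (ℕ → ℤ) → Prop)
    (h : ∀ e : ZE T L, e.good G → q e → e.1.1 = τ0 ∧ Q e.fn) :
    ∑ e with q e, e.w G ≤ (L τ0).Pr Q := by
  have h1 := ZE.sum_le hnn q (fun τ φ => τ = τ0 ∧ Q φ) (G := G) h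
  refine h1.trans (le_of_eq ?_)
  rw [Finset.sum_eq_single τ0]
  · exact Pr_congr_h36 (by simp)
  · intro b _ hb
    exact Pr_false_h36 (by simp [hb])
  · intro h2
    exact absurd hτ h2

private theorem ZE.w_nonneg {T : Finset ℕ} {L : ℕ → FZ} {G : ℕ → (ℕ → ℤ) → Prop}
    (hnn : ∀ τ ∈ T, ∀ ω, 0 ≤ (L τ).wt ω) (e : ZE T L) : 0 ≤ e.w G := by
  unfold ZE.w
  split_ifs
  · exact hnn _ e.1.2 _
  · exact le_rfl

private theorem ZE.inl_mem {T : Finset ℕ} {L : ℕ → FZ} {p : ℕ → ℕ} {P : ℕ → Finset ℕ}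
    {G : ℕ → (ℕ → ℤ) → Prop} {e : ZE T L} {τ : ℕ} :
    (Sum.inl τ : ℕ ⊕ ℕ ⊕ ℕ) ∈ e.S p P G ↔ τ = e.1.1 := by
  unfold ZE.S
  simp

private theorem ZE.lbl_mem {T : Finset ℕ} {L : ℕ → FZ} {p : ℕ → ℕ} {P : ℕ → Finset ℕ}
    {G : ℕ → (ℕ → ℤ) → Prop} {e : ZE T L} {x : ℕ} :
    (Sum.inr (Sum.inl x) : ℕ ⊕ ℕ ⊕ ℕ) ∈ e.S p P G ↔ e.good G ∧ hL (P e.1.1) x e.fn := by
  unfold ZE.S hL
  by_cases h : e.good G <;> simp [h]

private theorem ZE.sum_mem {T : Finset ℕ} {L : ℕ → FZ} {p : ℕ → ℕ} {P : ℕ → Finset ℕ}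
    {G : ℕ → (ℕ → ℤ) → Prop} {e : ZE T L} {s : ℕ} :
    (Sum.inr (Sum.inr s) : ℕ ⊕ ℕ ⊕ ℕ) ∈ e.S p P G ↔
      e.good G ∧ hS p (P e.1.1) e.1.1 s e.fn := by
  unfold ZE.S hS
  by_cases h : e.good G
  · simp only [h, if_true, inr_mem_disjSum, true_and, mem_image, mem_erase]
    constructor
    · rintro ⟨v, ⟨h1, h2⟩, h3⟩
      exact ⟨v, h2, h1, h3⟩
    · rintro ⟨v, h1, h2, h3⟩
      exact ⟨v, ⟨h2, h1⟩, h3⟩
  · simp [h]

private theorem extract_h36 {n : ℕ} {p : ℕ → ℕ} {X S T : Finset ℕ} {P : ℕ → Finset ℕ}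
    {G : ℕ → (ℕ → ℤ) → Prop} {L : ℕ → FZ} {B : ℝ} (hG : ∀ τ ∈ T, Tr p (P τ) τ)
    (hdP : ∀ τ ∈ T, ∀ τ' ∈ T, τ ≠ τ' → Disjoint (P τ) (P τ'))
    (hUL : ∀ τ ∈ T, UL n X S p (P τ) τ B (L τ))
    (hGc : ∀ τ φ, G τ φ → cInj p (P τ) τ φ)
    (hGl : ∀ τ ∈ T, ∀ φ φ' : ℕ → ℤ, (∀ v ∈ P τ, φ v = φ' v) → G τ φ → G τ φ')
    (M : Finset (ZE T L)) (hM : ∀ e ∈ M, ∀ f ∈ M, e ≠ f → Disjoint (e.S p P G) (f.S p P G))
    (g : ZE T L → ℝ) (c : ℝ)
    (hg : ∀ e : ZE T L, e.good G → g e ≤ c * (P e.1.1).card)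
    (hg0 : ∀ e : ZE T L, ¬ e.good G → g e = 0) :
    ∃ (T' : Finset ℕ) (f : ℕ → ℤ), T' ⊆ T ∧
      (∀ τ ∈ T', ∀ v ∈ P τ, f v ∈ pm X) ∧
      (∀ τ ∈ T', ∀ v ∈ P τ, v ≠ τ → f v + f (p v) ∈ pm S) ∧
      Set.InjOn (fun v => (f v).natAbs) (T'.biUnion P) ∧
      Set.InjOn (fun v => (f v + f (p v)).natAbs) (T'.biUnion fun τ => (P τ).erase τ) ∧
      (∀ τ ∈ T', G τ f) ∧
      ∑ e ∈ M, g e ≤ c * ∑ τ ∈ T', ((P τ).card : ℝ) := by
  classical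
  set Q : Finset (ZE T L) := M.filter (fun e => e.good G) with hQdef
  have hQM : ∀ e ∈ Q, e ∈ M := fun e he => (mem_filter.1 he).1
  have hQg : ∀ e ∈ Q, e.good G := fun e he => (mem_filter.1 he).2
  have hu1 : ∀ e ∈ Q, ∀ e' ∈ Q, e.1.1 = e'.1.1 → e = e' := by
    intro e he e' he' h
    by_contra hne
    have h1 := hM e (hQM e he) e' (hQM e' he') hne
    exact Finset.disjoint_left.1 h1 (ZE.inl_mem.2 rfl) (ZE.inl_mem.2 h)
  have hu2 : ∀ e ∈ Q, ∀ e' ∈ Q, ∀ v, v ∈ P e.1.1 → v ∈ P e'.1.1 → e = e' := by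
    intro e he e' he' v hv hv'
    by_contra hne
    have h1 : e.1.1 ≠ e'.1.1 := fun h => hne (hu1 e he e' he' h)
    exact Finset.disjoint_left.1 (hdP _ e.1.2 _ e'.1.2 h1) hv hv'
  set f : ℕ → ℤ := fun v => if h : ∃ e ∈ Q, v ∈ P e.1.1 then (Classical.choose h).fn v else 0 with hf
  have k1 : ∀ e ∈ Q, ∀ v ∈ P e.1.1, f v = e.fn v := by
    intro e he v hv
    have h : ∃ e ∈ Q, v ∈ P e.1.1 := ⟨e, he, hv⟩
    have h1 := Classical.choose_spec h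
    have h2 : Classical.choose h = e := hu2 _ h1.1 _ he v h1.2 hv
    have h3 : f v = (Classical.choose h).fn v := by rw [hf]; exact dif_pos h
    rw [h3, h2]
  have k3 : ∀ e ∈ Q, ∀ v ∈ P e.1.1, v ≠ e.1.1 → f v = e.fn v ∧ f (p v) = e.fn (p v) := by
    intro e he v hv hve
    exact ⟨k1 e he v hv, k1 e he _ ((hG _ e.1.2).par v hv hve).1⟩
  have k4 : ∀ e ∈ Q, ∀ e' ∈ Q, ∀ x, hL (P e.1.1) x e.fn → hL (P e'.1.1) x e'.fn → e = e' := by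
    intro e he e' he' x h h'
    by_contra hne
    exact Finset.disjoint_left.1 (hM e (hQM e he) e' (hQM e' he') hne)
      (ZE.lbl_mem.2 ⟨hQg e he, h⟩) (ZE.lbl_mem.2 ⟨hQg e' he', h'⟩)
  have k5 : ∀ e ∈ Q, ∀ e' ∈ Q, ∀ s, hS p (P e.1.1) e.1.1 s e.fn →
      hS p (P e'.1.1) e'.1.1 s e'.fn → e = e' := by
    intro e he e' he' s h h'
    by_contra hne
    exact Finset.disjoint_left.1 (hM e (hQM e he) e' (hQM e' he') hne)
      (ZE.sum_mem.2 ⟨hQg e he, h⟩) (ZE.sum_mem.2 ⟨hQg e' he', h'⟩)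
  have hT' : ∀ τ, τ ∈ Q.image (fun e => e.1.1) ↔ ∃ e ∈ Q, e.1.1 = τ := fun τ => mem_image
  refine ⟨Q.image (fun e => e.1.1), f, ?_, ?_, ?_, ?_, ?_, ?_, ?_⟩
  · intro τ hτ
    obtain ⟨e, _, rfl⟩ := (hT' τ).1 hτ
    exact e.1.2
  · intro τ hτ v hv
    obtain ⟨e, he, rfl⟩ := (hT' τ).1 hτ
    rw [k1 e he v hv]
    exact (hUL _ e.1.2).lbl e.2 (hQg e he).1 v hv
  · intro τ hτ v hv hve
    obtain ⟨e, he, rfl⟩ := (hT' τ).1 hτ
    rw [(k3 e he v hv hve).1, (k3 e he v hv hve).2]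
    exact (hUL _ e.1.2).sm e.2 (hQg e he).1 v hv hve
  · intro v hv v' hv' hvv
    obtain ⟨τ, hτ, hv⟩ := mem_biUnion.1 (mem_coe.1 hv)
    obtain ⟨τ', hτ', hv'⟩ := mem_biUnion.1 (mem_coe.1 hv')
    obtain ⟨e, he, rfl⟩ := (hT' τ).1 hτ
    obtain ⟨e', he', rfl⟩ := (hT' τ').1 hτ'
    have hvv' : (e.fn v).natAbs = (e'.fn v').natAbs := by
      have := hvv
      simp only at this
      rw [k1 e he v hv, k1 e' he' v' hv'] at this
      exact this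
    have h1 := k4 e he e' he' (e.fn v).natAbs ⟨v, hv, rfl⟩ ⟨v', hv', hvv'.symm⟩
    subst h1
    exact (hGc _ _ (hQg e he).2).1 (mem_coe.2 hv) (mem_coe.2 hv') hvv'
  · intro v hv v' hv' hvv
    obtain ⟨τ, hτ, hv⟩ := mem_biUnion.1 (mem_coe.1 hv)
    obtain ⟨τ', hτ', hv'⟩ := mem_biUnion.1 (mem_coe.1 hv')
    obtain ⟨e, he, rfl⟩ := (hT' τ).1 hτ
    obtain ⟨e', he', rfl⟩ := (hT' τ').1 hτ'
    have hve := mem_erase.1 hv
    have hve' := mem_erase.1 hv'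
    have hvv' : (e.fn v + e.fn (p v)).natAbs = (e'.fn v' + e'.fn (p v')).natAbs := by
      have := hvv
      simp only at this
      rw [(k3 e he v hve.2 hve.1).1, (k3 e he v hve.2 hve.1).2, (k3 e' he' v' hve'.2 hve'.1).1,
        (k3 e' he' v' hve'.2 hve'.1).2] at this
      exact this
    have h1 := k5 e he e' he' _ ⟨v, hve.2, hve.1, rfl⟩ ⟨v', hve'.2, hve'.1, hvv'.symm⟩
    subst h1
    exact (hGc _ _ (hQg e he).2).2 (mem_coe.2 hv) (mem_coe.2 hv') hvv'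
  · intro τ hτ
    obtain ⟨e, he, rfl⟩ := (hT' τ).1 hτ
    exact hGl _ e.1.2 _ _ (fun v hv => (k1 e he v hv).symm) (hQg e he).2
  · rw [Finset.sum_image (f := fun τ => ((P τ).card : ℝ)) (fun e he e' he' h => hu1 e he e' he' h),
      mul_sum]
    rw [← sum_filter_add_sum_filter_not M (fun e => e.good G)]
    have z : ∑ e ∈ M with ¬ e.good G, g e = 0 :=
      sum_eq_zero fun e he => hg0 e (mem_filter.1 he).2
    rw [z, add_zero]
    exact sum_le_sum fun e he => hg e (mem_filter.1 he).2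

open Classical in
private theorem mass_h36 {n : ℕ} {p : ℕ → ℕ} {X S T : Finset ℕ} {P : ℕ → Finset ℕ}
    {G : ℕ → (ℕ → ℤ) → Prop} {L : ℕ → FZ} {B b c : ℝ} (hc : 0 ≤ c)
    (hUL : ∀ τ ∈ T, UL n X S p (P τ) τ B (L τ))
    (hb : ∀ τ ∈ T, (L τ).Pr (fun φ => ¬ G τ φ) ≤ b) :
    c * ∑ τ ∈ T, ((P τ).card : ℝ) * (1 - b) ≤
      ∑ e : ZE T L, e.w G * (if e.good G then c * (P e.1.1).card else 0) := by
  rw [ZE.sum_eq, mul_sum, ← Finset.sum_coe_sort T (fun τ => c * (((P τ).card : ℝ) * (1 - b)))]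
  refine sum_le_sum fun τ _ => ?_
  let _ := (L τ.1).fin
  have h1 : 1 - b ≤ ∑ ω : (L τ.1).Ω, (ZE.mk τ ω : ZE T L).w G := by
    have h2 := hb τ.1 τ.2
    have h3 := (hUL τ.1 τ.2).one
    unfold FZ.Pr at h2
    unfold FZ.Ex at h2 h3
    have h4 : ∑ ω : (L τ.1).Ω, (L τ.1).wt ω * 1 ≤ ∑ ω : (L τ.1).Ω, ((ZE.mk τ ω : ZE T L).w G +
        (L τ.1).wt ω * (if ¬ G τ.1 ((L τ.1).Φ ω) then (1 : ℝ) else 0)) := by
      refine sum_le_sum fun ω _ => ?_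
      have h0 := (hUL τ.1 τ.2).nn ω
      by_cases hi : G τ.1 ((L τ.1).Φ ω)
      · by_cases hw : (L τ.1).wt ω = 0
        · rw [hw]
          have := ZE.w_nonneg (G := G) (fun τ hτ => (hUL τ hτ).nn) (ZE.mk τ ω : ZE T L)
          linarith
        · have hgd : (ZE.mk τ ω : ZE T L).good G := ⟨hw, hi⟩
          unfold ZE.w
          rw [if_pos hgd, if_neg (not_not.2 hi)]
          show (L τ.1).wt ω * 1 ≤ (L τ.1).wt ω + _
          linarith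
      · rw [if_pos hi]
        have := ZE.w_nonneg (G := G) (fun τ hτ => (hUL τ hτ).nn) (ZE.mk τ ω : ZE T L)
        linarith
    rw [sum_add_distrib] at h4
    have h5 : ∑ ω : (L τ.1).Ω, (L τ.1).wt ω * 1 = 1 := h3
    have h6 : ∑ ω : (L τ.1).Ω, (L τ.1).wt ω * (if ¬ G τ.1 ((L τ.1).Φ ω) then (1 : ℝ) else 0) ≤ b := by
      refine le_trans (le_of_eq (sum_congr rfl fun ω _ => ?_)) h2
      by_cases hh : G τ.1 ((L τ.1).Φ ω)
      · rw [if_neg (not_not.2 hh)]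
        dsimp only
        rw [if_neg (not_not.2 hh)]
      · rw [if_pos hh]
        dsimp only
        rw [if_pos hh]
    linarith
  have h2 : ∑ ω : (L τ.1).Ω, (ZE.mk τ ω : ZE T L).w G *
      (if (ZE.mk τ ω : ZE T L).good G then c * (P (ZE.mk τ ω : ZE T L).1.1).card else 0) =
      (c * (P τ.1).card) * ∑ ω : (L τ.1).Ω, (ZE.mk τ ω : ZE T L).w G := by
    rw [mul_sum]
    refine sum_congr rfl fun ω _ => ?_
    by_cases hgd : (ZE.mk τ ω : ZE T L).good G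
    · rw [if_pos hgd]
      show _ * (c * ((P τ.1).card : ℝ)) = _
      ring
    · unfold ZE.w
      rw [if_neg hgd, if_neg hgd]
      ring
  refine le_trans ?_ (le_of_eq h2.symm)
  have h3 : 0 ≤ c * ((P τ.1).card : ℝ) := by positivity
  calc c * (((P τ.1).card : ℝ) * (1 - b)) = (c * (P τ.1).card) * (1 - b) := by ring
    _ ≤ _ := mul_le_mul_of_nonneg_left h1 h3

open Classical in
private theorem inst_h36 {K n : ℕ} {B C δN : ℝ} {p : ℕ → ℕ} {X S T : Finset ℕ}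
    {P : ℕ → Finset ℕ} {G : ℕ → (ℕ → ℤ) → Prop} {L : ℕ → FZ} (hK : 1 ≤ K) (hn : 1 ≤ n) (hB : 1 ≤ B)
    (hX : X ⊆ LC n) (hX4 : n ≤ 4 * X.card) (hS4 : n ≤ 4 * S.card)
    (hC : C = 16 * (K : ℝ) ^ 2 * B ^ 4) (hCδ : C / n ≤ δN) (hKδ : 4 * (K : ℝ) / n ≤ δN)
    (hTn : (T.card : ℝ) ≤ n)
    (hG : ∀ τ ∈ T, Tr p (P τ) τ) (hPK : ∀ τ ∈ T, (P τ).card ≤ K)
    (hsX : ∑ τ ∈ T, (P τ).card ≤ X.card) (hsS : ∑ τ ∈ T, ((P τ).card - 1) ≤ S.card)
    (hUL : ∀ τ ∈ T, UL n X S p (P τ) τ B (L τ)) :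
    Inst (2 * K) δN (T.disjSum (X.disjSum S)) (fun e : ZE T L => e.S p P G)
      (fun e => e.w G) := by
  have hnpos : (0 : ℝ) < n := by exact_mod_cast hn
  have hC0 : 0 ≤ C := by rw [hC]; positivity
  have hnn : ∀ τ ∈ T, ∀ ω, 0 ≤ (L τ).wt ω := fun τ hτ => (hUL τ hτ).nn
  have hδN : 0 ≤ δN := le_trans (by positivity) hCδ
  have hX4' : (n : ℝ) ≤ 4 * X.card := by exact_mod_cast hX4
  have hS4' : (n : ℝ) ≤ 4 * S.card := by exact_mod_cast hS4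
  have hX0 : (0 : ℝ) < X.card := by linarith
  have hS0 : (0 : ℝ) < S.card := by linarith
  have hpr := fun τ (hτ : τ ∈ T) => pr_pair (hUL τ hτ) (hG τ hτ) (hPK τ hτ) hB hn hX
  rw [← hC] at hpr
  have hKX : (K : ℝ) / X.card ≤ 4 * K / n := by
    rw [div_le_div_iff₀ hX0 hnpos]
    have : (0 : ℝ) ≤ K := by positivity
    nlinarith
  have hKS : (K : ℝ) / S.card ≤ 4 * K / n := by
    rw [div_le_div_iff₀ hS0 hnpos]
    have : (0 : ℝ) ≤ K := by positivity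
    nlinarith
  have b1 : ∀ τ ∈ T, ∀ a, (L τ).Pr (hL (P τ) a) ≤ δN := by
    intro τ hτ a
    refine (pr_hL (hUL τ hτ) a).trans (le_trans ?_ (hKX.trans hKδ))
    exact div_le_div_of_nonneg_right (by exact_mod_cast hPK τ hτ) hX0.le
  have b2 : ∀ τ ∈ T, ∀ s, (L τ).Pr (hS p (P τ) τ s) ≤ δN := by
    intro τ hτ s
    refine (pr_hS (hUL τ hτ) (hG τ hτ).root s).trans (le_trans ?_ (hKS.trans hKδ))
    refine div_le_div_of_nonneg_right ?_ hS0.le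
    have : ((P τ).card : ℝ) ≤ K := by exact_mod_cast hPK τ hτ
    linarith
  have hcnn : (T.card : ℝ) * (C / n ^ 2) ≤ δN := by
    calc (T.card : ℝ) * (C / n ^ 2) ≤ n * (C / n ^ 2) := mul_le_mul_of_nonneg_right hTn (by positivity)
      _ = C / n := by field_simp
      _ ≤ δN := hCδ
  have hsym : ∀ u v : ℕ ⊕ ℕ ⊕ ℕ, ∑ e : ZE T L with (u ∈ e.S p P G ∧ v ∈ e.S p P G), e.w G =
      ∑ e : ZE T L with (v ∈ e.S p P G ∧ u ∈ e.S p P G), e.w G := by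
    intro u v
    refine sum_congr ?_ fun _ _ => rfl
    ext e
    simp only [mem_filter, and_comm]
  have cPL : ∀ τ ∈ T, ∀ x, ∑ e : ZE T L with ((Sum.inl τ : ℕ ⊕ ℕ ⊕ ℕ) ∈ e.S p P G ∧
      (Sum.inr (Sum.inl x) : ℕ ⊕ ℕ ⊕ ℕ) ∈ e.S p P G), e.w G ≤ δN := by
    intro τ hτ x
    refine (ZE.sum_le_one hnn _ τ hτ (hL (P τ) x) ?_).trans (b1 τ hτ x)
    intro e _ hq
    have h1 := ZE.inl_mem.1 hq.1
    have h2 := (ZE.lbl_mem.1 hq.2).2
    subst h1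
    exact ⟨rfl, h2⟩
  have cPS : ∀ τ ∈ T, ∀ s, ∑ e : ZE T L with ((Sum.inl τ : ℕ ⊕ ℕ ⊕ ℕ) ∈ e.S p P G ∧
      (Sum.inr (Sum.inr s) : ℕ ⊕ ℕ ⊕ ℕ) ∈ e.S p P G), e.w G ≤ δN := by
    intro τ hτ s
    refine (ZE.sum_le_one hnn _ τ hτ (hS p (P τ) τ s) ?_).trans (b2 τ hτ s)
    intro e _ hq
    have h1 := ZE.inl_mem.1 hq.1
    have h2 := (ZE.sum_mem.1 hq.2).2
    subst h1
    exact ⟨rfl, h2⟩
  have cLL : ∀ x x', x ≠ x' → ∑ e : ZE T L with ((Sum.inr (Sum.inl x) : ℕ ⊕ ℕ ⊕ ℕ) ∈ e.S p P G ∧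
      (Sum.inr (Sum.inl x') : ℕ ⊕ ℕ ⊕ ℕ) ∈ e.S p P G), e.w G ≤ δN := by
    intro x x' hne
    refine (ZE.sum_le hnn _ (fun τ φ => hL (P τ) x φ ∧ hL (P τ) x' φ) ?_).trans ?_
    · intro e _ hq
      exact ⟨(ZE.lbl_mem.1 hq.1).2, (ZE.lbl_mem.1 hq.2).2⟩
    · refine (sum_le_card_nsmul _ _ _ fun τ hτ => (hpr τ hτ).1 x x' hne).trans ?_
      rw [nsmul_eq_mul]
      exact hcnn
  have cSS : ∀ s s', s ≠ s' → ∑ e : ZE T L with ((Sum.inr (Sum.inr s) : ℕ ⊕ ℕ ⊕ ℕ) ∈ e.S p P G ∧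
      (Sum.inr (Sum.inr s') : ℕ ⊕ ℕ ⊕ ℕ) ∈ e.S p P G), e.w G ≤ δN := by
    intro s s' hne
    refine (ZE.sum_le hnn _ (fun τ φ => hS p (P τ) τ s φ ∧ hS p (P τ) τ s' φ) ?_).trans ?_
    · intro e _ hq
      exact ⟨(ZE.sum_mem.1 hq.1).2, (ZE.sum_mem.1 hq.2).2⟩
    · refine (sum_le_card_nsmul _ _ _ fun τ hτ => (hpr τ hτ).2.2 s s' hne).trans ?_
      rw [nsmul_eq_mul]
      exact hcnn
  have cLS : ∀ x s, ∑ e : ZE T L with ((Sum.inr (Sum.inl x) : ℕ ⊕ ℕ ⊕ ℕ) ∈ e.S p P G ∧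
      (Sum.inr (Sum.inr s) : ℕ ⊕ ℕ ⊕ ℕ) ∈ e.S p P G), e.w G ≤ δN := by
    intro x s
    refine (ZE.sum_le hnn _ (fun τ φ => hL (P τ) x φ ∧ hS p (P τ) τ s φ) ?_).trans ?_
    · intro e _ hq
      exact ⟨(ZE.lbl_mem.1 hq.1).2, (ZE.sum_mem.1 hq.2).2⟩
    · refine (sum_le_card_nsmul _ _ _ fun τ hτ => (hpr τ hτ).2.1 x s).trans ?_
      rw [nsmul_eq_mul]
      exact hcnn
  refine ⟨?_, ?_, ?_, ?_, ?_, ?_, ?_⟩
  · -- sub
    intro e u hu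
    rcases u with τ | x | s
    · rw [ZE.inl_mem] at hu
      rw [inl_mem_disjSum, hu]; exact e.1.2
    · obtain ⟨hg, v, hv, rfl⟩ := ZE.lbl_mem.1 hu
      rw [inr_mem_disjSum, inl_mem_disjSum]
      exact mem_pm.1 ((hUL _ e.1.2).lbl e.2 hg.1 v hv)
    · obtain ⟨hg, v, hv, hve, rfl⟩ := ZE.sum_mem.1 hu
      rw [inr_mem_disjSum, inr_mem_disjSum]
      exact mem_pm.1 ((hUL _ e.1.2).sm e.2 hg.1 v hv hve)
  · intro e
    exact ⟨Sum.inl e.1.1, ZE.inl_mem.2 rfl⟩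
  · -- card
    intro e
    have h1 := hPK _ e.1.2
    have h2 : ((P e.1.1).erase e.1.1).card = (P e.1.1).card - 1 :=
      card_erase_of_mem (hG _ e.1.2).root
    have h2' : 0 < (P e.1.1).card := card_pos.2 ⟨_, (hG _ e.1.2).root⟩
    show (e.S p P G).card ≤ _
    unfold ZE.S
    rw [card_disjSum, card_disjSum, card_singleton]
    split_ifs
    · have h4 : ((P e.1.1).image fun v => (e.fn v).natAbs).card ≤ K := card_image_le.trans h1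
      have h5 : (((P e.1.1).erase e.1.1).image (fun v => (e.fn v + e.fn (p v)).natAbs)).card ≤
        (P e.1.1).card - 1 := card_image_le.trans h2.le
      omega
    · simp only [card_empty]; omega
  · exact fun e => ZE.w_nonneg hnn e
  · -- single weights
    intro e
    show e.w G ≤ δN
    by_cases hg : e.good G
    · have h1 : e ∈ (univ : Finset (ZE T L)).filter (fun e' => (Sum.inl e.1.1 : ℕ ⊕ ℕ ⊕ ℕ) ∈ e'.S p P G ∧
          (Sum.inr (Sum.inl (e.fn e.1.1).natAbs) : ℕ ⊕ ℕ ⊕ ℕ) ∈ e'.S p P G) :=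
        mem_filter.2 ⟨mem_univ _, ZE.inl_mem.2 rfl, ZE.lbl_mem.2 ⟨hg, e.1.1, (hG _ e.1.2).root, rfl⟩⟩
      have h2 := single_le_sum (f := fun e' : ZE T L => e'.w G) (fun e' _ => ZE.w_nonneg hnn e') h1
      exact h2.trans (cPL _ e.1.2 _)
    · unfold ZE.w
      rw [if_neg hg]
      exact hδN
  · -- loads
    intro u hu
    rcases u with τ | x | s
    · rw [inl_mem_disjSum] at hu
      refine (ZE.sum_le_one hnn _ τ hu (fun _ => True) ?_).trans ?_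
      · intro e _ hq
        exact ⟨(ZE.inl_mem.1 hq).symm, trivial⟩
      · have := (hUL τ hu).one
        unfold FZ.Pr
        simpa using this.le
    · rw [inr_mem_disjSum, inl_mem_disjSum] at hu
      refine (ZE.sum_le hnn _ (fun τ φ => hL (P τ) x φ) ?_).trans
        ((sum_le_sum fun τ hτ => pr_hL (hUL τ hτ) x).trans ?_)
      · intro e _ hq
        exact (ZE.lbl_mem.1 hq).2
      · rw [← sum_div, div_le_one hX0]
        exact_mod_cast hsX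
    · rw [inr_mem_disjSum, inr_mem_disjSum] at hu
      refine (ZE.sum_le hnn _ (fun τ φ => hS p (P τ) τ s φ) ?_).trans
        ((sum_le_sum fun τ hτ => pr_hS (hUL τ hτ) (hG τ hτ).root s).trans ?_)
      · intro e _ hq
        exact (ZE.sum_mem.1 hq).2
      · rw [← sum_div, div_le_one hS0]
        have h1 : ∑ τ ∈ T, (((P τ).card : ℝ) - 1) = ((∑ τ ∈ T, ((P τ).card - 1) : ℕ) : ℝ) := by
          rw [Nat.cast_sum]
          refine sum_congr rfl fun τ hτ => ?_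
          rw [Nat.cast_sub (card_pos.2 ⟨τ, (hG τ hτ).root⟩), Nat.cast_one]
        rw [h1]
        exact_mod_cast hsS
  · -- codegrees
    intro u hu v hv huv
    rcases u with τ | x | s <;> rcases v with τ' | x' | s'
    · have : ((univ : Finset (ZE T L)).filter fun e => (Sum.inl τ : ℕ ⊕ ℕ ⊕ ℕ) ∈ e.S p P G ∧
          (Sum.inl τ' : ℕ ⊕ ℕ ⊕ ℕ) ∈ e.S p P G) = ∅ := by
        rw [filter_eq_empty_iff]
        rintro e _ ⟨h1, h2⟩
        exact huv (by rw [ZE.inl_mem.1 h1, ZE.inl_mem.1 h2])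
      rw [this, sum_empty]; exact hδN
    · exact cPL τ (inl_mem_disjSum.1 hu) x'
    · exact cPS τ (inl_mem_disjSum.1 hu) s'
    · rw [hsym]; exact cPL τ' (inl_mem_disjSum.1 hv) x
    · exact cLL x x' (fun h => huv (by rw [h]))
    · exact cLS x s'
    · rw [hsym]; exact cPS τ' (inl_mem_disjSum.1 hv) s
    · rw [hsym]; exact cLS x' s
    · exact cSS s s' (fun h => huv (by rw [h]))

private theorem card_LC_h36 {n : ℕ} {X : Finset ℕ} (hX : X ⊆ LC n) : X.card ≤ n := by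
  refine (card_le_card hX).trans ?_
  unfold LC
  refine (card_filter_le _ _).trans ?_
  rw [Nat.card_Icc]
  omega

private theorem card_SC_h36 {n : ℕ} {X : Finset ℕ} (hX : X ⊆ SC n) : X.card ≤ n := by
  refine (card_le_card hX).trans ?_
  unfold SC
  refine (card_filter_le _ _).trans ?_
  rw [Nat.card_Icc]
  omega

theorem packing (K : ℕ) (B ε c : ℝ) (hK : 1 ≤ K) (hB : 1 ≤ B) (hε : 0 < ε) (hc : 0 ≤ c) :
    ∃ n0 : ℕ, ∀ n : ℕ, n0 ≤ n → ∀ (X S : Finset ℕ) (k : ℤ → ℤ → ℝ), EK n X S B k → X ⊆ LC n → S ⊆ SC n →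
    n ≤ 4 * X.card → n ≤ 4 * S.card →
    ∀ (p : ℕ → ℕ) (T : Finset ℕ) (P En : ℕ → Finset ℕ),
    (∀ τ ∈ T, Tr p (P τ) τ ∧ (P τ).card ≤ K ∧ En τ ⊆ P τ ∧ (En τ).card ≤ 2) →
    (∀ τ ∈ T, ∀ τ' ∈ T, τ ≠ τ' → Disjoint (P τ) (P τ')) →
    ∑ τ ∈ T, (P τ).card ≤ X.card → ∑ τ ∈ T, ((P τ).card - 1) ≤ S.card →
    ∃ T' ⊆ T, ∃ g : ℕ → ℤ,
      (∀ τ ∈ T', ∀ v ∈ P τ, g v ∈ pm X) ∧
      (∀ τ ∈ T', ∀ v ∈ P τ, v ≠ τ → g v + g (p v) ∈ pm S) ∧
      Set.InjOn (fun v => (g v).natAbs) (T'.biUnion P) ∧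
      Set.InjOn (fun v => (g v + g (p v)).natAbs) (T'.biUnion fun τ => (P τ).erase τ) ∧
      (∀ τ ∈ T', ∀ v ∈ En τ, |(g v : ℝ)| ≤ (1 - c) * n) ∧
      ((∑ τ ∈ T \ T', (P τ).card : ℕ) : ℝ) ≤ (4 * c + ε) * n := by
  classical
  obtain ⟨δN, hδN, hnib⟩ := nibble (2 * K) (ε / (8 * K)) (by positivity)
  set B' : ℝ := max B 2 with hB'
  have hB1 : 1 ≤ B' := hB.trans (le_max_left _ _)
  have hB0 : 0 < B' := by linarith
  set C : ℝ := 16 * (K : ℝ) ^ 2 * B' ^ 4 with hC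
  have hC0 : 0 ≤ C := by positivity
  have hK0 : (0 : ℝ) < K := by exact_mod_cast hK
  obtain ⟨n0, hn0⟩ := exists_nat_gt (max ((C + 4 * K) / δN) ((20 + 80 * (K : ℝ) ^ 2 * B' ^ 4) / ε))
  refine ⟨max n0 1, ?_⟩
  intro n hn X S k hk hX hS hX4 hS4 p T P En hT hdP hsX hsS
  have hn1 : 1 ≤ n := le_trans (le_max_right _ _) hn
  have hnpos : (0 : ℝ) < n := by exact_mod_cast hn1
  have hn0n : (n0 : ℝ) ≤ n := by exact_mod_cast le_trans (le_max_left _ _) hn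
  have e1 : (C + 4 * K) / δN < n := lt_of_lt_of_le (lt_of_le_of_lt (le_max_left _ _) hn0) hn0n
  have e2 : (20 + 80 * (K : ℝ) ^ 2 * B' ^ 4) / ε < n :=
    lt_of_lt_of_le (lt_of_le_of_lt (le_max_right _ _) hn0) hn0n
  rw [div_lt_iff₀ hδN] at e1
  rw [div_lt_iff₀ hε] at e2
  have hTr : ∀ τ ∈ T, Tr p (P τ) τ := fun τ hτ => (hT τ hτ).1
  have hPK : ∀ τ ∈ T, (P τ).card ≤ K := fun τ hτ => (hT τ hτ).2.1
  have hXn : X.card ≤ n := card_LC_h36 hX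
  have hSn : S.card ≤ n := card_SC_h36 hS
  have hTP : T.card ≤ ∑ τ ∈ T, (P τ).card := by
    rw [card_eq_sum_ones]
    exact sum_le_sum fun τ hτ => card_pos.2 ⟨τ, (hTr τ hτ).root⟩
  have hTn : T.card ≤ n := hTP.trans (hsX.trans hXn)
  -- the laws
  have hlaw : ∀ τ : ℕ, ∃ L : FZ, τ ∈ T → UL n X S p (P τ) τ B' L := by
    intro τ
    by_cases hτ : τ ∈ T
    · obtain ⟨L, hL1⟩ := law hk hX hS hn1 hX4 p (P τ) τ (hTr τ hτ)
      exact ⟨L, fun _ => hL1⟩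
    · exact ⟨⟨Unit, inferInstance, fun _ => 0, fun _ _ => 0⟩, fun h => absurd h hτ⟩
  choose L hL0 using hlaw
  have hUL : ∀ τ ∈ T, UL n X S p (P τ) τ B' (L τ) := fun τ hτ => hL0 τ hτ
  set G : ℕ → (ℕ → ℤ) → Prop := fun τ φ => cInj p (P τ) τ φ ∧ ∀ v ∈ En τ, |(φ v : ℝ)| ≤ (1 - c) * n with hG
  have hCδ : C / n ≤ δN := by
    rw [div_le_iff₀ hnpos]
    have : 0 ≤ 4 * (K : ℝ) := by positivity
    linarith
  have hKδ : 4 * (K : ℝ) / n ≤ δN := by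
    rw [div_le_iff₀ hnpos]
    linarith
  have hI := inst_h36 (G := G) (K := K) hK hn1 hB1 hX hX4 hS4 hC hCδ hKδ (by exact_mod_cast hTn) hTr hPK
    hsX hsS hUL
  set g : ZE T L → ℝ := fun e => if e.good G then (1 / (K : ℝ)) * (P e.1.1).card else 0 with hg
  have hg01 : ∀ e, 0 ≤ g e ∧ g e ≤ 1 := by
    intro e
    show 0 ≤ (if e.good G then (1 / (K : ℝ)) * (P e.1.1).card else 0) ∧
      (if e.good G then (1 / (K : ℝ)) * (P e.1.1).card else 0) ≤ 1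
    split_ifs
    · refine ⟨by positivity, ?_⟩
      have : ((P e.1.1).card : ℝ) ≤ K := by exact_mod_cast hPK _ e.1.2
      rw [one_div, inv_mul_le_iff₀ hK0, mul_one]
      exact this
    · exact ⟨le_rfl, zero_le_one⟩
  obtain ⟨M, hM, hMg⟩ := hnib (ZE T L) (ℕ ⊕ ℕ ⊕ ℕ) _ _ _ g hI hg01
  have hGl : ∀ τ ∈ T, ∀ φ φ' : ℕ → ℤ, (∀ v ∈ P τ, φ v = φ' v) → G τ φ → G τ φ' := by
    intro τ hτ φ φ' h hGφ
    obtain ⟨⟨h1, h2⟩, h3⟩ := hGφ
    refine ⟨⟨?_, ?_⟩, ?_⟩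
    · intro a ha b hb hab
      have hab' : (φ' a).natAbs = (φ' b).natAbs := hab
      rw [← h a (mem_coe.1 ha), ← h b (mem_coe.1 hb)] at hab'
      exact h1 ha hb hab'
    · intro a ha b hb hab
      have ha' := mem_erase.1 (mem_coe.1 ha)
      have hb' := mem_erase.1 (mem_coe.1 hb)
      have hab' : (φ' a + φ' (p a)).natAbs = (φ' b + φ' (p b)).natAbs := hab
      rw [← h a ha'.2, ← h b hb'.2, ← h _ ((hTr τ hτ).par a ha'.2 ha'.1).1,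
        ← h _ ((hTr τ hτ).par b hb'.2 hb'.1).1] at hab'
      exact h2 ha hb hab'
    · intro v hv
      rw [← h v ((hT τ hτ).2.2.1 hv)]
      exact h3 v hv
  obtain ⟨T', f, h1, h2, h3, h4, h5, h6, h7⟩ := extract_h36 (c := 1 / (K : ℝ)) hTr hdP hUL
    (fun τ φ h => h.1) hGl M hM g
    (fun e he => by rw [hg]; dsimp only; rw [if_pos he]) (fun e he => by rw [hg]; dsimp only; rw [if_neg he])
  refine ⟨T', h1, f, h2, h3, h4, h5, fun τ hτ => (h6 τ hτ).2, ?_⟩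
  set b : ℝ := 40 * (K : ℝ) ^ 2 * B' ^ 4 / n + (4 * c + 10 / n) with hb
  have hb0 : 0 ≤ b := by positivity
  have hmass := mass_h36 (G := G) (c := 1 / (K : ℝ)) (b := b) (by positivity) hUL (fun τ hτ => by
    have q1 := pr_inj (hUL τ hτ) (hTr τ hτ) (hPK τ hτ) hB1 hn1 hX
    have q2 := pr_big (hUL τ hτ) hX hX4 hn1 (hT τ hτ).2.2.1 (hT τ hτ).2.2.2 hc
    refine (Pr_or_h36 (hUL τ hτ).nn (Q := fun φ => ¬ cInj p (P τ) τ φ)
      (Q' := fun φ => ∃ v ∈ En τ, (1 - c) * n < |(φ v : ℝ)|) ?_).trans (add_le_add q1 q2)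
    intro φ hφ
    by_cases hi : cInj p (P τ) τ φ
    · right
      by_contra hcon
      push Not at hcon
      exact hφ ⟨hi, hcon⟩
    · exact Or.inl hi)
  have hVS : ((T.disjSum (X.disjSum S)).card : ℝ) ≤ 3 * n := by
    rw [card_disjSum, card_disjSum]
    push_cast
    have a3 : (X.card : ℝ) ≤ n := by exact_mod_cast hXn
    have a4 : (S.card : ℝ) ≤ n := by exact_mod_cast hSn
    have a5 : (T.card : ℝ) ≤ n := by exact_mod_cast hTn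
    linarith
  have hPsum : ∑ τ ∈ T, ((P τ).card : ℝ) ≤ n := by
    have := hsX.trans hXn
    exact_mod_cast this
  have hsplit : ((∑ τ ∈ T \ T', (P τ).card : ℕ) : ℝ) + ∑ τ ∈ T', ((P τ).card : ℝ) = ∑ τ ∈ T, ((P τ).card : ℝ) := by
    push_cast
    exact sum_sdiff h1
  have hε8 : ε / (8 * K) * ((T.disjSum (X.disjSum S)).card : ℝ) ≤ (1 / K) * (3 / 8 * ε * n) := by
    calc ε / (8 * K) * ((T.disjSum (X.disjSum S)).card : ℝ) ≤ ε / (8 * K) * (3 * n) :=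
          mul_le_mul_of_nonneg_left hVS (by positivity)
      _ = (1 / K) * (3 / 8 * ε * n) := by field_simp
  have hm2 : (1 / (K : ℝ)) * (∑ τ ∈ T, ((P τ).card : ℝ) - n * b) ≤
      1 / (K : ℝ) * ∑ τ ∈ T, ((P τ).card : ℝ) * (1 - b) := by
    refine mul_le_mul_of_nonneg_left ?_ (by positivity)
    rw [← sum_mul]
    have : (∑ τ ∈ T, ((P τ).card : ℝ)) * b ≤ n * b :=
      mul_le_mul_of_nonneg_right hPsum hb0
    linarith
  have hfin : (1 / (K : ℝ)) * (∑ τ ∈ T, ((P τ).card : ℝ) - n * b) - (1 / K) * (3 / 8 * ε * n) ≤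
      (1 / (K : ℝ)) * ∑ τ ∈ T', ((P τ).card : ℝ) := by
    have hMg' : ∑ e : ZE T L, e.w G * (if e.good G then (1 / (K : ℝ)) * (P e.1.1).card else 0) -
        ε / (8 * K) * ((T.disjSum (X.disjSum S)).card : ℝ) ≤ ∑ e ∈ M, g e := hMg
    linarith
  rw [← mul_sub, mul_le_mul_iff_of_pos_left (by positivity)] at hfin
  have hnb : n * b = 40 * (K : ℝ) ^ 2 * B' ^ 4 + 10 + 4 * c * n := by
    rw [hb]
    field_simp
    ring
  have : 40 * (K : ℝ) ^ 2 * B' ^ 4 + 10 ≤ 1 / 2 * ε * n := by linarith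
  have h9 : 0 ≤ ε * n := by positivity
  rw [add_mul]
  linarith

end Pool.Agent.BD
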