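import Pool.Agent.Helper73.BD.P2
import Pool.Agent.Helper73.BD.CN
import Pool.Agent.Helper73.BD.KD
import Pool.Agent.Helper73.BD.PC

/-!
# BD-P3: the exact kernel and the packing, applied to the state `S1`

Proof in words.  `exists_EK` gives `B, ζ0, n1`; `ζ = min ζ0 1 / 100`; for given `K, ε'` take `n0 = max (n1, the number of packing K B ε' 0, 10^4)`.
`X = LC n \ (KL ∪ FXs ∪ Lc)`, `S = SC n \ (KS ∪ FSs ∪ Sc)`.
Sizes: `2|KL| = |A|`, `|A| ≤ |E| + 2|Bd| + 2|Cl|`, `2|KS| + 1 = #EdI A ≤ |A|`, `|Lc| ≤ |Fl| ≤ |Cl|`, `|Sc| ≤ #EdT p Fl CO ≤ |Fl ∪ CO| ≤ |Cl|`; so `|LC n \ X|, |SC n \ S| ≤ 3 ζ n ≤ ζ0 n`, and `4|X|, 4|S| ≥ n` (`|LC n| = n/2`,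
`|SC n| = n/2 - 1`).
Exact sizes: `|LC n| = n/2 = |KL| + |X| + |FXs| + |Lc|` (disjoint), `counts`: `n = |E| + 2(|Bd| + |CN| + |Cl| + |Rs| + |Mn|)`, `|A| = |E| + 2|Bd| + 2(|Cl| - |Fl|)` (`ι` injective on `Q`, `ι(Q)` disjoint from `E ∪ Q`),
`|Lc| = |Fl| - a`, `a = |FXs| - |CN| - |Rs|`; so `|X| = |Mn| = ∑_T |P t|`.  In the same way `|S| = ∑_T (|P t| - 1)` with the third statement of `counts`.
Then `packing` with `c = 0` and `En = ∅` (empty sets).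
-/

set_option autoImplicit false

namespace Pool.Agent.BD

open Finset Pool.Agent.SEM

private theorem card_LC_4 {n : ℕ} (hn2 : Even n) : 2 * (LC n).card = n := by
  obtain ⟨m, rfl⟩ := hn2
  have h : LC (m + m) = (range m).image (fun k => 2 * k + 1) := by
    ext x
    rw [mem_LC, mem_image]
    constructor
    · rintro ⟨⟨h1, h2⟩, k, hk⟩
      exact ⟨k, mem_range.2 (by omega), by omega⟩
    · rintro ⟨k, hk, rfl⟩
      rw [mem_range] at hk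
      exact ⟨⟨by omega, by omega⟩, ⟨k, rfl⟩⟩
  rw [h, card_image_of_injective, card_range]
  · omega
  · intro a b hab
    simp only at hab
    omega

private theorem card_SC_4 {n : ℕ} (hn2 : Even n) (hn : 2 ≤ n) : 2 * (SC n).card + 2 = n := by
  obtain ⟨m, rfl⟩ := hn2
  have h : SC (m + m) = (range (m - 1)).image (fun k => 2 * k + 2) := by
    ext x
    rw [mem_SC, mem_image]
    constructor
    · rintro ⟨⟨h1, h2⟩, k, hk⟩
      exact ⟨k - 1, mem_range.2 (by omega), by omega⟩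
    · rintro ⟨k, hk, rfl⟩
      rw [mem_range] at hk
      exact ⟨⟨by omega, by omega⟩, ⟨k + 1, by ring⟩⟩
  rw [h, card_image_of_injective, card_range]
  · omega
  · intro a b hab
    simp only at hab
    omega

/-- size of the labelled set before the packing -/
private theorem cardA_4 {n D K : ℕ} {p ι : ℕ → ℕ} {E Bd CN Cl Rs Mn T Fl : Finset ℕ} {P En : ℕ → Finset ℕ}
    (hT : Twin n D p ι E Bd (QQ Bd CN Cl Rs Mn)) (hdv : Dvs n D K p Bd CN Cl Rs Mn T P En) (hFl : Fl ⊆ Cl) :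
    (E ∪ (Bd ∪ (Cl \ Fl)) ∪ (Bd ∪ (Cl \ Fl)).image ι).card + 2 * Fl.card =
      E.card + 2 * Bd.card + 2 * Cl.card := by
  have hΛQ : Bd ∪ (Cl \ Fl) ⊆ QQ Bd CN Cl Rs Mn := by
    intro v hv
    unfold QQ
    simp only [mem_union, mem_sdiff] at hv ⊢
    tauto
  have h1 : Disjoint E (Bd ∪ (Cl \ Fl)) := disjoint_of_subset_right hΛQ hT.EQ
  have h2 : Disjoint (E ∪ (Bd ∪ (Cl \ Fl))) ((Bd ∪ (Cl \ Fl)).image ι) := by
    rw [disjoint_left]
    intro x hx hx'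
    obtain ⟨v, hv, rfl⟩ := mem_image.1 hx'
    have h := hT.ιn v (hΛQ hv)
    rcases mem_union.1 hx with h' | h'
    · exact h.2.2 h'
    · exact h.2.1 (hΛQ h')
  have h3 : ((Bd ∪ (Cl \ Fl)).image ι).card = (Bd ∪ (Cl \ Fl)).card :=
    card_image_of_injOn (hT.ιinj.mono (by exact_mod_cast hΛQ))
  have h4 : (Bd ∪ (Cl \ Fl)).card = Bd.card + (Cl \ Fl).card := by
    apply card_union_of_disjoint
    have h := hdv.d2
    rw [disjoint_union_left] at h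
    exact disjoint_of_subset_right sdiff_subset h.1
  have h5 : (Cl \ Fl).card + Fl.card = Cl.card := card_sdiff_add_card_eq_card hFl
  rw [card_union_of_disjoint h2, card_union_of_disjoint h1, h3, h4]
  omega

/-- sizes of `X` and `S` -/
private theorem sizes_4 {n D K e a b : ℕ} {p ι q : ℕ → ℕ} {E Bd CN Cl Rs Mn T Fl CO Fd : Finset ℕ}
    {P En : ℕ → Finset ℕ} {L1 L2 : List (ℤ × ℤ)} {Lc Sc KL KS : Finset ℕ} {F : ℕ → ℤ}
    (hn2 : Even n) (hn : 2 ≤ n)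
    (hT : Twin n D p ι E Bd (QQ Bd CN Cl Rs Mn)) (hdv : Dvs n D K p Bd CN Cl Rs Mn T P En)
    (h : S1 n D e a b p ι q E Bd CN Cl Rs Mn Fl CO Fd L1 L2 Lc Sc KL KS F)
    (ha : a + CN.card + Rs.card = (FXs n D q).card)
    (hb : b + (EdT p (CN ∪ Rs) (Bd ∪ Cl ∪ Mn)).card = (FSs n D e q).card) :
    (LC n \ (KL ∪ FXs n D q ∪ Lc)).card = ∑ t ∈ T, (P t).card ∧
    (SC n \ (KS ∪ FSs n D e q ∪ Sc)).card = ∑ t ∈ T, ((P t).card - 1) ∧
    (LC n \ (KL ∪ FXs n D q ∪ Lc)).card + (KL.card + (FXs n D q).card + Lc.card) = (LC n).card ∧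
    (SC n \ (KS ∪ FSs n D e q ∪ Sc)).card + (KS.card + (FSs n D e q).card + Sc.card) = (SC n).card ∧
    KL.card + (FXs n D q).card + Lc.card ≤ E.card + Bd.card + Cl.card + (FXs n D q).card ∧
    KS.card + (FSs n D e q).card + Sc.card ≤ 2 * (E.card + Bd.card + Cl.card + (FSs n D e q).card) := by
  have hA := cardA_4 hT hdv h.Fls
  obtain ⟨c1, c2, c3, -⟩ := counts (by omega) hT hdv h.Fls h.COs h.Fln
  have hKL := h.ls.cL
  have hKS := h.ls.cS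
  have hLc := h.Lcc
  have hSc := h.Scc
  have hLCc := card_LC_4 hn2
  have hSCc := card_SC_4 hn2 hn
  have hdL : Disjoint KL (FXs n D q) ∧ Disjoint KL Lc := disjoint_union_right.1 h.KLd
  have hdS : Disjoint KS (FSs n D e q) ∧ Disjoint KS Sc := disjoint_union_right.1 h.KSd
  have hUL : (KL ∪ FXs n D q ∪ Lc).card = KL.card + (FXs n D q).card + Lc.card := by
    rw [card_union_of_disjoint (disjoint_union_left.2 ⟨hdL.2, h.Lcd.2⟩), card_union_of_disjoint hdL.1]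
  have hUS : (KS ∪ FSs n D e q ∪ Sc).card = KS.card + (FSs n D e q).card + Sc.card := by
    rw [card_union_of_disjoint (disjoint_union_left.2 ⟨hdS.2, h.Scd.2⟩), card_union_of_disjoint hdS.1]
  have hULs : KL ∪ FXs n D q ∪ Lc ⊆ LC n :=
    union_subset (union_subset h.ls.KLs (filter_subset _ _)) h.Lcd.1
  have hUSs : KS ∪ FSs n D e q ∪ Sc ⊆ SC n :=
    union_subset (union_subset h.ls.KSs (filter_subset _ _)) h.Scd.1
  have h1 := card_sdiff_add_card_eq_card hULs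
  have h2 := card_sdiff_add_card_eq_card hUSs
  rw [hUL] at h1
  rw [hUS] at h2
  have hEdI : (EdI p (E ∪ (Bd ∪ (Cl \ Fl)) ∪ (Bd ∪ (Cl \ Fl)).image ι)).card ≤
      (E ∪ (Bd ∪ (Cl \ Fl)) ∪ (Bd ∪ (Cl \ Fl)).image ι).card := card_filter_le _ _
  have hEdT : (EdT p Fl CO).card ≤ Cl.card := by
    calc (EdT p Fl CO).card ≤ (EdI p (Fl ∪ CO)).card := card_filter_le _ _
      _ ≤ (Fl ∪ CO).card := card_filter_le _ _
      _ ≤ Cl.card := card_le_card (union_subset h.Fls (h.COs.trans sdiff_subset))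
  refine ⟨?_, ?_, h1, h2, ?_, ?_⟩ <;> omega

theorem pack_state : ∃ ζ : ℝ, 0 < ζ ∧ ζ ≤ 1 ∧ ∀ (K : ℕ) (ε' : ℝ), 1 ≤ K → 0 < ε' → ∃ n0 : ℕ, ∀ n : ℕ, n0 ≤ n → Even n →
    ∀ (D e a b : ℕ) (p ι q : ℕ → ℕ) (E Bd CN Cl Rs Mn T Fl CO Fd : Finset ℕ) (P En : ℕ → Finset ℕ) (L1 L2 : List (ℤ × ℤ))
      (Lc Sc KL KS : Finset ℕ) (F : ℕ → ℤ),
    Twin n D p ι E Bd (QQ Bd CN Cl Rs Mn) → Dvs n D K p Bd CN Cl Rs Mn T P En →
    S1 n D e a b p ι q E Bd CN Cl Rs Mn Fl CO Fd L1 L2 Lc Sc KL KS F →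
    a + CN.card + Rs.card = (FXs n D q).card → b + (EdT p (CN ∪ Rs) (Bd ∪ Cl ∪ Mn)).card = (FSs n D e q).card →
    (E.card : ℝ) + Bd.card + Cl.card + (FXs n D q).card + (FSs n D e q).card ≤ ζ * n →
    ∀ X S : Finset ℕ, X = LC n \ (KL ∪ FXs n D q ∪ Lc) → S = SC n \ (KS ∪ FSs n D e q ∪ Sc) →
    X.card = ∑ t ∈ T, (P t).card ∧ S.card = ∑ t ∈ T, ((P t).card - 1) ∧
    ∃ T' ⊆ T, ∃ g : ℕ → ℤ,
      (∀ τ ∈ T', ∀ v ∈ P τ, g v ∈ pm X) ∧
      (∀ τ ∈ T', ∀ v ∈ P τ, v ≠ τ → g v + g (p v) ∈ pm S) ∧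
      Set.InjOn (fun v => (g v).natAbs) (T'.biUnion P) ∧
      Set.InjOn (fun v => (g v + g (p v)).natAbs) (T'.biUnion fun τ => (P τ).erase τ) ∧
      ((∑ τ ∈ T \ T', (P τ).card : ℕ) : ℝ) ≤ ε' * n := by
  obtain ⟨B, ζ0, n1, hB, hζ0, hEK⟩ := exists_EK
  refine ⟨min ζ0 1 / 100, by positivity, ?_, ?_⟩
  · have := min_le_right ζ0 1
    linarith
  intro K ε' hK hε'
  obtain ⟨n2, hpk⟩ := packing K B ε' 0 hK hB hε' le_rfl
  refine ⟨max (max n1 n2) (10 ^ 4), ?_⟩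
  intro n hn hn2 D e a b p ι q E Bd CN Cl Rs Mn T Fl CO Fd P En L1 L2 Lc Sc KL KS F hT hdv hS ha hb hsz X S hX hSS
  have hn1 : n1 ≤ n := (le_max_left _ _).trans ((le_max_left _ _).trans hn)
  have hn2' : n2 ≤ n := (le_max_right _ _).trans ((le_max_left _ _).trans hn)
  have hn4 : 10 ^ 4 ≤ n := (le_max_right _ _).trans hn
  obtain ⟨x1, s1, x2, s2, x3, s3⟩ := sizes_4 hn2 (by omega) hT hdv hS ha hb
  rw [← hX] at x1 x2
  rw [← hSS] at s1 s2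
  have hXs : X ⊆ LC n := hX ▸ sdiff_subset
  have hSs : S ⊆ SC n := hSS ▸ sdiff_subset
  have hcX : (LC n \ X).card + X.card = (LC n).card := card_sdiff_add_card_eq_card hXs
  have hcS : (SC n \ S).card + S.card = (SC n).card := card_sdiff_add_card_eq_card hSs
  have hLCc := card_LC_4 hn2
  have hSCc := card_SC_4 hn2 (by omega)
  have hn0 : (0 : ℝ) ≤ n := Nat.cast_nonneg n
  have hz1 : min ζ0 1 ≤ ζ0 := min_le_left _ _
  have hz2 : min ζ0 1 ≤ 1 := min_le_right _ _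
  have hz0 : 0 < min ζ0 1 := lt_min hζ0 one_pos
  have e1 : (LC n \ X).card ≤ E.card + Bd.card + Cl.card + (FXs n D q).card := by omega
  have e2 : (SC n \ S).card ≤ 2 * (E.card + Bd.card + Cl.card + (FSs n D e q).card) := by omega
  have f1 : ((LC n \ X).card : ℝ) ≤ E.card + Bd.card + Cl.card + (FXs n D q).card := by exact_mod_cast e1
  have f2 : ((SC n \ S).card : ℝ) ≤ 2 * (E.card + Bd.card + Cl.card + (FSs n D e q).card) := by
    exact_mod_cast e2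
  have g1 : (0 : ℝ) ≤ (FXs n D q).card := Nat.cast_nonneg _
  have g2 : (0 : ℝ) ≤ (FSs n D e q).card := Nat.cast_nonneg _
  have k1 : ((LC n \ X).card : ℝ) ≤ 2 * (min ζ0 1 / 100 * n) := by
    have : (0 : ℝ) ≤ min ζ0 1 / 100 * n := by positivity
    linarith
  have k2 : ((SC n \ S).card : ℝ) ≤ 2 * (min ζ0 1 / 100 * n) := by linarith
  have m1 : 2 * (min ζ0 1 / 100 * n) ≤ ζ0 * n := by
    have : min ζ0 1 * n ≤ ζ0 * n := mul_le_mul_of_nonneg_right hz1 hn0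
    have h0 : 0 ≤ min ζ0 1 * n := by positivity
    linarith
  have m2 : 2 * (min ζ0 1 / 100 * n) ≤ n / 50 := by
    have : min ζ0 1 * n ≤ 1 * n := mul_le_mul_of_nonneg_right hz2 hn0
    linarith
  have o1 : 50 * (LC n \ X).card ≤ n := by
    have : (50 * (LC n \ X).card : ℝ) ≤ n := by linarith
    exact_mod_cast this
  have o2 : 50 * (SC n \ S).card ≤ n := by
    have : (50 * (SC n \ S).card : ℝ) ≤ n := by linarith
    exact_mod_cast this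
  obtain ⟨k, hk⟩ := hEK n hn1 hn2 X S hXs hSs (k1.trans m1) (k2.trans m1)
  refine ⟨x1, s1, ?_⟩
  obtain ⟨T', hT', g, p1, p2, p3, p4, -, p6⟩ := hpk n hn2' X S k hk hXs hSs (by omega) (by omega) p T P En
    (fun τ hτ => ⟨⟨(hdv.tree τ hτ).1, (hdv.tree τ hτ).2.1⟩, (hdv.tree τ hτ).2.2, hdv.en τ hτ⟩)
    hdv.dj x1.ge s1.ge
  refine ⟨T', hT', g, p1, p2, p3, p4, ?_⟩
  rw [mul_zero, zero_add] at p6
  exact p6

end Pool.Agent.BD
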