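import Pool.Agent.Helper73.BD.SP2

/-!
# BD-SP: special vertices

`special1`: weights `w v = #nbs v - 1 ≥ 0`.  `Va`: for every value `k ≥ 2` of `#nbs` attained on `1 ≤ v < n` choose one such `v` (at most `D - 1` vertices).  Nonleaf vertices: at least
`(n-2)/D ` of them (`∑ (#nbs v - 1) = n - 2`), so some value `k ≥ 2` is attained at least `(n-2)/D²` times; choose among these `u1, u2`, not adjacent, not in `Va ∪ {0}`.  Then an edge `(B1, p B1)` which does not touch
`Va ∪ {0, u1, u2}` (at most `D (D + 3)` edges do, there are `n - 1`).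
`h = gcd` of the `w v`, `1 ≤ v < n`, is the gcd of the `w v`, `v ∈ Va` (leaves have `w = 0`), so `h = ∑_{Va} β v w v` with integers `β` (`Finset.exists_gcd..` / iterate Bezout: `Int.gcd_eq_gcd_ab`), in
particular `w0 ∣ 0`.
`special2`: `u1, u2` leaves different from `0`; `B1`: a vertex such that `B1`, `p B1` have both exactly one child and are not `0` ... any edge not touching `0, u1, u2` and such that `#nbs B1`, `#nbs (p B1) ≤ 2`: exists because at most
`4L + 4` edges touch a vertex that is `0`, a leaf, or has at least three neighbours (`∑ over those of #nbs ≤ ...`), `L` the number of leaves.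
-/

set_option autoImplicit false

namespace Pool.Agent.BD

open Finset Pool.Agent.SEM

/-- the children -/
private def ch59 (n : ℕ) (p : ℕ → ℕ) (v : ℕ) : Finset ℕ := (range n).filter fun w => 0 < w ∧ p w = v

private theorem mem_ch59 {n : ℕ} {p : ℕ → ℕ} {v w : ℕ} : w ∈ ch59 n p v ↔ w < n ∧ 0 < w ∧ p w = v := by
  unfold ch59
  rw [mem_filter, mem_range]

private theorem mem_nbs59 {n : ℕ} {p : ℕ → ℕ} {v w : ℕ} :
    w ∈ nbs n p v ↔ w < n ∧ ((0 < v ∧ p v = w) ∨ (0 < w ∧ p w = v)) := by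
  unfold nbs
  rw [mem_filter, mem_range]
  exact Iff.rfl

private theorem card_nbs59 {n : ℕ} {p : ℕ → ℕ} (hp : Par n p) {v : ℕ} (hv : v < n) :
    (nbs n p v).card = (ch59 n p v).card + if 0 < v then 1 else 0 := by
  by_cases h0 : 0 < v
  · rw [if_pos h0]
    have h1 : nbs n p v = insert (p v) (ch59 n p v) := by
      ext w
      rw [mem_nbs59, mem_insert, mem_ch59]
      constructor
      · rintro ⟨h1, h2 | h2⟩
        · exact Or.inl h2.2.symm
        · exact Or.inr ⟨h1, h2⟩
      · rintro (h1 | h1)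
        · have := hp v h0 hv
          exact ⟨by omega, Or.inl ⟨h0, h1.symm⟩⟩
        · exact ⟨h1.1, Or.inr h1.2⟩
    rw [h1, card_insert_of_notMem]
    rw [mem_ch59]
    rintro ⟨h2, h3, h4⟩
    have h5 := hp v h0 hv
    have h6 := hp (p v) h3 h2
    omega
  · rw [if_neg h0, add_zero]
    congr 1
    ext w
    rw [mem_nbs59, mem_ch59]
    constructor
    · rintro ⟨h1, h2 | h2⟩
      · exact absurd h2.1 h0
      · exact ⟨h1, h2⟩
    · rintro ⟨h1, h2⟩
      exact ⟨h1, Or.inr h2⟩

private theorem sum_ch59 {n : ℕ} {p : ℕ → ℕ} (S : Finset ℕ) :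
    ((Ico 1 n).filter fun i => p i ∈ S).card = ∑ v ∈ S, (ch59 n p v).card := by
  have hmap : ∀ i ∈ (Ico 1 n).filter (fun i => p i ∈ S), p i ∈ S := fun i hi => (mem_filter.1 hi).2
  rw [card_eq_sum_card_fiberwise hmap]
  refine sum_congr rfl fun v hv => ?_
  congr 1
  ext w
  rw [mem_filter, mem_filter, mem_Ico, mem_ch59]
  constructor
  · rintro ⟨⟨⟨h1, h2⟩, _⟩, h4⟩
    exact ⟨h2, h1, h4⟩
  · rintro ⟨h1, h2, h3⟩
    exact ⟨⟨⟨h2, h1⟩, by rw [h3]; exact hv⟩, h3⟩

private theorem bez59 (f : ℕ → ℕ) (S : Finset ℕ) :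
    ∃ β : ℕ → ℤ, ∑ v ∈ S, β v * (f v : ℤ) = ((S.gcd f : ℕ) : ℤ) := by
  classical
  induction S using Finset.induction_on with
  | empty => exact ⟨fun _ => 0, by simp⟩
  | insert a S ha ih =>
    obtain ⟨β, hβ⟩ := ih
    refine ⟨fun v => if v = a then Nat.gcdA (f a) (S.gcd f) else Nat.gcdB (f a) (S.gcd f) * β v, ?_⟩
    rw [sum_insert ha, Finset.gcd_insert]
    have h1 : ∑ v ∈ S, (if v = a then Nat.gcdA (f a) (S.gcd f) else Nat.gcdB (f a) (S.gcd f) * β v) * (f v : ℤ) =
        Nat.gcdB (f a) (S.gcd f) * ((S.gcd f : ℕ) : ℤ) := by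
      rw [← hβ, mul_sum]
      refine sum_congr rfl fun v hv => ?_
      have h2 : v ≠ a := fun h => ha (h ▸ hv)
      rw [if_neg h2]
      ring
    have h3 : ((GCDMonoid.gcd (f a) (S.gcd f) : ℕ) : ℤ) =
        (f a : ℤ) * Nat.gcdA (f a) (S.gcd f) + ((S.gcd f : ℕ) : ℤ) * Nat.gcdB (f a) (S.gcd f) :=
      Nat.gcd_eq_gcd_ab (f a) (S.gcd f)
    beta_reduce
    rw [h3, h1, if_pos rfl]
    ring

theorem special1 (D : ℕ) (hD : 2 ≤ D) : ∃ n0 : ℕ, ∀ (n : ℕ) (p : ℕ → ℕ), n0 ≤ n → Par n p →
    (∀ v, v < n → (nbs n p v).card ≤ D) →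
    ∀ h : ℕ, h = ((range n).erase 0).gcd (fun v => (nbs n p v).card - 1) →
    0 < h ∧ ∃ (B1 u1 u2 k : ℕ) (Va : Finset ℕ) (β : ℕ → ℤ),
      Va ⊆ range n ∧ Va.card ≤ D ∧ B1 < n ∧ u1 < n ∧ u2 < n ∧ 0 < B1 ∧ p B1 ≠ 0 ∧ u1 ≠ u2 ∧ ¬ Ad p u1 u2 ∧
      (∀ v ∈ ({0, B1, p B1} : Finset ℕ), v ∉ Va ∧ v ≠ u1 ∧ v ≠ u2) ∧ u1 ∉ Va ∧ u2 ∉ Va ∧
      2 ≤ k ∧ (nbs n p u1).card = k ∧ (nbs n p u2).card = k ∧
      ∑ v ∈ Va, β v * (((nbs n p v).card : ℤ) - 1) = h := by
  classical
  refine ⟨D * (D * (2 * D + 4)) + 4 * D * D + 8 * D + 20, ?_⟩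
  intro n p hn hp hdeg h hh
  have hD0 : 0 < D := by omega
  have hn2 : 2 ≤ n := by
    have : 0 ≤ D * (D * (2 * D + 4)) + 4 * D * D + 8 * D := Nat.zero_le _
    omega
  set d : ℕ → ℕ := fun v => (nbs n p v).card with hd
  -- the degree sum
  have hsum : ∑ v ∈ range n, d v = 2 * (n - 1) := by
    have h3 : ∀ v ∈ range n, d v = (ch59 n p v).card + if 0 < v then 1 else 0 :=
      fun v hv => card_nbs59 hp (mem_range.1 hv)
    rw [sum_congr rfl h3, sum_add_distrib, ← sum_ch59 (range n)]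
    have h4 : (Ico 1 n).filter (fun i => p i ∈ range n) = Ico 1 n := by
      rw [filter_eq_self]
      intro i hi
      rw [mem_Ico] at hi
      have := hp i hi.1 hi.2
      exact mem_range.2 (by omega)
    have h5 : ∑ v ∈ range n, (if 0 < v then 1 else 0) = n - 1 := by
      rw [← card_filter]
      have : (range n).filter (fun v => 0 < v) = Ico 1 n := by
        ext i
        rw [mem_filter, mem_range, mem_Ico]
        omega
      rw [this, Nat.card_Ico]
    rw [h4, h5, Nat.card_Ico]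
    omega
  have hpos : ∀ v, v ∈ (range n).erase 0 → 1 ≤ d v := by
    intro v hv
    rw [mem_erase, mem_range] at hv
    have h1 : d v = (ch59 n p v).card + if 0 < v then 1 else 0 := card_nbs59 hp hv.2
    rw [if_pos (Nat.pos_of_ne_zero hv.1)] at h1
    omega
  -- the non-leaf vertices
  set N : Finset ℕ := ((range n).erase 0).filter fun v => 2 ≤ d v with hN
  have hNsum : n - 1 ≤ D * N.card + D := by
    have h1 : ∑ v ∈ (range n).erase 0, d v + d 0 = 2 * (n - 1) := by
      rw [← hsum]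
      exact sum_erase_add _ _ (mem_range.2 (by omega))
    have h2 : d 0 ≤ D := hdeg 0 (by omega)
    have h3 : ∑ v ∈ (range n).erase 0, d v ≤ ((range n).erase 0).card + D * N.card := by
      calc ∑ v ∈ (range n).erase 0, d v ≤ ∑ v ∈ (range n).erase 0, (1 + if 2 ≤ d v then D else 0) := by
            refine sum_le_sum fun v hv => ?_
            have h4 := hdeg v (mem_range.1 (mem_of_mem_erase hv))
            by_cases h5 : 2 ≤ d v
            · rw [if_pos h5]
              have : d v ≤ D := h4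
              omega
            · rw [if_neg h5]
              omega
        _ = _ := by
            rw [sum_add_distrib, ← card_eq_sum_ones, ← sum_filter, sum_const, smul_eq_mul, hN]
            ring
    have h4 : ((range n).erase 0).card = n - 1 := by
      rw [card_erase_of_mem (mem_range.2 (by omega)), card_range]
    omega
  have hNbig : D * (2 * D + 4) < N.card := by
    by_contra hlt
    push Not at hlt
    have h1 : D * N.card ≤ D * (D * (2 * D + 4)) := Nat.mul_le_mul_left _ hlt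
    have : 0 ≤ 4 * D * D := Nat.zero_le _
    omega
  -- the attained values
  set K : Finset ℕ := N.image d with hK
  have hKs : K ⊆ Icc 2 D := by
    intro k hk
    rw [hK, mem_image] at hk
    obtain ⟨v, hv, rfl⟩ := hk
    rw [hN, mem_filter] at hv
    rw [mem_Icc]
    exact ⟨hv.2, hdeg v (mem_range.1 (mem_of_mem_erase hv.1))⟩
  have hKc : K.card ≤ D := by
    have h1 := card_le_card hKs
    rw [Nat.card_Icc] at h1
    omega
  -- the frequent value
  obtain ⟨k, hkK, hkbig⟩ : ∃ k ∈ K, 2 * D + 4 < (N.filter fun v => d v = k).card := by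
    apply exists_lt_card_fiber_of_mul_lt_card_of_maps_to (f := d) (fun v hv => mem_image_of_mem d hv)
    exact lt_of_le_of_lt (Nat.mul_le_mul_right _ hKc) hNbig
  -- the choice
  have hc : ∀ k ∈ K, ∃ v ∈ N, d v = k := by
    intro k hk
    rw [hK, mem_image] at hk
    exact hk
  choose! c hcN hcd using hc
  set Va : Finset ℕ := K.image c with hVa
  have hVaN : Va ⊆ N := by
    intro v hv
    rw [hVa, mem_image] at hv
    obtain ⟨k, hk, rfl⟩ := hv
    exact hcN k hk
  have hVac : Va.card ≤ D := card_image_le.trans hKc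
  have hNe : N ⊆ (range n).erase 0 := filter_subset _ _
  -- the gcd
  have hgcd : Va.gcd (fun v => d v - 1) = h := by
    rw [hh]
    apply Nat.dvd_antisymm
    · rw [Finset.dvd_gcd_iff]
      intro v hv
      by_cases h2 : 2 ≤ d v
      · have hvN : v ∈ N := by
          rw [hN, mem_filter]
          exact ⟨hv, h2⟩
        have hvK : d v ∈ K := mem_image_of_mem d hvN
        have h3 : c (d v) ∈ Va := mem_image_of_mem c hvK
        have h4 := Finset.gcd_dvd (f := fun v => d v - 1) h3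
        have h5 : d (c (d v)) = d v := hcd _ hvK
        rw [h5] at h4
        exact h4
      · have h3 := hpos v hv
        have h4 : (nbs n p v).card - 1 = 0 := by
          have : (nbs n p v).card = d v := rfl
          omega
        beta_reduce
        rw [h4]
        exact dvd_zero _
    · rw [Finset.dvd_gcd_iff]
      intro v hv
      exact Finset.gcd_dvd (f := fun v => (nbs n p v).card - 1) (hNe (hVaN hv))
  obtain ⟨β, hβ⟩ := bez59 (fun v => d v - 1) Va
  -- the vertices `u1`, `u2`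
  set Nk : Finset ℕ := N.filter fun v => d v = k with hNk
  obtain ⟨u1, hu1⟩ : (Nk \ Va).Nonempty := by
    rw [← card_pos]
    have h1 := le_card_sdiff Va Nk
    omega
  rw [mem_sdiff] at hu1
  have hu1N : u1 ∈ N := (mem_filter.1 hu1.1).1
  have hu1d : d u1 = k := (mem_filter.1 hu1.1).2
  have hu1e := mem_erase.1 (hNe hu1N)
  have hu1n : u1 < n := mem_range.1 hu1e.2
  obtain ⟨u2, hu2⟩ : (Nk \ (insert u1 (Va ∪ nbs n p u1))).Nonempty := by
    rw [← card_pos]
    have h1 := le_card_sdiff (insert u1 (Va ∪ nbs n p u1)) Nk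
    have h2 : (insert u1 (Va ∪ nbs n p u1)).card ≤ Va.card + (nbs n p u1).card + 1 :=
      (card_insert_le _ _).trans (Nat.add_le_add_right (card_union_le _ _) 1)
    have h3 := hdeg u1 hu1n
    omega
  rw [mem_sdiff, mem_insert, mem_union] at hu2
  have hu2N : u2 ∈ N := (mem_filter.1 hu2.1).1
  have hu2d : d u2 = k := (mem_filter.1 hu2.1).2
  have hu2e := mem_erase.1 (hNe hu2N)
  have hu2n : u2 < n := mem_range.1 hu2e.2
  -- the edge `(B1, p B1)`
  set S : Finset ℕ := Va ∪ {u1, u2} with hS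
  have hSc : S.card ≤ D + 2 := by
    refine (card_union_le _ _).trans ?_
    have : ({u1, u2} : Finset ℕ).card ≤ 2 := card_le_two
    omega
  have hSe : S ⊆ range n := by
    intro v hv
    rw [hS, mem_union, mem_insert, mem_singleton] at hv
    rcases hv with h1 | rfl | rfl
    · exact mem_of_mem_erase (hNe (hVaN h1))
    · exact hu1e.2
    · exact hu2e.2
  have hchD : ∀ v ∈ insert 0 S, (ch59 n p v).card ≤ D := by
    intro v hv
    have hvn : v < n := by
      rw [mem_insert] at hv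
      rcases hv with rfl | h1
      · omega
      · exact mem_range.1 (hSe h1)
    have h1 := card_nbs59 hp hvn
    have h2 := hdeg v hvn
    omega
  obtain ⟨B1, hB1⟩ : ((Ico 1 n) \ (S ∪ (Ico 1 n).filter fun i => p i ∈ insert 0 S)).Nonempty := by
    rw [← card_pos]
    have h1 := le_card_sdiff (S ∪ (Ico 1 n).filter fun i => p i ∈ insert 0 S) (Ico 1 n)
    have h2 := card_union_le S ((Ico 1 n).filter fun i => p i ∈ insert 0 S)
    rw [sum_ch59 (insert 0 S)] at h2
    have h3 : ∑ v ∈ insert 0 S, (ch59 n p v).card ≤ (insert 0 S).card * D := by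
      rw [← smul_eq_mul]
      exact sum_le_card_nsmul _ _ _ hchD
    have h4 : (insert 0 S).card ≤ D + 3 := by
      have := card_insert_le 0 S
      omega
    have h5 : (insert 0 S).card * D ≤ (D + 3) * D := Nat.mul_le_mul_right _ h4
    rw [Nat.card_Ico] at h1
    have h6 : (D + 3) * D = D * D + 3 * D := by ring
    have h7 : 4 * D * D = 4 * (D * D) := by ring
    have h8 : 0 ≤ D * (D * (2 * D + 4)) := Nat.zero_le _
    omega
  rw [mem_sdiff, mem_Ico, mem_union, mem_filter, mem_Ico, mem_insert] at hB1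
  obtain ⟨⟨hB0, hBn⟩, hB2⟩ := hB1
  push Not at hB2
  obtain ⟨hBS, hBp⟩ := hB2
  have hBp' := hBp ⟨hB0, hBn⟩
  have hSVa : ∀ v, v ∉ S → v ∉ Va ∧ v ≠ u1 ∧ v ≠ u2 := by
    intro v hv
    rw [hS, mem_union, mem_insert, mem_singleton] at hv
    push Not at hv
    exact hv
  have h0S : (0 : ℕ) ∉ S := by
    intro h0
    rw [hS, mem_union, mem_insert, mem_singleton] at h0
    rcases h0 with h1 | h1 | h1
    · exact (mem_erase.1 (hNe (hVaN h1))).1 rfl
    · exact hu1e.1 h1.symm
    · exact hu2e.1 h1.symm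
  refine ⟨?_, B1, u1, u2, k, Va, β, ?_, hVac, hBn, hu1n, hu2n, hB0, hBp'.1, ?_, ?_, ?_, hu1.2, ?_, ?_, hu1d, hu2d, ?_⟩
  · rw [Nat.pos_iff_ne_zero]
    intro h0
    rw [hh, Finset.gcd_eq_zero_iff] at h0
    have h1 := h0 u1 (hNe hu1N)
    have h2 : 2 ≤ d u1 := (mem_filter.1 hu1N).2
    have h3 : d u1 - 1 = 0 := h1
    omega
  · exact fun v hv => mem_of_mem_erase (hNe (hVaN hv))
  · intro h1
    exact hu2.2 (Or.inl h1.symm)
  · intro h1
    apply hu2.2
    refine Or.inr (Or.inr ?_)
    rw [mem_nbs59]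
    exact ⟨hu2n, h1⟩
  · intro v hv
    rw [mem_insert, mem_insert, mem_singleton] at hv
    rcases hv with rfl | rfl | rfl
    · exact hSVa _ h0S
    · exact hSVa _ hBS
    · exact hSVa _ hBp'.2
  · intro h1
    exact hu2.2 (Or.inr (Or.inl h1))
  · exact (mem_Icc.1 (hKs hkK)).1
  · rw [← hgcd, ← hβ]
    refine sum_congr rfl fun v hv => ?_
    have h1 : 1 ≤ d v := hpos v (hNe (hVaN hv))
    have h2 : (((d v - 1 : ℕ)) : ℤ) = (d v : ℤ) - 1 := by
      rw [Nat.cast_sub h1, Nat.cast_one]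
    rw [h2]

end Pool.Agent.BD
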