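import Pool.Agent.Helper73.BD.B0
import Pool.Agent.Helper73.BD.NU
import Pool.Agent.Helper73.BD.SP
import Pool.Agent.Helper73.BD.L3
import Pool.Agent.Helper73.BD.P3
import Pool.Agent.Helper73.BD.F1

/-!
# BD-B1: choice of the constants, `e = 1`
-/

set_option autoImplicit false

namespace Pool.Agent.BD

open Finset Pool.Agent.SEM

theorem bigB1 (D : ℕ) (ε : ℝ) (hD : 2 ≤ D) (hε : 0 < ε) (hε1 : ε ≤ 1) :
    ∃ n0 : ℕ, ∀ (n : ℕ) (p : ℕ → ℕ), n0 ≤ n → Even n → Par n p →
      (∀ v, v < n → (nbs n p v).card ≤ D) →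
      ε * n ≤ (((range n).filter fun v => (nbs n p v).card = 1).card : ℝ) →
      (2 * ((range n).erase 0).gcd (fun v => (nbs n p v).card - 1)) ∣ n - 2 →
      ∃ f : ℕ → ℤ, IsCL n p f ∧ f 0 = -1 := by
  obtain ⟨ζ, hζ, hζ1, hpk⟩ := pack_state
  obtain ⟨nS, hsp⟩ := special1 D hD
  set D' : ℕ := 3 * D + 10 with hD'
  set C0 : ℕ := 10 ^ 12 * (D' + 10) ^ 6 with hC0
  have hDR : (2 : ℝ) ≤ D := by exact_mod_cast hD
  have hD0 : (0 : ℝ) < D := by linarith
  -- the constants
  set η : ℝ := min (1 / 10) (min (ζ / 8) (1 / (20000 * ((D : ℝ) + 1) ^ 2))) with hη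
  have hη0 : 0 < η := by
    rw [hη]; exact lt_min (by norm_num) (lt_min (by positivity) (by positivity))
  have hη1 : η ≤ 1 / 10 := min_le_left _ _
  have c5 : 8 * η ≤ ζ := by
    have : η ≤ ζ / 8 := (min_le_right _ _).trans (min_le_left _ _)
    linarith
  have c6 : 20000 * ((D : ℝ) + 1) ^ 2 * η ≤ 1 := by
    have : η ≤ 1 / (20000 * ((D : ℝ) + 1) ^ 2) := (min_le_right _ _).trans (min_le_right _ _)
    have h0 : (0 : ℝ) < 20000 * ((D : ℝ) + 1) ^ 2 := by positivity
    rw [le_div_iff₀ h0] at this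
    linarith
  set jj : ℝ := ε * η / (100 * D) with hjj
  have hjj0 : 0 < jj := by rw [hjj]; positivity
  have hC00 : 0 < C0 := by rw [hC0]; positivity
  have hC0R : (0 : ℝ) < C0 := by exact_mod_cast hC00
  set μ : ℝ := min (1 / C0) (min (jj / 10 ^ 6) (ζ / 4)) with hμ
  have hμ0 : 0 < μ := by
    rw [hμ]; exact lt_min (by positivity) (lt_min (by positivity) (by positivity))
  have c1 : (C0 : ℝ) * μ ≤ 1 := by
    have : μ ≤ 1 / C0 := min_le_left _ _
    rw [le_div_iff₀ hC0R] at this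
    linarith
  have c2 : 10 ^ 6 * μ ≤ jj := by
    have : μ ≤ jj / 10 ^ 6 := (min_le_right _ _).trans (min_le_left _ _)
    rw [le_div_iff₀ (by norm_num)] at this
    linarith
  have c3 : 4 * μ ≤ ζ := by
    have : μ ≤ ζ / 4 := (min_le_right _ _).trans (min_le_right _ _)
    linarith
  obtain ⟨Qm, hQm⟩ := exists_nat_ge (4 * ((D : ℝ) + 2) / μ)
  have c4 : 4 * ((D : ℝ) + 2) ≤ μ * Qm := by
    rw [div_le_iff₀ hμ0] at hQm
    linarith
  have hQm0 : 0 < Qm := by
    rcases Nat.eq_zero_or_pos Qm with h | h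
    · rw [h] at c4
      push_cast at c4
      linarith
    · exact h
  obtain ⟨q, hq, hqQ⟩ := mods_exist D Qm
  set W1 : ℕ := qM D 1 q * q (D + 1) * (100 * (D + 1) ^ 2) with hW1
  have hqj : ∀ j, j < D + 2 → 1 ≤ q j := fun j hj => by have := hq.big j hj; omega
  have hqM : 1 ≤ qM D 1 q := by
    unfold qM
    have : 1 ≤ ∏ j ∈ range (D + 1), q j := Nat.one_le_iff_ne_zero.2 (prod_ne_zero_iff.2 fun j hj => by
      have := hqj j (by rw [mem_range] at hj; omega)
      omega)
    omega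
  have hW11 : 1 ≤ W1 := by
    rw [hW1]
    have h1 := hqj (D + 1) (by omega)
    have h2 : 1 ≤ 100 * (D + 1) ^ 2 := by
      have : 1 ≤ (D + 1) ^ 2 := Nat.one_le_pow _ _ (by omega)
      omega
    exact Nat.mul_pos (Nat.mul_pos hqM h1) h2
  have hqD := hqj D (by omega)
  have hq0 := hqj 0 (by omega)
  have hW1R : (1 : ℝ) ≤ W1 := by exact_mod_cast hW11
  have hqDR : (1 : ℝ) ≤ q D := by exact_mod_cast hqD
  have hq0R : (1 : ℝ) ≤ q 0 := by exact_mod_cast hq0
  have hZ0 : (0 : ℝ) < 1000 * W1 * q D * q 0 * ((D : ℝ) + 1) := by positivity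
  set ν : ℝ := min (1 / 10) (1 / (1000 * W1 * q D * q 0 * ((D : ℝ) + 1))) with hν
  have hν0 : 0 < ν := by rw [hν]; exact lt_min (by norm_num) (by positivity)
  have hν1 : ν ≤ 1 / 10 := min_le_left _ _
  have c12 : ν * (1000 * W1 * q D * q 0 * ((D : ℝ) + 1)) ≤ 1 := by
    have : ν ≤ 1 / (1000 * W1 * q D * q 0 * ((D : ℝ) + 1)) := min_le_right _ _
    rw [le_div_iff₀ hZ0] at this
    exact this
  set jc : ℝ := ν / (10 * ((D : ℝ) + 1) ^ 3) with hjc
  have hjc0 : 0 < jc := by rw [hjc]; positivity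
  set ε' : ℝ := min ν (jc / 2) with hε'
  have hε'0 : 0 < ε' := by rw [hε']; exact lt_min hν0 (by positivity)
  have c10 : ε' ≤ ν := min_le_left _ _
  have c11 : 2 * ε' ≤ jc := by
    have : ε' ≤ jc / 2 := min_le_right _ _
    linarith
  set δ : ℝ := min (μ / 16) ν with hδ
  have hδ0 : 0 < δ := by rw [hδ]; exact lt_min (by positivity) hν0
  have c7 : 16 * δ ≤ μ := by
    have : δ ≤ μ / 16 := min_le_left _ _
    linarith
  have c8 : δ ≤ ν := min_le_right _ _
  obtain ⟨K, nL, hK, hlay⟩ := lay1 D (D + 5) ε η ν δ hD hε hε1 hη0 hη1 hν0 hν1 hδ0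
  obtain ⟨nP, hpk⟩ := hpk K ε' (by omega) hε'0
  obtain ⟨nμ, hnμ⟩ := exists_nat_ge (400 / μ)
  refine ⟨max (max (max nL nP) (max nS nμ)) (max (1000 * W1 * q D * q 0) 4), ?_⟩
  intro n p hn hn2 hp hdeg hlf hdn
  have kL : nL ≤ n := by omega
  have kP : nP ≤ n := by omega
  have kS : nS ≤ n := by omega
  have kμ : nμ ≤ n := by omega
  have kW : 1000 * W1 * q D * q 0 ≤ n := by omega
  have k4 : 4 ≤ n := by omega
  have n1 : 400 ≤ μ * n := by
    have h1 : (nμ : ℝ) ≤ n := by exact_mod_cast kμ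
    have h2 : 400 / μ ≤ n := hnμ.trans h1
    rw [div_le_iff₀ hμ0] at h2
    linarith
  obtain ⟨hh, B1, u1, u2, k, Va, β, hVan, hVac, hB1, hu1, hu2, hB0, hpB, hu12, hadj, hsp1, hu1V, hu2V, hk2, hk1, hk2', hβ⟩ :=
    hsp n p kS hp hdeg _ rfl
  set h : ℕ := ((range n).erase 0).gcd (fun v => (nbs n p v).card - 1) with hhdef
  have hpB1 : p B1 < B1 := hp B1 hB0 hB1
  -- special vertices
  set Z : Finset ℕ := {0, B1, p B1} ∪ Va ∪ {u1, u2} with hZ
  have hZn : Z ⊆ range n := by
    rw [hZ]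
    intro v hv
    rw [mem_union, mem_union, mem_insert, mem_insert, mem_singleton, mem_insert, mem_singleton] at hv
    rw [mem_range]
    rcases hv with ((rfl | rfl | rfl) | hv) | (rfl | rfl)
    · omega
    · omega
    · omega
    · exact mem_range.1 (hVan hv)
    · omega
    · omega
  have hZc : Z.card ≤ D + 5 := by
    rw [hZ]
    refine (card_union_le _ _).trans ?_
    have h1 : ({0, B1, p B1} ∪ Va : Finset ℕ).card ≤ 3 + D :=
      (card_union_le _ _).trans (Nat.add_le_add card_le_three hVac)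
    have h2 : ({u1, u2} : Finset ℕ).card ≤ 2 := card_le_two
    omega
  obtain ⟨ι, E, Bd, CN, Cl, Rs, Mn, T, P, En, sa, sv, sw, sb, cv, cw, J, Jc, hT, hdv, hSt, hcv, hZE, l1, l2, l3, l4, l5⟩ :=
    hlay n p kL hn2 hp hdeg hlf Z hZn hZc
  -- sizes
  have hFX := card_FXs (n := n) hq hqQ hQm0
  have hFS := card_FSs (n := n) (e := 1) (Or.inl rfl) (by omega) hq hqQ hQm0
  have hl5 : jc * n ≤ Jc := by rw [hjc]; exact l5
  obtain ⟨s1, s2, s3, s4, s5, s6, s7, s8, s9⟩ := nums (by omega) hW11 hqD hq0 l1 l2 l3 l4 hl5 hFX.1 hFX.2 hFS.1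
    (by
      refine hFS.2.trans ?_
      refine Nat.mul_le_mul_right _ (Nat.mul_le_mul_right _ (by norm_num))) hμ0 c1 c2 c3 c4 c5 c6 hδ0.le c7 c8 le_rfl c10 c11 hν0 c12
    n1 kW
  set M : ℕ := (FXs n D q).card + (FSs n D 1 q).card + E.card + 2 * Bd.card + 100 with hM
  -- the start
  have h0E : (0 : ℕ) ∈ Z := by rw [hZ]; simp
  have hBE : B1 ∈ Z := by rw [hZ]; simp
  have hpE : p B1 ∈ Z := by rw [hZ]; simp
  have hu1E : u1 ∈ Z := by rw [hZ]; simp
  have hu2E : u2 ∈ Z := by rw [hZ]; simp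
  have hVaE : Va ⊆ Z := by rw [hZ]; intro v hv; rw [mem_union, mem_union]; exact Or.inl (Or.inr hv)
  have hwt : ∀ v, v < n → 0 ≤ (((nbs n p v).card : ℤ) - ((1 : ℕ) : ℤ)) ∧ (((nbs n p v).card : ℤ) - ((1 : ℕ) : ℤ)) ≤ D - 1 := by
    intro v hv
    have h1 := nbs_pos hp (by omega) hv
    have h2 := hdeg v hv
    push_cast
    omega
  set E1 : Finset ℕ := (E.filter fun v => (nbs n p v).card = 1) \ Z with hE1
  set E2 : Finset ℕ := (E.filter fun v => (nbs n p v).card ≠ 1) \ Z with hE2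
  have hspZ : ∀ v ∈ ({0, B1, p B1} : Finset ℕ), v ∈ Z := by
    intro v hv
    rw [hZ, mem_union, mem_union]
    exact Or.inl (Or.inl hv)
  have huZ : ∀ v ∈ ({u1, u2} : Finset ℕ), v ∈ Z := by
    intro v hv
    rw [hZ, mem_union]
    exact Or.inr hv
  have hEeq : E = {0, B1, p B1} ∪ E1 ∪ E2 ∪ Va ∪ {u1, u2} := by
    ext v
    constructor
    · intro hv
      by_cases hvZ : v ∈ Z
      · rw [hZ, mem_union, mem_union] at hvZ
        rcases hvZ with (h | h) | h
        · exact mem_union_left _ (mem_union_left _ (mem_union_left _ (mem_union_left _ h)))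
        · exact mem_union_left _ (mem_union_right _ h)
        · exact mem_union_right _ h
      · by_cases h1 : (nbs n p v).card = 1
        · refine mem_union_left _ (mem_union_left _ (mem_union_left _ (mem_union_right _ ?_)))
          rw [hE1, mem_sdiff, mem_filter]
          exact ⟨⟨hv, h1⟩, hvZ⟩
        · refine mem_union_left _ (mem_union_left _ (mem_union_right _ ?_))
          rw [hE2, mem_sdiff, mem_filter]
          exact ⟨⟨hv, h1⟩, hvZ⟩
    · intro hv
      rcases mem_union.1 hv with hv | hv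
      · rcases mem_union.1 hv with hv | hv
        · rcases mem_union.1 hv with hv | hv
          · rcases mem_union.1 hv with hv | hv
            · exact hZE (hspZ v hv)
            · rw [hE1, mem_sdiff, mem_filter] at hv
              exact hv.1.1
          · rw [hE2, mem_sdiff, mem_filter] at hv
            exact hv.1.1
        · exact hZE (hVaE hv)
      · exact hZE (huZ v hv)
  have hd1 : Disjoint ({0, B1, p B1} : Finset ℕ) E1 := by
    rw [disjoint_left]
    intro v hv hv'
    rw [hE1, mem_sdiff] at hv'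
    exact hv'.2 (hspZ v hv)
  have hd2 : Disjoint ({0, B1, p B1} ∪ E1) E2 := by
    rw [disjoint_left]
    intro v hv hv'
    rw [hE2, mem_sdiff, mem_filter] at hv'
    rcases mem_union.1 hv with hv | hv
    · exact hv'.2 (hspZ v hv)
    · rw [hE1, mem_sdiff, mem_filter] at hv
      exact hv'.1.2 hv.1.2
  have hd3 : Disjoint ({0, B1, p B1} ∪ E1 ∪ E2) Va := by
    rw [disjoint_left]
    intro v hv hv'
    rcases mem_union.1 hv with hv | hv
    · rcases mem_union.1 hv with hv | hv
      · exact (hsp1 v hv).1 hv'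
      · rw [hE1, mem_sdiff] at hv
        exact hv.2 (hVaE hv')
    · rw [hE2, mem_sdiff] at hv
      exact hv.2 (hVaE hv')
  have hd4 : Disjoint ({0, B1, p B1} ∪ E1 ∪ E2 ∪ Va) {u1, u2} := by
    rw [disjoint_left]
    intro v hv hv'
    have hvu : v = u1 ∨ v = u2 := by
      rw [mem_insert, mem_singleton] at hv'
      exact hv'
    rcases mem_union.1 hv with hv | hv
    · rcases mem_union.1 hv with hv | hv
      · rcases mem_union.1 hv with hv | hv
        · have := hsp1 v hv
          rcases hvu with h | h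
          · exact this.2.1 h
          · exact this.2.2 h
        · rw [hE1, mem_sdiff] at hv
          exact hv.2 (huZ v hv')
      · rw [hE2, mem_sdiff] at hv
        exact hv.2 (huZ v hv')
    · rcases hvu with h | h
      · exact hu1V (h ▸ hv)
      · exact hu2V (h ▸ hv)
  have hdvd : ∀ v, v < n → v ≠ 0 → (h : ℤ) ∣ ((nbs n p v).card : ℤ) - 1 := by
    intro v hv hv0
    have h1 : h ∣ (nbs n p v).card - 1 := by
      rw [hhdef]
      exact Finset.gcd_dvd (mem_erase.2 ⟨hv0, mem_range.2 hv⟩)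
    have h2 := nbs_pos hp (by omega) hv
    have h3 : (((nbs n p v).card - 1 : ℕ) : ℤ) = ((nbs n p v).card : ℤ) - 1 := by
      rw [Nat.cast_sub h2]
      push_cast
      ring
    rw [← h3]
    exact Int.natCast_dvd_natCast.2 h1
  obtain ⟨f, hf, hf0, hfB, hfb, hfι, hfbal, hfe, hfo⟩ := start (D' := D') (e := 1) (UX := FXs n D q) (US := FSs n D 1 q)
    (E1 := E1) (E2 := E2) (Va := Va) (B1 := B1) (b := 1000 * (D' + 10) ^ 3 * M) (u1 := u1) (u2 := u2) (h := h) hT hn2 (by omega)
    β ((k : ℤ) - 1) (fun v => ((nbs n p v).card : ℤ) - ((1 : ℕ) : ℤ)) (fun v => rfl) ⟨hZE hBE, hB0, hZE hpE, hpB⟩ hEeq hd1 hd2 hd3 hd4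
    hu12 hadj
    (by
      intro v hv
      rw [hE2, mem_sdiff, mem_filter] at hv
      have hvn := mem_range.1 (hT.En hv.1.1)
      have h1 := nbs_pos hp (by omega) hvn
      have h2 := hdeg v hvn
      have h3 := hv.1.2
      have h4 : (2 : ℤ) ≤ (nbs n p v).card := by
        have : 2 ≤ (nbs n p v).card := by omega
        exact_mod_cast this
      have h5 : ((nbs n p v).card : ℤ) ≤ D := by exact_mod_cast h2
      have h6 : (D' : ℤ) = 3 * D + 10 := by rw [hD']; push_cast; ring
      rw [abs_of_nonneg (by push_cast; omega)]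
      push_cast
      constructor
      · omega
      · omega)
    (by
      intro v hv
      have hvE : v ∈ E := by
        rw [hEeq]
        rcases mem_union.1 hv with hv | hv
        · rcases mem_union.1 hv with hv | hv
          · exact mem_union_left _ (mem_union_left _ (mem_union_right _ hv))
          · exact mem_union_left _ (mem_union_right _ hv)
        · exact mem_union_right _ hv
      have := hdeg v (mem_range.1 (hT.En hvE))
      omega)
    (by
      rw [sum_union hd1]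
      have h1 : ∑ v ∈ E1, |((nbs n p v).card : ℤ) - ((1 : ℕ) : ℤ)| = 0 := by
        refine sum_eq_zero fun v hv => ?_
        rw [hE1, mem_sdiff, mem_filter] at hv
        rw [hv.1.2]
        simp
      rw [h1, add_zero]
      have h2 : ∑ v ∈ ({0, B1, p B1} : Finset ℕ), |((nbs n p v).card : ℤ) - ((1 : ℕ) : ℤ)| ≤
          ∑ v ∈ ({0, B1, p B1} : Finset ℕ), (D : ℤ) := by
        refine sum_le_sum fun v hv => ?_
        have hvn := mem_range.1 (hZn (hspZ v hv))
        have := hwt v hvn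
        rw [abs_of_nonneg this.1]
        omega
      rw [sum_const, nsmul_eq_mul] at h2
      have h3 : ((({0, B1, p B1} : Finset ℕ).card : ℕ) : ℤ) ≤ 3 := by
        exact_mod_cast card_le_three
      have h4 : (0 : ℤ) ≤ D := Int.natCast_nonneg _
      have h5 : ((({0, B1, p B1} : Finset ℕ).card : ℕ) : ℤ) * (D : ℤ) ≤ 3 * D := mul_le_mul_of_nonneg_right h3 h4
      have h6 : (D' : ℤ) = 3 * D + 10 := by rw [hD']; push_cast; ring
      have h7 : (0 : ℤ) ≤ E2.card := Int.natCast_nonneg _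
      omega)
    (by omega)
    (by
      intro v hv
      have := hwt v (mem_range.1 (hVan hv))
      rw [abs_of_nonneg this.1]
      have h6 : (D' : ℤ) = 3 * D + 10 := by rw [hD']; push_cast; ring
      omega)
    (by
      have h1 := hdeg u1 hu1
      rw [hk1] at h1
      have h6 : (D' : ℤ) = 3 * D + 10 := by rw [hD']; push_cast; ring
      refine ⟨by omega, ?_, ?_, ?_⟩
      · rw [abs_of_nonneg (by omega)]
        omega
      · rw [hk1]; push_cast; ring
      · rw [hk2']; push_cast; ring)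
    hh
    (by
      intro v hv hv0
      have := hdvd v (mem_range.1 (hT.En hv)) hv0
      push_cast
      exact this)
    (by
      have : ∑ v ∈ Va, β v * (((nbs n p v).card : ℤ) - ((1 : ℕ) : ℤ)) = h := by
        push_cast
        exact hβ
      rw [this, sub_self]
      exact dvd_zero _)
    (by
      have := par1 hT (by omega) hdvd hdn
      push_cast
      exact this)
    (one_notMem_FXs hq) (by omega)
    (by
      refine Nat.mul_le_mul_left _ ?_
      omega)
  -- sizes of the absorber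
  obtain ⟨_, _, _, hmW⟩ := counts (Fl := ∅) (CO := ∅) (by omega) hT hdv (empty_subset _) (empty_subset _)
    (fun v hv => absurd hv (notMem_empty v))
  set mW : ℕ := (EdT p (CN ∪ Rs) (Bd ∪ Cl ∪ Mn)).card with hmWd
  set a : ℕ := (FXs n D q).card - CN.card - Rs.card with ha
  set b : ℕ := (FSs n D 1 q).card - mW with hb
  have ha1 : a + CN.card + Rs.card = (FXs n D q).card := by omega
  have hb1 : b + mW = (FSs n D 1 q).card := by omega
  obtain ⟨Fl, CO, Fd, L1, L2, Lc, Sc, KL, KS, F, hS1, hFf, _⟩ := phase1 (D' := D') (e := 1) (J := J) (a := a) (b := b) (M := M)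
    (Or.inl rfl) hn2 (by omega) hT hdv hSt f hf
    ⟨B1, by
      unfold EdI
      rw [mem_filter]
      exact ⟨mem_union_left _ (mem_union_left _ (hZE hBE)), hB0, mem_union_left _ (mem_union_left _ (hZE hpE))⟩, hfB⟩
    (by
      intro v hv
      have := hfb v hv
      push_cast at this ⊢
      exact this)
    hfι hfbal hfe hfo (by omega) (by omega) (by omega) (by omega) (by omega) (by omega) le_rfl s1 s2 s3 (fun _ => 1) (fun _ => odd_one)
  obtain ⟨hXc, hSc, T', hT', g, g1, g2, g3, g4, g5⟩ := hpk n kP hn2 D 1 a b p ι q E Bd CN Cl Rs Mn T Fl CO Fd P En L1 L2 Lc Sc KL KS F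
    hT hdv hS1 ha1 hb1 s8 _ _ rfl rfl
  obtain ⟨t1, t2⟩ := s9 _ g5
  obtain ⟨F', hF', hF0⟩ := finish1 (c := n / 40) hD hn2 (by omega) hq hT hdv hcv hS1 rfl rfl hXc hSc hT' g1 g2 g3 g4 (by omega) (by omega)
    t1 (by omega)
    (by
      rw [← mul_assoc, ← hW1]
      exact t2)
  refine ⟨F', hF', ?_⟩
  rw [hF0, hFf 0 (mem_union_left _ (mem_union_left _ hT.zE)), hf0]

end Pool.Agent.BD
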