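import Pool.Agent.Helper73.BD.L0

/-!
# BD-M1: the half world for `e = 2` (trees with few leaves)

A vertex `v < n` is a path vertex if `0 < v` and it has exactly one child (`(chl n p v).card = 1`).  `pos v` = number of proper ancestors `p v, p (p v), ..` that are path vertices without
interruption: `pos v = 0` if `p v` is not a path vertex, `pos v = pos (p v) + 1` otherwise.  Period `m = 2N + 2`.  `z` is a block end if it is a path vertex with `pos z % m = m - 1` and no vertex
`p^[i] z`, `0 ≤ i < m`, is in `Z`.  The block of `z` is `p^[i] z`, `0 ≤ i < m`, all path vertices, `pos (p^[i] z) = pos z - i`; the blocks are pairwise disjoint (a path vertex has only one child; `pos` determines the place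
in the block).
`Zs` = block ends.  In `p^[i] z` the indices `i = 2N+1, .., N+2` are the upper half (`x z j = p^[2N+1-j] z`, `0 ≤ j < N`, going down), `i = N+1` is the middle separator, `i = N, .., 1` is the lower half,
`i = 0` (that is `z`) is the lower separator.  `ι (p^[i] z) = p^[2N+2-i] z` for `N+2 ≤ i ≤ 2N+1`.  So `x z (N-1) = p^[N+2] z` and `ι (x z (N-1)) = p^[N] z` are both adjacent to `p^[N+1] z`; `ι (x z 0) = p^[1] z` is adjacent to `z`;
`x z 0` is adjacent to its parent, which is in `E` (a vertex that is not a path vertex, or the end of the previous block, or a vertex of a block that was not used: all in `E`).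
`Q` = union of the upper halves, `E` = all the other vertices except the lower halves.
COUNT: the vertices that are not path vertices: leaves (`chl = ∅`), `0`, and those with at least two children, of which there are at most (number of leaves); so at most `2 L + 1`, `L` the number of vertices
`< n` without children (`∑_v |chl v| = n - 1`).  The path vertices not in a complete block: go down the path (only child) from such a vertex: after less than `m` steps a vertex that is not a path vertex is reached; so there are at most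
`m (2L+1)` of them; blocks spoiled by `Z`: at most `m |Z|` vertices; separators: at most `2 n/m`.
-/

set_option autoImplicit false

namespace Pool.Agent.BD

open Finset Pool.Agent.SEM

/-- paths `x z 0, .., x z (N-1)`, `z ∈ Zs`, going down, with common separator for the last vertex and its twin -/
structure Pth (n N : ℕ) (p ι : ℕ → ℕ) (E Q Zs : Finset ℕ) (x : ℕ → ℕ → ℕ) : Prop where
  Q_eq : ∀ v, v ∈ Q ↔ ∃ z ∈ Zs, ∃ i, i < N ∧ x z i = v
  inj : ∀ z ∈ Zs, ∀ z' ∈ Zs, ∀ i, i < N → ∀ j, j < N → x z i = x z' j → z = z' ∧ i = j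
  par : ∀ z ∈ Zs, ∀ i, i + 1 < N → p (x z (i + 1)) = x z i ∧ 0 < x z (i + 1)
  adj : ∀ z ∈ Zs, ∀ i, i < N → ∀ w ∈ Q, (Ad p (x z i) w ↔ (i + 1 < N ∧ w = x z (i + 1)) ∨ (0 < i ∧ w = x z (i - 1)))
  sep : ∀ z ∈ Zs, ∃ y ∈ E, Ad p (x z (N - 1)) y ∧ Ad p (ι (x z (N - 1))) y

/-! ### path vertices (helper32) -/

private def PV (n : ℕ) (p : ℕ → ℕ) (v : ℕ) : Prop := 0 < v ∧ v < n ∧ (chl n p v).card = 1

private instance (n : ℕ) (p : ℕ → ℕ) (v : ℕ) : Decidable (PV n p v) := by unfold PV; infer_instance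

private def pos1 (n : ℕ) (p : ℕ → ℕ) (v : ℕ) : ℕ :=
  if h : 0 < v ∧ p v < v ∧ PV n p (p v) then pos1 n p (p v) + 1 else 0
termination_by v
decreasing_by exact h.2.1

private theorem pos_succ {n : ℕ} {p : ℕ → ℕ} (hp : Par n p) {v : ℕ} (h0 : 0 < v) (hn : v < n)
    (h : PV n p (p v)) : pos1 n p v = pos1 n p (p v) + 1 := by
  rw [pos1, dif_pos ⟨h0, hp v h0 hn, h⟩]

private theorem pos_zero {n : ℕ} {p : ℕ → ℕ} {v : ℕ} (h : ¬ PV n p (p v)) : pos1 n p v = 0 := by
  rw [pos1, dif_neg fun h' => h h'.2.2]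

private theorem chain32 {n : ℕ} {p : ℕ → ℕ} (hp : Par n p) {z : ℕ} (hz : PV n p z) (i : ℕ)
    (hi : i ≤ pos1 n p z) : PV n p (p^[i] z) ∧ pos1 n p (p^[i] z) + i = pos1 n p z := by
  induction i with
  | zero => exact ⟨hz, rfl⟩
  | succ i ih =>
    obtain ⟨h1, h2⟩ := ih (by omega)
    rw [Function.iterate_succ_apply']
    have h3 : PV n p (p (p^[i] z)) := by
      by_contra hc
      rw [pos_zero hc] at h2
      omega
    refine ⟨h3, ?_⟩
    rw [pos_succ hp h1.1 h1.2.1 h3] at h2
    omega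

private theorem chl_unique {n : ℕ} {p : ℕ → ℕ} {y a b : ℕ} (hy : (chl n p y).card = 1)
    (ha : 0 < a ∧ a < n ∧ p a = y) (hb : 0 < b ∧ b < n ∧ p b = y) : a = b := by
  obtain ⟨c, hc⟩ := card_eq_one.1 hy
  have h1 : a ∈ chl n p y := by
    unfold chl; rw [mem_filter, mem_range]; exact ⟨ha.2.1, ha.1, ha.2.2⟩
  have h2 : b ∈ chl n p y := by
    unfold chl; rw [mem_filter, mem_range]; exact ⟨hb.2.1, hb.1, hb.2.2⟩
  rw [hc, mem_singleton] at h1 h2
  rw [h1, h2]

/-- block end without the condition on `Z` -/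
private def BE (n : ℕ) (p : ℕ → ℕ) (m z : ℕ) : Prop := PV n p z ∧ pos1 n p z % m = m - 1

private theorem BE_pos {n m : ℕ} {p : ℕ → ℕ} (hp : Par n p) (hm : 0 < m) {z : ℕ} (hz : BE n p m z) {i : ℕ}
    (hi : i < m) : PV n p (p^[i] z) ∧ pos1 n p (p^[i] z) % m = m - 1 - i := by
  have h0 := Nat.mod_le (pos1 n p z) m
  rw [hz.2] at h0
  obtain ⟨h1, h2⟩ := chain32 hp hz.1 i (by omega)
  refine ⟨h1, ?_⟩
  have h3 := Nat.div_add_mod (pos1 n p z) m
  rw [hz.2] at h3
  have h4 : pos1 n p (p^[i] z) = m * (pos1 n p z / m) + (m - 1 - i) := by omega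
  rw [h4, Nat.mul_add_mod, Nat.mod_eq_of_lt (by omega)]

private theorem BE_down {n m : ℕ} {p : ℕ → ℕ} (hp : Par n p) (hm : 0 < m) {z z' : ℕ} (hz : BE n p m z)
    (hz' : BE n p m z') {i : ℕ} (hi : i < m) (h : p^[i] z = p^[i] z') : z = z' := by
  induction i with
  | zero => exact h
  | succ i ih =>
    apply ih (by omega)
    have h1 := (BE_pos hp hm hz (i := i) (by omega)).1
    have h2 := (BE_pos hp hm hz' (i := i) (by omega)).1
    have h3 := (BE_pos hp hm hz hi).1
    rw [Function.iterate_succ_apply', Function.iterate_succ_apply'] at h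
    rw [Function.iterate_succ_apply'] at h3
    exact chl_unique h3.2.2 ⟨h1.1, h1.2.1, rfl⟩ ⟨h2.1, h2.2.1, h.symm⟩

private theorem BE_addr0 {n m : ℕ} {p : ℕ → ℕ} (hp : Par n p) (hm : 0 < m) {z z' : ℕ} (hz : BE n p m z)
    (hz' : BE n p m z') {a a' : ℕ} (ha : a < m) (ha2 : a' < m) (h : p^[a] z = p^[a'] z') :
    a = a' ∧ z = z' := by
  have h1 := (BE_pos hp hm hz ha).2
  have h2 := (BE_pos hp hm hz' ha2).2
  rw [h] at h1
  have h3 : a = a' := by omega
  subst h3
  exact ⟨rfl, BE_down hp hm hz hz' ha h⟩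

private theorem BE_addr {n m : ℕ} {p : ℕ → ℕ} (hp : Par n p) (hm : 0 < m) {z z' : ℕ} (hz : BE n p m z)
    (hz' : BE n p m z') {a a' : ℕ} (ha : a ≤ m) (ha1 : 1 ≤ a') (ha2 : a' < m) (h : p^[a] z = p^[a'] z') :
    a = a' ∧ z = z' := by
  rcases Nat.lt_or_ge a m with h0 | h0
  · exact BE_addr0 hp hm hz hz' h0 ha2 h
  · exfalso
    obtain rfl : a = m := by omega
    obtain ⟨k, rfl⟩ : ∃ k, a = k + 1 := ⟨a - 1, by omega⟩
    obtain ⟨h1, h2⟩ := BE_pos hp hm hz (i := k) (by omega)
    obtain ⟨h3, h4⟩ := BE_pos hp hm hz' ha2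
    rw [Function.iterate_succ_apply'] at h
    rw [← h] at h3 h4
    rw [pos_succ hp h1.1 h1.2.1 h3] at h2
    have h5 : k + 1 - 1 - k = 0 := by omega
    rw [h5] at h2
    have h6 := Nat.div_add_mod (pos1 n p (p (p^[k] z))) (k + 1)
    rw [h4] at h6
    have h7 := Nat.div_add_mod (pos1 n p (p (p^[k] z)) + 1) (k + 1)
    rw [h2] at h7
    rcases Nat.eq_zero_or_pos k with hk | hk
    · omega
    · have h8 : (pos1 n p (p (p^[k] z)) + 1) % (k + 1) = k + 1 - 1 - a' + 1 := by
        rw [← h6]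
        have h9 : (k + 1) * (pos1 n p (p (p^[k] z)) / (k + 1)) + (k + 1 - 1 - a') + 1 =
            (k + 1) * (pos1 n p (p (p^[k] z)) / (k + 1)) + (k + 1 - 1 - a' + 1) := by ring
        rw [h9, Nat.mul_add_mod, Nat.mod_eq_of_lt (by omega)]
      omega

/-- the neighbours of a vertex of a block other than its end -/
private theorem BE_nb {n m : ℕ} {p : ℕ → ℕ} (hp : Par n p) (hm : 0 < m) {z : ℕ} (hz : BE n p m z) {a : ℕ}
    (ha1 : 1 ≤ a) (ha : a < m) {w : ℕ} (hw : w < n) :
    Ad p (p^[a] z) w ↔ w = p^[a + 1] z ∨ w = p^[a - 1] z := by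
  obtain ⟨k, rfl⟩ : ∃ k, a = k + 1 := ⟨a - 1, by omega⟩
  have h1 := (BE_pos hp hm hz ha).1
  have h2 := (BE_pos hp hm hz (i := k) (by omega)).1
  rw [Function.iterate_succ_apply' p (k + 1), Nat.add_sub_cancel]
  unfold Ad
  constructor
  · rintro (h | h)
    · left; exact h.2.symm
    · right
      refine chl_unique h1.2.2 ⟨h.1, hw, h.2⟩ ⟨h2.1, h2.2.1, ?_⟩
      rw [Function.iterate_succ_apply']
  · rintro (h | h)
    · left; exact ⟨h1.1, h.symm⟩
    · right
      subst h
      exact ⟨h2.1, by rw [Function.iterate_succ_apply']⟩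

private theorem BE_lt {n m : ℕ} {p : ℕ → ℕ} (hp : Par n p) (hm : 0 < m) {z : ℕ} (hz : BE n p m z) {a : ℕ}
    (ha : a ≤ m) : p^[a] z < n := by
  rcases Nat.lt_or_ge a m with h0 | h0
  · exact (BE_pos hp hm hz h0).1.2.1
  · obtain ⟨k, rfl⟩ : ∃ k, a = k + 1 := ⟨a - 1, by omega⟩
    obtain ⟨h1, -⟩ := BE_pos hp hm hz (i := k) (by omega)
    rw [Function.iterate_succ_apply']
    exact (hp _ h1.1 h1.2.1).trans h1.2.1

/-- the number of vertices that are not path vertices -/
private theorem card_NP {n : ℕ} {p : ℕ → ℕ} (hp : Par n p) (hn : 0 < n) :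
    ((range n).filter fun v => ¬ PV n p v).card ≤ 2 * ((range n).filter fun v => chl n p v = ∅).card := by
  have h1 : ∑ v ∈ range n, (chl n p v).card = n - 1 := by
    have h2 : (Ico 1 n).card = ∑ v ∈ range n, ((Ico 1 n).filter fun j => p j = v).card := by
      refine card_eq_sum_card_fiberwise fun j hj => ?_
      rw [mem_coe, mem_Ico] at hj
      rw [mem_coe, mem_range]
      exact (hp j (by omega) hj.2).trans hj.2
    rw [Nat.card_Ico] at h2
    rw [h2]
    refine sum_congr rfl fun v _ => ?_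
    congr 1
    unfold chl
    ext j
    simp only [mem_filter, mem_range, mem_Ico]
    constructor
    · rintro ⟨h3, h4, h5⟩; exact ⟨⟨h4, h3⟩, h5⟩
    · rintro ⟨⟨h4, h3⟩, h5⟩; exact ⟨h3, h4, h5⟩
  set A0 := (range n).filter fun v => chl n p v = ∅ with hA0
  set A2 := (range n).filter fun v => 2 ≤ (chl n p v).card with hA2
  have h3 : ∑ v ∈ range n, (1 + if 2 ≤ (chl n p v).card then 1 else 0) ≤
      ∑ v ∈ range n, ((chl n p v).card + if chl n p v = ∅ then 1 else 0) := by
    refine sum_le_sum fun v _ => ?_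
    by_cases h0 : chl n p v = ∅
    · rw [if_pos h0, h0, card_empty]
      simp
    · have h4 : 1 ≤ (chl n p v).card := card_pos.2 (nonempty_iff_ne_empty.2 h0)
      rw [if_neg h0]
      split_ifs <;> omega
  rw [sum_add_distrib, sum_add_distrib, h1, sum_const, card_range, smul_eq_mul, mul_one,
    ← card_filter, ← card_filter, ← hA0, ← hA2] at h3
  have h5 : ((range n).filter fun v => ¬ PV n p v) ⊆ {0} ∪ A0 ∪ A2 := by
    intro v hv
    rw [mem_filter, mem_range] at hv
    rw [mem_union, mem_union, mem_singleton, hA0, hA2, mem_filter, mem_filter, mem_range]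
    rcases Nat.eq_zero_or_pos v with h0 | h0
    · exact Or.inl (Or.inl h0)
    · have h6 : (chl n p v).card ≠ 1 := fun h => hv.2 ⟨h0, hv.1, h⟩
      rcases Nat.lt_or_ge (chl n p v).card 2 with h7 | h7
      · left; right
        exact ⟨hv.1, card_eq_zero.1 (by omega)⟩
      · right
        exact ⟨hv.1, h7⟩
  have h6 := card_le_card h5
  have h7 := (card_union_le ({0} ∪ A0) A2)
  have h8 := (card_union_le {0} A0)
  rw [card_singleton] at h8
  omega

/-- going down from a path vertex -/
private theorem go_down {n : ℕ} {p : ℕ → ℕ} (hp : Par n p) {v : ℕ} (hv : PV n p v) (i : ℕ) :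
    (∃ k, 1 ≤ k ∧ k ≤ i ∧ ∃ u, u < n ∧ ¬ PV n p u ∧ p^[k] u = v) ∨
      ∃ z, PV n p z ∧ p^[i] z = v ∧ pos1 n p z = pos1 n p v + i := by
  induction i with
  | zero => exact Or.inr ⟨v, hv, rfl, rfl⟩
  | succ i ih =>
    rcases ih with ⟨k, h1, h2, u, h3⟩ | ⟨z, hz, h1, h2⟩
    · exact Or.inl ⟨k, h1, by omega, u, h3⟩
    · obtain ⟨c, hc⟩ := card_eq_one.1 hz.2.2
      have hc' : c ∈ chl n p z := by rw [hc]; exact mem_singleton_self c
      unfold chl at hc'
      rw [mem_filter, mem_range] at hc'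
      obtain ⟨hcn, hc0, hcp⟩ := hc'
      by_cases h : PV n p c
      · right
        refine ⟨c, h, ?_, ?_⟩
        · rw [Function.iterate_succ_apply, hcp, h1]
        · rw [pos_succ hp hc0 hcn (by rw [hcp]; exact hz), hcp, h2]
          ring
      · left
        refine ⟨i + 1, by omega, le_rfl, c, hcn, h, ?_⟩
        rw [Function.iterate_succ_apply, hcp, h1]

/-- adjacency inside the blocks -/
private theorem BE_adj {n m : ℕ} {p : ℕ → ℕ} (hp : Par n p) (hm : 0 < m) {z z' : ℕ} (hz : BE n p m z)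
    (hz' : BE n p m z') {a b : ℕ} (ha1 : 1 ≤ a) (ha : a < m) (hb1 : 1 ≤ b) (hb : b < m) :
    Ad p (p^[a] z) (p^[b] z') ↔ z = z' ∧ (b = a + 1 ∨ b + 1 = a) := by
  rw [BE_nb hp hm hz ha1 ha (BE_lt hp hm hz' hb.le)]
  constructor
  · rintro (h | h)
    · obtain ⟨h1, h2⟩ := BE_addr hp hm hz hz' (a := a + 1) (by omega) hb1 hb h.symm
      exact ⟨h2, Or.inl h1.symm⟩
    · obtain ⟨h1, h2⟩ := BE_addr hp hm hz hz' (a := a - 1) (by omega) hb1 hb h.symm
      exact ⟨h2, Or.inr (by omega)⟩
  · rintro ⟨rfl, h | h⟩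
    · left; rw [h]
    · right
      have : b = a - 1 := by omega
      rw [this]

theorem bare (n N : ℕ) (p : ℕ → ℕ) (hp : Par n p) (hn : 0 < n) (hN : 5 ≤ N) (Z : Finset ℕ) (hZ : Z ⊆ range n) :
    ∃ (ι : ℕ → ℕ) (E Q Zs : Finset ℕ) (x : ℕ → ℕ → ℕ),
      Twin n 2 p ι E (Zs.biUnion fun z => {x z 0, x z (N - 1)}) Q ∧ Pth n N p ι E Q Zs x ∧ Z ⊆ E ∧
      (∀ v ∈ Q, ∀ w, w < n → Ad p v w → w ∈ Q ∪ E) ∧
      (∀ v ∈ Q, (nbs n p v).card = 2) ∧
      (E.card : ℝ) ≤ 2 * n / (2 * N + 2) +
        (2 * N + 3) * (2 * (((range n).filter fun v => chl n p v = ∅).card : ℝ) + 1 + Z.card) := by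
  classical
  obtain ⟨m, hm⟩ : ∃ m, m = 2 * N + 2 := ⟨_, rfl⟩
  have hm0 : 0 < m := by omega
  set Zs : Finset ℕ := (range n).filter fun z => BE n p m z ∧ ∀ i < m, p^[i] z ∉ Z with hZs
  have hBE : ∀ z ∈ Zs, BE n p m z := fun z hz => (mem_filter.1 hz).2.1
  have hZa : ∀ z ∈ Zs, ∀ i < m, p^[i] z ∉ Z := fun z hz => (mem_filter.1 hz).2.2
  obtain ⟨x, hx⟩ : ∃ x : ℕ → ℕ → ℕ, ∀ z j, x z j = p^[2 * N + 1 - j] z := ⟨_, fun _ _ => rfl⟩
  set Q : Finset ℕ := Zs.biUnion fun z => (range N).image (x z) with hQdef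
  set Low : Finset ℕ := Zs.biUnion fun z => (range N).image (fun j => p^[j + 1] z) with hLdef
  set E : Finset ℕ := range n \ (Q ∪ Low) with hEdef
  have hQ : ∀ v, v ∈ Q ↔ ∃ z ∈ Zs, ∃ i, i < N ∧ x z i = v := by
    intro v
    rw [hQdef, mem_biUnion]
    simp only [mem_image, mem_range]
  have hL : ∀ v, v ∈ Low ↔ ∃ z ∈ Zs, ∃ i, i < N ∧ p^[i + 1] z = v := by
    intro v
    rw [hLdef, mem_biUnion]
    simp only [mem_image, mem_range]
  have inQ : ∀ z ∈ Zs, ∀ a ≤ m, (p^[a] z ∈ Q ↔ N + 2 ≤ a ∧ a ≤ 2 * N + 1) := by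
    intro z hz a ha
    rw [hQ]
    constructor
    · rintro ⟨z', hz', i, hi, h⟩
      rw [hx] at h
      have := (BE_addr hp hm0 (hBE z hz) (hBE z' hz') ha (a' := 2 * N + 1 - i) (by omega) (by omega)
        h.symm).1
      omega
    · rintro ⟨h1, h2⟩
      refine ⟨z, hz, 2 * N + 1 - a, by omega, ?_⟩
      rw [hx]
      congr 1
      omega
  have inL : ∀ z ∈ Zs, ∀ a ≤ m, (p^[a] z ∈ Low ↔ 1 ≤ a ∧ a ≤ N) := by
    intro z hz a ha
    rw [hL]
    constructor
    · rintro ⟨z', hz', i, hi, h⟩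
      have := (BE_addr hp hm0 (hBE z hz) (hBE z' hz') ha (a' := i + 1) (by omega) (by omega)
        h.symm).1
      omega
    · rintro ⟨h1, h2⟩
      refine ⟨z, hz, a - 1, by omega, ?_⟩
      congr 1
      omega
  have inE : ∀ z ∈ Zs, ∀ a ≤ m, (p^[a] z ∈ E ↔ a = 0 ∨ a = N + 1 ∨ a = 2 * N + 2) := by
    intro z hz a ha
    rw [hEdef, mem_sdiff, mem_range, mem_union, inQ z hz a ha, inL z hz a ha]
    have h1 := BE_lt hp hm0 (hBE z hz) ha
    constructor
    · rintro ⟨-, h⟩
      omega
    · intro h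
      exact ⟨h1, by omega⟩
  obtain ⟨ι, hι⟩ : ∃ ι : ℕ → ℕ, ∀ z ∈ Zs, ∀ j, j < N → ι (x z j) = p^[j + 1] z := by
    refine ⟨fun v => if h : ∃ q : ℕ × ℕ, q.1 ∈ Zs ∧ q.2 < N ∧ x q.1 q.2 = v then
      p^[(Classical.choose h).2 + 1] (Classical.choose h).1 else v, ?_⟩
    intro z hz j hj
    have h : ∃ q : ℕ × ℕ, q.1 ∈ Zs ∧ q.2 < N ∧ x q.1 q.2 = x z j := ⟨(z, j), hz, hj, rfl⟩
    simp only [dif_pos h]
    obtain ⟨h1, h2, h3⟩ := Classical.choose_spec h
    have h3' := (hx _ _).symm.trans (h3.trans (hx z j))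
    obtain ⟨h4, h5⟩ := BE_addr hp hm0 (hBE _ h1) (hBE z hz) (by omega) (a' := 2 * N + 1 - j)
      (by omega) (by omega) h3'
    rw [h5]
    have h6 : (Classical.choose h).2 = j := by omega
    rw [h6]
  have rep : ∀ v ∈ Q, ∃ z ∈ Zs, ∃ a, N + 2 ≤ a ∧ a ≤ 2 * N + 1 ∧ v = p^[a] z ∧
      ι v = p^[2 * N + 2 - a] z := by
    intro v hv
    obtain ⟨z, hz, i, hi, rfl⟩ := (hQ v).1 hv
    refine ⟨z, hz, 2 * N + 1 - i, by omega, by omega, hx z i, ?_⟩
    rw [hι z hz i hi]
    congr 1
    omega
  have hBd : ∀ v, v ∈ (Zs.biUnion fun z => ({x z 0, x z (N - 1)} : Finset ℕ)) ↔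
      ∃ z ∈ Zs, v = p^[2 * N + 1] z ∨ v = p^[N + 2] z := by
    intro v
    have e : 2 * N + 1 - (N - 1) = N + 2 := by omega
    rw [mem_biUnion]
    simp only [mem_insert, mem_singleton, hx, e, Nat.sub_zero]
  have nb : ∀ z ∈ Zs, ∀ a, 1 ≤ a → a < m → ∀ w, w < n →
      (Ad p (p^[a] z) w ↔ w = p^[a + 1] z ∨ w = p^[a - 1] z) := fun z hz a ha1 ha w hw =>
    BE_nb hp hm0 (hBE z hz) ha1 ha hw
  have En : ∀ w ∈ E, w < n := by
    intro w hw
    rw [hEdef, mem_sdiff, mem_range] at hw
    exact hw.1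
  have QE : ∀ w ∈ Q, w ∉ E := by
    intro w hw hw'
    rw [hEdef, mem_sdiff, mem_union] at hw'
    exact hw'.2 (Or.inl hw)
  have LE : ∀ w ∈ Low, w ∉ E := by
    intro w hw hw'
    rw [hEdef, mem_sdiff, mem_union] at hw'
    exact hw'.2 (Or.inr hw)
  have leg1 : ∀ z ∈ Zs, ∀ a, 1 ≤ a → a < m → p^[a + 1] z ∈ E → p^[a - 1] z ∉ E →
      ∃! w, w ∈ E ∧ Ad p (p^[a] z) w := by
    intro z hz a ha1 ha h1 h2
    refine ⟨p^[a + 1] z, ⟨h1, (nb z hz a ha1 ha _ (En _ h1)).2 (Or.inl rfl)⟩, ?_⟩
    rintro w ⟨hw1, hw2⟩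
    rcases (nb z hz a ha1 ha w (En _ hw1)).1 hw2 with h | h
    · exact h
    · exact absurd (h ▸ hw1) h2
  have leg2 : ∀ z ∈ Zs, ∀ a, 1 ≤ a → a < m → p^[a + 1] z ∉ E → p^[a - 1] z ∈ E →
      ∃! w, w ∈ E ∧ Ad p (p^[a] z) w := by
    intro z hz a ha1 ha h1 h2
    refine ⟨p^[a - 1] z, ⟨h2, (nb z hz a ha1 ha _ (En _ h2)).2 (Or.inr rfl)⟩, ?_⟩
    rintro w ⟨hw1, hw2⟩
    rcases (nb z hz a ha1 ha w (En _ hw1)).1 hw2 with h | h
    · exact absurd (h ▸ hw1) h1
    · exact h
  refine ⟨ι, E, Q, Zs, x, ?_, ?_, ?_, ?_, ?_, ?_⟩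
  · -- the twin structure
    refine ⟨fun i h1 h2 => hp i h1 h2, ?_, ?_, ?_, ?_, ?_, ?_, ?_, ?_, ?_, ?_, ?_, ?_, ?_⟩
    · rw [hEdef, mem_sdiff, mem_range, mem_union]
      refine ⟨hn, ?_⟩
      rintro (h | h)
      · obtain ⟨z, hz, a, h1, h2, h3, -⟩ := rep 0 h
        have := (BE_pos hp hm0 (hBE z hz) (i := a) (by omega)).1.1
        omega
      · obtain ⟨z, hz, i, hi, h3⟩ := (hL 0).1 h
        have := (BE_pos hp hm0 (hBE z hz) (i := i + 1) (by omega)).1.1
        omega
    · intro v hv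
      rw [mem_range]
      exact En v hv
    · intro v hv
      obtain ⟨z, hz, a, h1, h2, rfl, -⟩ := rep v hv
      rw [mem_range]
      exact BE_lt hp hm0 (hBE z hz) (by omega)
    · rw [disjoint_left]
      intro v hv hv'
      exact QE v hv' hv
    · intro v hv
      obtain ⟨z, hz, h | h⟩ := (hBd v).1 hv
      · rw [h, inQ z hz _ (by omega)]
        omega
      · rw [h, inQ z hz _ (by omega)]
        omega
    · intro v hv w hw h
      obtain ⟨z, hz, a, h1, h2, rfl, h3⟩ := rep v hv
      obtain ⟨z', hz', a', h1', h2', rfl, h3'⟩ := rep w hw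
      rw [h3, h3'] at h
      obtain ⟨h4, rfl⟩ := BE_addr hp hm0 (hBE z hz) (hBE z' hz') (by omega) (by omega) (by omega) h
      have h5 : a = a' := by omega
      rw [h5]
    · intro v hv
      obtain ⟨z, hz, a, h1, h2, rfl, h3⟩ := rep v hv
      rw [h3]
      refine ⟨BE_lt hp hm0 (hBE z hz) (by omega), ?_, ?_⟩
      · rw [inQ z hz _ (by omega)]
        omega
      · rw [inE z hz _ (by omega)]
        omega
    · ext v
      rw [mem_union, mem_union, mem_image, mem_range]
      constructor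
      · intro hv
        by_cases h1 : v ∈ Q
        · exact Or.inl (Or.inr h1)
        · by_cases h2 : v ∈ Low
          · right
            obtain ⟨z, hz, i, hi, rfl⟩ := (hL v).1 h2
            exact ⟨x z i, (hQ _).2 ⟨z, hz, i, hi, rfl⟩, hι z hz i hi⟩
          · left; left
            rw [hEdef, mem_sdiff, mem_range, mem_union]
            exact ⟨hv, fun h => h.elim h1 h2⟩
      · rintro ((h | h) | ⟨w, hw, rfl⟩)
        · exact En v h
        · obtain ⟨z, hz, a, h1, h2, rfl, -⟩ := rep v h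
          exact BE_lt hp hm0 (hBE z hz) (by omega)
        · obtain ⟨z, hz, a, h1, h2, rfl, h3⟩ := rep w hw
          rw [h3]
          exact BE_lt hp hm0 (hBE z hz) (by omega)
    · intro v hv w hw
      obtain ⟨z, hz, a, h1, h2, rfl, h3⟩ := rep v hv
      obtain ⟨z', hz', a', h1', h2', rfl, h3'⟩ := rep w hw
      rw [h3, h3', BE_adj hp hm0 (hBE z hz) (hBE z' hz') (by omega) (by omega) (by omega) (by omega),
        BE_adj hp hm0 (hBE z hz) (hBE z' hz') (by omega) (by omega) (by omega) (by omega)]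
      constructor
      · rintro ⟨h4, h5⟩
        exact ⟨h4, by omega⟩
      · rintro ⟨h4, h5⟩
        exact ⟨h4, by omega⟩
    · intro v hv w hw
      obtain ⟨z, hz, a, h1, h2, rfl, h3⟩ := rep v hv
      obtain ⟨z', hz', a', h1', h2', rfl, h3'⟩ := rep w hw
      rw [h3', BE_adj hp hm0 (hBE z hz) (hBE z' hz') (by omega) (by omega) (by omega) (by omega)]
      rintro ⟨-, h4⟩
      omega
    · intro v hv hvB w hw
      obtain ⟨z, hz, a, h1, h2, rfl, h3⟩ := rep v hv
      have h4 : a ≠ 2 * N + 1 := by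
        rintro rfl
        exact hvB ((hBd _).2 ⟨z, hz, Or.inl rfl⟩)
      have h5 : a ≠ N + 2 := by
        rintro rfl
        exact hvB ((hBd _).2 ⟨z, hz, Or.inr rfl⟩)
      constructor
      · intro h
        rcases (nb z hz a (by omega) (by omega) w (En w hw)).1 h with h | h
        · rw [h, inE z hz _ (by omega)] at hw
          omega
        · rw [h, inE z hz _ (by omega)] at hw
          omega
      · intro h
        rw [h3] at h
        rcases (nb z hz _ (by omega) (by omega) w (En w hw)).1 h with h | h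
        · rw [h, inE z hz _ (by omega)] at hw
          omega
        · rw [h, inE z hz _ (by omega)] at hw
          omega
    · intro v hv
      have hvQ : v ∈ Q := by
        obtain ⟨z, hz, h | h⟩ := (hBd v).1 hv
        · rw [h, inQ z hz _ (by omega)]
          omega
        · rw [h, inQ z hz _ (by omega)]
          omega
      obtain ⟨z, hz, a, h1, h2, rfl, h3⟩ := rep v hvQ
      have ha : a = 2 * N + 1 ∨ a = N + 2 := by
        obtain ⟨z', hz', h | h⟩ := (hBd _).1 hv
        · left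
          exact (BE_addr hp hm0 (hBE z hz) (hBE z' hz') (by omega) (by omega) (by omega) h).1
        · right
          exact (BE_addr hp hm0 (hBE z hz) (hBE z' hz') (by omega) (by omega) (by omega) h).1
      rw [h3]
      rcases ha with rfl | rfl
      · refine ⟨leg1 z hz _ (by omega) (by omega) ?_ ?_, leg2 z hz _ (by omega) (by omega) ?_ ?_⟩
        · rw [inE z hz _ (by omega)]; omega
        · rw [inE z hz _ (by omega)]; omega
        · rw [inE z hz _ (by omega)]; omega
        · rw [inE z hz _ (by omega)]; omega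
      · refine ⟨leg2 z hz _ (by omega) (by omega) ?_ ?_, leg1 z hz _ (by omega) (by omega) ?_ ?_⟩
        · rw [inE z hz _ (by omega)]; omega
        · rw [inE z hz _ (by omega)]; omega
        · rw [inE z hz _ (by omega)]; omega
        · rw [inE z hz _ (by omega)]; omega
    · intro v hv
      obtain ⟨z, hz, a, h1, h2, rfl, h3⟩ := rep v hv
      refine (card_le_card (t := {p^[a + 1] z, p^[a - 1] z}) ?_).trans card_le_two
      intro w hw
      rw [mem_filter] at hw
      obtain ⟨z', hz', a', h1', h2', h4, -⟩ := rep w hw.1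
      have hwn : w < n := by rw [h4]; exact BE_lt hp hm0 (hBE z' hz') (by omega)
      rw [mem_insert, mem_singleton]
      exact (nb z hz a (by omega) (by omega) w hwn).1 hw.2
  · -- the paths
    refine ⟨hQ, ?_, ?_, ?_, ?_⟩
    · intro z hz z' hz' i hi j hj h
      rw [hx, hx] at h
      obtain ⟨h1, h2⟩ := BE_addr hp hm0 (hBE z hz) (hBE z' hz') (by omega) (by omega) (by omega) h
      exact ⟨h2, by omega⟩
    · intro z hz i hi
      rw [hx, hx]
      have e : 2 * N + 1 - i = (2 * N + 1 - (i + 1)) + 1 := by omega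
      refine ⟨?_, (BE_pos hp hm0 (hBE z hz) (i := 2 * N + 1 - (i + 1)) (by omega)).1.1⟩
      rw [e, Function.iterate_succ_apply']
    · intro z hz i hi w hw
      obtain ⟨z', hz', j, hj, rfl⟩ := (hQ w).1 hw
      rw [hx, hx, hx, hx, BE_adj hp hm0 (hBE z hz) (hBE z' hz') (by omega) (by omega) (by omega)
        (by omega)]
      constructor
      · rintro ⟨rfl, h | h⟩
        · right
          refine ⟨by omega, ?_⟩
          congr 1
          congr 1
          omega
        · left
          refine ⟨by omega, ?_⟩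
          congr 1
          congr 1
          omega
      · rintro (⟨h1, h2⟩ | ⟨h1, h2⟩)
        · obtain ⟨h3, h4⟩ := BE_addr hp hm0 (hBE z' hz') (hBE z hz) (by omega) (by omega) (by omega) h2
          exact ⟨h4.symm, by omega⟩
        · obtain ⟨h3, h4⟩ := BE_addr hp hm0 (hBE z' hz') (hBE z hz) (by omega) (by omega) (by omega) h2
          exact ⟨h4.symm, by omega⟩
    · intro z hz
      have h1 : p^[N + 1] z ∈ E := by rw [inE z hz _ (by omega)]; omega
      refine ⟨p^[N + 1] z, h1, ?_, ?_⟩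
      · rw [hx, nb z hz _ (by omega) (by omega) _ (En _ h1)]
        right
        congr 1
        omega
      · rw [hι z hz (N - 1) (by omega), nb z hz _ (by omega) (by omega) _ (En _ h1)]
        left
        congr 1
        congr 1
        omega
  · intro v hv
    rw [hEdef, mem_sdiff, mem_union]
    refine ⟨hZ hv, ?_⟩
    rintro (h | h)
    · obtain ⟨z, hz, a, h1, h2, rfl, -⟩ := rep v h
      exact hZa z hz a (by omega) hv
    · obtain ⟨z, hz, i, hi, rfl⟩ := (hL v).1 h
      exact hZa z hz (i + 1) (by omega) hv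
  · intro v hv w hw h
    obtain ⟨z, hz, a, h1, h2, rfl, h3⟩ := rep v hv
    rw [mem_union]
    rcases (nb z hz a (by omega) (by omega) w hw).1 h with h | h
    · rw [h, inQ z hz _ (by omega), inE z hz _ (by omega)]
      omega
    · rw [h, inQ z hz _ (by omega), inE z hz _ (by omega)]
      omega
  · intro v hv
    obtain ⟨z, hz, a, h1, h2, rfl, h3⟩ := rep v hv
    have h4 : nbs n p (p^[a] z) = {p^[a + 1] z, p^[a - 1] z} := by
      ext w
      unfold nbs
      rw [mem_filter, mem_range, mem_insert, mem_singleton]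
      constructor
      · rintro ⟨hw, h⟩
        exact (nb z hz a (by omega) (by omega) w hw).1 h
      · intro h
        have hw : w < n := by
          rcases h with h | h
          · rw [h]; exact BE_lt hp hm0 (hBE z hz) (by omega)
          · rw [h]; exact BE_lt hp hm0 (hBE z hz) (by omega)
        exact ⟨hw, (nb z hz a (by omega) (by omega) w hw).2 h⟩
    rw [h4]
    refine card_pair fun h => ?_
    have := (BE_addr hp hm0 (hBE z hz) (hBE z hz) (a := a + 1) (by omega) (by omega) (by omega) h).1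
    omega
  · -- counting
    set NP := (range n).filter fun v => ¬ PV n p v with hNP
    set L := (range n).filter fun v => chl n p v = ∅ with hLf
    have hNPL : NP.card ≤ 2 * L.card := card_NP hp hn
    obtain ⟨zz, hzz⟩ : ∃ zz : ℕ → ℕ, ∀ z, BE n p m z → ∀ i, i < m → zz (p^[i] z) = z := by
      refine ⟨fun ζ => if h : ∃ z, BE n p m z ∧ ∃ i, i < m ∧ p^[i] z = ζ then Classical.choose h else 0, ?_⟩
      intro z hz i hi
      have h : ∃ z', BE n p m z' ∧ ∃ j, j < m ∧ p^[j] z' = p^[i] z := ⟨z, hz, i, hi, rfl⟩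
      simp only [dif_pos h]
      obtain ⟨h1, j, h2, h3⟩ := Classical.choose_spec h
      exact (BE_addr0 hp hm0 h1 hz h2 hi h3).2
    have hcov : E ⊆ NP ∪ Zs ∪ Zs.image (fun z => p^[N + 1] z) ∪
        (NP ×ˢ range (m - 1)).image (fun q => p^[q.2 + 1] q.1) ∪
        (Z ×ˢ range m).image (fun q => p^[q.2] (zz q.1)) := by
      intro v hv
      simp only [mem_union]
      by_cases hPV : PV n p v
      · rcases go_down hp hPV (m - 1 - pos1 n p v % m) with ⟨k, h1, h2, u, hu1, hu2, hu3⟩ | ⟨z, h1, h2, h3⟩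
        · left; right
          rw [mem_image]
          refine ⟨(u, k - 1), ?_, ?_⟩
          · rw [mem_product, mem_range, hNP, mem_filter, mem_range]
            exact ⟨⟨hu1, hu2⟩, by simp only; omega⟩
          · simp only
            rw [← hu3]
            congr 1
            omega
        · have h4 : pos1 n p z % m = m - 1 := by
            have h5 := Nat.div_add_mod (pos1 n p v) m
            have h6 := Nat.mod_lt (pos1 n p v) hm0
            have h7 : pos1 n p z = m * (pos1 n p v / m) + (m - 1) := by omega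
            rw [h7, Nat.mul_add_mod, Nat.mod_eq_of_lt (by omega)]
          have hzB : BE n p m z := ⟨h1, h4⟩
          have hilt : m - 1 - pos1 n p v % m < m := by omega
          by_cases h5 : ∀ i < m, p^[i] z ∉ Z
          · have hz : z ∈ Zs := by
              rw [hZs, mem_filter, mem_range]
              exact ⟨h1.2.1, hzB, h5⟩
            rw [← h2, inE z hz _ (by omega)] at hv
            rcases hv with h6 | h6 | h6
            · left; left; left; right
              rw [h6] at h2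
              rw [← h2]
              exact hz
            · left; left; right
              rw [mem_image]
              exact ⟨z, hz, by rw [← h2, h6]⟩
            · omega
          · push Not at h5
            obtain ⟨i, hi, hiZ⟩ := h5
            right
            rw [mem_image]
            refine ⟨(p^[i] z, m - 1 - pos1 n p v % m), ?_, ?_⟩
            · rw [mem_product, mem_range]
              exact ⟨hiZ, hilt⟩
            · simp only
              rw [hzz z hzB i hi, h2]
      · left; left; left; left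
        rw [hNP, mem_filter, mem_range]
        exact ⟨En v hv, hPV⟩
    have hblk : Zs.card * m ≤ n := by
      have h1 : ((Zs ×ˢ range m).image (fun q : ℕ × ℕ => p^[q.2] q.1)).card = Zs.card * m := by
        rw [card_image_of_injOn, card_product, card_range]
        rintro ⟨z, a⟩ h1 ⟨z', a'⟩ h2 h3
        rw [mem_coe, mem_product, mem_range] at h1 h2
        obtain ⟨h4, h5⟩ := BE_addr0 hp hm0 (hBE z h1.1) (hBE z' h2.1) h1.2 h2.2 h3
        simp only at h4 h5
        rw [h4, h5]
      rw [← h1, ← card_range n]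
      refine card_le_card fun v hv => ?_
      rw [mem_image] at hv
      obtain ⟨⟨z, a⟩, h2, rfl⟩ := hv
      rw [mem_product, mem_range] at h2
      rw [mem_range]
      exact BE_lt hp hm0 (hBE z h2.1) h2.2.le
    have hE1 : E.card ≤ NP.card + Zs.card + Zs.card + NP.card * (m - 1) + Z.card * m := by
      refine (card_le_card hcov).trans ((card_union_le _ _).trans ?_)
      have a1 := card_union_le (NP ∪ Zs ∪ Zs.image (fun z => p^[N + 1] z))
        ((NP ×ˢ range (m - 1)).image (fun q => p^[q.2 + 1] q.1))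
      have a2 := card_union_le (NP ∪ Zs) (Zs.image (fun z => p^[N + 1] z))
      have a3 := card_union_le NP Zs
      have a4 : (Zs.image (fun z => p^[N + 1] z)).card ≤ Zs.card := card_image_le
      have a5 : ((NP ×ˢ range (m - 1)).image (fun q : ℕ × ℕ => p^[q.2 + 1] q.1)).card ≤
          NP.card * (m - 1) := by
        refine card_image_le.trans ?_
        rw [card_product, card_range]
      have a6 : ((Z ×ˢ range m).image (fun q : ℕ × ℕ => p^[q.2] (zz q.1))).card ≤ Z.card * m := by
        refine card_image_le.trans ?_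
        rw [card_product, card_range]
      omega
    have hE2 : (E.card : ℝ) ≤ 2 * Zs.card + NP.card * m + Z.card * m := by
      have h1 : NP.card + NP.card * (m - 1) = NP.card * m := by
        obtain ⟨k, rfl⟩ : ∃ k, m = k + 1 := ⟨m - 1, by omega⟩
        rw [Nat.add_sub_cancel]
        ring
      have h2 : E.card ≤ 2 * Zs.card + NP.card * m + Z.card * m := by
        rw [← h1]
        omega
      exact_mod_cast h2
    have hmr : (m : ℝ) = 2 * N + 2 := by rw [hm]; push_cast; ring
    have h3 : 2 * (Zs.card : ℝ) ≤ 2 * n / (2 * N + 2) := by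
      rw [← hmr, le_div_iff₀ (by exact_mod_cast hm0)]
      have : ((Zs.card * m : ℕ) : ℝ) ≤ n := by exact_mod_cast hblk
      push_cast at this
      linarith
    have h4 : (NP.card : ℝ) ≤ 2 * L.card := by exact_mod_cast hNPL
    have h5 : (0 : ℝ) ≤ NP.card := Nat.cast_nonneg _
    have h6 : (0 : ℝ) ≤ Z.card := Nat.cast_nonneg _
    have h7 : (0 : ℝ) ≤ L.card := Nat.cast_nonneg _
    have h8 : (0 : ℝ) ≤ N := Nat.cast_nonneg _
    have h9 : (NP.card : ℝ) * m ≤ (2 * L.card) * m := mul_le_mul_of_nonneg_right h4 (Nat.cast_nonneg m)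
    rw [hmr] at h9 hE2
    nlinarith

end Pool.Agent.BD
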