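import Pool.Agent.Helper73.BD.HX
import Pool.Agent.Helper73.BD.M1

/-!
# BD-FP: changing the signs at the last vertices of the paths (`e = 2`)

Proof in words.  One vertex `z` at a time (induction on `V`).  `a = x z (N-1)`, `a' = ι a`, with labels `F a`, `F a' = -F a`.  `F' = F` except `F' a = -F a`, `F' a' = F a`: the labels of `a`, `a'` are exchanged.
The set of labels is the same.  Neighbours in `A = E ∪ Λ ∪ ι(Λ)`: `a` is adjacent to exactly one vertex of `E`, the vertex `y` of `Pth.sep` (`Twin.leg`), in `Q` only to `x z (N-2) ∉ Λ` (`Pth.adj`), to no vertex of `ι(Q)`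
(`Twin.cr`).  `a'` is adjacent to exactly one vertex of `E`, the same `y`, to no vertex of `Q`, and in `ι(Q)` only to `ι (x z (N-2))` (`Twin.tw`), which is not in `ι(Λ)` (`ι` injective).
So exactly two edges of `A` touch `{a, a'}`: `{a, y}` and `{a', y}`, and their sums are exchanged.  All the fields of `LS` follow: the map which exchanges the two edges (and fixes the others) is a bijection `θ` of `EdI p A` and
the new sum of `i` is the old sum of `θ i`.  The hypotheses `hb`, `h` hold again for `F'` and the other `z`.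
-/

set_option autoImplicit false

namespace Pool.Agent.BD

open Finset Pool.Agent.SEM

private theorem Ad_symm54 {p : ℕ → ℕ} {v w : ℕ} (h : Ad p v w) : Ad p w v := h.symm

/-- relabelling by an automorphism of the graph on `A` which is an involution -/
private theorem LS_perm54 {n : ℕ} {p : ℕ → ℕ} {A : Finset ℕ} {F : ℕ → ℤ} {KL KS : Finset ℕ}
    (h : LS n p A F KL KS) (τ : ℕ → ℕ) (hτ : ∀ v ∈ A, τ v ∈ A) (hττ : ∀ v ∈ A, τ (τ v) = v)
    (hadj : ∀ v ∈ A, ∀ w ∈ A, Ad p v w → Ad p (τ v) (τ w)) (hpar : ∀ i ∈ A, 0 < i → p i < i) :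
    LS n p A (fun v => F (τ v)) KL KS := by
  have hτi : ∀ v ∈ A, ∀ w ∈ A, τ v = τ w → v = w := by
    intro v hv w hw e
    rw [← hττ v hv, ← hττ w hw, e]
  have hθ : ∀ i ∈ EdI p A, ∃ k ∈ EdI p A, (τ i = k ∧ τ (p i) = p k) ∨ (τ i = p k ∧ τ (p i) = k) := by
    intro i hi
    unfold EdI at hi
    rw [mem_filter] at hi
    obtain ⟨hiA, hi0, hpA⟩ := hi
    have h1 := hadj i hiA (p i) hpA (Or.inl ⟨hi0, rfl⟩)
    rcases h1 with ⟨h2, h3⟩ | ⟨h2, h3⟩
    · refine ⟨τ i, ?_, Or.inl ⟨rfl, h3.symm⟩⟩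
      unfold EdI
      rw [mem_filter]
      exact ⟨hτ i hiA, h2, by rw [h3]; exact hτ _ hpA⟩
    · refine ⟨τ (p i), ?_, Or.inr ⟨h3.symm, rfl⟩⟩
      unfold EdI
      rw [mem_filter]
      exact ⟨hτ _ hpA, h2, by rw [h3]; exact hτ i hiA⟩
  have hsum : ∀ i k, (τ i = k ∧ τ (p i) = p k) ∨ (τ i = p k ∧ τ (p i) = k) →
      F (τ i) + F (τ (p i)) = F k + F (p k) := by
    rintro i k (⟨h1, h2⟩ | ⟨h1, h2⟩)
    · rw [h1, h2]
    · rw [h1, h2, add_comm]
  refine ⟨?_, fun v hv => h.lab _ (hτ v hv), fun v hv => h.cls _ (hτ v hv), h.cL, h.KLs, ?_, ?_,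
    ?_, h.cS, h.KSs⟩
  · intro v hv w hw e
    exact hτi v hv w hw (h.inj (hτ v hv) (hτ w hw) e)
  · intro i hi j hj e
    obtain ⟨k, hk, hk'⟩ := hθ i hi
    obtain ⟨l, hl, hl'⟩ := hθ j hj
    simp only at e
    rw [hsum i k hk', hsum j l hl'] at e
    have hkl : k = l := h.sinj hk hl e
    subst hkl
    rw [mem_coe] at hi hj
    unfold EdI at hi hj
    rw [mem_filter] at hi hj
    have h1 := hpar i hi.1 hi.2.1
    have h2 := hpar j hj.1 hj.2.1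
    rcases hk' with ⟨h3, h4⟩ | ⟨h3, h4⟩ <;> rcases hl' with ⟨h5, h6⟩ | ⟨h5, h6⟩
    · exact hτi i hi.1 j hj.1 (h3.trans h5.symm)
    · have h7 := hτi i hi.1 (p j) hj.2.2 (h3.trans h6.symm)
      have h8 := hτi (p i) hi.2.2 j hj.1 (h4.trans h5.symm)
      omega
    · have h7 := hτi i hi.1 (p j) hj.2.2 (h3.trans h6.symm)
      have h8 := hτi (p i) hi.2.2 j hj.1 (h4.trans h5.symm)
      omega
    · exact hτi i hi.1 j hj.1 (h3.trans h5.symm)
  · intro i hi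
    obtain ⟨k, hk, hk'⟩ := hθ i hi
    rw [hsum i k hk']
    exact h.sm k hk
  · intro i hi h0
    obtain ⟨k, hk, hk'⟩ := hθ i hi
    rw [hsum i k hk'] at h0 ⊢
    exact h.scls k hk h0

theorem flips {n N : ℕ} {p ι : ℕ → ℕ} {E Q Zs Λ V : Finset ℕ} {x : ℕ → ℕ → ℕ} (hN : 5 ≤ N)
    (hT : Twin n 2 p ι E (Zs.biUnion fun z => {x z 0, x z (N - 1)}) Q) (hP : Pth n N p ι E Q Zs x)
    (hΛ : Λ ⊆ Q) (hB : ∀ z ∈ Zs, x z (N - 1) ∈ Λ ∧ x z (N - 2) ∉ Λ) {F : ℕ → ℤ} {KL KS : Finset ℕ}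
    (h : LS n p (E ∪ Λ ∪ Λ.image ι) F KL KS) (hb : ∀ z ∈ Zs, F (ι (x z (N - 1))) = -F (x z (N - 1))) (hV : V ⊆ Zs) :
    ∃ F' : ℕ → ℤ, (∀ z ∈ V, F' (x z (N - 1)) = -F (x z (N - 1)) ∧ F' (ι (x z (N - 1))) = F (x z (N - 1))) ∧
      (∀ v, (∀ z ∈ V, v ≠ x z (N - 1) ∧ v ≠ ι (x z (N - 1))) → F' v = F v) ∧
      LS n p (E ∪ Λ ∪ Λ.image ι) F' KL KS := by
  classical
  set A := E ∪ Λ ∪ Λ.image ι with hA
  have hEQ := disjoint_left.1 hT.EQ
  -- the vertices to be exchanged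
  set S : Finset ℕ := V.image fun z => x z (N - 1) with hS
  have hSΛ : ∀ a ∈ S, a ∈ Λ := by
    intro a ha
    rw [hS, mem_image] at ha
    obtain ⟨z, hz, rfl⟩ := ha
    exact (hB z (hV hz)).1
  have hSQ : ∀ a ∈ S, a ∈ Q := fun a ha => hΛ (hSΛ a ha)
  set τ : ℕ → ℕ := fun v => if v ∈ S then ι v else
    if h : ∃ a ∈ S, ι a = v then Classical.choose h else v with hτ
  have hιS : ∀ a ∈ S, ι a ∉ S := fun a ha h' => (hT.ιn a (hSQ a ha)).2.1 (hSQ _ h')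
  have hτ1 : ∀ a ∈ S, τ a = ι a := by
    intro a ha
    rw [hτ]
    simp only [ha, if_pos]
  have hτ2 : ∀ a ∈ S, τ (ι a) = a := by
    intro a ha
    have hex : ∃ b ∈ S, ι b = ι a := ⟨a, ha, rfl⟩
    have h1 : τ (ι a) = Classical.choose hex := by
      rw [hτ]
      simp only [hιS a ha, if_false]
      rw [dif_pos hex]
    rw [h1]
    obtain ⟨h2, h3⟩ := Classical.choose_spec hex
    exact hT.ιinj (hSQ _ h2) (hSQ a ha) h3
  have hτ3 : ∀ v, v ∉ S → (∀ a ∈ S, ι a ≠ v) → τ v = v := by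
    intro v h1 h2
    rw [hτ]
    simp only [h1, if_false]
    rw [dif_neg]
    rintro ⟨a, ha, h3⟩
    exact h2 a ha h3
  have hcase : ∀ v, v ∈ S ∨ (∃ a ∈ S, ι a = v) ∨ (v ∉ S ∧ ∀ a ∈ S, ι a ≠ v) := by
    intro v
    by_cases h1 : v ∈ S
    · exact Or.inl h1
    · by_cases h2 : ∃ a ∈ S, ι a = v
      · exact Or.inr (Or.inl h2)
      · push Not at h2
        exact Or.inr (Or.inr ⟨h1, h2⟩)
  -- the neighbours in `A`
  have hnb : ∀ a ∈ S, ∃ y ∈ E, Ad p a y ∧ Ad p (ι a) y ∧ (∀ w ∈ A, Ad p a w → w = y) ∧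
      ∀ w ∈ A, Ad p (ι a) w → w = y := by
    intro a ha
    have haQ := hSQ a ha
    obtain ⟨z, hz, rfl⟩ := mem_image.1 ha
    have hzZ := hV hz
    obtain ⟨y, hy, hy1, hy2⟩ := hP.sep z hzZ
    have hBd : x z (N - 1) ∈ Zs.biUnion fun z => ({x z 0, x z (N - 1)} : Finset ℕ) :=
      mem_biUnion.2 ⟨z, hzZ, mem_insert_of_mem (mem_singleton_self _)⟩
    obtain ⟨hl1, hl2⟩ := hT.leg _ hBd
    have hQno : ∀ w ∈ Λ, ¬ Ad p (x z (N - 1)) w := by
      intro w hw h1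
      rcases (hP.adj z hzZ (N - 1) (by omega) w (hΛ hw)).1 h1 with ⟨h2, -⟩ | ⟨-, h2⟩
      · omega
      · have h3 : N - 1 - 1 = N - 2 := by omega
        rw [h3] at h2
        rw [h2] at hw
        exact (hB z hzZ).2 hw
    refine ⟨y, hy, hy1, hy2, ?_, ?_⟩
    · intro w hw h1
      rw [hA, mem_union, mem_union, mem_image] at hw
      rcases hw with (hw | hw) | ⟨w', hw', rfl⟩
      · exact hl1.unique ⟨hw, h1⟩ ⟨hy, hy1⟩
      · exact absurd h1 (hQno w hw)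
      · exact absurd h1 (hT.cr _ haQ w' (hΛ hw'))
    · intro w hw h1
      rw [hA, mem_union, mem_union, mem_image] at hw
      rcases hw with (hw | hw) | ⟨w', hw', rfl⟩
      · exact hl2.unique ⟨hw, h1⟩ ⟨hy, hy2⟩
      · exact absurd (Ad_symm54 h1) (hT.cr w (hΛ hw) _ haQ)
      · exact absurd ((hT.tw _ haQ w' (hΛ hw')).2 h1) (hQno w' hw')
  have hEfix : ∀ y ∈ E, τ y = y := by
    intro y hy
    refine hτ3 y (fun h1 => hEQ hy (hSQ y h1)) fun a ha h1 => ?_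
    exact (hT.ιn a (hSQ a ha)).2.2 (h1 ▸ hy)
  have hτA : ∀ v ∈ A, τ v ∈ A := by
    intro v hv
    rcases hcase v with h1 | ⟨a, ha, rfl⟩ | ⟨h1, h2⟩
    · rw [hτ1 v h1, hA]
      exact mem_union_right _ (mem_image_of_mem _ (hSΛ v h1))
    · rw [hτ2 a ha, hA]
      exact mem_union_left _ (mem_union_right _ (hSΛ a ha))
    · rw [hτ3 v h1 h2]
      exact hv
  have hττ : ∀ v ∈ A, τ (τ v) = v := by
    intro v hv
    rcases hcase v with h1 | ⟨a, ha, rfl⟩ | ⟨h1, h2⟩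
    · rw [hτ1 v h1, hτ2 v h1]
    · rw [hτ2 a ha, hτ1 a ha]
    · rw [hτ3 v h1 h2, hτ3 v h1 h2]
  have hhalf : ∀ v ∈ A, ∀ w ∈ A, Ad p v w → (v ∈ S ∨ ∃ a ∈ S, ι a = v) → Ad p (τ v) (τ w) := by
    rintro v hv w hw h1 (h2 | ⟨a, ha, rfl⟩)
    · obtain ⟨y, hy, hy1, hy2, hy3, hy4⟩ := hnb v h2
      rw [hy3 w hw h1, hτ1 v h2, hEfix y hy]
      exact hy2
    · obtain ⟨y, hy, hy1, hy2, hy3, hy4⟩ := hnb a ha
      rw [hy4 w hw h1, hτ2 a ha, hEfix y hy]
      exact hy1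
  have hadj : ∀ v ∈ A, ∀ w ∈ A, Ad p v w → Ad p (τ v) (τ w) := by
    intro v hv w hw h1
    rcases hcase v with h2 | h2 | ⟨h2, h3⟩
    · exact hhalf v hv w hw h1 (Or.inl h2)
    · exact hhalf v hv w hw h1 (Or.inr h2)
    · rcases hcase w with h4 | h4 | ⟨h4, h5⟩
      · exact Ad_symm54 (hhalf w hw v hv (Ad_symm54 h1) (Or.inl h4))
      · exact Ad_symm54 (hhalf w hw v hv (Ad_symm54 h1) (Or.inr h4))
      · rw [hτ3 v h2 h3, hτ3 w h4 h5]
        exact h1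
  have hpar : ∀ i ∈ A, 0 < i → p i < i := by
    intro i hi h0
    refine hT.par i h0 ?_
    rw [hA, mem_union, mem_union, mem_image] at hi
    rcases hi with (hi | hi) | ⟨w, hw, rfl⟩
    · exact mem_range.1 (hT.En hi)
    · exact mem_range.1 (hT.Qn (hΛ hi))
    · exact (hT.ιn w (hΛ hw)).1
  refine ⟨fun v => F (τ v), ?_, ?_, LS_perm54 h τ hτA hττ hadj hpar⟩
  · intro z hz
    have ha : x z (N - 1) ∈ S := mem_image_of_mem _ hz
    simp only
    rw [hτ1 _ ha, hτ2 _ ha]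
    exact ⟨hb z (hV hz), rfl⟩
  · intro v hv
    simp only
    rw [hτ3 v]
    · intro h1
      rw [hS, mem_image] at h1
      obtain ⟨z, hz, h2⟩ := h1
      exact (hv z hz).1 h2.symm
    · intro a ha h1
      rw [hS, mem_image] at ha
      obtain ⟨z, hz, rfl⟩ := ha
      exact (hv z hz).2 h1.symm

end Pool.Agent.BD
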