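import Pool.Agent.Helper73.BD.M1

/-!
# BD-M2: the layout for `e = 2`

Proof in words.  `N = K + 4` with `K` a large multiple of 10 (`K = 10 K'`), `bare`.  `δ`: `|E| ≤ n/(N+1) + (2N+3)(2 ε0 n + 1 + s)`, `2 N |Zs| = 2|Q| = n - |E|`, `|Bd| = |CN| = 2|Zs| ≤ n/N`: everything `≤ δ n` if `N` is large, then `ε0` small, then `n` large.
Component of `z`: `x z i`, `2 ≤ i ≤ N-3` (`K = N - 4` vertices), `CN` = all `x z 1`, `x z (N-2)`.
`ZC ⊆ Zs` with `⌊η n/K⌋` elements, `ZR` disjoint from `ZC` with `⌊ρ n/K⌋` elements (`|Zs| ≥ 2n/(5N)`, `η, ρ ≤ 1/10`), `ZM` the rest.  `Cl, Rs, Mn` = unions of the components; `T = {x z 2 : z ∈ ZM}`,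
`P (x z 2) = {x z i : 2 ≤ i ≤ N-3}`, `En = {x z 2, x z (N-3)}`.
Sites: in the component of `z ∈ ZC` the windows `(x z i, x z (i+1), x z (i+2), x z (i+3))`, `i = 4, 9, 14, ..` with `i + 5 ≤ N - 3`: at least `K/5 - 2` windows; numbered by `j < J` (enumerate `ZC` and the
windows); the outer vertices `x z i`, `x z (i+3)` of different windows are not adjacent (`x z (i+4)` is in between).
Cover sites: `cv = x z i`, `cw = x z (i+1)`, `i = 4, 9, ..`, `i + 4 ≤ N - 3`, `z ∈ ZR`: closed neighbourhoods `x z (i-1), .., x z (i+2)`.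
`J ≥ |ZC| (K/5 - 2) ≥ η n/10`, `Jc ≥ ρ n/10` for `K`, `n` large.
-/

set_option autoImplicit false

namespace Pool.Agent.BD

open Finset Pool.Agent.SEM

/-- vertices `x z i`, `z ∈ A`, `a ≤ i ≤ b` -/
def stp (x : ℕ → ℕ → ℕ) (A : Finset ℕ) (a b : ℕ) : Finset ℕ := A.biUnion fun z => (Icc a b).image (x z)

private lemma mem_stp_63 {x : ℕ → ℕ → ℕ} {A : Finset ℕ} {a b v : ℕ} :
    v ∈ stp x A a b ↔ ∃ z ∈ A, ∃ i, a ≤ i ∧ i ≤ b ∧ x z i = v := by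
  unfold stp
  simp only [mem_biUnion, mem_image, mem_Icc]
  constructor
  · rintro ⟨z, hz, i, ⟨h1, h2⟩, h3⟩
    exact ⟨z, hz, i, h1, h2, h3⟩
  · rintro ⟨z, hz, i, h1, h2, h3⟩
    exact ⟨z, hz, i, ⟨h1, h2⟩, h3⟩

private lemma mem_two_63 {x : ℕ → ℕ → ℕ} {A : Finset ℕ} {a b v : ℕ} :
    v ∈ (A.biUnion fun z => ({x z a, x z b} : Finset ℕ)) ↔ ∃ z ∈ A, x z a = v ∨ x z b = v := by
  simp only [mem_biUnion, mem_insert, mem_singleton, eq_comm]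

private lemma disj_63 {n N : ℕ} {p ι : ℕ → ℕ} {E Q Zs : Finset ℕ} {x : ℕ → ℕ → ℕ}
    (h : Pth n N p ι E Q Zs x) {A B : Finset ℕ} (P1 P2 : ℕ → ℕ → Prop)
    (hA : ∀ v ∈ A, ∃ z ∈ Zs, ∃ i, i < N ∧ P1 z i ∧ x z i = v)
    (hB : ∀ v ∈ B, ∃ z ∈ Zs, ∃ i, i < N ∧ P2 z i ∧ x z i = v)
    (hP : ∀ z i, P1 z i → P2 z i → False) : Disjoint A B := by
  rw [disjoint_left]
  intro v hv hv'
  obtain ⟨z, hz, i, hi, hp1, h1⟩ := hA v hv
  obtain ⟨z', hz', i', hi', hp2, h2⟩ := hB v hv'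
  obtain ⟨h3, h4⟩ := h.inj z hz z' hz' i hi i' hi' (h1.trans h2.symm)
  subst h3
  subst h4
  exact hP _ _ hp1 hp2

private lemma nb_63 {n N : ℕ} {p ι : ℕ → ℕ} {E Q Zs : Finset ℕ} {x : ℕ → ℕ → ℕ}
    (h : Pth n N p ι E Q Zs x) {z i w : ℕ} (hz : z ∈ Zs) (hi : i < N) (hw : w ∈ Q)
    (ha : Ad p (x z i) w) : ∃ j, j < N ∧ x z j = w ∧ (j = i + 1 ∨ j + 1 = i) := by
  rcases (h.adj z hz i hi w hw).1 ha with ⟨h1, h2⟩ | ⟨h1, h2⟩
  · exact ⟨i + 1, h1, h2.symm, Or.inl rfl⟩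
  · exact ⟨i - 1, by omega, h2.symm, Or.inr (by omega)⟩

private lemma Q_63 {n N : ℕ} {p ι : ℕ → ℕ} {E Q Zs : Finset ℕ} {x : ℕ → ℕ → ℕ}
    (h : Pth n N p ι E Q Zs x) {ZC ZR ZM : Finset ℕ} (hZ : Zs = ZC ∪ ZR ∪ ZM) (hN : 20 ≤ N) :
    Q = QQ (Zs.biUnion fun z => {x z 0, x z (N - 1)}) (Zs.biUnion fun z => {x z 1, x z (N - 2)})
        (stp x ZC 2 (N - 3)) (stp x ZR 2 (N - 3)) (stp x ZM 2 (N - 3)) := by
  ext v
  unfold QQ
  rw [h.Q_eq, mem_union, mem_union, mem_union, mem_union, mem_two_63, mem_two_63, mem_stp_63,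
    mem_stp_63, mem_stp_63]
  constructor
  · rintro ⟨z, hz, i, hi, hv⟩
    by_cases h0 : i = 0
    · subst h0
      exact Or.inl (Or.inl (Or.inl (Or.inl ⟨z, hz, Or.inl hv⟩)))
    by_cases h1 : i = N - 1
    · subst h1
      exact Or.inl (Or.inl (Or.inl (Or.inl ⟨z, hz, Or.inr hv⟩)))
    by_cases h2 : i = 1
    · subst h2
      exact Or.inl (Or.inl (Or.inl (Or.inr ⟨z, hz, Or.inl hv⟩)))
    by_cases h3 : i = N - 2
    · subst h3
      exact Or.inl (Or.inl (Or.inl (Or.inr ⟨z, hz, Or.inr hv⟩)))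
    have h4 : 2 ≤ i := by omega
    have h5 : i ≤ N - 3 := by omega
    rw [hZ, mem_union, mem_union] at hz
    rcases hz with (hz | hz) | hz
    · exact Or.inl (Or.inl (Or.inr ⟨z, hz, i, h4, h5, hv⟩))
    · exact Or.inl (Or.inr ⟨z, hz, i, h4, h5, hv⟩)
    · exact Or.inr ⟨z, hz, i, h4, h5, hv⟩
  · have hC : ∀ z ∈ ZC, z ∈ Zs := fun z hz => by
      rw [hZ, mem_union, mem_union]; exact Or.inl (Or.inl hz)
    have hR : ∀ z ∈ ZR, z ∈ Zs := fun z hz => by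
      rw [hZ, mem_union, mem_union]; exact Or.inl (Or.inr hz)
    have hM : ∀ z ∈ ZM, z ∈ Zs := fun z hz => by
      rw [hZ, mem_union, mem_union]; exact Or.inr hz
    rintro ((((⟨z, hz, hv | hv⟩ | ⟨z, hz, hv | hv⟩) | ⟨z, hz, i, h1, h2, hv⟩) |
      ⟨z, hz, i, h1, h2, hv⟩) | ⟨z, hz, i, h1, h2, hv⟩)
    · exact ⟨z, hz, 0, by omega, hv⟩
    · exact ⟨z, hz, N - 1, by omega, hv⟩
    · exact ⟨z, hz, 1, by omega, hv⟩
    · exact ⟨z, hz, N - 2, by omega, hv⟩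
    · exact ⟨z, hC z hz, i, by omega, hv⟩
    · exact ⟨z, hR z hz, i, by omega, hv⟩
    · exact ⟨z, hM z hz, i, by omega, hv⟩

private lemma dvs_63 {n N : ℕ} {p ι : ℕ → ℕ} {E Q Zs : Finset ℕ} {x : ℕ → ℕ → ℕ}
    (h : Pth n N p ι E Q Zs x) {ZC ZR ZM : Finset ℕ} (hZ : Zs = ZC ∪ ZR ∪ ZM) (hN : 20 ≤ N)
    (hCR : Disjoint ZC ZR) (hCRM : Disjoint (ZC ∪ ZR) ZM)
    (hT : Twin n 2 p ι E (Zs.biUnion fun z => {x z 0, x z (N - 1)}) Q)
    (P En : ℕ → Finset ℕ)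
    (hP : ∀ z ∈ ZM, P (x z 2) = (Icc 2 (N - 3)).image (x z) ∧ En (x z 2) = {x z 2, x z (N - 3)}) :
    Dvs n 2 N p (Zs.biUnion fun z => {x z 0, x z (N - 1)}) (Zs.biUnion fun z => {x z 1, x z (N - 2)})
        (stp x ZC 2 (N - 3)) (stp x ZR 2 (N - 3)) (stp x ZM 2 (N - 3)) (ZM.image fun z => x z 2) P En := by
  have hC : ∀ z ∈ ZC, z ∈ Zs := fun z hz => by
    rw [hZ, mem_union, mem_union]; exact Or.inl (Or.inl hz)
  have hR : ∀ z ∈ ZR, z ∈ Zs := fun z hz => by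
    rw [hZ, mem_union, mem_union]; exact Or.inl (Or.inr hz)
  have hM : ∀ z ∈ ZM, z ∈ Zs := fun z hz => by
    rw [hZ, mem_union, mem_union]; exact Or.inr hz
  have hQ := Q_63 h hZ hN
  have eB : ∀ v ∈ (Zs.biUnion fun z => ({x z 0, x z (N - 1)} : Finset ℕ)),
      ∃ z ∈ Zs, ∃ i, i < N ∧ (i = 0 ∨ i = N - 1) ∧ x z i = v := by
    intro v hv
    rw [mem_two_63] at hv
    rcases hv with ⟨z, hz, hv | hv⟩
    · exact ⟨z, hz, 0, by omega, Or.inl rfl, hv⟩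
    · exact ⟨z, hz, N - 1, by omega, Or.inr rfl, hv⟩
  have eN : ∀ v ∈ (Zs.biUnion fun z => ({x z 1, x z (N - 2)} : Finset ℕ)),
      ∃ z ∈ Zs, ∃ i, i < N ∧ (i = 1 ∨ i = N - 2) ∧ x z i = v := by
    intro v hv
    rw [mem_two_63] at hv
    rcases hv with ⟨z, hz, hv | hv⟩
    · exact ⟨z, hz, 1, by omega, Or.inl rfl, hv⟩
    · exact ⟨z, hz, N - 2, by omega, Or.inr rfl, hv⟩
  have eS : ∀ A : Finset ℕ, (∀ z ∈ A, z ∈ Zs) → ∀ v ∈ stp x A 2 (N - 3),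
      ∃ z ∈ Zs, ∃ i, i < N ∧ (z ∈ A ∧ 2 ≤ i ∧ i ≤ N - 3) ∧ x z i = v := by
    intro A hA v hv
    obtain ⟨z, hz, i, h1, h2, h3⟩ := mem_stp_63.1 hv
    exact ⟨z, hA z hz, i, by omega, ⟨hz, h1, h2⟩, h3⟩
  have inN1 : ∀ z ∈ Zs, x z 1 ∈ (Zs.biUnion fun z => ({x z 1, x z (N - 2)} : Finset ℕ)) :=
    fun z hz => mem_two_63.2 ⟨z, hz, Or.inl rfl⟩
  have inN2 : ∀ z ∈ Zs, x z (N - 2) ∈ (Zs.biUnion fun z => ({x z 1, x z (N - 2)} : Finset ℕ)) :=
    fun z hz => mem_two_63.2 ⟨z, hz, Or.inr rfl⟩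
  refine ⟨?_, ?_, ?_, ?_, ?_, ?_, ?_, ?_, ?_, ?_, ?_, ?_⟩
  · exact disj_63 h (fun _ i => i = 0 ∨ i = N - 1) (fun _ i => i = 1 ∨ i = N - 2) eB eN
      (fun z i h1 h2 => by omega)
  · refine disj_63 h (fun _ i => i ≤ 1 ∨ N - 2 ≤ i) (fun z i => z ∈ ZC ∧ 2 ≤ i ∧ i ≤ N - 3) ?_
      (eS ZC hC) (fun z i h1 h2 => by omega)
    intro v hv
    rcases mem_union.1 hv with hv | hv
    · obtain ⟨z, hz, i, hi, h1, h2⟩ := eB v hv
      exact ⟨z, hz, i, hi, by omega, h2⟩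
    · obtain ⟨z, hz, i, hi, h1, h2⟩ := eN v hv
      exact ⟨z, hz, i, hi, by omega, h2⟩
  · refine disj_63 h (fun z i => (i ≤ 1 ∨ N - 2 ≤ i) ∨ z ∈ ZC)
      (fun z i => z ∈ ZR ∧ 2 ≤ i ∧ i ≤ N - 3) ?_ (eS ZR hR) ?_
    · intro v hv
      rcases mem_union.1 hv with hv | hv
      · rcases mem_union.1 hv with hv | hv
        · obtain ⟨z, hz, i, hi, h1, h2⟩ := eB v hv
          exact ⟨z, hz, i, hi, Or.inl (by omega), h2⟩
        · obtain ⟨z, hz, i, hi, h1, h2⟩ := eN v hv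
          exact ⟨z, hz, i, hi, Or.inl (by omega), h2⟩
      · obtain ⟨z, hz, i, hi, h1, h2⟩ := eS ZC hC v hv
        exact ⟨z, hz, i, hi, Or.inr h1.1, h2⟩
    · rintro z i (h1 | h1) ⟨h2, h3, h4⟩
      · omega
      · exact disjoint_left.1 hCR h1 h2
  · refine disj_63 h (fun z i => (i ≤ 1 ∨ N - 2 ≤ i) ∨ z ∈ ZC ∪ ZR)
      (fun z i => z ∈ ZM ∧ 2 ≤ i ∧ i ≤ N - 3) ?_ (eS ZM hM) ?_
    · intro v hv
      rcases mem_union.1 hv with hv | hv
      · rcases mem_union.1 hv with hv | hv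
        · rcases mem_union.1 hv with hv | hv
          · obtain ⟨z, hz, i, hi, h1, h2⟩ := eB v hv
            exact ⟨z, hz, i, hi, Or.inl (by omega), h2⟩
          · obtain ⟨z, hz, i, hi, h1, h2⟩ := eN v hv
            exact ⟨z, hz, i, hi, Or.inl (by omega), h2⟩
        · obtain ⟨z, hz, i, hi, h1, h2⟩ := eS ZC hC v hv
          exact ⟨z, hz, i, hi, Or.inr (mem_union_left _ h1.1), h2⟩
      · obtain ⟨z, hz, i, hi, h1, h2⟩ := eS ZR hR v hv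
        exact ⟨z, hz, i, hi, Or.inr (mem_union_right _ h1.1), h2⟩
    · rintro z i (h1 | h1) ⟨h2, h3, h4⟩
      · omega
      · exact disjoint_left.1 hCRM h1 h2
  · intro v hv w hw ha
    rw [← hQ] at hw
    obtain ⟨z, hz, i, hi, h1, rfl⟩ := eB v hv
    obtain ⟨j, hj, rfl, h2⟩ := nb_63 h hz hi hw ha
    refine mem_union_right _ ?_
    have h3 : j = 1 ∨ j = N - 2 := by omega
    rcases h3 with rfl | rfl
    · exact inN1 z hz
    · exact inN2 z hz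
  · intro v hv w hw ha
    rw [← hQ] at hw
    obtain ⟨z, hz, i, hi, h1, rfl⟩ := eS ZC hC v hv
    obtain ⟨j, hj, rfl, h2⟩ := nb_63 h hz hi hw ha
    by_cases h3 : j = 1 ∨ j = N - 2
    · refine mem_union_right _ ?_
      rcases h3 with rfl | rfl
      · exact inN1 z hz
      · exact inN2 z hz
    · exact mem_union_left _ (mem_stp_63.2 ⟨z, h1.1, j, by omega, by omega, rfl⟩)
  · intro v hv w hw ha
    rw [← hQ] at hw
    obtain ⟨z, hz, i, hi, h1, rfl⟩ := eS ZR hR v hv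
    obtain ⟨j, hj, rfl, h2⟩ := nb_63 h hz hi hw ha
    by_cases h3 : j = 1 ∨ j = N - 2
    · refine mem_union_right _ ?_
      rcases h3 with rfl | rfl
      · exact inN1 z hz
      · exact inN2 z hz
    · exact mem_union_left _ (mem_stp_63.2 ⟨z, h1.1, j, by omega, by omega, rfl⟩)
  · intro t ht v hv w hw ha
    rw [← hQ] at hw
    obtain ⟨z, hz, rfl⟩ := mem_image.1 ht
    rw [(hP z hz).1] at hv ⊢
    rw [(hP z hz).2]
    obtain ⟨i, hi, rfl⟩ := mem_image.1 hv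
    rw [mem_Icc] at hi
    obtain ⟨j, hj, rfl, h2⟩ := nb_63 h (hM z hz) (by omega : i < N) hw ha
    by_cases h3 : j = 1 ∨ j = N - 2
    · right
      constructor
      · rcases h3 with rfl | rfl
        · exact inN1 z (hM z hz)
        · exact inN2 z (hM z hz)
      · rw [mem_insert, mem_singleton]
        have h4 : i = 2 ∨ i = N - 3 := by omega
        rcases h4 with rfl | rfl
        · exact Or.inl rfl
        · exact Or.inr rfl
    · left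
      exact mem_image.2 ⟨j, mem_Icc.2 ⟨by omega, by omega⟩, rfl⟩
  · ext v
    rw [mem_stp_63, mem_biUnion]
    constructor
    · rintro ⟨z, hz, i, h1, h2, rfl⟩
      refine ⟨x z 2, mem_image_of_mem _ hz, ?_⟩
      rw [(hP z hz).1]
      exact mem_image.2 ⟨i, mem_Icc.2 ⟨h1, h2⟩, rfl⟩
    · rintro ⟨t, ht, hv⟩
      obtain ⟨z, hz, rfl⟩ := mem_image.1 ht
      rw [(hP z hz).1] at hv
      obtain ⟨i, hi, rfl⟩ := mem_image.1 hv
      rw [mem_Icc] at hi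
      exact ⟨z, hz, i, hi.1, hi.2, rfl⟩
  · intro t ht t' ht' hne
    obtain ⟨z, hz, rfl⟩ := mem_image.1 ht
    obtain ⟨z', hz', rfl⟩ := mem_image.1 ht'
    rw [(hP z hz).1, (hP z' hz').1]
    refine disj_63 h (fun a _ => a = z) (fun a _ => a = z') ?_ ?_ ?_
    · intro v hv
      obtain ⟨i, hi, rfl⟩ := mem_image.1 hv
      rw [mem_Icc] at hi
      exact ⟨z, hM z hz, i, by omega, rfl, rfl⟩
    · intro v hv
      obtain ⟨i, hi, rfl⟩ := mem_image.1 hv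
      rw [mem_Icc] at hi
      exact ⟨z', hM z' hz', i, by omega, rfl, rfl⟩
    · rintro a _ h1 h2
      apply hne
      rw [← h1, ← h2]
  · intro t ht
    obtain ⟨z, hz, rfl⟩ := mem_image.1 ht
    rw [(hP z hz).1]
    refine ⟨mem_image.2 ⟨2, mem_Icc.2 ⟨le_rfl, by omega⟩, rfl⟩, ?_, ?_⟩
    · intro v hv hne
      obtain ⟨i, hi, rfl⟩ := mem_image.1 hv
      rw [mem_Icc] at hi
      have hi2 : i ≠ 2 := fun h' => hne (by rw [h'])
      obtain ⟨j, rfl⟩ : ∃ j, i = j + 1 := ⟨i - 1, by omega⟩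
      obtain ⟨h1, h2⟩ := h.par z (hM z hz) j (by omega)
      constructor
      · rw [h1]
        exact mem_image.2 ⟨j, mem_Icc.2 ⟨by omega, by omega⟩, rfl⟩
      · refine hT.par _ h2 ?_
        have h3 : x z (j + 1) ∈ Q := (h.Q_eq _).2 ⟨z, hM z hz, j + 1, by omega, rfl⟩
        exact mem_range.1 (hT.Qn h3)
    · refine card_image_le.trans ?_
      rw [Nat.card_Icc]
      omega
  · intro t ht
    obtain ⟨z, hz, rfl⟩ := mem_image.1 ht
    rw [(hP z hz).1, (hP z hz).2]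
    constructor
    · intro v hv
      rw [mem_insert, mem_singleton] at hv
      rcases hv with rfl | rfl
      · exact mem_image.2 ⟨2, mem_Icc.2 ⟨le_rfl, by omega⟩, rfl⟩
      · exact mem_image.2 ⟨N - 3, mem_Icc.2 ⟨by omega, le_rfl⟩, rfl⟩
    · exact card_le_two

private lemma enum_63 (A : Finset ℕ) : ∃ e : ℕ → ℕ, (∀ i, i < A.card → e i ∈ A) ∧
    ∀ i, i < A.card → ∀ j, j < A.card → e i = e j → i = j := by
  classical
  refine ⟨fun i => if h : i < A.card then (A.equivFin.symm ⟨i, h⟩ : ℕ) else 0, ?_, ?_⟩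
  · intro i hi
    simp only [hi, dif_pos]
    exact (A.equivFin.symm ⟨i, hi⟩).2
  · intro i hi j hj h
    simp only [hi, hj, dif_pos] at h
    have h1 := A.equivFin.symm.injective (Subtype.ext h)
    exact congrArg Fin.val h1

private lemma wins_63 (A : Finset ℕ) {m N : ℕ} (hm : 0 < m) (hN : 5 * m + 7 ≤ N) :
    ∃ zf kf : ℕ → ℕ, (∀ j, j < A.card * m → zf j ∈ A ∧ 4 ≤ kf j ∧ kf j + 5 ≤ N - 3 ∧ kf j % 5 = 4) ∧
      ∀ i, i < A.card * m → ∀ j, j < A.card * m → zf i = zf j → kf i = kf j → i = j := by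
  obtain ⟨e, he1, he2⟩ := enum_63 A
  have hdiv : ∀ j, j < A.card * m → j / m < A.card := fun j hj =>
    (Nat.div_lt_iff_lt_mul hm).2 hj
  refine ⟨fun j => e (j / m), fun j => 5 * (j % m) + 4, ?_, ?_⟩
  · intro j hj
    have h1 := Nat.mod_lt j hm
    exact ⟨he1 _ (hdiv j hj), by simp only; omega, by simp only; omega, by simp only; omega⟩
  · intro i hi j hj h1 h2
    have h3 := he2 _ (hdiv i hi) _ (hdiv j hj) h1
    have h4 : i % m = j % m := by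
      simp only at h2
      omega
    rw [← Nat.div_add_mod i m, ← Nat.div_add_mod j m, h3, h4]

private lemma sts_63 {n N : ℕ} {p ι : ℕ → ℕ} {E Q Zs : Finset ℕ} {x : ℕ → ℕ → ℕ}
    (h : Pth n N p ι E Q Zs x)
    (hT : Twin n 2 p ι E (Zs.biUnion fun z => {x z 0, x z (N - 1)}) Q)
    (hadj : ∀ v ∈ Q, ∀ w, w < n → Ad p v w → w ∈ Q ∪ E) {A : Finset ℕ} (hA : A ⊆ Zs) {J : ℕ}
    {zf kf : ℕ → ℕ}
    (h1 : ∀ j, j < J → zf j ∈ A ∧ 4 ≤ kf j ∧ kf j + 5 ≤ N - 3 ∧ kf j % 5 = 4)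
    (h2 : ∀ i, i < J → ∀ j, j < J → zf i = zf j → kf i = kf j → i = j) :
    Sts n 2 J p (stp x A 2 (N - 3)) (fun j => x (zf j) (kf j)) (fun j => x (zf j) (kf j + 1))
      (fun j => x (zf j) (kf j + 2)) (fun j => x (zf j) (kf j + 3)) := by
  have hf : ∀ f ∈ [(fun j => x (zf j) (kf j)), (fun j => x (zf j) (kf j + 1)),
      (fun j => x (zf j) (kf j + 2)), (fun j => x (zf j) (kf j + 3))],
      ∃ a, a ≤ 3 ∧ ∀ j, f j = x (zf j) (kf j + a) := by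
    intro f hf
    simp only [List.mem_cons, List.not_mem_nil, or_false] at hf
    rcases hf with rfl | rfl | rfl | rfl
    · exact ⟨0, by omega, fun j => rfl⟩
    · exact ⟨1, by omega, fun j => rfl⟩
    · exact ⟨2, by omega, fun j => rfl⟩
    · exact ⟨3, by omega, fun j => rfl⟩
  have hinj : ∀ i, i < J → ∀ j, j < J → ∀ a, a ≤ 3 → ∀ b, b ≤ 3 →
      x (zf i) (kf i + a) = x (zf j) (kf j + b) → zf i = zf j ∧ kf i + a = kf j + b := by
    intro i hi j hj a ha b hb he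
    obtain ⟨hz, h3, h4, -⟩ := h1 i hi
    obtain ⟨hz', h3', h4', -⟩ := h1 j hj
    exact h.inj _ (hA hz) _ (hA hz') _ (by omega) _ (by omega) he
  have hnb : ∀ z ∈ Zs, ∀ i, 2 ≤ i → i ≤ N - 3 → ∀ w, w < n →
      (Ad p (x z i) w ↔ w = x z (i - 1) ∨ w = x z (i + 1)) := by
    intro z hz i hi hi' w hw
    have hxQ : x z i ∈ Q := (h.Q_eq _).2 ⟨z, hz, i, by omega, rfl⟩
    have hnB : x z i ∉ (Zs.biUnion fun z => ({x z 0, x z (N - 1)} : Finset ℕ)) := by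
      intro hB
      rw [mem_two_63] at hB
      rcases hB with ⟨z', hz', hv | hv⟩
      · have := (h.inj _ hz' _ hz _ (by omega) _ (by omega) hv).2
        omega
      · have := (h.inj _ hz' _ hz _ (by omega) _ (by omega) hv).2
        omega
    constructor
    · intro ha
      have hwQE := hadj _ hxQ w hw ha
      rcases mem_union.1 hwQE with hwQ | hwE
      · rcases (h.adj z hz i (by omega) w hwQ).1 ha with ⟨_, h3⟩ | ⟨_, h3⟩
        · exact Or.inr h3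
        · exact Or.inl h3
      · exact absurd ha (hT.inner _ hxQ hnB w hwE).1
    · rintro (rfl | rfl)
      · exact (h.adj z hz i (by omega) _ ((h.Q_eq _).2 ⟨z, hz, i - 1, by omega, rfl⟩)).2
          (Or.inr ⟨by omega, rfl⟩)
      · exact (h.adj z hz i (by omega) _ ((h.Q_eq _).2 ⟨z, hz, i + 1, by omega, rfl⟩)).2
          (Or.inl ⟨by omega, rfl⟩)
  refine ⟨?_, ?_, ?_, ?_, ?_, ?_⟩
  · intro j hj
    obtain ⟨hz, h3, h4, -⟩ := h1 j hj
    exact ⟨mem_stp_63.2 ⟨_, hz, _, by omega, by omega, rfl⟩,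
      mem_stp_63.2 ⟨_, hz, _, by omega, by omega, rfl⟩,
      mem_stp_63.2 ⟨_, hz, _, by omega, by omega, rfl⟩,
      mem_stp_63.2 ⟨_, hz, _, by omega, by omega, rfl⟩⟩
  · intro i hi j hj f hff g hg he
    obtain ⟨a, ha, hfa⟩ := hf f hff
    obtain ⟨b, hb, hgb⟩ := hf g hg
    rw [hfa, hgb] at he
    obtain ⟨h3, h4⟩ := hinj i hi j hj a ha b hb he
    have h5 := (h1 i hi).2.2.2
    have h6 := (h1 j hj).2.2.2
    exact h2 i hi j hj h3 (by omega)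
  · intro j hj
    have hne : ∀ a, a ≤ 3 → ∀ b, b ≤ 3 → a ≠ b → x (zf j) (kf j + a) ≠ x (zf j) (kf j + b) := by
      intro a ha b hb hab he
      have := (hinj j hj j hj a ha b hb he).2
      omega
    have e01 := hne 0 (by omega) 1 (by omega) (by omega)
    have e02 := hne 0 (by omega) 2 (by omega) (by omega)
    have e03 := hne 0 (by omega) 3 (by omega) (by omega)
    have e12 := hne 1 (by omega) 2 (by omega) (by omega)
    have e13 := hne 1 (by omega) 3 (by omega) (by omega)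
    have e23 := hne 2 (by omega) 3 (by omega) (by omega)
    rw [Nat.add_zero] at e01 e02 e03
    simp only [List.nodup_cons, List.mem_cons, List.not_mem_nil, or_false, not_or,
      not_false_eq_true, List.nodup_nil, and_true]
    exact ⟨⟨e01, e02, e03⟩, ⟨e12, e13⟩, e23⟩
  · intro h3
    omega
  · intro _ j hj w hw
    obtain ⟨hz, h3, h4, -⟩ := h1 j hj
    have h5 := hnb _ (hA hz) (kf j + 1) (by omega) (by omega) w hw
    have h6 := hnb _ (hA hz) (kf j + 2) (by omega) (by omega) w hw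
    exact ⟨h5, h6⟩
  · intro i hi j hj f hff g hg ha
    have hf' : ∀ f ∈ [(fun j => x (zf j) (kf j)), (fun j => x (zf j) (kf j + 3))],
        ∃ a, (a = 0 ∨ a = 3) ∧ ∀ j, f j = x (zf j) (kf j + a) := by
      intro f hf
      simp only [List.mem_cons, List.not_mem_nil, or_false] at hf
      rcases hf with rfl | rfl
      · exact ⟨0, by omega, fun j => rfl⟩
      · exact ⟨3, by omega, fun j => rfl⟩
    obtain ⟨a, ha', hfa⟩ := hf' f hff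
    obtain ⟨b, hb', hgb⟩ := hf' g hg
    rw [hfa, hgb] at ha
    obtain ⟨hz, h3, h4, h5⟩ := h1 i hi
    obtain ⟨hz', h3', h4', h5'⟩ := h1 j hj
    obtain ⟨k, hk, h6, h7⟩ := nb_63 h (hA hz) (by omega : kf i + a < N)
      ((h.Q_eq _).2 ⟨zf j, hA hz', kf j + b, by omega, rfl⟩) ha
    obtain ⟨h8, h9⟩ := h.inj _ (hA hz) _ (hA hz') _ hk _ (by omega) h6
    omega

private lemma cvs_63 {n N : ℕ} {p ι : ℕ → ℕ} {E Q Zs : Finset ℕ} {x : ℕ → ℕ → ℕ}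
    (h : Pth n N p ι E Q Zs x) {A : Finset ℕ} (hA : A ⊆ Zs) {J : ℕ}
    {zf kf : ℕ → ℕ}
    (h1 : ∀ j, j < J → zf j ∈ A ∧ 4 ≤ kf j ∧ kf j + 5 ≤ N - 3 ∧ kf j % 5 = 4)
    (h2 : ∀ i, i < J → ∀ j, j < J → zf i = zf j → kf i = kf j → i = j) :
    Cvs J p Q (stp x A 2 (N - 3)) (fun j => x (zf j) (kf j)) (fun j => x (zf j) (kf j + 1)) := by
  have hcl : ∀ j, j < J → ∀ y ∈ Q, (y = x (zf j) (kf j) ∨ y = x (zf j) (kf j + 1) ∨
      Ad p (x (zf j) (kf j)) y ∨ Ad p (x (zf j) (kf j + 1)) y) →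
      ∃ i, kf j ≤ i + 1 ∧ i ≤ kf j + 2 ∧ x (zf j) i = y := by
    intro j hj y hy hh
    obtain ⟨hz, h3, h4, h5⟩ := h1 j hj
    rcases hh with hh | hh | hh | hh
    · exact ⟨kf j, by omega, by omega, hh.symm⟩
    · exact ⟨kf j + 1, by omega, by omega, hh.symm⟩
    · obtain ⟨k, hk, h6, h7⟩ := nb_63 h (hA hz) (by omega) hy hh
      exact ⟨k, by omega, by omega, h6⟩
    · obtain ⟨k, hk, h6, h7⟩ := nb_63 h (hA hz) (by omega) hy hh
      exact ⟨k, by omega, by omega, h6⟩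
  refine ⟨?_, ?_, ?_⟩
  · intro j hj
    obtain ⟨hz, h3, h4, h5⟩ := h1 j hj
    obtain ⟨h6, h7⟩ := h.par _ (hA hz) (kf j) (by omega)
    exact ⟨mem_stp_63.2 ⟨_, hz, _, by omega, by omega, rfl⟩,
      mem_stp_63.2 ⟨_, hz, _, by omega, by omega, rfl⟩, h7, h6⟩
  · intro j hj y hy hh
    obtain ⟨hz, h3, h4, h5⟩ := h1 j hj
    obtain ⟨i, hi1, hi2, hi3⟩ := hcl j hj y hy (Or.inr (Or.inr hh))
    exact mem_stp_63.2 ⟨_, hz, i, by omega, by omega, hi3⟩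
  · rintro i hi j hj hij y hy ⟨hyi, hyj⟩
    obtain ⟨hz, h3, h4, h5⟩ := h1 i hi
    obtain ⟨hz', h3', h4', h5'⟩ := h1 j hj
    obtain ⟨a, ha1, ha2, ha3⟩ := hcl i hi y hy hyi
    obtain ⟨b, hb1, hb2, hb3⟩ := hcl j hj y hy hyj
    obtain ⟨h6, h7⟩ := h.inj _ (hA hz) _ (hA hz') _ (by omega) _ (by omega) (ha3.trans hb3.symm)
    exact hij (h2 i hi j hj h6 (by omega))

private lemma card_Q_63 {n N : ℕ} {p ι : ℕ → ℕ} {E Q Zs : Finset ℕ} {x : ℕ → ℕ → ℕ}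
    (h : Pth n N p ι E Q Zs x) : Q.card = Zs.card * N := by
  have h1 : Q = (Zs ×ˢ range N).image (fun z => x z.1 z.2) := by
    ext v
    rw [h.Q_eq, mem_image]
    constructor
    · rintro ⟨z, hz, i, hi, hv⟩
      exact ⟨(z, i), mem_product.2 ⟨hz, mem_range.2 hi⟩, hv⟩
    · rintro ⟨⟨z, i⟩, hz, hv⟩
      rw [mem_product] at hz
      exact ⟨z, hz.1, i, mem_range.1 hz.2, hv⟩
  rw [h1, card_image_of_injOn, card_product, card_range]
  rintro ⟨z, i⟩ hz ⟨z', i'⟩ hz' he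
  rw [mem_coe, mem_product] at hz hz'
  obtain ⟨h2, h3⟩ := h.inj z hz.1 z' hz'.1 i (mem_range.1 hz.2) i' (mem_range.1 hz'.2) he
  rw [h2, h3]

private lemma card_n_63 {n D : ℕ} {p ι : ℕ → ℕ} {E Bd Q : Finset ℕ}
    (hT : Twin n D p ι E Bd Q) : n = E.card + 2 * Q.card := by
  have h1 : (range n).card = n := card_range n
  rw [hT.cov, card_union_of_disjoint, card_union_of_disjoint hT.EQ,
    card_image_of_injOn hT.ιinj] at h1
  · omega
  · rw [disjoint_left]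
    intro v hv hv'
    obtain ⟨w, hw, rfl⟩ := mem_image.1 hv'
    obtain ⟨h2, h3, h4⟩ := hT.ιn w hw
    rcases mem_union.1 hv with hv | hv
    · exact h4 hv
    · exact h3 hv

private lemma card_stp_63 (x : ℕ → ℕ → ℕ) (A : Finset ℕ) (a b : ℕ) :
    (stp x A a b).card ≤ A.card * (b + 1 - a) := by
  unfold stp
  refine card_biUnion_le.trans ?_
  refine (sum_le_card_nsmul _ _ (b + 1 - a) fun z _ => ?_).trans (by rw [smul_eq_mul])
  refine card_image_le.trans ?_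
  rw [Nat.card_Icc]


/-- the numerical part -/
private lemma num_63 {η ρ δ1 : ℝ} (hη : 0 < η) (hη1 : η ≤ 1 / 10) (hρ : 0 < ρ) (hρ1 : ρ ≤ 1 / 10)
    (hδ1 : δ1 ≤ 1 / 2) {K' N n e z L s zz : ℕ} (hK' : 2 ≤ K') (hN : N = 10 * K' + 4)
    (hNδ : 9 ≤ δ1 * N) (hL : (2 * (N : ℝ) + 3) * (2 * L) ≤ δ1 * n / 3)
    (hs : (2 * (N : ℝ) + 3) * (1 + s) ≤ δ1 * n / 3) (hzz : zz ≤ s)
    (hn : n = e + 2 * (z * N))
    (he : (e : ℝ) ≤ 2 * n / (2 * N + 2) + (2 * N + 3) * (2 * (L : ℝ) + 1 + zz))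
    (_hn1 : 40 * K' ≤ η * n) (_hn2 : 40 * K' ≤ ρ * n) :
    (e : ℝ) + 4 * z ≤ δ1 * n ∧
      ⌊η * n / (10 * K')⌋₊ + ⌊ρ * n / (10 * K')⌋₊ ≤ z ∧
      (∀ θ : ℝ, 0 < θ → 40 * K' ≤ θ * n → ∀ c : ℕ, c = ⌊θ * n / (10 * K')⌋₊ →
        ((c * (N - 3 + 1 - 2) : ℕ) : ℝ) ≤ θ * n ∧ θ / 10 * n ≤ ((c * (2 * K' - 1) : ℕ) : ℝ)) := by
  have hK : (2 : ℝ) ≤ K' := by exact_mod_cast hK'
  have hK0 : (0 : ℝ) < K' := by linarith
  have hNr : (N : ℝ) = 10 * K' + 4 := by rw [hN]; push_cast; ring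
  have hN0 : (0 : ℝ) < N := by rw [hNr]; positivity
  have hn0 : (0 : ℝ) ≤ n := Nat.cast_nonneg n
  have hnr : (n : ℝ) = e + 2 * (z * N) := by rw [hn]; push_cast; ring
  have he0 : (0 : ℝ) ≤ e := Nat.cast_nonneg e
  have hz0 : (0 : ℝ) ≤ z := Nat.cast_nonneg z
  have h9 : (n : ℝ) / N ≤ δ1 * n / 9 := by
    rw [div_le_iff₀ hN0]
    nlinarith
  have hzb : 4 * (z : ℝ) ≤ 2 * (n / N) := by
    have h1 : (z : ℝ) * N ≤ n / 2 := by nlinarith
    have h2 : (z : ℝ) ≤ n / 2 / N := by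
      rw [le_div_iff₀ hN0]
      exact h1
    have h3 : (n : ℝ) / 2 / N = (n / N) / 2 := by ring
    rw [h3] at h2
    linarith
  have he2 : 2 * (n : ℝ) / (2 * N + 2) ≤ n / N := by
    rw [div_le_div_iff₀ (by positivity) hN0]
    nlinarith
  have hzz' : (zz : ℝ) ≤ s := by exact_mod_cast hzz
  have he3 : (2 * (N : ℝ) + 3) * (2 * (L : ℝ) + 1 + zz) ≤ 2 * (δ1 * n / 3) := by
    have h1 : (2 * (N : ℝ) + 3) * (2 * (L : ℝ) + 1 + zz) ≤
        (2 * (N : ℝ) + 3) * (2 * L) + (2 * (N : ℝ) + 3) * (1 + s) := by nlinarith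
    linarith
  have hmain : (e : ℝ) + 4 * z ≤ δ1 * n := by linarith
  have hzlow : (n : ℝ) / (4 * N) ≤ z := by
    rw [div_le_iff₀ (by positivity)]
    have h1 : (e : ℝ) ≤ n / 2 := by nlinarith
    nlinarith
  refine ⟨hmain, ?_, ?_⟩
  · have h1 : ((⌊η * n / (10 * K')⌋₊ : ℕ) : ℝ) ≤ η * n / (10 * K') :=
      Nat.floor_le (by positivity)
    have h2 : ((⌊ρ * n / (10 * K')⌋₊ : ℕ) : ℝ) ≤ ρ * n / (10 * K') :=
      Nat.floor_le (by positivity)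
    have h3 : η * n / (10 * K') + ρ * n / (10 * K') ≤ n / (4 * N) := by
      rw [← add_div, div_le_div_iff₀ (by positivity) (by positivity)]
      have h4 : η * n + ρ * n ≤ n / 5 := by nlinarith
      have h5 : (4 * (N : ℝ)) ≤ 5 * (10 * K') := by rw [hNr]; linarith
      calc (η * n + ρ * n) * (4 * N) ≤ (n / 5) * (5 * (10 * K')) :=
            mul_le_mul h4 h5 (by positivity) (by positivity)
        _ = n * (10 * K') := by ring
    have h6 : ((⌊η * n / (10 * K')⌋₊ + ⌊ρ * n / (10 * K')⌋₊ : ℕ) : ℝ) ≤ (z : ℝ) := by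
      push_cast
      linarith
    exact_mod_cast h6
  · intro θ hθ hθn c hc
    have h1 : (c : ℝ) ≤ θ * n / (10 * K') := by
      rw [hc]
      exact Nat.floor_le (by positivity)
    have h2 : θ * n / (10 * K') < (c : ℝ) + 1 := by
      rw [hc]
      exact Nat.lt_floor_add_one _
    rw [le_div_iff₀ (by positivity)] at h1
    rw [div_lt_iff₀ (by positivity)] at h2
    constructor
    · have h3 : N - 3 + 1 - 2 = 10 * K' := by omega
      rw [h3]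
      push_cast
      exact h1
    · have h3 : ((2 * K' - 1 : ℕ) : ℝ) = 2 * K' - 1 := by
        rw [Nat.cast_sub (by omega)]
        push_cast
        ring
      rw [Nat.cast_mul, h3]
      have hc0 : (0 : ℝ) ≤ c := Nat.cast_nonneg c
      -- (c+1) * 10 K' > θ n, want θ n / 10 ≤ c (2K' - 1)
      nlinarith

theorem lay2 (s : ℕ) (η ρ δ : ℝ) (hη : 0 < η) (hη1 : η ≤ 1 / 10) (hρ : 0 < ρ) (hρ1 : ρ ≤ 1 / 10) (hδ : 0 < δ) :
    ∃ (N n0 : ℕ) (ε0 : ℝ), 0 < ε0 ∧ 20 ≤ N ∧ ∀ (n : ℕ) (p : ℕ → ℕ), n0 ≤ n → Even n → Par n p →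
    (((range n).filter fun v => chl n p v = ∅).card : ℝ) ≤ ε0 * n → ∀ Z ⊆ range n, Z.card ≤ s →
    ∃ (ι : ℕ → ℕ) (E Q Zs ZC ZR ZM : Finset ℕ) (x : ℕ → ℕ → ℕ) (sa sv sw sb cv cw : ℕ → ℕ) (J Jc : ℕ) (P En : ℕ → Finset ℕ),
      Pth n N p ι E Q Zs x ∧ (∀ v ∈ Q, (nbs n p v).card = 2) ∧ Zs = ZC ∪ ZR ∪ ZM ∧ Disjoint ZC ZR ∧ Disjoint (ZC ∪ ZR) ZM ∧
      Q = QQ (Zs.biUnion fun z => {x z 0, x z (N - 1)}) (Zs.biUnion fun z => {x z 1, x z (N - 2)})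
        (stp x ZC 2 (N - 3)) (stp x ZR 2 (N - 3)) (stp x ZM 2 (N - 3)) ∧
      Twin n 2 p ι E (Zs.biUnion fun z => {x z 0, x z (N - 1)}) Q ∧
      Dvs n 2 N p (Zs.biUnion fun z => {x z 0, x z (N - 1)}) (Zs.biUnion fun z => {x z 1, x z (N - 2)})
        (stp x ZC 2 (N - 3)) (stp x ZR 2 (N - 3)) (stp x ZM 2 (N - 3)) (ZM.image fun z => x z 2) P En ∧
      (∀ z ∈ ZM, P (x z 2) = (Icc 2 (N - 3)).image (x z) ∧ En (x z 2) = {x z 2, x z (N - 3)}) ∧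
      Sts n 2 J p (stp x ZC 2 (N - 3)) sa sv sw sb ∧ Cvs Jc p Q (stp x ZR 2 (N - 3)) cv cw ∧
      (∀ j, j < J → ∀ f ∈ [sa, sv, sw, sb], ∀ z ∈ ZC, f j ≠ x z 2 ∧ f j ≠ x z (N - 3)) ∧ Z ⊆ E ∧
      (E.card : ℝ) + 4 * Zs.card ≤ δ * n ∧ ((stp x ZC 2 (N - 3)).card : ℝ) ≤ η * n ∧ η / 10 * n ≤ J ∧
      ((stp x ZR 2 (N - 3)).card : ℝ) ≤ ρ * n ∧ ρ / 10 * n ≤ Jc := by
  classical
  set δ1 : ℝ := min δ (1 / 2) with hδ1
  have hδ1pos : 0 < δ1 := lt_min hδ (by norm_num)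
  have hδ1δ : δ1 ≤ δ := min_le_left _ _
  have hδ1h : δ1 ≤ 1 / 2 := min_le_right _ _
  -- the parameters
  set K' : ℕ := ⌈9 / δ1⌉₊ + 2 with hK'
  have hK'2 : 2 ≤ K' := by omega
  set N : ℕ := 10 * K' + 4 with hN
  have hNr : (N : ℝ) = 10 * K' + 4 := by rw [hN]; push_cast; ring
  have hK'r : 9 / δ1 ≤ (K' : ℝ) := by
    rw [hK']
    push_cast
    have := Nat.le_ceil (9 / δ1)
    linarith
  have hNδ : 9 ≤ δ1 * N := by
    have h1 : 9 / δ1 ≤ (N : ℝ) := by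
      rw [hNr]
      have : (0 : ℝ) ≤ K' := Nat.cast_nonneg _
      linarith
    rw [div_le_iff₀ hδ1pos] at h1
    linarith
  have hN0 : (0 : ℝ) < 2 * N + 3 := by positivity
  set ε0 : ℝ := δ1 / (6 * (2 * N + 3)) with hε0
  have hε0pos : 0 < ε0 := by positivity
  set n0 : ℕ := ⌈3 * (2 * (N : ℝ) + 3) * (1 + s) / δ1⌉₊ + ⌈40 * K' / η⌉₊ + ⌈40 * K' / ρ⌉₊ + 1
    with hn0
  refine ⟨N, n0, ε0, hε0pos, by omega, ?_⟩
  intro n p hn _ hp hleaf Z hZn hZs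
  have hnr : (n0 : ℝ) ≤ n := by exact_mod_cast hn
  have hn0r : (n0 : ℝ) = (⌈3 * (2 * (N : ℝ) + 3) * (1 + s) / δ1⌉₊ : ℝ) + (⌈40 * K' / η⌉₊ : ℝ) +
      (⌈40 * K' / ρ⌉₊ : ℝ) + 1 := by rw [hn0]; push_cast; ring
  have hc1 := Nat.le_ceil (3 * (2 * (N : ℝ) + 3) * (1 + s) / δ1)
  have hc2 := Nat.le_ceil (40 * K' / η)
  have hc3 := Nat.le_ceil (40 * K' / ρ)
  have hc1' : (0 : ℝ) ≤ (⌈3 * (2 * (N : ℝ) + 3) * (1 + s) / δ1⌉₊ : ℝ) := Nat.cast_nonneg _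
  have hc2' : (0 : ℝ) ≤ (⌈40 * K' / η⌉₊ : ℝ) := Nat.cast_nonneg _
  have hc3' : (0 : ℝ) ≤ (⌈40 * K' / ρ⌉₊ : ℝ) := Nat.cast_nonneg _
  have hn1 : 3 * (2 * (N : ℝ) + 3) * (1 + s) / δ1 ≤ n := by linarith
  have hn2 : 40 * K' / η ≤ (n : ℝ) := by linarith
  have hn3 : 40 * K' / ρ ≤ (n : ℝ) := by linarith
  rw [div_le_iff₀ hδ1pos] at hn1
  rw [div_le_iff₀ hη] at hn2
  rw [div_le_iff₀ hρ] at hn3
  have hnpos : 0 < n := by omega
  obtain ⟨ι, E, Q, Zs, x, hT, hPth, hZE, hadj, hnbs, hEcard⟩ :=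
    bare n N p hp hnpos (by omega) Z hZn
  have hcard : n = E.card + 2 * (Zs.card * N) := by
    have h1 := card_n_63 hT
    rw [card_Q_63 hPth] at h1
    exact h1
  set L := ((range n).filter fun v => chl n p v = ∅).card with hL
  have hLb : (2 * (N : ℝ) + 3) * (2 * L) ≤ δ1 * n / 3 := by
    have h1 : (2 * (N : ℝ) + 3) * (2 * L) ≤ (2 * (N : ℝ) + 3) * (2 * (ε0 * n)) := by
      refine mul_le_mul_of_nonneg_left ?_ hN0.le
      linarith
    have h2 : (2 * (N : ℝ) + 3) * (2 * (ε0 * n)) = δ1 * n / 3 := by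
      rw [hε0]
      field_simp
      ring
    linarith
  obtain ⟨hm1, hm2, hm3⟩ := num_63 hη hη1 hρ hρ1 hδ1h hK'2 hN hNδ hLb (by linarith) hZs hcard
    hEcard (by linarith) (by linarith)
  set cC := ⌊η * n / (10 * K')⌋₊ with hcC
  set cR := ⌊ρ * n / (10 * K')⌋₊ with hcR
  obtain ⟨ZC, hZC, hZCc⟩ := exists_subset_card_eq (s := Zs) (n := cC) (by omega)
  have hrest : cR ≤ (Zs \ ZC).card := by
    rw [card_sdiff_of_subset hZC]
    omega
  obtain ⟨ZR, hZR, hZRc⟩ := exists_subset_card_eq (s := Zs \ ZC) (n := cR) hrest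
  have hZRs : ZR ⊆ Zs := hZR.trans sdiff_subset
  have hdCR : Disjoint ZC ZR := by
    rw [disjoint_left]
    intro a ha hb
    exact (mem_sdiff.1 (hZR hb)).2 ha
  set ZM := Zs \ (ZC ∪ ZR) with hZM
  have hdCRM : Disjoint (ZC ∪ ZR) ZM := disjoint_sdiff
  have hZu : Zs = ZC ∪ ZR ∪ ZM := by
    rw [hZM, union_sdiff_of_subset (union_subset hZC hZRs)]
  -- the trees
  have hex : ∃ zof : ℕ → ℕ, ∀ z ∈ Zs, zof (x z 2) = z := by
    refine ⟨fun t => if h : ∃ z ∈ Zs, x z 2 = t then h.choose else 0, ?_⟩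
    intro z hz
    have h1 : ∃ z' ∈ Zs, x z' 2 = x z 2 := ⟨z, hz, rfl⟩
    simp only [h1, dif_pos]
    exact (hPth.inj _ h1.choose_spec.1 z hz 2 (by omega) 2 (by omega) h1.choose_spec.2).1
  obtain ⟨zof, hzof⟩ := hex
  have hPE : ∀ z ∈ ZM, (fun t => (Icc 2 (N - 3)).image (x (zof t))) (x z 2) =
      (Icc 2 (N - 3)).image (x z) ∧
      (fun t => ({x (zof t) 2, x (zof t) (N - 3)} : Finset ℕ)) (x z 2) = {x z 2, x z (N - 3)} := by
    intro z hz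
    have h1 : z ∈ Zs := by
      rw [hZM] at hz
      exact (mem_sdiff.1 hz).1
    simp only [hzof z h1, and_self]
  -- the windows
  obtain ⟨zf, kf, hw1, hw2⟩ := wins_63 ZC (m := 2 * K' - 1) (N := N) (by omega) (by omega)
  obtain ⟨zf', kf', hw1', hw2'⟩ := wins_63 ZR (m := 2 * K' - 1) (N := N) (by omega) (by omega)
  have hstC := card_stp_63 x ZC 2 (N - 3)
  have hstR := card_stp_63 x ZR 2 (N - 3)
  obtain ⟨hC1, hC2⟩ := hm3 η hη (by linarith) cC hcC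
  obtain ⟨hR1, hR2⟩ := hm3 ρ hρ (by linarith) cR hcR
  refine ⟨ι, E, Q, Zs, ZC, ZR, ZM, x, fun j => x (zf j) (kf j), fun j => x (zf j) (kf j + 1),
    fun j => x (zf j) (kf j + 2), fun j => x (zf j) (kf j + 3), fun j => x (zf' j) (kf' j),
    fun j => x (zf' j) (kf' j + 1), ZC.card * (2 * K' - 1), ZR.card * (2 * K' - 1),
    fun t => (Icc 2 (N - 3)).image (x (zof t)), fun t => {x (zof t) 2, x (zof t) (N - 3)},
    hPth, hnbs, hZu, hdCR, hdCRM, Q_63 hPth hZu (by omega), hT,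
    dvs_63 hPth hZu (by omega) hdCR hdCRM hT _ _ hPE, hPE, sts_63 hPth hT hadj hZC hw1 hw2,
    cvs_63 hPth hZRs hw1' hw2', ?_, hZE, ?_, ?_, ?_, ?_, ?_⟩
  · intro j hj f hf z hz
    obtain ⟨hz', h3, h4, -⟩ := hw1 j hj
    have hfa : ∃ a, a ≤ 3 ∧ f j = x (zf j) (kf j + a) := by
      simp only [List.mem_cons, List.not_mem_nil, or_false] at hf
      rcases hf with rfl | rfl | rfl | rfl
      · exact ⟨0, by omega, rfl⟩
      · exact ⟨1, by omega, rfl⟩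
      · exact ⟨2, by omega, rfl⟩
      · exact ⟨3, by omega, rfl⟩
    obtain ⟨a, ha, hfa⟩ := hfa
    rw [hfa]
    constructor
    · intro he
      have := (hPth.inj _ (hZC hz') _ (hZC hz) _ (by omega) _ (by omega) he).2
      omega
    · intro he
      have := (hPth.inj _ (hZC hz') _ (hZC hz) _ (by omega) _ (by omega) he).2
      omega
  · refine hm1.trans ?_
    exact mul_le_mul_of_nonneg_right hδ1δ (Nat.cast_nonneg _)
  · refine le_trans ?_ hC1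
    rw [← hZCc]
    exact_mod_cast hstC
  · rw [hZCc]
    exact hC2
  · refine le_trans ?_ hR1
    rw [← hZRc]
    exact_mod_cast hstR
  · rw [hZRc]
    exact hR2

end Pool.Agent.BD
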