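import Pool.Agent.Helper73.BD.FF
import Pool.Agent.Helper73.BD.M2

/-!
# BD-RH: the residues modulo 4 (`e = 2`)

Proof in words.  `Bd = {x z 0, x z (N-1)}`, `CN = {x z 1, x z (N-2)}`, `Cl, Rs, Mn` = the vertices `x z i`, `2 ≤ i ≤ N-3`, for `z ∈ ZC, ZR, ZM`; `Λ` is labelled by `F` (odd labels), `W` is not labelled.
Define `ρ (x z i)`: for `z ∈ ZC` and for `z ∈ ZM` with `x z 2 ∉ U`: `ρ = F` for `i = 0` and for `2 ≤ i ≤ N-3`, `ρ (x z 1) = -F (x z 0)`, `ρ (x z (N-2)) = -F (x z (N-3))`.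
For `z ∈ ZM` with `x z 2 ∈ U`: `ρ (x z i) = (-1)^i F (x z 0)`, `0 ≤ i ≤ N-2`.
For `z ∈ ZR`: `ρ (x z 0) = F (x z 0)`, `ρ (x z (i+1)) = s - ρ (x z i)` if `x z (i+1) = cw (iS s)` for some `s ∈ S'`, otherwise `- ρ (x z i)`, for `i + 1 ≤ N-2`.  (`s` is unique: `cw` is injective on the `j < Jc` by `Cvs.far`, `iS` on `S'`.)
All these values are odd (`s` is even).  `V` = the `z` with `ρ (x z (N-2)) + F (x z (N-1))` not divisible by 4; then `ρ (x z (N-2)) - F (x z (N-1))` is divisible by 4 (both are odd).  `ρ (x z (N-1)) = F (x z (N-1))`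
for `z ∉ V` and `- F (x z (N-1))` for `z ∈ V`.
The edges inside `W ∪ Λ ⊆ Q` touching `W` are edges `i = x z (k+1)`, `p i = x z k` (`Pth.adj`, `Pth.par`, `Pth.Q_eq`; `Pth.inj`).  For `z ∈ ZC` or packed: `k = 0`: sum `0`; `k = 1`: `ρ (x z 2) + ρ (x z 1) = F (x z 2) - F (x z 0)`,
divisible by 4 by `hC`, `hM`; `k = N-3`: `0`; `k = N-2`: by the choice of `V`.  The other cases are clear; `hρS` is the definition (`cv (iS s) = p (cw (iS s)) = x z k`; `cv`, `cw` are in `Rs`, so `2 ≤ k`, `k + 1 ≤ N-3`).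
-/

set_option autoImplicit false

namespace Pool.Agent.BD

open Finset Pool.Agent.SEM

private theorem transport59 {Zs : Finset ℕ} {N : ℕ} {x : ℕ → ℕ → ℕ}
    (inj : ∀ z ∈ Zs, ∀ z' ∈ Zs, ∀ i, i < N → ∀ j, j < N → x z i = x z' j → z = z' ∧ i = j) (g : ℕ → ℕ → ℤ) :
    ∃ ρ : ℕ → ℤ, ∀ z ∈ Zs, ∀ i, i < N → ρ (x z i) = g z i := by
  classical
  refine ⟨fun v => if h : ∃ y : ℕ × ℕ, y.1 ∈ Zs ∧ y.2 < N ∧ x y.1 y.2 = v then g h.choose.1 h.choose.2 else 0, ?_⟩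
  intro z hz i hi
  have h : ∃ y : ℕ × ℕ, y.1 ∈ Zs ∧ y.2 < N ∧ x y.1 y.2 = x z i := ⟨(z, i), hz, hi, rfl⟩
  beta_reduce
  rw [dif_pos h]
  obtain ⟨h1, h2, h3⟩ := h.choose_spec
  obtain ⟨h4, h5⟩ := inj _ h1 z hz _ h2 i hi h3
  rw [h4, h5]

private theorem tau59 {S' : Finset ℕ} {cw iS : ℕ → ℕ} (hS' : ∀ s ∈ S', Even s)
    (hinj : ∀ s ∈ S', ∀ s' ∈ S', cw (iS s) = cw (iS s') → s = s') :
    ∃ τ : ℕ → ℤ, (∀ v, (∀ s ∈ S', v ≠ cw (iS s)) → τ v = 0) ∧ (∀ v, Even (τ v)) ∧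
      (∀ s ∈ S', τ (cw (iS s)) = s) := by
  classical
  refine ⟨fun v => if h : ∃ s ∈ S', v = cw (iS s) then ((h.choose : ℕ) : ℤ) else 0, ?_, ?_, ?_⟩
  · intro v hv
    beta_reduce
    rw [dif_neg]
    rintro ⟨s, hs, h⟩
    exact hv s hs h
  · intro v
    beta_reduce
    by_cases h : ∃ s ∈ S', v = cw (iS s)
    · rw [dif_pos h]
      have h1 := hS' _ h.choose_spec.1
      exact_mod_cast h1
    · rw [dif_neg h]
      exact Even.zero
  · intro s hs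
    beta_reduce
    have h : ∃ s' ∈ S', cw (iS s) = cw (iS s') := ⟨s, hs, rfl⟩
    rw [dif_pos h]
    have h1 := hinj s hs _ h.choose_spec.1 h.choose_spec.2
    rw [← h1]

theorem rho2 {n N Jc : ℕ} {p ι : ℕ → ℕ} {E Q Zs ZC ZR ZM U Fl S' : Finset ℕ} {x : ℕ → ℕ → ℕ} {cv cw iS : ℕ → ℕ} (hN : 20 ≤ N)
    {P : ℕ → Finset ℕ} (hP : Pth n N p ι E Q Zs x) (hZ : Zs = ZC ∪ ZR ∪ ZM) (d1 : Disjoint ZC ZR) (d2 : Disjoint (ZC ∪ ZR) ZM)
    (hPM : ∀ z ∈ ZM, P (x z 2) = (Icc 2 (N - 3)).image (x z)) (hcv : Cvs Jc p Q (stp x ZR 2 (N - 3)) cv cw)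
    (hU : U ⊆ ZM.image fun z => x z 2) (hFl : Fl ⊆ stp x ZC 2 (N - 3)) (hFl2 : ∀ z ∈ ZC, x z 2 ∉ Fl ∧ x z (N - 3) ∉ Fl)
    (W Λ : Finset ℕ) (hW : W = (Zs.biUnion fun z => {x z 1, x z (N - 2)}) ∪ stp x ZR 2 (N - 3) ∪ U.biUnion P)
    (hΛ : Λ = (Zs.biUnion fun z => {x z 0, x z (N - 1)}) ∪ (stp x ZC 2 (N - 3) \ Fl) ∪ ((ZM.image fun z => x z 2) \ U).biUnion P)
    (F : ℕ → ℤ) (hF : ∀ v ∈ Λ, Odd (F v)) (hC : ∀ z ∈ ZC, F (x z 2) ≡ F (x z 0) [ZMOD 4])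
    (hM : ∀ z ∈ ZM, x z 2 ∉ U → F (x z 2) ≡ F (x z 0) [ZMOD 4])
    (hS' : ∀ s ∈ S', Even s) (hiS : Set.InjOn iS S') (hiSJ : ∀ s ∈ S', iS s < Jc) :
    ∃ (V : Finset ℕ) (ρ : ℕ → ℤ), V ⊆ Zs ∧ (∀ v ∈ Λ, (∀ z ∈ V, v ≠ x z (N - 1)) → ρ v = F v) ∧
      (∀ z ∈ V, ρ (x z (N - 1)) = -F (x z (N - 1))) ∧ (∀ v ∈ W, Odd (ρ v)) ∧
      (∀ i ∈ EdT p W Λ, (∀ s ∈ S', i ≠ cw (iS s)) → ρ i + ρ (p i) ≡ 0 [ZMOD (2 * 2 : ℕ)]) ∧
      ∀ s ∈ S', ρ (cw (iS s)) + ρ (cv (iS s)) ≡ s [ZMOD (2 * 2 : ℕ)] := by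
  classical
  obtain ⟨Q_eq, inj, par, adj, -⟩ := hP
  -- membership
  have hZRs : ∀ z ∈ ZR, z ∈ Zs := fun z hz => by
    rw [hZ, mem_union, mem_union]
    exact Or.inl (Or.inr hz)
  have hZCs : ∀ z ∈ ZC, z ∈ Zs := fun z hz => by
    rw [hZ, mem_union, mem_union]
    exact Or.inl (Or.inl hz)
  have hZMs : ∀ z ∈ ZM, z ∈ Zs := fun z hz => by
    rw [hZ, mem_union, mem_union]
    exact Or.inr hz
  have hstp : ∀ v, v ∈ stp x ZR 2 (N - 3) → ∃ z ∈ ZR, ∃ i, 2 ≤ i ∧ i ≤ N - 3 ∧ v = x z i := by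
    intro v hv
    unfold stp at hv
    rw [mem_biUnion] at hv
    obtain ⟨z, hz, hv⟩ := hv
    rw [mem_image] at hv
    obtain ⟨i, hi, hv⟩ := hv
    rw [mem_Icc] at hi
    exact ⟨z, hz, i, hi.1, hi.2, hv.symm⟩
  have hcwstp : ∀ s ∈ S', ∃ z ∈ ZR, ∃ i, 2 ≤ i ∧ i ≤ N - 3 ∧ cw (iS s) = x z i :=
    fun s hs => hstp _ (hcv.mem (iS s) (hiSJ s hs)).2.1
  have hxQ : ∀ z ∈ Zs, ∀ i, i < N → x z i ∈ Q := fun z hz i hi => (Q_eq _).2 ⟨z, hz, i, hi, rfl⟩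
  have hcwinj : ∀ s ∈ S', ∀ s' ∈ S', cw (iS s) = cw (iS s') → s = s' := by
    intro s hs s' hs' h
    by_contra hne
    have h1 : iS s ≠ iS s' := fun h2 => hne (hiS hs hs' h2)
    obtain ⟨z, hz, i, hi1, hi2, hi3⟩ := hcwstp s hs
    have h3 := hcv.far (iS s) (hiSJ s hs) (iS s') (hiSJ s' hs') h1 (cw (iS s)) (by
      rw [hi3]
      exact hxQ z (hZRs z hz) i (by omega))
    exact h3 ⟨Or.inr (Or.inl rfl), Or.inr (Or.inl h)⟩
  obtain ⟨τ, hτ0, hτe, hτs⟩ := tau59 hS' hcwinj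
  -- the paths with labelled interior
  obtain ⟨A, hA⟩ : ∃ A : Finset ℕ, A = ZC ∪ ZM.filter (fun z => x z 2 ∉ U) := ⟨_, rfl⟩
  have hAs : ∀ z ∈ A, z ∈ Zs := by
    intro z hz
    rw [hA, mem_union, mem_filter] at hz
    rcases hz with h1 | h1
    · exact hZCs z h1
    · exact hZMs z h1.1
  have hRA : ∀ z ∈ ZR, z ∉ A := by
    intro z hz hzA
    rw [hA, mem_union, mem_filter] at hzA
    rcases hzA with h1 | h1
    · exact disjoint_left.1 d1 h1 hz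
    · exact disjoint_left.1 d2 (mem_union_right _ hz) h1.1
  have hMA : ∀ z ∈ ZM, x z 2 ∈ U → z ∉ A := by
    intro z hz hzU hzA
    rw [hA, mem_union, mem_filter] at hzA
    rcases hzA with h1 | h1
    · exact disjoint_left.1 d2 (mem_union_left _ h1) hz
    · exact h1.2 hzU
  have hWc : ∀ v ∈ W, (∃ z ∈ Zs, v = x z 1 ∨ v = x z (N - 2)) ∨
      ∃ z ∈ Zs, z ∉ A ∧ ∃ i, 2 ≤ i ∧ i ≤ N - 3 ∧ v = x z i := by
    intro v hv
    rw [hW, mem_union, mem_union, mem_biUnion, mem_biUnion] at hv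
    rcases hv with (⟨z, hz, hv⟩ | hv) | ⟨u, hu, hv⟩
    · rw [mem_insert, mem_singleton] at hv
      exact Or.inl ⟨z, hz, hv⟩
    · obtain ⟨z, hz, i, h1, h2, h3⟩ := hstp v hv
      exact Or.inr ⟨z, hZRs z hz, hRA z hz, i, h1, h2, h3⟩
    · have h1 := hU hu
      rw [mem_image] at h1
      obtain ⟨z, hz, rfl⟩ := h1
      rw [hPM z hz, mem_image] at hv
      obtain ⟨i, hi, rfl⟩ := hv
      rw [mem_Icc] at hi
      exact Or.inr ⟨z, hZMs z hz, hMA z hz hu, i, hi.1, hi.2, rfl⟩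
  have hΛc : ∀ v ∈ Λ, (∃ z ∈ Zs, v = x z 0 ∨ v = x z (N - 1)) ∨
      ∃ z ∈ A, ∃ i, 2 ≤ i ∧ i ≤ N - 3 ∧ v = x z i := by
    intro v hv
    rw [hΛ, mem_union, mem_union, mem_biUnion, mem_biUnion] at hv
    rcases hv with (⟨z, hz, hv⟩ | hv) | ⟨u, hu, hv⟩
    · rw [mem_insert, mem_singleton] at hv
      exact Or.inl ⟨z, hz, hv⟩
    · rw [mem_sdiff] at hv
      have hv1 := hv.1
      unfold stp at hv1
      rw [mem_biUnion] at hv1
      obtain ⟨z, hz, hv1⟩ := hv1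
      rw [mem_image] at hv1
      obtain ⟨i, hi, hv1⟩ := hv1
      rw [mem_Icc] at hi
      refine Or.inr ⟨z, ?_, i, hi.1, hi.2, hv1.symm⟩
      rw [hA]
      exact mem_union_left _ hz
    · rw [mem_sdiff, mem_image] at hu
      obtain ⟨⟨z, hz, rfl⟩, hu2⟩ := hu
      rw [hPM z hz, mem_image] at hv
      obtain ⟨i, hi, rfl⟩ := hv
      rw [mem_Icc] at hi
      refine Or.inr ⟨z, ?_, i, hi.1, hi.2, rfl⟩
      rw [hA]
      exact mem_union_right _ (mem_filter.2 ⟨hz, hu2⟩)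
  have hΛ0 : ∀ z ∈ Zs, x z 0 ∈ Λ ∧ x z (N - 1) ∈ Λ := by
    intro z hz
    rw [hΛ]
    constructor
    · refine mem_union_left _ (mem_union_left _ (mem_biUnion.2 ⟨z, hz, ?_⟩))
      exact mem_insert_self _ _
    · refine mem_union_left _ (mem_union_left _ (mem_biUnion.2 ⟨z, hz, ?_⟩))
      exact mem_insert_of_mem (mem_singleton_self _)
  have hΛA : ∀ z ∈ A, x z (N - 3) ∈ Λ := by
    intro z hz
    rw [hA, mem_union, mem_filter] at hz
    rw [hΛ]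
    rcases hz with h1 | ⟨h1, h2⟩
    · refine mem_union_left _ (mem_union_right _ (mem_sdiff.2 ⟨?_, (hFl2 z h1).2⟩))
      unfold stp
      exact mem_biUnion.2 ⟨z, h1, mem_image_of_mem _ (mem_Icc.2 ⟨by omega, le_rfl⟩)⟩
    · refine mem_union_right _ (mem_biUnion.2 ⟨x z 2, mem_sdiff.2 ⟨mem_image_of_mem (fun z => x z 2) h1, h2⟩, ?_⟩)
      rw [hPM z h1]
      exact mem_image_of_mem _ (mem_Icc.2 ⟨by omega, le_rfl⟩)
  have hFA : ∀ z ∈ A, F (x z 2) % 4 = F (x z 0) % 4 := by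
    intro z hz
    rw [hA, mem_union, mem_filter] at hz
    rcases hz with h1 | ⟨h1, h2⟩
    · exact hC z h1
    · exact hM z h1 h2
  have hWA : ∀ z ∈ A, ∀ i, 2 ≤ i → i ≤ N - 3 → x z i ∉ W := by
    intro z hz i h1 h2 h3
    rcases hWc _ h3 with ⟨z', hz', h4 | h4⟩ | ⟨z', hz', h4, i', h5, h6, h7⟩
    · have := (inj z (hAs z hz) z' hz' i (by omega) 1 (by omega) h4).2
      omega
    · have := (inj z (hAs z hz) z' hz' i (by omega) (N - 2) (by omega) h4).2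
      omega
    · have := (inj z (hAs z hz) z' hz' i (by omega) i' (by omega) h7).1
      rw [this] at hz
      exact h4 hz
  have hτ1 : ∀ z ∈ Zs, τ (x z 1) = 0 := by
    intro z hz
    apply hτ0
    intro s hs h1
    obtain ⟨z', hz', i, hi1, hi2, hi3⟩ := hcwstp s hs
    have := (inj z hz z' (hZRs z' hz') 1 (by omega) i (by omega) (h1.trans hi3)).2
    omega
  -- the alternating values
  obtain ⟨q, hq0, hqs⟩ : ∃ q : ℕ → ℕ → ℤ, (∀ z, q z 0 = F (x z 0)) ∧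
      ∀ z i, q z (i + 1) = τ (x z (i + 1)) - q z i :=
    ⟨fun z => Nat.rec (F (x z 0)) (fun i y => τ (x z (i + 1)) - y), fun z => rfl, fun z i => rfl⟩
  have hqodd : ∀ z ∈ Zs, ∀ i, Odd (q z i) := by
    intro z hz i
    induction i with
    | zero =>
      rw [hq0]
      exact hF _ (hΛ0 z hz).1
    | succ i ih =>
      rw [hqs]
      exact (hτe _).sub_odd ih
  obtain ⟨r, hr1, hr2, hr3⟩ : ∃ r : ℕ → ℕ → ℤ, (∀ z i, ¬ (z ∈ A ∧ 2 ≤ i) → r z i = q z i) ∧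
      (∀ z ∈ A, ∀ i, 2 ≤ i → i ≤ N - 3 → r z i = F (x z i)) ∧ (∀ z ∈ A, r z (N - 2) = - F (x z (N - 3))) := by
    refine ⟨fun z i => if z ∈ A ∧ 2 ≤ i then (if i ≤ N - 3 then F (x z i) else - F (x z (N - 3))) else q z i, ?_, ?_, ?_⟩
    · intro z i h
      beta_reduce
      rw [if_neg h]
    · intro z hz i h1 h2
      beta_reduce
      rw [if_pos ⟨hz, h1⟩, if_pos h2]
    · intro z hz
      beta_reduce
      rw [if_pos ⟨hz, by omega⟩, if_neg (by omega)]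
  have hr0 : ∀ z ∈ Zs, r z 0 = F (x z 0) := fun z _ => by rw [hr1 z 0 (by omega), hq0]
  have hr01 : ∀ z ∈ Zs, r z 1 = - F (x z 0) := fun z hz => by
    rw [hr1 z 1 (by omega), hqs, hq0, zero_add, hτ1 z hz]
    ring
  have hrodd : ∀ z ∈ Zs, Odd (r z (N - 2)) := by
    intro z hz
    by_cases hzA : z ∈ A
    · rw [hr3 z hzA]
      exact (hF _ (hΛA z hzA)).neg
    · rw [hr1 z _ (fun h => hzA h.1)]
      exact hqodd z hz _
  obtain ⟨V, hV⟩ : ∃ V : Finset ℕ, V = Zs.filter (fun z => ¬ (4 : ℤ) ∣ r z (N - 2) + F (x z (N - 1))) := ⟨_, rfl⟩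
  obtain ⟨ρ, hρ⟩ := transport59 inj (fun z i => if i = N - 1 then (if z ∈ V then - F (x z (N - 1)) else F (x z (N - 1))) else r z i)
  have hρ1 : ∀ z ∈ Zs, ∀ i, i < N - 1 → ρ (x z i) = r z i := by
    intro z hz i hi
    rw [hρ z hz i (by omega)]
    beta_reduce
    rw [if_neg (by omega)]
  have hρ2 : ∀ z ∈ V, ρ (x z (N - 1)) = - F (x z (N - 1)) := by
    intro z hz
    have hz' : z ∈ Zs := by
      rw [hV, mem_filter] at hz
      exact hz.1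
    rw [hρ z hz' (N - 1) (by omega)]
    beta_reduce
    rw [if_pos rfl, if_pos hz]
  have hρ3 : ∀ z ∈ Zs, z ∉ V → ρ (x z (N - 1)) = F (x z (N - 1)) := by
    intro z hz hzV
    rw [hρ z hz (N - 1) (by omega)]
    beta_reduce
    rw [if_pos rfl, if_neg hzV]
  have hlast : ∀ z ∈ Zs, (4 : ℤ) ∣ ρ (x z (N - 1)) + r z (N - 2) := by
    intro z hz
    have h1 := hrodd z hz
    have h2 := hF _ (hΛ0 z hz).2
    by_cases hzV : z ∈ V
    · rw [hρ2 z hzV]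
      have h3 : ¬ (4 : ℤ) ∣ r z (N - 2) + F (x z (N - 1)) := by
        rw [hV, mem_filter] at hzV
        exact hzV.2
      obtain ⟨a, ha⟩ := h1
      obtain ⟨b, hb⟩ := h2
      rw [ha, hb] at h3 ⊢
      omega
    · rw [hρ3 z hz hzV]
      by_contra h3
      apply hzV
      rw [hV, mem_filter]
      refine ⟨hz, ?_⟩
      rw [add_comm]
      exact h3
  have hmod : ∀ a : ℤ, (4 : ℤ) ∣ a → a ≡ 0 [ZMOD (2 * 2 : ℕ)] := by
    intro a ha
    exact (Int.modEq_zero_iff_dvd).2 ha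
  refine ⟨V, ρ, ?_, ?_, hρ2, ?_, ?_, ?_⟩
  · rw [hV]
    exact filter_subset _ _
  · intro v hv hvV
    rcases hΛc v hv with ⟨z, hz, rfl | rfl⟩ | ⟨z, hz, i, hi1, hi2, rfl⟩
    · rw [hρ1 z hz 0 (by omega), hr0 z hz]
    · exact hρ3 z hz (fun h => hvV z h rfl)
    · rw [hρ1 z (hAs z hz) i (by omega), hr2 z hz i hi1 hi2]
  · intro v hv
    rcases hWc v hv with ⟨z, hz, rfl | rfl⟩ | ⟨z, hz, hzA, i, hi1, hi2, rfl⟩
    · rw [hρ1 z hz 1 (by omega), hr01 z hz]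
      exact (hF _ (hΛ0 z hz).1).neg
    · rw [hρ1 z hz _ (by omega)]
      exact hrodd z hz
    · rw [hρ1 z hz i (by omega), hr1 z i (fun h => hzA h.1)]
      exact hqodd z hz i
  · intro i hi his
    unfold EdT EdI at hi
    rw [mem_filter, mem_filter] at hi
    obtain ⟨⟨hi1, hi0, hi2⟩, hi3⟩ := hi
    have hWQ : ∀ v ∈ W ∪ Λ, ∃ z ∈ Zs, ∃ k, k < N ∧ v = x z k := by
      intro v hv
      rw [mem_union] at hv
      rcases hv with hv | hv
      · rcases hWc v hv with ⟨z, hz, rfl | rfl⟩ | ⟨z, hz, hzA, i, hi1, hi2, rfl⟩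
        · exact ⟨z, hz, 1, by omega, rfl⟩
        · exact ⟨z, hz, N - 2, by omega, rfl⟩
        · exact ⟨z, hz, i, by omega, rfl⟩
      · rcases hΛc v hv with ⟨z, hz, rfl | rfl⟩ | ⟨z, hz, i, hi1, hi2, rfl⟩
        · exact ⟨z, hz, 0, by omega, rfl⟩
        · exact ⟨z, hz, N - 1, by omega, rfl⟩
        · exact ⟨z, hAs z hz, i, by omega, rfl⟩
    obtain ⟨z, hz, k, hk, rfl⟩ := hWQ i hi1
    have hpQ : p (x z k) ∈ Q := by
      obtain ⟨z', hz', k', hk', h1⟩ := hWQ _ hi2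
      rw [h1]
      exact hxQ z' hz' k' hk'
    rcases Nat.eq_zero_or_pos k with hk0 | hk0
    · subst hk0
      have h1 := (adj z hz 0 (by omega) (p (x z 0)) hpQ).1 (Or.inl ⟨hi0, rfl⟩)
      have h2 : p (x z 0) = x z 1 := by
        rcases h1 with h1 | h1
        · exact h1.2
        · exact absurd h1.1 (lt_irrefl 0)
      rw [h2, hρ1 z hz 0 (by omega), hρ1 z hz 1 (by omega), hr0 z hz, hr01 z hz, add_neg_cancel]
    · obtain ⟨j, rfl⟩ : ∃ j, k = j + 1 := ⟨k - 1, by omega⟩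
      rw [(par z hz j hk).1] at hi3 ⊢
      have hτi : τ (x z (j + 1)) = 0 := hτ0 _ his
      apply hmod
      by_cases hjN : j + 1 = N - 1
      · have hj : j = N - 2 := by omega
        rw [hjN, hj, hρ1 z hz (N - 2) (by omega)]
        exact hlast z hz
      · rw [hρ1 z hz (j + 1) (by omega), hρ1 z hz j (by omega)]
        by_cases hzA : z ∈ A
        · rcases Nat.lt_or_ge j 1 with hj | hj
          · have hj0 : j = 0 := by omega
            subst hj0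
            rw [zero_add, hr01 z hz, hr0 z hz, neg_add_cancel]
            exact dvd_zero _
          · rcases Nat.lt_or_ge j 2 with hj' | hj'
            · have hj1 : j = 1 := by omega
              subst hj1
              rw [hr2 z hzA (1 + 1) (by omega) (by omega), hr01 z hz]
              have h1 := hFA z hzA
              have h2 : (1 + 1 : ℕ) = 2 := rfl
              rw [h2]
              omega
            · by_cases hj2 : j + 1 = N - 2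
              · have hj3 : j = N - 3 := by omega
                rw [hj2, hr3 z hzA, hr2 z hzA j (by omega) (by omega), hj3, neg_add_cancel]
                exact dvd_zero _
              · exfalso
                rcases hi3 with h1 | h1
                · exact hWA z hzA (j + 1) (by omega) (by omega) h1
                · exact hWA z hzA j hj' (by omega) h1
        · rw [hr1 z (j + 1) (fun h => hzA h.1), hr1 z j (fun h => hzA h.1), hqs, hτi]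
          have h1 : (0 : ℤ) - q z j + q z j = 0 := by ring
          rw [h1]
          exact dvd_zero _
  · intro s hs
    obtain ⟨z, hz, i, hi1, hi2, hi3⟩ := hcwstp s hs
    obtain ⟨h1, h2, h3, h4⟩ := hcv.mem (iS s) (hiSJ s hs)
    obtain ⟨j, rfl⟩ : ∃ j, i = j + 1 := ⟨i - 1, by omega⟩
    have hzs := hZRs z hz
    have h5 : cv (iS s) = x z j := by
      rw [← h4, hi3]
      exact (par z hzs j (by omega)).1
    have h6 := hτs s hs
    rw [hi3] at h6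
    have hzA := hRA z hz
    rw [h5, hi3, hρ1 z hzs (j + 1) (by omega), hρ1 z hzs j (by omega), hr1 z (j + 1) (fun h => hzA h.1),
      hr1 z j (fun h => hzA h.1), hqs, h6]
    have h7 : (s : ℤ) - q z j + q z j = s := by ring
    rw [h7]

end Pool.Agent.BD
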