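import Pool.Agent.Helper73.BD.M2

/-!
# BD-SG2: the signs of the packed trees, `e = 2`

Proof in words.  The vertices `x z 2`, `z ∈ Zs`, are different (`Pth.inj`).  `σ (x z 2) = 1` if `g (x z 2) ≡ f (x z 0)` modulo 4, otherwise `-1` (both numbers are odd).  A vertex `w = x z 1` or `w = x z (N-2)` is adjacent, among
the vertices of the `P t` (which are `x z' i`, `2 ≤ i ≤ N-3`, `t = x z' 2`), only to `x z 2` resp. `x z (N-3)` (`Pth.adj`, `Pth.inj`; `N ≥ 20`): choose `τ w` according to the sign of `σ (x z 2) * g` at this vertex.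
-/

set_option autoImplicit false

namespace Pool.Agent.BD

open Finset Pool.Agent.SEM

theorem signs2 {n N : ℕ} {p ι : ℕ → ℕ} {E Q Zs ZM T' : Finset ℕ} {x : ℕ → ℕ → ℕ} {P : ℕ → Finset ℕ} (hN : 20 ≤ N)
    (hP : Pth n N p ι E Q Zs x) (hZM : ZM ⊆ Zs) (hPM : ∀ z ∈ ZM, P (x z 2) = (Icc 2 (N - 3)).image (x z))
    (hT' : T' ⊆ ZM.image fun z => x z 2) (f g : ℕ → ℤ) (hf : ∀ z ∈ ZM, Odd (f (x z 0)))
    (hg : ∀ z ∈ ZM, x z 2 ∈ T' → Odd (g (x z 2))) :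
    ∃ σ τ : ℕ → ℤ, (∀ t, σ t = 1 ∨ σ t = -1) ∧ (∀ w, τ w = 1 ∨ τ w = -1) ∧
      (∀ z ∈ ZM, x z 2 ∈ T' → σ (x z 2) * g (x z 2) ≡ f (x z 0) [ZMOD 4]) ∧
      ∀ w ∈ (Zs.biUnion fun z => {x z 1, x z (N - 2)}), ∀ t ∈ T', ∀ v ∈ P t, Ad p v w → 0 ≤ τ w * (σ t * g v) := by
  classical
  obtain ⟨σ, hσ⟩ : ∃ σ : ℕ → ℤ, ∀ t, σ t = if ∃ z ∈ ZM, x z 2 = t ∧ g t ≡ f (x z 0) [ZMOD 4] then 1 else -1 :=
    ⟨_, fun t => rfl⟩
  have hσ1 : ∀ t, σ t = 1 ∨ σ t = -1 := by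
    intro t
    rw [hσ]
    split_ifs
    · exact Or.inl rfl
    · exact Or.inr rfl
  -- the only neighbour
  have key : ∀ z ∈ Zs, ∀ j, (j = 1 ∨ j = N - 2) → ∀ t ∈ T', ∀ v ∈ P t, Ad p v (x z j) →
      t = x z 2 ∧ v = x z (if j = 1 then 2 else N - 3) := by
    intro z hz j hj t ht v hv ha
    obtain ⟨z', hz', rfl⟩ := mem_image.1 (hT' ht)
    rw [hPM z' hz'] at hv
    obtain ⟨i, hi, rfl⟩ := mem_image.1 hv
    rw [mem_Icc] at hi
    have hwQ : x z j ∈ Q := (hP.Q_eq _).2 ⟨z, hz, j, by omega, rfl⟩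
    have h1 := (hP.adj z' (hZM hz') i (by omega) (x z j) hwQ).1 ha
    rcases h1 with ⟨h2, h3⟩ | ⟨h2, h3⟩
    · obtain ⟨h4, h5⟩ := hP.inj z hz z' (hZM hz') j (by omega) (i + 1) h2 h3
      subst h4
      refine ⟨rfl, ?_⟩
      rcases hj with hj | hj
      · omega
      · have h6 : j ≠ 1 := by omega
        rw [if_neg h6]
        congr 1
        omega
    · obtain ⟨h4, h5⟩ := hP.inj z hz z' (hZM hz') j (by omega) (i - 1) (by omega) h3
      subst h4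
      refine ⟨rfl, ?_⟩
      rcases hj with hj | hj
      · rw [if_pos hj]
        congr 1
        omega
      · omega
  refine ⟨σ, fun w => if ∃ t ∈ T', ∃ v ∈ P t, Ad p v w ∧ σ t * g v < 0 then -1 else 1, hσ1, ?_, ?_, ?_⟩
  · intro w
    dsimp only
    split_ifs
    · exact Or.inr rfl
    · exact Or.inl rfl
  · intro z hz hzT
    have h1 := hf z hz
    have h2 := hg z hz hzT
    rw [hσ]
    split_ifs with h
    · obtain ⟨z', hz', h3, h4⟩ := h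
      obtain ⟨h5, -⟩ := hP.inj z' (hZM hz') z (hZM hz) 2 (by omega) 2 (by omega) h3
      subst h5
      rw [one_mul]
      exact h4
    · have h3 : ¬ g (x z 2) ≡ f (x z 0) [ZMOD 4] := fun h' => h ⟨z, hz, rfl, h'⟩
      obtain ⟨a, ha⟩ := h1
      obtain ⟨b, hb⟩ := h2
      unfold Int.ModEq at h3 ⊢
      omega
  · intro w hw t ht v hv ha
    obtain ⟨z, hz, hw⟩ := mem_biUnion.1 hw
    obtain ⟨j, hj, rfl⟩ : ∃ j, (j = 1 ∨ j = N - 2) ∧ w = x z j := by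
      rw [mem_insert, mem_singleton] at hw
      rcases hw with hw | hw
      · exact ⟨1, Or.inl rfl, hw⟩
      · exact ⟨N - 2, Or.inr rfl, hw⟩
    obtain ⟨h1, h2⟩ := key z hz j hj t ht v hv ha
    dsimp only
    split_ifs with h
    · obtain ⟨t', ht', v', hv', ha', hlt⟩ := h
      obtain ⟨h3, h4⟩ := key z hz j hj t' ht' v' hv' ha'
      rw [h3, h4, ← h1, ← h2] at hlt
      linarith
    · push Not at h
      have := h t ht v hv ha
      linarith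

end Pool.Agent.BD
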