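import Pool.Agent.Helper73.BD.CR
import Pool.Agent.Helper73.BD.PK
import Pool.Agent.Helper73.BD.SG2
import Pool.Agent.Helper73.BD.FP
import Pool.Agent.Helper73.BD.RH
import Pool.Agent.Helper73.BD.P2

/-!
# BD-F2: the end of the proof for `e = 2`

Proof in words.  `signs2` (with `f = F`) gives `σ, τ`, `packed` gives `F2, X1, S1'` (`Λ = Bd ∪ (Cl \ Fl)`; `KL`, `KS` are disjoint from `X`, `S`).  `X' = X \ X1`, `S' = S \ S1'`:
`|X'| = ∑_{T \ T'} |P τ|`, `|S'| = ∑_{T \ T'} (|P τ| - 1)`, together at most `Jc`: choose injections `iL` of `X'`, `iS` of `S'` into `{0, .., Jc - 1}` with disjoint images.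
`Λ2 = Bd ∪ (Cl \ Fl) ∪ ⋃_{T'} P`.  `rho2` for `F2`, `U = T \ T'` (for `z ∈ ZM` with `x z 2 ∉ U`: `x z 2 ∈ T'`, `F2 (x z 2) = σ g ≡ F (x z 0) = F2 (x z 0)`; for `z ∈ ZC` by `hres`) gives `V, ρ`.
`flips` for `F2` and `V` gives `F3`.  (`x z (N-1) ∈ Bd ⊆ Λ2`, `x z (N-2) ∈ CN`, not in `Λ2`; `F2 (ι v) = - F2 v` for `v ∈ Bd` by `S1.bal`, `Fd ⊆ Cl`.)
Then `F3 v ≡ ρ v` on `Λ2` (even `F3 v = ρ v`), `F3 (ι v) = -F3 v` for `v ∈ Λ2 \ Fd`, `|F3 v| = |F2 v|`, and `F3 = F` on `CO`, `F3 0 = F 0`.  (`x z (N-1)`, `ι (x z (N-1))` are not in `CO` and not `0`; for `v ∈ Λ2` different from all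
`x z (N-1)`, `z ∈ V`: `v ≠ ι ..` as `v ∈ Q`, and `ι v ≠ x z (N-1)`, `ι v ≠ ι (x z (N-1))` as `ι` is injective.)
`core` with `e = 2`, `D = 2`, `F = F3`, `KL ∪ X1`, `KS ∪ S1'`, `X'`, `S'`, `U = T \ T'` (so `T \ U = T'`), `W = CN ∪ Rs ∪ ⋃_U P`, `y w = -2 c τ w`:
for `v ∈ Bd ∪ (Cl \ Fl)`: `|F3 v| ≤ 9n/10`, `|F3 v + y w| ≤ 9n/10 + 2c ≤ n - 2c`; for `v ∈ P t`, `t ∈ T'`, adjacent to `w`: `0 ≤ τ w * F3 v ≤ n`, so `|F3 v + y w| = |τ w * F3 v - 2c| ≤ n - 2c`.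
`hext` for `F3`: `F3 = F` on `CO`, so the `g'` of `S1.ext` can be changed outside `Fl` to `F3` without changing the sums of `EdT p Fl CO`.
-/

set_option autoImplicit false

namespace Pool.Agent.BD

open Finset Pool.Agent.SEM

private theorem rank_34 (X : Finset ℕ) : ∃ i : ℕ → ℕ, Set.InjOn i X ∧ ∀ x ∈ X, i x < X.card := by
  classical
  refine ⟨fun x => if h : x ∈ X then (X.equivFin ⟨x, h⟩ : ℕ) else 0, ?_, ?_⟩
  · intro x hx y hy hxy
    rw [mem_coe] at hx hy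
    simp only [hx, hy, dif_pos] at hxy
    exact congrArg Subtype.val (X.equivFin.injective (Fin.ext hxy))
  · intro x hx
    simp only [hx, dif_pos]
    exact (X.equivFin ⟨x, hx⟩).2

theorem finish2 {n N Jc a b c : ℕ} {p ι q : ℕ → ℕ} {E Q Bd CN Cl Rs Mn T T' Fl CO Fd Lc Sc KL KS X S Zs ZC ZR ZM : Finset ℕ}
    {P En : ℕ → Finset ℕ} {x : ℕ → ℕ → ℕ} {cv cw : ℕ → ℕ} {L1 L2 : List (ℤ × ℤ)} {F g : ℕ → ℤ} (hN : 20 ≤ N)
    (hn2 : Even n) (hn : 2 ≤ n) (hq : Mods 2 q) (hP : Pth n N p ι E Q Zs x)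
    (hZ : Zs = ZC ∪ ZR ∪ ZM) (d1 : Disjoint ZC ZR) (d2 : Disjoint (ZC ∪ ZR) ZM)
    (hBd : Bd = Zs.biUnion fun z => {x z 0, x z (N - 1)}) (hCN : CN = Zs.biUnion fun z => {x z 1, x z (N - 2)})
    (hCl : Cl = stp x ZC 2 (N - 3)) (hRs : Rs = stp x ZR 2 (N - 3)) (hMn : Mn = stp x ZM 2 (N - 3)) (hTT : T = ZM.image fun z => x z 2)
    (hQ : Q = QQ Bd CN Cl Rs Mn) (hT : Twin n 2 p ι E Bd (QQ Bd CN Cl Rs Mn))
    (hdv : Dvs n 2 N p Bd CN Cl Rs Mn T P En) (hPM : ∀ z ∈ ZM, P (x z 2) = (Icc 2 (N - 3)).image (x z))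
    (hcv : Cvs Jc p (QQ Bd CN Cl Rs Mn) Rs cv cw)
    (h1 : S1 n 2 2 a b p ι q E Bd CN Cl Rs Mn Fl CO Fd L1 L2 Lc Sc KL KS F)
    (hres : ∀ z ∈ ZC, x z 2 ∉ Fl ∧ x z (N - 3) ∉ Fl ∧ F (x z 2) ≡ F (x z 0) [ZMOD 4])
    (hX : X = LC n \ (KL ∪ FXs n 2 q ∪ Lc)) (hS : S = SC n \ (KS ∪ FSs n 2 2 q ∪ Sc))
    (hXc : X.card = ∑ t ∈ T, (P t).card) (hSc : S.card = ∑ t ∈ T, ((P t).card - 1)) (hT' : T' ⊆ T)
    (g1 : ∀ τ ∈ T', ∀ v ∈ P τ, g v ∈ pm X) (g2 : ∀ τ ∈ T', ∀ v ∈ P τ, v ≠ τ → g v + g (p v) ∈ pm S)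
    (g3 : Set.InjOn (fun v => (g v).natAbs) (T'.biUnion P))
    (g4 : Set.InjOn (fun v => (g v + g (p v)).natAbs) (T'.biUnion fun τ => (P τ).erase τ))
    (ha1 : a ≤ (FXs n 2 q).card) (hb1 : b ≤ (FSs n 2 2 q).card)
    (hJc : 2 * ∑ τ ∈ T \ T', (P τ).card ≤ Jc) (hc : 40 * c ≤ n)
    (hcap : qM 2 2 q * q 3 * (100 * (2 + 1) ^ 2 * (CN.card + Rs.card + ∑ τ ∈ T \ T', (P τ).card + 1)) ≤ c) :
    ∃ F' : ℕ → ℤ, IsCL n p F' ∧ F' 0 = F 0 := by
  classical
  -- basic facts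
  have d2' := disjoint_union_left.1 hdv.d2
  have d4' := disjoint_union_left.1 hdv.d4
  have d4a := disjoint_union_left.1 d4'.1
  have d4b := disjoint_union_left.1 d4a.1
  have hXs : X ⊆ LC n := by rw [hX]; exact sdiff_subset
  have hSs : S ⊆ SC n := by rw [hS]; exact sdiff_subset
  have hKX : Disjoint KL X := by
    rw [hX, disjoint_left]
    intro u hu hu'
    exact (mem_sdiff.1 hu').2 (mem_union_left _ (mem_union_left _ hu))
  have hKSd : Disjoint KS S := by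
    rw [hS, disjoint_left]
    intro u hu hu'
    exact (mem_sdiff.1 hu').2 (mem_union_left _ (mem_union_left _ hu))
  have oddpm : ∀ u : ℤ, u ∈ pm X → Odd u := fun u hu =>
    Int.natAbs_odd.1 (mem_LC.1 (hXs (mem_pm.1 hu))).2
  have hx0 : ∀ z ∈ Zs, x z 0 ∈ Bd := by
    intro z hz
    rw [hBd]
    exact mem_biUnion.2 ⟨z, hz, mem_insert_self _ _⟩
  have hxN : ∀ z ∈ Zs, x z (N - 1) ∈ Bd := by
    intro z hz
    rw [hBd]
    exact mem_biUnion.2 ⟨z, hz, mem_insert_of_mem (mem_singleton_self _)⟩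
  have hxN2 : ∀ z ∈ Zs, x z (N - 2) ∈ CN := by
    intro z hz
    rw [hCN]
    exact mem_biUnion.2 ⟨z, hz, mem_insert_of_mem (mem_singleton_self _)⟩
  have hA1 : ∀ v ∈ Bd ∪ (Cl \ Fl), v ∈ E ∪ (Bd ∪ (Cl \ Fl)) ∪ (Bd ∪ (Cl \ Fl)).image ι := fun v hv =>
    mem_union_left _ (mem_union_right _ hv)
  have hAι : ∀ v ∈ Bd ∪ (Cl \ Fl), ι v ∈ E ∪ (Bd ∪ (Cl \ Fl)) ∪ (Bd ∪ (Cl \ Fl)).image ι := fun v hv =>
    mem_union_right _ (mem_image_of_mem _ hv)
  have hodd : ∀ v ∈ Bd ∪ (Cl \ Fl), Odd (F v) := fun v hv =>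
    (mem_Lab.1 (h1.ls.lab v (hA1 v hv))).2
  have hZMs : ZM ⊆ Zs := by rw [hZ]; exact subset_union_right
  have hZCs : ZC ⊆ Zs := by rw [hZ]; exact subset_union_left.trans subset_union_left
  have hT'2 : T' ⊆ ZM.image fun z => x z 2 := by rw [← hTT]; exact hT'
  have hPMn : ∀ t ∈ T, P t ⊆ Mn := by
    intro t ht
    rw [hdv.Mn_eq]
    exact subset_biUnion_of_mem P ht
  -- signs
  obtain ⟨σ, τ, hσ, hτ, hs1, hs2⟩ := signs2 hN hP hZMs hPM hT'2 F g
    (fun z hz => hodd _ (mem_union_left _ (hx0 z (hZMs hz))))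
    (fun z _ h => oddpm _ (g1 _ h _ (hdv.tree _ (hT' h)).1))
  -- packing
  obtain ⟨F2, X1, S1', p1, p2, hX1, hS1, cX1, cS1, hLS2⟩ := packed hT hdv hT' (Λ := Bd ∪ (Cl \ Fl))
    (union_subset_union_right sdiff_subset) h1.ls hXs hSs hKX hKSd g σ hσ g1 g2 g3 g4
  set Λ2 : Finset ℕ := Bd ∪ (Cl \ Fl) ∪ T'.biUnion P with hΛ2
  have hTU : T \ (T \ T') = T' := Finset.sdiff_sdiff_eq_self hT'
  have hPΛ : T'.biUnion P ⊆ Mn := by
    intro v hv
    obtain ⟨t, ht, hvt⟩ := mem_biUnion.1 hv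
    exact hPMn t (hT' ht) hvt
  have hBQ : Bd ⊆ QQ Bd CN Cl Rs Mn := by
    unfold QQ
    exact subset_union_left.trans (subset_union_left.trans (subset_union_left.trans subset_union_left))
  have hClQ : Cl ⊆ QQ Bd CN Cl Rs Mn := by
    unfold QQ
    exact subset_union_right.trans (subset_union_left.trans subset_union_left)
  have hMQ : Mn ⊆ QQ Bd CN Cl Rs Mn := by
    unfold QQ
    exact subset_union_right
  have hΛQ : Λ2 ⊆ QQ Bd CN Cl Rs Mn :=
    union_subset (union_subset hBQ (sdiff_subset.trans hClQ)) (hPΛ.trans hMQ)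
  -- the leftover classes
  have cX' := card_sdiff_add_card_eq_card hX1
  have cS' := card_sdiff_add_card_eq_card hS1
  have sX := sum_sdiff (f := fun t => (P t).card) hT'
  have sS := sum_sdiff (f := fun t => (P t).card - 1) hT'
  have sLe : ∑ t ∈ T \ T', ((P t).card - 1) ≤ ∑ t ∈ T \ T', (P t).card :=
    sum_le_sum fun t _ => Nat.sub_le _ _
  obtain ⟨iL, hiL, hiL2⟩ := rank_34 (X \ X1)
  obtain ⟨i0, hi0, hi02⟩ := rank_34 (S \ S1')
  obtain ⟨iS, hiSdef⟩ : ∃ iS : ℕ → ℕ, ∀ s, iS s = (X \ X1).card + i0 s := ⟨_, fun _ => rfl⟩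
  have hiS : Set.InjOn iS (S \ S1' : Finset ℕ) := by
    intro s hs t ht hst
    rw [hiSdef, hiSdef] at hst
    exact hi0 hs ht (by omega)
  have hiLJ : ∀ u ∈ X \ X1, iL u < Jc := by
    intro u hu
    have := hiL2 u hu
    omega
  have hiSJ : ∀ s ∈ S \ S1', iS s < Jc := by
    intro s hs
    have := hi02 s hs
    rw [hiSdef]
    omega
  have hdis : ∀ u ∈ X \ X1, ∀ s ∈ S \ S1', iL u ≠ iS s := by
    intro u hu s hs
    have := hiL2 u hu
    rw [hiSdef]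
    omega
  -- the residues
  have hcv' : Cvs Jc p Q (stp x ZR 2 (N - 3)) cv cw := by
    rw [hQ, ← hRs]
    exact hcv
  have hF2odd : ∀ v ∈ Λ2, Odd (F2 v) := fun v hv =>
    (mem_Lab.1 (hLS2.lab v (mem_union_left _ (mem_union_right _ hv)))).2
  have hFB : ∀ z ∈ Zs, F2 (x z 0) = F (x z 0) := fun z hz =>
    p1 _ (hA1 _ (mem_union_left _ (hx0 z hz)))
  obtain ⟨V, ρ, hV, r1, r2, r3, r4, r5⟩ := rho2 (ι := ι) (E := E) (U := T \ T') (Fl := Fl) (S' := S \ S1') (iS := iS) hN hP hZ d1 d2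
    hPM hcv' (by rw [← hTT]; exact sdiff_subset) (by rw [← hCl]; exact h1.Fls)
    (fun z hz => ⟨(hres z hz).1, (hres z hz).2.1⟩) (CN ∪ Rs ∪ (T \ T').biUnion P) Λ2
    (by rw [← hCN, ← hRs]) (by rw [← hBd, ← hCl, ← hTT, hTU]) F2 hF2odd (by
      intro z hz
      have h2 : x z 2 ∈ Bd ∪ (Cl \ Fl) := by
        refine mem_union_right _ (mem_sdiff.2 ⟨?_, (hres z hz).1⟩)
        rw [hCl]
        exact mem_biUnion.2 ⟨z, hz, mem_image_of_mem _ (mem_Icc.2 ⟨le_refl _, by omega⟩)⟩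
      rw [p1 _ (hA1 _ h2), hFB z (hZCs hz)]
      exact (hres z hz).2.2) (by
      intro z hz hzU
      have h2 : x z 2 ∈ T := by
        rw [hTT]
        exact mem_image_of_mem _ hz
      have h3 : x z 2 ∈ T' := by
        by_contra h
        exact hzU (mem_sdiff.2 ⟨h2, h⟩)
      rw [(p2 _ h3 _ (hdv.tree _ h2).1).1, hFB z (hZMs hz)]
      exact hs1 z hz h3)
    (fun s hs => (mem_SC.1 (hSs (mem_sdiff.1 hs).1)).2) hiS hiSJ
  -- the flips
  have hTw : Twin n 2 p ι E (Zs.biUnion fun z => {x z 0, x z (N - 1)}) Q := by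
    rw [hQ, ← hBd]
    exact hT
  have hFdB : ∀ v ∈ Bd, v ∉ Fd := by
    intro v hv h
    exact disjoint_left.1 d2'.1 hv (mem_sdiff.1 (h1.Fds h)).1
  obtain ⟨F3, f1, f2, hLS3⟩ := flips (by omega) hTw hP (Λ := Λ2) (by rw [hQ]; exact hΛQ) (by
      intro z hz
      refine ⟨mem_union_left _ (mem_union_left _ (hxN z hz)), ?_⟩
      intro h
      have h2 := hxN2 z hz
      rcases mem_union.1 h with h | h
      · rcases mem_union.1 h with h | h
        · exact disjoint_left.1 hdv.d1 h h2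
        · exact disjoint_left.1 d2'.2 h2 (mem_sdiff.1 h).1
      · exact disjoint_left.1 d4b.2 h2 (hPΛ h)) hLS2 (by
      intro z hz
      have h2 : x z (N - 1) ∈ Bd ∪ (Cl \ Fl) := mem_union_left _ (hxN z hz)
      rw [p1 _ (hA1 _ h2), p1 _ (hAι _ h2)]
      exact h1.bal _ h2 (hFdB _ (hxN z hz))) hV
  -- the values of `F3`
  have hιQ : ∀ v ∈ QQ Bd CN Cl Rs Mn, ∀ w ∈ QQ Bd CN Cl Rs Mn, v ≠ ι w := by
    intro v hv w hw h
    exact (hT.ιn w hw).2.1 (h ▸ hv)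
  have hxQ : ∀ z ∈ V, x z (N - 1) ∈ QQ Bd CN Cl Rs Mn := fun z hz => hBQ (hxN z (hV hz))
  have k1 : ∀ v ∈ Λ2, (∀ z ∈ V, v ≠ x z (N - 1)) → F3 v = F2 v ∧ F3 (ι v) = F2 (ι v) := by
    intro v hv h
    constructor
    · refine f2 v fun z hz => ⟨h z hz, hιQ v (hΛQ hv) _ (hxQ z hz)⟩
    · refine f2 (ι v) fun z hz => ⟨fun h2 => hιQ _ (hxQ z hz) v (hΛQ hv) h2.symm, fun h2 => h z hz ?_⟩
      exact hT.ιinj (hΛQ hv) (hxQ z hz) h2
  have k2 : ∀ v ∈ Λ2, v ∉ Fd → F2 (ι v) = -F2 v := by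
    intro v hv hvd
    rcases mem_union.1 hv with h | h
    · rw [p1 _ (hA1 _ h), p1 _ (hAι _ h)]
      exact h1.bal v h hvd
    · obtain ⟨t, ht, hvt⟩ := mem_biUnion.1 h
      exact (p2 t ht v hvt).2
  have k3 : ∀ v ∈ Λ2, F3 v = ρ v := by
    intro v hv
    by_cases h : ∃ z ∈ V, v = x z (N - 1)
    · obtain ⟨z, hz, rfl⟩ := h
      rw [(f1 z hz).1, r2 z hz]
    · push Not at h
      rw [(k1 v hv h).1, r1 v hv h]
  have k4 : ∀ v ∈ Λ2, v ∉ Bd → F3 v = F2 v := by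
    intro v hv h
    refine (k1 v hv fun z hz h2 => h ?_).1
    rw [h2]
    exact hxN z (hV hz)
  have k5 : ∀ v ∈ Λ2, |F3 v| = |F2 v| := by
    intro v hv
    by_cases h : ∃ z ∈ V, v = x z (N - 1)
    · obtain ⟨z, hz, rfl⟩ := h
      rw [(f1 z hz).1, abs_neg]
    · push Not at h
      rw [(k1 v hv h).1]
  have hCOΛ : ∀ v ∈ CO, v ∈ Λ2 ∧ F3 v = F v := by
    intro v hv
    have h2 := h1.COs hv
    have h3 : v ∈ Bd ∪ (Cl \ Fl) := mem_union_right _ h2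
    have h4 : v ∈ Λ2 := mem_union_left _ h3
    refine ⟨h4, ?_⟩
    rw [k4 v h4 (fun h => disjoint_left.1 d2'.1 h (mem_sdiff.1 h2).1), p1 _ (hA1 _ h3)]
  have hF30 : F3 0 = F 0 := by
    have h2 : F3 0 = F2 0 := by
      refine f2 0 fun z hz => ⟨fun h => ?_, fun h => ?_⟩
      · exact disjoint_left.1 hT.EQ hT.zE (h ▸ hxQ z hz)
      · exact (hT.ιn _ (hxQ z hz)).2.2 (h ▸ hT.zE)
    rw [h2, p1 0 (mem_union_left _ (mem_union_left _ hT.zE))]
  have hWc : (CN ∪ Rs ∪ (T \ T').biUnion P).card ≤ CN.card + Rs.card + ∑ t ∈ T \ T', (P t).card := by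
    refine (card_union_le _ _).trans (Nat.add_le_add (card_union_le _ _) card_biUnion_le)
  -- disjointness of the classes
  have hKLd := disjoint_union_right.1 h1.KLd
  have hKSd' := disjoint_union_right.1 h1.KSd
  have hXF : Disjoint X (FXs n 2 q) := by
    rw [hX, disjoint_left]
    intro u hu hu'
    exact (mem_sdiff.1 hu).2 (mem_union_left _ (mem_union_right _ hu'))
  have hXL : Disjoint X Lc := by
    rw [hX, disjoint_left]
    intro u hu hu'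
    exact (mem_sdiff.1 hu).2 (mem_union_right _ hu')
  have hSF : Disjoint S (FSs n 2 2 q) := by
    rw [hS, disjoint_left]
    intro u hu hu'
    exact (mem_sdiff.1 hu).2 (mem_union_left _ (mem_union_right _ hu'))
  have hSL : Disjoint S Sc := by
    rw [hS, disjoint_left]
    intro u hu hu'
    exact (mem_sdiff.1 hu).2 (mem_union_right _ hu')
  have hFXL : FXs n 2 q ⊆ LC n := filter_subset _ _
  have hFSL : FSs n 2 2 q ⊆ SC n := filter_subset _ _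
  have eLC : LC n = (KL ∪ X1) ∪ (X \ X1) ∪ FXs n 2 q ∪ Lc := by
    rw [union_assoc KL, union_sdiff_of_subset hX1]
    refine Subset.antisymm ?_ (union_subset (union_subset (union_subset h1.ls.KLs hXs) hFXL) h1.Lcd.1)
    intro u hu
    by_cases h : u ∈ KL ∪ FXs n 2 q ∪ Lc
    · simp only [mem_union] at h ⊢
      tauto
    · have h2 : u ∈ X := by
        rw [hX]
        exact mem_sdiff.2 ⟨hu, h⟩
      exact mem_union_left _ (mem_union_left _ (mem_union_right _ h2))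
  have eSC : SC n = (KS ∪ S1') ∪ (S \ S1') ∪ FSs n 2 2 q ∪ Sc := by
    rw [union_assoc KS, union_sdiff_of_subset hS1]
    refine Subset.antisymm ?_ (union_subset (union_subset (union_subset h1.ls.KSs hSs) hFSL) h1.Scd.1)
    intro u hu
    by_cases h : u ∈ KS ∪ FSs n 2 2 q ∪ Sc
    · simp only [mem_union] at h ⊢
      tauto
    · have h2 : u ∈ S := by
        rw [hS]
        exact mem_sdiff.2 ⟨hu, h⟩
      exact mem_union_left _ (mem_union_left _ (mem_union_right _ h2))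
  have dL1 : Disjoint (KL ∪ X1) (X \ X1) :=
    disjoint_union_left.2 ⟨hKX.mono_right sdiff_subset, disjoint_sdiff⟩
  have dS1 : Disjoint (KS ∪ S1') (S \ S1') :=
    disjoint_union_left.2 ⟨hKSd.mono_right sdiff_subset, disjoint_sdiff⟩
  have dL2 : Disjoint ((KL ∪ X1) ∪ (X \ X1)) (FXs n 2 q) :=
    disjoint_union_left.2 ⟨disjoint_union_left.2 ⟨hKLd.1, hXF.mono_left hX1⟩, hXF.mono_left sdiff_subset⟩
  have dS2 : Disjoint ((KS ∪ S1') ∪ (S \ S1')) (FSs n 2 2 q) :=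
    disjoint_union_left.2 ⟨disjoint_union_left.2 ⟨hKSd'.1, hSF.mono_left hS1⟩, hSF.mono_left sdiff_subset⟩
  have dL3 : Disjoint ((KL ∪ X1) ∪ (X \ X1) ∪ FXs n 2 q) Lc :=
    disjoint_union_left.2 ⟨disjoint_union_left.2 ⟨disjoint_union_left.2 ⟨hKLd.2, hXL.mono_left hX1⟩,
      hXL.mono_left sdiff_subset⟩, h1.Lcd.2⟩
  have dS3 : Disjoint ((KS ∪ S1') ∪ (S \ S1') ∪ FSs n 2 2 q) Sc :=
    disjoint_union_left.2 ⟨disjoint_union_left.2 ⟨disjoint_union_left.2 ⟨hKSd'.2, hSL.mono_left hS1⟩,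
      hSL.mono_left sdiff_subset⟩, h1.Scd.2⟩
  -- the end
  obtain ⟨F', hF', hF'0⟩ := core (K := N) (e := 2) (Jc := Jc) (a := a) (b := b) (c := c) (L1 := L1) (L2 := L2)
    (Or.inr rfl) (le_refl 2) hn2 hn hq hT hdv hcv (U := T \ T') sdiff_subset
    (CN ∪ Rs ∪ (T \ T').biUnion P) Λ2 rfl (by rw [hTU]) h1.Fls h1.COs h1.Fln h1.Flc h1.Fds h1.Fdn h1.FdCO
    F3 hLS3.inj hLS3.lab hLS3.sinj hLS3.sm
    (by
      intro v hv hvd
      by_cases h : ∃ z ∈ V, v = x z (N - 1)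
      · obtain ⟨z, hz, rfl⟩ := h
        rw [(f1 z hz).1, (f1 z hz).2, neg_neg]
      · push Not at h
        rw [(k1 v hv h).1, (k1 v hv h).2, k2 v hv hvd])
    (fun w => -(2 * (c : ℤ)) * τ w)
    (by
      intro w _
      rcases hτ w with h | h
      · simp only [h, mul_one, abs_neg]
        rw [abs_of_nonneg (by positivity)]
      · simp only [h, mul_neg, mul_one, neg_neg]
        rw [abs_of_nonneg (by positivity)])
    (by
      intro v hv w hw hvw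
      have hcn : (40 * c : ℤ) ≤ n := by exact_mod_cast hc
      rcases mem_union.1 hv with h | h
      · have h2 : |F3 v| = |F v| := by rw [k5 v hv, p1 _ (hA1 _ h)]
        have h3 := h1.bd v h
        rw [← h2] at h3
        have h4 : |(-(2 * (c : ℤ)) * τ w)| ≤ 2 * c := by
          rcases hτ w with h | h
          · rw [h, mul_one, abs_neg, abs_of_nonneg (by positivity)]
          · rw [h, mul_neg, mul_one, neg_neg, abs_of_nonneg (by positivity)]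
        have h5 := abs_add_le (F3 v) (-(2 * (c : ℤ)) * τ w)
        linarith
      · obtain ⟨t, ht, hvt⟩ := mem_biUnion.1 h
        have h2 : F3 v = F2 v := k4 v hv (fun h3 => disjoint_left.1 d4b.1 h3 (hPΛ h))
        have h3 := (p2 t ht v hvt).1
        have h4 : 0 ≤ τ w * (σ t * g v) := hs2 w (by rw [← hCN]; exact hw) t ht v hvt hvw
        rw [← h3, ← h2] at h4
        have h5 := (mem_Lab.1 (hLS3.lab v (mem_union_left _ (mem_union_right _ hv)))).1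
        rw [abs_le]
        rcases hτ w with h | h
        · rw [h] at h4 ⊢
          constructor <;> linarith
        · rw [h] at h4 ⊢
          constructor <;> linarith)
    (KL ∪ X1) (KS ∪ S1') (X \ X1) (S \ S1') Lc Sc hLS3.cls hLS3.cL hLS3.scls hLS3.cS
    eLC dL1 dL2 dL3 eSC dS1 dS2 dS3 ha1 hb1 h1.abs
    (by
      intro L S hA
      obtain ⟨g', m1, m2, m3, m4⟩ := h1.ext L S hA
      refine ⟨fun v => if v ∈ Fl then g' v else F3 v, ?_, ?_, ?_, ?_⟩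
      · intro v hv
        simp only [hv, if_false]
      · intro v hv
        simp only [hv, if_true]
        exact m2 v hv
      · rw [← m3]
        refine Multiset.map_congr rfl fun v hv => ?_
        have hv' : v ∈ Fl := hv
        simp only [hv', if_true]
      · rw [← m4]
        have key : ∀ v ∈ Fl ∪ CO, (if v ∈ Fl then g' v else F3 v) = g' v := by
          intro v hv
          by_cases hvF : v ∈ Fl
          · rw [if_pos hvF]
          · rw [if_neg hvF, m1 v hvF]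
            exact (hCOΛ v ((mem_union.1 hv).resolve_left hvF)).2
        refine Multiset.map_congr rfl fun i hi => ?_
        have hi' : i ∈ EdT p Fl CO := hi
        unfold EdT EdI at hi'
        rw [mem_filter, mem_filter] at hi'
        simp only
        rw [key _ hi'.1.1, key _ hi'.1.2.2])
    iL iS hiL hiS hiLJ hiSJ hdis ρ
    (by
      intro v hv _
      rw [k3 v hv])
    r3 r4 r5 (by omega) (by
      refine le_trans (Nat.mul_le_mul_left _ (Nat.mul_le_mul_left _ ?_)) hcap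
      omega)
  exact ⟨F', hF', hF'0.trans hF30⟩

end Pool.Agent.BD
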