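import Pool.Agent.Helper73.BD.L0

/-!
# BD-SPb: special vertices for few leaves (`special2`)

`u1, u2` are leaves different from `0`. An index `B1 ∈ [1, n)` is bad if `p B1 = 0`, `B1 ∈ {u1, u2}`, or if
`B1` or `p B1` has at least three neighbours. With `L` leaves, `∑ deg = 2 (n - 1)` gives
`∑_{deg ≥ 3} deg ≤ 3 L`, so there are at most `9 L + 4` bad indices.
-/

set_option autoImplicit false

namespace Pool.Agent.BD

open Finset Pool.Agent.SEM

/-- the children -/
private def ch4 (n : ℕ) (p : ℕ → ℕ) (v : ℕ) : Finset ℕ := (range n).filter fun w => 0 < w ∧ p w = v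

private theorem mem_ch4 {n : ℕ} {p : ℕ → ℕ} {v w : ℕ} : w ∈ ch4 n p v ↔ w < n ∧ 0 < w ∧ p w = v := by
  unfold ch4
  rw [mem_filter, mem_range]

private theorem mem_nbs4 {n : ℕ} {p : ℕ → ℕ} {v w : ℕ} :
    w ∈ nbs n p v ↔ w < n ∧ ((0 < v ∧ p v = w) ∨ (0 < w ∧ p w = v)) := by
  unfold nbs
  rw [mem_filter, mem_range]
  exact Iff.rfl

private theorem card_nbs4 {n : ℕ} {p : ℕ → ℕ} (hp : Par n p) {v : ℕ} (hv : v < n) :
    (nbs n p v).card = (ch4 n p v).card + if 0 < v then 1 else 0 := by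
  by_cases h0 : 0 < v
  · rw [if_pos h0]
    have h1 : nbs n p v = insert (p v) (ch4 n p v) := by
      ext w
      rw [mem_nbs4, mem_insert, mem_ch4]
      constructor
      · rintro ⟨h1, h2 | h2⟩
        · exact Or.inl h2.2.symm
        · exact Or.inr ⟨h1, h2⟩
      · rintro (h1 | h1)
        · have := hp v h0 hv
          exact ⟨by omega, Or.inl ⟨h0, h1.symm⟩⟩
        · exact ⟨h1.1, Or.inr h1.2⟩
    rw [h1, card_insert_of_notMem]
    rw [mem_ch4]
    rintro ⟨h2, h3, h4⟩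
    have h5 := hp v h0 hv
    have h6 := hp (p v) h3 h2
    omega
  · rw [if_neg h0, add_zero]
    congr 1
    ext w
    rw [mem_nbs4, mem_ch4]
    constructor
    · rintro ⟨h1, h2 | h2⟩
      · exact absurd h2.1 h0
      · exact ⟨h1, h2⟩
    · rintro ⟨h1, h2⟩
      exact ⟨h1, Or.inr h2⟩

private theorem sum_ch4 {n : ℕ} {p : ℕ → ℕ} (S : Finset ℕ) :
    ((Ico 1 n).filter fun i => p i ∈ S).card = ∑ v ∈ S, (ch4 n p v).card := by
  have hmap : ∀ i ∈ (Ico 1 n).filter (fun i => p i ∈ S), p i ∈ S := fun i hi => (mem_filter.1 hi).2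
  rw [card_eq_sum_card_fiberwise hmap]
  refine sum_congr rfl fun v hv => ?_
  congr 1
  ext w
  rw [mem_filter, mem_filter, mem_Ico, mem_ch4]
  constructor
  · rintro ⟨⟨⟨h1, h2⟩, _⟩, h4⟩
    exact ⟨h2, h1, h4⟩
  · rintro ⟨h1, h2, h3⟩
    exact ⟨⟨⟨h2, h1⟩, by rw [h3]; exact hv⟩, h3⟩

theorem special2 : ∃ (n0 : ℕ) (ε0 : ℝ), 0 < ε0 ∧ ∀ (n : ℕ) (p : ℕ → ℕ), n0 ≤ n → Par n p →
    (((range n).filter fun v => (nbs n p v).card = 1).card : ℝ) ≤ ε0 * n →
    2 ≤ (((range n).erase 0).filter fun v => (nbs n p v).card = 1).card →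
    ∃ (B1 u1 u2 : ℕ), B1 < n ∧ u1 < n ∧ u2 < n ∧ 0 < B1 ∧ p B1 ≠ 0 ∧ u1 ≠ u2 ∧ ¬ Ad p u1 u2 ∧
      (∀ v ∈ ({0, B1, p B1} : Finset ℕ), v ≠ u1 ∧ v ≠ u2) ∧ (nbs n p B1).card ≤ 2 ∧ (nbs n p (p B1)).card ≤ 2 ∧
      (nbs n p u1).card = 1 ∧ (nbs n p u2).card = 1 := by
  refine ⟨20, 1 / 20, by norm_num, ?_⟩
  intro n p hn hp hL h2
  -- the two leaves
  obtain ⟨u1, hu1, u2, hu2, hne⟩ := one_lt_card.1 (show 1 < _ from h2)
  rw [mem_filter, mem_erase, mem_range] at hu1 hu2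
  -- a leaf different from `0` has no child
  have hleaf : ∀ u, u ≠ 0 → u < n → (nbs n p u).card = 1 → ∀ w, w < n → 0 < w → p w ≠ u := by
    intro u h0 hun hc w hw hw0 hpw
    rw [card_nbs4 hp hun, if_pos (Nat.pos_of_ne_zero h0)] at hc
    have h3 : w ∈ ch4 n p u := mem_ch4.2 ⟨hw, hw0, hpw⟩
    have h4 := card_pos.2 ⟨w, h3⟩
    omega
  set L := ((range n).filter fun v => (nbs n p v).card = 1).card with hLdef
  have hL' : 20 * L ≤ n := by
    have : (20 * L : ℝ) ≤ n := by linarith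
    exact_mod_cast this
  -- the degree sum
  have hsum : ∑ v ∈ range n, (nbs n p v).card = 2 * (n - 1) := by
    have h3 : ∀ v ∈ range n, (nbs n p v).card = (ch4 n p v).card + if 0 < v then 1 else 0 :=
      fun v hv => card_nbs4 hp (mem_range.1 hv)
    rw [sum_congr rfl h3, sum_add_distrib, ← sum_ch4 (range n)]
    have h4 : (Ico 1 n).filter (fun i => p i ∈ range n) = Ico 1 n := by
      rw [filter_eq_self]
      intro i hi
      rw [mem_Ico] at hi
      have := hp i hi.1 hi.2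
      exact mem_range.2 (by omega)
    have h5 : ∑ v ∈ range n, (if 0 < v then 1 else 0) = n - 1 := by
      rw [← card_filter]
      have : (range n).filter (fun v => 0 < v) = Ico 1 n := by
        ext i
        rw [mem_filter, mem_range, mem_Ico]
        omega
      rw [this, Nat.card_Ico]
    rw [h4, h5, Nat.card_Ico]
    omega
  have hpos : ∀ v ∈ range n, 1 ≤ (nbs n p v).card := by
    intro v hv
    rw [mem_range] at hv
    rcases Nat.eq_zero_or_pos v with h3 | h3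
    · subst h3
      have h4 : (1 : ℕ) ∈ nbs n p 0 := by
        rw [mem_nbs4]
        have := hp 1 one_pos (by omega)
        exact ⟨by omega, Or.inr ⟨one_pos, by omega⟩⟩
      exact card_pos.2 ⟨1, h4⟩
    · rw [card_nbs4 hp hv, if_pos h3]
      omega
  set G := (range n).filter (fun v => 3 ≤ (nbs n p v).card) with hG
  have hG3 : ∑ v ∈ G, (nbs n p v).card ≤ 3 * L := by
    have h3 : ∑ v ∈ range n, ((if 3 ≤ (nbs n p v).card then (nbs n p v).card else 0) + 6) ≤
        ∑ v ∈ range n, (3 * (nbs n p v).card + 3 * if (nbs n p v).card = 1 then 1 else 0) := by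
      refine sum_le_sum fun v hv => ?_
      have := hpos v hv
      split_ifs <;> omega
    rw [sum_add_distrib, sum_add_distrib, ← mul_sum, ← mul_sum, hsum, ← sum_filter, ← card_filter,
      sum_const, card_range, smul_eq_mul] at h3
    have h4 : ∑ v ∈ G, (nbs n p v).card + n * 6 ≤ 3 * (2 * (n - 1)) + 3 * L := h3
    omega
  have hGs : G ⊆ range n := filter_subset _ _
  -- the bad indices
  have b1 : ((Ico 1 n).filter fun i => p i ∈ ({0} : Finset ℕ)).card ≤ 3 * L + 2 := by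
    rw [sum_ch4 {0}, sum_singleton]
    have h3 := card_nbs4 hp (show 0 < n by omega)
    by_cases h4 : 3 ≤ (nbs n p 0).card
    · have h5 : (nbs n p 0).card ≤ ∑ v ∈ G, (nbs n p v).card :=
        single_le_sum (f := fun v => (nbs n p v).card) (fun _ _ => Nat.zero_le _)
          (mem_filter.2 ⟨mem_range.2 (by omega), h4⟩)
      omega
    · omega
  have b2 : ((Ico 1 n).filter fun i => p i ∈ G).card ≤ 3 * L := by
    rw [sum_ch4 G]
    refine le_trans (sum_le_sum fun v hv => ?_) hG3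
    have := card_nbs4 hp (mem_range.1 (hGs hv))
    omega
  have b3 : G.card ≤ 3 * L := by
    refine le_trans ?_ hG3
    rw [card_eq_sum_ones]
    exact sum_le_sum fun v hv => hpos v (hGs hv)
  set Bad := ((Ico 1 n).filter fun i => p i ∈ ({0} : Finset ℕ)) ∪
    (((Ico 1 n).filter fun i => p i ∈ G) ∪ (G ∪ {u1, u2})) with hBad
  have hBc : Bad.card < (Ico 1 n).card := by
    have h3 : Bad.card ≤ (3 * L + 2) + (3 * L + (3 * L + 2)) := by
      refine (card_union_le _ _).trans (add_le_add b1 ((card_union_le _ _).trans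
        (add_le_add b2 ((card_union_le _ _).trans (add_le_add b3 ?_)))))
      exact card_le_two
    rw [Nat.card_Ico]
    omega
  obtain ⟨B1, hB1, hB1n⟩ : ∃ B1 ∈ Ico 1 n, B1 ∉ Bad := by
    by_contra hcon
    push Not at hcon
    have := card_le_card (show Ico 1 n ⊆ Bad from hcon)
    omega
  rw [mem_Ico] at hB1
  rw [hBad] at hB1n
  simp only [mem_union, mem_filter, mem_Ico, mem_singleton, mem_insert, not_or, not_and] at hB1n
  obtain ⟨c1, c2, c3, c4, c5⟩ := hB1n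
  have hpB := hp B1 hB1.1 hB1.2
  have hd : ∀ v, v < n → v ∉ G → (nbs n p v).card ≤ 2 := by
    intro v hv hvG
    by_contra hcon
    exact hvG (mem_filter.2 ⟨mem_range.2 hv, by omega⟩)
  refine ⟨B1, u1, u2, hB1.2, hu1.1.2, hu2.1.2, hB1.1, c1 hB1, hne, ?_, ?_, hd B1 hB1.2 c3,
    hd (p B1) (by omega) (c2 hB1), hu1.2, hu2.2⟩
  · rintro (⟨h3, h4⟩ | ⟨h3, h4⟩)
    · exact hleaf u2 hu2.1.1 hu2.1.2 hu2.2 u1 hu1.1.2 h3 h4
    · exact hleaf u1 hu1.1.1 hu1.1.2 hu1.2 u2 hu2.1.2 h3 h4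
  · intro v hv
    rw [mem_insert, mem_insert, mem_singleton] at hv
    rcases hv with rfl | rfl | rfl
    · exact ⟨fun h => hu1.1.1 h.symm, fun h => hu2.1.1 h.symm⟩
    · exact ⟨c4, c5⟩
    · exact ⟨hleaf u1 hu1.1.1 hu1.1.2 hu1.2 B1 hB1.2 hB1.1,
        hleaf u2 hu2.1.1 hu2.1.2 hu2.2 B1 hB1.2 hB1.1⟩

end Pool.Agent.BD
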