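import Pool.Agent.Helper73.BD.B0
import Pool.Agent.Helper73.BD.NU
import Pool.Agent.Helper73.BD.SP2
import Pool.Agent.Helper73.BD.M2
import Pool.Agent.Helper73.BD.P3
import Pool.Agent.Helper73.BD.F2

/-!
# BD-B2: choice of the constants, `e = 2`
-/

set_option autoImplicit false

namespace Pool.Agent.BD

open Finset Pool.Agent.SEM

theorem bigB2 : ∃ (ε0 : ℝ) (n0 : ℕ), 0 < ε0 ∧ ∀ (n : ℕ) (p : ℕ → ℕ), n0 ≤ n → Even n → Par n p →
      (((range n).filter fun v => (nbs n p v).card = 1).card : ℝ) ≤ ε0 * n →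
      2 ≤ (((range n).erase 0).filter fun v => (nbs n p v).card = 1).card →
      ∃ f : ℕ → ℤ, IsCL n p f ∧ f 0 = -1 := by
  obtain ⟨ζ, hζ, hζ1, hpk⟩ := pack_state
  obtain ⟨nS, εS, hεS, hsp⟩ := special2
  obtain ⟨C0, hC0⟩ : ∃ C0 : ℕ, C0 = 10 ^ 12 * (20 + 10) ^ 6 := ⟨_, rfl⟩
  -- the constants
  set η : ℝ := min (1 / 10) (min (ζ / 8) (1 / 180000)) with hη
  have hη0 : 0 < η := by
    rw [hη]; exact lt_min (by norm_num) (lt_min (by positivity) (by positivity))
  have hη1 : η ≤ 1 / 10 := min_le_left _ _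
  have c5 : 8 * η ≤ ζ := by
    have : η ≤ ζ / 8 := (min_le_right _ _).trans (min_le_left _ _)
    linarith
  have c6 : 20000 * (((2 : ℕ) : ℝ) + 1) ^ 2 * η ≤ 1 := by
    have : η ≤ 1 / 180000 := (min_le_right _ _).trans (min_le_right _ _)
    push_cast
    linarith
  set jj : ℝ := η / 10 with hjj
  have hjj0 : 0 < jj := by rw [hjj]; positivity
  have hC00 : 0 < C0 := by rw [hC0]; norm_num
  have hC0R : (0 : ℝ) < C0 := by exact_mod_cast hC00
  set μ : ℝ := min (1 / C0) (min (jj / 10 ^ 6) (ζ / 4)) with hμ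
  have hμ0 : 0 < μ := by
    rw [hμ]; exact lt_min (by positivity) (lt_min (by positivity) (by positivity))
  have c1 : (C0 : ℝ) * μ ≤ 1 := by
    have : μ ≤ 1 / C0 := min_le_left _ _
    rw [le_div_iff₀ hC0R] at this
    linarith
  have c2 : 10 ^ 6 * μ ≤ jj := by
    have : μ ≤ jj / 10 ^ 6 := (min_le_right _ _).trans (min_le_left _ _)
    rw [le_div_iff₀ (by norm_num)] at this
    linarith
  have c3 : 4 * μ ≤ ζ := by
    have : μ ≤ ζ / 4 := (min_le_right _ _).trans (min_le_right _ _)
    linarith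
  obtain ⟨Qm, hQm⟩ := exists_nat_ge (4 * (((2 : ℕ) : ℝ) + 2) / μ)
  have c4 : 4 * (((2 : ℕ) : ℝ) + 2) ≤ μ * Qm := by
    rw [div_le_iff₀ hμ0] at hQm
    linarith
  have hQm0 : 0 < Qm := by
    rcases Nat.eq_zero_or_pos Qm with h | h
    · rw [h] at c4
      push_cast at c4
      linarith
    · exact h
  obtain ⟨q, hq, hqQ⟩ := mods_exist 2 Qm
  obtain ⟨W1, hW1⟩ : ∃ W1 : ℕ, W1 = qM 2 2 q * q 3 * (100 * (2 + 1) ^ 2) := ⟨_, rfl⟩
  have hqj : ∀ j, j < 2 + 2 → 1 ≤ q j := fun j hj => by have := hq.big j hj; omega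
  have hqM : 1 ≤ qM 2 2 q := by
    unfold qM
    have : 1 ≤ ∏ j ∈ range (2 + 1), q j := Nat.one_le_iff_ne_zero.2 (prod_ne_zero_iff.2 fun j hj => by
      have := hqj j (by rw [mem_range] at hj; omega)
      omega)
    omega
  have hW11 : 1 ≤ W1 := by
    rw [hW1]
    have h1 := hqj 3 (by omega)
    exact Nat.mul_pos (Nat.mul_pos hqM h1) (by norm_num)
  have hqD := hqj 2 (by omega)
  have hq0 := hqj 0 (by omega)
  have hW1R : (1 : ℝ) ≤ W1 := by exact_mod_cast hW11
  have hqDR : (1 : ℝ) ≤ q 2 := by exact_mod_cast hqD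
  have hq0R : (1 : ℝ) ≤ q 0 := by exact_mod_cast hq0
  have hZ0 : (0 : ℝ) < 1000 * W1 * q 2 * q 0 * (((2 : ℕ) : ℝ) + 1) := by positivity
  set ν : ℝ := min (1 / 10) (1 / (1000 * W1 * q 2 * q 0 * (((2 : ℕ) : ℝ) + 1))) with hν
  have hν0 : 0 < ν := by rw [hν]; exact lt_min (by norm_num) (by positivity)
  have hν1 : ν ≤ 1 / 10 := min_le_left _ _
  have c12 : ν * (1000 * W1 * q 2 * q 0 * (((2 : ℕ) : ℝ) + 1)) ≤ 1 := by
    have : ν ≤ 1 / (1000 * W1 * q 2 * q 0 * (((2 : ℕ) : ℝ) + 1)) := min_le_right _ _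
    rw [le_div_iff₀ hZ0] at this
    exact this
  set jc : ℝ := ν / 10 with hjc
  have hjc0 : 0 < jc := by rw [hjc]; positivity
  set ε' : ℝ := min ν (jc / 2) with hε'
  have hε'0 : 0 < ε' := by rw [hε']; exact lt_min hν0 (by positivity)
  have c10 : ε' ≤ ν := min_le_left _ _
  have c11 : 2 * ε' ≤ jc := by
    have : ε' ≤ jc / 2 := min_le_right _ _
    linarith
  set δ : ℝ := min (μ / 16) ν with hδ
  have hδ0 : 0 < δ := by rw [hδ]; exact lt_min (by positivity) hν0
  have c7 : 16 * δ ≤ μ := by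
    have : δ ≤ μ / 16 := min_le_left _ _
    linarith
  have c8 : δ ≤ ν := min_le_right _ _
  obtain ⟨N, nL, εL, hεL, hN, hlay⟩ := lay2 5 η ν δ hη0 hη1 hν0 hν1 hδ0
  obtain ⟨nP, hpk⟩ := hpk N ε' (by omega) hε'0
  obtain ⟨nμ, hnμ⟩ := exists_nat_ge (400 / μ)
  refine ⟨min εS εL, max (max (max nL nP) (max nS nμ)) (max (1000 * W1 * q 2 * q 0) 4), lt_min hεS hεL, ?_⟩
  intro n p hn hn2 hp hlf hlf2
  have kL : nL ≤ n := by omega
  have kP : nP ≤ n := by omega
  have kS : nS ≤ n := by omega
  have kμ : nμ ≤ n := by omega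
  have kW : 1000 * W1 * q 2 * q 0 ≤ n := by omega
  have k4 : 4 ≤ n := by omega
  have n1 : 400 ≤ μ * n := by
    have h1 : (nμ : ℝ) ≤ n := by exact_mod_cast kμ
    have h2 : 400 / μ ≤ n := hnμ.trans h1
    rw [div_le_iff₀ hμ0] at h2
    linarith
  have hnR : (0 : ℝ) ≤ n := Nat.cast_nonneg _
  obtain ⟨B1, u1, u2, hB1, hu1, hu2, hB0, hpB, hu12, hadj, hsp1, hB2, hpB2, hk1, hk2⟩ :=
    hsp n p kS hp (hlf.trans (mul_le_mul_of_nonneg_right (min_le_left _ _) hnR)) hlf2
  have hpB1 : p B1 < B1 := hp B1 hB0 hB1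
  -- special vertices
  set Z : Finset ℕ := {0, B1, p B1} ∪ {u1, u2} with hZ
  have hZn : Z ⊆ range n := by
    rw [hZ]
    intro v hv
    rw [mem_union, mem_insert, mem_insert, mem_singleton, mem_insert, mem_singleton] at hv
    rw [mem_range]
    rcases hv with (rfl | rfl | rfl) | (rfl | rfl)
    · omega
    · omega
    · omega
    · omega
    · omega
  have hZc : Z.card ≤ 5 := by
    rw [hZ]
    refine (card_union_le _ _).trans ?_
    have h1 : ({0, B1, p B1} : Finset ℕ).card ≤ 3 := card_le_three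
    have h2 : ({u1, u2} : Finset ℕ).card ≤ 2 := card_le_two
    omega
  have hlf' : (((range n).filter fun v => chl n p v = ∅).card : ℝ) ≤ εL * n := by
    have h1 : (((range n).filter fun v => chl n p v = ∅).card : ℝ) ≤ (((range n).filter fun v => (nbs n p v).card = 1).card : ℝ) := by
      have : ((range n).filter fun v => chl n p v = ∅) ⊆ ((range n).filter fun v => (nbs n p v).card = 1) := by
        intro v hv
        rw [mem_filter, mem_range] at hv
        rw [mem_filter, mem_range]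
        refine ⟨hv.1, ?_⟩
        have hv0 : 0 < v := by
          rcases Nat.eq_zero_or_pos v with rfl | h
          · exfalso
            have : (1 : ℕ) ∈ chl n p 0 := by
              unfold chl
              rw [mem_filter, mem_range]
              have := hp 1 (by omega) (by omega)
              exact ⟨by omega, by omega, by omega⟩
            rw [hv.2] at this
            exact notMem_empty _ this
          · exact h
        have : nbs n p v = {p v} := by
          ext w
          unfold nbs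
          rw [mem_filter, mem_range, mem_singleton]
          constructor
          · rintro ⟨h1, h2 | h2⟩
            · exact h2.2.symm
            · exfalso
              have : w ∈ chl n p v := by
                unfold chl
                rw [mem_filter, mem_range]
                exact ⟨h1, h2⟩
              rw [hv.2] at this
              exact notMem_empty _ this
          · rintro rfl
            have := hp v hv0 hv.1
            exact ⟨by omega, Or.inl ⟨hv0, rfl⟩⟩
        rw [this, card_singleton]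
      exact_mod_cast card_le_card this
    exact h1.trans (hlf.trans (mul_le_mul_of_nonneg_right (min_le_right _ _) hnR))
  obtain ⟨ι, E, Q, Zs, ZC, ZR, ZM, x, sa, sv, sw, sb, cv, cw, J, Jc, P, En, hPth, hQ2, hZs, dZ1, dZ2, hQ, hT, hdv, hPM, hSt, hcv,
    hsx, hZE, l1, l2, l3, l4, l5⟩ := hlay n p kL hn2 hp hlf' Z hZn hZc
  set Bd : Finset ℕ := Zs.biUnion fun z => {x z 0, x z (N - 1)} with hBd
  set CN : Finset ℕ := Zs.biUnion fun z => {x z 1, x z (N - 2)} with hCN
  set Cl : Finset ℕ := stp x ZC 2 (N - 3) with hCl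
  set Rs : Finset ℕ := stp x ZR 2 (N - 3) with hRs
  set Mn : Finset ℕ := stp x ZM 2 (N - 3) with hMn
  set T : Finset ℕ := ZM.image fun z => x z 2 with hTd
  have hT' : Twin n 2 p ι E Bd (QQ Bd CN Cl Rs Mn) := by rw [← hQ]; exact hT
  have hcv' : Cvs Jc p (QQ Bd CN Cl Rs Mn) Rs cv cw := by rw [← hQ]; exact hcv
  have hBdc : Bd.card ≤ 2 * Zs.card := by
    rw [hBd]
    refine card_biUnion_le.trans ?_
    refine (sum_le_sum fun z _ => card_le_two).trans ?_
    rw [sum_const, smul_eq_mul, mul_comm]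
  have hCNc : CN.card ≤ 2 * Zs.card := by
    rw [hCN]
    refine card_biUnion_le.trans ?_
    refine (sum_le_sum fun z _ => card_le_two).trans ?_
    rw [sum_const, smul_eq_mul, mul_comm]
  have hl1 : (E.card : ℝ) + Bd.card + CN.card ≤ δ * n := by
    have h1 : (Bd.card : ℝ) ≤ 2 * Zs.card := by exact_mod_cast hBdc
    have h2 : (CN.card : ℝ) ≤ 2 * Zs.card := by exact_mod_cast hCNc
    linarith
  -- sizes
  have hFX := card_FXs (n := n) hq hqQ hQm0
  have hFS := card_FSs (n := n) (e := 2) (Or.inr rfl) (by omega) hq hqQ hQm0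
  have hl3 : jj * n ≤ J := by rw [hjj]; exact l3
  have hl5 : jc * n ≤ Jc := by rw [hjc]; exact l5
  obtain ⟨s1, s2, s3, s4, s5, s6, s7, s8, s9⟩ := nums (D := 2) (by omega) hW11 hqD hq0 hl1 l2 hl3 l4 hl5 hFX.1 hFX.2 hFS.1
    (by
      refine hFS.2.trans ?_
      refine Nat.mul_le_mul_right _ (Nat.mul_le_mul_right _ (by norm_num))) hμ0 c1 c2 c3 c4 c5 c6 hδ0.le c7 c8 le_rfl c10 c11 hν0 c12
    n1 kW
  set M : ℕ := (FXs n 2 q).card + (FSs n 2 2 q).card + E.card + 2 * Bd.card + 100 with hM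
  -- the start
  have h0E : (0 : ℕ) ∈ Z := by rw [hZ]; simp
  have hBE : B1 ∈ Z := by rw [hZ]; simp
  have hpE : p B1 ∈ Z := by rw [hZ]; simp
  set E1 : Finset ℕ := (E.filter fun v => (nbs n p v).card ≠ 1) \ Z with hE1
  set E2 : Finset ℕ := (E.filter fun v => (nbs n p v).card = 1) \ Z with hE2
  have hspZ : ∀ v ∈ ({0, B1, p B1} : Finset ℕ), v ∈ Z := by
    intro v hv
    rw [hZ, mem_union]
    exact Or.inl hv
  have huZ : ∀ v ∈ ({u1, u2} : Finset ℕ), v ∈ Z := by
    intro v hv
    rw [hZ, mem_union]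
    exact Or.inr hv
  have hEeq : E = {0, B1, p B1} ∪ E1 ∪ E2 ∪ ∅ ∪ {u1, u2} := by
    ext v
    constructor
    · intro hv
      by_cases hvZ : v ∈ Z
      · rw [hZ, mem_union] at hvZ
        rcases hvZ with h | h
        · exact mem_union_left _ (mem_union_left _ (mem_union_left _ (mem_union_left _ h)))
        · exact mem_union_right _ h
      · by_cases h1 : (nbs n p v).card = 1
        · refine mem_union_left _ (mem_union_left _ (mem_union_right _ ?_))
          rw [hE2, mem_sdiff, mem_filter]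
          exact ⟨⟨hv, h1⟩, hvZ⟩
        · refine mem_union_left _ (mem_union_left _ (mem_union_left _ (mem_union_right _ ?_)))
          rw [hE1, mem_sdiff, mem_filter]
          exact ⟨⟨hv, h1⟩, hvZ⟩
    · intro hv
      rcases mem_union.1 hv with hv | hv
      · rcases mem_union.1 hv with hv | hv
        · rcases mem_union.1 hv with hv | hv
          · rcases mem_union.1 hv with hv | hv
            · exact hZE (hspZ v hv)
            · rw [hE1, mem_sdiff, mem_filter] at hv
              exact hv.1.1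
          · rw [hE2, mem_sdiff, mem_filter] at hv
            exact hv.1.1
        · exact absurd hv (notMem_empty v)
      · exact hZE (huZ v hv)
  have hd1 : Disjoint ({0, B1, p B1} : Finset ℕ) E1 := by
    rw [disjoint_left]
    intro v hv hv'
    rw [hE1, mem_sdiff] at hv'
    exact hv'.2 (hspZ v hv)
  have hd2 : Disjoint ({0, B1, p B1} ∪ E1) E2 := by
    rw [disjoint_left]
    intro v hv hv'
    rw [hE2, mem_sdiff, mem_filter] at hv'
    rcases mem_union.1 hv with hv | hv
    · exact hv'.2 (hspZ v hv)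
    · rw [hE1, mem_sdiff, mem_filter] at hv
      exact hv.1.2 hv'.1.2
  have hd3 : Disjoint ({0, B1, p B1} ∪ E1 ∪ E2) (∅ : Finset ℕ) := disjoint_empty_right _
  have hd4 : Disjoint ({0, B1, p B1} ∪ E1 ∪ E2 ∪ ∅) {u1, u2} := by
    rw [disjoint_left]
    intro v hv hv'
    have hvu : v = u1 ∨ v = u2 := by
      rw [mem_insert, mem_singleton] at hv'
      exact hv'
    rcases mem_union.1 hv with hv | hv
    · rcases mem_union.1 hv with hv | hv
      · rcases mem_union.1 hv with hv | hv
        · have := hsp1 v hv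
          rcases hvu with h | h
          · exact this.1 h
          · exact this.2 h
        · rw [hE1, mem_sdiff] at hv
          exact hv.2 (huZ v hv')
      · rw [hE2, mem_sdiff] at hv
        exact hv.2 (huZ v hv')
    · exact absurd hv (notMem_empty v)
  have hW2 := weight2 hT (by omega) hQ2
  have hone : ∀ v, v < n → (1 : ℤ) ≤ (nbs n p v).card := fun v hv => by exact_mod_cast nbs_pos hp (by omega) hv
  have hlt0 : (0 : ℕ) < n := by omega
  have hp1n : p B1 < n := by omega
  have h01 : (0 : ℕ) ≠ B1 := by omega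
  have h02 : (0 : ℕ) ≠ p B1 := fun h => hpB h.symm
  have h12 : B1 ≠ p B1 := by omega
  have hsum3 : ∀ F : ℕ → ℤ, ∑ v ∈ ({0, B1, p B1} : Finset ℕ), F v = F 0 + F B1 + F (p B1) := by
    intro F
    rw [sum_insert (by rw [mem_insert, mem_singleton]; push Not; exact ⟨h01, h02⟩),
      sum_insert (by rw [mem_singleton]; exact h12), sum_singleton]
    ring
  obtain ⟨f, hf, hf0, hfB, hfb, hfι, hfbal, hfe, hfo⟩ := start (D' := 20) (e := 2) (UX := FXs n 2 q) (US := FSs n 2 2 q)
    (E1 := E1) (E2 := E2) (Va := ∅) (B1 := B1) (b := 1000 * (20 + 10) ^ 3 * M) (u1 := u1) (u2 := u2) (h := 1) hT hn2 (by omega)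
    (fun _ => 0) (-1) (fun v => ((nbs n p v).card : ℤ) - ((2 : ℕ) : ℤ)) (fun v => rfl) ⟨hZE hBE, hB0, hZE hpE, hpB⟩ hEeq hd1 hd2 hd3 hd4
    hu12 hadj
    (by
      intro v hv
      rw [hE2, mem_sdiff, mem_filter] at hv
      rw [hv.1.2]
      norm_num)
    (by
      intro v hv
      have hv1 : (nbs n p v).card = 1 := by
        rcases mem_union.1 hv with hv | hv
        · rcases mem_union.1 hv with hv | hv
          · rw [hE2, mem_sdiff, mem_filter] at hv
            exact hv.1.2
          · exact absurd hv (notMem_empty v)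
        · rw [mem_insert, mem_singleton] at hv
          rcases hv with rfl | rfl
          · exact hk1
          · exact hk2
      rw [hv1]
      norm_num)
    (by
      rw [sum_union hd1, hsum3]
      push_cast
      have a1 : ∑ v ∈ E1, |((nbs n p v).card : ℤ) - 2| = ∑ v ∈ E1, (((nbs n p v).card : ℤ) - 2) := by
        refine sum_congr rfl fun v hv => ?_
        rw [hE1, mem_sdiff, mem_filter] at hv
        have h1 := nbs_pos hp (by omega) (mem_range.1 (hT.En hv.1.1))
        have h2 := hv.1.2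
        have h3 : (2 : ℤ) ≤ (nbs n p v).card := by
          have : 2 ≤ (nbs n p v).card := by omega
          exact_mod_cast this
        exact abs_of_nonneg (by omega)
      have a2 : ∑ v ∈ E2, (((nbs n p v).card : ℤ) - 2) = -E2.card := by
        have : ∑ v ∈ E2, (((nbs n p v).card : ℤ) - 2) = ∑ v ∈ E2, (-1 : ℤ) := by
          refine sum_congr rfl fun v hv => ?_
          rw [hE2, mem_sdiff, mem_filter] at hv
          rw [hv.1.2]
          norm_num
        rw [this, sum_const, nsmul_eq_mul]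
        ring
      have a3 : ∑ v ∈ ({u1, u2} : Finset ℕ), (((nbs n p v).card : ℤ) - 2) = -2 := by
        rw [sum_pair hu12, hk1, hk2]
        norm_num
      have a4 : ∑ v ∈ E, (((nbs n p v).card : ℤ) - 2) =
          ((nbs n p 0).card - 2) + ((nbs n p B1).card - 2) + ((nbs n p (p B1)).card - 2) +
            ∑ v ∈ E1, (((nbs n p v).card : ℤ) - 2) - E2.card - 2 := by
        rw [hEeq, sum_union hd4, sum_union hd3, sum_union hd2, sum_union hd1, hsum3, a2, a3, sum_empty]
        ring
      rw [hW2] at a4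
      rw [a1]
      have b0 := hone 0 hlt0
      have b1 := hone B1 hB1
      have b2 := hone (p B1) hp1n
      have b3 : ((nbs n p B1).card : ℤ) ≤ 2 := by exact_mod_cast hB2
      have b4 : ((nbs n p (p B1)).card : ℤ) ≤ 2 := by exact_mod_cast hpB2
      have b5 : (0 : ℤ) ≤ E2.card := Int.natCast_nonneg _
      have b6 : |((nbs n p B1).card : ℤ) - 2| ≤ 1 := by rw [abs_le]; constructor <;> omega
      have b7 : |((nbs n p (p B1)).card : ℤ) - 2| ≤ 1 := by rw [abs_le]; constructor <;> omega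
      have b8 : |((nbs n p 0).card : ℤ) - 2| ≤ ((nbs n p 0).card : ℤ) - 2 + 2 := by rw [abs_le]; constructor <;> omega
      omega)
    (by rw [card_empty]; norm_num)
    (fun v hv => absurd hv (notMem_empty v))
    (by
      refine ⟨by norm_num, by norm_num, ?_, ?_⟩
      · rw [hk1]; norm_num
      · rw [hk2]; norm_num)
    (by norm_num)
    (fun v _ _ => by push_cast; exact one_dvd _)
    (by
      rw [sum_empty]
      exact (neg_dvd.2 (one_dvd _)))
    (by
      have h1 : ∑ v ∈ E.erase 0, (((nbs n p v).card : ℤ) - 2) = -2 - (((nbs n p 0).card : ℤ) - 2) := by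
        rw [← add_sum_erase E _ hT.zE] at hW2
        linarith
      push_cast
      rw [h1]
      refine ⟨-1 - (((nbs n p 0).card : ℤ) - 2), ?_⟩
      ring)
    (one_notMem_FXs hq) (by norm_num)
    (by
      refine Nat.mul_le_mul_left _ ?_
      omega)
  -- sizes of the absorber
  obtain ⟨_, _, _, hmW⟩ := counts (Fl := ∅) (CO := ∅) (by omega) hT' hdv (empty_subset _) (empty_subset _)
    (fun v hv => absurd hv (notMem_empty v))
  set mW : ℕ := (EdT p (CN ∪ Rs) (Bd ∪ Cl ∪ Mn)).card with hmWd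
  set a : ℕ := (FXs n 2 q).card - CN.card - Rs.card with ha
  set b : ℕ := (FSs n 2 2 q).card - mW with hb
  have ha1 : a + CN.card + Rs.card = (FXs n 2 q).card := by omega
  have hb1 : b + mW = (FSs n 2 2 q).card := by omega
  have hx0 : ∀ z ∈ Zs, x z 0 ∈ Bd := by
    intro z hz
    rw [hBd, mem_biUnion]
    exact ⟨z, hz, by simp⟩
  have hfodd : ∀ z ∈ ZC, Odd (f (x z 0)) := by
    intro z hz
    have hzs : z ∈ Zs := by rw [hZs]; exact mem_union_left _ (mem_union_left _ hz)
    exact hf.odd _ (mem_union_left _ (mem_union_right _ (hx0 z hzs)))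
  classical
  obtain ⟨r, hr, hrz⟩ : ∃ r : ℕ → ℤ, (∀ v, Odd (r v)) ∧ ∀ z ∈ ZC, r (x z 2) = f (x z 0) := by
    refine ⟨fun v => if h : ∃ z ∈ ZC, v = x z 2 then f (x h.choose 0) else 1, ?_, ?_⟩
    · intro v
      by_cases h : ∃ z ∈ ZC, v = x z 2
      · simp only [dif_pos h]
        exact hfodd _ h.choose_spec.1
      · simp only [dif_neg h]
        exact odd_one
    · intro z hz
      have h : ∃ z' ∈ ZC, x z 2 = x z' 2 := ⟨z, hz, rfl⟩
      simp only [dif_pos h]
      have h1 := h.choose_spec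
      have h2 : z = h.choose := (hPth.inj z (by rw [hZs]; exact mem_union_left _ (mem_union_left _ hz)) _
        (by rw [hZs]; exact mem_union_left _ (mem_union_left _ h1.1)) 2 (by omega) 2 (by omega) h1.2).1
      rw [← h2]
  obtain ⟨Fl, CO, Fd, L1, L2, Lc, Sc, KL, KS, F, hS1, hFf, hFr⟩ := phase1 (D' := 20) (e := 2) (J := J) (a := a) (b := b) (M := M)
    (Or.inr rfl) hn2 (by norm_num) hT' hdv hSt f hf
    ⟨B1, by
      unfold EdI
      rw [mem_filter]
      exact ⟨mem_union_left _ (mem_union_left _ (hZE hBE)), hB0, mem_union_left _ (mem_union_left _ (hZE hpE))⟩, hfB⟩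
    (by
      intro v hv
      have := hfb v hv
      push_cast at this ⊢
      exact this)
    hfι hfbal hfe hfo (by omega) (by omega) (by omega) (by omega) (by omega) (by omega) le_rfl (by rw [← hC0]; exact s1) s2
    (by
      refine le_trans ?_ s3
      norm_num) r hr
  obtain ⟨hXc, hSc, T', hT'', g, g1, g2, g3, g4, g5⟩ := hpk n kP hn2 2 2 a b p ι q E Bd CN Cl Rs Mn T Fl CO Fd P En L1 L2 Lc Sc KL KS F
    hT' hdv hS1 ha1 hb1 s8 _ _ rfl rfl
  obtain ⟨t1, t2⟩ := s9 _ g5
  have hres : ∀ z ∈ ZC, x z 2 ∉ Fl ∧ x z (N - 3) ∉ Fl ∧ F (x z 2) ≡ F (x z 0) [ZMOD 4] := by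
    intro z hz
    have hzs : z ∈ Zs := by rw [hZs]; exact mem_union_left _ (mem_union_left _ hz)
    have hc : ∀ i, 2 ≤ i → i ≤ N - 3 → x z i ∈ Cl := by
      intro i h1 h2
      rw [hCl]
      unfold stp
      rw [mem_biUnion]
      exact ⟨z, hz, mem_image.2 ⟨i, mem_Icc.2 ⟨h1, h2⟩, rfl⟩⟩
    have h1 := hFr (x z 2) (hc 2 le_rfl (by omega)) (by
      intro j hj
      refine ⟨fun h => (hsx j hj sa (by simp) z hz).1 h.symm, fun h => (hsx j hj sv (by simp) z hz).1 h.symm,
        fun h => (hsx j hj sw (by simp) z hz).1 h.symm, fun h => (hsx j hj sb (by simp) z hz).1 h.symm⟩)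
    have h2 := hFr (x z (N - 3)) (hc (N - 3) (by omega) le_rfl) (by
      intro j hj
      refine ⟨fun h => (hsx j hj sa (by simp) z hz).2 h.symm, fun h => (hsx j hj sv (by simp) z hz).2 h.symm,
        fun h => (hsx j hj sw (by simp) z hz).2 h.symm, fun h => (hsx j hj sb (by simp) z hz).2 h.symm⟩)
    refine ⟨h1.1, h2.1, ?_⟩
    have h3 := h1.2
    rw [hrz z hz, ← hFf (x z 0) (mem_union_left _ (mem_union_right _ (hx0 z hzs)))] at h3
    exact h3
  obtain ⟨F', hF', hF0⟩ := finish2 (c := n / 40) hN hn2 (by omega) hq hPth hZs dZ1 dZ2 hBd hCN hCl hRs hMn hTd hQ hT' hdv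
    (fun z hz => (hPM z hz).1) hcv' hS1 hres rfl rfl hXc hSc hT'' g1 g2 g3 g4 (by omega) (by omega)
    t1 (by omega)
    (by
      rw [← mul_assoc, ← hW1]
      exact t2)
  refine ⟨F', hF', ?_⟩
  rw [hF0, hFf 0 (mem_union_left _ (mem_union_left _ hT.zE)), hf0]

end Pool.Agent.BD
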