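import Pool.Agent.Helper73.BD.A0

/-!
# BD-DD: definitions for the demand phase

A label-demand site `(c, c2, d, d')`: the flexible vertex gets `d`, its twin gets `d'`; its neighbours have the labels `c` (twin `-c`) and, if `e = 2`, `c2` (twin `-c2`).
A sum-demand site `(c, c2, x, y)`: the two flexible vertices get `x, y`, their twins get `-y, -x`; the outer neighbours have the labels `c, c2` (twins `-c, -c2`).
-/

set_option autoImplicit false

namespace Pool.Agent.BD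

open Finset Pool.Agent.SEM

/-- the labels of the demand sites and their twins -/
def newL (e : ℕ) (Z1 Z2 : List (ℤ × ℤ × ℤ × ℤ)) : Multiset ℤ :=
  ↑(Z1.flatMap fun z => [z.1, -z.1, z.2.2.1, z.2.2.2]) + (if e = 2 then ↑(Z1.flatMap fun z => [z.2.1, -z.2.1]) else 0) +
    ↑(Z2.flatMap fun z => [z.1, -z.1, z.2.1, -z.2.1, z.2.2.1, -z.2.2.1, z.2.2.2, -z.2.2.2])

/-- the sums at the demand sites and their twins -/
def newS (e : ℕ) (Z1 Z2 : List (ℤ × ℤ × ℤ × ℤ)) : Multiset ℤ :=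
  ↑(Z1.flatMap fun z => [z.1 + z.2.2.1, -z.1 + z.2.2.2]) +
    (if e = 2 then ↑(Z1.flatMap fun z => [z.2.1 + z.2.2.1, -z.2.1 + z.2.2.2]) else 0) +
    ↑(Z2.flatMap fun z => [z.1 + z.2.2.1, z.2.1 + z.2.2.2, -z.1 - z.2.2.2, -z.2.1 - z.2.2.1]) +
    (if e = 2 then ↑(Z2.flatMap fun z => [z.2.2.1 + z.2.2.2, -(z.2.2.1 + z.2.2.2)]) else 0)

/-- used labels `VL` and sums `VS` (integers, bounded by `b`), with classes outside `UX`, `US` -/
structure Usd (b : ℕ) (UX US : Finset ℕ) (VL VS : Finset ℤ) : Prop where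
  lodd : ∀ u ∈ VL, Odd u
  lb : ∀ u ∈ VL, |u| ≤ b
  lU : ∀ u ∈ VL, u.natAbs ∉ UX
  seven : ∀ s ∈ VS, Even s
  sb : ∀ s ∈ VS, |s| ≤ b
  sU : ∀ s ∈ VS, s ≠ 0 → s.natAbs ∉ US
  zero : 0 ∈ VS

end Pool.Agent.BD
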