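import Pool.Agent.Helper73.BD.GX

/-!
# BD-E0: partial labellings of the full tree; one more vertex, one more pair of twin vertices

`pl_step`: choose `u` with `pick` (modulus `m`): avoid `|u| ∈ UX`, `|u| = |f v'|` for `v' ∈ A`, and for every label `l` of a labelled neighbour: `|u + l| ∈ US`, `u + l = 0`,
`|u + l| = |t|` for the sum `t` of an edge in `A`; `|u + l| = |u + l'|` for different `l, l'` (only `2u = -(l+l')`).  Different neighbours have different labels (`inj`).
The edges of `insert v A` are those of `A` and the edges from `v` to its labelled neighbours.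
`pl_twin`: the same with two vertices `v ≠ v'` (not adjacent to each other) labelled `a`, `-a`: in addition avoid `a + l = -a + l'` (at most one `a` for each pair).
-/

set_option autoImplicit false

namespace Pool.Agent.BD

open Finset Pool.Agent.SEM

/-- partial labelling of the vertices `A` of the tree: labels and sums injective, classes outside `UX`, `US` -/
structure PLb (p : ℕ → ℕ) (UX US A : Finset ℕ) (f : ℕ → ℤ) : Prop where
  odd : ∀ v ∈ A, Odd (f v)
  inj : Set.InjOn f A
  ux : ∀ v ∈ A, (f v).natAbs ∉ UX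
  sinj : Set.InjOn (fun i => f i + f (p i)) (EdI p A)
  us : ∀ i ∈ EdI p A, f i + f (p i) ≠ 0 → (f i + f (p i)).natAbs ∉ US

private lemma card_pm_le_h68 (C : Finset ℕ) : (pm C).card ≤ 2 * C.card := by
  unfold pm
  refine (Finset.card_union_le _ _).trans ?_
  have h1 := Finset.card_image_le (s := C) (f := fun x : ℕ => (x : ℤ))
  have h2 := Finset.card_image_le (s := C) (f := fun x : ℕ => -(x : ℤ))
  omega

private lemma edI_insert_h68 {p : ℕ → ℕ} {A : Finset ℕ} {v : ℕ} (hv : v ∉ A)
    (hp : ∀ i ∈ insert v A, 0 < i → p i < i) (f : ℕ → ℤ) (u : ℤ) {i : ℕ} (hi : i ∈ EdI p (insert v A)) :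
    (i ∈ EdI p A ∧ Function.update f v u i + Function.update f v u (p i) = f i + f (p i)) ∨
    ∃ w ∈ A, Ad p v w ∧ Function.update f v u i + Function.update f v u (p i) = u + f w ∧
      ((i = v ∧ w = p v) ∨ (i = w ∧ p i = v)) := by
  unfold EdI at hi
  rw [mem_filter] at hi
  obtain ⟨hi1, hi0, hi2⟩ := hi
  have hlt := hp i hi1 hi0
  have hne : ∀ x ∈ A, x ≠ v := fun x hx h => hv (h ▸ hx)
  rw [mem_insert] at hi1 hi2
  rcases hi1 with rfl | hiA
  · rcases hi2 with h | h
    · omega
    · right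
      refine ⟨p i, h, Or.inl ⟨hi0, rfl⟩, ?_, Or.inl ⟨rfl, rfl⟩⟩
      rw [Function.update_self, Function.update_of_ne (hne _ h)]
  · rcases hi2 with h | h
    · right
      refine ⟨i, hiA, Or.inr ⟨hi0, h⟩, ?_, Or.inr ⟨rfl, h⟩⟩
      rw [h, Function.update_self, Function.update_of_ne (hne _ hiA), add_comm]
    · left
      refine ⟨?_, ?_⟩
      · unfold EdI
        rw [mem_filter]
        exact ⟨hiA, hi0, h⟩
      · rw [Function.update_of_ne (hne _ hiA), Function.update_of_ne (hne _ h)]

/-- the criterion for one more vertex -/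
private lemma ins_h68 {p : ℕ → ℕ} {UX US A : Finset ℕ} {f : ℕ → ℤ} (h : PLb p UX US A f) {v : ℕ} (hv : v ∉ A)
    (hp : ∀ i ∈ insert v A, 0 < i → p i < i) {u : ℤ} (ho : Odd u) (h1 : u.natAbs ∉ UX) (h2 : ∀ w ∈ A, u ≠ f w)
    (h3 : ∀ w ∈ A, Ad p v w → (u + f w).natAbs ∉ US)
    (h4 : ∀ w ∈ A, Ad p v w → ∀ i ∈ EdI p A, u + f w ≠ f i + f (p i)) :
    PLb p UX US (insert v A) (Function.update f v u) := by
  have hne : ∀ x ∈ A, x ≠ v := fun x hx h => hv (h ▸ hx)
  refine ⟨?_, ?_, ?_, ?_, ?_⟩
  · intro x hx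
    rcases mem_insert.1 hx with rfl | hx
    · rw [Function.update_self]; exact ho
    · rw [Function.update_of_ne (hne _ hx)]; exact h.odd x hx
  · intro x hx y hy hxy
    rw [mem_coe, mem_insert] at hx hy
    rcases hx with rfl | hx
    · rcases hy with rfl | hy
      · rfl
      · rw [Function.update_self, Function.update_of_ne (hne _ hy)] at hxy
        exact absurd hxy (h2 y hy)
    · rcases hy with rfl | hy
      · rw [Function.update_self, Function.update_of_ne (hne _ hx)] at hxy
        exact absurd hxy.symm (h2 x hx)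
      · rw [Function.update_of_ne (hne _ hx), Function.update_of_ne (hne _ hy)] at hxy
        exact h.inj (mem_coe.2 hx) (mem_coe.2 hy) hxy
  · intro x hx
    rcases mem_insert.1 hx with rfl | hx
    · rw [Function.update_self]; exact h1
    · rw [Function.update_of_ne (hne _ hx)]; exact h.ux x hx
  · intro i hi j hj hij
    rw [mem_coe] at hi hj
    simp only at hij
    have hi0 : 0 < i ∧ p i < i := by
      unfold EdI at hi
      rw [mem_filter] at hi
      exact ⟨hi.2.1, hp i hi.1 hi.2.1⟩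
    have hj0 : 0 < j ∧ p j < j := by
      unfold EdI at hj
      rw [mem_filter] at hj
      exact ⟨hj.2.1, hp j hj.1 hj.2.1⟩
    rcases edI_insert_h68 hv hp f u hi with ⟨hi1, hi2⟩ | ⟨w, hw, haw, hw2, hw3⟩
    · rcases edI_insert_h68 hv hp f u hj with ⟨hj1, hj2⟩ | ⟨w', hw', haw', hw2', hw3'⟩
      · rw [hi2, hj2] at hij
        exact h.sinj (mem_coe.2 hi1) (mem_coe.2 hj1) hij
      · rw [hi2, hw2'] at hij
        exact absurd hij.symm (h4 w' hw' haw' i hi1)
    · rcases edI_insert_h68 hv hp f u hj with ⟨hj1, hj2⟩ | ⟨w', hw', haw', hw2', hw3'⟩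
      · rw [hj2, hw2] at hij
        exact absurd hij (h4 w hw haw j hj1)
      · rw [hw2, hw2'] at hij
        have hww : w = w' := h.inj (mem_coe.2 hw) (mem_coe.2 hw') (by linarith)
        subst hww
        rcases hw3 with ⟨e1, e2⟩ | ⟨e1, e2⟩
        · rcases hw3' with ⟨e3, e4⟩ | ⟨e3, e4⟩
          · rw [e1, e3]
          · exfalso
            have a1 : p v < v := by rw [← e1]; exact hi0.2
            have a2 : v < j := by rw [← e4]; exact hj0.2
            omega
        · rcases hw3' with ⟨e3, e4⟩ | ⟨e3, e4⟩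
          · exfalso
            have a1 : p v < v := by rw [← e3]; exact hj0.2
            have a2 : v < i := by rw [← e2]; exact hi0.2
            omega
          · rw [e1, e3]
  · intro i hi hne0
    rcases edI_insert_h68 hv hp f u hi with ⟨hi1, hi2⟩ | ⟨w, hw, haw, hw2, hw3⟩
    · rw [hi2] at hne0 ⊢
      exact h.us i hi1 hne0
    · rw [hw2]
      exact h3 w hw haw

/-- the values to be avoided because of the neighbours -/
private def badN_h68 (p : ℕ → ℕ) (US A : Finset ℕ) (f : ℕ → ℤ) (v : ℕ) : Finset ℤ :=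
  (A.filter fun w => Ad p v w).biUnion fun w =>
    ((pm US).image fun t => t - f w) ∪ ({-f w} ∪ (EdI p A).image fun i => f i + f (p i) - f w)

private lemma card_badN_h68 (p : ℕ → ℕ) (US A : Finset ℕ) (f : ℕ → ℤ) (v : ℕ) {D : ℕ}
    (hD : (A.filter fun w => Ad p v w).card ≤ D) :
    (badN_h68 p US A f v).card ≤ D * (2 * US.card + A.card + 1) := by
  unfold badN_h68
  refine (Finset.card_biUnion_le_card_mul _ _ (2 * US.card + A.card + 1) ?_).trans
    (Nat.mul_le_mul_right _ hD)
  intro w _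
  refine (Finset.card_union_le _ _).trans ?_
  have h1 := (Finset.card_image_le (s := pm US) (f := fun t => t - f w)).trans (card_pm_le_h68 US)
  have h2 := Finset.card_union_le ({-f w} : Finset ℤ) ((EdI p A).image fun i => f i + f (p i) - f w)
  have h3 := Finset.card_image_le (s := EdI p A) (f := fun i => f i + f (p i) - f w)
  have h4 : (EdI p A).card ≤ A.card := Finset.card_filter_le _ _
  rw [Finset.card_singleton] at h2
  omega

private lemma badN_spec_h68 {p : ℕ → ℕ} {US A : Finset ℕ} {f : ℕ → ℤ} {v : ℕ} {u : ℤ}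
    (hu : u ∉ badN_h68 p US A f v) {w : ℕ} (hw : w ∈ A) (ha : Ad p v w) :
    (u + f w).natAbs ∉ US ∧ u + f w ≠ 0 ∧ ∀ i ∈ EdI p A, u + f w ≠ f i + f (p i) := by
  unfold badN_h68 at hu
  rw [mem_biUnion, not_exists] at hu
  have h1 : u ∉ ((pm US).image fun t => t - f w) ∪ ({-f w} ∪ (EdI p A).image fun i => f i + f (p i) - f w) := by
    intro h
    exact hu w ⟨mem_filter.2 ⟨hw, ha⟩, h⟩
  rw [mem_union, mem_union, not_or, not_or, mem_singleton, mem_image, mem_image] at h1
  obtain ⟨h2, h3, h4⟩ := h1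
  refine ⟨fun h => h2 ⟨u + f w, mem_pm.2 h, by ring⟩, fun h => h3 (by linarith), fun i hi h => h4 ⟨i, hi, by linarith⟩⟩

theorem pl_step {p : ℕ → ℕ} {UX US A : Finset ℕ} {f : ℕ → ℤ} (h : PLb p UX US A f) {v D m : ℕ} (hv : v ∉ A)
    (hp : ∀ i ∈ insert v A, 0 < i → p i < i) (hD : (A.filter fun w => Ad p v w).card ≤ D) (hm : 0 < m)
    (r a c : ℤ) (hr : ∀ u : ℤ, u ≡ r [ZMOD m] → Odd u)
    (hac : (m : ℤ) * (2 * UX.card + 2 * A.card + D * (2 * US.card + 2 * A.card + 2) + D ^ 2 + 2) ≤ c - a) :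
    ∃ u : ℤ, a ≤ u ∧ u ≤ c ∧ u ≡ r [ZMOD m] ∧ PLb p UX US (insert v A) (Function.update f v u) ∧
      (∀ w ∈ A, Ad p v w → u + f w ≠ 0) ∧ ∀ w ∈ A, u.natAbs ≠ (f w).natAbs := by
  set Bad : Finset ℤ := pm UX ∪ ((A.image f ∪ A.image fun w => -f w) ∪ badN_h68 p US A f v) with hBad
  have hcard : Bad.card ≤ 2 * UX.card + 2 * A.card + D * (2 * US.card + A.card + 1) := by
    have h1 := Finset.card_union_le (pm UX) ((A.image f ∪ A.image fun w => -f w) ∪ badN_h68 p US A f v)
    have h2 := Finset.card_union_le (A.image f ∪ A.image fun w => -f w) (badN_h68 p US A f v)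
    have h3 := Finset.card_union_le (A.image f) (A.image fun w => -f w)
    have h4 := Finset.card_image_le (s := A) (f := f)
    have h5 := Finset.card_image_le (s := A) (f := fun w => -f w)
    have h6 := card_badN_h68 p US A f v hD
    have h7 := card_pm_le_h68 UX
    rw [hBad]
    omega
  have hle : (m : ℤ) * (Bad.card + 1) ≤ c - a := by
    refine le_trans ?_ hac
    refine mul_le_mul_of_nonneg_left ?_ (by positivity)
    have h1 : (Bad.card : ℤ) ≤ 2 * UX.card + 2 * A.card + D * (2 * US.card + A.card + 1) := by exact_mod_cast hcard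
    have h2 : (0 : ℤ) ≤ D := by positivity
    have h3 : (0 : ℤ) ≤ A.card := by positivity
    have h4 : (0 : ℤ) ≤ (D : ℤ) * A.card := mul_nonneg h2 h3
    have h5 : (0 : ℤ) ≤ (D : ℤ) ^ 2 := by positivity
    nlinarith
  obtain ⟨u, hu1, hu2, hu3, hu4⟩ := pick m hm r a c Bad hle
  rw [hBad, mem_union, mem_union, mem_union, not_or, not_or, not_or, mem_pm, mem_image, mem_image] at hu4
  obtain ⟨b1, ⟨b2, b3⟩, b4⟩ := hu4
  have c2 : ∀ w ∈ A, u ≠ f w := fun w hw he => b2 ⟨w, hw, he.symm⟩
  have c3 : ∀ w ∈ A, u ≠ -f w := fun w hw he => b3 ⟨w, hw, he.symm⟩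
  refine ⟨u, hu1, hu2, hu3, ins_h68 h hv hp (hr u hu3) b1 c2 (fun w hw ha => (badN_spec_h68 b4 hw ha).1)
    (fun w hw ha => (badN_spec_h68 b4 hw ha).2.2), fun w hw ha => (badN_spec_h68 b4 hw ha).2.1, ?_⟩
  intro w hw he
  rcases Int.natAbs_eq_natAbs_iff.1 he with h1 | h1
  · exact c2 w hw h1
  · exact c3 w hw h1

/-- the values to be avoided because of the neighbours of the twin vertex -/
private def badT_h68 (p : ℕ → ℕ) (US A : Finset ℕ) (f : ℕ → ℤ) (v : ℕ) : Finset ℤ :=
  (badN_h68 p US A f v).image fun u => -u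

theorem pl_twin {p : ℕ → ℕ} {UX US A : Finset ℕ} {f : ℕ → ℤ} (h : PLb p UX US A f) {v v' D : ℕ} (hv : v ∉ A)
    (hv' : v' ∉ A) (hvv : v ≠ v') (hadj : ¬ Ad p v v')
    (hp : ∀ i ∈ insert v (insert v' A), 0 < i → p i < i) (hD : (A.filter fun w => Ad p v w).card ≤ D)
    (hD' : (A.filter fun w => Ad p v' w).card ≤ D) (a c : ℤ)
    (hac : 2 * (2 * (UX.card : ℤ) + 2 * A.card + 2 * D * (2 * US.card + 2 * A.card + 2) + 4 * D ^ 2 + 2) ≤ c - a) :
    ∃ u : ℤ, a ≤ u ∧ u ≤ c ∧
      PLb p UX US (insert v (insert v' A)) (Function.update (Function.update f v' (-u)) v u) ∧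
      (∀ w ∈ A, Ad p v w → u + f w ≠ 0) ∧ (∀ w ∈ A, Ad p v' w → -u + f w ≠ 0) ∧
      ∀ w ∈ A, u.natAbs ≠ (f w).natAbs := by
  set N : Finset ℕ := A.filter fun w => Ad p v w with hN
  set N' : Finset ℕ := A.filter fun w => Ad p v' w with hN'
  set Z : Finset ℤ := (N ×ˢ N').image fun z => (f z.2 - f z.1) / 2 with hZ
  set Bad : Finset ℤ := pm UX ∪ ((A.image f ∪ A.image fun w => -f w) ∪
    (badN_h68 p US A f v ∪ (badT_h68 p US A f v' ∪ Z))) with hBad
  have hcard : Bad.card ≤ 2 * UX.card + 2 * A.card + 2 * (D * (2 * US.card + A.card + 1)) + D * D := by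
    have h1 := Finset.card_union_le (pm UX) ((A.image f ∪ A.image fun w => -f w) ∪
      (badN_h68 p US A f v ∪ (badT_h68 p US A f v' ∪ Z)))
    have h2 := Finset.card_union_le (A.image f ∪ A.image fun w => -f w)
      (badN_h68 p US A f v ∪ (badT_h68 p US A f v' ∪ Z))
    have h2' := Finset.card_union_le (badN_h68 p US A f v) (badT_h68 p US A f v' ∪ Z)
    have h2'' := Finset.card_union_le (badT_h68 p US A f v') Z
    have h3 := Finset.card_union_le (A.image f) (A.image fun w => -f w)
    have h4 := Finset.card_image_le (s := A) (f := f)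
    have h5 := Finset.card_image_le (s := A) (f := fun w => -f w)
    have h6 := card_badN_h68 p US A f v hD
    have h6' : (badT_h68 p US A f v').card ≤ D * (2 * US.card + A.card + 1) :=
      Finset.card_image_le.trans (card_badN_h68 p US A f v' hD')
    have h7 := card_pm_le_h68 UX
    have h8 : Z.card ≤ D * D := by
      refine Finset.card_image_le.trans ?_
      rw [Finset.card_product]
      exact Nat.mul_le_mul hD hD'
    rw [hBad]
    omega
  have hle : ((2 : ℕ) : ℤ) * (Bad.card + 1) ≤ c - a := by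
    refine le_trans ?_ hac
    push_cast
    refine mul_le_mul_of_nonneg_left ?_ (by norm_num)
    have h1 : (Bad.card : ℤ) ≤ 2 * UX.card + 2 * A.card + 2 * (D * (2 * US.card + A.card + 1)) + D * D := by
      exact_mod_cast hcard
    have h2 : (0 : ℤ) ≤ D := by positivity
    have h3 : (0 : ℤ) ≤ A.card := by positivity
    have h4 : (0 : ℤ) ≤ (D : ℤ) * A.card := mul_nonneg h2 h3
    have h5 : (0 : ℤ) ≤ (D : ℤ) ^ 2 := by positivity
    nlinarith
  obtain ⟨u, hu1, hu2, hu3, hu4⟩ := pick 2 (by norm_num) 1 a c Bad hle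
  rw [hBad, mem_union, mem_union, mem_union, mem_union, mem_union, not_or, not_or, not_or, not_or, not_or,
    mem_pm, mem_image, mem_image] at hu4
  obtain ⟨b1, ⟨b2, b3⟩, b4, b5, b6⟩ := hu4
  have ho : Odd u := by
    rw [Int.odd_iff]
    exact hu3
  have c2 : ∀ w ∈ A, u ≠ f w := fun w hw he => b2 ⟨w, hw, he.symm⟩
  have c3 : ∀ w ∈ A, -u ≠ f w := fun w hw he => b3 ⟨w, hw, by linarith⟩
  have b5' : -u ∉ badN_h68 p US A f v' := by
    intro hmem
    refine b5 ?_
    unfold badT_h68
    rw [mem_image]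
    exact ⟨-u, hmem, neg_neg u⟩
  have hp1 : ∀ i ∈ insert v' A, 0 < i → p i < i := fun i hi => hp i (mem_insert_of_mem hi)
  have P1 : PLb p UX US (insert v' A) (Function.update f v' (-u)) :=
    ins_h68 h hv' hp1 ho.neg (by rw [Int.natAbs_neg]; exact b1) c3
      (fun w hw ha => (badN_spec_h68 b5' hw ha).1) (fun w hw ha => (badN_spec_h68 b5' hw ha).2.2)
  have hv2 : v ∉ insert v' A := by
    rw [mem_insert, not_or]
    exact ⟨hvv, hv⟩
  have hne' : ∀ x ∈ A, x ≠ v' := fun x hx h => hv' (h ▸ hx)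
  -- neighbours of `v` in `insert v' A`
  have hnb : ∀ w ∈ insert v' A, Ad p v w → w ∈ A := by
    intro w hw ha
    rcases mem_insert.1 hw with rfl | hw
    · exact absurd ha hadj
    · exact hw
  refine ⟨u, hu1, hu2, ?_, fun w hw ha => (badN_spec_h68 b4 hw ha).2.1,
    fun w hw ha => (badN_spec_h68 b5' hw ha).2.1, ?_⟩
  · refine ins_h68 P1 hv2 hp ho b1 ?_ ?_ ?_
    · intro w hw
      rcases mem_insert.1 hw with rfl | hw
      · rw [Function.update_self]
        intro he
        obtain ⟨k, hk⟩ := ho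
        omega
      · rw [Function.update_of_ne (hne' _ hw)]
        exact c2 w hw
    · intro w hw ha
      have hwA := hnb w hw ha
      rw [Function.update_of_ne (hne' _ hwA)]
      exact (badN_spec_h68 b4 hwA ha).1
    · intro w hw ha i hi
      have hwA := hnb w hw ha
      rw [Function.update_of_ne (hne' _ hwA)]
      rcases edI_insert_h68 hv' hp1 f (-u) hi with ⟨hi1, hi2⟩ | ⟨w', hw', haw', hw2', hw3'⟩
      · rw [hi2]
        exact (badN_spec_h68 b4 hwA ha).2.2 i hi1
      · rw [hw2']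
        intro he
        refine b6 ?_
        rw [hZ, mem_image]
        refine ⟨(w, w'), ?_, ?_⟩
        · rw [mem_product]
          exact ⟨mem_filter.2 ⟨hwA, ha⟩, mem_filter.2 ⟨hw', haw'⟩⟩
        · show (f w' - f w) / 2 = u
          omega
  · intro w hw he
    rcases Int.natAbs_eq_natAbs_iff.1 he with h1 | h1
    · exact c2 w hw h1
    · exact c3 w hw (by linarith)

end Pool.Agent.BD
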