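import Pool.Agent.Helper73.BD.HX
import Pool.Agent.Helper73.BD.E0
import Pool.Agent.Helper73.BD.DD

/-!
# BD-BS: the first labelling state

Proof in words.  `St = E ∪ Bd ∪ ι(Bd)`, labels `VL`, sums `VS`.  `F` = `f` on `St`, `g` on `DS`, `gb (ι⁻¹)` on `ι(DS)` (`DS ⊆ Q \ Bd`, `ι` is injective on `Q`, `ι(Q)` is disjoint from `E ∪ Q`).
`A = St ∪ DS ∪ ι(DS)`.
`A.val.map F = St.val.map f + DS.val.map g + DS.val.map gb = VL.val + newL = VL'.val` (`VL.val = St.val.map f` as `f` is injective on `St`); this has no duplicates, so `F` is injective on `A` and `VL' = F(A)`.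
Edges inside `A`: `Cl`-vertices are not adjacent to `E` (`Twin.inner`), to `Bd` (`hClN`), to `ι(Q)` (`Twin.cr`); `ι v`, `v ∈ DS`, is not adjacent to `E`, `Q`, nor to `ι w`, `w ∈ Bd` (`tw`).  So
`EdI p A = EdI p St ∪ EdI p DS ∪ EdI p (ι(DS))`, disjoint; by `twin_edges` (for `DS` instead of `Q`) the sums on the last set are `gb i + gb (p i)`, `i ∈ EdI p DS`.
So the multiset of the sums is `VS.val + newS = VS'.val`, no duplicates.
Cardinalities: `VL'` is symmetric and does not contain `0` (odd), so `|VL'| = 2 |classes|`; `VS'` is symmetric and contains `0`, so `|VS'| = 2 |classes of VS' \ 0| + 1`.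
-/

set_option autoImplicit false

namespace Pool.Agent.BD

open Finset Pool.Agent.SEM

private lemma ad_symm65 {p : ℕ → ℕ} {v w : ℕ} (h : Ad p v w) : Ad p w v := h.symm

private lemma mem_EdI65 {p : ℕ → ℕ} {A : Finset ℕ} {i : ℕ} : i ∈ EdI p A ↔ i ∈ A ∧ 0 < i ∧ p i ∈ A := by
  unfold EdI
  rw [mem_filter]

private lemma union_val65 {s t : Finset ℕ} (h : Disjoint s t) : (s ∪ t).val = s.val + t.val := by
  rw [← Finset.disjUnion_eq_union s t h]
  rfl

/-- a symmetric set without zero has twice as many elements as classes -/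
private lemma sym_card65 {S : Finset ℤ} (h : ∀ u ∈ S, -u ∈ S) (h0 : (0 : ℤ) ∉ S) :
    2 * (S.image Int.natAbs).card = S.card := by
  have h1 := Finset.card_eq_sum_card_image Int.natAbs S
  have h2 : ∀ b ∈ S.image Int.natAbs, (S.filter (fun x => Int.natAbs x = b)).card = 2 := by
    intro b hb
    rw [mem_image] at hb
    obtain ⟨u, hu, rfl⟩ := hb
    have hu0 : u ≠ 0 := fun hh => h0 (hh ▸ hu)
    have e : S.filter (fun x => Int.natAbs x = Int.natAbs u) = {u, -u} := by
      ext x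
      rw [mem_filter, mem_insert, mem_singleton]
      constructor
      · rintro ⟨_, hx⟩
        exact Int.natAbs_eq_natAbs_iff.1 hx
      · rintro (rfl | rfl)
        · exact ⟨hu, rfl⟩
        · exact ⟨h u hu, Int.natAbs_neg u⟩
    rw [e, Finset.card_pair]
    intro hh
    omega
  rw [h1, Finset.sum_congr rfl h2, Finset.sum_const, smul_eq_mul, mul_comm]

theorem base_state {n D e b' : ℕ} {p ι : ℕ → ℕ} {E Bd Q DS UX US : Finset ℕ} (hT : Twin n D p ι E Bd Q)
    (hDQ : DS ⊆ Q) (hDB : Disjoint DS Bd) (hDN : ∀ v ∈ DS, ∀ w ∈ Bd, ¬ Ad p v w)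
    {f : ℕ → ℤ} (hf : PLb p UX US (E ∪ Bd ∪ Bd.image ι) f) {VL VS VL' VS' : Finset ℤ}
    (hVL : VL = (E ∪ Bd ∪ Bd.image ι).image f)
    (hVS : VS = (EdI p (E ∪ Bd ∪ Bd.image ι)).image fun i => f i + f (p i))
    {Z1 Z2 : List (ℤ × ℤ × ℤ × ℤ)} (hVL' : VL'.val = VL.val + newL e Z1 Z2) (hVS' : VS'.val = VS.val + newS e Z1 Z2)
    (hU : Usd b' UX US VL' VS') (hb' : b' + 2 ≤ n) (hsL : ∀ u ∈ VL', -u ∈ VL') (hsS : ∀ s ∈ VS', -s ∈ VS')
    {g gb : ℕ → ℤ} (h1 : DS.val.map g + DS.val.map gb = newL e Z1 Z2)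
    (h2 : (EdI p DS).val.map (fun i => g i + g (p i)) + (EdI p DS).val.map (fun i => gb i + gb (p i)) = newS e Z1 Z2) :
    ∃ F : ℕ → ℤ, (∀ v ∈ E ∪ Bd ∪ Bd.image ι, F v = f v) ∧ (∀ v ∈ DS, F v = g v ∧ F (ι v) = gb v) ∧
      (∀ v ∈ E ∪ Bd ∪ Bd.image ι ∪ DS ∪ DS.image ι, F v ∈ VL') ∧
      LS n p (E ∪ Bd ∪ Bd.image ι ∪ DS ∪ DS.image ι) F (VL'.image Int.natAbs) ((VS'.erase 0).image Int.natAbs) := by
  classical
  set St : Finset ℕ := E ∪ Bd ∪ Bd.image ι with hSt
  -- disjointness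
  have hιQ : ∀ v ∈ Q, ι v ∉ Q := fun v hv => (hT.ιn v hv).2.1
  have hιE : ∀ v ∈ Q, ι v ∉ E := fun v hv => (hT.ιn v hv).2.2
  have hDB' : ∀ v ∈ DS, v ∉ Bd := fun v hv => Finset.disjoint_left.1 hDB hv
  have dis1 : ∀ v ∈ DS, v ∉ St := by
    intro v hv
    rw [hSt, mem_union, mem_union]
    rintro ((h | h) | h)
    · exact Finset.disjoint_left.1 hT.EQ h (hDQ hv)
    · exact hDB' v hv h
    · rw [mem_image] at h
      obtain ⟨w, hw, rfl⟩ := h
      exact hιQ w (hT.BdQ hw) (hDQ hv)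
  have dis2 : ∀ v ∈ DS, ι v ∉ St := by
    intro v hv
    rw [hSt, mem_union, mem_union]
    rintro ((h | h) | h)
    · exact hιE v (hDQ hv) h
    · exact hιQ v (hDQ hv) (hT.BdQ h)
    · rw [mem_image] at h
      obtain ⟨w, hw, h⟩ := h
      have := hT.ιinj (mem_coe.2 (hT.BdQ hw)) (mem_coe.2 (hDQ hv)) h
      exact hDB' v hv (this ▸ hw)
  have dis3 : ∀ v ∈ DS, ι v ∉ DS := fun v hv h => hιQ v (hDQ hv) (hDQ h)
  have hιD : Set.InjOn ι DS := hT.ιinj.mono (by exact_mod_cast hDQ)
  have D1 : Disjoint St DS := Finset.disjoint_left.2 fun v hv hv' => dis1 v hv' hv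
  have D3 : Disjoint DS (DS.image ι) := by
    rw [Finset.disjoint_left]
    intro v hv hv'
    rw [mem_image] at hv'
    obtain ⟨w, hw, rfl⟩ := hv'
    exact dis3 w hw hv
  have D2 : Disjoint St (DS.image ι) := by
    rw [Finset.disjoint_left]
    intro v hv hv'
    rw [mem_image] at hv'
    obtain ⟨w, hw, rfl⟩ := hv'
    exact dis2 w hw hv
  have D4 : Disjoint (St ∪ DS) (DS.image ι) := Finset.disjoint_union_left.2 ⟨D2, D3⟩
  -- the labelling
  set F : ℕ → ℤ := fun v => if v ∈ St then f v else if v ∈ DS then g v else gb (Function.invFunOn ι DS v)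
    with hF
  have F1 : ∀ v ∈ St, F v = f v := fun v hv => by simp only [hF]; rw [if_pos hv]
  have F2 : ∀ v ∈ DS, F v = g v := fun v hv => by
    simp only [hF]; rw [if_neg (dis1 v hv), if_pos hv]
  have F3 : ∀ v ∈ DS, F (ι v) = gb v := fun v hv => by
    simp only [hF]
    rw [if_neg (dis2 v hv), if_neg (dis3 v hv)]
    congr 1
    exact hιD.leftInvOn_invFunOn (mem_coe.2 hv)
  set A : Finset ℕ := St ∪ DS ∪ DS.image ι with hA
  -- labels
  have hAmap : A.val.map F = VL'.val := by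
    rw [hA, union_val65 D4, union_val65 D1, Multiset.map_add, Multiset.map_add,
      Finset.image_val_of_injOn hιD, Multiset.map_map]
    have e1 : St.val.map F = VL.val := by
      rw [hVL, Finset.image_val_of_injOn hf.inj]
      exact Multiset.map_congr rfl fun v hv => F1 v hv
    have e2 : DS.val.map F = DS.val.map g := Multiset.map_congr rfl fun v hv => F2 v hv
    have e3 : DS.val.map (F ∘ ι) = DS.val.map gb := Multiset.map_congr rfl fun v hv => F3 v hv
    rw [e1, e2, e3, add_assoc, h1, hVL']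
  have Finj : Set.InjOn F A := by
    intro x hx y hy hxy
    refine Multiset.inj_on_of_nodup_map ?_ x (mem_coe.1 hx) y (mem_coe.1 hy) hxy
    rw [hAmap]
    exact VL'.nodup
  have Fmem : ∀ v ∈ A, F v ∈ VL' := by
    intro v hv
    rw [← Finset.mem_val, ← hAmap]
    exact Multiset.mem_map_of_mem F hv
  have Acard : A.card = VL'.card := by
    have := congrArg Multiset.card hAmap
    rwa [Multiset.card_map] at this
  -- edges
  have hpar : ∀ i ∈ DS ∪ DS.image ι, 0 < i → p i < i := by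
    intro i hi h0
    refine hT.par i h0 ?_
    rw [mem_union] at hi
    rcases hi with hi | hi
    · exact mem_range.1 (hT.Qn (hDQ hi))
    · rw [mem_image] at hi
      obtain ⟨w, hw, rfl⟩ := hi
      exact (hT.ιn w (hDQ hw)).1
  obtain ⟨κ, hκ1, hκ2⟩ := twin_edges (p := p) (Q := DS) (ι := ι) hpar hιD D3
    (fun v hv w hw => hT.tw v (hDQ hv) w (hDQ hw))
  have n1 : ∀ v ∈ DS, ∀ w ∈ St, ¬ Ad p v w := by
    intro v hv w hw had
    rw [hSt, mem_union, mem_union] at hw
    rcases hw with (hw | hw) | hw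
    · exact (hT.inner v (hDQ hv) (hDB' v hv) w hw).1 had
    · exact hDN v hv w hw had
    · rw [mem_image] at hw
      obtain ⟨x, hx, rfl⟩ := hw
      exact hT.cr v (hDQ hv) x (hT.BdQ hx) had
  have n2 : ∀ v ∈ DS, ∀ w ∈ St, ¬ Ad p (ι v) w := by
    intro v hv w hw had
    rw [hSt, mem_union, mem_union] at hw
    rcases hw with (hw | hw) | hw
    · exact (hT.inner v (hDQ hv) (hDB' v hv) w hw).2 had
    · exact hT.cr w (hT.BdQ hw) v (hDQ hv) (ad_symm65 had)
    · rw [mem_image] at hw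
      obtain ⟨x, hx, rfl⟩ := hw
      exact hDN v hv x hx ((hT.tw v (hDQ hv) x (hT.BdQ hx)).2 had)
  have n3 : ∀ v ∈ DS, ∀ w ∈ DS, ¬ Ad p v (ι w) := fun v hv w hw => hT.cr v (hDQ hv) w (hDQ hw)
  have hEd : EdI p A = EdI p St ∪ EdI p DS ∪ EdI p (DS.image ι) := by
    ext i
    rw [mem_union, mem_union, mem_EdI65, mem_EdI65, mem_EdI65, mem_EdI65]
    constructor
    · rintro ⟨hi, h0, hpi⟩
      have had : Ad p i (p i) := Or.inl ⟨h0, rfl⟩
      rw [hA, mem_union, mem_union] at hi hpi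
      rcases hi with (hi | hi) | hi
      · rcases hpi with (hpi | hpi) | hpi
        · exact Or.inl (Or.inl ⟨hi, h0, hpi⟩)
        · exact absurd (ad_symm65 had) (n1 _ hpi _ hi)
        · rw [mem_image] at hpi
          obtain ⟨x, hx, hxe⟩ := hpi
          rw [← hxe] at had
          exact absurd (ad_symm65 had) (n2 _ hx _ hi)
      · rcases hpi with (hpi | hpi) | hpi
        · exact absurd had (n1 _ hi _ hpi)
        · exact Or.inl (Or.inr ⟨hi, h0, hpi⟩)
        · rw [mem_image] at hpi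
          obtain ⟨x, hx, hxe⟩ := hpi
          rw [← hxe] at had
          exact absurd had (n3 _ hi _ hx)
      · rcases hpi with (hpi | hpi) | hpi
        · rw [mem_image] at hi
          obtain ⟨x, hx, rfl⟩ := hi
          exact absurd had (n2 _ hx _ hpi)
        · rw [mem_image] at hi
          obtain ⟨x, hx, rfl⟩ := hi
          exact absurd (ad_symm65 had) (n3 _ hpi _ hx)
        · exact Or.inr ⟨hi, h0, hpi⟩
    · rintro ((⟨hi, h0, hpi⟩ | ⟨hi, h0, hpi⟩) | ⟨hi, h0, hpi⟩)
      · exact ⟨mem_union_left _ (mem_union_left _ hi), h0, mem_union_left _ (mem_union_left _ hpi)⟩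
      · exact ⟨mem_union_left _ (mem_union_right _ hi), h0, mem_union_left _ (mem_union_right _ hpi)⟩
      · exact ⟨mem_union_right _ hi, h0, mem_union_right _ hpi⟩
  have sub : ∀ S : Finset ℕ, EdI p S ⊆ S := fun S => Finset.filter_subset _ _
  have E1 : Disjoint (EdI p St) (EdI p DS) := D1.mono (sub _) (sub _)
  have E2 : Disjoint (EdI p St ∪ EdI p DS) (EdI p (DS.image ι)) :=
    D4.mono (Finset.union_subset_union (sub _) (sub _)) (sub _)
  have hκ3 : EdI p (DS.image ι) = (EdI p DS).image κ := by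
    apply Finset.coe_injective
    rw [Finset.coe_image]
    exact hκ1.image_eq.symm
  have hSmap : (EdI p A).val.map (fun i => F i + F (p i)) = VS'.val := by
    rw [hEd, union_val65 E2, union_val65 E1, Multiset.map_add, Multiset.map_add, hκ3,
      Finset.image_val_of_injOn hκ1.injOn, Multiset.map_map]
    have e1 : (EdI p St).val.map (fun i => F i + F (p i)) = VS.val := by
      rw [hVS, Finset.image_val_of_injOn hf.sinj]
      refine Multiset.map_congr rfl fun i hi => ?_
      have hi' := mem_EdI65.1 (show i ∈ EdI p _ from hi)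
      rw [F1 i hi'.1, F1 _ hi'.2.2]
    have e2 : (EdI p DS).val.map (fun i => F i + F (p i)) =
        (EdI p DS).val.map (fun i => g i + g (p i)) := by
      refine Multiset.map_congr rfl fun i hi => ?_
      have hi' := mem_EdI65.1 (show i ∈ EdI p _ from hi)
      rw [F2 i hi'.1, F2 _ hi'.2.2]
    have e3 : (EdI p DS).val.map ((fun i => F i + F (p i)) ∘ κ) =
        (EdI p DS).val.map (fun i => gb i + gb (p i)) := by
      refine Multiset.map_congr rfl fun i hi => ?_
      have hi' := mem_EdI65.1 (show i ∈ EdI p _ from hi)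
      show F (κ i) + F (p (κ i)) = _
      rcases hκ2 i hi with ⟨k1, k2⟩ | ⟨k1, k2⟩
      · rw [k2, k1, F3 i hi'.1, F3 _ hi'.2.2]
      · rw [k2, k1, F3 i hi'.1, F3 _ hi'.2.2, add_comm]
    rw [e1, e2, e3, add_assoc, h2, hVS']
  have Sinj : Set.InjOn (fun i => F i + F (p i)) (EdI p A) := by
    intro x hx y hy hxy
    refine Multiset.inj_on_of_nodup_map (f := fun i => F i + F (p i)) ?_ x (mem_coe.1 hx) y
      (mem_coe.1 hy) hxy
    rw [hSmap]
    exact VS'.nodup
  have Smem : ∀ i ∈ EdI p A, F i + F (p i) ∈ VS' := by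
    intro i hi
    rw [← Finset.mem_val, ← hSmap]
    exact Multiset.mem_map_of_mem (fun i => F i + F (p i)) hi
  have Scard : (EdI p A).card = VS'.card := by
    have := congrArg Multiset.card hSmap
    rwa [Multiset.card_map] at this
  have hbn : (b' : ℤ) + 2 ≤ n := by exact_mod_cast hb'
  refine ⟨F, F1, fun v hv => ⟨F2 v hv, F3 v hv⟩, Fmem, ?_⟩
  refine ⟨Finj, ?_, ?_, ?_, ?_, Sinj, ?_, ?_, ?_, ?_⟩
  · intro v hv
    have h3 := hU.lb _ (Fmem v hv)
    rw [mem_Lab]
    have := abs_le.1 h3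
    exact ⟨⟨by linarith [this.1], by linarith [this.2]⟩, hU.lodd _ (Fmem v hv)⟩
  · intro v hv
    exact mem_image_of_mem _ (Fmem v hv)
  · rw [Acard]
    refine sym_card65 hsL ?_
    intro h0
    have := hU.lodd 0 h0
    exact absurd this (by decide)
  · intro x hx
    rw [mem_image] at hx
    obtain ⟨u, hu, rfl⟩ := hx
    have h3 := hU.lb _ hu
    have h4 := hU.lodd _ hu
    rw [mem_LC]
    refine ⟨⟨?_, ?_⟩, Int.natAbs_odd.2 h4⟩
    · rcases Nat.eq_zero_or_pos u.natAbs with h5 | h5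
      · rw [Int.natAbs_eq_zero] at h5
        rw [h5] at h4
        exact absurd h4 (by decide)
      · exact h5
    · have : ((u.natAbs : ℕ) : ℤ) ≤ b' := by rw [Int.natCast_natAbs]; exact h3
      omega
  · intro i hi
    have h3 := hU.sb _ (Smem i hi)
    rw [mem_Sm]
    have := abs_le.1 h3
    exact ⟨⟨by linarith [this.1], by linarith [this.2]⟩, hU.seven _ (Smem i hi)⟩
  · intro i hi hne
    exact mem_image_of_mem _ (mem_erase.2 ⟨hne, Smem i hi⟩)
  · have h3 : 2 * ((VS'.erase 0).image Int.natAbs).card = (VS'.erase 0).card := by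
      refine sym_card65 ?_ (Finset.notMem_erase 0 VS')
      intro u hu
      rw [mem_erase] at hu ⊢
      exact ⟨neg_ne_zero.2 hu.1, hsS u hu.2⟩
    rw [h3, Scard, Finset.card_erase_add_one hU.zero]
  · intro x hx
    rw [mem_image] at hx
    obtain ⟨u, hu, rfl⟩ := hx
    rw [mem_erase] at hu
    have h3 := hU.sb _ hu.2
    have h4 := hU.seven _ hu.2
    rw [mem_SC]
    refine ⟨⟨Int.natAbs_pos.2 hu.1, ?_⟩, Int.natAbs_even.2 h4⟩
    have : ((u.natAbs : ℕ) : ℤ) ≤ b' := by rw [Int.natCast_natAbs]; exact h3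
    omega

end Pool.Agent.BD
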