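import Pool.Agent.Helper73.BD.E0

/-!
# BD-E3: labelling the boundary vertices; sums over edges; twin edges

`bdlabel`: apply `pl_twin` to the vertices `v ∈ Bd` one after the other (`v`, `ι v` get `u`, `-u`, `u ∈ [1, b]`); `v` and `ι v` are not adjacent.
`sum_edges`: every edge `(i, p i)` inside `A` contributes `f i` and `f (p i)`; `v` occurs as many times as it has neighbours in `A`.
`twin_edges`: `κ i = ι i` if `p (ι i) = ι (p i)` (and `0 < ι i`), otherwise `κ i = ι (p i)` (then `p (ι (p i)) = ι i`), because `ι i`, `ι (p i)` are adjacent.  Injective: an edge is determined by its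
two ends, and `ι` is injective; surjective: an edge inside the image comes from an adjacent pair, i.e. from an edge inside `Q`.
-/

set_option autoImplicit false

namespace Pool.Agent.BD

open Finset Pool.Agent.SEM

private theorem bd_arith85 {D T X A S b : ℕ} (hX : X + A + S ≤ T) (hb : 100 * (D + 1) ^ 2 * (T + 10) ≤ b) :
    2 * (2 * (X : ℤ) + 2 * A + 2 * D * (2 * S + 2 * A + 2) + 4 * D ^ 2 + 2) ≤ (b : ℤ) - (-(b : ℤ)) := by
  have h1 : (100 * ((D : ℤ) + 1) ^ 2 * (T + 10)) ≤ b := by exact_mod_cast hb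
  have h2 : (X : ℤ) + A + S ≤ T := by exact_mod_cast hX
  have hX0 : (0 : ℤ) ≤ X := Int.natCast_nonneg _
  have hA0 : (0 : ℤ) ≤ A := Int.natCast_nonneg _
  have hS0 : (0 : ℤ) ≤ S := Int.natCast_nonneg _
  have hD0 : (0 : ℤ) ≤ D := Int.natCast_nonneg _
  have h3 : (D : ℤ) * (S + A) ≤ D * T := mul_le_mul_of_nonneg_left (by linarith) hD0
  have h4 : (0 : ℤ) ≤ D * T := mul_nonneg hD0 (by linarith)
  have h5 : (0 : ℤ) ≤ (D : ℤ) ^ 2 * T := mul_nonneg (sq_nonneg _) (by linarith)
  have h6 : (0 : ℤ) ≤ (D : ℤ) ^ 2 := sq_nonneg _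
  nlinarith

theorem bdlabel {p : ℕ → ℕ} {UX US E Bd : Finset ℕ} {ι : ℕ → ℕ} {f : ℕ → ℤ} {D b : ℕ} (h : PLb p UX US E f)
    (hp : ∀ i ∈ E ∪ Bd ∪ Bd.image ι, 0 < i → p i < i) (dE : Disjoint E Bd) (hι : Set.InjOn ι Bd)
    (dι : Disjoint (Bd.image ι) (E ∪ Bd)) (hcr : ∀ v ∈ Bd, ∀ w ∈ Bd, ¬ Ad p v (ι w))
    (hdeg : ∀ v ∈ Bd ∪ Bd.image ι, ((E ∪ Bd ∪ Bd.image ι).filter fun w => Ad p v w).card ≤ D)
    (hb : 100 * (D + 1) ^ 2 * (UX.card + US.card + E.card + 2 * Bd.card + 10) ≤ b) :
    ∃ f' : ℕ → ℤ, (∀ v ∈ E, f' v = f v) ∧ (∀ v ∈ Bd, f' (ι v) = -f' v ∧ |f' v| ≤ b) ∧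
      PLb p UX US (E ∪ Bd ∪ Bd.image ι) f' := by
  have key : ∀ B : Finset ℕ, B ⊆ Bd → ∃ f' : ℕ → ℤ, (∀ v ∈ E, f' v = f v) ∧
      (∀ v ∈ B, f' (ι v) = -f' v ∧ |f' v| ≤ b) ∧ PLb p UX US (E ∪ B ∪ B.image ι) f' := by
    intro B
    induction B using Finset.induction_on with
    | empty =>
      intro _
      refine ⟨f, fun _ _ => rfl, fun v hv => absurd hv (Finset.notMem_empty v), ?_⟩
      rw [Finset.image_empty, Finset.union_empty, Finset.union_empty]
      exact h
    | insert v B hvB ih =>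
      intro hB
      have hvBd : v ∈ Bd := hB (Finset.mem_insert_self v B)
      have hBBd : B ⊆ Bd := fun w hw => hB (Finset.mem_insert_of_mem hw)
      obtain ⟨g, hg1, hg2, hg3⟩ := ih hBBd
      have hιv : ι v ∈ Bd.image ι := Finset.mem_image_of_mem _ hvBd
      have hι1 : ∀ w ∈ Bd, ∀ x ∈ E ∪ Bd, x ≠ ι w := by
        intro w hw x hx hxw
        rw [Finset.disjoint_left] at dι
        exact dι (Finset.mem_image_of_mem _ hw) (hxw ▸ hx)
      have hvE : v ∉ E := fun hvE => (Finset.disjoint_left.1 dE) hvE hvBd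
      have hvA : v ∉ E ∪ B ∪ B.image ι := by
        rw [Finset.mem_union, Finset.mem_union]
        rintro ((h1 | h1) | h1)
        · exact hvE h1
        · exact hvB h1
        · rw [Finset.mem_image] at h1
          obtain ⟨w, hw, hwv⟩ := h1
          exact hι1 w (hBBd hw) v (Finset.mem_union_right _ hvBd) hwv.symm
      have hvA' : ι v ∉ E ∪ B ∪ B.image ι := by
        rw [Finset.mem_union, Finset.mem_union]
        rintro ((h1 | h1) | h1)
        · exact hι1 v hvBd _ (Finset.mem_union_left _ h1) rfl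
        · exact hι1 v hvBd _ (Finset.mem_union_right _ (hBBd h1)) rfl
        · rw [Finset.mem_image] at h1
          obtain ⟨w, hw, hwv⟩ := h1
          exact hvB (hι (hBBd hw) hvBd hwv ▸ hw)
      have hvv : v ≠ ι v := hι1 v hvBd v (Finset.mem_union_right _ hvBd)
      have hsub : E ∪ B ∪ B.image ι ⊆ E ∪ Bd ∪ Bd.image ι :=
        Finset.union_subset_union (Finset.union_subset_union_right hBBd)
          (Finset.image_subset_image hBBd)
      have hset : insert v (insert (ι v) (E ∪ B ∪ B.image ι)) =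
          E ∪ insert v B ∪ (insert v B).image ι := by
        ext x
        simp only [Finset.mem_insert, Finset.mem_union, Finset.image_insert]
        tauto
      have hpp : ∀ i ∈ insert v (insert (ι v) (E ∪ B ∪ B.image ι)), 0 < i → p i < i := by
        intro i hi
        apply hp
        rw [Finset.mem_insert, Finset.mem_insert] at hi
        rcases hi with rfl | rfl | hi
        · exact Finset.mem_union_left _ (Finset.mem_union_right _ hvBd)
        · exact Finset.mem_union_right _ hιv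
        · exact hsub hi
      have hD1 : ((E ∪ B ∪ B.image ι).filter fun w => Ad p v w).card ≤ D :=
        (Finset.card_le_card (Finset.filter_subset_filter _ hsub)).trans
          (hdeg v (Finset.mem_union_left _ hvBd))
      have hD2 : ((E ∪ B ∪ B.image ι).filter fun w => Ad p (ι v) w).card ≤ D :=
        (Finset.card_le_card (Finset.filter_subset_filter _ hsub)).trans
          (hdeg (ι v) (Finset.mem_union_right _ hιv))
      have hcard : (E ∪ B ∪ B.image ι).card ≤ E.card + 2 * Bd.card := by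
        have c1 := Finset.card_union_le (E ∪ B) (B.image ι)
        have c2 := Finset.card_union_le E B
        have c3 : (B.image ι).card ≤ B.card := Finset.card_image_le
        have c4 := Finset.card_le_card hBBd
        omega
      obtain ⟨u, hu1, hu2, hu3, _, _, _⟩ := pl_twin hg3 hvA hvA' hvv (hcr v hvBd v hvBd) hpp hD1 hD2
        (-(b : ℤ)) b (bd_arith85 (T := UX.card + US.card + E.card + 2 * Bd.card) (by omega) hb)
      refine ⟨Function.update (Function.update g (ι v) (-u)) v u, ?_, ?_, ?_⟩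
      · intro w hw
        have h1 : w ≠ v := fun h1 => hvE (h1 ▸ hw)
        have h2 : w ≠ ι v := hι1 v hvBd w (Finset.mem_union_left _ hw)
        rw [Function.update_of_ne h1, Function.update_of_ne h2, hg1 w hw]
      · intro w hw
        rw [Finset.mem_insert] at hw
        rcases hw with rfl | hw
        · rw [Function.update_self, Function.update_of_ne hvv.symm, Function.update_self]
          exact ⟨rfl, abs_le.2 ⟨hu1, hu2⟩⟩
        · have h1 : w ≠ v := fun h1 => hvB (h1 ▸ hw)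
          have h2 : w ≠ ι v := hι1 v hvBd w (Finset.mem_union_right _ (hBBd hw))
          have h3 : ι w ≠ v := (hι1 w (hBBd hw) v (Finset.mem_union_right _ hvBd)).symm
          have h4 : ι w ≠ ι v := fun h4 => h1 (hι (hBBd hw) hvBd h4)
          rw [Function.update_of_ne h1, Function.update_of_ne h2, Function.update_of_ne h3,
            Function.update_of_ne h4]
          exact hg2 w hw
      · rw [← hset]
        exact hu3
  exact key Bd (Finset.Subset.refl _)

theorem sum_edges {p : ℕ → ℕ} {A : Finset ℕ} (hp : ∀ i ∈ A, 0 < i → p i < i) (f : ℕ → ℤ) :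
    ∑ i ∈ EdI p A, (f i + f (p i)) = ∑ v ∈ A, ((A.filter fun w => Ad p v w).card : ℤ) * f v := by
  have h1 : ∀ v ∈ A, ((A.filter fun w => Ad p v w).card : ℤ) * f v =
      (∑ w ∈ A, if 0 < v ∧ p v = w then f v else 0) + ∑ w ∈ A, if 0 < w ∧ p w = v then f v else 0 := by
    intro v hv
    rw [Finset.card_filter, Nat.cast_sum, Finset.sum_mul, ← Finset.sum_add_distrib]
    refine Finset.sum_congr rfl fun w hw => ?_
    by_cases c1 : 0 < v ∧ p v = w
    · have c2 : ¬ (0 < w ∧ p w = v) := by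
        rintro ⟨c3, c4⟩
        have c5 := hp v hv c1.1
        have c6 := hp w hw c3
        rw [c1.2] at c5
        rw [c4] at c6
        omega
      have c3 : Ad p v w := Or.inl c1
      rw [if_pos c1, if_neg c2, if_pos c3]
      push_cast
      ring
    · by_cases c2 : 0 < w ∧ p w = v
      · have c3 : Ad p v w := Or.inr c2
        rw [if_neg c1, if_pos c2, if_pos c3]
        push_cast
        ring
      · have c3 : ¬ Ad p v w := by
          rintro (c3 | c3)
          · exact c1 c3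
          · exact c2 c3
        rw [if_neg c1, if_neg c2, if_neg c3]
        push_cast
        ring
  rw [Finset.sum_congr rfl h1, Finset.sum_add_distrib, Finset.sum_add_distrib]
  have h2 : ∑ v ∈ A, ∑ w ∈ A, (if 0 < v ∧ p v = w then f v else 0) = ∑ i ∈ EdI p A, f i := by
    unfold EdI
    rw [Finset.sum_filter]
    refine Finset.sum_congr rfl fun v _ => ?_
    by_cases c1 : 0 < v
    · simp only [c1, true_and]
      rw [Finset.sum_ite_eq]
    · simp only [c1, false_and, if_false, Finset.sum_const_zero]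
  have h3 : ∑ v ∈ A, ∑ w ∈ A, (if 0 < w ∧ p w = v then f v else 0) = ∑ i ∈ EdI p A, f (p i) := by
    unfold EdI
    rw [Finset.sum_comm, Finset.sum_filter]
    refine Finset.sum_congr rfl fun w _ => ?_
    by_cases c1 : 0 < w
    · simp only [c1, true_and]
      rw [Finset.sum_ite_eq]
    · simp only [c1, false_and, if_false, Finset.sum_const_zero]
  rw [h2, h3]

theorem twin_edges {p : ℕ → ℕ} {Q : Finset ℕ} {ι : ℕ → ℕ} (hp : ∀ i ∈ Q ∪ Q.image ι, 0 < i → p i < i)
    (hι : Set.InjOn ι Q) (hd : Disjoint Q (Q.image ι)) (htw : ∀ v ∈ Q, ∀ w ∈ Q, (Ad p v w ↔ Ad p (ι v) (ι w))) :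
    ∃ κ : ℕ → ℕ, Set.BijOn κ (EdI p Q) (EdI p (Q.image ι)) ∧
      ∀ i ∈ EdI p Q, (κ i = ι i ∧ p (κ i) = ι (p i)) ∨ (κ i = ι (p i) ∧ p (κ i) = ι i) := by
  classical
  have hmem : ∀ {A : Finset ℕ} {i : ℕ}, i ∈ EdI p A ↔ i ∈ A ∧ 0 < i ∧ p i ∈ A := by
    intro A i
    unfold EdI
    rw [Finset.mem_filter]
  have hlt : ∀ i ∈ EdI p Q, p i < i := fun i hi =>
    hp i (Finset.mem_union_left _ (hmem.1 hi).1) (hmem.1 hi).2.1
  set κ : ℕ → ℕ := fun i => if p (ι i) = ι (p i) ∧ 0 < ι i then ι i else ι (p i) with hκ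
  have hor : ∀ i ∈ EdI p Q, (κ i = ι i ∧ p (κ i) = ι (p i) ∧ 0 < κ i) ∨
      (κ i = ι (p i) ∧ p (κ i) = ι i ∧ 0 < κ i) := by
    intro i hi
    have hi' := hmem.1 hi
    by_cases c : p (ι i) = ι (p i) ∧ 0 < ι i
    · have e : κ i = ι i := by
        simp only [hκ]
        rw [if_pos c]
      left
      rw [e]
      exact ⟨rfl, c.1, c.2⟩
    · have e : κ i = ι (p i) := by
        simp only [hκ]
        rw [if_neg c]
      right
      rw [e]
      have h1 : Ad p i (p i) := Or.inl ⟨hi'.2.1, rfl⟩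
      rcases (htw i hi'.1 (p i) hi'.2.2).1 h1 with h2 | h2
      · exact absurd ⟨h2.2, h2.1⟩ c
      · exact ⟨rfl, h2.2, h2.1⟩
  refine ⟨κ, ⟨?_, ?_, ?_⟩, ?_⟩
  · intro i hi
    rw [Finset.mem_coe] at hi ⊢
    have hi' := hmem.1 hi
    rw [hmem]
    rcases hor i hi with ⟨h1, h2, h3⟩ | ⟨h1, h2, h3⟩
    · refine ⟨?_, h3, ?_⟩
      · rw [h1]; exact Finset.mem_image_of_mem _ hi'.1
      · rw [h2]; exact Finset.mem_image_of_mem _ hi'.2.2
    · refine ⟨?_, h3, ?_⟩
      · rw [h1]; exact Finset.mem_image_of_mem _ hi'.2.2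
      · rw [h2]; exact Finset.mem_image_of_mem _ hi'.1
  · intro i hi j hj hij
    rw [Finset.mem_coe] at hi hj
    have hi' := hmem.1 hi
    have hj' := hmem.1 hj
    have li := hlt i hi
    have lj := hlt j hj
    rcases hor i hi with ⟨h1, h2, h3⟩ | ⟨h1, h2, h3⟩
    · rcases hor j hj with ⟨k1, k2, k3⟩ | ⟨k1, k2, k3⟩
      · exact hι hi'.1 hj'.1 (by rw [← h1, ← k1, hij])
      · have e1 : i = p j := hι hi'.1 hj'.2.2 (by rw [← h1, ← k1, hij])
        have e2 : p i = j := hι hi'.2.2 hj'.1 (by rw [← h2, ← k2, hij])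
        omega
    · rcases hor j hj with ⟨k1, k2, k3⟩ | ⟨k1, k2, k3⟩
      · have e1 : p i = j := hι hi'.2.2 hj'.1 (by rw [← h1, ← k1, hij])
        have e2 : i = p j := hι hi'.1 hj'.2.2 (by rw [← h2, ← k2, hij])
        omega
      · exact hι hi'.1 hj'.1 (by rw [← h2, ← k2, hij])
  · intro e he
    rw [Finset.mem_coe] at he
    obtain ⟨he1, he2, he3⟩ := hmem.1 he
    have hle := hp e (Finset.mem_union_right _ he1) he2
    rw [Finset.mem_image] at he1 he3
    obtain ⟨v, hv, hve⟩ := he1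
    obtain ⟨w, hw, hwe⟩ := he3
    have had : Ad p (ι v) (ι w) := Or.inl ⟨by rw [hve]; exact he2, by rw [hve, hwe]⟩
    rcases (htw v hv w hw).2 had with ⟨a1, a2⟩ | ⟨a1, a2⟩
    · refine ⟨v, ?_, ?_⟩
      · rw [Finset.mem_coe, hmem]
        exact ⟨hv, a1, by rw [a2]; exact hw⟩
      · simp only [hκ]
        rw [if_pos, hve]
        rw [hve, a2, hwe]
        exact ⟨rfl, he2⟩
    · refine ⟨w, ?_, ?_⟩
      · rw [Finset.mem_coe, hmem]
        exact ⟨hw, a1, by rw [a2]; exact hv⟩
      · simp only [hκ]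
        rw [if_neg, a2, hve]
        rintro ⟨c1, c2⟩
        rw [a2, hve] at c1
        have := hp (ι w) (Finset.mem_union_right _ (Finset.mem_image_of_mem _ hw)) c2
        rw [c1] at this
        rw [← hwe] at hle
        omega
  · intro i hi
    rcases hor i hi with ⟨h1, h2, _⟩ | ⟨h1, h2, _⟩
    · exact Or.inl ⟨h1, h2⟩
    · exact Or.inr ⟨h1, h2⟩

end Pool.Agent.BD
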