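import Pool.Agent.Helper73.BD.L0
import Pool.Agent.Helper73.SEM.T1

/-!
# BD-R1: from centred labellings of the parent function to super edge-magic labellings of graphs; adding leaves at `A`

`to_par`: `SEM.tree_parent G hG A` gives the numbering `e` and `p`; `nbs n p (e v)` is the image of the neighbours of `v`.  If `f` is a centred labelling with `f 0 = -1`, `F v = (f (e v) + n + 1)/2`
(`n` even, `f` odd) is injective with values in `[1,n]`, `F A = n/2`, the sums are `(t + 2(n+1))/2`, `|t| ≤ n - 2` even, so between `n/2 + 2` and `n/2 + n`; `w0 = n/2 + 2`; every edge is `(e⁻¹ i, e⁻¹ (p i))` for a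
unique `i`, so the sums are injective.
`semA_graph`: `k = w0 + n - 2 + (n + 1)`, `g {u,v} = k - (f u + f v)`.
`semA_leaves`: induction on `|Λ|`, or directly: number the elements of `Λ` by `n'+1, .., n` (`n' = n - |Λ|`); the edge to the leaf with label `n' + i` has the sum `n' + i + w0 - 2`, `1 ≤ i ≤ |Λ|`; the other sums are between
`w0` and `w0 + n' - 2`.
`induce_leaves`: removing leaves (not `A`, all adjacent to `A`) leaves a tree: acyclic (`IsAcyclic.induce` or comap along an embedding), connected: a path in `G` between two remaining vertices does not use a leaf.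
-/

set_option autoImplicit false

namespace Pool.Agent.BD

open Finset Pool.Agent.SEM

/-- centred labelling -/
def IsCL (n : ℕ) (p : ℕ → ℕ) (f : ℕ → ℤ) : Prop :=
  (∀ i, i < n → f i ∈ Lab n) ∧ Set.InjOn f (range n) ∧ (∀ i, 0 < i → i < n → f i + f (p i) ∈ Sm n) ∧
    Set.InjOn (fun i => f i + f (p i)) (Ico 1 n)

/-- labelling with consecutive sums `w0, w0 + 1, ..`, and `f A = w0 - 2` -/
def SemA {V : Type} [Fintype V] (G : SimpleGraph V) (A : V) : Prop :=
  ∃ (f : V → ℕ) (w0 : ℕ), Function.Injective f ∧ (∀ v, 1 ≤ f v ∧ f v ≤ Fintype.card V) ∧ f A + 2 = w0 ∧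
    (∀ u v, G.Adj u v → w0 ≤ f u + f v ∧ f u + f v + 2 ≤ w0 + Fintype.card V) ∧
    ∀ u v u' v', G.Adj u v → G.Adj u' v' → f u + f v = f u' + f v' → (u = u' ∧ v = v') ∨ (u = v' ∧ v = u')

open Classical in
theorem to_par {V : Type} [Fintype V] (G : SimpleGraph V) (hG : G.IsTree) (A : V) (hn : 2 ≤ Fintype.card V) :
    ∃ (e : V ≃ Fin (Fintype.card V)) (p : ℕ → ℕ), Par (Fintype.card V) p ∧ (e A : ℕ) = 0 ∧
      (∀ v, (nbs (Fintype.card V) p (e v)).card = G.degree v) ∧
      (Even (Fintype.card V) → (∃ f, IsCL (Fintype.card V) p f ∧ f 0 = -1) → SemA G A) := by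
  obtain ⟨e, p, hpar, he0, hadj⟩ := tree_parent G hG A
  refine ⟨e, p, hpar, he0, ?_, ?_⟩
  · intro v
    have hv : G.degree v = (G.neighborFinset v).card := rfl
    rw [hv]
    symm
    refine Finset.card_bij (fun u _ => (e u : ℕ)) ?_ ?_ ?_
    · intro u hu
      rw [SimpleGraph.mem_neighborFinset] at hu
      unfold nbs
      rw [Finset.mem_filter, Finset.mem_range]
      refine ⟨(e u).2, ?_⟩
      unfold Ad
      exact ((hadj u v).1 hu.symm)
    · intro u _ u' _ h
      exact e.injective (Fin.ext h)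
    · intro w hw
      unfold nbs at hw
      rw [Finset.mem_filter, Finset.mem_range] at hw
      refine ⟨e.symm ⟨w, hw.1⟩, ?_, ?_⟩
      · rw [SimpleGraph.mem_neighborFinset]
        refine ((hadj (e.symm ⟨w, hw.1⟩) v).2 ?_).symm
        rw [Equiv.apply_symm_apply]
        exact hw.2
      · rw [Equiv.apply_symm_apply]
  · rintro hev ⟨f, ⟨hf1, hf2, hf3, hf4⟩, hf0⟩
    have hF : ∀ v, ∃ F : ℕ, (2 * F : ℤ) = f (e v) + (Fintype.card V : ℕ) + 1 ∧ 1 ≤ F ∧ F ≤ Fintype.card V := by
      intro v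
      have h1 := hf1 (e v) (e v).2
      unfold Lab at h1
      rw [Finset.mem_filter, Finset.mem_Icc] at h1
      obtain ⟨⟨h2, h3⟩, h4⟩ := h1
      obtain ⟨m, hm⟩ := h4
      obtain ⟨m', hm'⟩ := hev
      refine ⟨(m + m' + 1).toNat, ?_, ?_, ?_⟩ <;> omega
    choose F hF1 hF2 hF3 using hF
    have hsum : ∀ u v, G.Adj u v → ∃ i, 0 < i ∧ i < Fintype.card V ∧ (2 * (F u + F v) : ℤ) = f i + f (p i) + 2 * (Fintype.card V : ℕ) + 2 ∧
        ((i = e u ∧ p i = e v) ∨ (i = e v ∧ p i = e u)) := by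
      intro u v huv
      have hu := hF1 u
      have hv := hF1 v
      rcases (hadj u v).1 huv with ⟨h1, h2⟩ | ⟨h1, h2⟩
      · refine ⟨e v, h1, (e v).2, ?_, Or.inr ⟨rfl, h2⟩⟩
        rw [h2]
        linarith
      · refine ⟨e u, h1, (e u).2, ?_, Or.inl ⟨rfl, h2⟩⟩
        rw [h2]
        linarith
    refine ⟨F, Fintype.card V / 2 + 2, ?_, fun v => ⟨hF2 v, hF3 v⟩, ?_, ?_, ?_⟩
    · intro u v huv
      have h1 := hF1 u
      have h2 := hF1 v
      rw [huv] at h1
      have h3 : f (e u) = f (e v) := by linarith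
      have h4 := hf2 (by simp) (by simp) h3
      exact e.injective (Fin.ext h4)
    · have h1 := hF1 A
      rw [he0, hf0] at h1
      obtain ⟨m', hm'⟩ := hev
      omega
    · intro u v huv
      obtain ⟨i, hi0, hin, hs, _⟩ := hsum u v huv
      have h1 := hf3 i hi0 hin
      unfold Sm at h1
      rw [Finset.mem_filter, Finset.mem_Icc] at h1
      obtain ⟨⟨h2, h3⟩, h4⟩ := h1
      obtain ⟨m, hm⟩ := h4
      obtain ⟨m', hm'⟩ := hev
      constructor <;> omega
    · intro u v u' v' huv huv' hs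
      obtain ⟨i, hi0, hin, hs1, hi⟩ := hsum u v huv
      obtain ⟨i', hi0', hin', hs1', hi'⟩ := hsum u' v' huv'
      have h1 : f i + f (p i) = f i' + f (p i') := by
        have h2 : (F u : ℤ) + F v = F u' + F v' := by exact_mod_cast hs
        linarith
      have h3 : i = i' := hf4 (by simp only [Finset.coe_Ico, Set.mem_Ico]; omega)
        (by simp only [Finset.coe_Ico, Set.mem_Ico]; omega) h1
      subst h3
      rcases hi with ⟨a1, a2⟩ | ⟨a1, a2⟩ <;> rcases hi' with ⟨b1, b2⟩ | ⟨b1, b2⟩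
      · left
        exact ⟨e.injective (Fin.ext (a1.symm.trans b1)), e.injective (Fin.ext (a2.symm.trans b2))⟩
      · right
        exact ⟨e.injective (Fin.ext (a1.symm.trans b1)), e.injective (Fin.ext (a2.symm.trans b2))⟩
      · right
        exact ⟨e.injective (Fin.ext (a2.symm.trans b2)), e.injective (Fin.ext (a1.symm.trans b1))⟩
      · left
        exact ⟨e.injective (Fin.ext (a2.symm.trans b2)), e.injective (Fin.ext (a1.symm.trans b1))⟩

open Classical in
theorem semA_graph {n : ℕ} (G : SimpleGraph (Fin n)) (hG : G.IsTree) (A : Fin n) (h : SemA G A) :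
    ∃ (f : Fin n → ℕ) (g : G.edgeSet → ℕ) (k : ℕ),
        Function.Injective f ∧ (∀ v, 1 ≤ f v ∧ f v ≤ n) ∧
        Function.Injective g ∧ (∀ e, n + 1 ≤ g e ∧ g e < 2 * n) ∧
        ∀ (e : G.edgeSet) (u v : Fin n), (e : Sym2 (Fin n)) = s(u, v) → f u + g e + f v = k := by
  obtain ⟨f, w0, hinj, hf, hA, hb, hs⟩ := h
  rw [Fintype.card_fin] at hf hb
  set S : Sym2 (Fin n) → ℕ := Sym2.lift ⟨fun u v => f u + f v, fun u v => add_comm _ _⟩ with hS
  have hSuv : ∀ u v, S s(u, v) = f u + f v := fun u v => by rw [hS, Sym2.lift_mk]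
  have hbd : ∀ e : G.edgeSet, w0 ≤ S e ∧ S e + 2 ≤ w0 + n := by
    rintro ⟨e, he⟩
    induction e with
    | h u v =>
      rw [SimpleGraph.mem_edgeSet] at he
      show w0 ≤ S s(u, v) ∧ S s(u, v) + 2 ≤ w0 + n
      rw [hSuv]
      exact hb u v he
  refine ⟨f, fun e => w0 + n - 2 + (n + 1) - S e, w0 + n - 2 + (n + 1), hinj, hf, ?_, ?_, ?_⟩
  · rintro ⟨e, he⟩ ⟨e', he'⟩ hee
    have h1 := hbd ⟨e, he⟩
    have h2 := hbd ⟨e', he'⟩
    have h3 : S e = S e' := by
      simp only at h1 h2 hee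
      omega
    induction e with
    | h u v =>
      induction e' with
      | h u' v' =>
        rw [SimpleGraph.mem_edgeSet] at he he'
        rw [hSuv, hSuv] at h3
        refine Subtype.ext ?_
        show s(u, v) = s(u', v')
        rw [Sym2.eq_iff]
        rcases hs u v u' v' he he' h3 with h4 | h4
        · exact Or.inl h4
        · exact Or.inr h4
  · intro e
    have h1 := hbd e
    show n + 1 ≤ w0 + n - 2 + (n + 1) - S e ∧ w0 + n - 2 + (n + 1) - S e < 2 * n
    constructor <;> omega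
  · intro e u v huv
    have h1 := hbd e
    rw [huv, hSuv] at h1
    show f u + (w0 + n - 2 + (n + 1) - S e) + f v = w0 + n - 2 + (n + 1)
    rw [huv, hSuv]
    omega

open Classical in
theorem induce_leaves {V : Type} [Fintype V] (G : SimpleGraph V) (hG : G.IsTree) (A : V) (Λ : Finset V) (hA : A ∉ Λ)
    (hΛ : ∀ v ∈ Λ, G.Adj v A ∧ G.degree v = 1) :
    (G.induce {v | v ∉ Λ}).IsTree ∧
      (∀ v : {v | v ∉ Λ}, (v : V) ≠ A → (G.induce {v | v ∉ Λ}).degree v = G.degree (v : V)) ∧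
      (G.induce {v | v ∉ Λ}).degree ⟨A, hA⟩ + Λ.card = G.degree A := by
  have hnb : ∀ u ∈ Λ, ∀ v, G.Adj u v → v = A := by
    intro u hu v huv
    obtain ⟨h1, h2⟩ := hΛ u hu
    have h3 : (G.neighborFinset u).card = 1 := h2
    obtain ⟨a, ha⟩ := Finset.card_eq_one.1 h3
    have h4 : v ∈ G.neighborFinset u := (SimpleGraph.mem_neighborFinset _ _ _).2 huv
    have h5 : A ∈ G.neighborFinset u := (SimpleGraph.mem_neighborFinset _ _ _).2 h1
    rw [ha, Finset.mem_singleton] at h4 h5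
    rw [h4, h5]
  have hdegs : ∀ v : {v | v ∉ Λ}, ((G.induce {v | v ∉ Λ}).neighborFinset v).card = (G.neighborFinset (v : V) \ Λ).card := by
    intro v
    rw [← Finset.card_map (Function.Embedding.subtype _)]
    congr 1
    ext x
    simp only [Finset.mem_map, SimpleGraph.mem_neighborFinset, Function.Embedding.subtype_apply, Finset.mem_sdiff]
    constructor
    · rintro ⟨y, hy, rfl⟩
      exact ⟨hy, y.2⟩
    · rintro ⟨h1, h2⟩
      exact ⟨⟨x, h2⟩, h1, rfl⟩
  refine ⟨⟨?_, ?_⟩, ?_, ?_⟩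
  · -- connected
    set r : V → {v | v ∉ Λ} := fun v => if h : v ∈ Λ then ⟨A, hA⟩ else ⟨v, h⟩ with hr
    have hstep : ∀ u v, G.Adj u v → (G.induce {v | v ∉ Λ}).Reachable (r u) (r v) := by
      intro u v huv
      by_cases hu : u ∈ Λ
      · have hv := hnb u hu v huv
        have h1 : r u = ⟨A, hA⟩ := by simp only [hr]; rw [dif_pos hu]
        have h2 : r v = ⟨A, hA⟩ := by
          simp only [hr]
          rw [hv, dif_neg hA]
        rw [h1, h2]
      · by_cases hv : v ∈ Λ
        · have hu' := hnb v hv u huv.symm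
          have h1 : r v = ⟨A, hA⟩ := by simp only [hr]; rw [dif_pos hv]
          have h2 : r u = ⟨A, hA⟩ := by
            simp only [hr]
            rw [hu', dif_neg hA]
          rw [h1, h2]
        · have h1 : r v = ⟨v, hv⟩ := by simp only [hr]; rw [dif_neg hv]
          have h2 : r u = ⟨u, hu⟩ := by simp only [hr]; rw [dif_neg hu]
          rw [h1, h2]
          refine SimpleGraph.Adj.reachable ?_
          exact huv
    have hwalk : ∀ u v, G.Walk u v → (G.induce {v | v ∉ Λ}).Reachable (r u) (r v) := by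
      intro u v q
      induction q with
      | nil => exact SimpleGraph.Reachable.refl _
      | cons h _ ih => exact (hstep _ _ h).trans ih
    have hrx : ∀ x : {v | v ∉ Λ}, r x = x := by
      intro x
      simp only [hr]
      rw [dif_neg x.2]
    have : Nonempty {v | v ∉ Λ} := ⟨⟨A, hA⟩⟩
    refine ⟨fun x y => ?_⟩
    obtain ⟨q⟩ := hG.connected.preconnected (x : V) (y : V)
    have h1 := hwalk _ _ q
    rwa [hrx, hrx] at h1
  · exact hG.isAcyclic.comap (⟨Subtype.val, fun h => h⟩ : (G.induce {v | v ∉ Λ}) →g G) Subtype.val_injective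
  · intro v hv
    have h1 : (G.induce {v | v ∉ Λ}).degree v = ((G.induce {v | v ∉ Λ}).neighborFinset v).card := rfl
    have h2 : G.degree (v : V) = (G.neighborFinset (v : V)).card := rfl
    rw [h1, h2, hdegs v]
    congr 1
    rw [Finset.sdiff_eq_self_iff_disjoint]
    rw [Finset.disjoint_left]
    intro x hx hxΛ
    rw [SimpleGraph.mem_neighborFinset] at hx
    exact hv (hnb x hxΛ _ hx.symm)
  · have h1 : (G.induce {v | v ∉ Λ}).degree ⟨A, hA⟩ = ((G.induce {v | v ∉ Λ}).neighborFinset ⟨A, hA⟩).card := rfl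
    have h2 : G.degree A = (G.neighborFinset A).card := rfl
    rw [h1, h2, hdegs]
    exact Finset.card_sdiff_add_card_eq_card (fun x hx => (SimpleGraph.mem_neighborFinset _ _ _).2 (hΛ x hx).1.symm)

open Classical in
theorem semA_leaves {V : Type} [Fintype V] (G : SimpleGraph V) (hG : G.IsTree) (A : V) (Λ : Finset V) (hA : A ∉ Λ)
    (hΛ : ∀ v ∈ Λ, G.Adj v A ∧ G.degree v = 1) (h : SemA (G.induce {v | v ∉ Λ}) ⟨A, hA⟩) : SemA G A := by
  obtain ⟨f', w0, hinj, hf, hfA, hb, hs⟩ := h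
  have hnb : ∀ u ∈ Λ, ∀ v, G.Adj u v → v = A := by
    intro u hu v huv
    obtain ⟨h1, h2⟩ := hΛ u hu
    have h3 : (G.neighborFinset u).card = 1 := h2
    obtain ⟨a, ha⟩ := Finset.card_eq_one.1 h3
    have h4 : v ∈ G.neighborFinset u := (SimpleGraph.mem_neighborFinset _ _ _).2 huv
    have h5 : A ∈ G.neighborFinset u := (SimpleGraph.mem_neighborFinset _ _ _).2 h1
    rw [ha, Finset.mem_singleton] at h4 h5
    rw [h4, h5]
  set m := Fintype.card {v | v ∉ Λ} with hm
  have hcard : m + Λ.card = Fintype.card V := by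
    have h1 : Fintype.card {v | v ∉ Λ} = Fintype.card V - Λ.card := by
      have h2 := Fintype.card_subtype_compl (fun v => v ∈ Λ)
      rw [Fintype.card_coe] at h2
      rw [← h2]
      exact Fintype.card_congr (Equiv.refl _)
    have h3 : Λ.card ≤ Fintype.card V := Finset.card_le_univ Λ
    omega
  have hm1 : 1 ≤ m := Fintype.card_pos_iff.2 ⟨⟨A, hA⟩⟩
  set f : V → ℕ := fun v => if h : v ∈ Λ then m + 1 + (Λ.equivFin ⟨v, h⟩ : ℕ) else f' ⟨v, h⟩ with hfdef
  have f1 : ∀ v (h : v ∈ Λ), f v = m + 1 + (Λ.equivFin ⟨v, h⟩ : ℕ) := by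
    intro v h
    simp only [hfdef]
    rw [dif_pos h]
  have f2 : ∀ v (h : v ∉ Λ), f v = f' ⟨v, h⟩ := by
    intro v h
    simp only [hfdef]
    rw [dif_neg h]
  have f2b : ∀ v (h : v ∉ Λ), 1 ≤ f v ∧ f v ≤ m := by
    intro v h
    rw [f2 v h]
    exact hf ⟨v, h⟩
  have f1b : ∀ v (h : v ∈ Λ), m + 1 ≤ f v ∧ f v ≤ m + Λ.card := by
    intro v h
    rw [f1 v h]
    have := (Λ.equivFin ⟨v, h⟩).2
    omega
  have fA : f A + 2 = w0 := by
    rw [f2 A hA]
    exact hfA
  have finj : Function.Injective f := by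
    intro u v huv
    by_cases hu : u ∈ Λ <;> by_cases hv : v ∈ Λ
    · rw [f1 u hu, f1 v hv] at huv
      have h1 : Λ.equivFin ⟨u, hu⟩ = Λ.equivFin ⟨v, hv⟩ := Fin.ext (by omega)
      have h2 := Λ.equivFin.injective h1
      exact congrArg Subtype.val h2
    · have h1 := f1b u hu
      have h2 := f2b v hv
      omega
    · have h1 := f2b u hu
      have h2 := f1b v hv
      omega
    · rw [f2 u hu, f2 v hv] at huv
      exact congrArg Subtype.val (hinj huv)
  -- classification of the edges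
  have hcl : ∀ u v, G.Adj u v → (u ∉ Λ ∧ v ∉ Λ ∧ w0 ≤ f u + f v ∧ f u + f v + 2 ≤ w0 + m) ∨
      (∃ l ∈ Λ, ((u = l ∧ v = A) ∨ (u = A ∧ v = l)) ∧ f u + f v + 2 = w0 + f l) := by
    intro u v huv
    by_cases hu : u ∈ Λ
    · have hv := hnb u hu v huv
      right
      refine ⟨u, hu, Or.inl ⟨rfl, hv⟩, ?_⟩
      rw [hv]
      omega
    · by_cases hv : v ∈ Λ
      · have hu' := hnb v hv u huv.symm
        right
        refine ⟨v, hv, Or.inr ⟨hu', rfl⟩, ?_⟩
        rw [hu']
        omega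
      · left
        refine ⟨hu, hv, ?_⟩
        rw [f2 u hu, f2 v hv]
        exact hb ⟨u, hu⟩ ⟨v, hv⟩ huv
  refine ⟨f, w0, finj, ?_, fA, ?_, ?_⟩
  · intro v
    by_cases hv : v ∈ Λ
    · have := f1b v hv
      omega
    · have := f2b v hv
      omega
  · intro u v huv
    rcases hcl u v huv with ⟨_, _, h1, h2⟩ | ⟨l, hl, _, h2⟩
    · omega
    · have := f1b l hl
      omega
  · intro u v u' v' huv huv' hss
    rcases hcl u v huv with ⟨hu, hv, h1, h2⟩ | ⟨l, hl, h1, h2⟩
    · rcases hcl u' v' huv' with ⟨hu', hv', h1', h2'⟩ | ⟨l', hl', h1', h2'⟩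
      · rw [f2 u hu, f2 v hv, f2 u' hu', f2 v' hv'] at hss
        rcases hs ⟨u, hu⟩ ⟨v, hv⟩ ⟨u', hu'⟩ ⟨v', hv'⟩ huv huv' hss with ⟨h3, h4⟩ | ⟨h3, h4⟩
        · exact Or.inl ⟨congrArg Subtype.val h3, congrArg Subtype.val h4⟩
        · exact Or.inr ⟨congrArg Subtype.val h3, congrArg Subtype.val h4⟩
      · have := f1b l' hl'
        omega
    · rcases hcl u' v' huv' with ⟨hu', hv', h1', h2'⟩ | ⟨l', hl', h1', h2'⟩
      · have := f1b l hl
        omega
      · have h3 : f l = f l' := by omega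
        have h4 := finj h3
        subst h4
        rcases h1 with ⟨rfl, rfl⟩ | ⟨rfl, rfl⟩ <;> rcases h1' with ⟨rfl, rfl⟩ | ⟨rfl, rfl⟩
        · exact Or.inl ⟨rfl, rfl⟩
        · exact Or.inr ⟨rfl, rfl⟩
        · exact Or.inr ⟨rfl, rfl⟩
        · exact Or.inl ⟨rfl, rfl⟩

end Pool.Agent.BD
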