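import Pool.Agent.Helper73.BD.FF
import Pool.Agent.Helper73.BD.E3
import Pool.Agent.Helper73.BD.R1

/-!
# BD-CR: the end of the proof (bookkeeping)

`Λ` = labelled vertices of `Q`: `Bd`, `Cl \ Fl`, the trees `P t`, `t ∈ T \ U`; `W = CN ∪ Rs ∪ ⋃_{t ∈ U} P t`; so `Q = Λ ∪ W ∪ Fl`.  `F` labels `Dn = E ∪ Λ ∪ ι(Λ)`.  `Fd` = demand vertices, whose labels and those of their
twins are not opposite.
`KL`, `KS`: label classes and nonzero sum classes used by `F`.

Proof in words.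
(1) `fill` with `Fl ∪ Fd` instead of `Fl` and `Λ \ Fd` instead of `Λ`: the classes of `F` are different on `Λ \ Fd` since `F` and `-F = F ∘ ι` are injective on `Λ \ Fd ∪ ι(Λ \ Fd)`.  (The edges touching `W` do not meet `Fd`.)
It gives `g` on `W`; all of `X'` is used (`g (cv (iL x))`), all of `S'` is used.
(2) COUNT.  `|W| = |X'| + |used part of FXs|`.  `n = |Dn| + 2|W| + 2|Fl|`, `2|KL| = |Dn|`, `|LC n| = n/2 = |KL| + |X'| + |FXs| + |Lc|`, `|Fl| = |L1| + 2|L2| = |Lc| + a` (`Abs.card` for some choice of subsets; `hFlc`), so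
`F' = FXs \ used` has exactly `a` elements.  Edges: `n - 1 = #EdI (range n) = #EdI Dn + 2 #EdT W Λ' + 2 #EdT Fl CO` (`twin_edges` for `Q`), `#EdI Dn = 2|KS| + 1`, `|SC n| = n/2 - 1 = |KS| + |S'| + |FSs| + |Sc|`,
`#EdT Fl CO = |Sc| + b`; so `G' = FSs \ used` has exactly `b` elements.
(3) `habs` with `L = Lc ∪ F'`, `S = Sc ∪ G'` gives `g'` on `Fl`.
(4) `F''`: `F` on `Dn`, `g` on `W`, `-g` on `ι(W)`, `g'` on `Fl`, `-g'` on `ι(Fl)`.  Label classes: `KL` on `Dn`, the others are different on `W ∪ Fl`, in `X' ∪ FXs ∪ Lc`.  Two equal labels: both in `Dn`, or the same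
vertex `v ∈ W ∪ Fl` up to `ι`, and then the labels of `v`, `ι v` are opposite and odd.
Sums: an edge of `range n` is inside `Dn`, or inside `Q` touching `W ∪ Fl`, or inside `ι(Q)` touching `ι(W ∪ Fl)`, and then it is the twin edge (`twin_edges`) of such an edge inside `Q`, with the opposite sum (the labels of
both ends are balanced: `hbal`, `hFd`).  An edge touching `Fl` has both ends in `Fl ∪ CO` (`hFln`), so it is not an edge touching `W`.  The sum classes of the edges inside `Q` touching `W ∪ Fl` are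
all different and not in `KS`, not zero.
-/

set_option autoImplicit false

namespace Pool.Agent.BD

open Finset Pool.Agent.SEM

private theorem card_LC_61 {n : ℕ} (hn2 : Even n) : 2 * (LC n).card = n := by
  obtain ⟨m, rfl⟩ := hn2
  have h : LC (m + m) = (range m).image (fun k => 2 * k + 1) := by
    ext x
    rw [mem_LC, mem_image]
    constructor
    · rintro ⟨⟨h1, h2⟩, k, hk⟩
      exact ⟨k, mem_range.2 (by omega), by omega⟩
    · rintro ⟨k, hk, rfl⟩
      rw [mem_range] at hk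
      exact ⟨⟨by omega, by omega⟩, ⟨k, rfl⟩⟩
  rw [h, card_image_of_injective, card_range]
  · omega
  · intro a b hab
    simp only at hab
    omega

private theorem card_SC_61 {n : ℕ} (hn2 : Even n) (hn : 2 ≤ n) : 2 * (SC n).card + 2 = n := by
  obtain ⟨m, rfl⟩ := hn2
  have h : SC (m + m) = (range (m - 1)).image (fun k => 2 * k + 2) := by
    ext x
    rw [mem_SC, mem_image]
    constructor
    · rintro ⟨⟨h1, h2⟩, k, hk⟩
      exact ⟨k - 1, mem_range.2 (by omega), by omega⟩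
    · rintro ⟨k, hk, rfl⟩
      rw [mem_range] at hk
      exact ⟨⟨by omega, by omega⟩, ⟨k + 1, by ring⟩⟩
  rw [h, card_image_of_injective, card_range]
  · omega
  · intro a b hab
    simp only at hab
    omega

private theorem mem_EdI_61 {p : ℕ → ℕ} {A : Finset ℕ} {i : ℕ} :
    i ∈ EdI p A ↔ i ∈ A ∧ 0 < i ∧ p i ∈ A := by
  unfold EdI; rw [mem_filter]

private theorem mem_EdT_61 {p : ℕ → ℕ} {W Λ : Finset ℕ} {i : ℕ} :
    i ∈ EdT p W Λ ↔ (i ∈ W ∪ Λ ∧ 0 < i ∧ p i ∈ W ∪ Λ) ∧ (i ∈ W ∨ p i ∈ W) := by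
  unfold EdT; rw [mem_filter, mem_EdI_61]

private theorem Ad_symm_61 {p : ℕ → ℕ} {v w : ℕ} (h : Ad p v w) : Ad p w v := Or.symm h

private structure Geo_61 (n : ℕ) (p ι : ℕ → ℕ) (E M Λ : Finset ℕ) : Prop where
  par : ∀ i, 0 < i → i < n → p i < i
  z : 0 ∈ E
  cov : range n = E ∪ (M ∪ Λ) ∪ (M ∪ Λ).image ι
  dMΛ : Disjoint M Λ
  dE : Disjoint E (M ∪ Λ)
  dι : ∀ v ∈ M ∪ Λ, ι v ∉ M ∪ Λ ∧ ι v ∉ E
  inj : Set.InjOn ι (M ∪ Λ : Finset ℕ)
  tw : ∀ v ∈ M ∪ Λ, ∀ w ∈ M ∪ Λ, (Ad p v w ↔ Ad p (ι v) (ι w))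
  cr : ∀ v ∈ M ∪ Λ, ∀ w ∈ M ∪ Λ, ¬ Ad p v (ι w)
  inner : ∀ v ∈ M, ∀ w ∈ E, ¬ Ad p v w ∧ ¬ Ad p (ι v) w

section geo

variable {n : ℕ} {p ι : ℕ → ℕ} {E M Λ : Finset ℕ} (hG : Geo_61 n p ι E M Λ)

include hG

private theorem nbr1_61 {v w : ℕ} (hv : v ∈ M) (hw : w < n) (h : Ad p v w) : w ∈ M ∪ Λ := by
  have h1 : w ∈ E ∪ (M ∪ Λ) ∪ (M ∪ Λ).image ι := by rw [← hG.cov]; exact mem_range.2 hw
  rw [mem_union, mem_union] at h1
  rcases h1 with (h1 | h1) | h1
  · exact absurd h (hG.inner v hv w h1).1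
  · exact h1
  · obtain ⟨u, hu, rfl⟩ := mem_image.1 h1
    exact absurd h (hG.cr v (mem_union_left _ hv) u hu)

private theorem nbr2_61 {v w : ℕ} (hv : v ∈ M) (hw : w < n) (h : Ad p (ι v) w) :
    w ∈ (M ∪ Λ).image ι := by
  have h1 : w ∈ E ∪ (M ∪ Λ) ∪ (M ∪ Λ).image ι := by rw [← hG.cov]; exact mem_range.2 hw
  rw [mem_union, mem_union] at h1
  rcases h1 with (h1 | h1) | h1
  · exact absurd h (hG.inner v hv w h1).2
  · exact absurd (Ad_symm_61 h) (hG.cr w h1 v (mem_union_left _ hv))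
  · exact h1

private theorem notDn1_61 {v : ℕ} (hv : v ∈ M) : v ∉ E ∪ Λ ∪ Λ.image ι := by
  intro h
  rw [mem_union, mem_union] at h
  rcases h with (h | h) | h
  · exact disjoint_left.1 hG.dE h (mem_union_left _ hv)
  · exact disjoint_left.1 hG.dMΛ hv h
  · obtain ⟨u, hu, rfl⟩ := mem_image.1 h
    exact (hG.dι u (mem_union_right _ hu)).1 (mem_union_left _ hv)

private theorem notDn2_61 {v : ℕ} (hv : v ∈ M) : ι v ∉ E ∪ Λ ∪ Λ.image ι := by
  intro h
  have h0 := hG.dι v (mem_union_left _ hv)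
  rw [mem_union, mem_union] at h
  rcases h with (h | h) | h
  · exact h0.2 h
  · exact h0.1 (mem_union_right _ h)
  · obtain ⟨u, hu, huv⟩ := mem_image.1 h
    have h2 := hG.inj (mem_coe.2 (mem_union_right _ hu)) (mem_coe.2 (mem_union_left _ hv)) huv
    rw [h2] at hu
    exact disjoint_left.1 hG.dMΛ hv hu

private theorem clsV_61 {v : ℕ} (hv : v < n) :
    v ∈ E ∪ Λ ∪ Λ.image ι ∨ ∃ u ∈ M, v = u ∨ v = ι u := by
  have h1 : v ∈ E ∪ (M ∪ Λ) ∪ (M ∪ Λ).image ι := by rw [← hG.cov]; exact mem_range.2 hv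
  rw [mem_union, mem_union] at h1
  rcases h1 with (h1 | h1) | h1
  · left; exact mem_union_left _ (mem_union_left _ h1)
  · rcases mem_union.1 h1 with h1 | h1
    · right; exact ⟨v, h1, Or.inl rfl⟩
    · left; exact mem_union_left _ (mem_union_right _ h1)
  · obtain ⟨u, hu, rfl⟩ := mem_image.1 h1
    rcases mem_union.1 hu with hu | hu
    · right; exact ⟨u, hu, Or.inr rfl⟩
    · left; exact mem_union_right _ (mem_image_of_mem _ hu)

private theorem lt_n_61 {v : ℕ} (hv : v ∈ M ∪ Λ) : v < n ∧ ι v < n := by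
  rw [← mem_range, ← mem_range, hG.cov]
  exact ⟨mem_union_left _ (mem_union_right _ hv), mem_union_right _ (mem_image_of_mem _ hv)⟩

private theorem cls_61 {i : ℕ} (hi : i ∈ Ico 1 n) :
    i ∈ EdI p (E ∪ Λ ∪ Λ.image ι) ∨ i ∈ EdT p M Λ ∨ i ∈ EdT p (M.image ι) (Λ.image ι) := by
  rw [mem_Ico] at hi
  have hi0 : 0 < i := hi.1
  have hpi : p i < n := (hG.par i hi0 hi.2).trans hi.2
  have adj : Ad p i (p i) := Or.inl ⟨hi0, rfl⟩
  by_cases h1 : i ∈ M
  · right; left
    exact mem_EdT_61.2 ⟨⟨mem_union_left _ h1, hi0, nbr1_61 hG h1 hpi adj⟩, Or.inl h1⟩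
  by_cases h2 : p i ∈ M
  · right; left
    exact mem_EdT_61.2 ⟨⟨nbr1_61 hG h2 hi.2 (Ad_symm_61 adj), hi0, mem_union_left _ h2⟩, Or.inr h2⟩
  by_cases h3 : i ∈ M.image ι
  · right; right
    obtain ⟨v, hv, hvi⟩ := mem_image.1 h3
    have h4 := nbr2_61 hG hv hpi (hvi ▸ adj)
    rw [image_union] at h4
    exact mem_EdT_61.2 ⟨⟨mem_union_left _ h3, hi0, h4⟩, Or.inl h3⟩
  by_cases h4 : p i ∈ M.image ι
  · right; right
    obtain ⟨v, hv, hvi⟩ := mem_image.1 h4
    have h5 := nbr2_61 hG hv hi.2 (hvi ▸ Ad_symm_61 adj)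
    rw [image_union] at h5
    exact mem_EdT_61.2 ⟨⟨h5, hi0, mem_union_left _ h4⟩, Or.inr h4⟩
  left
  have key : ∀ x, x < n → x ∉ M → x ∉ M.image ι → x ∈ E ∪ Λ ∪ Λ.image ι := by
    intro x hx h5 h6
    rcases clsV_61 hG hx with h | ⟨u, hu, rfl | rfl⟩
    · exact h
    · exact absurd hu h5
    · exact absurd (mem_image_of_mem _ hu) h6
  exact mem_EdI_61.2 ⟨key _ hi.2 h1 h3, hi0, key _ hpi h2 h4⟩

private theorem kap_61 : ∃ κ : ℕ → ℕ, Set.BijOn κ (EdT p M Λ) (EdT p (M.image ι) (Λ.image ι)) ∧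
      ∀ i ∈ EdT p M Λ, (κ i = ι i ∧ p (κ i) = ι (p i)) ∨ (κ i = ι (p i) ∧ p (κ i) = ι i) := by
  have hsub : EdT p M Λ ⊆ EdI p (M ∪ Λ) := filter_subset _ _
  obtain ⟨κ, hκ, hκ2⟩ := twin_edges (p := p) (Q := M ∪ Λ) (ι := ι) (by
      intro i hi h0
      refine hG.par i h0 ?_
      rcases mem_union.1 hi with hi | hi
      · exact (lt_n_61 hG hi).1
      · obtain ⟨u, hu, rfl⟩ := mem_image.1 hi
        exact (lt_n_61 hG hu).2) hG.inj (by
      rw [disjoint_left]
      intro x hx hx'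
      obtain ⟨u, hu, rfl⟩ := mem_image.1 hx'
      exact (hG.dι u hu).1 hx) hG.tw
  have hinjM : ∀ x ∈ M ∪ Λ, ι x ∈ M.image ι → x ∈ M := by
    intro x hx h
    obtain ⟨u, hu, hux⟩ := mem_image.1 h
    rw [← hG.inj (mem_coe.2 (mem_union_left _ hu)) (mem_coe.2 hx) hux]
    exact hu
  refine ⟨κ, ⟨?_, hκ.injOn.mono (by exact_mod_cast hsub), ?_⟩, fun i hi => hκ2 i (hsub hi)⟩
  · intro i hi
    rw [mem_coe] at hi
    have h1 := hκ.mapsTo (mem_coe.2 (hsub hi))
    rw [mem_coe, mem_EdI_61, image_union] at h1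
    refine mem_coe.2 (mem_EdT_61.2 ⟨h1, ?_⟩)
    rcases (mem_EdT_61.1 hi).2 with h2 | h2
    · rcases hκ2 i (hsub hi) with ⟨h3, h4⟩ | ⟨h3, h4⟩
      · left; rw [h3]; exact mem_image_of_mem _ h2
      · right; rw [h4]; exact mem_image_of_mem _ h2
    · rcases hκ2 i (hsub hi) with ⟨h3, h4⟩ | ⟨h3, h4⟩
      · right; rw [h4]; exact mem_image_of_mem _ h2
      · left; rw [h3]; exact mem_image_of_mem _ h2
  · intro j hj
    rw [mem_coe, mem_EdT_61, ← image_union] at hj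
    obtain ⟨i, hi, hij⟩ := hκ.surjOn (mem_coe.2 (mem_EdI_61.2 hj.1))
    refine ⟨i, mem_coe.2 (mem_EdT_61.2 ⟨mem_EdI_61.1 (mem_coe.1 hi), ?_⟩), hij⟩
    have hi' := mem_EdI_61.1 (mem_coe.1 hi)
    rcases hκ2 i (mem_coe.1 hi) with ⟨h3, h4⟩ | ⟨h3, h4⟩
    · rw [← hij, h3] at hj
      rw [h3] at h4
      rcases hj.2 with h5 | h5
      · exact Or.inl (hinjM _ hi'.1 h5)
      · rw [h4] at h5
        exact Or.inr (hinjM _ hi'.2.2 h5)
    · rw [← hij, h3] at hj
      rw [h3] at h4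
      rcases hj.2 with h5 | h5
      · exact Or.inr (hinjM _ hi'.2.2 h5)
      · rw [h4] at h5
        exact Or.inl (hinjM _ hi'.1 h5)

private theorem cardV_61 : (E ∪ Λ ∪ Λ.image ι).card + 2 * M.card = n := by
  have h1 : range n = (E ∪ Λ ∪ Λ.image ι) ∪ (M ∪ M.image ι) := by
    ext v
    rw [mem_range]
    constructor
    · intro hv
      rcases clsV_61 hG hv with h | ⟨u, hu, rfl | rfl⟩
      · exact mem_union_left _ h
      · exact mem_union_right _ (mem_union_left _ hu)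
      · exact mem_union_right _ (mem_union_right _ (mem_image_of_mem _ hu))
    · intro hv
      rw [← mem_range, hG.cov]
      rw [mem_union, mem_union, mem_union, mem_union] at hv
      rcases hv with ((hv | hv) | hv) | hv | hv
      · exact mem_union_left _ (mem_union_left _ hv)
      · exact mem_union_left _ (mem_union_right _ (mem_union_right _ hv))
      · exact mem_union_right _ (image_subset_image subset_union_right hv)
      · exact mem_union_left _ (mem_union_right _ (mem_union_left _ hv))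
      · exact mem_union_right _ (image_subset_image subset_union_left hv)
  have h2 : Disjoint (E ∪ Λ ∪ Λ.image ι) (M ∪ M.image ι) := by
    rw [disjoint_right]
    intro v hv
    rcases mem_union.1 hv with hv | hv
    · exact notDn1_61 hG hv
    · obtain ⟨u, hu, rfl⟩ := mem_image.1 hv
      exact notDn2_61 hG hu
  have h3 : Disjoint M (M.image ι) := by
    rw [disjoint_right]
    intro v hv
    obtain ⟨u, hu, rfl⟩ := mem_image.1 hv
    exact fun h => (hG.dι u (mem_union_left _ hu)).1 (mem_union_left _ h)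
  have h4 : (M.image ι).card = M.card :=
    card_image_of_injOn (hG.inj.mono (by exact_mod_cast subset_union_left))
  have h5 := congrArg Finset.card h1
  rw [card_range, card_union_of_disjoint h2, card_union_of_disjoint h3, h4] at h5
  omega

private theorem cardE_61 (hn : 1 ≤ n) :
    (EdI p (E ∪ Λ ∪ Λ.image ι)).card + 2 * (EdT p M Λ).card + 1 = n := by
  obtain ⟨κ, hκ, -⟩ := kap_61 hG
  have hDn : ∀ v ∈ E ∪ Λ ∪ Λ.image ι, v < n := by
    intro v hv
    rw [← mem_range, hG.cov]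
    rw [mem_union, mem_union] at hv
    rcases hv with (hv | hv) | hv
    · exact mem_union_left _ (mem_union_left _ hv)
    · exact mem_union_left _ (mem_union_right _ (mem_union_right _ hv))
    · exact mem_union_right _ (image_subset_image subset_union_right hv)
  have h1 : Ico 1 n = EdI p (E ∪ Λ ∪ Λ.image ι) ∪ (EdT p M Λ ∪ EdT p (M.image ι) (Λ.image ι)) := by
    ext i
    constructor
    · intro hi
      rcases cls_61 hG hi with h | h | h
      · exact mem_union_left _ h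
      · exact mem_union_right _ (mem_union_left _ h)
      · exact mem_union_right _ (mem_union_right _ h)
    · intro hi
      rw [mem_Ico]
      rw [mem_union, mem_union] at hi
      rcases hi with hi | hi | hi
      · rw [mem_EdI_61] at hi
        exact ⟨hi.2.1, hDn _ hi.1⟩
      · rw [mem_EdT_61] at hi
        exact ⟨hi.1.2.1, (lt_n_61 hG hi.1.1).1⟩
      · rw [mem_EdT_61, ← image_union] at hi
        obtain ⟨u, hu, hui⟩ := mem_image.1 hi.1.1
        exact ⟨hi.1.2.1, hui ▸ (lt_n_61 hG hu).2⟩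
  have h2 : Disjoint (EdI p (E ∪ Λ ∪ Λ.image ι)) (EdT p M Λ ∪ EdT p (M.image ι) (Λ.image ι)) := by
    rw [disjoint_right]
    intro i hi hi'
    rw [mem_EdI_61] at hi'
    rcases mem_union.1 hi with hi | hi
    · rcases (mem_EdT_61.1 hi).2 with h | h
      · exact notDn1_61 hG h hi'.1
      · exact notDn1_61 hG h hi'.2.2
    · rcases (mem_EdT_61.1 hi).2 with h | h
      · obtain ⟨u, hu, hui⟩ := mem_image.1 h
        exact notDn2_61 hG hu (hui ▸ hi'.1)
      · obtain ⟨u, hu, hui⟩ := mem_image.1 h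
        exact notDn2_61 hG hu (hui ▸ hi'.2.2)
  have h3 : Disjoint (EdT p M Λ) (EdT p (M.image ι) (Λ.image ι)) := by
    rw [disjoint_right]
    intro i hi hi'
    have h4 := (mem_EdT_61.1 hi).1.1
    rw [← image_union] at h4
    obtain ⟨u, hu, hui⟩ := mem_image.1 h4
    have h5 := (mem_EdT_61.1 hi').1.1
    exact (hG.dι u hu).1 (hui ▸ h5)
  have h4 : (EdT p (M.image ι) (Λ.image ι)).card = (EdT p M Λ).card := by
    refine (Finset.card_bij (fun i _ => κ i) ?_ ?_ ?_).symm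
    · intro i hi
      exact mem_coe.1 (hκ.mapsTo (mem_coe.2 hi))
    · intro i hi j hj hij
      exact hκ.injOn (mem_coe.2 hi) (mem_coe.2 hj) hij
    · intro j hj
      obtain ⟨i, hi, hij⟩ := hκ.surjOn (mem_coe.2 hj)
      exact ⟨i, mem_coe.1 hi, hij⟩
  have h5 := congrArg Finset.card h1
  rw [Nat.card_Ico, card_union_of_disjoint h2, card_union_of_disjoint h3, h4] at h5
  omega

end geo

private theorem lab_61 {n : ℕ} {u : ℤ} (h : u.natAbs ∈ LC n) : u ∈ Lab n := by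
  rw [mem_LC] at h
  rw [mem_Lab]
  refine ⟨⟨by omega, by omega⟩, ?_⟩
  exact Int.natAbs_odd.1 h.2

private theorem sm_61 {n : ℕ} {u : ℤ} (h : u.natAbs ∈ SC n) : u ∈ Sm n := by
  rw [mem_SC] at h
  rw [mem_Sm]
  refine ⟨⟨by omega, by omega⟩, ?_⟩
  exact Int.natAbs_even.1 h.2

private theorem assemble_61 {n : ℕ} {p ι : ℕ → ℕ} {E M Λ Fd : Finset ℕ} (hG : Geo_61 n p ι E M Λ)
    (F : ℕ → ℤ) (hF : Set.InjOn F (E ∪ Λ ∪ Λ.image ι : Finset ℕ))
    (hFL : ∀ v ∈ E ∪ Λ ∪ Λ.image ι, F v ∈ Lab n)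
    (hFS : Set.InjOn (fun i => F i + F (p i)) (EdI p (E ∪ Λ ∪ Λ.image ι)))
    (hFS' : ∀ i ∈ EdI p (E ∪ Λ ∪ Λ.image ι), F i + F (p i) ∈ Sm n)
    (hbal : ∀ v ∈ Λ, v ∉ Fd → F (ι v) = -F v)
    (hFd : ∀ v ∈ M, ∀ w ∈ Fd, ¬ Ad p v w)
    (h : ℕ → ℤ) (hΛ : ∀ v ∈ Λ, h v = F v) (KL KS : Finset ℕ)
    (hKL : ∀ v ∈ E ∪ Λ ∪ Λ.image ι, (F v).natAbs ∈ KL)
    (hKS : ∀ i ∈ EdI p (E ∪ Λ ∪ Λ.image ι), F i + F (p i) ≠ 0 → (F i + F (p i)).natAbs ∈ KS)
    (hM1 : ∀ v ∈ M, (h v).natAbs ∈ LC n ∧ (h v).natAbs ∉ KL)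
    (hM2 : Set.InjOn (fun v => (h v).natAbs) M)
    (hE1 : ∀ i ∈ EdT p M Λ, (h i + h (p i)).natAbs ∈ SC n ∧ (h i + h (p i)).natAbs ∉ KS)
    (hE2 : Set.InjOn (fun i => (h i + h (p i)).natAbs) (EdT p M Λ)) :
    ∃ F' : ℕ → ℤ, IsCL n p F' ∧ F' 0 = F 0 := by
  classical
  obtain ⟨κ, hκ, hκ2⟩ := kap_61 hG
  have hinjM : Set.InjOn ι (M : Set ℕ) := hG.inj.mono (by exact_mod_cast subset_union_left)
  set G : ℕ → ℤ := fun v => if v ∈ M then h v else
    if v ∈ M.image ι then -h (Function.invFunOn ι (M : Set ℕ) v) else F v with hGdef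
  have gM : ∀ v ∈ M, G v = h v := fun v hv => by
    simp only [hGdef]; rw [if_pos hv]
  have gι : ∀ v ∈ M, G (ι v) = -h v := fun v hv => by
    have h1 : ι v ∉ M := fun h1 => (hG.dι v (mem_union_left _ hv)).1 (mem_union_left _ h1)
    simp only [hGdef]
    rw [if_neg h1, if_pos (mem_image_of_mem _ hv), hinjM.leftInvOn_invFunOn (mem_coe.2 hv)]
  have gD : ∀ v ∈ E ∪ Λ ∪ Λ.image ι, G v = F v := fun v hv => by
    have h1 : v ∉ M := fun h1 => notDn1_61 hG h1 hv
    have h2 : v ∉ M.image ι := fun h2 => by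
      obtain ⟨u, hu, hui⟩ := mem_image.1 h2
      exact notDn2_61 hG hu (hui ▸ hv)
    simp only [hGdef]
    rw [if_neg h1, if_neg h2]
  have gQ : ∀ v ∈ M ∪ Λ, G v = h v := fun v hv => by
    rcases mem_union.1 hv with hv | hv
    · exact gM v hv
    · rw [gD v (mem_union_left _ (mem_union_right _ hv)), hΛ v hv]
  have gQι : ∀ v ∈ M ∪ Λ, (v ∈ M ∨ v ∉ Fd) → G (ι v) = -h v := fun v hv hv' => by
    by_cases hvM : v ∈ M
    · exact gι v hvM
    · have h1 : v ∈ Λ := (mem_union.1 hv).resolve_left hvM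
      rw [gD _ (mem_union_right _ (mem_image_of_mem _ h1)), hbal v h1 (hv'.resolve_left hvM), hΛ v h1]
  -- labels
  have absV : ∀ v, ∀ u ∈ M, (v = u ∨ v = ι u) → (G v).natAbs = (h u).natAbs := by
    rintro v u hu (rfl | rfl)
    · rw [gM _ hu]
    · rw [gι _ hu, Int.natAbs_neg]
  have hLabG : ∀ v, v < n → G v ∈ Lab n := by
    intro v hv
    rcases clsV_61 hG hv with h1 | ⟨u, hu, huv⟩
    · rw [gD v h1]; exact hFL v h1
    · apply lab_61
      rw [absV v u hu huv]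
      exact (hM1 u hu).1
  -- sums
  have clsE : ∀ i ∈ Ico 1 n, i ∈ EdI p (E ∪ Λ ∪ Λ.image ι) ∨ ∃ j ∈ EdT p M Λ, i = j ∨ i = κ j := by
    intro i hi
    rcases cls_61 hG hi with h1 | h1 | h1
    · exact Or.inl h1
    · exact Or.inr ⟨i, h1, Or.inl rfl⟩
    · obtain ⟨j, hj, hji⟩ := hκ.surjOn (mem_coe.2 h1)
      exact Or.inr ⟨j, mem_coe.1 hj, Or.inr hji.symm⟩
  have sD : ∀ i ∈ EdI p (E ∪ Λ ∪ Λ.image ι), G i + G (p i) = F i + F (p i) := fun i hi => by
    rw [mem_EdI_61] at hi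
    rw [gD i hi.1, gD _ hi.2.2]
  have sA : ∀ j ∈ EdT p M Λ, G j + G (p j) = h j + h (p j) := fun j hj => by
    rw [mem_EdT_61] at hj
    rw [gQ j hj.1.1, gQ _ hj.1.2.2]
  have sB : ∀ j ∈ EdT p M Λ, G (κ j) + G (p (κ j)) = -(h j + h (p j)) := fun j hj => by
    have hj' := mem_EdT_61.1 hj
    have adj : Ad p j (p j) := Or.inl ⟨hj'.1.2.1, rfl⟩
    have e1 : G (ι j) = -h j := gQι j hj'.1.1 (by
      by_cases hjM : j ∈ M
      · exact Or.inl hjM
      · exact Or.inr fun hf => hFd _ (hj'.2.resolve_left hjM) _ hf (Ad_symm_61 adj))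
    have e2 : G (ι (p j)) = -h (p j) := gQι _ hj'.1.2.2 (by
      by_cases hjM : p j ∈ M
      · exact Or.inl hjM
      · exact Or.inr fun hf => hFd _ (hj'.2.resolve_right hjM) _ hf adj)
    rcases hκ2 j hj with ⟨h3, h4⟩ | ⟨h3, h4⟩
    · rw [h4, h3, e1, e2]; ring
    · rw [h4, h3, e1, e2]; ring
  have absE : ∀ i, ∀ j ∈ EdT p M Λ, (i = j ∨ i = κ j) →
      (G i + G (p i)).natAbs = (h j + h (p j)).natAbs := by
    rintro i j hj (rfl | rfl)
    · rw [sA _ hj]
    · rw [sB _ hj, Int.natAbs_neg]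
  refine ⟨G, ⟨hLabG, ?_, ?_, ?_⟩, gD 0 (mem_union_left _ (mem_union_left _ hG.z))⟩
  · intro x hx y hy hxy
    rw [mem_coe, mem_range] at hx hy
    rcases clsV_61 hG hx with hx1 | ⟨u, hu, hux⟩ <;> rcases clsV_61 hG hy with hy1 | ⟨w, hw, hwy⟩
    · rw [gD x hx1, gD y hy1] at hxy
      exact hF (mem_coe.2 hx1) (mem_coe.2 hy1) hxy
    · exfalso
      apply (hM1 w hw).2
      rw [← absV y w hw hwy, ← hxy, gD x hx1]
      exact hKL x hx1
    · exfalso
      apply (hM1 u hu).2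
      rw [← absV x u hu hux, hxy, gD y hy1]
      exact hKL y hy1
    · have h1 : (h u).natAbs = (h w).natAbs := by
        rw [← absV x u hu hux, ← absV y w hw hwy, hxy]
      have h2 : u = w := hM2 (mem_coe.2 hu) (mem_coe.2 hw) h1
      subst h2
      have h3 : h u ≠ 0 := by
        intro h4
        have h5 := (hM1 u hu).1
        rw [h4, mem_LC] at h5
        simp at h5
      rcases hux with rfl | rfl <;> rcases hwy with rfl | rfl
      · rfl
      · rw [gM _ hu, gι _ hu] at hxy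
        omega
      · rw [gM _ hu, gι _ hu] at hxy
        omega
      · rfl
  · intro i hi0 hin
    rcases clsE i (mem_Ico.2 ⟨hi0, hin⟩) with h1 | ⟨j, hj, hij⟩
    · rw [sD i h1]; exact hFS' i h1
    · apply sm_61
      rw [absE i j hj hij]
      exact (hE1 j hj).1
  · intro x hx y hy hxy
    rw [mem_coe] at hx hy
    simp only at hxy
    have hne : ∀ j ∈ EdT p M Λ, h j + h (p j) ≠ 0 := by
      intro j hj h4
      have h5 := (hE1 j hj).1
      rw [h4, mem_SC] at h5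
      simp at h5
    have hDE : ∀ x ∈ EdI p (E ∪ Λ ∪ Λ.image ι), ∀ y, ∀ j ∈ EdT p M Λ, (y = j ∨ y = κ j) →
        G x + G (p x) ≠ G y + G (p y) := by
      intro x hx y j hj hyj hxy
      have h1 := absE y j hj hyj
      rw [← hxy, sD x hx] at h1
      have h2 : F x + F (p x) ≠ 0 := by
        intro h3
        rw [h3, Int.natAbs_zero] at h1
        exact hne j hj (Int.natAbs_eq_zero.1 h1.symm)
      have h3 := hKS x hx h2
      rw [h1] at h3
      exact (hE1 j hj).2 h3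
    rcases clsE x hx with hx1 | ⟨u, hu, hux⟩ <;> rcases clsE y hy with hy1 | ⟨w, hw, hwy⟩
    · rw [sD x hx1, sD y hy1] at hxy
      exact hFS (mem_coe.2 hx1) (mem_coe.2 hy1) hxy
    · exact absurd hxy (hDE x hx1 y w hw hwy)
    · exact absurd hxy.symm (hDE y hy1 x u hu hux)
    · have h1 : (h u + h (p u)).natAbs = (h w + h (p w)).natAbs := by
        rw [← absE x u hu hux, ← absE y w hw hwy, hxy]
      have h2 : u = w := hE2 (mem_coe.2 hu) (mem_coe.2 hw) h1
      subst h2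
      have h3 := hne u hu
      rcases hux with rfl | rfl <;> rcases hwy with rfl | rfl
      · rfl
      · rw [sA _ hu, sB _ hu] at hxy
        omega
      · rw [sA _ hu, sB _ hu] at hxy
        omega
      · rfl

private theorem nodup_map_61 {A : Finset ℕ} {f : ℕ → ℕ} {L : Finset ℕ} (h : A.val.map f = L.val) :
    Set.InjOn f A ∧ (∀ v ∈ A, f v ∈ L) ∧ A.card = L.card := by
  refine ⟨?_, ?_, ?_⟩
  · intro x hx y hy hxy
    have h1 : (A.val.map f).Nodup := by rw [h]; exact L.nodup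
    exact Multiset.inj_on_of_nodup_map h1 x (mem_coe.1 hx) y (mem_coe.1 hy) hxy
  · intro v hv
    have h1 : f v ∈ A.val.map f := Multiset.mem_map_of_mem f hv
    rw [h] at h1
    exact h1
  · have h1 := congrArg Multiset.card h
    rw [Multiset.card_map] at h1
    exact h1

theorem core {n D K e Jc a b c : ℕ} {p ι : ℕ → ℕ} {E Bd CN Cl Rs Mn T U Fl Fd CO : Finset ℕ} {P En : ℕ → Finset ℕ}
    {cv cw q : ℕ → ℕ} {L1 L2 : List (ℤ × ℤ)}
    (he : e = 1 ∨ e = 2) (hD : 2 ≤ D) (hn2 : Even n) (hn : 2 ≤ n) (hq : Mods D q)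
    (hT : Twin n D p ι E Bd (QQ Bd CN Cl Rs Mn)) (hdv : Dvs n D K p Bd CN Cl Rs Mn T P En)
    (hcv : Cvs Jc p (QQ Bd CN Cl Rs Mn) Rs cv cw)
    (hU : U ⊆ T) (W Λ : Finset ℕ) (hW : W = CN ∪ Rs ∪ U.biUnion P) (hΛ : Λ = Bd ∪ (Cl \ Fl) ∪ (T \ U).biUnion P)
    (hFl : Fl ⊆ Cl) (hCO : CO ⊆ Cl \ Fl) (hFln : ∀ v ∈ Fl, ∀ w, w < n → Ad p v w → w ∈ CO ∪ Fl)
    (hFlc : Fl.card = L1.length + 2 * L2.length)
    (hFd : Fd ⊆ Cl \ Fl) (hFdn : ∀ v ∈ Fd, ∀ w ∈ QQ Bd CN Cl Rs Mn, Ad p v w → w ∈ Cl \ Fl) (hFdCO : Disjoint Fd CO)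
    (F : ℕ → ℤ) (hF : Set.InjOn F (E ∪ Λ ∪ Λ.image ι : Finset ℕ)) (hFL : ∀ v ∈ E ∪ Λ ∪ Λ.image ι, F v ∈ Lab n)
    (hFS : Set.InjOn (fun i => F i + F (p i)) (EdI p (E ∪ Λ ∪ Λ.image ι)))
    (hFS' : ∀ i ∈ EdI p (E ∪ Λ ∪ Λ.image ι), F i + F (p i) ∈ Sm n)
    (hbal : ∀ v ∈ Λ, v ∉ Fd → F (ι v) = -F v)
    (y : ℕ → ℤ) (hy : ∀ w ∈ CN, |y w| ≤ 2 * c) (hΛb : ∀ v ∈ Λ, ∀ w ∈ CN, Ad p v w → |F v + y w| ≤ n - 2 * c)
    (KL KS X' S' Lc Sc : Finset ℕ)
    (hKL : ∀ v ∈ E ∪ Λ ∪ Λ.image ι, (F v).natAbs ∈ KL) (hKL2 : 2 * KL.card = (E ∪ Λ ∪ Λ.image ι).card)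
    (hKS : ∀ i ∈ EdI p (E ∪ Λ ∪ Λ.image ι), F i + F (p i) ≠ 0 → (F i + F (p i)).natAbs ∈ KS)
    (hKS2 : 2 * KS.card + 1 = (EdI p (E ∪ Λ ∪ Λ.image ι)).card)
    (hLC : LC n = KL ∪ X' ∪ FXs n D q ∪ Lc) (hLC1 : Disjoint KL X') (hLC2 : Disjoint (KL ∪ X') (FXs n D q))
    (hLC3 : Disjoint (KL ∪ X' ∪ FXs n D q) Lc)
    (hSC : SC n = KS ∪ S' ∪ FSs n D e q ∪ Sc) (hSC1 : Disjoint KS S') (hSC2 : Disjoint (KS ∪ S') (FSs n D e q))
    (hSC3 : Disjoint (KS ∪ S' ∪ FSs n D e q) Sc)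
    (haF : a ≤ (FXs n D q).card) (hbF : b ≤ (FSs n D e q).card)
    (habs : ∀ F' ⊆ FXs n D q, F'.card = a → ∀ G' ⊆ FSs n D e q, G'.card = b → Abs e L1 L2 (Lc ∪ F') (Sc ∪ G'))
    (hext : ∀ L S : Finset ℕ, Abs e L1 L2 L S → ∃ g' : ℕ → ℤ, (∀ v, v ∉ Fl → g' v = F v) ∧ (∀ v ∈ Fl, Odd (g' v)) ∧
        Fl.val.map (fun v => (g' v).natAbs) = L.val ∧
        (EdT p Fl CO).val.map (fun i => (g' i + g' (p i)).natAbs) = S.val)
    (iL iS : ℕ → ℕ) (hiL : Set.InjOn iL X') (hiS : Set.InjOn iS S') (hiLJ : ∀ x ∈ X', iL x < Jc)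
    (hiSJ : ∀ s ∈ S', iS s < Jc) (hdis : ∀ x ∈ X', ∀ s ∈ S', iL x ≠ iS s)
    (ρ : ℕ → ℤ) (hρΛ : ∀ v ∈ Λ, v ∉ Fd → F v ≡ ρ v [ZMOD (2 * e : ℕ)]) (hρW : ∀ v ∈ W, Odd (ρ v))
    (hρ : ∀ i ∈ EdT p W Λ, (∀ s ∈ S', i ≠ cw (iS s)) → ρ i + ρ (p i) ≡ 0 [ZMOD (2 * e : ℕ)])
    (hρS : ∀ s ∈ S', ρ (cw (iS s)) + ρ (cv (iS s)) ≡ s [ZMOD (2 * e : ℕ)])
    (hc : 10 * c ≤ n) (hcap : qM D e q * q (D + 1) * (100 * (D + 1) ^ 2 * (W.card + 1)) ≤ c) :
    ∃ F' : ℕ → ℤ, IsCL n p F' ∧ F' 0 = F 0 := by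
  classical
  -- the sets
  have hPU : U.biUnion P ⊆ Mn := by
    rw [hdv.Mn_eq]; exact biUnion_subset_biUnion_of_subset_left _ hU
  have hPT : (T \ U).biUnion P ⊆ Mn := by
    rw [hdv.Mn_eq]; exact biUnion_subset_biUnion_of_subset_left _ sdiff_subset
  have hMn : Mn = U.biUnion P ∪ (T \ U).biUnion P := by
    refine Subset.antisymm ?_ (union_subset hPU hPT)
    intro x hx
    rw [hdv.Mn_eq, mem_biUnion] at hx
    obtain ⟨t, ht, hxt⟩ := hx
    by_cases htU : t ∈ U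
    · exact mem_union_left _ (mem_biUnion.2 ⟨t, htU, hxt⟩)
    · exact mem_union_right _ (mem_biUnion.2 ⟨t, mem_sdiff.2 ⟨ht, htU⟩, hxt⟩)
  have dPP : Disjoint (U.biUnion P) ((T \ U).biUnion P) := by
    rw [disjoint_left]
    intro x hx hx'
    obtain ⟨t, ht, hxt⟩ := mem_biUnion.1 hx
    obtain ⟨t', ht', hxt'⟩ := mem_biUnion.1 hx'
    rw [mem_sdiff] at ht'
    have hne : t ≠ t' := fun h => ht'.2 (h ▸ ht)
    exact disjoint_left.1 (hdv.dj t (hU ht) t' ht'.1 hne) hxt hxt'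
  have dBC := hdv.d1
  have d2 := disjoint_union_left.1 hdv.d2
  have d3 := disjoint_union_left.1 hdv.d3
  have d3' := disjoint_union_left.1 d3.1
  have d4 := disjoint_union_left.1 hdv.d4
  have d4' := disjoint_union_left.1 d4.1
  have d4'' := disjoint_union_left.1 d4'.1
  -- d2.1 : Bd Cl, d2.2 : CN Cl, d3'.1 : Bd Rs, d3'.2 : CN Rs, d3.2 : Cl Rs,
  -- d4''.1 : Bd Mn, d4''.2 : CN Mn, d4'.2 : Cl Mn, d4.2 : Rs Mn
  set M : Finset ℕ := W ∪ Fl with hM
  have dWFl : Disjoint W Fl := by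
    rw [hW, disjoint_union_left, disjoint_union_left]
    exact ⟨⟨d2.2.mono_right hFl, d3.2.symm.mono_right hFl⟩, (d4'.2.symm.mono hPU hFl)⟩
  have hClF : Cl \ Fl ⊆ Cl := sdiff_subset
  have dWΛ : Disjoint W Λ := by
    rw [hW, hΛ]
    simp only [disjoint_union_left, disjoint_union_right]
    exact ⟨⟨⟨⟨dBC.symm, d3'.1.symm⟩, (d4''.1.mono_right hPU).symm⟩,
      ⟨⟨d2.2.mono_right hClF, d3.2.symm.mono_right hClF⟩, d4'.2.symm.mono hPU hClF⟩⟩,
      ⟨⟨d4''.2.mono_right hPT, d4.2.mono_right hPT⟩, dPP⟩⟩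
  have dFlΛ : Disjoint Fl Λ := by
    rw [hΛ]
    simp only [disjoint_union_right]
    exact ⟨⟨(d2.1.mono_right hFl).symm, disjoint_sdiff⟩, d4'.2.mono hFl hPT⟩
  have dMΛ : Disjoint M Λ := by
    rw [hM, disjoint_union_left]; exact ⟨dWΛ, dFlΛ⟩
  have dMB : Disjoint M Bd := by
    rw [hM, hW]
    simp only [disjoint_union_left]
    exact ⟨⟨⟨dBC.symm, d3'.1.symm⟩, (d4''.1.mono_right hPU).symm⟩, (d2.1.mono_right hFl).symm⟩
  have dWCl : Disjoint W Cl := by
    rw [hW]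
    simp only [disjoint_union_left]
    exact ⟨⟨d2.2, d3.2.symm⟩, (d4'.2.symm.mono_left hPU)⟩
  have hQ : QQ Bd CN Cl Rs Mn = M ∪ Λ := by
    unfold QQ
    rw [hM, hW, hΛ, hMn]
    ext x
    simp only [mem_union, mem_sdiff]
    constructor
    · rintro ((((h | h) | h) | h) | h | h)
      · right; left; left; exact h
      · left; left; left; left; exact h
      · by_cases hx : x ∈ Fl
        · left; right; exact hx
        · right; left; right; exact ⟨h, hx⟩
      · left; left; left; right; exact h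
      · left; left; right; exact h
      · right; right; exact h
    · rintro ((((h | h) | h) | h) | (h | h) | h)
      · left; left; left; right; exact h
      · left; right; exact h
      · right; left; exact h
      · left; left; right; exact hFl h
      · left; left; left; left; exact h
      · left; left; right; exact h.1
      · right; right; exact h
  have hClΛ : Cl \ Fl ⊆ Λ := by
    rw [hΛ]; exact subset_union_right.trans subset_union_left
  have hCOΛ : CO ⊆ Λ := hCO.trans hClΛ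
  have hFdΛ : Fd ⊆ Λ := hFd.trans hClΛ
  have hG : Geo_61 n p ι E M Λ := by
    rw [hQ] at hT
    refine ⟨hT.par, hT.zE, hT.cov, dMΛ, hT.EQ, fun v hv => ⟨(hT.ιn v hv).2.1, (hT.ιn v hv).2.2⟩, hT.ιinj,
      hT.tw, hT.cr, fun v hv w hw => hT.inner v (mem_union_left _ hv) (disjoint_left.1 dMB hv) w hw⟩
  have hFdM : ∀ v ∈ M, ∀ w ∈ Fd, ¬ Ad p v w := by
    intro v hv w hw hvw
    have h1 := hFdn w hw v (by rw [hQ]; exact mem_union_left _ hv) (Ad_symm_61 hvw)
    exact disjoint_left.1 dMΛ hv (hClΛ h1)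
  -- step 1
  have hEdT1 : EdT p W (Λ \ Fd) = EdT p W Λ := by
    ext i
    rw [mem_EdT_61, mem_EdT_61]
    constructor
    · rintro ⟨⟨h1, h2, h3⟩, h4⟩
      exact ⟨⟨union_subset_union_right sdiff_subset h1, h2, union_subset_union_right sdiff_subset h3⟩, h4⟩
    · rintro ⟨⟨h1, h2, h3⟩, h4⟩
      have adj : Ad p i (p i) := Or.inl ⟨h2, rfl⟩
      have k1 : i ∉ Fd := by
        intro hi
        have hiW : i ∉ W := fun h => disjoint_left.1 dWΛ h (hFdΛ hi)
        exact hFdM _ (mem_union_left _ (h4.resolve_left hiW)) i hi (Ad_symm_61 adj)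
      have k2 : p i ∉ Fd := by
        intro hi
        have hiW : p i ∉ W := fun h => disjoint_left.1 dWΛ h (hFdΛ hi)
        exact hFdM _ (mem_union_left _ (h4.resolve_right hiW)) _ hi adj
      refine ⟨⟨?_, h2, ?_⟩, h4⟩
      · rcases mem_union.1 h1 with h | h
        · exact mem_union_left _ h
        · exact mem_union_right _ (mem_sdiff.2 ⟨h, k1⟩)
      · rcases mem_union.1 h3 with h | h
        · exact mem_union_left _ h
        · exact mem_union_right _ (mem_sdiff.2 ⟨h, k2⟩)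
  have hΛD : ∀ v ∈ Λ, v ∈ E ∪ Λ ∪ Λ.image ι := fun v hv => mem_union_left _ (mem_union_right _ hv)
  obtain ⟨g, g1, g2, g3, g4, g5, g6, g7⟩ := fill (Fl := Fl ∪ Fd) he hD hn2 hq hT.par hT.Qn hT.deg hdv hcv hU
    (union_subset hFl (hFd.trans hClF)) (by
      intro v hv w hw hvw
      rcases mem_union.1 hv with hv | hv
      · have hwn : w < n := by
          have h1 : w ∈ QQ Bd CN Cl Rs Mn := by
            rw [hQ, hM, hW]
            exact mem_union_left _ (mem_union_left _ (mem_union_left _ (mem_union_left _ hw)))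
          exact mem_range.1 (hT.Qn h1)
        have h2 := hFln v hv w hwn hvw
        have h3 : w ∈ Cl := by
          rcases mem_union.1 h2 with h2 | h2
          · exact hClF (hCO h2)
          · exact hFl h2
        exact disjoint_left.1 d2.2 hw h3
      · have h1 := hFdn v hv w (by
            rw [hQ, hM, hW]
            exact mem_union_left _ (mem_union_left _ (mem_union_left _ (mem_union_left _ hw)))) hvw
        exact disjoint_left.1 d2.2 hw (hClF h1))
    W (Λ \ Fd) hW (by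
      rw [hΛ]
      ext x
      simp only [mem_union, mem_sdiff]
      constructor
      · rintro ⟨(h | h) | h, h'⟩
        · left; left; exact h
        · left; right; exact ⟨h.1, fun h2 => h2.elim h.2 h'⟩
        · right; exact h
      · rintro ((h | h) | h)
        · exact ⟨Or.inl (Or.inl h), fun h2 => disjoint_left.1 d2.1 h (hClF (hFd h2))⟩
        · exact ⟨Or.inl (Or.inr ⟨h.1, fun h2 => h.2 (Or.inl h2)⟩), fun h2 => h.2 (Or.inr h2)⟩
        · exact ⟨Or.inr h, fun h2 => disjoint_left.1 d4'.2 (hClF (hFd h2)) (hPT h)⟩)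
    F (by
      intro v hv w hw hvw
      rw [mem_coe, mem_sdiff] at hv hw
      simp only at hvw
      rcases Int.natAbs_eq_natAbs_iff.1 hvw with h1 | h1
      · exact hF (mem_coe.2 (hΛD v hv.1)) (mem_coe.2 (hΛD w hw.1)) h1
      · exfalso
        rw [← hbal w hw.1 hw.2] at h1
        have h2 := hF (mem_coe.2 (hΛD v hv.1)) (mem_coe.2 (mem_union_right _ (mem_image_of_mem _ hw.1))) h1
        exact (hG.dι w (mem_union_right _ hw.1)).1 (h2 ▸ mem_union_right _ hv.1))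
    (fun v hv => (mem_Lab.1 (hFL v (hΛD v (mem_sdiff.1 hv).1))).2)
    y hy (fun v hv w hw hvw => hΛb v (mem_sdiff.1 hv).1 w hw hvw)
    X' S' (by rw [hLC]; exact (subset_union_right.trans subset_union_left).trans subset_union_left)
    (by rw [hSC]; exact (subset_union_right.trans subset_union_left).trans subset_union_left)
    (disjoint_union_left.1 hLC2).2 (disjoint_union_left.1 hSC2).2 (by
      intro v hv h1
      have h2 := hKL v (hΛD v (mem_sdiff.1 hv).1)
      rcases mem_union.1 h1 with h1 | h1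
      · exact disjoint_left.1 hLC1 h2 h1
      · exact disjoint_left.1 hLC2 (mem_union_left _ h2) h1)
    iL iS hiL hiS hiLJ hiSJ hdis ρ (fun v hv => hρΛ v (mem_sdiff.1 hv).1 (mem_sdiff.1 hv).2) hρW
    (by rw [hEdT1]; exact hρ) hρS hc hcap
  rw [hEdT1] at g5 g6
  -- step 2: the counts
  have hMcard : M.card = W.card + Fl.card := by
    rw [hM, card_union_of_disjoint dWFl]
  have hEM : EdT p M Λ = EdT p W Λ ∪ EdT p Fl CO := by
    ext i
    rw [mem_union, mem_EdT_61, mem_EdT_61, mem_EdT_61]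
    constructor
    · rintro ⟨⟨h1, h2, h3⟩, h4⟩
      have adj : Ad p i (p i) := Or.inl ⟨h2, rfl⟩
      have l1 : i < n := (lt_n_61 hG h1).1
      have l2 : p i < n := (lt_n_61 hG h3).1
      by_cases k1 : i ∈ Fl
      · right
        have h5 := hFln i k1 _ l2 adj
        rw [union_comm] at h5
        exact ⟨⟨mem_union_left _ k1, h2, h5⟩, Or.inl k1⟩
      · by_cases k2 : p i ∈ Fl
        · right
          have h5 := hFln _ k2 _ l1 (Ad_symm_61 adj)
          rw [union_comm] at h5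
          exact ⟨⟨h5, h2, mem_union_left _ k2⟩, Or.inr k2⟩
        · left
          have key : ∀ x, x ∉ Fl → x ∈ M → x ∈ W := fun x hx hxM =>
            (mem_union.1 hxM).resolve_right hx
          have key2 : ∀ x, x ∉ Fl → x ∈ M ∪ Λ → x ∈ W ∪ Λ := fun x hx hxM => by
            rcases mem_union.1 hxM with h | h
            · exact mem_union_left _ (key x hx h)
            · exact mem_union_right _ h
          refine ⟨⟨key2 _ k1 h1, h2, key2 _ k2 h3⟩, ?_⟩
          rcases h4 with h4 | h4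
          · exact Or.inl (key _ k1 h4)
          · exact Or.inr (key _ k2 h4)
    · rintro (⟨⟨h1, h2, h3⟩, h4⟩ | ⟨⟨h1, h2, h3⟩, h4⟩)
      · have hs : W ∪ Λ ⊆ M ∪ Λ := union_subset_union_left subset_union_left
        refine ⟨⟨hs h1, h2, hs h3⟩, ?_⟩
        rcases h4 with h4 | h4
        · exact Or.inl (mem_union_left _ h4)
        · exact Or.inr (mem_union_left _ h4)
      · have hs : Fl ∪ CO ⊆ M ∪ Λ := union_subset_union subset_union_right hCOΛ
        refine ⟨⟨hs h1, h2, hs h3⟩, ?_⟩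
        rcases h4 with h4 | h4
        · exact Or.inl (mem_union_right _ h4)
        · exact Or.inr (mem_union_right _ h4)
  have hFlCO : Fl ∪ CO ⊆ Cl := union_subset hFl (hCO.trans hClF)
  have dEE : Disjoint (EdT p W Λ) (EdT p Fl CO) := by
    rw [disjoint_left]
    intro i h1 h2
    rw [mem_EdT_61] at h1 h2
    rcases h1.2 with h3 | h3
    · exact disjoint_left.1 dWCl h3 (hFlCO h2.1.1)
    · exact disjoint_left.1 dWCl h3 (hFlCO h2.1.2.2)
  have hEcard : (EdT p M Λ).card = (EdT p W Λ).card + (EdT p Fl CO).card := by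
    rw [hEM, card_union_of_disjoint dEE]
  have cV := cardV_61 hG
  have cE := cardE_61 hG (by omega)
  have cLC := card_LC_61 hn2
  have cSC := card_SC_61 hn2 hn
  rw [hLC, card_union_of_disjoint hLC3, card_union_of_disjoint hLC2, card_union_of_disjoint hLC1] at cLC
  rw [hSC, card_union_of_disjoint hSC3, card_union_of_disjoint hSC2, card_union_of_disjoint hSC1] at cSC
  set IX : Finset ℕ := W.image fun v => (g v).natAbs with hIX
  set IS : Finset ℕ := (EdT p W Λ).image fun i => (g i + g (p i)).natAbs with hIS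
  have cIX : IX.card = W.card :=
    card_image_of_injOn (g3.mono (by exact_mod_cast subset_union_left))
  have cIS : IS.card = (EdT p W Λ).card := card_image_of_injOn g6
  have hRW : Rs ⊆ W := by
    rw [hW]; exact subset_union_right.trans subset_union_left
  have eIX : IX = X' ∪ (FXs n D q ∩ IX) := by
    ext x
    rw [mem_union, mem_inter]
    constructor
    · intro hx
      obtain ⟨v, hv, hvx⟩ := mem_image.1 hx
      have h1 := (g2 v hv).2
      rw [hvx] at h1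
      rcases mem_union.1 h1 with h1 | h1
      · exact Or.inl h1
      · exact Or.inr ⟨h1, hx⟩
    · rintro (hx | hx)
      · exact mem_image.2 ⟨cv (iL x), hRW (hcv.mem _ (hiLJ x hx)).1, g4 x hx⟩
      · exact hx.2
  have eIS : IS = S' ∪ (FSs n D e q ∩ IS) := by
    ext s
    rw [mem_union, mem_inter]
    constructor
    · intro hs
      obtain ⟨i, hi, his⟩ := mem_image.1 hs
      have h1 := g5 i hi
      rw [his] at h1
      rcases mem_union.1 h1 with h1 | h1
      · exact Or.inl h1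
      · exact Or.inr ⟨h1, hs⟩
    · rintro (hs | hs)
      · have h1 := hcv.mem _ (hiSJ s hs)
        refine mem_image.2 ⟨cw (iS s), mem_EdT_61.2 ⟨⟨mem_union_left _ (hRW h1.2.1), h1.2.2.1, ?_⟩,
          Or.inl (hRW h1.2.1)⟩, ?_⟩
        · rw [h1.2.2.2]; exact mem_union_left _ (hRW h1.1)
        · rw [h1.2.2.2, g7 s hs]
          exact Int.natAbs_natCast s
      · exact hs.2
  have dX1 : Disjoint X' (FXs n D q ∩ IX) := (disjoint_union_left.1 hLC2).2.mono_right inter_subset_left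
  have dS1 : Disjoint S' (FSs n D e q ∩ IS) := (disjoint_union_left.1 hSC2).2.mono_right inter_subset_left
  have cX1 := congrArg Finset.card eIX
  rw [card_union_of_disjoint dX1] at cX1
  have cS1 := congrArg Finset.card eIS
  rw [card_union_of_disjoint dS1] at cS1
  have cX2 := card_sdiff_add_card_inter (FXs n D q) IX
  have cS2 := card_sdiff_add_card_inter (FSs n D e q) IS
  -- the sizes of `Fl` and of `EdT p Fl CO`
  have dLF : ∀ F' ⊆ FXs n D q, Disjoint Lc F' := fun F' hF' =>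
    ((disjoint_union_left.1 hLC3).2.mono_left hF').symm
  have dSG : ∀ G' ⊆ FSs n D e q, Disjoint Sc G' := fun G' hG' =>
    ((disjoint_union_left.1 hSC3).2.mono_left hG').symm
  obtain ⟨F0, hF0, hF0c⟩ := exists_subset_card_eq haF
  obtain ⟨G0, hG0, hG0c⟩ := exists_subset_card_eq hbF
  have hA0 := habs F0 hF0 hF0c G0 hG0 hG0c
  obtain ⟨g0', -, -, k1, k2⟩ := hext _ _ hA0
  have cFl := (nodup_map_61 k1).2.2
  have cFE := (nodup_map_61 k2).2.2
  rw [card_union_of_disjoint (dLF F0 hF0), hF0c] at cFl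
  rw [card_union_of_disjoint (dSG G0 hG0), hG0c] at cFE
  have cF' : (FXs n D q \ IX).card = a := by omega
  have cG' : (FSs n D e q \ IS).card = b := by omega
  -- step 3
  obtain ⟨g', m1, m2, m3, m4⟩ := hext _ _ (habs _ sdiff_subset cF' _ sdiff_subset cG')
  have m3' := nodup_map_61 m3
  have m4' := nodup_map_61 m4
  -- step 4
  set h : ℕ → ℤ := fun v => if v ∈ Fl then g' v else g v with hh
  have hFlv : ∀ v ∈ Fl, h v = g' v := fun v hv => by
    simp only [hh]; rw [if_pos hv]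
  have hnFl : ∀ v, v ∉ Fl → h v = g v := fun v hv => by
    simp only [hh]; rw [if_neg hv]
  have hWv : ∀ v ∈ W, h v = g v := fun v hv => hnFl v (disjoint_left.1 dWFl hv)
  have hΛv : ∀ v ∈ Λ, h v = F v := fun v hv => by
    rw [hnFl v (disjoint_right.1 dFlΛ hv), g1 v (disjoint_right.1 dWΛ hv)]
  have sW : ∀ i ∈ EdT p W Λ, h i + h (p i) = g i + g (p i) := by
    intro i hi
    rw [mem_EdT_61] at hi
    have key : ∀ x ∈ W ∪ Λ, x ∉ Fl := by
      intro x hx
      rcases mem_union.1 hx with hx | hx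
      · exact disjoint_left.1 dWFl hx
      · exact disjoint_right.1 dFlΛ hx
    rw [hnFl _ (key _ hi.1.1), hnFl _ (key _ hi.1.2.2)]
  have sF : ∀ i ∈ EdT p Fl CO, h i + h (p i) = g' i + g' (p i) := by
    intro i hi
    rw [mem_EdT_61] at hi
    have key : ∀ x ∈ Fl ∪ CO, h x = g' x := by
      intro x hx
      rcases mem_union.1 hx with hx | hx
      · exact hFlv x hx
      · rw [hΛv x (hCOΛ hx), m1 x (disjoint_right.1 dFlΛ (hCOΛ hx))]
    rw [key _ hi.1.1, key _ hi.1.2.2]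
  -- the classes
  have q1 : ∀ x ∈ X' ∪ FXs n D q, x ∈ LC n ∧ x ∉ KL ∧ x ∉ Lc := by
    intro x hx
    refine ⟨?_, ?_, ?_⟩
    · rw [hLC]
      rcases mem_union.1 hx with hx | hx
      · exact mem_union_left _ (mem_union_left _ (mem_union_right _ hx))
      · exact mem_union_left _ (mem_union_right _ hx)
    · intro h1
      rcases mem_union.1 hx with hx | hx
      · exact disjoint_left.1 hLC1 h1 hx
      · exact disjoint_left.1 hLC2 (mem_union_left _ h1) hx
    · intro h1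
      rcases mem_union.1 hx with hx | hx
      · exact disjoint_right.1 hLC3 h1 (mem_union_left _ (mem_union_right _ hx))
      · exact disjoint_right.1 hLC3 h1 (mem_union_right _ hx)
  have q2 : ∀ x ∈ Lc ∪ (FXs n D q \ IX), x ∈ LC n ∧ x ∉ KL ∧ (x ∈ Lc ∨ x ∉ IX) := by
    intro x hx
    rcases mem_union.1 hx with hx | hx
    · refine ⟨?_, ?_, Or.inl hx⟩
      · rw [hLC]; exact mem_union_right _ hx
      · intro h1
        exact disjoint_right.1 hLC3 hx (mem_union_left _ (mem_union_left _ h1))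
    · have h1 := q1 x (mem_union_right _ (mem_sdiff.1 hx).1)
      exact ⟨h1.1, h1.2.1, Or.inr (mem_sdiff.1 hx).2⟩
  have r1 : ∀ x ∈ S' ∪ FSs n D e q, x ∈ SC n ∧ x ∉ KS ∧ x ∉ Sc := by
    intro x hx
    refine ⟨?_, ?_, ?_⟩
    · rw [hSC]
      rcases mem_union.1 hx with hx | hx
      · exact mem_union_left _ (mem_union_left _ (mem_union_right _ hx))
      · exact mem_union_left _ (mem_union_right _ hx)
    · intro h1
      rcases mem_union.1 hx with hx | hx
      · exact disjoint_left.1 hSC1 h1 hx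
      · exact disjoint_left.1 hSC2 (mem_union_left _ h1) hx
    · intro h1
      rcases mem_union.1 hx with hx | hx
      · exact disjoint_right.1 hSC3 h1 (mem_union_left _ (mem_union_right _ hx))
      · exact disjoint_right.1 hSC3 h1 (mem_union_right _ hx)
  have r2 : ∀ x ∈ Sc ∪ (FSs n D e q \ IS), x ∈ SC n ∧ x ∉ KS ∧ (x ∈ Sc ∨ x ∉ IS) := by
    intro x hx
    rcases mem_union.1 hx with hx | hx
    · refine ⟨?_, ?_, Or.inl hx⟩
      · rw [hSC]; exact mem_union_right _ hx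
      · intro h1
        exact disjoint_right.1 hSC3 hx (mem_union_left _ (mem_union_left _ h1))
    · have h1 := r1 x (mem_union_right _ (mem_sdiff.1 hx).1)
      exact ⟨h1.1, h1.2.1, Or.inr (mem_sdiff.1 hx).2⟩
  refine assemble_61 hG F hF hFL hFS hFS' hbal hFdM h hΛv KL KS hKL hKS ?_ ?_ ?_ ?_
  · intro v hv
    rcases mem_union.1 hv with hv | hv
    · rw [hWv v hv]
      have h1 := q1 _ (g2 v hv).2
      exact ⟨h1.1, h1.2.1⟩
    · rw [hFlv v hv]
      have h1 := q2 _ (m3'.2.1 v hv)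
      exact ⟨h1.1, h1.2.1⟩
  · have cross : ∀ v ∈ W, ∀ w ∈ Fl, (h v).natAbs ≠ (h w).natAbs := by
      intro v hv w hw hvw
      rw [hWv v hv, hFlv w hw] at hvw
      have h1 := (q1 _ (g2 v hv).2).2.2
      rcases (q2 _ (m3'.2.1 w hw)).2.2 with h2 | h2
      · exact h1 (hvw ▸ h2)
      · rw [← hvw] at h2
        exact h2 (mem_image_of_mem _ hv)
    intro v hv w hw hvw
    rw [mem_coe, hM] at hv hw
    simp only at hvw
    rcases mem_union.1 hv with hv1 | hv1 <;> rcases mem_union.1 hw with hw1 | hw1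
    · rw [hWv v hv1, hWv w hw1] at hvw
      exact g3 (mem_coe.2 (mem_union_left _ hv1)) (mem_coe.2 (mem_union_left _ hw1)) hvw
    · exact absurd hvw (cross v hv1 w hw1)
    · exact absurd hvw.symm (cross w hw1 v hv1)
    · rw [hFlv v hv1, hFlv w hw1] at hvw
      exact m3'.1 (mem_coe.2 hv1) (mem_coe.2 hw1) hvw
  · intro i hi
    rw [hEM] at hi
    rcases mem_union.1 hi with hi | hi
    · rw [sW i hi]
      have h1 := r1 _ (g5 i hi)
      exact ⟨h1.1, h1.2.1⟩
    · rw [sF i hi]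
      have h1 := r2 _ (m4'.2.1 i hi)
      exact ⟨h1.1, h1.2.1⟩
  · have cross : ∀ i ∈ EdT p W Λ, ∀ j ∈ EdT p Fl CO, (h i + h (p i)).natAbs ≠ (h j + h (p j)).natAbs := by
      intro i hi j hj hij
      rw [sW i hi, sF j hj] at hij
      have h1 := (r1 _ (g5 i hi)).2.2
      rcases (r2 _ (m4'.2.1 j hj)).2.2 with h2 | h2
      · exact h1 (hij ▸ h2)
      · rw [← hij] at h2
        exact h2 (mem_image_of_mem _ hi)
    intro i hi j hj hij
    rw [mem_coe, hEM] at hi hj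
    simp only at hij
    rcases mem_union.1 hi with hi1 | hi1 <;> rcases mem_union.1 hj with hj1 | hj1
    · rw [sW i hi1, sW j hj1] at hij
      exact g6 (mem_coe.2 hi1) (mem_coe.2 hj1) hij
    · exact absurd hij (cross i hi1 j hj1)
    · exact absurd hij.symm (cross j hj1 i hi1)
    · rw [sF i hi1, sF j hj1] at hij
      exact m4'.1 (mem_coe.2 hi1) (mem_coe.2 hj1) hij

end Pool.Agent.BD
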