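import Pool.Agent.Helper73.BD.DD

/-!
# BD-D1: the site covering four given sums

Proof in words.  `c ∈ [b, 2b]` odd (with `pick`, modulus 2), `x = p1 - c`, `y = -p3 - c`, `c2 = p2 - y = c + p2 + p3`; then `-c2 - x = -(p1+p2+p3) = p4`.
`x + y = p1 - p3 - 2c`.  Each of the conditions `|c|, |x|, |y|, |c2| ∉ UX` excludes at most `2|UX|` values, `|x+y| ∉ US` at most `2|US|`, `x + y ≠ 0` and `|x+y| ≠ |p i|` at most 9; two of the affine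
functions `c, x, y, c2` of `c` have the same absolute value for at most one `c` each: the identities would be `p1 = 0`, `p2 = 0`, `p3 = 0`, `p4 = 0`, `p1 + p3 = 0` (`x = y`), `p2 + p3 = 0` (`c2 = c`).
-/

set_option autoImplicit false

namespace Pool.Agent.BD

open Finset Pool.Agent.SEM

theorem four {b : ℕ} {UX US : Finset ℕ} (hb : 100 * (UX.card + US.card + 100) ≤ b) {p1 p2 p3 p4 : ℤ}
    (h1 : Even p1 ∧ p1 ≠ 0 ∧ |p1| ≤ 8 * b) (h2 : Even p2 ∧ p2 ≠ 0 ∧ |p2| ≤ 8 * b)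
    (h3 : Even p3 ∧ p3 ≠ 0 ∧ |p3| ≤ 8 * b) (h4 : p4 ≠ 0) (hs : p1 + p2 + p3 + p4 = 0)
    (h13 : p1 + p3 ≠ 0) (h23 : p2 + p3 ≠ 0) :
    ∃ c c2 x y : ℤ, Odd c ∧ Odd c2 ∧ Odd x ∧ Odd y ∧ c + x = p1 ∧ c2 + y = p2 ∧ -c - y = p3 ∧ -c2 - x = p4 ∧
      c.natAbs ∉ UX ∧ c2.natAbs ∉ UX ∧ x.natAbs ∉ UX ∧ y.natAbs ∉ UX ∧ (x + y).natAbs ∉ US ∧ x + y ≠ 0 ∧
      [c.natAbs, c2.natAbs, x.natAbs, y.natAbs].Nodup ∧
      (∀ p ∈ [p1, p2, p3, p4], (x + y).natAbs ≠ p.natAbs) ∧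
      |c| ≤ 20 * b ∧ |c2| ≤ 20 * b ∧ |x| ≤ 20 * b ∧ |y| ≤ 20 * b ∧ |x + y| ≤ 20 * b := by
  classical
  obtain ⟨e1, n1, b1⟩ := h1
  obtain ⟨e2, n2, b2⟩ := h2
  obtain ⟨e3, n3, b3⟩ := h3
  set P : ℤ → Finset ℤ := fun t => UX.image (fun u : ℕ => (u : ℤ) - t) ∪ UX.image (fun u : ℕ => -(u : ℤ) - t) with hP
  set Q : Finset ℤ := US.image (fun u : ℕ => ((u : ℤ) - (p3 - p1)) / 2) ∪
    US.image (fun u : ℕ => (-(u : ℤ) - (p3 - p1)) / 2) with hQ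
  set Rl : List ℤ := [(p1 - p3) / 2, (p1 - p3 + p1) / 2, (p1 - p3 - p1) / 2, (p1 - p3 + p2) / 2, (p1 - p3 - p2) / 2,
    (p1 - p3 + p3) / 2, (p1 - p3 - p3) / 2, (p1 - p3 + p4) / 2, (p1 - p3 - p4) / 2, -(p2 + p3) / 2, p1 / 2, -p3 / 2,
    (p1 - p2 - p3) / 2, (-p2 - 2 * p3) / 2] with hRl
  have cP : ∀ t, (P t).card ≤ 2 * UX.card := by
    intro t
    refine (card_union_le _ _).trans ?_
    have i1 := card_image_le (s := UX) (f := fun u : ℕ => (u : ℤ) - t)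
    have i2 := card_image_le (s := UX) (f := fun u : ℕ => -(u : ℤ) - t)
    omega
  have cQ : Q.card ≤ 2 * US.card := by
    refine (card_union_le _ _).trans ?_
    have i1 := card_image_le (s := US) (f := fun u : ℕ => ((u : ℤ) - (p3 - p1)) / 2)
    have i2 := card_image_le (s := US) (f := fun u : ℕ => (-(u : ℤ) - (p3 - p1)) / 2)
    omega
  have cR : Rl.toFinset.card ≤ 14 := (List.toFinset_card_le Rl).trans (by simp [hRl])
  obtain ⟨c, hc1, hc2, hc3, hc4⟩ := pick 2 (by norm_num) 1 b (2 * b)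
    (P 0 ∪ P (-p1) ∪ P p3 ∪ P (p2 + p3) ∪ Q ∪ Rl.toFinset) (by
      have u1 := card_union_le (P 0 ∪ P (-p1) ∪ P p3 ∪ P (p2 + p3) ∪ Q) Rl.toFinset
      have u2 := card_union_le (P 0 ∪ P (-p1) ∪ P p3 ∪ P (p2 + p3)) Q
      have u3 := card_union_le (P 0 ∪ P (-p1) ∪ P p3) (P (p2 + p3))
      have u4 := card_union_le (P 0 ∪ P (-p1)) (P p3)
      have u5 := card_union_le (P 0) (P (-p1))
      have v1 := cP 0
      have v2 := cP (-p1)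
      have v3 := cP p3
      have v4 := cP (p2 + p3)
      push_cast
      omega)
  simp only [mem_union, not_or] at hc4
  obtain ⟨⟨⟨⟨⟨m1, m2⟩, m3⟩, m4⟩, m5⟩, m6⟩ := hc4
  have gP : ∀ t, c ∉ P t → (c + t).natAbs ∉ UX := by
    intro t ht hm
    apply ht
    rw [hP, mem_union, mem_image, mem_image]
    rcases Int.natAbs_eq (c + t) with h | h
    · exact Or.inl ⟨_, hm, by omega⟩
    · exact Or.inr ⟨_, hm, by omega⟩
  have gR : ∀ z ∈ Rl, c ≠ z := fun z hz h => m6 (List.mem_toFinset.2 (h ▸ hz))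
  have hodd : c % 2 = 1 := by
    have h : c % 2 = 1 % 2 := hc3
    omega
  have f1 : p1 % 2 = 0 := Int.even_iff.1 e1
  have f2 : p2 % 2 = 0 := Int.even_iff.1 e2
  have f3 : p3 % 2 = 0 := Int.even_iff.1 e3
  have k0 : p1 - c + (-p3 - c) ≠ 0 := by
    have r := gR ((p1 - p3) / 2) (by simp [hRl])
    clear gR gP m1 m2 m3 m4 m5 m6 cP cQ cR b1 b2 b3 hb hc1 hc2 h4 n1 n2 n3 h13 h23
    omega
  have kp : ∀ p ∈ [p1, p2, p3, p4], (p1 - c + (-p3 - c)).natAbs ≠ p.natAbs := by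
    intro p hp
    have r : c ≠ (p1 - p3 + p) / 2 ∧ c ≠ (p1 - p3 - p) / 2 := by
      simp only [List.mem_cons, List.not_mem_nil, or_false] at hp
      rcases hp with rfl | rfl | rfl | rfl
      · exact ⟨gR _ (by simp [hRl]), gR _ (by simp [hRl])⟩
      · exact ⟨gR _ (by simp [hRl]), gR _ (by simp [hRl])⟩
      · exact ⟨gR _ (by simp [hRl]), gR _ (by simp [hRl])⟩
      · exact ⟨gR _ (by simp [hRl]), gR _ (by simp [hRl])⟩
    clear hp gR gP m1 m2 m3 m4 m5 m6 cP cQ cR b1 b2 b3 hb hc1 hc2 h4 n1 n2 n3 h13 h23 k0 hs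
    omega
  have q1 : c.natAbs ≠ (c + p2 + p3).natAbs := by
    have r := gR (-(p2 + p3) / 2) (by simp [hRl])
    clear gR gP m1 m2 m3 m4 m5 m6 cP cQ cR b1 b2 b3 hb hc1 hc2 h4 n1 n2 n3 h13 k0 kp hs
    omega
  have q2 : c.natAbs ≠ (p1 - c).natAbs := by
    have r := gR (p1 / 2) (by simp [hRl])
    clear gR gP m1 m2 m3 m4 m5 m6 cP cQ cR b1 b2 b3 hb hc1 hc2 h4 n2 n3 h13 h23 k0 kp hs q1
    omega
  have q3 : c.natAbs ≠ (-p3 - c).natAbs := by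
    have r := gR (-p3 / 2) (by simp [hRl])
    clear gR gP m1 m2 m3 m4 m5 m6 cP cQ cR b1 b2 b3 hb hc1 hc2 h4 n1 n2 h13 h23 k0 kp hs q1 q2
    omega
  have q4 : (c + p2 + p3).natAbs ≠ (p1 - c).natAbs := by
    have r := gR ((p1 - p2 - p3) / 2) (by simp [hRl])
    clear gR gP m1 m2 m3 m4 m5 m6 cP cQ cR b1 b2 b3 hb hc1 hc2 n1 n2 n3 h13 h23 k0 kp q1 q2 q3
    omega
  have q5 : (c + p2 + p3).natAbs ≠ (-p3 - c).natAbs := by
    have r := gR ((-p2 - 2 * p3) / 2) (by simp [hRl])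
    clear gR gP m1 m2 m3 m4 m5 m6 cP cQ cR b1 b2 b3 hb hc1 hc2 h4 n1 n3 h13 h23 k0 kp hs q1 q2 q3 q4
    omega
  have q6 : (p1 - c).natAbs ≠ (-p3 - c).natAbs := by
    clear gR gP m1 m2 m3 m4 m5 m6 cP cQ cR b1 b2 b3 hb hc1 hc2 h4 n1 n2 n3 h23 kp hs q1 q2 q3 q4 q5
    omega
  rw [abs_le] at b1 b2 b3
  refine ⟨c, c + p2 + p3, p1 - c, -p3 - c, ?_, ?_, ?_, ?_, ?_, ?_, ?_, ?_, ?_, ?_, ?_, ?_, ?_, k0, ?_, kp, ?_, ?_, ?_, ?_, ?_⟩
  · rw [Int.odd_iff]; exact hodd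
  · rw [Int.odd_iff]
    clear gR gP m1 m2 m3 m4 m5 m6 cP cQ cR b1 b2 b3 hb hc1 hc2 h4 n1 n2 n3 h13 h23 k0 kp hs q1 q2 q3 q4 q5 q6
    omega
  · rw [Int.odd_iff]
    clear gR gP m1 m2 m3 m4 m5 m6 cP cQ cR b1 b2 b3 hb hc1 hc2 h4 n1 n2 n3 h13 h23 k0 kp hs q1 q2 q3 q4 q5 q6
    omega
  · rw [Int.odd_iff]
    clear gR gP m1 m2 m3 m4 m5 m6 cP cQ cR b1 b2 b3 hb hc1 hc2 h4 n1 n2 n3 h13 h23 k0 kp hs q1 q2 q3 q4 q5 q6
    omega
  · ring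
  · ring
  · ring
  · linarith
  · have := gP 0 m1
    rwa [add_zero] at this
  · have := gP (p2 + p3) m4
    rwa [← add_assoc] at this
  · have h := gP (-p1) m2
    rwa [show p1 - c = -(c + -p1) by ring, Int.natAbs_neg]
  · have h := gP p3 m3
    rwa [show -p3 - c = -(c + p3) by ring, Int.natAbs_neg]
  · intro hm
    apply m5
    rw [hQ, mem_union, mem_image, mem_image]
    have hle : (p1 - c + (-p3 - c)) = p1 - p3 - 2 * c := by ring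
    rcases Int.natAbs_eq (p1 - c + (-p3 - c)) with h | h
    · refine Or.inr ⟨_, hm, ?_⟩
      rw [← h, hle]
      clear gR gP m1 m2 m3 m4 m5 m6 cP cQ cR b1 b2 b3 hb hc1 hc2 h4 n1 n2 n3 h13 h23 k0 kp hs q1 q2 q3 q4 q5 q6 h hm
      omega
    · refine Or.inl ⟨_, hm, ?_⟩
      have h' : ((p1 - c + (-p3 - c)).natAbs : ℤ) = -(p1 - c + (-p3 - c)) := by rw [h, Int.natAbs_neg, Int.natAbs_natCast, neg_neg]
      rw [h', hle]
      clear gR gP m1 m2 m3 m4 m5 m6 cP cQ cR b1 b2 b3 hb hc1 hc2 h4 n1 n2 n3 h13 h23 k0 kp hs q1 q2 q3 q4 q5 q6 h hm h'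
      omega
  · simp only [List.nodup_cons, List.mem_cons, List.not_mem_nil, or_false, not_or, not_false_eq_true, List.nodup_nil,
      and_true]
    exact ⟨⟨q1, q2, q3⟩, ⟨q4, q5⟩, q6⟩
  all_goals
    clear gR gP m1 m2 m3 m4 m5 m6 cP cQ cR h4 n1 n2 n3 h13 h23 k0 kp hs q1 q2 q3 q4 q5 q6 hb
    rw [abs_le]
    constructor <;> linarith [b1.1, b1.2, b2.1, b2.2, b3.1, b3.2]

end Pool.Agent.BD
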