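import Pool.Agent.Helper73.BD.DD

/-!
# BD-D2: making the set of used labels symmetric

Proof in words.  Induction on the number of demands `D = {d : -d ∈ VL, d ∉ VL}` (even: `VL` is the union of `D' = -D` and a symmetric set without `0`, which has an even number of elements).
If `D` is not empty take two different `d, d' ∈ D` (`d' ≠ -d` because `-d ∈ VL`).  Choose `c ∈ [b, 2b]` odd with `|c| ∉ UX`, `|c|` not the class of an element of `VL`, `c + d`, `-c + d'` not zero, with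
classes not in `US`, not the class of an element of `VS`, and different (`c + d = -c + d'` or `c + d = c - d'` for at most one `c`, the second is impossible); if `e = 2` then choose `c2` in the same way,
different from `c`, classes of `c2 + d`, `-c2 + d'` different from the two before.  Add `±c (±c2), d, d'` to `VL` and the sums to `VS`; the demands `d, d'` are satisfied, no new label demand.
Keep in the induction: the original bounds for the demands (`|d| ≤ b`), all labels `≤ 2b`, sums `≤ 3b`.  At most `|VL|/2` steps.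
The sum of the new sums is `e (d + d')`; the sum of all labels becomes `0`, so in total the sum of `VS` changes by `e (0 - ∑ VL)`.
-/

set_option autoImplicit false

namespace Pool.Agent.BD

open Finset Pool.Agent.SEM

private theorem val_union27 {L L' : Finset ℤ} (h : Disjoint L L') : (L ∪ L').val = L.val + L'.val := by
  rw [← Finset.disjUnion_eq_union L L' h]
  rfl

private theorem newL_cons27 (e : ℕ) (z : ℤ × ℤ × ℤ × ℤ) (Z : List (ℤ × ℤ × ℤ × ℤ)) :
    newL e (z :: Z) [] = newL e [z] [] + newL e Z [] := by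
  unfold newL
  simp only [List.flatMap_cons, List.flatMap_nil, ← Multiset.coe_add, List.append_nil, Multiset.coe_nil, add_zero]
  split_ifs
  · abel
  · abel

private theorem newS_cons27 (e : ℕ) (z : ℤ × ℤ × ℤ × ℤ) (Z : List (ℤ × ℤ × ℤ × ℤ)) :
    newS e (z :: Z) [] = newS e [z] [] + newS e Z [] := by
  unfold newS
  simp only [List.flatMap_cons, List.flatMap_nil, ← Multiset.coe_add, List.append_nil, Multiset.coe_nil, add_zero,
    ite_self]
  split_ifs
  · abel
  · abel

/-- the conditions for the choice of `c` -/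
private def Gc27 (b : ℤ) (UX US : Finset ℕ) (VL VS : Finset ℤ) (u1 u2 c : ℤ) : Prop :=
  b ≤ c ∧ c ≤ 2 * b ∧ Odd c ∧ c.natAbs ∉ UX ∧ c ∉ VL ∧ -c ∉ VL ∧ c - u1 ∉ VS ∧ -c - u2 ∉ VS ∧
    (c - u1).natAbs ∉ US ∧ (-c - u2).natAbs ∉ US ∧ c - u1 ≠ -c - u2

private theorem good27 {b : ℕ} {UX US : Finset ℕ} {VL VS : Finset ℤ} (u1 u2 : ℤ) (B : Finset ℤ)
    (h : 2 * (UX.card + 2 * VL.card + 2 * VS.card + 4 * US.card + B.card + 2) ≤ b) :
    ∃ c : ℤ, Gc27 b UX US VL VS u1 u2 c ∧ c ∉ B := by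
  classical
  obtain ⟨Bad, hBad⟩ : ∃ Bad : Finset ℤ, Bad = UX.image (fun x : ℕ => (x : ℤ)) ∪ VL ∪ VL.image (fun v => -v) ∪
    VS.image (fun v => v + u1) ∪ VS.image (fun v => -u2 - v) ∪ US.image (fun s : ℕ => u1 + (s : ℤ)) ∪
    US.image (fun s : ℕ => u1 - (s : ℤ)) ∪ US.image (fun s : ℕ => -u2 - (s : ℤ)) ∪
    US.image (fun s : ℕ => -u2 + (s : ℤ)) ∪ {(u1 - u2) / 2} ∪ B := ⟨_, rfl⟩
  have hcard : Bad.card ≤ UX.card + 2 * VL.card + 2 * VS.card + 4 * US.card + B.card + 1 := by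
    rw [hBad]
    have q1 : (UX.image (fun x : ℕ => (x : ℤ))).card ≤ UX.card := card_image_le
    have q2 : (VL.image (fun v => -v)).card ≤ VL.card := card_image_le
    have q3 : (VS.image (fun v => v + u1)).card ≤ VS.card := card_image_le
    have q4 : (VS.image (fun v => -u2 - v)).card ≤ VS.card := card_image_le
    have q5 : (US.image (fun s : ℕ => u1 + (s : ℤ))).card ≤ US.card := card_image_le
    have q6 : (US.image (fun s : ℕ => u1 - (s : ℤ))).card ≤ US.card := card_image_le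
    have q7 : (US.image (fun s : ℕ => -u2 - (s : ℤ))).card ≤ US.card := card_image_le
    have q8 : (US.image (fun s : ℕ => -u2 + (s : ℤ))).card ≤ US.card := card_image_le
    have q9 : ({(u1 - u2) / 2} : Finset ℤ).card = 1 := card_singleton _
    refine (card_union_le _ _).trans ?_
    refine (Nat.add_le_add_right (card_union_le _ _) _).trans ?_
    refine (Nat.add_le_add_right (Nat.add_le_add_right (card_union_le _ _) _) _).trans ?_
    refine (Nat.add_le_add_right (Nat.add_le_add_right (Nat.add_le_add_right (card_union_le _ _) _) _) _).trans ?_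
    have p1 := card_union_le (UX.image (fun x : ℕ => (x : ℤ)) ∪ VL ∪ VL.image (fun v => -v) ∪
      VS.image (fun v => v + u1) ∪ VS.image (fun v => -u2 - v) ∪ US.image (fun s : ℕ => u1 + (s : ℤ)))
      (US.image (fun s : ℕ => u1 - (s : ℤ)))
    have p2 := card_union_le (UX.image (fun x : ℕ => (x : ℤ)) ∪ VL ∪ VL.image (fun v => -v) ∪
      VS.image (fun v => v + u1) ∪ VS.image (fun v => -u2 - v)) (US.image (fun s : ℕ => u1 + (s : ℤ)))
    have p3 := card_union_le (UX.image (fun x : ℕ => (x : ℤ)) ∪ VL ∪ VL.image (fun v => -v) ∪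
      VS.image (fun v => v + u1)) (VS.image (fun v => -u2 - v))
    have p4 := card_union_le (UX.image (fun x : ℕ => (x : ℤ)) ∪ VL ∪ VL.image (fun v => -v))
      (VS.image (fun v => v + u1))
    have p5 := card_union_le (UX.image (fun x : ℕ => (x : ℤ)) ∪ VL) (VL.image (fun v => -v))
    have p6 := card_union_le (UX.image (fun x : ℕ => (x : ℤ))) VL
    omega
  obtain ⟨c, h1, h2, h3, h4⟩ := pick 2 (by norm_num) 1 b (2 * b) Bad (by push_cast; omega)
  have hodd : Odd c := by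
    rw [Int.odd_iff]
    exact h3
  rw [hBad] at h4
  simp only [mem_union, mem_image, mem_singleton, not_or, not_exists, not_and] at h4
  obtain ⟨⟨⟨⟨⟨⟨⟨⟨⟨⟨n1, n2⟩, n3⟩, n4⟩, n5⟩, n6⟩, n7⟩, n8⟩, n9⟩, n10⟩, n11⟩ := h4
  refine ⟨c, ⟨h1, h2, hodd, fun hx => ?_, n2, fun hx => ?_, fun hx => ?_, fun hx => ?_, fun hx => ?_,
    fun hx => ?_, fun hx => ?_⟩, n11⟩
  · exact n1 _ hx (by omega)
  · exact n3 _ hx (by ring)
  · exact n4 _ hx (by ring)
  · exact n5 _ hx (by ring)
  · rcases le_total 0 (c - u1) with hh | hh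
    · exact n6 _ hx (by omega)
    · exact n7 _ hx (by omega)
  · rcases le_total 0 (-c - u2) with hh | hh
    · exact n8 _ hx (by omega)
    · exact n9 _ hx (by omega)
  · exact n10 (by omega)

private theorem step27 {e b : ℕ} (he : e = 1 ∨ e = 2) {UX US : Finset ℕ} {VL VS : Finset ℤ}
    (h : 2 * (UX.card + 2 * VL.card + 2 * VS.card + 4 * US.card + 4) ≤ b) (h0 : (0 : ℤ) ∈ VS)
    (hV : ∀ u ∈ VL, Odd u) (hVe : ∀ u ∈ VL, u.natAbs ∉ UX)
    {u1 u2 : ℤ} (hu1 : u1 ∈ VL) (hu2 : u2 ∈ VL) (h12 : u1 ≠ u2) (hn1 : -u1 ∉ VL) (hn2 : -u2 ∉ VL)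
    (hb1 : |u1| ≤ b) (hb2 : |u2| ≤ b) :
    ∃ (z : ℤ × ℤ × ℤ × ℤ) (AL AS : Finset ℤ), AL.val = newL e [z] [] ∧ AS.val = newS e [z] [] ∧
      Disjoint VL AL ∧ Disjoint VS AS ∧
      (∀ u ∈ AL, Odd u ∧ |u| ≤ 2 * b ∧ u.natAbs ∉ UX ∧ -u ∈ VL ∪ AL) ∧
      (∀ s ∈ AS, Even s ∧ |s| ≤ 3 * b ∧ s.natAbs ∉ US) ∧
      (∀ u ∈ VL, (-u ∈ AL ↔ (u = u1 ∨ u = u2))) ∧ ∑ u ∈ AL, u = -u1 - u2 ∧ ∑ s ∈ AS, s = e * (-u1 - u2) ∧
      Odd z.2.1 ∧ AL.card ≤ 6 ∧ AS.card ≤ 4 := by
  have o1 := hV u1 hu1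
  have o2 := hV u2 hu2
  have x1 := hVe u1 hu1
  have x2 := hVe u2 hu2
  have a1 := abs_le.1 hb1
  have a2 := abs_le.1 hb2
  have hb0 : (0 : ℤ) < b := by
    have : 0 < b := by omega
    exact_mod_cast this
  have hu12 : u1 ≠ -u2 := fun hh => hn2 (hh ▸ hu1)
  obtain ⟨c, ⟨c1, c2, c3, c4, c5, c6, c7, c8, c9, c10, c11⟩, -⟩ := good27 (VL := VL) (VS := VS) (UX := UX) (US := US)
    (b := b) u1 u2 ∅ (by rw [card_empty]; omega)
  have k1 : c ≠ u1 := fun hh => c5 (hh ▸ hu1)
  have k2 : c ≠ u2 := fun hh => c5 (hh ▸ hu2)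
  have k3 : -c ≠ u1 := fun hh => c6 (hh ▸ hu1)
  have k4 : -c ≠ u2 := fun hh => c6 (hh ▸ hu2)
  have k5 : c - u1 ≠ 0 := fun hh => c7 (hh ▸ h0)
  have k6 : -c - u2 ≠ 0 := fun hh => c8 (hh ▸ h0)
  have hn0 : u1 ≠ 0 := by rintro rfl; exact absurd o1 (by decide)
  have hn0' : u2 ≠ 0 := by rintro rfl; exact absurd o2 (by decide)
  have y1 : (-u1).natAbs ∉ UX := by rw [Int.natAbs_neg]; exact x1
  have y2 : (-u2).natAbs ∉ UX := by rw [Int.natAbs_neg]; exact x2
  have y3 : (-c).natAbs ∉ UX := by rw [Int.natAbs_neg]; exact c4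
  have e1 : Even (c - u1) := c3.sub_odd o1
  have e2 : Even (-c - u2) := c3.neg.sub_odd o2
  rcases he with rfl | rfl
  · refine ⟨(c, 1, -u1, -u2), ⟨([c, -c, -u1, -u2] : List ℤ), ?_⟩, ⟨([c - u1, -c - u2] : List ℤ), ?_⟩, ?_, ?_, ?_, ?_, ?_, ?_, ?_, ?_, ?_,
      ?_, ?_, ?_⟩
    · rw [Multiset.coe_nodup]
      simp only [List.nodup_cons, List.mem_cons, List.not_mem_nil, or_false, not_or, not_false_eq_true,
        List.nodup_nil, and_true]
      omega
    · rw [Multiset.coe_nodup]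
      simp only [List.nodup_cons, List.mem_cons, List.not_mem_nil, or_false, not_false_eq_true,
        List.nodup_nil, and_true]
      exact c11
    · simp [newL]
    · simp [newS, sub_eq_add_neg]
    · rw [Finset.disjoint_right]
      intro u hu
      simp only [mem_mk, Multiset.mem_coe, List.mem_cons, List.not_mem_nil, or_false] at hu
      rcases hu with rfl | rfl | rfl | rfl <;> assumption
    · rw [Finset.disjoint_right]
      intro u hu
      simp only [mem_mk, Multiset.mem_coe, List.mem_cons, List.not_mem_nil, or_false] at hu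
      rcases hu with rfl | rfl <;> assumption
    · intro u hu
      simp only [mem_mk, Multiset.mem_coe, List.mem_cons, List.not_mem_nil, or_false] at hu
      simp only [mem_union, mem_mk, Multiset.mem_coe, List.mem_cons, List.not_mem_nil, or_false]
      rcases hu with rfl | rfl | rfl | rfl
      · exact ⟨c3, abs_le.2 ⟨by omega, by omega⟩, c4, by tauto⟩
      · exact ⟨c3.neg, abs_le.2 ⟨by omega, by omega⟩, y3, by rw [neg_neg]; tauto⟩
      · exact ⟨o1.neg, abs_le.2 ⟨by omega, by omega⟩, y1, by rw [neg_neg]; tauto⟩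
      · exact ⟨o2.neg, abs_le.2 ⟨by omega, by omega⟩, y2, by rw [neg_neg]; tauto⟩
    · intro s hs
      simp only [mem_mk, Multiset.mem_coe, List.mem_cons, List.not_mem_nil, or_false] at hs
      rcases hs with rfl | rfl
      · exact ⟨e1, abs_le.2 ⟨by omega, by omega⟩, c9⟩
      · exact ⟨e2, abs_le.2 ⟨by omega, by omega⟩, c10⟩
    · intro u hu
      simp only [mem_mk, Multiset.mem_coe, List.mem_cons, List.not_mem_nil, or_false]
      have j1 : u ≠ c := fun hh => c5 (hh ▸ hu)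
      have j2 : u ≠ -c := fun hh => c6 (hh ▸ hu)
      omega
    · show Multiset.sum (Multiset.map _ _) = _
      simp
      ring
    · show Multiset.sum (Multiset.map _ _) = _
      simp
      ring
    · exact odd_one
    · show Multiset.card _ ≤ 6
      simp
    · show Multiset.card _ ≤ 4
      simp
  · obtain ⟨f, ⟨f1, f2, f3, f4, f5, f6, f7, f8, f9, f10, f11⟩, f12⟩ := good27 (VL := VL) (VS := VS) (UX := UX) (US := US)
      (b := b) u1 u2 {c, u1 - u2 - c} (by have := card_le_two (a := c) (b := u1 - u2 - c); omega)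
    simp only [mem_insert, mem_singleton, not_or] at f12
    obtain ⟨f13, f14⟩ := f12
    have l1 : f ≠ u1 := fun hh => f5 (hh ▸ hu1)
    have l2 : f ≠ u2 := fun hh => f5 (hh ▸ hu2)
    have l3 : -f ≠ u1 := fun hh => f6 (hh ▸ hu1)
    have l4 : -f ≠ u2 := fun hh => f6 (hh ▸ hu2)
    have y4 : (-f).natAbs ∉ UX := by rw [Int.natAbs_neg]; exact f4
    have e3 : Even (f - u1) := f3.sub_odd o1
    have e4 : Even (-f - u2) := f3.neg.sub_odd o2
    refine ⟨(c, f, -u1, -u2), ⟨([c, -c, -u1, -u2, f, -f] : List ℤ), ?_⟩, ⟨([c - u1, -c - u2, f - u1, -f - u2] : List ℤ), ?_⟩, ?_, ?_,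
      ?_, ?_, ?_, ?_, ?_, ?_, ?_, ?_, ?_, ?_⟩
    · rw [Multiset.coe_nodup]
      simp only [List.nodup_cons, List.mem_cons, List.not_mem_nil, or_false, not_or, not_false_eq_true,
        List.nodup_nil, and_true]
      omega
    · rw [Multiset.coe_nodup]
      simp only [List.nodup_cons, List.mem_cons, List.not_mem_nil, or_false, not_or, not_false_eq_true,
        List.nodup_nil, and_true]
      omega
    · simp [newL]
    · simp [newS, sub_eq_add_neg]
    · rw [Finset.disjoint_right]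
      intro u hu
      simp only [mem_mk, Multiset.mem_coe, List.mem_cons, List.not_mem_nil, or_false] at hu
      rcases hu with rfl | rfl | rfl | rfl | rfl | rfl <;> assumption
    · rw [Finset.disjoint_right]
      intro u hu
      simp only [mem_mk, Multiset.mem_coe, List.mem_cons, List.not_mem_nil, or_false] at hu
      rcases hu with rfl | rfl | rfl | rfl <;> assumption
    · intro u hu
      simp only [mem_mk, Multiset.mem_coe, List.mem_cons, List.not_mem_nil, or_false] at hu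
      simp only [mem_union, mem_mk, Multiset.mem_coe, List.mem_cons, List.not_mem_nil, or_false]
      rcases hu with rfl | rfl | rfl | rfl | rfl | rfl
      · exact ⟨c3, abs_le.2 ⟨by omega, by omega⟩, c4, by tauto⟩
      · exact ⟨c3.neg, abs_le.2 ⟨by omega, by omega⟩, y3, by rw [neg_neg]; tauto⟩
      · exact ⟨o1.neg, abs_le.2 ⟨by omega, by omega⟩, y1, by rw [neg_neg]; tauto⟩
      · exact ⟨o2.neg, abs_le.2 ⟨by omega, by omega⟩, y2, by rw [neg_neg]; tauto⟩
      · exact ⟨f3, abs_le.2 ⟨by omega, by omega⟩, f4, by tauto⟩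
      · exact ⟨f3.neg, abs_le.2 ⟨by omega, by omega⟩, y4, by rw [neg_neg]; tauto⟩
    · intro s hs
      simp only [mem_mk, Multiset.mem_coe, List.mem_cons, List.not_mem_nil, or_false] at hs
      rcases hs with rfl | rfl | rfl | rfl
      · exact ⟨e1, abs_le.2 ⟨by omega, by omega⟩, c9⟩
      · exact ⟨e2, abs_le.2 ⟨by omega, by omega⟩, c10⟩
      · exact ⟨e3, abs_le.2 ⟨by omega, by omega⟩, f9⟩
      · exact ⟨e4, abs_le.2 ⟨by omega, by omega⟩, f10⟩
    · intro u hu
      simp only [mem_mk, Multiset.mem_coe, List.mem_cons, List.not_mem_nil, or_false]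
      have j1 : u ≠ c := fun hh => c5 (hh ▸ hu)
      have j2 : u ≠ -c := fun hh => c6 (hh ▸ hu)
      have j3 : u ≠ f := fun hh => f5 (hh ▸ hu)
      have j4 : u ≠ -f := fun hh => f6 (hh ▸ hu)
      omega
    · show Multiset.sum (Multiset.map _ _) = _
      simp
      ring
    · show Multiset.sum (Multiset.map _ _) = _
      simp
      ring
    · exact f3
    · show Multiset.card _ ≤ 6
      simp
    · show Multiset.card _ ≤ 4
      simp

private theorem sum_sym27 {V : Finset ℤ} (h : ∀ u ∈ V, -u ∈ V) : ∑ u ∈ V, u = 0 := by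
  have h1 : ∑ u ∈ V, u = ∑ u ∈ V, -u := by
    refine Finset.sum_nbij' (fun u => -u) (fun u => -u) h h (fun u _ => neg_neg u) (fun u _ => neg_neg u) ?_
    intro u _
    rw [neg_neg]
  rw [Finset.sum_neg_distrib] at h1
  omega

private theorem main27 {e b : ℕ} (he : e = 1 ∨ e = 2) {UX US : Finset ℕ} (k : ℕ) : ∀ (VL VS : Finset ℤ),
    (VL.filter fun u => -u ∉ VL).card = 2 * k →
    2 * (UX.card + 2 * (VL.card + 6 * k) + 2 * (VS.card + 4 * k) + 4 * US.card + 4) ≤ b → (0 : ℤ) ∈ VS →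
    (∀ u ∈ VL, Odd u ∧ |u| ≤ 2 * b ∧ u.natAbs ∉ UX) → (∀ u ∈ VL, -u ∉ VL → |u| ≤ b) →
    (∀ s ∈ VS, Even s ∧ |s| ≤ 3 * b ∧ (s ≠ 0 → s.natAbs ∉ US)) →
    ∃ (Z1 : List (ℤ × ℤ × ℤ × ℤ)) (VL' VS' : Finset ℤ), Z1.length = k ∧
      VL'.val = VL.val + newL e Z1 [] ∧ VS'.val = VS.val + newS e Z1 [] ∧ (0 : ℤ) ∈ VS' ∧
      (∀ u ∈ VL', Odd u ∧ |u| ≤ 2 * b ∧ u.natAbs ∉ UX) ∧
      (∀ s ∈ VS', Even s ∧ |s| ≤ 3 * b ∧ (s ≠ 0 → s.natAbs ∉ US)) ∧
      (∀ u ∈ VL', -u ∈ VL') ∧ ∑ s ∈ VS', s = ∑ s ∈ VS, s - e * ∑ u ∈ VL, u ∧ (∀ z ∈ Z1, Odd z.2.1) := by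
  induction k with
  | zero =>
    intro VL VS hU hcap h0 hV1 hV2 hS
    have hs : ∀ u ∈ VL, -u ∈ VL := by
      rw [mul_zero, card_eq_zero, filter_eq_empty_iff] at hU
      intro u hu
      exact not_not.1 (hU hu)
    refine ⟨[], VL, VS, rfl, ?_, ?_, h0, hV1, hS, hs, ?_, ?_⟩
    · simp [newL]
    · simp [newS]
    · rw [sum_sym27 hs]; ring
    · intro z hz
      exact absurd hz (List.not_mem_nil)
  | succ k ih =>
    intro VL VS hU hcap h0 hV1 hV2 hS
    have h2 : 1 < (VL.filter fun u => -u ∉ VL).card := by omega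
    obtain ⟨u1, u2, hm1, hm2, h12⟩ := Finset.one_lt_card_iff.1 h2
    rw [mem_filter] at hm1 hm2
    obtain ⟨z, AL, AS, q1, q2, q3, q4, q5, q6, q7, q8, q9, q10, q11, q12⟩ := step27 (UX := UX) (US := US) (VL := VL) (VS := VS) he
      (by omega) h0 (fun u hu => (hV1 u hu).1) (fun u hu => (hV1 u hu).2.2) hm1.1 hm2.1 h12 hm1.2 hm2.2
      (hV2 _ hm1.1 hm1.2) (hV2 _ hm2.1 hm2.2)
    have hcL : (VL ∪ AL).card = VL.card + AL.card := card_union_of_disjoint q3
    have hcS : (VS ∪ AS).card = VS.card + AS.card := card_union_of_disjoint q4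
    have hU' : ((VL ∪ AL).filter fun u => -u ∉ VL ∪ AL) = ((VL.filter fun u => -u ∉ VL).erase u1).erase u2 := by
      ext u
      rw [mem_filter, mem_erase, mem_erase, mem_filter, mem_union]
      constructor
      · rintro ⟨hu | hu, hn⟩
        · have hn' := hn
          rw [mem_union, not_or] at hn'
          have := (q7 u hu).not.1 hn'.2
          rw [not_or] at this
          exact ⟨this.2, this.1, hu, hn'.1⟩
        · exact absurd (q5 u hu).2.2.2 hn
      · rintro ⟨n2, n1, hu, hn⟩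
        refine ⟨Or.inl hu, ?_⟩
        rw [mem_union, not_or]
        exact ⟨hn, fun hh => ((q7 u hu).1 hh).elim n1 n2⟩
    have hcU : ((VL ∪ AL).filter fun u => -u ∉ VL ∪ AL).card = 2 * k := by
      rw [hU', card_erase_of_mem, card_erase_of_mem, hU]
      · omega
      · rw [mem_filter]; exact hm1
      · rw [mem_erase, mem_filter]; exact ⟨fun hh => h12 hh.symm, hm2⟩
    obtain ⟨Z1, VL', VS', r1, r2, r3, r4, r5, r6, r7, r8, r9⟩ := ih (VL ∪ AL) (VS ∪ AS) hcU (by rw [hcL, hcS]; omega)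
      (mem_union_left _ h0)
      (fun u hu => (mem_union.1 hu).elim (fun hh => hV1 u hh) fun hh => ⟨(q5 u hh).1, (q5 u hh).2.1, (q5 u hh).2.2.1⟩)
      (fun u hu hn => by
        rcases mem_union.1 hu with hh | hh
        · exact hV2 u hh fun h' => hn (mem_union_left _ h')
        · exact absurd (q5 u hh).2.2.2 hn)
      (fun s hs => (mem_union.1 hs).elim (fun hh => hS s hh) fun hh => ⟨(q6 s hh).1, (q6 s hh).2.1, fun _ => (q6 s hh).2.2⟩)
    refine ⟨z :: Z1, VL', VS', ?_, ?_, ?_, r4, r5, r6, r7, ?_, ?_⟩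
    · rw [List.length_cons, r1]
    · rw [r2, val_union27 q3, newL_cons27, ← q1, add_assoc]
    · rw [r3, val_union27 q4, newS_cons27, ← q2, add_assoc]
    · rw [r8, sum_union q3, sum_union q4, q8, q9]
      ring
    · intro z' hz'
      rcases List.mem_cons.1 hz' with rfl | hh
      · exact q10
      · exact r9 z' hh

private theorem parity27 {V : Finset ℤ} (hV : ∀ u ∈ V, Odd u) (hc : Even V.card) :
    ∃ k, (V.filter fun u => -u ∉ V).card = 2 * k ∧ 2 * k ≤ V.card := by
  have h1 : (V.filter fun u => -u ∈ V).card + (V.filter fun u => -u ∉ V).card = V.card :=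
    card_filter_add_card_filter_not _
  have h2 : ∑ u ∈ V.filter (fun u => -u ∈ V), (1 : ZMod 2) = 0 := by
    refine Finset.sum_involution (fun u _ => -u) ?_ ?_ ?_ ?_
    · intro u _
      decide
    · intro u hu _ hh
      have := hV u (mem_filter.1 hu).1
      have h0 : u = 0 := by omega
      rw [h0] at this
      exact absurd this (by decide)
    · intro u hu
      rw [mem_filter] at hu ⊢
      exact ⟨hu.2, by rw [neg_neg]; exact hu.1⟩
    · intro u _
      exact neg_neg u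
  rw [sum_const, nsmul_eq_mul, mul_one, ZMod.natCast_eq_zero_iff_even] at h2
  have h3 : Even (V.filter fun u => -u ∉ V).card := by
    rw [← h1, Nat.even_add] at hc
    exact hc.1 h2
  obtain ⟨k, hk⟩ := h3
  exact ⟨k, by omega, by omega⟩

theorem labdem {e b : ℕ} (he : e = 1 ∨ e = 2) {UX US : Finset ℕ} {VL VS : Finset ℤ}
    (hb : 1000 * (UX.card + US.card + VL.card + VS.card + 100) ≤ b) (h : Usd b UX US VL VS) (hc : Even VL.card) :
    ∃ (Z1 : List (ℤ × ℤ × ℤ × ℤ)) (VL' VS' : Finset ℤ), 2 * Z1.length ≤ VL.card ∧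
      VL'.val = VL.val + newL e Z1 [] ∧ VS'.val = VS.val + newS e Z1 [] ∧ Usd (4 * b) UX US VL' VS' ∧
      (∀ u ∈ VL', -u ∈ VL') ∧ ∑ s ∈ VS', s = ∑ s ∈ VS, s - e * ∑ u ∈ VL, u ∧ (∀ z ∈ Z1, Odd z.2.1) := by
  obtain ⟨k, hk, hk2⟩ := parity27 h.lodd hc
  have hb0 : (0 : ℤ) ≤ b := Nat.cast_nonneg b
  obtain ⟨Z1, VL', VS', r1, r2, r3, r4, r5, r6, r7, r8, r9⟩ := main27 (b := b) (UX := UX) (US := US) he k VL VS hk (by omega) h.zero
    (fun u hu => ⟨h.lodd u hu, (h.lb u hu).trans (by omega), h.lU u hu⟩) (fun u hu _ => h.lb u hu)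
    (fun s hs => ⟨h.seven s hs, (h.sb s hs).trans (by omega), h.sU s hs⟩)
  refine ⟨Z1, VL', VS', by omega, r2, r3, ⟨?_, ?_, ?_, ?_, ?_, ?_, r4⟩, r7, r8, r9⟩
  · exact fun u hu => (r5 u hu).1
  · exact fun u hu => (r5 u hu).2.1.trans (by push_cast; omega)
  · exact fun u hu => (r5 u hu).2.2
  · exact fun s hs => (r6 s hs).1
  · exact fun s hs => (r6 s hs).2.1.trans (by push_cast; omega)
  · exact fun s hs => (r6 s hs).2.2

end Pool.Agent.BD
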