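import Pool.Agent.Helper73.BD.D1

/-!
# BD-D3: making the set of used sums symmetric

Proof in words.  Demands: `p` with `-p ∈ VS`, `p ∉ VS`.  Their number `m` is even (`|VS|` is odd, contains `0`), their total is `- ∑ VS = 0`, and no two demands are opposite.
So `m ≠ 2`.  Induction on `m`, invariant: there are two demands `α, β` with `|α|, |β| ≤ 3b`, `|α + β| ≤ b`, all others are `≤ b` in absolute value (at the start take one positive and one
negative demand), the classes of all the labels in `VL` are used in `±` pairs.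
Step (`m ≥ 4`): put `P = α + β`; the other demands have the total `-P`; choose a demand `p` different from `α, β` of sign opposite to `P` (any if `P = 0`), then `q` of the sign opposite to `P + p`
(any if it is `0`); so `|P + p|, |P + p + q| ≤ b`.  (If `m = 4` then `p, q` are the two remaining ones in any case.)
Choose an even `r` such that `α' = p + α + r ∈ [b, 2b]`, with the classes of `r`, `α'` and `β' = -r + q + β` new (not in `US`, not classes of elements of `VS`), nonzero and pairwise different, except that if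
`m = 4` we have `β' = -α'` (total zero) and only `r`, `α'` have to be new and different.
First site (`four`): `(p1,p2,p3,p4) = (p, α, r, -α')`.  Second site: `(-r, q, β, -β')`.  (`p + r ≠ 0`, `α + r ≠ 0`, `-r + β ≠ 0` as the class of `r` is new, `q + β ≠ 0` as demands are not opposite.)
The labels and (if `e = 2`) the middle sums `±(x+y)` must be new too (put everything used so far into `UX, US` of `four`).
`p, q, α, β` are satisfied, `r, -r` are both used; the new demands are `α', β'` (none if `m = 4`), `α' + β' = P + p + q`.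
`m` decreases by 2 (by 4 if `m = 4`).  At most `|VS|` sites, all labels and sums `≤ 20b`.
-/

set_option autoImplicit false

namespace Pool.Agent.BD

open Finset Pool.Agent.SEM

/-- the demands -/
private def dem42 (VS : Finset ℤ) : Finset ℤ := (VS.image fun s => -s) \ VS

private theorem mem_dem42 {VS : Finset ℤ} {p : ℤ} : p ∈ dem42 VS ↔ -p ∈ VS ∧ p ∉ VS := by
  unfold dem42
  rw [mem_sdiff, mem_image]
  constructor
  · rintro ⟨⟨s, hs, rfl⟩, h⟩
    exact ⟨by rwa [neg_neg], h⟩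
  · rintro ⟨h1, h2⟩
    exact ⟨⟨-p, h1, neg_neg p⟩, h2⟩

private theorem sum_sym42 {Q : Finset ℤ} (h : ∀ s ∈ Q, -s ∈ Q) : ∑ s ∈ Q, s = 0 := by
  refine Finset.sum_involution (fun a _ => -a) ?_ ?_ ?_ ?_
  · intro a _; exact add_neg_cancel a
  · intro a _ h1 h2
    apply h1
    omega
  · intro a ha; exact h a ha
  · intro a _; exact neg_neg a

private theorem odd_sym42 {Q : Finset ℤ} (h : ∀ s ∈ Q, -s ∈ Q) (h0 : 0 ∈ Q) : Odd Q.card := by
  have h1 : ∑ _s ∈ Q.erase 0, (1 : ZMod 2) = 0 := by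
    refine Finset.sum_involution (fun a _ => -a) ?_ ?_ ?_ ?_
    · intro a _; decide
    · intro a ha _ h2
      rw [mem_erase] at ha
      apply ha.1
      omega
    · intro a ha
      rw [mem_erase] at ha ⊢
      exact ⟨by omega, h a ha.2⟩
    · intro a _; exact neg_neg a
  rw [sum_const, nsmul_eq_mul, mul_one] at h1
  have h2 : Even (Q.erase 0).card := by
    rw [← ZMod.natCast_eq_zero_iff_even]
    exact h1
  rw [← Finset.card_erase_add_one h0]
  exact h2.add_one

private theorem sum_dem42 {VS : Finset ℤ} (h0 : ∑ s ∈ VS, s = 0) : ∑ p ∈ dem42 VS, p = 0 := by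
  have h1 := Finset.sum_inter_add_sum_sdiff (VS.image fun s => -s) VS (fun s => s)
  have h2 : ∑ s ∈ (VS.image fun s => -s) ∩ VS, s = 0 := by
    apply sum_sym42
    intro s hs
    rw [mem_inter, mem_image] at hs ⊢
    obtain ⟨⟨t, ht, rfl⟩, hs⟩ := hs
    exact ⟨⟨-t, hs, rfl⟩, by rwa [neg_neg]⟩
  have h3 : ∑ s ∈ (VS.image fun s => -s), s = 0 := by
    rw [Finset.sum_image (fun a _ b _ h => neg_injective h), Finset.sum_neg_distrib, h0, neg_zero]
  unfold dem42
  linarith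

private theorem even_dem42 {VS : Finset ℤ} (hc : Odd VS.card) (h0 : 0 ∈ VS) :
    Even (dem42 VS).card := by
  have h1 := Finset.card_sdiff_add_card_inter (VS.image fun s => -s) VS
  have h2 : Odd ((VS.image fun s => -s) ∩ VS).card := by
    apply odd_sym42
    · intro s hs
      rw [mem_inter, mem_image] at hs ⊢
      obtain ⟨⟨t, ht, rfl⟩, hs⟩ := hs
      exact ⟨⟨-t, hs, rfl⟩, by rwa [neg_neg]⟩
    · rw [mem_inter, mem_image]
      exact ⟨⟨0, h0, neg_zero⟩, h0⟩
  rw [Finset.card_image_of_injective _ neg_injective] at h1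
  unfold dem42
  by_contra h3
  rw [Nat.not_even_iff_odd] at h3
  have h4 := h3.add_odd h2
  rw [h1] at h4
  exact (Nat.not_even_iff_odd.mpr hc) h4

private theorem card_dem42 (VS : Finset ℤ) : (dem42 VS).card ≤ VS.card := by
  unfold dem42
  exact (Finset.card_le_card sdiff_subset).trans card_image_le

private theorem pickopp42 {D : Finset ℤ} (hne : D.Nonempty) {P b : ℤ} (hb : ∀ d ∈ D, |d| ≤ b)
    (hP : |P| ≤ b) (hsum : ∑ d ∈ D, d = -P) : ∃ p ∈ D, |P + p| ≤ b := by
  by_contra hcon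
  push Not at hcon
  rcases lt_trichotomy P 0 with h | h | h
  · have h1 : ∀ d ∈ D, d ≤ 0 := by
      intro d hd
      by_contra h2
      have h3 := hcon d hd
      have h4 := hb d hd
      rw [abs_le] at h4 hP
      rw [lt_abs] at h3
      omega
    have h2 := Finset.sum_nonpos h1
    omega
  · obtain ⟨d, hd⟩ := hne
    have h3 := hcon d hd
    rw [h, zero_add] at h3
    exact absurd (hb d hd) (not_le.mpr h3)
  · have h1 : ∀ d ∈ D, 0 ≤ d := by
      intro d hd
      by_contra h2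
      have h3 := hcon d hd
      have h4 := hb d hd
      rw [abs_le] at h4 hP
      rw [lt_abs] at h3
      omega
    have h2 := Finset.sum_nonneg h1
    omega

private theorem start42 {D : Finset ℤ} (hne : D.Nonempty) (h0 : ∀ d ∈ D, d ≠ 0) {b : ℤ}
    (hb : ∀ d ∈ D, |d| ≤ b) (hsum : ∑ d ∈ D, d = 0) :
    ∃ α ∈ D, ∃ β ∈ D, α ≠ β ∧ |α + β| ≤ b := by
  obtain ⟨d, hd⟩ := hne
  have h1 : ∃ α ∈ D, 0 < α := by
    by_contra h
    push Not at h
    have h2 := (Finset.sum_eq_zero_iff_of_nonpos h).mp hsum d hd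
    exact h0 d hd h2
  have h2 : ∃ β ∈ D, β < 0 := by
    by_contra h
    push Not at h
    have h2 := (Finset.sum_eq_zero_iff_of_nonneg h).mp hsum d hd
    exact h0 d hd h2
  obtain ⟨α, hα, h1⟩ := h1
  obtain ⟨β, hβ, h2⟩ := h2
  refine ⟨α, hα, β, hβ, by omega, ?_⟩
  have h3 := hb α hα
  have h4 := hb β hβ
  rw [abs_le] at h3 h4 ⊢
  omega

private theorem card_pm42 (C : Finset ℕ) : (pm C).card ≤ 2 * C.card := by
  unfold pm
  refine (card_union_le _ _).trans ?_
  have h1 := card_image_le (s := C) (f := fun x : ℕ => (x : ℤ))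
  have h2 := card_image_le (s := C) (f := fun x : ℕ => -(x : ℤ))
  omega

private theorem pickr42 {b : ℕ} {C : Finset ℕ} (hb : 20 * (C.card + 10) ≤ b) {u v : ℤ}
    (hu0 : u ≠ 0) (hv0 : v ≠ 0) :
    ∃ r : ℤ, Even r ∧ b ≤ u + r ∧ u + r ≤ 2 * b ∧ r.natAbs ∉ C ∧ (u + r).natAbs ∉ C ∧
      (v - r).natAbs ∉ C ∧ (u + r).natAbs ≠ r.natAbs ∧ (v - r).natAbs ≠ r.natAbs ∧
      u + r ≠ v - r := by
  obtain ⟨r, h1, h2, h3, h4⟩ := pick 2 (by norm_num) 0 (b - u) (2 * b - u)
    (pm C ∪ (pm C).image (fun t => t - u) ∪ (pm C).image (fun t => v - t) ∪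
      {-u / 2, v / 2, (v - u) / 2}) (by
    have g1 := card_pm42 C
    have g2 := card_image_le (s := pm C) (f := fun t => t - u)
    have g3 := card_image_le (s := pm C) (f := fun t => v - t)
    have g4 : ({-u / 2, v / 2, (v - u) / 2} : Finset ℤ).card ≤ 3 := card_le_three
    have g5 := card_union_le (pm C ∪ (pm C).image (fun t => t - u) ∪ (pm C).image (fun t => v - t))
      {-u / 2, v / 2, (v - u) / 2}
    have g6 := card_union_le (pm C ∪ (pm C).image (fun t => t - u)) ((pm C).image (fun t => v - t))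
    have g7 := card_union_le (pm C) ((pm C).image (fun t => t - u))
    have g8 : (pm C ∪ (pm C).image (fun t => t - u) ∪ (pm C).image (fun t => v - t) ∪
      {-u / 2, v / 2, (v - u) / 2}).card ≤ 6 * C.card + 3 := by omega
    zify at g8 hb
    push_cast
    linarith)
  simp only [mem_union, not_or, mem_image, mem_insert, mem_singleton, not_exists, not_and] at h4
  obtain ⟨⟨⟨k1, k2⟩, k3⟩, k4, k5, k6⟩ := h4
  have hr : Even r := by
    rw [Int.even_iff]
    exact h3
  refine ⟨r, hr, by omega, by omega, fun h => k1 (mem_pm.mpr h), fun h => k2 _ (mem_pm.mpr h) (by ring),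
    fun h => k3 _ (mem_pm.mpr h) (by ring), ?_, ?_, ?_⟩
  · intro h
    omega
  · intro h
    omega
  · intro h
    omega

private theorem newL_one42 (e : ℕ) (c c2 x y : ℤ) :
    newL e [] [(c, c2, x, y)] = ↑[c, -c, c2, -c2, x, -x, y, -y] := by
  unfold newL
  split_ifs <;> simp

private theorem newS_one42 (e : ℕ) (c c2 x y : ℤ) :
    newS e [] [(c, c2, x, y)] = ↑[c + x, c2 + y, -c - y, -c2 - x] +
      (if e = 2 then ↑[x + y, -(x + y)] else 0) := by
  unfold newS
  split_ifs <;> simp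

private theorem newL_cons42 (e : ℕ) (z : ℤ × ℤ × ℤ × ℤ) (Z : List (ℤ × ℤ × ℤ × ℤ)) :
    newL e [] (z :: Z) = newL e [] [z] + newL e [] Z := by
  unfold newL
  rw [List.flatMap_cons, List.flatMap_singleton, ← Multiset.coe_add]
  split_ifs <;> simp

private theorem newS_cons42 (e : ℕ) (z : ℤ × ℤ × ℤ × ℤ) (Z : List (ℤ × ℤ × ℤ × ℤ)) :
    newS e [] (z :: Z) = newS e [] [z] + newS e [] Z := by
  unfold newS
  rw [List.flatMap_cons, List.flatMap_singleton, ← Multiset.coe_add]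
  split_ifs
  · rw [List.flatMap_cons, List.flatMap_singleton, ← Multiset.coe_add]
    simp only [List.flatMap_nil, Multiset.coe_nil, zero_add]
    abel
  · simp

private theorem newL_nil42 (e : ℕ) : newL e [] [] = 0 := by
  unfold newL
  split_ifs <;> simp

private theorem newS_nil42 (e : ℕ) : newS e [] [] = 0 := by
  unfold newS
  split_ifs <;> simp

private theorem ne_neg42 {u : ℤ} (h : u ≠ 0) : ¬ u = -u := by
  omega

private theorem nodL42 {c c2 x y : ℤ} (oc : Odd c) (oc2 : Odd c2) (ox : Odd x) (oy : Odd y)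
    (n1 : c.natAbs ≠ c2.natAbs) (n2 : c.natAbs ≠ x.natAbs) (n3 : c.natAbs ≠ y.natAbs)
    (n4 : c2.natAbs ≠ x.natAbs) (n5 : c2.natAbs ≠ y.natAbs) (n6 : x.natAbs ≠ y.natAbs) :
    [c, -c, c2, -c2, x, -x, y, -y].Nodup := by
  have g : ∀ {u v : ℤ}, u.natAbs ≠ v.natAbs → u ≠ v ∧ u ≠ -v ∧ -u ≠ v ∧ -u ≠ -v := by
    intro u v h
    refine ⟨?_, ?_, ?_, ?_⟩ <;> intro h' <;> apply h
    · rw [h']
    · rw [h', Int.natAbs_neg]
    · rw [← h', Int.natAbs_neg]
    · rw [neg_inj.mp h']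
  have k : ∀ {u : ℤ}, Odd u → u ≠ -u := by
    intro u hu h
    obtain ⟨w, rfl⟩ := hu
    omega
  have g1 := g n1
  have g2 := g n2
  have g3 := g n3
  have g4 := g n4
  have g5 := g n5
  have g6 := g n6
  simp only [List.nodup_cons, List.mem_cons, List.not_mem_nil, or_false, not_or,
    List.nodup_nil, and_true, not_false_eq_true]
  exact ⟨⟨k oc, g1.1, g1.2.1, g2.1, g2.2.1, g3.1, g3.2.1⟩,
    ⟨g1.2.2.1, g1.2.2.2, g2.2.2.1, g2.2.2.2, g3.2.2.1, g3.2.2.2⟩,
    ⟨k oc2, g4.1, g4.2.1, g5.1, g5.2.1⟩, ⟨g4.2.2.1, g4.2.2.2, g5.2.2.1, g5.2.2.2⟩,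
    ⟨k ox, g6.1, g6.2.1⟩, ⟨g6.2.2.1, g6.2.2.2⟩, k oy⟩

private theorem site42 {e b : ℕ} {UX US X : Finset ℕ} {VL VS : Finset ℤ}
    (hb : 100 * (UX.card + US.card + X.card + VL.card + VS.card + 100) ≤ b)
    (h : Usd (20 * b) UX US VL VS) (hsy : ∀ u ∈ VL, -u ∈ VL) {p1 p2 p3 p4 : ℤ}
    (h1 : Even p1 ∧ p1 ≠ 0 ∧ |p1| ≤ 8 * b) (h2 : Even p2 ∧ p2 ≠ 0 ∧ |p2| ≤ 8 * b)
    (h3 : Even p3 ∧ p3 ≠ 0 ∧ |p3| ≤ 8 * b) (h4 : p4 ≠ 0) (h4b : |p4| ≤ 20 * b)
    (hs : p1 + p2 + p3 + p4 = 0) (h13 : p1 + p3 ≠ 0) (h23 : p2 + p3 ≠ 0)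
    (hV : p1 ∉ VS ∧ p2 ∉ VS ∧ p3 ∉ VS ∧ p4 ∉ VS)
    (hd : p1 ≠ p2 ∧ p1 ≠ p3 ∧ p1 ≠ p4 ∧ p2 ≠ p3 ∧ p2 ≠ p4 ∧ p3 ≠ p4)
    (hU : p1.natAbs ∉ US ∧ p2.natAbs ∉ US ∧ p3.natAbs ∉ US ∧ p4.natAbs ∉ US) :
    ∃ (z : ℤ × ℤ × ℤ × ℤ) (VL' VS' T : Finset ℤ), VL'.val = VL.val + newL e [] [z] ∧
      VS'.val = VS.val + newS e [] [z] ∧ Usd (20 * b) UX US VL' VS' ∧ (∀ u ∈ VL', -u ∈ VL') ∧
      (∀ s, s ∈ VS' ↔ s ∈ VS ∨ s = p1 ∨ s = p2 ∨ s = p3 ∨ s = p4 ∨ s ∈ T) ∧
      (∀ s ∈ T, -s ∈ T ∧ s ≠ 0 ∧ s.natAbs ∉ X ∧ s ∉ VS ∧ -s ∉ VS ∧ s.natAbs ≠ p1.natAbs ∧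
        s.natAbs ≠ p2.natAbs ∧ s.natAbs ≠ p3.natAbs ∧ s.natAbs ≠ p4.natAbs) ∧
      VL'.card ≤ VL.card + 8 ∧ VS'.card ≤ VS.card + 6 ∧ ∑ s ∈ VS', s = ∑ s ∈ VS, s := by
  obtain ⟨c, c2, x, y, oc, oc2, ox, oy, e1, e2, e3, e4, uc, uc2, ux, uy, us, us0, nd, np, bc, bc2, bx,
    by', bxy⟩ := four (UX := UX ∪ VL.image Int.natAbs) (US := US ∪ X ∪ VS.image Int.natAbs) (b := b)
      (by
        have g1 := card_union_le UX (VL.image Int.natAbs)
        have g2 := card_image_le (s := VL) (f := Int.natAbs)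
        have g3 := card_union_le (US ∪ X) (VS.image Int.natAbs)
        have g4 := card_image_le (s := VS) (f := Int.natAbs)
        have g5 := card_union_le US X
        omega) h1 h2 h3 h4 hs h13 h23
  simp only [mem_union, not_or, mem_image, not_exists, not_and] at uc uc2 ux uy us
  simp only [List.mem_cons, List.not_mem_nil, or_false, forall_eq_or_imp, forall_eq] at np
  obtain ⟨np1, np2, np3, np4⟩ := np
  have nd' : c.natAbs ≠ c2.natAbs ∧ c.natAbs ≠ x.natAbs ∧ c.natAbs ≠ y.natAbs ∧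
      c2.natAbs ≠ x.natAbs ∧ c2.natAbs ≠ y.natAbs ∧ x.natAbs ≠ y.natAbs := by
    simp only [List.nodup_cons, List.mem_cons, List.not_mem_nil, or_false, not_or,
      List.nodup_nil, and_true, not_false_eq_true] at nd
    exact ⟨nd.1.1, nd.1.2.1, nd.1.2.2, nd.2.1.1, nd.2.1.2, nd.2.2⟩
  obtain ⟨n1, n2, n3, n4, n5, n6⟩ := nd'
  have hb8 : (8 : ℤ) * b ≤ 20 * b := by
    have g0 : (0 : ℤ) ≤ b := Int.natCast_nonneg b
    linarith only [g0]
  -- the labels
  have hL : (VL.val + newL e [] [(c, c2, x, y)]).Nodup := by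
    rw [newL_one42, Multiset.nodup_add]
    refine ⟨VL.nodup, ?_, ?_⟩
    · rw [Multiset.coe_nodup]
      exact nodL42 oc oc2 ox oy n1 n2 n3 n4 n5 n6
    · rw [Multiset.disjoint_left]
      intro u hu hu'
      have hu2 := hsy u hu
      simp only [Multiset.mem_coe, List.mem_cons, List.not_mem_nil, or_false] at hu'
      rcases hu' with rfl | rfl | rfl | rfl | rfl | rfl | rfl | rfl
      · exact uc.2 _ hu rfl
      · exact uc.2 _ hu (Int.natAbs_neg _)
      · exact uc2.2 _ hu rfl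
      · exact uc2.2 _ hu (Int.natAbs_neg _)
      · exact ux.2 _ hu rfl
      · exact ux.2 _ hu (Int.natAbs_neg _)
      · exact uy.2 _ hu rfl
      · exact uy.2 _ hu (Int.natAbs_neg _)
  have hSn : (VS.val + newS e [] [(c, c2, x, y)]).Nodup := by
    rw [newS_one42, e1, e2, e3, e4, Multiset.nodup_add]
    refine ⟨VS.nodup, ?_, ?_⟩
    · rw [Multiset.nodup_add]
      refine ⟨?_, ?_, ?_⟩
      · rw [Multiset.coe_nodup]
        simp only [List.nodup_cons, List.mem_cons, List.not_mem_nil, or_false, not_or,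
          List.nodup_nil, and_true, not_false_eq_true]
        exact ⟨⟨hd.1, hd.2.1, hd.2.2.1⟩, ⟨hd.2.2.2.1, hd.2.2.2.2.1⟩, hd.2.2.2.2.2⟩
      · split_ifs
        · rw [Multiset.coe_nodup]
          simp only [List.nodup_cons, List.mem_cons, List.not_mem_nil, or_false,
            List.nodup_nil, and_true, not_false_eq_true]
          exact ne_neg42 us0
        · exact Multiset.nodup_zero
      · rw [Multiset.disjoint_left]
        intro s hs1 hs2
        split_ifs at hs2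
        · simp only [Multiset.mem_coe, List.mem_cons, List.not_mem_nil, or_false] at hs1 hs2
          have key : ∀ p : ℤ, (x + y).natAbs ≠ p.natAbs → p = x + y ∨ p = -(x + y) → False := by
            intro p hp1 hp2
            apply hp1
            rcases hp2 with rfl | rfl
            · rfl
            · rw [Int.natAbs_neg]
          rcases hs1 with rfl | rfl | rfl | rfl
          · exact key _ np1 hs2
          · exact key _ np2 hs2
          · exact key _ np3 hs2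
          · exact key _ np4 hs2
        · exact Multiset.notMem_zero _ hs2
    · rw [Multiset.disjoint_left]
      intro s hs1 hs2
      rw [Multiset.mem_add] at hs2
      rcases hs2 with hs2 | hs2
      · simp only [Multiset.mem_coe, List.mem_cons, List.not_mem_nil, or_false] at hs2
        rcases hs2 with rfl | rfl | rfl | rfl
        · exact hV.1 hs1
        · exact hV.2.1 hs1
        · exact hV.2.2.1 hs1
        · exact hV.2.2.2 hs1
      · split_ifs at hs2
        · simp only [Multiset.mem_coe, List.mem_cons, List.not_mem_nil, or_false] at hs2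
          rcases hs2 with rfl | rfl
          · exact us.2 _ hs1 rfl
          · exact us.2 _ hs1 (Int.natAbs_neg _)
        · exact Multiset.notMem_zero _ hs2
  have memL : ∀ u, u ∈ (⟨_, hL⟩ : Finset ℤ) ↔ u ∈ VL ∨ u = c ∨ u = -c ∨ u = c2 ∨ u = -c2 ∨ u = x ∨
      u = -x ∨ u = y ∨ u = -y := by
    intro u
    rw [Finset.mem_mk, Multiset.mem_add, newL_one42, Multiset.mem_coe]
    simp only [List.mem_cons, List.not_mem_nil, or_false]
    rfl
  have memS : ∀ s, s ∈ (⟨_, hSn⟩ : Finset ℤ) ↔ s ∈ VS ∨ s = p1 ∨ s = p2 ∨ s = p3 ∨ s = p4 ∨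
      s ∈ (if e = 2 then ({x + y, -(x + y)} : Finset ℤ) else ∅) := by
    intro s
    rw [Finset.mem_mk, Multiset.mem_add, newS_one42, Multiset.mem_add, Multiset.mem_coe, e1, e2, e3, e4]
    split_ifs
    · simp only [List.mem_cons, List.not_mem_nil, or_false, Multiset.mem_coe, mem_insert,
        mem_singleton, Finset.mem_val, or_assoc]
    · simp only [List.mem_cons, List.not_mem_nil, or_false, Multiset.notMem_zero,
        Finset.notMem_empty, Finset.mem_val]
  refine ⟨(c, c2, x, y), ⟨_, hL⟩, ⟨_, hSn⟩, if e = 2 then ({x + y, -(x + y)} : Finset ℤ) else ∅, rfl,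
    rfl, ⟨?_, ?_, ?_, ?_, ?_, ?_, ?_⟩, ?_, memS, ?_, ?_, ?_, ?_⟩
  · intro u hu
    rw [memL] at hu
    rcases hu with hu | rfl | rfl | rfl | rfl | rfl | rfl | rfl | rfl
    · exact h.lodd u hu
    · exact oc
    · exact oc.neg
    · exact oc2
    · exact oc2.neg
    · exact ox
    · exact ox.neg
    · exact oy
    · exact oy.neg
  · intro u hu
    rw [memL] at hu
    push_cast
    rcases hu with hu | rfl | rfl | rfl | rfl | rfl | rfl | rfl | rfl
    · have := h.lb u hu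
      push_cast at this
      exact this
    · exact bc
    · rwa [abs_neg]
    · exact bc2
    · rwa [abs_neg]
    · exact bx
    · rwa [abs_neg]
    · exact by'
    · rwa [abs_neg]
  · intro u hu
    rw [memL] at hu
    rcases hu with hu | rfl | rfl | rfl | rfl | rfl | rfl | rfl | rfl
    · exact h.lU u hu
    · exact uc.1
    · rw [Int.natAbs_neg]; exact uc.1
    · exact uc2.1
    · rw [Int.natAbs_neg]; exact uc2.1
    · exact ux.1
    · rw [Int.natAbs_neg]; exact ux.1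
    · exact uy.1
    · rw [Int.natAbs_neg]; exact uy.1
  · intro s hs'
    rw [memS] at hs'
    have hxy : Even (x + y) := ox.add_odd oy
    rcases hs' with hs' | rfl | rfl | rfl | rfl | hs'
    · exact h.seven s hs'
    · exact h1.1
    · exact h2.1
    · exact h3.1
    · rw [← e4]; exact oc2.neg.sub_odd ox
    · split_ifs at hs'
      · rw [mem_insert, mem_singleton] at hs'
        rcases hs' with rfl | rfl
        · exact hxy
        · exact hxy.neg
      · exact absurd hs' (Finset.notMem_empty _)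
  · intro s hs'
    rw [memS] at hs'
    push_cast
    rcases hs' with hs' | rfl | rfl | rfl | rfl | hs'
    · have := h.sb s hs'
      push_cast at this
      exact this
    · exact h1.2.2.trans hb8
    · exact h2.2.2.trans hb8
    · exact h3.2.2.trans hb8
    · exact h4b
    · split_ifs at hs'
      · rw [mem_insert, mem_singleton] at hs'
        rcases hs' with rfl | rfl
        · exact bxy
        · rwa [abs_neg]
      · exact absurd hs' (Finset.notMem_empty _)
  · intro s hs' hs0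
    rw [memS] at hs'
    rcases hs' with hs' | rfl | rfl | rfl | rfl | hs'
    · exact h.sU s hs' hs0
    · exact hU.1
    · exact hU.2.1
    · exact hU.2.2.1
    · exact hU.2.2.2
    · split_ifs at hs'
      · rw [mem_insert, mem_singleton] at hs'
        rcases hs' with rfl | rfl
        · exact us.1.1
        · rw [Int.natAbs_neg]; exact us.1.1
      · exact absurd hs' (Finset.notMem_empty _)
  · rw [memS]
    exact Or.inl h.zero
  · intro u hu
    rw [memL] at hu ⊢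
    rcases hu with hu | rfl | rfl | rfl | rfl | rfl | rfl | rfl | rfl
    · exact Or.inl (hsy u hu)
    all_goals simp
  · intro s hs'
    split_ifs at hs' ⊢
    · rw [mem_insert, mem_singleton] at hs'
      have g1 : (x + y).natAbs ∉ X := us.1.2
      have g2 : (x + y) ∉ VS := fun hh => us.2 _ hh rfl
      have g3 : -(x + y) ∉ VS := fun hh => us.2 _ hh (Int.natAbs_neg _)
      rcases hs' with rfl | rfl
      · exact ⟨by simp, us0, g1, g2, g3, np1, np2, np3, np4⟩
      · rw [Int.natAbs_neg, neg_neg]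
        exact ⟨by simp, neg_ne_zero.mpr us0, g1, g3, g2, np1, np2, np3, np4⟩
    · exact absurd hs' (Finset.notMem_empty _)
  · change Multiset.card (VL.val + newL e [] [(c, c2, x, y)]) ≤ _
    rw [Multiset.card_add, newL_one42]
    simp
  · change Multiset.card (VS.val + newS e [] [(c, c2, x, y)]) ≤ _
    rw [Multiset.card_add, newS_one42]
    split_ifs <;> simp
  · change (Multiset.map (fun s => s) (VS.val + newS e [] [(c, c2, x, y)])).sum = _
    rw [Multiset.map_id', Multiset.sum_add, newS_one42]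
    have g : VS.val.sum = ∑ s ∈ VS, s := by
      rw [Finset.sum, Multiset.map_id']
    rw [g]
    split_ifs
    · simp only [Multiset.sum_add, Multiset.sum_coe, List.sum_cons, List.sum_nil]
      linarith
    · simp only [Multiset.sum_add, Multiset.sum_coe, List.sum_cons, List.sum_nil, Multiset.sum_zero]
      linarith

/-- the demands after one step -/
private theorem step_dem42 {VS VS1 VS2 T1 T2 : Finset ℤ} {X : Finset ℕ} {p q α β r α' β' : ℤ}
    (hp : p ∈ dem42 VS) (hq : q ∈ dem42 VS) (hα : α ∈ dem42 VS) (hβ : β ∈ dem42 VS)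
    (hr : r ∉ VS ∧ -r ∉ VS) (ha : α' ∉ VS ∧ -α' ∉ VS) (hb : β' ∉ VS ∧ -β' ∉ VS)
    (ha0 : α' ≠ 0) (hb0 : β' ≠ 0)
    (h1 : α'.natAbs ≠ r.natAbs) (h2 : β'.natAbs ≠ r.natAbs)
    (hXa : α'.natAbs ∈ X) (hXb : β'.natAbs ∈ X)
    (hT1 : ∀ s ∈ T1, -s ∈ T1 ∧ s.natAbs ∉ X ∧ s ∉ VS ∧ -s ∉ VS)
    (hT2 : ∀ s ∈ T2, -s ∈ T2 ∧ s ∉ VS1 ∧ -s ∉ VS1 ∧ s.natAbs ≠ (-β').natAbs)
    (hVS1 : ∀ s, s ∈ VS1 ↔ s ∈ VS ∨ s = p ∨ s = α ∨ s = r ∨ s = -α' ∨ s ∈ T1)
    (hVS2 : ∀ s, s ∈ VS2 ↔ s ∈ VS1 ∨ s = -r ∨ s = q ∨ s = β ∨ s = -β' ∨ s ∈ T2) :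
    (∀ s ∈ dem42 VS2, (s ∈ dem42 VS ∧ s ≠ p ∧ s ≠ α ∧ s ≠ q ∧ s ≠ β) ∨ s = α' ∨ s = β') ∧
    (∀ s ∈ dem42 VS, s ≠ p → s ≠ α → s ≠ q → s ≠ β → s ∈ dem42 VS2) ∧
    (α' + β' ≠ 0 → α' ∈ dem42 VS2 ∧ β' ∈ dem42 VS2) ∧
    (α' + β' = 0 → α' ∉ dem42 VS2 ∧ β' ∉ dem42 VS2) := by
  rw [mem_dem42] at hp hq hα hβ
  have hsub1 : ∀ s, s ∈ VS → s ∈ VS1 := fun s hs => (hVS1 s).mpr (Or.inl hs)
  have hsub2 : ∀ s, s ∈ VS1 → s ∈ VS2 := fun s hs => (hVS2 s).mpr (Or.inl hs)
  have hp2 : p ∈ VS2 := hsub2 _ ((hVS1 p).mpr (by simp))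
  have hα2 : α ∈ VS2 := hsub2 _ ((hVS1 α).mpr (by simp))
  have hr2 : r ∈ VS2 := hsub2 _ ((hVS1 r).mpr (by simp))
  have hna1 : -α' ∈ VS1 := (hVS1 _).mpr (by simp)
  have hna2 : -α' ∈ VS2 := hsub2 _ hna1
  have hnr2 : -r ∈ VS2 := (hVS2 _).mpr (by simp)
  have hq2 : q ∈ VS2 := (hVS2 _).mpr (by simp)
  have hβ2 : β ∈ VS2 := (hVS2 _).mpr (by simp)
  have hnb2 : -β' ∈ VS2 := (hVS2 _).mpr (by simp)
  refine ⟨?_, ?_, ?_, ?_⟩
  · intro s hs
    rw [mem_dem42] at hs
    obtain ⟨hs1, hs2⟩ := hs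
    have hsVS : s ∉ VS := fun h => hs2 (hsub2 _ (hsub1 _ h))
    have neg_of : ∀ t : ℤ, -s = t → s = -t := fun t h => by rw [← h, neg_neg]
    rw [hVS2, hVS1] at hs1
    rcases hs1 with (h | h | h | h | h | h) | h | h | h | h | h
    · left
      rw [mem_dem42]
      refine ⟨⟨h, hsVS⟩, ?_, ?_, ?_, ?_⟩ <;> rintro rfl
      · exact hs2 hp2
      · exact hs2 hα2
      · exact hs2 hq2
      · exact hs2 hβ2
    · exact absurd (by rw [neg_of _ h]; exact hp.1) hsVS
    · exact absurd (by rw [neg_of _ h]; exact hα.1) hsVS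
    · exact absurd (by rw [neg_of _ h]; exact hnr2) hs2
    · right; left
      rw [neg_of _ h, neg_neg]
    · exfalso
      have := (hT1 _ h).1
      rw [neg_neg] at this
      exact hs2 (hsub2 _ ((hVS1 s).mpr (by simp [this])))
    · exact absurd (by rw [neg_of _ h, neg_neg]; exact hr2) hs2
    · exact absurd (by rw [neg_of _ h]; exact hq.1) hsVS
    · exact absurd (by rw [neg_of _ h]; exact hβ.1) hsVS
    · right; right
      rw [neg_of _ h, neg_neg]
    · exfalso
      have := (hT2 _ h).1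
      rw [neg_neg] at this
      exact hs2 ((hVS2 s).mpr (by simp [this]))
  · intro s hs n1 n2 n3 n4
    rw [mem_dem42] at hs ⊢
    refine ⟨hsub2 _ (hsub1 _ hs.1), ?_⟩
    intro h
    rw [hVS2, hVS1] at h
    rcases h with (h | h | h | h | h | h) | h | h | h | h | h
    · exact hs.2 h
    · exact n1 h
    · exact n2 h
    · exact hr.2 (by rw [← h]; exact hs.1)
    · exact ha.1 (by have := hs.1; rwa [h, neg_neg] at this)
    · exact (hT1 _ h).2.2.2 hs.1
    · exact hr.1 (by have := hs.1; rwa [h, neg_neg] at this)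
    · exact n3 h
    · exact n4 h
    · exact hb.1 (by have := hs.1; rwa [h, neg_neg] at this)
    · exact (hT2 _ h).2.2.1 (hsub1 _ hs.1)
  · intro hK
    have e1 : α' ≠ -β' := fun h => hK (by rw [h]; ring)
    have e2 : β' ≠ -α' := fun h => hK (by rw [h]; ring)
    have f1 : ∀ t : ℤ, t ≠ 0 → t ≠ -t := fun t ht h => ht (by omega)
    constructor
    · rw [mem_dem42]
      refine ⟨hna2, ?_⟩
      intro h
      rw [hVS2, hVS1] at h
      rcases h with (h | h | h | h | h | h) | h | h | h | h | h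
      · exact ha.1 h
      · exact ha.2 (by rw [h]; exact hp.1)
      · exact ha.2 (by rw [h]; exact hα.1)
      · exact h1 (by rw [h])
      · exact f1 _ ha0 h
      · exact (hT1 _ h).2.1 hXa
      · exact h1 (by rw [h, Int.natAbs_neg])
      · exact ha.2 (by rw [h]; exact hq.1)
      · exact ha.2 (by rw [h]; exact hβ.1)
      · exact e1 h
      · exact (hT2 _ h).2.2.1 hna1
    · rw [mem_dem42]
      refine ⟨hnb2, ?_⟩
      intro h
      rw [hVS2, hVS1] at h
      rcases h with (h | h | h | h | h | h) | h | h | h | h | h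
      · exact hb.1 h
      · exact hb.2 (by rw [h]; exact hp.1)
      · exact hb.2 (by rw [h]; exact hα.1)
      · exact h2 (by rw [h])
      · exact e2 h
      · exact (hT1 _ h).2.1 hXb
      · exact h2 (by rw [h, Int.natAbs_neg])
      · exact hb.2 (by rw [h]; exact hq.1)
      · exact hb.2 (by rw [h]; exact hβ.1)
      · exact f1 _ hb0 h
      · exact (hT2 _ h).2.2.2 (by rw [Int.natAbs_neg])
  · intro hK
    have e1 : α' = -β' := by linarith only [hK]
    have e2 : β' = -α' := by linarith only [hK]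
    rw [mem_dem42, mem_dem42]
    constructor
    · rintro ⟨-, h⟩
      apply h
      rw [e1]
      exact hnb2
    · rintro ⟨-, h⟩
      apply h
      rw [e2]
      exact hna2

private theorem cls42 {VS : Finset ℤ} {US : Finset ℕ} {t : ℤ}
    (h : t.natAbs ∉ US ∪ VS.image Int.natAbs) : t.natAbs ∉ US ∧ t ∉ VS ∧ -t ∉ VS := by
  rw [mem_union, not_or, mem_image] at h
  refine ⟨h.1, fun h' => h.2 ⟨_, h', rfl⟩, fun h' => h.2 ⟨_, h', Int.natAbs_neg _⟩⟩

private theorem ind42 {e b : ℕ} {UX US : Finset ℕ} : ∀ (n : ℕ) (VL VS : Finset ℤ),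
    (dem42 VS).card ≤ n → Even (dem42 VS).card →
    100 * (UX.card + US.card + VL.card + VS.card + 20 * n + 200) ≤ b →
    Usd (20 * b) UX US VL VS → (∀ u ∈ VL, -u ∈ VL) → ∑ s ∈ VS, s = 0 →
    ((∀ d ∈ dem42 VS, |d| ≤ b) ∨ ∃ α ∈ dem42 VS, ∃ β ∈ dem42 VS, α ≠ β ∧ |α| ≤ 3 * b ∧
      |β| ≤ 3 * b ∧ |α + β| ≤ b ∧ ∀ d ∈ dem42 VS, d ≠ α → d ≠ β → |d| ≤ b) →
    ∃ (Z2 : List (ℤ × ℤ × ℤ × ℤ)) (VL' VS' : Finset ℤ), Z2.length ≤ n ∧
      VL'.val = VL.val + newL e [] Z2 ∧ VS'.val = VS.val + newS e [] Z2 ∧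
      Usd (20 * b) UX US VL' VS' ∧ (∀ u ∈ VL', -u ∈ VL') ∧ (∀ s ∈ VS', -s ∈ VS') := by
  intro n
  induction n using Nat.strong_induction_on with
  | _ n ih =>
  intro VL VS hn hev hb hU hsy h0 hinv
  have hdU : ∀ d ∈ dem42 VS, Even d ∧ d ≠ 0 ∧ d.natAbs ∉ US := by
    intro d hd
    rw [mem_dem42] at hd
    have hd0 : d ≠ 0 := by
      rintro rfl
      exact hd.2 hU.zero
    refine ⟨?_, hd0, ?_⟩
    · have := hU.seven _ hd.1
      rwa [even_neg] at this
    · have := hU.sU _ hd.1 (neg_ne_zero.mpr hd0)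
      rwa [Int.natAbs_neg] at this
  have hopp : ∀ d ∈ dem42 VS, ∀ d' ∈ dem42 VS, d + d' ≠ 0 := by
    intro d hd d' hd' h
    rw [mem_dem42] at hd hd'
    apply hd.2
    rw [show d = -d' by linarith only [h]]
    exact hd'.1
  have hb0 : (0 : ℤ) ≤ b := Int.natCast_nonneg b
  have hb1 : (1 : ℤ) ≤ b := by
    have : 1 ≤ b := by omega
    exact_mod_cast this
  rcases Finset.eq_empty_or_nonempty (dem42 VS) with hD | hD
  · refine ⟨[], VL, VS, by simp, by rw [newL_nil42, add_zero], by rw [newS_nil42, add_zero], hU, hsy, ?_⟩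
    intro s hs
    by_contra h
    have : -s ∈ dem42 VS := by
      rw [mem_dem42, neg_neg]
      exact ⟨hs, h⟩
    rw [hD] at this
    exact absurd this (Finset.notMem_empty _)
  have hsum := sum_dem42 h0
  obtain ⟨α, hα, β, hβ, hαβ, bα, bβ, bαβ, hrest⟩ : ∃ α ∈ dem42 VS, ∃ β ∈ dem42 VS, α ≠ β ∧
      |α| ≤ 3 * b ∧ |β| ≤ 3 * b ∧ |α + β| ≤ b ∧ ∀ d ∈ dem42 VS, d ≠ α → d ≠ β → |d| ≤ b := by
    rcases hinv with hinv | hinv
    · obtain ⟨α, hα, β, hβ, h1, h2⟩ := start42 hD (fun d hd => (hdU d hd).2.1) hinv hsum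
      exact ⟨α, hα, β, hβ, h1, (hinv α hα).trans (by linarith only [hb0]),
        (hinv β hβ).trans (by linarith only [hb0]), h2, fun d hd _ _ => hinv d hd⟩
    · exact hinv
  -- the demands `p` and `q`
  have hβ' : β ∈ (dem42 VS).erase α := mem_erase.mpr ⟨hαβ.symm, hβ⟩
  have s1 := Finset.add_sum_erase (dem42 VS) (fun s => s) hα
  have s2 := Finset.add_sum_erase ((dem42 VS).erase α) (fun s => s) hβ'
  have c1 := Finset.card_erase_add_one hα
  have c2 := Finset.card_erase_add_one hβ'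
  set D1 := ((dem42 VS).erase α).erase β with hD1
  have mD1 : ∀ d, d ∈ D1 ↔ d ≠ β ∧ d ≠ α ∧ d ∈ dem42 VS := by
    intro d
    rw [hD1, mem_erase, mem_erase]
  have bD1 : ∀ d ∈ D1, |d| ≤ (b : ℤ) := fun d hd => by
    rw [mD1] at hd
    exact hrest d hd.2.2 hd.2.1 hd.1
  have s3 : ∑ d ∈ D1, d = -(α + β) := by linarith only [s1, s2, hsum]
  have ne1 : D1.Nonempty := by
    rw [Finset.nonempty_iff_ne_empty]
    intro h
    rw [h, sum_empty] at s3
    exact hopp α hα β hβ (by linarith only [s3])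
  obtain ⟨p, hp, bp⟩ := pickopp42 ne1 bD1 bαβ s3
  have s4 := Finset.add_sum_erase D1 (fun s => s) hp
  have c3 := Finset.card_erase_add_one hp
  have s5 : ∑ d ∈ D1.erase p, d = -(α + β + p) := by linarith only [s3, s4]
  have ne2 : (D1.erase p).Nonempty := by
    rw [← Finset.card_pos]
    by_contra h
    have h' : (D1.erase p).card = 0 := by omega
    rw [h'] at c3
    rw [← c3] at c2
    rw [← c2] at c1
    rw [← c1] at hev
    exact absurd hev (by decide)
  obtain ⟨q, hq, bq⟩ := pickopp42 ne2 (fun d hd => bD1 d (mem_of_mem_erase hd)) bp s5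
  have c4 := Finset.card_erase_add_one hq
  have hqp : q ≠ p := (mem_erase.mp hq).1
  have hq1 : q ∈ D1 := mem_of_mem_erase hq
  have bp' := bD1 p hp
  have bq' := bD1 q hq1
  obtain ⟨hpβ, hpα, hpD⟩ := (mD1 p).mp hp
  obtain ⟨hqβ, hqα, hqD⟩ := (mD1 q).mp hq1
  obtain ⟨r, er, r1, r2, r3, r4, r5, r6, r7, r8⟩ := pickr42 (b := b) (C := US ∪ VS.image Int.natAbs)
    (u := p + α) (v := q + β) (by
      have g1 := card_union_le US (VS.image Int.natAbs)
      have g2 := card_image_le (s := VS) (f := Int.natAbs)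
      omega) (hopp p hpD α hα) (hopp q hqD β hβ)
  obtain ⟨r3u, r3a, r3b⟩ := cls42 r3
  obtain ⟨r4u, r4a, r4b⟩ := cls42 r4
  obtain ⟨r5u, r5a, r5b⟩ := cls42 r5
  set a' := p + α + r with ha'
  set b' := q + β - r with hb'
  have hsumab : a' + b' = α + β + p + q := by rw [ha', hb']; ring
  rw [abs_le] at bp' bq' bα bβ
  have ba' : |a'| ≤ 2 * b := by rw [abs_le]; constructor <;> linarith only [r1, r2, hb0]
  have ba0 : a' ≠ 0 := fun h => by linarith only [h, r1, hb1]
  have bb' : |b'| ≤ 3 * b := by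
    rw [abs_le] at bq ⊢
    constructor <;> linarith only [bq.1, bq.2, hsumab, r1, r2]
  have hb'0 : b' ≠ 0 := by
    intro h
    rw [h] at r5a
    exact r5a hU.zero
  have hr0 : r ≠ 0 := by
    intro h
    rw [h] at r3a
    exact r3a hU.zero
  have br : |r| ≤ 8 * b := by
    rw [abs_le]
    constructor <;> linarith only [r1, r2, ha', bp'.1, bp'.2, bα.1, bα.2, hb0]
  have small : ∀ d : ℤ, -(3 * (b : ℤ)) ≤ d ∧ d ≤ 3 * b → |d| ≤ 8 * b := by
    intro d hd
    rw [abs_le]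
    constructor <;> linarith only [hd.1, hd.2, hb0]
  have hpm := mem_dem42.mp hpD
  have hqm := mem_dem42.mp hqD
  have hαm := mem_dem42.mp hα
  have hβm := mem_dem42.mp hβ
  have nn_of : ∀ {s t : ℤ}, -s ∈ VS → -t ∉ VS → s ≠ t := by
    intro s t h1 h2 h3
    rw [h3] at h1
    exact h2 h1
  have nn_of' : ∀ {s t : ℤ}, -s ∈ VS → t ∉ VS → s ≠ -t := by
    intro s t h1 h2 h3
    rw [h3, neg_neg] at h1
    exact h2 h1
  set X : Finset ℕ := {r.natAbs, a'.natAbs, b'.natAbs} with hX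
  have cX : X.card ≤ 3 := card_le_three
  -- the first site
  obtain ⟨z1, VL1, VS1, T1, v1, v2, v3, v4, v5, v6, v7, v8, v9⟩ := site42 (e := e) (b := b)
    (UX := UX) (US := US) (X := X) (VL := VL) (VS := VS) (by omega) hU hsy
    (p1 := p) (p2 := α) (p3 := r) (p4 := -a')
    ⟨(hdU p hpD).1, (hdU p hpD).2.1, small p ⟨by linarith only [bp'.1, hb0], by linarith only [bp'.2, hb0]⟩⟩
    ⟨(hdU α hα).1, (hdU α hα).2.1, small α bα⟩ ⟨er, hr0, br⟩ (neg_ne_zero.mpr ba0)
    (by rw [abs_neg]; exact ba'.trans (by linarith only [hb0])) (by rw [ha']; ring)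
    (fun h => r3a (by rw [show r = -p by linarith only [h]]; exact hpm.1))
    (fun h => r3a (by rw [show r = -α by linarith only [h]]; exact hαm.1))
    ⟨hpm.2, hαm.2, r3a, r4b⟩
    ⟨hpα, nn_of hpm.1 r3b, nn_of' hpm.1 r4a, nn_of hαm.1 r3b, nn_of' hαm.1 r4a,
      fun h => r6 (by rw [h, Int.natAbs_neg])⟩
    ⟨(hdU p hpD).2.2, (hdU α hα).2.2, r3u, by rw [Int.natAbs_neg]; exact r4u⟩
  have rX : r.natAbs ∈ X := by rw [hX]; simp
  have aX : a'.natAbs ∈ X := by rw [hX]; simp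
  have bX : b'.natAbs ∈ X := by rw [hX]; simp
  -- the second site
  have hV2 : -r ∉ VS1 ∧ q ∉ VS1 ∧ β ∉ VS1 ∧ -b' ∉ VS1 := by
    refine ⟨?_, ?_, ?_, ?_⟩
    · rw [v5]
      rintro (h | h | h | h | h | h)
      · exact r3b h
      · exact r3a (by have := hpm.1; rwa [← h, neg_neg] at this)
      · exact r3a (by have := hαm.1; rwa [← h, neg_neg] at this)
      · exact hr0 (by omega)
      · exact r6 (by rw [neg_inj.mp h])
      · exact (v6 _ h).2.2.1 (by rw [Int.natAbs_neg]; exact rX)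
    · rw [v5]
      rintro (h | h | h | h | h | h)
      · exact hqm.2 h
      · exact hqp h
      · exact hqα h
      · exact nn_of hqm.1 r3b h
      · exact nn_of' hqm.1 r4a h
      · exact (v6 _ h).2.2.2.2.1 hqm.1
    · rw [v5]
      rintro (h | h | h | h | h | h)
      · exact hβm.2 h
      · exact hpβ h.symm
      · exact hαβ h.symm
      · exact nn_of hβm.1 r3b h
      · exact nn_of' hβm.1 r4a h
      · exact (v6 _ h).2.2.2.2.1 hβm.1
    · rw [v5]
      rintro (h | h | h | h | h | h)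
      · exact r5b h
      · exact nn_of' hpm.1 r5a h.symm
      · exact nn_of' hαm.1 r5a h.symm
      · exact r7 (by rw [← h, Int.natAbs_neg])
      · exact r8 (neg_inj.mp h).symm
      · exact (v6 _ h).2.2.1 (by rw [Int.natAbs_neg]; exact bX)
  obtain ⟨z2, VL2, VS2, T2, w1, w2, w3, w4, w5, w6, w7, w8, w9⟩ := site42 (e := e) (b := b)
    (UX := UX) (US := US) (X := X) (VL := VL1) (VS := VS1) (by omega) v3 v4
    (p1 := -r) (p2 := q) (p3 := β) (p4 := -b')
    ⟨er.neg, neg_ne_zero.mpr hr0, by rw [abs_neg]; exact br⟩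
    ⟨(hdU q hqD).1, (hdU q hqD).2.1, small q ⟨by linarith only [bq'.1, hb0], by linarith only [bq'.2, hb0]⟩⟩
    ⟨(hdU β hβ).1, (hdU β hβ).2.1, small β bβ⟩ (neg_ne_zero.mpr hb'0)
    (by rw [abs_neg]; exact bb'.trans (by linarith only [hb0])) (by rw [hb']; ring)
    (fun h => nn_of hβm.1 r3b (by linarith only [h])) (hopp q hqD β hβ) hV2
    ⟨(nn_of' hqm.1 r3a).symm, (nn_of' hβm.1 r3a).symm, fun h => r7 (by rw [← neg_inj.mp h]),
      hqβ, nn_of' hqm.1 r5a, nn_of' hβm.1 r5a⟩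
    ⟨by rw [Int.natAbs_neg]; exact r3u, (hdU q hqD).2.2, (hdU β hβ).2.2,
      by rw [Int.natAbs_neg]; exact r5u⟩
  obtain ⟨d1, d2, d3, d4⟩ := step_dem42 (X := X) hpD hqD hα hβ ⟨r3a, r3b⟩ ⟨r4a, r4b⟩ ⟨r5a, r5b⟩
    ba0 hb'0 r6 r7 aX bX
    (fun s hs => ⟨(v6 s hs).1, (v6 s hs).2.2.1, (v6 s hs).2.2.2.1, (v6 s hs).2.2.2.2.1⟩)
    (fun s hs => ⟨(w6 s hs).1, (w6 s hs).2.2.2.1, (w6 s hs).2.2.2.2.1, (w6 s hs).2.2.2.2.2.2.2.2⟩)
    v5 w5
  -- the remaining demands
  set R := (D1.erase p).erase q with hR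
  have mR : ∀ d, d ∈ R ↔ d ≠ q ∧ d ≠ p ∧ d ≠ β ∧ d ≠ α ∧ d ∈ dem42 VS := by
    intro d
    rw [hR, mem_erase, mem_erase, mD1]
  have hsum2 : ∑ s ∈ VS2, s = 0 := by rw [w9, v9, h0]
  have haR : a' ∉ R := fun h => r4b (mem_dem42.mp ((mR _).mp h).2.2.2.2).1
  have hbR : b' ∉ R := fun h => r5b (mem_dem42.mp ((mR _).mp h).2.2.2.2).1
  have bR : ∀ d ∈ R, |d| ≤ (b : ℤ) := fun d hd => bD1 d (by
    rw [mR] at hd
    rw [mD1]
    exact ⟨hd.2.2.1, hd.2.2.2.1, hd.2.2.2.2⟩)
  have fin : (dem42 VS2).card ≤ n - 2 ∧ Even (dem42 VS2).card ∧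
      ((∀ d ∈ dem42 VS2, |d| ≤ (b : ℤ)) ∨ ∃ α ∈ dem42 VS2, ∃ β ∈ dem42 VS2, α ≠ β ∧ |α| ≤ 3 * (b : ℤ) ∧
      |β| ≤ 3 * b ∧ |α + β| ≤ b ∧ ∀ d ∈ dem42 VS2, d ≠ α → d ≠ β → |d| ≤ b) := by
    by_cases hK : a' + b' = 0
    · obtain ⟨k1, k2⟩ := d4 hK
      have he : dem42 VS2 = R := by
        ext d
        rw [mR]
        constructor
        · intro hd
          rcases d1 d hd with h | h | h
          · exact ⟨h.2.2.2.1, h.2.1, h.2.2.2.2, h.2.2.1, h.1⟩
          · exact absurd (h ▸ hd) k1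
          · exact absurd (h ▸ hd) k2
        · intro hd
          exact d2 d hd.2.2.2.2 hd.2.1 hd.2.2.2.1 hd.1 hd.2.2.1
      rw [he]
      refine ⟨by omega, ?_, Or.inl bR⟩
      rw [← c1, ← c2, ← c3, ← c4] at hev
      rw [Nat.even_iff] at hev ⊢
      omega
    · obtain ⟨k1, k2⟩ := d3 hK
      have he : dem42 VS2 = insert a' (insert b' R) := by
        ext d
        rw [mem_insert, mem_insert, mR]
        constructor
        · intro hd
          rcases d1 d hd with h | h | h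
          · exact Or.inr (Or.inr ⟨h.2.2.2.1, h.2.1, h.2.2.2.2, h.2.2.1, h.1⟩)
          · exact Or.inl h
          · exact Or.inr (Or.inl h)
        · rintro (rfl | rfl | hd)
          · exact k1
          · exact k2
          · exact d2 d hd.2.2.2.2 hd.2.1 hd.2.2.2.1 hd.1 hd.2.2.1
      have hcard : (dem42 VS2).card = R.card + 2 := by
        rw [he, card_insert_of_notMem, card_insert_of_notMem hbR]
        rw [mem_insert, not_or]
        exact ⟨r8, haR⟩
      refine ⟨by omega, ?_, Or.inr ⟨a', k1, b', k2, r8, ba'.trans (by linarith only [hb0]), bb', ?_, ?_⟩⟩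
      · rw [hcard]
        rw [← c1, ← c2, ← c3, ← c4] at hev
        rw [Nat.even_iff] at hev ⊢
        omega
      · rw [hsumab]
        exact bq
      · intro d hd n1 n2
        rw [he, mem_insert, mem_insert] at hd
        rcases hd with h | h | h
        · exact absurd h n1
        · exact absurd h n2
        · exact bR d h
  obtain ⟨Z, VL', VS', y1, y2, y3, y4, y5, y6⟩ := ih (n - 2) (by omega) VL2 VS2 fin.1 fin.2.1
    (by omega) w3 w4 hsum2 fin.2.2
  refine ⟨z1 :: z2 :: Z, VL', VS', ?_, ?_, ?_, y4, y5, y6⟩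
  · simp only [List.length_cons]
    omega
  · rw [newL_cons42 e z1 (z2 :: Z), newL_cons42 e z2 Z, y2, w1, v1]
    simp only [add_assoc]
  · rw [newS_cons42 e z1 (z2 :: Z), newS_cons42 e z2 Z, y3, w2, v2]
    simp only [add_assoc]

theorem sumdem {e b : ℕ} (he : e = 1 ∨ e = 2) {UX US : Finset ℕ} {VL VS : Finset ℤ}
    (hb : 10000 * (UX.card + US.card + VL.card + VS.card + 100) ≤ b) (h : Usd b UX US VL VS)
    (hsy : ∀ u ∈ VL, -u ∈ VL) (hc : Odd VS.card) (h0 : ∑ s ∈ VS, s = 0) :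
    ∃ (Z2 : List (ℤ × ℤ × ℤ × ℤ)) (VL' VS' : Finset ℤ), Z2.length ≤ 2 * VS.card ∧
      VL'.val = VL.val + newL e [] Z2 ∧ VS'.val = VS.val + newS e [] Z2 ∧ Usd (20 * b) UX US VL' VS' ∧
      (∀ u ∈ VL', -u ∈ VL') ∧ (∀ s ∈ VS', -s ∈ VS') := by
  have h20 : (b : ℤ) ≤ ((20 * b : ℕ) : ℤ) := by
    push_cast
    have : (0 : ℤ) ≤ b := Int.natCast_nonneg b
    linarith only [this]
  obtain ⟨Z, VL', VS', y1, y2⟩ := ind42 (e := e) (b := b) (UX := UX) (US := US) VS.card VL VS
    (card_dem42 VS) (even_dem42 hc h.zero) (by omega)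
    ⟨h.lodd, fun u hu => (h.lb u hu).trans h20, h.lU, h.seven, fun s hs => (h.sb s hs).trans h20, h.sU,
      h.zero⟩ hsy h0 (Or.inl (fun d hd => by
        have := h.sb _ (mem_dem42.mp hd).1
        rwa [abs_neg] at this))
  exact ⟨Z, VL', VS', by omega, y2⟩

end Pool.Agent.BD
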