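import Pool.Agent.Helper73.BD.D2
import Pool.Agent.Helper73.BD.D3

/-!
# BD-D4: the demand phase

Proof in words.  `labdem`, then `sumdem` with `4b`: the total of the sums is `∑ VS - e ∑ VL = 0`; the number of sums changes by `2 e |Z1|`, so stays odd; `|VL'| ≤ 4|VL| + ..`, so the capacity condition holds.
`newL e Z1 Z2 = newL e Z1 [] + newL e [] Z2`, the same for `newS`.
-/

set_option autoImplicit false

namespace Pool.Agent.BD

open Finset Pool.Agent.SEM

private lemma newL_split34 (e : ℕ) (Z1 Z2 : List (ℤ × ℤ × ℤ × ℤ)) :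
    newL e Z1 Z2 = newL e Z1 [] + newL e [] Z2 := by
  unfold newL
  split_ifs <;> simp

private lemma newS_split34 (e : ℕ) (Z1 Z2 : List (ℤ × ℤ × ℤ × ℤ)) :
    newS e Z1 Z2 = newS e Z1 [] + newS e [] Z2 := by
  unfold newS
  split_ifs <;> simp [add_assoc]

private lemma len34 (Z : List (ℤ × ℤ × ℤ × ℤ)) (f : ℤ × ℤ × ℤ × ℤ → List ℤ) (k : ℕ)
    (hf : ∀ z, (f z).length = k) : (Z.flatMap f).length = k * Z.length := by
  induction Z with
  | nil => simp
  | cons z Z ih => rw [List.flatMap_cons, List.length_append, ih, hf, List.length_cons]; ring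

private lemma card_newL34 (e : ℕ) (Z1 : List (ℤ × ℤ × ℤ × ℤ)) :
    (newL e Z1 []).card = 4 * Z1.length + (if e = 2 then 2 * Z1.length else 0) := by
  unfold newL
  split_ifs with he
  · rw [Multiset.card_add, Multiset.card_add, Multiset.coe_card, Multiset.coe_card,
      len34 Z1 _ 4 (fun z => rfl), len34 Z1 _ 2 (fun z => rfl)]
    simp
  · rw [Multiset.card_add, Multiset.card_add, Multiset.coe_card,
      len34 Z1 _ 4 (fun z => rfl)]
    simp

private lemma card_newS34 (e : ℕ) (Z1 : List (ℤ × ℤ × ℤ × ℤ)) :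
    (newS e Z1 []).card = 2 * Z1.length + (if e = 2 then 2 * Z1.length else 0) := by
  unfold newS
  split_ifs with he
  · rw [Multiset.card_add, Multiset.card_add, Multiset.card_add, Multiset.coe_card, Multiset.coe_card,
      len34 Z1 _ 2 (fun z => rfl), len34 Z1 _ 2 (fun z => rfl)]
    simp
  · rw [Multiset.card_add, Multiset.card_add, Multiset.card_add, Multiset.coe_card,
      len34 Z1 _ 2 (fun z => rfl)]
    simp

private lemma Usd.mono34 {b c : ℕ} {UX US : Finset ℕ} {VL VS : Finset ℤ} (h : Usd b UX US VL VS)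
    (hbc : b ≤ c) : Usd c UX US VL VS where
  lodd := h.lodd
  lb := fun u hu => (h.lb u hu).trans (by exact_mod_cast hbc)
  lU := h.lU
  seven := h.seven
  sb := fun s hs => (h.sb s hs).trans (by exact_mod_cast hbc)
  sU := h.sU
  zero := h.zero

theorem demands {e b : ℕ} (he : e = 1 ∨ e = 2) {UX US : Finset ℕ} {VL VS : Finset ℤ}
    (hb : 10 ^ 6 * (UX.card + US.card + VL.card + VS.card + 100) ≤ b) (h : Usd b UX US VL VS)
    (hcL : Even VL.card) (hcS : Odd VS.card) (hbal : ∑ s ∈ VS, s = e * ∑ u ∈ VL, u) :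
    ∃ (Z1 Z2 : List (ℤ × ℤ × ℤ × ℤ)) (VL' VS' : Finset ℤ), Z1.length + Z2.length ≤ 20 * (VL.card + VS.card) ∧
      VL'.val = VL.val + newL e Z1 Z2 ∧ VS'.val = VS.val + newS e Z1 Z2 ∧ Usd (100 * b) UX US VL' VS' ∧
      (∀ u ∈ VL', -u ∈ VL') ∧ (∀ s ∈ VS', -s ∈ VS') ∧ (∀ z ∈ Z1, Odd z.2.1) := by
  obtain ⟨Z1, VL1, VS1, hZ1, hL1, hS1, hU1, hsy1, hsum1, hodd1⟩ := labdem he
    (le_trans (Nat.mul_le_mul_right _ (by norm_num)) hb) h hcL
  have cL : VL1.card = VL.card + (4 * Z1.length + (if e = 2 then 2 * Z1.length else 0)) := by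
    have h1 := congrArg Multiset.card hL1
    rw [Multiset.card_add, card_newL34] at h1
    exact h1
  have cS : VS1.card = VS.card + (2 * Z1.length + (if e = 2 then 2 * Z1.length else 0)) := by
    have h1 := congrArg Multiset.card hS1
    rw [Multiset.card_add, card_newS34] at h1
    exact h1
  have hif : (if e = 2 then 2 * Z1.length else 0) ≤ 2 * Z1.length := by
    split_ifs <;> omega
  have hifE : Even (if e = 2 then 2 * Z1.length else 0) := by
    split_ifs
    · exact even_two_mul _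
    · exact Even.zero
  have hoS : Odd VS1.card := by
    rw [cS]
    exact hcS.add_even ((even_two_mul _).add hifE)
  have hb2 : 10000 * (UX.card + US.card + VL1.card + VS1.card + 100) ≤ 4 * b := by
    omega
  obtain ⟨Z2, VL2, VS2, hZ2, hL2, hS2, hU2, hsy2, hsy3⟩ := sumdem he hb2 hU1 hsy1 hoS
    (by rw [hsum1, hbal, sub_self])
  refine ⟨Z1, Z2, VL2, VS2, by omega, ?_, ?_, hU2.mono34 (by omega), hsy2, hsy3, hodd1⟩
  · rw [hL2, hL1, newL_split34 e Z1 Z2, add_assoc]
  · rw [hS2, hS1, newS_split34 e Z1 Z2, add_assoc]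

end Pool.Agent.BD
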