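import Pool.Agent.Helper73.SEM.Defs

/-!
# Project BD (MP_138ac9_co): large trees of bounded degree are super edge-magic; definitions

`n` is even.  Centred coordinates: the label `x ∈ [1,n]` becomes the odd integer `2x - (n+1)`, the sum `s` becomes the even integer `2s - 2(n+1)`.
A class is an absolute value of a label (odd) or of a nonzero sum (even).
-/

set_option autoImplicit false

namespace Pool.Agent.BD

open Finset Pool.Agent.SEM

/-- labels: odd integers of absolute value less than `n` (`n` even) -/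
noncomputable def Lab (n : ℕ) : Finset ℤ := (Finset.Icc (-(n : ℤ)) (n : ℤ)).filter fun u => Odd u

/-- sums: even integers of absolute value at most `n - 2` (`n` even) -/
noncomputable def Sm (n : ℕ) : Finset ℤ := (Finset.Icc (-(n : ℤ) + 1) ((n : ℤ) - 1)).filter fun t => Even t

/-- classes of labels -/
def LC (n : ℕ) : Finset ℕ := (Icc 1 n).filter fun x => Odd x

/-- classes of nonzero sums -/
def SC (n : ℕ) : Finset ℕ := (Icc 1 (n - 1)).filter fun s => Even s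

/-- the integers with absolute value in `C` -/
def pm (C : Finset ℕ) : Finset ℤ := C.image (fun x : ℕ => (x : ℤ)) ∪ C.image fun x : ℕ => -(x : ℤ)

theorem mem_pm {C : Finset ℕ} {u : ℤ} : u ∈ pm C ↔ u.natAbs ∈ C := by
  unfold pm
  rw [mem_union, mem_image, mem_image]
  constructor
  · rintro (⟨x, hx, rfl⟩ | ⟨x, hx, rfl⟩)
    · simpa using hx
    · simpa using hx
  · intro h
    rcases Int.natAbs_eq u with hu | hu
    · exact Or.inl ⟨_, h, hu.symm⟩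
    · exact Or.inr ⟨_, h, hu.symm⟩

theorem mem_Lab {n : ℕ} {u : ℤ} : u ∈ Lab n ↔ (-(n : ℤ) ≤ u ∧ u ≤ n) ∧ Odd u := by
  unfold Lab; rw [mem_filter, mem_Icc]

theorem mem_Sm {n : ℕ} {t : ℤ} : t ∈ Sm n ↔ (-(n : ℤ) + 1 ≤ t ∧ t ≤ n - 1) ∧ Even t := by
  unfold Sm; rw [mem_filter, mem_Icc]

theorem mem_LC {n x : ℕ} : x ∈ LC n ↔ (1 ≤ x ∧ x ≤ n) ∧ Odd x := by
  unfold LC; rw [mem_filter, mem_Icc]

theorem mem_SC {n s : ℕ} : s ∈ SC n ↔ (1 ≤ s ∧ s ≤ n - 1) ∧ Even s := by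
  unfold SC; rw [mem_filter, mem_Icc]

/-- the hexagon kernel -/
noncomputable def hex (u v : ℤ) : ℝ := max |(u : ℝ)| (max |(v : ℝ)| |(u : ℝ) + v|)

/-- exact transition kernel on the labels `pm X` with sums in `pm S` -/
structure EK (n : ℕ) (X S : Finset ℕ) (B : ℝ) (k : ℤ → ℤ → ℝ) : Prop where
  nn : ∀ u v, 0 ≤ k u v
  supp : ∀ u v, k u v ≠ 0 → u ∈ pm X ∧ v ∈ pm X ∧ u + v ∈ pm S
  row : ∀ u ∈ pm X, ∑ v ∈ pm X, k u v = 1
  col : ∀ v ∈ pm X, ∑ u ∈ pm X, k u v = 1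
  dia : ∀ t ∈ pm S, ∑ u ∈ pm X, k u (t - u) = (X.card : ℝ) / S.card
  up : ∀ u v, k u v ≤ B / n

/-- a finite random labelling with integer labels -/
structure FZ where
  Ω : Type
  fin : Fintype Ω
  wt : Ω → ℝ
  Φ : Ω → ℕ → ℤ

/-- expectation -/
noncomputable def FZ.Ex (L : FZ) (F : (ℕ → ℤ) → ℝ) : ℝ :=
  letI := L.fin
  ∑ ω : L.Ω, L.wt ω * F (L.Φ ω)

open Classical in
/-- probability -/
noncomputable def FZ.Pr (L : FZ) (E : (ℕ → ℤ) → Prop) : ℝ := L.Ex fun φ => if E φ then 1 else 0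

/-- `P` with root `τ` is a tree for the parent function `p` -/
structure Tr (p : ℕ → ℕ) (P : Finset ℕ) (τ : ℕ) : Prop where
  root : τ ∈ P
  par : ∀ v ∈ P, v ≠ τ → p v ∈ P ∧ p v < v

/-- random labelling of the tree `P`: labels uniform on `pm X`, sums uniform on `pm S`, joint probabilities `≤ (B/n)^|A|` -/
structure UL (n : ℕ) (X S : Finset ℕ) (p : ℕ → ℕ) (P : Finset ℕ) (τ : ℕ) (B : ℝ) (L : FZ) : Prop where
  nn : ∀ ω, 0 ≤ L.wt ω
  one : L.Ex (fun _ => 1) = 1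
  lbl : ∀ ω, L.wt ω ≠ 0 → ∀ v ∈ P, L.Φ ω v ∈ pm X
  sm : ∀ ω, L.wt ω ≠ 0 → ∀ v ∈ P, v ≠ τ → L.Φ ω v + L.Φ ω (p v) ∈ pm S
  vtx : ∀ v ∈ P, ∀ u : ℤ, L.Pr (fun φ => φ v = u) ≤ 1 / (2 * X.card)
  edg : ∀ v ∈ P, v ≠ τ → ∀ t : ℤ, L.Pr (fun φ => φ v + φ (p v) = t) ≤ 1 / (2 * S.card)
  joint : ∀ A ⊆ P, ∀ x : ℕ → ℤ, L.Pr (fun φ => ∀ v ∈ A, φ v = x v) ≤ (B / n) ^ A.card

/-- the label class `a` is used -/
def hL (P : Finset ℕ) (a : ℕ) (φ : ℕ → ℤ) : Prop := ∃ v ∈ P, (φ v).natAbs = a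

/-- the sum class `b` is used -/
def hS (p : ℕ → ℕ) (P : Finset ℕ) (τ b : ℕ) (φ : ℕ → ℤ) : Prop :=
  ∃ v ∈ P, v ≠ τ ∧ (φ v + φ (p v)).natAbs = b

/-- no label class and no sum class is used twice -/
def cInj (p : ℕ → ℕ) (P : Finset ℕ) (τ : ℕ) (φ : ℕ → ℤ) : Prop :=
  Set.InjOn (fun v => (φ v).natAbs) P ∧ Set.InjOn (fun v => (φ v + φ (p v)).natAbs) (P.erase τ : Finset ℕ)

/-! ### Gadgets

A single site `(c, c2)` is a vertex `v` with flexible label `x` adjacent to vertices with labels `c` and (only if `e = 2`) `c2`; a pair site `(c, c2)` consists of two vertices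
with flexible labels `x, y`, adjacent to vertices with labels `c` resp. `c2` (and, if `e = 2`, to each other). -/

/-- classes of the flexible labels; `A`: single sites with labels `(c, c2, x)`, `C`: pair sites with labels `(c, c2, x, y)` -/
def lbls (A : List (ℤ × ℤ × ℤ)) (C : List (ℤ × ℤ × ℤ × ℤ)) : Multiset ℕ :=
  ↑(A.map fun z => z.2.2.natAbs) + ↑(C.map fun z => z.2.2.1.natAbs) + ↑(C.map fun z => z.2.2.2.natAbs)

/-- classes of the sums at the flexible vertices -/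
def smms (e : ℕ) (A : List (ℤ × ℤ × ℤ)) (C : List (ℤ × ℤ × ℤ × ℤ)) : Multiset ℕ :=
  ↑(A.map fun z => (z.1 + z.2.2).natAbs) + (if e = 2 then ↑(A.map fun z => (z.2.1 + z.2.2).natAbs) else 0) +
    ↑(C.map fun z => (z.1 + z.2.2.1).natAbs) + ↑(C.map fun z => (z.2.1 + z.2.2.2).natAbs) +
    (if e = 2 then ↑(C.map fun z => (z.2.2.1 + z.2.2.2).natAbs) else 0)

/-- the sites can be labelled with label classes exactly `L` and sum classes exactly `S` -/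
def Abs (e : ℕ) (L1 L2 : List (ℤ × ℤ)) (L S : Finset ℕ) : Prop :=
  ∃ (A : List (ℤ × ℤ × ℤ)) (C : List (ℤ × ℤ × ℤ × ℤ)), A.map (fun z => (z.1, z.2.1)) = L1 ∧ C.map (fun z => (z.1, z.2.1)) = L2 ∧
    (∀ z ∈ A, Odd z.2.2) ∧ (∀ z ∈ C, Odd z.2.2.1 ∧ Odd z.2.2.2) ∧ lbls A C = L.val ∧ smms e A C = S.val

/-- classes of the core labels -/
def crs (e : ℕ) (L1 L2 : List (ℤ × ℤ)) : Multiset ℕ :=
  ↑(L1.map fun z => z.1.natAbs) + (if e = 2 then ↑(L1.map fun z => z.2.natAbs) else 0) +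
    ↑(L2.map fun z => z.1.natAbs) + ↑(L2.map fun z => z.2.natAbs)

/-- gadget with sites `L1, L2`, core classes `C`, common label classes `L`, common sum classes `S`, all new (not in `UX`, `US`) -/
structure Gd (e n : ℕ) (UX US : Finset ℕ) (L1 L2 : List (ℤ × ℤ)) (C L S : Finset ℕ) : Prop where
  core : crs e L1 L2 = C.val
  odd1 : ∀ z ∈ L1, Odd z.1 ∧ Odd z.2
  odd2 : ∀ z ∈ L2, Odd z.1 ∧ Odd z.2
  Cs : C ⊆ LC n
  Cb : ∀ x ∈ C, 10 * x ≤ 9 * n
  Ls : L ⊆ LC n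
  Ss : S ⊆ SC n
  CL : Disjoint C L
  CU : Disjoint C UX
  LU : Disjoint L UX
  SU : Disjoint S US

end Pool.Agent.BD
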