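import Pool.Agent.Helper73.BD.E0

/-!
# BD-E1: labelling the set `E` (greedy part, controlled weighted sum)

`w` = integer weights.  Start: `A0 = {0, B1, p B1}` labelled `-1, z, -z` (sum `0` on the edge `(B1, p B1)`; `0` is not adjacent... it may be adjacent to `p B1`), then all the
vertices of `E1` in increasing order with labels of absolute value in `[1, b]`, then all the vertices of `E2` (weights `1 ≤ |w| ≤ D`) with labels of absolute value in `[2b, 3b]`.
The sign of every new label is chosen such that `w v * f v` has the sign opposite to the current total `R = ∑ w v * f v` (any sign if `R = 0` or `w v = 0`).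
So in phase 1 `|R| ≤ b (∑_{E1} |w| + |w 0| + ..)`: more precisely `|R| ≤ b * ∑ |w v|` over the labelled vertices; in phase 2 every step either decreases `|R|` by at least `2b` or leaves `|R| ≤ 3 D b`.
At the end `|R| ≤ 3 D b` because `∑_{A0 ∪ E1} |w| ≤ 2 |E2| + D`.
Number of labelled neighbours when a vertex is labelled: phase 1: the parent and vertices of `A0`: at most 4; phase 2: `≤ D + 4`.
(If `a ≤ u ≤ c` is replaced by negative labels use `pl_step` with the interval `[-c, -a]`.)  `z`: choose it with `pick`: `z ∈ [2, b]`, odd, fresh class, `z + f, -z + f` fine for `f = -1` (if `0` is adjacent to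
`p B1` or ...; `B1 ≠ 0`, `p B1 ≠ 0`).
-/

set_option autoImplicit false

namespace Pool.Agent.BD

open Finset Pool.Agent.SEM

/-- the start: `0, B1, p B1` labelled `-1, z, -z` -/
private theorem start14 {p : ℕ → ℕ} {UX US : Finset ℕ} {B1 : ℕ} {b : ℤ} (hB0 : 0 < B1)
    (hpB : p B1 < B1) (hpB0 : p B1 ≠ 0) (hpp : p (p B1) < p B1) (h1 : 1 ∉ UX)
    (hb : 2 * ((UX.card : ℤ) + US.card + 1) ≤ b - 2) :
    ∃ f : ℕ → ℤ, PLb p UX US {0, B1, p B1} f ∧ f 0 = -1 ∧ f B1 + f (p B1) = 0 ∧
      ∀ v ∈ ({0, B1, p B1} : Finset ℕ), |f v| ≤ b := by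
  classical
  set Bad : Finset ℤ := UX.image (fun x : ℕ => (x : ℤ)) ∪ US.image (fun x : ℕ => (x : ℤ) - 1)
    with hBad
  have hcard : (Bad.card : ℤ) ≤ UX.card + US.card := by
    have h2 := Finset.card_union_le (UX.image (fun x : ℕ => (x : ℤ)))
      (US.image (fun x : ℕ => (x : ℤ) - 1))
    have h3 : (UX.image (fun x : ℕ => (x : ℤ))).card ≤ UX.card := Finset.card_image_le
    have h4 : (US.image (fun x : ℕ => (x : ℤ) - 1)).card ≤ US.card := Finset.card_image_le
    rw [← hBad] at h2
    have h5 : Bad.card ≤ UX.card + US.card := by omega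
    exact_mod_cast h5
  obtain ⟨z, hz2, hzb, hzr, hzBad⟩ := pick 2 (by norm_num) 1 2 b Bad (by push_cast; linarith)
  have hzodd : Odd z := by
    rw [Int.odd_iff]
    have h2 := hzr
    rw [Int.ModEq] at h2
    push_cast at h2
    omega
  have hzX : z.natAbs ∉ UX := by
    intro h
    apply hzBad
    rw [hBad, mem_union, mem_image]
    exact Or.inl ⟨_, h, by omega⟩
  have hzS : (z + 1).natAbs ∉ US := by
    intro h
    apply hzBad
    rw [hBad, mem_union]
    right
    rw [mem_image]
    exact ⟨_, h, by omega⟩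
  set f : ℕ → ℤ := fun v => if v = 0 then -1 else if v = B1 then z else -z with hf
  have f0 : f 0 = -1 := by simp [hf]
  have fB : f B1 = z := by simp [hf, hB0.ne']
  have fpB : f (p B1) = -z := by simp [hf, hpB0, hpB.ne]
  have hmem : ∀ v ∈ ({0, B1, p B1} : Finset ℕ), v = 0 ∨ v = B1 ∨ v = p B1 := by
    intro v hv
    simpa using hv
  have hedge : ∀ i ∈ EdI p {0, B1, p B1}, (i = B1 ∧ f i + f (p i) = 0) ∨
      (i = p B1 ∧ f i + f (p i) = -(z + 1)) := by
    intro i hi
    unfold EdI at hi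
    rw [mem_filter] at hi
    obtain ⟨hi1, hi2, hi3⟩ := hi
    rcases hmem i hi1 with rfl | rfl | rfl
    · exact absurd hi2 (lt_irrefl _)
    · left
      exact ⟨rfl, by rw [fB, fpB]; ring⟩
    · right
      refine ⟨rfl, ?_⟩
      rcases hmem _ hi3 with h | h | h
      · rw [h, fpB, f0]; ring
      · omega
      · omega
  refine ⟨f, ⟨?_, ?_, ?_, ?_, ?_⟩, f0, by rw [fB, fpB]; ring, ?_⟩
  · intro v hv
    rcases hmem v hv with rfl | rfl | rfl
    · rw [f0]; decide
    · rw [fB]; exact hzodd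
    · rw [fpB]; exact hzodd.neg
  · intro v hv v' hv' h
    rcases hmem v hv with rfl | rfl | rfl <;> rcases hmem v' hv' with rfl | rfl | rfl
    · rfl
    · rw [f0, fB] at h; omega
    · rw [f0, fpB] at h; omega
    · rw [f0, fB] at h; omega
    · rfl
    · rw [fpB, fB] at h; omega
    · rw [f0, fpB] at h; omega
    · rw [fpB, fB] at h; omega
    · rfl
  · intro v hv
    rcases hmem v hv with rfl | rfl | rfl
    · rw [f0]; exact h1
    · rw [fB]; exact hzX
    · rw [fpB, Int.natAbs_neg]; exact hzX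
  · intro i hi j hj h
    rcases hedge i hi with ⟨hi1, hi2⟩ | ⟨hi1, hi2⟩ <;> rcases hedge j hj with ⟨hj1, hj2⟩ | ⟨hj1, hj2⟩
    · rw [hi1, hj1]
    · simp only [hi2, hj2] at h; omega
    · simp only [hi2, hj2] at h; omega
    · rw [hi1, hj1]
  · intro i hi hne
    rcases hedge i hi with ⟨_, hi2⟩ | ⟨_, hi2⟩
    · exact absurd hi2 hne
    · rw [hi2, Int.natAbs_neg]; exact hzS
  · intro v hv
    rcases hmem v hv with rfl | rfl | rfl
    · rw [f0, abs_neg, abs_one]; omega
    · rw [fB, abs_of_nonneg (by omega)]; exact hzb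
    · rw [fpB, abs_neg, abs_of_nonneg (by omega)]; exact hzb

/-- phase 1 -/
private theorem phase1_14 {p : ℕ → ℕ} {UX US A0 E1 : Finset ℕ} {B1 b M : ℕ}
    (hA0 : A0.card ≤ 3) (h0 : 0 ∈ A0) (hB : B1 ∈ A0) (hpB : p B1 ∈ A0)
    (hp : ∀ i ∈ A0 ∪ E1, 0 < i → p i < i) (d1 : Disjoint A0 E1) (hM : (A0 ∪ E1).card ≤ M)
    (hb : 2 * (2 * (UX.card : ℤ) + 2 * M + 4 * (2 * US.card + 2 * M + 2) + 4 ^ 2 + 2) ≤ b - 1)
    {f0 : ℕ → ℤ} (hf0 : PLb p UX US A0 f0) (hf00 : f0 0 = -1) (hf0B : f0 B1 + f0 (p B1) = 0)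
    (hf0b : ∀ v ∈ A0, |f0 v| ≤ b) :
    ∃ f : ℕ → ℤ, PLb p UX US (A0 ∪ E1) f ∧ f 0 = -1 ∧ f B1 + f (p B1) = 0 ∧
      ∀ v ∈ A0 ∪ E1, |f v| ≤ b := by
  classical
  have key : ∀ s : Finset ℕ, s ⊆ E1 → ∃ f : ℕ → ℤ, PLb p UX US (A0 ∪ s) f ∧ f 0 = -1 ∧
      f B1 + f (p B1) = 0 ∧ ∀ v ∈ A0 ∪ s, |f v| ≤ b := by
    intro s
    induction s using Finset.induction_on_max with
    | empty =>
      intro _
      rw [union_empty]
      exact ⟨f0, hf0, hf00, hf0B, hf0b⟩
    | insert a s hmax ih =>
      intro hs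
      obtain ⟨f, hf, hf0, hfB, hfb⟩ := ih (fun x hx => hs (mem_insert_of_mem hx))
      have haE : a ∈ E1 := hs (mem_insert_self _ _)
      have haA0 : a ∉ A0 := fun h => (Finset.disjoint_left.1 d1 h) haE
      have has : a ∉ s := fun h => lt_irrefl _ (hmax a h)
      have haA : a ∉ A0 ∪ s := by
        rw [mem_union, not_or]; exact ⟨haA0, has⟩
      have hsub : insert a (A0 ∪ s) ⊆ A0 ∪ E1 := by
        rw [← union_insert]
        exact union_subset_union_right hs
      have hnb : ((A0 ∪ s).filter fun w => Ad p a w).card ≤ 4 := by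
        have hsub2 : ((A0 ∪ s).filter fun w => Ad p a w) ⊆ insert (p a) A0 := by
          intro w hw
          rw [mem_filter] at hw
          rw [mem_insert]
          rcases hw.2 with h | h
          · exact Or.inl h.2.symm
          · right
            rcases mem_union.1 hw.1 with h2 | h2
            · exact h2
            · exfalso
              have h3 := hp w (hsub (mem_insert_of_mem hw.1)) h.1
              have h4 := hmax w h2
              omega
        have h2 := (Finset.card_le_card hsub2).trans (Finset.card_insert_le _ _)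
        omega
      have hcard : (A0 ∪ s).card ≤ M :=
        (Finset.card_le_card ((subset_insert _ _).trans hsub)).trans hM
      have hcard' : ((A0 ∪ s).card : ℤ) ≤ M := by exact_mod_cast hcard
      obtain ⟨u, hu1, hu2, _, hPL, _, _⟩ := pl_step hf haA (fun i hi => hp i (hsub hi)) hnb
        (m := 2) (by norm_num) 1 1 (b : ℤ)
        (by
          intro u hu
          rw [Int.odd_iff]
          rw [Int.ModEq] at hu
          push_cast at hu
          omega)
        (by push_cast; linarith)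
      refine ⟨Function.update f a u, ?_, ?_, ?_, ?_⟩
      · rw [union_insert]; exact hPL
      · rw [Function.update_of_ne]
        · exact hf0
        · rintro rfl; exact haA0 h0
      · rw [Function.update_of_ne, Function.update_of_ne]
        · exact hfB
        · intro h; rw [← h] at haA0; exact haA0 hpB
        · rintro rfl; exact haA0 hB
      · intro v hv
        rw [union_insert, mem_insert] at hv
        by_cases hva : v = a
        · rw [hva, Function.update_self, abs_of_nonneg (by linarith)]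
          exact hu2
        · rw [Function.update_of_ne hva]
          exact hfb v (hv.resolve_left hva)
  exact key E1 (Finset.Subset.refl _)

private theorem aux14 {w u D b : ℤ} (hb : 0 ≤ b) (hw1 : 1 ≤ w) (hwD : w ≤ D) (hu1 : 2 * b ≤ u)
    (hu2 : u ≤ 3 * b) : 2 * b ≤ w * u ∧ w * u ≤ 3 * D * b := by
  constructor
  · calc 2 * b ≤ 1 * u := by linarith
      _ ≤ w * u := mul_le_mul_of_nonneg_right hw1 (by linarith)
  · calc w * u ≤ D * (3 * b) := mul_le_mul hwD hu2 (by linarith) (by linarith)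
      _ = 3 * D * b := by ring

/-- phase 2 -/
private theorem phase2_14 {p : ℕ → ℕ} {UX US A1 E2 : Finset ℕ} {B1 D b M : ℕ} (w : ℕ → ℤ)
    (h0 : 0 ∈ A1) (hB : B1 ∈ A1) (hpB : p B1 ∈ A1)
    (hp : ∀ i ∈ A1 ∪ E2, 0 < i → p i < i) (d2 : Disjoint A1 E2) (hM : (A1 ∪ E2).card ≤ M)
    (hw2 : ∀ v ∈ E2, 1 ≤ |w v| ∧ |w v| ≤ D)
    (hdeg : ∀ v ∈ E2, ((A1 ∪ E2).filter fun u => Ad p v u).card ≤ D + 4)
    (hb : 2 * (2 * (UX.card : ℤ) + 2 * M + (D + 4) * (2 * US.card + 2 * M + 2) + (D + 4) ^ 2 + 2)
      ≤ b)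
    (S1 : ℤ)
    {f0 : ℕ → ℤ} (hf0 : PLb p UX US A1 f0) (hf00 : f0 0 = -1) (hf0B : f0 B1 + f0 (p B1) = 0)
    (hf0b : ∀ v ∈ A1, |f0 v| ≤ 3 * b) (hf0S : |∑ v ∈ A1, w v * f0 v| ≤ b * S1) :
    ∃ f : ℕ → ℤ, PLb p UX US (A1 ∪ E2) f ∧ f 0 = -1 ∧ f B1 + f (p B1) = 0 ∧
      (∀ v ∈ A1 ∪ E2, |f v| ≤ 3 * b) ∧
      |∑ v ∈ A1 ∪ E2, w v * f v| ≤ max (3 * (D : ℤ) * b) (b * S1 - 2 * b * E2.card) := by
  classical
  have hb0 : (0 : ℤ) ≤ b := Int.natCast_nonneg b
  have key : ∀ s : Finset ℕ, s ⊆ E2 → ∃ f : ℕ → ℤ, PLb p UX US (A1 ∪ s) f ∧ f 0 = -1 ∧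
      f B1 + f (p B1) = 0 ∧ (∀ v ∈ A1 ∪ s, |f v| ≤ 3 * b) ∧
      |∑ v ∈ A1 ∪ s, w v * f v| ≤ max (3 * (D : ℤ) * b) (b * S1 - 2 * b * s.card) := by
    intro s
    induction s using Finset.induction_on with
    | empty =>
      intro _
      rw [union_empty]
      refine ⟨f0, hf0, hf00, hf0B, hf0b, ?_⟩
      rw [card_empty, Nat.cast_zero, mul_zero, sub_zero]
      exact hf0S.trans (le_max_right _ _)
    | insert a s has ih =>
      intro hs
      obtain ⟨f, hf, hf0, hfB, hfb, hfS⟩ := ih (fun x hx => hs (mem_insert_of_mem hx))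
      have haE : a ∈ E2 := hs (mem_insert_self _ _)
      have haA1 : a ∉ A1 := fun h => (Finset.disjoint_left.1 d2 h) haE
      have haA : a ∉ A1 ∪ s := by
        rw [mem_union, not_or]; exact ⟨haA1, has⟩
      have hsub : insert a (A1 ∪ s) ⊆ A1 ∪ E2 := by
        rw [← union_insert]
        exact union_subset_union_right hs
      have hsub' : A1 ∪ s ⊆ A1 ∪ E2 := (subset_insert _ _).trans hsub
      have hnb : ((A1 ∪ s).filter fun w => Ad p a w).card ≤ D + 4 :=
        (Finset.card_le_card (Finset.filter_subset_filter _ hsub')).trans (hdeg a haE)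
      have hcard : (A1 ∪ s).card ≤ M := (Finset.card_le_card hsub').trans hM
      have hcard' : ((A1 ∪ s).card : ℤ) ≤ M := by exact_mod_cast hcard
      have hroom : ((2 : ℕ) : ℤ) * (2 * UX.card + 2 * (A1 ∪ s).card +
          ((D + 4 : ℕ) : ℤ) * (2 * US.card + 2 * (A1 ∪ s).card + 2) + ((D + 4 : ℕ) : ℤ) ^ 2 + 2)
          ≤ b := by
        refine le_trans ?_ hb
        push_cast
        have h2 : ((D : ℤ) + 4) * (2 * US.card + 2 * (A1 ∪ s).card + 2) ≤
            ((D : ℤ) + 4) * (2 * US.card + 2 * M + 2) :=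
          mul_le_mul_of_nonneg_left (by linarith) (by positivity)
        linarith
      have hodd : ∀ u : ℤ, u ≡ 1 [ZMOD (2 : ℕ)] → Odd u := by
        intro u hu
        rw [Int.odd_iff]
        rw [Int.ModEq] at hu
        push_cast at hu
        omega
      set R := ∑ v ∈ A1 ∪ s, w v * f v with hR
      -- the new label
      have hnew : ∃ u : ℤ, PLb p UX US (insert a (A1 ∪ s)) (Function.update f a u) ∧
          |u| ≤ 3 * b ∧ |R + w a * u| ≤ max (3 * (D : ℤ) * b) (|R| - 2 * b) := by
        obtain ⟨hw1, hwD⟩ := hw2 a haE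
        by_cases hcase : (0 ≤ R ∧ 0 < w a) ∨ (R < 0 ∧ w a < 0)
        · obtain ⟨u, hu1, hu2, _, hPL, _, _⟩ := pl_step hf haA (fun i hi => hp i (hsub hi)) hnb
            (m := 2) (by norm_num) 1 (-(3 * b)) (-(2 * b)) hodd (by linarith)
          refine ⟨u, hPL, ?_, ?_⟩
          · rw [abs_of_nonpos (by linarith)]; linarith
          · rcases hcase with ⟨hc1, hc2⟩ | ⟨hc1, hc2⟩
            · rw [abs_of_pos hc2] at hw1 hwD
              rw [abs_of_nonneg hc1, le_max_iff]
              obtain ⟨e1', e2'⟩ := aux14 (u := -u) hb0 hw1 hwD (by linarith) (by linarith)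
              have e1 : w a * u ≤ -(2 * b) := by linarith
              have e2 : -(3 * D * b) ≤ w a * u := by linarith
              rcases le_total 0 (R + w a * u) with h | h
              · right; rw [abs_of_nonneg h]; linarith
              · left; rw [abs_of_nonpos h]; linarith
            · rw [abs_of_neg hc2] at hw1 hwD
              rw [abs_of_neg hc1, le_max_iff]
              obtain ⟨e1', e2'⟩ := aux14 (u := -u) hb0 hw1 hwD (by linarith) (by linarith)
              have e1 : 2 * b ≤ w a * u := by linarith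
              have e2 : w a * u ≤ 3 * D * b := by linarith
              rcases le_total 0 (R + w a * u) with h | h
              · left; rw [abs_of_nonneg h]; linarith
              · right; rw [abs_of_nonpos h]; linarith
        · obtain ⟨u, hu1, hu2, _, hPL, _, _⟩ := pl_step hf haA (fun i hi => hp i (hsub hi)) hnb
            (m := 2) (by norm_num) 1 (2 * b) (3 * b) hodd (by linarith)
          refine ⟨u, hPL, ?_, ?_⟩
          · rw [abs_of_nonneg (by linarith)]; linarith
          · rcases lt_or_ge R 0 with hc1 | hc1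
            · have hc2 : 0 < w a := by
                rcases lt_trichotomy (w a) 0 with h | h | h
                · exact absurd (Or.inr ⟨hc1, h⟩) hcase
                · rw [h, abs_zero] at hw1; omega
                · exact h
              rw [abs_of_pos hc2] at hw1 hwD
              rw [abs_of_neg hc1, le_max_iff]
              obtain ⟨e1, e2⟩ := aux14 hb0 hw1 hwD hu1 hu2
              rcases le_total 0 (R + w a * u) with h | h
              · left; rw [abs_of_nonneg h]; linarith
              · right; rw [abs_of_nonpos h]; linarith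
            · have hc2 : w a < 0 := by
                rcases lt_trichotomy (w a) 0 with h | h | h
                · exact h
                · rw [h, abs_zero] at hw1; omega
                · exact absurd (Or.inl ⟨hc1, h⟩) hcase
              rw [abs_of_neg hc2] at hw1 hwD
              rw [abs_of_nonneg hc1, le_max_iff]
              obtain ⟨e1', e2'⟩ := aux14 hb0 hw1 hwD hu1 hu2
              have e1 : w a * u ≤ -(2 * b) := by linarith
              have e2 : -(3 * D * b) ≤ w a * u := by linarith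
              rcases le_total 0 (R + w a * u) with h | h
              · right; rw [abs_of_nonneg h]; linarith
              · left; rw [abs_of_nonpos h]; linarith
      obtain ⟨u, hPL, hub, hRu⟩ := hnew
      refine ⟨Function.update f a u, ?_, ?_, ?_, ?_, ?_⟩
      · rw [union_insert]; exact hPL
      · rw [Function.update_of_ne]
        · exact hf0
        · rintro rfl; exact haA1 h0
      · rw [Function.update_of_ne, Function.update_of_ne]
        · exact hfB
        · intro h; rw [← h] at haA1; exact haA1 hpB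
        · rintro rfl; exact haA1 hB
      · intro v hv
        rw [union_insert, mem_insert] at hv
        by_cases hva : v = a
        · rw [hva, Function.update_self]
          exact hub
        · rw [Function.update_of_ne hva]
          exact hfb v (hv.resolve_left hva)
      · have hsum : ∑ v ∈ A1 ∪ insert a s, w v * Function.update f a u v = R + w a * u := by
          rw [union_insert, sum_insert haA, Function.update_self, hR, add_comm]
          congr 1
          refine sum_congr rfl (fun v hv => ?_)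
          rw [Function.update_of_ne]
          rintro rfl
          exact haA hv
        rw [hsum, card_insert_of_notMem has]
        push_cast
        have h2 : |R| - 2 * b ≤ max (3 * (D : ℤ) * b) (b * S1 - 2 * b * s.card) - 2 * b := by linarith
        refine hRu.trans (max_le (le_max_left _ _) (h2.trans ?_))
        rcases le_total (3 * (D : ℤ) * b) (b * S1 - 2 * b * s.card) with h | h
        · rw [max_eq_right h]
          refine le_trans (le_of_eq ?_) (le_max_right _ _)
          ring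
        · rw [max_eq_left h]
          refine le_trans ?_ (le_max_left _ _)
          linarith
  exact key E2 (Finset.Subset.refl _)

theorem greedyE {p : ℕ → ℕ} {UX US E E1 E2 : Finset ℕ} {B1 D b : ℕ} (w : ℕ → ℤ)
    (hp : ∀ i ∈ E, 0 < i → p i < i) (h0 : 0 ∈ E) (hB : B1 ∈ E ∧ 0 < B1 ∧ p B1 ∈ E ∧ p B1 ≠ 0)
    (hE : E = {0, B1, p B1} ∪ E1 ∪ E2) (d1 : Disjoint ({0, B1, p B1} : Finset ℕ) E1)
    (d2 : Disjoint ({0, B1, p B1} ∪ E1) E2)
    (hw2 : ∀ v ∈ E2, 1 ≤ |w v| ∧ |w v| ≤ D)
    (hdeg : ∀ v ∈ E2, (E.filter fun u => Ad p v u).card ≤ D + 4)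
    (hw : ∑ v ∈ {0, B1, p B1} ∪ E1, |w v| ≤ 2 * E2.card + D)
    (h1 : 1 ∉ UX)
    (hb : 100 * (D + 10) ^ 2 * (UX.card + US.card + E.card + 10) ≤ b) :
    ∃ f : ℕ → ℤ, PLb p UX US E f ∧ f 0 = -1 ∧ f B1 + f (p B1) = 0 ∧ (∀ v ∈ E, |f v| ≤ 3 * b) ∧
      |∑ v ∈ E, w v * f v| ≤ 3 * D * b + b := by
  classical
  obtain ⟨hB1, hB2, hB3, hB4⟩ := hB
  set A0 : Finset ℕ := {0, B1, p B1} with hA0
  have hA0c : A0.card ≤ 3 := Finset.card_le_three
  have hA0E : A0 ∪ E1 ⊆ E := by rw [hE]; exact subset_union_left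
  -- arithmetic
  have hbig : (100 : ℤ) * (D + 10) ^ 2 * (UX.card + US.card + E.card + 10) ≤ b := by
    exact_mod_cast hb
  have hX0 : (0 : ℤ) ≤ UX.card := Int.natCast_nonneg _
  have hS0 : (0 : ℤ) ≤ US.card := Int.natCast_nonneg _
  have hE0 : (0 : ℤ) ≤ E.card := Int.natCast_nonneg _
  have hD0 : (0 : ℤ) ≤ D := Int.natCast_nonneg _
  have hb0 : (0 : ℤ) ≤ b := Int.natCast_nonneg _
  obtain ⟨T, hT⟩ : ∃ T : ℤ, T = UX.card + US.card + E.card + 10 := ⟨_, rfl⟩
  obtain ⟨K, hK⟩ : ∃ K : ℤ, K = D + 10 := ⟨_, rfl⟩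
  rw [← hT, ← hK] at hbig
  have hT10 : 10 ≤ T := by linarith
  have hK10 : 10 ≤ K := by linarith
  have hKT : 10 * T ≤ K * T := by nlinarith
  have hKKT : 10 * (K * T) ≤ K ^ 2 * T := by nlinarith
  have hbT : 10000 * T ≤ b := by nlinarith
  -- start
  obtain ⟨f0, hf0, hf00, hf0B, hf0b⟩ := start14 (p := p) (UX := UX) (US := US) (B1 := B1)
    (b := (b : ℤ)) hB2 (hp B1 hB1 hB2) hB4 (hp (p B1) hB3 (Nat.pos_of_ne_zero hB4)) h1
    (by linarith)
  -- phase 1
  obtain ⟨f1, hf1, hf10, hf1B, hf1b⟩ := phase1_14 (p := p) (UX := UX) (US := US) (A0 := A0)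
    (E1 := E1) (B1 := B1) (b := b) (M := E.card) hA0c (by simp [hA0]) (by simp [hA0])
    (by simp [hA0]) (fun i hi => hp i (hA0E hi)) d1 (Finset.card_le_card hA0E)
    (by linarith) hf0 hf00 hf0B hf0b
  have hsum1 : |∑ v ∈ A0 ∪ E1, w v * f1 v| ≤ b * ∑ v ∈ A0 ∪ E1, |w v| := by
    refine (Finset.abs_sum_le_sum_abs _ _).trans ?_
    rw [Finset.mul_sum]
    refine Finset.sum_le_sum (fun v hv => ?_)
    rw [abs_mul, mul_comm]
    exact mul_le_mul_of_nonneg_right (hf1b v hv) (abs_nonneg _)
  -- phase 2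
  have hEeq : A0 ∪ E1 ∪ E2 = E := hE.symm
  obtain ⟨f, hf, hff0, hfB, hfb, hfS⟩ := phase2_14 (p := p) (UX := UX) (US := US)
    (A1 := A0 ∪ E1) (E2 := E2) (B1 := B1) (D := D) (b := b) (M := E.card) w
    (by simp [hA0]) (by simp [hA0]) (by simp [hA0])
    (by rw [hEeq]; exact hp) d2 (by rw [hEeq]) hw2 (by rw [hEeq]; exact hdeg)
    (by
      have e1 : ((D : ℤ) + 4) * (2 * US.card + 2 * E.card + 2) ≤ K * (2 * T) := by
        apply mul_le_mul (by linarith) (by linarith) (by positivity) (by linarith)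
      have e2 : ((D : ℤ) + 4) ^ 2 ≤ K ^ 2 := by
        apply pow_le_pow_left₀ (by positivity); linarith
      have e3 : K ^ 2 ≤ K ^ 2 * T := by nlinarith
      nlinarith)
    (∑ v ∈ A0 ∪ E1, |w v|) hf1 hf10 hf1B
    (fun v hv => (hf1b v hv).trans (by linarith)) hsum1
  rw [hEeq] at hf hfb hfS
  refine ⟨f, hf, hff0, hfB, hfb, hfS.trans (max_le (by linarith) ?_)⟩
  have h2 : (b : ℤ) * ∑ v ∈ A0 ∪ E1, |w v| ≤ b * (2 * E2.card + D) :=
    mul_le_mul_of_nonneg_left hw hb0
  have h3 : (0 : ℤ) ≤ D * b := by positivity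
  linarith

end Pool.Agent.BD
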