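import Pool.Agent.Helper73.BD.E1

/-!
# BD-E2: labelling the set `E` with weighted sum zero

Proof in words.  `greedyE` for `E' = E \ (Va ∪ {u1, u2})`.  Put `R = ∑_{E'} w f`.  Every weight except `w 0` is divisible by `h`, all labels are odd, so
`w v f v ≡ w v` mod `2h` for `v ≠ 0`, `w 0 f 0 = - w 0`; hence `-R - ∑_{Va} w ≡ -(∑_{E \ 0} w - w 0) + 2 w0 ≡ 0` mod `2h` (`2h` divides `2 w0`).  Put `M = (-R - ∑_{Va} w)/(2h)`.
Label the vertices `v` of `Va` one after the other (`pl_step`, modulus `m = 2|w0|`, `r = 1 + 2 β v M`, labels in `[0, b]`).  Then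
`R + ∑_{Va} w v f v ≡ R + ∑_{Va} w + 2M ∑ β v w v ≡ R + ∑_{Va} w + 2 M h = 0` modulo `2 w0`.  So `-(R + ∑_{Va} w f) = w0 · T` with `T` even, `|T| ≤ 3Db + b + D (D+1) b`.
Finally `f u1 = z`, `f u2 = T - z`, `z` odd in `[B', 2B']`, `B' = 10 (D+1)² b`: avoid the values for which the class of `z` or `T - z` is in `UX` or used, a sum with a labelled neighbour
has a class in `US` or is zero or used, or two of the new sums are equal, or `z = T - z`.  (`u1`, `u2` are not adjacent.)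
Extend the sum of `PLb`: as in `pl_step` (or apply `pl_step`-like reasoning directly).
-/

set_option autoImplicit false

namespace Pool.Agent.BD

open Finset Pool.Agent.SEM

private lemma pm_card67 (C : Finset ℕ) : (pm C).card ≤ 2 * C.card := by
  unfold pm
  refine (card_union_le _ _).trans ?_
  have h1 := card_image_le (s := C) (f := fun x : ℕ => (x : ℤ))
  have h2 := card_image_le (s := C) (f := fun x : ℕ => -(x : ℤ))
  omega

private lemma ad_symm67 {p : ℕ → ℕ} {v w : ℕ} (h : Ad p v w) : Ad p w v := by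
  unfold Ad at h ⊢
  exact h.symm

/-- the edges of `insert v A` -/
private lemma edge67 {p : ℕ → ℕ} {A : Finset ℕ} {v : ℕ} (hv : v ∉ A) (hp : ∀ i ∈ insert v A, 0 < i → p i < i)
    (f : ℕ → ℤ) (u : ℤ) {i : ℕ} (hi : i ∈ EdI p (insert v A)) :
    (i ∈ EdI p A ∧ Function.update f v u i + Function.update f v u (p i) = f i + f (p i)) ∨
    (∃ w ∈ A, Ad p v w ∧ Function.update f v u i + Function.update f v u (p i) = u + f w ∧
      ((i = v ∧ w = p v) ∨ (i = w ∧ p i = v))) := by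
  unfold EdI at hi ⊢
  rw [mem_filter, mem_insert, mem_insert] at hi
  obtain ⟨h1, h2, h3⟩ := hi
  rcases h1 with h1 | h1
  · subst h1
    have hlt : p i < i := hp i (mem_insert_self _ _) h2
    rcases h3 with h3 | h3
    · omega
    · right
      refine ⟨p i, h3, Or.inl ⟨h2, rfl⟩, ?_, Or.inl ⟨rfl, rfl⟩⟩
      rw [Function.update_self, Function.update_of_ne hlt.ne]
  · have hiv : i ≠ v := fun h => hv (h ▸ h1)
    rcases h3 with h3 | h3
    · right
      refine ⟨i, h1, Or.inr ⟨h2, h3⟩, ?_, Or.inr ⟨rfl, h3⟩⟩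
      rw [h3, Function.update_self, Function.update_of_ne hiv]
      ring
    · left
      have hpv : p i ≠ v := fun h => hv (h ▸ h3)
      refine ⟨mem_filter.2 ⟨h1, h2, h3⟩, ?_⟩
      rw [Function.update_of_ne hiv, Function.update_of_ne hpv]

/-- criterion for one more vertex -/
private lemma pl_ext67 {p : ℕ → ℕ} {UX US A : Finset ℕ} {f : ℕ → ℤ} (h : PLb p UX US A f) {v : ℕ} (hv : v ∉ A)
    (hp : ∀ i ∈ insert v A, 0 < i → p i < i) (u : ℤ) (hu : Odd u) (hux : u.natAbs ∉ UX) (hne : ∀ w ∈ A, u ≠ f w)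
    (hs : ∀ w ∈ A, Ad p v w → ∀ i ∈ EdI p A, u + f w ≠ f i + f (p i))
    (hus : ∀ w ∈ A, Ad p v w → u + f w ≠ 0 → (u + f w).natAbs ∉ US) :
    PLb p UX US (insert v A) (Function.update f v u) := by
  have hA : ∀ w ∈ A, Function.update f v u w = f w := by
    intro w hw
    exact Function.update_of_ne (ne_of_mem_of_not_mem hw hv) _ _
  have hV : Function.update f v u v = u := Function.update_self _ _ _
  constructor
  · intro w hw
    rcases mem_insert.1 hw with rfl | hw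
    · rw [hV]
      exact hu
    · rw [hA w hw]
      exact h.odd w hw
  · intro x hx y hy hxy
    rw [mem_coe, mem_insert] at hx hy
    rcases hx with rfl | hx <;> rcases hy with rfl | hy
    · rfl
    · rw [hV, hA y hy] at hxy
      exact absurd hxy (hne y hy)
    · rw [hV, hA x hx] at hxy
      exact absurd hxy.symm (hne x hx)
    · rw [hA x hx, hA y hy] at hxy
      exact h.inj hx hy hxy
  · intro w hw
    rcases mem_insert.1 hw with rfl | hw
    · rw [hV]
      exact hux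
    · rw [hA w hw]
      exact h.ux w hw
  · intro i hi j hj hij
    rw [mem_coe] at hi hj
    dsimp only at hij
    rcases edge67 hv hp f u hi with ⟨hi1, hi2⟩ | ⟨w, hw, hw1, hw2, hw3⟩ <;>
      rcases edge67 hv hp f u hj with ⟨hj1, hj2⟩ | ⟨w', hw', hw1', hw2', hw3'⟩
    · rw [hi2, hj2] at hij
      exact h.sinj hi1 hj1 hij
    · rw [hi2, hw2'] at hij
      exact absurd hij.symm (hs w' hw' hw1' i hi1)
    · rw [hw2, hj2] at hij
      exact absurd hij (hs w hw hw1 j hj1)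
    · rw [hw2, hw2'] at hij
      have hww : w = w' := h.inj hw hw' (by linarith)
      unfold EdI at hi hj
      rw [mem_filter] at hi hj
      rcases hw3 with ⟨a1, a2⟩ | ⟨a1, a2⟩ <;> rcases hw3' with ⟨b1, b2⟩ | ⟨b1, b2⟩
      · rw [a1, b1]
      · have c1 := hp i hi.1 hi.2.1
        have c2 := hp j hj.1 hj.2.1
        subst a1
        omega
      · have c1 := hp i hi.1 hi.2.1
        have c2 := hp j hj.1 hj.2.1
        subst b1
        omega
      · rw [a1, b1, hww]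
  · intro i hi hne0
    rcases edge67 hv hp f u hi with ⟨hi1, hi2⟩ | ⟨w, hw, hw1, hw2, hw3⟩
    · rw [hi2] at hne0 ⊢
      exact h.us i hi1 hne0
    · rw [hw2] at hne0 ⊢
      exact hus w hw hw1 hne0

private lemma va67 {p : ℕ → ℕ} {UX US E' Va : Finset ℕ} {f0 : ℕ → ℤ} (h : PLb p UX US E' f0) (hd : Disjoint E' Va)
    (hp : ∀ i ∈ E' ∪ Va, 0 < i → p i < i) {d m : ℕ}
    (hdeg : ∀ v ∈ Va, ((E' ∪ Va).filter fun u => Ad p v u).card ≤ d) (hm : 0 < m) (hme : Even m) (r : ℕ → ℤ)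
    (hr : ∀ v ∈ Va, Odd (r v)) (b : ℤ)
    (hb : (m : ℤ) * (2 * UX.card + 2 * (E' ∪ Va).card + d * (2 * US.card + 2 * (E' ∪ Va).card + 2) + d ^ 2 + 2) ≤ b)
    (s : Finset ℕ) : s ⊆ Va → ∃ f : ℕ → ℤ, PLb p UX US (E' ∪ s) f ∧ (∀ v ∈ E', f v = f0 v) ∧
      ∀ v ∈ s, 0 ≤ f v ∧ f v ≤ b ∧ f v ≡ r v [ZMOD m] := by
  induction s using Finset.induction_on with
  | empty =>
    intro _
    refine ⟨f0, ?_, fun _ _ => rfl, ?_⟩
    · rw [union_empty]
      exact h
    · intro v hv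
      exact absurd hv (notMem_empty v)
  | insert v s hvs ih =>
    intro hsub
    obtain ⟨f, hf, hf0, hfs⟩ := ih ((subset_insert v s).trans hsub)
    have hvVa : v ∈ Va := hsub (mem_insert_self v s)
    have hvE : v ∉ E' := fun h => (Finset.disjoint_left.1 hd) h hvVa
    have hvA : v ∉ E' ∪ s := by
      rw [mem_union, not_or]
      exact ⟨hvE, hvs⟩
    have hAsub : E' ∪ s ⊆ E' ∪ Va := union_subset_union_right ((subset_insert v s).trans hsub)
    have hins : insert v (E' ∪ s) ⊆ E' ∪ Va :=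
      insert_subset (mem_union_right _ hvVa) hAsub
    have hcard : (E' ∪ s).card ≤ (E' ∪ Va).card := card_le_card hAsub
    have hD : ((E' ∪ s).filter fun w => Ad p v w).card ≤ d :=
      (card_le_card (filter_subset_filter _ hAsub)).trans (hdeg v hvVa)
    have hodd : ∀ u : ℤ, u ≡ r v [ZMOD m] → Odd u := by
      intro u hu
      obtain ⟨k, hk⟩ := (Int.modEq_iff_dvd.1 hu)
      obtain ⟨c, hc⟩ := hme
      obtain ⟨e, he⟩ := hr v hvVa
      refine ⟨e - c * k, ?_⟩
      have : (m : ℤ) = c + c := by exact_mod_cast hc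
      rw [this] at hk
      have h2 : u = r v - (c + c) * k := by linarith
      rw [h2, he]
      ring
    have hac : (m : ℤ) * (2 * UX.card + 2 * (E' ∪ s).card + d * (2 * US.card + 2 * (E' ∪ s).card + 2) + d ^ 2 + 2) ≤
        b - 0 := by
      rw [sub_zero]
      refine le_trans ?_ hb
      have hc' : ((E' ∪ s).card : ℤ) ≤ (E' ∪ Va).card := by exact_mod_cast hcard
      refine mul_le_mul_of_nonneg_left ?_ (by positivity)
      have hd0 : (0 : ℤ) ≤ d := by positivity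
      have := mul_le_mul_of_nonneg_left (by linarith : (2 * (US.card : ℤ) + 2 * (E' ∪ s).card + 2) ≤
        2 * US.card + 2 * (E' ∪ Va).card + 2) hd0
      linarith
    obtain ⟨u, hu1, hu2, hu3, hu4, -, -⟩ := pl_step hf hvA (fun i hi => hp i (hins hi)) hD hm (r v) 0 b hodd hac
    refine ⟨Function.update f v u, ?_, ?_, ?_⟩
    · rw [union_insert]
      exact hu4
    · intro w hw
      rw [Function.update_of_ne (ne_of_mem_of_not_mem hw hvE)]
      exact hf0 w hw
    · intro w hw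
      rcases mem_insert.1 hw with rfl | hw
      · rw [Function.update_self]
        exact ⟨hu1, hu2, hu3⟩
      · rw [Function.update_of_ne (ne_of_mem_of_not_mem hw hvs)]
        exact hfs w hw

private lemma arith67 {X Y n D S t : ℕ} (ht : t = D + 10) (hS : S = X + Y + n + 10) :
    2 * X + 2 * n + (D + 4) * (2 * Y + 2 * n + 2) + (D + 4) ^ 2 + 2 ≤ t ^ 2 * S := by
  have h1 : D + 4 ≤ t := by omega
  have h2 : (D + 4) * (2 * Y + 2 * n + 2) ≤ t * (2 * S) := Nat.mul_le_mul h1 (by omega)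
  have h3 : (D + 4) ^ 2 ≤ t ^ 2 := Nat.pow_le_pow_left h1 2
  have h4 : 2 * X + 2 * n + 2 ≤ 2 * S := by omega
  have h5 : 10 ≤ t := by omega
  have h6 : 10 ≤ S := by omega
  have h7 : 2 * S + t * (2 * S) + t ^ 2 ≤ t ^ 2 * S := by
    obtain ⟨a, rfl⟩ := Nat.exists_eq_add_of_le h5
    obtain ⟨c, rfl⟩ := Nat.exists_eq_add_of_le h6
    ring_nf
    nlinarith [Nat.zero_le (a * c), Nat.zero_le (a ^ 2 * c), Nat.zero_le a, Nat.zero_le c]
  omega

/-- the last two vertices -/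
private lemma two67 {p : ℕ → ℕ} {UX US A : Finset ℕ} {f : ℕ → ℤ} (h : PLb p UX US A f) {u1 u2 d : ℕ}
    (hu1 : u1 ∉ A) (hu2 : u2 ∉ A) (hu : u1 ≠ u2) (hadj : ¬ Ad p u1 u2)
    (hp : ∀ i ∈ insert u2 (insert u1 A), 0 < i → p i < i)
    (hD1 : (A.filter fun w => Ad p u1 w).card ≤ d) (hD2 : (A.filter fun w => Ad p u2 w).card ≤ d) (T : ℤ) (hT : Even T)
    (a c : ℤ) (hac : 2 * ((4 * UX.card + 2 * A.card + 2 * d * A.card + 4 * d * US.card + d * d + 1 : ℕ) + 1 : ℤ) ≤ c - a) :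
    ∃ z : ℤ, a ≤ z ∧ z ≤ c ∧
      PLb p UX US (insert u2 (insert u1 A)) (Function.update (Function.update f u1 z) u2 (T - z)) := by
  classical
  set N1 := A.filter fun w => Ad p u1 w with hN1
  set N2 := A.filter fun w => Ad p u2 w with hN2
  set Bad : Finset ℤ := pm UX ∪ A.image f ∪ (N1 ×ˢ EdI p A).image (fun q => f q.2 + f (p q.2) - f q.1) ∪
    (N1 ×ˢ pm US).image (fun q => q.2 - f q.1) ∪ (pm UX).image (fun x => T - x) ∪ A.image (fun w => T - f w) ∪ {T / 2} ∪
    (N2 ×ˢ EdI p A).image (fun q => T + f q.1 - (f q.2 + f (p q.2))) ∪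
    (N2 ×ˢ N1).image (fun q => (T + f q.1 - f q.2) / 2) ∪ (N2 ×ˢ pm US).image (fun q => T + f q.1 - q.2) with hBad
  have hEd : (EdI p A).card ≤ A.card := card_filter_le _ _
  have hcard : Bad.card ≤ 4 * UX.card + 2 * A.card + 2 * d * A.card + 4 * d * US.card + d * d + 1 := by
    have g1 := pm_card67 UX
    have g1' := pm_card67 US
    have g2 : (A.image f).card ≤ A.card := card_image_le
    have g3 : ((N1 ×ˢ EdI p A).image (fun q => f q.2 + f (p q.2) - f q.1)).card ≤ d * A.card :=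
      card_image_le.trans (by rw [card_product]; exact Nat.mul_le_mul hD1 hEd)
    have g4 : ((N1 ×ˢ pm US).image (fun q => q.2 - f q.1)).card ≤ d * (2 * US.card) :=
      card_image_le.trans (by rw [card_product]; exact Nat.mul_le_mul hD1 g1')
    have g5 : ((pm UX).image (fun x => T - x)).card ≤ 2 * UX.card := card_image_le.trans g1
    have g6 : (A.image (fun w => T - f w)).card ≤ A.card := card_image_le
    have g7 : ({T / 2} : Finset ℤ).card ≤ 1 := by simp
    have g8 : ((N2 ×ˢ EdI p A).image (fun q => T + f q.1 - (f q.2 + f (p q.2)))).card ≤ d * A.card :=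
      card_image_le.trans (by rw [card_product]; exact Nat.mul_le_mul hD2 hEd)
    have g9 : ((N2 ×ˢ N1).image (fun q => (T + f q.1 - f q.2) / 2)).card ≤ d * d :=
      card_image_le.trans (by rw [card_product]; exact Nat.mul_le_mul hD2 hD1)
    have g10 : ((N2 ×ˢ pm US).image (fun q => T + f q.1 - q.2)).card ≤ d * (2 * US.card) :=
      card_image_le.trans (by rw [card_product]; exact Nat.mul_le_mul hD2 g1')
    have e : 4 * UX.card + 2 * A.card + 2 * d * A.card + 4 * d * US.card + d * d + 1 =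
        2 * UX.card + A.card + d * A.card + d * (2 * US.card) + 2 * UX.card + A.card + 1 + d * A.card + d * d +
          d * (2 * US.card) := by ring
    rw [e, hBad]
    refine (card_union_le _ _).trans (add_le_add ?_ g10)
    refine (card_union_le _ _).trans (add_le_add ?_ g9)
    refine (card_union_le _ _).trans (add_le_add ?_ g8)
    refine (card_union_le _ _).trans (add_le_add ?_ g7)
    refine (card_union_le _ _).trans (add_le_add ?_ g6)
    refine (card_union_le _ _).trans (add_le_add ?_ g5)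
    refine (card_union_le _ _).trans (add_le_add ?_ g4)
    refine (card_union_le _ _).trans (add_le_add ?_ g3)
    exact (card_union_le _ _).trans (add_le_add g1 g2)
  obtain ⟨z, hz1, hz2, hz3, hz4⟩ := pick 2 (by norm_num) 1 a c Bad (by
    have h1 : ((Bad.card : ℕ) : ℤ) ≤ ((4 * UX.card + 2 * A.card + 2 * d * A.card + 4 * d * US.card + d * d + 1 : ℕ) : ℤ) := by
      exact_mod_cast hcard
    have h2 : ((2 : ℕ) : ℤ) = 2 := by norm_num
    rw [h2]
    linarith)
  have hzo : Odd z := by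
    obtain ⟨k, hk⟩ := Int.modEq_iff_dvd.1 hz3
    refine ⟨-k, ?_⟩
    push_cast at hk
    linarith
  simp only [hBad, mem_union, not_or, mem_singleton] at hz4
  obtain ⟨⟨⟨⟨⟨⟨⟨⟨⟨b1, b2⟩, b3⟩, b4⟩, b5⟩, b6⟩, b7⟩, b8⟩, b9⟩, b10⟩ := hz4
  have hu1A : ∀ w ∈ A, Function.update f u1 z w = f w := fun w hw => Function.update_of_ne (ne_of_mem_of_not_mem hw hu1) _ _
  have hp1 : ∀ i ∈ insert u1 A, 0 < i → p i < i := fun i hi => hp i (mem_insert_of_mem hi)
  have hu2' : u2 ∉ insert u1 A := by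
    rw [mem_insert, not_or]
    exact ⟨hu.symm, hu2⟩
  have hstep1 : PLb p UX US (insert u1 A) (Function.update f u1 z) := by
    refine pl_ext67 h hu1 hp1 z hzo ?_ ?_ ?_ ?_
    · exact fun hh => b1 (mem_pm.2 hh)
    · intro w hw hh
      exact b2 (mem_image.2 ⟨w, hw, hh.symm⟩)
    · intro w hw hadw i hi hh
      exact b3 (mem_image.2 ⟨(w, i), mem_product.2 ⟨mem_filter.2 ⟨hw, hadw⟩, hi⟩, by dsimp only; linarith⟩)
    · intro w hw hadw _ hh
      exact b4 (mem_image.2 ⟨(w, z + f w), mem_product.2 ⟨mem_filter.2 ⟨hw, hadw⟩, mem_pm.2 hh⟩, by dsimp only; ring⟩)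
  refine ⟨z, hz1, hz2, pl_ext67 hstep1 hu2' hp (T - z) (hT.sub_odd hzo) ?_ ?_ ?_ ?_⟩
  · intro hh
    exact b5 (mem_image.2 ⟨T - z, mem_pm.2 hh, by ring⟩)
  · intro w hw hh
    rcases mem_insert.1 hw with rfl | hw
    · rw [Function.update_self] at hh
      apply b7
      omega
    · rw [hu1A w hw] at hh
      exact b6 (mem_image.2 ⟨w, hw, by linarith⟩)
  · intro w hw hadw i hi hh
    rcases mem_insert.1 hw with rfl | hw
    · exact hadj (ad_symm67 hadw)
    · rw [hu1A w hw] at hh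
      rcases edge67 hu1 hp1 f z hi with ⟨hi1, hi2⟩ | ⟨w1, hw1, ha1, hs1, _⟩
      · rw [hi2] at hh
        exact b8 (mem_image.2 ⟨(w, i), mem_product.2 ⟨mem_filter.2 ⟨hw, hadw⟩, hi1⟩, by dsimp only; linarith⟩)
      · rw [hs1] at hh
        exact b9 (mem_image.2 ⟨(w, w1), mem_product.2 ⟨mem_filter.2 ⟨hw, hadw⟩, mem_filter.2 ⟨hw1, ha1⟩⟩, by
          dsimp only; omega⟩)
  · intro w hw hadw _ hh
    rcases mem_insert.1 hw with rfl | hw
    · exact hadj (ad_symm67 hadw)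
    · rw [hu1A w hw] at hh
      exact b10 (mem_image.2 ⟨(w, T - z + f w), mem_product.2 ⟨mem_filter.2 ⟨hw, hadw⟩, mem_pm.2 hh⟩, by
        dsimp only; ring⟩)

theorem elabel {p : ℕ → ℕ} {UX US E E1 E2 Va : Finset ℕ} {B1 D b u1 u2 h : ℕ} (w β : ℕ → ℤ) (w0 : ℤ)
    (hp : ∀ i ∈ E, 0 < i → p i < i) (h0 : 0 ∈ E) (hB : B1 ∈ E ∧ 0 < B1 ∧ p B1 ∈ E ∧ p B1 ≠ 0)
    (hE : E = {0, B1, p B1} ∪ E1 ∪ E2 ∪ Va ∪ {u1, u2}) (d1 : Disjoint ({0, B1, p B1} : Finset ℕ) E1)
    (d2 : Disjoint ({0, B1, p B1} ∪ E1) E2) (d3 : Disjoint ({0, B1, p B1} ∪ E1 ∪ E2) Va)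
    (d4 : Disjoint ({0, B1, p B1} ∪ E1 ∪ E2 ∪ Va) {u1, u2}) (hu : u1 ≠ u2) (hadj : ¬ Ad p u1 u2)
    (hw2 : ∀ v ∈ E2, 1 ≤ |w v| ∧ |w v| ≤ D)
    (hdeg : ∀ v ∈ E2 ∪ Va ∪ {u1, u2}, (E.filter fun u => Ad p v u).card ≤ D + 4)
    (hw : ∑ v ∈ {0, B1, p B1} ∪ E1, |w v| ≤ 2 * E2.card + D)
    (hVa : Va.card ≤ D + 1) (hVw : ∀ v ∈ Va, |w v| ≤ D)
    (hw0 : w0 ≠ 0 ∧ |w0| ≤ D ∧ w u1 = w0 ∧ w u2 = w0)
    (hh : 0 < h) (hdvd : ∀ v ∈ E, v ≠ 0 → (h : ℤ) ∣ w v) (hβ : w0 ∣ ∑ v ∈ Va, β v * w v - h)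
    (hpar : (2 * (h : ℤ)) ∣ ∑ v ∈ E.erase 0, w v - w 0)
    (h1 : 1 ∉ UX)
    (hb : 1000 * (D + 10) ^ 3 * (UX.card + US.card + E.card + 10) ≤ b) :
    ∃ f : ℕ → ℤ, PLb p UX US E f ∧ f 0 = -1 ∧ f B1 + f (p B1) = 0 ∧ (∀ v ∈ E, |f v| ≤ 50 * (D + 1) ^ 2 * b) ∧
      ∑ v ∈ E, w v * f v = 0 := by
  classical
  set A0 : Finset ℕ := {0, B1, p B1} with hA0
  set E' : Finset ℕ := A0 ∪ E1 ∪ E2 with hE'
  set A : Finset ℕ := E' ∪ Va with hA
  have hAE : A ⊆ E := by
    rw [hE]
    exact subset_union_left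
  have hE'A : E' ⊆ A := subset_union_left
  have hE'E : E' ⊆ E := hE'A.trans hAE
  have hVaA : Va ⊆ A := subset_union_right
  have hu1E : u1 ∈ E := by rw [hE]; simp
  have hu2E : u2 ∈ E := by rw [hE]; simp
  have hu1A : u1 ∉ A := fun h => (Finset.disjoint_left.1 d4) h (by simp)
  have hu2A : u2 ∉ A := fun h => (Finset.disjoint_left.1 d4) h (by simp)
  have m0 : 0 ∈ E' := by simp [hE', hA0]
  have mB : B1 ∈ E' := by simp [hE', hA0]
  have mpB : p B1 ∈ E' := by simp [hE', hA0]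
  have hcE' : E'.card ≤ E.card := card_le_card hE'E
  have hcA : A.card ≤ E.card := card_le_card hAE
  set S : ℕ := UX.card + US.card + E.card + 10 with hS
  have hD1 : 1 ≤ D := by
    have h1 : 0 < |w0| := abs_pos.2 hw0.1
    have h2 := hw0.2.1
    omega
  obtain ⟨f0, hf0, hf00, hf0B, hf0b, hf0s⟩ := greedyE (UX := UX) (US := US) (E := E') (E1 := E1) (E2 := E2) (B1 := B1)
    (D := D) (b := b) w (fun i hi => hp i (hE'E hi)) m0 ⟨mB, hB.2.1, mpB, hB.2.2.2⟩ rfl d1 d2 hw2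
    (fun v hv => (card_le_card (filter_subset_filter _ hE'E)).trans (hdeg v (by simp [hv]))) hw h1 (by
      refine le_trans ?_ hb
      have h2 : (D + 10) ^ 2 ≤ (D + 10) ^ 3 := Nat.pow_le_pow_right (by omega) (by norm_num)
      exact Nat.mul_le_mul (Nat.mul_le_mul (by norm_num) h2) (by omega))
  set R : ℤ := ∑ v ∈ E', w v * f0 v with hR
  have sumE : ∀ g : ℕ → ℤ, ∑ v ∈ E, g v = ∑ v ∈ E', g v + ∑ v ∈ Va, g v + g u1 + g u2 := by
    intro g
    rw [hE, Finset.sum_union d4, Finset.sum_union d3, Finset.sum_pair hu]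
    ring
  have sumA : ∀ g : ℕ → ℤ, ∑ v ∈ A, g v = ∑ v ∈ E', g v + ∑ v ∈ Va, g v := fun g => Finset.sum_union d3
  have hu10 : u1 ≠ 0 := fun h => hu1A (hE'A (h ▸ m0))
  have hu20 : u2 ≠ 0 := fun h => hu2A (hE'A (h ▸ m0))
  -- divisibility by `2 h`
  have hdiv1 : (2 * (h : ℤ)) ∣ R - (∑ v ∈ E'.erase 0, w v - w 0) := by
    have e1 : R = w 0 * f0 0 + ∑ v ∈ E'.erase 0, w v * f0 v := (Finset.add_sum_erase _ _ m0).symm
    have e2 : R - (∑ v ∈ E'.erase 0, w v - w 0) = ∑ v ∈ E'.erase 0, w v * (f0 v - 1) := by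
      rw [e1, hf00]
      have : ∑ v ∈ E'.erase 0, w v * (f0 v - 1) = ∑ v ∈ E'.erase 0, w v * f0 v - ∑ v ∈ E'.erase 0, w v := by
        rw [← Finset.sum_sub_distrib]
        exact Finset.sum_congr rfl fun v _ => by ring
      rw [this]
      ring
    rw [e2]
    refine Finset.dvd_sum fun v hv => ?_
    obtain ⟨hv1, hv2⟩ := mem_erase.1 hv
    obtain ⟨a, ha⟩ := hdvd v (hE'E hv2) hv1
    obtain ⟨c, hc⟩ := hf0.odd v hv2
    refine ⟨a * c, ?_⟩
    rw [ha, hc]
    ring
  have hdiv2 : (2 * (h : ℤ)) ∣ 2 * w0 := by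
    have := hdvd u1 hu1E hu10
    rw [hw0.2.2.1] at this
    exact mul_dvd_mul_left 2 this
  have hdiv : (2 * (h : ℤ)) ∣ R + ∑ v ∈ Va, w v := by
    have e0 : ∑ v ∈ E.erase 0, w v = ∑ v ∈ E, w v - w 0 := by
      rw [← Finset.add_sum_erase _ w h0]
      ring
    have e0' : ∑ v ∈ E'.erase 0, w v = ∑ v ∈ E', w v - w 0 := by
      rw [← Finset.add_sum_erase _ w m0]
      ring
    have e : R + ∑ v ∈ Va, w v = (R - (∑ v ∈ E'.erase 0, w v - w 0)) + (∑ v ∈ E.erase 0, w v - w 0) - 2 * w0 := by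
      rw [e0, e0', sumE w, hw0.2.2.1, hw0.2.2.2]
      ring
    rw [e]
    exact dvd_sub (dvd_add hdiv1 hpar) hdiv2
  obtain ⟨M', hM'⟩ := hdiv
  set M : ℤ := -M' with hM
  have hM2 : R + ∑ v ∈ Va, w v = -(2 * h * M) := by
    rw [hM', hM]
    ring
  -- the vertices of `Va`
  set m : ℕ := 2 * w0.natAbs with hm
  have hmz : (m : ℤ) = 2 * |w0| := by
    rw [hm]
    push_cast
    rfl
  have hm0 : 0 < m := by
    have := Int.natAbs_pos.2 hw0.1
    omega
  have hmD : m ≤ 2 * D := by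
    have := hw0.2.1
    omega
  have harith := arith67 (X := UX.card) (Y := US.card) (n := E.card) (D := D) (S := S) (t := D + 10) rfl rfl
  have hbVa : (m : ℤ) * (2 * UX.card + 2 * (E' ∪ Va).card + (D + 4 : ℕ) * (2 * US.card + 2 * (E' ∪ Va).card + 2) +
      (D + 4 : ℕ) ^ 2 + 2) ≤ b := by
    have h1 : m * (2 * UX.card + 2 * A.card + (D + 4) * (2 * US.card + 2 * A.card + 2) + (D + 4) ^ 2 + 2) ≤ b := by
      calc m * (2 * UX.card + 2 * A.card + (D + 4) * (2 * US.card + 2 * A.card + 2) + (D + 4) ^ 2 + 2)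
          ≤ (2 * D) * (2 * UX.card + 2 * E.card + (D + 4) * (2 * US.card + 2 * E.card + 2) + (D + 4) ^ 2 + 2) := by
            refine Nat.mul_le_mul hmD ?_
            have : (D + 4) * (2 * US.card + 2 * A.card + 2) ≤ (D + 4) * (2 * US.card + 2 * E.card + 2) :=
              Nat.mul_le_mul_left _ (by omega)
            omega
        _ ≤ (2 * (D + 10)) * ((D + 10) ^ 2 * S) := Nat.mul_le_mul (by omega) harith
        _ = 2 * (D + 10) ^ 3 * S := by ring
        _ ≤ 1000 * (D + 10) ^ 3 * S := Nat.mul_le_mul_right _ (Nat.mul_le_mul_right _ (by norm_num))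
        _ ≤ b := hb
    exact_mod_cast h1
  obtain ⟨f1, hf1, hf10, hf1V⟩ := va67 (UX := UX) (US := US) hf0 d3 (fun i hi => hp i (hAE hi)) (d := D + 4)
    (fun v hv => (card_le_card (filter_subset_filter _ hAE)).trans (hdeg v (by simp [hv]))) hm0 ⟨w0.natAbs, by omega⟩
    (fun v => 1 + 2 * (β v * M)) (fun v _ => ⟨β v * M, by ring⟩) b hbVa Va subset_rfl
  set S1 : ℤ := ∑ v ∈ A, w v * f1 v with hS1
  have hS1' : S1 = R + ∑ v ∈ Va, w v * f1 v := by
    rw [hS1, sumA]
    congr 1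
    exact Finset.sum_congr rfl fun v hv => by rw [hf10 v hv]
  have hdivS : (2 * w0) ∣ S1 := by
    have e1 : ∑ v ∈ Va, w v * f1 v = ∑ v ∈ Va, w v + 2 * M * ∑ v ∈ Va, β v * w v -
        ∑ v ∈ Va, w v * ((1 + 2 * (β v * M)) - f1 v) := by
      rw [Finset.mul_sum, ← Finset.sum_add_distrib, ← Finset.sum_sub_distrib]
      exact Finset.sum_congr rfl fun v _ => by ring
    have e2 : S1 = 2 * M * (∑ v ∈ Va, β v * w v - h) - ∑ v ∈ Va, w v * ((1 + 2 * (β v * M)) - f1 v) := by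
      rw [hS1', e1]
      linear_combination hM2
    rw [e2]
    refine dvd_sub ?_ (Finset.dvd_sum fun v hv => ?_)
    · obtain ⟨k, hk⟩ := hβ
      refine ⟨M * k, ?_⟩
      rw [hk]
      ring
    · have h1 := Int.modEq_iff_dvd.1 (hf1V v hv).2.2
      rw [hmz] at h1
      have h2 : 2 * w0 ∣ 2 * |w0| := mul_dvd_mul_left 2 ((dvd_abs w0 w0).2 dvd_rfl)
      exact dvd_mul_of_dvd_right (h2.trans h1) _
  obtain ⟨T', hT'⟩ := hdivS
  set T : ℤ := -(2 * T') with hT
  have hTe : Even T := ⟨-T', by rw [hT]; ring⟩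
  have hTS : w0 * T = -S1 := by
    rw [hT', hT]
    ring
  have hbz : (0 : ℤ) ≤ b := by positivity
  have hDz : (0 : ℤ) ≤ D := by positivity
  have hS1b : |S1| ≤ 3 * D * b + b + (D + 1) * (D * b) := by
    rw [hS1']
    refine (abs_add_le _ _).trans (add_le_add hf0s ?_)
    refine (Finset.abs_sum_le_sum_abs _ _).trans ?_
    have h1 : ∀ v ∈ Va, |w v * f1 v| ≤ D * b := by
      intro v hv
      obtain ⟨g1, g2, -⟩ := hf1V v hv
      rw [abs_mul, abs_of_nonneg g1]
      exact mul_le_mul (hVw v hv) g2 g1 hDz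
    refine (Finset.sum_le_card_nsmul _ _ _ h1).trans ?_
    rw [nsmul_eq_mul]
    refine mul_le_mul_of_nonneg_right ?_ (by positivity)
    exact_mod_cast hVa
  have hTb : |T| ≤ |S1| := by
    have h1 : |w0| * |T| = |S1| := by rw [← abs_mul, hTS, abs_neg]
    have h2 : 1 ≤ |w0| := Int.one_le_abs hw0.1
    rw [← h1]
    exact le_mul_of_one_le_left (abs_nonneg T) h2
  -- the last two vertices
  have hEins : E = insert u2 (insert u1 A) := by
    rw [hE]
    ext x
    simp only [mem_union, mem_insert, mem_singleton]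
    tauto
  obtain ⟨z, hz1, hz2, hz3⟩ := two67 hf1 hu1A hu2A hu hadj (fun i hi => hp i (hEins ▸ hi)) (d := D + 4)
    ((card_le_card (filter_subset_filter _ hAE)).trans (hdeg u1 (by simp)))
    ((card_le_card (filter_subset_filter _ hAE)).trans (hdeg u2 (by simp))) T hTe
    (10 * (D + 1) ^ 2 * b) (20 * (D + 1) ^ 2 * b) (by
      have h1 : 2 * ((4 * UX.card + 2 * A.card + 2 * (D + 4) * A.card + 4 * (D + 4) * US.card + (D + 4) * (D + 4) + 1) + 1) ≤
          10 * (D + 1) ^ 2 * b := by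
        calc 2 * ((4 * UX.card + 2 * A.card + 2 * (D + 4) * A.card + 4 * (D + 4) * US.card + (D + 4) * (D + 4) + 1) + 1)
            ≤ 4 * (2 * UX.card + 2 * E.card + (D + 4) * (2 * US.card + 2 * E.card + 2) + (D + 4) ^ 2 + 2) := by
              have h2 : (D + 4) * A.card ≤ (D + 4) * E.card := Nat.mul_le_mul_left _ hcA
              nlinarith
          _ ≤ 4 * ((D + 10) ^ 2 * S) := Nat.mul_le_mul_left _ harith
          _ ≤ 1000 * (D + 10) ^ 3 * S := by
              have h2 : (D + 10) ^ 2 ≤ (D + 10) ^ 3 := Nat.pow_le_pow_right (by omega) (by norm_num)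
              calc 4 * ((D + 10) ^ 2 * S) = 4 * (D + 10) ^ 2 * S := by ring
                _ ≤ 1000 * (D + 10) ^ 3 * S := Nat.mul_le_mul_right _ (Nat.mul_le_mul (by norm_num) h2)
          _ ≤ b := hb
          _ ≤ 10 * (D + 1) ^ 2 * b := Nat.le_mul_of_pos_left _ (by positivity)
      have h2 : (20 * ((D : ℤ) + 1) ^ 2 * b) - 10 * (D + 1) ^ 2 * b = ((10 * (D + 1) ^ 2 * b : ℕ) : ℤ) := by
        push_cast
        ring
      rw [h2]
      exact_mod_cast h1)
  refine ⟨_, by rw [hEins]; exact hz3, ?_, ?_, ?_, ?_⟩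
  · rw [Function.update_of_ne hu20.symm, Function.update_of_ne hu10.symm, hf10 0 m0]
    exact hf00
  · have k1 : ∀ v ∈ E', Function.update (Function.update f1 u1 z) u2 (T - z) v = f0 v := by
      intro v hv
      rw [Function.update_of_ne (ne_of_mem_of_not_mem (hE'A hv) hu2A), Function.update_of_ne (ne_of_mem_of_not_mem (hE'A hv) hu1A), hf10 v hv]
    rw [k1 _ mB, k1 _ mpB]
    exact hf0B
  · have hq : (1 : ℤ) ≤ (D + 1) ^ 2 := one_le_pow₀ (by linarith)
    have hqb : (b : ℤ) ≤ (D + 1) ^ 2 * b := le_mul_of_one_le_left hbz hq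
    intro v hv
    rw [hEins, mem_insert, mem_insert] at hv
    rcases hv with rfl | rfl | hv
    · rw [Function.update_self]
      have h1 := (abs_le.1 (hTb.trans hS1b))
      have h2 : (3 * (D : ℤ) * b + b + (D + 1) * (D * b)) ≤ 5 * ((D + 1) ^ 2 * b) := by nlinarith
      have h3 : 20 * ((D : ℤ) + 1) ^ 2 * b = 20 * ((D + 1) ^ 2 * b) := by ring
      have h4 : 10 * ((D : ℤ) + 1) ^ 2 * b = 10 * ((D + 1) ^ 2 * b) := by ring
      have h5 : 50 * ((D : ℤ) + 1) ^ 2 * b = 50 * ((D + 1) ^ 2 * b) := by ring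
      rw [h3] at hz2
      rw [h4] at hz1
      rw [h5, abs_le]
      constructor <;> linarith [h1.1, h1.2]
    · rw [Function.update_of_ne hu, Function.update_self]
      have h3 : 20 * ((D : ℤ) + 1) ^ 2 * b = 20 * ((D + 1) ^ 2 * b) := by ring
      have h4 : 10 * ((D : ℤ) + 1) ^ 2 * b = 10 * ((D + 1) ^ 2 * b) := by ring
      have h5 : 50 * ((D : ℤ) + 1) ^ 2 * b = 50 * ((D + 1) ^ 2 * b) := by ring
      rw [h3] at hz2
      rw [h4] at hz1
      rw [h5, abs_le]
      constructor <;> linarith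
    · rw [Function.update_of_ne (ne_of_mem_of_not_mem hv hu2A), Function.update_of_ne (ne_of_mem_of_not_mem hv hu1A)]
      have h5 : 50 * ((D : ℤ) + 1) ^ 2 * b = 50 * ((D + 1) ^ 2 * b) := by ring
      rw [h5]
      rcases mem_union.1 hv with hv | hv
      · rw [hf10 v hv]
        have := hf0b v hv
        linarith
      · obtain ⟨g1, g2, -⟩ := hf1V v hv
        rw [abs_of_nonneg g1]
        linarith
  · rw [hEins, Finset.sum_insert (by rw [mem_insert, not_or]; exact ⟨hu.symm, hu2A⟩), Finset.sum_insert hu1A,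
      Function.update_self, Function.update_of_ne hu, Function.update_self, hw0.2.2.1, hw0.2.2.2]
    have e : ∑ v ∈ A, w v * Function.update (Function.update f1 u1 z) u2 (T - z) v = S1 := by
      rw [hS1]
      refine Finset.sum_congr rfl fun v hv => ?_
      rw [Function.update_of_ne (ne_of_mem_of_not_mem hv hu2A), Function.update_of_ne (ne_of_mem_of_not_mem hv hu1A)]
    rw [e]
    linear_combination hTS

end Pool.Agent.BD
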