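import Pool.Agent.Helper73.BD.LY
import Pool.Agent.Helper73.BD.FC

/-!
# BD-FF: covering the leftover classes and filling the rest of the half world

`Q = QQ Bd CN Cl Rs Mn`.  Labelled (by `g0`): `Λ = Bd ∪ (Cl \ Fl) ∪` the trees `P t`, `t ∈ T \ U`.  To be labelled: `W = CN ∪ Rs ∪` the trees `P t`, `t ∈ U`.  The vertices of `Fl ⊆ Cl` stay unlabelled.
Every class `x ∈ X'` is used at the vertex `cv (iL x)`, every sum class `s ∈ S'` at the edge `(cw (iS s), cv (iS s))`; all the other labels are taken from `FXs`, all the other sums from `FSs`.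
`ρ` prescribes all the labels modulo `2e` (for `e = 1` this only says that they are odd).

Proof in words.
(1) Place the labels: `g (cv (iL x)) = x` or `-x`, whichever is `≡ ρ` modulo `2e`.
(2) Place the sums, one after the other: for `s ∈ S'`, `j = iS s`: by `crt_pair` with `ρ = ρ (cv j)`, in the interval `[s/2 - n/5, s/2 + n/5]`, choose `y`, put `g (cv j) = y`, `g (cw j) = s - y`; both have absolute
value `≤ 7n/10 + 1`, are odd and in `FXs`; avoid the classes used before and `|y| = |s - y|` (`s = 2y`).  There are at least `(2n/5)/(2e q_D q_{D+1}) - 1` candidates, more than `8|W|`.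
(3) Fill the other vertices `W'` of `W` with `gext`, `AX = FXs` minus the classes used in (2), `AS = FSs`, `Λ' = Λ ∪ placed vertices`.  `C0 w` = the odd integers `u ≡ ρ w` mod `2e`, `|u| ≤ 3n/10`.
`Cd w N` = elements of the set of `crt_label` (for `N`, `ρ w`) in `[-3n/10, -n/10]` if `w` is adjacent to a placed `cv (iL x)` with a positive label, in `[n/10, 3n/10]` if the label is negative
(at most one such `cv (iL x)`, by `Cvs.far`; such a `w` is in `Rs`), in `[y w - c, y w + c]` if `w ∈ CN` (then `|u| ≤ 3c ≤ 3n/10`), in `[-c, c]` otherwise; with class in `AX`.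
The labelled neighbours `v` of `w ∈ CN` satisfy `|g0 v + y w| ≤ n - 2c` (`hΛb`), so `|g0 v + u| ≤ n - c`, or are in `W` (labels `≤ 3n/10` in absolute value, as the placed vertices have no neighbour in `CN`, `Cvs.nb`); vertices of `Rs` and of `P t`, `t ∈ U`, have no neighbour in `Λ`.
A neighbour `l` of `w` in `N` satisfies `l ≡ ρ` (of that vertex), so `u + l ≡ 0` mod `2e`, and `q j ∣ u + l` for some `j < D`: `|u + l| ∈ FSs` if `1 ≤ |u + l| ≤ n - 1`; `u + l ≠ 0` as the class of `l` is not in `AX`.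
`hcap` gives more than `2|W| + 2D²|W| + D²` candidates.  (The edges between two placed vertices are the edges `(cw (iS s), cv (iS s))`, by `Cvs.far`; these have the sums `s`.)
-/

set_option autoImplicit false

namespace Pool.Agent.BD

open Finset Pool.Agent.SEM

private theorem odd_of_modeq {e : ℕ} {y r : ℤ} (h : y ≡ r [ZMOD (2 * e : ℕ)]) (hr : Odd r) : Odd y := by
  have h2 : y ≡ r [ZMOD 2] := h.of_dvd ⟨(e : ℤ), by push_cast; ring⟩
  rw [Int.odd_iff] at hr ⊢
  rw [← hr]; exact h2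

private theorem place_S {n D e c : ℕ} {q : ℕ → ℕ} (he : e = 1 ∨ e = 2) (hq : Mods D q) (S' : Finset ℕ) (hS' : S' ⊆ SC n)
    (r : ℕ → ℤ) (hr : ∀ s ∈ S', Odd (r s)) (hc : 10 * c ≤ n)
    (hcap : 2 * e * q D * q (D + 1) * (10 * S'.card + 10) ≤ 2 * c) :
    ∃ y : ℕ → ℤ, (∀ s ∈ S', y s ≡ r s [ZMOD (2 * e : ℕ)] ∧ Odd (y s) ∧ Odd ((s : ℤ) - y s) ∧
        (y s).natAbs ∈ FXs n D q ∧ ((s : ℤ) - y s).natAbs ∈ FXs n D q ∧ 10 * |y s| ≤ 7 * n ∧ 10 * |(s : ℤ) - y s| ≤ 7 * n ∧
        (y s).natAbs ≠ ((s : ℤ) - y s).natAbs) ∧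
      (∀ s ∈ S', ∀ s' ∈ S', s ≠ s' → (y s).natAbs ≠ (y s').natAbs ∧ (y s).natAbs ≠ ((s' : ℤ) - y s').natAbs ∧
        ((s : ℤ) - y s).natAbs ≠ ((s' : ℤ) - y s').natAbs) := by
  classical
  suffices H : ∀ A : Finset ℕ, A ⊆ S' → ∃ y : ℕ → ℤ, (∀ s ∈ A, y s ≡ r s [ZMOD (2 * e : ℕ)] ∧ Odd (y s) ∧ Odd ((s : ℤ) - y s) ∧
        (y s).natAbs ∈ FXs n D q ∧ ((s : ℤ) - y s).natAbs ∈ FXs n D q ∧ 10 * |y s| ≤ 7 * n ∧ 10 * |(s : ℤ) - y s| ≤ 7 * n ∧
        (y s).natAbs ≠ ((s : ℤ) - y s).natAbs) ∧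
      (∀ s ∈ A, ∀ s' ∈ A, s ≠ s' → (y s).natAbs ≠ (y s').natAbs ∧ (y s).natAbs ≠ ((s' : ℤ) - y s').natAbs ∧
        ((s : ℤ) - y s).natAbs ≠ ((s' : ℤ) - y s').natAbs) from H S' Subset.rfl
  intro A
  induction A using Finset.induction_on with
  | empty => intro _; exact ⟨fun _ => 0, by simp, by simp⟩
  | insert a A ha ih =>
    intro hAS
    obtain ⟨y, hy1, hy2⟩ := ih (fun x hx => hAS (mem_insert_of_mem hx))
    have haS : a ∈ S' := hAS (mem_insert_self a A)
    have hcardA : A.card ≤ S'.card := card_le_card (fun x hx => hAS (mem_insert_of_mem hx))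
    have haSC := mem_SC.1 (hS' haS)
    obtain ⟨⟨ha1, ha2⟩, m, hm⟩ := haSC
    obtain ⟨C, hC1, hC2⟩ := crt_pair he hq (r a) (a : ℤ) ((m : ℤ) - c) ((m : ℤ) + c)
    set U : Finset ℤ := (A.image y ∪ A.image fun s => -(y s)) ∪ (A.image (fun s : ℕ => (s : ℤ) - y s) ∪ A.image fun s : ℕ => -((s : ℤ) - y s)) with hU
    have hUc : U.card ≤ 4 * A.card := by
      have h1 : (A.image y).card ≤ A.card := card_image_le
      have h2 : (A.image fun s => -(y s)).card ≤ A.card := card_image_le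
      have h3 : (A.image (fun s : ℕ => (s : ℤ) - y s)).card ≤ A.card := card_image_le
      have h4 : (A.image (fun s : ℕ => -((s : ℤ) - y s))).card ≤ A.card := card_image_le
      have h5 := card_union_le (A.image y) (A.image fun s => -(y s))
      have h6 := card_union_le (A.image (fun s : ℕ => (s : ℤ) - y s)) (A.image fun s : ℕ => -((s : ℤ) - y s))
      have h7 := card_union_le (A.image y ∪ A.image fun s => -(y s)) (A.image (fun s : ℕ => (s : ℤ) - y s) ∪ A.image fun s : ℕ => -((s : ℤ) - y s))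
      rw [hU]; omega
    set Bad : Finset ℤ := (U ∪ U.image fun u => (a : ℤ) - u) ∪ {(m : ℤ)} with hBad
    have hBc : Bad.card ≤ 8 * A.card + 1 := by
      have h1 : (U.image fun u => (a : ℤ) - u).card ≤ U.card := card_image_le
      have h2 := card_union_le U (U.image fun u => (a : ℤ) - u)
      have h3 := card_union_le (U ∪ U.image fun u => (a : ℤ) - u) {(m : ℤ)}
      rw [card_singleton] at h3
      rw [hBad]; omega
    have hCc : Bad.card < C.card := by
      have h1 : (2 * e * q D * q (D + 1) * (10 * S'.card + 10) : ℤ) ≤ 2 * e * q D * q (D + 1) * ((C.card : ℤ) + 1) := by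
        have h0 : (2 * e * q D * q (D + 1) * (10 * S'.card + 10) : ℤ) ≤ 2 * c := by exact_mod_cast hcap
        linarith
      have hqD := hq.big D (by omega)
      have hqD1 := hq.big (D + 1) (by omega)
      have hpos : (0 : ℤ) < 2 * e * q D * q (D + 1) := by
        have : 0 < e := by rcases he with rfl | rfl <;> norm_num
        positivity
      have h2 := le_of_mul_le_mul_left h1 hpos
      have h3 : (10 * S'.card + 10 : ℤ) ≤ (C.card : ℤ) + 1 := h2
      omega
    obtain ⟨u, huC, huB⟩ := exists_mem_notMem_of_card_lt_card hCc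
    obtain ⟨hu1, hu2, hu3, hu4, hu5⟩ := hC2 u huC
    have huU : u ∉ U := fun h => huB (by rw [hBad]; simp [h])
    have hauU : (a : ℤ) - u ∉ U := fun h => huB (by
      rw [hBad, mem_union, mem_union, mem_image]
      exact Or.inl (Or.inr ⟨_, h, by ring⟩))
    have hum : u ≠ m := fun h => huB (by rw [hBad, mem_union, mem_singleton]; exact Or.inr h)
    have key : ∀ z : ℤ, z ∉ U → ∀ s ∈ A, z.natAbs ≠ (y s).natAbs ∧ z.natAbs ≠ ((s : ℤ) - y s).natAbs := by
      intro z hz s hs
      constructor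
      · intro h
        apply hz
        rw [hU, mem_union, mem_union]
        rcases Int.natAbs_eq_natAbs_iff.1 h with h | h
        · exact Or.inl (Or.inl (mem_image.2 ⟨s, hs, h.symm⟩))
        · exact Or.inl (Or.inr (mem_image.2 ⟨s, hs, h.symm⟩))
      · intro h
        apply hz
        rw [hU, mem_union, mem_union, mem_union]
        rcases Int.natAbs_eq_natAbs_iff.1 h with h | h
        · exact Or.inr (Or.inl (mem_image.2 ⟨s, hs, h.symm⟩))
        · exact Or.inr (Or.inr (mem_image.2 ⟨s, hs, h.symm⟩))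
    have k1 := key u huU
    have k2 := key _ hauU
    have hodd1 : Odd u := odd_of_modeq hu3 (hr a haS)
    have haE : Even (a : ℤ) := ⟨m, by exact_mod_cast hm⟩
    have hodd2 : Odd ((a : ℤ) - u) := haE.sub_odd hodd1
    have haz : (a : ℤ) = m + m := by exact_mod_cast hm
    have ha2' : (a : ℤ) ≤ n - 1 := by omega
    have hc' : (10 * c : ℤ) ≤ n := by exact_mod_cast hc
    have hb1 : 10 * |u| ≤ 7 * n := by
      have : |u| ≤ m + c := abs_le.2 ⟨by omega, by omega⟩
      omega
    have hb2 : 10 * |(a : ℤ) - u| ≤ 7 * n := by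
      have : |(a : ℤ) - u| ≤ m + c := abs_le.2 ⟨by omega, by omega⟩
      omega
    have hF : ∀ z : ℤ, Odd z → 10 * |z| ≤ 7 * n → ((q D : ℤ) ∣ z ∨ (q (D + 1) : ℤ) ∣ z) → z.natAbs ∈ FXs n D q := by
      intro z hz1 hz2 hz3
      rw [Int.abs_eq_natAbs] at hz2
      have hzo : Odd z.natAbs := Int.natAbs_odd.2 hz1
      unfold FXs
      rw [mem_filter, mem_LC]
      refine ⟨⟨⟨hzo.pos, ?_⟩, hzo⟩, ?_, ?_⟩
      · omega
      · omega
      · rcases hz3 with h | h
        · left; exact Int.natCast_dvd.1 h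
        · right; exact Int.natCast_dvd.1 h
    refine ⟨Function.update y a u, ?_, ?_⟩
    · intro s hs
      rw [mem_insert] at hs
      rcases eq_or_ne s a with rfl | hsa
      · simp only [Function.update_self]
        refine ⟨hu3, hodd1, hodd2, hF _ hodd1 hb1 (Or.inl hu4), hF _ hodd2 hb2 (Or.inr hu5), hb1, hb2, ?_⟩
        intro h
        rcases Int.natAbs_eq_natAbs_iff.1 h with h | h
        · exact hum (by omega)
        · have : (s : ℤ) = 0 := by omega
          omega
      · simp only [Function.update_of_ne hsa]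
        exact hy1 s (hs.resolve_left hsa)
    · intro s hs s' hs' hss
      rw [mem_insert] at hs hs'
      rcases eq_or_ne s a with rfl | hsa
      · have hs'a : s' ≠ s := fun h => hss h.symm
        simp only [Function.update_self, Function.update_of_ne hs'a]
        have h1 := k1 s' (hs'.resolve_left hs'a)
        have h2 := k2 s' (hs'.resolve_left hs'a)
        exact ⟨h1.1, h1.2, h2.2⟩
      · rcases eq_or_ne s' a with rfl | hs'a
        · simp only [Function.update_self, Function.update_of_ne hsa]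
          have h1 := k1 s (hs.resolve_left hsa)
          have h2 := k2 s (hs.resolve_left hsa)
          exact ⟨h1.1.symm, h2.1.symm, h2.2.symm⟩
        · simp only [Function.update_of_ne hsa, Function.update_of_ne hs'a]
          exact hy2 s (hs.resolve_left hsa) s' (hs'.resolve_left hs'a) hss

private theorem sgn {e x : ℕ} (he : e = 1 ∨ e = 2) (hx : Odd x) {r : ℤ} (hr : Odd r) :
    ∃ z : ℤ, z.natAbs = x ∧ z ≡ r [ZMOD (2 * e : ℕ)] := by
  have hx' := Nat.odd_iff.1 hx
  have hr' := Int.odd_iff.1 hr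
  rcases he with rfl | rfl
  · refine ⟨x, by simp, ?_⟩
    show (x : ℤ) % 2 = r % 2
    omega
  · by_cases h : (x : ℤ) % 4 = r % 4
    · exact ⟨x, by simp, h⟩
    · refine ⟨-x, by simp, ?_⟩
      show (-(x : ℤ)) % 4 = r % 4
      omega

theorem fill {n D K e Jc c : ℕ} {p : ℕ → ℕ} {Bd CN Cl Rs Mn T U Fl : Finset ℕ} {P En : ℕ → Finset ℕ} {cv cw q : ℕ → ℕ}
    (he : e = 1 ∨ e = 2) (hD : 2 ≤ D) (hn2 : Even n) (hq : Mods D q)
    (hp : ∀ i, 0 < i → i < n → p i < i) (hQn : QQ Bd CN Cl Rs Mn ⊆ range n)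
    (hdeg : ∀ v ∈ QQ Bd CN Cl Rs Mn, ((QQ Bd CN Cl Rs Mn).filter fun w => Ad p v w).card ≤ D)
    (hdv : Dvs n D K p Bd CN Cl Rs Mn T P En) (hcv : Cvs Jc p (QQ Bd CN Cl Rs Mn) Rs cv cw)
    (hU : U ⊆ T) (hFl : Fl ⊆ Cl) (hFlC : ∀ v ∈ Fl, ∀ w ∈ CN, ¬ Ad p v w)
    (W Λ : Finset ℕ) (hW : W = CN ∪ Rs ∪ U.biUnion P) (hΛ : Λ = Bd ∪ (Cl \ Fl) ∪ (T \ U).biUnion P)
    (g0 : ℕ → ℤ) (hinj : Set.InjOn (fun v => (g0 v).natAbs) Λ) (hodd : ∀ v ∈ Λ, Odd (g0 v))
    (y : ℕ → ℤ) (hy : ∀ w ∈ CN, |y w| ≤ 2 * c) (hΛb : ∀ v ∈ Λ, ∀ w ∈ CN, Ad p v w → |g0 v + y w| ≤ n - 2 * c)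
    (X' S' : Finset ℕ) (hX' : X' ⊆ LC n) (hS' : S' ⊆ SC n) (hXF : Disjoint X' (FXs n D q)) (hSF : Disjoint S' (FSs n D e q))
    (hΛX : ∀ v ∈ Λ, (g0 v).natAbs ∉ X' ∪ FXs n D q)
    (iL iS : ℕ → ℕ) (hiL : Set.InjOn iL X') (hiS : Set.InjOn iS S') (hiLJ : ∀ x ∈ X', iL x < Jc)
    (hiSJ : ∀ s ∈ S', iS s < Jc) (hdis : ∀ x ∈ X', ∀ s ∈ S', iL x ≠ iS s)
    (ρ : ℕ → ℤ) (hρΛ : ∀ v ∈ Λ, g0 v ≡ ρ v [ZMOD (2 * e : ℕ)]) (hρW : ∀ v ∈ W, Odd (ρ v))
    (hρ : ∀ i ∈ EdT p W Λ, (∀ s ∈ S', i ≠ cw (iS s)) → ρ i + ρ (p i) ≡ 0 [ZMOD (2 * e : ℕ)])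
    (hρS : ∀ s ∈ S', ρ (cw (iS s)) + ρ (cv (iS s)) ≡ s [ZMOD (2 * e : ℕ)])
    (hc : 10 * c ≤ n) (hcap : qM D e q * q (D + 1) * (100 * (D + 1) ^ 2 * (W.card + 1)) ≤ c) :
    ∃ g : ℕ → ℤ, (∀ v, v ∉ W → g v = g0 v) ∧ (∀ v ∈ W, Odd (g v) ∧ (g v).natAbs ∈ X' ∪ FXs n D q) ∧
      Set.InjOn (fun v => (g v).natAbs) (W ∪ Λ : Finset ℕ) ∧ (∀ x ∈ X', (g (cv (iL x))).natAbs = x) ∧
      (∀ i ∈ EdT p W Λ, (g i + g (p i)).natAbs ∈ S' ∪ FSs n D e q) ∧
      Set.InjOn (fun i => (g i + g (p i)).natAbs) (EdT p W Λ) ∧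
      (∀ s ∈ S', g (cw (iS s)) + g (cv (iS s)) = s) := by
  classical
  have Asym : ∀ v w, Ad p v w → Ad p w v := fun v w h => Or.symm h
  have he0 : 0 < e := by rcases he with rfl | rfl <;> norm_num
  -- sets
  have hUP : U.biUnion P ⊆ Mn := by
    rw [hdv.Mn_eq]; exact biUnion_subset_biUnion_of_subset_left _ hU
  have hTP : (T \ U).biUnion P ⊆ Mn := by
    rw [hdv.Mn_eq]; exact biUnion_subset_biUnion_of_subset_left _ sdiff_subset
  have hWQ : W ⊆ QQ Bd CN Cl Rs Mn := by
    intro v hv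
    rw [hW] at hv
    simp only [QQ, mem_union] at hv ⊢
    rcases hv with (h | h) | h
    · tauto
    · tauto
    · have := hUP h; tauto
  have hΛQ : Λ ⊆ QQ Bd CN Cl Rs Mn := by
    intro v hv
    rw [hΛ] at hv
    simp only [QQ, mem_union] at hv ⊢
    rcases hv with (h | h) | h
    · tauto
    · have := (mem_sdiff.1 h).1; tauto
    · have := hTP h; tauto
  have hRsW : Rs ⊆ W := by intro v hv; rw [hW]; simp [hv]
  have hCNW : CN ⊆ W := by intro v hv; rw [hW]; simp [hv]
  have hPW : ∀ t ∈ U, P t ⊆ W := by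
    intro t ht v hv; rw [hW, mem_union]; exact Or.inr (mem_biUnion.2 ⟨t, ht, hv⟩)
  have hWΛ : Disjoint W Λ := by
    rw [Finset.disjoint_left]
    intro v hv1 hv2
    have d1 := Finset.disjoint_left.1 hdv.d1
    have d2 := Finset.disjoint_left.1 hdv.d2
    have d3 := Finset.disjoint_left.1 hdv.d3
    have d4 := Finset.disjoint_left.1 hdv.d4
    simp only [mem_union] at d2 d3 d4
    rw [hW, mem_union, mem_union] at hv1
    rw [hΛ, mem_union, mem_union, mem_sdiff] at hv2
    have hU1 : v ∈ U.biUnion P → v ∈ Mn := fun h => hUP h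
    have hU2 : v ∈ (T \ U).biUnion P → v ∈ Mn := fun h => hTP h
    have hUU : v ∈ U.biUnion P → v ∈ (T \ U).biUnion P → False := by
      intro h1 h2
      obtain ⟨t, ht, hvt⟩ := mem_biUnion.1 h1
      obtain ⟨t', ht', hvt'⟩ := mem_biUnion.1 h2
      have htt : t ≠ t' := by
        rintro rfl
        exact (mem_sdiff.1 ht').2 ht
      exact Finset.disjoint_left.1 (hdv.dj t (hU ht) t' (mem_sdiff.1 ht').1 htt) hvt hvt'
    rcases hv1 with (h | h) | h <;> rcases hv2 with (h' | h') | h'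
    · exact d1 h' h
    · exact d2 (Or.inr h) h'.1
    · exact d4 (Or.inl (Or.inl (Or.inr h))) (hU2 h')
    · exact d3 (Or.inl (Or.inl h')) h
    · exact d3 (Or.inr h'.1) h
    · exact d4 (Or.inr h) (hU2 h')
    · exact d4 (Or.inl (Or.inl (Or.inl h'))) (hU1 h)
    · exact d4 (Or.inl (Or.inr h'.1)) (hU1 h)
    · exact hUU h h'
  have hWΛ' := Finset.disjoint_left.1 hWΛ
  -- neighbours of W in Λ
  have nbΛ : ∀ w ∈ W, ∀ v ∈ Λ, Ad p w v → w ∈ CN := by
    intro w hw v hv hA
    have hvW : v ∉ W := fun h => hWΛ' h hv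
    rw [hW, mem_union, mem_union] at hw
    rcases hw with (h | h) | h
    · exact h
    · have h1 := hdv.aR w h v (hΛQ hv) hA
      rw [mem_union] at h1
      rcases h1 with h1 | h1
      · exact absurd (hRsW h1) hvW
      · exact absurd (hCNW h1) hvW
    · obtain ⟨t, ht, hwt⟩ := mem_biUnion.1 h
      rcases hdv.aM t (hU ht) w hwt v (hΛQ hv) hA with h1 | h1
      · exact absurd (hPW t ht h1) hvW
      · exact absurd (hCNW h1.1) hvW
  have CNRs : ∀ w ∈ CN, w ∉ Rs := by
    intro w hw hw'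
    have d3 := Finset.disjoint_left.1 hdv.d3
    exact d3 (by simp [hw]) hw'
  -- sites
  have hfar : ∀ i, i < Jc → ∀ j, j < Jc → ∀ x ∈ QQ Bd CN Cl Rs Mn,
      (x = cv i ∨ x = cw i ∨ Ad p (cv i) x ∨ Ad p (cw i) x) → (x = cv j ∨ x = cw j ∨ Ad p (cv j) x ∨ Ad p (cw j) x) → i = j := by
    intro i hi j hj x hx h1 h2
    by_contra hij
    exact hcv.far i hi j hj hij x hx ⟨h1, h2⟩
  have hRsQ : Rs ⊆ QQ Bd CN Cl Rs Mn := fun v hv => hWQ (hRsW hv)
  have hlt : ∀ j, j < Jc → p (cw j) < cw j := fun j hj =>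
    hp _ (hcv.mem j hj).2.2.1 (mem_range.1 (hQn (hRsQ (hcv.mem j hj).2.1)))
  have hvw : ∀ j, j < Jc → cv j ≠ cw j := by
    intro j hj h
    have h1 := hlt j hj
    rw [(hcv.mem j hj).2.2.2] at h1
    omega
  have hcv1 : ∀ i, i < Jc → ∀ j, j < Jc → cv i = cv j → i = j := fun i hi j hj h =>
    hfar i hi j hj (cv i) (hRsQ (hcv.mem i hi).1) (Or.inl rfl) (Or.inl h)
  have hcv2 : ∀ i, i < Jc → ∀ j, j < Jc → cv i ≠ cw j := by
    intro i hi j hj h
    have := hfar i hi j hj (cv i) (hRsQ (hcv.mem i hi).1) (Or.inl rfl) (Or.inr (Or.inl h))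
    subst this
    exact hvw i hi h
  have hcv3 : ∀ i, i < Jc → ∀ j, j < Jc → cw i = cw j → i = j := fun i hi j hj h =>
    hfar i hi j hj (cw i) (hRsQ (hcv.mem i hi).2.1) (Or.inr (Or.inl rfl)) (Or.inr (Or.inl h))
  have hSW : S'.card ≤ W.card := by
    apply card_le_card_of_injOn (fun s => cv (iS s)) (fun s hs => hRsW (hcv.mem _ (hiSJ s hs)).1)
    intro s hs s' hs' h
    exact hiS hs hs' (hcv1 _ (hiSJ s hs) _ (hiSJ s' hs') h)
  -- sizes
  have hqpos : ∀ j, j < D + 2 → 0 < q j := fun j hj => by have := hq.big j hj; omega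
  have hqD1 : 3 ≤ q (D + 1) := hq.big (D + 1) (by omega)
  have hqMpos : 0 < qM D e q := by
    unfold qM
    have : 0 < ∏ j ∈ range (D + 1), q j := prod_pos fun j hj => hqpos j (by have := mem_range.1 hj; omega)
    positivity
  have hqMle : 2 * e * q D ≤ qM D e q := by
    unfold qM
    rw [prod_range_succ]
    have : 0 < ∏ j ∈ range D, q j := prod_pos fun j hj => hqpos j (by have := mem_range.1 hj; omega)
    calc 2 * e * q D = 2 * e * (1 * q D) := by ring
      _ ≤ 2 * e * ((∏ j ∈ range D, q j) * q D) := by gcongr; omega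
  have hc1 : 1 ≤ c := by
    have : 0 < qM D e q * q (D + 1) * (100 * (D + 1) ^ 2 * (W.card + 1)) := by
      have := hqpos (D + 1) (by omega)
      positivity
    omega
  have hn10 : 10 ≤ n := by omega
  -- step (1)
  have hlab : ∀ x : ℕ, ∃ z : ℤ, x ∈ X' → z.natAbs = x ∧ z ≡ ρ (cv (iL x)) [ZMOD (2 * e : ℕ)] := by
    intro x
    by_cases hx : x ∈ X'
    · obtain ⟨z, hz⟩ := sgn he (mem_LC.1 (hX' hx)).2 (hρW _ (hRsW (hcv.mem _ (hiLJ x hx)).1))
      exact ⟨z, fun _ => hz⟩
    · exact ⟨0, fun h => absurd h hx⟩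
  choose lab hlab using hlab
  -- step (2)
  obtain ⟨ys, hy1, hy2⟩ := place_S (c := c) he hq S' hS' (fun s => ρ (cv (iS s)))
    (fun s hs => hρW _ (hRsW (hcv.mem _ (hiSJ s hs)).1)) hc (by
      calc 2 * e * q D * q (D + 1) * (10 * S'.card + 10)
          ≤ qM D e q * q (D + 1) * (100 * (D + 1) ^ 2 * (W.card + 1)) := by
            gcongr
            have h1 : 1 ≤ (D + 1) ^ 2 := Nat.one_le_pow _ _ (by omega)
            calc 10 * S'.card + 10 ≤ 100 * 1 * (W.card + 1) := by omega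
              _ ≤ 100 * (D + 1) ^ 2 * (W.card + 1) := by gcongr
        _ ≤ c := hcap
        _ ≤ 2 * c := by omega)
  -- placed vertices
  set Pl : Finset ℕ := (X'.image fun x => cv (iL x)) ∪ (S'.image fun s => cv (iS s)) ∪ (S'.image fun s => cw (iS s)) with hPl
  have hg1 : ∀ v : ℕ, ∃ z : ℤ, (∀ x ∈ X', v = cv (iL x) → z = lab x) ∧ (∀ s ∈ S', v = cv (iS s) → z = ys s) ∧
      (∀ s ∈ S', v = cw (iS s) → z = (s : ℤ) - ys s) ∧ (v ∉ Pl → z = g0 v) := by
    intro v
    by_cases h1 : ∃ x ∈ X', v = cv (iL x)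
    · obtain ⟨x, hx, rfl⟩ := h1
      refine ⟨lab x, ?_, ?_, ?_, ?_⟩
      · intro x' hx' h
        rw [hiL hx hx' (hcv1 _ (hiLJ x hx) _ (hiLJ x' hx') h)]
      · intro s hs h
        exact absurd (hcv1 _ (hiLJ x hx) _ (hiSJ s hs) h) (hdis x hx s hs)
      · intro s hs h
        exact absurd h (hcv2 _ (hiLJ x hx) _ (hiSJ s hs))
      · intro h
        exact absurd (by rw [hPl, mem_union, mem_union]; exact Or.inl (Or.inl (mem_image.2 ⟨x, hx, rfl⟩))) h
    · by_cases h2 : ∃ s ∈ S', v = cv (iS s)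
      · obtain ⟨s, hs, rfl⟩ := h2
        refine ⟨ys s, ?_, ?_, ?_, ?_⟩
        · intro x hx h
          exact absurd ⟨x, hx, h⟩ h1
        · intro s' hs' h
          rw [hiS hs hs' (hcv1 _ (hiSJ s hs) _ (hiSJ s' hs') h)]
        · intro s' hs' h
          exact absurd h (hcv2 _ (hiSJ s hs) _ (hiSJ s' hs'))
        · intro h
          exact absurd (by rw [hPl, mem_union, mem_union]; exact Or.inl (Or.inr (mem_image.2 ⟨s, hs, rfl⟩))) h
      · by_cases h3 : ∃ s ∈ S', v = cw (iS s)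
        · obtain ⟨s, hs, rfl⟩ := h3
          refine ⟨s - ys s, ?_, ?_, ?_, ?_⟩
          · intro x hx h
            exact absurd ⟨x, hx, h⟩ h1
          · intro s' hs' h
            exact absurd ⟨s', hs', h⟩ h2
          · intro s' hs' h
            rw [hiS hs hs' (hcv3 _ (hiSJ s hs) _ (hiSJ s' hs') h)]
          · intro h
            exact absurd (by rw [hPl, mem_union]; exact Or.inr (mem_image.2 ⟨s, hs, rfl⟩)) h
        · exact ⟨g0 v, fun x hx h => absurd ⟨x, hx, h⟩ h1, fun s hs h => absurd ⟨s, hs, h⟩ h2,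
            fun s hs h => absurd ⟨s, hs, h⟩ h3, fun _ => rfl⟩
  choose g1 hg1L hg1v hg1w hg10 using hg1
  have hPlcase : ∀ v ∈ Pl, (∃ x ∈ X', v = cv (iL x) ∧ g1 v = lab x) ∨ (∃ s ∈ S', v = cv (iS s) ∧ g1 v = ys s) ∨
      (∃ s ∈ S', v = cw (iS s) ∧ g1 v = (s : ℤ) - ys s) := by
    intro v hv
    rw [hPl, mem_union, mem_union, mem_image, mem_image, mem_image] at hv
    rcases hv with (⟨x, hx, h⟩ | ⟨s, hs, h⟩) | ⟨s, hs, h⟩
    · exact Or.inl ⟨x, hx, h.symm, hg1L v x hx h.symm⟩
    · exact Or.inr (Or.inl ⟨s, hs, h.symm, hg1v v s hs h.symm⟩)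
    · exact Or.inr (Or.inr ⟨s, hs, h.symm, hg1w v s hs h.symm⟩)
  have hPlRs : Pl ⊆ Rs := by
    intro v hv
    rcases hPlcase v hv with ⟨x, hx, rfl, -⟩ | ⟨s, hs, rfl, -⟩ | ⟨s, hs, rfl, -⟩
    · exact (hcv.mem _ (hiLJ x hx)).1
    · exact (hcv.mem _ (hiSJ s hs)).1
    · exact (hcv.mem _ (hiSJ s hs)).2.1
  have hPlW : Pl ⊆ W := fun v hv => hRsW (hPlRs hv)
  have hPlΛ : ∀ v ∈ Λ, v ∉ Pl := fun v hv h => hWΛ' (hPlW h) hv
  -- the labels of placed vertices
  have hLρ : ∀ v ∈ Λ ∪ Pl, g1 v ≡ ρ v [ZMOD (2 * e : ℕ)] := by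
    intro v hv
    rcases mem_union.1 hv with hv | hv
    · rw [hg10 v (hPlΛ v hv)]; exact hρΛ v hv
    · rcases hPlcase v hv with ⟨x, hx, rfl, h⟩ | ⟨s, hs, rfl, h⟩ | ⟨s, hs, rfl, h⟩
      · rw [h]; exact (hlab x hx).2
      · rw [h]; exact (hy1 s hs).1
      · rw [h]
        have h1 := (hy1 s hs).1
        have h2 := hρS s hs
        calc (s : ℤ) - ys s ≡ (ρ (cw (iS s)) + ρ (cv (iS s))) - ρ (cv (iS s)) [ZMOD (2 * e : ℕ)] := h2.symm.sub h1
          _ = ρ (cw (iS s)) := by ring
  have hPlcl : ∀ v ∈ Pl, (g1 v).natAbs ∈ X' ∪ FXs n D q ∧ Odd (g1 v) := by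
    intro v hv
    rcases hPlcase v hv with ⟨x, hx, rfl, h⟩ | ⟨s, hs, rfl, h⟩ | ⟨s, hs, rfl, h⟩
    · rw [h, (hlab x hx).1]
      refine ⟨mem_union_left _ hx, ?_⟩
      rw [← Int.natAbs_odd, (hlab x hx).1]
      exact (mem_LC.1 (hX' hx)).2
    · rw [h]; exact ⟨mem_union_right _ (hy1 s hs).2.2.2.1, (hy1 s hs).2.1⟩
    · rw [h]; exact ⟨mem_union_right _ (hy1 s hs).2.2.2.2.1, (hy1 s hs).2.2.1⟩
  have hinj1 : Set.InjOn (fun v => (g1 v).natAbs) (Λ ∪ Pl : Finset ℕ) := by
    intro v hv v' hv' hvv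
    simp only at hvv
    have dX := Finset.disjoint_left.1 hXF
    rcases mem_union.1 (mem_coe.1 hv) with hv | hv <;> rcases mem_union.1 (mem_coe.1 hv') with hv' | hv'
    · rw [hg10 v (hPlΛ v hv), hg10 v' (hPlΛ v' hv')] at hvv
      exact hinj hv hv' hvv
    · rw [hg10 v (hPlΛ v hv)] at hvv
      exact absurd (hPlcl v' hv').1 (by rw [← hvv]; exact hΛX v hv)
    · rw [hg10 v' (hPlΛ v' hv')] at hvv
      exact absurd (hPlcl v hv).1 (by rw [hvv]; exact hΛX v' hv')
    · rcases hPlcase v hv with ⟨x, hx, e1, h⟩ | ⟨s, hs, e1, h⟩ | ⟨s, hs, e1, h⟩ <;>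
        rcases hPlcase v' hv' with ⟨x', hx', e2, h'⟩ | ⟨s', hs', e2, h'⟩ | ⟨s', hs', e2, h'⟩ <;>
        rw [h, h'] at hvv
      · rw [(hlab x hx).1, (hlab x' hx').1] at hvv
        rw [e1, e2, hvv]
      · rw [(hlab x hx).1] at hvv
        exact absurd (hy1 s' hs').2.2.2.1 (by rw [← hvv]; exact dX hx)
      · rw [(hlab x hx).1] at hvv
        exact absurd (hy1 s' hs').2.2.2.2.1 (by rw [← hvv]; exact dX hx)
      · rw [(hlab x' hx').1] at hvv
        exact absurd (hy1 s hs).2.2.2.1 (by rw [hvv]; exact dX hx')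
      · by_cases hss : s = s'
        · rw [e1, e2, hss]
        · exact absurd hvv (hy2 s hs s' hs' hss).1
      · by_cases hss : s = s'
        · subst hss
          exact absurd hvv (hy1 s hs).2.2.2.2.2.2.2
        · exact absurd hvv (hy2 s hs s' hs' hss).2.1
      · rw [(hlab x' hx').1] at hvv
        exact absurd (hy1 s hs).2.2.2.2.1 (by rw [hvv]; exact dX hx')
      · by_cases hss : s = s'
        · subst hss
          exact absurd hvv.symm (hy1 s hs).2.2.2.2.2.2.2
        · exact absurd hvv.symm (hy2 s' hs' s hs (Ne.symm hss)).2.1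
      · by_cases hss : s = s'
        · rw [e1, e2, hss]
        · exact absurd hvv (hy2 s hs s' hs' hss).2.2
  -- step (3): greedy
  set UC : Finset ℕ := (S'.image fun s => (ys s).natAbs) ∪ (S'.image fun s : ℕ => ((s : ℤ) - ys s).natAbs) with hUC
  have hUCc : UC.card ≤ 2 * W.card := by
    have h1 : (S'.image fun s => (ys s).natAbs).card ≤ S'.card := card_image_le
    have h2 : (S'.image fun s : ℕ => ((s : ℤ) - ys s).natAbs).card ≤ S'.card := card_image_le
    have h3 := card_union_le (S'.image fun s => (ys s).natAbs) (S'.image fun s : ℕ => ((s : ℤ) - ys s).natAbs)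
    rw [hUC]; omega
  set AX : Finset ℕ := FXs n D q \ UC with hAX
  set W' : Finset ℕ := W \ Pl with hW'
  set Λ' : Finset ℕ := Λ ∪ Pl with hΛ'
  have hWW : W' ∪ Λ' = W ∪ Λ := by
    ext v
    simp only [hW', hΛ', mem_union, mem_sdiff]
    have := @hPlW v
    tauto
  have CNnX : ∀ w ∈ CN, ∀ x ∈ X', ¬ Ad p w (cv (iL x)) := by
    intro w hw x hx hA
    exact CNRs w hw (hcv.nb _ (hiLJ x hx) w (hWQ (hCNW hw)) (Or.inl (Asym _ _ hA)))
  have hint : ∀ w : ℕ, ∃ a b : ℤ, w ∈ W → b - a = 2 * c ∧ -(3 * c : ℤ) ≤ a ∧ b ≤ 3 * c ∧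
      (∀ x ∈ X', Ad p w (cv (iL x)) → (0 < lab x → b ≤ -c) ∧ (lab x < 0 → (c : ℤ) ≤ a)) ∧
      ((∀ x ∈ X', ¬ Ad p w (cv (iL x))) → w ∉ CN → a = -c ∧ b = c) ∧ (w ∈ CN → a = y w - c ∧ b = y w + c) := by
    intro w
    by_cases hw : w ∈ W
    · by_cases hwC : w ∈ CN
      · have h1 := abs_le.1 (hy w hwC)
        refine ⟨y w - c, y w + c, fun _ => ⟨by ring, by linarith [h1.1], by linarith [h1.2], ?_, fun _ h => absurd hwC h,
          fun _ => ⟨rfl, rfl⟩⟩⟩
        intro x hx hA
        exact absurd hA (CNnX w hwC x hx)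
      · by_cases h : ∃ x ∈ X', Ad p w (cv (iL x))
        · obtain ⟨x, hx, hA⟩ := h
          have huniq : ∀ x' ∈ X', Ad p w (cv (iL x')) → x' = x := by
            intro x' hx' hA'
            refine hiL hx' hx ?_
            exact hfar _ (hiLJ x' hx') _ (hiLJ x hx) w (hWQ hw) (Or.inr (Or.inr (Or.inl (Asym _ _ hA'))))
              (Or.inr (Or.inr (Or.inl (Asym _ _ hA))))
          rcases lt_trichotomy (lab x) 0 with hl | hl | hl
          · refine ⟨c, 3 * c, fun _ => ⟨by ring, by omega, by omega, ?_, fun h => absurd hA (h x hx), fun h => absurd h hwC⟩⟩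
            intro x' hx' hA'
            rw [huniq x' hx' hA']
            exact ⟨fun h => by omega, fun _ => le_rfl⟩
          · exfalso
            have h1 := (hlab x hx).1
            rw [hl] at h1
            have h2 := (mem_LC.1 (hX' hx)).1.1
            simp at h1
            omega
          · refine ⟨-(3 * c), -c, fun _ => ⟨by ring, by omega, by omega, ?_, fun h => absurd hA (h x hx), fun h => absurd h hwC⟩⟩
            intro x' hx' hA'
            rw [huniq x' hx' hA']
            exact ⟨fun _ => le_rfl, fun h => by omega⟩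
        · push Not at h
          refine ⟨-c, c, fun _ => ⟨by ring, by omega, by omega, ?_, fun _ _ => ⟨rfl, rfl⟩, fun h => absurd h hwC⟩⟩
          intro x hx hA
          exact absurd hA (h x hx)
    · exact ⟨0, 0, fun h => absurd h hw⟩
  choose a b hab using hint
  have hCr : ∀ (w : ℕ) (N : Finset ℤ), ∃ C : Finset ℤ, N.card ≤ D → ((b w - a w : ℤ) ≤ qM D e q * ((C.card : ℤ) + 1) ∧
      ∀ u ∈ C, a w ≤ u ∧ u ≤ b w ∧ u ≡ ρ w [ZMOD (2 * e : ℕ)] ∧ (q D : ℤ) ∣ u ∧ ∀ l ∈ N, ∃ j ∈ range D, (q j : ℤ) ∣ u + l) := by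
    intro w N
    by_cases hN : N.card ≤ D
    · obtain ⟨C, hC⟩ := crt_label he hq N hN (ρ w) (a w) (b w)
      exact ⟨C, fun _ => hC⟩
    · exact ⟨∅, fun h => absurd h hN⟩
  choose Cr hCr using hCr
  set Cd : ℕ → Finset ℤ → Finset ℤ := fun w N => (Cr w N).filter fun u => u.natAbs ∈ AX ∧ -u ∉ N with hCd
  set C0 : ℕ → Finset ℤ := fun w => (Icc (-(3 * c : ℤ)) (3 * c)).filter fun u => Odd u ∧ u ≡ ρ w [ZMOD (2 * e : ℕ)] with hC0
  have hc' : (10 * c : ℤ) ≤ n := by exact_mod_cast hc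
  have hc1' : (1 : ℤ) ≤ c := by exact_mod_cast hc1
  have hn10' : (10 : ℤ) ≤ n := by exact_mod_cast hn10
  obtain ⟨g, hgo, hgC, hginj, hgS, hgSi⟩ := gext (D := D) (M := 2 * W'.card + 2 * D ^ 2 * W'.card + D ^ 2 + 1) (p := p) (W := W') (Λ := Λ')
    (AX := AX) (AS := FSs n D e q)
    (by
      intro i hi h0
      rw [hWW] at hi
      refine hp i h0 (mem_range.1 (hQn ?_))
      rcases mem_union.1 hi with h | h
      · exact hWQ h
      · exact hΛQ h)
    (by
      rw [Finset.disjoint_left]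
      intro v hv1 hv2
      rw [hW', mem_sdiff] at hv1
      rw [hΛ', mem_union] at hv2
      rcases hv2 with h | h
      · exact hWΛ' hv1.1 h
      · exact hv1.2 h)
    g1
    (by
      intro w hw
      rw [hWW]
      have hwQ : w ∈ QQ Bd CN Cl Rs Mn := hWQ (mem_sdiff.1 hw).1
      refine le_trans (card_le_card ?_) (hdeg w hwQ)
      apply filter_subset_filter
      exact union_subset hWQ hΛQ)
    hinj1
    (by
      intro v hv hvA
      rw [hAX, mem_sdiff] at hvA
      rcases mem_union.1 hv with hv | hv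
      · rw [hg10 v (hPlΛ v hv)] at hvA
        exact hΛX v hv (mem_union_right _ hvA.1)
      · rcases hPlcase v hv with ⟨x, hx, e1, h⟩ | ⟨s, hs, e1, h⟩ | ⟨s, hs, e1, h⟩
        · rw [h, (hlab x hx).1] at hvA
          exact Finset.disjoint_left.1 hXF hx hvA.1
        · rw [h] at hvA
          exact hvA.2 (by rw [hUC]; exact mem_union_left _ (mem_image.2 ⟨s, hs, rfl⟩))
        · rw [h] at hvA
          exact hvA.2 (by rw [hUC]; exact mem_union_right _ (mem_image.2 ⟨s, hs, rfl⟩)))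
    Cd C0
    (by
      intro w hw N hN hl
      have hwW : w ∈ W := (mem_sdiff.1 hw).1
      have hwP : w ∉ Pl := (mem_sdiff.1 hw).2
      obtain ⟨hC1, hC2⟩ := hCr w N hN
      obtain ⟨hba, ha3, hb3, hadj, hnadj, hCNw⟩ := hab w hwW
      have hCrF : ∀ u ∈ Cr w N, u.natAbs ∈ FXs n D q ∧ Odd u := by
        intro u hu
        obtain ⟨h1, h2, h3, h4, -⟩ := hC2 u hu
        have hou : Odd u := odd_of_modeq h3 (hρW w hwW)
        have hou' : Odd u.natAbs := Int.natAbs_odd.2 hou
        refine ⟨?_, hou⟩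
        unfold FXs
        rw [mem_filter, mem_LC]
        refine ⟨⟨⟨hou'.pos, ?_⟩, hou'⟩, ?_, Or.inl (Int.natCast_dvd.1 h4)⟩
        · omega
        · omega
      constructor
      · -- counting
        have hbad : (Cr w N).card ≤ (Cd w N).card + (4 * W.card + D) := by
          have hsub : Cr w N ⊆ Cd w N ∪ ((UC.image fun x : ℕ => (x : ℤ)) ∪ (UC.image fun x : ℕ => -(x : ℤ)) ∪ N.image fun u => -u) := by
            intro u hu
            rw [mem_union]
            by_cases h1 : u.natAbs ∈ AX ∧ -u ∉ N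
            · left
              rw [hCd]
              exact mem_filter.2 ⟨hu, h1⟩
            · right
              rw [mem_union, mem_union, mem_image, mem_image, mem_image]
              by_cases h2 : -u ∈ N
              · exact Or.inr ⟨-u, h2, by ring⟩
              · left
                have h3 : u.natAbs ∉ AX := fun h => h1 ⟨h, h2⟩
                rw [hAX, mem_sdiff] at h3
                have h4 : u.natAbs ∈ UC := by
                  by_contra h5
                  exact h3 ⟨(hCrF u hu).1, h5⟩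
                rcases Int.natAbs_eq u with h5 | h5
                · exact Or.inl ⟨_, h4, h5.symm⟩
                · exact Or.inr ⟨_, h4, h5.symm⟩
          have h1 := card_le_card hsub
          have h2 := card_union_le (Cd w N) ((UC.image fun x : ℕ => (x : ℤ)) ∪ (UC.image fun x : ℕ => -(x : ℤ)) ∪ N.image fun u => -u)
          have h3 := card_union_le ((UC.image fun x : ℕ => (x : ℤ)) ∪ (UC.image fun x : ℕ => -(x : ℤ))) (N.image fun u => -u)
          have h4 := card_union_le (UC.image fun x : ℕ => (x : ℤ)) (UC.image fun x : ℕ => -(x : ℤ))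
          have h5 : (UC.image fun x : ℕ => (x : ℤ)).card ≤ UC.card := card_image_le
          have h6 : (UC.image fun x : ℕ => -(x : ℤ)).card ≤ UC.card := card_image_le
          have h7 : (N.image fun u => -u).card ≤ N.card := card_image_le
          omega
        have hCrc : q (D + 1) * (100 * (D + 1) ^ 2 * (W.card + 1)) ≤ (Cr w N).card + 1 := by
          have h1 : (qM D e q : ℤ) * (q (D + 1) * (100 * (D + 1) ^ 2 * (W.card + 1)) : ℕ) ≤ qM D e q * (((Cr w N).card : ℤ) + 1) := by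
            have h0 : ((qM D e q * q (D + 1) * (100 * (D + 1) ^ 2 * (W.card + 1)) : ℕ) : ℤ) ≤ c := by exact_mod_cast hcap
            have h00 : ((qM D e q * q (D + 1) * (100 * (D + 1) ^ 2 * (W.card + 1)) : ℕ) : ℤ) =
              (qM D e q : ℤ) * (q (D + 1) * (100 * (D + 1) ^ 2 * (W.card + 1)) : ℕ) := by push_cast; ring
            rw [h00] at h0
            linarith
          have h2 := le_of_mul_le_mul_left h1 (by exact_mod_cast hqMpos)
          exact_mod_cast h2
        have h3 : 3 * (100 * (D + 1) ^ 2 * (W.card + 1)) ≤ q (D + 1) * (100 * (D + 1) ^ 2 * (W.card + 1)) := by gcongr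
        have h4 : W'.card ≤ W.card := card_le_card sdiff_subset
        have h5 : 2 * D ^ 2 * W'.card ≤ 2 * D ^ 2 * W.card := by gcongr
        have h6 : 3 * (100 * (D + 1) ^ 2 * (W.card + 1)) = 300 * (D ^ 2 * W.card) + 300 * D ^ 2 + 600 * (D * W.card) + 600 * D + 300 * W.card + 300 := by ring
        have h7 : 2 * D ^ 2 * W.card = 2 * (D ^ 2 * W.card) := by ring
        have h8 : 0 ≤ D ^ 2 * W.card := Nat.zero_le _
        omega
      · intro u hu
        rw [hCd] at hu
        obtain ⟨huC, huA, huN⟩ := mem_filter.1 hu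
        obtain ⟨hu1, hu2, hu3, hu4, hu5⟩ := hC2 u huC
        have hou := (hCrF u huC).2
        refine ⟨?_, huA, ?_⟩
        · rw [hC0]
          exact mem_filter.2 ⟨mem_Icc.2 ⟨by omega, by omega⟩, hou, hu3⟩
        · intro l hlN
          obtain ⟨v, hv, hcase⟩ := hl l hlN
          have hvWΛ : v ∈ W ∪ Λ := by
            rw [← hWW, mem_union]
            rcases hcase with h | h
            · exact Or.inr h.1
            · exact Or.inl h.1
          have hvQ : v ∈ QQ Bd CN Cl Rs Mn := by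
            rcases mem_union.1 hvWΛ with h | h
            · exact hWQ h
            · exact hΛQ h
          have hρwv : ρ w + ρ v ≡ 0 [ZMOD (2 * e : ℕ)] := by
            rcases hv with ⟨h0, h1⟩ | ⟨h0, h1⟩
            · have := hρ w (by
                unfold EdT EdI
                rw [mem_filter, mem_filter]
                exact ⟨⟨mem_union_left _ hwW, h0, by rw [h1]; exact hvWΛ⟩, Or.inl hwW⟩) (by
                intro s hs h
                exact hwP (by rw [hPl, mem_union]; exact Or.inr (mem_image.2 ⟨s, hs, h.symm⟩)))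
              rw [h1] at this
              exact this
            · have := hρ v (by
                unfold EdT EdI
                rw [mem_filter, mem_filter]
                exact ⟨⟨hvWΛ, h0, by rw [h1]; exact mem_union_left _ hwW⟩, Or.inr (by rw [h1]; exact hwW)⟩) (by
                intro s hs h
                apply hwP
                have h2 := (hcv.mem _ (hiSJ s hs)).2.2.2
                rw [← h, h1] at h2
                rw [hPl, mem_union, mem_union]
                exact Or.inl (Or.inr (mem_image.2 ⟨s, hs, h2.symm⟩)))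
              rw [h1, add_comm] at this
              exact this
          have hlρ : l ≡ ρ v [ZMOD (2 * e : ℕ)] := by
            rcases hcase with ⟨h1, h2⟩ | ⟨h1, h2⟩
            · rw [h2]; exact hLρ v h1
            · rw [hC0] at h2; exact (mem_filter.1 h2).2.2
          have hdvd : ((2 * e : ℕ) : ℤ) ∣ u + l := by
            have h1 : u + l ≡ 0 [ZMOD (2 * e : ℕ)] := (hu3.add hlρ).trans hρwv
            exact (Int.modEq_zero_iff_dvd).1 h1
          have hne : u + l ≠ 0 := by
            intro h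
            apply huN
            have : -u = l := by omega
            rw [this]; exact hlN
          have hnoX : (∀ x ∈ X', ¬ Ad p w (cv (iL x))) → w ∉ CN → -(c : ℤ) ≤ u ∧ u ≤ c := by
            intro h h'
            obtain ⟨h1, h2⟩ := hnadj h h'
            exact ⟨by omega, by omega⟩
          have hbd : -((n : ℤ) - 1) ≤ u + l ∧ u + l ≤ n - 1 := by
            rcases hcase with ⟨h1, h2⟩ | ⟨h1, h2⟩
            · rw [hΛ', mem_union] at h1
              rcases h1 with h1 | h1
              · -- v in Λ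
                have hwCN := nbΛ w hwW v h1 hv
                obtain ⟨h3, h4⟩ := hCNw hwCN
                have h5 := hΛb v h1 w hwCN (Asym _ _ hv)
                rw [hg10 v (hPlΛ v h1)] at h2
                rw [← h2, abs_le] at h5
                constructor <;> omega
              · rcases hPlcase v h1 with ⟨x, hx, e1, h⟩ | ⟨s, hs, e1, h⟩ | ⟨s, hs, e1, h⟩
                · have h3 := hadj x hx (by rw [← e1]; exact hv)
                  rw [h2, h]
                  have h4 := (hlab x hx).1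
                  obtain ⟨⟨h5, h6⟩, h7⟩ := mem_LC.1 (hX' hx)
                  have h8 : x ≤ n - 1 := by
                    obtain ⟨k, hk⟩ := hn2
                    obtain ⟨k', hk'⟩ := h7
                    omega
                  rcases lt_trichotomy (lab x) 0 with hl0 | hl0 | hl0
                  · have h9 := h3.2 hl0
                    constructor <;> omega
                  · rw [hl0] at h4; simp at h4; omega
                  · have h9 := h3.1 hl0
                    constructor <;> omega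
                · have hX0 : ∀ x ∈ X', ¬ Ad p w (cv (iL x)) := by
                    intro x hx hA
                    refine hdis x hx s hs ?_
                    exact hfar _ (hiLJ x hx) _ (hiSJ s hs) w (hWQ hwW) (Or.inr (Or.inr (Or.inl (Asym _ _ hA))))
                      (Or.inr (Or.inr (Or.inl (by rw [← e1]; exact Asym _ _ hv))))
                  obtain ⟨h3, h4⟩ := hnoX hX0 (fun hwC => CNRs w hwC (hcv.nb _ (hiSJ s hs) w (hWQ hwW)
                    (Or.inl (by rw [← e1]; exact Asym _ _ hv))))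
                  have h5 := (hy1 s hs).2.2.2.2.2.1
                  rw [← h, ← h2, Int.abs_eq_natAbs] at h5
                  constructor <;> omega
                · have hX0 : ∀ x ∈ X', ¬ Ad p w (cv (iL x)) := by
                    intro x hx hA
                    refine hdis x hx s hs ?_
                    exact hfar _ (hiLJ x hx) _ (hiSJ s hs) w (hWQ hwW) (Or.inr (Or.inr (Or.inl (Asym _ _ hA))))
                      (Or.inr (Or.inr (Or.inr (by rw [← e1]; exact Asym _ _ hv))))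
                  obtain ⟨h3, h4⟩ := hnoX hX0 (fun hwC => CNRs w hwC (hcv.nb _ (hiSJ s hs) w (hWQ hwW)
                    (Or.inr (by rw [← e1]; exact Asym _ _ hv))))
                  have h5 := (hy1 s hs).2.2.2.2.2.2.1
                  rw [← h, ← h2, Int.abs_eq_natAbs] at h5
                  constructor <;> omega
            · rw [hC0] at h2
              have h3 := mem_Icc.1 (mem_filter.1 h2).1
              constructor <;> omega
          obtain ⟨j, hj, hjd⟩ := hu5 l hlN
          unfold FSs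
          rw [mem_filter, mem_SC]
          have hd2 : 2 * e ∣ (u + l).natAbs := Int.natCast_dvd.1 hdvd
          refine ⟨⟨⟨?_, ?_⟩, ?_⟩, hd2, j, hj, Int.natCast_dvd.1 hjd⟩
          · omega
          · omega
          · exact even_iff_two_dvd.2 (dvd_trans (dvd_mul_right 2 e) hd2))
    (by omega)
  -- conclusions
  have hnW' : ∀ v ∈ Λ ∪ Pl, v ∉ W' := by
    intro v hv h
    rw [hW', mem_sdiff] at h
    rcases mem_union.1 hv with hv | hv
    · exact hWΛ' h.1 hv
    · exact h.2 hv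
  have hgP : ∀ v ∈ Λ ∪ Pl, g v = g1 v := fun v hv => hgo v (hnW' v hv)
  have hAXn : ∀ v ∈ Λ ∪ Pl, (g1 v).natAbs ∉ AX := by
    intro v hv hvA
    rw [hAX, mem_sdiff] at hvA
    rcases mem_union.1 hv with hv | hv
    · rw [hg10 v (hPlΛ v hv)] at hvA
      exact hΛX v hv (mem_union_right _ hvA.1)
    · rcases hPlcase v hv with ⟨x, hx, e1, h⟩ | ⟨s, hs, e1, h⟩ | ⟨s, hs, e1, h⟩
      · rw [h, (hlab x hx).1] at hvA
        exact Finset.disjoint_left.1 hXF hx hvA.1
      · rw [h] at hvA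
        exact hvA.2 (by rw [hUC]; exact mem_union_left _ (mem_image.2 ⟨s, hs, rfl⟩))
      · rw [h] at hvA
        exact hvA.2 (by rw [hUC]; exact mem_union_right _ (mem_image.2 ⟨s, hs, rfl⟩))
  have hcvPl : ∀ x ∈ X', cv (iL x) ∈ Pl := fun x hx => by
    rw [hPl, mem_union, mem_union]; exact Or.inl (Or.inl (mem_image.2 ⟨x, hx, rfl⟩))
  have hcvPl2 : ∀ s ∈ S', cv (iS s) ∈ Pl := fun s hs => by
    rw [hPl, mem_union, mem_union]; exact Or.inl (Or.inr (mem_image.2 ⟨s, hs, rfl⟩))
  have hcwPl : ∀ s ∈ S', cw (iS s) ∈ Pl := fun s hs => by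
    rw [hPl, mem_union]; exact Or.inr (mem_image.2 ⟨s, hs, rfl⟩)
  have hsum : ∀ s ∈ S', g (cw (iS s)) + g (cv (iS s)) = s := by
    intro s hs
    rw [hgP _ (mem_union_right _ (hcwPl s hs)), hgP _ (mem_union_right _ (hcvPl2 s hs)),
      hg1w _ s hs rfl, hg1v _ s hs rfl]
    ring
  -- edges
  have hedge : ∀ i ∈ EdT p W Λ, i ∈ EdT p W' Λ' ∨ ∃ s ∈ S', i = cw (iS s) := by
    intro i hi
    unfold EdT EdI at hi
    rw [mem_filter, mem_filter] at hi
    obtain ⟨⟨hi1, hi0, hi2⟩, hi3⟩ := hi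
    by_cases hcs : i ∈ W' ∨ p i ∈ W'
    · left
      unfold EdT EdI
      rw [mem_filter, mem_filter, hWW]
      exact ⟨⟨hi1, hi0, hi2⟩, hcs⟩
    · right
      push Not at hcs
      have toQ : ∀ v ∈ W ∪ Λ, v ∈ QQ Bd CN Cl Rs Mn := by
        intro v hv
        rcases mem_union.1 hv with h | h
        · exact hWQ h
        · exact hΛQ h
      have hpi : p i < i := hp i hi0 (mem_range.1 (hQn (toQ i hi1)))
      -- both ends placed
      have site : ∀ v ∈ Pl, ∃ j, j < Jc ∧ ((∃ x ∈ X', j = iL x ∧ v = cv j) ∨ (∃ s ∈ S', j = iS s ∧ (v = cv j ∨ v = cw j))) := by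
        intro v hv
        rcases hPlcase v hv with ⟨x, hx, e1, -⟩ | ⟨s, hs, e1, -⟩ | ⟨s, hs, e1, -⟩
        · exact ⟨iL x, hiLJ x hx, Or.inl ⟨x, hx, rfl, e1⟩⟩
        · exact ⟨iS s, hiSJ s hs, Or.inr ⟨s, hs, rfl, Or.inl e1⟩⟩
        · exact ⟨iS s, hiSJ s hs, Or.inr ⟨s, hs, rfl, Or.inr e1⟩⟩
      have other : ∀ v ∈ Pl, ∀ v' ∈ W ∪ Λ, Ad p v v' → v' ∉ W' → v' ∈ Pl := by
        intro v hv v' hv' hA hvW
        obtain ⟨j, hj, hcase⟩ := site v hv
        have h1 : v' ∈ Rs := by
          refine hcv.nb j hj v' (toQ v' hv') ?_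
          rcases hcase with ⟨x, hx, -, h⟩ | ⟨s, hs, -, h | h⟩
          · left; rw [← h]; exact hA
          · left; rw [← h]; exact hA
          · right; rw [← h]; exact hA
        by_contra h2
        exact hvW (by rw [hW', mem_sdiff]; exact ⟨hRsW h1, h2⟩)
      have hAi : Ad p i (p i) := Or.inl ⟨hi0, rfl⟩
      have hboth : i ∈ Pl ∧ p i ∈ Pl := by
        rcases hi3 with h | h
        · have h1 : i ∈ Pl := by
            by_contra h2
            exact hcs.1 (by rw [hW', mem_sdiff]; exact ⟨h, h2⟩)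
          exact ⟨h1, other i h1 (p i) hi2 hAi hcs.2⟩
        · have h1 : p i ∈ Pl := by
            by_contra h2
            exact hcs.2 (by rw [hW', mem_sdiff]; exact ⟨h, h2⟩)
          exact ⟨other (p i) h1 i hi1 (Asym _ _ hAi) hcs.1, h1⟩
      obtain ⟨j, hj, hcj⟩ := site i hboth.1
      obtain ⟨j', hj', hcj'⟩ := site (p i) hboth.2
      have hjj : j = j' := by
        refine hfar j hj j' hj' (p i) (toQ _ hi2) ?_ ?_
        · rcases hcj with ⟨x, hx, -, h⟩ | ⟨s, hs, -, h | h⟩
          · exact Or.inr (Or.inr (Or.inl (by rw [← h]; exact hAi)))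
          · exact Or.inr (Or.inr (Or.inl (by rw [← h]; exact hAi)))
          · exact Or.inr (Or.inr (Or.inr (by rw [← h]; exact hAi)))
        · rcases hcj' with ⟨x, hx, -, h⟩ | ⟨s, hs, -, h | h⟩
          · exact Or.inl h
          · exact Or.inl h
          · exact Or.inr (Or.inl h)
      subst hjj
      rcases hcj with ⟨x, hx, hjx, h⟩ | ⟨s, hs, hjs, h | h⟩
      · exfalso
        rcases hcj' with ⟨x', hx', -, h'⟩ | ⟨s, hs, hjs, -⟩
        · omega
        · exact hdis x hx s hs (hjx.symm.trans hjs)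
      · exfalso
        have hpj := (hcv.mem j hj).2.2.2
        have hltj := hlt j hj
        rcases hcj' with ⟨x', hx', -, h'⟩ | ⟨s', hs', -, h' | h'⟩
        · omega
        · omega
        · rw [hpj, ← h, ← h'] at hltj
          omega
      · exact ⟨s, hs, by rw [h, hjs]⟩
  refine ⟨g, ?_, ?_, ?_, ?_, ?_, ?_, hsum⟩
  · intro v hv
    have h1 : v ∉ W' := fun h => hv (mem_sdiff.1 h).1
    have h2 : v ∉ Pl := fun h => hv (hPlW h)
    rw [hgo v h1, hg10 v h2]
  · intro v hv
    by_cases hvP : v ∈ Pl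
    · rw [hgP v (mem_union_right _ hvP)]
      exact ⟨(hPlcl v hvP).2, (hPlcl v hvP).1⟩
    · have hvW' : v ∈ W' := by rw [hW', mem_sdiff]; exact ⟨hv, hvP⟩
      obtain ⟨h1, h2⟩ := hgC v hvW'
      rw [hC0] at h1
      rw [hAX, mem_sdiff] at h2
      exact ⟨(mem_filter.1 h1).2.1, mem_union_right _ h2.1⟩
  · intro v hv v' hv' hvv
    simp only at hvv
    rw [← hWW] at hv hv'
    rcases mem_union.1 (mem_coe.1 hv) with hv | hv <;> rcases mem_union.1 (mem_coe.1 hv') with hv' | hv'
    · exact hginj hv hv' hvv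
    · have h1 := (hgC v hv).2
      rw [hvv, hgP v' hv'] at h1
      exact absurd h1 (hAXn v' hv')
    · have h1 := (hgC v' hv').2
      rw [← hvv, hgP v hv] at h1
      exact absurd h1 (hAXn v hv)
    · rw [hgP v hv, hgP v' hv'] at hvv
      exact hinj1 hv hv' hvv
  · intro x hx
    rw [hgP _ (mem_union_right _ (hcvPl x hx)), hg1L _ x hx rfl]
    exact (hlab x hx).1
  · intro i hi
    rcases hedge i hi with h | ⟨s, hs, rfl⟩
    · exact mem_union_right _ (hgS i h)
    · rw [(hcv.mem _ (hiSJ s hs)).2.2.2, hsum s hs]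
      exact mem_union_left _ (by simpa using hs)
  · intro i hi i' hi' hii
    simp only at hii
    have dS := Finset.disjoint_left.1 hSF
    have hval : ∀ s ∈ S', (g (cw (iS s)) + g (p (cw (iS s)))).natAbs = s := by
      intro s hs
      rw [(hcv.mem _ (hiSJ s hs)).2.2.2, hsum s hs]
      simp
    rcases hedge i hi with h | ⟨s, hs, rfl⟩ <;> rcases hedge i' hi' with h' | ⟨s', hs', rfl⟩
    · exact hgSi h h' hii
    · rw [hval s' hs'] at hii
      exact absurd (hgS i h) (by rw [hii]; exact dS hs')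
    · rw [hval s hs] at hii
      exact absurd (hgS i' h') (by rw [← hii]; exact dS hs)
    · rw [hval s hs, hval s' hs'] at hii
      rw [hii]

end Pool.Agent.BD
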