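import Pool.Agent.Helper73.BD.A0

/-!
# BD-GX: greedy labelling of the vertices `W` of a forest (half world, classes)

`Ad p v w`: adjacent for the parent function `p`.  `W` is to be labelled, `Λ` is labelled by `g0`; `AX`, `AS` are the available label and sum classes.
`Cd w N` is a set of candidates for the label of `w` if the labelled neighbours of `w` have the set of labels `N`; `C0 w` is a set containing them all.

Proof in words.  Label the vertices of `W` one after the other (induction on a subset `W' ⊆ W`, labelled so far).  Let `N` be the set of labels of the neighbours of `w` in `Λ ∪ W'`.  In `Cd w N` avoid: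
`u` with `|u| = |g v|`, `v ∈ W'` (`≤ 2|W|` values); `u` with `|u + l|` equal to a used sum class, `l ∈ N` (`≤ D · 2 D |W|`: the edges touching `W'` have at most `D|W'|` sums);
`u` with `|u + l| = |u + l'|`, `l ≠ l' ∈ N` (at most `D²`).  Different labelled neighbours of `w` have different labels (different classes: `Λ` by hypothesis, the classes of `Λ` are not in `AX`).
-/

set_option autoImplicit false

namespace Pool.Agent.BD

open Finset Pool.Agent.SEM

/-- adjacency -/
def Ad (p : ℕ → ℕ) (v w : ℕ) : Prop := (0 < v ∧ p v = w) ∨ (0 < w ∧ p w = v)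

instance (p : ℕ → ℕ) (v w : ℕ) : Decidable (Ad p v w) := by unfold Ad; infer_instance

/-- edges `(i, p i)` inside `A` -/
def EdI (p : ℕ → ℕ) (A : Finset ℕ) : Finset ℕ := A.filter fun i => 0 < i ∧ p i ∈ A

/-- edges inside `W ∪ Λ` touching `W` -/
def EdT (p : ℕ → ℕ) (W Λ : Finset ℕ) : Finset ℕ := (EdI p (W ∪ Λ)).filter fun i => i ∈ W ∨ p i ∈ W

private lemma mem_EdT_63 {p : ℕ → ℕ} {W Λ : Finset ℕ} {i : ℕ} :
    i ∈ EdT p W Λ ↔ i ∈ W ∪ Λ ∧ 0 < i ∧ p i ∈ W ∪ Λ ∧ (i ∈ W ∨ p i ∈ W) := by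
  unfold EdT EdI
  rw [mem_filter, mem_filter]
  tauto

private lemma card_EdT_63 {D : ℕ} {p : ℕ → ℕ} {W Λ W' : Finset ℕ}
    (hp : ∀ i ∈ W ∪ Λ, 0 < i → p i < i) (hW : W' ⊆ W)
    (hdeg : ∀ w ∈ W, ((W ∪ Λ).filter fun v => Ad p w v).card ≤ D) :
    (EdT p W' Λ).card ≤ D * W'.card := by
  have hsub : W' ∪ Λ ⊆ W ∪ Λ := union_subset_union hW (Subset.refl _)
  have h1 : EdT p W' Λ ⊆ W'.biUnion (fun w => ((W ∪ Λ).filter fun v => Ad p w v).image
      (fun v => if 0 < w ∧ p w = v then w else v)) := by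
    intro i hi
    obtain ⟨h1, h2, h3, h4⟩ := mem_EdT_63.1 hi
    rw [mem_biUnion]
    by_cases hiW : i ∈ W'
    · refine ⟨i, hiW, mem_image.2 ⟨p i, mem_filter.2 ⟨hsub h3, Or.inl ⟨h2, rfl⟩⟩, ?_⟩⟩
      rw [if_pos ⟨h2, rfl⟩]
    · have h5 : p i ∈ W' := h4.resolve_left hiW
      refine ⟨p i, h5, mem_image.2 ⟨i, mem_filter.2 ⟨hsub h1, Or.inr ⟨h2, rfl⟩⟩, ?_⟩⟩
      rw [if_neg]
      rintro ⟨h6, h7⟩
      have h8 := hp i (hsub h1) h2
      have h9 := hp (p i) (hsub h3) h6
      omega
  refine (card_le_card h1).trans (card_biUnion_le.trans ?_)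
  rw [mul_comm]
  refine (sum_le_card_nsmul _ _ D fun w hw => ?_).trans (by rw [smul_eq_mul])
  exact card_image_le.trans (hdeg w (hW hw))

private lemma bad_63 (N : Finset ℤ) (E : Finset ℕ) (σ : ℕ → ℤ) (W' : Finset ℕ) (g : ℕ → ℤ)
    (C : Finset ℤ) {D : ℕ} (hN : N.card ≤ D) (hE : E.card ≤ D * W'.card)
    (hC : 2 * W'.card + 2 * D ^ 2 * W'.card + D ^ 2 < C.card) :
    ∃ u ∈ C, (∀ v ∈ W', u.natAbs ≠ (g v).natAbs) ∧
      (∀ l ∈ N, ∀ i ∈ E, (u + l).natAbs ≠ (σ i).natAbs) ∧
      ∀ l ∈ N, ∀ l' ∈ N, (u + l).natAbs = (u + l').natAbs → l = l' := by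
  classical
  set B1 : Finset ℤ := W'.image g ∪ W'.image (fun v => - g v) with hB1
  set B2 : Finset ℤ := (N ×ˢ E).image (fun z => σ z.2 - z.1) ∪
    (N ×ˢ E).image (fun z => - σ z.2 - z.1) with hB2
  set B3 : Finset ℤ := (N ×ˢ N).image (fun z => (-(z.1 + z.2)) / 2) with hB3
  have h1 : B1.card ≤ 2 * W'.card := by
    refine (card_union_le _ _).trans ?_
    have h1 := card_image_le (s := W') (f := g)
    have h2 := card_image_le (s := W') (f := fun v => - g v)
    omega
  have h2 : B2.card ≤ 2 * D ^ 2 * W'.card := by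
    refine (card_union_le _ _).trans ?_
    have h1 := card_image_le (s := N ×ˢ E) (f := fun z => σ z.2 - z.1)
    have h2 := card_image_le (s := N ×ˢ E) (f := fun z => - σ z.2 - z.1)
    rw [card_product] at h1 h2
    have h3 : N.card * E.card ≤ D * (D * W'.card) := Nat.mul_le_mul hN hE
    have h4 : 2 * D ^ 2 * W'.card = 2 * (D * (D * W'.card)) := by ring
    rw [h4]
    omega
  have h3 : B3.card ≤ D ^ 2 := by
    refine card_image_le.trans ?_
    rw [card_product, sq]
    exact Nat.mul_le_mul hN hN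
  have h4 : (B1 ∪ B2 ∪ B3).card < C.card := by
    have h5 := card_union_le (B1 ∪ B2) B3
    have h6 := card_union_le B1 B2
    omega
  obtain ⟨u, hu, hub⟩ := exists_mem_notMem_of_card_lt_card h4
  rw [mem_union, mem_union, not_or, not_or] at hub
  obtain ⟨⟨hu1, hu2⟩, hu3⟩ := hub
  refine ⟨u, hu, ?_, ?_, ?_⟩
  · intro v hv h
    apply hu1
    rw [hB1, mem_union, mem_image, mem_image]
    rcases Int.natAbs_eq_natAbs_iff.1 h with h | h
    · exact Or.inl ⟨v, hv, h.symm⟩
    · exact Or.inr ⟨v, hv, h.symm⟩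
  · intro l hl i hi h
    apply hu2
    rw [hB2, mem_union, mem_image, mem_image]
    rcases Int.natAbs_eq_natAbs_iff.1 h with h | h
    · exact Or.inl ⟨(l, i), mem_product.2 ⟨hl, hi⟩, by simp only; omega⟩
    · exact Or.inr ⟨(l, i), mem_product.2 ⟨hl, hi⟩, by simp only; omega⟩
  · intro l hl l' hl' h
    rcases Int.natAbs_eq_natAbs_iff.1 h with h | h
    · omega
    · exfalso
      apply hu3
      rw [hB3, mem_image]
      exact ⟨(l, l'), mem_product.2 ⟨hl, hl'⟩, by simp only; omega⟩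

theorem gext {D M : ℕ} {p : ℕ → ℕ} {W Λ : Finset ℕ} (hp : ∀ i ∈ W ∪ Λ, 0 < i → p i < i) (hd : Disjoint W Λ) (g0 : ℕ → ℤ)
    (hdeg : ∀ w ∈ W, ((W ∪ Λ).filter fun v => Ad p w v).card ≤ D)
    {AX AS : Finset ℕ} (hΛ : Set.InjOn (fun v => (g0 v).natAbs) Λ) (hΛX : ∀ v ∈ Λ, (g0 v).natAbs ∉ AX)
    (Cd : ℕ → Finset ℤ → Finset ℤ) (C0 : ℕ → Finset ℤ)
    (hC : ∀ w ∈ W, ∀ N : Finset ℤ, N.card ≤ D →
      (∀ l ∈ N, ∃ v, Ad p w v ∧ ((v ∈ Λ ∧ l = g0 v) ∨ (v ∈ W ∧ l ∈ C0 v))) →
      M ≤ (Cd w N).card ∧ ∀ u ∈ Cd w N, u ∈ C0 w ∧ u.natAbs ∈ AX ∧ ∀ l ∈ N, (u + l).natAbs ∈ AS)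
    (hM : 2 * W.card + 2 * D ^ 2 * W.card + D ^ 2 < M) :
    ∃ g : ℕ → ℤ, (∀ v, v ∉ W → g v = g0 v) ∧ (∀ w ∈ W, g w ∈ C0 w ∧ (g w).natAbs ∈ AX) ∧
      Set.InjOn (fun v => (g v).natAbs) W ∧
      (∀ i ∈ EdT p W Λ, (g i + g (p i)).natAbs ∈ AS) ∧
      Set.InjOn (fun i => (g i + g (p i)).natAbs) (EdT p W Λ) := by
  classical
  have key : ∀ W' : Finset ℕ, W' ⊆ W →
      ∃ g : ℕ → ℤ, (∀ v, v ∉ W' → g v = g0 v) ∧ (∀ w ∈ W', g w ∈ C0 w ∧ (g w).natAbs ∈ AX) ∧
      Set.InjOn (fun v => (g v).natAbs) W' ∧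
      (∀ i ∈ EdT p W' Λ, (g i + g (p i)).natAbs ∈ AS) ∧
      Set.InjOn (fun i => (g i + g (p i)).natAbs) (EdT p W' Λ) := by
    intro W'
    induction W' using Finset.induction_on with
    | empty =>
      intro _
      have hE : EdT p ∅ Λ = ∅ := by
        ext i
        rw [mem_EdT_63]
        simp
      refine ⟨g0, fun _ _ => rfl, by simp, by simp, ?_, ?_⟩
      · rw [hE]; simp
      · rw [hE]; simp
    | insert w W' hwW' ih =>
      intro hsub
      have hwW : w ∈ W := hsub (mem_insert_self _ _)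
      have hW'W : W' ⊆ W := fun x hx => hsub (mem_insert_of_mem hx)
      obtain ⟨g, hg0, hgC, hginj, hgS, hgSinj⟩ := ih hW'W
      have hwΛ : w ∉ Λ := disjoint_left.1 hd hwW
      have hW'Λ : ∀ v ∈ Λ, v ∉ W' := fun v hv hv' => disjoint_left.1 hd (hW'W hv') hv
      have hsub' : W' ∪ Λ ⊆ W ∪ Λ := union_subset_union hW'W (Subset.refl _)
      -- injectivity of the labels
      have hinj : ∀ v ∈ W' ∪ Λ, ∀ v' ∈ W' ∪ Λ, g v = g v' → v = v' := by
        intro v hv v' hv' h
        rcases mem_union.1 hv with hv | hv <;> rcases mem_union.1 hv' with hv' | hv'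
        · exact hginj hv hv' (by simp only [h])
        · exfalso
          apply hΛX v' hv'
          rw [← hg0 v' (hW'Λ v' hv'), ← h]
          exact (hgC v hv).2
        · exfalso
          apply hΛX v hv
          rw [← hg0 v (hW'Λ v hv), h]
          exact (hgC v' hv').2
        · refine hΛ hv hv' ?_
          simp only
          rw [← hg0 v (hW'Λ v hv), ← hg0 v' (hW'Λ v' hv'), h]
      set Nb := (W' ∪ Λ).filter (fun v => Ad p w v) with hNb
      set N := Nb.image g with hN
      have hNcard : N.card ≤ D := by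
        refine card_image_le.trans (le_trans (card_le_card ?_) (hdeg w hwW))
        exact filter_subset_filter _ hsub'
      have hNprop : ∀ l ∈ N, ∃ v, Ad p w v ∧ ((v ∈ Λ ∧ l = g0 v) ∨ (v ∈ W ∧ l ∈ C0 v)) := by
        intro l hl
        obtain ⟨v, hv, rfl⟩ := mem_image.1 hl
        obtain ⟨hv1, hv2⟩ := mem_filter.1 hv
        refine ⟨v, hv2, ?_⟩
        rcases mem_union.1 hv1 with hv1 | hv1
        · exact Or.inr ⟨hW'W hv1, (hgC v hv1).1⟩
        · exact Or.inl ⟨hv1, hg0 v (hW'Λ v hv1)⟩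
      obtain ⟨hMC, hCd⟩ := hC w hwW N hNcard hNprop
      have hcardW : W'.card ≤ W.card := card_le_card hW'W
      obtain ⟨u, huC, hu1, hu2, hu3⟩ := bad_63 N (EdT p W' Λ) (fun i => g i + g (p i)) W' g
        (Cd w N) hNcard (card_EdT_63 hp hW'W hdeg) (by
          refine lt_of_lt_of_le (lt_of_le_of_lt ?_ hM) hMC
          have h1 : 2 * D ^ 2 * W'.card ≤ 2 * D ^ 2 * W.card := Nat.mul_le_mul_left _ hcardW
          omega)
      obtain ⟨hu4, hu5, hu6⟩ := hCd u huC
      -- the edges touching w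
      have hedge : ∀ i ∈ EdT p (insert w W') Λ, (i ∈ EdT p W' Λ ∧ i ≠ w ∧ p i ≠ w) ∨
          (i = w ∧ p i ∈ Nb ∧ p i ≠ w) ∨ (p i = w ∧ i ∈ Nb ∧ i ≠ w) := by
        intro i hi
        obtain ⟨h1, h2, h3, h4⟩ := mem_EdT_63.1 hi
        rw [insert_union, mem_insert] at h1 h3
        by_cases hiw : i = w
        · right; left
          have h5 : p i ≠ w := by
            have h6 := hp w (mem_union_left _ hwW) (hiw ▸ h2)
            rw [hiw]
            omega
          refine ⟨hiw, mem_filter.2 ⟨h3.resolve_left h5, ?_⟩, h5⟩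
          exact Or.inl ⟨hiw ▸ h2, by rw [hiw]⟩
        · by_cases hpw : p i = w
          · right; right
            refine ⟨hpw, mem_filter.2 ⟨h1.resolve_left hiw, Or.inr ⟨h2, hpw⟩⟩, hiw⟩
          · left
            refine ⟨mem_EdT_63.2 ⟨h1.resolve_left hiw, h2, h3.resolve_left hpw, ?_⟩, hiw, hpw⟩
            rcases h4 with h4 | h4
            · exact Or.inl ((mem_insert.1 h4).resolve_left hiw)
            · exact Or.inr ((mem_insert.1 h4).resolve_left hpw)
      have hgw : Function.update g w u w = u := Function.update_self _ _ _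
      have hgn : ∀ v, v ≠ w → Function.update g w u v = g v := fun v hv =>
        Function.update_of_ne hv _ _
      -- the sums at w: other end
      have hval : ∀ i ∈ EdT p (insert w W') Λ, ¬ (i ∈ EdT p W' Λ ∧ i ≠ w ∧ p i ≠ w) →
          ∃ v ∈ Nb, ((i = w ∧ p i = v) ∨ (i = v ∧ p i = w)) ∧
            Function.update g w u i + Function.update g w u (p i) = u + g v := by
        intro i hi hn
        rcases (hedge i hi).resolve_left hn with ⟨h1, h2, h3⟩ | ⟨h1, h2, h3⟩
        · refine ⟨p i, h2, Or.inl ⟨h1, rfl⟩, ?_⟩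
          rw [hgn _ h3, h1, hgw]
        · refine ⟨i, h2, Or.inr ⟨rfl, h1⟩, ?_⟩
          rw [hgn _ h3, h1, hgw, add_comm]
      refine ⟨Function.update g w u, ?_, ?_, ?_, ?_, ?_⟩
      · intro v hv
        rw [mem_insert, not_or] at hv
        rw [hgn v hv.1]
        exact hg0 v hv.2
      · intro v hv
        by_cases hvw : v = w
        · rw [hvw, hgw]
          exact ⟨hu4, hu5⟩
        · rw [hgn v hvw]
          exact hgC v ((mem_insert.1 hv).resolve_left hvw)
      · intro a ha b hb hab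
        have ha' := mem_insert.1 (mem_coe.1 ha)
        have hb' := mem_insert.1 (mem_coe.1 hb)
        simp only at hab
        by_cases haw : a = w <;> by_cases hbw : b = w
        · rw [haw, hbw]
        · exfalso
          rw [haw, hgw, hgn b hbw] at hab
          exact hu1 b (hb'.resolve_left hbw) hab
        · exfalso
          rw [hbw, hgw, hgn a haw] at hab
          exact hu1 a (ha'.resolve_left haw) hab.symm
        · rw [hgn a haw, hgn b hbw] at hab
          exact hginj (ha'.resolve_left haw) (hb'.resolve_left hbw) hab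
      · intro i hi
        by_cases hc : i ∈ EdT p W' Λ ∧ i ≠ w ∧ p i ≠ w
        · rw [hgn _ hc.2.1, hgn _ hc.2.2]
          exact hgS i hc.1
        · obtain ⟨v, hv, -, hsum⟩ := hval i hi hc
          rw [hsum]
          exact hu6 _ (mem_image_of_mem _ hv)
      · intro a ha b hb hab
        simp only at hab
        have ha' := mem_coe.1 ha
        have hb' := mem_coe.1 hb
        by_cases hca : a ∈ EdT p W' Λ ∧ a ≠ w ∧ p a ≠ w <;>
          by_cases hcb : b ∈ EdT p W' Λ ∧ b ≠ w ∧ p b ≠ w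
        · rw [hgn _ hca.2.1, hgn _ hca.2.2, hgn _ hcb.2.1, hgn _ hcb.2.2] at hab
          exact hgSinj hca.1 hcb.1 hab
        · exfalso
          obtain ⟨v, hv, -, hsum⟩ := hval b hb' hcb
          rw [hgn _ hca.2.1, hgn _ hca.2.2, hsum] at hab
          exact hu2 _ (mem_image_of_mem _ hv) a hca.1 hab.symm
        · exfalso
          obtain ⟨v, hv, -, hsum⟩ := hval a ha' hca
          rw [hgn _ hcb.2.1, hgn _ hcb.2.2, hsum] at hab
          exact hu2 _ (mem_image_of_mem _ hv) b hcb.1 hab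
        · obtain ⟨v, hv, hva, hsum⟩ := hval a ha' hca
          obtain ⟨v', hv', hvb, hsum'⟩ := hval b hb' hcb
          rw [hsum, hsum'] at hab
          have h1 := hu3 _ (mem_image_of_mem _ hv) _ (mem_image_of_mem _ hv') hab
          have h2 : v = v' := hinj v (mem_filter.1 hv).1 v' (mem_filter.1 hv').1 h1
          subst h2
          have ha0 := (mem_EdT_63.1 ha').2.1
          have hb0 := (mem_EdT_63.1 hb').2.1
          have hvm : v ∈ W ∪ Λ := hsub' (mem_filter.1 hv).1
          have hwm : w ∈ W ∪ Λ := mem_union_left _ hwW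
          rcases hva with ⟨h3, h4⟩ | ⟨h3, h4⟩ <;> rcases hvb with ⟨h5, h6⟩ | ⟨h5, h6⟩
          · rw [h3, h5]
          · exfalso
            subst h3
            subst h5
            have h7 := hp _ hwm ha0
            have h8 := hp _ hvm hb0
            omega
          · exfalso
            subst h3
            subst h5
            have h7 := hp _ hwm hb0
            have h8 := hp _ hvm ha0
            omega
          · rw [h3, h5]
  exact key W (Subset.refl _)

end Pool.Agent.BD
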