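import Pool.Agent.Helper73.BD.LY
import Pool.Agent.Helper73.BD.E3

/-!
# BD-HX: labelling states; adding balanced vertices

`LS n p A F KL KS`: the vertices of `A` are labelled by `F`; labels and sums are different and in range; `KL`, `KS`: label classes and classes of nonzero sums used; by the cardinality conditions every class of `KL`
is used by two labels `±x`, every class of `KS` by two sums `±s`, and one edge has the sum `0`.

`ext_half`: the new vertices are `G ⊆ Q` and the twins `ι(G)`, with labels `g v` and `- g v`.  Proof in words.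
Labels: those on `A` have their classes in `KL`, the new ones have different classes outside `KL`, and `g v ≠ - g v`.
Edges: let `v ∈ G`, `w ∈ A ∪ G ∪ ι(G)` adjacent to `v`: not in `ι(Q)` (`Twin.cr`), not in `E` (`Twin.inner`, `v ∉ Bd`), so in `G` or in `Λ`.  Let `w` be adjacent to `ι v`: not in `Q` (`cr`), not in `E`, so `w = ι w'`, `w' ∈ Q`
adjacent to `v` (`tw`), so `w' ∈ G` or `w' ∈ A` (`hAs`), so `w' ∈ Λ`.
So the edges of `A ∪ G ∪ ι(G)` are those of `A`, those of `EdT p G Λ`, and their twins: use `twin_edges` for `G ∪ Λ` instead of `Q`: `κ` maps `EdT p G Λ` bijectively onto the edges touching `ι(G)`, and the sum of `κ i`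
is the negative of the sum of `i` (the labels of `G ∪ Λ` are balanced).  The new sum classes are different, outside `KS`, and not zero.
-/

set_option autoImplicit false

namespace Pool.Agent.BD

open Finset Pool.Agent.SEM

/-- state of the labelling -/
structure LS (n : ℕ) (p : ℕ → ℕ) (A : Finset ℕ) (F : ℕ → ℤ) (KL KS : Finset ℕ) : Prop where
  inj : Set.InjOn F A
  lab : ∀ v ∈ A, F v ∈ Lab n
  cls : ∀ v ∈ A, (F v).natAbs ∈ KL
  cL : 2 * KL.card = A.card
  KLs : KL ⊆ LC n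
  sinj : Set.InjOn (fun i => F i + F (p i)) (EdI p A)
  sm : ∀ i ∈ EdI p A, F i + F (p i) ∈ Sm n
  scls : ∀ i ∈ EdI p A, F i + F (p i) ≠ 0 → (F i + F (p i)).natAbs ∈ KS
  cS : 2 * KS.card + 1 = (EdI p A).card
  KSs : KS ⊆ SC n

private theorem lab_of1 {n : ℕ} {u : ℤ} (h : u.natAbs ∈ LC n) : u ∈ Lab n := by
  obtain ⟨⟨h1, h2⟩, h3⟩ := mem_LC.1 h
  rw [mem_Lab]
  exact ⟨⟨by omega, by omega⟩, Int.natAbs_odd.1 h3⟩

private theorem sm_of1 {n : ℕ} {u : ℤ} (h : u.natAbs ∈ SC n) : u ∈ Sm n := by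
  obtain ⟨⟨h1, h2⟩, h3⟩ := mem_SC.1 h
  rw [mem_Sm]
  exact ⟨⟨by omega, by omega⟩, Int.natAbs_even.1 h3⟩

private theorem ne0_lc1 {n : ℕ} {u : ℤ} (h : u.natAbs ∈ LC n) : u ≠ 0 := by
  rintro rfl
  obtain ⟨⟨h1, h2⟩, h3⟩ := mem_LC.1 h
  simp at h1

private theorem ne0_sc1 {n : ℕ} {u : ℤ} (h : u.natAbs ∈ SC n) : u ≠ 0 := by
  rintro rfl
  obtain ⟨⟨h1, h2⟩, h3⟩ := mem_SC.1 h
  simp at h1

private theorem mem_EdI1 {p : ℕ → ℕ} {A : Finset ℕ} {i : ℕ} : i ∈ EdI p A ↔ i ∈ A ∧ 0 < i ∧ p i ∈ A := by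
  unfold EdI
  rw [mem_filter]

private theorem mem_EdT1 {p : ℕ → ℕ} {W L : Finset ℕ} {i : ℕ} :
    i ∈ EdT p W L ↔ (i ∈ W ∪ L ∧ 0 < i ∧ p i ∈ W ∪ L) ∧ (i ∈ W ∨ p i ∈ W) := by
  unfold EdT
  rw [mem_filter, mem_EdI1]

private theorem ad_symm1 {p : ℕ → ℕ} {v w : ℕ} (h : Ad p v w) : Ad p w v := h.symm

/-- neighbours of a new vertex -/
private theorem nb1 {n D : ℕ} {p ι : ℕ → ℕ} {E Bd Q : Finset ℕ} (hT : Twin n D p ι E Bd Q) {A G : Finset ℕ}
    (hA : A ⊆ range n) (hG : G ⊆ Q) (hGB : ∀ v ∈ G, v ∉ Bd) (Λ : Finset ℕ)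
    (hn1 : ∀ v ∈ G, ∀ w ∈ A, w ∈ Q → Ad p v w → w ∈ Λ) {v w : ℕ} (hv : v ∈ G)
    (hw : w ∈ A ∪ G ∪ G.image ι) (h : Ad p v w) : w ∈ G ∪ Λ := by
  have hvQ := hG hv
  rw [mem_union, mem_union] at hw
  rcases hw with (hw | hw) | hw
  · have h1 : w ∈ E ∪ Q ∪ Q.image ι := by
      rw [← hT.cov]
      exact hA hw
    rw [mem_union, mem_union] at h1
    rcases h1 with (h1 | h1) | h1
    · exact absurd h (hT.inner v hvQ (hGB v hv) w h1).1
    · exact mem_union_right _ (hn1 v hv w hw h1 h)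
    · obtain ⟨w', hw', rfl⟩ := mem_image.1 h1
      exact absurd h (hT.cr v hvQ w' hw')
  · exact mem_union_left _ hw
  · obtain ⟨w', hw', rfl⟩ := mem_image.1 hw
    exact absurd h (hT.cr v hvQ w' (hG hw'))

/-- neighbours of a new twin vertex -/
private theorem nb2 {n D : ℕ} {p ι : ℕ → ℕ} {E Bd Q : Finset ℕ} (hT : Twin n D p ι E Bd Q) {A G : Finset ℕ}
    (hA : A ⊆ range n) (hAs : ∀ w ∈ Q, (w ∈ A ↔ ι w ∈ A)) (hG : G ⊆ Q) (hGB : ∀ v ∈ G, v ∉ Bd) (Λ : Finset ℕ)
    (hn1 : ∀ v ∈ G, ∀ w ∈ A, w ∈ Q → Ad p v w → w ∈ Λ) {v w : ℕ} (hv : v ∈ G)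
    (hw : w ∈ A ∪ G ∪ G.image ι) (h : Ad p (ι v) w) : w ∈ (G ∪ Λ).image ι := by
  have hvQ := hG hv
  rw [mem_union, mem_union] at hw
  have key : ∀ w', w' ∈ Q → w = ι w' → (ι w' ∈ A ∨ w' ∈ G) → w ∈ (G ∪ Λ).image ι := by
    intro w' hw' e h1
    rw [e] at h ⊢
    refine mem_image_of_mem _ ?_
    have h2 : Ad p v w' := (hT.tw v hvQ w' hw').2 h
    rcases h1 with h1 | h1
    · exact mem_union_right _ (hn1 v hv w' ((hAs w' hw').2 h1) hw' h2)
    · exact mem_union_left _ h1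
  rcases hw with (hw | hw) | hw
  · have h1 : w ∈ E ∪ Q ∪ Q.image ι := by
      rw [← hT.cov]
      exact hA hw
    rw [mem_union, mem_union] at h1
    rcases h1 with (h1 | h1) | h1
    · exact absurd h (hT.inner v hvQ (hGB v hv) w h1).2
    · exact absurd (ad_symm1 h) (hT.cr w h1 v hvQ)
    · obtain ⟨w', hw', e⟩ := mem_image.1 h1
      exact key w' hw' e.symm (Or.inl (e ▸ hw))
  · exact absurd (ad_symm1 h) (hT.cr w (hG hw) v hvQ)
  · obtain ⟨w', hw', e⟩ := mem_image.1 hw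
    exact key w' (hG hw') e.symm (Or.inr hw')

theorem ext_half {n D : ℕ} {p ι : ℕ → ℕ} {E Bd Q : Finset ℕ} (hT : Twin n D p ι E Bd Q) {A G : Finset ℕ} {F g : ℕ → ℤ}
    {KL KS : Finset ℕ} (h : LS n p A F KL KS) (hA : A ⊆ range n) (hAs : ∀ w ∈ Q, (w ∈ A ↔ ι w ∈ A))
    (hG : G ⊆ Q) (hGB : ∀ v ∈ G, v ∉ Bd) (hGA : ∀ v ∈ G, v ∉ A)
    (hg : ∀ v, v ∉ G → g v = F v) (hgL : ∀ v ∈ G, (g v).natAbs ∈ LC n) (hgK : ∀ v ∈ G, (g v).natAbs ∉ KL)
    (hinj : Set.InjOn (fun v => (g v).natAbs) G)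
    (Λ : Finset ℕ) (hΛ : ∀ v ∈ Λ, v ∈ Q ∧ v ∈ A ∧ F (ι v) = -F v)
    (hn1 : ∀ v ∈ G, ∀ w ∈ A, w ∈ Q → Ad p v w → w ∈ Λ)
    (hs : ∀ i ∈ EdT p G Λ, (g i + g (p i)).natAbs ∈ SC n ∧ (g i + g (p i)).natAbs ∉ KS)
    (hsinj : Set.InjOn (fun i => (g i + g (p i)).natAbs) (EdT p G Λ)) :
    ∃ F' : ℕ → ℤ, (∀ v, v ∉ G → v ∉ G.image ι → F' v = F v) ∧ (∀ v ∈ G, F' v = g v ∧ F' (ι v) = -g v) ∧
      LS n p (A ∪ G ∪ G.image ι) F' (KL ∪ G.image fun v => (g v).natAbs)
        (KS ∪ (EdT p G Λ).image fun i => (g i + g (p i)).natAbs) := by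
  classical
  have hιQ : ∀ v ∈ Q, ι v ∉ Q := fun v hv => (hT.ιn v hv).2.1
  have hGι : ∀ v ∈ G, v ∉ G.image ι := by
    intro v hv h1
    obtain ⟨w, hw, e⟩ := mem_image.1 h1
    exact hιQ w (hG hw) (e ▸ hG hv)
  have hAι : ∀ v ∈ G, ι v ∉ A := fun v hv h1 => hGA v hv ((hAs v (hG hv)).2 h1)
  have hΛG : ∀ v ∈ Λ, v ∉ G := fun v hv h1 => hGA v h1 (hΛ v hv).2.1
  have hΛQ : Λ ⊆ Q := fun v hv => (hΛ v hv).1
  have hGΛQ : G ∪ Λ ⊆ Q := union_subset hG hΛQ
  set j : ℕ → ℕ := Function.invFunOn ι G with hj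
  have hj1 : ∀ v ∈ G, j (ι v) = v := by
    intro v hv
    have h1 : ∃ a ∈ (G : Set ℕ), ι a = ι v := ⟨v, hv, rfl⟩
    have h2 : j (ι v) ∈ (G : Set ℕ) := Function.invFunOn_mem h1
    have h3 : ι (j (ι v)) = ι v := Function.invFunOn_eq h1
    exact hT.ιinj (hG h2) (hG hv) h3
  set F' : ℕ → ℤ := fun v => if v ∈ G then g v else if v ∈ G.image ι then -g (j v) else F v with hF'
  have f1 : ∀ v, v ∉ G → v ∉ G.image ι → F' v = F v := by
    intro v h1 h2
    simp only [hF', if_neg h1, if_neg h2]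
  have f2 : ∀ v ∈ G, F' v = g v := by
    intro v h1
    simp only [hF', if_pos h1]
  have f3 : ∀ v ∈ G, F' (ι v) = -g v := by
    intro v h1
    have h2 : ι v ∉ G := fun h3 => hιQ v (hG h1) (hG h3)
    simp only [hF', if_neg h2, if_pos (mem_image_of_mem ι h1), hj1 v h1]
  have fA : ∀ v ∈ A, F' v = F v := by
    intro v hv
    refine f1 v (fun h1 => hGA v h1 hv) (fun h1 => ?_)
    obtain ⟨w, hw, e⟩ := mem_image.1 h1
    exact hAι w hw (e ▸ hv)
  have fg : ∀ v ∈ G ∪ Λ, F' v = g v := by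
    intro v hv
    rcases mem_union.1 hv with h1 | h1
    · exact f2 v h1
    · rw [fA v (hΛ v h1).2.1, hg v (hΛG v h1)]
  have fι : ∀ v ∈ G ∪ Λ, F' (ι v) = -g v := by
    intro v hv
    rcases mem_union.1 hv with h1 | h1
    · exact f3 v h1
    · obtain ⟨h2, h3, h4⟩ := hΛ v h1
      rw [fA (ι v) ((hAs v h2).1 h3), h4, hg v (hΛG v h1)]
  refine ⟨F', f1, fun v hv => ⟨f2 v hv, f3 v hv⟩, ?_⟩
  -- the new edges
  set T : Finset ℕ := EdT p G Λ with hTd
  have hpar : ∀ i ∈ (G ∪ Λ) ∪ (G ∪ Λ).image ι, 0 < i → p i < i := by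
    intro i hi h0
    refine hT.par i h0 ?_
    rcases mem_union.1 hi with h1 | h1
    · exact mem_range.1 (hT.Qn (hGΛQ h1))
    · obtain ⟨w, hw, e⟩ := mem_image.1 h1
      rw [← e]
      exact (hT.ιn w (hGΛQ hw)).1
  obtain ⟨κ, hκ, hκ2⟩ := twin_edges (Q := G ∪ Λ) (ι := ι) hpar (hT.ιinj.mono hGΛQ) (by
      rw [disjoint_left]
      intro v hv h1
      obtain ⟨w, hw, e⟩ := mem_image.1 h1
      exact hιQ w (hGΛQ hw) (e ▸ hGΛQ hv))
    (fun v hv w hw => hT.tw v (hGΛQ hv) w (hGΛQ hw))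
  have hTE : T ⊆ EdI p (G ∪ Λ) := filter_subset _ _
  have hκT : Set.InjOn κ T := hκ.injOn.mono hTE
  set T' : Finset ℕ := T.image κ with hT'
  -- sums on the three parts
  have sA : ∀ i ∈ EdI p A, F' i + F' (p i) = F i + F (p i) := by
    intro i hi
    obtain ⟨h1, h2, h3⟩ := mem_EdI1.1 hi
    rw [fA i h1, fA _ h3]
  have sT : ∀ i ∈ T, F' i + F' (p i) = g i + g (p i) := by
    intro i hi
    obtain ⟨⟨h1, h2, h3⟩, -⟩ := mem_EdT1.1 hi
    rw [fg i h1, fg _ h3]
  have sT' : ∀ i ∈ T, F' (κ i) + F' (p (κ i)) = -(g i + g (p i)) := by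
    intro i hi
    obtain ⟨⟨h1, h2, h3⟩, -⟩ := mem_EdT1.1 hi
    rcases hκ2 i (hTE hi) with ⟨h4, h5⟩ | ⟨h4, h5⟩
    · rw [h5, h4, fι i h1, fι _ h3]
      ring
    · rw [h5, h4, fι i h1, fι _ h3]
      ring
  -- the edges
  have hEd : EdI p (A ∪ G ∪ G.image ι) = EdI p A ∪ T ∪ T' := by
    ext i
    rw [mem_EdI1]
    constructor
    · rintro ⟨h1, h2, h3⟩
      have hT1 : i ∈ G → i ∈ T := by
        intro h4
        have h5 := nb1 hT hA hG hGB Λ hn1 h4 h3 (Or.inl ⟨h2, rfl⟩)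
        exact mem_EdT1.2 ⟨⟨mem_union_left _ h4, h2, h5⟩, Or.inl h4⟩
      have hT2 : p i ∈ G → i ∈ T := by
        intro h4
        have h5 := nb1 hT hA hG hGB Λ hn1 h4 h1 (Or.inr ⟨h2, rfl⟩)
        exact mem_EdT1.2 ⟨⟨h5, h2, mem_union_left _ h4⟩, Or.inr h4⟩
      have hfin : i ∈ EdI p ((G ∪ Λ).image ι) → (∃ v ∈ G, ι v = i ∨ ι v = p i) → i ∈ T' := by
        rintro h4 ⟨v, hv, h5⟩
        obtain ⟨i', hi', e⟩ := hκ.surjOn h4
        refine mem_image.2 ⟨i', mem_EdT1.2 ⟨mem_EdI1.1 hi', ?_⟩, e⟩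
        obtain ⟨h6, h7, h8⟩ := mem_EdI1.1 hi'
        have hvi : ∀ u ∈ G ∪ Λ, ι v = ι u → u ∈ G := by
          intro u hu e1
          rw [← hT.ιinj (hG hv) (hGΛQ hu) e1]
          exact hv
        rcases hκ2 i' hi' with ⟨h9, h10⟩ | ⟨h9, h10⟩
        · rw [e] at h9 h10
          rcases h5 with h5 | h5
          · exact Or.inl (hvi _ h6 (h5.trans h9))
          · exact Or.inr (hvi _ h8 (h5.trans h10))
        · rw [e] at h9 h10
          rcases h5 with h5 | h5
          · exact Or.inr (hvi _ h8 (h5.trans h9))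
          · exact Or.inl (hvi _ h6 (h5.trans h10))
      have hT3 : i ∈ G.image ι → i ∈ T' := by
        intro h4
        obtain ⟨v, hv, e⟩ := mem_image.1 h4
        have h5 := nb2 hT hA hAs hG hGB Λ hn1 hv h3 (Or.inl ⟨by rw [e]; exact h2, by rw [e]⟩)
        refine hfin (mem_EdI1.2 ⟨?_, h2, h5⟩) ⟨v, hv, Or.inl e⟩
        rw [← e]
        exact mem_image_of_mem _ (mem_union_left _ hv)
      have hT4 : p i ∈ G.image ι → i ∈ T' := by
        intro h4
        obtain ⟨v, hv, e⟩ := mem_image.1 h4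
        have h5 := nb2 hT hA hAs hG hGB Λ hn1 hv h1 (Or.inr ⟨h2, e.symm⟩)
        refine hfin (mem_EdI1.2 ⟨h5, h2, ?_⟩) ⟨v, hv, Or.inr e⟩
        rw [← e]
        exact mem_image_of_mem _ (mem_union_left _ hv)
      rw [mem_union, mem_union] at h1 h3
      rw [mem_union, mem_union]
      rcases h1 with (h1 | h1) | h1
      · rcases h3 with (h3 | h3) | h3
        · exact Or.inl (Or.inl (mem_EdI1.2 ⟨h1, h2, h3⟩))
        · exact Or.inl (Or.inr (hT2 h3))
        · exact Or.inr (hT4 h3)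
      · exact Or.inl (Or.inr (hT1 h1))
      · exact Or.inr (hT3 h1)
    · have hsubG : ∀ v ∈ G ∪ Λ, v ∈ A ∪ G ∪ G.image ι := by
        intro v hv
        rcases mem_union.1 hv with h1 | h1
        · exact mem_union_left _ (mem_union_right _ h1)
        · exact mem_union_left _ (mem_union_left _ (hΛ v h1).2.1)
      have hsubι : ∀ v ∈ G ∪ Λ, ι v ∈ A ∪ G ∪ G.image ι := by
        intro v hv
        rcases mem_union.1 hv with h1 | h1
        · exact mem_union_right _ (mem_image_of_mem _ h1)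
        · exact mem_union_left _ (mem_union_left _ ((hAs v (hΛ v h1).1).1 (hΛ v h1).2.1))
      intro h1
      rw [mem_union, mem_union] at h1
      rcases h1 with (h1 | h1) | h1
      · obtain ⟨h2, h3, h4⟩ := mem_EdI1.1 h1
        exact ⟨mem_union_left _ (mem_union_left _ h2), h3, mem_union_left _ (mem_union_left _ h4)⟩
      · obtain ⟨⟨h2, h3, h4⟩, -⟩ := mem_EdT1.1 h1
        exact ⟨hsubG _ h2, h3, hsubG _ h4⟩
      · obtain ⟨i', hi', e⟩ := mem_image.1 h1
        have h2 := hκ.mapsTo (hTE hi')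
        rw [e] at h2
        obtain ⟨h3, h4, h5⟩ := mem_EdI1.1 h2
        obtain ⟨u, hu, e1⟩ := mem_image.1 h3
        obtain ⟨u', hu', e2⟩ := mem_image.1 h5
        exact ⟨e1 ▸ hsubι u hu, h4, e2 ▸ hsubι u' hu'⟩
  have dT : Disjoint (EdI p A) T := by
    rw [disjoint_left]
    intro i hi h1
    obtain ⟨h2, h3, h4⟩ := mem_EdI1.1 hi
    obtain ⟨-, h5 | h5⟩ := mem_EdT1.1 h1
    · exact hGA i h5 h2
    · exact hGA _ h5 h4
  have dT' : Disjoint (EdI p A ∪ T) T' := by
    rw [disjoint_left]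
    intro i hi h1
    obtain ⟨i', hi', e⟩ := mem_image.1 h1
    obtain ⟨⟨h2, h3, h4⟩, h5⟩ := mem_EdT1.1 hi'
    rcases mem_union.1 hi with hi | hi
    · obtain ⟨a1, a2, a3⟩ := mem_EdI1.1 hi
      have hcase : ∀ v ∈ G, ι v = i ∨ ι v = p i → False := by
        rintro v hv (h6 | h6)
        · exact hAι v hv (h6 ▸ a1)
        · exact hAι v hv (h6 ▸ a3)
      rcases hκ2 i' (hTE hi') with ⟨h9, h10⟩ | ⟨h9, h10⟩
      · rw [e] at h9 h10
        rcases h5 with h5 | h5
        · exact hcase i' h5 (Or.inl h9.symm)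
        · exact hcase _ h5 (Or.inr h10.symm)
      · rw [e] at h9 h10
        rcases h5 with h5 | h5
        · exact hcase i' h5 (Or.inr h10.symm)
        · exact hcase _ h5 (Or.inl h9.symm)
    · obtain ⟨⟨a1, a2, a3⟩, -⟩ := mem_EdT1.1 hi
      have h6 := hκ.mapsTo (hTE hi')
      rw [e] at h6
      obtain ⟨h7, -, -⟩ := mem_EdI1.1 h6
      obtain ⟨u, hu, e1⟩ := mem_image.1 h7
      exact hιQ u (hGΛQ hu) (e1 ▸ hGΛQ a1)
  have dKL : Disjoint KL (G.image fun v => (g v).natAbs) := by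
    rw [disjoint_left]
    intro z hz h1
    obtain ⟨v, hv, e⟩ := mem_image.1 h1
    exact hgK v hv (e ▸ hz)
  have dKS : Disjoint KS (T.image fun i => (g i + g (p i)).natAbs) := by
    rw [disjoint_left]
    intro z hz h1
    obtain ⟨v, hv, e⟩ := mem_image.1 h1
    exact (hs v hv).2 (e ▸ hz)
  have dAG : Disjoint A G := by
    rw [disjoint_left]
    exact fun v hv h1 => hGA v h1 hv
  have dAG' : Disjoint (A ∪ G) (G.image ι) := by
    rw [disjoint_left]
    intro v hv h1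
    rcases mem_union.1 hv with hv | hv
    · obtain ⟨w, hw, e⟩ := mem_image.1 h1
      exact hAι w hw (e ▸ hv)
    · exact hGι v hv h1
  -- the value classes
  have vA : ∀ v ∈ A, (F' v).natAbs ∈ KL := fun v hv => by
    rw [fA v hv]
    exact h.cls v hv
  have gne : ∀ v ∈ G, g v ≠ 0 := fun v hv => ne0_lc1 (hgL v hv)
  refine ⟨?_, ?_, ?_, ?_, ?_, ?_, ?_, ?_, ?_, ?_⟩
  · -- injectivity
    have hAB : ∀ v ∈ A, ∀ w ∈ G, F' v ≠ g w ∧ F' v ≠ -g w := by
      intro v hv w hw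
      constructor
      · intro e
        have := vA v hv
        rw [e] at this
        exact hgK w hw this
      · intro e
        have := vA v hv
        rw [e, Int.natAbs_neg] at this
        exact hgK w hw this
    have hGG : ∀ v ∈ G, ∀ w ∈ G, g v ≠ -g w := by
      intro v hv w hw e
      have e1 : (g v).natAbs = (g w).natAbs := by rw [e, Int.natAbs_neg]
      have e2 := hinj hv hw e1
      rw [e2] at e
      exact gne w hw (by omega)
    have hGG2 : ∀ v ∈ G, ∀ w ∈ G, g v = g w → v = w := fun v hv w hw e =>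
      hinj hv hw (by show (g v).natAbs = (g w).natAbs; rw [e])
    intro v hv w hw e
    rw [mem_coe, mem_union, mem_union] at hv hw
    rcases hv with (hv | hv) | hv
    · rcases hw with (hw | hw) | hw
      · rw [fA v hv, fA w hw] at e
        exact h.inj hv hw e
      · rw [f2 w hw] at e
        exact absurd e (hAB v hv w hw).1
      · obtain ⟨w', hw', rfl⟩ := mem_image.1 hw
        rw [f3 w' hw'] at e
        exact absurd e (hAB v hv w' hw').2
    · rw [f2 v hv] at e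
      rcases hw with (hw | hw) | hw
      · exact absurd e.symm (hAB w hw v hv).1
      · rw [f2 w hw] at e
        exact hGG2 v hv w hw e
      · obtain ⟨w', hw', rfl⟩ := mem_image.1 hw
        rw [f3 w' hw'] at e
        exact absurd e (hGG v hv w' hw')
    · obtain ⟨v', hv', rfl⟩ := mem_image.1 hv
      rw [f3 v' hv'] at e
      rcases hw with (hw | hw) | hw
      · exact absurd e.symm (hAB w hw v' hv').2
      · rw [f2 w hw] at e
        exact absurd e.symm (hGG w hw v' hv')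
      · obtain ⟨w', hw', rfl⟩ := mem_image.1 hw
        rw [f3 w' hw', neg_inj] at e
        rw [hGG2 v' hv' w' hw' e]
  · -- range of the labels
    intro v hv
    rw [mem_union, mem_union] at hv
    rcases hv with (hv | hv) | hv
    · rw [fA v hv]
      exact h.lab v hv
    · rw [f2 v hv]
      exact lab_of1 (hgL v hv)
    · obtain ⟨v', hv', rfl⟩ := mem_image.1 hv
      rw [f3 v' hv']
      refine lab_of1 ?_
      rw [Int.natAbs_neg]
      exact hgL v' hv'
  · intro v hv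
    rw [mem_union, mem_union] at hv
    rcases hv with (hv | hv) | hv
    · exact mem_union_left _ (vA v hv)
    · rw [f2 v hv]
      exact mem_union_right _ (mem_image.2 ⟨v, hv, rfl⟩)
    · obtain ⟨v', hv', rfl⟩ := mem_image.1 hv
      rw [f3 v' hv', Int.natAbs_neg]
      exact mem_union_right _ (mem_image.2 ⟨v', hv', rfl⟩)
  · have h1 := h.cL
    rw [card_union_of_disjoint dKL, card_union_of_disjoint dAG', card_union_of_disjoint dAG,
      card_image_of_injOn hinj, card_image_of_injOn (hT.ιinj.mono hG)]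
    omega
  · refine union_subset h.KLs ?_
    intro z hz
    obtain ⟨v, hv, rfl⟩ := mem_image.1 hz
    exact hgL v hv
  · -- injectivity of the sums
    rw [hEd]
    have cA : ∀ i ∈ EdI p A, F' i + F' (p i) = 0 ∨ (F' i + F' (p i)).natAbs ∈ KS := by
      intro i hi
      rw [sA i hi]
      by_cases h0 : F i + F (p i) = 0
      · exact Or.inl h0
      · exact Or.inr (h.scls i hi h0)
    have hAB : ∀ i ∈ EdI p A, ∀ k ∈ T, F' i + F' (p i) ≠ g k + g (p k) ∧ F' i + F' (p i) ≠ -(g k + g (p k)) := by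
      intro i hi k hk
      have h1 := ne0_sc1 (hs k hk).1
      rcases cA i hi with h2 | h2
      · rw [h2]
        exact ⟨fun e => h1 e.symm, fun e => h1 (by omega)⟩
      · constructor
        · intro e
          rw [e] at h2
          exact (hs k hk).2 h2
        · intro e
          rw [e, Int.natAbs_neg] at h2
          exact (hs k hk).2 h2
    have hTT : ∀ i ∈ T, ∀ k ∈ T, g i + g (p i) ≠ -(g k + g (p k)) := by
      intro i hi k hk e
      have e1 : (g i + g (p i)).natAbs = (g k + g (p k)).natAbs := by rw [e, Int.natAbs_neg]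
      have e2 := hsinj hi hk e1
      rw [e2] at e
      exact ne0_sc1 (hs k hk).1 (by omega)
    have hTT2 : ∀ i ∈ T, ∀ k ∈ T, g i + g (p i) = g k + g (p k) → i = k := fun i hi k hk e =>
      hsinj hi hk (by show (g i + g (p i)).natAbs = (g k + g (p k)).natAbs; rw [e])
    intro i hi k hk e
    rw [mem_coe, mem_union, mem_union] at hi hk
    replace e : F' i + F' (p i) = F' k + F' (p k) := e
    rcases hi with (hi | hi) | hi
    · rcases hk with (hk | hk) | hk
      · rw [sA i hi, sA k hk] at e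
        exact h.sinj hi hk e
      · rw [sT k hk] at e
        exact absurd e (hAB i hi k hk).1
      · obtain ⟨k', hk', rfl⟩ := mem_image.1 hk
        rw [sT' k' hk'] at e
        exact absurd e (hAB i hi k' hk').2
    · rw [sT i hi] at e
      rcases hk with (hk | hk) | hk
      · exact absurd e.symm (hAB k hk i hi).1
      · rw [sT k hk] at e
        exact hTT2 i hi k hk e
      · obtain ⟨k', hk', rfl⟩ := mem_image.1 hk
        rw [sT' k' hk'] at e
        exact absurd e (hTT i hi k' hk')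
    · obtain ⟨i', hi', rfl⟩ := mem_image.1 hi
      rw [sT' i' hi'] at e
      rcases hk with (hk | hk) | hk
      · exact absurd e.symm (hAB k hk i' hi').2
      · rw [sT k hk] at e
        exact absurd e.symm (hTT k hk i' hi')
      · obtain ⟨k', hk', rfl⟩ := mem_image.1 hk
        rw [sT' k' hk', neg_inj] at e
        rw [hTT2 i' hi' k' hk' e]
  · rw [hEd]
    intro i hi
    rw [mem_union, mem_union] at hi
    rcases hi with (hi | hi) | hi
    · rw [sA i hi]
      exact h.sm i hi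
    · rw [sT i hi]
      exact sm_of1 (hs i hi).1
    · obtain ⟨i', hi', rfl⟩ := mem_image.1 hi
      rw [sT' i' hi']
      refine sm_of1 ?_
      rw [Int.natAbs_neg]
      exact (hs i' hi').1
  · rw [hEd]
    intro i hi h0
    rw [mem_union, mem_union] at hi
    rcases hi with (hi | hi) | hi
    · rw [sA i hi] at h0 ⊢
      exact mem_union_left _ (h.scls i hi h0)
    · rw [sT i hi]
      exact mem_union_right _ (mem_image.2 ⟨i, hi, rfl⟩)
    · obtain ⟨i', hi', rfl⟩ := mem_image.1 hi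
      rw [sT' i' hi', Int.natAbs_neg]
      exact mem_union_right _ (mem_image.2 ⟨i', hi', rfl⟩)
  · have h1 := h.cS
    rw [hEd, card_union_of_disjoint dKS, card_union_of_disjoint dT', card_union_of_disjoint dT,
      card_image_of_injOn hsinj, card_image_of_injOn hκT]
    omega
  · refine union_subset h.KSs ?_
    intro z hz
    obtain ⟨v, hv, rfl⟩ := mem_image.1 hz
    exact (hs v hv).1

end Pool.Agent.BD
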