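import Pool.Agent.Helper73.BD.Defs
import Pool.Agent.Helper73.SEM.KX

/-!
# BD-KA: row sums and diagonal sums of the hexagon kernel in centred coordinates

`n` even.  Row sums: `n²/2` up to `n/2`; diagonal sums: exactly `n²/2` (numerically checked); the bounds below have room.
Proof in words: either transport `SEM.hexa_row`, `SEM.hexa_dia` (file SEM/KX.lean) by `x ↦ 2x - (n+1)`, `s ↦ 2s - 2(n+1)` (a bijection `[1,n] → Lab n`,
`Win n → Sm n`; `hexa n x y = hex u v`), or compute directly.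
-/

set_option autoImplicit false

namespace Pool.Agent.BD

open Finset Pool.Agent.SEM

private lemma hx67 (n x y : ℕ) (u v : ℤ) (hu : u = 2 * x - (n + 1)) (hv : v = 2 * y - (n + 1)) :
    hex u v = hexa n x y := by
  unfold hex hexa
  have e1 : (u : ℝ) = 2 * x - (n + 1) := by rw [hu]; push_cast; ring
  have e2 : (v : ℝ) = 2 * y - (n + 1) := by rw [hv]; push_cast; ring
  have e3 : 2 * (x : ℝ) - (n + 1) + (2 * y - (n + 1)) = 2 * ((x : ℝ) + y) - 2 * (n + 1) := by ring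
  rw [e1, e2, e3]

theorem hex_row (n : ℕ) (hn : Even n) (u : ℤ) (hu : u ∈ Lab n) :
    |∑ v ∈ (Lab n).filter (fun v => u + v ∈ Sm n), hex u v - (n : ℝ) ^ 2 / 2| ≤ 4 * (n : ℝ) := by
  obtain ⟨⟨h1, h2⟩, h3⟩ := mem_Lab.1 hu
  obtain ⟨m, hm⟩ := hn
  obtain ⟨a, ha⟩ := h3
  obtain ⟨x, hxz⟩ : ∃ x : ℕ, (x : ℤ) = a + m + 1 := ⟨(a + m + 1).toNat, by omega⟩
  have hux : u = 2 * x - (n + 1) := by omega
  have hxI : x ∈ Icc 1 n := by
    rw [mem_Icc]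
    omega
  have key : ∑ v ∈ (Lab n).filter (fun v => u + v ∈ Sm n), hex u v =
      ∑ y ∈ (Icc 1 n).filter (fun y => x + y ∈ Win n), hexa n x y := by
    refine Finset.sum_nbij' (fun v => ((v + n + 1) / 2).toNat) (fun y => 2 * (y : ℤ) - (n + 1)) ?_ ?_ ?_ ?_ ?_
    · intro v hv
      rw [mem_filter, mem_Lab, mem_Sm] at hv
      rw [mem_filter, mem_Icc, Win, mem_Icc]
      obtain ⟨⟨⟨_, _⟩, ⟨b, hb⟩⟩, ⟨_, _⟩, ⟨c, hc⟩⟩ := hv
      omega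
    · intro y hy
      rw [mem_filter, mem_Icc, Win, mem_Icc] at hy
      obtain ⟨⟨_, _⟩, _, _⟩ := hy
      rw [mem_filter, mem_Lab, mem_Sm]
      exact ⟨⟨⟨by omega, by omega⟩, ⟨(y : ℤ) - m - 1, by omega⟩⟩, ⟨by omega, by omega⟩, ⟨a + y - m, by omega⟩⟩
    · intro v hv
      rw [mem_filter, mem_Lab, mem_Sm] at hv
      obtain ⟨⟨⟨_, _⟩, ⟨b, hb⟩⟩, ⟨_, _⟩, ⟨c, hc⟩⟩ := hv
      omega
    · intro y hy
      rw [mem_filter, mem_Icc, Win, mem_Icc] at hy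
      omega
    · intro v hv
      rw [mem_filter, mem_Lab, mem_Sm] at hv
      obtain ⟨⟨⟨_, _⟩, ⟨b, hb⟩⟩, ⟨_, _⟩, ⟨c, hc⟩⟩ := hv
      refine hx67 n x _ u v hux ?_
      omega
  rw [key]
  refine (hexa_row n x hxI).trans ?_
  have : (0 : ℝ) ≤ n := by positivity
  linarith

theorem hex_dia (n : ℕ) (hn : Even n) (t : ℤ) (ht : t ∈ Sm n) :
    |∑ u ∈ (Lab n).filter (fun u => t - u ∈ Lab n), hex u (t - u) - (n : ℝ) ^ 2 / 2| ≤ 4 * (n : ℝ) := by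
  obtain ⟨⟨h1, h2⟩, h3⟩ := mem_Sm.1 ht
  obtain ⟨m, hm⟩ := hn
  obtain ⟨a, ha⟩ := h3
  obtain ⟨s, hsz⟩ : ∃ s : ℕ, (s : ℤ) = a + n + 1 := ⟨(a + n + 1).toNat, by omega⟩
  have hsW : s ∈ Win n := by
    rw [Win, mem_Icc]
    omega
  have key : ∑ u ∈ (Lab n).filter (fun u => t - u ∈ Lab n), hex u (t - u) =
      ∑ x ∈ (Icc 1 n).filter (fun x => x < s ∧ s - x ∈ Icc 1 n), hexa n x (s - x) := by
    refine Finset.sum_nbij' (fun v => ((v + n + 1) / 2).toNat) (fun y => 2 * (y : ℤ) - (n + 1)) ?_ ?_ ?_ ?_ ?_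
    · intro v hv
      rw [mem_filter, mem_Lab, mem_Lab] at hv
      rw [mem_filter, mem_Icc, mem_Icc]
      obtain ⟨⟨⟨_, _⟩, ⟨b, hb⟩⟩, ⟨_, _⟩, ⟨c, hc⟩⟩ := hv
      omega
    · intro y hy
      rw [mem_filter, mem_Icc, mem_Icc] at hy
      obtain ⟨⟨_, _⟩, _, _, _⟩ := hy
      rw [mem_filter, mem_Lab, mem_Lab]
      exact ⟨⟨⟨by omega, by omega⟩, ⟨(y : ℤ) - m - 1, by omega⟩⟩, ⟨by omega, by omega⟩, ⟨a - y + m, by omega⟩⟩
    · intro v hv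
      rw [mem_filter, mem_Lab, mem_Lab] at hv
      obtain ⟨⟨⟨_, _⟩, ⟨b, hb⟩⟩, ⟨_, _⟩, ⟨c, hc⟩⟩ := hv
      omega
    · intro y hy
      rw [mem_filter, mem_Icc, mem_Icc] at hy
      omega
    · intro v hv
      rw [mem_filter, mem_Lab, mem_Lab] at hv
      obtain ⟨⟨⟨_, _⟩, ⟨b, hb⟩⟩, ⟨_, _⟩, ⟨c, hc⟩⟩ := hv
      have e : ((s - ((v + n + 1) / 2).toNat : ℕ) : ℝ) = (s : ℝ) - (((v + n + 1) / 2).toNat : ℕ) := by
        rw [Nat.cast_sub (by omega)]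
      have h := hx67 n ((v + n + 1) / 2).toNat (s - ((v + n + 1) / 2).toNat) v (t - v) (by omega) (by omega)
      rw [h]
  rw [key]
  refine (hexa_dia n s hsW).trans ?_
  have : (0 : ℝ) ≤ n := by positivity
  linarith

end Pool.Agent.BD
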