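import Pool.Agent.Helper73.BD.LY

/-!
# BD-L0: selection lemmas

`choose_comps`: `G` = the `t` with `(θ/2) sz t ≤ lf t`; `∑_G lf ≥ θN - (θ/2)N`.  If `∑_G sz ≤ η N` take `G`; otherwise add elements of `G` one after the other until the total size exceeds
`ηN - K`; then `∑ lf ≥ (θ/2)(ηN - K) ≥ θηN/4`.
`choose_size`: add elements one after the other.
`leaf_sites`: let `Lf` be the vertices `v ∈ A` with exactly one neighbour in `range n`, this neighbour `w` being in `A` and not itself such a vertex... (a leaf `v > 0` has no child and its neighbour is `p v`).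
The vertices `w ∈ A` that have such a leaf child: at least `|Lf|/D` many; those of even depth (depth of a vertex = number of steps `p` to `0`) or those of odd depth are at least half of them; two
vertices of the same parity of depth are not adjacent.  Choose one leaf for each.
`cover_sites`: edges `i ∈ EdI p Rs` (with `v = p i`, `w = i`) such that all the neighbours in `Q` of `i` and of `p i` are in `Rs`: at least `|Rs| - κ - 2(D+1) κ'`: every component contributes at least (size - 1)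
edges, and an edge is bad only if one of its ends is adjacent to `CN`, i.e. is one of the at most `κ'` vertices of `Rs` adjacent to a vertex outside `Rs`; each such end spoils at most `D` edges.
Two edges conflict if some `x ∈ Q` is in both closed neighbourhoods; a closed neighbourhood has at most `2(D+1)` vertices, every `x` is in the closed neighbourhoods of at most `(D+1) D` edges; so every edge
conflicts with at most `2 (D+1)² D` edges (itself included); a maximal conflict-free set has at least (number of good edges)/(2(D+1)³) elements.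
-/

set_option autoImplicit false

namespace Pool.Agent.BD

open Finset Pool.Agent.SEM

theorem choose_size {TT : Finset ℕ} {sz : ℕ → ℕ} {K : ℕ} {M : ℝ} (hM : 0 ≤ M)
    (hK : ∀ t ∈ TT, sz t ≤ K) (hsz : M ≤ ∑ t ∈ TT, (sz t : ℝ)) :
    ∃ TR ⊆ TT, (∑ t ∈ TR, (sz t : ℝ)) ≤ M ∧ M - K ≤ ∑ t ∈ TR, (sz t : ℝ) := by
  classical
  obtain ⟨TR, hTR, hmax⟩ := Finset.exists_max_image
    (TT.powerset.filter fun U => (∑ t ∈ U, (sz t : ℝ)) ≤ M) (fun U => U.card)
    ⟨∅, by rw [mem_filter, mem_powerset]; exact ⟨empty_subset _, by simpa using hM⟩⟩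
  rw [mem_filter, mem_powerset] at hTR
  refine ⟨TR, hTR.1, hTR.2, ?_⟩
  by_cases h : TR = TT
  · rw [h]
    have : (0 : ℝ) ≤ K := Nat.cast_nonneg K
    linarith
  · obtain ⟨t, ht, htR⟩ : ∃ t ∈ TT, t ∉ TR := by
      by_contra hcon
      push Not at hcon
      exact h (Finset.Subset.antisymm hTR.1 hcon)
    by_contra hcon
    rw [not_le] at hcon
    have h1 : (sz t : ℝ) ≤ K := by exact_mod_cast hK t ht
    have h2 : insert t TR ∈ TT.powerset.filter fun U => (∑ t ∈ U, (sz t : ℝ)) ≤ M := by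
      rw [mem_filter, mem_powerset, sum_insert htR]
      exact ⟨insert_subset ht hTR.1, by linarith⟩
    have h3 := hmax _ h2
    rw [card_insert_of_notMem htR] at h3
    omega

theorem choose_comps {TT : Finset ℕ} {sz lf : ℕ → ℕ} {K : ℕ} {N θ η : ℝ} (hN : 0 < N) (hθ : 0 < θ) (hη : 0 < η) (hη1 : η ≤ 1)
    (hK : ∀ t ∈ TT, sz t ≤ K) (hKN : (K : ℝ) ≤ η * N / 2) (hsz : (∑ t ∈ TT, (sz t : ℝ)) ≤ N)
    (hlf : θ * N ≤ ∑ t ∈ TT, (lf t : ℝ)) :
    ∃ TC ⊆ TT, (∑ t ∈ TC, (sz t : ℝ)) ≤ η * N ∧ θ * η / 4 * N ≤ ∑ t ∈ TC, (lf t : ℝ) := by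
  classical
  set G : Finset ℕ := TT.filter fun t => θ / 2 * (sz t : ℝ) ≤ lf t with hG
  have hGT : G ⊆ TT := filter_subset _ _
  have hsplit : (∑ t ∈ G, (lf t : ℝ)) + ∑ t ∈ TT \ G, (lf t : ℝ) = ∑ t ∈ TT, (lf t : ℝ) := by
    rw [add_comm]
    exact sum_sdiff hGT
  have hsplit' : (∑ t ∈ G, (sz t : ℝ)) + ∑ t ∈ TT \ G, (sz t : ℝ) = ∑ t ∈ TT, (sz t : ℝ) := by
    rw [add_comm]
    exact sum_sdiff hGT
  have hGs : (0 : ℝ) ≤ ∑ t ∈ G, (sz t : ℝ) := sum_nonneg fun _ _ => Nat.cast_nonneg _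
  have hbad : (∑ t ∈ TT \ G, (lf t : ℝ)) ≤ θ / 2 * ∑ t ∈ TT \ G, (sz t : ℝ) := by
    rw [mul_sum]
    refine sum_le_sum fun t ht => ?_
    rw [mem_sdiff, hG, mem_filter] at ht
    have := ht.2
    push Not at this
    exact (this ht.1).le
  have hθN : 0 < θ * N := by positivity
  have hbad2 : (∑ t ∈ TT \ G, (lf t : ℝ)) ≤ θ / 2 * N := by
    refine hbad.trans (mul_le_mul_of_nonneg_left ?_ (by positivity))
    linarith
  have hgood : θ / 2 * N ≤ ∑ t ∈ G, (lf t : ℝ) := by linarith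
  by_cases h : (∑ t ∈ G, (sz t : ℝ)) ≤ η * N
  · refine ⟨G, hGT, h, ?_⟩
    have : θ * η / 4 * N ≤ θ / 2 * N := by nlinarith
    linarith
  · rw [not_le] at h
    obtain ⟨TR, h1, h2, h3⟩ := choose_size (TT := G) (sz := sz) (K := K) (M := η * N) (by positivity)
      (fun t ht => hK t (hGT ht)) h.le
    refine ⟨TR, h1.trans hGT, h2, ?_⟩
    have h4 : θ / 2 * ∑ t ∈ TR, (sz t : ℝ) ≤ ∑ t ∈ TR, (lf t : ℝ) := by
      rw [mul_sum]
      refine sum_le_sum fun t ht => ?_
      have := h1 ht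
      rw [hG, mem_filter] at this
      exact this.2
    have h5 : η * N / 2 ≤ ∑ t ∈ TR, (sz t : ℝ) := by linarith
    have h6 : θ / 2 * (η * N / 2) ≤ θ / 2 * ∑ t ∈ TR, (sz t : ℝ) := mul_le_mul_of_nonneg_left h5 (by positivity)
    have h7 : θ * η / 4 * N = θ / 2 * (η * N / 2) := by ring
    linarith

/-- the neighbours of `v` -/
def nbs (n : ℕ) (p : ℕ → ℕ) (v : ℕ) : Finset ℕ := (range n).filter fun w => Ad p v w

private lemma colour_44 {n : ℕ} {p : ℕ → ℕ} (hp : Par n p) :
    ∃ c : ℕ → Bool, ∀ v, 0 < v → v < n → c v = !c (p v) := by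
  have key : ∀ k, k ≤ n → ∃ c : ℕ → Bool, ∀ v, 0 < v → v < k → c v = !c (p v) := by
    intro k
    induction k with
    | zero => exact fun _ => ⟨fun _ => true, fun v _ h => absurd h (Nat.not_lt_zero v)⟩
    | succ k ih =>
      intro hk
      obtain ⟨c, hc⟩ := ih (by omega)
      refine ⟨Function.update c k (!c (p k)), fun v hv hvk => ?_⟩
      have hpv : p v < v := hp v hv (by omega)
      have h1 : p v ≠ k := by omega
      rw [Function.update_of_ne h1]
      by_cases h2 : v = k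
      · rw [h2, Function.update_self]
      · rw [Function.update_of_ne h2]
        exact hc v hv (by omega)
  exact key n le_rfl

theorem leaf_sites {n D : ℕ} {p : ℕ → ℕ} (hp : Par n p) (hD : 1 ≤ D) (A : Finset ℕ) (hA : A ⊆ range n) (h0 : 0 ∉ A)
    (hdeg : ∀ v ∈ A, (nbs n p v).card ≤ D) :
    ∃ (m : ℕ) (a v : ℕ → ℕ), (A.filter fun v => (nbs n p v).card = 1 ∧ p v ∈ A ∧ (nbs n p (p v)).card ≠ 1).card ≤ 2 * D * m ∧
      (∀ j, j < m → a j ∈ A ∧ v j ∈ A ∧ ∀ w, w < n → (Ad p (v j) w ↔ w = a j)) ∧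
      (∀ i, i < m → ∀ j, j < m → (a i = a j → i = j) ∧ (v i = v j → i = j) ∧ a i ≠ v j ∧ ¬ Ad p (a i) (a j)) := by
  classical
  set L : Finset ℕ := A.filter fun v => (nbs n p v).card = 1 ∧ p v ∈ A ∧ (nbs n p (p v)).card ≠ 1 with hL
  have hLmem : ∀ v, v ∈ L ↔ v ∈ A ∧ (nbs n p v).card = 1 ∧ p v ∈ A ∧ (nbs n p (p v)).card ≠ 1 := by
    intro v
    rw [hL, mem_filter]
  have hpos : ∀ v ∈ A, 0 < v ∧ v < n := by
    intro v hv
    refine ⟨Nat.pos_of_ne_zero fun h => h0 (h ▸ hv), mem_range.1 (hA hv)⟩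
  have hleaf : ∀ v ∈ L, ∀ w, w < n → (Ad p v w ↔ w = p v) := by
    intro v hv w hw
    obtain ⟨hvA, hv1, hpA, _⟩ := (hLmem v).1 hv
    obtain ⟨x, hx⟩ := card_eq_one.1 hv1
    have h1 : p v ∈ nbs n p v := by
      unfold nbs
      rw [mem_filter]
      exact ⟨hA hpA, Or.inl ⟨(hpos v hvA).1, rfl⟩⟩
    have h2 : p v = x := by
      rw [hx, mem_singleton] at h1
      exact h1
    have h3 : w ∈ nbs n p v ↔ Ad p v w := by
      unfold nbs
      rw [mem_filter, mem_range]
      exact ⟨fun h => h.2, fun h => ⟨hw, h⟩⟩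
    rw [← h3, hx, mem_singleton, h2]
  obtain ⟨c, hc⟩ := colour_44 hp
  set W : Finset ℕ := L.image p with hW
  have hLW : L.card ≤ D * W.card := by
    refine card_le_mul_card_image_of_maps_to (fun v hv => mem_image_of_mem p hv) D fun w hw => ?_
    rw [mem_image] at hw
    obtain ⟨v0, hv0, rfl⟩ := hw
    refine le_trans (card_le_card ?_) (hdeg (p v0) ((hLmem v0).1 hv0).2.2.1)
    intro v hv
    rw [mem_filter] at hv
    have hvA := ((hLmem v).1 hv.1).1
    unfold nbs
    rw [mem_filter]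
    exact ⟨hA hvA, Or.inr ⟨(hpos v hvA).1, hv.2⟩⟩
  obtain ⟨b, hb⟩ : ∃ b : Bool, W.card ≤ 2 * (W.filter fun w => c w = b).card := by
    have h1 : (W.filter fun w => c w = true).card + (W.filter fun w => ¬ c w = true).card = W.card :=
      card_filter_add_card_filter_not _
    have h2 : (W.filter fun w => ¬ c w = true) = W.filter fun w => c w = false :=
      filter_congr fun w _ => by rw [Bool.not_eq_true]
    rw [h2] at h1
    by_cases h : W.card ≤ 2 * (W.filter fun w => c w = true).card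
    · exact ⟨true, h⟩
    · exact ⟨false, by omega⟩
  set V : Finset ℕ := W.filter fun w => c w = b with hV
  have hch : ∀ w ∈ V, ∃ v ∈ L, p v = w := by
    intro w hw
    rw [hV, mem_filter, hW, mem_image] at hw
    exact hw.1
  choose! g hg using hch
  have hcard : V.card = V.card := rfl
  let a : ℕ → ℕ := fun j => if h : j < V.card then V.orderEmbOfFin rfl ⟨j, h⟩ else 0
  have haj : ∀ j, (h : j < V.card) → a j = V.orderEmbOfFin rfl ⟨j, h⟩ := fun j h => dif_pos h
  have haV : ∀ j, j < V.card → a j ∈ V := by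
    intro j hj
    rw [haj j hj]
    exact orderEmbOfFin_mem V rfl _
  have hainj : ∀ i, i < V.card → ∀ j, j < V.card → a i = a j → i = j := by
    intro i hi j hj h
    rw [haj i hi, haj j hj] at h
    have := (V.orderEmbOfFin rfl).injective h
    exact Fin.mk.inj_iff.1 this
  have haL : ∀ j, j < V.card → g (a j) ∈ L ∧ p (g (a j)) = a j := fun j hj => hg (a j) (haV j hj)
  refine ⟨V.card, a, fun j => g (a j), ?_, ?_, ?_⟩
  · calc L.card ≤ D * W.card := hLW
      _ ≤ D * (2 * V.card) := Nat.mul_le_mul_left D hb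
      _ = 2 * D * V.card := by ring
  · intro j hj
    obtain ⟨h1, h2⟩ := haL j hj
    have h3 := (hLmem _).1 h1
    refine ⟨?_, h3.1, fun w hw => ?_⟩
    · rw [← h2]
      exact h3.2.2.1
    · rw [hleaf _ h1 w hw, h2]
  · intro i hi j hj
    obtain ⟨h1, h2⟩ := haL i hi
    obtain ⟨h3, h4⟩ := haL j hj
    refine ⟨hainj i hi j hj, fun h => ?_, fun h => ?_, fun h => ?_⟩
    · beta_reduce at h
      refine hainj i hi j hj ?_
      rw [← h2, ← h4, h]
    · beta_reduce at h
      have h5 := ((hLmem _).1 h1).2.2.2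
      rw [h2, h] at h5
      exact h5 ((hLmem _).1 h3).2.1
    · have h5 := haV i hi
      have h6 := haV j hj
      rw [hV, mem_filter] at h5 h6
      have hAi : a i ∈ A := by rw [← h2]; exact ((hLmem _).1 h1).2.2.1
      have hAj : a j ∈ A := by rw [← h4]; exact ((hLmem _).1 h3).2.2.1
      rcases h with ⟨h7, h8⟩ | ⟨h7, h8⟩
      · have := hc (a i) h7 (hpos _ hAi).2
        rw [h8, h5.2, h6.2] at this
        cases b <;> simp at this
      · have := hc (a j) h7 (hpos _ hAj).2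
        rw [h8, h5.2, h6.2] at this
        cases b <;> simp at this

private lemma Ad_comm_44 {p : ℕ → ℕ} {v w : ℕ} : Ad p v w ↔ Ad p w v := by
  unfold Ad
  exact Or.comm

/-- the edges in `F` at the vertex `y` -/
private lemma edges_at_44 {D : ℕ} {p : ℕ → ℕ} {Q Rs : Finset ℕ} (hp : ∀ i ∈ Q, 0 < i → p i < i) (hR : Rs ⊆ Q)
    (hdeg : ∀ v ∈ Q, (Q.filter fun w => Ad p v w).card ≤ D) (y : ℕ) (hy : y ∈ Q) :
    ((EdI p Rs).filter fun i => i = y ∨ p i = y).card ≤ D := by
  classical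
  refine le_trans ?_ (hdeg y hy)
  refine card_le_card_of_injOn (fun i => if i = y then p y else i) ?_ ?_
  · intro i hi
    rw [mem_coe, mem_filter] at hi
    obtain ⟨h1, h2⟩ := hi
    unfold EdI at h1
    rw [mem_filter] at h1
    rw [mem_coe, mem_filter]
    beta_reduce
    by_cases h : i = y
    · rw [if_pos h]
      rw [h] at h1
      exact ⟨hR h1.2.2, Or.inl ⟨h1.2.1, rfl⟩⟩
    · rw [if_neg h]
      rcases h2 with h2 | h2
      · exact absurd h2 h
      · exact ⟨hR h1.1, Or.inr ⟨h1.2.1, h2⟩⟩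
  · intro i hi j hj hij
    rw [mem_coe, mem_filter] at hi hj
    unfold EdI at hi hj
    rw [mem_filter] at hi hj
    beta_reduce at hij
    have hpi := hp i (hR hi.1.1) hi.1.2.1
    have hpj := hp j (hR hj.1.1) hj.1.2.1
    by_cases h1 : i = y <;> by_cases h2 : j = y
    · rw [h1, h2]
    · rw [if_pos h1, if_neg h2] at hij
      have h3 : p j = y := hj.2.resolve_left h2
      exfalso
      rw [h1] at hpi
      omega
    · rw [if_neg h1, if_pos h2] at hij
      have h3 : p i = y := hi.2.resolve_left h1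
      exfalso
      rw [h2] at hpj
      omega
    · rw [if_neg h1, if_neg h2] at hij
      exact hij

private def nbe_44 (p : ℕ → ℕ) (Q : Finset ℕ) (i x : ℕ) : Prop :=
  x ∈ Q ∧ (x = p i ∨ x = i ∨ Ad p (p i) x ∨ Ad p i x)

private def cfree_44 (p : ℕ → ℕ) (Q U : Finset ℕ) : Prop :=
  ∀ i ∈ U, ∀ j ∈ U, i ≠ j → ∀ x, ¬ (nbe_44 p Q i x ∧ nbe_44 p Q j x)

open Classical in
private lemma nbe_card_44 {D : ℕ} {p : ℕ → ℕ} {Q : Finset ℕ}
    (hdeg : ∀ v ∈ Q, (Q.filter fun w => Ad p v w).card ≤ D) (i : ℕ) (hi : i ∈ Q) (hpi : p i ∈ Q) :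
    (Q.filter fun x => nbe_44 p Q i x).card ≤ 2 * (D + 1) := by
  have h1 : (Q.filter fun x => nbe_44 p Q i x) ⊆
      insert (p i) (Q.filter fun w => Ad p (p i) w) ∪ insert i (Q.filter fun w => Ad p i w) := by
    intro x hx
    rw [mem_filter] at hx
    obtain ⟨h1, _, h2⟩ := hx
    rw [mem_union, mem_insert, mem_insert, mem_filter, mem_filter]
    tauto
  refine (card_le_card h1).trans ((card_union_le _ _).trans ?_)
  have h2 := card_insert_le (p i) (Q.filter fun w => Ad p (p i) w)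
  have h3 := card_insert_le i (Q.filter fun w => Ad p i w)
  have h4 := hdeg i hi
  have h5 := hdeg (p i) hpi
  omega

open Classical in
private lemma conf_card_44 {D : ℕ} {p : ℕ → ℕ} {Q Rs : Finset ℕ} (hp : ∀ i ∈ Q, 0 < i → p i < i) (hR : Rs ⊆ Q)
    (hdeg : ∀ v ∈ Q, (Q.filter fun w => Ad p v w).card ≤ D) (j : ℕ) (hj : j ∈ Q) (hpj : p j ∈ Q) :
    ((EdI p Rs).filter fun i => ∃ x, nbe_44 p Q i x ∧ nbe_44 p Q j x).card ≤ 2 * (D + 1) ^ 3 := by
  have h1 : ((EdI p Rs).filter fun i => ∃ x, nbe_44 p Q i x ∧ nbe_44 p Q j x) ⊆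
      (Q.filter fun x => nbe_44 p Q j x).biUnion fun x =>
        (insert x (Q.filter fun w => Ad p x w)).biUnion fun y =>
          (EdI p Rs).filter fun i => i = y ∨ p i = y := by
    intro i hi
    rw [mem_filter] at hi
    obtain ⟨hi1, x, hx1, hx2⟩ := hi
    rw [mem_biUnion]
    refine ⟨x, ?_, ?_⟩
    · rw [mem_filter]
      exact ⟨hx2.1, hx2⟩
    · rw [mem_biUnion]
      have hiE := hi1
      unfold EdI at hi1
      rw [mem_filter] at hi1
      obtain ⟨hxQ, h | h | h | h⟩ := hx1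
      · refine ⟨x, mem_insert_self _ _, ?_⟩
        rw [mem_filter]
        exact ⟨hiE, Or.inr h.symm⟩
      · refine ⟨x, mem_insert_self _ _, ?_⟩
        rw [mem_filter]
        exact ⟨hiE, Or.inl h.symm⟩
      · refine ⟨p i, ?_, ?_⟩
        · rw [mem_insert, mem_filter]
          exact Or.inr ⟨hR hi1.2.2, Ad_comm_44.1 h⟩
        · rw [mem_filter]
          exact ⟨hiE, Or.inr rfl⟩
      · refine ⟨i, ?_, ?_⟩
        · rw [mem_insert, mem_filter]
          exact Or.inr ⟨hR hi1.1, Ad_comm_44.1 h⟩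
        · rw [mem_filter]
          exact ⟨hiE, Or.inl rfl⟩
  refine (card_le_card h1).trans ?_
  have h2 : ∀ x ∈ Q.filter fun x => nbe_44 p Q j x,
      ((insert x (Q.filter fun w => Ad p x w)).biUnion fun y =>
          (EdI p Rs).filter fun i => i = y ∨ p i = y).card ≤ (D + 1) * D := by
    intro x hx
    rw [mem_filter] at hx
    refine (card_biUnion_le_card_mul _ _ D ?_).trans (Nat.mul_le_mul_right D ?_)
    · intro y hy
      refine edges_at_44 hp hR hdeg y ?_
      rw [mem_insert, mem_filter] at hy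
      rcases hy with hy | hy
      · rw [hy]
        exact hx.1
      · exact hy.1
    · exact (card_insert_le _ _).trans (Nat.succ_le_succ (hdeg x hx.1))
  refine (card_biUnion_le_card_mul _ _ _ h2).trans ?_
  have h3 := nbe_card_44 hdeg j hj hpj
  calc (Q.filter fun x => nbe_44 p Q j x).card * ((D + 1) * D) ≤ (2 * (D + 1)) * ((D + 1) * D) :=
        Nat.mul_le_mul_right _ h3
    _ ≤ (2 * (D + 1)) * ((D + 1) * (D + 1)) :=
        Nat.mul_le_mul_left _ (Nat.mul_le_mul_left _ (Nat.le_succ D))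
    _ = 2 * (D + 1) ^ 3 := by ring

theorem cover_sites {n D κ κ' : ℕ} {p : ℕ → ℕ} (hD : 1 ≤ D) {Q Rs : Finset ℕ} (hp : ∀ i ∈ Q, 0 < i → p i < i) (hR : Rs ⊆ Q)
    (hdeg : ∀ v ∈ Q, (Q.filter fun w => Ad p v w).card ≤ D)
    (hκ : Rs.card ≤ (EdI p Rs).card + κ)
    (hκ' : (Rs.filter fun v => ∃ w ∈ Q, Ad p v w ∧ w ∉ Rs).card ≤ κ') :
    ∃ (Jc : ℕ) (cv cw : ℕ → ℕ), Rs.card ≤ 2 * (D + 1) ^ 3 * Jc + κ + D * κ' ∧ Cvs Jc p Q Rs cv cw := by
  classical
  set Bad : Finset ℕ := Rs.filter fun v => ∃ w ∈ Q, Ad p v w ∧ w ∉ Rs with hBad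
  set G : Finset ℕ := (EdI p Rs).filter fun i => i ∉ Bad ∧ p i ∉ Bad with hG
  have hE : ∀ i, i ∈ EdI p Rs ↔ i ∈ Rs ∧ 0 < i ∧ p i ∈ Rs := by
    intro i
    unfold EdI
    rw [mem_filter]
  have hcount : (EdI p Rs).card ≤ G.card + D * κ' := by
    have h1 : (EdI p Rs) ⊆ G ∪ Bad.biUnion fun y => (EdI p Rs).filter fun i => i = y ∨ p i = y := by
      intro i hi
      rw [mem_union, mem_biUnion]
      by_cases h : i ∈ Bad
      · right
        exact ⟨i, h, by rw [mem_filter]; exact ⟨hi, Or.inl rfl⟩⟩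
      · by_cases h' : p i ∈ Bad
        · right
          exact ⟨p i, h', by rw [mem_filter]; exact ⟨hi, Or.inr rfl⟩⟩
        · left
          rw [hG, mem_filter]
          exact ⟨hi, h, h'⟩
    refine (card_le_card h1).trans ((card_union_le _ _).trans (Nat.add_le_add_left ?_ _))
    refine (card_biUnion_le_card_mul _ _ D ?_).trans ?_
    · intro y hy
      rw [hBad, mem_filter] at hy
      exact edges_at_44 hp hR hdeg y (hR hy.1)
    · rw [mul_comm]
      exact Nat.mul_le_mul_left D hκ'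
  -- a maximal family without conflicts
  obtain ⟨J, hJ, hmax⟩ := Finset.exists_max_image
    (G.powerset.filter fun U => cfree_44 p Q U)
    (fun U => U.card)
    ⟨∅, by rw [mem_filter, mem_powerset]; exact ⟨empty_subset _, fun i hi => absurd hi (notMem_empty i)⟩⟩
  rw [mem_filter, mem_powerset] at hJ
  obtain ⟨hJG, hJc⟩ := hJ
  have hGR : ∀ i ∈ G, i ∈ Rs ∧ 0 < i ∧ p i ∈ Rs := by
    intro i hi
    rw [hG, mem_filter] at hi
    exact (hE i).1 hi.1
  have hGJ : G.card ≤ 2 * (D + 1) ^ 3 * J.card := by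
    have h1 : G ⊆ J.biUnion fun j => (EdI p Rs).filter fun i => ∃ x, nbe_44 p Q i x ∧ nbe_44 p Q j x := by
      intro i hi
      obtain ⟨hi1, hi2, hi3⟩ := hGR i hi
      rw [mem_biUnion]
      by_cases hiJ : i ∈ J
      · refine ⟨i, hiJ, ?_⟩
        rw [mem_filter]
        refine ⟨(hE i).2 ⟨hi1, hi2, hi3⟩, i, ⟨hR hi1, Or.inr (Or.inl rfl)⟩, ⟨hR hi1, Or.inr (Or.inl rfl)⟩⟩
      · by_contra hcon
        have hfree : ∀ j ∈ J, ∀ x, ¬ (nbe_44 p Q i x ∧ nbe_44 p Q j x) := by
          intro j hj x hx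
          refine hcon ⟨j, hj, ?_⟩
          rw [mem_filter]
          exact ⟨(hE i).2 ⟨hi1, hi2, hi3⟩, x, hx⟩
        have h2 : insert i J ∈ (G.powerset.filter fun U => cfree_44 p Q U) := by
          rw [mem_filter, mem_powerset]
          refine ⟨insert_subset hi hJG, ?_⟩
          intro k hk l hl hkl x hx
          rw [mem_insert] at hk hl
          rcases hk with rfl | hk <;> rcases hl with rfl | hl
          · exact hkl rfl
          · exact hfree l hl x hx
          · exact hfree k hk x ⟨hx.2, hx.1⟩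
          · exact hJc k hk l hl hkl x hx
        have h3 := hmax _ h2
        rw [card_insert_of_notMem hiJ] at h3
        omega
    refine (card_le_card h1).trans ?_
    rw [mul_comm]
    refine card_biUnion_le_card_mul _ _ _ fun j hj => ?_
    obtain ⟨hj1, _, hj3⟩ := hGR j (hJG hj)
    exact conf_card_44 hp hR hdeg j (hR hj1) (hR hj3)
  let a : ℕ → ℕ := fun j => if h : j < J.card then J.orderEmbOfFin rfl ⟨j, h⟩ else 0
  have haj : ∀ j, (h : j < J.card) → a j = J.orderEmbOfFin rfl ⟨j, h⟩ := fun j h => dif_pos h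
  have haV : ∀ j, j < J.card → a j ∈ J := by
    intro j hj
    rw [haj j hj]
    exact orderEmbOfFin_mem J rfl _
  have hainj : ∀ i, i < J.card → ∀ j, j < J.card → a i = a j → i = j := by
    intro i hi j hj h
    rw [haj i hi, haj j hj] at h
    have := (J.orderEmbOfFin rfl).injective h
    exact Fin.mk.inj_iff.1 this
  refine ⟨J.card, fun j => p (a j), a, ?_, ?_, ?_, ?_⟩
  · omega
  · intro j hj
    obtain ⟨h1, h2, h3⟩ := hGR _ (hJG (haV j hj))
    exact ⟨h3, h1, h2, rfl⟩
  · intro j hj x hx hadj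
    have hg := hJG (haV j hj)
    obtain ⟨h1, h2, h3⟩ := hGR _ hg
    rw [hG, mem_filter] at hg
    by_contra hcon
    rcases hadj with h | h
    · refine hg.2.2 ?_
      rw [hBad, mem_filter]
      exact ⟨h3, x, hx, h, hcon⟩
    · refine hg.2.1 ?_
      rw [hBad, mem_filter]
      exact ⟨h1, x, hx, h, hcon⟩
  · intro i hi j hj hij x hx h
    refine hJc (a i) (haV i hi) (a j) (haV j hj) (fun h' => hij (hainj i hi j hj h')) x ?_
    exact ⟨⟨hx, h.1⟩, ⟨hx, h.2⟩⟩

end Pool.Agent.BD
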