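import Pool.Agent.Helper73.BD.LY

/-!
# BD-L0b: the cover sites (block of L0, proved separately)

Proof in words: see the header of L0.  A maximal conflict-free set of good edges; every edge conflicts with at most
`2 D ^ 3` edges, at most `D κ'` edges are bad.
-/

set_option autoImplicit false

namespace Pool.Agent.BD

open Finset Pool.Agent.SEM

private lemma Ad_symm_34 {p : ℕ → ℕ} {v w : ℕ} (h : Ad p v w) : Ad p w v := by
  unfold Ad at h ⊢
  tauto

private lemma greedy_34 (G : Finset ℕ) (R : ℕ → ℕ → Prop) (M : ℕ) (hrefl : ∀ i ∈ G, R i i)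
    (hsym : ∀ i j, R i j → R j i) (T : ℕ → Finset ℕ) (hT : ∀ i ∈ G, ∀ j ∈ G, R i j → j ∈ T i)
    (hM : ∀ i ∈ G, (T i).card ≤ M) :
    ∃ I ⊆ G, (∀ i ∈ I, ∀ j ∈ I, i ≠ j → ¬ R i j) ∧ G.card ≤ M * I.card := by
  classical
  obtain ⟨CF, hCF⟩ : ∃ CF : Finset ℕ → Prop, CF = fun I => ∀ i ∈ I, ∀ j ∈ I, i ≠ j → ¬ R i j := ⟨_, rfl⟩
  obtain ⟨I, hI, hmax⟩ := Finset.exists_max_image (G.powerset.filter CF) Finset.card
    ⟨∅, by rw [mem_filter, hCF]; simp⟩
  rw [mem_filter, mem_powerset] at hI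
  have hI2 : ∀ i ∈ I, ∀ j ∈ I, i ≠ j → ¬ R i j := by
    have := hI.2
    rwa [hCF] at this
  refine ⟨I, hI.1, hI2, ?_⟩
  have hcov : G ⊆ I.biUnion T := by
    intro g hg
    by_contra hcon
    have hno : ∀ i ∈ I, ¬ R i g := by
      intro i hi hR
      exact hcon (mem_biUnion.2 ⟨i, hi, hT i (hI.1 hi) g hg hR⟩)
    have hgI : g ∉ I := fun h => hno g h (hrefl g hg)
    have h1 : insert g I ∈ G.powerset.filter CF := by
      rw [mem_filter, mem_powerset, hCF]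
      refine ⟨insert_subset hg hI.1, ?_⟩
      intro i hi j hj hij
      rw [mem_insert] at hi hj
      rcases hi with rfl | hi
      · rcases hj with rfl | hj
        · exact absurd rfl hij
        · exact fun h => hno j hj (hsym _ _ h)
      · rcases hj with rfl | hj
        · exact hno i hi
        · exact hI2 i hi j hj hij
    have h2 := hmax _ h1
    rw [card_insert_of_notMem hgI] at h2
    omega
  refine (card_le_card hcov).trans (card_biUnion_le.trans ?_)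
  rw [mul_comm]
  exact (sum_le_card_nsmul _ _ M fun i hi => hM i (hI.1 hi)).trans (by rw [smul_eq_mul])

private lemma inc_34 {D : ℕ} {p : ℕ → ℕ} {Q Rs B : Finset ℕ} (hp : ∀ i ∈ Q, 0 < i → p i < i)
    (hR : Rs ⊆ Q) (hB : B ⊆ Q) (hdeg : ∀ v ∈ Q, (Q.filter fun w => Ad p v w).card ≤ D) :
    ((EdI p Rs).filter fun i => i ∈ B ∨ p i ∈ B).card ≤ D * B.card := by
  have h1 : (EdI p Rs).filter (fun i => i ∈ B ∨ p i ∈ B) ⊆
      B.biUnion (fun w => (Q.filter fun v => Ad p w v).image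
        (fun v => if 0 < w ∧ p w = v then w else v)) := by
    intro i hi
    rw [mem_filter, EdI, mem_filter] at hi
    obtain ⟨⟨h1, h2, h3⟩, h4⟩ := hi
    rw [mem_biUnion]
    by_cases hiW : i ∈ B
    · refine ⟨i, hiW, mem_image.2 ⟨p i, mem_filter.2 ⟨hR h3, Or.inl ⟨h2, rfl⟩⟩, ?_⟩⟩
      rw [if_pos ⟨h2, rfl⟩]
    · have h5 : p i ∈ B := h4.resolve_left hiW
      refine ⟨p i, h5, mem_image.2 ⟨i, mem_filter.2 ⟨hR h1, Or.inr ⟨h2, rfl⟩⟩, ?_⟩⟩
      rw [if_neg]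
      rintro ⟨h6, h7⟩
      have h8 := hp i (hR h1) h2
      have h9 := hp (p i) (hR h3) h6
      omega
  refine (card_le_card h1).trans (card_biUnion_le.trans ?_)
  rw [mul_comm]
  refine (sum_le_card_nsmul _ _ D fun w hw => ?_).trans (by rw [smul_eq_mul])
  exact card_image_le.trans (hdeg w (hB hw))

theorem cover_sites_aux {n D κ κ' : ℕ} {p : ℕ → ℕ} (hD : 1 ≤ D) {Q Rs : Finset ℕ} (hp : ∀ i ∈ Q, 0 < i → p i < i) (hR : Rs ⊆ Q)
    (hdeg : ∀ v ∈ Q, (Q.filter fun w => Ad p v w).card ≤ D)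
    (hκ : Rs.card ≤ (EdI p Rs).card + κ)
    (hκ' : (Rs.filter fun v => ∃ w ∈ Q, Ad p v w ∧ w ∉ Rs).card ≤ κ') :
    ∃ (Jc : ℕ) (cv cw : ℕ → ℕ), Rs.card ≤ 2 * (D + 1) ^ 3 * Jc + κ + D * κ' ∧ Cvs Jc p Q Rs cv cw := by
  classical
  -- neighbourhoods
  set N : ℕ → Finset ℕ := fun v => Q.filter fun w => Ad p v w with hN
  have hNQ : ∀ v, N v ⊆ Q := fun v => filter_subset _ _
  have hND : ∀ v ∈ Q, (N v).card ≤ D := hdeg
  set BV := Rs.filter fun v => ∃ w ∈ Q, Ad p v w ∧ w ∉ Rs with hBV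
  have hBVQ : BV ⊆ Q := (filter_subset _ _).trans hR
  -- good edges
  set G := (EdI p Rs).filter fun i => ∀ x ∈ Q, Ad p (p i) x ∨ Ad p i x → x ∈ Rs with hG
  have hGmem : ∀ i ∈ G, i ∈ Rs ∧ 0 < i ∧ p i ∈ Rs ∧ ∀ x ∈ Q, Ad p (p i) x ∨ Ad p i x → x ∈ Rs := by
    intro i hi
    rw [hG, mem_filter, EdI, mem_filter] at hi
    exact ⟨hi.1.1, hi.1.2.1, hi.1.2.2, hi.2⟩
  have hbad : (EdI p Rs).card ≤ G.card + D * κ' := by
    have h1 : (EdI p Rs) ⊆ G ∪ (EdI p Rs).filter (fun i => i ∈ BV ∨ p i ∈ BV) := by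
      intro i hi
      rw [mem_union]
      by_cases hgood : ∀ x ∈ Q, Ad p (p i) x ∨ Ad p i x → x ∈ Rs
      · exact Or.inl (mem_filter.2 ⟨hi, hgood⟩)
      · right
        push Not at hgood
        obtain ⟨x, hx, hax, hxR⟩ := hgood
        have hi' := hi
        rw [EdI, mem_filter] at hi'
        refine mem_filter.2 ⟨hi, ?_⟩
        rcases hax with h | h
        · exact Or.inr (mem_filter.2 ⟨hi'.2.2, x, hx, h, hxR⟩)
        · exact Or.inl (mem_filter.2 ⟨hi'.1, x, hx, h, hxR⟩)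
    have h2 := (card_le_card h1).trans (card_union_le _ _)
    have h3 := inc_34 (B := BV) hp hR hBVQ hdeg
    have h4 : D * BV.card ≤ D * κ' := Nat.mul_le_mul_left _ hκ'
    omega
  -- the conflict sets
  set T : ℕ → Finset ℕ := fun i => (N (p i) ∪ N i).biUnion
    (fun x => (EdI p Rs).filter fun j => j ∈ N x ∨ p j ∈ N x) with hT
  obtain ⟨I, hIG, hIfar, hIcard⟩ := greedy_34 G
    (fun i j => ∃ x ∈ Q, (Ad p (p i) x ∨ Ad p i x) ∧ (Ad p (p j) x ∨ Ad p j x))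
    (2 * D ^ 3)
    (by
      intro i hi
      obtain ⟨h1, h2, h3, h4⟩ := hGmem i hi
      exact ⟨p i, hR h3, Or.inr (Or.inl ⟨h2, rfl⟩), Or.inr (Or.inl ⟨h2, rfl⟩)⟩)
    (by
      rintro i j ⟨x, hx, h1, h2⟩
      exact ⟨x, hx, h2, h1⟩)
    T
    (by
      rintro i hi j hj ⟨x, hx, h1, h2⟩
      obtain ⟨j1, j2, j3, _⟩ := hGmem j hj
      rw [hT, mem_biUnion]
      refine ⟨x, ?_, ?_⟩
      · rw [mem_union]
        exact h1.imp (fun h => mem_filter.2 ⟨hx, h⟩) (fun h => mem_filter.2 ⟨hx, h⟩)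
      · refine mem_filter.2 ⟨(mem_filter.1 hj).1, ?_⟩
        rcases h2 with h | h
        · exact Or.inr (mem_filter.2 ⟨hR j3, Ad_symm_34 h⟩)
        · exact Or.inl (mem_filter.2 ⟨hR j1, Ad_symm_34 h⟩))
    (by
      intro i hi
      obtain ⟨h1, h2, h3, h4⟩ := hGmem i hi
      refine card_biUnion_le.trans ?_
      have h5 : ∀ x ∈ N (p i) ∪ N i, ((EdI p Rs).filter fun j => j ∈ N x ∨ p j ∈ N x).card ≤ D * D := by
        intro x hx
        have hxQ : x ∈ Q := by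
          rw [mem_union] at hx
          rcases hx with hx | hx
          · exact hNQ _ hx
          · exact hNQ _ hx
        refine (inc_34 (B := N x) hp hR (hNQ x) hdeg).trans ?_
        exact Nat.mul_le_mul_left _ (hND x hxQ)
      refine (sum_le_card_nsmul _ _ _ h5).trans ?_
      rw [smul_eq_mul]
      have h6 : (N (p i) ∪ N i).card ≤ D + D :=
        (card_union_le _ _).trans (add_le_add (hND _ (hR h3)) (hND _ (hR h1)))
      calc (N (p i) ∪ N i).card * (D * D) ≤ (D + D) * (D * D) := Nat.mul_le_mul_right _ h6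
        _ = 2 * D ^ 3 := by ring)
  refine ⟨I.card, fun j => p (if h : j < I.card then (I.equivFin.symm ⟨j, h⟩ : ℕ) else 0),
    fun j => if h : j < I.card then (I.equivFin.symm ⟨j, h⟩ : ℕ) else 0, ?_, ?_⟩
  · have h1 : D ^ 3 ≤ (D + 1) ^ 3 := Nat.pow_le_pow_left (by omega) 3
    have h2 : 2 * D ^ 3 * I.card ≤ 2 * (D + 1) ^ 3 * I.card :=
      Nat.mul_le_mul_right _ (Nat.mul_le_mul_left _ h1)
    omega
  · have hmem : ∀ j (hj : j < I.card), (I.equivFin.symm ⟨j, hj⟩ : ℕ) ∈ G := fun j hj =>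
      hIG (I.equivFin.symm ⟨j, hj⟩).2
    have hcl : ∀ i, 0 < i → ∀ x, (x = p i ∨ x = i ∨ Ad p (p i) x ∨ Ad p i x) →
        Ad p (p i) x ∨ Ad p i x := by
      intro i hi x hx
      rcases hx with rfl | rfl | h | h
      · exact Or.inr (Or.inl ⟨hi, rfl⟩)
      · exact Or.inl (Or.inr ⟨hi, rfl⟩)
      · exact Or.inl h
      · exact Or.inr h
    refine ⟨?_, ?_, ?_⟩
    · intro j hj
      obtain ⟨h1, h2, h3, _⟩ := hGmem _ (hmem j hj)
      refine ⟨?_, ?_, ?_, rfl⟩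
      · simpa only [dif_pos hj] using h3
      · simpa only [dif_pos hj] using h1
      · simpa only [dif_pos hj] using h2
    · intro j hj x hx hax
      simp only [dif_pos hj] at hax
      exact (hGmem _ (hmem j hj)).2.2.2 x hx hax
    · intro i hi j hj hij x hx hcon
      simp only [dif_pos hi, dif_pos hj] at hcon
      have hne : (I.equivFin.symm ⟨i, hi⟩ : ℕ) ≠ (I.equivFin.symm ⟨j, hj⟩ : ℕ) := by
        intro he
        have h1 := I.equivFin.symm.injective (Subtype.ext he)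
        exact hij (by simpa using h1)
      exact hIfar _ (I.equivFin.symm ⟨i, hi⟩).2 _ (I.equivFin.symm ⟨j, hj⟩).2 hne
        ⟨x, hx, hcl _ (hGmem _ (hmem i hi)).2.1 x hcon.1, hcl _ (hGmem _ (hmem j hj)).2.1 x hcon.2⟩

end Pool.Agent.BD
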