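import Pool.Agent.Helper73.BD.LY
import Pool.Agent.Helper73.SEM.T2
import Pool.Agent.Helper73.SEM.FT

/-!
# BD-L1: isomorphic pieces

Proof in words.  `SEM.cut` (file SEM/T2.lean) gives `R`, `top`.  The piece of `τ ∈ tops n p R` is `pc τ = {v < n : v ∉ R, top v = τ}`; it has `k ≤ K` vertices, `τ` is the smallest one.  List its vertices in
increasing order `v_0 = τ < v_1 < ... < v_{k-1}`; its TYPE is `k`, the function `i ↦` index of `p v_i` (`0 < i < k`) and the set of the indices `i` for which `v_i` is the parent of some `r ∈ R`, `0 < r`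
(at most one, `Dec.exit_unique`): a function from `tops` to a finite set with at most `C = C(K)` elements.
Discard the at most `s` tops `top z`, `z ∈ Z \ R`.  In every type class pair up the remaining tops (`τ`, `τ'`), with at most one left over; `T1` = first elements, `ι v_i = v'_i`.
The tops not in `T1 ∪ ι(T1)` are at most `C + s`.
-/

set_option autoImplicit false

namespace Pool.Agent.BD

open Finset Pool.Agent.SEM

/-- the piece of `τ` -/
def pcs (n : ℕ) (R : Finset ℕ) (top : ℕ → ℕ) (τ : ℕ) : Finset ℕ := (range n).filter fun v => v ∉ R ∧ top v = τ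

/-- pairing elements of the same type -/
private lemma h31_pair {α : Type} (F : Finset α) (f : ℕ → α) (A : Finset ℕ) :
    (∀ a ∈ A, f a ∈ F) → ∃ (T : Finset ℕ) (g : ℕ → ℕ), T ⊆ A ∧
      (∀ t ∈ T, g t ∈ A ∧ g t ∉ T ∧ f (g t) = f t) ∧ Set.InjOn g T ∧
      (A \ (T ∪ T.image g)).card ≤ F.card := by
  classical
  induction A using Finset.strongInduction with
  | H A ih =>
    intro hf
    by_cases hinj : Set.InjOn f A
    · refine ⟨∅, id, by simp, by simp, by simp, ?_⟩
      rw [Finset.image_empty, Finset.union_empty, Finset.sdiff_empty]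
      exact Finset.card_le_card_of_injOn f (fun a ha => hf a ha) hinj
    · rw [Set.InjOn] at hinj
      push Not at hinj
      obtain ⟨a, ha, b, hb, hfab, hab⟩ := hinj
      have ha : a ∈ A := ha
      have hb : b ∈ A := hb
      set A' := (A.erase a).erase b with hA'
      have hsub : A' ⊂ A := by
        refine Finset.ssubset_of_subset_of_ssubset (Finset.erase_subset b _) (Finset.erase_ssubset ha)
      obtain ⟨T, g, h1, h2, h3, h4⟩ := ih A' hsub (fun x hx => hf x (hsub.1 hx))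
      have haA' : a ∉ A' := by
        rw [hA', Finset.mem_erase, Finset.mem_erase]
        exact fun h => h.2.1 rfl
      have hbA' : b ∉ A' := by
        rw [hA', Finset.mem_erase]
        exact fun h => h.1 rfl
      have haT : a ∉ T := fun h => haA' (h1 h)
      have hbT : b ∉ T := fun h => hbA' (h1 h)
      have hg : ∀ t ∈ T, Function.update g a b t = g t := fun t ht =>
        Function.update_of_ne (by rintro rfl; exact haT ht) _ _
      have hga : Function.update g a b a = b := Function.update_self _ _ _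
      refine ⟨insert a T, Function.update g a b, ?_, ?_, ?_, ?_⟩
      · exact Finset.insert_subset ha (h1.trans hsub.1)
      · intro t ht
        rcases Finset.mem_insert.1 ht with rfl | ht
        · rw [hga]
          refine ⟨hb, ?_, hfab.symm⟩
          rw [Finset.mem_insert, not_or]
          exact ⟨fun h => hab h.symm, hbT⟩
        · rw [hg t ht]
          obtain ⟨e1, e2, e3⟩ := h2 t ht
          refine ⟨hsub.1 e1, ?_, e3⟩
          rw [Finset.mem_insert, not_or]
          exact ⟨fun h => haA' (h ▸ e1), e2⟩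
      · intro x hx y hy hxy
        rw [Finset.coe_insert, Set.mem_insert_iff] at hx hy
        rcases hx with rfl | hx <;> rcases hy with rfl | hy
        · rfl
        · rw [hga, hg y hy] at hxy
          exact absurd (hxy ▸ (h2 y hy).1) hbA'
        · rw [hga, hg x hx] at hxy
          exact absurd (hxy ▸ (h2 x hx).1) hbA'
        · rw [hg x hx, hg y hy] at hxy
          exact h3 hx hy hxy
      · refine le_trans (Finset.card_le_card ?_) h4
        intro x hx
        rw [Finset.mem_sdiff, Finset.mem_union, Finset.mem_insert, Finset.mem_image] at hx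
        push Not at hx
        obtain ⟨hxA, ⟨hxa, hxT⟩, hxg⟩ := hx
        rw [Finset.mem_sdiff, Finset.mem_union, Finset.mem_image]
        push Not
        have hxb : x ≠ b := by
          intro h
          exact hxg a (Finset.mem_insert_self _ _) (by rw [hga, h])
        refine ⟨?_, hxT, ?_⟩
        · rw [hA', Finset.mem_erase, Finset.mem_erase]
          exact ⟨hxb, hxa, hxA⟩
        · intro t ht
          have := hxg t (Finset.mem_insert_of_mem ht)
          rwa [hg t ht] at this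

/-- enumeration of a finset -/
private lemma h31_enum (P : Finset ℕ) : ∃ ix en : ℕ → ℕ, (∀ v ∈ P, ix v < P.card ∧ en (ix v) = v) ∧
    ∀ i < P.card, en i ∈ P ∧ ix (en i) = i := by
  classical
  refine ⟨fun v => if h : v ∈ P then (P.equivFin ⟨v, h⟩ : ℕ) else 0,
    fun i => if h : i < P.card then (P.equivFin.symm ⟨i, h⟩ : ℕ) else 0, ?_, ?_⟩
  · intro v hv
    simp only [hv, dif_pos, Fin.is_lt, true_and, Fin.eta, Equiv.symm_apply_apply]
  · intro i hi
    simp only [hi, dif_pos, Finset.coe_mem, true_and, Subtype.coe_eta, Equiv.apply_symm_apply]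

theorem twins (K s : ℕ) (hK : 2 ≤ K) : ∃ C : ℕ, ∀ (n : ℕ) (p : ℕ → ℕ), 0 < n → Par n p →
    ∀ Z ⊆ range n, Z.card ≤ s → ∃ (R T1 : Finset ℕ) (top ι : ℕ → ℕ), Dec n p K R top ∧
      (R.card : ℝ) ≤ 4 * n / K + 4 ∧ T1 ⊆ tops n p R ∧
      (∀ τ ∈ T1, ι τ ∈ tops n p R ∧ ι τ ∉ T1) ∧
      Set.InjOn ι (T1.biUnion (pcs n R top)) ∧
      (∀ τ ∈ T1, (pcs n R top τ).image ι = pcs n R top (ι τ)) ∧
      (∀ τ ∈ T1, ∀ v ∈ pcs n R top τ, v ≠ τ → p (ι v) = ι (p v)) ∧
      (∀ τ ∈ T1, ∀ v ∈ pcs n R top τ, ((∃ r ∈ R, 0 < r ∧ p r = v) ↔ ∃ r ∈ R, 0 < r ∧ p r = ι v)) ∧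
      (∀ z ∈ Z, z ∉ R → top z ∉ T1 ∧ top z ∉ T1.image ι) ∧
      (tops n p R \ (T1 ∪ T1.image ι)).card ≤ C := by
  classical
  set FF : Finset ((ℕ × ℕ) × (Finset (ℕ × ℕ) × Finset ℕ)) :=
    (range (K + 1) ×ˢ range K) ×ˢ ((range K ×ˢ range K).powerset ×ˢ (range K).powerset) with hFF
  refine ⟨FF.card + s, fun n p hn hp Z hZ hZs => ?_⟩
  obtain ⟨R, top, hD, hR, -⟩ := SEM.cut n p K hp hn hK
  choose ix en hix hen using fun τ => h31_enum (pcs n R top τ)
  have mem_pcs : ∀ {τ v : ℕ}, v ∈ pcs n R top τ ↔ v < n ∧ v ∉ R ∧ top v = τ := by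
    intro τ v
    unfold pcs
    rw [mem_filter, mem_range]
  have hsize : ∀ τ, (pcs n R top τ).card ≤ K := hD.size
  -- tops
  have htop : ∀ τ ∈ tops n p R, τ ∈ pcs n R top τ := by
    intro τ hτ
    obtain ⟨h1, h2, h3⟩ := mem_tops.1 hτ
    exact mem_pcs.2 ⟨h1, h2, hD.top_of_tops hτ⟩
  have hpar : ∀ τ ∈ tops n p R, ∀ v ∈ pcs n R top τ, v ≠ τ → p v ∈ pcs n R top τ := by
    intro τ hτ v hv hne
    obtain ⟨h1, h2, h3⟩ := mem_pcs.1 hv
    have h4 : p v ∉ R := fun h => hne ((hD.top_root v h1 h2 h).symm.trans h3)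
    have h5 := hp v (hD.pos h2) h1
    exact mem_pcs.2 ⟨by omega, h4, by rw [← hD.top_step v h1 h2 h4, h3]⟩
  set ex : ℕ → Prop := fun v => ∃ r ∈ R, 0 < r ∧ p r = v with hex
  set ty : ℕ → (ℕ × ℕ) × (Finset (ℕ × ℕ) × Finset ℕ) := fun τ =>
    (((pcs n R top τ).card, ix τ τ),
      (((pcs n R top τ).erase τ).image (fun v => (ix τ v, ix τ (p v))),
        ((pcs n R top τ).filter ex).image (ix τ))) with hty
  set Dd : Finset ℕ := (Z.filter fun z => z ∉ R).image top with hDd
  have hDcard : Dd.card ≤ s := Finset.card_image_le.trans ((Finset.card_filter_le _ _).trans hZs)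
  have htyF : ∀ τ ∈ tops n p R \ Dd, ty τ ∈ FF := by
    intro τ hτ
    have hτ := (Finset.mem_sdiff.1 hτ).1
    have hk := hsize τ
    have hlt : ∀ v ∈ pcs n R top τ, ix τ v < K := fun v hv => (hix τ v hv).1.trans_le hk
    rw [hFF, hty]
    simp only [mem_product, mem_range, mem_powerset]
    refine ⟨⟨by omega, hlt τ (htop τ hτ)⟩, ?_, ?_⟩
    · intro x hx
      obtain ⟨v, hv, rfl⟩ := mem_image.1 hx
      obtain ⟨hv1, hv2⟩ := mem_erase.1 hv
      rw [mem_product, mem_range, mem_range]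
      exact ⟨hlt v hv2, hlt _ (hpar τ hτ v hv2 hv1)⟩
    · intro x hx
      obtain ⟨v, hv, rfl⟩ := mem_image.1 hx
      rw [mem_range]
      exact hlt v (mem_filter.1 hv).1
  obtain ⟨T1, g, hT1, hg, hginj, hcard⟩ := h31_pair FF ty (tops n p R \ Dd) htyF
  have hT1' : ∀ τ ∈ T1, τ ∈ tops n p R := fun τ hτ => (Finset.mem_sdiff.1 (hT1 hτ)).1
  have hgt : ∀ τ ∈ T1, g τ ∈ tops n p R := fun τ hτ => (Finset.mem_sdiff.1 (hg τ hτ).1).1
  set ι : ℕ → ℕ := fun v => en (g (top v)) (ix (top v) v) with hι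
  have hιv : ∀ τ, ∀ v ∈ pcs n R top τ, ι v = en (g τ) (ix τ v) := by
    intro τ v hv
    rw [hι]
    simp only
    rw [(mem_pcs.1 hv).2.2]
  -- consequences of equality of types
  have ht1 : ∀ τ ∈ T1, (pcs n R top (g τ)).card = (pcs n R top τ).card := by
    intro τ hτ
    exact congrArg (fun x => x.1.1) (hg τ hτ).2.2
  have ht2 : ∀ τ ∈ T1, ix (g τ) (g τ) = ix τ τ := by
    intro τ hτ
    exact congrArg (fun x => x.1.2) (hg τ hτ).2.2
  have ht3 : ∀ τ ∈ T1, ((pcs n R top (g τ)).erase (g τ)).image (fun v => (ix (g τ) v, ix (g τ) (p v))) =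
      ((pcs n R top τ).erase τ).image (fun v => (ix τ v, ix τ (p v))) := by
    intro τ hτ
    exact congrArg (fun x => x.2.1) (hg τ hτ).2.2
  have ht4 : ∀ τ ∈ T1, ((pcs n R top (g τ)).filter ex).image (ix (g τ)) =
      ((pcs n R top τ).filter ex).image (ix τ) := by
    intro τ hτ
    exact congrArg (fun x => x.2.2) (hg τ hτ).2.2
  have hιτ : ∀ τ ∈ T1, ι τ = g τ := by
    intro τ hτ
    rw [hιv τ τ (htop τ (hT1' τ hτ)), ← ht2 τ hτ]
    exact (hix (g τ) (g τ) (htop _ (hgt τ hτ))).2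
  have hmem : ∀ τ ∈ T1, ∀ v ∈ pcs n R top τ, ι v ∈ pcs n R top (g τ) ∧ ix (g τ) (ι v) = ix τ v := by
    intro τ hτ v hv
    rw [hιv τ v hv]
    have h1 := (hix τ v hv).1
    rw [← ht1 τ hτ] at h1
    exact hen (g τ) _ h1
  have himg : T1.image ι = T1.image g := Finset.image_congr fun τ hτ => hιτ τ hτ
  refine ⟨R, T1, top, ι, hD, ?_, fun τ hτ => hT1' τ hτ, ?_, ?_, ?_, ?_, ?_, ?_, ?_⟩
  · have hK0 : (0 : ℝ) < K := by exact_mod_cast (by omega : 0 < K)
    have h1 : (R.card : ℝ) * K ≤ 4 * n + 4 * K := by exact_mod_cast hR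
    have h2 : 4 * (n : ℝ) / K + 4 = (4 * n + 4 * K) / K := by field_simp
    rw [h2, le_div_iff₀ hK0]
    exact h1
  · intro τ hτ
    rw [hιτ τ hτ]
    exact ⟨hgt τ hτ, (hg τ hτ).2.1⟩
  · intro v hv w hw hvw
    obtain ⟨τ, hτ, hv⟩ := Finset.mem_biUnion.1 (Finset.mem_coe.1 hv)
    obtain ⟨σ, hσ, hw⟩ := Finset.mem_biUnion.1 (Finset.mem_coe.1 hw)
    obtain ⟨a1, a2⟩ := hmem τ hτ v hv
    obtain ⟨b1, b2⟩ := hmem σ hσ w hw
    have h1 : g τ = g σ := by
      rw [← (mem_pcs.1 a1).2.2, ← (mem_pcs.1 b1).2.2, hvw]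
    have h2 : τ = σ := hginj hτ hσ h1
    subst h2
    rw [hvw, b2] at a2
    rw [← (hix τ v hv).2, ← (hix τ w hw).2, a2]
  · intro τ hτ
    rw [hιτ τ hτ]
    ext u
    rw [mem_image]
    constructor
    · rintro ⟨v, hv, rfl⟩
      exact (hmem τ hτ v hv).1
    · intro hu
      obtain ⟨c1, c2⟩ := hix (g τ) u hu
      rw [ht1 τ hτ] at c1
      obtain ⟨d1, d2⟩ := hen τ _ c1
      refine ⟨_, d1, ?_⟩
      rw [hιv τ _ d1, d2, c2]
  · intro τ hτ v hv hne
    have hpv := hpar τ (hT1' τ hτ) v hv hne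
    have h1 : (ix τ v, ix τ (p v)) ∈
        ((pcs n R top (g τ)).erase (g τ)).image (fun v => (ix (g τ) v, ix (g τ) (p v))) := by
      rw [ht3 τ hτ]
      exact mem_image_of_mem _ (mem_erase.2 ⟨hne, hv⟩)
    obtain ⟨w, hw, hw2⟩ := mem_image.1 h1
    obtain ⟨hw0, hw1⟩ := mem_erase.1 hw
    rw [Prod.mk.injEq] at hw2
    have hpw := hpar (g τ) (hgt τ hτ) w hw1 hw0
    have e1 : ι v = w := by
      rw [hιv τ v hv, ← hw2.1]
      exact (hix (g τ) w hw1).2
    have e2 : ι (p v) = p w := by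
      rw [hιv τ (p v) hpv, ← hw2.2]
      exact (hix (g τ) (p w) hpw).2
    rw [e1, e2]
  · intro τ hτ v hv
    obtain ⟨a1, a2⟩ := hmem τ hτ v hv
    have h4 := ht4 τ hτ
    constructor
    · intro he
      have h1 : ix τ v ∈ ((pcs n R top (g τ)).filter ex).image (ix (g τ)) := by
        rw [h4]
        exact mem_image_of_mem _ (mem_filter.2 ⟨hv, he⟩)
      obtain ⟨w, hw, hw2⟩ := mem_image.1 h1
      obtain ⟨hw1, hw3⟩ := mem_filter.1 hw
      have e1 : ι v = w := by
        rw [hιv τ v hv, ← hw2]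
        exact (hix (g τ) w hw1).2
      rw [e1]
      exact hw3
    · intro he
      have h1 : ix (g τ) (ι v) ∈ ((pcs n R top τ).filter ex).image (ix τ) := by
        rw [← h4]
        exact mem_image_of_mem _ (mem_filter.2 ⟨a1, he⟩)
      obtain ⟨w, hw, hw2⟩ := mem_image.1 h1
      obtain ⟨hw1, hw3⟩ := mem_filter.1 hw
      rw [a2] at hw2
      have e1 : v = w := by
        rw [← (hix τ v hv).2, ← (hix τ w hw1).2, hw2]
      rw [e1]
      exact hw3
  · intro z hz hzR
    have hzD : top z ∈ Dd := mem_image_of_mem _ (mem_filter.2 ⟨hz, hzR⟩)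
    rw [himg]
    constructor
    · intro h
      exact (Finset.mem_sdiff.1 (hT1 h)).2 hzD
    · intro h
      obtain ⟨τ, hτ, h2⟩ := mem_image.1 h
      rw [← h2] at hzD
      exact (Finset.mem_sdiff.1 (hg τ hτ).1).2 hzD
  · rw [himg]
    have h1 : tops n p R \ (T1 ∪ T1.image g) ⊆ ((tops n p R \ Dd) \ (T1 ∪ T1.image g)) ∪ Dd := by
      intro x hx
      rw [Finset.mem_sdiff] at hx
      by_cases h : x ∈ Dd
      · exact Finset.mem_union_right _ h
      · exact Finset.mem_union_left _ (Finset.mem_sdiff.2 ⟨Finset.mem_sdiff.2 ⟨hx.1, h⟩, hx.2⟩)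
    exact (Finset.card_le_card h1).trans ((Finset.card_union_le _ _).trans (Nat.add_le_add hcard hDcard))

end Pool.Agent.BD
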