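import Pool.Agent.Helper73.BD.L1
import Pool.Agent.Helper73.BD.L0

/-!
# BD-L2: the half world for `e = 1`

Proof in words.  Take `twins`.  `E = R ∪ {v < n : v ∉ R, top v ∉ T1 ∪ ι(T1)}`, `|E| ≤ 4n/K + 4 + K C`.  `Q = {v < n : v ∉ R, top v ∈ T1}`.
`Bd = T1 ∪ {v ∈ Q : some r ∈ R, 0 < r, has p r = v}` (per piece the top and at most one exit parent, which is different from the top by `Dec.exit_deep`), `CN` = the vertices of `Q \ Bd` adjacent to a vertex of `Bd`.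
`Twin`: an edge between a piece and the rest is the edge from the top to its parent in `R`, or the edge from the exit `r` to `p r`; so adjacent vertices of `Q` are in the same piece, and there
`Ad` means `p v = w`, `v ≠ top`, or conversely; `ι` respects it.
`|T1| ≤ |tops|/2`, `|tops| ≤ D |R|`; `|Bd| ≤ 2|T1|`, `|CN| ≤ D|Bd|`.
COMPONENTS: apply `SEM.T2_top` to `R2 = range n \ (Q \ (Bd ∪ CN))`, giving `top2`; `TT` = the vertices `t < n`, `t ∉ R2`, `p t ∈ R2`; `P t = {v < n : v ∉ R2, top2 v = t}`.  For `t ∈ TT` the parent `p t` is adjacent to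
`t ∈ Q \ (Bd ∪ CN)`, so it is in `Q` (not in `E`: `t ∉ Bd`; not in `ι(Q)`), not in `Bd` (`t ∉ CN`), hence in `CN`; so `|TT| ≤ D |CN|`.
`En t = {t} ∪ {v ∈ P t : some u ∈ CN has p u = v}`: such `u` is adjacent to a vertex of `Bd` which is not its parent `v ∉ Bd`, so a child of `u` is in `Bd`: not the top of the piece, so it is the exit parent, `u = p(exit parent)` is
unique in the piece.  The components are contained in pieces, so have at most `K` vertices.
-/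

set_option autoImplicit false

namespace Pool.Agent.BD

open Finset Pool.Agent.SEM

/-- half world with connectors and components -/
structure Hs (n D K : ℕ) (p ι : ℕ → ℕ) (E Bd CN Q TT : Finset ℕ) (P En : ℕ → Finset ℕ) : Prop where
  twin : Twin n D p ι E Bd Q
  CQ : CN ⊆ Q
  BC : Disjoint Bd CN
  Q_eq : Q = Bd ∪ CN ∪ TT.biUnion P
  dP : Disjoint (Bd ∪ CN) (TT.biUnion P)
  aB : ∀ v ∈ Bd, ∀ w ∈ Q, Ad p v w → w ∈ Bd ∪ CN
  aM : ∀ t ∈ TT, ∀ v ∈ P t, ∀ w ∈ Q, Ad p v w → w ∈ P t ∨ (w ∈ CN ∧ v ∈ En t)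
  dj : ∀ t ∈ TT, ∀ t' ∈ TT, t ≠ t' → Disjoint (P t) (P t')
  tree : ∀ t ∈ TT, t ∈ P t ∧ (∀ v ∈ P t, v ≠ t → p v ∈ P t ∧ p v < v) ∧ (P t).card ≤ K
  en : ∀ t ∈ TT, En t ⊆ P t ∧ (En t).card ≤ 2

private lemma Ad_comm_50 {p : ℕ → ℕ} {v w : ℕ} : Ad p v w ↔ Ad p w v := by
  unfold Ad
  exact Or.comm

private lemma mem_pcs_50 {n : ℕ} {R : Finset ℕ} {top : ℕ → ℕ} {τ v : ℕ} :
    v ∈ pcs n R top τ ↔ v < n ∧ v ∉ R ∧ top v = τ := by
  unfold pcs
  rw [mem_filter, mem_range]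

private lemma mem_nbs_50 {n : ℕ} {p : ℕ → ℕ} {v w : ℕ} : w ∈ nbs n p v ↔ w < n ∧ Ad p v w := by
  unfold nbs
  rw [mem_filter, mem_range]

private lemma adj_same_50 {n K : ℕ} {p top : ℕ → ℕ} {R : Finset ℕ} (hD : Dec n p K R top) {v w : ℕ}
    (hv : v < n) (hw : w < n) (hvR : v ∉ R) (hwR : w ∉ R) (h : Ad p v w) : top v = top w := by
  rcases h with ⟨_, h⟩ | ⟨_, h⟩
  · rw [hD.top_step v hv hvR (h ▸ hwR), h]
  · rw [hD.top_step w hw hwR (h ▸ hvR), h]

private lemma leg_50 {n K : ℕ} {p top : ℕ → ℕ} {R : Finset ℕ} (hD : Dec n p K R top) {u : ℕ}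
    (huR : u ∉ R) (h : p u ∈ R ∨ ∃ r ∈ R, 0 < r ∧ p r = u) :
    ∃! w, w ∈ R ∧ Ad p u w := by
  have hu0 : 0 < u := hD.pos huR
  rcases h with h | ⟨r, hr, hr0, hru⟩
  · refine ⟨p u, ⟨h, Or.inl ⟨hu0, rfl⟩⟩, ?_⟩
    rintro w ⟨hwR, ⟨_, hw⟩ | ⟨hw0, hw⟩⟩
    · exact hw.symm
    · exact absurd h (hw ▸ hD.exit_deep w hwR hw0 (by rw [hw]; exact huR))
  · refine ⟨r, ⟨hr, Or.inr ⟨hr0, hru⟩⟩, ?_⟩
    rintro w ⟨hwR, ⟨_, hw⟩ | ⟨hw0, hw⟩⟩
    · exfalso
      have h1 := hD.exit_deep r hr hr0 (by rw [hru]; exact huR)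
      rw [hru, hw] at h1
      exact h1 hwR
    · exact hD.exit_unique w hwR r hr hw0 hr0 (by rw [hw]; exact huR) (by rw [hru]; exact huR)
        (by rw [hw, hru])

private lemma card_fib_50 {n D : ℕ} {p : ℕ → ℕ} (hdeg : ∀ v, v < n → (nbs n p v).card ≤ D)
    {A B : Finset ℕ} (hA : ∀ a ∈ A, a < n ∧ 0 < a ∧ p a ∈ B) (hB : ∀ b ∈ B, b < n) :
    A.card ≤ D * B.card := by
  refine card_le_mul_card_image_of_maps_to (f := p) (fun a ha => (hA a ha).2.2) D fun b hb => ?_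
  refine le_trans (card_le_card fun a ha => ?_) (hdeg b (hB b hb))
  rw [mem_filter] at ha
  exact mem_nbs_50.2 ⟨(hA a ha.1).1, Or.inr ⟨(hA a ha.1).2.1, ha.2⟩⟩

/-- the structural part, given the decomposition -/
private lemma core_50 {n D K : ℕ} {p : ℕ → ℕ} (hn : 0 < n) (hp : Par n p)
    (hdeg : ∀ v, v < n → (nbs n p v).card ≤ D) {R T1 : Finset ℕ} {top ι : ℕ → ℕ}
    (hD : Dec n p K R top) (hT1 : T1 ⊆ tops n p R)
    (hι : ∀ τ ∈ T1, ι τ ∈ tops n p R ∧ ι τ ∉ T1)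
    (hinj : Set.InjOn ι (T1.biUnion (pcs n R top)))
    (himg : ∀ τ ∈ T1, (pcs n R top τ).image ι = pcs n R top (ι τ))
    (hpar : ∀ τ ∈ T1, ∀ v ∈ pcs n R top τ, v ≠ τ → p (ι v) = ι (p v))
    (hex : ∀ τ ∈ T1, ∀ v ∈ pcs n R top τ, ((∃ r ∈ R, 0 < r ∧ p r = v) ↔ ∃ r ∈ R, 0 < r ∧ p r = ι v)) :
    ∃ (E Bd CN Q TT : Finset ℕ) (P En : ℕ → Finset ℕ), Hs n D K p ι E Bd CN Q TT P En ∧
      (∀ z, z ∈ E ↔ z < n ∧ (z ∉ R → top z ∉ T1 ∧ top z ∉ T1.image ι)) ∧
      Bd.card ≤ D * R.card ∧ CN.card ≤ D * Bd.card ∧ TT.card ≤ D * CN.card := by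
  classical
  have h0R : 0 ∈ R := hD.zero
  have hptop : ∀ v, v < n → v ∉ R → top v = v → p v ∈ R := fun v hv hvR h => by
    have := (mem_tops.1 (hD.top_mem hp v hv hvR).1).2.2
    rwa [h] at this
  set Q : Finset ℕ := T1.biUnion (pcs n R top) with hQdef
  have hQ : ∀ v, v ∈ Q ↔ v < n ∧ v ∉ R ∧ top v ∈ T1 := by
    intro v
    rw [hQdef, mem_biUnion]
    constructor
    · rintro ⟨τ, hτ, hv⟩
      obtain ⟨h1, h2, h3⟩ := mem_pcs_50.1 hv
      exact ⟨h1, h2, h3 ▸ hτ⟩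
    · rintro ⟨h1, h2, h3⟩
      exact ⟨top v, h3, mem_pcs_50.2 ⟨h1, h2, rfl⟩⟩
  have hQp : ∀ v ∈ Q, v ∈ pcs n R top (top v) := fun v hv =>
    mem_pcs_50.2 ⟨((hQ v).1 hv).1, ((hQ v).1 hv).2.1, rfl⟩
  have hιp : ∀ v ∈ Q, ι v ∈ pcs n R top (ι (top v)) := fun v hv => by
    rw [← himg _ ((hQ v).1 hv).2.2]
    exact mem_image_of_mem ι (hQp v hv)
  have hιtop : ∀ v ∈ Q, top (ι v) = ι (top v) := fun v hv => (mem_pcs_50.1 (hιp v hv)).2.2
  have hT1Q : ∀ τ ∈ T1, τ ∈ Q := fun τ hτ => by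
    have h1 := mem_tops.1 (hT1 hτ)
    exact (hQ τ).2 ⟨h1.1, h1.2.1, by rw [hD.top_of_tops (hT1 hτ)]; exact hτ⟩
  have hI : ∀ u, u ∈ Q.image ι ↔ u < n ∧ u ∉ R ∧ top u ∈ T1.image ι := by
    intro u
    rw [mem_image]
    constructor
    · rintro ⟨v, hv, rfl⟩
      obtain ⟨h1, h2, h3⟩ := mem_pcs_50.1 (hιp v hv)
      exact ⟨h1, h2, by rw [h3]; exact mem_image_of_mem ι ((hQ v).1 hv).2.2⟩
    · rintro ⟨h1, h2, h3⟩
      obtain ⟨τ, hτ, h4⟩ := mem_image.1 h3
      have h5 : u ∈ pcs n R top (ι τ) := mem_pcs_50.2 ⟨h1, h2, h4.symm⟩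
      rw [← himg τ hτ, mem_image] at h5
      obtain ⟨v, hv, h6⟩ := h5
      exact ⟨v, mem_biUnion.2 ⟨τ, hτ, hv⟩, h6⟩
  have hT1dis : ∀ x, x ∈ T1 → x ∉ T1.image ι := by
    intro x hx hx'
    obtain ⟨τ, hτ, rfl⟩ := mem_image.1 hx'
    exact (hι τ hτ).2 hx
  set E : Finset ℕ := (range n).filter (fun v => v ∉ Q ∧ v ∉ Q.image ι) with hEdef
  have hE : ∀ v, v ∈ E ↔ v < n ∧ v ∉ Q ∧ v ∉ Q.image ι := by
    intro v
    rw [hEdef, mem_filter, mem_range]
  set ex : ℕ → Prop := fun v => ∃ r ∈ R, 0 < r ∧ p r = v with hexd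
  set Bd : Finset ℕ := T1 ∪ Q.filter ex with hBd
  have hBdm : ∀ v, v ∈ Bd ↔ v ∈ T1 ∨ (v ∈ Q ∧ ex v) := by
    intro v
    rw [hBd, mem_union, mem_filter]
  have hBQ : Bd ⊆ Q := by
    intro v hv
    rcases (hBdm v).1 hv with h | h
    · exact hT1Q v h
    · exact h.1
  have hBdp : ∀ v ∈ Q, (v ∈ Bd ↔ p v ∈ R ∨ ex v) := by
    intro v hv
    obtain ⟨h1, h2, h3⟩ := (hQ v).1 hv
    rw [hBdm]
    constructor
    · rintro (h | h)
      · exact Or.inl (mem_tops.1 (hT1 h)).2.2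
      · exact Or.inr h.2
    · rintro (h | h)
      · left
        rw [hD.top_root v h1 h2 h] at h3
        exact h3
      · exact Or.inr ⟨hv, h⟩
  set CN : Finset ℕ := (Q \ Bd).filter (fun w => ∃ u ∈ Bd, Ad p w u) with hCN
  have hCNm : ∀ w, w ∈ CN ↔ w ∈ Q ∧ w ∉ Bd ∧ ∃ u ∈ Bd, Ad p w u := by
    intro w
    rw [hCN, mem_filter, mem_sdiff, and_assoc]
  -- adjacency with E
  have hER : ∀ u, u ∈ Q ∨ u ∈ Q.image ι → ∀ w ∈ E, Ad p u w → w ∈ R := by
    intro u hu w hw had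
    by_contra hwR
    obtain ⟨w1, w2, w3⟩ := (hE w).1 hw
    rcases hu with hu | hu
    · obtain ⟨u1, u2, u3⟩ := (hQ u).1 hu
      have := adj_same_50 hD u1 w1 u2 hwR had
      exact w2 ((hQ w).2 ⟨w1, hwR, this ▸ u3⟩)
    · obtain ⟨u1, u2, u3⟩ := (hI u).1 hu
      have := adj_same_50 hD u1 w1 u2 hwR had
      exact w3 ((hI w).2 ⟨w1, hwR, this ▸ u3⟩)
  have hRE : ∀ w ∈ R, w ∈ E := by
    intro w hw
    rw [hE]
    exact ⟨mem_range.1 (hD.sub hw), fun h => ((hQ w).1 h).2.1 hw, fun h => ((hI w).1 h).2.1 hw⟩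
  -- the twin of a vertex of the boundary
  have hpι : ∀ v ∈ Q, (p v ∈ R ∨ ex v ↔ p (ι v) ∈ R ∨ ex (ι v)) := by
    intro v hv
    obtain ⟨h1, h2, h3⟩ := (hQ v).1 hv
    have e1 := hex _ h3 v (hQp v hv)
    have e2 : p v ∈ R ↔ p (ι v) ∈ R := by
      by_cases hvt : v = top v
      · constructor
        · intro _
          have := (mem_tops.1 (hι _ h3).1).2.2
          rwa [← hvt] at this
        · intro _
          exact hptop v h1 h2 hvt.symm
      · have hpv : p v ∉ R := fun h => hvt (hD.top_root v h1 h2 h).symm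
        have hpvQ : p v ∈ Q := by
          have := hp v (hD.pos h2) h1
          refine (hQ _).2 ⟨by omega, hpv, ?_⟩
          rw [← hD.top_step v h1 h2 hpv]
          exact h3
        have h4 := hpar _ h3 v (hQp v hv) hvt
        constructor
        · intro h; exact absurd h hpv
        · intro h
          rw [h4] at h
          exact absurd h (mem_pcs_50.1 (hιp _ hpvQ)).2.1
    rw [e2]
    exact or_congr Iff.rfl e1
  have hιQ : ∀ v ∈ Q, ι v ∈ Q.image ι := fun v hv => mem_image_of_mem ι hv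
  have hleg : ∀ u, u ∈ Q ∨ u ∈ Q.image ι → u ∉ R → (p u ∈ R ∨ ex u) →
      ∃! w, w ∈ E ∧ Ad p u w := by
    intro u hu huR h
    obtain ⟨w, ⟨hw1, hw2⟩, hw3⟩ := leg_50 hD huR h
    exact ⟨w, ⟨hRE w hw1, hw2⟩, fun y hy => hw3 y ⟨hER u hu y hy.1 hy.2, hy.2⟩⟩
  have hinner : ∀ u, u ∈ Q ∨ u ∈ Q.image ι → ¬ (p u ∈ R ∨ ex u) → ∀ w ∈ E, ¬ Ad p u w := by
    intro u hu h w hw had
    have hwR := hER u hu w hw had
    rcases had with ⟨_, h1⟩ | ⟨h0, h1⟩
    · exact h (Or.inl (h1 ▸ hwR))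
    · exact h (Or.inr ⟨w, hwR, h0, h1⟩)
  have htwin : Twin n D p ι E Bd Q := by
    refine ⟨hp, hRE 0 h0R, ?_, ?_, ?_, hBQ, hinj, ?_, ?_, ?_, ?_, ?_, ?_, ?_⟩
    · exact filter_subset _ _
    · intro v hv
      exact mem_range.2 ((hQ v).1 hv).1
    · rw [disjoint_left]
      intro v h1 h2
      exact ((hE v).1 h1).2.1 h2
    · intro v hv
      have h1 := (hI (ι v)).1 (hιQ v hv)
      refine ⟨h1.1, fun h => ?_, fun h => ((hE _).1 h).2.2 (hιQ v hv)⟩
      exact hT1dis _ ((hQ _).1 h).2.2 h1.2.2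
    · ext v
      rw [mem_range, mem_union, mem_union, hE]
      constructor
      · intro h
        by_cases h1 : v ∈ Q
        · exact Or.inl (Or.inr h1)
        · by_cases h2 : v ∈ Q.image ι
          · exact Or.inr h2
          · exact Or.inl (Or.inl ⟨h, h1, h2⟩)
      · rintro ((h | h) | h)
        · exact h.1
        · exact ((hQ v).1 h).1
        · exact ((hI v).1 h).1
    · -- tw
      have key1 : ∀ v ∈ Q, ∀ w ∈ Q, p v = w → p (ι v) = ι w := by
        intro v hv w hw hvw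
        obtain ⟨h1, h2, h3⟩ := (hQ v).1 hv
        have hvt : v ≠ top v := fun h => by
          have := hptop v h1 h2 h.symm
          rw [hvw] at this
          exact ((hQ w).1 hw).2.1 this
        rw [hpar _ h3 v (hQp v hv) hvt, hvw]
      have key2 : ∀ v ∈ Q, ∀ w ∈ Q, p (ι v) = ι w → p v = w := by
        intro v hv w hw hvw
        obtain ⟨h1, h2, h3⟩ := (hQ v).1 hv
        have hwR : ι w ∉ R := ((hI _).1 (hιQ w hw)).2.1
        have hpv : p v ∉ R := by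
          intro h
          have h4 : v = top v := (hD.top_root v h1 h2 h).symm
          have := (mem_tops.1 (hι _ h3).1).2.2
          rw [← h4, hvw] at this
          exact hwR this
        have hvt : v ≠ top v := fun h => hpv (hptop v h1 h2 h.symm)
        rw [hpar _ h3 v (hQp v hv) hvt] at hvw
        have hpvQ : p v ∈ Q := by
          have := hp v (hD.pos h2) h1
          refine (hQ _).2 ⟨by omega, hpv, ?_⟩
          rw [← hD.top_step v h1 h2 hpv]
          exact h3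
        exact hinj hpvQ hw hvw
      have hpos : ∀ v ∈ Q, 0 < v := fun v hv => hD.pos ((hQ v).1 hv).2.1
      have hposι : ∀ v ∈ Q, 0 < ι v := fun v hv => hD.pos ((hI _).1 (hιQ v hv)).2.1
      intro v hv w hw
      constructor
      · rintro (⟨_, h⟩ | ⟨_, h⟩)
        · exact Or.inl ⟨hposι v hv, key1 v hv w hw h⟩
        · exact Or.inr ⟨hposι w hw, key1 w hw v hv h⟩
      · rintro (⟨_, h⟩ | ⟨_, h⟩)
        · exact Or.inl ⟨hpos v hv, key2 v hv w hw h⟩
        · exact Or.inr ⟨hpos w hw, key2 w hw v hv h⟩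
    · intro v hv w hw had
      obtain ⟨v1, v2, v3⟩ := (hQ v).1 hv
      obtain ⟨w1, w2, w3⟩ := (hI (ι w)).1 (hιQ w hw)
      have := adj_same_50 hD v1 w1 v2 w2 had
      exact hT1dis _ v3 (this ▸ w3)
    · intro v hv hvB w hw
      have h1 : ¬ (p v ∈ R ∨ ex v) := fun h => hvB ((hBdp v hv).2 h)
      exact ⟨hinner v (Or.inl hv) h1 w hw,
        hinner (ι v) (Or.inr (hιQ v hv)) (fun h => h1 ((hpι v hv).2 h)) w hw⟩
    · intro v hvB
      have hv := hBQ hvB
      have h1 := (hBdp v hv).1 hvB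
      exact ⟨hleg v (Or.inl hv) ((hQ v).1 hv).2.1 h1,
        hleg (ι v) (Or.inr (hιQ v hv)) ((hI _).1 (hιQ v hv)).2.1 ((hpι v hv).1 h1)⟩
    · intro v hv
      refine le_trans (card_le_card fun w hw => ?_) (hdeg v ((hQ v).1 hv).1)
      rw [mem_filter] at hw
      exact mem_nbs_50.2 ⟨((hQ w).1 hw.1).1, hw.2⟩
  -- the components
  set R2 : Finset ℕ := range n \ (Q \ (Bd ∪ CN)) with hR2
  have hR2m : ∀ v, v < n → (v ∉ R2 ↔ v ∈ Q ∧ v ∉ Bd ∧ v ∉ CN) := by
    intro v hv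
    rw [hR2, mem_sdiff, mem_sdiff, mem_union, mem_range]
    tauto
  have hRR2 : R ⊆ R2 := by
    intro r hr
    have hrn := mem_range.1 (hD.sub hr)
    by_contra h
    exact ((hQ r).1 ((hR2m r hrn).1 h).1).2.1 hr
  obtain ⟨top2, ht2⟩ := SEM.T2_top n p R2 hp (hRR2 h0R)
  have hist := SEM.T2_istop n p R2 top2 hp (hRR2 h0R) ht2
  have href := SEM.T2_refine n p R R2 top top2 hp h0R hRR2
    (fun v h1 h2 => ⟨hD.top_root v h1 h2, hD.top_step v h1 h2⟩) ht2
  set TT : Finset ℕ := tops n p R2 with hTT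
  set P : ℕ → Finset ℕ := pcs n R2 top2 with hP
  set En : ℕ → Finset ℕ := fun t => (P t).filter (fun v => v = t ∨ ∃ u ∈ CN, 0 < u ∧ p u = v)
    with hEn
  have hPm : ∀ t v, v ∈ P t ↔ v < n ∧ v ∉ R2 ∧ top2 v = t := fun t v => mem_pcs_50
  have hadP : ∀ v w, v < n → w < n → v ∉ R2 → w ∉ R2 → Ad p v w → top2 v = top2 w := by
    intro v w hv hw hvR hwR had
    rcases had with ⟨_, h⟩ | ⟨_, h⟩
    · rw [(ht2 v hv hvR).2 (h ▸ hwR), h]
    · rw [(ht2 w hw hwR).2 (h ▸ hvR), h]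
  have hpos2 : ∀ v, v ∉ R2 → 0 < v := by
    intro v hv
    rcases Nat.eq_zero_or_pos v with h | h
    · subst h; exact absurd (hRR2 h0R) hv
    · exact h
  have hHs : Hs n D K p ι E Bd CN Q TT P En := by
    refine ⟨htwin, ?_, ?_, ?_, ?_, ?_, ?_, ?_, ?_, ?_⟩
    · intro w hw
      exact ((hCNm w).1 hw).1
    · rw [disjoint_left]
      intro w h1 h2
      exact ((hCNm w).1 h2).2.1 h1
    · ext v
      rw [mem_union, mem_union]
      constructor
      · intro hv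
        by_cases h1 : v ∈ Bd
        · exact Or.inl (Or.inl h1)
        · by_cases h2 : v ∈ CN
          · exact Or.inl (Or.inr h2)
          · right
            have hvn := ((hQ v).1 hv).1
            have hvR2 : v ∉ R2 := (hR2m v hvn).2 ⟨hv, h1, h2⟩
            obtain ⟨a1, a2, a3, a4⟩ := hist v hvn hvR2
            exact mem_biUnion.2 ⟨top2 v, mem_tops.2 ⟨a1, a2, a3⟩, (hPm _ _).2 ⟨hvn, hvR2, rfl⟩⟩
      · rintro ((h | h) | h)
        · exact hBQ h
        · exact ((hCNm v).1 h).1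
        · obtain ⟨t, _, h⟩ := mem_biUnion.1 h
          obtain ⟨b1, b2, -⟩ := (hPm _ _).1 h
          exact ((hR2m v b1).1 b2).1
    · rw [disjoint_left]
      intro v h1 h2
      obtain ⟨t, _, h⟩ := mem_biUnion.1 h2
      obtain ⟨b1, b2, -⟩ := (hPm _ _).1 h
      have h3 := (hR2m v b1).1 b2
      rcases mem_union.1 h1 with h4 | h4
      · exact h3.2.1 h4
      · exact h3.2.2 h4
    · intro v hv w hw had
      rw [mem_union]
      by_cases h1 : w ∈ Bd
      · exact Or.inl h1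
      · exact Or.inr ((hCNm w).2 ⟨hw, h1, v, hv, Ad_comm_50.1 had⟩)
    · intro t ht v hv w hw had
      obtain ⟨b1, b2, b3⟩ := (hPm _ _).1 hv
      have h3 := (hR2m v b1).1 b2
      have hwn := ((hQ w).1 hw).1
      by_cases hwB : w ∈ Bd
      · exact absurd ((hCNm v).2 ⟨h3.1, h3.2.1, w, hwB, had⟩) h3.2.2
      · by_cases hwC : w ∈ CN
        · right
          refine ⟨hwC, ?_⟩
          rw [hEn]
          simp only
          rw [mem_filter]
          refine ⟨hv, ?_⟩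
          rcases had with ⟨_, h⟩ | ⟨h0, h⟩
          · left
            have hwR2 : p v ∈ R2 := by
              by_contra hcon
              rw [h] at hcon
              exact ((hR2m w hwn).1 hcon).2.2 hwC
            rw [← b3, (ht2 v b1 b2).1 hwR2]
          · exact Or.inr ⟨w, hwC, h0, h⟩
        · left
          have hwR2 : w ∉ R2 := (hR2m w hwn).2 ⟨hw, hwB, hwC⟩
          exact (hPm _ _).2 ⟨hwn, hwR2, by rw [← hadP v w b1 hwn b2 hwR2 had]; exact b3⟩
    · intro t _ t' _ hne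
      rw [disjoint_left]
      intro v h1 h2
      exact hne (((hPm _ _).1 h1).2.2.symm.trans ((hPm _ _).1 h2).2.2)
    · intro t ht
      obtain ⟨c1, c2, c3⟩ := mem_tops.1 ht
      refine ⟨(hPm _ _).2 ⟨c1, c2, (ht2 t c1 c2).1 c3⟩, ?_, ?_⟩
      · intro v hv hne
        obtain ⟨b1, b2, b3⟩ := (hPm _ _).1 hv
        have h1 : p v ∉ R2 := fun h => hne (((ht2 v b1 b2).1 h).symm.trans b3)
        have h2 := hp v (hpos2 v b2) b1
        exact ⟨(hPm _ _).2 ⟨by omega, h1, by rw [← (ht2 v b1 b2).2 h1]; exact b3⟩, h2⟩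
      · refine le_trans (card_le_card fun v hv => ?_) (hD.size (top t))
        obtain ⟨b1, b2, b3⟩ := (hPm _ _).1 hv
        rw [mem_filter, mem_range]
        refine ⟨b1, fun h => b2 (hRR2 h), ?_⟩
        rw [href v b1 b2, b3]
    · intro t ht
      refine ⟨filter_subset _ _, ?_⟩
      have hsub : En t ⊆ insert t ((P t).filter (fun v => ∃ u ∈ CN, 0 < u ∧ p u = v)) := by
        intro v hv
        rw [hEn] at hv
        simp only at hv
        rw [mem_filter] at hv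
        rw [mem_insert, mem_filter]
        rcases hv.2 with h | h
        · exact Or.inl h
        · exact Or.inr ⟨hv.1, h⟩
      have hone : ((P t).filter (fun v => ∃ u ∈ CN, 0 < u ∧ p u = v)).card ≤ 1 := by
        rw [card_le_one]
        -- a child in `CN` has a child which is the exit parent of the piece
        have key : ∀ v ∈ (P t).filter (fun v => ∃ u ∈ CN, 0 < u ∧ p u = v),
            ∃ b r, r ∈ R ∧ 0 < r ∧ p r = b ∧ b ∉ R ∧ top b = top t ∧ v = p (p b) := by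
          intro v hv
          rw [mem_filter] at hv
          obtain ⟨hvP, u, huC, hu0, huv⟩ := hv
          obtain ⟨b1, b2, b3⟩ := (hPm _ _).1 hvP
          have h3 := (hR2m v b1).1 b2
          obtain ⟨huQ, huB, b, hbB, had⟩ := (hCNm u).1 huC
          have hbQ := hBQ hbB
          obtain ⟨bb1, bb2, bb3⟩ := (hQ b).1 hbQ
          obtain ⟨u1, u2, u3⟩ := (hQ u).1 huQ
          obtain ⟨v1, v2, v3⟩ := (hQ v).1 h3.1
          have hpb : p b = u := by
            rcases had with ⟨_, h⟩ | ⟨_, h⟩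
            · exfalso
              rw [huv] at h
              exact h3.2.1 (h ▸ hbB)
            · exact h
          have hbex : ex b := by
            rcases (hBdp b hbQ).1 hbB with h | h
            · exact absurd (hpb ▸ h) u2
            · exact h
          obtain ⟨r, hr, hr0, hrb⟩ := hbex
          refine ⟨b, r, hr, hr0, hrb, bb2, ?_, by rw [hpb, huv]⟩
          rw [hD.top_step b bb1 bb2 (by rw [hpb]; exact u2), hpb,
            hD.top_step u u1 u2 (by rw [huv]; exact v2), huv, href v b1 b2, b3]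
        intro v hv v' hv'
        obtain ⟨b, r, hr, hr0, hrb, hbR, hbt, hvb⟩ := key v hv
        obtain ⟨b', r', hr', hr0', hrb', hbR', hbt', hvb'⟩ := key v' hv'
        have hrr : r = r' := hD.exit_unique r hr r' hr' hr0 hr0' (by rw [hrb]; exact hbR)
          (by rw [hrb']; exact hbR') (by rw [hrb, hrb', hbt, hbt'])
        subst hrr
        rw [hvb, hvb', ← hrb, ← hrb']
      have h1 := card_le_card hsub
      have h2 := card_insert_le t ((P t).filter (fun v => ∃ u ∈ CN, 0 < u ∧ p u = v))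
      omega
  refine ⟨E, Bd, CN, Q, TT, P, En, hHs, ?_, ?_, ?_, ?_⟩
  · intro z
    rw [hE, hQ, hI]
    constructor
    · rintro ⟨h1, h2, h3⟩
      exact ⟨h1, fun h => ⟨fun h4 => h2 ⟨h1, h, h4⟩, fun h4 => h3 ⟨h1, h, h4⟩⟩⟩
    · rintro ⟨h1, h2⟩
      exact ⟨h1, fun h => (h2 h.2.1).1 h.2.2, fun h => (h2 h.2.1).2 h.2.2⟩
  · -- |Bd| ≤ 2 |T1| ≤ |tops| ≤ D |R|
    have h1 : (Q.filter ex).card ≤ T1.card := by
      refine card_le_card_of_injOn top (fun v hv => ?_) ?_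
      · rw [mem_coe, mem_filter] at hv
        exact ((hQ v).1 hv.1).2.2
      · intro v hv v' hv' hvv
        rw [mem_coe, mem_filter] at hv hv'
        obtain ⟨hvQ, r, hr, hr0, hrv⟩ := hv
        obtain ⟨hvQ', r', hr', hr0', hrv'⟩ := hv'
        have := hD.exit_unique r hr r' hr' hr0 hr0' (by rw [hrv]; exact ((hQ v).1 hvQ).2.1)
          (by rw [hrv']; exact ((hQ v').1 hvQ').2.1) (by rw [hrv, hrv']; exact hvv)
        rw [← hrv, ← hrv', this]
    have h2 : (T1 ∪ T1.image ι).card ≤ (tops n p R).card := by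
      refine card_le_card (union_subset hT1 fun x hx => ?_)
      obtain ⟨τ, hτ, rfl⟩ := mem_image.1 hx
      exact (hι τ hτ).1
    have h3 : (T1 ∪ T1.image ι).card = T1.card + (T1.image ι).card := by
      refine card_union_of_disjoint ?_
      rw [disjoint_left]
      exact fun x hx => hT1dis x hx
    have h4 : (T1.image ι).card = T1.card :=
      card_image_of_injOn fun x hx y hy hxy => hinj (hT1Q x hx) (hT1Q y hy) hxy
    have h5 : (tops n p R).card ≤ D * R.card := by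
      refine card_fib_50 hdeg (fun a ha => ?_) fun b hb => mem_range.1 (hD.sub hb)
      obtain ⟨a1, a2, a3⟩ := mem_tops.1 ha
      exact ⟨a1, hD.pos a2, a3⟩
    have h6 := card_union_le T1 (Q.filter ex)
    rw [← hBd] at h6
    omega
  · have h1 : CN ⊆ Bd.biUnion (fun b => nbs n p b) := by
      intro w hw
      obtain ⟨hwQ, _, u, hu, had⟩ := (hCNm w).1 hw
      exact mem_biUnion.2 ⟨u, hu, mem_nbs_50.2 ⟨((hQ w).1 hwQ).1, Ad_comm_50.1 had⟩⟩
    refine (card_le_card h1).trans ((card_biUnion_le_card_mul _ _ D fun b hb => ?_).trans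
      (by rw [mul_comm]))
    exact hdeg b ((hQ b).1 (hBQ hb)).1
  · refine card_fib_50 hdeg (fun t ht => ?_) fun b hb => ((hQ b).1 ((hCNm b).1 hb).1).1
    obtain ⟨c1, c2, c3⟩ := mem_tops.1 ht
    have ht0 := hpos2 t c2
    have hlt := hp t ht0 c1
    obtain ⟨d1, d2, d3⟩ := (hR2m t c1).1 c2
    refine ⟨c1, ht0, ?_⟩
    have had : Ad p t (p t) := Or.inl ⟨ht0, rfl⟩
    have hpn : p t < n := by omega
    have hQt : p t ∈ Q := by
      have hc : p t ∈ range n := mem_range.2 hpn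
      rw [htwin.cov, mem_union, mem_union] at hc
      rcases hc with (h | h) | h
      · exact absurd had (htwin.inner t d1 d2 _ h).1
      · exact h
      · obtain ⟨w, hw, hw2⟩ := mem_image.1 h
        exact absurd (hw2 ▸ had) (htwin.cr t d1 w hw)
    have hnB : p t ∉ Bd := fun h => d3 ((hCNm t).2 ⟨d1, d2, p t, h, had⟩)
    by_contra hnC
    exact (hR2m _ hpn).2 ⟨hQt, hnB, hnC⟩ c3

theorem half1 (D K s : ℕ) (hD : 1 ≤ D) (hK : 2 ≤ K) : ∃ C : ℕ, ∀ (n : ℕ) (p : ℕ → ℕ), 0 < n → Par n p →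
    (∀ v, v < n → (nbs n p v).card ≤ D) → ∀ Z ⊆ range n, Z.card ≤ s →
    ∃ (ι : ℕ → ℕ) (E Bd CN Q TT : Finset ℕ) (P En : ℕ → Finset ℕ), Hs n D K p ι E Bd CN Q TT P En ∧ Z ⊆ E ∧
      (E.card : ℝ) ≤ 4 * n / K + C ∧ (Bd.card : ℝ) ≤ D * (4 * n / K + 4) ∧
      (CN.card : ℝ) ≤ D ^ 2 * (4 * n / K + 4) ∧ (TT.card : ℝ) ≤ D ^ 3 * (4 * n / K + 4) := by
  classical
  obtain ⟨C0, hC0⟩ := twins K s hK
  refine ⟨K * C0 + 4, fun n p hn hp hdeg Z hZ hZs => ?_⟩
  obtain ⟨R, T1, top, ι, hDec, hR, hT1, hι, hinj, himg, hpar, hex, hZt, hleft⟩ :=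
    hC0 n p hn hp Z hZ hZs
  obtain ⟨E, Bd, CN, Q, TT, P, En, hHs, hE, hB, hCN, hTT⟩ :=
    core_50 hn hp hdeg hDec hT1 hι hinj himg hpar hex
  have hD0 : (0 : ℝ) ≤ D := Nat.cast_nonneg D
  have hBr : (Bd.card : ℝ) ≤ D * (4 * n / K + 4) := by
    have h1 : (Bd.card : ℝ) ≤ D * R.card := by exact_mod_cast hB
    exact h1.trans (mul_le_mul_of_nonneg_left hR hD0)
  have hCr : (CN.card : ℝ) ≤ D ^ 2 * (4 * n / K + 4) := by
    have h1 : (CN.card : ℝ) ≤ D * Bd.card := by exact_mod_cast hCN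
    calc (CN.card : ℝ) ≤ D * Bd.card := h1
      _ ≤ D * (D * (4 * n / K + 4)) := mul_le_mul_of_nonneg_left hBr hD0
      _ = D ^ 2 * (4 * n / K + 4) := by ring
  have hTr : (TT.card : ℝ) ≤ D ^ 3 * (4 * n / K + 4) := by
    have h1 : (TT.card : ℝ) ≤ D * CN.card := by exact_mod_cast hTT
    calc (TT.card : ℝ) ≤ D * CN.card := h1
      _ ≤ D * (D ^ 2 * (4 * n / K + 4)) := mul_le_mul_of_nonneg_left hCr hD0
      _ = D ^ 3 * (4 * n / K + 4) := by ring
  refine ⟨ι, E, Bd, CN, Q, TT, P, En, hHs, ?_, ?_, hBr, hCr, hTr⟩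
  · intro z hz
    exact (hE z).2 ⟨mem_range.1 (hZ hz), fun h => hZt z hz h⟩
  · have hsub : E ⊆ R ∪ (tops n p R \ (T1 ∪ T1.image ι)).biUnion (fun τ =>
        (range n).filter fun v => v ∉ R ∧ top v = τ) := by
      intro v hv
      obtain ⟨h1, h2⟩ := (hE v).1 hv
      rw [mem_union, mem_biUnion]
      by_cases hvR : v ∈ R
      · exact Or.inl hvR
      · right
        obtain ⟨h3, h4⟩ := h2 hvR
        refine ⟨top v, mem_sdiff.2 ⟨(hDec.top_mem hp v h1 hvR).1, ?_⟩, ?_⟩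
        · rw [mem_union, not_or]
          exact ⟨h3, h4⟩
        · rw [mem_filter, mem_range]
          exact ⟨h1, hvR, rfl⟩
    have h1 := (card_le_card hsub).trans (card_union_le _ _)
    have h2 : ((tops n p R \ (T1 ∪ T1.image ι)).biUnion (fun τ =>
        (range n).filter fun v => v ∉ R ∧ top v = τ)).card ≤
        (tops n p R \ (T1 ∪ T1.image ι)).card * K :=
      card_biUnion_le_card_mul _ _ K fun τ _ => hDec.size τ
    have h3 : E.card ≤ R.card + C0 * K := by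
      have := Nat.mul_le_mul_right K hleft
      omega
    have h4 : (E.card : ℝ) ≤ ((R.card + C0 * K : ℕ) : ℝ) := by exact_mod_cast h3
    push_cast at h4 ⊢
    linarith

end Pool.Agent.BD
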