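import Pool.Agent.Helper73.BD.AS
import Pool.Agent.Helper73.BD.A5
import Pool.Agent.Helper73.BD.D4
import Pool.Agent.Helper73.BD.FC
import Pool.Agent.Helper73.BD.E0

/-!
# BD-P0: demands, absorber and assignment of the sites together

Proof in words.  `St = E ∪ Bd ∪ ι(Bd)`, `VL = f(St)`, `VS` = sums of the edges inside `St`.  `|VL| = |St|` (even), `|VS|` = number of edges (odd), `∑ VS = e ∑ VL` (injectivity, `hbal`), `0 ∈ VS` (`hf0`);
`|St| ≤ M`, `|VS| ≤ M`.  `b1 = 10^6 (D'+10)^5 M`: all labels are `≤ b1/2` in absolute value (`50000 (D'+1)^2 (D'+10)^3 M ≤ b1/2`), so `Usd b1 FXs FSs VL VS`; `10^6 (|FXs| + |FSs| + |VL| + |VS| + 100) ≤ 3·10^6·M ≤ b1`.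
`demands` gives `Z1, Z2, VL', VS'`, `|Z1| + |Z2| ≤ 40 M`, so `|VL'| ≤ |VL| + 8 (|Z1| + |Z2|) ≤ 400 M` (cardinality of `newL`), the same for `VS'`.
`absorber` with `UX = FXs ∪ classes of VL'`, `US = FSs ∪ classes of VS'`, `FX = FXs`, `FS = FSs`: `10^10 (|UX| + |US| + a + b + 1) ≤ 10^13 M ≤ n`; `FXs ⊆ LC n` etc. by definition of `FXs`, `FSs` (`2e ∣ s`).
`assign`: number of sites `40 M + 10^5 (a + b) ≤ 10^6 M ≤ J`.
-/

set_option autoImplicit false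

namespace Pool.Agent.BD

open Finset Pool.Agent.SEM

/-- demands, absorber and assignment -/
structure S0 (n D e J a b b1 M : ℕ) (p ι q : ℕ → ℕ) (E Bd Cl : Finset ℕ) (sa sv sw sb : ℕ → ℕ) (f : ℕ → ℤ) (VL' VS' : Finset ℤ)
    (Z1 Z2 : List (ℤ × ℤ × ℤ × ℤ)) (L1 L2 : List (ℤ × ℤ)) (C Lc Sc DS CO Fl : Finset ℕ) (g gb : ℕ → ℤ) : Prop where
  vl : VL'.val = ((E ∪ Bd ∪ Bd.image ι).image f).val + newL e Z1 Z2
  vs : VS'.val = ((EdI p (E ∪ Bd ∪ Bd.image ι)).image fun i => f i + f (p i)).val + newS e Z1 Z2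
  us : Usd (100 * b1) (FXs n D q) (FSs n D e q) VL' VS'
  syL : ∀ u ∈ VL', -u ∈ VL'
  syS : ∀ s ∈ VS', -s ∈ VS'
  cvL : VL'.card ≤ 400 * M
  cvS : VS'.card ≤ 400 * M
  gd : Gd e n (FXs n D q ∪ VL'.image Int.natAbs) (FSs n D e q ∪ VS'.image Int.natAbs) L1 L2 C Lc Sc
  abs : ∀ F' ⊆ FXs n D q, F'.card = a → ∀ G' ⊆ FSs n D e q, G'.card = b → Abs e L1 L2 (Lc ∪ F') (Sc ∪ G')
  DSs : DS ⊆ Cl
  COs : CO ⊆ Cl
  Fls : Fl ⊆ Cl
  d1 : Disjoint DS CO
  d2 : Disjoint (DS ∪ CO) Fl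
  st : ∀ v ∈ DS ∪ CO ∪ Fl, ∃ j, j < J ∧ (v = sa j ∨ v = sv j ∨ v = sw j ∨ v = sb j)
  e1 : DS.val.map g + DS.val.map gb = newL e Z1 Z2
  e2 : (EdI p DS).val.map (fun i => g i + g (p i)) + (EdI p DS).val.map (fun i => gb i + gb (p i)) = newS e Z1 Z2
  e3 : CO.val.map (fun v => (g v).natAbs) = C.val
  e5 : ∀ v ∈ DS, ∀ w, w < n → Ad p v w → w ∉ DS → gb v = -g v
  e6 : ∀ v ∈ DS, ∀ w ∈ CO ∪ Fl, ¬ Ad p v w
  e7 : ∀ v ∈ CO, ∀ w ∈ CO, ¬ Ad p v w
  e8 : ∀ v ∈ Fl, ∀ w, w < n → Ad p v w → w ∈ CO ∪ Fl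
  ext : ∀ L S : Finset ℕ, Abs e L1 L2 L S → ∃ g' : ℕ → ℤ, (∀ v, v ∉ Fl → g' v = g v) ∧ (∀ v ∈ Fl, Odd (g' v)) ∧
        Fl.val.map (fun v => (g' v).natAbs) = L.val ∧
        (EdT p Fl CO).val.map (fun i => (g' i + g' (p i)).natAbs) = S.val

private lemma len_p0_15 (Z : List (ℤ × ℤ × ℤ × ℤ)) (f : ℤ × ℤ × ℤ × ℤ → List ℤ) (k : ℕ)
    (hf : ∀ z, (f z).length = k) : (Z.flatMap f).length = k * Z.length := by
  induction Z with
  | nil => simp
  | cons z Z ih => rw [List.flatMap_cons, List.length_append, ih, hf, List.length_cons]; ring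

private lemma card_newL_p0_15 (e : ℕ) (Z1 Z2 : List (ℤ × ℤ × ℤ × ℤ)) :
    (newL e Z1 Z2).card ≤ 8 * (Z1.length + Z2.length) := by
  unfold newL
  rw [Multiset.card_add, Multiset.card_add, Multiset.coe_card, Multiset.coe_card,
    len_p0_15 Z1 _ 4 (fun z => rfl), len_p0_15 Z2 _ 8 (fun z => rfl)]
  split_ifs
  · rw [Multiset.coe_card, len_p0_15 Z1 _ 2 (fun z => rfl)]
    omega
  · rw [Multiset.card_zero]
    omega

private lemma card_newS_p0_15 (e : ℕ) (Z1 Z2 : List (ℤ × ℤ × ℤ × ℤ)) :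
    (newS e Z1 Z2).card ≤ 8 * (Z1.length + Z2.length) := by
  unfold newS
  rw [Multiset.card_add, Multiset.card_add, Multiset.card_add, Multiset.coe_card, Multiset.coe_card,
    len_p0_15 Z1 _ 2 (fun z => rfl), len_p0_15 Z2 _ 4 (fun z => rfl)]
  split_ifs
  · rw [Multiset.coe_card, Multiset.coe_card, len_p0_15 Z1 _ 2 (fun z => rfl),
      len_p0_15 Z2 _ 2 (fun z => rfl)]
    omega
  · rw [Multiset.card_zero]
    omega

theorem phase0 {n D D' e J a b M : ℕ} {p ι q : ℕ → ℕ} {E Bd Q Cl : Finset ℕ} {sa sv sw sb : ℕ → ℕ}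
    (he : e = 1 ∨ e = 2) (hn2 : Even n) (hT : Twin n D p ι E Bd Q) (hClQ : Cl ⊆ Q) (hSt : Sts n e J p Cl sa sv sw sb)
    (f : ℕ → ℤ) (hf : PLb p (FXs n D q) (FSs n D e q) (E ∪ Bd ∪ Bd.image ι) f)
    (hf0 : ∃ B1 ∈ EdI p (E ∪ Bd ∪ Bd.image ι), f B1 + f (p B1) = 0)
    (hfb : ∀ v ∈ E ∪ Bd ∪ Bd.image ι, |f v| ≤ 50 * (D' + 1) ^ 2 * (1000 * (D' + 10) ^ 3 * M))
    (hbal : ∑ i ∈ EdI p (E ∪ Bd ∪ Bd.image ι), (f i + f (p i)) = e * ∑ v ∈ E ∪ Bd ∪ Bd.image ι, f v)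
    (hev : Even (E ∪ Bd ∪ Bd.image ι).card) (hod : Odd (EdI p (E ∪ Bd ∪ Bd.image ι)).card)
    (ha : 1 ≤ a) (hb : 1 ≤ b) (ha1 : a ≤ (FXs n D q).card) (hb1 : b ≤ (FSs n D e q).card)
    (ha2 : (FXs n D q).card ≤ 2 * a) (hb2 : (FSs n D e q).card ≤ 2 * b)
    (hM : (FXs n D q).card + (FSs n D e q).card + E.card + 2 * Bd.card + 100 ≤ M)
    (hMn : 10 ^ 12 * (D' + 10) ^ 6 * M ≤ n) (hMJ : 10 ^ 6 * M ≤ J) :
    ∃ (VL' VS' : Finset ℤ) (Z1 Z2 : List (ℤ × ℤ × ℤ × ℤ)) (L1 L2 : List (ℤ × ℤ)) (C Lc Sc DS CO Fl : Finset ℕ) (g gb : ℕ → ℤ),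
      S0 n D e J a b (10 ^ 6 * (D' + 10) ^ 5 * M) M p ι q E Bd Cl sa sv sw sb f VL' VS' Z1 Z2 L1 L2 C Lc Sc DS CO Fl g gb := by
  classical
  obtain ⟨St, hSt'⟩ : ∃ St, St = E ∪ Bd ∪ Bd.image ι := ⟨_, rfl⟩
  rw [← hSt'] at hf hf0 hfb hbal hev hod
  obtain ⟨P5, hP5⟩ : ∃ P5, P5 = (D' + 10) ^ 5 := ⟨_, rfl⟩
  have hP51 : 100000 ≤ P5 := by
    rw [hP5]
    calc 100000 = 10 ^ 5 := by norm_num
      _ ≤ (D' + 10) ^ 5 := Nat.pow_le_pow_left (by omega) 5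
  have hP56 : P5 ≤ (D' + 10) ^ 6 := by
    rw [hP5]
    exact Nat.pow_le_pow_right (by omega) (by norm_num)
  have hStc : St.card ≤ M := by
    have h1 : St.card ≤ E.card + Bd.card + (Bd.image ι).card := by
      rw [hSt']
      refine (card_union_le _ _).trans ?_
      have := card_union_le E Bd
      omega
    have h2 : (Bd.image ι).card ≤ Bd.card := card_image_le
    omega
  obtain ⟨VL, hVL⟩ : ∃ VL, VL = St.image f := ⟨_, rfl⟩
  obtain ⟨VS, hVS⟩ : ∃ VS, VS = (EdI p St).image fun i => f i + f (p i) := ⟨_, rfl⟩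
  have hVLc : VL.card = St.card := by
    rw [hVL]
    exact card_image_of_injOn hf.inj
  have hVSc : VS.card = (EdI p St).card := by
    rw [hVS]
    exact card_image_of_injOn hf.sinj
  have hVSc' : VS.card ≤ M := by
    rw [hVSc]
    exact (card_filter_le _ _).trans hStc
  have hmemE : ∀ i ∈ EdI p St, i ∈ St ∧ p i ∈ St := by
    intro i hi
    unfold EdI at hi
    rw [mem_filter] at hi
    exact ⟨hi.1, hi.2.2⟩
  have hfb' : ∀ v ∈ St, |f v| ≤ ((50000 * P5 * M : ℕ) : ℤ) := by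
    intro v hv
    refine (hfb v hv).trans ?_
    have h1 : 50 * (D' + 1) ^ 2 * (1000 * (D' + 10) ^ 3 * M) ≤ 50000 * P5 * M := by
      have h2 : (D' + 1) ^ 2 ≤ (D' + 10) ^ 2 := Nat.pow_le_pow_left (by omega) 2
      calc 50 * (D' + 1) ^ 2 * (1000 * (D' + 10) ^ 3 * M) ≤ 50 * (D' + 10) ^ 2 * (1000 * (D' + 10) ^ 3 * M) := by
            gcongr
        _ = 50000 * P5 * M := by
            rw [hP5]
            ring
    exact_mod_cast h1
  have hb1 : (2 * (50000 * P5 * M) : ℕ) ≤ 10 ^ 6 * P5 * M := by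
    calc 2 * (50000 * P5 * M) = 100000 * (P5 * M) := by ring
      _ ≤ 10 ^ 6 * (P5 * M) := Nat.mul_le_mul_right _ (by norm_num)
      _ = 10 ^ 6 * P5 * M := by ring
  have hb1' : (2 : ℤ) * ((50000 * P5 * M : ℕ) : ℤ) ≤ ((10 ^ 6 * P5 * M : ℕ) : ℤ) := by
    exact_mod_cast hb1
  have hnn : (0 : ℤ) ≤ ((50000 * P5 * M : ℕ) : ℤ) := Int.natCast_nonneg _
  have hU : Usd (10 ^ 6 * P5 * M) (FXs n D q) (FSs n D e q) VL VS := by
    refine ⟨?_, ?_, ?_, ?_, ?_, ?_, ?_⟩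
    · intro u hu
      rw [hVL, mem_image] at hu
      obtain ⟨v, hv, rfl⟩ := hu
      exact hf.odd v hv
    · intro u hu
      rw [hVL, mem_image] at hu
      obtain ⟨v, hv, rfl⟩ := hu
      have := hfb' v hv
      linarith
    · intro u hu
      rw [hVL, mem_image] at hu
      obtain ⟨v, hv, rfl⟩ := hu
      exact hf.ux v hv
    · intro s hs
      rw [hVS, mem_image] at hs
      obtain ⟨i, hi, rfl⟩ := hs
      exact (hf.odd _ (hmemE i hi).1).add_odd (hf.odd _ (hmemE i hi).2)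
    · intro s hs
      rw [hVS, mem_image] at hs
      obtain ⟨i, hi, rfl⟩ := hs
      have h1 := hfb' _ (hmemE i hi).1
      have h2 := hfb' _ (hmemE i hi).2
      have h3 := abs_add_le (f i) (f (p i))
      linarith
    · intro s hs h0
      rw [hVS, mem_image] at hs
      obtain ⟨i, hi, rfl⟩ := hs
      exact hf.us i hi h0
    · obtain ⟨B1, hB1, hB2⟩ := hf0
      rw [hVS, mem_image]
      exact ⟨B1, hB1, hB2⟩
  have hbal' : ∑ s ∈ VS, s = e * ∑ u ∈ VL, u := by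
    rw [hVL, hVS, sum_image hf.sinj, sum_image hf.inj]
    exact hbal
  have hM1 : 10 ^ 6 * ((FXs n D q).card + (FSs n D e q).card + VL.card + VS.card + 100) ≤ 10 ^ 6 * P5 * M := by
    rw [mul_assoc]
    refine Nat.mul_le_mul_left _ ?_
    have h1 : 100000 * M ≤ P5 * M := Nat.mul_le_mul_right _ hP51
    omega
  obtain ⟨Z1, Z2, VL', VS', hZ, hVL', hVS', hU', hsL, hsS, -⟩ := demands he hM1 hU (by rw [hVLc]; exact hev)
    (by rw [hVSc]; exact hod) hbal'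
  have hZ' : Z1.length + Z2.length ≤ 40 * M := by omega
  have hcL : VL'.card ≤ 400 * M := by
    have h1 := congrArg Multiset.card hVL'
    rw [Multiset.card_add] at h1
    have h2 := card_newL_p0_15 e Z1 Z2
    have h3 : VL'.card = VL.card + (newL e Z1 Z2).card := h1
    omega
  have hcS : VS'.card ≤ 400 * M := by
    have h1 := congrArg Multiset.card hVS'
    rw [Multiset.card_add] at h1
    have h2 := card_newS_p0_15 e Z1 Z2
    have h3 : VS'.card = VS.card + (newS e Z1 Z2).card := h1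
    omega
  have hUX : (FXs n D q ∪ VL'.image Int.natAbs).card ≤ 401 * M := by
    have h1 := card_union_le (FXs n D q) (VL'.image Int.natAbs)
    have h2 : (VL'.image Int.natAbs).card ≤ VL'.card := card_image_le
    omega
  have hUS : (FSs n D e q ∪ VS'.image Int.natAbs).card ≤ 401 * M := by
    have h1 := card_union_le (FSs n D e q) (VS'.image Int.natAbs)
    have h2 : (VS'.image Int.natAbs).card ≤ VS'.card := card_image_le
    omega
  have hn : 10 ^ 10 * ((FXs n D q ∪ VL'.image Int.natAbs).card + (FSs n D e q ∪ VS'.image Int.natAbs).card + a + b + 1) ≤ n := by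
    refine le_trans ?_ hMn
    have h1 : 100000 * M ≤ (D' + 10) ^ 6 * M := Nat.mul_le_mul_right _ (hP51.trans hP56)
    have h2 : (FXs n D q ∪ VL'.image Int.natAbs).card + (FSs n D e q ∪ VS'.image Int.natAbs).card + a + b + 1 ≤ 100000 * M := by
      omega
    calc _ ≤ 10 ^ 10 * ((D' + 10) ^ 6 * M) := Nat.mul_le_mul_left _ (h2.trans h1)
      _ ≤ 10 ^ 12 * ((D' + 10) ^ 6 * M) := Nat.mul_le_mul_right _ (by norm_num)
      _ = 10 ^ 12 * (D' + 10) ^ 6 * M := by ring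
  obtain ⟨L1, L2, C, Lc, Sc, hlen, hG, hA⟩ := absorber he hn2 (UX := FXs n D q ∪ VL'.image Int.natAbs)
    (US := FSs n D e q ∪ VS'.image Int.natAbs) (FX := FXs n D q) (FS := FSs n D e q) hn ha hb
    subset_union_left subset_union_left (filter_subset _ _)
    (fun x hx => by
      unfold FXs at hx
      rw [mem_filter] at hx
      exact hx.2.1)
    (filter_subset _ _)
    (fun he2 s hs => by
      unfold FSs at hs
      rw [mem_filter] at hs
      have h1 := hs.2.1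
      rw [he2] at h1
      omega) ha2 hb2
  obtain ⟨DS, CO, Fl, g, gb, h1, h2, h3, h4, h5, h6, h7, h8, h9, -, h10, h11, h12, h13, h14⟩ :=
    assign he hT.par (hClQ.trans hT.Qn) hSt Z1 Z2 L1 L2 (by
      have h1 : a + b ≤ M := by omega
      have h2 : 100000 * (a + b) ≤ 100000 * M := Nat.mul_le_mul_left _ h1
      omega)
  refine ⟨VL', VS', Z1, Z2, L1, L2, C, Lc, Sc, DS, CO, Fl, g, gb, ?_⟩
  rw [← hP5]
  exact {
    vl := by rw [← hSt', ← hVL]; exact hVL'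
    vs := by rw [← hSt', ← hVS]; exact hVS'
    us := hU'
    syL := hsL
    syS := hsS
    cvL := hcL
    cvS := hcS
    gd := hG
    abs := hA
    DSs := h1
    COs := h2
    Fls := h3
    d1 := h4
    d2 := h5
    st := h6
    e1 := h7
    e2 := h8
    e3 := by rw [h9]; exact hG.core
    e5 := h10
    e6 := h11
    e7 := h12
    e8 := h13
    ext := h14 }

end Pool.Agent.BD
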