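import Pool.Agent.Helper73.BD.P0
import Pool.Agent.Helper73.BD.BS

/-!
# BD-P1: the labelling state on `E`, `Bd`, `DS`, `CO` and the twins

Proof in words.  `base_state` gives `F0` on `A0 = E ∪ Bd ∪ ι(Bd) ∪ DS ∪ ι(DS)` with `KL0 = ` classes of `VL'`, `KS0 =` classes of `VS' \ 0` (`DS ⊆ Cl`; `Dvs.d2`, `Dvs.aC`).
Then `ext_half` with `A = A0`, `G = CO`, new labels `g` on `CO` (`F0` elsewhere), and `∅` in the role of `Λ`: a neighbour of `v ∈ CO` in `A0 ∩ Q = Bd ∪ DS` does not exist (`Dvs.aC`, `S0.e6`); `EdT p CO ∅ = ∅`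
(`S0.e7`).  The classes of `g` on `CO` are different and form the set `C` (`S0.e3`), which is disjoint from the classes of `VL'` and from `FXs`, `Lc` (`Gd.CU`, `Gd.CL`), and `C ⊆ LC n`.
`KL = KL0 ∪ C`, `KS = KS0`; disjointness: `Usd.lU`, `Usd.sU`, `Gd.LU`, `Gd.SU`.  Bounds: on `DS` the labels are in `VL'`, so `≤ 100 b1`, on `CO` use `Gd.Cb`.
-/

set_option autoImplicit false

namespace Pool.Agent.BD

open Finset Pool.Agent.SEM

private theorem mem_EdT42 {p : ℕ → ℕ} {G : Finset ℕ} {i : ℕ} (h : i ∈ EdT p G ∅) :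
    i ∈ G ∧ 0 < i ∧ p i ∈ G := by
  unfold EdT EdI at h
  rw [mem_filter, mem_filter, union_empty] at h
  exact h.1

private theorem Ad_symm42 {p : ℕ → ℕ} {v w : ℕ} (h : Ad p v w) : Ad p w v := Or.symm h

theorem phase01 {n D K e J a b b1 M : ℕ} {p ι q : ℕ → ℕ} {E Bd CN Cl Rs Mn T : Finset ℕ} {P En : ℕ → Finset ℕ} {sa sv sw sb : ℕ → ℕ}
    {f : ℕ → ℤ} {VL' VS' : Finset ℤ} {Z1 Z2 : List (ℤ × ℤ × ℤ × ℤ)} {L1 L2 : List (ℤ × ℤ)} {C Lc Sc DS CO Fl : Finset ℕ} {g gb : ℕ → ℤ}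
    (hn2 : Even n) (hT : Twin n D p ι E Bd (QQ Bd CN Cl Rs Mn)) (hdv : Dvs n D K p Bd CN Cl Rs Mn T P En)
    (hf : PLb p (FXs n D q) (FSs n D e q) (E ∪ Bd ∪ Bd.image ι) f) (hb1 : 1000 * b1 + 10 ≤ n)
    (h : S0 n D e J a b b1 M p ι q E Bd Cl sa sv sw sb f VL' VS' Z1 Z2 L1 L2 C Lc Sc DS CO Fl g gb) :
    ∃ (F : ℕ → ℤ) (KL KS : Finset ℕ), (∀ v ∈ E ∪ Bd ∪ Bd.image ι, F v = f v) ∧ (∀ v ∈ DS, F v = g v ∧ F (ι v) = gb v) ∧
      (∀ v ∈ CO, F v = g v ∧ F (ι v) = -g v) ∧ LS n p (E ∪ (Bd ∪ DS ∪ CO) ∪ (Bd ∪ DS ∪ CO).image ι) F KL KS ∧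
      Disjoint KL (FXs n D q ∪ Lc) ∧ Disjoint KS (FSs n D e q ∪ Sc) ∧ (∀ v ∈ DS ∪ CO, 10 * |F v| ≤ 9 * n) := by
  set Q := QQ Bd CN Cl Rs Mn with hQ
  have ClQ : ∀ v ∈ Cl, v ∈ Q := by
    intro v hv
    rw [hQ]
    unfold QQ
    simp only [mem_union]
    exact Or.inl (Or.inl (Or.inr hv))
  have DSQ : ∀ v ∈ DS, v ∈ Q := fun v hv => ClQ v (h.DSs hv)
  have COQ : ∀ v ∈ CO, v ∈ Q := fun v hv => ClQ v (h.COs hv)
  have BdQ : ∀ v ∈ Bd, v ∈ Q := fun v hv => hT.BdQ hv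
  have EQ : ∀ v ∈ E, v ∉ Q := fun v hv => Finset.disjoint_left.1 hT.EQ hv
  have BdCl : ∀ v ∈ Bd, v ∉ Cl := fun v hv =>
    Finset.disjoint_left.1 hdv.d2 (mem_union_left _ hv)
  have BdCN : ∀ v ∈ Bd, v ∉ CN := fun v hv => Finset.disjoint_left.1 hdv.d1 hv
  have BdDS : ∀ v ∈ Bd, v ∉ DS := fun v hv hv' => BdCl v hv (h.DSs hv')
  have BdCO : ∀ v ∈ Bd, v ∉ CO := fun v hv hv' => BdCl v hv (h.COs hv')
  have DSCO : ∀ v ∈ DS, v ∉ CO := fun v hv => Finset.disjoint_left.1 h.d1 hv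
  have imQ : ∀ {S : Finset ℕ}, (∀ v ∈ S, v ∈ Q) → ∀ v ∈ Q, v ∉ S.image ι := by
    intro S hS v hv hv'
    rw [mem_image] at hv'
    obtain ⟨w, hw, rfl⟩ := hv'
    exact (hT.ιn w (hS w hw)).2.1 hv
  have imE : ∀ {S : Finset ℕ}, (∀ v ∈ S, v ∈ Q) → ∀ v ∈ E, v ∉ S.image ι := by
    intro S hS v hv hv'
    rw [mem_image] at hv'
    obtain ⟨w, hw, rfl⟩ := hv'
    exact (hT.ιn w (hS w hw)).2.2 hv
  have imI : ∀ {S : Finset ℕ}, (∀ v ∈ S, v ∈ Q) → ∀ v ∈ Q, (ι v ∈ S.image ι ↔ v ∈ S) := by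
    intro S hS v hv
    rw [mem_image]
    constructor
    · rintro ⟨w, hw, hwv⟩
      rw [← hT.ιinj (mem_coe.2 (hS w hw)) (mem_coe.2 hv) hwv]
      exact hw
    · intro hv'
      exact ⟨v, hv', rfl⟩
  have nAdB : ∀ v ∈ Cl, ∀ w ∈ Bd, ¬ Ad p v w := by
    intro v hv w hw ha
    have := hdv.aC v hv w (BdQ w hw) ha
    rw [mem_union] at this
    rcases this with h1 | h1
    · exact BdCl w hw h1
    · exact BdCN w hw h1
  obtain ⟨F0, f1, f2, f3, f4⟩ := base_state (e := e) (b' := 100 * b1) hT (DS := DS)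
    (fun v hv => DSQ v hv) (Finset.disjoint_right.2 BdDS) (fun v hv w hw => nAdB v (h.DSs hv) w hw)
    hf rfl rfl h.vl h.vs h.us (by omega) h.syL h.syS h.e1 h.e2
  set A0 := E ∪ Bd ∪ Bd.image ι ∪ DS ∪ DS.image ι with hA0
  have mA0 : ∀ v, v ∈ A0 ↔ v ∈ E ∨ v ∈ Bd ∨ v ∈ Bd.image ι ∨ v ∈ DS ∨ v ∈ DS.image ι := by
    intro v
    rw [hA0]
    simp only [mem_union, or_assoc]
  have mA0Q : ∀ v ∈ Q, (v ∈ A0 ↔ v ∈ Bd ∨ v ∈ DS) := by
    intro v hv
    rw [mA0]
    constructor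
    · rintro (h1 | h1 | h1 | h1 | h1)
      · exact absurd hv (EQ v h1)
      · exact Or.inl h1
      · exact absurd h1 (imQ BdQ v hv)
      · exact Or.inr h1
      · exact absurd h1 (imQ DSQ v hv)
    · rintro (h1 | h1)
      · exact Or.inr (Or.inl h1)
      · exact Or.inr (Or.inr (Or.inr (Or.inl h1)))
  have eC : ∀ v ∈ CO, (g v).natAbs ∈ C := by
    intro v hv
    rw [← Finset.mem_val, ← h.e3]
    exact Multiset.mem_map_of_mem _ hv
  have eCi : Set.InjOn (fun v => (g v).natAbs) CO := by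
    intro v hv w hw hvw
    have hnd : (CO.val.map fun v => (g v).natAbs).Nodup := by
      rw [h.e3]
      exact C.nodup
    exact Multiset.inj_on_of_nodup_map hnd v hv w hw hvw
  have eCim : (CO.image fun v => (g v).natAbs) ⊆ C := by
    intro x hx
    rw [mem_image] at hx
    obtain ⟨v, hv, rfl⟩ := hx
    exact eC v hv
  set g' : ℕ → ℤ := fun v => if v ∈ CO then g v else F0 v with hg'
  have g'C : ∀ v ∈ CO, g' v = g v := fun v hv => by rw [hg']; simp [hv]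
  have CU := Finset.disjoint_left.1 h.gd.CU
  have LU := Finset.disjoint_left.1 h.gd.LU
  have SU := Finset.disjoint_left.1 h.gd.SU
  have CL := Finset.disjoint_left.1 h.gd.CL
  obtain ⟨F, k1, k2, k3⟩ := ext_half hT (A := A0) (G := CO) (F := F0) (g := g') f4
    (by
      intro v hv
      rw [mA0] at hv
      rcases hv with h1 | h1 | h1 | h1 | h1
      · exact hT.En h1
      · exact hT.Qn (BdQ v h1)
      · rw [mem_image] at h1
        obtain ⟨w, hw, rfl⟩ := h1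
        exact mem_range.2 (hT.ιn w (BdQ w hw)).1
      · exact hT.Qn (DSQ v h1)
      · rw [mem_image] at h1
        obtain ⟨w, hw, rfl⟩ := h1
        exact mem_range.2 (hT.ιn w (DSQ w hw)).1)
    (by
      intro w hw
      rw [mA0Q w hw, mA0]
      constructor
      · rintro (h1 | h1)
        · exact Or.inr (Or.inr (Or.inl (mem_image_of_mem _ h1)))
        · exact Or.inr (Or.inr (Or.inr (Or.inr (mem_image_of_mem _ h1))))
      · rintro (h1 | h1 | h1 | h1 | h1)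
        · exact absurd h1 (hT.ιn w hw).2.2
        · exact absurd (BdQ _ h1) (hT.ιn w hw).2.1
        · exact Or.inl ((imI BdQ w hw).1 h1)
        · exact absurd (DSQ _ h1) (hT.ιn w hw).2.1
        · exact Or.inr ((imI DSQ w hw).1 h1))
    (fun v hv => COQ v hv) (fun v hv hv' => BdCO v hv' hv)
    (by
      intro v hv hv'
      rw [mA0Q v (COQ v hv)] at hv'
      rcases hv' with h1 | h1
      · exact BdCO v h1 hv
      · exact DSCO v h1 hv)
    (fun v hv => by rw [hg']; simp [hv])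
    (fun v hv => by rw [g'C v hv]; exact h.gd.Cs (eC v hv))
    (fun v hv hv' => by
      rw [g'C v hv] at hv'
      exact CU (eC v hv) (mem_union_right _ hv'))
    (by
      intro v hv w hw hvw
      apply eCi hv hw
      simp only at hvw ⊢
      rw [g'C v hv, g'C w hw] at hvw
      exact hvw)
    ∅ (fun v hv => absurd hv (notMem_empty v))
    (by
      intro v hv w hw hwQ ha
      exfalso
      rw [mA0Q w hwQ] at hw
      rcases hw with h1 | h1
      · exact nAdB v (h.COs hv) w h1 ha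
      · exact h.e6 w h1 v (mem_union_left _ hv) (Ad_symm42 ha))
    (by
      intro i hi
      exfalso
      obtain ⟨h1, h2, h3⟩ := mem_EdT42 hi
      exact h.e7 i h1 (p i) h3 (Or.inl ⟨h2, rfl⟩))
    (by
      intro i hi
      exfalso
      obtain ⟨h1, h2, h3⟩ := mem_EdT42 (mem_coe.1 hi)
      exact h.e7 i h1 (p i) h3 (Or.inl ⟨h2, rfl⟩))
  have hE0 : EdT p CO ∅ = ∅ := by
    rw [Finset.eq_empty_iff_forall_notMem]
    intro i hi
    obtain ⟨h1, h2, h3⟩ := mem_EdT42 hi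
    exact h.e7 i h1 (p i) h3 (Or.inl ⟨h2, rfl⟩)
  have hset : E ∪ (Bd ∪ DS ∪ CO) ∪ (Bd ∪ DS ∪ CO).image ι = A0 ∪ CO ∪ CO.image ι := by
    ext v
    rw [image_union, image_union]
    simp only [mem_union, mA0]
    constructor
    · rintro ((h1 | (h1 | h1) | h1) | (h1 | h1) | h1)
      · exact Or.inl (Or.inl (Or.inl h1))
      · exact Or.inl (Or.inl (Or.inr (Or.inl h1)))
      · exact Or.inl (Or.inl (Or.inr (Or.inr (Or.inr (Or.inl h1)))))
      · exact Or.inl (Or.inr h1)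
      · exact Or.inl (Or.inl (Or.inr (Or.inr (Or.inl h1))))
      · exact Or.inl (Or.inl (Or.inr (Or.inr (Or.inr (Or.inr h1)))))
      · exact Or.inr h1
    · rintro (((h1 | h1 | h1 | h1 | h1) | h1) | h1)
      · exact Or.inl (Or.inl h1)
      · exact Or.inl (Or.inr (Or.inl (Or.inl h1)))
      · exact Or.inr (Or.inl (Or.inl h1))
      · exact Or.inl (Or.inr (Or.inl (Or.inr h1)))
      · exact Or.inr (Or.inl (Or.inr h1))
      · exact Or.inl (Or.inr (Or.inr h1))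
      · exact Or.inr (Or.inr h1)
  refine ⟨F, VL'.image Int.natAbs ∪ CO.image (fun v => (g' v).natAbs),
    (VS'.erase 0).image Int.natAbs ∪ (EdT p CO ∅).image (fun i => (g' i + g' (p i)).natAbs),
    ?_, ?_, ?_, ?_, ?_, ?_, ?_⟩
  rotate_left 3
  · rw [hset]
    exact k3
  · rw [Finset.disjoint_left]
    intro x hx hx'
    rw [mem_union] at hx hx'
    rcases hx with hx | hx
    · rw [mem_image] at hx
      obtain ⟨u, hu, rfl⟩ := hx
      rcases hx' with hx' | hx'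
      · exact h.us.lU u hu hx'
      · exact LU hx' (mem_union_right _ (mem_image_of_mem _ hu))
    · rw [mem_image] at hx
      obtain ⟨v, hv, rfl⟩ := hx
      rw [g'C v hv] at hx'
      rcases hx' with hx' | hx'
      · exact CU (eC v hv) (mem_union_left _ hx')
      · exact CL (eC v hv) hx'
  · rw [Finset.disjoint_left, hE0, image_empty, union_empty]
    intro x hx hx'
    rw [mem_image] at hx
    obtain ⟨s, hs, rfl⟩ := hx
    rw [mem_erase] at hs
    rw [mem_union] at hx'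
    rcases hx' with hx' | hx'
    · exact h.us.sU s hs.2 hs.1 hx'
    · exact SU hx' (mem_union_right _ (mem_image_of_mem _ hs.2))
  · intro v hv
    rw [mem_union] at hv
    rcases hv with hv | hv
    · have e1 : F v = F0 v := k1 v (DSCO v hv) (imQ COQ v (DSQ v hv))
      rw [e1]
      have h1 := h.us.lb _ (f3 v (by
        rw [mA0]
        exact Or.inr (Or.inr (Or.inr (Or.inl hv)))))
      push_cast at h1
      have h2 : (1000 : ℤ) * b1 + 10 ≤ n := by exact_mod_cast hb1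
      linarith
    · rw [(k2 v hv).1, g'C v hv]
      have h1 := h.gd.Cb _ (eC v hv)
      rw [Int.abs_eq_natAbs]
      exact_mod_cast h1
  · intro v hv
    rw [← f1 v hv]
    simp only [mem_union] at hv
    rcases hv with (h1 | h1) | h1
    · exact k1 v (fun h2 => EQ v h1 (COQ v h2)) (imE COQ v h1)
    · exact k1 v (BdCO v h1) (imQ COQ v (BdQ v h1))
    · rw [mem_image] at h1
      obtain ⟨w, hw, rfl⟩ := h1
      refine k1 _ (fun h2 => (hT.ιn w (BdQ w hw)).2.1 (COQ _ h2)) (fun h2 => ?_)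
      exact BdCO w hw ((imI COQ w (BdQ w hw)).1 h2)
  · intro v hv
    rw [← (f2 v hv).1, ← (f2 v hv).2]
    refine ⟨k1 v (DSCO v hv) (imQ COQ v (DSQ v hv)), ?_⟩
    refine k1 _ (fun h2 => (hT.ιn v (DSQ v hv)).2.1 (COQ _ h2)) (fun h2 => ?_)
    exact DSCO v hv ((imI COQ v (DSQ v hv)).1 h2)
  · intro v hv
    rw [← g'C v hv]
    exact k2 v hv

end Pool.Agent.BD
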