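import Pool.Agent.Helper73.BD.Defs
import Pool.Agent.Helper73.SQ.CN

/-!
# BD-PA: the Markov chain labelling of a tree

Proof in words.  Induction on the tree as in `SQ.chain97` (file SQ/CN.lean: the same with natural labels; copy it): remove the largest vertex `v ≠ τ` (not the parent of
another one), `Ω = Ω' × pm X`, `wt (ω,u) = wt' ω * k (Φ' ω (p v)) u`, `Φ = Function.update (Φ' ω) v u`; one vertex: the uniform law on `pm X` (`|pm X| = 2|X|`, `0 ∉ X`).
`vtx`: by induction the label of every vertex is uniform on `pm X` (`EK.col`).  `edg`: `Pr(φ v + φ (p v) = t) = ∑_u (1/(2|X|)) k u (t-u) = (1/(2|X|)) |X|/|S|` for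
`t ∈ pm S` (`EK.dia`), `0` otherwise (`EK.supp`).  `joint`: every new vertex gives a factor `≤ B/n`; the first one `1/(2|X|) ≤ 2/n`.
(For the induction carry exact equalities: `L.Ex (fun φ => G (φ v)) = ∑_{u ∈ pm X} G u / (2|X|)` and
`L.Ex (fun φ => G (φ (p v)) (φ v)) = ∑_u ∑_w k u w G u w / (2|X|)`.)
-/

set_option autoImplicit false

namespace Pool.Agent.BD

open Finset Pool.Agent.SEM

theorem FZ.Ex_mono97 (L : FZ) (hn : ∀ ω, 0 ≤ L.wt ω) {F G : (ℕ → ℤ) → ℝ}
    (h : ∀ ω, L.wt ω ≠ 0 → F (L.Φ ω) ≤ G (L.Φ ω)) : L.Ex F ≤ L.Ex G := by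
  unfold FZ.Ex
  refine Finset.sum_le_sum fun ω _ => ?_
  rcases eq_or_ne (L.wt ω) 0 with h0 | h0
  · rw [h0, zero_mul, zero_mul]
  · exact mul_le_mul_of_nonneg_left (h ω h0) (hn ω)

theorem FZ.Ex_congr97 (L : FZ) {F G : (ℕ → ℤ) → ℝ}
    (h : ∀ ω, L.wt ω ≠ 0 → F (L.Φ ω) = G (L.Φ ω)) : L.Ex F = L.Ex G := by
  unfold FZ.Ex
  refine Finset.sum_congr rfl fun ω _ => ?_
  rcases eq_or_ne (L.wt ω) 0 with h0 | h0
  · rw [h0, zero_mul, zero_mul]
  · rw [h ω h0]

theorem FZ.Ex_mul97 (L : FZ) (c : ℝ) (F : (ℕ → ℤ) → ℝ) : L.Ex (fun φ => F φ * c) = L.Ex F * c := by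
  unfold FZ.Ex
  rw [Finset.sum_mul]
  exact Finset.sum_congr rfl fun ω _ => by ring

/-- one more vertex -/
noncomputable def FZ.ext97 (L : FZ) (a q : ℕ) (X : Finset ℤ) (k : ℤ → ℤ → ℝ) : FZ where
  Ω := L.Ω × X
  fin := letI := L.fin; inferInstance
  wt := fun o => L.wt o.1 * k (L.Φ o.1 q) o.2
  Φ := fun o => Function.update (L.Φ o.1) a o.2

theorem FZ.ext_Ex97 (L : FZ) (a q : ℕ) (X : Finset ℤ) (k : ℤ → ℤ → ℝ) (F : (ℕ → ℤ) → ℝ) :
    (L.ext97 a q X k).Ex F = L.Ex (fun φ => ∑ y ∈ X, k (φ q) y * F (Function.update φ a y)) := by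
  unfold FZ.Ex FZ.ext97
  simp only
  let := L.fin
  rw [Fintype.sum_prod_type]
  refine Finset.sum_congr rfl fun ω _ => ?_
  rw [Finset.mul_sum, ← Finset.sum_coe_sort X]
  exact Finset.sum_congr rfl fun y _ => by ring

/-- one vertex -/
noncomputable def FZ97 (τ : ℕ) (Y : Finset ℤ) (r : ℝ) : FZ where
  Ω := Y
  fin := inferInstance
  wt := fun _ => r
  Φ := fun y => Function.update (fun _ => 0) τ y

theorem FZ97_Ex (τ : ℕ) (Y : Finset ℤ) (r : ℝ) (F : (ℕ → ℤ) → ℝ) :
    (FZ97 τ Y r).Ex F = ∑ y ∈ Y, r * F (Function.update (fun _ => 0) τ y) := by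
  unfold FZ.Ex FZ97
  exact Finset.sum_coe_sort Y (fun y => r * F (Function.update (fun _ => 0) τ y))

/-- the claims of the induction -/
structure CZ97 (p : ℕ → ℕ) (Q : Finset ℕ) (Y : Finset ℤ) (τ : ℕ) (r c : ℝ)
    (k : ℤ → ℤ → ℝ) (L : FZ) : Prop where
  nn : ∀ ω, 0 ≤ L.wt ω
  one : L.Ex (fun _ => 1) = 1
  val : ∀ ω, L.wt ω ≠ 0 → (∀ v ∈ Q, L.Φ ω v ∈ Y) ∧
        ∀ v ∈ Q, v ≠ τ → k (L.Φ ω (p v)) (L.Φ ω v) ≠ 0
  vtx : ∀ v ∈ Q, ∀ G : ℤ → ℝ, L.Ex (fun φ => G (φ v)) = ∑ u ∈ Y, r * G u
  edg : ∀ v ∈ Q, v ≠ τ → ∀ G : ℤ → ℤ → ℝ, L.Ex (fun φ => G (φ (p v)) (φ v)) =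
        ∑ u ∈ Y, r * ∑ w ∈ Y, k u w * G u w
  joint : ∀ A ⊆ Q, ∀ x : ℕ → ℤ, L.Pr (fun φ => ∀ v ∈ A, φ v = x v) ≤ c ^ A.card

theorem chainZ97 (p : ℕ → ℕ) (Y : Finset ℤ) (τ : ℕ) (r c : ℝ) (k : ℤ → ℤ → ℝ)
    (hr0 : 0 ≤ r) (hr1 : ∑ _x ∈ Y, r = 1) (hrc : r ≤ c)
    (hk0 : ∀ x y, 0 ≤ k x y) (hk1 : ∀ x ∈ Y, ∑ y ∈ Y, k x y = 1)
    (hk2 : ∀ y ∈ Y, ∑ x ∈ Y, k x y = 1) (hkc : ∀ x y, k x y ≤ c) (Q : Finset ℕ) :
    τ ∈ Q → (∀ v ∈ Q, v ≠ τ → p v ∈ Q ∧ p v < v) →
    ∃ L : FZ, CZ97 p Q Y τ r c k L := by
  have hB0 : 0 ≤ c := hr0.trans hrc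
  induction Q using Finset.induction_on_max with
  | empty => intro h; exact absurd h (Finset.notMem_empty τ)
  | insert a Q hmax ih =>
    intro hτ hp
    have haQ : a ∉ Q := fun h => lt_irrefl _ (hmax a h)
    rcases Finset.eq_empty_or_nonempty Q with hQe | hQne
    · -- one vertex
      subst hQe
      have haτ : τ = a := by simpa using hτ
      subst haτ
      refine ⟨FZ97 τ Y r, ⟨fun y => hr0, ?_, ?_, ?_, ?_, ?_⟩⟩
      · rw [FZ97_Ex]
        simpa using hr1
      · intro y hy
        refine ⟨?_, ?_⟩
        · intro v hv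
          have hvτ : v = τ := by simpa using hv
          subst hvτ
          change Function.update (fun _ => (0 : ℤ)) v _ v ∈ Y
          rw [Function.update_self]
          exact y.2
        · intro v hv hvτ
          exact absurd (by simpa using hv) hvτ
      · intro v hv G
        have hvτ : v = τ := by simpa using hv
        subst hvτ
        rw [FZ97_Ex]
        refine Finset.sum_congr rfl fun y _ => ?_
        rw [Function.update_self]
      · intro v hv hvτ
        exact absurd (by simpa using hv) hvτ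
      · intro A hA x
        rcases Finset.eq_empty_or_nonempty A with h | h
        · subst h
          unfold FZ.Pr
          rw [FZ97_Ex]
          have hr2 : (Y.card : ℝ) * r = 1 := by
            rw [← hr1, Finset.sum_const, nsmul_eq_mul]
          simp [hr2]
        · have hAτ : A = {τ} := by
            refine Finset.Subset.antisymm (by simpa using hA) ?_
            obtain ⟨v, hv⟩ := h
            have : v = τ := by simpa using hA hv
            rw [this] at hv
            simpa using hv
          subst hAτ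
          unfold FZ.Pr
          rw [FZ97_Ex, Finset.card_singleton, pow_one]
          have h1 : ∀ y ∈ Y, r * (@ite ℝ (∀ v ∈ ({τ} : Finset ℕ), Function.update (fun _ => (0 : ℤ)) τ y v = x v)
              (Classical.propDecidable _) 1 0) ≤ if y = x τ then c else 0 := by
            intro y _
            by_cases hc : ∀ v ∈ ({τ} : Finset ℕ), Function.update (fun _ => (0 : ℤ)) τ y v = x v
            · have hy : y = x τ := by
                have := hc τ (Finset.mem_singleton_self τ)
                rwa [Function.update_self] at this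
              rw [if_pos hc, if_pos hy, mul_one]
              exact hrc
            · rw [if_neg hc, mul_zero]
              split_ifs
              · exact hB0
              · exact le_rfl
          refine (Finset.sum_le_sum h1).trans ?_
          rw [Finset.sum_ite_eq']
          split_ifs
          · exact le_rfl
          · exact hB0
    · -- the vertex `a` is not the top
      have haτ : a ≠ τ := by
        intro h
        subst h
        have hm := Finset.min'_mem Q hQne
        have h1 := hp _ (Finset.mem_insert_of_mem hm) (hmax _ hm).ne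
        have h2 : p (Q.min' hQne) ∈ Q := by
          rcases Finset.mem_insert.mp h1.1 with h | h
          · have := hmax _ hm
            omega
          · exact h
        have h3 := Finset.min'_le Q _ h2
        omega
      have hτQ : τ ∈ Q := by
        rcases Finset.mem_insert.mp hτ with h | h
        · exact absurd h.symm haτ
        · exact h
      have hpQ : ∀ v ∈ Q, v ≠ τ → p v ∈ Q ∧ p v < v := by
        intro v hv hvτ
        obtain ⟨h1, h2⟩ := hp v (Finset.mem_insert_of_mem hv) hvτ
        refine ⟨?_, h2⟩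
        rcases Finset.mem_insert.mp h1 with h | h
        · have := hmax v hv
          omega
        · exact h
      obtain ⟨hpa, hpa'⟩ : p a ∈ Q ∧ p a < a := by
        obtain ⟨h1, h2⟩ := hp a (Finset.mem_insert_self a Q) haτ
        refine ⟨?_, h2⟩
        rcases Finset.mem_insert.mp h1 with h | h
        · omega
        · exact h
      obtain ⟨L, hL⟩ := ih hτQ hpQ
      have hva : ∀ v ∈ Q, v ≠ a := fun v hv => (hmax v hv).ne
      have hpva : ∀ v ∈ Q, v ≠ τ → p v ≠ a := fun v hv hvτ =>
        ((hpQ v hv hvτ).2.trans (hmax v hv)).ne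
      have hqa : p a ≠ a := hpa'.ne
      have hq : ∀ ω, L.wt ω ≠ 0 → L.Φ ω (p a) ∈ Y := fun ω hω => (hL.val ω hω).1 _ hpa
      have hk1' : ∀ ω, L.wt ω ≠ 0 → ∑ y ∈ Y, k (L.Φ ω (p a)) y = 1 := fun ω hω =>
        hk1 _ (hq ω hω)
      -- expectation of functions not involving `a`
      have hold : ∀ F : (ℕ → ℤ) → ℝ, (∀ φ y, F (Function.update φ a y) = F φ) →
          (L.ext97 a (p a) Y k).Ex F = L.Ex F := by
        intro F hF
        rw [FZ.ext_Ex97]
        refine L.Ex_congr97 fun ω hω => ?_
        refine (Finset.sum_congr rfl fun y _ => by rw [hF]).trans ?_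
        rw [← Finset.sum_mul, hk1' ω hω, one_mul]
      have hwt : ∀ o, (L.ext97 a (p a) Y k).wt o ≠ 0 →
          L.wt o.1 ≠ 0 ∧ k (L.Φ o.1 (p a)) o.2 ≠ 0 := by
        intro o ho
        constructor
        · intro h
          exact ho (by change L.wt o.1 * _ = 0; rw [h, zero_mul])
        · intro h
          exact ho (by change L.wt o.1 * k (L.Φ o.1 (p a)) o.2 = 0; rw [h, mul_zero])
      have hedge : ∀ G : ℤ → ℤ → ℝ, (L.ext97 a (p a) Y k).Ex (fun φ => G (φ (p a)) (φ a)) =
          ∑ u ∈ Y, r * ∑ w ∈ Y, k u w * G u w := by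
        intro G
        rw [FZ.ext_Ex97, ← hL.vtx (p a) hpa (fun u => ∑ w ∈ Y, k u w * G u w)]
        refine L.Ex_congr97 fun ω _ => ?_
        refine Finset.sum_congr rfl fun y _ => ?_
        rw [Function.update_self, Function.update_of_ne hqa]
      refine ⟨L.ext97 a (p a) Y k, ⟨?_, ?_, ?_, ?_, ?_, ?_⟩⟩
      · rintro ⟨ω, y⟩
        exact mul_nonneg (hL.nn ω) (hk0 _ _)
      · rw [hold _ fun _ _ => rfl]
        exact hL.one
      · intro o ho
        obtain ⟨h1, h2⟩ := hwt o ho
        obtain ⟨h3, h5⟩ := hL.val o.1 h1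
        refine ⟨?_, ?_⟩
        · intro v hv
          change Function.update (L.Φ o.1) a o.2 v ∈ Y
          rcases Finset.mem_insert.mp hv with h | h
          · rw [h, Function.update_self]
            exact o.2.2
          · rw [Function.update_of_ne (hva v h)]
            exact h3 v h
        · intro v hv hvτ
          change k (Function.update (L.Φ o.1) a o.2 (p v)) (Function.update (L.Φ o.1) a o.2 v) ≠ 0
          rcases Finset.mem_insert.mp hv with h | h
          · subst h
            rw [Function.update_self, Function.update_of_ne hqa]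
            exact h2
          · rw [Function.update_of_ne (hva v h), Function.update_of_ne (hpva v h hvτ)]
            exact h5 v h hvτ
      · intro v hv G
        rcases Finset.mem_insert.mp hv with h | h
        · subst h
          rw [hedge (fun _ w => G w)]
          have e1 : ∀ u ∈ Y, r * ∑ w ∈ Y, k u w * G w = ∑ w ∈ Y, r * (k u w * G w) := by
            intro u _
            rw [Finset.mul_sum]
          rw [Finset.sum_congr rfl e1, Finset.sum_comm]
          refine Finset.sum_congr rfl fun w hw => ?_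
          rw [← Finset.mul_sum, ← Finset.sum_mul, hk2 w hw, one_mul]
        · rw [hold (fun φ => G (φ v)) (fun φ y => by rw [Function.update_of_ne (hva v h)])]
          exact hL.vtx v h G
      · intro v hv hvτ G
        rcases Finset.mem_insert.mp hv with h | h
        · subst h
          exact hedge G
        · rw [hold (fun φ => G (φ (p v)) (φ v)) (fun φ y => by
              rw [Function.update_of_ne (hva v h), Function.update_of_ne (hpva v h hvτ)])]
          exact hL.edg v h hvτ G
      · intro A hA x
        by_cases haA : a ∈ A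
        · set A' := A.erase a with hA'
          have hA'Q : A' ⊆ Q := by
            intro v hv
            have h1 := Finset.mem_of_mem_erase hv
            rcases Finset.mem_insert.mp (hA h1) with h | h
            · exact absurd h (Finset.ne_of_mem_erase hv)
            · exact h
          have hcard : A.card = A'.card + 1 := (Finset.card_erase_add_one haA).symm
          have h1 := hL.joint A' hA'Q x
          have h2 : (L.ext97 a (p a) Y k).Pr (fun φ => ∀ v ∈ A, φ v = x v) ≤
              L.Pr (fun φ => ∀ v ∈ A', φ v = x v) * c := by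
            unfold FZ.Pr
            rw [FZ.ext_Ex97, ← FZ.Ex_mul97]
            refine L.Ex_mono97 hL.nn fun ω hω => ?_
            have h3 : ∀ y ∈ Y, k (L.Φ ω (p a)) y * (@ite ℝ (∀ v ∈ A, Function.update (L.Φ ω) a y v = x v) (Classical.propDecidable _) 1 0) ≤
                if y = x a then (@ite ℝ (∀ v ∈ A', L.Φ ω v = x v) (Classical.propDecidable _) 1 0) * c else 0 := by
              intro y _
              by_cases hc : ∀ v ∈ A, Function.update (L.Φ ω) a y v = x v
              · have hy : y = x a := by
                  have := hc a haA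
                  rwa [Function.update_self] at this
                have hc' : ∀ v ∈ A', L.Φ ω v = x v := by
                  intro v hv
                  have := hc v (Finset.mem_of_mem_erase hv)
                  rwa [Function.update_of_ne (Finset.ne_of_mem_erase hv)] at this
                rw [if_pos hc, if_pos hy, if_pos hc', mul_one, one_mul]
                exact hkc _ _
              · rw [if_neg hc, mul_zero]
                split_ifs
                · rw [one_mul]; exact hB0
                · rw [zero_mul]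
                · exact le_rfl
            refine (Finset.sum_le_sum h3).trans ?_
            rw [Finset.sum_ite_eq']
            split_ifs
            · exact le_rfl
            · exact le_rfl
            · rw [one_mul]; exact hB0
            · rw [zero_mul]
          rw [hcard, pow_succ]
          exact h2.trans (mul_le_mul_of_nonneg_right h1 hB0)
        · have hAQ : A ⊆ Q := by
            intro v hv
            rcases Finset.mem_insert.mp (hA hv) with h | h
            · exact absurd (h ▸ hv) haA
            · exact h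
          unfold FZ.Pr
          rw [hold]
          · exact hL.joint A hAQ x
          · intro φ y
            have he : (∀ v ∈ A, Function.update φ a y v = x v) ↔ ∀ v ∈ A, φ v = x v := by
              refine forall₂_congr fun v hv => ?_
              rw [Function.update_of_ne (hva v (hAQ hv))]
            by_cases h : ∀ v ∈ A, φ v = x v
            · rw [if_pos h, if_pos (he.mpr h)]
            · rw [if_neg h, if_neg (fun h' => h (he.mp h'))]

theorem card_pm97 {C : Finset ℕ} (h0 : 0 ∉ C) : (pm C).card = 2 * C.card := by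
  unfold pm
  rw [Finset.card_union_of_disjoint, Finset.card_image_of_injective _ Nat.cast_injective,
    Finset.card_image_of_injective]
  · omega
  · intro a b hab
    simpa using hab
  · rw [Finset.disjoint_left]
    intro u hu hu'
    obtain ⟨x, hx, rfl⟩ := Finset.mem_image.mp hu
    obtain ⟨y, hy, hxy⟩ := Finset.mem_image.mp hu'
    have hx0 : x ≠ 0 := fun h => h0 (h ▸ hx)
    omega

theorem law {n : ℕ} {X S : Finset ℕ} {B : ℝ} {k : ℤ → ℤ → ℝ} (hk : EK n X S B k) (hX0 : X ⊆ LC n)
    (hS0 : S ⊆ SC n) (hn : 0 < n) (hX : n ≤ 4 * X.card) (p : ℕ → ℕ) (P : Finset ℕ) (τ : ℕ) (hP : Tr p P τ) :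
    ∃ L : FZ, UL n X S p P τ (max B 2) L := by
  have h0X : 0 ∉ X := by
    intro h
    have := (mem_LC.mp (hX0 h)).1.1
    omega
  have hn' : (0 : ℝ) < n := by exact_mod_cast hn
  have hXc : 0 < X.card := by omega
  have hXc' : (0 : ℝ) < X.card := by exact_mod_cast hXc
  have hX' : (n : ℝ) ≤ 4 * X.card := by exact_mod_cast hX
  have hr0 : (0 : ℝ) ≤ 1 / (2 * X.card) := by positivity
  have hr1 : ∑ _x ∈ pm X, (1 : ℝ) / (2 * X.card) = 1 := by
    rw [Finset.sum_const, nsmul_eq_mul, card_pm97 h0X]
    push_cast
    field_simp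
  have hrc : (1 : ℝ) / (2 * X.card) ≤ max B 2 / n := by
    have h1 : (1 : ℝ) / (2 * X.card) ≤ 2 / n := by
      rw [div_le_div_iff₀ (by positivity) hn']
      linarith
    exact h1.trans (div_le_div_of_nonneg_right (le_max_right _ _) hn'.le)
  have hkc : ∀ x y, k x y ≤ max B 2 / n := fun x y =>
    (hk.up x y).trans (div_le_div_of_nonneg_right (le_max_left _ _) hn'.le)
  obtain ⟨L, hL⟩ := chainZ97 p (pm X) τ _ _ k hr0 hr1 hrc hk.nn hk.row hk.col hkc P hP.root hP.par
  refine ⟨L, ⟨hL.nn, hL.one, fun ω hω => (hL.val ω hω).1, ?_, ?_, ?_, hL.joint⟩⟩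
  · intro ω hω v hv hvτ
    have h1 := (hk.supp _ _ ((hL.val ω hω).2 v hv hvτ)).2.2
    rwa [add_comm] at h1
  · intro v hv u
    unfold FZ.Pr
    rw [hL.vtx v hv (fun z => @ite ℝ (z = u) (Classical.propDecidable _) 1 0)]
    by_cases hu : u ∈ pm X
    · rw [Finset.sum_eq_single_of_mem u hu]
      · rw [if_pos rfl, mul_one]
      · intro b _ hb
        rw [if_neg hb, mul_zero]
    · rw [Finset.sum_eq_zero]
      · exact hr0
      · intro b hb
        have hbu : b ≠ u := fun h => hu (by rw [← h]; exact hb)
        rw [if_neg hbu, mul_zero]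
  · intro v hv hvτ t
    unfold FZ.Pr
    rw [hL.edg v hv hvτ (fun z w => @ite ℝ (w + z = t) (Classical.propDecidable _) 1 0)]
    have h1 : ∀ u ∈ pm X, (1 : ℝ) / (2 * X.card) * ∑ w ∈ pm X, k u w *
        (@ite ℝ (w + u = t) (Classical.propDecidable _) 1 0) = 1 / (2 * X.card) * k u (t - u) := by
      intro u _
      congr 1
      by_cases hw : t - u ∈ pm X
      · rw [Finset.sum_eq_single_of_mem (t - u) hw]
        · rw [if_pos (by ring), mul_one]
        · intro b _ hb
          rw [if_neg (fun h => hb (by rw [← h]; ring)), mul_zero]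
      · have h2 : k u (t - u) = 0 := by
          by_contra h
          exact hw (hk.supp _ _ h).2.1
        rw [h2]
        refine Finset.sum_eq_zero fun b hb => ?_
        rw [if_neg (fun h => hw (by rw [← h]; simpa using hb)), mul_zero]
    rw [Finset.sum_congr rfl h1, ← Finset.mul_sum]
    by_cases ht : t ∈ pm S
    · rw [hk.dia t ht]
      have hSc : 0 < S.card := Finset.card_pos.mpr ⟨_, mem_pm.mp ht⟩
      have hSc' : (0 : ℝ) < S.card := by exact_mod_cast hSc
      apply le_of_eq
      field_simp
    · have h3 : ∑ u ∈ pm X, k u (t - u) = 0 := by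
        refine Finset.sum_eq_zero fun u _ => ?_
        by_contra h
        have := (hk.supp _ _ h).2.2
        apply ht
        have e : u + (t - u) = t := by ring
        rwa [e] at this
      rw [h3, mul_zero]
      positivity

end Pool.Agent.BD
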