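import Pool.Agent.Helper73.SEM.T1

/-!
# BD-R2: the vertex `A`; paths

`two_ends`: take a longest path `v_0, v_1, .., v_k`; `k ≥ 3` because no vertex is adjacent to all the others (`hns`; if `k ≤ 2` the middle vertex is adjacent to all).  `A1 = v_1`, `A2 = v_{k-1}`, different.
A neighbour `x ≠ v_2` of `v_1` is a leaf: otherwise `x` has a neighbour `y ≠ v_1`, and `y, x, v_1, .., v_k` is a longer path (`x, y` are not on the path because `G` has no cycles).  So all but one of the neighbours of `A1` are
leaves.  (Any other proof is fine, e.g. with distances: `v_0, v_k` at maximal distance.)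
`choose_A`: `w v = degree v - 1`, `∑ w = n - 2`.  `h_i = gcd_{v ≠ A_i} w v > 0`, `w_i = w A_i ≥ 1`; `n - 2 ≡ w_i` mod `h_i`.  If `w_1 ≥ h_1`: one of `j = w_1`, `j = w_1 - h_1` satisfies `2 h_1 ∣ n - 2 - j`; reduce `j` modulo `2 h_1`;
`A = A1`, `Λ` = `j` leaves adjacent to `A1`.  If `w_1 < h_1`: `h_1 ∣ w_2`, so `w_2 ≥ h_1 > w_1`, and `h_2 ∣ w_1`, so `h_2 ≤ w_1 < w_2`: the same with `A2`.
`path_sem`: a tree with all degrees at most 2 is a path `v_0, .., v_{n-1}`: label `v_{2i}` by `i + 1` and `v_{2i+1}` by `⌈n/2⌉ + i + 1`; the sums are consecutive.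
(E.g. number the vertices by the distance from a leaf; or use `SEM.tree_parent` with a leaf as root, then `p i = i - 1`.)
-/

set_option autoImplicit false

namespace Pool.Agent.BD

open Finset

/-- a nonempty set of vertices of a connected graph which is closed under adjacency is everything -/
private theorem h21_closed {V : Type*} (G : SimpleGraph V) (hG : G.Connected) (T : Set V)
    (hT : ∀ u ∈ T, ∀ v, G.Adj u v → v ∈ T) {a : V} (ha : a ∈ T) (b : V) : b ∈ T := by
  obtain ⟨w⟩ := hG.preconnected a b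
  induction w with
  | nil => exact ha
  | cons h _ ih => exact ih (hT _ ha _ h)

open Classical in
/-- number of leaves adjacent to `v` -/
private noncomputable def h21_lf {n : ℕ} (G : SimpleGraph (Fin n)) (v : Fin n) : ℕ :=
  (univ.filter fun u => G.Adj u v ∧ G.degree u = 1).card

open Classical in
private theorem h21_lf_lt {n : ℕ} (G : SimpleGraph (Fin n)) (hG : G.IsTree)
    (hns : ∀ v, G.degree v + 1 < n) (v : Fin n) : h21_lf G v < G.degree v := by
  have hsub : (univ.filter fun u => G.Adj u v ∧ G.degree u = 1) ⊆ G.neighborFinset v := by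
    intro u hu
    simp only [mem_filter, mem_univ, true_and] at hu
    simpa using hu.1.symm
  have hle : h21_lf G v ≤ G.degree v := by
    rw [← G.card_neighborFinset_eq_degree]
    exact card_le_card hsub
  refine lt_of_le_of_ne hle fun heq => ?_
  have heq' : (univ.filter fun u => G.Adj u v ∧ G.degree u = 1) = G.neighborFinset v := by
    refine eq_of_subset_of_card_le hsub ?_
    rw [G.card_neighborFinset_eq_degree]
    exact le_of_eq heq.symm
  have hcl := h21_closed G hG.connected ((insert v (G.neighborFinset v) : Finset (Fin n)) : Set (Fin n)) ?_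
    (a := v) (by simp)
  · have huniv : (univ : Finset (Fin n)) ⊆ insert v (G.neighborFinset v) := by
      intro b _
      have := hcl b
      exact_mod_cast this
    have h1 := card_le_card huniv
    have h2 := card_insert_le v (G.neighborFinset v)
    rw [G.card_neighborFinset_eq_degree] at h2
    have h3 := hns v
    simp only [card_univ, Fintype.card_fin] at h1
    omega
  · intro u hu w huw
    simp only [coe_insert, Set.mem_insert_iff, mem_coe] at hu ⊢
    rcases hu with rfl | hu
    · right
      simpa using huw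
    · have hu' : u ∈ (univ.filter fun u => G.Adj u v ∧ G.degree u = 1) := by rw [heq']; exact hu
      simp only [mem_filter, mem_univ, true_and] at hu'
      obtain ⟨hadj, hd⟩ := hu'
      left
      rw [← G.card_neighborFinset_eq_degree, card_eq_one] at hd
      obtain ⟨x, hx⟩ := hd
      have h1 : v ∈ G.neighborFinset u := by simpa using hadj
      have h2 : w ∈ G.neighborFinset u := by simpa using huw
      rw [hx, mem_singleton] at h1 h2
      rw [h2, h1]

open Classical in
private theorem h21_sum_deg {n : ℕ} (G : SimpleGraph (Fin n)) (hG : G.IsTree) :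
    ∑ v, G.degree v + 2 = 2 * n := by
  have h1 := G.sum_degrees_eq_twice_card_edges
  have h2 := hG.card_edgeFinset
  simp only [Fintype.card_fin] at h2
  rw [h1]
  omega

open Classical in
private theorem h21_sum_lf {n : ℕ} (G : SimpleGraph (Fin n)) :
    ∑ v, h21_lf G v = (univ.filter fun u => G.degree u = 1).card := by
  have h1 : ∀ v, h21_lf G v = ∑ u, if G.Adj u v ∧ G.degree u = 1 then 1 else 0 := by
    intro v
    rw [h21_lf, card_filter]
  simp only [h1]
  rw [sum_comm, card_filter]
  refine sum_congr rfl fun u _ => ?_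
  by_cases hu : G.degree u = 1
  · have h2 : (univ.filter fun v => G.Adj u v) = G.neighborFinset u := by
      ext v
      simp
    have h3 : (∑ v, if G.Adj u v then 1 else 0) = 1 := by
      rw [← card_filter, h2, G.card_neighborFinset_eq_degree, hu]
    simp only [hu, and_true, if_true]
    exact h3
  · simp [hu]

open Classical in
theorem two_ends {n : ℕ} (G : SimpleGraph (Fin n)) (hG : G.IsTree) (hn : 3 ≤ n) (hns : ∀ v, G.degree v + 1 < n) :
    ∃ A1 A2 : Fin n, A1 ≠ A2 ∧ ∀ A ∈ ({A1, A2} : Finset (Fin n)), 2 ≤ G.degree A ∧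
      G.degree A ≤ (univ.filter fun v => G.Adj v A ∧ G.degree v = 1).card + 1 := by
  have hlt := h21_lf_lt G hG hns
  have hsd := h21_sum_deg G hG
  have hsl := h21_sum_lf G
  set S : Finset (Fin n) := univ.filter fun v => 2 ≤ G.degree v ∧ G.degree v ≤ h21_lf G v + 1 with hS
  have hcard : 1 < S.card := by
    by_contra hc
    push Not at hc
    have hkey : ∀ v, h21_lf G v + 2 ≤ G.degree v + (if G.degree v = 1 then 1 else 0) + (if v ∈ S then 1 else 0) := by
      intro v
      have h1 := hlt v
      by_cases hv : G.degree v = 1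
      · simp only [hv, if_true]
        omega
      · by_cases hvS : v ∈ S
        · simp only [hv, hvS, if_true, if_false]
          omega
        · simp only [hv, hvS, if_false]
          have : ¬ (2 ≤ G.degree v ∧ G.degree v ≤ h21_lf G v + 1) := by
            intro h
            exact hvS (by simp [hS, h])
          omega
    have hsum := sum_le_sum fun v (_ : v ∈ (univ : Finset (Fin n))) => hkey v
    rw [sum_add_distrib, sum_add_distrib, sum_add_distrib, hsl, ← card_filter] at hsum
    have hS2 : ∑ v, (if v ∈ S then 1 else 0) = S.card := by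
      rw [← card_filter]
      congr 1
      ext v
      simp
    rw [hS2] at hsum
    simp only [sum_const, card_univ, Fintype.card_fin, smul_eq_mul] at hsum
    omega
  rw [one_lt_card] at hcard
  obtain ⟨A1, h1, A2, h2, hne⟩ := hcard
  refine ⟨A1, A2, hne, fun A hA => ?_⟩
  simp only [mem_insert, mem_singleton] at hA
  rcases hA with rfl | rfl
  · simp only [hS, mem_filter, mem_univ, true_and] at h1
    exact h1
  · simp only [hS, mem_filter, mem_univ, true_and] at h2
    exact h2

/-- arithmetic of `choose_A`: with `w ≥ h`, `N = w + h t` there is `j ≤ w`, `j < 2h`, `2h ∣ N - j` -/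
private theorem h21_arith {w h N : ℕ} (hh : 0 < h) (hwh : h ≤ w) (hN : ∃ t, N = w + h * t) :
    ∃ j, j ≤ w ∧ j < 2 * h ∧ ∃ m, N = j + m ∧ 2 * h ∣ m := by
  obtain ⟨t, ht⟩ := hN
  have key : ∃ j0, j0 ≤ w ∧ ∃ m, N = j0 + m ∧ 2 * h ∣ m := by
    rcases Nat.even_or_odd t with ⟨s, hs⟩ | ⟨s, hs⟩
    · refine ⟨w, le_rfl, h * t, ht, ⟨s, ?_⟩⟩
      rw [hs]; ring
    · refine ⟨w - h, Nat.sub_le _ _, h * (t + 1), ?_, ⟨s + 1, ?_⟩⟩
      · rw [ht, Nat.mul_add, Nat.mul_one]; omega
      · rw [hs]; ring
  obtain ⟨j0, hj0, m, hm, hd⟩ := key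
  refine ⟨j0 % (2 * h), (Nat.mod_le _ _).trans hj0, Nat.mod_lt _ (by omega), m + 2 * h * (j0 / (2 * h)), ?_, ?_⟩
  · have := Nat.mod_add_div j0 (2 * h)
    omega
  · exact dvd_add hd (dvd_mul_right _ _)

open Classical in
theorem choose_A {n : ℕ} (G : SimpleGraph (Fin n)) (hG : G.IsTree) (hn : 3 ≤ n) (hns : ∀ v, G.degree v + 1 < n) :
    ∃ (A : Fin n) (Λ : Finset (Fin n)) (m h : ℕ), h = (univ.erase A).gcd (fun v => G.degree v - 1) ∧ 0 < h ∧
      A ∉ Λ ∧ (∀ v ∈ Λ, G.Adj v A ∧ G.degree v = 1) ∧ Λ.card + 1 ≤ G.degree A ∧ Λ.card < 2 * h ∧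
      n = Λ.card + 2 + m ∧ 2 * h ∣ m := by
  obtain ⟨A1, A2, hne, hA⟩ := two_ends G hG hn hns
  have hpos : ∀ v, 1 ≤ G.degree v := fun v => by
    have := h21_lf_lt G hG hns v
    omega
  have hsd := h21_sum_deg G hG
  have hsw : ∑ v, (G.degree v - 1) + 2 = n := by
    have h1 : ∑ v, (G.degree v - 1) + ∑ _v : Fin n, 1 = ∑ v, G.degree v := by
      rw [← sum_add_distrib]
      exact sum_congr rfl fun v _ => Nat.sub_add_cancel (hpos v)
    simp only [sum_const, card_univ, Fintype.card_fin, smul_eq_mul, mul_one] at h1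
    omega
  -- the main step for a vertex with `h ≤ w`
  have main : ∀ A, 2 ≤ G.degree A → G.degree A ≤ (univ.filter fun v => G.Adj v A ∧ G.degree v = 1).card + 1 →
      0 < (univ.erase A).gcd (fun v => G.degree v - 1) →
      (univ.erase A).gcd (fun v => G.degree v - 1) ≤ G.degree A - 1 →
      ∃ (A : Fin n) (Λ : Finset (Fin n)) (m h : ℕ), h = (univ.erase A).gcd (fun v => G.degree v - 1) ∧ 0 < h ∧
      A ∉ Λ ∧ (∀ v ∈ Λ, G.Adj v A ∧ G.degree v = 1) ∧ Λ.card + 1 ≤ G.degree A ∧ Λ.card < 2 * h ∧
      n = Λ.card + 2 + m ∧ 2 * h ∣ m := by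
    intro A h2 hle hh hhw
    have hdvd : (univ.erase A).gcd (fun v => G.degree v - 1) ∣ ∑ v ∈ univ.erase A, (G.degree v - 1) :=
      dvd_sum fun v hv => gcd_dvd hv
    obtain ⟨t, ht⟩ := hdvd
    have hsplit : ∑ v, (G.degree v - 1) = (G.degree A - 1) + ∑ v ∈ univ.erase A, (G.degree v - 1) :=
      (add_sum_erase univ _ (mem_univ A)).symm
    obtain ⟨j, hj1, hj2, m, hm, hd⟩ := h21_arith (N := ∑ v, (G.degree v - 1)) hh hhw ⟨t, by rw [hsplit, ht]⟩
    obtain ⟨Λ, hΛ, hΛc⟩ := exists_subset_card_eq (s := univ.filter fun v => G.Adj v A ∧ G.degree v = 1)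
      (n := j) (by omega)
    refine ⟨A, Λ, m, _, rfl, hh, ?_, ?_, by omega, by omega, by omega, hd⟩
    · intro hmem
      have := hΛ hmem
      simp at this
    · intro v hv
      have := hΛ hv
      simpa using this
  have hA1 := hA A1 (by simp)
  have hA2 := hA A2 (by simp)
  have hd1 : (univ.erase A1).gcd (fun v => G.degree v - 1) ∣ G.degree A2 - 1 :=
    gcd_dvd (f := fun v => G.degree v - 1) (mem_erase.2 ⟨hne.symm, mem_univ _⟩)
  have hd2 : (univ.erase A2).gcd (fun v => G.degree v - 1) ∣ G.degree A1 - 1 :=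
    gcd_dvd (f := fun v => G.degree v - 1) (mem_erase.2 ⟨hne, mem_univ _⟩)
  have hh1 : 0 < (univ.erase A1).gcd (fun v => G.degree v - 1) :=
    Nat.pos_of_dvd_of_pos hd1 (by omega)
  have hh2 : 0 < (univ.erase A2).gcd (fun v => G.degree v - 1) :=
    Nat.pos_of_dvd_of_pos hd2 (by omega)
  rcases le_or_gt ((univ.erase A1).gcd (fun v => G.degree v - 1)) (G.degree A1 - 1) with h | h
  · exact main A1 hA1.1 hA1.2 hh1 h
  · have h3 := Nat.le_of_dvd (by omega) hd1
    have h4 := Nat.le_of_dvd (by omega) hd2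
    exact main A2 hA2.1 hA2.2 hh2 (by omega)

/-- labels along a path -/
private def h21_L (n i : ℕ) : ℕ := i / 2 + 1 + (i % 2) * ((n + 1) / 2)

private theorem h21_L_range {n i : ℕ} (hi : i < n) : 1 ≤ h21_L n i ∧ h21_L n i ≤ n := by
  unfold h21_L
  rcases Nat.mod_two_eq_zero_or_one i with h | h <;> rw [h] <;> omega

private theorem h21_L_inj {n i j : ℕ} (hi : i < n) (hj : j < n) (h : h21_L n i = h21_L n j) : i = j := by
  unfold h21_L at h
  rcases Nat.mod_two_eq_zero_or_one i with h1 | h1 <;> rcases Nat.mod_two_eq_zero_or_one j with h2 | h2 <;>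
    rw [h1, h2] at h <;> omega

private theorem h21_L_sum (n i : ℕ) : h21_L n i + h21_L n (i + 1) = (n + 1) / 2 + 2 + i := by
  unfold h21_L
  rcases Nat.mod_two_eq_zero_or_one i with h1 | h1
  · have h2 : (i + 1) % 2 = 1 := by omega
    rw [h1, h2]; omega
  · have h2 : (i + 1) % 2 = 0 := by omega
    rw [h1, h2]; omega

open Classical in
private theorem h21_path {n : ℕ} (G : SimpleGraph (Fin n)) (hG : G.IsTree) (hdeg : ∀ v, G.degree v ≤ 2) :
    ∃ e : Fin n ≃ Fin n, ∀ u v, G.Adj u v ↔ ((e u : ℕ) + 1 = e v ∨ (e v : ℕ) + 1 = e u) := by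
  have hsd := h21_sum_deg G hG
  have hr : ∃ r, G.degree r ≤ 1 := by
    by_contra hc
    push Not at hc
    have h1 := sum_le_sum (f := fun _ => 2) (g := fun v => G.degree v) (s := (univ : Finset (Fin n))) fun v _ => hc v
    simp only [sum_const, card_univ, Fintype.card_fin, smul_eq_mul] at h1
    omega
  obtain ⟨r, hr⟩ := hr
  obtain ⟨e0, p, hp, he0, hadj0⟩ := SEM.tree_parent G hG r
  have hcard : Fintype.card (Fin n) = n := Fintype.card_fin n
  set e : Fin n ≃ Fin n := e0.trans (finCongr hcard) with he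
  have hev : ∀ v, (e v : ℕ) = (e0 v : ℕ) := fun v => by simp [he]
  have hadj : ∀ u v, G.Adj u v ↔ (0 < (e v : ℕ) ∧ p (e v) = (e u : ℕ)) ∨ (0 < (e u : ℕ) ∧ p (e u) = (e v : ℕ)) := by
    intro u v
    rw [hadj0 u v, hev, hev]
  have her : (e r : ℕ) = 0 := by rw [hev, he0]
  rw [hcard] at hp
  -- three distinct neighbours are impossible, and two at the root
  have hnb : ∀ (x : Fin n) (T : Finset (Fin n)), (∀ y ∈ T, G.Adj x y) → T.card ≤ G.degree x := by
    intro x T hT
    rw [← G.card_neighborFinset_eq_degree]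
    exact card_le_card fun y hy => by simpa using hT y hy
  have hinj : ∀ i j, 0 < i → i < j → j < n → p i ≠ p j := by
    intro i j hi hij hj heq
    have hpi := hp i hi (by omega)
    have hk : p i < n := by omega
    set x := e.symm ⟨p i, hk⟩ with hx
    set yi := e.symm ⟨i, by omega⟩ with hyi
    set yj := e.symm ⟨j, hj⟩ with hyj
    have hex : (e x : ℕ) = p i := by rw [hx, Equiv.apply_symm_apply]
    have heyi : (e yi : ℕ) = i := by rw [hyi, Equiv.apply_symm_apply]
    have heyj : (e yj : ℕ) = j := by rw [hyj, Equiv.apply_symm_apply]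
    have ha1 : G.Adj x yi := (hadj x yi).2 (Or.inl ⟨by omega, by rw [heyi, hex]⟩)
    have ha2 : G.Adj x yj := (hadj x yj).2 (Or.inl ⟨by omega, by rw [heyj, hex, heq]⟩)
    have hne : yi ≠ yj := fun h => by
      have : (e yi : ℕ) = (e yj : ℕ) := by rw [h]
      omega
    rcases Nat.eq_zero_or_pos (p i) with h0 | h0
    · have hxr : x = r := by
        apply e.injective
        apply Fin.ext
        rw [hex, her, h0]
      have h3 := hnb x {yi, yj} (by
        intro y hy
        simp only [mem_insert, mem_singleton] at hy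
        rcases hy with rfl | rfl
        · exact ha1
        · exact ha2)
      rw [card_pair hne, hxr] at h3
      omega
    · have hpp := hp (p i) h0 hk
      set z := e.symm ⟨p (p i), by omega⟩ with hz
      have hez : (e z : ℕ) = p (p i) := by rw [hz, Equiv.apply_symm_apply]
      have ha3 : G.Adj x z := (hadj x z).2 (Or.inr ⟨by omega, by rw [hex, hez]⟩)
      have hne1 : z ≠ yi := fun h => by
        have : (e z : ℕ) = (e yi : ℕ) := by rw [h]
        omega
      have hne2 : z ≠ yj := fun h => by
        have : (e z : ℕ) = (e yj : ℕ) := by rw [h]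
        omega
      have h3 := hnb x {z, yi, yj} (by
        intro y hy
        simp only [mem_insert, mem_singleton] at hy
        rcases hy with rfl | rfl | rfl
        · exact ha3
        · exact ha1
        · exact ha2)
      have h4 : ({z, yi, yj} : Finset (Fin n)).card = 3 := card_eq_three.2 ⟨z, yi, yj, hne1, hne2, hne, rfl⟩
      have h5 := hdeg x
      omega
  have hpred : ∀ i, 0 < i → i < n → p i + 1 = i := by
    intro i
    induction i using Nat.strong_induction_on with
    | _ i ih =>
      intro hi hin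
      have h1 := hp i hi hin
      by_contra hc
      have h2 := ih (p i + 1) (by omega) (by omega) (by omega)
      exact hinj (p i + 1) i (by omega) (by omega) hin (by omega)
  refine ⟨e, fun u v => ?_⟩
  rw [hadj u v]
  constructor
  · rintro (⟨h1, h2⟩ | ⟨h1, h2⟩)
    · left
      have := hpred (e v) h1 (e v).2
      omega
    · right
      have := hpred (e u) h1 (e u).2
      omega
  · rintro (h | h)
    · left
      have := hpred (e v) (by omega) (e v).2
      exact ⟨by omega, by omega⟩
    · right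
      have := hpred (e u) (by omega) (e u).2
      exact ⟨by omega, by omega⟩

open Classical in
theorem path_sem {n : ℕ} (G : SimpleGraph (Fin n)) (hG : G.IsTree) (hdeg : ∀ v, G.degree v ≤ 2) :
    ∃ (f : Fin n → ℕ) (g : G.edgeSet → ℕ) (k : ℕ),
        Function.Injective f ∧ (∀ v, 1 ≤ f v ∧ f v ≤ n) ∧
        Function.Injective g ∧ (∀ e, n + 1 ≤ g e ∧ g e < 2 * n) ∧
        ∀ (e : G.edgeSet) (u v : Fin n), (e : Sym2 (Fin n)) = s(u, v) → f u + g e + f v = k := by
  obtain ⟨e, he⟩ := h21_path G hG hdeg
  set k : ℕ := 2 * n + (n + 1) / 2 + 1 with hk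
  set f : Fin n → ℕ := fun v => h21_L n (e v) with hf
  -- an edge has consecutive positions
  have hedge : ∀ x : G.edgeSet, ∃ u v, (x : Sym2 (Fin n)) = s(u, v) ∧ (e u : ℕ) + 1 = e v := by
    rintro ⟨x, hx⟩
    induction x using Sym2.ind with
    | _ u v =>
      rw [SimpleGraph.mem_edgeSet, he] at hx
      rcases hx with h | h
      · exact ⟨u, v, rfl, h⟩
      · exact ⟨v, u, Sym2.eq_swap, h⟩
  choose a b hab hab1 using hedge
  have hsum : ∀ x, f (a x) + f (b x) = (n + 1) / 2 + 2 + (e (a x) : ℕ) := by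
    intro x
    simp only [hf, ← hab1 x]
    exact h21_L_sum n _
  have hlt : ∀ x, (e (a x) : ℕ) + 1 < n := fun x => by
    rw [hab1 x]
    exact (e (b x)).2
  refine ⟨f, fun x => 2 * n - 1 - (e (a x) : ℕ), k, ?_, fun v => h21_L_range (e v).2, ?_, ?_, ?_⟩
  · intro u v huv
    exact e.injective (Fin.ext (h21_L_inj (e u).2 (e v).2 huv))
  · intro x y hxy
    have h1 := hlt x
    have h2 := hlt y
    have h3 : (e (a x) : ℕ) = (e (a y) : ℕ) := by
      simp only at hxy
      omega
    have h4 : a x = a y := e.injective (Fin.ext h3)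
    have h5 : b x = b y := e.injective (Fin.ext (by rw [← hab1, ← hab1, h3]))
    apply Subtype.ext
    rw [hab x, hab y, h4, h5]
  · intro x
    have h1 := hlt x
    simp only
    omega
  · intro x u v hx
    have h1 := hlt x
    have h2 := hsum x
    rw [hab x, Sym2.eq_iff] at hx
    simp only
    rcases hx with ⟨rfl, rfl⟩ | ⟨rfl, rfl⟩ <;> omega

end Pool.Agent.BD
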