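import Pool.Agent.Helper73.BD.R1
import Pool.Agent.Helper73.BD.R2

/-!
# BD-RD: reduction from graphs to parent functions

Proof in words.  `choose_A` gives `A, Λ, m, h`; `lam = |Λ|`, `V = {v | v ∉ Λ}`, `G' = G.induce V`, `n' = Fintype.card V = n - lam = 2 + m`, `2h ∣ m`, so `n'` is even and `2h ∣ n' - 2`.  `induce_leaves`: `G'` is a tree, the degrees of the
vertices `≠ A` are the same, `degree' A = degree A - lam`.  `to_par` for `G'`, `A`: `p`, `e : V ≃ Fin n'` with `e A = 0`, `#nbs (e v) = degree' v`.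
* gcd: `((range n').erase 0).gcd (#nbs - 1)` is the gcd of `degree v - 1` over the `v ∉ Λ`, `v ≠ A`; the `v ∈ Λ` have `degree v - 1 = 0`, so this is `h`.
* degree bounds: `lam + 1 ≤ degree A ≤ D`; all `degree' ≤ degree ≤ D`.
* leaves: a leaf of `G'` is `A` or a leaf of `G`; `Λ` consists of leaves of `G`.
* if `L = #leaves ≥ 3` and `2L + 3 ≤ n`: `∑ (degree v - 2) = -2` (`SimpleGraph.IsTree.card_edgeFinset`, `sum_degrees_eq_twice_card_edges`), so at most `L - 2` vertices have degree `≥ 3`, so at least `n - 2L + 2 ≥ 2` have degree 2, one of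
  them is not `A`, so `h ∣ 1`, `h = 1`, `lam < 2`.  The leaves of `G` which are not in `Λ` and not `A` are leaves of `G'`: if `lam = 0` at least `L - 1 ≥ 2`; if `lam = 1` then `degree A ≥ 2`, so `A` is not a leaf, and `L - 1 ≥ 2`.
* last statement: `to_par` gives `SemA G' A`, `semA_leaves` gives `SemA G A`, `semA_graph`.
-/

set_option autoImplicit false

namespace Pool.Agent.BD

open Finset Pool.Agent.SEM

open Classical in
private theorem sumdeg94 {n : ℕ} (G : SimpleGraph (Fin n)) (hG : G.IsTree) :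
    ∑ v, G.degree v + 2 = 2 * n := by
  have h1 := G.sum_degrees_eq_twice_card_edges
  have h2 := hG.card_edgeFinset
  simp only [Fintype.card_fin] at h2
  rw [h1]
  omega

open Classical in
private theorem degpos94 {n : ℕ} (G : SimpleGraph (Fin n)) (hG : G.IsTree) (hn : 2 ≤ n) (v : Fin n) :
    1 ≤ G.degree v := by
  have : Nontrivial (Fin n) := Fin.nontrivial_iff_two_le.2 hn
  exact hG.connected.preconnected.degree_pos_of_nontrivial v

open Classical in
/-- many vertices of degree 2 -/
private theorem deg_two94 {n : ℕ} (G : SimpleGraph (Fin n)) (hG : G.IsTree) (hn : 2 ≤ n) :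
    n + 2 ≤ 2 * (univ.filter fun v => G.degree v = 1).card + (univ.filter fun v => G.degree v = 2).card := by
  have hkey : ∀ v, 3 ≤ G.degree v + 2 * (if G.degree v = 1 then 1 else 0) + (if G.degree v = 2 then 1 else 0) := by
    intro v
    have h1 := degpos94 G hG hn v
    split_ifs <;> omega
  have hsum := sum_le_sum fun v (_ : v ∈ (univ : Finset (Fin n))) => hkey v
  rw [sum_add_distrib, sum_add_distrib, ← mul_sum, ← card_filter, ← card_filter] at hsum
  simp only [sum_const, card_univ, Fintype.card_fin, smul_eq_mul] at hsum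
  have := sumdeg94 G hG
  omega

open Classical in
/-- the reduced tree as a parent function -/
private theorem pack94 {V : Type} [Fintype V] (G : SimpleGraph V) (hG : G.IsTree) (A : V) (Λ : Finset V) (hA : A ∉ Λ)
    (hΛ : ∀ v ∈ Λ, G.Adj v A ∧ G.degree v = 1) (h2 : 2 + Λ.card ≤ Fintype.card V) :
    ∃ (n' : ℕ) (e : V → ℕ) (p : ℕ → ℕ), n' + Λ.card = Fintype.card V ∧ Par n' p ∧ e A = 0 ∧ (∀ v, v ∉ Λ → e v < n') ∧
      (∀ v, v ∉ Λ → ∀ w, w ∉ Λ → e v = e w → v = w) ∧ (∀ i, i < n' → ∃ v, v ∉ Λ ∧ e v = i) ∧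
      (∀ v, v ∉ Λ → v ≠ A → (nbs n' p (e v)).card = G.degree v) ∧ (nbs n' p (e A)).card + Λ.card = G.degree A ∧
      (Even n' → (∃ f, IsCL n' p f ∧ f 0 = -1) → SemA G A) := by
  obtain ⟨hT', hdeg', hdegA⟩ := induce_leaves G hG A Λ hA hΛ
  have hcard : Fintype.card {v | v ∉ Λ} + Λ.card = Fintype.card V := by
    have h1 : Fintype.card {v | v ∉ Λ} = Fintype.card V - Λ.card := by
      have h2 := Fintype.card_subtype_compl (fun v => v ∈ Λ)
      rw [Fintype.card_coe] at h2
      rw [← h2]
      exact Fintype.card_congr (Equiv.refl _)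
    have h3 : Λ.card ≤ Fintype.card V := Finset.card_le_univ Λ
    omega
  obtain ⟨e, p, hpar, he0, hnbs, hsem⟩ :=
    to_par (G.induce {v | v ∉ Λ}) hT' ⟨A, hA⟩ (by omega)
  have hval : ∀ v (hv : v ∉ Λ), (if hv : v ∉ Λ then (e ⟨v, hv⟩ : ℕ) else 0) = (e ⟨v, hv⟩ : ℕ) := fun v hv => dif_pos hv
  refine ⟨Fintype.card {v | v ∉ Λ}, fun v => if hv : v ∉ Λ then (e ⟨v, hv⟩ : ℕ) else 0, p, hcard, hpar,
    ?_, ?_, ?_, ?_, ?_, ?_, ?_⟩
  · simp only
    rw [hval A hA]
    exact he0
  · intro v hv
    simp only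
    rw [hval v hv]
    exact (e ⟨v, hv⟩).2
  · intro v hv w hw hvw
    simp only at hvw
    rw [hval v hv, hval w hw] at hvw
    exact congrArg Subtype.val (e.injective (Fin.ext hvw))
  · intro i hi
    refine ⟨(e.symm ⟨i, hi⟩ : {v | v ∉ Λ}), (e.symm ⟨i, hi⟩).2, ?_⟩
    simp only
    rw [hval _ (e.symm ⟨i, hi⟩).2]
    have h1 : e ⟨(e.symm ⟨i, hi⟩ : {v | v ∉ Λ}), (e.symm ⟨i, hi⟩).2⟩ = ⟨i, hi⟩ := e.apply_symm_apply _
    rw [h1]
  · intro v hv hvA
    simp only
    rw [hval v hv, hnbs]
    exact hdeg' ⟨v, hv⟩ hvA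
  · simp only
    rw [hval A hA, hnbs]
    exact hdegA
  · intro hev hf
    exact semA_leaves G hG A Λ hA hΛ (hsem hev hf)

open Classical in
theorem reduce {n : ℕ} (G : SimpleGraph (Fin n)) (hG : G.IsTree) (hn : 3 ≤ n) (hns : ∀ v, G.degree v + 1 < n) :
    ∃ (n' lam : ℕ) (p : ℕ → ℕ), n = n' + lam ∧ Even n' ∧ 2 ≤ n' ∧ Par n' p ∧
      (2 * ((range n').erase 0).gcd (fun v => (nbs n' p v).card - 1)) ∣ n' - 2 ∧
      (∀ D, (∀ v, G.degree v ≤ D) → lam < D ∧ ∀ v, v < n' → (nbs n' p v).card ≤ D) ∧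
      ((range n').filter fun v => (nbs n' p v).card = 1).card ≤ (univ.filter fun v => G.degree v = 1).card + 1 ∧
      (univ.filter fun v => G.degree v = 1).card ≤ ((range n').filter fun v => (nbs n' p v).card = 1).card + lam + 1 ∧
      lam ≤ (univ.filter fun v => G.degree v = 1).card ∧
      (3 ≤ (univ.filter fun v => G.degree v = 1).card → 2 * (univ.filter fun v => G.degree v = 1).card + 3 ≤ n →
        2 ≤ (((range n').erase 0).filter fun v => (nbs n' p v).card = 1).card) ∧
      ((∃ f, IsCL n' p f ∧ f 0 = -1) →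
        ∃ (f : Fin n → ℕ) (g : G.edgeSet → ℕ) (k : ℕ),
          Function.Injective f ∧ (∀ v, 1 ≤ f v ∧ f v ≤ n) ∧
          Function.Injective g ∧ (∀ e, n + 1 ≤ g e ∧ g e < 2 * n) ∧
          ∀ (e : G.edgeSet) (u v : Fin n), (e : Sym2 (Fin n)) = s(u, v) → f u + g e + f v = k) := by
  obtain ⟨A, Λ, m, h, hh, hh0, hAΛ, hΛ, hΛA, hΛh, hnm, hdvd⟩ := choose_A G hG hn hns
  obtain ⟨n', e, p, hcard, hpar, he0, hlt, hinj, hsurj, hdeg, hdegA, hsem⟩ :=
    pack94 G hG A Λ hAΛ hΛ (by rw [Fintype.card_fin]; omega)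
  rw [Fintype.card_fin] at hcard
  have hm : n' = 2 + m := by omega
  have hdegle : ∀ w, w ∉ Λ → (nbs n' p (e w)).card ≤ G.degree w := by
    intro w hw
    by_cases hwA : w = A
    · rw [hwA]
      omega
    · exact (hdeg w hw hwA).le
  have hne0 : ∀ w, w ∉ Λ → w ≠ A → e w ≠ 0 := by
    intro w hw hwA h0
    exact hwA (hinj w hw A hAΛ (h0.trans he0.symm))
  have hev : Even n' := by
    obtain ⟨c, hc⟩ := hdvd
    rw [hm, hc]
    exact ⟨1 + h * c, by ring⟩
  refine ⟨n', Λ.card, p, by omega, hev, by omega, hpar, ?_, ?_, ?_, ?_, ?_, ?_, ?_⟩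
  · have h1 : ((range n').erase 0).gcd (fun v => (nbs n' p v).card - 1) ∣ h := by
      rw [hh]
      refine Finset.dvd_gcd fun v hv => ?_
      have hvA : v ≠ A := (mem_erase.1 hv).1
      by_cases hvΛ : v ∈ Λ
      · rw [(hΛ v hvΛ).2]
        exact dvd_zero _
      · have h4 : ((range n').erase 0).gcd (fun v => (nbs n' p v).card - 1) ∣
            (nbs n' p (e v)).card - 1 :=
          Finset.gcd_dvd (f := fun v => (nbs n' p v).card - 1)
            (mem_erase.2 ⟨hne0 v hvΛ hvA, mem_range.2 (hlt v hvΛ)⟩)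
        rw [hdeg v hvΛ hvA] at h4
        exact h4
    have h2 : n' - 2 = m := by omega
    rw [h2]
    exact (Nat.mul_dvd_mul_left 2 h1).trans hdvd
  · intro D hD
    constructor
    · have := hD A
      omega
    · intro v hv
      obtain ⟨w, hw, rfl⟩ := hsurj v hv
      exact (hdegle w hw).trans (hD _)
  · have h1 : ((range n').filter fun v => (nbs n' p v).card = 1) ⊆
        (insert A (univ.filter fun v => G.degree v = 1)).image e := by
      intro v hv
      rw [mem_filter, mem_range] at hv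
      obtain ⟨w, hw, rfl⟩ := hsurj v hv.1
      refine mem_image_of_mem _ ?_
      rw [mem_insert]
      by_cases hwA : w = A
      · exact Or.inl hwA
      · right
        rw [mem_filter]
        exact ⟨mem_univ _, by rw [← hdeg w hw hwA]; exact hv.2⟩
    exact ((card_le_card h1).trans card_image_le).trans (card_insert_le _ _)
  · have h1 : ((univ.filter fun v => G.degree v = 1) \ insert A Λ).card ≤
        ((range n').filter fun v => (nbs n' p v).card = 1).card := by
      refine card_le_card_of_injOn e ?_ ?_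
      · intro v hv
        rw [mem_coe, mem_sdiff, mem_filter, mem_insert, not_or] at hv
        obtain ⟨⟨-, hv2⟩, hv1, hv3⟩ := hv
        rw [mem_coe, mem_filter, mem_range]
        exact ⟨hlt v hv3, by rw [hdeg v hv3 hv1]; exact hv2⟩
      · intro v hv v' hv' hvv
        rw [mem_coe, mem_sdiff, mem_insert, not_or] at hv hv'
        exact hinj v hv.2.2 v' hv'.2.2 hvv
    have h2 := card_le_card_sdiff_add_card (s := univ.filter fun v => G.degree v = 1) (t := insert A Λ)
    have h3 := card_insert_le A Λ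
    omega
  · refine card_le_card fun v hv => ?_
    rw [mem_filter]
    exact ⟨mem_univ _, (hΛ v hv).2⟩
  · intro hL hLn
    have h2 := deg_two94 G hG (by omega)
    obtain ⟨v, hv, hvA⟩ := exists_mem_ne (s := univ.filter fun v => G.degree v = 2) (by omega) A
    rw [mem_filter] at hv
    have h3 : h ∣ G.degree v - 1 := by
      rw [hh]
      exact Finset.gcd_dvd (f := fun v => G.degree v - 1) (mem_erase.2 ⟨hvA, mem_univ _⟩)
    rw [hv.2] at h3
    have h4 : h = 1 := Nat.dvd_one.1 h3
    have h5 : 2 ≤ (((univ.filter fun v => G.degree v = 1).erase A) \ Λ).card := by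
      have h6 := le_card_sdiff Λ ((univ.filter fun v => G.degree v = 1).erase A)
      by_cases hA1 : A ∈ (univ.filter fun v => G.degree v = 1)
      · have h7 := card_erase_of_mem hA1
        rw [mem_filter] at hA1
        have := hA1.2
        omega
      · have h7 := erase_eq_of_notMem hA1
        rw [h7] at h6 ⊢
        omega
    refine h5.trans ?_
    refine card_le_card_of_injOn e ?_ ?_
    · intro v hv
      rw [mem_coe, mem_sdiff, mem_erase, mem_filter] at hv
      obtain ⟨⟨hv1, -, hv2⟩, hv3⟩ := hv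
      rw [mem_coe, mem_filter, mem_erase, mem_range]
      exact ⟨⟨hne0 v hv3 hv1, hlt v hv3⟩, by rw [hdeg v hv3 hv1]; exact hv2⟩
    · intro v hv v' hv' hvv
      rw [mem_coe, mem_sdiff] at hv hv'
      exact hinj v hv.2 v' hv'.2 hvv
  · intro hf
    exact semA_graph G hG A (hsem hev hf)

open Classical in
/-- a tree which is not a path has at least three leaves -/
theorem three_leaves {n : ℕ} (G : SimpleGraph (Fin n)) (hG : G.IsTree) (h : ¬ ∀ v, G.degree v ≤ 2) :
    3 ≤ (univ.filter fun v => G.degree v = 1).card := by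
  push Not at h
  obtain ⟨v0, hv0⟩ := h
  have hn : 2 ≤ n := by
    have h1 := G.degree_lt_card_verts v0
    rw [Fintype.card_fin] at h1
    omega
  have hkey : ∀ v, 2 + (if v = v0 then 1 else 0) ≤ G.degree v + (if G.degree v = 1 then 1 else 0) := by
    intro v
    have h1 := degpos94 G hG hn v
    by_cases hv : v = v0
    · subst hv
      rw [if_pos rfl]
      split_ifs <;> omega
    · rw [if_neg hv]
      split_ifs <;> omega
  have hsum := sum_le_sum fun v (_ : v ∈ (univ : Finset (Fin n))) => hkey v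
  rw [sum_add_distrib, sum_add_distrib, ← card_filter, ← card_filter] at hsum
  have h1 : (univ.filter fun v => v = v0).card = 1 := by
    rw [card_eq_one]
    exact ⟨v0, by ext; simp⟩
  rw [h1] at hsum
  simp only [sum_const, card_univ, Fintype.card_fin, smul_eq_mul] at hsum
  have := sumdeg94 G hG
  omega

end Pool.Agent.BD
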