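import Pool.Agent.Helper73.BD.E2
import Pool.Agent.Helper73.BD.E3
import Pool.Agent.Helper73.BD.LY
import Pool.Agent.Helper73.BD.L0

/-!
# BD-ST: the start: labelling of `E`, `Bd` and the twins of `Bd`

`deg_twin`: for `v ∈ Q` the number of neighbours of `ι v` is that of `v`: the neighbours of `v` are in `Q` (and, for `v ∈ Bd`, exactly one in `E`; none in `ι(Q)` by `cr`), the neighbours of `ι v` are the
`ι w`, `w ∈ Q` adjacent to `v` (`tw`), and, for `v ∈ Bd`, exactly one in `E`.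
`weight_sum`: `∑_{v < n} #nbs v = 2(n-1)` (every `i`, `0 < i < n`, is the edge `(i, p i)`; `sum_edges` with `f = 1` or directly), and the vertices are those of `E`, `Q`, `ι(Q)`.
`start`: `elabel`, then `bdlabel` (`St = E ∪ Bd ∪ ι(Bd)`; a vertex of `Bd ∪ ι(Bd)` has at most `D + 1` neighbours).
* balance: `sum_edges` for `A = St`: for `v ∈ E` all the neighbours are in `St` (`Twin.inner`); so `v` contributes `#nbs v * f v`; `v ∈ Bd` and `ι v` have the same number of neighbours in `St` and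
  opposite labels; so the total is `∑_{v ∈ E} #nbs v * f v = e ∑_{v ∈ E} f v = e ∑_{v ∈ St} f v`.
* `|St| = |E| + 2|Bd|`, `n = |E| + 2|Q|` is even.
* `n - 1 = #EdI (range n) = #EdI E + 2 |Bd| + 2 #EdI Q` (`twin_edges`: `#EdI Q = #EdI ι(Q)`), `#EdI St = #EdI E + 2|Bd| + 2 #EdI Bd`; so `#EdI St ≡ n - 1` modulo 2.
-/

set_option autoImplicit false

namespace Pool.Agent.BD

open Finset Pool.Agent.SEM

private lemma ad_symm60 {p : ℕ → ℕ} {v w : ℕ} (h : Ad p v w) : Ad p w v := by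
  rcases h with h | h
  · exact Or.inr h
  · exact Or.inl h

private lemma ad_comm60 {p : ℕ → ℕ} {v w : ℕ} : Ad p v w ↔ Ad p w v := ⟨ad_symm60, ad_symm60⟩

private lemma dQ60 {n D : ℕ} {p ι : ℕ → ℕ} {E Bd Q : Finset ℕ} (hT : Twin n D p ι E Bd Q) :
    Disjoint (E ∪ Q) (Q.image ι) := by
  rw [Finset.disjoint_left]
  intro x hx hx'
  rw [Finset.mem_image] at hx'
  obtain ⟨v, hv, rfl⟩ := hx'
  have h := hT.ιn v hv
  rw [Finset.mem_union] at hx
  rcases hx with hx | hx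
  · exact h.2.2 hx
  · exact h.2.1 hx

private lemma card_filter_union60 {A B : Finset ℕ} (h : Disjoint A B) (P : ℕ → Prop) [DecidablePred P] :
    ((A ∪ B).filter P).card = (A.filter P).card + (B.filter P).card := by
  rw [Finset.filter_union, Finset.card_union_of_disjoint]
  exact Finset.disjoint_filter_filter h

private lemma filter_none60 {A : Finset ℕ} {P : ℕ → Prop} [DecidablePred P] (h : ∀ x ∈ A, ¬ P x) :
    (A.filter P).card = 0 := by
  rw [Finset.card_eq_zero, Finset.filter_eq_empty_iff]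
  exact fun x hx => h x hx

/-- number of neighbours of `v ∈ Q` in `E` -/
private lemma legs60 {n D : ℕ} {p ι : ℕ → ℕ} {E Bd Q : Finset ℕ} (hT : Twin n D p ι E Bd Q) {v : ℕ}
    (hv : v ∈ Q) : (E.filter fun w => Ad p v w).card = (if v ∈ Bd then 1 else 0) ∧
      (E.filter fun w => Ad p (ι v) w).card = if v ∈ Bd then 1 else 0 := by
  by_cases hB : v ∈ Bd
  · rw [if_pos hB]
    obtain ⟨⟨a, ⟨ha1, ha2⟩, ha3⟩, ⟨b, ⟨hb1, hb2⟩, hb3⟩⟩ := hT.leg v hB
    constructor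
    · rw [Finset.card_eq_one]
      refine ⟨a, ?_⟩
      ext x
      rw [Finset.mem_filter, Finset.mem_singleton]
      constructor
      · exact fun h => ha3 x h
      · rintro rfl
        exact ⟨ha1, ha2⟩
    · rw [Finset.card_eq_one]
      refine ⟨b, ?_⟩
      ext x
      rw [Finset.mem_filter, Finset.mem_singleton]
      constructor
      · exact fun h => hb3 x h
      · rintro rfl
        exact ⟨hb1, hb2⟩
  · rw [if_neg hB]
    exact ⟨filter_none60 fun x hx => (hT.inner v hv hB x hx).1,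
      filter_none60 fun x hx => (hT.inner v hv hB x hx).2⟩

/-- number of neighbours in `ι(B)`, `B ⊆ Q` -/
private lemma img60 {n D : ℕ} {p ι : ℕ → ℕ} {E Bd Q : Finset ℕ} (hT : Twin n D p ι E Bd Q) {v : ℕ}
    (hv : v ∈ Q) {B : Finset ℕ} (hB : B ⊆ Q) :
    ((B.image ι).filter fun w => Ad p (ι v) w).card = (B.filter fun w => Ad p v w).card := by
  have e : (B.image ι).filter (fun w => Ad p (ι v) w) = (B.filter fun w => Ad p v w).image ι := by
    ext x
    simp only [Finset.mem_filter, Finset.mem_image]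
    constructor
    · rintro ⟨⟨y, hy, rfl⟩, hxy⟩
      exact ⟨y, ⟨hy, (hT.tw v hv y (hB hy)).2 hxy⟩, rfl⟩
    · rintro ⟨y, ⟨hy, hxy⟩, rfl⟩
      exact ⟨⟨y, hy, rfl⟩, (hT.tw v hv y (hB hy)).1 hxy⟩
  rw [e, Finset.card_image_of_injOn]
  exact hT.ιinj.mono (by
    intro x hx
    rw [Finset.mem_coe, Finset.mem_filter] at hx
    exact Finset.mem_coe.2 (hB hx.1))

private lemma cnt60 {n D : ℕ} {p ι : ℕ → ℕ} {E Bd Q : Finset ℕ} (hT : Twin n D p ι E Bd Q) {B : Finset ℕ}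
    (hB : B ⊆ Q) {v : ℕ} (hv : v ∈ Q) :
    ((E ∪ B ∪ B.image ι).filter fun w => Ad p v w).card =
      (if v ∈ Bd then 1 else 0) + (B.filter fun w => Ad p v w).card ∧
    ((E ∪ B ∪ B.image ι).filter fun w => Ad p (ι v) w).card =
      (if v ∈ Bd then 1 else 0) + (B.filter fun w => Ad p v w).card := by
  have d1 : Disjoint E B := Finset.disjoint_of_subset_right hB hT.EQ
  have d2 : Disjoint (E ∪ B) (B.image ι) :=
    Finset.disjoint_of_subset_left (Finset.union_subset_union_right hB)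
      (Finset.disjoint_of_subset_right (Finset.image_subset_image hB) (dQ60 hT))
  obtain ⟨l1, l2⟩ := legs60 hT hv
  constructor
  · rw [card_filter_union60 d2, card_filter_union60 d1, l1, filter_none60 (A := B.image ι), add_zero]
    intro x hx
    rw [Finset.mem_image] at hx
    obtain ⟨y, hy, rfl⟩ := hx
    exact hT.cr v hv y (hB hy)
  · rw [card_filter_union60 d2, card_filter_union60 d1, l2, img60 hT hv hB,
      filter_none60 (A := B), add_zero]
    intro x hx hadj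
    exact hT.cr x (hB hx) v hv (ad_symm60 hadj)

theorem deg_twin {n D : ℕ} {p ι : ℕ → ℕ} {E Bd Q : Finset ℕ} (hT : Twin n D p ι E Bd Q) :
    ∀ v ∈ Q, (nbs n p (ι v)).card = (nbs n p v).card := by
  intro v hv
  unfold nbs
  rw [hT.cov]
  obtain ⟨h1, h2⟩ := cnt60 hT (Finset.Subset.refl Q) hv
  rw [h1, h2]

private lemma two_edges60 {p : ℕ → ℕ} {A : Finset ℕ} (hp : ∀ i ∈ A, 0 < i → p i < i) :
    2 * ((EdI p A).card : ℤ) = ∑ v ∈ A, ((A.filter fun w => Ad p v w).card : ℤ) := by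
  have h := sum_edges hp (fun _ => (1 : ℤ))
  simp only [mul_one] at h
  rw [← h, Finset.sum_const]
  simp only [nsmul_eq_mul]
  ring

private lemma edI_range60 {n D : ℕ} {p ι : ℕ → ℕ} {E Bd Q : Finset ℕ} (hT : Twin n D p ι E Bd Q) (hn : 0 < n) :
    ((EdI p (range n)).card : ℤ) = n - 1 := by
  have e : EdI p (range n) = (range n).erase 0 := by
    ext i
    unfold EdI
    rw [Finset.mem_filter, Finset.mem_erase, Finset.mem_range, Finset.mem_range]
    constructor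
    · rintro ⟨h1, h2, -⟩
      exact ⟨by omega, h1⟩
    · rintro ⟨h1, h2⟩
      have := hT.par i (by omega) h2
      exact ⟨h2, by omega, by omega⟩
  rw [e, Finset.card_erase_of_mem (Finset.mem_range.2 hn), Finset.card_range]
  omega

private lemma sum_split60 {n D : ℕ} {p ι : ℕ → ℕ} {E Bd Q : Finset ℕ} (hT : Twin n D p ι E Bd Q) {B : Finset ℕ}
    (hB : B ⊆ Q) (g : ℕ → ℤ) :
    ∑ v ∈ E ∪ B ∪ B.image ι, g v = ∑ v ∈ E, g v + ∑ v ∈ B, (g v + g (ι v)) := by
  have d1 : Disjoint E B := Finset.disjoint_of_subset_right hB hT.EQ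
  have d2 : Disjoint (E ∪ B) (B.image ι) :=
    Finset.disjoint_of_subset_left (Finset.union_subset_union_right hB)
      (Finset.disjoint_of_subset_right (Finset.image_subset_image hB) (dQ60 hT))
  rw [Finset.sum_union d2, Finset.sum_union d1, Finset.sum_add_distrib, add_assoc]
  congr 2
  rw [Finset.sum_image]
  intro x hx y hy hxy
  exact hT.ιinj (Finset.mem_coe.2 (hB hx)) (Finset.mem_coe.2 (hB hy)) hxy

private lemma par60 {n D : ℕ} {p ι : ℕ → ℕ} {E Bd Q : Finset ℕ} (hT : Twin n D p ι E Bd Q) :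
    ∀ i ∈ range n, 0 < i → p i < i := fun i hi h => hT.par i h (Finset.mem_range.1 hi)

theorem weight_sum {n D : ℕ} {p ι : ℕ → ℕ} {E Bd Q : Finset ℕ} (hT : Twin n D p ι E Bd Q) (hn : 0 < n) :
    ∑ v ∈ E, ((nbs n p v).card : ℤ) = 2 * (n - 1) - 2 * ∑ v ∈ Q, ((nbs n p v).card : ℤ) := by
  have h1 := two_edges60 (par60 hT)
  rw [edI_range60 hT hn] at h1
  have h2 : ∑ v ∈ range n, (((range n).filter fun w => Ad p v w).card : ℤ) =
      ∑ v ∈ range n, ((nbs n p v).card : ℤ) := rfl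
  rw [h2] at h1
  have h3 : ∑ v ∈ range n, ((nbs n p v).card : ℤ) =
      ∑ v ∈ E ∪ Q ∪ Q.image ι, ((nbs n p v).card : ℤ) := by rw [← hT.cov]
  rw [h3, sum_split60 hT (Finset.Subset.refl Q)] at h1
  have h4 : ∑ v ∈ Q, (((nbs n p v).card : ℤ) + ((nbs n p (ι v)).card : ℤ)) =
      2 * ∑ v ∈ Q, ((nbs n p v).card : ℤ) := by
    rw [Finset.mul_sum]
    refine Finset.sum_congr rfl fun v hv => ?_
    rw [deg_twin hT v hv]
    ring
  rw [h4] at h1
  linarith

/-- all the neighbours of a vertex of `E` are in `E ∪ Bd ∪ ι(Bd)` -/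
private lemma nbE60 {n D : ℕ} {p ι : ℕ → ℕ} {E Bd Q : Finset ℕ} (hT : Twin n D p ι E Bd Q) {v : ℕ} (hv : v ∈ E) :
    ((E ∪ Bd ∪ Bd.image ι).filter fun w => Ad p v w) = nbs n p v := by
  unfold nbs
  ext x
  rw [Finset.mem_filter, Finset.mem_filter]
  constructor
  · rintro ⟨h1, h2⟩
    refine ⟨?_, h2⟩
    rw [hT.cov]
    exact (Finset.union_subset_union (Finset.union_subset_union_right hT.BdQ)
      (Finset.image_subset_image hT.BdQ)) h1
  · rintro ⟨h1, h2⟩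
    refine ⟨?_, h2⟩
    rw [hT.cov, Finset.mem_union, Finset.mem_union, Finset.mem_image] at h1
    rw [Finset.mem_union, Finset.mem_union, Finset.mem_image]
    rcases h1 with (h1 | h1) | ⟨y, hy, rfl⟩
    · exact Or.inl (Or.inl h1)
    · by_cases hB : x ∈ Bd
      · exact Or.inl (Or.inr hB)
      · exact absurd (ad_symm60 h2) (hT.inner x h1 hB v hv).1
    · by_cases hB : y ∈ Bd
      · exact Or.inr ⟨y, hB, rfl⟩
      · exact absurd (ad_symm60 h2) (hT.inner y hy hB v hv).2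

/-- sums over the start set with the numbers of neighbours -/
private lemma stsum60 {n D : ℕ} {p ι : ℕ → ℕ} {E Bd Q : Finset ℕ} (hT : Twin n D p ι E Bd Q) (g : ℕ → ℤ) :
    ∑ v ∈ E ∪ Bd ∪ Bd.image ι, (((E ∪ Bd ∪ Bd.image ι).filter fun w => Ad p v w).card : ℤ) * g v =
      ∑ v ∈ E, ((nbs n p v).card : ℤ) * g v +
        ∑ v ∈ Bd, (1 + ((Bd.filter fun w => Ad p v w).card : ℤ)) * (g v + g (ι v)) := by
  rw [sum_split60 hT hT.BdQ]
  congr 1
  · refine Finset.sum_congr rfl fun v hv => ?_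
    rw [nbE60 hT hv]
  · refine Finset.sum_congr rfl fun v hv => ?_
    obtain ⟨h1, h2⟩ := cnt60 hT hT.BdQ (hT.BdQ hv)
    rw [h1, h2, if_pos hv]
    push_cast
    ring

private lemma card_st60 {n D : ℕ} {p ι : ℕ → ℕ} {E Bd Q : Finset ℕ} (hT : Twin n D p ι E Bd Q) {B : Finset ℕ}
    (hB : B ⊆ Q) : (E ∪ B ∪ B.image ι).card = E.card + 2 * B.card := by
  have h := sum_split60 hT hB (fun _ => (1 : ℤ))
  simp only [Finset.sum_const, nsmul_eq_mul, mul_one] at h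
  have h2 : ((E ∪ B ∪ B.image ι).card : ℤ) = ((E.card + 2 * B.card : ℕ) : ℤ) := by
    push_cast
    linarith
  exact_mod_cast h2

private lemma parity60 {n D : ℕ} {p ι : ℕ → ℕ} {E Bd Q : Finset ℕ} (hT : Twin n D p ι E Bd Q) (hn : 0 < n)
    (hn2 : Even n) : Even (E ∪ Bd ∪ Bd.image ι).card ∧ Odd (EdI p (E ∪ Bd ∪ Bd.image ι)).card := by
  have c1 := card_st60 hT hT.BdQ
  have c2 := card_st60 hT (Finset.Subset.refl Q)
  rw [← hT.cov, Finset.card_range] at c2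
  have hsub : E ∪ Bd ∪ Bd.image ι ⊆ range n := by
    rw [hT.cov]
    exact Finset.union_subset_union (Finset.union_subset_union_right hT.BdQ)
      (Finset.image_subset_image hT.BdQ)
  have hQn : ∀ i ∈ Q, 0 < i → p i < i := fun i hi => par60 hT i (hT.Qn hi)
  have hBn : ∀ i ∈ Bd, 0 < i → p i < i := fun i hi => hQn i (hT.BdQ hi)
  have e1 := two_edges60 (p := p) (A := E ∪ Bd ∪ Bd.image ι) (fun i hi => par60 hT i (hsub hi))
  have e2 := stsum60 hT (fun _ => (1 : ℤ))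
  simp only [mul_one] at e2
  rw [← e1] at e2
  have e3 := weight_sum hT hn
  have e4 : ∑ v ∈ Q, ((nbs n p v).card : ℤ) = Bd.card + 2 * ((EdI p Q).card : ℤ) := by
    have h1 : ∀ v ∈ Q, ((nbs n p v).card : ℤ) =
        (if v ∈ Bd then 1 else 0) + ((Q.filter fun w => Ad p v w).card : ℤ) := by
      intro v hv
      unfold nbs
      rw [hT.cov, (cnt60 hT (Finset.Subset.refl Q) hv).1]
      push_cast
      rfl
    rw [Finset.sum_congr rfl h1, Finset.sum_add_distrib, ← two_edges60 hQn]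
    congr 1
    rw [Finset.sum_ite_mem, Finset.inter_eq_right.2 hT.BdQ, Finset.sum_const]
    simp
  have e5 := two_edges60 (p := p) (A := Bd) hBn
  have e6 : ∑ v ∈ Bd, (1 + ((Bd.filter fun w => Ad p v w).card : ℤ)) * ((1 : ℤ) + 1) =
      2 * (Bd.card + 2 * ((EdI p Bd).card : ℤ)) := by
    rw [← Finset.sum_mul, Finset.sum_add_distrib, ← e5, Finset.sum_const]
    simp only [nsmul_eq_mul]
    ring
  rw [e6, e3, e4] at e2
  obtain ⟨k, hk⟩ := hn2
  constructor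
  · rw [c1, Nat.even_add]
    constructor
    · intro _
      exact even_two_mul _
    · intro _
      rw [Nat.even_iff]
      omega
  · rw [Nat.odd_iff]
    have hkk : (n : ℤ) = k + k := by exact_mod_cast hk
    omega

theorem start {n D D' e : ℕ} {p ι : ℕ → ℕ} {UX US E Bd Q E1 E2 Va : Finset ℕ} {B1 b u1 u2 h : ℕ} (hT : Twin n D p ι E Bd Q)
    (hn2 : Even n) (hn : 2 ≤ n) (β : ℕ → ℤ) (w0 : ℤ) (w : ℕ → ℤ) (hw : ∀ v, w v = ((nbs n p v).card : ℤ) - e)
    (hB : B1 ∈ E ∧ 0 < B1 ∧ p B1 ∈ E ∧ p B1 ≠ 0)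
    (hE : E = {0, B1, p B1} ∪ E1 ∪ E2 ∪ Va ∪ {u1, u2}) (d1 : Disjoint ({0, B1, p B1} : Finset ℕ) E1)
    (d2 : Disjoint ({0, B1, p B1} ∪ E1) E2) (d3 : Disjoint ({0, B1, p B1} ∪ E1 ∪ E2) Va)
    (d4 : Disjoint ({0, B1, p B1} ∪ E1 ∪ E2 ∪ Va) {u1, u2}) (hu : u1 ≠ u2) (hadj : ¬ Ad p u1 u2)
    (hw2 : ∀ v ∈ E2, 1 ≤ |w v| ∧ |w v| ≤ D')
    (hdeg : ∀ v ∈ E2 ∪ Va ∪ {u1, u2}, (nbs n p v).card ≤ D' + 4)
    (hws : ∑ v ∈ {0, B1, p B1} ∪ E1, |w v| ≤ 2 * E2.card + D')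
    (hVa : Va.card ≤ D' + 1) (hVw : ∀ v ∈ Va, |w v| ≤ D')
    (hw0 : w0 ≠ 0 ∧ |w0| ≤ D' ∧ w u1 = w0 ∧ w u2 = w0)
    (hh : 0 < h) (hdvd : ∀ v ∈ E, v ≠ 0 → (h : ℤ) ∣ w v) (hβ : w0 ∣ ∑ v ∈ Va, β v * w v - h)
    (hpar : (2 * (h : ℤ)) ∣ ∑ v ∈ E.erase 0, w v - w 0)
    (h1 : 1 ∉ UX) (hDD : D + 2 ≤ D')
    (hb : 1000 * (D' + 10) ^ 3 * (UX.card + US.card + E.card + 2 * Bd.card + 10) ≤ b) :
    ∃ f : ℕ → ℤ, PLb p UX US (E ∪ Bd ∪ Bd.image ι) f ∧ f 0 = -1 ∧ f B1 + f (p B1) = 0 ∧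
      (∀ v ∈ E ∪ Bd ∪ Bd.image ι, |f v| ≤ 50 * (D' + 1) ^ 2 * b) ∧ (∀ v ∈ Bd, f (ι v) = -f v) ∧
      ∑ i ∈ EdI p (E ∪ Bd ∪ Bd.image ι), (f i + f (p i)) = e * ∑ v ∈ E ∪ Bd ∪ Bd.image ι, f v ∧
      Even (E ∪ Bd ∪ Bd.image ι).card ∧ Odd (EdI p (E ∪ Bd ∪ Bd.image ι)).card := by
  classical
  obtain ⟨hB1, hB2, hB3, hB4⟩ := hB
  have hpE : ∀ i ∈ E, 0 < i → p i < i := fun i hi => par60 hT i (hT.En hi)
  have hsubn : E ∪ Bd ∪ Bd.image ι ⊆ range n := by
    rw [hT.cov]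
    exact Finset.union_subset_union (Finset.union_subset_union_right hT.BdQ)
      (Finset.image_subset_image hT.BdQ)
  have hbE : 1000 * (D' + 10) ^ 3 * (UX.card + US.card + E.card + 10) ≤ b :=
    (Nat.mul_le_mul_left _ (by omega)).trans hb
  have hdegE : ∀ v ∈ E2 ∪ Va ∪ {u1, u2}, (E.filter fun u => Ad p v u).card ≤ D' + 4 := by
    intro v hv
    refine le_trans (Finset.card_le_card ?_) (hdeg v hv)
    unfold nbs
    exact Finset.filter_subset_filter _ hT.En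
  obtain ⟨f, hf1, hf2, hf3, hf4, hf5⟩ := elabel w β w0 hpE hT.zE ⟨hB1, hB2, hB3, hB4⟩ hE d1 d2 d3 d4
    hu hadj hw2 hdegE hws hVa hVw hw0 hh hdvd hβ hpar h1 hbE
  have hbB : 100 * (D' + 1) ^ 2 * (UX.card + US.card + E.card + 2 * Bd.card + 10) ≤ b := by
    refine le_trans (Nat.mul_le_mul_right _ ?_) hb
    have a1 : (D' + 1) ^ 2 ≤ (D' + 10) ^ 2 := Nat.pow_le_pow_left (by omega) 2
    have a2 : (D' + 10) ^ 2 ≤ (D' + 10) ^ 3 := Nat.pow_le_pow_right (by omega) (by omega)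
    omega
  have dE : Disjoint E Bd := Finset.disjoint_of_subset_right hT.BdQ hT.EQ
  have hιB : Set.InjOn ι Bd := hT.ιinj.mono (Finset.coe_subset.2 hT.BdQ)
  have dι : Disjoint (Bd.image ι) (E ∪ Bd) :=
    (Finset.disjoint_of_subset_left (Finset.union_subset_union_right hT.BdQ)
      (Finset.disjoint_of_subset_right (Finset.image_subset_image hT.BdQ) (dQ60 hT))).symm
  have hcr : ∀ v ∈ Bd, ∀ w ∈ Bd, ¬ Ad p v (ι w) := fun v hv w hw => hT.cr v (hT.BdQ hv) w (hT.BdQ hw)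
  have hcount : ∀ v ∈ Bd, (Bd.filter fun w => Ad p v w).card ≤ D := fun v hv =>
    (Finset.card_le_card (Finset.filter_subset_filter _ hT.BdQ)).trans (hT.deg v (hT.BdQ hv))
  have hdegB : ∀ v ∈ Bd ∪ Bd.image ι, ((E ∪ Bd ∪ Bd.image ι).filter fun w => Ad p v w).card ≤ D' := by
    intro v hv
    rw [Finset.mem_union, Finset.mem_image] at hv
    rcases hv with hv | ⟨y, hy, rfl⟩
    · rw [(cnt60 hT hT.BdQ (hT.BdQ hv)).1, if_pos hv]
      have := hcount v hv
      omega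
    · rw [(cnt60 hT hT.BdQ (hT.BdQ hy)).2, if_pos hy]
      have := hcount y hy
      omega
  obtain ⟨g, hg1, hg2, hg3⟩ := bdlabel hf1 (fun i hi => par60 hT i (hsubn hi)) dE hιB dι hcr hdegB hbB
  have hble : (b : ℤ) ≤ 50 * ((D' : ℤ) + 1) ^ 2 * b := by
    have hb0 : (0 : ℤ) ≤ b := Int.natCast_nonneg _
    have hD0 : (0 : ℤ) ≤ D' := Int.natCast_nonneg _
    have : (1 : ℤ) ≤ 50 * ((D' : ℤ) + 1) ^ 2 := by nlinarith
    nlinarith
  refine ⟨g, hg3, ?_, ?_, ?_, fun v hv => (hg2 v hv).1, ?_, parity60 hT (by omega) hn2⟩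
  · rw [hg1 0 hT.zE, hf2]
  · rw [hg1 B1 hB1, hg1 (p B1) hB3, hf3]
  · intro v hv
    rw [Finset.mem_union, Finset.mem_union, Finset.mem_image] at hv
    rcases hv with (hv | hv) | ⟨y, hy, rfl⟩
    · rw [hg1 v hv]
      exact hf4 v hv
    · exact (hg2 v hv).2.trans hble
    · rw [(hg2 y hy).1, abs_neg]
      exact (hg2 y hy).2.trans hble
  · have s1 := sum_edges (p := p) (A := E ∪ Bd ∪ Bd.image ι) (fun i hi => par60 hT i (hsubn hi)) g
    have s2 := stsum60 hT g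
    have s3 := sum_split60 hT hT.BdQ g
    have z1 : ∑ v ∈ Bd, (1 + ((Bd.filter fun w => Ad p v w).card : ℤ)) * (g v + g (ι v)) = 0 := by
      refine Finset.sum_eq_zero fun v hv => ?_
      rw [(hg2 v hv).1]
      ring
    have z2 : ∑ v ∈ Bd, (g v + g (ι v)) = 0 := by
      refine Finset.sum_eq_zero fun v hv => ?_
      rw [(hg2 v hv).1]
      ring
    rw [s1, s2, s3, z1, z2, add_zero, add_zero, Finset.mul_sum]
    have z3 : ∑ v ∈ E, (((nbs n p v).card : ℤ) * g v - e * g v) = 0 := by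
      rw [← hf5]
      refine Finset.sum_congr rfl fun v hv => ?_
      rw [hg1 v hv, hw v]
      ring
    rw [Finset.sum_sub_distrib] at z3
    linarith

end Pool.Agent.BD
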