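import Pool.Agent.Helper73.BD.B1
import Pool.Agent.Helper73.BD.B2
import Pool.Agent.Helper73.BD.RD

/-!
# BD-Z: the two theorems
-/

set_option autoImplicit false

namespace Pool.Agent.BD

open Finset Pool.Agent.SEM

open Classical in
/-- super edge-magic labelling, in the form of the frozen statement -/
def SEMG {n : ℕ} (G : SimpleGraph (Fin n)) : Prop :=
  ∃ (f : Fin n → ℕ) (g : G.edgeSet → ℕ) (k : ℕ),
    Function.Injective f ∧ (∀ v, 1 ≤ f v ∧ f v ≤ n) ∧
    Function.Injective g ∧ (∀ e, n + 1 ≤ g e ∧ g e < 2 * n) ∧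
    ∀ (e : G.edgeSet) (u v : Fin n), (e : Sym2 (Fin n)) = s(u, v) → f u + g e + f v = k

open Classical in
theorem star_leaves {n : ℕ} (G : SimpleGraph (Fin n)) (hG : G.IsTree) (hn : 2 ≤ n) (v : Fin n) (hv : G.degree v + 1 = n) :
    n ≤ (univ.filter fun v => G.degree v = 1).card + 1 := by
  haveI : Nontrivial (Fin n) := Fin.nontrivial_iff_two_le.2 hn
  have h1 := G.sum_degrees_eq_twice_card_edges
  have h2 := hG.card_edgeFinset
  rw [Fintype.card_fin] at h2
  rw [← add_sum_erase univ _ (mem_univ v)] at h1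
  have hpos : ∀ u, 1 ≤ G.degree u := fun u => hG.isConnected.preconnected.degree_pos_of_nontrivial u
  have h3 : ∑ u ∈ univ.erase v, (G.degree u - 1) = 0 := by
    have h4 : ∑ u ∈ univ.erase v, G.degree u = ∑ u ∈ univ.erase v, ((G.degree u - 1) + 1) :=
      sum_congr rfl fun u _ => by have := hpos u; omega
    rw [sum_add_distrib, sum_const, smul_eq_mul, mul_one, card_erase_of_mem (mem_univ _), card_univ, Fintype.card_fin] at h4
    omega
  have hone : ∀ u ∈ univ.erase v, G.degree u = 1 := by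
    intro u hu
    have h4 := (sum_eq_zero_iff.1 h3) u hu
    have := hpos u
    omega
  have hsub : (univ.erase v) ⊆ (univ.filter fun v => G.degree v = 1) := by
    intro u hu
    rw [mem_filter]
    exact ⟨mem_univ _, hone u hu⟩
  have := card_le_card hsub
  rw [card_erase_of_mem (mem_univ _), card_univ, Fintype.card_fin] at this
  omega

open Classical in
/-- few leaves -/
theorem main2 : ∃ (ε0 : ℝ) (n0 : ℕ), 0 < ε0 ∧ ∀ (n : ℕ) (G : SimpleGraph (Fin n)), n0 ≤ n → G.IsTree →
    ((univ.filter fun v => G.degree v = 1).card : ℝ) ≤ ε0 * n → SEMG G := by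
  obtain ⟨ε0, n0, hε0, hB⟩ := bigB2
  obtain ⟨n1, hn1⟩ := exists_nat_ge (8 / ε0)
  refine ⟨min (ε0 / 4) (1 / 4), max (max (2 * n0) n1) 100, lt_min (by positivity) (by norm_num), ?_⟩
  intro n G hn hG hlf
  by_cases hpath : ∀ v, G.degree v ≤ 2
  · exact path_sem G hG hpath
  have h3 := three_leaves G hG hpath
  set L : ℕ := (univ.filter fun v => G.degree v = 1).card with hL
  have k1 : 2 * n0 ≤ n := by omega
  have k2 : n1 ≤ n := by omega
  have k3 : 100 ≤ n := by omega
  have hnR : (0 : ℝ) < n := by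
    have : 0 < n := by omega
    exact_mod_cast this
  have hL1 : (L : ℝ) ≤ ε0 / 4 * n := hlf.trans (mul_le_mul_of_nonneg_right (min_le_left _ _) hnR.le)
  have hL2 : (L : ℝ) ≤ 1 / 4 * n := hlf.trans (mul_le_mul_of_nonneg_right (min_le_right _ _) hnR.le)
  have hL3 : 4 * L ≤ n := by
    have : (4 : ℝ) * L ≤ n := by linarith
    exact_mod_cast this
  have hns : ∀ v, G.degree v + 1 < n := by
    intro v
    by_contra hcon
    have hd : G.degree v < n := by
      have := G.degree_lt_card_verts v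
      rwa [Fintype.card_fin] at this
    have := star_leaves G hG (by omega) v (by omega)
    omega
  obtain ⟨n', lam, p, hnn, hn'2, hn'0, hp, hdvd, hdeg, hlf', hlf'', hlam, hnr, hfin⟩ := reduce G hG (by omega) hns
  rw [← hL] at hlf' hlf'' hlam hnr
  refine hfin (hB n' p (by omega) hn'2 hp ?_ (hnr h3 (by omega)))
  have h4 : (((range n').filter fun v => (nbs n' p v).card = 1).card : ℝ) ≤ L + 1 := by exact_mod_cast hlf'
  have h5 : (n : ℝ) ≤ 4 / 3 * n' := by
    have : 3 * n ≤ 4 * n' := by omega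
    have : (3 : ℝ) * n ≤ 4 * n' := by exact_mod_cast this
    linarith
  have h6 : (1 : ℝ) ≤ ε0 / 8 * n := by
    have h7 : 8 / ε0 ≤ n := hn1.trans (by exact_mod_cast k2)
    rw [div_le_iff₀ hε0] at h7
    linarith
  have h8 : ε0 * (n : ℝ) ≤ ε0 * (4 / 3 * n') := mul_le_mul_of_nonneg_left h5 hε0.le
  linarith

open Classical in
/-- bounded degree -/
theorem main1 (D : ℕ) : ∃ n0 : ℕ, ∀ (n : ℕ) (G : SimpleGraph (Fin n)), n0 ≤ n → G.IsTree → (∀ v, G.degree v ≤ D) → SEMG G := by
  obtain ⟨ε0, n0, hε0, hB2⟩ := main2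
  obtain ⟨n1, hn1⟩ := exists_nat_ge (4 * ((D : ℝ) + 1) / min ε0 1)
  have hm : 0 < min ε0 1 := lt_min hε0 one_pos
  obtain ⟨n2, hB1⟩ := bigB1 (max D 2) (min ε0 1 / 2) (le_max_right _ _) (by positivity) (by
    have := min_le_right ε0 1
    linarith)
  refine ⟨max (max n0 n1) (max (2 * n2) (4 * D + 100)), ?_⟩
  intro n G hn hG hdeg
  have k0 : n0 ≤ n := by omega
  have k1 : n1 ≤ n := by omega
  have k2 : 2 * n2 ≤ n := by omega
  have k3 : 4 * D + 100 ≤ n := by omega
  by_cases hfew : ((univ.filter fun v => G.degree v = 1).card : ℝ) ≤ ε0 * n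
  · exact hB2 n G k0 hG hfew
  rw [not_le] at hfew
  set L : ℕ := (univ.filter fun v => G.degree v = 1).card with hL
  obtain ⟨n', lam, p, hnn, hn'2, hn'0, hp, hdvd, hdeg', hlf', hlf'', hlam, hnr, hfin⟩ := reduce G hG (by omega)
    (fun v => by have := hdeg v; omega)
  obtain ⟨hl1, hd1⟩ := hdeg' D hdeg
  rw [← hL] at hlf''
  refine hfin (hB1 n' p (by omega) hn'2 hp (fun v hv => (hd1 v hv).trans (le_max_left _ _)) ?_ hdvd)
  have h4 : (L : ℝ) ≤ (((range n').filter fun v => (nbs n' p v).card = 1).card : ℝ) + lam + 1 := by exact_mod_cast hlf''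
  have h5 : (n' : ℝ) ≤ n := by
    have : n' ≤ n := by omega
    exact_mod_cast this
  have h6 : (lam : ℝ) ≤ D := by
    have : lam ≤ D := by omega
    exact_mod_cast this
  have h7 : 4 * ((D : ℝ) + 1) ≤ min ε0 1 * n := by
    have h8 : 4 * ((D : ℝ) + 1) / min ε0 1 ≤ n := hn1.trans (by exact_mod_cast k1)
    rw [div_le_iff₀ hm] at h8
    linarith
  have h9 : min ε0 1 * (n : ℝ) ≤ ε0 * n := mul_le_mul_of_nonneg_right (min_le_left _ _) (by positivity)
  have h10 : min ε0 1 / 2 * (n' : ℝ) ≤ min ε0 1 / 2 * n := mul_le_mul_of_nonneg_left h5 (by positivity)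
  linarith

end Pool.Agent.BD
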